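import Mathlib

/-!
Laurent polynomial algebra used to organise the multilinear limits.
-/

open Complex Polynomial
open scoped ComplexConjugate

noncomputable section

namespace Pool.Agent.Lib.MP_a52643_an

abbrev LA (ι : Type) : Type := AddMonoidAlgebra ℝ (ι → ℤ)

section general

variable {ι κ : Type} [Fintype ι] [DecidableEq ι] [Fintype κ] [DecidableEq κ]

/-- the linear functional with prescribed values on monomials -/
def lin {E : Type*} [AddCommGroup E] [Module ℝ E] (q : (ι → ℤ) → E) : LA ι →ₗ[ℝ] E :=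
  (Finsupp.linearCombination ℝ q).comp (AddMonoidAlgebra.coeffLinearEquiv ℝ).toLinearMap

omit [Fintype ι] [DecidableEq ι] in
@[simp] lemma lin_single {E : Type*} [AddCommGroup E] [Module ℝ E] (q : (ι → ℤ) → E)
    (a : ι → ℤ) (c : ℝ) : lin q (AddMonoidAlgebra.single a c) = c • q a := by
  simp [lin]

def W (i : ι) : LA ι := AddMonoidAlgebra.single (Pi.single i 1) 1

def W' (i : ι) : LA ι := AddMonoidAlgebra.single (-Pi.single i 1) 1

omit [Fintype ι] in
lemma W_mul_W' (i : ι) : W i * W' i = 1 := by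
  simp [W, W', AddMonoidAlgebra.single_mul_single, AddMonoidAlgebra.one_def]

def hf {A : Type*} [CommRing A] [Algebra ℝ A] : A := algebraMap ℝ A (1 / 2)

lemma two_hf {A : Type*} [CommRing A] [Algebra ℝ A] : (2 : A) * hf = 1 := by
  rw [hf, ← map_ofNat (algebraMap ℝ A) 2, ← map_mul]; simp

lemma two_hf' {A B : Type*} [CommRing A] [Algebra ℝ A] [CommRing B] [Algebra ℝ B]
    (_f : A →ₐ[ℝ] B) : (2 : B) * hf = 1 := two_hf

@[simp] lemma map_hf {A B : Type*} [CommRing A] [Algebra ℝ A] [CommRing B] [Algebra ℝ B]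
    (f : A →ₐ[ℝ] B) : f hf = hf := f.commutes _

def cc (i j : ι) : LA ι := hf * (W i * W' j + W' i * W j)

def Kills (Q : LA ι →ₗ[ℝ] ℂ) : Prop :=
  ∀ P, Q ((∑ i, W i) * P) = 0 ∧ Q ((∑ i, W' i) * P) = 0

lemma kills_lin {q : (ι → ℤ) → ℂ} (h1 : ∀ a : ι → ℤ, ∑ i : ι, q (a + Pi.single i 1) = 0)
    (h2 : ∀ a : ι → ℤ, ∑ i : ι, q (a - Pi.single i 1) = 0) : Kills (lin q) := by
  intro P
  induction P using AddMonoidAlgebra.induction_linear with
  | zero => simp
  | add f g hf hg => simp [mul_add, hf.1, hf.2, hg.1, hg.2]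
  | single a c =>
    simp only [Finset.sum_mul, map_sum, W, W', AddMonoidAlgebra.single_mul_single, lin_single,
      one_mul, ← Finset.smul_sum]
    constructor
    · simp only [add_comm _ a, h1, smul_zero]
    · simp only [neg_add_eq_sub, h2, smul_zero]

def nullI (Q : LA ι →ₗ[ℝ] ℂ) : Ideal (LA ι) where
  carrier := {P | ∀ P', Q (P * P') = 0}
  add_mem' := fun {a b} ha hb P' => by simp [add_mul, ha P', hb P']
  zero_mem' := fun P' => by simp
  smul_mem' := fun c P h P' => by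
    have := h (c * P')
    rwa [smul_eq_mul, mul_comm c P, mul_assoc]

omit [Fintype ι] [DecidableEq ι] in
lemma eq_of_mk_eq {Q : LA ι →ₗ[ℝ] ℂ} {x y : LA ι}
    (h : Ideal.Quotient.mkₐ ℝ (nullI Q) x = Ideal.Quotient.mkₐ ℝ (nullI Q) y) : Q x = Q y := by
  have h1 : x - y ∈ nullI Q := Ideal.Quotient.eq.1 h
  have := h1 1
  rwa [mul_one, map_sub, sub_eq_zero] at this

lemma Kills.mk1 {Q : LA ι →ₗ[ℝ] ℂ} (h : Kills Q) :
    ∑ i, Ideal.Quotient.mkₐ ℝ (nullI Q) (W i) = 0 := by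
  rw [← map_sum]
  exact Ideal.Quotient.eq_zero_iff_mem.2 fun P => (h P).1

lemma Kills.mk2 {Q : LA ι →ₗ[ℝ] ℂ} (h : Kills Q) :
    ∑ i, Ideal.Quotient.mkₐ ℝ (nullI Q) (W' i) = 0 := by
  rw [← map_sum]
  exact Ideal.Quotient.eq_zero_iff_mem.2 fun P => (h P).2

omit [Fintype ι] in
lemma map_WW' {B : Type*} [CommRing B] [Algebra ℝ B] (f : LA ι →ₐ[ℝ] B) (i : ι) :
    f (W i) * f (W' i) = 1 := by rw [← map_mul, W_mul_W', map_one]

/-- evaluation at nonzero complex numbers -/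
def evC (u : ι → ℂ) (hu : ∀ i, u i ≠ 0) : LA ι →ₐ[ℝ] ℂ :=
  AddMonoidAlgebra.lift ℝ ℂ (ι → ℤ)
    { toFun := fun a => ∏ i, u i ^ (a.toAdd i)
      map_one' := by simp
      map_mul' := fun a b => by simp [zpow_add₀ (hu _), Finset.prod_mul_distrib] }

omit [DecidableEq ι] in
lemma evC_single (u : ι → ℂ) (hu : ∀ i, u i ≠ 0) (a : ι → ℤ) (c : ℝ) :
    evC u hu (AddMonoidAlgebra.single a c) = c • ∏ i, u i ^ a i := by
  simp [evC]

lemma evC_W (u : ι → ℂ) (hu : ∀ i, u i ≠ 0) (i : ι) : evC u hu (W i) = u i := by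
  rw [W, evC_single, one_smul, Finset.prod_eq_single i] <;> simp +contextual

lemma evC_W' (u : ι → ℂ) (hu : ∀ i, u i ≠ 0) (i : ι) : evC u hu (W' i) = (u i)⁻¹ := by
  rw [W', evC_single, one_smul, Finset.prod_eq_single i] <;> simp +contextual

/-- the involution matching complex conjugation -/
def invol : LA ι →ₐ[ℝ] LA ι :=
  AddMonoidAlgebra.lift ℝ (LA ι) (ι → ℤ)
    { toFun := fun a => AddMonoidAlgebra.single (-a.toAdd) ((-1) ^ (∑ i, a.toAdd i))
      map_one' := by simp [AddMonoidAlgebra.one_def]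
      map_mul' := fun a b => by
        simp [AddMonoidAlgebra.single_mul_single, Finset.sum_add_distrib, zpow_add₀, add_comm] }

omit [DecidableEq ι] in
lemma invol_single (a : ι → ℤ) (c : ℝ) :
    invol (AddMonoidAlgebra.single a c)
      = AddMonoidAlgebra.single (-a) (c * (-1) ^ (∑ i, a i)) := by
  simp [invol]

lemma invol_W (i : ι) : invol (W i) = -W' i := by
  simp [W, W', invol_single, Finset.sum_pi_single', AddMonoidAlgebra.single_neg]

lemma invol_W' (i : ι) : invol (W' i) = -W i := by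
  simp [W, W', invol_single, Finset.sum_pi_single', AddMonoidAlgebra.single_neg]

lemma invol_cc (i j : ι) : invol (cc i j) = cc i j := by
  simp [cc, invol_W, invol_W', add_comm]

/-- relabelling of variables -/
def relHom (f : ι → κ) : (ι → ℤ) →+ (κ → ℤ) where
  toFun a := ∑ i, Pi.single (f i) (a i)
  map_zero' := by simp
  map_add' a b := by simp [Pi.single_add, Finset.sum_add_distrib]

def rel (f : ι → κ) : LA ι →ₐ[ℝ] LA κ := AddMonoidAlgebra.mapDomainAlgHom ℝ ℝ (relHom f)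

omit [DecidableEq ι] [Fintype κ] in
lemma rel_single (f : ι → κ) (a : ι → ℤ) (c : ℝ) :
    rel f (AddMonoidAlgebra.single a c) = AddMonoidAlgebra.single (relHom f a) c := by
  simp [rel]

omit [Fintype κ] in
lemma relHom_single (f : ι → κ) (i : ι) : relHom f (Pi.single i 1) = Pi.single (f i) 1 := by
  simp only [relHom, AddMonoidHom.coe_mk, ZeroHom.coe_mk]
  rw [Finset.sum_eq_single i] <;> simp +contextual

omit [Fintype κ] in
lemma rel_W (f : ι → κ) (i : ι) : rel f (W i) = W (f i) := by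
  rw [W, rel_single, relHom_single, W]

omit [Fintype κ] in
lemma rel_W' (f : ι → κ) (i : ι) : rel f (W' i) = W' (f i) := by
  rw [W', rel_single, map_neg, relHom_single, W']

omit [Fintype κ] in
lemma rel_cc (f : ι → κ) (i j : ι) : rel f (cc i j) = cc (f i) (f j) := by
  simp [cc, rel_W, rel_W']

lemma relHom_equiv (σ : ι ≃ ι) (a : ι → ℤ) : relHom σ a = a ∘ σ.symm := by
  ext j
  simp only [relHom, AddMonoidHom.coe_mk, ZeroHom.coe_mk, Finset.sum_apply, Function.comp]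
  rw [Finset.sum_eq_single (σ.symm j)]
  · simp
  · intro i _ hi
    rw [Pi.single_apply, if_neg]
    rintro rfl
    simp at hi
  · simp

lemma lin_rel_equiv {q : (ι → ℤ) → ℂ} (σ : ι ≃ ι) (h : ∀ a, q (a ∘ σ.symm) = q a) (P : LA ι) :
    lin q (rel σ P) = lin q P := by
  induction P using AddMonoidAlgebra.induction_linear with
  | zero => simp
  | add f g hf hg => simp [hf, hg]
  | single a c => simp [rel_single, relHom_equiv, h]

end general

section four

variable {Q : LA (Fin 4) →ₗ[ℝ] ℂ}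

lemma Kills.swap_pair (h : Kills Q) (p p' : ℝ[X]) :
    Q (aeval (cc 0 1) p * aeval (cc 2 3) p') = Q (aeval (cc 0 1) (p * p')) := by
  apply eq_of_mk_eq
  set π := Ideal.Quotient.mkₐ ℝ (nullI Q)
  have h1 := h.mk1
  have h2 := h.mk2
  simp only [Fin.sum_univ_four] at h1 h2
  have e : π (cc 2 3) = π (cc 0 1) := by
    simp only [cc, map_mul, map_add, map_hf]
    linear_combination hf * (π (W' 2) + π (W' 3)) * h1 - hf * (π (W 0) + π (W 1)) * h2
      - hf * map_WW' π 2 - hf * map_WW' π 3 + hf * map_WW' π 0 + hf * map_WW' π 1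
  simp only [map_mul, ← aeval_algHom_apply, e]

/-- the polynomial to which the div-curl lemma is applied -/
def dcP (k : ℝ[X]) : LA (Fin 4) := hf * hf * (W' 0 + W' 2) * (W' 0 + W' 3) * aeval (cc 0 2) k

lemma Kills.to_dc (h : Kills Q) (k : ℝ[X]) :
    Q ((1 + cc 0 2) * (1 + cc 0 3) * aeval (cc 0 2) k) = Q ((W 2 * W 3 - W 0 * W 1) * dcP k) := by
  apply eq_of_mk_eq
  set π := Ideal.Quotient.mkₐ ℝ (nullI Q)
  have h1 := h.mk1
  simp only [Fin.sum_univ_four] at h1
  have e2 : 1 + π (cc 0 2) = hf * (π (W 0) + π (W 2)) * (π (W' 0) + π (W' 2)) := by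
    simp only [cc, map_mul, map_add, map_hf]
    linear_combination (-1) * two_hf' π - hf * map_WW' π 0 - hf * map_WW' π 2
  have e3 : 1 + π (cc 0 3) = hf * (π (W 0) + π (W 3)) * (π (W' 0) + π (W' 3)) := by
    simp only [cc, map_mul, map_add, map_hf]
    linear_combination (-1) * two_hf' π - hf * map_WW' π 0 - hf * map_WW' π 3
  simp only [dcP, map_mul, map_add, map_one, map_sub, map_hf, e2, e3]
  linear_combination (hf * hf * (π (W' 0) + π (W' 2)) * (π (W' 0) + π (W' 3))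
    * π (aeval (cc 0 2) k) * π (W 0)) * h1

lemma Kills.split (h : Kills Q) (hs : ∀ (σ : Fin 4 ≃ Fin 4) P, Q (rel σ P) = Q P) (k : ℝ[X]) :
    Q (aeval (cc 0 1) ((1 - X ^ 2) * k)) = 2 * Q ((W 2 * W 3 - W 0 * W 1) * dcP k) := by
  have s0 : Q (aeval (cc 0 1) ((1 - X ^ 2) * k))
      = Q ((1 + cc 0 1) * (1 + cc 0 3) * aeval (cc 0 1) k
        + (1 + cc 0 1) * (1 + cc 0 2) * aeval (cc 0 1) k) := by
    apply eq_of_mk_eq
    set π := Ideal.Quotient.mkₐ ℝ (nullI Q)
    have h1 := h.mk1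
    have h2 := h.mk2
    simp only [Fin.sum_univ_four] at h1 h2
    have e : π (cc 0 1) + π (cc 0 2) + π (cc 0 3) = -1 := by
      simp only [cc, map_mul, map_add, map_hf]
      linear_combination hf * π (W' 0) * h1 + hf * π (W 0) * h2 - 2 * hf * map_WW' π 0 - two_hf' π
    simp only [map_mul, map_add, map_sub, map_one, map_pow, aeval_X]
    linear_combination (-(1 + π (cc 0 1)) * π (aeval (cc 0 1) k)) * e
  have s1 := hs (Equiv.swap 1 2) ((1 + cc 0 1) * (1 + cc 0 3) * aeval (cc 0 1) k)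
  have s2 := hs ((Equiv.swap 1 2).trans (Equiv.swap 1 3))
    ((1 + cc 0 1) * (1 + cc 0 2) * aeval (cc 0 1) k)
  simp only [map_mul, map_add, map_one, rel_cc, ← aeval_algHom_apply] at s1 s2
  have a1 : (Equiv.swap (1 : Fin 4) 2) 0 = 0 := by decide
  have a2 : (Equiv.swap (1 : Fin 4) 2) 1 = 2 := by decide
  have a3 : (Equiv.swap (1 : Fin 4) 2) 3 = 3 := by decide
  have b1 : ((Equiv.swap (1 : Fin 4) 2).trans (Equiv.swap 1 3)) 0 = 0 := by decide
  have b2 : ((Equiv.swap (1 : Fin 4) 2).trans (Equiv.swap 1 3)) 1 = 2 := by decide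
  have b3 : ((Equiv.swap (1 : Fin 4) 2).trans (Equiv.swap 1 3)) 2 = 3 := by decide
  rw [a1, a2, a3] at s1
  rw [b1, b2, b3] at s2
  rw [s0, map_add, ← s1, ← s2, h.to_dc, two_mul]

lemma evC_dcP {x y : ℂ} (hx : ‖x‖ = 1) (hy : ‖y‖ = 1) (hu : ∀ i, ![x⁻¹, -x⁻¹, y⁻¹, -y⁻¹] i ≠ 0)
    (k : ℝ[X]) : evC ![x⁻¹, -x⁻¹, y⁻¹, -y⁻¹] hu ((W 2 * W 3 - W 0 * W 1) * dcP k)
      = ((((1 - X ^ 2) * k).eval (x * conj y).re : ℝ) : ℂ) := by
  have hx0 : x ≠ 0 := by rintro rfl; simp at hx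
  have hy0 : y ≠ 0 := by rintro rfl; simp at hy
  have hx1 : conj x = x⁻¹ := (Complex.inv_eq_conj hx).symm
  have hy1 : conj y = y⁻¹ := (Complex.inv_eq_conj hy).symm
  have hh : (hf : ℂ) = 1 / 2 := by simp [hf]
  have hc : (((x * conj y).re : ℝ) : ℂ) = (x⁻¹ * y + x * y⁻¹) / 2 := by
    rw [re_eq_add_conj, map_mul, conj_conj, hx1, hy1]; ring
  have e : evC ![x⁻¹, -x⁻¹, y⁻¹, -y⁻¹] hu (cc 0 2) = (((x * conj y).re : ℝ) : ℂ) := by
    simp only [cc, map_mul, map_add, map_hf, evC_W, evC_W', hc, hh]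
    simp; ring
  have e2 : aeval (((x * conj y).re : ℝ) : ℂ) k = ((k.eval (x * conj y).re : ℝ) : ℂ) := by
    have := aeval_algebraMap_apply ℂ (x * conj y).re k
    simpa using this
  simp only [dcP, map_mul, map_add, map_sub, map_hf, evC_W, evC_W', ← aeval_algHom_apply, e, e2,
    eval_mul, eval_sub, eval_one, eval_pow, eval_X, hh]
  push_cast
  rw [hc]
  simp
  field_simp
  ring

end four

lemma Kills.three {Q : LA (Fin 3) →ₗ[ℝ] ℂ} (h : Kills Q) {p : ℝ[X]} (hp : p.eval (-1 / 2) = 1) :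
    Q (aeval (cc 0 1) p) = Q 1 := by
  apply eq_of_mk_eq
  set π := Ideal.Quotient.mkₐ ℝ (nullI Q)
  have h1 := h.mk1
  have h2 := h.mk2
  simp only [Fin.sum_univ_three] at h1 h2
  have e : π (cc 0 1) = algebraMap ℝ _ (-1 / 2) := by
    have : algebraMap ℝ (LA (Fin 3) ⧸ nullI Q) (-1 / 2) = -hf := by
      rw [hf, ← map_neg]; congr 1; ring
    rw [this]
    simp only [cc, map_mul, map_add, map_hf]
    linear_combination hf * (π (W' 0) + π (W' 1)) * h1 - hf * π (W 2) * h2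
      - hf * map_WW' π 0 - hf * map_WW' π 1 + hf * map_WW' π 2
  rw [← aeval_algHom_apply, e, aeval_algebraMap_apply, coe_aeval_eq_eval, hp, map_one, map_one]

lemma evC_cc_two {x : ℂ} (hu : ∀ i, ![x, -x] i ≠ 0) (p : ℝ[X]) :
    evC ![x, -x] hu (aeval (cc 0 1) p) = ((p.eval (-1) : ℝ) : ℂ) := by
  have hx : x ≠ 0 := hu 0
  have e : evC ![x, -x] hu (cc 0 1) = algebraMap ℝ ℂ (-1) := by
    simp only [cc, map_mul, map_add, map_hf, evC_W, evC_W']
    simp [hf]; field_simp; ring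
  rw [← aeval_algHom_apply, e, aeval_algebraMap_apply, coe_aeval_eq_eval]; simp


end Pool.Agent.Lib.MP_a52643_an
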