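import Mathlib

/-!
Basic calculus on the cone model of the frame bundle of the hyperbolic plane.
A point `v = (p, q)` of `ℂ × ℂ` with `Im (p * conj q) > 0` stands for a real matrix
with rows read as complex numbers; it lies over the point `p / q` of the upper half plane.
-/

open Complex MeasureTheory Set Filter Topology
open scoped ComplexConjugate ContDiff

noncomputable section

namespace Pool.Agent.Lib.MP_a52643_an

abbrev V : Type := ℂ × ℂ

def dt (v : V) : ℝ := (v.1 * conj v.2).im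

def Om : Set V := {v | 0 < dt v}

def UH : Set ℂ := {z | 0 < z.im}

def pr (v : V) : ℂ := v.1 / v.2

def om (v : V) : ℂ := conj v.2 / v.2

def cj : V →L[ℝ] V := (conjCLE : ℂ →L[ℝ] ℂ).prodMap (conjCLE : ℂ →L[ℝ] ℂ)

@[simp] lemma cj_apply (v : V) : cj v = (conj v.1, conj v.2) := rfl

lemma dt_eq (v : V) : dt v = v.1.im * v.2.re - v.1.re * v.2.im := by
  simp [dt]; ring

lemma contDiff_dt {n : WithTop ℕ∞} : ContDiff ℝ n dt := by
  have : dt = fun v : V => imCLM v.1 * reCLM v.2 - reCLM v.1 * imCLM v.2 := by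
    ext v; simp [dt_eq]
  rw [this]; fun_prop

@[fun_prop] lemma continuous_dt : Continuous dt := (contDiff_dt (n := 0)).continuous

@[fun_prop] lemma measurable_dt : Measurable dt := continuous_dt.measurable

lemma isOpen_Om : IsOpen Om := isOpen_lt continuous_const continuous_dt

lemma isOpen_UH : IsOpen UH := isOpen_lt continuous_const continuous_im

lemma snd_ne_zero {v : V} (hv : v ∈ Om) : v.2 ≠ 0 := by
  intro h
  have : dt v = 0 := by simp [dt, h]
  exact absurd hv (by simp [Om, this])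

lemma dt_eq_im_pr {v : V} (hv : v.2 ≠ 0) : dt v = (pr v).im * normSq v.2 := by
  have h : normSq v.2 ≠ 0 := by simpa using hv
  rw [pr, div_im, dt_eq]; field_simp

lemma pr_mem {v : V} (hv : v ∈ Om) : pr v ∈ UH := by
  have h := dt_eq_im_pr (snd_ne_zero hv)
  have h2 : 0 < normSq v.2 := normSq_pos.2 (snd_ne_zero hv)
  have h3 : 0 < dt v := hv
  rw [h] at h3
  exact pos_of_mul_pos_of_nonneg_right' h3 h2
where
  pos_of_mul_pos_of_nonneg_right' {a b : ℝ} (h : 0 < a * b) (hb : 0 < b) : 0 < a :=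
    (pos_iff_pos_of_mul_pos h).2 hb

@[fun_prop] lemma measurable_pr : Measurable pr := by unfold pr; fun_prop

@[fun_prop] lemma measurable_om : Measurable om := by
  unfold om
  exact (continuous_conj.measurable.comp measurable_snd).div measurable_snd

lemma norm_om {v : V} (hv : v.2 ≠ 0) : ‖om v‖ = 1 := by
  simp [om, hv]

lemma norm_om_le (v : V) : ‖om v‖ ≤ 1 := by
  by_cases hv : v.2 = 0
  · simp [om, hv]
  · rw [norm_om hv]

lemma om_ne_zero {v : V} (hv : v.2 ≠ 0) : om v ≠ 0 := by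
  intro h; have := norm_om hv; simp [h] at this

lemma conj_om (v : V) : conj (om v) = (om v)⁻¹ := by
  simp [om]

lemma contDiffAt_pr {n : WithTop ℕ∞} {v : V} (hv : v.2 ≠ 0) : ContDiffAt ℝ n pr v := by
  unfold pr
  simp only [div_eq_mul_inv]
  exact contDiffAt_fst.mul (contDiffAt_snd.inv hv)

lemma contDiffAt_om {n : WithTop ℕ∞} {v : V} (hv : v.2 ≠ 0) : ContDiffAt ℝ n om v := by
  unfold om
  simp only [div_eq_mul_inv]
  exact ((conjCLE.contDiff.comp contDiff_snd).contDiffAt).mul (contDiffAt_snd.inv hv)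

lemma contDiffOn_pr {n : WithTop ℕ∞} : ContDiffOn ℝ n pr Om :=
  fun _ hv => (contDiffAt_pr (snd_ne_zero hv)).contDiffWithinAt

lemma contDiffOn_om {n : WithTop ℕ∞} : ContDiffOn ℝ n om Om :=
  fun _ hv => (contDiffAt_om (snd_ne_zero hv)).contDiffWithinAt

lemma contDiffOn_om_zpow {n : WithTop ℕ∞} (k : ℤ) : ContDiffOn ℝ n (fun v => om v ^ k) Om := by
  rcases k with k | k
  · simpa using contDiffOn_om.pow k
  · simp only [zpow_negSucc]
    exact (contDiffOn_om.pow _).inv fun v hv => pow_ne_zero _ (om_ne_zero (snd_ne_zero hv))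

lemma one_mem_Om {z : ℂ} (hz : z ∈ UH) : ((z, 1) : V) ∈ Om := by
  simpa [Om, dt, UH] using hz

lemma dt_smul (c : ℂ) (v : V) : dt (c • v) = normSq c * dt v := by
  simp [dt_eq, normSq_apply]; ring

lemma smul_mem_Om {c : ℂ} (hc : c ≠ 0) {v : V} (hv : v ∈ Om) : c • v ∈ Om := by
  have : 0 < normSq c := normSq_pos.2 hc
  simp only [Om, mem_ofPred_eq, dt_smul] at hv ⊢
  positivity

lemma pr_smul {c : ℂ} (hc : c ≠ 0) (v : V) : pr (c • v) = pr v := by
  simp [pr, mul_div_mul_left _ _ hc]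

lemma om_smul (c : ℂ) (v : V) : om (c • v) = conj c / c * om v := by
  simp [om, div_mul_div_comm]

section wirt

variable {E : Type*} [NormedAddCommGroup E] [NormedSpace ℂ E]

/-- complex linear part of a real linear functional -/
def wp (L : E →L[ℝ] ℂ) (h : E) : ℂ := (L h - I * L (I • h)) / 2

/-- antilinear part of a real linear functional -/
def wm (L : E →L[ℝ] ℂ) (h : E) : ℂ := (L h + I * L (I • h)) / 2

lemma map_csmul (L : E →L[ℝ] ℂ) (a : ℂ) (h : E) :
    L (a • h) = a.re * L h + a.im * L (I • h) := by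
  have : a • h = a.re • h + a.im • (I • h) := by
    conv_lhs => rw [← re_add_im a]
    rw [add_smul, mul_smul, Complex.coe_smul, Complex.coe_smul]
  rw [this, map_add, map_smul, map_smul]; simp

lemma wp_smul (L : E →L[ℝ] ℂ) (a : ℂ) (h : E) : wp L (a • h) = a * wp L h := by
  unfold wp
  rw [smul_smul, map_csmul L a, map_csmul L (I * a)]
  have ha := re_add_im a
  simp only [mul_re, mul_im, I_re, I_im, zero_mul, one_mul, zero_sub, zero_add, ofReal_neg]
  linear_combination ((L h - I * L (I • h)) / 2) * ha + (L (I • h) * a.im / 2) * I_mul_I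

lemma wm_smul (L : E →L[ℝ] ℂ) (a : ℂ) (h : E) : wm L (a • h) = conj a * wm L h := by
  unfold wm
  rw [smul_smul, map_csmul L a, map_csmul L (I * a)]
  have ha : (a.re : ℂ) - a.im * I = conj a := by apply Complex.ext <;> simp
  simp only [mul_re, mul_im, I_re, I_im, zero_mul, one_mul, zero_sub, zero_add, ofReal_neg]
  linear_combination ((L h + I * L (I • h)) / 2) * ha + (L (I • h) * a.im / 2) * I_mul_I

lemma wp_add_wm (L : E →L[ℝ] ℂ) (h : E) : wp L h + wm L h = L h := by
  unfold wp wm; ring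

lemma wp_add (L : E →L[ℝ] ℂ) (h k : E) : wp L (h + k) = wp L h + wp L k := by
  unfold wp; simp; ring

lemma wm_add (L : E →L[ℝ] ℂ) (h k : E) : wm L (h + k) = wm L h + wm L k := by
  unfold wm; simp; ring

end wirt

/-- raising operator -/
def Ep (F : V → ℂ) (v : V) : ℂ := -wp (fderiv ℝ F v) (cj v)

/-- lowering operator -/
def Em (F : V → ℂ) (v : V) : ℂ := -wm (fderiv ℝ F v) (cj v)

lemma Ep_congr {F G : V → ℂ} {v : V} (h : F =ᶠ[𝓝 v] G) : Ep F v = Ep G v := by
  simp [Ep, h.fderiv_eq]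

lemma Em_congr {F G : V → ℂ} {v : V} (h : F =ᶠ[𝓝 v] G) : Em F v = Em G v := by
  simp [Em, h.fderiv_eq]

lemma Ep_congr_Om {F G : V → ℂ} {v : V} (hv : v ∈ Om) (h : ∀ w ∈ Om, F w = G w) :
    Ep F v = Ep G v :=
  Ep_congr (by filter_upwards [isOpen_Om.mem_nhds hv] with w hw using h w hw)

lemma Em_congr_Om {F G : V → ℂ} {v : V} (hv : v ∈ Om) (h : ∀ w ∈ Om, F w = G w) :
    Em F v = Em G v :=
  Em_congr (by filter_upwards [isOpen_Om.mem_nhds hv] with w hw using h w hw)

lemma Ep_mul {F G : V → ℂ} {v : V} (hF : DifferentiableAt ℝ F v) (hG : DifferentiableAt ℝ G v) :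
    Ep (fun w => F w * G w) v = Ep F v * G v + F v * Ep G v := by
  simp only [Ep, wp, fderiv_fun_mul hF hG]
  simp; ring

lemma Em_mul {F G : V → ℂ} {v : V} (hF : DifferentiableAt ℝ F v) (hG : DifferentiableAt ℝ G v) :
    Em (fun w => F w * G w) v = Em F v * G v + F v * Em G v := by
  simp only [Em, wm, fderiv_fun_mul hF hG]
  simp; ring

lemma Ep_add {F G : V → ℂ} {v : V} (hF : DifferentiableAt ℝ F v) (hG : DifferentiableAt ℝ G v) :
    Ep (fun w => F w + G w) v = Ep F v + Ep G v := by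
  simp only [Ep, wp, fderiv_fun_add hF hG]
  simp; ring

lemma Em_add {F G : V → ℂ} {v : V} (hF : DifferentiableAt ℝ F v) (hG : DifferentiableAt ℝ G v) :
    Em (fun w => F w + G w) v = Em F v + Em G v := by
  simp only [Em, wm, fderiv_fun_add hF hG]
  simp; ring

lemma Ep_const (c : ℂ) (v : V) : Ep (fun _ => c) v = 0 := by simp [Ep, wp]

lemma Em_const (c : ℂ) (v : V) : Em (fun _ => c) v = 0 := by simp [Em, wm]

lemma Ep_const_mul (c : ℂ) {F : V → ℂ} {v : V} (hF : DifferentiableAt ℝ F v) :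
    Ep (fun w => c * F w) v = c * Ep F v := by
  rw [Ep_mul (differentiableAt_const c) hF, Ep_const]; simp

lemma Em_const_mul (c : ℂ) {F : V → ℂ} {v : V} (hF : DifferentiableAt ℝ F v) :
    Em (fun w => c * F w) v = c * Em F v := by
  rw [Em_mul (differentiableAt_const c) hF, Em_const]; simp

lemma fderiv_conj_comp {E : Type*} [NormedAddCommGroup E] [NormedSpace ℝ E] (F : E → ℂ)
    (v h : E) : fderiv ℝ (fun w => conj (F w)) v h = conj (fderiv ℝ F v h) := by
  have := conjCLE.comp_fderiv (f := F) (x := v)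
  have h2 : (fun w => conj (F w)) = conjCLE ∘ F := rfl
  rw [h2, this]; simp

lemma Ep_conj (F : V → ℂ) (v : V) : Ep (fun w => conj (F w)) v = conj (Em F v) := by
  simp only [Ep, Em, wp, wm, fderiv_conj_comp]
  simp [map_ofNat]; ring

lemma Em_conj (F : V → ℂ) (v : V) : Em (fun w => conj (F w)) v = conj (Ep F v) := by
  simp only [Ep, Em, wp, wm, fderiv_conj_comp]
  simp [map_ofNat]

lemma differentiableAt_conj' {E : Type*} [NormedAddCommGroup E] [NormedSpace ℝ E] {F : E → ℂ}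
    {v : E} (hF : DifferentiableAt ℝ F v) : DifferentiableAt ℝ (fun w => conj (F w)) v :=
  conjCLE.differentiableAt.comp v hF

lemma contDiffOn_conj' {E : Type*} [NormedAddCommGroup E] [NormedSpace ℝ E] {F : E → ℂ}
    {s : Set E} {n : WithTop ℕ∞} (hF : ContDiffOn ℝ n F s) :
    ContDiffOn ℝ n (fun w => conj (F w)) s :=
  conjCLE.contDiff.comp_contDiffOn hF

lemma Ep_add_Em (F : V → ℂ) (v : V) : Ep F v + Em F v = -fderiv ℝ F v (cj v) := by
  rw [← wp_add_wm]; unfold Ep Em; ring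

lemma diffAt_of_Om {F : V → ℂ} {n : WithTop ℕ∞} (hF : ContDiffOn ℝ n F Om) (hn : n ≠ 0) {v : V}
    (hv : v ∈ Om) : DifferentiableAt ℝ F v :=
  (hF.contDiffAt (isOpen_Om.mem_nhds hv)).differentiableAt hn

lemma contDiffOn_fderiv_lin {F : V → ℂ} {n : WithTop ℕ∞} (hF : ContDiffOn ℝ (n + 1) F Om)
    (X : V →L[ℝ] V) : ContDiffOn ℝ n (fun v => fderiv ℝ F v (X v)) Om :=
  (hF.fderiv_of_isOpen isOpen_Om le_rfl).clm_apply X.contDiff.contDiffOn

def cjI : V →L[ℝ] V := (I • ContinuousLinearMap.id ℝ V).comp cj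

@[simp] lemma cjI_apply (v : V) : cjI v = I • cj v := rfl

lemma Ep_eq (F : V → ℂ) :
    Ep F = fun v => -((fderiv ℝ F v (cj v) - I * fderiv ℝ F v (cjI v)) / 2) := rfl

lemma Em_eq (F : V → ℂ) :
    Em F = fun v => -((fderiv ℝ F v (cj v) + I * fderiv ℝ F v (cjI v)) / 2) := rfl

lemma contDiffOn_Ep {F : V → ℂ} {n : WithTop ℕ∞} (hF : ContDiffOn ℝ (n + 1) F Om) :
    ContDiffOn ℝ n (Ep F) Om := by
  rw [Ep_eq]
  exact (((contDiffOn_fderiv_lin hF cj).sub
    (contDiffOn_const.mul (contDiffOn_fderiv_lin hF cjI))).div_const 2).neg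

lemma contDiffOn_Em {F : V → ℂ} {n : WithTop ℕ∞} (hF : ContDiffOn ℝ (n + 1) F Om) :
    ContDiffOn ℝ n (Em F) Om := by
  rw [Em_eq]
  exact (((contDiffOn_fderiv_lin hF cj).add
    (contDiffOn_const.mul (contDiffOn_fderiv_lin hF cjI))).div_const 2).neg

lemma continuousOn_Ep {F : V → ℂ} (hF : ContDiffOn ℝ 1 F Om) : ContinuousOn (Ep F) Om :=
  (contDiffOn_Ep (n := 0) (by simpa using hF)).continuousOn

lemma continuousOn_Em {F : V → ℂ} (hF : ContDiffOn ℝ 1 F Om) : ContinuousOn (Em F) Om :=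
  (contDiffOn_Em (n := 0) (by simpa using hF)).continuousOn

/-- second derivative along linear vector fields -/
lemma fderiv_fderiv_lin {F : V → ℂ} {v : V} (hF : ContDiffAt ℝ 2 F v) (Y : V →L[ℝ] V) (h : V) :
    fderiv ℝ (fun w => fderiv ℝ F w (Y w)) v h
      = fderiv ℝ (fderiv ℝ F) v h (Y v) + fderiv ℝ F v (Y h) := by
  have h1 : DifferentiableAt ℝ (fderiv ℝ F) v :=
    (hF.fderiv_right (m := 1) le_rfl).differentiableAt one_ne_zero
  rw [fderiv_clm_apply h1 Y.differentiableAt]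
  simp [add_comm]

/-- the commutation relation -/
lemma Ep_Em_sub {F : V → ℂ} {v : V} (hF : ContDiffAt ℝ 2 F v) :
    Ep (Em F) v - Em (Ep F) v = I * fderiv ℝ F v (I • v) := by
  have h1 : DifferentiableAt ℝ (fderiv ℝ F) v :=
    (hF.fderiv_right (m := 1) le_rfl).differentiableAt one_ne_zero
  have d1 : DifferentiableAt ℝ (fun w => fderiv ℝ F w (cj w)) v :=
    h1.clm_apply cj.differentiableAt
  have d2 : DifferentiableAt ℝ (fun w => fderiv ℝ F w (cjI w)) v :=
    h1.clm_apply cjI.differentiableAt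
  have e1 : ∀ h, fderiv ℝ (Em F) v h = -((fderiv ℝ (fun w => fderiv ℝ F w (cj w)) v h
      + I * fderiv ℝ (fun w => fderiv ℝ F w (cjI w)) v h) / 2) := by
    intro h
    have : Em F = fun w => -((fderiv ℝ F w (cj w) + I * fderiv ℝ F w (cjI w)) * 2⁻¹) := by
      rw [Em_eq]; simp only [div_eq_mul_inv]
    rw [this]
    have := ((d1.hasFDerivAt.fun_add (d2.hasFDerivAt.const_mul I)).mul_const 2⁻¹).fun_neg.fderiv
    rw [this]
    simp; ring
  have e2 : ∀ h, fderiv ℝ (Ep F) v h = -((fderiv ℝ (fun w => fderiv ℝ F w (cj w)) v h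
      - I * fderiv ℝ (fun w => fderiv ℝ F w (cjI w)) v h) / 2) := by
    intro h
    have : Ep F = fun w => -((fderiv ℝ F w (cj w) - I * fderiv ℝ F w (cjI w)) * 2⁻¹) := by
      rw [Ep_eq]; simp only [div_eq_mul_inv]
    rw [this]
    have := ((d1.hasFDerivAt.fun_sub (d2.hasFDerivAt.const_mul I)).mul_const 2⁻¹).fun_neg.fderiv
    rw [this]
    simp; ring
  have hs := hF.isSymmSndFDerivAt (by simp) (cj v) (cjI v)
  have a1 : cjI (cj v) = I • v := by ext <;> simp
  have a2 : cj (cjI v) = -(I • v) := by ext <;> simp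
  have a3 : cj (cj v) = v := by ext <;> simp
  have a4 : cjI (cjI v) = v := by ext <;> simp [← mul_assoc]
  rw [Ep_eq (Em F), Em_eq (Ep F)]
  simp only [e1, e2, fderiv_fderiv_lin hF, a1, a2, a3, a4, map_neg]
  rw [hs]
  ring

end Pool.Agent.Lib.MP_a52643_an
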