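import Pool.Agent.Lib.MP_a52643_an.Ladder

/-!
The invariant measure on the cone model, integration by parts, and the projection to the
hyperbolic area.
-/

open Complex MeasureTheory Set Filter Topology
open scoped ComplexConjugate ContDiff ENNReal

noncomputable section

namespace Pool.Agent.Lib.MP_a52643_an

instance instHaarV : (volume : Measure V).IsAddHaarMeasure :=
  Measure.prod.instIsAddHaarMeasure volume volume

def rho0 (t : ℝ) : ℝ := expNegInvGlue (t - 1) * expNegInvGlue (2 - t)

lemma rho0_nonneg (t : ℝ) : 0 ≤ rho0 t :=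
  mul_nonneg (expNegInvGlue.nonneg _) (expNegInvGlue.nonneg _)

lemma contDiff_rho0 : ContDiff ℝ 1 rho0 := by
  unfold rho0
  exact ((expNegInvGlue.contDiff (n := 1)).comp (contDiff_id.sub contDiff_const)).mul
    ((expNegInvGlue.contDiff (n := 1)).comp (contDiff_const.sub contDiff_id))

lemma rho0_ne_zero {t : ℝ} (h : rho0 t ≠ 0) : 1 < t ∧ t < 2 := by
  simp only [rho0, ne_eq, mul_eq_zero, expNegInvGlue.zero_iff_nonpos, not_or, not_le] at h
  constructor <;> linarith [h.1, h.2]

def cRho : ℝ := ∫ q : ℂ, rho0 (normSq q) * normSq q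

lemma continuous_rhoN : Continuous fun q : ℂ => rho0 (normSq q) * normSq q :=
  (contDiff_rho0.continuous.comp continuous_normSq).mul continuous_normSq

lemma hcs_rhoN : HasCompactSupport fun q : ℂ => rho0 (normSq q) * normSq q := by
  apply HasCompactSupport.intro (isCompact_closedBall (0 : ℂ) 2)
  intro q hq
  by_contra h
  have h1 := (rho0_ne_zero (left_ne_zero_of_mul h)).2
  rw [normSq_eq_norm_sq] at h1
  simp only [mem_closedBall_zero_iff, not_le] at hq
  nlinarith

lemma cRho_pos : 0 < cRho := by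
  refine continuous_rhoN.integral_pos_of_hasCompactSupport_nonneg_nonzero hcs_rhoN
    (fun q => mul_nonneg (rho0_nonneg _) (normSq_nonneg _)) (x := ((5 / 4 : ℝ) : ℂ)) ?_
  have : normSq ((5 / 4 : ℝ) : ℂ) = 25 / 16 := by rw [normSq_ofReal]; norm_num
  rw [this]
  refine mul_ne_zero (mul_pos ?_ ?_).ne' (by norm_num) <;>
    exact expNegInvGlue.pos_of_pos (by norm_num)

def rho (t : ℝ) : ℝ := rho0 t / cRho

lemma rho_nonneg (t : ℝ) : 0 ≤ rho t := div_nonneg (rho0_nonneg t) cRho_pos.le

lemma contDiff_rho : ContDiff ℝ 1 rho := contDiff_rho0.div_const _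

@[fun_prop] lemma continuous_rho : Continuous rho := contDiff_rho.continuous

lemma rho_ne_zero {t : ℝ} (h : rho t ≠ 0) : 1 < t ∧ t < 2 :=
  rho0_ne_zero fun h' => h (by simp [rho, h'])

lemma lintegral_rho : ∫⁻ q : ℂ, ENNReal.ofReal (rho (normSq q) * normSq q) = 1 := by
  have e : (fun q : ℂ => rho (normSq q) * normSq q)
      = fun q => (rho0 (normSq q) * normSq q) / cRho := by
    ext q; simp only [rho]; ring
  have hi : Integrable fun q : ℂ => rho (normSq q) * normSq q := by
    rw [e]; exact (continuous_rhoN.integrable_of_hasCompactSupport hcs_rhoN).div_const _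
  rw [← ofReal_integral_eq_lintegral_ofReal hi
    (Eventually.of_forall fun q => mul_nonneg (rho_nonneg _) (normSq_nonneg _)), e,
    integral_div, ← cRho, div_self cRho_pos.ne']
  simp

def mV : Measure V := volume.withDensity fun v => ENNReal.ofReal (rho (dt v))

lemma measurable_rhoE : Measurable fun v : V => ENNReal.ofReal (rho (dt v)) :=
  (continuous_rho.comp continuous_dt).measurable.ennreal_ofReal

instance : IsLocallyFiniteMeasure mV :=
  IsLocallyFiniteMeasure.withDensity_ofReal (continuous_rho.comp continuous_dt)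

lemma integral_mV {E : Type*} [NormedAddCommGroup E] [NormedSpace ℝ E] (F : V → E) :
    ∫ v, F v ∂mV = ∫ v, rho (dt v) • F v := by
  unfold mV
  rw [integral_withDensity_eq_integral_toReal_smul measurable_rhoE (by simp)]
  simp [ENNReal.toReal_ofReal (rho_nonneg _)]

def slab : Set V := {v | 1 < dt v ∧ dt v < 2}

def cslab : Set V := {v | 1 ≤ dt v ∧ dt v ≤ 2}

lemma isOpen_slab : IsOpen slab :=
  (isOpen_lt continuous_const continuous_dt).inter (isOpen_lt continuous_dt continuous_const)

lemma isClosed_cslab : IsClosed cslab :=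
  (isClosed_le continuous_const continuous_dt).inter (isClosed_le continuous_dt continuous_const)

lemma slab_subset_cslab : slab ⊆ cslab := fun _ h => ⟨h.1.le, h.2.le⟩

lemma cslab_subset_Om : cslab ⊆ Om := fun _ h => lt_of_lt_of_le one_pos h.1

lemma slab_subset_Om : slab ⊆ Om := slab_subset_cslab.trans cslab_subset_Om

lemma ae_slab : ∀ᵐ v ∂mV, v ∈ slab := by
  unfold mV
  rw [ae_withDensity_iff measurable_rhoE]
  refine Eventually.of_forall fun v hv => rho_ne_zero fun h => hv ?_
  simp [h]

lemma ae_Om : ∀ᵐ v ∂mV, v ∈ Om := ae_slab.mono fun _ h => slab_subset_Om h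

/-- compact support relative to the slab -/
def CS {E : Type*} [Zero E] (F : V → E) : Prop :=
  ∃ R : ℝ, ∀ v ∈ slab, R < ‖v‖ → F v = 0

lemma CS.mul_right {E : Type*} [MulZeroClass E] {F : V → E} (h : CS F) (G : V → E) :
    CS fun v => F v * G v := by
  obtain ⟨R, hR⟩ := h
  exact ⟨R, fun v hv h => by simp [hR v hv h]⟩

lemma CS.mul_left {E : Type*} [MulZeroClass E] {F : V → E} (h : CS F) (G : V → E) :
    CS fun v => G v * F v := by
  obtain ⟨R, hR⟩ := h
  exact ⟨R, fun v hv h => by simp [hR v hv h]⟩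

lemma CS.comp {E E' : Type*} [Zero E] [Zero E'] {F : V → E} (h : CS F) {g : E → E'}
    (hg : g 0 = 0) : CS fun v => g (F v) := by
  obtain ⟨R, hR⟩ := h
  exact ⟨R, fun v hv h => by simp [hR v hv h, hg]⟩

lemma CS.of_hcs {E : Type*} [Zero E] {F : V → E} (h : HasCompactSupport F) : CS F := by
  obtain ⟨R, hR⟩ := h.isCompact.isBounded.subset_closedBall (0 : V)
  refine ⟨R, fun v _ hv => image_eq_zero_of_notMem_tsupport fun h' => ?_⟩
  have := hR h'
  simp only [mem_closedBall_zero_iff] at this
  linarith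

lemma CS.eventually {E : Type*} [Zero E] {F : V → E} {R : ℝ}
    (hR : ∀ v ∈ slab, R < ‖v‖ → F v = 0) {v : V} (hv : v ∈ slab) (h : R < ‖v‖) :
    F =ᶠ[𝓝 v] fun _ => 0 := by
  filter_upwards [isOpen_slab.mem_nhds hv,
    (isOpen_lt continuous_const continuous_norm).mem_nhds h] with w h1 h2 using hR w h1 h2

lemma CS.Ep {F : V → ℂ} (h : CS F) : CS (Ep F) := by
  obtain ⟨R, hR⟩ := h
  exact ⟨R, fun v hv h => by rw [Ep_congr (CS.eventually hR hv h), Ep_const]⟩

lemma CS.Em {F : V → ℂ} (h : CS F) : CS (Em F) := by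
  obtain ⟨R, hR⟩ := h
  exact ⟨R, fun v hv h => by rw [Em_congr (CS.eventually hR hv h), Em_const]⟩

def KB (R : ℝ) : Set V := Metric.closedBall 0 R ∩ cslab

lemma isCompact_KB (R : ℝ) : IsCompact (KB R) :=
  (isCompact_closedBall 0 R).inter_right isClosed_cslab

lemma KB_subset_Om (R : ℝ) : KB R ⊆ Om := fun _ h => cslab_subset_Om h.2

lemma measurableSet_KB (R : ℝ) : MeasurableSet (KB R) := (isCompact_KB R).measurableSet

lemma ae_eq_indicator_KB {E : Type*} [Zero E] {F : V → E} {R : ℝ}
    (hR : ∀ v ∈ slab, R < ‖v‖ → F v = 0) : F =ᵐ[mV] (KB R).indicator F := by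
  filter_upwards [ae_slab] with v hv
  by_cases h : v ∈ KB R
  · simp [h]
  · simp only [indicator_of_notMem h]
    apply hR v hv
    by_contra h'
    exact h ⟨by simpa using h', slab_subset_cslab hv⟩

lemma integrableOn_KB {E : Type*} [NormedAddCommGroup E] {F : V → E} (hF : ContinuousOn F Om)
    (R : ℝ) : IntegrableOn F (KB R) mV :=
  (hF.mono (KB_subset_Om R)).integrableOn_compact (isCompact_KB R)

lemma CS.integrable {E : Type*} [NormedAddCommGroup E] {F : V → E} (h : CS F)
    (hF : ContinuousOn F Om) : Integrable F mV := by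
  obtain ⟨R, hR⟩ := h
  exact ((integrable_indicator_iff (measurableSet_KB R)).2 (integrableOn_KB hF R)).congr
    (ae_eq_indicator_KB hR).symm

lemma CS.exists_bound {F : V → ℂ} (h : CS F) (hF : ContinuousOn F Om) :
    ∃ R C : ℝ, 0 ≤ C ∧ (∀ v ∈ slab, R < ‖v‖ → F v = 0) ∧ ∀ v ∈ slab, ‖F v‖ ≤ C := by
  obtain ⟨R, hR⟩ := h
  obtain ⟨C, hC⟩ := (isCompact_KB R).exists_bound_of_continuousOn (hF.mono (KB_subset_Om R))
  refine ⟨R, max C 0, le_max_right _ _, hR, fun v hv => ?_⟩
  by_cases h : R < ‖v‖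
  · simp [hR v hv h]
  · exact (hC v ⟨by simpa using h, slab_subset_cslab hv⟩).trans (le_max_left _ _)

/-- integration by parts against a linear coefficient -/
lemma integral_lin_fderiv {G : V → ℂ} (hG : ContDiff ℝ 1 G) (hc : HasCompactSupport G)
    (l : V →L[ℝ] ℝ) (e : V) : ∫ v, (l v : ℂ) * fderiv ℝ G v e = -(l e) * ∫ v, G v := by
  have hl : ∀ x, HasFDerivAt (fun v => (l v : ℂ)) (ofRealCLM.comp l) x := fun x =>
    (ofRealCLM.comp l).hasFDerivAt
  have hcont : Continuous fun v => fderiv ℝ G v e :=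
    (hG.continuous_fderiv one_ne_zero).clm_apply continuous_const
  have hc' : HasCompactSupport fun v => fderiv ℝ G v e := hc.fderiv_apply ℝ e
  have hlc : Continuous fun v => (l v : ℂ) := by fun_prop
  have := integral_mul_fderiv_eq_neg_fderiv_mul_of_integrable (μ := (volume : Measure V))
    (f := fun v => (l v : ℂ)) (g := G) (v := e) ?_ ?_ ?_ (fun x _ => (hl x).differentiableAt)
    (fun x _ => (hG.differentiable one_ne_zero) x)
  · rw [this]
    simp only [(hl _).fderiv]
    simp [integral_const_mul]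
  · simp only [(hl _).fderiv]
    exact (continuous_const.mul hG.continuous).integrable_of_hasCompactSupport hc.mul_left
  · exact (hlc.mul hcont).integrable_of_hasCompactSupport hc'.mul_left
  · exact (hlc.mul hG.continuous).integrable_of_hasCompactSupport hc.mul_left

def c1 : V →L[ℝ] ℝ := reCLM.comp (ContinuousLinearMap.fst ℝ ℂ ℂ)
def c2 : V →L[ℝ] ℝ := imCLM.comp (ContinuousLinearMap.fst ℝ ℂ ℂ)
def c3 : V →L[ℝ] ℝ := reCLM.comp (ContinuousLinearMap.snd ℝ ℂ ℂ)
def c4 : V →L[ℝ] ℝ := imCLM.comp (ContinuousLinearMap.snd ℝ ℂ ℂ)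

lemma map_decomp (L : V →L[ℝ] ℂ) (u : V) :
    L u = c1 u * L (1, 0) + c2 u * L (I, 0) + c3 u * L (0, 1) + c4 u * L (0, I) := by
  have : u = c1 u • ((1, 0) : V) + c2 u • ((I, 0) : V) + c3 u • ((0, 1) : V)
      + c4 u • ((0, I) : V) := by
    ext <;> simp [c1, c2, c3, c4]
  conv_lhs => rw [this]
  simp only [map_add, map_smul, real_smul]

lemma integral_fderiv_lin {G : V → ℂ} (hG : ContDiff ℝ 1 G) (hc : HasCompactSupport G)
    (X : V →L[ℝ] V) (htr : c1 (X (1, 0)) + c2 (X (I, 0)) + c3 (X (0, 1)) + c4 (X (0, I)) = 0) :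
    ∫ v, fderiv ℝ G v (X v) = 0 := by
  have hi (l : V →L[ℝ] ℝ) (e : V) : Integrable fun v => (l v : ℂ) * fderiv ℝ G v e := by
    have hcont : Continuous fun v => fderiv ℝ G v e :=
      (hG.continuous_fderiv one_ne_zero).clm_apply continuous_const
    have hlc : Continuous fun v => (l v : ℂ) := by fun_prop
    exact (hlc.mul hcont).integrable_of_hasCompactSupport (hc.fderiv_apply ℝ e).mul_left
  have e : (fun v => fderiv ℝ G v (X v)) = fun v =>
      ((c1.comp X) v : ℂ) * fderiv ℝ G v (1, 0) + ((c2.comp X) v : ℂ) * fderiv ℝ G v (I, 0)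
      + ((c3.comp X) v : ℂ) * fderiv ℝ G v (0, 1) + ((c4.comp X) v : ℂ) * fderiv ℝ G v (0, I) := by
    ext v; exact map_decomp _ _
  rw [e, integral_add (by exact ((hi _ _).add (hi _ _)).add (hi _ _)) (hi _ _),
    integral_add (by exact (hi _ _).add (hi _ _)) (hi _ _), integral_add (hi _ _) (hi _ _)]
  simp only [integral_lin_fderiv hG hc]
  have : ((c1 (X (1, 0)) + c2 (X (I, 0)) + c3 (X (0, 1)) + c4 (X (0, I)) : ℝ) : ℂ) = 0 := by
    rw [htr]; simp
  push_cast at this
  simp only [ContinuousLinearMap.comp_apply]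
  linear_combination (-∫ v, G v) * this

lemma fderiv_dt (v h : V) : fderiv ℝ dt v h
    = v.1.im * h.2.re + h.1.im * v.2.re - (v.1.re * h.2.im + h.1.re * v.2.im) := by
  have : dt = fun v : V => c2 v * c3 v - c1 v * c4 v := by
    ext v; simp [dt_eq, c1, c2, c3, c4]
  rw [this, ((c2.hasFDerivAt.fun_mul c3.hasFDerivAt).fun_sub
    (c1.hasFDerivAt.fun_mul c4.hasFDerivAt)).fderiv]
  simp [c1, c2, c3, c4]; ring

lemma integral_mV_fderiv {F : V → ℂ} (hF : ContDiffOn ℝ 1 F Om) (hc : CS F) (X : V →L[ℝ] V)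
    (htr : c1 (X (1, 0)) + c2 (X (I, 0)) + c3 (X (0, 1)) + c4 (X (0, I)) = 0)
    (hX : ∀ v, fderiv ℝ dt v (X v) = 0) : ∫ v, fderiv ℝ F v (X v) ∂mV = 0 := by
  set r : V → ℂ := fun v => (rho (dt v) : ℂ) with hr
  have hr1 : ContDiff ℝ 1 r := ofRealCLM.contDiff.comp (contDiff_rho.comp contDiff_dt)
  have hr0 : ∀ v, v ∉ slab → r v = 0 := fun v hv => by
    by_contra h
    exact hv (rho_ne_zero fun h' => h (by simp [hr, h']))
  have hG : ContDiff ℝ 1 fun v => r v * F v := by
    rw [contDiff_iff_contDiffAt]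
    intro v
    by_cases hv : v ∈ Om
    · exact hr1.contDiffAt.mul (hF.contDiffAt (isOpen_Om.mem_nhds hv))
    · have : (fun v => r v * F v) =ᶠ[𝓝 v] fun _ => 0 := by
        filter_upwards [isClosed_cslab.isOpen_compl.mem_nhds fun h => hv (cslab_subset_Om h)]
          with w hw
        rw [hr0 w fun h => hw (slab_subset_cslab h), zero_mul]
      exact contDiffAt_const.congr_of_eventuallyEq this
  obtain ⟨R, hR⟩ := hc
  have hcs : HasCompactSupport fun v => r v * F v := by
    apply HasCompactSupport.intro (isCompact_closedBall (0 : V) R)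
    intro v hv
    by_cases h : v ∈ slab
    · rw [hR v h (by simpa using hv), mul_zero]
    · rw [hr0 v h, zero_mul]
  rw [integral_mV, ← integral_fderiv_lin hG hcs X htr]
  congr 1
  ext v
  have hrX : fderiv ℝ r v (X v) = 0 := by
    have h1 := ((contDiff_rho.differentiable one_ne_zero) (dt v)).hasDerivAt.comp_hasFDerivAt v
      ((contDiff_dt (n := 1)).differentiable one_ne_zero v).hasFDerivAt
    have h2 := ofRealCLM.hasFDerivAt.comp v h1
    have h3 : fderiv ℝ r v = _ := h2.fderiv
    rw [h3]; simp [hX]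
  by_cases hv : v ∈ Om
  · rw [fderiv_fun_mul (hr1.differentiable one_ne_zero v) (diffAt_of_Om hF one_ne_zero hv)]
    simp only [add_apply, smul_apply, hrX]
    simp [hr]
  · have : (fun v => r v * F v) =ᶠ[𝓝 v] fun _ => 0 := by
      filter_upwards [isClosed_cslab.isOpen_compl.mem_nhds fun h => hv (cslab_subset_Om h)]
        with w hw
      rw [hr0 w fun h => hw (slab_subset_cslab h), zero_mul]
    rw [this.fderiv_eq]
    have h0 : rho (dt v) = 0 := by
      have := hr0 v fun h => hv (slab_subset_Om h)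
      simpa [hr] using this
    simp [h0]

lemma CS.fderiv_lin {F : V → ℂ} (h : CS F) (X : V →L[ℝ] V) :
    CS fun v => fderiv ℝ F v (X v) := by
  obtain ⟨R, hR⟩ := h
  exact ⟨R, fun v hv h => by simp [(CS.eventually hR hv h).fderiv_eq]⟩

lemma integral_cj {F : V → ℂ} (hF : ContDiffOn ℝ 1 F Om) (hc : CS F) :
    ∫ v, fderiv ℝ F v (cj v) ∂mV = 0 :=
  integral_mV_fderiv hF hc cj (by simp [c1, c2, c3, c4]) (fun v => by simp [fderiv_dt])

lemma integral_cjI {F : V → ℂ} (hF : ContDiffOn ℝ 1 F Om) (hc : CS F) :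
    ∫ v, fderiv ℝ F v (cjI v) ∂mV = 0 :=
  integral_mV_fderiv hF hc cjI (by simp [c1, c2, c3, c4]) (fun v => by simp [fderiv_dt]; ring)

lemma integrable_fderiv_lin {F : V → ℂ} (hF : ContDiffOn ℝ 1 F Om) (hc : CS F) (X : V →L[ℝ] V) :
    Integrable (fun v => fderiv ℝ F v (X v)) mV :=
  (hc.fderiv_lin X).integrable
    (contDiffOn_fderiv_lin (n := 0) (by simpa using hF) X).continuousOn

theorem integral_Ep {F : V → ℂ} (hF : ContDiffOn ℝ 1 F Om) (hc : CS F) :
    ∫ v, Ep F v ∂mV = 0 := by
  rw [Ep_eq, integral_neg, integral_div, integral_sub (integrable_fderiv_lin hF hc _)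
    ((integrable_fderiv_lin hF hc _).const_mul _), integral_const_mul, integral_cj hF hc,
    integral_cjI hF hc]
  simp

theorem integral_Em {F : V → ℂ} (hF : ContDiffOn ℝ 1 F Om) (hc : CS F) :
    ∫ v, Em F v ∂mV = 0 := by
  rw [Em_eq, integral_neg, integral_div, integral_add (integrable_fderiv_lin hF hc _)
    ((integrable_fderiv_lin hF hc _).const_mul _), integral_const_mul, integral_cj hF hc,
    integral_cjI hF hc]
  simp

theorem ibp_Ep {τ F : V → ℂ} (hτ : ContDiffOn ℝ 1 τ Om) (hc : CS τ) (hF : ContDiffOn ℝ 1 F Om) :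
    ∫ v, τ v * Ep F v ∂mV = -∫ v, Ep τ v * F v ∂mV := by
  have h := integral_Ep (hτ.mul hF) (hc.mul_right F)
  have e : ∀ᵐ v ∂mV, Ep (fun v => τ v * F v) v = Ep τ v * F v + τ v * Ep F v :=
    ae_Om.mono fun v hv => Ep_mul (diffAt_of_Om hτ one_ne_zero hv) (diffAt_of_Om hF one_ne_zero hv)
  rw [integral_congr_ae e, integral_add
    ((hc.Ep.mul_right F).integrable ((continuousOn_Ep hτ).mul hF.continuousOn))
    ((hc.mul_right _).integrable (hτ.continuousOn.mul (continuousOn_Ep hF)))] at h
  linear_combination h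

theorem ibp_Em {τ F : V → ℂ} (hτ : ContDiffOn ℝ 1 τ Om) (hc : CS τ) (hF : ContDiffOn ℝ 1 F Om) :
    ∫ v, τ v * Em F v ∂mV = -∫ v, Em τ v * F v ∂mV := by
  have h := integral_Em (hτ.mul hF) (hc.mul_right F)
  have e : ∀ᵐ v ∂mV, Em (fun v => τ v * F v) v = Em τ v * F v + τ v * Em F v :=
    ae_Om.mono fun v hv => Em_mul (diffAt_of_Om hτ one_ne_zero hv) (diffAt_of_Om hF one_ne_zero hv)
  rw [integral_congr_ae e, integral_add
    ((hc.Em.mul_right F).integrable ((continuousOn_Em hτ).mul hF.continuousOn))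
    ((hc.mul_right _).integrable (hτ.continuousOn.mul (continuousOn_Em hF)))] at h
  linear_combination h

/-- complex linear maps of `V` -/
def LC (a b c d : ℂ) : V →ₗ[ℂ] V :=
  Matrix.toLin (Module.Basis.finTwoProd ℂ) (Module.Basis.finTwoProd ℂ) !![a, b; c, d]

lemma LC_apply (a b c d : ℂ) (v : V) : LC a b c d v = (a * v.1 + b * v.2, c * v.1 + d * v.2) :=
  Matrix.toLin_finTwoProd_apply a b c d v

lemma det_LC (a b c d : ℂ) :
    LinearMap.det ((LC a b c d).restrictScalars ℝ) = normSq (a * d - b * c) := by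
  rw [LinearMap.det_restrictScalars, LC, LinearMap.det_toLin, Matrix.det_fin_two_of,
    Algebra.norm_complex_apply]

lemma measurePreserving_LC {a b c d : ℂ} (h : normSq (a * d - b * c) = 1) :
    MeasurePreserving (fun v : V => ((a * v.1 + b * v.2, c * v.1 + d * v.2) : V))
      volume volume := by
  have e : (fun v : V => ((a * v.1 + b * v.2, c * v.1 + d * v.2) : V))
      = (LC a b c d).restrictScalars ℝ := by
    ext1 v; exact (LC_apply a b c d v).symm
  refine ⟨by fun_prop, ?_⟩
  rw [e, Measure.map_linearMap_addHaar_eq_smul_addHaar _ (by rw [det_LC, h]; simp), det_LC, h]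
  simp

lemma measurePreserving_mV {L : V → V} (hL : MeasurePreserving L volume volume)
    (hd : ∀ v, dt (L v) = dt v) : MeasurePreserving L mV mV := by
  refine ⟨hL.measurable, ?_⟩
  ext s hs
  rw [Measure.map_apply hL.measurable hs, mV, withDensity_apply _ hs,
    withDensity_apply _ (hL.measurable hs), ← hL.setLIntegral_comp_preimage hs measurable_rhoE]
  simp only [hd]

lemma measurePreserving_smul_mV {c : ℂ} (hc : ‖c‖ = 1) :
    MeasurePreserving (fun v : V => c • v) mV mV := by
  have h1 : normSq c = 1 := by rw [normSq_eq_norm_sq, hc]; simp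
  apply measurePreserving_mV
  · have := measurePreserving_LC (a := c) (b := 0) (c := 0) (d := c) (by simp [h1])
    convert this using 2 with v
    ext <;> simp
  · intro v; rw [dt_smul, h1, one_mul]

lemma measurePreserving_Lg_mV {a b c d : ℝ} (h : a * d - b * c = 1) :
    MeasurePreserving (Lg a b c d) mV mV := by
  apply measurePreserving_mV
  · have := measurePreserving_LC (a := a) (b := b) (c := c) (d := d) (by
      rw [← ofReal_mul, ← ofReal_mul, ← ofReal_sub, h]; simp)
    convert this using 2 with v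
    simp
  · intro v; rw [dt_Lg, h, one_mul]

/-- hyperbolic area as a measure on `ℂ` -/
def hyp : Measure ℂ := (volume.restrict UH).withDensity fun z => ENNReal.ofReal (1 / z.im ^ 2)

lemma lintegral_mul_right_complex {q : ℂ} (hq : q ≠ 0) {G : ℂ → ℝ≥0∞} (hG : Measurable G) :
    ∫⁻ p, G p = ∫⁻ z, ENNReal.ofReal (normSq q) * G (z * q) := by
  have hd : LinearMap.det ((LinearMap.mulRight ℂ q).restrictScalars ℝ) = normSq q := by
    rw [LinearMap.det_restrictScalars, ← Algebra.norm_complex_apply]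
    congr 1
    simp
  have hq' : 0 < normSq q := normSq_pos.2 hq
  have h := Measure.map_linearMap_addHaar_eq_smul_addHaar (volume : Measure ℂ)
    (f := (LinearMap.mulRight ℂ q).restrictScalars ℝ) (by rw [hd]; exact hq'.ne')
  rw [hd] at h
  have h2 := lintegral_map (μ := (volume : Measure ℂ)) hG
    (g := (LinearMap.mulRight ℂ q).restrictScalars ℝ) (by
      change Measurable fun z : ℂ => z * q
      fun_prop)
  rw [h, lintegral_smul_measure] at h2
  rw [lintegral_const_mul _ (by fun_prop)]
  have h3 : ∫⁻ z, G (z * q) = _ := h2.symm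
  rw [h3, smul_eq_mul, ← mul_assoc, ← ENNReal.ofReal_mul hq'.le, abs_of_pos (inv_pos.2 hq'),
    mul_inv_cancel₀ hq'.ne']
  simp

lemma lintegral_rho_scale (y : ℝ) :
    ∫⁻ q : ℂ, ENNReal.ofReal (normSq q) * ENNReal.ofReal (rho (y * normSq q))
      = UH.indicator (fun z => ENNReal.ofReal (1 / z.im ^ 2)) (y * I) := by
  by_cases hy : 0 < y
  · have hm : (y * I : ℂ) ∈ UH := by simpa [UH] using hy
    rw [indicator_of_mem hm]
    have hs : ((Real.sqrt y)⁻¹ : ℝ) ≠ 0 := by positivity
    rw [lintegral_mul_right_complex (q := ((Real.sqrt y)⁻¹ : ℝ)) (by exact_mod_cast hs) (by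
      refine (continuous_normSq.measurable.ennreal_ofReal).mul ?_
      exact (continuous_rho.comp (continuous_const.mul continuous_normSq)).measurable.ennreal_ofReal)]
    have hn : normSq (((Real.sqrt y)⁻¹ : ℝ) : ℂ) = y⁻¹ := by
      rw [normSq_ofReal, ← mul_inv, Real.mul_self_sqrt hy.le]
    have : ∀ z : ℂ, ENNReal.ofReal (normSq (((Real.sqrt y)⁻¹ : ℝ) : ℂ)) *
        (ENNReal.ofReal (normSq (z * ((Real.sqrt y)⁻¹ : ℝ))) *
          ENNReal.ofReal (rho (y * normSq (z * ((Real.sqrt y)⁻¹ : ℝ)))))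
        = ENNReal.ofReal (1 / y ^ 2) * ENNReal.ofReal (rho (normSq z) * normSq z) := by
      intro z
      have h1 : y * (normSq z * y⁻¹) = normSq z := by field_simp
      have := normSq_nonneg z
      rw [normSq_mul, hn, h1, ← ENNReal.ofReal_mul (by positivity),
        ← ENNReal.ofReal_mul (by positivity), ← ENNReal.ofReal_mul (by positivity)]
      congr 1; field_simp
    simp only [this]
    rw [lintegral_const_mul' _ _ ENNReal.ofReal_ne_top, lintegral_rho]
    simp
  · have hm : (y * I : ℂ) ∉ UH := by simpa [UH] using hy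
    rw [indicator_of_notMem hm]
    have : ∀ q : ℂ, rho (y * normSq q) = 0 := by
      intro q
      by_contra h
      have h1 := (rho_ne_zero h).1
      nlinarith [normSq_nonneg q]
    simp [this]

theorem measurePreserving_pr : MeasurePreserving pr mV hyp := by
  refine ⟨measurable_pr, ?_⟩
  apply Measure.ext_of_lintegral
  intro F hF
  rw [lintegral_map hF measurable_pr, mV, lintegral_withDensity_eq_lintegral_mul _ measurable_rhoE
    (g := fun v => F (pr v)) (hF.comp measurable_pr), hyp, lintegral_withDensity_eq_lintegral_mul _ (by fun_prop) hF,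
    ← lintegral_indicator isOpen_UH.measurableSet]
  have hm : Measurable fun v : V => ENNReal.ofReal (rho (dt v)) * F (pr v) :=
    measurable_rhoE.mul (hF.comp measurable_pr)
  change ∫⁻ v, ENNReal.ofReal (rho (dt v)) * F (pr v) ∂(volume.prod volume) = _
  rw [lintegral_prod_symm _ hm.aemeasurable]
  have e1 : ∀ᵐ q : ℂ, ∫⁻ p, ENNReal.ofReal (rho (dt (p, q))) * F (pr (p, q))
      = ∫⁻ z, ENNReal.ofReal (normSq q) * ENNReal.ofReal (rho (z.im * normSq q)) * F z := by
    have : ∀ᵐ q : ℂ, q ≠ 0 := by simp [ae_iff]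
    filter_upwards [this] with q hq
    rw [lintegral_mul_right_complex hq
      (G := fun p => ENNReal.ofReal (rho (dt (p, q))) * F (pr (p, q)))
      (hm.comp (measurable_id.prodMk measurable_const))]
    congr 1
    ext z
    have h1 : pr (z * q, q) = z := by simp [pr, hq]
    have h2 : dt (z * q, q) = z.im * normSq q := by rw [dt_eq_im_pr hq, h1]
    simp only [h1, h2, mul_assoc]
  rw [lintegral_congr_ae e1, lintegral_lintegral_swap]
  · congr 1
    ext z
    rw [lintegral_mul_const _ (by
      refine (continuous_normSq.measurable.ennreal_ofReal).mul ?_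
      exact (continuous_rho.comp
        (continuous_const.mul continuous_normSq)).measurable.ennreal_ofReal),
      lintegral_rho_scale]
    by_cases hz : z ∈ UH
    · have hm : (z.im * I : ℂ) ∈ UH := by simpa [UH] using hz
      simp [hz, hm]
    · have hm : (z.im * I : ℂ) ∉ UH := by simpa [UH] using hz
      simp [hz, hm]
  · refine Measurable.aemeasurable ?_
    have m1 : Measurable fun a : ℂ × ℂ => ENNReal.ofReal (normSq a.1) :=
      (continuous_normSq.comp continuous_fst).measurable.ennreal_ofReal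
    have m2 : Measurable fun a : ℂ × ℂ => ENNReal.ofReal (rho (a.2.im * normSq a.1)) :=
      (continuous_rho.comp ((continuous_im.comp continuous_snd).mul
        (continuous_normSq.comp continuous_fst))).measurable.ennreal_ofReal
    exact (m1.mul m2).mul (hF.comp measurable_snd)

end Pool.Agent.Lib.MP_a52643_an
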