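import Pool.Agent.Lib.MP_a52643_an.Measure

/-!
Coordinates on the special linear group and elementary hyperbolic geometry.
-/

open MeasureTheory Set Filter Topology Metric UpperHalfPlane
open scoped ENNReal MatrixGroups

noncomputable section

namespace Pool.Agent.Lib.MP_a52643_an

abbrev SL2 : Type := SL(2, ℝ)

def ea (g : SL2) : ℝ := g 0 0
def eb (g : SL2) : ℝ := g 0 1
def ec (g : SL2) : ℝ := g 1 0
def ed (g : SL2) : ℝ := g 1 1

lemma det_eq (g : SL2) : ea g * ed g - eb g * ec g = 1 := by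
  have := g.det_coe
  rwa [Matrix.det_fin_two] at this

def mkG (a b c d : ℝ) (h : a * d - b * c = 1) : SL2 :=
  ⟨!![a, b; c, d], by rw [Matrix.det_fin_two_of]; exact h⟩

@[simp] lemma ea_mkG {a b c d : ℝ} (h) : ea (mkG a b c d h) = a := rfl
@[simp] lemma eb_mkG {a b c d : ℝ} (h) : eb (mkG a b c d h) = b := rfl
@[simp] lemma ec_mkG {a b c d : ℝ} (h) : ec (mkG a b c d h) = c := rfl
@[simp] lemma ed_mkG {a b c d : ℝ} (h) : ed (mkG a b c d h) = d := rfl

@[simp] lemma ea_mul (g h : SL2) : ea (g * h) = ea g * ea h + eb g * ec h := by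
  simp [ea, eb, ec, Matrix.mul_apply, Fin.sum_univ_two]
@[simp] lemma eb_mul (g h : SL2) : eb (g * h) = ea g * eb h + eb g * ed h := by
  simp [ea, eb, ed, Matrix.mul_apply, Fin.sum_univ_two]
@[simp] lemma ec_mul (g h : SL2) : ec (g * h) = ec g * ea h + ed g * ec h := by
  simp [ea, ec, ed, Matrix.mul_apply, Fin.sum_univ_two]
@[simp] lemma ed_mul (g h : SL2) : ed (g * h) = ec g * eb h + ed g * ed h := by
  simp [eb, ec, ed, Matrix.mul_apply, Fin.sum_univ_two]

@[simp] lemma ea_inv (g : SL2) : ea g⁻¹ = ed g := by rw [g.SL2_inv_expl]; rfl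
@[simp] lemma eb_inv (g : SL2) : eb g⁻¹ = -eb g := by rw [g.SL2_inv_expl]; rfl
@[simp] lemma ec_inv (g : SL2) : ec g⁻¹ = -ec g := by rw [g.SL2_inv_expl]; rfl
@[simp] lemma ed_inv (g : SL2) : ed g⁻¹ = ea g := by rw [g.SL2_inv_expl]; rfl

@[simp] lemma ea_one : ea 1 = 1 := rfl
@[simp] lemma eb_one : eb 1 = 0 := rfl
@[simp] lemma ec_one : ec 1 = 0 := rfl
@[simp] lemma ed_one : ed 1 = 1 := rfl

lemma SL2_ext {g h : SL2} (h1 : ea g = ea h) (h2 : eb g = eb h) (h3 : ec g = ec h)
    (h4 : ed g = ed h) : g = h := by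
  ext i j
  fin_cases i <;> fin_cases j <;> assumption

instance instMeasSL2 : MeasurableSpace SL2 :=
  MeasurableSpace.comap (fun g => (ea g, eb g, ec g, ed g)) inferInstance

lemma measurable_ent : Measurable fun g : SL2 => (ea g, eb g, ec g, ed g) :=
  measurable_comap_iff.1 measurable_id

@[fun_prop] lemma measurable_ea : Measurable ea := measurable_ent.fst
@[fun_prop] lemma measurable_eb : Measurable eb := measurable_ent.snd.fst
@[fun_prop] lemma measurable_ec : Measurable ec := measurable_ent.snd.snd.fst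
@[fun_prop] lemma measurable_ed : Measurable ed := measurable_ent.snd.snd.snd

lemma measurable_SL2 {α : Type*} [MeasurableSpace α] {f : α → SL2}
    (h1 : Measurable fun x => ea (f x)) (h2 : Measurable fun x => eb (f x))
    (h3 : Measurable fun x => ec (f x)) (h4 : Measurable fun x => ed (f x)) : Measurable f :=
  measurable_comap_iff.2 (h1.prodMk (h2.prodMk (h3.prodMk h4)))

instance : MeasurableMul₂ SL2 :=
  ⟨measurable_SL2 (by simp only [ea_mul]; fun_prop) (by simp only [eb_mul]; fun_prop)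
    (by simp only [ec_mul]; fun_prop) (by simp only [ed_mul]; fun_prop)⟩

instance : MeasurableInv SL2 :=
  ⟨measurable_SL2 (by simp only [ea_inv]; fun_prop) (by simp only [eb_inv]; fun_prop)
    (by simp only [ec_inv]; fun_prop) (by simp only [ed_inv]; fun_prop)⟩

lemma coe_act (g : SL2) (z : ℍ) :
    ((g • z : ℍ) : ℂ) = (ea g * z + eb g) / (ec g * z + ed g) := by
  rw [coe_specialLinearGroup_apply]; rfl

/-- base point of a frame -/
def bp (g : SL2) : ℍ := g • I

lemma bp_mul (g h : SL2) : bp (g * h) = g • bp h := mul_smul _ _ _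

@[fun_prop] lemma measurable_bp : Measurable bp := by
  refine measurable_comap_iff.2 ?_
  have : UpperHalfPlane.coe ∘ bp = fun g =>
      (ea g * Complex.I + eb g) / (ec g * Complex.I + ed g) := by
    ext g; simp [bp, coe_act]
  rw [this]; fun_prop

lemma dist_bp (v w : SL2) : dist (bp (v⁻¹ * w)) I = dist (bp w) (bp v) := by
  rw [← dist_smul v, ← bp_mul, mul_inv_cancel_left]; rfl

lemma ent_sq (g : SL2) :
    (ea g - ed g) ^ 2 + (eb g + ec g) ^ 2 = 2 * (Real.cosh (dist (bp g) I) - 1) := by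
  have hd := det_eq g
  have hn : 0 < ec g ^ 2 + ed g ^ 2 := by
    by_contra h
    have h1 : ec g = 0 := by nlinarith [sq_nonneg (ec g), sq_nonneg (ed g)]
    have h2 : ed g = 0 := by nlinarith [sq_nonneg (ec g), sq_nonneg (ed g)]
    simp [h1, h2] at hd
  have e := coe_act g I
  have e1 : (bp g).re = (ea g * ec g + eb g * ed g) / (ec g ^ 2 + ed g ^ 2) := by
    rw [← coe_re, bp, e]; simp [Complex.div_re, Complex.normSq_apply]
    rw [← sq, ← sq, add_comm (ed g ^ 2)]; ring
  have e2 : (bp g).im = 1 / (ec g ^ 2 + ed g ^ 2) := by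
    rw [← coe_im, bp, e]; simp [Complex.div_im, Complex.normSq_apply]
    rw [← sq, ← sq, add_comm (ed g ^ 2), ← sub_div, hd, one_div]
  rw [cosh_dist', e1, e2]
  simp only [I_re, I_im]
  field_simp
  linear_combination ((ea g * ed g - eb g * ec g + 1) - 2 * (ec g ^ 2 + ed g ^ 2)) * hd

lemma le_cosh (x : ℝ) : 1 + x ^ 2 / 2 ≤ Real.cosh x := by
  wlog h : 0 ≤ x generalizing x
  · simpa using this (-x) (by linarith)
  have h1 := Real.cosh_two_mul (x / 2)
  have h2 := Real.cosh_sq (x / 2)
  have h3 : x / 2 ≤ Real.sinh (x / 2) := Real.self_le_sinh_iff.2 (by linarith)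
  rw [show 2 * (x / 2) = x by ring] at h1
  nlinarith

lemma dist_bp_le {g : SL2} {r : ℝ} (hr : 0 ≤ r)
    (h : (ea g - ed g) ^ 2 + (eb g + ec g) ^ 2 ≤ r ^ 2) : dist (bp g) I ≤ r := by
  have h1 := le_cosh (dist (bp g) I)
  rw [ent_sq] at h
  exact (pow_le_pow_iff_left₀ dist_nonneg hr two_ne_zero).1 (by linarith)

def nz (s : ℝ) : ℝ := if s = 0 then 1 else s

lemma nz_ne (s : ℝ) : nz s ≠ 0 := by unfold nz; split_ifs with h <;> simp [h]

lemma nz_eq {s : ℝ} (h : s ≠ 0) : nz s = s := if_neg h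

@[fun_prop] lemma measurable_nz : Measurable nz :=
  Measurable.ite (measurableSet_singleton 0) measurable_const measurable_id

/-- the diagonal subgroup -/
def dg (s : ℝ) : SL2 := mkG (nz s) 0 0 (nz s)⁻¹ (by simp [nz_ne])

@[fun_prop] lemma measurable_dg : Measurable dg :=
  measurable_SL2 (by simp only [dg, ea_mkG]; fun_prop) (by simp [dg]) (by simp [dg])
    (by simp only [dg, ed_mkG]; fun_prop)

lemma dg_inv {s : ℝ} (h : s ≠ 0) : (dg s)⁻¹ = dg s⁻¹ := by
  apply SL2_ext <;> simp [dg, nz_eq, h]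

lemma dg_mul {s t : ℝ} (hs : s ≠ 0) (ht : t ≠ 0) : dg s * dg t = dg (s * t) := by
  apply SL2_ext <;> simp [dg, nz_eq, hs, ht, mul_comm]

/-- the two-sided action of the diagonal subgroup -/
def TT2 (p : ℝ × ℝ) (g : SL2) : SL2 :=
  mkG (ea g / nz p.1) (eb g * nz p.2) (ec g / nz p.2) (ed g * nz p.1) (by
    have := nz_ne p.1
    have := nz_ne p.2
    field_simp
    exact det_eq g)

lemma measurable_TT2 : Measurable fun q : (ℝ × ℝ) × SL2 => TT2 q.1 q.2 :=
  measurable_SL2 (by simp only [TT2, ea_mkG]; fun_prop) (by simp only [TT2, eb_mkG]; fun_prop)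
    (by simp only [TT2, ec_mkG]; fun_prop) (by simp only [TT2, ed_mkG]; fun_prop)

lemma TT2_eq {s t : ℝ} (hs : 0 < s) (ht : 0 < t) (g : SL2) :
    TT2 (s, t) g = dg (√t / √s) * g * dg (1 / (√s * √t)) := by
  obtain ⟨p, hp, rfl⟩ : ∃ p, 0 < p ∧ s = p ^ 2 :=
    ⟨√s, Real.sqrt_pos.2 hs, (Real.sq_sqrt hs.le).symm⟩
  obtain ⟨q, hq, rfl⟩ : ∃ p, 0 < p ∧ t = p ^ 2 :=
    ⟨√t, Real.sqrt_pos.2 ht, (Real.sq_sqrt ht.le).symm⟩
  rw [Real.sqrt_sq hp.le, Real.sqrt_sq hq.le]
  have h1 : q / p ≠ 0 := by positivity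
  have h2 : 1 / (p * q) ≠ 0 := by positivity
  apply SL2_ext <;>
    simp only [TT2, dg, nz_eq h1, nz_eq h2, nz_eq hs.ne', nz_eq ht.ne', ea_mul, eb_mul, ec_mul,
      ed_mul, ea_mkG, eb_mkG, ec_mkG, ed_mkG] <;> field_simp <;> ring

/-! measure on the upper half plane -/

instance : SMulInvariantMeasure SL2 ℍ volume :=
  ⟨fun g s _ => measure_preimage_smul volume (g : GL (Fin 2) ℝ) s⟩

lemma measurePreserving_coe : MeasurePreserving UpperHalfPlane.coe volume hyp := by
  refine ⟨measurable_coe, Measure.ext fun s hs => ?_⟩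
  rw [Measure.map_apply measurable_coe hs, volume_eq_lintegral, hyp, withDensity_apply _ hs,
    Measure.restrict_restrict hs, image_preimage_eq_inter_range]
  have : range UpperHalfPlane.coe = UH := by
    ext z; exact ⟨by rintro ⟨w, rfl⟩; exact w.im_pos, fun h => ⟨⟨z, h⟩, rfl⟩⟩
  rw [this]
  congr 1; ext z
  rw [← ENNReal.ofReal_coe_nnreal]; simp

instance : (volume : Measure ℍ).IsOpenPosMeasure := by
  have := Measure.IsOpenPosMeasure.comap (volume : Measure ℂ) isOpenEmbedding_coe
  refine Measure.AbsolutelyContinuous.isOpenPosMeasure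
    (μ := (volume : Measure ℂ).comap UpperHalfPlane.coe) ?_
  refine withDensity_absolutelyContinuous' (Measurable.aemeasurable ?_) (Eventually.of_forall ?_)
  · refine Measurable.coe_nnreal_ennreal (Continuous.measurable ?_)
    refine .pow (.div₀ continuous_const ?_ ?_) _
    · exact continuous_im.subtype_mk _
    · exact fun x ↦ NNReal.ne_iff.mp x.im_ne_zero
  · intro z
    have : NNReal.mk z.im z.im_pos.le ≠ 0 := NNReal.ne_iff.mp z.im_ne_zero
    exact ENNReal.coe_ne_zero.2 (pow_ne_zero _ (one_div_ne_zero this))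

lemma volume_ball_eq (z : ℍ) (r : ℝ) : volume (closedBall z r) = volume (closedBall I r) := by
  rw [← toSL2R_smul_I z, ← Metric.smul_closedBall, measure_smul]

lemma exists_ball_bound (R : ℝ) : ∃ C : ℝ≥0∞, C ≠ ⊤ ∧ ∀ (z : ℍ) (r : ℝ), 0 ≤ r → r ≤ R →
    volume (closedBall z r) ≤ C * ENNReal.ofReal r ^ 2 := by
  refine ⟨ENNReal.ofReal (Real.exp R) ^ 2 * (ENNReal.ofReal (Real.exp R) ^ 2 * NNReal.pi),
    by finiteness, fun z r hr hR => ?_⟩
  rw [volume_ball_eq, volume_eq_lintegral]
  calc _ ≤ ∫⁻ _ in UpperHalfPlane.coe '' closedBall I r, ENNReal.ofReal (Real.exp R) ^ 2 := by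
        refine setLIntegral_mono' (measurableEmbedding_coe.measurableSet_image.2
          measurableSet_closedBall) ?_
        rintro _ ⟨w, hw, rfl⟩
        have h1 := im_div_exp_dist_le I w
        rw [mem_closedBall, dist_comm] at hw
        have h2 : Real.exp (dist I w) ≤ Real.exp R := Real.exp_le_exp.2 (hw.trans hR)
        have h3 := w.im_pos
        rw [← ENNReal.ofReal_coe_nnreal, ← ENNReal.ofReal_pow (Real.exp_pos R).le]
        refine ENNReal.ofReal_le_ofReal ?_
        simp only [NNReal.coe_pow, NNReal.coe_div, NNReal.coe_one, coe_nnnorm, coe_im,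
          Real.norm_of_nonneg h3.le]
        gcongr
        rw [I_im, div_le_iff₀ (Real.exp_pos _)] at h1
        rw [div_le_iff₀ h3]
        nlinarith
    _ ≤ ENNReal.ofReal (Real.exp R) ^ 2 * volume (closedBall Complex.I (Real.exp R * r)) := by
        rw [setLIntegral_const]
        gcongr
        rintro _ ⟨w, hw, rfl⟩
        have h1 := dist_coe_le w I
        rw [mem_closedBall] at hw ⊢
        have h2 : Real.exp (dist w I) ≤ Real.exp r := Real.exp_le_exp.2 hw
        have h3 : Real.exp r ≤ Real.exp R := Real.exp_le_exp.2 hR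
        have h4 := Real.add_one_le_exp (-r)
        have h5 : Real.exp r * Real.exp (-r) = 1 := by rw [← Real.exp_add]; simp
        simp only [I_im, one_mul, coe_I] at h1
        nlinarith [Real.exp_pos r]
    _ = _ := by
        rw [Complex.volume_closedBall, ENNReal.ofReal_mul (Real.exp_pos R).le]; ring

lemma volume_geodesic (g : SL2) : volume {z : ℍ | (g • z).re = 0} = 0 := by
  have m : MeasurableSet {z : ℂ | z.re = 0} := Complex.measurable_re (measurableSet_singleton 0)
  have h1 : volume {z : ℂ | z.re = 0} = 0 := by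
    have := Complex.volume_preserving_equiv_real_prod.measure_preimage
      (s := ({0} : Set ℝ) ×ˢ (univ : Set ℝ))
      ((measurableSet_singleton 0).prod MeasurableSet.univ).nullMeasurableSet
    rw [Measure.volume_eq_prod, Measure.prod_prod] at this
    simp only [Real.volume_singleton, zero_mul] at this
    rw [← this]; congr 1; ext z; simp
  have h2 : hyp {z : ℂ | z.re = 0} = 0 :=
    withDensity_absolutelyContinuous _ _ (Measure.restrict_le_self.absolutelyContinuous h1)
  rw [← measurePreserving_coe.measure_preimage m.nullMeasurableSet] at h2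
  rw [← measure_preimage_smul volume g] at h2
  exact h2

end Pool.Agent.Lib.MP_a52643_an
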