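import Pool.Agent.Lib.MP_a52643_an.Trans

/-!
The density of the projected limit measure.
-/

open MeasureTheory Set Filter Topology Metric UpperHalfPlane
open scoped ENNReal MatrixGroups Pointwise NNReal ComplexConjugate

noncomputable section

namespace Pool.Agent.Lib.MP_a52643_an

lemma integrable_of_abs_le {X : Type*} [MeasurableSpace X] {m : Measure X} [IsFiniteMeasure m]
    {ψ : X → ℝ} (hψ : Measurable ψ) {B : ℝ} (hB : ∀ x, |ψ x| ≤ B) : Integrable ψ m :=
  Integrable.of_bound hψ.aestronglyMeasurable B (Eventually.of_forall hB)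

lemma exists_cont_approx (m : Measure ℍ) [IsFiniteMeasure m] {ψ : ℍ → ℝ} (hψ : Measurable ψ)
    {B : ℝ} (hB : ∀ x, |ψ x| ≤ B) {ε : ℝ} (hε : 0 < ε) :
    ∃ g : ℍ → ℝ, Continuous g ∧ (∀ x, |g x| ≤ B) ∧ ∫ x, |ψ x - g x| ∂m ≤ ε := by
  obtain ⟨g, h1, h2⟩ := (integrable_of_abs_le (m := m) hψ hB).exists_boundedContinuous_integral_sub_le hε
  have B0 : 0 ≤ B := (abs_nonneg _).trans (hB I)
  refine ⟨fun x => max (-B) (min B (g x)), by fun_prop, fun x => abs_le.2 ⟨le_max_left _ _,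
    max_le (by linarith) (min_le_left _ _)⟩, le_trans (integral_mono_of_nonneg
      (Eventually.of_forall fun x => abs_nonneg _)
      ((integrable_of_abs_le hψ hB).sub h2).norm (Eventually.of_forall fun x => ?_)) h1⟩
  have := abs_le.1 (hB x)
  have h3 := le_abs_self (ψ x - g x)
  have h4 := neg_abs_le (ψ x - g x)
  simp only [Real.norm_eq_abs, Pi.sub_apply]
  rw [abs_le]
  rcases le_total B (g x) with h | h
  · rw [min_eq_left h, max_eq_right (by linarith)]; constructor <;> linarith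
  · rw [min_eq_right h]
    rcases le_total (-B) (g x) with h' | h'
    · rw [max_eq_right h']; constructor <;> linarith
    · rw [max_eq_left h']; constructor <;> linarith

section dual

variable {α β : Measure ℍ} [IsFiniteMeasure α] [IsFiniteMeasure β] {C : ℝ}

lemma dual_meas (h : ∀ ψ : ℍ → ℝ, Continuous ψ → 2 * ∫ x, ψ x ∂α - ∫ x, ψ x ^ 2 ∂β ≤ C)
    {ψ : ℍ → ℝ} (hψ : Measurable ψ) {B : ℝ} (hB : ∀ x, |ψ x| ≤ B) :
    2 * ∫ x, ψ x ∂α - ∫ x, ψ x ^ 2 ∂β ≤ C := by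
  have B0 : 0 ≤ B := (abs_nonneg _).trans (hB I)
  refine le_of_forall_pos_le_add fun ε hε => ?_
  obtain ⟨g, h1, h2, h3⟩ := exists_cont_approx (α + β) hψ hB (ε := ε / (2 + 2 * B)) (by positivity)
  have md : Measurable fun x => |ψ x - g x| := (hψ.sub h1.measurable).abs
  have bd : ∀ x, |(|ψ x - g x|)| ≤ B + B := fun x => by
    rw [abs_abs]; exact (abs_sub _ _).trans (add_le_add (hB x) (h2 x))
  have sq : ∀ {u : ℍ → ℝ}, (∀ x, |u x| ≤ B) → ∀ x, |u x ^ 2| ≤ B ^ 2 := fun hu x => by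
    rw [abs_pow]; exact pow_le_pow_left₀ (abs_nonneg _) (hu x) 2
  rw [integral_add_measure (integrable_of_abs_le md bd) (integrable_of_abs_le md bd)] at h3
  have a0 : 0 ≤ ∫ x, |ψ x - g x| ∂α := integral_nonneg fun x => abs_nonneg _
  have b0 : 0 ≤ ∫ x, |ψ x - g x| ∂β := integral_nonneg fun x => abs_nonneg _
  have a1 : ∫ x, ψ x ∂α ≤ ∫ x, g x ∂α + ∫ x, |ψ x - g x| ∂α := by
    rw [← integral_add (integrable_of_abs_le h1.measurable h2) (integrable_of_abs_le md bd)]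
    exact integral_mono (integrable_of_abs_le hψ hB) ((integrable_of_abs_le h1.measurable h2).add
      (integrable_of_abs_le md bd)) fun x => by linarith [le_abs_self (ψ x - g x)]
  have b1 : ∫ x, g x ^ 2 ∂β ≤ ∫ x, ψ x ^ 2 ∂β + 2 * B * ∫ x, |ψ x - g x| ∂β := by
    have i1 := integrable_of_abs_le (m := β) (hψ.pow_const 2) (sq hB)
    have i2 := (integrable_of_abs_le (m := β) md bd).const_mul (2 * B)
    rw [← integral_const_mul, ← integral_add i1 i2]
    refine integral_mono (integrable_of_abs_le (h1.measurable.pow_const 2) (sq h2)) (i1.add i2)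
      fun x => ?_
    have e : g x ^ 2 - ψ x ^ 2 = -(ψ x + g x) * (ψ x - g x) := by ring
    have := le_abs_self (-(ψ x + g x) * (ψ x - g x))
    rw [abs_mul, abs_neg] at this
    have h4 : |ψ x + g x| ≤ 2 * B := (abs_add_le _ _).trans (by linarith [hB x, h2 x])
    have := mul_le_mul_of_nonneg_right h4 (abs_nonneg (ψ x - g x))
    simp only
    linarith
  have := h g h1
  rw [le_div_iff₀ (by positivity)] at h3
  nlinarith

lemma dual_ac (h : ∀ ψ : ℍ → ℝ, Continuous ψ → 2 * ∫ x, ψ x ∂α - ∫ x, ψ x ^ 2 ∂β ≤ C) :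
    α ≪ β := by
  refine Measure.AbsolutelyContinuous.mk fun N hN h0 => ?_
  by_contra h1
  have h2 : 0 < α.real N := ENNReal.toReal_pos h1 (measure_ne_top _ _)
  have := dual_meas h (ψ := N.indicator fun _ => (|C| + 1) / α.real N)
    (measurable_const.indicator hN) (B := (|C| + 1) / α.real N) (fun x => by
      by_cases hx : x ∈ N
      · rw [indicator_of_mem hx, abs_of_nonneg (by positivity)]
      · rw [indicator_of_notMem hx, abs_zero]; positivity)
  have e : ∫ x, (N.indicator (fun _ => (|C| + 1) / α.real N) x) ^ 2 ∂β = 0 := by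
    refine integral_eq_zero_of_ae ?_
    filter_upwards [compl_mem_ae_iff.2 h0] with x hx
    simp [indicator_of_notMem hx]
  rw [e, integral_indicator_const _ hN, smul_eq_mul, mul_div_cancel₀ _ h2.ne'] at this
  linarith [le_abs_self C, abs_nonneg C]

lemma lintegral_sq_le_of_min {X : Type*} [MeasurableSpace X] {m : Measure X} {f : X → ℝ≥0∞}
    (hf : Measurable f) {c : ℝ≥0∞} (h : ∀ n : ℕ, ∫⁻ x, min (f x) n ^ 2 ∂m ≤ c) :
    ∫⁻ x, f x ^ 2 ∂m ≤ c := by
  refine le_trans (lintegral_mono fun x => ?_) ((lintegral_iSup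
    (f := fun (n : ℕ) x => min (f x) n ^ 2) (fun n => (hf.min measurable_const).pow_const 2)
    fun n k hnk x => by simp only; gcongr).le.trans (iSup_le h))
  by_cases hx : f x = ⊤
  · rw [hx]
    refine le_trans (le_of_eq ?_) (iSup_mono (f := fun n : ℕ => (n : ℝ≥0∞)) fun n => ?_)
    · simp [ENNReal.iSup_natCast]
    · simp only [le_top, min_eq_right]
      exact_mod_cast Nat.le_self_pow two_ne_zero n
  · obtain ⟨n, hn⟩ := ENNReal.exists_nat_gt hx
    exact le_iSup_of_le n (by rw [min_eq_left hn.le])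

lemma dual_sq (h : ∀ ψ : ℍ → ℝ, Continuous ψ → 2 * ∫ x, ψ x ∂α - ∫ x, ψ x ^ 2 ∂β ≤ C)
    {f : ℍ → ℝ≥0∞} (hf : Measurable f) (e : α = β.withDensity f) :
    ∫⁻ x, f x ^ 2 ∂β ≤ ENNReal.ofReal C := by
  refine lintegral_sq_le_of_min hf fun n => ?_
  have m : Measurable fun x => min (f x) n := hf.min measurable_const
  have lt : ∀ x, min (f x) n < ⊤ := fun x => (min_le_right _ _).trans_lt (by simp)
  have := dual_meas h m.ennreal_toReal (B := n) fun x => by
    rw [abs_of_nonneg ENNReal.toReal_nonneg]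
    exact ENNReal.toReal_le_of_le_ofReal n.cast_nonneg (by simp)
  simp only [← ENNReal.toReal_pow] at this
  rw [integral_toReal m.aemeasurable (Eventually.of_forall lt), integral_toReal
    (m.pow_const 2).aemeasurable (Eventually.of_forall fun x => ENNReal.pow_lt_top (lt x))] at this
  have h1 : ∫⁻ x, min (f x) n ^ 2 ∂β ≤ ∫⁻ x, min (f x) n ∂α := by
    rw [e, lintegral_withDensity_eq_lintegral_mul _ hf m]
    exact lintegral_mono fun x => by rw [sq]; exact mul_le_mul_left (min_le_left _ _) _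
  have h2 : ∫⁻ x, min (f x) n ∂α ≠ ⊤ := ne_top_of_le_ne_top (by simp [ENNReal.mul_eq_top])
    (lintegral_mono (g := fun _ => (n : ℝ≥0∞)) fun x => min_le_right _ _)
  have h3 := ENNReal.toReal_mono h2 h1
  rw [← ENNReal.ofReal_toReal (ne_top_of_le_ne_top h2 h1)]
  exact ENNReal.ofReal_le_ofReal (by linarith)

end dual

lemma exists_ext {K : Set ℂ} (hK : IsClosed K) (hU : K ⊆ UH) {ψ : ℍ → ℝ} (hψ : Continuous ψ) :
    ∃ g : ℂ → ℝ, Continuous g ∧ ∀ z : ℍ, (z : ℂ) ∈ K → g z = ψ z := by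
  obtain ⟨g, hg⟩ := ContinuousMap.exists_restrict_eq hK
    ⟨fun z : K => ψ ⟨z, hU z.2⟩, hψ.comp (continuous_subtype_val.upperHalfPlaneMk _)⟩
  exact ⟨g, g.continuous, fun z hz => DFunLike.congr_fun hg ⟨z, hz⟩⟩

lemma exists_bumpH {K O : Set ℍ} (hK : IsCompact K) (hO : IsOpen O) (hKO : K ⊆ O) :
    ∃ χ : ℂ → ℝ, TF1 χ ∧ (∀ z ∈ K, χ (z : ℍ) = 1) ∧ (∀ z, χ z ≤ 1) ∧
      ∀ z : ℍ, (z : ℂ) ∈ tsupport χ → z ∈ O := by
  obtain ⟨θ, h1, h2, h3, h4, h5⟩ := exists_bump (hK.image continuous_coe)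
    (isOpenEmbedding_coe.isOpenMap _ hO) (image_mono hKO)
  refine ⟨θ, ⟨⟨h1.continuous, h2, h3.trans ?_⟩, h1, fun z => (h5 z).1⟩,
    fun z hz => h4.self_of_nhdsSet _ ⟨z, hz, rfl⟩, fun z => (h5 z).2, fun z hz => ?_⟩
  · rintro _ ⟨z, -, rfl⟩; exact z.im_pos
  · obtain ⟨w, hw, e⟩ := h3 hz
    rwa [← UpperHalfPlane.ext e]

lemma integral_hyp_coe {E : Type*} [NormedAddCommGroup E] [NormedSpace ℝ E] (F : ℂ → E) :
    ∫ z, F z ∂hyp = ∫ z : ℍ, F z :=
  (measurePreserving_coe.integral_comp measurableEmbedding_coe F).symm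

variable {J : Type} {U : Ultrafilter J} {lam : J → ℝ} {Φ : J → ℤ → V → ℂ} {μ : Measure V}
  {χ : ℂ → ℝ}

def muH (μ : Measure V) : Measure ℍ := (μ.map nG).map bp

lemma IsLim.ae_Om (hμ : IsLim U Φ μ) : ∀ᵐ v ∂μ, v ∈ Om :=
  hμ.ae_cslab.mono fun _ hv => cslab_subset_Om hv

lemma IsLim.integral_muH (hμ : IsLim U Φ μ) {F : ℂ → ℝ} (hF : Measurable F) :
    ∫ z : ℍ, F z ∂muH μ = ∫ v, F (pr v) ∂μ := by
  rw [muH, Measure.map_map measurable_bp measurable_nG, integral_map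
    (measurable_bp.comp measurable_nG).aemeasurable
    (by exact (hF.comp measurable_coe).aestronglyMeasurable)]
  exact integral_congr_ae (hμ.ae_Om.mono fun v hv => by simp only [Function.comp, coe_bp_nG hv])

lemma IsLim.lf_muH (hμ : IsLim U Φ μ) : IsLocallyFiniteMeasure (muH μ) := by
  have : IsFiniteMeasureOnCompacts (muH μ) := ⟨fun K hK => by
    rw [muH, Measure.map_map measurable_bp measurable_nG,
      Measure.map_apply (measurable_bp.comp measurable_nG) hK.measurableSet]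
    refine lt_of_le_of_lt (measure_mono_ae ?_) (hμ.pr_ne_top (hK.image continuous_coe)
      (by rintro _ ⟨z, -, rfl⟩; exact z.im_pos)).lt_top
    filter_upwards [hμ.ae_Om] with v hv h using ⟨_, h, coe_bp_nG hv⟩⟩
  infer_instance

def WB (μ : Measure V) (χ : ℂ → ℝ) (C : ℝ) : Prop := ∀ ψ : ℂ → ℝ, Continuous ψ →
  2 * ∫ v, χ (pr v) * ψ (pr v) ∂μ - ∫ z, χ z * ψ z ^ 2 ∂hyp ≤ C

lemma TF.hcs_coe {τ : ℂ → ℝ} (h : TF τ) : HasCompactSupport fun z : ℍ => τ z :=
  HasCompactSupport.intro (isEmbedding_coe.isInducing.isCompact_preimage' h.hcs.isCompact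
    fun z hz => ⟨⟨z, h.sub hz⟩, rfl⟩) fun _ hz => image_eq_zero_of_notMem_tsupport hz

lemma TF1.fin (hχ : TF1 χ) (m : Measure ℍ) [IsLocallyFiniteMeasure m] :
    IsFiniteMeasure (m.withDensity fun z => ENNReal.ofReal (χ z)) :=
  isFiniteMeasure_withDensity_ofReal
    ((hχ.cont.comp continuous_coe).integrable_of_hasCompactSupport hχ.toTF.hcs_coe).2

lemma TF1.measE (hχ : TF1 χ) : Measurable fun z : ℍ => ENNReal.ofReal (χ z) :=
  (hχ.cont.comp continuous_coe).measurable.ennreal_ofReal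

lemma WB.dual (hμ : IsLim U Φ μ) (hχ : TF1 χ) {C : ℝ} (h : WB μ χ C) (ψ : ℍ → ℝ)
    (hψ : Continuous ψ) : 2 * ∫ x, ψ x ∂((muH μ).withDensity fun z => ENNReal.ofReal (χ z))
      - ∫ x, ψ x ^ 2 ∂(volume.withDensity fun z : ℍ => ENNReal.ofReal (χ z)) ≤ C := by
  obtain ⟨g, hg, e⟩ := exists_ext (isClosed_tsupport χ) hχ.sub hψ
  have := h g hg
  rw [integral_hyp_coe, ← hμ.integral_muH (F := fun z => χ z * g z)
    (hχ.cont.mul hg).measurable] at this
  have e2 : ∀ (z : ℍ) (n : ℕ), χ z * g z ^ n = χ z * ψ z ^ n := fun z n => by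
    by_cases hz : (z : ℂ) ∈ tsupport χ
    · rw [e z hz]
    · simp [image_eq_zero_of_notMem_tsupport hz]
  have e1 : ∀ z : ℍ, χ z * g z = χ z * ψ z := fun z => by simpa using e2 z 1
  rw [integral_withDensity_eq_integral_toReal_smul hχ.measE (by simp),
    integral_withDensity_eq_integral_toReal_smul hχ.measE (by simp)]
  simpa only [ENNReal.toReal_ofReal (hχ.nn _), smul_eq_mul, e1, e2] using this

lemma IsLim.ac (hμ : IsLim U Φ μ) (h : ∀ χ, TF1 χ → ∃ C, WB μ χ C) : muH μ ≪ volume := by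
  have := hμ.lf_muH
  refine Measure.AbsolutelyContinuous.mk fun N hN h0 => ?_
  rw [← inter_univ N, ← iUnion_closedBall_nat I, inter_iUnion]
  refine measure_iUnion_null fun n => ?_
  obtain ⟨χ, hχ, h1, -⟩ := exists_bumpH (isCompact_closedBall I n) isOpen_univ (subset_univ _)
  obtain ⟨C, hC⟩ := h χ hχ
  have := hχ.fin (muH μ)
  have := hχ.fin volume
  have h2 := dual_ac (hC.dual hμ hχ) (withDensity_absolutelyContinuous _ _ h0)
  rw [withDensity_apply_eq_zero hχ.measE] at h2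
  refine measure_mono_null (fun z hz => ?_) h2
  exact ⟨by simp [h1 z hz.2], hz.1⟩

variable {Γ : Type*} [Group Γ] [MulAction Γ ℍ] [Countable Γ] {l : Γ → SL2} {D : Set ℍ}

/-- admissible cut-offs -/
def FC (Γ : Type*) [Group Γ] [MulAction Γ ℍ] (χ : ℂ → ℝ) : Prop := TF1 χ ∧ (∀ z, χ z ≤ 1) ∧
  ∃ O : Set ℍ, MeasurableSet O ∧ Free Γ O ∧ ∀ z : ℍ, (z : ℂ) ∈ tsupport χ → z ∈ O

lemma IsLim.sq_le (hμ : IsLim U Φ μ) (hD : FD l D) {f : ℍ → ℝ≥0∞} (hf : Measurable f)
    (e : muH μ = volume.withDensity f) {C : ℝ} (h : ∀ χ, FC Γ χ → WB μ χ C) :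
    ∫⁻ z in D, f z ^ 2 ≤ ENNReal.ofReal C := by
  have := hμ.lf_muH
  refine lintegral_sq_le_of_min hf fun n => ENNReal.le_of_forall_pos_le_add fun ε hε _ => ?_
  obtain ⟨t, t0, -, ht⟩ := exists_mul_le_enn (c := (n : ℝ≥0∞) ^ 2) (η := ε) (by simp)
    (by simpa using hε.ne')
  obtain ⟨K, O, hK, hKD, hO, hKO, hF, h1, -⟩ := hD.exists_free t0
  obtain ⟨χ, hχ, h2, h3, h4⟩ := exists_bumpH hK hO hKO
  have := hχ.fin (muH μ)
  have := hχ.fin volume
  have h5 := dual_sq ((h χ ⟨hχ, h3, O, hO.measurableSet, hF, h4⟩).dual hμ hχ) hf (by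
    rw [e, ← withDensity_mul _ hf hχ.measE, ← withDensity_mul _ hχ.measE hf, mul_comm])
  rw [lintegral_withDensity_eq_lintegral_mul _ hχ.measE (hf.pow_const 2)] at h5
  rw [← lintegral_inter_add_sdiff _ _ hK.measurableSet, inter_eq_right.2 hKD]
  refine add_le_add (le_trans ?_ ((setLIntegral_le_lintegral K _).trans h5)) (le_trans ?_ ht)
  · refine setLIntegral_mono' hK.measurableSet fun z hz => ?_
    simp only [Pi.mul_apply, h2 z hz, ENNReal.ofReal_one, one_mul]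
    gcongr; exact min_le_left _ _
  · calc _ ≤ ∫⁻ _ in D \ K, (n : ℝ≥0∞) ^ 2 := by gcongr; exact min_le_right _ _
      _ ≤ _ := by rw [setLIntegral_const]; gcongr

theorem exists_adm (h : Fam U lam Φ) (hμ : IsLim U Φ μ) (hD : FD l D)
    (hi : ∀ γ j n, Inv (ea (l γ)) (eb (l γ)) (ec (l γ)) (ed (l γ)) (Φ j n))
    (h1 : ∀ χ, TF1 χ → ∃ C, WB μ χ C) {C : ℝ} (h2 : ∀ χ, FC Γ χ → WB μ χ C) :
    ∃ f, Adm l D (μ.map nG) f := by
  have := hμ.lf_muH
  have left : ∀ γ, MeasurePreserving (fun g => l γ * g) (μ.map nG) (μ.map nG) := fun γ =>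
    mp_map measurable_nG (hμ.mp_Lg h (det_eq _) (hi γ)) (measurable_const_mul _)
      (hμ.ae_Om.mono fun v hv => (nG_Lg _ hv).symm)
  have mH : ∀ γ : Γ, MeasurePreserving (fun z : ℍ => γ • z) (muH μ) (muH μ) := fun γ =>
    mp_map measurable_bp (left γ) (hD.mp γ).measurable
      (Eventually.of_forall fun g => by rw [bp_mul, hD.act])
  have ai : ∀ γ : Γ, ∀ᵐ z : ℍ, (muH μ).rnDeriv volume (γ • z) = (muH μ).rnDeriv volume z := by
    intro γ
    have me : MeasurableEmbedding fun z : ℍ => γ • z := by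
      simp only [hD.act]; exact measurableEmbedding_const_smul _
    have := me.rnDeriv_map (muH μ) volume
    rwa [(mH γ).map_eq, (hD.mp γ).map_eq] at this
  have mf : Measurable fun z : ℍ => ⨅ γ : Γ, (muH μ).rnDeriv volume (γ • z) :=
    Measurable.iInf fun γ => (Measure.measurable_rnDeriv _ _).comp (hD.mp γ).measurable
  have e : muH μ = volume.withDensity fun z : ℍ => ⨅ γ : Γ, (muH μ).rnDeriv volume (γ • z) := by
    rw [withDensity_congr_ae (g := (muH μ).rnDeriv volume),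
      Measure.withDensity_rnDeriv_eq _ _ (hμ.ac h1)]
    filter_upwards [ae_all_iff.2 ai] with z hz
    simp [hz]
  refine ⟨_, hD, left, fun s hs => ?_, mf, fun γ z => ?_, e,
    ne_top_of_le_ne_top ENNReal.ofReal_ne_top (hμ.sq_le hD mf e h2)⟩
  · refine mp_map measurable_nG (hμ.mp_fl h (-Real.log s)) (measurable_mul_const _)
      (hμ.ae_Om.mono fun v hv => ?_)
    rw [nG_fl _ hv, neg_neg, Real.exp_log hs]
  · simp only [smul_smul]
    exact (Equiv.mulRight γ).iInf_comp (g := fun δ : Γ => (muH μ).rnDeriv volume (δ • z))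

end Pool.Agent.Lib.MP_a52643_an
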