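import Pool.Agent.Lib.MP_a52643_an.Basic

/-!
A quantitative div-curl lemma in the complex plane.
-/

open Complex MeasureTheory Set Filter Topology
open scoped ComplexConjugate ContDiff

noncomputable section

namespace Pool.Agent.Lib.MP_a52643_an

def dz (f : ℂ → ℂ) (z : ℂ) : ℂ := wp (fderiv ℝ f z) 1

def dzb (f : ℂ → ℂ) (z : ℂ) : ℂ := wm (fderiv ℝ f z) 1

lemma continuous_dz {f : ℂ → ℂ} (hf : ContDiff ℝ 1 f) : Continuous (dz f) := by
  have := hf.continuous_fderiv one_ne_zero
  unfold dz wp; fun_prop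

lemma continuous_dzb {f : ℂ → ℂ} (hf : ContDiff ℝ 1 f) : Continuous (dzb f) := by
  have := hf.continuous_fderiv one_ne_zero
  unfold dzb wm; fun_prop

lemma dz_mul {f g : ℂ → ℂ} {z : ℂ} (hf : DifferentiableAt ℝ f z) (hg : DifferentiableAt ℝ g z) :
    dz (fun w => f w * g w) z = dz f z * g z + f z * dz g z := by
  simp only [dz, wp, fderiv_fun_mul hf hg]
  simp; ring

lemma dzb_mul {f g : ℂ → ℂ} {z : ℂ} (hf : DifferentiableAt ℝ f z) (hg : DifferentiableAt ℝ g z) :
    dzb (fun w => f w * g w) z = dzb f z * g z + f z * dzb g z := by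
  simp only [dzb, wm, fderiv_fun_mul hf hg]
  simp; ring

lemma hcs_dz {f : ℂ → ℂ} (hc : HasCompactSupport f) : HasCompactSupport (dz f) :=
  (hc.fderiv ℝ).comp_left (g := fun L => wp L 1) (by simp [wp])

lemma hcs_dzb {f : ℂ → ℂ} (hc : HasCompactSupport f) : HasCompactSupport (dzb f) :=
  (hc.fderiv ℝ).comp_left (g := fun L => wm L 1) (by simp [wm])

lemma integral_fderiv_C {G : ℂ → ℂ} (hG : ContDiff ℝ 1 G) (hc : HasCompactSupport G) (e : ℂ) :
    Integrable (fun z => fderiv ℝ G z e) ∧ ∫ z, fderiv ℝ G z e = 0 := by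
  have hi : Integrable fun z => fderiv ℝ G z e :=
    ((hG.continuous_fderiv one_ne_zero).clm_apply continuous_const).integrable_of_hasCompactSupport
      (hc.fderiv_apply ℝ e)
  refine ⟨hi, ?_⟩
  have := integral_mul_fderiv_eq_neg_fderiv_mul_of_integrable (μ := (volume : Measure ℂ))
    (f := fun _ => (1 : ℂ)) (g := G) (v := e) (by simp) (by simpa using hi)
    (by simpa using hG.continuous.integrable_of_hasCompactSupport hc)
    (fun x _ => differentiableAt_const _) (fun x _ => (hG.differentiable one_ne_zero) x)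
  simpa using this

lemma integral_dz {G : ℂ → ℂ} (hG : ContDiff ℝ 1 G) (hc : HasCompactSupport G) :
    ∫ z, dz G z = 0 := by
  unfold dz wp
  rw [integral_div, integral_sub (integral_fderiv_C hG hc _).1
    ((integral_fderiv_C hG hc _).1.const_mul _), integral_const_mul, (integral_fderiv_C hG hc _).2,
    (integral_fderiv_C hG hc _).2]
  simp

lemma integral_dzb {G : ℂ → ℂ} (hG : ContDiff ℝ 1 G) (hc : HasCompactSupport G) :
    ∫ z, dzb G z = 0 := by
  unfold dzb wm
  rw [integral_div, integral_add (integral_fderiv_C hG hc _).1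
    ((integral_fderiv_C hG hc _).1.const_mul _), integral_const_mul, (integral_fderiv_C hG hc _).2,
    (integral_fderiv_C hG hc _).2]
  simp

lemma fderiv_shift {U : ℂ → ℂ} (hU : ContDiff ℝ 1 U) (x : ℂ) (ε : ℝ) (a h : ℂ) :
    fderiv ℝ (fun a => U (x + ε • a)) a h = ε * fderiv ℝ U (x + ε • a) h := by
  have h1 : HasFDerivAt (fun a : ℂ => x + ε • a) (ε • ContinuousLinearMap.id ℝ ℂ) a :=
    ((hasFDerivAt_id a).const_smul ε).const_add x
  have h2 := ((hU.differentiable one_ne_zero) (x + ε • a)).hasFDerivAt.comp a h1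
  have h3 : fderiv ℝ (fun a => U (x + ε • a)) a = _ := h2.fderiv
  rw [h3]
  simp only [ContinuousLinearMap.comp_apply, smul_apply, ContinuousLinearMap.id_apply, map_smul]
  simp

lemma dzb_shift {U : ℂ → ℂ} (hU : ContDiff ℝ 1 U) (x : ℂ) (ε : ℝ) (a : ℂ) :
    dzb (fun a => U (x + ε • a)) a = ε * dzb U (x + ε • a) := by
  simp only [dzb, wm, fderiv_shift hU]; ring

lemma dz_add_const (U : ℂ → ℂ) (a x : ℂ) : dz (fun x => U (x + a)) x = dz U (x + a) := by
  simp only [dz, fderiv_comp_add_right]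

lemma dzb_add_const (U : ℂ → ℂ) (a x : ℂ) : dzb (fun x => U (x + a)) x = dzb U (x + a) := by
  simp only [dzb, fderiv_comp_add_right]

lemma ibp_shift {k U : ℂ → ℂ} (hk : ContDiff ℝ 1 k) (hc : HasCompactSupport k)
    (hU : ContDiff ℝ 1 U) (x : ℂ) (ε : ℝ) :
    ∫ a, dzb k a * U (x + ε • a) = -ε * ∫ a, k a * dzb U (x + ε • a) := by
  have hU' : ContDiff ℝ 1 fun a => U (x + ε • a) :=
    hU.comp (contDiff_const.add (contDiff_id.const_smul ε))
  have h := integral_dzb (hk.mul hU') hc.mul_right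
  simp only [dzb_mul (hk.differentiable one_ne_zero _) (hU'.differentiable one_ne_zero _),
    dzb_shift hU] at h
  have c1 : Continuous fun a => dzb U (x + ε • a) := (continuous_dzb hU).comp (by fun_prop)
  have i1 : Integrable fun a => dzb k a * U (x + ε • a) :=
    ((continuous_dzb hk).mul hU'.continuous).integrable_of_hasCompactSupport (hcs_dzb hc).mul_right
  have i2 : Integrable fun a => k a * (ε * dzb U (x + ε • a)) :=
    (hk.continuous.mul (continuous_const.mul c1)).integrable_of_hasCompactSupport hc.mul_right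
  rw [integral_add i1 i2] at h
  have e : ∫ a, k a * (ε * dzb U (x + ε • a)) = ε * ∫ a, k a * dzb U (x + ε • a) := by
    rw [← integral_const_mul]; congr 1; ext a; ring
  rw [e] at h
  linear_combination h

lemma fubini_shift {k W U : ℂ → ℂ} (hk : Continuous k) (hc : HasCompactSupport k)
    (hW : Continuous W) (hcW : HasCompactSupport W) (hU : Continuous U) (ε : ℝ) :
    ∫ a, k a * ∫ x, W x * U (x + ε • a) = ∫ x, W x * ∫ a, k a * U (x + ε • a) := by
  simp only [← integral_const_mul]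
  rw [integral_integral_swap]
  · congr 1; ext x; congr 1; ext a; ring
  · refine Continuous.integrable_of_hasCompactSupport (by fun_prop) ?_
    refine HasCompactSupport.intro (hc.isCompact.prod hcW.isCompact) fun p hp => ?_
    simp only [mem_prod, not_and_or] at hp
    rcases hp with h | h <;> simp [Function.uncurry, image_eq_zero_of_notMem_tsupport h]

lemma continuous_shift_integral {X : Type*} [TopologicalSpace X] [FirstCountableTopology X]
    [LocallyCompactSpace X] {W U : ℂ → ℂ} (hW : Continuous W) (hcW : HasCompactSupport W)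
    (hU : Continuous U) {s : X → ℂ → ℂ} (hs : Continuous s.uncurry) :
    Continuous fun p => ∫ x, W x * U (s p x) := by
  have : (fun p => ∫ x, W x * U (s p x)) = fun p => ∫ x in tsupport W, W x * U (s p x) := by
    ext p
    rw [setIntegral_eq_integral_of_forall_compl_eq_zero]
    intro x hx
    simp [image_eq_zero_of_notMem_tsupport hx]
  rw [this]
  exact continuous_parametric_integral_of_continuous
    ((hW.comp continuous_snd).mul (hU.comp hs)) hcW.isCompact

/-! the kernels -/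

def bet (t : ℝ) : ℝ := Real.smoothTransition (2 * t - 1)

lemma contDiff_bet : ContDiff ℝ 2 bet :=
  (Real.smoothTransition.contDiff (n := 2)).comp (by fun_prop)

lemma bet_zero {t : ℝ} (h : t ≤ 1 / 2) : bet t = 0 :=
  Real.smoothTransition.zero_of_nonpos (by linarith)

lemma bet_one {t : ℝ} (h : 1 ≤ t) : bet t = 1 :=
  Real.smoothTransition.one_of_one_le (by linarith)

lemma deriv_bet_nonneg (t : ℝ) : 0 ≤ deriv bet t :=
  Monotone.deriv_nonneg fun _ _ h => Real.smoothTransition.monotone (by linarith)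

lemma continuous_deriv_bet : Continuous (deriv bet) := contDiff_bet.continuous_deriv (by simp)

lemma deriv_bet_zero {t : ℝ} (h : t < 1 / 2 ∨ 1 < t) : deriv bet t = 0 := by
  rcases h with h | h
  · have : bet =ᶠ[𝓝 t] fun _ => 0 := by
      filter_upwards [gt_mem_nhds h] with s hs using bet_zero hs.le
    rw [this.deriv_eq]; simp
  · have : bet =ᶠ[𝓝 t] fun _ => 1 := by
      filter_upwards [lt_mem_nhds h] with s hs using bet_one hs.le
    rw [this.deriv_eq]; simp

def h0 (a : ℂ) : ℝ := deriv bet (normSq a)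

lemma continuous_h0 : Continuous h0 := continuous_deriv_bet.comp continuous_normSq

lemma h0_zero {a : ℂ} (h : 1 < ‖a‖) : h0 a = 0 :=
  deriv_bet_zero (Or.inr (by rw [normSq_eq_norm_sq]; nlinarith))

lemma hcs_h0 : HasCompactSupport h0 :=
  HasCompactSupport.intro (isCompact_closedBall 0 1) fun a ha => h0_zero (by simpa using ha)

def cH : ℝ := ∫ a, h0 a

lemma cH_pos : 0 < cH := by
  obtain ⟨t, ht, ht'⟩ := exists_deriv_eq_slope bet (a := 0) (b := 1) one_pos
    contDiff_bet.continuous.continuousOn (contDiff_bet.differentiable (by simp)).differentiableOn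
  refine continuous_h0.integral_pos_of_hasCompactSupport_nonneg_nonzero hcs_h0
    (fun a => deriv_bet_nonneg _) (x := (Real.sqrt t : ℂ)) ?_
  rw [h0, normSq_ofReal, Real.mul_self_sqrt ht.1.le, ht', bet_one le_rfl, bet_zero (by norm_num)]
  simp

/-- the mollifier -/
def hk (a : ℂ) : ℝ := h0 a / cH

lemma hk_nonneg (a : ℂ) : 0 ≤ hk a := div_nonneg (deriv_bet_nonneg _) cH_pos.le

@[fun_prop] lemma continuous_hk : Continuous hk := continuous_h0.div_const _

lemma hk_zero {a : ℂ} (h : 1 < ‖a‖) : hk a = 0 := by simp [hk, h0_zero h]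

lemma hcs_hk : HasCompactSupport hk :=
  HasCompactSupport.intro (isCompact_closedBall 0 1) fun a ha => hk_zero (by simpa using ha)

lemma hcs_hkC : HasCompactSupport fun a => (hk a : ℂ) := hcs_hk.comp_left (g := ofReal) (by simp)

lemma integral_hk : ∫ a, hk a = 1 := by
  unfold hk; rw [integral_div, ← cH, div_self cH_pos.ne']

def kk (a : ℂ) : ℂ := ((bet (normSq a) - bet (4 * normSq a)) / cH : ℝ) * a⁻¹

lemma contDiff_normSq : ContDiff ℝ 1 (normSq : ℂ → ℝ) := by
  have : (normSq : ℂ → ℝ) = fun a => reCLM a * reCLM a + imCLM a * imCLM a := by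
    ext a; simp [normSq_apply]
  rw [this]; fun_prop

lemma kk_eventually : kk =ᶠ[𝓝 0] fun _ => 0 := by
  have : ∀ᶠ a : ℂ in 𝓝 0, normSq a < 1 / 8 :=
    continuous_normSq.continuousAt.eventually (gt_mem_nhds (by simp))
  filter_upwards [this] with a ha
  simp [kk, bet_zero (t := normSq a) (by linarith), bet_zero (t := 4 * normSq a) (by linarith)]

lemma contDiff_kM : ContDiff ℝ 1 fun a : ℂ => (bet (normSq a) - bet (4 * normSq a)) / cH :=
  (((contDiff_bet.of_le (by simp)).comp contDiff_normSq).sub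
    ((contDiff_bet.of_le (by simp)).comp (contDiff_const.mul contDiff_normSq))).div_const _

lemma contDiff_kk : ContDiff ℝ 1 kk := by
  rw [contDiff_iff_contDiffAt]
  intro a
  by_cases ha : a = 0
  · rw [ha]; exact contDiffAt_const.congr_of_eventuallyEq kk_eventually
  · exact (ofRealCLM.contDiff.comp contDiff_kM).contDiffAt.mul (contDiffAt_id.inv ha)

lemma kk_zero {a : ℂ} (h : 1 < ‖a‖) : kk a = 0 := by
  have : 1 ≤ normSq a := by rw [normSq_eq_norm_sq]; nlinarith
  simp [kk, bet_one this, bet_one (t := 4 * normSq a) (by linarith)]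

lemma hcs_kk : HasCompactSupport kk :=
  HasCompactSupport.intro (isCompact_closedBall 0 1) fun a ha => kk_zero (by simpa using ha)

lemma dzb_kk (a : ℂ) : dzb kk a = hk a - 4 * hk ((2 : ℝ) • a) := by
  by_cases ha : a = 0
  · have : deriv bet 0 = 0 := deriv_bet_zero (Or.inl (by norm_num))
    simp [ha, dzb, kk_eventually.fderiv_eq, wm, hk, h0, this]
  · have hb := fun t => (contDiff_bet.differentiable (by simp) t).hasDerivAt
    have hn : HasFDerivAt (normSq : ℂ → ℝ) ((2 * a.re) • reCLM + (2 * a.im) • imCLM) a := by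
      have : (normSq : ℂ → ℝ) = fun a => reCLM a * reCLM a + imCLM a * imCLM a := by
        ext a; simp [normSq_apply]
      rw [this]
      refine ((reCLM.hasFDerivAt.fun_mul reCLM.hasFDerivAt).fun_add
        (imCLM.hasFDerivAt.fun_mul imCLM.hasFDerivAt)).congr_fderiv ?_
      ext1 h; simp; ring
    have h1 := (((hb (normSq a)).comp_hasFDerivAt a hn).fun_sub
      ((hb (4 * normSq a)).comp_hasFDerivAt a (hn.const_mul 4))).mul_const cH⁻¹
    have h2 := (ofRealCLM.hasFDerivAt.comp a h1).fun_mul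
      ((hasFDerivAt_inv (𝕜 := ℂ) ha).restrictScalars ℝ)
    have h3 : fderiv ℝ kk a = _ := h2.fderiv
    have h4 : normSq ((2 : ℝ) • a) = 4 * normSq a := by simp [normSq_apply]; ring
    simp only [dzb, wm, h3, hk, h0, h4]
    simp
    have := cH_pos.ne'
    have e := re_add_im a
    have hc : (cH : ℂ) ≠ 0 := by exact_mod_cast this
    field_simp
    linear_combination (2 * a * (deriv bet (normSq a) - 4 * deriv bet (4 * normSq a) : ℂ)) * e
      - ((bet (normSq a) - bet (4 * normSq a) : ℂ)) * I_mul_I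

def kap : ℝ := ∫ a, ‖kk a‖

lemma kap_nonneg : 0 ≤ kap := integral_nonneg fun _ => norm_nonneg _

lemma telescope {A : ℝ → ℂ} (hA : Continuous A) {ε N : ℝ} (hε : 0 < ε)
    (h : ∀ e, 0 < e → e ≤ ε → ‖A e - A (e / 2)‖ ≤ e * N) : ‖A ε - A 0‖ ≤ 2 * ε * N := by
  have hN : 0 ≤ N := by
    have := (norm_nonneg _).trans (h ε hε le_rfl)
    exact nonneg_of_mul_nonneg_right this hε |> fun h => by
      by_contra hn
      nlinarith
  have key : ∀ n : ℕ, ‖A ε - A (ε / 2 ^ n)‖ ≤ (2 * ε - 2 * (ε / 2 ^ n)) * N := by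
    intro n
    induction n with
    | zero => simp
    | succ n ih =>
      have h1 := h (ε / 2 ^ n) (by positivity)
        (div_le_self hε.le (one_le_pow₀ (by norm_num)))
      have e : ε / 2 ^ (n + 1) = ε / 2 ^ n / 2 := by rw [pow_succ, div_div]
      rw [e]
      calc ‖A ε - A (ε / 2 ^ n / 2)‖ ≤ ‖A ε - A (ε / 2 ^ n)‖ + ‖A (ε / 2 ^ n) - A (ε / 2 ^ n / 2)‖ :=
            norm_sub_le_norm_sub_add_norm_sub _ _ _
        _ ≤ _ := by nlinarith
  have t : Tendsto (fun n : ℕ => ε / 2 ^ n) atTop (𝓝 0) :=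
    tendsto_pow_atTop_atTop_of_one_lt (by norm_num : (1 : ℝ) < 2) |>.const_div_atTop ε
  refine le_of_tendsto' (((hA.tendsto 0).comp t).const_sub (A ε)).norm fun n => (key n).trans ?_
  have : 0 ≤ ε / 2 ^ n := by positivity
  nlinarith

/-- mollification -/
def moll (ε : ℝ) (U : ℂ → ℂ) (x : ℂ) : ℂ := ∫ a, hk a * U (x + ε • a)

lemma continuous_moll {U : ℂ → ℂ} (hU : Continuous U) (ε : ℝ) : Continuous (moll ε U) :=
  continuous_shift_integral (by fun_prop) hcs_hkC hU (s := fun x a => x + ε • a) (by fun_prop)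

lemma norm_int_mul_le {w f g : ℂ → ℂ} {K : Set ℂ} (hK : IsCompact K) {C B : ℝ}
    (hw : ∀ x, ‖w x‖ ≤ C) (hw0 : ∀ x ∉ K, w x = 0) (hf : Continuous f) (hg : Continuous g)
    (h1 : ∫ x in K, ‖f x‖ ^ 2 ≤ B) (h2 : ∫ x in K, ‖g x‖ ^ 2 ≤ B) :
    ‖∫ x, w x * (f x * g x)‖ ≤ C * B := by
  have hC : 0 ≤ C := (norm_nonneg _).trans (hw 0)
  rw [← setIntegral_eq_integral_of_forall_compl_eq_zero (s := K) (fun x hx => by simp [hw0 x hx])]
  have i1 : IntegrableOn (fun x => ‖f x‖ ^ 2) K := (hf.norm.pow 2).continuousOn.integrableOn_compact hK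
  have i2 : IntegrableOn (fun x => ‖g x‖ ^ 2) K := (hg.norm.pow 2).continuousOn.integrableOn_compact hK
  calc _ ≤ ∫ x in K, C / 2 * (‖f x‖ ^ 2 + ‖g x‖ ^ 2) := by
        refine norm_integral_le_of_norm_le ((i1.add i2).const_mul _) (Eventually.of_forall fun x => ?_)
        rw [norm_mul, norm_mul]
        have := hw x
        have h3 : 0 ≤ ‖f x‖ * ‖g x‖ := by positivity
        nlinarith [mul_le_mul_of_nonneg_right this h3,
          mul_nonneg hC (sq_nonneg (‖f x‖ - ‖g x‖))]
    _ = C / 2 * ((∫ x in K, ‖f x‖ ^ 2) + ∫ x in K, ‖g x‖ ^ 2) := by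
        rw [integral_const_mul, integral_add i1 i2]
    _ ≤ _ := by nlinarith

structure CutC (χ : ℂ → ℂ) (K : Set ℂ) (C : ℝ) : Prop where
  cd : ContDiff ℝ 1 χ
  cpt : IsCompact K
  sub : tsupport χ ⊆ K
  b0 : ∀ x, ‖χ x‖ ≤ C
  b1 : ∀ x, ‖dz χ x‖ ≤ C
  b2 : ∀ x, ‖dzb χ x‖ ≤ C

lemma CutC.hcs {χ : ℂ → ℂ} {K : Set ℂ} {C : ℝ} (h : CutC χ K C) : HasCompactSupport χ :=
  h.cpt.of_isClosed_subset (isClosed_tsupport _) h.sub

def eP (U U' : ℂ → ℂ) (x : ℂ) : ℂ := dz U x + dzb U' x

lemma continuous_eP {U U' : ℂ → ℂ} (hU : ContDiff ℝ 1 U) (hU' : ContDiff ℝ 1 U') :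
    Continuous (eP U U') := (continuous_dz hU).add (continuous_dzb hU')

lemma norm_S_le {χ : ℂ → ℂ} {K : Set ℂ} {C B : ℝ} (h : CutC χ K C) {U U' W W' : ℂ → ℂ}
    (hU : ContDiff ℝ 1 U) (hU' : ContDiff ℝ 1 U') (hW : ContDiff ℝ 1 W) (hW' : ContDiff ℝ 1 W')
    (b1 : ∫ x in K, ‖U x‖ ^ 2 ≤ B) (b2 : ∫ x in K, ‖eP U U' x‖ ^ 2 ≤ B)
    (b3 : ∫ x in K, ‖W x‖ ^ 2 ≤ B) (b4 : ∫ x in K, ‖W' x‖ ^ 2 ≤ B)
    (b5 : ∫ x in K, ‖eP W W' x‖ ^ 2 ≤ B) :
    ‖(∫ x, χ x * W x * dzb U' x) - ∫ x, χ x * W' x * dzb U x‖ ≤ 4 * C * B := by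
  have z0 : ∀ x ∉ K, χ x = 0 := fun x hx => image_eq_zero_of_notMem_tsupport fun h' => hx (h.sub h')
  have zf : ∀ x ∉ K, fderiv ℝ χ x = 0 := fun x hx => by
    by_contra h'
    exact hx (h.sub (support_fderiv_subset ℝ h'))
  have z1 : ∀ x ∉ K, dz χ x = 0 := fun x hx => by simp [dz, wp, zf x hx]
  have z2 : ∀ x ∉ K, dzb χ x = 0 := fun x hx => by simp [dzb, wm, zf x hx]
  have n1 := norm_int_mul_le h.cpt h.b0 z0 (continuous_eP hU hU') hW.continuous b2 b3
  have n2 := norm_int_mul_le h.cpt h.b0 z0 hU.continuous (continuous_eP hW hW') b1 b5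
  have n3 := norm_int_mul_le h.cpt h.b1 z1 hU.continuous hW.continuous b1 b3
  have n4 := norm_int_mul_le h.cpt h.b2 z2 hU.continuous hW'.continuous b1 b4
  have e1 := integral_dz (h.cd.mul (hU.mul hW)) h.hcs.mul_right
  have e2 := integral_dzb (h.cd.mul (hU.mul hW')) h.hcs.mul_right
  have d := fun {f : ℂ → ℂ} (hf : ContDiff ℝ 1 f) (x : ℂ) => hf.differentiable one_ne_zero x
  simp only [dz_mul (d h.cd _) (d (hU.mul hW) _), dz_mul (d hU _) (d hW _)] at e1
  simp only [dzb_mul (d h.cd _) (d (hU.mul hW') _), dzb_mul (d hU _) (d hW' _)] at e2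
  have cχ := h.cd.continuous
  have cU := hU.continuous
  have cW := hW.continuous
  have cW' := hW'.continuous
  have c1 := continuous_dz hU
  have c2 := continuous_dzb hU
  have c3 := continuous_dzb hU'
  have c4 := continuous_dz hW
  have c5 := continuous_dzb hW'
  have ii : ∀ {w f : ℂ → ℂ}, Continuous w → HasCompactSupport w → Continuous f →
      Integrable fun x => w x * f x := fun hw hc hf =>
    (hw.mul hf).integrable_of_hasCompactSupport hc.mul_right
  have j1 := ii cχ h.hcs (c1.mul cW)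
  have j2 := ii cχ h.hcs (cU.mul c4)
  have j3 := ii cχ h.hcs (c2.mul cW')
  have j4 := ii cχ h.hcs (cU.mul c5)
  have j5 := ii cχ h.hcs (c3.mul cW)
  simp only [Pi.mul_apply] at j1 j2 j3 j4 j5
  simp only [mul_add] at e1 e2
  rw [integral_add (by exact ii (continuous_dz h.cd) (hcs_dz h.hcs) (cU.mul cW))
    (by exact j1.add j2),
    integral_add j1 j2] at e1
  rw [integral_add (by exact ii (continuous_dzb h.cd) (hcs_dzb h.hcs) (cU.mul cW'))
    (by exact j3.add j4),
    integral_add j3 j4] at e2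
  simp only [eP, add_mul, mul_add] at n1 n2
  rw [integral_add j1 j5] at n1
  rw [integral_add j2 j4] at n2
  have f1 : ∫ x, χ x * W x * dzb U' x = ∫ x, χ x * (dzb U' x * W x) := by
    congr 1; ext x; ring
  have f2 : ∫ x, χ x * W' x * dzb U x = ∫ x, χ x * (dzb U x * W' x) := by
    congr 1; ext x; ring
  have e : (∫ x, χ x * W x * dzb U' x) - ∫ x, χ x * W' x * dzb U x
      = ((∫ x, χ x * (dz U x * W x)) + ∫ x, χ x * (dzb U' x * W x))
        + ((∫ x, χ x * (U x * dz W x)) + ∫ x, χ x * (U x * dzb W' x))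
        + (∫ x, dz χ x * (U x * W x)) + ∫ x, dzb χ x * (U x * W' x) := by
    rw [f1, f2]
    linear_combination -e1 - e2
  rw [e]
  refine (norm_add_le _ _).trans ((add_le_add ((norm_add₃_le).trans
    (add_le_add (add_le_add n1 n2) n3)) n4).trans (le_of_eq (by ring)))

lemma one_step {χ : ℂ → ℂ} {K : Set ℂ} {C B ε : ℝ} (hε : 0 < ε) (h : CutC χ K C)
    {U U' W W' : ℂ → ℂ}
    (hU : ContDiff ℝ 1 U) (hU' : ContDiff ℝ 1 U') (hW : ContDiff ℝ 1 W) (hW' : ContDiff ℝ 1 W')
    (b1 : ∀ a : ℂ, ‖a‖ ≤ ε → ∫ x in K, ‖U (x + a)‖ ^ 2 ≤ B)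
    (b2 : ∀ a : ℂ, ‖a‖ ≤ ε → ∫ x in K, ‖eP U U' (x + a)‖ ^ 2 ≤ B)
    (b3 : ∫ x in K, ‖W x‖ ^ 2 ≤ B) (b4 : ∫ x in K, ‖W' x‖ ^ 2 ≤ B)
    (b5 : ∫ x in K, ‖eP W W' x‖ ^ 2 ≤ B) :
    ‖((∫ x, χ x * W x * moll ε U' x) - ∫ x, χ x * W' x * moll ε U x)
      - ((∫ x, χ x * W x * U' x) - ∫ x, χ x * W' x * U x)‖ ≤ 2 * ε * (kap * (4 * C * B)) := by
  have cχW : Continuous fun x => χ x * W x := h.cd.continuous.mul hW.continuous
  have cχW' : Continuous fun x => χ x * W' x := h.cd.continuous.mul hW'.continuous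
  have sχW : HasCompactSupport fun x => χ x * W x := h.hcs.mul_right
  have sχW' : HasCompactSupport fun x => χ x * W' x := h.hcs.mul_right
  set T : ℂ → ℂ := fun a => (∫ x, χ x * W x * U' (x + a)) - ∫ x, χ x * W' x * U (x + a) with hT
  have cT : Continuous T :=
    (continuous_shift_integral cχW sχW hU'.continuous (s := fun a x => x + a) (by fun_prop)).sub
      (continuous_shift_integral cχW' sχW' hU.continuous (s := fun a x => x + a) (by fun_prop))
  set A : ℝ → ℂ := fun e => ∫ a, hk a * T (e • a) with hA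
  have cA : Continuous A :=
    continuous_shift_integral (by fun_prop) hcs_hkC cT (s := fun e a => e • a) (by fun_prop)
  have split : ∀ {k : ℂ → ℂ} (_ : Continuous k) (_ : HasCompactSupport k) {F F' : ℂ → ℂ}
      (_ : Continuous F) (_ : Continuous F') (e : ℝ),
      ∫ a, k a * ((∫ x, χ x * W x * F' (x + e • a)) - ∫ x, χ x * W' x * F (x + e • a))
        = (∫ x, χ x * W x * ∫ a, k a * F' (x + e • a))
          - ∫ x, χ x * W' x * ∫ a, k a * F (x + e • a) := by
    intro k ck sk F F' cF cF' e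
    simp only [mul_sub]
    rw [integral_sub, fubini_shift ck sk cχW sχW cF', fubini_shift ck sk cχW' sχW' cF]
    · exact (ck.mul (continuous_shift_integral cχW sχW cF' (s := fun a x => x + e • a)
        (by fun_prop))).integrable_of_hasCompactSupport sk.mul_right
    · exact (ck.mul (continuous_shift_integral cχW' sχW' cF (s := fun a x => x + e • a)
        (by fun_prop))).integrable_of_hasCompactSupport sk.mul_right
  have A0 : A 0 = (∫ x, χ x * W x * U' x) - ∫ x, χ x * W' x * U x := by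
    simp only [hA, hT, zero_smul, add_zero]
    rw [integral_mul_const, integral_complex_ofReal, integral_hk]; simp
  have Aε : A ε = (∫ x, χ x * W x * moll ε U' x) - ∫ x, χ x * W' x * moll ε U x :=
    split (by fun_prop) hcs_hkC hU.continuous hU'.continuous ε
  rw [← A0, ← Aε]
  refine telescope cA hε fun e he heε => ?_
  have s1 : A (e / 2) = ∫ a, 4 * hk ((2 : ℝ) • a) * T (e • a) := by
    have := Measure.integral_comp_smul (volume : Measure ℂ)
      (fun a => (hk a : ℂ) * T ((e / 2) • a)) 2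
    simp only [smul_smul, div_mul_cancel₀ e (two_ne_zero), Complex.finrank_real_complex] at this
    simp only [mul_assoc]
    rw [integral_const_mul, this, hA]
    norm_num
    ring
  have i1 : Integrable fun a => (hk a : ℂ) * T (e • a) :=
    Continuous.integrable_of_hasCompactSupport (by fun_prop) hcs_hkC.mul_right
  have i2 : Integrable fun a => dzb kk a * T (e • a) :=
    ((continuous_dzb contDiff_kk).mul (by fun_prop)).integrable_of_hasCompactSupport
      (hcs_dzb hcs_kk).mul_right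
  have s2 : A e - A (e / 2) = ∫ a, dzb kk a * T (e • a) := by
    rw [s1, hA, ← integral_sub i1]
    · congr 1; ext a; rw [dzb_kk]; ring
    · refine (i1.sub i2).congr (Eventually.of_forall fun a => ?_)
      simp only [Pi.sub_apply, dzb_kk]; ring
  rw [s2, hT, split (continuous_dzb contDiff_kk) (hcs_dzb hcs_kk) hU.continuous hU'.continuous]
  simp only [ibp_shift contDiff_kk hcs_kk hU, ibp_shift contDiff_kk hcs_kk hU']
  have s3 := split contDiff_kk.continuous hcs_kk (continuous_dzb hU) (continuous_dzb hU') e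
  have s4 : ((∫ x, χ x * W x * (-e * ∫ a, kk a * dzb U' (x + e • a)))
      - ∫ x, χ x * W' x * (-e * ∫ a, kk a * dzb U (x + e • a)))
      = -e * ((∫ x, χ x * W x * ∫ a, kk a * dzb U' (x + e • a))
        - ∫ x, χ x * W' x * ∫ a, kk a * dzb U (x + e • a)) := by
    rw [mul_sub, ← integral_const_mul, ← integral_const_mul]
    congr 2 <;> ext x <;> ring
  rw [s4, ← s3, norm_mul, norm_neg, Complex.norm_real, Real.norm_of_nonneg he.le, kap,
    ← integral_mul_const]
  refine mul_le_mul_of_nonneg_left (norm_integral_le_of_norm_le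
    ((contDiff_kk.continuous.norm.integrable_of_hasCompactSupport hcs_kk.norm).mul_const _)
    (Eventually.of_forall fun a => ?_)) he.le
  by_cases ha : 1 < ‖a‖
  · simp [kk_zero ha]
  · rw [norm_mul]
    refine mul_le_mul_of_nonneg_left ?_ (norm_nonneg _)
    have hn : ‖e • a‖ ≤ ε := by
      rw [norm_smul, Real.norm_of_nonneg he.le]; nlinarith [norm_nonneg a]
    have := norm_S_le h (U := fun x => U (x + e • a)) (U' := fun x => U' (x + e • a))
      (hU.comp (contDiff_id.add contDiff_const)) (hU'.comp (contDiff_id.add contDiff_const)) hW hW'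
      (b1 _ hn) (by simpa only [eP, dz_add_const, dzb_add_const] using b2 _ hn) b3 b4 b5
    simpa only [dzb_add_const] using this

/-- shifted square bound -/
def SB (K : Set ℂ) (ε B : ℝ) (F : ℂ → ℂ) : Prop :=
  ∀ a : ℂ, ‖a‖ ≤ ε → ∫ x in K, ‖F (x + a)‖ ^ 2 ≤ B

theorem div_curl {χ : ℂ → ℂ} {K : Set ℂ} {C B ε : ℝ} (hε : 0 < ε) (h : CutC χ K C)
    {U U' W W' : ℂ → ℂ}
    (hU : ContDiff ℝ 1 U) (hU' : ContDiff ℝ 1 U') (hW : ContDiff ℝ 1 W) (hW' : ContDiff ℝ 1 W')
    (b1 : SB K ε B U) (b1' : SB K ε B U') (b2 : SB K ε B (eP U U'))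
    (b3 : SB K ε B W) (b4 : SB K ε B W') (b5 : SB K ε B (eP W W')) :
    ‖((∫ x, χ x * moll ε W x * moll ε U' x) - ∫ x, χ x * moll ε W' x * moll ε U x)
      - ((∫ x, χ x * W x * U' x) - ∫ x, χ x * W' x * U x)‖ ≤ 16 * ε * kap * C * B := by
  have z : ∀ {F : ℂ → ℂ}, SB K ε B F → ∫ x in K, ‖F x‖ ^ 2 ≤ B := fun hF => by
    simpa using hF 0 (by simpa using hε.le)
  have s1 := one_step hε h hU hU' hW hW' b1 b2 (z b3) (z b4) (z b5)
  have cχ := h.cd.continuous
  have cm := continuous_moll hW.continuous ε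
  have cm' := continuous_moll hW'.continuous ε
  have cW := hW.continuous
  have cW' := hW'.continuous
  set D : ℂ → ℂ := fun a =>
    ((∫ x, χ x * moll ε W x * U' (x + ε • a)) - ∫ x, χ x * moll ε W' x * U (x + ε • a))
      - ((∫ x, χ x * W x * U' (x + ε • a)) - ∫ x, χ x * W' x * U (x + ε • a)) with hD
  have hDb : ∀ a : ℂ, ‖a‖ ≤ 1 → ‖D a‖ ≤ 2 * ε * (kap * (4 * C * B)) := by
    intro a ha
    have hn : ‖ε • a‖ ≤ ε := by
      rw [norm_smul, Real.norm_of_nonneg hε.le]; nlinarith [norm_nonneg a]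
    have := one_step hε h hW hW' (W := fun x => U (x + ε • a)) (W' := fun x => U' (x + ε • a))
      (hU.comp (contDiff_id.add contDiff_const)) (hU'.comp (contDiff_id.add contDiff_const))
      b3 b5 (b1 _ hn) (b1' _ hn) (by simpa only [eP, dz_add_const, dzb_add_const] using b2 _ hn)
    rw [← norm_neg] at this
    refine le_of_eq_of_le (congrArg norm ?_) this
    have c : ∀ f g : ℂ → ℂ, ∫ x, χ x * f x * g x = ∫ x, χ x * g x * f x := fun f g => by
      congr 1; ext x; ring
    simp only [hD]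
    rw [c (moll ε W), c (moll ε W'), c W, c W']
    ring
  have ii : ∀ {w F : ℂ → ℂ}, Continuous w → Continuous F →
      Integrable fun a => (hk a : ℂ) * ∫ x, χ x * w x * F (x + ε • a) := fun cw cF =>
    (Continuous.mul (by fun_prop) (continuous_shift_integral (cχ.mul cw) h.hcs.mul_right cF
      (s := fun a x => x + ε • a) (by fun_prop))).integrable_of_hasCompactSupport
      hcs_hkC.mul_right
  have ff : ∀ {w F : ℂ → ℂ}, Continuous w → Continuous F →
      ∫ a, (hk a : ℂ) * ∫ x, χ x * w x * F (x + ε • a) = ∫ x, χ x * w x * moll ε F x :=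
    fun cw cF => fubini_shift (by fun_prop) hcs_hkC (cχ.mul cw) h.hcs.mul_right cF ε
  have s2 : ∫ a, hk a * D a
      = ((∫ x, χ x * moll ε W x * moll ε U' x) - ∫ x, χ x * moll ε W' x * moll ε U x)
        - ((∫ x, χ x * W x * moll ε U' x) - ∫ x, χ x * W' x * moll ε U x) := by
    simp only [hD, mul_sub]
    rw [integral_sub (by exact (ii cm hU'.continuous).sub (ii cm' hU.continuous))
      (by exact (ii cW hU'.continuous).sub (ii cW' hU.continuous)),
      integral_sub (ii cm hU'.continuous) (ii cm' hU.continuous),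
      integral_sub (ii cW hU'.continuous) (ii cW' hU.continuous),
      ff cm hU'.continuous, ff cm' hU.continuous, ff cW hU'.continuous, ff cW' hU.continuous]
  have s3 : ‖∫ a, hk a * D a‖ ≤ 2 * ε * (kap * (4 * C * B)) := by
    calc ‖∫ a, hk a * D a‖ ≤ ∫ a, hk a * (2 * ε * (kap * (4 * C * B))) := by
          refine norm_integral_le_of_norm_le
            ((continuous_hk.integrable_of_hasCompactSupport hcs_hk).mul_const _)
            (Eventually.of_forall fun a => ?_)
          by_cases ha : 1 < ‖a‖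
          · simp [hk_zero ha]
          · rw [norm_mul, Complex.norm_real, Real.norm_of_nonneg (hk_nonneg a)]
            exact mul_le_mul_of_nonneg_left (hDb a (not_lt.1 ha)) (hk_nonneg a)
      _ = _ := by rw [integral_mul_const, integral_hk, one_mul]
  rw [s2] at s3
  refine (norm_sub_le_norm_sub_add_norm_sub _ _ _).trans ((add_le_add s3 s1).trans (le_of_eq ?_))
  ring

end Pool.Agent.Lib.MP_a52643_an
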