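import Pool.Agent.Lib.MP_a52643_an.Fund

/-!
The autocorrelation measure of an invariant measure with square integrable projection.
-/

open MeasureTheory Set Filter Topology Metric UpperHalfPlane
open scoped ENNReal MatrixGroups Pointwise NNReal

noncomputable section

namespace Pool.Agent.Lib.MP_a52643_an

variable {Γ : Type*} [Group Γ] [MulAction Γ ℍ] [Countable Γ] {l : Γ → SL2} {D : Set ℍ}

lemma Eqv.swap {Z : Type*} [MeasurableSpace Z] {m : Measure Z} [SFinite m] {τ : Γ → Z → Z}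
    {P : Z → ℍ} (h : FD l D) (e : Eqv m τ P) {k : Z → Z → ℝ≥0∞}
    (hk : Measurable (Function.uncurry k)) (hi : ∀ γ v w, k (τ γ v) (τ γ w) = k v w) :
    ∫⁻ v in P ⁻¹' D, ∫⁻ w, k v w ∂m ∂m = ∫⁻ w in P ⁻¹' D, ∫⁻ v, k v w ∂m ∂m := by
  have e1 : Eqv (m.prod m) (fun γ => Prod.map (τ γ) (τ γ)) (P ∘ Prod.fst) :=
    ⟨fun γ => (e.mp γ).prod (e.mp γ), e.qmp.comp Measure.quasiMeasurePreserving_fst,
      fun γ z => e.eqv γ z.1⟩
  have e2 : Eqv (m.prod m) (fun γ => Prod.map (τ γ) (τ γ)) (P ∘ Prod.snd) :=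
    ⟨fun γ => (e.mp γ).prod (e.mp γ), e.qmp.comp Measure.quasiMeasurePreserving_snd,
      fun γ z => e.eqv γ z.2⟩
  have := e1.transport h e2 hk fun γ z => hi γ z.1 z.2
  rw [preimage_comp, preimage_comp, ← prod_univ, ← univ_prod,
    ← Measure.restrict_prod_eq_prod_univ, ← Measure.prod_restrict, Measure.restrict_univ,
    lintegral_prod _ hk.aemeasurable, lintegral_prod_symm _ hk.aemeasurable] at this
  exact this

lemma two_mul_le_enn (x y : ℝ≥0∞) {t : ℝ≥0∞} (h0 : t ≠ 0) (h1 : t ≠ ⊤) :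
    2 * (x * y) ≤ t * x ^ 2 + t⁻¹ * y ^ 2 := by
  by_cases hx : x = ⊤
  · simp [hx, ENNReal.mul_top h0]
  by_cases hy : y = ⊤
  · simp [hy, ENNReal.mul_top (ENNReal.inv_ne_zero.2 h1)]
  lift x to ℝ≥0 using hx
  lift y to ℝ≥0 using hy
  lift t to ℝ≥0 using h1
  have ht : t ≠ 0 := by simpa using h0
  rw [← ENNReal.coe_inv ht]
  norm_cast
  rw [← NNReal.coe_le_coe]
  push_cast
  have : (0 : ℝ) < t := by positivity
  have e : (t : ℝ) * x ^ 2 + (t : ℝ)⁻¹ * y ^ 2 - 2 * (x * y) = (t : ℝ)⁻¹ * (t * x - y) ^ 2 := by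
    field_simp; ring
  have : (0 : ℝ) ≤ (t : ℝ)⁻¹ * (t * x - y) ^ 2 := by positivity
  linarith

lemma exists_mul_le_enn {c η : ℝ≥0∞} (hc : c ≠ ⊤) (hη : η ≠ 0) :
    ∃ t : ℝ≥0∞, t ≠ 0 ∧ t ≠ ⊤ ∧ c * t ≤ η := by
  obtain ⟨n, hn, h⟩ := ENNReal.exists_nnreal_pos_mul_lt hc hη
  exact ⟨n, by simpa using hn.ne', by simp, by rw [mul_comm]; exact h.le⟩

/-- average over a ball -/
def AB (r : ℝ) (g : ℍ → ℝ≥0∞) (z : ℍ) : ℝ≥0∞ := ∫⁻ w in closedBall z r, g w

lemma measurableSet_near (r : ℝ) : MeasurableSet {p : ℍ × ℍ | dist p.2 p.1 ≤ r} :=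
  measurableSet_le (measurable_snd.dist measurable_fst) measurable_const

lemma AB_eq (r : ℝ) (g : ℍ → ℝ≥0∞) (z : ℍ) :
    AB r g z = ∫⁻ w, {p : ℍ × ℍ | dist p.2 p.1 ≤ r}.indicator (fun p => g p.2) (z, w) := by
  rw [AB, ← lintegral_indicator measurableSet_closedBall]; rfl

lemma measurable_AB (r : ℝ) {g : ℍ → ℝ≥0∞} (hg : Measurable g) : Measurable (AB r g) := by
  have : AB r g = _ := funext (AB_eq r g)
  rw [this]
  exact ((hg.comp measurable_snd).indicator (measurableSet_near r)).lintegral_prod_right'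

omit [Countable Γ] in
lemma FD.AB_inv (h : FD l D) (r : ℝ) {g : ℍ → ℝ≥0∞} (hg : Measurable g)
    (gi : ∀ (γ : Γ) z, g (γ • z) = g z) (γ : Γ) (z : ℍ) : AB r g (γ • z) = AB r g z := by
  rw [AB, AB, ← (h.mp γ).setLIntegral_comp_preimage measurableSet_closedBall hg]
  simp only [gi]
  congr 2; ext w; simp [h.dist_eq]

lemma FD.schur (h : FD l D) {f g : ℍ → ℝ≥0∞} (hf : Measurable f) (hg : Measurable g)
    (gi : ∀ (γ : Γ) z, g (γ • z) = g z) (r : ℝ) {t : ℝ≥0∞} (h0 : t ≠ 0) (h1 : t ≠ ⊤) :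
    2 * ∫⁻ z in D, f z * AB r g z
      ≤ volume (closedBall I r) * (t * (∫⁻ z in D, f z ^ 2) + t⁻¹ * ∫⁻ z in D, g z ^ 2) := by
  have e1 : ∫⁻ z in D, AB r (fun w => g w ^ 2) z = volume (closedBall I r) * ∫⁻ z in D, g z ^ 2 := by
    simp only [AB_eq]
    have := h.eqv.swap h
      (k := fun z w => {p : ℍ × ℍ | dist p.2 p.1 ≤ r}.indicator (fun p => g p.2 ^ 2) (z, w))
      (((hg.pow_const 2).comp measurable_snd).indicator (measurableSet_near r))
      (fun γ v w => by simp [indicator, h.dist_eq, gi])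
    simp only [preimage_id] at this
    rw [this, ← lintegral_const_mul _ (hg.pow_const 2)]
    congr 1; ext w
    rw [← volume_ball_eq w, mul_comm, ← setLIntegral_const,
      ← lintegral_indicator measurableSet_closedBall]
    congr 1; ext z
    simp [indicator, dist_comm]
  calc _ = ∫⁻ z in D, ∫⁻ w in closedBall z r, 2 * (f z * g w) := by
        rw [← lintegral_const_mul _ (by exact hf.mul (measurable_AB r hg))]
        congr 1; ext z
        rw [lintegral_const_mul _ (hg.const_mul _), lintegral_const_mul _ hg, AB]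
    _ ≤ ∫⁻ z in D, ∫⁻ w in closedBall z r, (t * f z ^ 2 + t⁻¹ * g w ^ 2) := by
        gcongr with z w; exact two_mul_le_enn _ _ h0 h1
    _ = ∫⁻ z in D, (volume (closedBall I r) * (t * f z ^ 2) + t⁻¹ * AB r (fun w => g w ^ 2) z) := by
        congr 1; ext z
        rw [lintegral_add_left measurable_const, setLIntegral_const, volume_ball_eq,
          lintegral_const_mul _ (hg.pow_const 2), AB, mul_comm]
    _ = _ := by
        rw [lintegral_add_left (by fun_prop), lintegral_const_mul _ (by fun_prop),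
          lintegral_const_mul _ (by fun_prop),
          lintegral_const_mul _ (measurable_AB r (hg.pow_const 2)), e1]
        ring

structure Adm (l : Γ → SL2) (D : Set ℍ) (μ : Measure SL2) (f : ℍ → ℝ≥0∞) : Prop where
  fd : FD l D
  left : ∀ γ, MeasurePreserving (fun g => l γ * g) μ μ
  right : ∀ s, 0 < s → MeasurePreserving (fun g => g * dg s) μ μ
  mf : Measurable f
  inv : ∀ (γ : Γ) z, f (γ • z) = f z
  dens : μ.map bp = volume.withDensity f
  sq : ∫⁻ z in D, f z ^ 2 ≠ ⊤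

variable {μ : Measure SL2} {f : ℍ → ℝ≥0∞}

section basic

omit [Countable Γ]

lemma Adm.setLIntegral_bp (h : Adm l D μ f) {F : ℍ → ℝ≥0∞} (hF : Measurable F) {S : Set ℍ}
    (hS : MeasurableSet S) : ∫⁻ g in bp ⁻¹' S, F (bp g) ∂μ = ∫⁻ z in S, f z * F z := by
  rw [← setLIntegral_map hS hF measurable_bp, h.dens,
    setLIntegral_withDensity_eq_setLIntegral_mul _ h.mf hF hS]; rfl

lemma Adm.measure_bp (h : Adm l D μ f) {S : Set ℍ} (hS : MeasurableSet S) :
    μ (bp ⁻¹' S) = ∫⁻ z in S, f z := by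
  rw [← Measure.map_apply measurable_bp hS, h.dens, withDensity_apply _ hS]

lemma Adm.qmp (h : Adm l D μ f) : Measure.QuasiMeasurePreserving bp μ volume :=
  ⟨measurable_bp, h.dens ▸ withDensity_absolutelyContinuous _ _⟩

lemma Adm.eqv (h : Adm l D μ f) : Eqv μ (fun γ g => l γ * g) bp :=
  ⟨h.left, h.qmp, fun γ g => by rw [bp_mul, h.fd.act]⟩

lemma Adm.fin (h : Adm l D μ f) : μ (bp ⁻¹' D) ≠ ⊤ := by
  rw [h.measure_bp h.fd.meas]
  refine ne_top_of_le_ne_top (b := ∫⁻ z in D, (1 + f z ^ 2)) ?_ (lintegral_mono fun z => ?_)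
  · rw [lintegral_add_left measurable_const, setLIntegral_const, one_mul]
    exact ENNReal.add_ne_top.2 ⟨h.fd.fin, h.sq⟩
  · rcases le_total (f z) 1 with h1 | h1
    · exact h1.trans le_self_add
    · exact (le_self_pow₀ h1 two_ne_zero).trans le_add_self

end basic

lemma Adm.shift (h : Adm l D μ f) {F : SL2 → ℝ≥0∞} (hF : Measurable F)
    (hi : ∀ γ g, F (l γ * g) = F g) {s : ℝ} (hs : 0 < s) :
    ∫⁻ g in bp ⁻¹' D, F (g * dg s) ∂μ = ∫⁻ g in bp ⁻¹' D, F g ∂μ := by
  have e : Eqv μ (fun γ g => l γ * g) (bp ∘ fun g => g * dg s) :=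
    ⟨h.left, h.qmp.comp (h.right s hs).quasiMeasurePreserving,
      fun γ g => by simp only [Function.comp, mul_assoc]; rw [bp_mul, h.fd.act]⟩
  rw [h.eqv.transport h.fd e (F := fun g => F (g * dg s)) (hF.comp (measurable_mul_const _))
    (fun γ g => by simp only [mul_assoc, hi]), preimage_comp]
  exact (h.right s hs).setLIntegral_comp_preimage (measurable_bp h.fd.meas) hF

def NN (μ : Measure SL2) (S : Set SL2) (v : SL2) : ℝ≥0∞ := μ {w | v⁻¹ * w ∈ S}

lemma measurable_quot : Measurable fun p : SL2 × SL2 => p.1⁻¹ * p.2 := by fun_prop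

lemma measurableSet_NN {S : Set SL2} (hS : MeasurableSet S) (v : SL2) :
    MeasurableSet {w | v⁻¹ * w ∈ S} := measurable_const_mul _ hS

lemma measurable_NN [SFinite μ] {S : Set SL2} (hS : MeasurableSet S) : Measurable (NN μ S) :=
  measurable_measure_prodMk_left (measurable_quot hS)

lemma NN_mono {S S' : Set SL2} (h : S ⊆ S') (v : SL2) : NN μ S v ≤ NN μ S' v :=
  measure_mono fun _ hw => h hw

lemma NN_eq {S : Set SL2} (hS : MeasurableSet S) (v : SL2) :
    NN μ S v = ∫⁻ w, S.indicator 1 (v⁻¹ * w) ∂μ := by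
  rw [NN, ← lintegral_indicator_one (measurableSet_NN hS v)]; rfl

omit [Countable Γ] in
lemma Adm.NN_inv (h : Adm l D μ f) {S : Set SL2} (hS : MeasurableSet S) (γ : Γ) (v : SL2) :
    NN μ S (l γ * v) = NN μ S v := by
  rw [NN, ← (h.left γ).measure_preimage (measurableSet_NN hS _).nullMeasurableSet, NN]
  congr 1; ext w; simp [mul_assoc]

omit [Countable Γ] in
lemma Adm.NN_right (h : Adm l D μ f) {S : Set SL2} (hS : MeasurableSet S) {s : ℝ} (hs : 0 < s)
    (v : SL2) : NN μ ((fun g => g * dg s) ⁻¹' S) v = NN μ S v := by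
  rw [NN, NN, ← (h.right s hs).measure_preimage (measurableSet_NN hS _).nullMeasurableSet]
  congr 1; ext w; simp [mul_assoc]

def nu (μ : Measure SL2) (D : Set ℍ) : Measure SL2 :=
  ((μ.restrict (bp ⁻¹' D)).prod μ).map fun p => p.1⁻¹ * p.2

variable [SFinite μ]

instance : SFinite (nu μ D) := by unfold nu; infer_instance

lemma nu_apply {S : Set SL2} (hS : MeasurableSet S) :
    nu μ D S = ∫⁻ v in bp ⁻¹' D, NN μ S v ∂μ := by
  rw [nu, Measure.map_apply measurable_quot hS, Measure.prod_apply (measurable_quot hS)]; rfl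

omit [Countable Γ] in
lemma Adm.nu_right (h : Adm l D μ f) {s : ℝ} (hs : 0 < s) :
    MeasurePreserving (fun g => g * dg s) (nu μ D) (nu μ D) := by
  refine ⟨measurable_mul_const _, Measure.ext fun S hS => ?_⟩
  rw [Measure.map_apply (measurable_mul_const _) hS, nu_apply (measurable_mul_const _ hS),
    nu_apply hS]
  simp only [h.NN_right hS hs]

lemma Adm.nu_inv (h : Adm l D μ f) : MeasurePreserving Inv.inv (nu μ D) (nu μ D) := by
  refine ⟨measurable_inv, Measure.ext fun S hS => ?_⟩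
  rw [Measure.map_apply measurable_inv hS, nu_apply (measurable_inv hS), nu_apply hS]
  simp only [NN_eq hS, NN_eq (measurable_inv hS)]
  rw [h.eqv.swap h.fd (k := fun v w => S.indicator 1 (v⁻¹ * w))
    ((measurable_one.indicator hS).comp measurable_quot) fun γ v w => by simp [mul_assoc]]
  congr 1; ext v; congr 1; ext w
  change S.indicator 1 (v⁻¹ * w)⁻¹ = _
  rw [mul_inv_rev, inv_inv]

lemma Adm.nu_left (h : Adm l D μ f) {s : ℝ} (hs : 0 < s) :
    MeasurePreserving (fun g => dg s * g) (nu μ D) (nu μ D) := by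
  convert h.nu_inv.comp ((h.nu_right (inv_pos.2 hs)).comp h.nu_inv) using 1
  ext1 g; simp [← dg_inv hs.ne']

lemma Adm.nu_TT2 (h : Adm l D μ f) {s t : ℝ} (hs : 0 < s) (ht : 0 < t) :
    MeasurePreserving (TT2 (s, t)) (nu μ D) (nu μ D) := by
  have h1 := Real.sqrt_pos.2 hs
  have h2 := Real.sqrt_pos.2 ht
  convert (h.nu_right (s := 1 / (√s * √t)) (by positivity)).comp
    (h.nu_left (s := √t / √s) (by positivity)) using 1
  ext1 g; exact TT2_eq hs ht g

def BB (r : ℝ) : Set SL2 := {g | dist (bp g) I ≤ r}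

lemma measurableSet_BB (r : ℝ) : MeasurableSet (BB r) :=
  measurableSet_le (measurable_bp.dist measurable_const) measurable_const

omit [Countable Γ] [SFinite μ] in
lemma Adm.NN_BB (h : Adm l D μ f) (r : ℝ) (v : SL2) : NN μ (BB r) v = AB r f (bp v) := by
  rw [AB, ← h.measure_bp measurableSet_closedBall, NN]
  congr 1; ext w; simp [BB, dist_bp]

lemma Adm.nu_BB (h : Adm l D μ f) (r : ℝ) :
    nu μ D (BB r) ≤ volume (closedBall I r) * ∫⁻ z in D, f z ^ 2 := by
  rw [nu_apply (measurableSet_BB r)]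
  simp only [h.NN_BB]
  rw [h.setLIntegral_bp (measurable_AB r h.mf) h.fd.meas]
  have := h.fd.schur h.mf h.mf h.inv r one_ne_zero ENNReal.one_ne_top
  rw [inv_one, one_mul, ← two_mul, mul_left_comm] at this
  exact (ENNReal.mul_le_mul_iff_right two_ne_zero ENNReal.ofNat_ne_top).1 this

lemma near_root {x y s e : ℝ} (hx : 0 < x) (hy : 0 < y) (h1 : √(x / y) ≤ s)
    (h2 : s ≤ √(x / y) + e) : |x / s - y * s| ≤ 2 * y * e := by
  have h0 : 0 < √(x / y) := Real.sqrt_pos.2 (by positivity)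
  have h3 : y * √(x / y) ^ 2 = x := by rw [Real.sq_sqrt (by positivity)]; field_simp
  set t := √(x / y)
  have hs : 0 < s := by linarith
  have e1 : x / s - y * s = -(y * (s - t) * ((s + t) / s)) := by rw [← h3]; field_simp; ring
  have h4 : (s + t) / s ≤ 2 := by rw [div_le_iff₀ hs]; linarith
  have h5 : 0 ≤ s - t := by linarith
  rw [e1, abs_neg, abs_of_nonneg (by positivity)]
  have : 0 ≤ e := by linarith
  calc _ ≤ y * e * 2 := by gcongr; linarith
    _ = _ := by ring

lemma sqrt_mem {x y A : ℝ} (hy : 0 < y) (hA : 0 < A) (h1 : x ≤ A ^ 2 * y)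
    (h2 : y ≤ A ^ 2 * x) : 1 / A ≤ √(x / y) ∧ √(x / y) ≤ A := by
  constructor
  · refine Real.le_sqrt_of_sq_le ?_
    rw [div_pow, div_le_div_iff₀ (by positivity) hy]; linarith
  · refine Real.sqrt_le_iff.2 ⟨hA.le, ?_⟩
    rwa [div_le_iff₀ hy]

def UB (r r' : ℝ) : Set SL2 :=
  {g | ea g ∈ Icc (1 / 2 : ℝ) 2 ∧ ed g ∈ Icc (1 / 2 : ℝ) 2 ∧ |eb g| ≤ r ∧ |ec g| ≤ r'}

lemma measurableSet_UB (r r' : ℝ) : MeasurableSet (UB r r') :=
  (measurable_ea measurableSet_Icc).inter ((measurable_ed measurableSet_Icc).inter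
    ((measurableSet_le measurable_eb.abs measurable_const).inter
      (measurableSet_le measurable_ec.abs measurable_const)))

lemma tube {r : ℝ} (hr : 0 < r) (hr1 : r ≤ 1) {g : SL2} (hg : g ∈ UB r r) :
    ENNReal.ofReal r ≤ volume ({s | (dg s)⁻¹ * g ∈ BB (9 * r)} ∩ Icc (1 / 2 : ℝ) 3) := by
  obtain ⟨⟨a1, a2⟩, ⟨d1, d2⟩, hb, hc⟩ := hg
  obtain ⟨s1, s2⟩ := sqrt_mem (x := ea g) (y := ed g) (A := 2) (by linarith) two_pos
    (by linarith) (by linarith)
  refine le_trans (by simp) (measure_mono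
    (s := Icc √(ea g / ed g) (√(ea g / ed g) + r)) fun s hs => ⟨?_, ?_, ?_⟩)
  · have h1 := near_root (by linarith) (by linarith) hs.1 hs.2
    have h2 : 1 / 2 ≤ s := s1.trans hs.1
    have h3 : s ≤ 3 := by linarith [hs.2]
    have h0 : s ≠ 0 := by linarith
    refine dist_bp_le (by positivity) ?_
    simp only [dg, nz_eq h0, ea_mul, eb_mul, ec_mul, ed_mul, ea_inv, eb_inv, ec_inv, ed_inv,
      ea_mkG, eb_mkG, ec_mkG, ed_mkG, neg_zero, zero_mul, add_zero, zero_add]
    have e1 : |s⁻¹ * ea g - s * ed g| ≤ 4 * r := by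
      rw [mul_comm s⁻¹, ← div_eq_mul_inv, mul_comm s]
      nlinarith
    have e2 : |s⁻¹ * eb g + s * ec g| ≤ 5 * r := by
      have : s⁻¹ ≤ 2 := by rw [inv_le_comm₀ (by linarith) two_pos]; linarith
      have h4 : 0 ≤ s⁻¹ := by positivity
      refine (abs_add_le _ _).trans ?_
      rw [abs_mul, abs_mul, abs_of_nonneg h4, abs_of_nonneg (by linarith : 0 ≤ s)]
      nlinarith [abs_nonneg (eb g), abs_nonneg (ec g)]
    rw [← sq_abs, ← sq_abs (_ + _)]
    nlinarith [abs_nonneg (s⁻¹ * ea g - s * ed g), abs_nonneg (s⁻¹ * eb g + s * ec g)]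
  · exact s1.trans hs.1
  · linarith [hs.2]

omit [Countable Γ] [SFinite μ] in
lemma Adm.exists_tail (h : Adm l D μ f) {η : ℝ≥0∞} (hη : η ≠ 0) :
    ∃ L : ℕ, ∫⁻ z in D, {z | (L : ℝ≥0∞) < f z}.indicator f z ^ 2 ≤ η := by
  have := tendsto_lintegral_of_dominated_convergence (μ := volume.restrict D)
    (F := fun (L : ℕ) z => {z | (L : ℝ≥0∞) < f z}.indicator f z ^ 2) (f := fun _ => 0)
    (fun z => f z ^ 2)
    (fun L => (h.mf.indicator (measurableSet_lt measurable_const h.mf)).pow_const 2)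
    (fun L => Eventually.of_forall fun z => by
      simp only; gcongr; exact indicator_le_self _ _ z) h.sq (by
      filter_upwards [ae_lt_top (h.mf.pow_const 2) h.sq] with z hz
      obtain ⟨n, hn⟩ := ENNReal.exists_nat_gt (r := f z) (fun e => by simp [e] at hz)
      refine tendsto_const_nhds.congr' ?_
      filter_upwards [eventually_ge_atTop n] with L hL
      rw [indicator_of_notMem]
      · simp
      · exact not_lt.2 (hn.le.trans (by exact_mod_cast hL)))
  rw [lintegral_zero] at this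
  exact (this.eventually (ge_mem_nhds (pos_iff_ne_zero.2 hη))).exists

theorem Adm.ui (h : Adm l D μ f) {η : ℝ≥0∞} (hη : η ≠ 0) :
    ∃ L : ℝ≥0∞, L ≠ ⊤ ∧ ∀ r : ℝ, 0 < r → r ≤ 1 → ∃ R : SL2 → ℝ≥0∞, Measurable R ∧
      (∀ v, NN μ (UB r r) v ≤ L * ENNReal.ofReal r + R v) ∧
      ∫⁻ v in bp ⁻¹' D, R v ∂μ ≤ η * ENNReal.ofReal r := by
  obtain ⟨C, hC, hC'⟩ := exists_ball_bound 9
  set X := ∫⁻ z in D, f z ^ 2
  have hX : X ≠ ⊤ := h.sq
  have h2 : η / 2 ≠ 0 := by simp [hη]
  obtain ⟨t, t0, t1, ht⟩ := exists_mul_le_enn (c := 3 * (C * 81) * X) (by finiteness) h2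
  obtain ⟨u, u0, -, hu⟩ := exists_mul_le_enn (c := 3 * (C * 81) * t⁻¹) (by finiteness) h2
  obtain ⟨L, hL⟩ := h.exists_tail u0
  set fL := {z | (L : ℝ≥0∞) < f z}.indicator f
  have mL : Measurable fL := h.mf.indicator (measurableSet_lt measurable_const h.mf)
  have iL : ∀ (γ : Γ) z, fL (γ • z) = fL z := fun γ z => by simp [fL, indicator, h.inv]
  refine ⟨3 * (L * (C * 81)), by finiteness, fun r hr hr1 => ?_⟩
  set ρ := ENNReal.ofReal r
  have ρ0 : ρ ≠ 0 := by simpa [ρ] using hr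
  have ρ1 : ρ ≠ ⊤ := ENNReal.ofReal_ne_top
  have hB : ∀ z : ℍ, volume (closedBall z (9 * r)) ≤ C * 81 * ρ ^ 2 := fun z => by
    refine (hC' z _ (by positivity) (by linarith)).trans (le_of_eq ?_)
    rw [ENNReal.ofReal_mul (by norm_num), mul_pow, ← mul_assoc]; norm_num [ρ]
  have v3 : volume (Icc (1 / 2 : ℝ) 3) ≤ 3 := by
    rw [Real.volume_Icc]; exact ENNReal.ofReal_le_of_le_toReal (by norm_num)
  have mA : Measurable fun p : SL2 × ℝ => AB (9 * r) fL (bp (p.1 * dg p.2)) :=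
    (measurable_AB _ mL).comp (by fun_prop)
  refine ⟨fun v => ρ⁻¹ * ∫⁻ s in Icc (1 / 2 : ℝ) 3, AB (9 * r) fL (bp (v * dg s)),
    mA.lintegral_prod_right'.const_mul _, fun v => ?_, ?_⟩
  · rw [← ENNReal.mul_le_mul_iff_right ρ0 ρ1, mul_add, ENNReal.mul_inv_cancel_left ρ0 ρ1]
    have mk : Measurable fun p : SL2 × ℝ =>
        (BB (9 * r)).indicator (1 : SL2 → ℝ≥0∞) ((v * dg p.2)⁻¹ * p.1) :=
      (measurable_one.indicator (measurableSet_BB _)).comp (by fun_prop)
    calc ρ * NN μ (UB r r) v ≤ ∫⁻ w, (∫⁻ s in Icc (1 / 2 : ℝ) 3,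
          (BB (9 * r)).indicator 1 ((v * dg s)⁻¹ * w)) ∂μ := by
          rw [NN, ← lintegral_indicator_const (measurableSet_NN (measurableSet_UB r r) v)]
          refine lintegral_mono fun w => ?_
          by_cases hw : w ∈ {w | v⁻¹ * w ∈ UB r r}
          · rw [indicator_of_mem hw]
            refine (tube hr hr1 hw).trans (le_of_eq ?_)
            have m : MeasurableSet {s | (dg s)⁻¹ * (v⁻¹ * w) ∈ BB (9 * r)} :=
              (show Measurable fun s => (dg s)⁻¹ * (v⁻¹ * w) by fun_prop) (measurableSet_BB _)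
            rw [← Measure.restrict_apply m, ← lintegral_indicator_one m]
            congr 1; ext s
            rw [mul_inv_rev, mul_assoc]; rfl
          · simp [indicator_of_notMem hw]
      _ = ∫⁻ s in Icc (1 / 2 : ℝ) 3, AB (9 * r) f (bp (v * dg s)) := by
          rw [lintegral_lintegral_swap mk.aemeasurable]
          simp only [← NN_eq (measurableSet_BB _), h.NN_BB]
      _ ≤ ∫⁻ s in Icc (1 / 2 : ℝ) 3, (L * (C * 81 * ρ ^ 2) + AB (9 * r) fL (bp (v * dg s))) := by
          refine lintegral_mono fun s => ?_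
          calc _ ≤ ∫⁻ w in closedBall (bp (v * dg s)) (9 * r), (L + fL w) := by
                refine lintegral_mono fun w => ?_
                by_cases hw : (L : ℝ≥0∞) < f w
                · simp [fL, hw]
                · exact (not_lt.1 hw).trans le_self_add
            _ ≤ _ := by
                rw [lintegral_add_left measurable_const, setLIntegral_const]
                gcongr
                · exact hB _
                · rfl
      _ ≤ _ := by
          rw [lintegral_add_left measurable_const, setLIntegral_const]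
          refine add_le_add ?_ le_rfl
          calc _ ≤ L * (C * 81 * ρ ^ 2) * 3 := by gcongr
            _ = _ := by ring
  · rw [lintegral_const_mul _ mA.lintegral_prod_right', lintegral_lintegral_swap mA.aemeasurable,
      ← ENNReal.mul_le_mul_iff_right ρ0 ρ1, ENNReal.mul_inv_cancel_left ρ0 ρ1]
    calc _ = ∫⁻ s in Icc (1 / 2 : ℝ) 3, ∫⁻ z in D, f z * AB (9 * r) fL z := by
          refine setLIntegral_congr_fun measurableSet_Icc fun s hs => ?_
          simp only
          rw [h.shift (F := fun g => AB (9 * r) fL (bp g)) ((measurable_AB _ mL).comp measurable_bp)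
            (fun γ g => by rw [bp_mul, ← h.fd.act, h.fd.AB_inv _ mL iL]) (by linarith [hs.1]),
            h.setLIntegral_bp (measurable_AB _ mL) h.fd.meas]
      _ ≤ C * 81 * ρ ^ 2 * (t * X + t⁻¹ * u) * 3 := by
          rw [setLIntegral_const]
          gcongr
          refine le_trans ?_ ((h.fd.schur h.mf mL iL (9 * r) t0 t1).trans ?_)
          · rw [two_mul]; exact le_self_add
          · gcongr; exact hB _
      _ = ρ * ((3 * (C * 81) * X * t + 3 * (C * 81) * t⁻¹ * u) * ρ) := by ring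
      _ ≤ _ := by
          gcongr
          exact (add_le_add ht hu).trans (ENNReal.add_halves η).le

end Pool.Agent.Lib.MP_a52643_an
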