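import Pool.Agent.Lib.MP_a52643_an.Dyn1

/-!
Averaging over the two-sided diagonal action.
-/

open MeasureTheory Set Filter Topology Metric UpperHalfPlane
open scoped ENNReal MatrixGroups Pointwise NNReal

noncomputable section

namespace Pool.Agent.Lib.MP_a52643_an

def TInv (ν : Measure SL2) : Prop := ∀ s t : ℝ, 0 < s → 0 < t → MeasurePreserving (TT2 (s, t)) ν ν

variable {ν : Measure SL2}

lemma TInv.avg [SFinite ν] (h : TInv ν) {A B : Set ℝ} (hA : MeasurableSet A)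
    (hB : MeasurableSet B) (hA' : A ⊆ Ioi 0) (hB' : B ⊆ Ioi 0) {S : Set SL2}
    (hS : MeasurableSet S) :
    volume A * volume B * ν S = ∫⁻ g, volume {p ∈ A ×ˢ B | TT2 p g ∈ S} ∂ν := by
  have m : MeasurableSet {q : (ℝ × ℝ) × SL2 | q.1 ∈ A ×ˢ B ∧ TT2 q.1 q.2 ∈ S} :=
    (measurable_fst (hA.prod hB)).inter (measurable_TT2 hS)
  have e1 := Measure.prod_apply (μ := (volume : Measure (ℝ × ℝ))) (ν := ν) m
  rw [Measure.prod_apply_symm m] at e1
  refine Eq.trans ?_ e1.symm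
  rw [← Measure.prod_prod, ← Measure.volume_eq_prod, mul_comm, ← setLIntegral_const,
    ← lintegral_indicator (hA.prod hB)]
  congr 1; ext p
  by_cases hp : p ∈ A ×ˢ B
  · rw [indicator_of_mem hp, ← (h p.1 p.2 (hA' hp.1) (hB' hp.2)).measure_preimage
      hS.nullMeasurableSet]
    congr 1; ext g; exact ⟨fun h => ⟨hp, h⟩, fun h => h.2⟩
  · rw [indicator_of_notMem hp, eq_comm]
    exact measure_mono_null (fun g hg => hp hg.1) measure_empty

lemma vol_root_le {x y e : ℝ} (hx : 0 ≤ x) (hy : 0 < y) :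
    volume {s : ℝ | 0 < s ∧ |x / s - y * s| ≤ e} ≤ ENNReal.ofReal (2 * e / y) := by
  refine (Real.volume_le_diam _).trans (Metric.ediam_le fun s hs t ht => ?_)
  rw [edist_dist]
  refine ENNReal.ofReal_le_ofReal ?_
  wlog hst : s ≤ t generalizing s t
  · rw [dist_comm]; exact this t ht s hs (not_le.1 hst).le
  have h1 : x / t ≤ x / s := div_le_div_of_nonneg_left hx hs.1 hst
  have h2 := abs_le.1 hs.2
  have h3 := abs_le.1 ht.2
  rw [Real.dist_eq, abs_of_nonpos (by linarith), le_div_iff₀ hy]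
  linarith

lemma abs_cross {b c t : ℝ} (h : b * c < 0) : |b * t + c / t| = |(|c|) / t - |b| * t| := by
  rcases lt_or_gt_of_ne (left_ne_zero_of_mul h.ne) with hb | hb
  · rw [abs_of_neg hb, abs_of_pos (by nlinarith : 0 < c)]; congr 1; ring
  · rw [abs_of_pos hb, abs_of_neg (by nlinarith : c < 0), ← abs_neg]; congr 1; ring

lemma TT2_ent {p : ℝ × ℝ} (h1 : p.1 ≠ 0) (h2 : p.2 ≠ 0) (g : SL2) :
    ea (TT2 p g) = ea g / p.1 ∧ eb (TT2 p g) = eb g * p.2 ∧ ec (TT2 p g) = ec g / p.2 ∧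
      ed (TT2 p g) = ed g * p.1 := by
  simp [TT2, nz_eq h1, nz_eq h2]

def EE (e : ℝ) : Set SL2 := {g | |ea g - ed g| ≤ e ∧ |eb g + ec g| ≤ e}

lemma measurableSet_EE (e : ℝ) : MeasurableSet (EE e) :=
  (measurableSet_le (measurable_ea.sub measurable_ed).abs measurable_const).inter
    (measurableSet_le (measurable_eb.add measurable_ec).abs measurable_const)

lemma EE_subset {e : ℝ} (he : 0 ≤ e) : EE e ⊆ BB (2 * e) := fun g hg => by
  refine dist_bp_le (by positivity) ?_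
  rw [← sq_abs, ← sq_abs (_ + _)]
  nlinarith [hg.1, hg.2, abs_nonneg (ea g - ed g), abs_nonneg (eb g + ec g)]

/-- pairs of crossing geodesics -/
def ZZ : Set SL2 := {g | ea g ∈ Icc (1 / 8 : ℝ) 8 ∧ ed g ∈ Icc (1 / 8 : ℝ) 8 ∧ eb g * ec g < 0 ∧
  |eb g| ≤ 12 ^ 2 * |ec g| ∧ |ec g| ≤ 12 ^ 2 * |eb g|}

lemma measurableSet_ZZ : MeasurableSet ZZ :=
  (measurable_ea measurableSet_Icc).inter ((measurable_ed measurableSet_Icc).inter
    ((measurableSet_lt (measurable_eb.mul measurable_ec) measurable_const).inter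
      ((measurableSet_le measurable_eb.abs (measurable_ec.abs.const_mul _)).inter
        (measurableSet_le measurable_ec.abs (measurable_eb.abs.const_mul _)))))

def cr (ν : Measure SL2) : Measure SL2 :=
  (ν.restrict ZZ).withDensity fun g => (ENNReal.ofReal |eb g|)⁻¹

lemma cr_apply {S : Set SL2} (hS : MeasurableSet S) :
    cr ν S = ∫⁻ g in S ∩ ZZ, (ENNReal.ofReal |eb g|)⁻¹ ∂ν := by
  rw [cr, withDensity_apply _ hS, Measure.restrict_restrict hS]

lemma measurableSet_b_le (r : ℝ) : MeasurableSet {g | |eb g| ≤ r} :=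
  measurableSet_le measurable_eb.abs measurable_const

lemma TInv.cr_le [SFinite ν] (h : TInv ν) {C : ℝ≥0∞} {e : ℝ} (he : 0 < e) (he1 : e ≤ 1)
    (hC : ν (EE e) ≤ C * ENNReal.ofReal e ^ 2) : cr ν {g | e ≤ |eb g|} ≤ 32 * (169 * C) := by
  have m : MeasurableSet {g | e ≤ |eb g|} := measurableSet_le measurable_const measurable_eb.abs
  have hs : Icc (1 / 12 : ℝ) 13 ⊆ Ioi 0 := fun x hx => lt_of_lt_of_le (by norm_num) hx.1
  have a := h.avg measurableSet_Icc measurableSet_Icc hs hs (measurableSet_EE e)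
  have v : volume (Icc (1 / 12 : ℝ) 13) ≤ 13 := by
    rw [Real.volume_Icc]; exact ENNReal.ofReal_le_of_le_toReal (by norm_num)
  set ρ := ENNReal.ofReal e
  have ρ0 : ρ ^ 2 ≠ 0 := pow_ne_zero _ (by simpa [ρ] using he)
  have ρ1 : ρ ^ 2 ≠ ⊤ := by finiteness
  rw [← ENNReal.mul_le_mul_iff_right ρ0 ρ1, cr_apply m, ← lintegral_const_mul _ (by fun_prop)]
  calc _ ≤ ∫⁻ g in {g | e ≤ |eb g|} ∩ ZZ,
        32 * volume {p ∈ Icc (1 / 12 : ℝ) 13 ×ˢ Icc (1 / 12 : ℝ) 13 | TT2 p g ∈ EE e} ∂ν := by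
        refine setLIntegral_mono' (m.inter measurableSet_ZZ) ?_
        rintro g ⟨hb, ⟨a1, a2⟩, ⟨d1, d2⟩, hbc, h1, h2⟩
        have hb' : e ≤ |eb g| := hb
        have b0 : 0 < |eb g| := by linarith
        have c0 : 0 < |ec g| := abs_pos.2 (right_ne_zero_of_mul hbc.ne)
        obtain ⟨s1, s2⟩ := sqrt_mem (x := ea g) (y := ed g) (A := 8) (by linarith) (by norm_num)
          (by linarith) (by linarith)
        obtain ⟨t1, t2⟩ := sqrt_mem (x := |ec g|) (y := |eb g|) (A := 12) b0 (by norm_num) h2 h1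
        have e1 : e / (2 * |eb g|) ≤ 1 := by rw [div_le_one (by positivity)]; linarith
        refine le_trans ?_ (mul_le_mul_right (measure_mono
          (s := Icc √(ea g / ed g) (√(ea g / ed g) + e / 16) ×ˢ
            Icc √(|ec g| / |eb g|) (√(|ec g| / |eb g|) + e / (2 * |eb g|))) fun p hp => ?_) _)
        · rw [Measure.volume_eq_prod, Measure.prod_prod, Real.volume_Icc, Real.volume_Icc,
            add_sub_cancel_left, add_sub_cancel_left, ← ENNReal.ofReal_inv_of_pos b0,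
            ← ENNReal.ofReal_pow he.le, ← ENNReal.ofReal_mul (by positivity),
            ← ENNReal.ofReal_mul (by positivity), ← ENNReal.ofReal_ofNat 32,
            ← ENNReal.ofReal_mul (by positivity)]
          exact ENNReal.ofReal_le_ofReal (le_of_eq (by field_simp; ring))
        · have q1 := near_root (by linarith) (by linarith) hp.1.1 hp.1.2
          have q2 := near_root c0 b0 hp.2.1 hp.2.2
          have p1 : 1 / 12 ≤ p.1 := by linarith [hp.1.1]
          have p2 : 1 / 12 ≤ p.2 := by linarith [hp.2.1]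
          obtain ⟨f1, f2, f3, f4⟩ := TT2_ent (p := p) (by linarith) (by linarith) g
          refine ⟨⟨⟨p1, by linarith [hp.1.2]⟩, p2, by linarith [hp.2.2]⟩, ?_, ?_⟩
          · rw [f1, f4]; nlinarith
          · rw [f2, f3, abs_cross hbc]
            refine q2.trans (le_of_eq ?_)
            field_simp
    _ ≤ 32 * (volume (Icc (1 / 12 : ℝ) 13) * volume (Icc (1 / 12 : ℝ) 13) * ν (EE e)) := by
        rw [a, ← lintegral_const_mul' _ _ (by simp)]
        exact setLIntegral_le_lintegral _ _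
    _ ≤ 32 * (13 * 13 * (C * ρ ^ 2)) := by gcongr
    _ = _ := by ring

lemma TInv.cr_small [SFinite ν] (h : TInv ν) {C : ℝ≥0∞} (hC : C ≠ ⊤)
    (hE : ∀ e, 0 < e → e ≤ 1 → ν (EE e) ≤ C * ENNReal.ofReal e ^ 2) :
    Tendsto (fun r => cr ν {g | |eb g| ≤ r}) (𝓝[>] 0) (𝓝 0) := by
  have z : cr ν {g | |eb g| ≤ 0} = 0 := by
    rw [cr_apply (measurableSet_b_le 0)]
    have : {g | |eb g| ≤ 0} ∩ ZZ = ∅ := eq_empty_of_forall_notMem fun g hg =>
      left_ne_zero_of_mul hg.2.2.2.1.ne (abs_nonpos_iff.1 hg.1)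
    rw [this, setLIntegral_empty]
  have fin : cr ν univ ≠ ⊤ := by
    have e : univ = {g | |eb g| ≤ 0} ∪ ⋃ n : ℕ, {g | 1 / ((n : ℝ) + 1) ≤ |eb g|} := by
      refine (eq_univ_of_forall fun g => ?_).symm
      rcases le_or_gt |eb g| 0 with h1 | h1
      · exact Or.inl h1
      · obtain ⟨n, hn⟩ := exists_nat_one_div_lt h1
        exact Or.inr (mem_iUnion.2 ⟨n, hn.le⟩)
    rw [e]
    refine ne_top_of_le_ne_top (b := 32 * (169 * C)) (by finiteness)
      ((measure_union_le _ _).trans ?_)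
    rw [z, zero_add, Monotone.measure_iUnion]
    · refine iSup_le fun n => ?_
      have h1 : 1 / ((n : ℝ) + 1) ≤ 1 := by
        rw [div_le_one (by positivity)]; linarith [n.cast_nonneg (α := ℝ)]
      exact h.cr_le (by positivity) h1 (hE _ (by positivity) h1)
    · intro n m hnm g hg
      exact le_trans (Nat.one_div_le_one_div hnm) (show 1 / ((n : ℝ) + 1) ≤ |eb g| from hg)
  have := tendsto_measure_biInter_gt (μ := cr ν) (s := fun r : ℝ => {g | |eb g| ≤ r}) (a := 0)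
    (fun r _ => (measurableSet_b_le r).nullMeasurableSet)
    (fun i j _ hij g hg => le_trans hg hij) ⟨1, one_pos, ne_top_of_le_ne_top fin
      (measure_mono (subset_univ _))⟩
  have e : ⋂ r > (0 : ℝ), {g | |eb g| ≤ r} = {g | |eb g| ≤ 0} := by
    ext g
    simp only [mem_iInter, mem_ofPred_eq]
    exact ⟨fun h => le_of_forall_pos_le_add fun ε hε => by simpa using h ε hε,
      fun h r hr => h.trans hr.le⟩
  rwa [e, z] at this

lemma le_cr (r : ℝ) : ν ({g | |eb g| ≤ r} ∩ ZZ) ≤ ENNReal.ofReal r * cr ν {g | |eb g| ≤ r} := by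
  rw [cr_apply (measurableSet_b_le r), ← lintegral_const_mul _ (by fun_prop), ← setLIntegral_one]
  refine setLIntegral_mono' ((measurableSet_b_le r).inter measurableSet_ZZ) fun g hg => ?_
  have b0 : 0 < |eb g| := abs_pos.2 (left_ne_zero_of_mul hg.2.2.2.1.ne)
  rw [← div_eq_mul_inv, ENNReal.le_div_iff_mul_le (Or.inl (by simpa using b0)) (Or.inl (by simp)),
    one_mul]
  exact ENNReal.ofReal_le_ofReal hg.1

def RR (e δ : ℝ) : Set SL2 := EE e ∩
  {g | ea g ∈ Icc (2 / 3 : ℝ) (3 / 2) ∧ ed g ∈ Icc (2 / 3 : ℝ) (3 / 2) ∧ |eb g| ≤ δ}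

lemma measurableSet_RR (e δ : ℝ) : MeasurableSet (RR e δ) :=
  (measurableSet_EE e).inter ((measurable_ea measurableSet_Icc).inter
    ((measurable_ed measurableSet_Icc).inter (measurableSet_b_le δ)))

lemma RR_pull {e δ : ℝ} {g : SL2} {p : ℝ × ℝ} (hp : p ∈ Icc (1 : ℝ) (4 / 3) ×ˢ Icc (1 : ℝ) 2)
    (h : TT2 p g ∈ RR e δ) : ea g ∈ Icc (1 / 2 : ℝ) 2 ∧ ed g ∈ Icc (1 / 2 : ℝ) 2 ∧
      |ea g / p.1 - ed g * p.1| ≤ e ∧ |eb g * p.2 + ec g / p.2| ≤ e ∧
      |eb (TT2 p g)| = |eb g| * p.2 ∧ |ec g| = |ec g / p.2| * p.2 := by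
  obtain ⟨⟨s1, s2⟩, t1, t2⟩ := hp
  obtain ⟨f1, f2, f3, f4⟩ := TT2_ent (p := p) (by linarith) (by linarith) g
  obtain ⟨⟨h1, h2⟩, ⟨a1, a2⟩, ⟨d1, d2⟩, -⟩ := h
  rw [f1] at a1 a2 h1
  rw [f4] at d1 d2 h1
  rw [f2, f3] at h2
  rw [le_div_iff₀ (by linarith)] at a1
  rw [div_le_iff₀ (by linarith)] at a2
  have d0 : 0 < ed g := by nlinarith
  refine ⟨⟨by linarith, by linarith⟩, ⟨by nlinarith, by nlinarith⟩, h1, h2, ?_, ?_⟩
  · rw [f2, abs_mul, abs_of_pos (by linarith : 0 < p.2)]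
  · rw [abs_div, abs_of_pos (by linarith : 0 < p.2), div_mul_cancel₀ _ (by linarith)]

lemma TInv.RR_le [SFinite ν] (h : TInv ν) {e : ℝ} (he : 0 < e) (δ : ℝ) :
    ν (RR e δ) ≤ 12 * ENNReal.ofReal e * ν (UB (6 * e) (6 * e))
      + 24 * ENNReal.ofReal e ^ 2 * cr ν {g | |eb g| ≤ δ} := by
  have hs : Icc (1 : ℝ) (4 / 3) ⊆ Ioi 0 := fun x hx => lt_of_lt_of_le (by norm_num) hx.1
  have hs' : Icc (1 : ℝ) 2 ⊆ Ioi 0 := fun x hx => lt_of_lt_of_le (by norm_num) hx.1
  have v : ∀ x : ℝ≥0∞, x = 3 * (volume (Icc (1 : ℝ) (4 / 3)) * volume (Icc (1 : ℝ) 2) * x) := by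
    intro x
    rw [Real.volume_Icc, Real.volume_Icc, ← mul_assoc, ← ENNReal.ofReal_ofNat 3,
      ← ENNReal.ofReal_mul (by norm_num), ← ENNReal.ofReal_mul (by norm_num)]
    norm_num
  have v1 : ∀ g : SL2, 1 / 2 ≤ ed g → 0 ≤ ea g →
      volume {s : ℝ | 0 < s ∧ |ea g / s - ed g * s| ≤ e} ≤ 4 * ENNReal.ofReal e := by
    intro g h1 h2
    refine (vol_root_le h2 (by linarith)).trans ?_
    rw [← ENNReal.ofReal_ofNat 4, ← ENNReal.ofReal_mul (by norm_num)]
    refine ENNReal.ofReal_le_ofReal ?_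
    rw [div_le_iff₀ (by linarith)]; nlinarith
  have m1 := (measurableSet_RR e δ).inter (measurableSet_b_le (2 * e))
  have m2 := (measurableSet_RR e δ).diff (measurableSet_b_le (2 * e))
  rw [← measure_inter_add_sdiff _ (measurableSet_b_le (2 * e))]
  refine add_le_add ?_ ?_
  · rw [v (ν _), h.avg measurableSet_Icc measurableSet_Icc hs hs' m1]
    calc _ ≤ 3 * ∫⁻ g, (UB (6 * e) (6 * e)).indicator (fun _ => 4 * ENNReal.ofReal e) g ∂ν := by
          gcongr with g
          rcases eq_empty_or_nonempty {p ∈ Icc (1 : ℝ) (4 / 3) ×ˢ Icc (1 : ℝ) 2 |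
            TT2 p g ∈ RR e δ ∩ {g | |eb g| ≤ 2 * e}} with h0 | ⟨p, hp, h1, h2⟩
          · rw [h0]; simp
          obtain ⟨a1, d1, -, q2, q3, q4⟩ := RR_pull hp h1
          have h3 : |eb g| * p.2 ≤ 2 * e := q3 ▸ h2
          have h4 : |ec g / p.2| ≤ 3 * e := by
            have := abs_sub (eb g * p.2 + ec g / p.2) (eb g * p.2)
            rw [add_sub_cancel_left, abs_mul, abs_of_pos (mem_Ioi.1 (hs' hp.2))] at this
            linarith
          have := hp.2.1
          have := hp.2.2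
          rw [indicator_of_mem (show g ∈ UB (6 * e) (6 * e) from ⟨a1, d1,
            by nlinarith [abs_nonneg (eb g)], by rw [q4]; nlinarith [abs_nonneg (ec g / p.2)]⟩)]
          refine (measure_mono (t := {s : ℝ | 0 < s ∧ |ea g / s - ed g * s| ≤ e} ×ˢ Icc (1 : ℝ) 2)
            fun q hq => ⟨⟨hs hq.1.1, (RR_pull hq.1 hq.2.1).2.2.1⟩, hq.1.2⟩).trans ?_
          rw [Measure.volume_eq_prod, Measure.prod_prod, Real.volume_Icc]
          norm_num
          exact v1 g d1.1 (by linarith [a1.1])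
      _ = _ := by rw [lintegral_indicator_const (measurableSet_UB _ _)]; ring
  · rw [v (ν _), h.avg measurableSet_Icc measurableSet_Icc hs hs' m2]
    calc _ ≤ 3 * ∫⁻ g, ({g | |eb g| ≤ δ} ∩ ZZ).indicator
          (fun g => 8 * ENNReal.ofReal e ^ 2 * (ENNReal.ofReal |eb g|)⁻¹) g ∂ν := by
          gcongr with g
          rcases eq_empty_or_nonempty {p ∈ Icc (1 : ℝ) (4 / 3) ×ˢ Icc (1 : ℝ) 2 |
            TT2 p g ∈ RR e δ \ {g | |eb g| ≤ 2 * e}} with h0 | ⟨p, hp, h1, h2⟩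
          · rw [h0]; simp
          obtain ⟨a1, d1, -, q2, q3, q4⟩ := RR_pull hp h1
          have h3 : 2 * e < |eb g| * p.2 := q3 ▸ not_le.1 h2
          have h5 : |eb g| * p.2 ≤ δ := q3 ▸ h1.2.2.2
          have p1 := hp.2.1
          have p2 := hp.2.2
          have h6 := abs_sub (eb g * p.2 + ec g / p.2) (eb g * p.2)
          have h7 := abs_sub (eb g * p.2 + ec g / p.2) (ec g / p.2)
          rw [add_sub_cancel_left, abs_mul, abs_of_pos (mem_Ioi.1 (hs' hp.2))] at h6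
          rw [add_sub_cancel_right, abs_mul, abs_of_pos (mem_Ioi.1 (hs' hp.2))] at h7
          have b0 : 0 < |eb g| := by nlinarith
          have hbc : eb g * ec g < 0 := by
            have e1 : eb g * ec g = eb g * p.2 * (ec g / p.2) := by field_simp
            have e2 : (|eb g| * p.2) ^ 2 = (eb g * p.2) ^ 2 := by rw [mul_pow, sq_abs, mul_pow]
            have e3 : (eb g * p.2 + ec g / p.2) ^ 2 ≤ e ^ 2 := by
              rw [← sq_abs]; exact pow_le_pow_left₀ (abs_nonneg _) q2 2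
            rw [e1]
            nlinarith [sq_nonneg (ec g / p.2)]
          have c0 := abs_nonneg (ec g / p.2)
          rw [indicator_of_mem (show g ∈ {g | |eb g| ≤ δ} ∩ ZZ from ⟨by
            change |eb g| ≤ δ; nlinarith, ⟨by linarith [a1.1], by linarith [a1.2]⟩,
            ⟨by linarith [d1.1], by linarith [d1.2]⟩, hbc, by rw [q4]; nlinarith,
            by rw [q4]; nlinarith⟩)]
          refine (measure_mono (t := {s : ℝ | 0 < s ∧ |ea g / s - ed g * s| ≤ e} ×ˢ
            {s : ℝ | 0 < s ∧ |(|ec g|) / s - |eb g| * s| ≤ e})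
            fun q hq => ⟨⟨hs hq.1.1, (RR_pull hq.1 hq.2.1).2.2.1⟩, hs' hq.1.2,
              abs_cross hbc ▸ (RR_pull hq.1 hq.2.1).2.2.2.1⟩).trans ?_
          rw [Measure.volume_eq_prod, Measure.prod_prod]
          refine (mul_le_mul' (v1 g d1.1 (by linarith [a1.1]))
            (vol_root_le (abs_nonneg _) b0)).trans (le_of_eq ?_)
          rw [ENNReal.ofReal_div_of_pos b0, ENNReal.ofReal_mul (by norm_num), div_eq_mul_inv,
            ENNReal.ofReal_ofNat]
          ring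
      _ = _ := by
          rw [lintegral_indicator ((measurableSet_b_le δ).inter measurableSet_ZZ),
            lintegral_const_mul _ (by fun_prop), cr_apply (measurableSet_b_le δ)]
          ring

end Pool.Agent.Lib.MP_a52643_an
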