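import Pool.Agent.Lib.MP_a52643_an.Dyn2

/-!
Non-concentration of nearly parallel pairs.
-/

open MeasureTheory Set Filter Topology Metric UpperHalfPlane
open scoped ENNReal MatrixGroups Pointwise NNReal

noncomputable section

namespace Pool.Agent.Lib.MP_a52643_an

lemma pigeon {X : Type*} [MeasurableSpace X] {P : Measure X} {n : ℕ} (hn : n ≠ 0)
    {Z : ℕ → X → ℝ≥0∞} (hZ : ∀ i, Measurable (Z i)) {z m β t : ℝ≥0∞}
    (hz : ∀ i, ∫⁻ x, Z i x ∂P = z) (hm : ∀ i x, Z i x ≤ m)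
    (hβ : ∀ i j, i < j → j < n → ∫⁻ x, Z i x * Z j x ∂P ≤ β) (hmt : m ≤ n * t)
    (htz : t * z ≠ ⊤) : t * z ≤ t ^ 2 * P univ + β := by
  have mF : Measurable fun x => ∑ i ∈ Finset.range n, Z i x :=
    Finset.measurable_fun_sum _ fun i _ => hZ i
  have h1 : ∫⁻ x, (∑ i ∈ Finset.range n, Z i x) ^ 2 ∂P ≤ n * (m * z + n * β) := by
    simp only [sq, Finset.sum_mul_sum]
    rw [lintegral_finsetSum _ fun i _ => Finset.measurable_fun_sum _ fun j _ => by
      exact (hZ i).mul (hZ j)]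
    refine (Finset.sum_le_card_nsmul _ _ (m * z + n * β) fun i hi => ?_).trans (by simp [mul_add])
    rw [lintegral_finsetSum _ fun j _ => by exact (hZ i).mul (hZ j)]
    refine (Finset.sum_le_sum (g := fun j => (if i = j then m * z else 0) + β)
      fun j hj => ?_).trans ?_
    · rcases lt_trichotomy i j with h | rfl | h
      · exact (hβ i j h (Finset.mem_range.1 hj)).trans le_add_self
      · rw [if_pos rfl, ← hz i, ← lintegral_const_mul _ (hZ i)]
        exact le_trans (lintegral_mono fun x => mul_le_mul_left (hm i x) _) le_self_add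
      · simp only [mul_comm (Z i _)]
        exact (hβ j i h (Finset.mem_range.1 hi)).trans le_add_self
    · simp [Finset.sum_add_distrib, hi]
  have h2 : 2 * (n * t * (n * z)) ≤ (n * t) ^ 2 * P univ + n * (m * z + n * β) := by
    calc _ = ∫⁻ x, 2 * (n * t * ∑ i ∈ Finset.range n, Z i x) ∂P := by
          rw [lintegral_const_mul _ (mF.const_mul _), lintegral_const_mul _ mF,
            lintegral_finsetSum _ fun i _ => hZ i]
          simp [hz]
      _ ≤ ∫⁻ x, ((n * t) ^ 2 + (∑ i ∈ Finset.range n, Z i x) ^ 2) ∂P := by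
          refine lintegral_mono fun x => ?_
          simpa using two_mul_le_enn (n * t) (∑ i ∈ Finset.range n, Z i x) one_ne_zero
            ENNReal.one_ne_top
      _ ≤ _ := by rw [lintegral_add_left measurable_const, lintegral_const]; gcongr
  have h3 : (n : ℝ≥0∞) ^ 2 * (t * z + t * z) ≤ n ^ 2 * (t * z + (t ^ 2 * P univ + β)) := by
    calc _ = 2 * (n * t * (n * z)) := by ring
      _ ≤ (n * t) ^ 2 * P univ + n * (n * t * z + n * β) := h2.trans (by gcongr)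
      _ = _ := by ring
  rw [ENNReal.mul_le_mul_iff_right (by simpa using hn) (by simp)] at h3
  exact (ENNReal.add_le_add_iff_left htz).1 h3

lemma ind_congr {α β M : Type*} [Zero M] {s : Set α} {t : Set β} {f : α → M} {g : β → M} {a : α}
    {b : β} (h : a ∈ s ↔ b ∈ t) (e : f a = g b) : s.indicator f a = t.indicator g b := by
  by_cases ha : a ∈ s
  · rw [indicator_of_mem ha, indicator_of_mem (h.1 ha), e]
  · rw [indicator_of_notMem ha, indicator_of_notMem fun hb => ha (h.2 hb)]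

lemma le_two_mul_enn {x a R : ℝ≥0∞} (h1 : x ≤ a + R) (h2 : 2 * a < x) : x ≤ 2 * R := by
  by_contra h
  have := ENNReal.add_lt_add h2 (not_le.1 h)
  rw [← mul_add, ← two_mul] at this
  exact absurd (mul_le_mul_right h1 2) (not_le.2 this)

def SH (r : ℝ) : Set SL2 := {g | ea g ∈ Icc (1 / 2 : ℝ) 2 ∧ ed g ∈ Icc (1 / 2 : ℝ) 2 ∧
  eb g ∈ Ioc (r / 16) r ∧ ec g ∈ Ioc (r / 16) r}

lemma measurableSet_SH (r : ℝ) : MeasurableSet (SH r) :=
  (measurable_ea measurableSet_Icc).inter ((measurable_ed measurableSet_Icc).inter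
    ((measurable_eb measurableSet_Ioc).inter (measurable_ec measurableSet_Ioc)))

lemma SH_subset {r : ℝ} (hr : 0 < r) : SH r ⊆ UB r r := fun g ⟨h1, h2, h3, h4⟩ =>
  ⟨h1, h2, abs_le.2 ⟨by linarith [h3.1], h3.2⟩, abs_le.2 ⟨by linarith [h4.1], h4.2⟩⟩

lemma SH_inv_subset {r : ℝ} (hr : 0 < r) : Inv.inv ⁻¹' SH r ⊆ UB r r := fun g hg => by
  obtain ⟨h1, h2, h3, h4⟩ := SH_subset hr hg
  simp only [ea_inv, eb_inv, ec_inv, ed_inv, abs_neg] at h1 h2 h3 h4
  exact ⟨h2, h1, h3, h4⟩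

lemma crossing {r q : ℝ} (hr : 0 < r) (hq : 16 ≤ q) (hqr : (q * r) ^ 2 ≤ 1 / 8) {g g' : SL2}
    (hg : g ∈ SH r) (hg' : (dg q)⁻¹ * (g' * dg q) ∈ SH r) :
    TT2 (1, 1 / q) (g⁻¹ * g') ∈ {g | |eb g| ≤ 2 * q * r} ∩ ZZ := by
  have q0 : q ≠ 0 := by linarith
  obtain ⟨h, hh, rfl⟩ : ∃ h ∈ SH r, g' = dg q * h * (dg q)⁻¹ := ⟨_, hg', by group⟩
  obtain ⟨f1, f2, f3, f4⟩ := TT2_ent (p := (1, 1 / q)) one_ne_zero (one_div_ne_zero q0)
    (g⁻¹ * (dg q * h * (dg q)⁻¹))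
  generalize TT2 (1, 1 / q) (g⁻¹ * (dg q * h * (dg q)⁻¹)) = k at f1 f2 f3 f4 ⊢
  simp only [dg, nz_eq q0, ea_mul, eb_mul, ec_mul, ed_mul, ea_inv, eb_inv, ec_inv, ed_inv,
    ea_mkG, eb_mkG, ec_mkG, ed_mkG, neg_zero, zero_mul, add_zero, zero_add, mul_zero] at f1 f2 f3 f4
  obtain ⟨⟨a1, a2⟩, ⟨d1, d2⟩, ⟨b1, b2⟩, c1, c2⟩ := hg
  obtain ⟨⟨a1', a2'⟩, ⟨d1', d2'⟩, ⟨b1', b2'⟩, c1', c2'⟩ := hh
  have e1 : ea k = ed g * ea h - q⁻¹ ^ 2 * (eb g * ec h) := by rw [f1]; field_simp; ring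
  have e2 : eb k = q * (ed g * eb h) - q⁻¹ * (eb g * ed h) := by rw [f2]; field_simp; ring
  have e3 : ec k = q⁻¹ * (ea g * ec h) - q * (ec g * ea h) := by rw [f3]; field_simp; ring
  have e4 : ed k = ea g * ed h - q ^ 2 * (ec g * eb h) := by rw [f4]; field_simp; ring
  have u0 : 0 < q⁻¹ := by positivity
  have u1 : q⁻¹ ≤ 1 / 16 := by rw [inv_le_comm₀ (by linarith) (by norm_num)]; linarith
  clear f1 f2 f3 f4 hg'
  generalize q⁻¹ = u at e1 e2 e3 u0 u1
  have pr1 : ∀ {x y : ℝ}, 1 / 2 ≤ x → x ≤ 2 → 1 / 2 ≤ y → y ≤ 2 → 1 / 4 ≤ x * y ∧ x * y ≤ 4 :=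
    fun h1 h2 h3 h4 => ⟨by nlinarith, by nlinarith⟩
  have pr2 : ∀ {x y : ℝ}, 1 / 2 ≤ x → x ≤ 2 → r / 16 < y → y ≤ r →
      r / 32 ≤ x * y ∧ x * y ≤ 2 * r := fun h1 h2 h3 h4 => ⟨by nlinarith, by nlinarith⟩
  have pr3 : ∀ {x y : ℝ}, r / 16 < x → x ≤ r → r / 16 < y → y ≤ r → 0 ≤ x * y ∧ x * y ≤ r ^ 2 :=
    fun h1 h2 h3 h4 => ⟨by nlinarith, by nlinarith⟩
  obtain ⟨x1, x2⟩ := pr1 d1 d2 a1' a2'
  obtain ⟨y1, y2⟩ := pr1 a1 a2 d1' d2'
  obtain ⟨x3, x4⟩ := pr3 b1 b2 c1' c2'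
  obtain ⟨y3, y4⟩ := pr3 c1 c2 b1' b2'
  obtain ⟨z1, z2⟩ := pr2 d1 d2 b1' b2'
  obtain ⟨z3, z4⟩ := pr2 d1' d2' b1 b2
  obtain ⟨w1, w2⟩ := pr2 a1 a2 c1' c2'
  obtain ⟨w3, w4⟩ := pr2 a1' a2' c1 c2
  rw [mul_comm] at z3 z4 w3 w4
  clear pr1 pr2 pr3
  have q1 : 0 < q := by linarith
  have qr : 16 * r ≤ q * r := by gcongr
  have r2 : r ^ 2 ≤ 1 / 8 := (pow_le_pow_left₀ hr.le (by linarith) 2).trans hqr
  have m1 := mul_le_mul_of_nonneg_left z1 q1.le
  have m2 := mul_le_mul_of_nonneg_left z2 q1.le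
  have m3 := mul_le_mul u1 z4 (by linarith) (by norm_num)
  have m4 : 0 ≤ u * (eb g * ed h) := mul_nonneg u0.le (by linarith)
  have n1 := mul_le_mul_of_nonneg_left w3 q1.le
  have n2 := mul_le_mul_of_nonneg_left w4 q1.le
  have n3 := mul_le_mul u1 w2 (by linarith) (by norm_num)
  have n4 : 0 ≤ u * (ea g * ec h) := mul_nonneg u0.le (by linarith)
  have B1 : q * r / 64 ≤ eb k := by linarith
  have B2 : eb k ≤ 2 * q * r := by linarith
  have C1 : ec k ≤ -(q * r / 64) := by linarith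
  have C2 : -(2 * q * r) ≤ ec k := by linarith
  have t1 : u ^ 2 * (eb g * ec h) ≤ 1 * (1 / 8) :=
    mul_le_mul (pow_le_one₀ u0.le (by linarith)) (x4.trans r2) x3 zero_le_one
  have t2 : q ^ 2 * (ec g * eb h) ≤ 1 / 8 :=
    (mul_le_mul_of_nonneg_left y4 (sq_nonneg q)).trans (by rwa [← mul_pow])
  have t3 : 0 ≤ u ^ 2 * (eb g * ec h) := by positivity
  have t4 : 0 ≤ q ^ 2 * (ec g * eb h) := by positivity
  have hb : |eb k| = eb k := abs_of_nonneg (by linarith)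
  have hc : |ec k| = -ec k := abs_of_nonpos (by linarith)
  refine ⟨by change |eb k| ≤ _; linarith, ⟨by linarith, by linarith⟩, ⟨by linarith, by linarith⟩,
    mul_neg_of_pos_of_neg (by linarith) (by linarith), by linarith, by linarith⟩

variable {Γ : Type*} [Group Γ] [MulAction Γ ℍ] [Countable Γ] {l : Γ → SL2} {D : Set ℍ}
  {μ : Measure SL2} {f : ℍ → ℝ≥0∞} [SFinite μ]

def GD (μ : Measure SL2) (S : Set SL2) (m : ℝ≥0∞) : Set SL2 := {w | NN μ (Inv.inv ⁻¹' S) w ≤ m}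

lemma measurableSet_GD {S : Set SL2} (hS : MeasurableSet S) (m : ℝ≥0∞) :
    MeasurableSet (GD μ S m) :=
  measurableSet_le (measurable_NN (measurable_inv hS)) measurable_const

omit [Countable Γ] [SFinite μ] in
lemma Adm.GD_inv (h : Adm l D μ f) {S : Set SL2} (hS : MeasurableSet S) (m : ℝ≥0∞) (γ : Γ)
    (w : SL2) : l γ * w ∈ GD μ S m ↔ w ∈ GD μ S m := by
  simp only [GD, mem_ofPred_eq, h.NN_inv (measurable_inv hS)]

lemma Adm.swap_ind (h : Adm l D μ f) {S T : Set SL2} (hS : MeasurableSet S) (hT : MeasurableSet T)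
    (iT : ∀ γ w, l γ * w ∈ T ↔ w ∈ T) {F : SL2 → ℝ≥0∞} (hF : Measurable F)
    (iF : ∀ γ v, F (l γ * v) = F v) :
    ∫⁻ v in bp ⁻¹' D, μ ({w | v⁻¹ * w ∈ S} ∩ T) * F v ∂μ
      = ∫⁻ w in bp ⁻¹' D, T.indicator (fun w => ∫⁻ v in {v | w⁻¹ * v ∈ Inv.inv ⁻¹' S}, F v ∂μ) w ∂μ := by
  have m : MeasurableSet {p : SL2 × SL2 | p.1⁻¹ * p.2 ∈ S ∧ p.2 ∈ T} :=
    (measurable_quot hS).inter (measurable_snd hT)
  have := h.eqv.swap h.fd
    (k := fun v w => {p : SL2 × SL2 | p.1⁻¹ * p.2 ∈ S ∧ p.2 ∈ T}.indicator (fun p => F p.1) (v, w))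
    ((hF.comp measurable_fst).indicator m) fun γ v w => by
      have : (l γ * v)⁻¹ * (l γ * w) = v⁻¹ * w := by group
      exact ind_congr (by simp only [mem_ofPred_eq, this, iT]) (iF γ v)
  convert this using 3 with v w
  · rw [mul_comm, ← lintegral_indicator_const ((measurableSet_NN hS v).inter hT)]; rfl
  · by_cases hw : w ∈ T
    · rw [indicator_of_mem hw, ← lintegral_indicator (measurableSet_NN (measurable_inv hS) w)]
      congr 1; ext v
      have : (w⁻¹ * v)⁻¹ = v⁻¹ * w := by group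
      exact ind_congr (by simp only [mem_ofPred_eq, mem_preimage, this, hw, and_true]) rfl
    · simp [indicator, hw]

def YY (μ : Measure SL2) (S : Set SL2) (m : ℝ≥0∞) (v : SL2) : ℝ≥0∞ :=
  μ ({w | v⁻¹ * w ∈ S} ∩ GD μ S m)

lemma measurable_YY {S : Set SL2} (hS : MeasurableSet S) (m : ℝ≥0∞) : Measurable (YY μ S m) :=
  measurable_measure_prodMk_left (s := {p : SL2 × SL2 | p.1⁻¹ * p.2 ∈ S ∧ p.2 ∈ GD μ S m})
    ((measurable_quot hS).inter (measurable_snd (measurableSet_GD hS m)))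

omit [Countable Γ] in
lemma Adm.YY_inv (h : Adm l D μ f) {S : Set SL2} (hS : MeasurableSet S) (m : ℝ≥0∞) (γ : Γ)
    (v : SL2) : YY μ S m (l γ * v) = YY μ S m v := by
  rw [YY, ← (h.left γ).measure_preimage
    ((measurableSet_NN hS _).inter (measurableSet_GD hS m)).nullMeasurableSet, YY]
  congr 1; ext w
  have : (l γ * v)⁻¹ * (l γ * w) = v⁻¹ * w := by group
  simp only [mem_preimage, mem_inter_iff, mem_ofPred_eq, this, h.GD_inv hS]

lemma Adm.pair (h : Adm l D μ f) {S S' C : Set SL2} (hS : MeasurableSet S) (hS' : MeasurableSet S')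
    (hC : MeasurableSet C) (hc : ∀ g ∈ S, ∀ g' ∈ S', g⁻¹ * g' ∈ C) (m : ℝ≥0∞) :
    ∫⁻ v in bp ⁻¹' D, YY μ S m v * NN μ S' v ∂μ ≤ m * nu μ D C := by
  simp only [YY]
  rw [h.swap_ind hS (measurableSet_GD hS m) (h.GD_inv hS m) (measurable_NN hS') (h.NN_inv hS'),
    nu_apply hC, ← lintegral_const_mul _ (measurable_NN hC)]
  refine lintegral_mono fun w => ?_
  by_cases hw : w ∈ GD μ S m
  · rw [indicator_of_mem hw]
    calc _ ≤ ∫⁻ _ in {v | w⁻¹ * v ∈ Inv.inv ⁻¹' S}, NN μ C w ∂μ := by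
          refine setLIntegral_mono' (measurableSet_NN (measurable_inv hS) w) fun v hv => ?_
          refine measure_mono fun w' hw' => ?_
          have := hc _ hv _ hw'
          rwa [inv_inv, mul_assoc, mul_inv_cancel_left] at this
      _ ≤ _ := by rw [setLIntegral_const, mul_comm]; exact mul_le_mul_left hw _
  · simp [indicator_of_notMem hw]

lemma Adm.nu_le_YY (h : Adm l D μ f) {S : Set SL2} (hS : MeasurableSet S) {a : ℝ≥0∞}
    {R : SL2 → ℝ≥0∞} (hR : Measurable R) (h1 : ∀ v, NN μ S v ≤ a + R v)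
    (h2 : ∀ v, NN μ (Inv.inv ⁻¹' S) v ≤ a + R v) :
    nu μ D S ≤ ∫⁻ v in bp ⁻¹' D, min (YY μ S (2 * a) v) (2 * a) ∂μ
      + 4 * ∫⁻ v in bp ⁻¹' D, R v ∂μ := by
  have mG := measurableSet_GD (μ := μ) hS (2 * a)
  have e := h.swap_ind hS mG.compl (fun γ w => by simp only [mem_compl_iff, h.GD_inv hS])
    (F := fun _ => 1) measurable_const fun _ _ => rfl
  simp only [mul_one, setLIntegral_one] at e
  calc nu μ D S = ∫⁻ v in bp ⁻¹' D, YY μ S (2 * a) v ∂μ
        + ∫⁻ v in bp ⁻¹' D, μ ({w | v⁻¹ * w ∈ S} ∩ (GD μ S (2 * a))ᶜ) ∂μ := by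
        rw [nu_apply hS, ← lintegral_add_left (measurable_YY hS _)]
        congr 1; ext v
        exact (measure_inter_add_sdiff _ mG).symm
    _ ≤ ∫⁻ v in bp ⁻¹' D, (min (YY μ S (2 * a) v) (2 * a) + 2 * R v) ∂μ
        + ∫⁻ v in bp ⁻¹' D, 2 * R v ∂μ := by
        rw [e]
        gcongr with v w
        · rcases le_or_gt (YY μ S (2 * a) v) (2 * a) with h3 | h3
          · rw [min_eq_left h3]; exact le_self_add
          · exact (le_two_mul_enn ((measure_mono inter_subset_left).trans (h1 v)) h3).trans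
              le_add_self
        · by_cases hw : w ∈ GD μ S (2 * a)
          · simp [hw]
          · rw [indicator_of_mem (mem_compl hw)]
            exact le_two_mul_enn (h2 w) (not_le.1 hw)
    _ = _ := by
        rw [lintegral_add_right _ (hR.const_mul _), lintegral_const_mul _ hR]; ring

lemma Adm.tinv (h : Adm l D μ f) : TInv (nu μ D) := fun _ _ hs ht => h.nu_TT2 hs ht

lemma Adm.nu_EE (h : Adm l D μ f) : ∃ C : ℝ≥0∞, C ≠ ⊤ ∧
    ∀ e, 0 < e → e ≤ 1 → nu μ D (EE e) ≤ C * ENNReal.ofReal e ^ 2 := by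
  obtain ⟨C, hC, hC'⟩ := exists_ball_bound 2
  have := h.sq
  refine ⟨C * 4 * ∫⁻ z in D, f z ^ 2, by finiteness, fun e he he1 => ?_⟩
  refine (measure_mono (EE_subset he.le)).trans ((h.nu_BB _).trans ?_)
  refine (mul_le_mul_left (hC' I _ (by positivity) (by linarith)) _).trans (le_of_eq ?_)
  rw [ENNReal.ofReal_mul (by norm_num), ENNReal.ofReal_ofNat]; ring

lemma Adm.cr_small (h : Adm l D μ f) :
    Tendsto (fun r => cr (nu μ D) {g | |eb g| ≤ r}) (𝓝[>] 0) (𝓝 0) := by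
  obtain ⟨C, hC, hE⟩ := h.nu_EE
  exact h.tinv.cr_small hC hE

lemma tendsto_mul_nhdsGT {c : ℝ} (hc : 0 < c) : Tendsto (fun r : ℝ => c * r) (𝓝[>] 0) (𝓝[>] 0) := by
  refine tendsto_nhdsWithin_iff.2 ⟨?_, ?_⟩
  · simpa using (tendsto_id.mono_left (nhdsWithin_le_nhds (a := (0 : ℝ)) (s := Ioi 0))).const_mul c
  · filter_upwards [self_mem_nhdsWithin] with ε hε
    exact mul_pos hc (mem_Ioi.1 hε)

theorem Adm.shell (h : Adm l D μ f) {η : ℝ≥0∞} (hη : η ≠ 0) :
    ∀ᶠ r in 𝓝[>] (0 : ℝ), nu μ D (SH r) ≤ 6 * η * ENNReal.ofReal r := by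
  obtain ⟨L, hL, hui⟩ := h.ui hη
  obtain ⟨θ, θ0, θ1, hθ⟩ := exists_mul_le_enn h.fin hη
  obtain ⟨n, hn⟩ := ENNReal.exists_nat_gt (r := 2 * L / θ) (by finiteness)
  have n0 : n ≠ 0 := by rintro rfl; simp at hn
  have hn' : 2 * L ≤ n * θ := (ENNReal.div_le_iff θ0 θ1).1 hn.le
  set Q : ℝ := 16 ^ n
  have Q0 : 0 < Q := by positivity
  obtain ⟨κ, κ0, -, hκ⟩ := exists_mul_le_enn (c := 2 * L * ENNReal.ofReal (2 * Q)) (η := θ * η)
    (by finiteness) (mul_ne_zero θ0 hη)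
  have e1 := (h.cr_small.comp (tendsto_mul_nhdsGT (c := 2 * Q) (by positivity))).eventually
    (ge_mem_nhds (pos_iff_ne_zero.2 κ0))
  filter_upwards [e1, (tendsto_mul_nhdsGT Q0).eventually_mem
    (Ioc_mem_nhdsGT (show (0 : ℝ) < 1 / 4 by norm_num)),
    Ioc_mem_nhdsGT one_pos] with r h1 h2 hr
  obtain ⟨R, mR, hR, hR'⟩ := hui r hr.1 hr.2
  set ρ := ENNReal.ofReal r
  have ρ0 : ρ ≠ 0 := by simpa [ρ] using hr.1
  have ρ1 : ρ ≠ ⊤ := ENNReal.ofReal_ne_top
  have mS := measurableSet_SH r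
  set Z : SL2 → ℝ≥0∞ := fun v => min (YY μ (SH r) (2 * (L * ρ)) v) (2 * (L * ρ))
  have mZ : Measurable Z := (measurable_YY mS _).min measurable_const
  have iZ : ∀ γ v, Z (l γ * v) = Z v := fun γ v => by simp only [Z, h.YY_inv mS]
  have b1 := h.nu_le_YY mS mR (fun v => (NN_mono (SH_subset hr.1) v).trans (hR v))
    fun v => (NN_mono (SH_inv_subset hr.1) v).trans (hR v)
  have corr : ∀ k, 0 < k → k ≤ n →
      ∫⁻ v in bp ⁻¹' D, Z v * Z (v * dg (16 ^ k)) ∂μ ≤ θ * η * ρ ^ 2 := by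
    intro k k0 kn
    set q : ℝ := 16 ^ k
    have q1 : 16 ≤ q := le_self_pow₀ (by norm_num) k0.ne'
    have q2 : q ≤ Q := pow_le_pow_right₀ (by norm_num) kn
    have q0 : 0 < q := by linarith
    have q3 : q * r ≤ Q * r := mul_le_mul_of_nonneg_right q2 hr.1.le
    have q4 : 0 < q * r := mul_pos q0 hr.1
    have mS' : MeasurableSet {g | (dg q)⁻¹ * (g * dg q) ∈ SH r} :=
      (show Measurable fun g => (dg q)⁻¹ * (g * dg q) by fun_prop) mS
    have mC := (measurableSet_b_le (2 * q * r)).inter measurableSet_ZZ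
    have mp := h.tinv 1 (1 / q) one_pos (by positivity)
    have b := h.pair mS mS' (mp.measurable mC)
      (fun g hg g' hg' => crossing hr.1 q1 (by nlinarith [h2.2]) hg hg') (2 * (L * ρ))
    rw [mp.measure_preimage mC.nullMeasurableSet] at b
    calc _ ≤ ∫⁻ v in bp ⁻¹' D, YY μ (SH r) (2 * (L * ρ)) v
          * NN μ {g | (dg q)⁻¹ * (g * dg q) ∈ SH r} v ∂μ := by
          refine lintegral_mono fun v => mul_le_mul' (min_le_left _ _)
            ((min_le_left _ _).trans ((measure_mono inter_subset_left).trans (le_of_eq ?_)))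
          have := h.NN_right (S := {g | (dg q)⁻¹ * g ∈ SH r}) (measurable_const_mul _ mS) q0 v
          refine Eq.trans ?_ this.symm
          simp only [NN, mul_inv_rev, mul_assoc, mem_ofPred_eq]
      _ ≤ 2 * (L * ρ) * (ENNReal.ofReal (2 * Q * r) * κ) := by
          refine b.trans (mul_le_mul_right ((le_cr _).trans (mul_le_mul' (ENNReal.ofReal_le_ofReal
            (by linarith)) (le_trans (measure_mono fun g hg => ?_) h1))) _)
          exact le_trans (show |eb g| ≤ 2 * q * r from hg) (by linarith)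
      _ = 2 * L * ENNReal.ofReal (2 * Q) * κ * ρ ^ 2 := by
          rw [ENNReal.ofReal_mul (by positivity)]; ring
      _ ≤ _ := by gcongr
  have fz : ∫⁻ v in bp ⁻¹' D, Z v ∂μ ≠ ⊤ := by
    refine ne_top_of_le_ne_top ?_ (lintegral_mono fun v => min_le_right _ _)
    have := h.fin
    rw [setLIntegral_const]; finiteness
  have pg := pigeon (P := μ.restrict (bp ⁻¹' D)) n0 (Z := fun i v => Z (v * dg (16 ^ i)))
    (fun i => mZ.comp (measurable_mul_const _)) (fun i => h.shift mZ iZ (by positivity))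
    (fun i v => min_le_right _ _) (t := θ * ρ) (β := θ * η * ρ ^ 2) (fun i j hij hj => by
      refine le_of_eq_of_le ?_ (corr (j - i) (by omega) (by omega))
      rw [← h.shift (F := fun v => Z v * Z (v * dg (16 ^ (j - i))))
        (mZ.mul (mZ.comp (measurable_mul_const _))) (fun γ v => by simp only [iZ, mul_assoc])
        (s := 16 ^ i) (by positivity)]
      simp only [mul_assoc]
      rw [dg_mul (by positivity) (by positivity), ← pow_add, Nat.add_sub_cancel' hij.le])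
    (by rw [← mul_assoc, ← mul_assoc]; gcongr) (by finiteness)
  rw [Measure.restrict_apply_univ] at pg
  have b2 : ∫⁻ v in bp ⁻¹' D, Z v ∂μ ≤ 2 * η * ρ := by
    rw [← ENNReal.mul_le_mul_iff_right (a := θ * ρ) (mul_ne_zero θ0 ρ0) (by finiteness)]
    calc _ ≤ θ * ρ ^ 2 * (μ (bp ⁻¹' D) * θ) + θ * η * ρ ^ 2 := pg.trans (le_of_eq (by ring))
      _ ≤ θ * ρ ^ 2 * η + θ * η * ρ ^ 2 := by gcongr
      _ = _ := by ring
  calc _ ≤ 2 * η * ρ + 4 * (η * ρ) := b1.trans (by gcongr)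
    _ = _ := by ring

lemma UB_cover {r : ℝ} (hr : 0 < r) : UB r r ⊆ TT2 (1, 4) ⁻¹' UB (r / 4) (r / 4) ∪
    TT2 (1, 1 / 4) ⁻¹' UB (r / 4) (r / 4) ∪ SH r ∪ Inv.inv ⁻¹' SH r ∪ {g | |eb g| ≤ r} ∩ ZZ := by
  rintro g ⟨ha, hd, hb, hc⟩
  rcases le_or_gt |eb g| (r / 16) with h1 | h1
  · obtain ⟨f1, f2, f3, f4⟩ := TT2_ent (p := (1, 4)) one_ne_zero (by norm_num) g
    refine Or.inl (Or.inl (Or.inl (Or.inl ⟨by simpa [f1] using ha, by simpa [f4] using hd, ?_, ?_⟩)))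
    · rw [f2, abs_mul, abs_of_pos (by norm_num : (0 : ℝ) < 4)]; linarith
    · rw [f3, abs_div, abs_of_pos (by norm_num : (0 : ℝ) < 4)]; linarith
  rcases le_or_gt |ec g| (r / 16) with h2 | h2
  · obtain ⟨f1, f2, f3, f4⟩ := TT2_ent (p := (1, 1 / 4)) one_ne_zero (by norm_num) g
    refine Or.inl (Or.inl (Or.inl (Or.inr
      ⟨by rw [f1]; simpa using ha, by rw [f4]; simpa using hd, ?_, ?_⟩)))
    · rw [f2, abs_mul, abs_of_pos (by norm_num : (0 : ℝ) < 1 / 4)]; linarith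
    · rw [f3, abs_div, abs_of_pos (by norm_num : (0 : ℝ) < 1 / 4)]; linarith
  have hz : eb g * ec g < 0 → g ∈ {g | |eb g| ≤ r} ∩ ZZ := fun h =>
    ⟨hb, ⟨by linarith [ha.1], by linarith [ha.2]⟩, ⟨by linarith [hd.1], by linarith [hd.2]⟩, h,
      by linarith, by linarith⟩
  rcases abs_cases (eb g) with e1 | e1 <;> rcases abs_cases (ec g) with e2 | e2
  · exact Or.inl (Or.inl (Or.inr ⟨ha, hd, ⟨by linarith, by linarith⟩, by linarith, by linarith⟩))
  · exact Or.inr (hz (mul_neg_of_pos_of_neg (by linarith) e2.2))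
  · exact Or.inr (hz (mul_neg_of_neg_of_pos e1.2 (by linarith)))
  · refine Or.inl (Or.inr ⟨by simpa using hd, by simpa using ha, ?_, ?_⟩)
    · rw [eb_inv]; exact ⟨by linarith, by linarith⟩
    · rw [ec_inv]; exact ⟨by linarith, by linarith⟩

theorem Adm.UB_small (h : Adm l D μ f) {η : ℝ≥0∞} (hη : η ≠ 0) (hη' : η ≠ ⊤) :
    ∀ᶠ r in 𝓝[>] (0 : ℝ), nu μ D (UB r r) ≤ 27 * η * ENNReal.ofReal r := by
  obtain ⟨L, hL, hui⟩ := h.ui one_ne_zero
  set C := L * μ (bp ⁻¹' D) + 1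
  have hC : C ≠ ⊤ := by have := h.fin; finiteness
  have b0 : ∀ r, 0 < r → r ≤ 1 → nu μ D (UB r r) ≤ C * ENNReal.ofReal r := by
    intro r hr hr1
    obtain ⟨R, -, hR, hR'⟩ := hui r hr hr1
    rw [nu_apply (measurableSet_UB r r)]
    refine (lintegral_mono hR).trans ?_
    rw [lintegral_add_left measurable_const, setLIntegral_const]
    exact (add_le_add le_rfl hR').trans (le_of_eq (by simp only [C]; ring))
  have step : ∀ᶠ r in 𝓝[>] (0 : ℝ), r ≤ 1 ∧ nu μ D (UB r r)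
      ≤ 2 * nu μ D (UB (r / 4) (r / 4)) + 13 * η * ENNReal.ofReal r := by
    filter_upwards [h.shell hη, h.cr_small.eventually (ge_mem_nhds (pos_iff_ne_zero.2 hη)),
      Ioc_mem_nhdsGT one_pos] with r h1 h2 hr
    refine ⟨hr.2, (measure_mono (UB_cover hr.1)).trans ?_⟩
    have m := (measurableSet_UB (r / 4) (r / 4)).nullMeasurableSet (μ := nu μ D)
    calc _ ≤ nu μ D (TT2 (1, 4) ⁻¹' UB (r / 4) (r / 4))
          + nu μ D (TT2 (1, 1 / 4) ⁻¹' UB (r / 4) (r / 4)) + nu μ D (SH r)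
          + nu μ D (Inv.inv ⁻¹' SH r) + nu μ D ({g | |eb g| ≤ r} ∩ ZZ) := by
          refine (measure_union_le _ _).trans (add_le_add ((measure_union_le _ _).trans
            (add_le_add ((measure_union_le _ _).trans (add_le_add (measure_union_le _ _) le_rfl))
            le_rfl)) le_rfl)
      _ ≤ nu μ D (UB (r / 4) (r / 4)) + nu μ D (UB (r / 4) (r / 4)) + 6 * η * ENNReal.ofReal r
          + 6 * η * ENNReal.ofReal r + ENNReal.ofReal r * η := by
          rw [(h.tinv 1 4 one_pos (by norm_num)).measure_preimage m,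
            (h.tinv 1 (1 / 4) one_pos (by norm_num)).measure_preimage m,
            h.nu_inv.measure_preimage (measurableSet_SH r).nullMeasurableSet]
          gcongr
          exact (le_cr r).trans (by gcongr)
      _ = _ := by ring
  obtain ⟨r0, hr0, hs⟩ := mem_nhdsGT_iff_exists_Ioc_subset.1 step
  have ind : ∀ m : ℕ, ∀ r ∈ Ioc 0 r0,
      2 ^ m * nu μ D (UB r r) ≤ (C + 2 ^ m * (26 * η)) * ENNReal.ofReal r := by
    intro m
    induction m with
    | zero =>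
      intro r hr
      rw [pow_zero, one_mul]
      exact (b0 r hr.1 (hs hr).1).trans (by gcongr; exact le_self_add)
    | succ m ih =>
      intro r hr
      have h1 := ih (r / 4) ⟨by linarith [hr.1], by linarith [hr.1, hr.2]⟩
      have e : ENNReal.ofReal r = 4 * ENNReal.ofReal (r / 4) := by
        rw [← ENNReal.ofReal_ofNat 4, ← ENNReal.ofReal_mul (by norm_num)]; congr 1; ring
      calc _ ≤ 2 ^ (m + 1) * (2 * nu μ D (UB (r / 4) (r / 4)) + 13 * η * ENNReal.ofReal r) :=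
            mul_le_mul_right (hs hr).2 _
        _ = 4 * (2 ^ m * nu μ D (UB (r / 4) (r / 4))) + 2 ^ m * (26 * η) * ENNReal.ofReal r := by
            ring
        _ ≤ 4 * ((C + 2 ^ m * (26 * η)) * ENNReal.ofReal (r / 4))
            + 2 ^ m * (26 * η) * ENNReal.ofReal r := by gcongr
        _ = _ := by rw [e]; ring
  obtain ⟨n, hn⟩ := ENNReal.exists_nat_gt (r := C / η) (by finiteness)
  have hn' : C ≤ 2 ^ n * η := ((ENNReal.div_le_iff hη hη').1 hn.le).trans (by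
    gcongr; exact_mod_cast Nat.lt_two_pow_self.le)
  filter_upwards [Ioc_mem_nhdsGT hr0] with r hr
  rw [← ENNReal.mul_le_mul_iff_right (a := 2 ^ n) (by simp) (by simp)]
  calc _ ≤ (2 ^ n * η + 2 ^ n * (26 * η)) * ENNReal.ofReal r := (ind n r hr).trans (by gcongr)
    _ = _ := by ring

theorem Adm.RR_small (h : Adm l D μ f) {η : ℝ≥0∞} (hη : η ≠ 0) :
    ∃ δ > (0 : ℝ), ∀ᶠ e in 𝓝[>] (0 : ℝ), nu μ D (RR e δ) ≤ η * ENNReal.ofReal e ^ 2 := by
  obtain ⟨t, t0, t1, ht⟩ := exists_mul_le_enn (c := 1968) (by simp) hη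
  obtain ⟨δ, h1, hδ⟩ := ((h.cr_small.eventually (ge_mem_nhds (pos_iff_ne_zero.2 t0))).and
    self_mem_nhdsWithin).exists
  refine ⟨δ, hδ, ?_⟩
  filter_upwards [(tendsto_mul_nhdsGT (c := 6) (by norm_num)).eventually (h.UB_small t0 t1),
    self_mem_nhdsWithin] with e h2 he
  calc _ ≤ 12 * ENNReal.ofReal e * (27 * t * ENNReal.ofReal (6 * e))
        + 24 * ENNReal.ofReal e ^ 2 * t := (h.tinv.RR_le he δ).trans (by gcongr)
    _ = 1968 * t * ENNReal.ofReal e ^ 2 := by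
        rw [ENNReal.ofReal_mul (by norm_num), ENNReal.ofReal_ofNat]; ring
    _ ≤ _ := by gcongr

end Pool.Agent.Lib.MP_a52643_an
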