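import Pool.Agent.Lib.MP_a52643_an.Dyn3

/-!
Non-concentration of pairs crossing at a fixed angle.
-/

open MeasureTheory Set Filter Topology Metric UpperHalfPlane
open scoped ENNReal MatrixGroups Pointwise NNReal

noncomputable section

namespace Pool.Agent.Lib.MP_a52643_an

lemma re_bp_of_diag {g : SL2} (hb : eb g = 0) (hc : ec g = 0) : (bp g).re = 0 := by
  rw [← coe_re, bp, coe_act]; simp [hb, hc, Complex.div_re]

lemma finite_quad {α β γ : ℝ} (h : ¬(α = 0 ∧ β = 0 ∧ γ = 0)) :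
    {x : ℝ | α * x ^ 2 + β * x + γ = 0}.Finite := by
  have : (Polynomial.C α * Polynomial.X ^ 2 + Polynomial.C β * Polynomial.X + Polynomial.C γ)
      ≠ 0 := fun e => h ⟨by simpa using congrArg (Polynomial.coeff · 2) e,
        by simpa using congrArg (Polynomial.coeff · 1) e,
        by simpa using congrArg (Polynomial.coeff · 0) e⟩
  simpa using Polynomial.finite_setOfPred_isRoot this

def W0 : Set SL2 := {g | eb g * ec g = -3 / 4}

lemma measurableSet_W0 : MeasurableSet W0 :=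
  (measurable_eb.mul measurable_ec) (measurableSet_singleton _)

lemma inv_mem_W0 {v w : SL2} (h : w⁻¹ * v ∈ W0) : v⁻¹ * w ∈ W0 := by
  have : v⁻¹ * w = (w⁻¹ * v)⁻¹ := by group
  rw [this]
  change eb _ * ec _ = _
  rw [eb_inv, ec_inv, neg_mul_neg]; exact h

def gx (x : ℝ) : SL2 := mkG 1 (-3 / 4 / nz x) (nz x) (1 / 4) (by
  rw [div_mul_cancel₀ _ (nz_ne x)]; norm_num)

lemma W0_inter {h g : SL2} (hg : g ∈ W0) (hg' : h * g ∈ W0) : ∃ x : ℝ,
    eb h * ed h * x ^ 2 + -2 * (eb h * ec h) * x + -3 * (ea h * ec h) = 0 ∧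
      (bp ((gx x)⁻¹ * g)).re = 0 := by
  have h1 : eb g * ec g = -3 / 4 := hg
  have h2 : eb (h * g) * ec (h * g) = -3 / 4 := hg'
  have h3 := det_eq g
  have h4 := det_eq h
  have h5 : ea g * ed g = 1 / 4 := by linarith
  have a0 : ea g ≠ 0 := by rintro e; simp [e] at h5
  have c0 : ec g ≠ 0 := by rintro e; simp [e] at h1; norm_num at h1
  rw [eb_mul, ec_mul] at h2
  refine ⟨ec g / ea g, ?_, re_bp_of_diag ?_ ?_⟩
  · field_simp
    linear_combination 4 * ea g * ec g * h2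
      - 4 * (ea h * ec h * ea g ^ 2 + ea h * ed h * ea g * ec g) * h1
      - 4 * (eb h * ed h * ec g ^ 2 + eb h * ec h * ea g * ec g) * h5 + 3 * ea g * ec g * h4
  · simp only [gx, nz_eq (div_ne_zero c0 a0), eb_mul, ea_inv, eb_inv, ed_mkG, eb_mkG]
    field_simp
    linear_combination h1 + 3 * h5
  · simp only [gx, nz_eq (div_ne_zero c0 a0), ec_mul, ec_inv, ed_inv, ec_mkG, ea_mkG]
    field_simp
    ring

variable {Γ : Type*} [Group Γ] [MulAction Γ ℍ] {l : Γ → SL2} {D : Set ℍ}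
  {μ : Measure SL2} {f : ℍ → ℝ≥0∞}

lemma Adm.geo_null (h : Adm l D μ f) (g : SL2) : μ {w | (bp (g * w)).re = 0} = 0 := by
  simp only [bp_mul]
  exact h.qmp.preimage_null (volume_geodesic g)

variable [SFinite μ]

lemma Adm.nu_W0 (h : Adm l D μ f) : nu μ D W0 = 0 := by
  have m1 : MeasurableSet {p : SL2 × SL2 | eb (p.1⁻¹ * p.2) = 0 ∧ ec (p.1⁻¹ * p.2) = 0} :=
    ((measurable_eb.comp measurable_quot) (measurableSet_singleton _)).inter
      ((measurable_ec.comp measurable_quot) (measurableSet_singleton _))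
  have z1 : μ.prod μ {p : SL2 × SL2 | eb (p.1⁻¹ * p.2) = 0 ∧ ec (p.1⁻¹ * p.2) = 0} = 0 :=
    (Measure.measure_prod_null m1).2 (Eventually.of_forall fun v =>
      measure_mono_null (fun w hw => re_bp_of_diag hw.1 hw.2) (h.geo_null v⁻¹))
  have m2 : MeasurableSet {p : SL2 × SL2 × SL2 | p.1⁻¹ * p.2.1 ∈ W0 ∧ p.1⁻¹ * p.2.2 ∈ W0} :=
    ((show Measurable fun p : SL2 × SL2 × SL2 => p.1⁻¹ * p.2.1 by fun_prop) measurableSet_W0).inter
      ((show Measurable fun p : SL2 × SL2 × SL2 => p.1⁻¹ * p.2.2 by fun_prop) measurableSet_W0)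
  have z2 : μ.prod (μ.prod μ)
      {p : SL2 × SL2 × SL2 | p.1⁻¹ * p.2.1 ∈ W0 ∧ p.1⁻¹ * p.2.2 ∈ W0} = 0 := by
    rw [Measure.prod_apply_symm m2]
    refine lintegral_eq_zero_of_ae_eq_zero ?_
    filter_upwards [compl_mem_ae_iff.2 z1] with p hp
    set k := p.1⁻¹ * p.2
    have hk := det_eq k
    have fin := finite_quad (α := eb k * ed k) (β := -2 * (eb k * ec k)) (γ := -3 * (ea k * ec k))
      (by
        rintro ⟨h1, h2, h3⟩
        have b0 : eb k = 0 := by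
          by_contra hb
          have e1 := (mul_eq_zero.1 h1).resolve_left hb
          have e2 : ec k = 0 := by simpa [hb] using h2
          simp [e1, e2] at hk
        refine hp ⟨b0, ?_⟩
        have a0 : ea k ≠ 0 := by rintro e; simp [e, b0] at hk
        exact (mul_eq_zero.1 ((mul_eq_zero.1 h3).resolve_left (by norm_num))).resolve_left a0)
    refine measure_mono_null (fun w hw => ?_) ((measure_biUnion_null_iff fin.countable).2
      fun x _ => h.geo_null ((gx x)⁻¹ * p.2⁻¹))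
    obtain ⟨x, h1, h2⟩ := W0_inter (h := k) (inv_mem_W0 hw.2) (by
      have : k * (p.2⁻¹ * w) = p.1⁻¹ * w := by simp only [k]; group
      rw [this]; exact inv_mem_W0 hw.1)
    exact mem_iUnion₂.2 ⟨x, h1, by simpa only [mul_assoc, mem_ofPred_eq] using h2⟩
  rw [nu_apply measurableSet_W0]
  refine lintegral_eq_zero_of_ae_eq_zero (ae_restrict_of_ae ?_)
  filter_upwards [(Measure.measure_prod_null m2).1 z2] with w hw
  have : μ.prod μ ({v | w⁻¹ * v ∈ W0} ×ˢ {v | w⁻¹ * v ∈ W0}) = 0 := hw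
  rw [Measure.prod_prod, mul_self_eq_zero] at this
  exact this

def WW (e δ : ℝ) : Set SL2 := EE e ∩ {g | |eb g * ec g + 3 / 4| ≤ δ}

lemma measurableSet_bc (δ : ℝ) : MeasurableSet {g | |eb g * ec g + 3 / 4| ≤ δ} :=
  measurableSet_le ((measurable_eb.mul measurable_ec).add_const _).abs measurable_const

lemma measurableSet_WW (e δ : ℝ) : MeasurableSet (WW e δ) :=
  (measurableSet_EE e).inter (measurableSet_bc δ)

lemma near_sq {x y : ℝ} (h1 : 1 / 5 ≤ x * y) (h2 : x * y ≤ 4 / 5) (h3 : |x - y| ≤ 1 / 100) :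
    2 / 5 ≤ |x| ∧ |x| ≤ 1 := by
  have e : |x| ^ 2 = x * y + x * (x - y) := by rw [sq_abs]; ring
  have h4 : |x * (x - y)| ≤ |x| * (1 / 100) := by rw [abs_mul]; gcongr
  have := abs_le.1 h4
  have := abs_nonneg x
  constructor <;> nlinarith

lemma WW_pull {e δ : ℝ} (he : e ≤ 1 / 100) (hδ : δ ≤ 1 / 100) {g : SL2} {p : ℝ × ℝ}
    (hp : p ∈ Icc (1 : ℝ) 2 ×ˢ Icc (1 : ℝ) 2) (h : TT2 p g ∈ WW e δ) :
    g ∈ {g | |eb g * ec g + 3 / 4| ≤ δ} ∩ BB 6 ∧ 1 / 5 ≤ |ed g| ∧ 1 / 5 ≤ |eb g| ∧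
      |(|ea g|) / p.1 - |ed g| * p.1| ≤ e ∧ |(|ec g|) / p.2 - |eb g| * p.2| ≤ e := by
  obtain ⟨⟨s1, s2⟩, t1, t2⟩ := hp
  have s0 : p.1 ≠ 0 := by linarith
  have t0 : p.2 ≠ 0 := by linarith
  obtain ⟨f1, f2, f3, f4⟩ := TT2_ent s0 t0 g
  obtain ⟨⟨h1, h2⟩, h3⟩ := h
  have h4 := det_eq (TT2 p g)
  have h5 := det_eq g
  have e1 : eb (TT2 p g) * ec (TT2 p g) = eb g * ec g := by rw [f2, f3]; field_simp
  replace h3 : |eb g * ec g + 3 / 4| ≤ δ := e1 ▸ h3
  have h6 := abs_le.1 h3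
  obtain ⟨-, a2⟩ := near_sq (x := ea (TT2 p g)) (y := ed (TT2 p g)) (by linarith) (by linarith)
    (by linarith)
  obtain ⟨d1, d2⟩ := near_sq (x := ed (TT2 p g)) (y := ea (TT2 p g)) (by linarith) (by linarith)
    (by rw [abs_sub_comm]; linarith)
  obtain ⟨b1, b2⟩ := near_sq (x := eb (TT2 p g)) (y := -ec (TT2 p g)) (by linarith) (by linarith)
    (by rw [sub_neg_eq_add]; linarith)
  obtain ⟨-, c2⟩ := near_sq (x := ec (TT2 p g)) (y := -eb (TT2 p g)) (by linarith) (by linarith)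
    (by rw [sub_neg_eq_add, add_comm]; linarith)
  rw [f1, abs_div, abs_of_pos (by linarith : 0 < p.1), div_le_one (by linarith)] at a2
  rw [f3, abs_div, abs_of_pos (by linarith : 0 < p.2), div_le_one (by linarith)] at c2
  rw [f4, abs_mul, abs_of_pos (by linarith : 0 < p.1)] at d1 d2
  rw [f2, abs_mul, abs_of_pos (by linarith : 0 < p.2)] at b1 b2
  have := abs_nonneg (ed g)
  have := abs_nonneg (eb g)
  have d3 : |ed g| ≤ 1 := by nlinarith
  have b3 : |eb g| ≤ 1 := by nlinarith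
  refine ⟨⟨h3, dist_bp_le (by norm_num) ?_⟩, by nlinarith, by nlinarith, ?_, ?_⟩
  · have := abs_le.1 d3
    have := abs_le.1 b3
    have := abs_le.1 (a2.trans s2)
    have := abs_le.1 (c2.trans t2)
    nlinarith
  · have := abs_cross (b := -ed g) (c := ea g) (t := p.1) (by linarith)
    rw [abs_neg] at this
    rw [← this]
    rw [f1, f4] at h1
    convert h1 using 2; ring
  · rw [← abs_cross (by linarith), ← f2, ← f3]; exact h2

lemma TInv.WW_le {ν : Measure SL2} [SFinite ν] (h : TInv ν) {e δ : ℝ} (he0 : 0 < e)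
    (he : e ≤ 1 / 100) (hδ : δ ≤ 1 / 100) :
    ν (WW e δ) ≤ 100 * ENNReal.ofReal e ^ 2 * ν ({g | |eb g * ec g + 3 / 4| ≤ δ} ∩ BB 6) := by
  have hs : Icc (1 : ℝ) 2 ⊆ Ioi 0 := fun x hx => lt_of_lt_of_le (by norm_num) hx.1
  have a := h.avg measurableSet_Icc measurableSet_Icc hs hs (measurableSet_WW e δ)
  have v : volume (Icc (1 : ℝ) 2) = 1 := by rw [Real.volume_Icc]; norm_num
  rw [v, one_mul, one_mul] at a
  have v1 : ∀ x y : ℝ, 1 / 5 ≤ |y| →
      volume {s : ℝ | 0 < s ∧ |(|x|) / s - |y| * s| ≤ e} ≤ 10 * ENNReal.ofReal e := by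
    intro x y h1
    refine (vol_root_le (abs_nonneg _) (by linarith)).trans ?_
    rw [← ENNReal.ofReal_ofNat 10, ← ENNReal.ofReal_mul (by norm_num)]
    refine ENNReal.ofReal_le_ofReal ?_
    rw [div_le_iff₀ (by linarith)]; nlinarith
  rw [a, ← lintegral_indicator_const ((measurableSet_bc δ).inter (measurableSet_BB 6))]
  refine lintegral_mono fun g => ?_
  rcases eq_empty_or_nonempty {p ∈ Icc (1 : ℝ) 2 ×ˢ Icc (1 : ℝ) 2 | TT2 p g ∈ WW e δ}
    with h0 | ⟨p, hp, h1⟩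
  · rw [h0]; simp
  obtain ⟨q1, q2, q3, -⟩ := WW_pull he hδ hp h1
  rw [indicator_of_mem q1]
  refine (measure_mono (t := {s : ℝ | 0 < s ∧ |(|ea g|) / s - |ed g| * s| ≤ e} ×ˢ
    {s : ℝ | 0 < s ∧ |(|ec g|) / s - |eb g| * s| ≤ e})
    fun q hq => ⟨⟨hs hq.1.1, (WW_pull he hδ hq.1 hq.2).2.2.2.1⟩, hs hq.1.2,
      (WW_pull he hδ hq.1 hq.2).2.2.2.2⟩).trans ?_
  rw [Measure.volume_eq_prod, Measure.prod_prod]
  exact (mul_le_mul' (v1 _ _ q2) (v1 _ _ q3)).trans (le_of_eq (by ring))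

theorem Adm.WW_small [Countable Γ] (h : Adm l D μ f) {η : ℝ≥0∞} (hη : η ≠ 0) :
    ∃ δ > (0 : ℝ), ∀ᶠ e in 𝓝[>] (0 : ℝ), nu μ D (WW e δ) ≤ η * ENNReal.ofReal e ^ 2 := by
  obtain ⟨t, t0, -, ht⟩ := exists_mul_le_enn (c := 100) (by simp) hη
  have fin : nu μ D (BB 6) ≠ ⊤ := ne_top_of_le_ne_top
    (ENNReal.mul_ne_top measure_closedBall_lt_top.ne h.sq) (h.nu_BB 6)
  have := tendsto_measure_biInter_gt (μ := nu μ D)
    (s := fun δ : ℝ => {g | |eb g * ec g + 3 / 4| ≤ δ} ∩ BB 6) (a := 0)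
    (fun δ _ => ((measurableSet_bc δ).inter (measurableSet_BB 6)).nullMeasurableSet)
    (fun i j _ hij g hg => ⟨le_trans hg.1 hij, hg.2⟩) ⟨1, one_pos, ne_top_of_le_ne_top fin
      (measure_mono inter_subset_right)⟩
  rw [measure_mono_null (t := W0) (fun g hg => ?_) h.nu_W0] at this
  · obtain ⟨δ, h1, hδ⟩ := ((this.eventually (ge_mem_nhds (pos_iff_ne_zero.2 t0))).and
      (Ioc_mem_nhdsGT (show (0 : ℝ) < 1 / 100 by norm_num))).exists
    refine ⟨δ, hδ.1, ?_⟩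
    filter_upwards [Ioc_mem_nhdsGT (show (0 : ℝ) < 1 / 100 by norm_num)] with e he
    calc _ ≤ 100 * ENNReal.ofReal e ^ 2 * t := (h.tinv.WW_le he.1 he.2 hδ.2).trans (by gcongr; exact h1)
      _ = 100 * t * ENNReal.ofReal e ^ 2 := by ring
      _ ≤ _ := by gcongr
  · have : |eb g * ec g + 3 / 4| ≤ 0 := le_of_forall_pos_le_add fun ε hε => by
      simpa using (mem_iInter₂.1 hg ε hε).1
    have := abs_nonpos_iff.1 this
    change eb g * ec g = -3 / 4
    linarith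

end Pool.Agent.Lib.MP_a52643_an
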