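import Pool.Agent.Lib.MP_a52643_an.Weak

/-!
The positive approximants of the microlocal lift.
-/

open Complex MeasureTheory Set Filter Topology Asymptotics
open scoped ComplexConjugate ContDiff ENNReal

noncomputable section

namespace Pool.Agent.Lib.MP_a52643_an

def TT (Φ : ℤ → V → ℂ) (a b : ℤ) (v : V) : ℂ := Φ a v * conj (Φ b v)

def SS (Φ : ℤ → V → ℂ) (s : ℤ) (N : ℕ) (v : V) : ℂ := ∑ a ∈ Finset.range N, Φ (a + s) v

section one

variable {lam : ℝ} {Φ : ℤ → V → ℂ}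

lemma Ladder.cd_TT (h : Ladder lam Φ) (a b : ℤ) : ContDiffOn ℝ 1 (TT Φ a b) Om :=
  (h.smooth a).mul (contDiffOn_conj' (h.smooth b))

lemma Ladder.cont_SS (h : Ladder lam Φ) (s : ℤ) (N : ℕ) : ContinuousOn (SS Φ s N) Om :=
  continuousOn_finsetSum _ fun _ _ => h.cont _

lemma Ladder.TT_eq (h : Ladder lam Φ) (a b : ℤ) (v : V) :
    TT Φ a b v = (-1) ^ b * mono Φ ![a, -b] v := by
  simp [TT, mono, h.cnj]; ring

lemma Ladder.hom_TT (h : Ladder lam Φ) (a b : ℤ) : Hom (a - b) (TT Φ a b) := by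
  have := (h.hom a).mul (h.hom b).conj
  rwa [← sub_eq_add_neg] at this

lemma exists_unit_zpow {k : ℤ} (hk : k ≠ 0) : ∃ c : ℂ, ‖c‖ = 1 ∧ (conj c / c) ^ k = -1 := by
  refine ⟨cexp (((Real.pi / (2 * k) : ℝ) : ℂ) * I), norm_exp_ofReal_mul_I _, ?_⟩
  rw [← Complex.exp_conj, ← Complex.exp_sub, ← Complex.exp_int_mul]
  have hk' : (k : ℂ) ≠ 0 := by exact_mod_cast hk
  have : (k : ℂ) * (conj (((Real.pi / (2 * k) : ℝ) : ℂ) * I) - ((Real.pi / (2 * k) : ℝ) : ℂ) * I)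
      = -(Real.pi * I) := by
    rw [map_mul, conj_ofReal, conj_I]; push_cast; field_simp; ring
  rw [this, Complex.exp_neg, Complex.exp_pi_mul_I]; simp

lemma integral_hom_zero {k : ℤ} (hk : k ≠ 0) {F : V → ℂ} (hF : Integrable F mV) (h : Hom k F) :
    ∫ v, F v ∂mV = 0 := by
  obtain ⟨c, hc, hc'⟩ := exists_unit_zpow hk
  have hc0 : c ≠ 0 := by rintro rfl; simp at hc
  have mp := measurePreserving_smul_mV hc
  have e1 : ∫ v, F (c • v) ∂mV = ∫ v, F v ∂mV := by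
    rw [← integral_map mp.measurable.aemeasurable (by rw [mp.map_eq]; exact hF.1), mp.map_eq]
  have e2 : ∫ v, F (c • v) ∂mV = -∫ v, F v ∂mV := by
    rw [← integral_neg]
    refine integral_congr_ae (ae_Om.mono fun v hv => ?_)
    simp only [h c hc0 v hv, hc']; ring
  linear_combination (e1.symm.trans e2) / 2

lemma integral_KB_hom_zero {k : ℤ} (hk : k ≠ 0) {F : V → ℂ} (hF : ContinuousOn F Om) (h : Hom k F)
    (R : ℝ) : ∫ v in KB R, F v ∂mV = 0 := by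
  obtain ⟨c, hc, hc'⟩ := exists_unit_zpow hk
  have hc0 : c ≠ 0 := by rintro rfl; simp at hc
  have mp := measurePreserving_smul_mV hc
  have hi := (integrable_indicator_iff (measurableSet_KB R)).2 (integrableOn_KB hF R)
  rw [← integral_indicator (measurableSet_KB R)]
  have e1 : ∫ v, (KB R).indicator F (c • v) ∂mV = ∫ v, (KB R).indicator F v ∂mV := by
    rw [← integral_map mp.measurable.aemeasurable (by rw [mp.map_eq]; exact hi.1), mp.map_eq]
  have e2 : ∫ v, (KB R).indicator F (c • v) ∂mV = -∫ v, (KB R).indicator F v ∂mV := by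
    rw [← integral_neg]
    refine integral_congr_ae (ae_Om.mono fun v hv => ?_)
    have hm : c • v ∈ KB R ↔ v ∈ KB R := by
      simp [KB, cslab, dt_smul, norm_smul, hc, normSq_eq_norm_sq]
    by_cases h' : v ∈ KB R
    · simp only [indicator_of_mem h', indicator_of_mem (hm.2 h'), h c hc0 v hv, hc']; ring
    · simp [indicator_of_notMem h', indicator_of_notMem (fun h2 => h' (hm.1 h2))]
  linear_combination (e1.symm.trans e2) / 2

lemma SS_mul_conj (Φ : ℤ → V → ℂ) (s t : ℤ) (N : ℕ) (v : V) : SS Φ s N v * conj (SS Φ t N v)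
    = ∑ a ∈ Finset.range N, ∑ b ∈ Finset.range N, TT Φ (a + s) (b + t) v := by
  simp only [SS, map_sum, Finset.sum_mul_sum, TT]

lemma Ladder.integral_SS (h : Ladder lam Φ) (N : ℕ) (R : ℝ) :
    ∫ v in KB R, ‖SS Φ 0 N v‖ ^ 2 ∂mV = ∑ a ∈ Finset.range N, ∫ v in KB R, ‖Φ a v‖ ^ 2 ∂mV := by
  apply Complex.ofReal_injective
  rw [ofReal_sum, ← integral_complex_ofReal]
  simp only [← mul_conj_sq, SS_mul_conj, add_zero]
  rw [integral_finsetSum _ fun a _ => integrable_finsetSum _ fun b _ =>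
    integrableOn_KB (h.cd_TT _ _).continuousOn R]
  refine Finset.sum_congr rfl fun a ha => ?_
  rw [integral_finsetSum _ fun b _ => integrableOn_KB (h.cd_TT _ _).continuousOn R,
    Finset.sum_eq_single a, ← integral_complex_ofReal]
  · simp only [← mul_conj_sq, TT]
  · intro b _ hb
    exact integral_KB_hom_zero (by omega) (h.cd_TT _ _).continuousOn (h.hom_TT a b) R
  · intro h'; exact absurd ha h'

lemma Ladder.XX_eq (h : Ladder lam Φ) {τ : V → ℂ} (hc : CS τ) (hτ : ContDiffOn ℝ 1 τ Om)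
    (a b : ℤ) : (∫ v, Ep τ v * TT Φ (a - 1) b v ∂mV) + ∫ v, Em τ v * TT Φ a (b - 1) v ∂mV
      = -I * (al lam (a - 1) - al lam (b - 1) : ℝ) *
        ((∫ v, τ v * TT Φ a b v ∂mV) + ∫ v, τ v * TT Φ (a - 1) (b - 1) v ∂mV) := by
  have e1 := ibp_Ep hτ hc (h.cd_TT (a - 1) b)
  have e2 := ibp_Em hτ hc (h.cd_TT a (b - 1))
  have ii : ∀ a b, Integrable (fun v => τ v * TT Φ a b v) mV := fun a b =>
    (hc.mul_right _).integrable (hτ.continuousOn.mul (h.cd_TT a b).continuousOn)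
  have f1 : ∫ v, τ v * Ep (TT Φ (a - 1) b) v ∂mV = I * al lam (a - 1) * (∫ v, τ v * TT Φ a b v ∂mV)
      - I * al lam (b - 1) * ∫ v, τ v * TT Φ (a - 1) (b - 1) v ∂mV := by
    rw [← integral_const_mul, ← integral_const_mul,
      ← integral_sub ((ii _ _).const_mul _) ((ii _ _).const_mul _)]
    refine integral_congr_ae (ae_Om.mono fun v hv => ?_)
    have := ((h.hasE (a - 1) hv).mul (h.hasE b hv).conj).ep
    have e : Ep (TT Φ (a - 1) b) v = _ := this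
    simp only [e, TT, sub_add_cancel, map_mul, conj_I, conj_ofReal]; ring
  have f2 : ∫ v, τ v * Em (TT Φ a (b - 1)) v ∂mV
      = I * al lam (a - 1) * (∫ v, τ v * TT Φ (a - 1) (b - 1) v ∂mV)
      - I * al lam (b - 1) * ∫ v, τ v * TT Φ a b v ∂mV := by
    rw [← integral_const_mul, ← integral_const_mul,
      ← integral_sub ((ii _ _).const_mul _) ((ii _ _).const_mul _)]
    refine integral_congr_ae (ae_Om.mono fun v hv => ?_)
    have := ((h.hasE a hv).mul (h.hasE (b - 1) hv).conj).em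
    have e : Em (TT Φ a (b - 1)) v = _ := this
    simp only [e, TT, sub_add_cancel, map_mul, conj_I, conj_ofReal]; ring
  push_cast
  linear_combination e1 + e2 - f1 - f2

end one

section fam

variable {J : Type} {l : Filter J} {lam : J → ℝ} {Φ : J → ℤ → V → ℂ}

lemma Fam.lb_TT (h : Fam l lam Φ) (a b : ℤ) : LB l fun j v => ‖TT (Φ j) a b v‖ := by
  simpa [(h.lad _).TT_eq] using h.lb_mono (ι := Fin 2) (by simp) ![a, -b]

lemma Fam.isBigO_TT (h : Fam l lam Φ) (a b : ℤ) {τ : V → ℂ} (hc : CS τ) (hτ : ContinuousOn τ Om) :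
    (fun j => ∫ v, τ v * TT (Φ j) a b v ∂mV) =O[l] fun _ => (1 : ℝ) :=
  (h.lb_TT a b).isBigO (fun j => ((h.lad j).cd_TT a b).continuousOn) hc hτ

lemma Fam.TT_succ (h : Fam l lam Φ) {τ : V → ℂ} (hc : CS τ) (hτ : ContDiffOn ℝ 1 τ Om) (a b : ℤ) :
    Tendsto (fun j => (∫ v, τ v * TT (Φ j) (a + 1) (b + 1) v ∂mV)
      - ∫ v, τ v * TT (Φ j) a b v ∂mV) l (𝓝 0) := by
  have := (h.vanish_up (ι := Fin 2) (by simp) ![a, -(b + 1)] hc hτ).const_mul ((-1) ^ (b + 1))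
  rw [mul_zero] at this
  refine this.congr fun j => ?_
  have e1 : (![a, -(b + 1)] + Pi.single 0 1 : Fin 2 → ℤ) = ![a + 1, -(b + 1)] := by
    ext i; fin_cases i <;> simp
  have e2 : (![a, -(b + 1)] + Pi.single 1 1 : Fin 2 → ℤ) = ![a, -b] := by
    ext i; fin_cases i <;> simp
  simp only [Fin.sum_univ_two, e1, e2, (h.lad j).TT_eq, mul_left_comm (τ _), integral_const_mul]
  rw [zpow_add₀ (by norm_num)]; ring

lemma Fam.TT_shift (h : Fam l lam Φ) {τ : V → ℂ} (hc : CS τ) (hτ : ContDiffOn ℝ 1 τ Om) (a b : ℤ)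
    (n : ℤ) : Tendsto (fun j => (∫ v, τ v * TT (Φ j) (a + n) (b + n) v ∂mV)
      - ∫ v, τ v * TT (Φ j) a b v ∂mV) l (𝓝 0) := by
  induction n using Int.induction_on with
  | zero => simpa using tendsto_const_nhds
  | succ n ih =>
    have := (h.TT_succ hc hτ (a + n) (b + n)).add ih
    simpa [add_assoc] using this
  | pred n ih =>
    have := ih.sub (h.TT_succ hc hτ (a + (-n - 1)) (b + (-n - 1)))
    simpa [add_assoc] using this

/-- uniform square bounds along the ladder -/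
lemma Fam.sq_bound (h : Fam l lam Φ) (R : ℝ) :
    ∃ C : ℝ, 0 ≤ C ∧ ∀ a : ℤ, ∀ᶠ j in l, ∫ v in KB R, ‖Φ j a v‖ ^ 2 ∂mV ≤ C := by
  obtain ⟨ζ, Z, hc, h1⟩ := exists_cut (lt_max_of_lt_right one_pos : 0 < max R 1)
  obtain ⟨C, hC⟩ := (h.isBigO_TT 0 0 hc.csc hc.cdo.continuousOn).bound
  refine ⟨max C 0 + 1, by positivity, fun a => ?_⟩
  have t := (h.TT_shift hc.csc hc.cdo 0 0 a).norm.eventually
    (gt_mem_nhds (by simp : ‖(0 : ℂ)‖ < 1))
  filter_upwards [hC, t] with j h2 h3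
  have s1 := hc.setIntegral_le (R' := R) (fun v hv => h1 v (hv.trans (le_max_left _ _))) 0
    (F := fun v => ‖Φ j a v‖ ^ 2) (((h.lad j).cont a).norm.pow 2) fun v => by positivity
  have e : ∫ v, (ζ v : ℂ) * TT (Φ j) a a v ∂mV = ((∫ v, ζ v * ‖Φ j a v‖ ^ 2 ∂mV : ℝ) : ℂ) := by
    rw [← integral_complex_ofReal]; simp only [TT, mul_conj_sq, ofReal_mul]
  simp only [zero_add] at h3
  have h4 := norm_le_norm_add_norm_sub' (∫ v, (ζ v : ℂ) * TT (Φ j) a a v ∂mV)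
    (∫ v, (ζ v : ℂ) * TT (Φ j) 0 0 v ∂mV)
  rw [e, Complex.norm_real] at h4
  rw [e] at h3
  simp only [zero_add, pow_one] at s1
  simp only [norm_one, mul_one] at h2
  have := le_max_left C 0
  have := Real.le_norm_self (∫ v, ζ v * ‖Φ j a v‖ ^ 2 ∂mV)
  have s1' : ∫ v in KB R, ‖Φ j a v‖ ^ 2 ∂mV ≤ ∫ v, ζ v * ‖Φ j a v‖ ^ 2 ∂mV := s1
  linarith

lemma Fam.SS_bound (h : Fam l lam Φ) (R : ℝ) :
    ∃ C : ℝ, 0 ≤ C ∧ (∀ a : ℤ, ∀ᶠ j in l, ∫ v in KB R, ‖Φ j a v‖ ^ 2 ∂mV ≤ C) ∧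
      ∀ N : ℕ, ∀ᶠ j in l, ∫ v in KB R, ‖SS (Φ j) 0 N v‖ ^ 2 ∂mV ≤ N * C := by
  obtain ⟨C, hC0, hC⟩ := h.sq_bound R
  refine ⟨C, hC0, hC, fun N => ?_⟩
  filter_upwards [(Finset.range N).eventually_all.2 fun a _ => hC a] with j hj
  rw [(h.lad j).integral_SS]
  refine (Finset.sum_le_sum hj).trans (by simp)

lemma SS_sub (Φ : ℤ → V → ℂ) (N : ℕ) (v : V) :
    SS Φ 0 N v = SS Φ (-1) N v + (Φ (N - 1) v - Φ (-1) v) := by
  induction N with
  | zero => simp [SS]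
  | succ N ih =>
    simp only [SS, Finset.sum_range_succ] at ih ⊢
    rw [ih]; simp [sub_eq_add_neg]; ring

lemma Fam.XX_sum (h : Fam l lam Φ) {τ : V → ℂ} (hc : CS τ) (hτ : ContDiffOn ℝ 1 τ Om) (N : ℕ) :
    Tendsto (fun j => (∫ v, Ep τ v * (SS (Φ j) (-1) N v * conj (SS (Φ j) 0 N v)) ∂mV)
      + ∫ v, Em τ v * (SS (Φ j) 0 N v * conj (SS (Φ j) (-1) N v)) ∂mV) l (𝓝 0) := by
  have key : ∀ a b : ℤ, Tendsto (fun j => (∫ v, Ep τ v * TT (Φ j) (a - 1) b v ∂mV)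
      + ∫ v, Em τ v * TT (Φ j) a (b - 1) v ∂mV) l (𝓝 0) := by
    intro a b
    simp only [(h.lad _).XX_eq hc hτ]
    have h1 : (fun j => -I * (al (lam j) (a - 1) - al (lam j) (b - 1) : ℝ)) =o[l]
        fun _ => (1 : ℝ) := by
      rw [isLittleO_one_iff]
      simpa using (tendsto_al_sub h.tend (a - 1) (b - 1)).ofReal.const_mul (-I)
    have := h1.mul_isBigO ((h.isBigO_TT a b hc hτ.continuousOn).add
      (h.isBigO_TT (a - 1) (b - 1) hc hτ.continuousOn))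
    simpa only [mul_one, isLittleO_one_iff] using this
  have := tendsto_finsetSum (Finset.range N) fun (a : ℕ) _ =>
    tendsto_finsetSum (Finset.range N) fun (b : ℕ) _ => key a b
  simp only [Finset.sum_const_zero] at this
  refine this.congr fun j => ?_
  have i1 : ∀ a b, Integrable (fun v => Ep τ v * TT (Φ j) a b v) mV := fun a b =>
    (hc.Ep.mul_right _).integrable ((continuousOn_Ep hτ).mul ((h.lad j).cd_TT a b).continuousOn)
  have i2 : ∀ a b, Integrable (fun v => Em τ v * TT (Φ j) a b v) mV := fun a b =>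
    (hc.Em.mul_right _).integrable ((continuousOn_Em hτ).mul ((h.lad j).cd_TT a b).continuousOn)
  simp only [SS_mul_conj, Finset.mul_sum, Finset.sum_add_distrib, add_zero, ← sub_eq_add_neg]
  rw [integral_finsetSum _ fun a _ => integrable_finsetSum _ fun b _ => i1 _ _,
    integral_finsetSum _ fun a _ => integrable_finsetSum _ fun b _ => i2 _ _]
  congr 1 <;> refine Finset.sum_congr rfl fun a _ => ?_
  · rw [integral_finsetSum _ fun b _ => i1 _ _]
  · rw [integral_finsetSum _ fun b _ => i2 _ _]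

lemma int_norm_mul_le {F G : V → ℂ} (hF : ContinuousOn F Om) (hG : ContinuousOn G Om) (R : ℝ)
    {t : ℝ} (ht : 0 < t) : ∫ v in KB R, ‖F v‖ * ‖G v‖ ∂mV
      ≤ (t * (∫ v in KB R, ‖F v‖ ^ 2 ∂mV) + t⁻¹ * ∫ v in KB R, ‖G v‖ ^ 2 ∂mV) / 2 := by
  have i1 : IntegrableOn (fun v => ‖F v‖ ^ 2) (KB R) mV := integrableOn_KB (hF.norm.pow 2) R
  have i2 : IntegrableOn (fun v => ‖G v‖ ^ 2) (KB R) mV := integrableOn_KB (hG.norm.pow 2) R
  rw [← integral_const_mul, ← integral_const_mul, ← integral_add (i1.const_mul _) (i2.const_mul _),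
    ← integral_div]
  refine integral_mono (integrableOn_KB (hF.norm.mul hG.norm) R)
    (((i1.const_mul _).add (i2.const_mul _)).div_const _) fun v => ?_
  have : 0 ≤ t⁻¹ * (t * ‖F v‖ - ‖G v‖) ^ 2 := by positivity
  have e : t⁻¹ * (t * ‖F v‖ - ‖G v‖) ^ 2
      = t * ‖F v‖ ^ 2 + t⁻¹ * ‖G v‖ ^ 2 - 2 * (‖F v‖ * ‖G v‖) := by field_simp; ring
  simp only
  linarith

/-- approximate invariance under the geodesic flow -/
lemma Fam.approx_inv (h : Fam l lam Φ) {τ : V → ℂ} (hc : CS τ) (hτ : ContDiffOn ℝ 1 τ Om) :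
    ∃ C : ℝ, ∀ N : ℕ, 1 ≤ N → ∀ᶠ j in l,
      ‖∫ v, (Ep τ v + Em τ v) * (‖SS (Φ j) 0 N v‖ ^ 2 : ℝ) ∂mV‖ ≤ C * Real.sqrt N := by
  obtain ⟨R1, C1, hC1, hR1, hb1⟩ := hc.Ep.exists_bound (continuousOn_Ep hτ)
  obtain ⟨R2, C2, hC2, hR2, hb2⟩ := hc.Em.exists_bound (continuousOn_Em hτ)
  obtain ⟨C, hC0, hC, hS⟩ := h.SS_bound (max R1 R2)
  refine ⟨1 + (C1 + C2) * (3 * C), fun N hN => ?_⟩
  have t := (h.XX_sum hc hτ N).norm.eventually (gt_mem_nhds (by simp : ‖(0 : ℂ)‖ < 1))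
  filter_upwards [t, hC (N - 1), hC (-1), hS N] with j h1 h2 h3 h4
  have hL := h.lad j
  set D : V → ℂ := fun v => Φ j (N - 1) v - Φ j (-1) v with hD
  have cD : ContinuousOn D Om := (hL.cont _).sub (hL.cont _)
  have cS := hL.cont_SS 0 N
  have cS' := hL.cont_SS (-1) N
  have cj : ∀ {F : V → ℂ}, ContinuousOn F Om → ContinuousOn (fun v => conj (F v)) Om :=
    fun hF => continuous_conj.comp_continuousOn hF
  have ip : ∀ {F : V → ℂ}, ContinuousOn F Om → Integrable (fun v => Ep τ v * F v) mV :=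
    fun hF => (hc.Ep.mul_right _).integrable ((continuousOn_Ep hτ).mul hF)
  have im : ∀ {F : V → ℂ}, ContinuousOn F Om → Integrable (fun v => Em τ v * F v) mV :=
    fun hF => (hc.Em.mul_right _).integrable ((continuousOn_Em hτ).mul hF)
  have i1 : Integrable (fun v => Ep τ v * (SS (Φ j) (-1) N v * conj (SS (Φ j) 0 N v))) mV :=
    ip (cS'.mul (cj cS))
  have i2 : Integrable (fun v => Em τ v * (SS (Φ j) 0 N v * conj (SS (Φ j) (-1) N v))) mV :=
    im (cS.mul (cj cS'))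
  have i3 : Integrable (fun v => Ep τ v * (D v * conj (SS (Φ j) 0 N v))) mV := ip (cD.mul (cj cS))
  have i4 : Integrable (fun v => Em τ v * (SS (Φ j) 0 N v * conj (D v))) mV := im (cS.mul (cj cD))
  have e : ∫ v, (Ep τ v + Em τ v) * (‖SS (Φ j) 0 N v‖ ^ 2 : ℝ) ∂mV
      = ((∫ v, Ep τ v * (SS (Φ j) (-1) N v * conj (SS (Φ j) 0 N v)) ∂mV)
        + ∫ v, Em τ v * (SS (Φ j) 0 N v * conj (SS (Φ j) (-1) N v)) ∂mV)
        + (∫ v, Ep τ v * (D v * conj (SS (Φ j) 0 N v)) ∂mV)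
        + ∫ v, Em τ v * (SS (Φ j) 0 N v * conj (D v)) ∂mV := by
    rw [← integral_add i1 i2, ← integral_add (by exact i1.add i2) i3,
      ← integral_add (by exact (i1.add i2).add i3) i4]
    congr 1; ext v
    have e1 : SS (Φ j) (-1) N v = SS (Φ j) 0 N v - D v := by rw [SS_sub (Φ j) N v]; simp [hD]
    rw [← mul_conj_sq, e1, map_sub]; ring
  have hsq : 1 ≤ Real.sqrt N := Real.one_le_sqrt.2 (by exact_mod_cast hN)
  have hD2 : ∫ v in KB (max R1 R2), ‖D v‖ ^ 2 ∂mV ≤ 4 * C := by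
    have j1 : IntegrableOn (fun v => ‖Φ j (N - 1) v‖ ^ 2) (KB (max R1 R2)) mV :=
      integrableOn_KB ((hL.cont _).norm.pow 2) _
    have j2 : IntegrableOn (fun v => ‖Φ j (-1) v‖ ^ 2) (KB (max R1 R2)) mV :=
      integrableOn_KB ((hL.cont _).norm.pow 2) _
    calc _ ≤ ∫ v in KB (max R1 R2), 2 * (‖Φ j (N - 1) v‖ ^ 2 + ‖Φ j (-1) v‖ ^ 2) ∂mV := by
          refine integral_mono (integrableOn_KB (cD.norm.pow 2) _) ((j1.add j2).const_mul _)
            fun v => ?_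
          have := norm_sub_le (Φ j (N - 1) v) (Φ j (-1) v)
          have h0 := norm_nonneg (Φ j (N - 1) v - Φ j (-1) v)
          simp only [hD]
          nlinarith [sq_nonneg (‖Φ j (N - 1) v‖ - ‖Φ j (-1) v‖)]
      _ ≤ _ := by rw [integral_const_mul, integral_add j1 j2]; linarith
  have hm := int_norm_mul_le cD cS (max R1 R2) (t := Real.sqrt N) (by linarith)
  have hm2 : ∫ v in KB (max R1 R2), ‖D v‖ * ‖SS (Φ j) 0 N v‖ ∂mV ≤ 3 * C * Real.sqrt N := by
    have a1 : (Real.sqrt N)⁻¹ * ∫ v in KB (max R1 R2), ‖SS (Φ j) 0 N v‖ ^ 2 ∂mV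
        ≤ Real.sqrt N * C := by
      rw [inv_mul_le_iff₀ (by linarith), ← mul_assoc, Real.mul_self_sqrt (Nat.cast_nonneg N)]
      exact h4
    nlinarith [mul_le_mul_of_nonneg_left hD2 (by linarith : 0 ≤ Real.sqrt N)]
  have n1 := norm_integral_mul_le (R := max R1 R2)
    (fun v hv h' => hR1 v hv ((le_max_left _ _).trans_lt h')) hb1 (cD.mul (cj cS))
  have n2 := norm_integral_mul_le (R := max R1 R2)
    (fun v hv h' => hR2 v hv ((le_max_right _ _).trans_lt h')) hb2 (cS.mul (cj cD))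
  simp only [Pi.mul_apply, norm_mul, RCLike.norm_conj] at n1 n2
  simp only [mul_comm ‖SS _ _ _ _‖] at n2
  rw [e]
  refine norm_add₃_le.trans ?_
  nlinarith [mul_le_mul_of_nonneg_left hm2 hC1, mul_le_mul_of_nonneg_left hm2 hC2]

end fam

end Pool.Agent.Lib.MP_a52643_an
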