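import Pool.Agent.Lib.MP_a52643_an.Grp

/-!
Fundamental domains, unfolding and mass transport.
-/

open MeasureTheory Set Filter Topology Metric UpperHalfPlane
open scoped ENNReal MatrixGroups Pointwise

noncomputable section

namespace Pool.Agent.Lib.MP_a52643_an

variable {Γ : Type*} [Group Γ] [MulAction Γ ℍ]

def Free (Γ : Type*) [Group Γ] [MulAction Γ ℍ] (O : Set ℍ) : Prop :=
  ∀ γ : Γ, γ ≠ 1 → ∀ z ∈ O, γ • z ∉ O

structure FD (l : Γ → SL2) (D : Set ℍ) : Prop where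
  act : ∀ (γ : Γ) (z : ℍ), γ • z = l γ • z
  meas : MeasurableSet D
  free : Free Γ D
  cov : ∀ᵐ z : ℍ, ∃ γ : Γ, γ • z ∈ D
  fin : volume D ≠ ⊤

variable {l : Γ → SL2} {D : Set ℍ}

lemma mp_of_act (h : ∀ (γ : Γ) (z : ℍ), γ • z = l γ • z) (γ : Γ) :
    MeasurePreserving (fun z : ℍ => γ • z) volume volume := by
  simp only [h]; exact measurePreserving_smul (l γ) volume

lemma FD.mp (h : FD l D) (γ : Γ) : MeasurePreserving (fun z : ℍ => γ • z) volume volume :=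
  mp_of_act h.act γ

lemma FD.dist_eq (h : FD l D) (γ : Γ) (z w : ℍ) : dist (γ • z) (γ • w) = dist z w := by
  simp only [h.act, dist_smul]

theorem exists_FD [Countable Γ] (hΓ : ∀ γ : Γ, ∃ g : SL2, ∀ z : ℍ, γ • z = g • z)
    (hD : IsFundamentalDomain Γ D) (hf : volume D ≠ ⊤) :
    ∃ (l : Γ → SL2) (D' : Set ℍ), FD l D' ∧ D' =ᵐ[volume] D := by
  choose l hl using hΓ
  have : MeasurableConstSMul Γ ℍ := ⟨fun γ => (mp_of_act hl γ).measurable⟩
  have : SMulInvariantMeasure Γ ℍ volume :=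
    ⟨fun γ s hs => (mp_of_act hl γ).measure_preimage hs.nullMeasurableSet⟩
  have h1 := hD.fundamentalInterior
  obtain ⟨D', s1, m1, e1⟩ := h1.nullMeasurableSet.exists_measurable_subset_ae_eq
  have e2 : fundamentalInterior Γ D =ᵐ[volume] D := by
    refine ae_eq_set.2 ⟨?_, ?_⟩
    · rw [sdiff_eq_empty.2 fundamentalInterior_subset, measure_empty]
    · rw [sdiff_fundamentalInterior]; exact hD.measure_fundamentalFrontier
  refine ⟨l, D', ⟨hl, m1, fun γ hγ z hz hz' => ?_, ?_, ?_⟩, e1.trans e2⟩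
  · exact (mem_fundamentalInterior.1 (s1 hz')).2 γ hγ
      (smul_mem_smul_set (fundamentalInterior_subset (s1 hz)))
  · have e3 : ∀ᵐ z : ℍ, z ∈ D' ↔ z ∈ fundamentalInterior Γ D := e1.mem_iff
    have : ∀ᵐ z : ℍ, ∀ γ : Γ, γ • z ∈ D' ↔ γ • z ∈ fundamentalInterior Γ D :=
      ae_all_iff.2 fun γ => (mp_of_act hl γ).quasiMeasurePreserving.ae
        (p := fun z => z ∈ D' ↔ z ∈ fundamentalInterior Γ D) e3
    filter_upwards [this, h1.ae_covers] with z h2 ⟨γ, h3⟩ using ⟨γ, (h2 γ).2 h3⟩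
  · rwa [measure_congr (e1.trans e2)]

lemma Free.tsum_eq {O : Set ℍ} (h : Free Γ O) {z : ℍ} {γ : Γ} (hz : γ • z ∈ O) :
    ∑' δ : Γ, O.indicator (1 : ℍ → ℝ≥0∞) (δ • z) = 1 := by
  rw [tsum_eq_single γ, indicator_of_mem hz, Pi.one_apply]
  intro δ hδ
  refine indicator_of_notMem (fun h' => h (δ * γ⁻¹) (by rwa [Ne, mul_inv_eq_one]) _ hz ?_) _
  rwa [smul_smul, inv_mul_cancel_right]

lemma Free.tsum_le {O : Set ℍ} (h : Free Γ O) (z : ℍ) :
    ∑' δ : Γ, O.indicator (1 : ℍ → ℝ≥0∞) (δ • z) ≤ 1 := by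
  by_cases hz : ∃ γ : Γ, γ • z ∈ O
  · exact (h.tsum_eq hz.choose_spec).le
  · push Not at hz
    simp [hz]

structure Eqv {Z : Type*} [MeasurableSpace Z] (m : Measure Z) (τ : Γ → Z → Z) (P : Z → ℍ) :
    Prop where
  mp : ∀ γ, MeasurePreserving (τ γ) m m
  qmp : Measure.QuasiMeasurePreserving P m volume
  eqv : ∀ γ z, P (τ γ z) = γ • P z

section unfold

variable [Countable Γ] {Z : Type*} [MeasurableSpace Z] {m : Measure Z} {τ : Γ → Z → Z}
  {P P' : Z → ℍ}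

omit [Countable Γ] in
lemma Eqv.tsum_ae (h : FD l D) (e : Eqv m τ P) :
    ∀ᵐ z ∂m, ∑' δ : Γ, D.indicator (1 : ℍ → ℝ≥0∞) (δ • P z) = 1 :=
  (e.qmp.ae h.cov).mono fun _ ⟨_, hz⟩ => h.free.tsum_eq hz

theorem Eqv.unfold (h : FD l D) (e : Eqv m τ P) {H : Z → ℝ≥0∞} (hH : Measurable H) :
    ∫⁻ z, H z ∂m = ∫⁻ z in P ⁻¹' D, ∑' γ, H (τ γ z) ∂m := by
  have mi : ∀ γ : Γ, Measurable fun z => D.indicator (1 : ℍ → ℝ≥0∞) (γ • P z) * H z := fun γ =>
    (((measurable_one.indicator h.meas).comp (h.mp γ).measurable).comp e.qmp.measurable).mul hH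
  calc ∫⁻ z, H z ∂m = ∫⁻ z, ∑' γ : Γ, D.indicator (1 : ℍ → ℝ≥0∞) (γ⁻¹ • P z) * H z ∂m := by
        refine lintegral_congr_ae ((e.tsum_ae h).mono fun z hz => ?_)
        have := (Equiv.inv Γ).tsum_eq fun γ : Γ => D.indicator (1 : ℍ → ℝ≥0∞) (γ • P z)
        simp only [Equiv.inv_apply] at this
        simp only
        rw [ENNReal.tsum_mul_right, this, hz, one_mul]
    _ = ∑' γ : Γ, ∫⁻ z in P ⁻¹' D, H (τ γ z) ∂m := by
        rw [lintegral_tsum fun γ => (mi γ⁻¹).aemeasurable]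
        congr 1; ext γ
        rw [← (e.mp γ).lintegral_comp (mi γ⁻¹), ← lintegral_indicator (e.qmp.measurable h.meas)]
        congr 1; ext z
        rw [e.eqv, inv_smul_smul]
        by_cases hz : P z ∈ D <;> simp [hz]
    _ = _ := (lintegral_tsum fun γ => (hH.comp (e.mp γ).measurable).aemeasurable).symm

theorem Eqv.transport (h : FD l D) (e : Eqv m τ P) (e' : Eqv m τ P') {F : Z → ℝ≥0∞}
    (hF : Measurable F) (hi : ∀ γ z, F (τ γ z) = F z) :
    ∫⁻ z in P ⁻¹' D, F z ∂m = ∫⁻ z in P' ⁻¹' D, F z ∂m := by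
  rw [← lintegral_indicator (e.qmp.measurable h.meas),
    e'.unfold h (hF.indicator (e.qmp.measurable h.meas))]
  refine lintegral_congr_ae (ae_restrict_of_ae ((e.tsum_ae h).mono fun z hz => ?_))
  have : ∀ γ, (P ⁻¹' D).indicator F (τ γ z) = D.indicator (1 : ℍ → ℝ≥0∞) (γ • P z) * F z := by
    intro γ
    by_cases h' : γ • P z ∈ D <;> simp [indicator, e.eqv, h', hi]
  simp only [this]
  rw [ENNReal.tsum_mul_right, hz, one_mul]

theorem Eqv.le_of_tsum (h : FD l D) (e : Eqv m τ P) {F : Z → ℝ≥0∞} (hF : Measurable F)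
    (hi : ∀ γ z, F (τ γ z) = F z) {O : Set ℍ} (hO : MeasurableSet O) {c : ℝ≥0∞}
    (hc : ∀ z, ∑' δ : Γ, O.indicator (1 : ℍ → ℝ≥0∞) (δ • z) ≤ c) :
    ∫⁻ z in P ⁻¹' O, F z ∂m ≤ c * ∫⁻ z in P ⁻¹' D, F z ∂m := by
  rw [← lintegral_indicator (e.qmp.measurable hO), e.unfold h (hF.indicator (e.qmp.measurable hO)),
    ← lintegral_const_mul _ hF]
  refine lintegral_mono fun z => ?_
  have : ∀ γ, (P ⁻¹' O).indicator F (τ γ z) = O.indicator (1 : ℍ → ℝ≥0∞) (γ • P z) * F z := by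
    intro γ
    by_cases h' : γ • P z ∈ O <;> simp [indicator, e.eqv, h', hi]
  simp only [this]
  rw [ENNReal.tsum_mul_right]
  gcongr
  exact hc _

omit [Countable Γ] in
lemma FD.eqv (h : FD l D) : Eqv volume (fun (γ : Γ) (z : ℍ) => γ • z) id :=
  ⟨h.mp, Measure.QuasiMeasurePreserving.id _, fun _ _ => rfl⟩

end unfold

theorem FD.finite [Countable Γ] (h : FD l D) (R : ℝ) :
    {γ : Γ | ∃ z ∈ closedBall I R, γ • z ∈ closedBall I R}.Finite := by
  obtain ⟨δ, hδ⟩ : ∃ δ : Γ, volume (closedBall I 1 ∩ (fun z => δ • z) ⁻¹' D) ≠ 0 := by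
    by_contra h'
    push Not at h'
    refine (measure_closedBall_pos volume I one_pos).ne' (measure_mono_null_ae ?_
      (measure_iUnion_null h'))
    filter_upwards [h.cov] with z ⟨γ, hγ⟩ hz using mem_iUnion.2 ⟨γ, hz, hγ⟩
  set A := closedBall I 1 ∩ (fun z => δ • z) ⁻¹' D
  have mA : MeasurableSet A := measurableSet_closedBall.inter ((h.mp δ).measurable h.meas)
  refine (Measure.finite_const_le_meas_of_disjoint_iUnion volume (pos_iff_ne_zero.2 hδ)
    (As := fun γ : Γ => (fun z => γ⁻¹ • z) ⁻¹' A ∩ closedBall I (2 * R + 1))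
    (fun γ => ((h.mp _).measurable mA).inter measurableSet_closedBall) ?_ ?_).subset ?_
  · intro γ γ' hne
    refine disjoint_left.2 fun z h1 h2 => ?_
    refine h.free (δ * γ'⁻¹ * γ * δ⁻¹) (fun e => hne ?_) _ h1.1.2 ?_
    · rwa [mul_inv_eq_one, mul_assoc, mul_eq_left, inv_mul_eq_one, eq_comm] at e
    · simpa [mul_smul] using h2.1.2
  · exact ne_top_of_le_ne_top measure_closedBall_lt_top.ne
      (measure_mono (iUnion_subset fun γ => inter_subset_right))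
  · rintro γ ⟨z, h1, h2⟩
    rw [mem_ofPred_eq, inter_eq_left.2, (h.mp _).measure_preimage mA.nullMeasurableSet]
    intro w hw
    have h3 := hw.1
    rw [mem_closedBall] at *
    have h4 := h.dist_eq γ (γ⁻¹ • w) z
    rw [smul_inv_smul] at h4
    linarith [dist_triangle w (γ • z) I, dist_triangle_right (γ⁻¹ • w) z I]

theorem FD.tsum_compact [Countable Γ] (h : FD l D) {K : Set ℍ} (hK : IsCompact K) :
    ∃ c : ℝ≥0∞, c ≠ ⊤ ∧ ∀ z, ∑' δ : Γ, K.indicator (1 : ℍ → ℝ≥0∞) (δ • z) ≤ c := by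
  obtain ⟨R, hR⟩ := hK.isBounded.subset_closedBall I
  refine ⟨(h.finite R).toFinset.card, by simp, fun z => ?_⟩
  by_cases hz : ∃ γ : Γ, γ • z ∈ K
  · obtain ⟨γ, hγ⟩ := hz
    rw [← (Equiv.mulRight γ).tsum_eq, tsum_eq_sum (s := (h.finite R).toFinset)]
    · refine (Finset.sum_le_card_nsmul _ _ 1 fun δ _ => ?_).trans (by simp)
      exact indicator_le_self' (fun _ _ => zero_le_one) _
    · intro δ hδ
      refine indicator_of_notMem (fun h' => hδ ?_) _
      rw [Finite.mem_toFinset]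
      exact ⟨γ • z, hR hγ, hR (by simpa [mul_smul] using h')⟩
  · push Not at hz
    simp [hz]

theorem FD.exists_free [Countable Γ] (h : FD l D) {η : ℝ≥0∞} (hη : η ≠ 0) :
    ∃ K O : Set ℍ, IsCompact K ∧ K ⊆ D ∧ IsOpen O ∧ K ⊆ O ∧ Free Γ O ∧
      volume (D \ K) < η ∧ volume (O \ K) < η := by
  obtain ⟨K, hKD, hK, h1⟩ := h.meas.exists_isCompact_sdiff_lt h.fin hη
  obtain ⟨R, hR⟩ := hK.isBounded.subset_closedBall I
  obtain ⟨O, hO1, hO, -, hO2⟩ := hK.measurableSet.exists_isOpen_sdiff_lt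
    (hK.measure_ne_top (μ := volume)) hη
  have key : ∀ γ ∈ {γ : Γ | ∃ z ∈ closedBall I (R + 1), γ • z ∈ closedBall I (R + 1)},
      ∀ᶠ δ in 𝓝[>] (0 : ℝ), γ ≠ 1 →
        Disjoint (thickening δ K) (thickening δ ((fun z => γ • z) '' K)) := by
    intro γ _
    by_cases hγ : γ = 1
    · simp [hγ]
    have hc : IsCompact ((fun z => γ • z) '' K) := by
      simp only [h.act]; exact hK.image (continuous_const_smul _)
    obtain ⟨δ, hδ, hd⟩ := Disjoint.exists_thickenings (s := K) (t := (fun z => γ • z) '' K)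
      (disjoint_left.2 (by
        rintro _ h1 ⟨z, hz, rfl⟩
        exact h.free γ hγ z (hKD hz) (hKD h1))) hK hc.isClosed
    filter_upwards [Ioc_mem_nhdsGT hδ] with ε hε _
    exact hd.mono (thickening_mono hε.2 _) (thickening_mono hε.2 _)
  obtain ⟨δ, h2, hδ⟩ := (((h.finite (R + 1)).eventually_all.2 key).and
    (Ioc_mem_nhdsGT one_pos)).exists
  have hb : thickening δ K ⊆ closedBall I (R + 1) := fun z hz => by
    obtain ⟨k, hk, hd⟩ := mem_thickening_iff.1 hz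
    have := hR hk
    rw [mem_closedBall] at *
    linarith [dist_triangle z k I, hδ.2]
  refine ⟨K, thickening δ K ∩ O, hK, hKD, isOpen_thickening.inter hO,
    subset_inter (self_subset_thickening hδ.1 K) hO1, fun γ hγ z hz hz' => ?_, h1,
    (measure_mono (sdiff_subset_sdiff_left inter_subset_right)).trans_lt hO2⟩
  obtain ⟨k, hk, hd⟩ := mem_thickening_iff.1 hz.1
  exact disjoint_left.1 (h2 γ ⟨z, hb hz.1, hb hz'.1⟩ hγ) hz'.1
    (mem_thickening_iff.2 ⟨_, ⟨k, hk, rfl⟩, by rwa [h.dist_eq]⟩)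

end Pool.Agent.Lib.MP_a52643_an
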