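import Pool.Agent.Lib.MP_a52643_an.Dens

/-!
Global statements along an ultrafilter.
-/

open MeasureTheory Set Filter Topology Metric UpperHalfPlane
open scoped ENNReal MatrixGroups Pointwise NNReal ComplexConjugate ContDiff Laplacian

noncomputable section

namespace Pool.Agent.Lib.MP_a52643_an

variable {Γ : Type*} [Group Γ] [MulAction Γ ℍ] [Countable Γ] {l : Γ → SL2} {D : Set ℍ}

structure IW (Γ : Type*) [Group Γ] [MulAction Γ ℍ] (D : Set ℍ) (w : ℍ → ℝ) : Prop where
  meas : Measurable w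
  nn : ∀ z, 0 ≤ w z
  inv : ∀ (γ : Γ) z, w (γ • z) = w z
  int : IntegrableOn w D

lemma IW.le (hD : FD l D) {w : ℍ → ℝ} (h : IW Γ D w) {O : Set ℍ} (hO : MeasurableSet O)
    {c : ℝ≥0∞} (hc : c ≠ ⊤) (hc' : ∀ z, ∑' δ : Γ, O.indicator (1 : ℍ → ℝ≥0∞) (δ • z) ≤ c) :
    IntegrableOn w O ∧ ∫ z in O, w z ≤ c.toReal * ∫ z in D, w z := by
  have h1 := hD.eqv.le_of_tsum hD h.meas.ennreal_ofReal (fun γ z => by simp only [h.inv]) hO hc'
  simp only [preimage_id] at h1
  have h2 := (lintegral_ofReal_ne_top_iff_integrable h.int.1 (Eventually.of_forall h.nn)).2 h.int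
  have h3 := ENNReal.mul_ne_top hc h2
  refine ⟨(lintegral_ofReal_ne_top_iff_integrable h.meas.aestronglyMeasurable
    (Eventually.of_forall h.nn)).1 (ne_top_of_le_ne_top h3 h1), ?_⟩
  rw [integral_eq_lintegral_of_nonneg_ae (Eventually.of_forall h.nn) h.meas.aestronglyMeasurable,
    integral_eq_lintegral_of_nonneg_ae (Eventually.of_forall h.nn) h.meas.aestronglyMeasurable,
    ← ENNReal.toReal_mul]
  exact ENNReal.toReal_mono h3 h1

lemma IW.le_free (hD : FD l D) {w : ℍ → ℝ} (h : IW Γ D w) {O : Set ℍ} (hO : MeasurableSet O)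
    (hF : Free Γ O) : IntegrableOn w O ∧ ∫ z in O, w z ≤ ∫ z in D, w z := by
  simpa using h.le hD hO ENNReal.one_ne_top hF.tsum_le

structure Tau (Γ : Type*) [Group Γ] [MulAction Γ ℍ] (D : Set ℍ) (ψ : ℍ → ℝ) (B η : ℝ)
    (τ : ℂ → ℝ) (O : Set ℍ) : Prop where
  tf : TF τ
  cd : ContDiff ℝ 1 τ
  meas : MeasurableSet O
  free : Free Γ O
  fin : volume O ≠ ⊤
  zero : ∀ z ∉ O, τ (z : ℍ) = 0
  bd : ∀ z : ℍ, |D.indicator ψ z - τ z| ≤ 2 * B + 1
  l1 : ∫ z in D ∪ O, |D.indicator ψ z - τ z| ≤ η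

lemma exists_tau (hD : FD l D) {ψ : ℍ → ℝ} (hψ : Measurable ψ) {B : ℝ} (hB : ∀ z, |ψ z| ≤ B)
    {η : ℝ} (hη : 0 < η) : ∃ τ O, Tau Γ D ψ B η τ O := by
  have B0 : 0 ≤ B := (abs_nonneg _).trans (hB I)
  set t := η / (4 * B + 4)
  have t0 : 0 < t := by positivity
  obtain ⟨K, O, hK, hKD, hO, hKO, hF, h1, h2⟩ := hD.exists_free (η := ENNReal.ofReal t)
    (by simpa using t0)
  have fO : volume O ≠ ⊤ := by
    rw [← measure_inter_add_sdiff _ hK.measurableSet]
    exact ENNReal.add_ne_top.2 ⟨ne_top_of_le_ne_top hK.measure_ne_top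
      (measure_mono inter_subset_right), h2.ne_top⟩
  have : IsFiniteMeasure (volume.restrict O) := isFiniteMeasure_restrict.2 fO
  have fE : volume (D ∪ O) ≠ ⊤ := measure_union_ne_top hD.fin fO
  have : IsFiniteMeasure (volume.restrict (D ∪ O)) := isFiniteMeasure_restrict.2 fE
  obtain ⟨g, g1, g2, g3⟩ := exists_cont_approx (volume.restrict O) hψ hB t0
  obtain ⟨χ, hχ, c1, c2, c3⟩ := exists_bumpH hK hO hKO
  obtain ⟨g', g4, g5⟩ := exists_ext (isClosed_tsupport χ) hχ.sub g1
  have v0 : 0 ≤ volume.real O := measureReal_nonneg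
  set s := min 1 (t / (volume.real O + 1))
  have s0 : 0 < s := by positivity
  have tf := hχ.toTF.mul_real g4
  obtain ⟨τ, τ1, τ2, τ3⟩ := tf.cont.exists_contDiff_approx 1 (ε := fun _ => s) continuous_const
    fun _ => s0
  have e0 : ∀ z : ℍ, χ z * g' z = χ z * g z := fun z => by
    by_cases hz : (z : ℂ) ∈ tsupport χ
    · rw [g5 z hz]
    · simp [image_eq_zero_of_notMem_tsupport hz]
  have τ4 : ∀ z : ℍ, |τ z - χ z * g z| ≤ s := fun z => by rw [← e0]; exact (τ2 z).le
  have bd : ∀ z : ℍ, |D.indicator ψ z - τ z| ≤ 2 * B + 1 := fun z => by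
    have a1 : |D.indicator ψ z| ≤ B := by
      by_cases hz : z ∈ D <;> simp [hz, hB, B0]
    have a2 : |χ z * g z| ≤ 1 * B := by
      rw [abs_mul, abs_of_nonneg (hχ.nn _)]; exact mul_le_mul (c2 _) (g2 z) (abs_nonneg _) zero_le_one
    have a3 := (τ4 z).trans (min_le_left _ _)
    rw [abs_le] at *
    constructor <;> linarith
  have md : Measurable fun z => |ψ z - g z| + s := (hψ.sub g1.measurable).abs.add_const _
  have i0 : IntegrableOn (fun z => |ψ z - g z|) O := integrable_of_abs_le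
    (hψ.sub g1.measurable).abs (B := B + B) fun x => by
      rw [abs_abs]; exact (abs_sub _ _).trans (add_le_add (hB x) (g2 x))
  have i1 : Integrable (O.indicator fun z => |ψ z - g z| + s) :=
    (integrable_indicator_iff hO.measurableSet).2 (i0.add (integrable_const s))
  have mN := (hD.meas.diff hK.measurableSet).union (hO.measurableSet.diff hK.measurableSet)
  have fN : volume (D \ K ∪ O \ K) ≠ ⊤ := measure_union_ne_top h1.ne_top h2.ne_top
  have i2 : Integrable ((D \ K ∪ O \ K).indicator fun _ => 2 * B + 1) :=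
    (integrable_indicator_iff mN).2 (integrableOn_const fN)
  refine ⟨τ, O, ⟨τ1.continuous, tf.hcs.mono τ3, (closure_mono τ3).trans tf.sub⟩, τ1,
    hO.measurableSet, hF, fO, fun z hz => ?_, bd, ?_⟩
  · by_contra h
    exact hz (c3 z (subset_tsupport _ (left_ne_zero_of_mul (τ3 h))))
  calc _ ≤ ∫ z in D ∪ O, (O.indicator (fun z => |ψ z - g z| + s) z
        + (D \ K ∪ O \ K).indicator (fun _ => 2 * B + 1) z) := by
        refine setIntegral_mono_on (integrable_of_abs_le ((hψ.indicator hD.meas).sub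
          (τ1.continuous.comp continuous_coe).measurable).abs fun z => by
            rw [abs_abs]; exact bd z) (i1.add i2).integrableOn (hD.meas.union hO.measurableSet)
          fun z hz => ?_
        by_cases hk : z ∈ K
        · rw [indicator_of_mem (hKD hk), indicator_of_mem (hKO hk), indicator_of_notMem
            (by simp [hk]), add_zero]
          have := τ4 z
          rw [c1 z hk, one_mul, abs_sub_comm] at this
          linarith [abs_sub_le (ψ z) (g z) (τ z)]
        · rw [indicator_of_mem (s := D \ K ∪ O \ K) (hz.imp (⟨·, hk⟩) (⟨·, hk⟩))]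
          have : 0 ≤ O.indicator (fun z => |ψ z - g z| + s) z :=
            indicator_nonneg (fun _ _ => by positivity) _
          linarith [bd z]
    _ ≤ ∫ z, (O.indicator (fun z => |ψ z - g z| + s) z
        + (D \ K ∪ O \ K).indicator (fun _ => 2 * B + 1) z) :=
        setIntegral_le_integral (i1.add i2) (Eventually.of_forall fun z => add_nonneg
          (indicator_nonneg (fun _ _ => by positivity) _)
          (indicator_nonneg (fun _ _ => by positivity) _))
    _ = (∫ z in O, |ψ z - g z|) + volume.real O * s + volume.real (D \ K ∪ O \ K) * (2 * B + 1) := by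
        rw [integral_add i1 i2, integral_indicator hO.measurableSet, integral_indicator_const _ mN,
          integral_add i0 (integrable_const s)]
        simp
    _ ≤ t + t + (t + t) * (2 * B + 1) := by
        gcongr
        · have := min_le_right 1 (t / (volume.real O + 1))
          rw [le_div_iff₀ (by positivity)] at this
          nlinarith
        · exact (measureReal_union_le _ _).trans (add_le_add
            (ENNReal.toReal_le_of_le_ofReal t0.le h1.le) (ENNReal.toReal_le_of_le_ofReal t0.le h2.le))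
    _ = η := by simp only [t]; field_simp; ring

lemma Tau.err (hD : FD l D) {ψ : ℍ → ℝ} (hψ : Measurable ψ) {B η : ℝ} (hB : ∀ z, |ψ z| ≤ B)
    {τ : ℂ → ℝ} {O : Set ℍ} (h : Tau Γ D ψ B η τ O) {u w : ℍ → ℝ} (hu : Measurable u)
    (hw : IW Γ D w) {T s W : ℝ} (hT : 0 ≤ T) (hs : 0 ≤ s) (huw : ∀ z, |u z| ≤ T + s * w z)
    (hW : ∫ z in D, w z ≤ W) :
    |(∫ z in D, ψ z * u z) - ∫ z : ℍ, τ z * u z| ≤ T * η + (2 * B + 1) * s * (2 * W) := by
  have B0 : 0 ≤ B := (abs_nonneg _).trans (hB I)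
  have : IsFiniteMeasure (volume.restrict (D ∪ O)) :=
    isFiniteMeasure_restrict.2 (measure_union_ne_top hD.fin h.fin)
  obtain ⟨iO, bO⟩ := hw.le_free hD h.meas h.free
  have iE : IntegrableOn w (D ∪ O) := hw.int.union iO
  have bE : ∫ z in D ∪ O, w z ≤ 2 * W := by
    have := integral_mono_measure (Measure.restrict_union_le (μ := volume) D O)
      (Eventually.of_forall hw.nn) (Integrable.add_measure hw.int iO)
    rw [integral_add_measure hw.int iO] at this
    linarith
  have iu : IntegrableOn u (D ∪ O) := ((integrable_const T).add (iE.const_mul s)).mono'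
    hu.aestronglyMeasurable (Eventually.of_forall huw)
  have mτ : Measurable fun z : ℍ => τ z := (h.tf.cont.comp continuous_coe).measurable
  have mx := (hψ.indicator hD.meas).sub mτ
  have ix : IntegrableOn (fun z => |D.indicator ψ z - τ z|) (D ∪ O) :=
    integrable_of_abs_le mx.abs fun z => by rw [abs_abs]; exact h.bd z
  have b1 : ∀ z, |D.indicator ψ z| ≤ B := fun z => by by_cases hz : z ∈ D <;> simp [hz, hB, B0]
  have i1 : IntegrableOn (fun z => D.indicator ψ z * u z) (D ∪ O) :=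
    iu.bdd_mul (hψ.indicator hD.meas).aestronglyMeasurable (Eventually.of_forall b1)
  have i2 : IntegrableOn (fun z : ℍ => τ z * u z) (D ∪ O) :=
    iu.bdd_mul (c := B + (2 * B + 1)) mτ.aestronglyMeasurable (Eventually.of_forall fun z => by
      have := abs_sub (D.indicator ψ z) (D.indicator ψ z - τ z)
      rw [sub_sub_cancel] at this
      exact this.trans (add_le_add (b1 z) (h.bd z)))
  have e1 : ∫ z in D, ψ z * u z = ∫ z in D ∪ O, D.indicator ψ z * u z := by
    simp only [← indicator_mul_left]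
    rw [setIntegral_indicator hD.meas, inter_eq_right.2 subset_union_left]
  have e2 : ∫ z : ℍ, τ z * u z = ∫ z in D ∪ O, τ z * u z :=
    (setIntegral_eq_integral_of_forall_compl_eq_zero fun z hz => by
      rw [h.zero z fun h' => hz (Or.inr h'), zero_mul]).symm
  rw [e1, e2, ← integral_sub i1 i2]
  calc _ ≤ ∫ z in D ∪ O, (T * |D.indicator ψ z - τ z| + (2 * B + 1) * s * w z) := by
        rw [← Real.norm_eq_abs]
        refine norm_integral_le_of_norm_le ((ix.const_mul _).add (iE.const_mul _))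
          (Eventually.of_forall fun z => ?_)
        rw [← sub_mul, Real.norm_eq_abs, abs_mul]
        have := mul_le_mul_of_nonneg_left (huw z) (abs_nonneg (D.indicator ψ z - τ z))
        have := mul_le_mul_of_nonneg_right (h.bd z) (mul_nonneg hs (hw.nn z))
        nlinarith
    _ ≤ _ := by
        rw [integral_add (ix.const_mul _) (iE.const_mul _), integral_const_mul, integral_const_mul]
        gcongr
        exact h.l1

lemma tendsto_of_tau {J : Type} {L : Filter J} (hD : FD l D) {u w : J → ℍ → ℝ} {u0 w0 : ℍ → ℝ}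
    (hu : ∀ j, Measurable (u j)) (hu0 : Measurable u0) (hw : ∀ j, IW Γ D (w j)) (hw0 : IW Γ D w0)
    (hb : ∀ s > 0, ∃ T ≥ 0, (∀ j z, |u j z| ≤ T + s * w j z) ∧ ∀ z, |u0 z| ≤ T + s * w0 z)
    {M : ℝ} (hM : ∀ᶠ j in L, ∫ z in D, w j z ≤ M)
    (ht : ∀ τ : ℂ → ℝ, TF τ → ContDiff ℝ 1 τ →
      Tendsto (fun j => ∫ z : ℍ, τ z * u j z) L (𝓝 (∫ z : ℍ, τ z * u0 z)))
    {ψ : ℍ → ℝ} (hψ : Measurable ψ) {B : ℝ} (hB : ∀ z, |ψ z| ≤ B) :
    Tendsto (fun j => ∫ z in D, ψ z * u j z) L (𝓝 (∫ z in D, ψ z * u0 z)) := by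
  have B0 : 0 ≤ B := (abs_nonneg _).trans (hB I)
  rw [Metric.tendsto_nhds]
  intro ε hε
  set W := |M| + |∫ z in D, w0 z| + 1
  have W0 : 0 < W := by positivity
  set s := ε / 5 / ((2 * B + 1) * (2 * W))
  have s0 : 0 < s := by positivity
  obtain ⟨T, hT, h1, h2⟩ := hb s s0
  obtain ⟨τ, O, hτ⟩ := exists_tau hD hψ hB (η := ε / 5 / (T + 1)) (by positivity)
  have e1 : (2 * B + 1) * s * (2 * W) = ε / 5 := by simp only [s]; field_simp
  have e2 : T * (ε / 5 / (T + 1)) ≤ ε / 5 := by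
    rw [← mul_div_assoc, div_le_iff₀ (by positivity)]; nlinarith
  have a0 := hτ.err hD hψ hB hu0 hw0 hT s0.le h2 (W := W) (by
    linarith [le_abs_self (∫ z in D, w0 z), abs_nonneg M])
  filter_upwards [hM, Metric.tendsto_nhds.1 (ht τ hτ.tf hτ.cd) (ε / 5) (by positivity)] with j h3 h4
  have a1 := hτ.err hD hψ hB (hu j) (hw j) hT s0.le (h1 j) (W := W) (by
    linarith [le_abs_self M, abs_nonneg (∫ z in D, w0 z)])
  rw [Real.dist_eq, abs_lt] at h4 ⊢
  rw [abs_le] at a0 a1
  constructor <;> linarith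

structure Eig (Γ : Type*) [Group Γ] [MulAction Γ ℍ] (D : Set ℍ) (φ : ℍ → ℝ) (lam : ℝ) : Prop where
  inv : ∀ (γ : Γ) z, φ (γ • z) = φ z
  sm : ContDiffOn ℝ ∞ (fun z => φ (ofComplex z)) UH
  eig : ∀ z ∈ UH, z.im ^ 2 * Δ (fun z => φ (ofComplex z)) z = -lam * φ (ofComplex z)
  int : IntegrableOn (fun z => φ z ^ 4) D

omit [Countable Γ] in
lemma Eig.cont {φ : ℍ → ℝ} {lam : ℝ} (h : Eig Γ D φ lam) : Continuous φ := by
  have := h.sm.continuousOn.comp_continuous continuous_coe fun z => z.im_pos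
  simpa only [Function.comp_def, ofComplex_apply] using this

omit [Countable Γ] in
lemma Eig.iw {φ : ℍ → ℝ} {lam : ℝ} (h : Eig Γ D φ lam) : IW Γ D fun z => φ z ^ 4 :=
  ⟨(h.cont.pow 4).measurable, fun z => by positivity, fun γ z => by simp only [h.inv], h.int⟩

omit [Countable Γ] in
lemma Eig.ladder (hD : FD l D) {φ : ℍ → ℝ} {lam : ℝ} (hl : 0 < lam) (h : Eig Γ D φ lam) :
    ∃ Φ : ℤ → V → ℂ, Ladder lam Φ ∧ (∀ z : ℍ, ph Φ 0 z = φ z) ∧
      ∀ γ n, Inv (ea (l γ)) (eb (l γ)) (ec (l γ)) (ed (l γ)) (Φ n) := by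
  obtain ⟨Φ, h1, h2, h3⟩ := exists_ladder hl h.sm h.eig
  refine ⟨Φ, h1, fun z => by simp [ph, h2, pr], fun γ => h3 _ _ _ _ (det_eq _) fun z hz => ?_⟩
  have := coe_act (l γ) ⟨z, hz⟩
  rw [← hD.act] at this
  rw [← show ((γ • (⟨z, hz⟩ : ℍ) : ℍ) : ℂ) = _ from this, ofComplex_apply, h.inv,
    ofComplex_apply_of_im_pos hz]

theorem core_pos {J : Type} {U : Ultrafilter J} (hD : FD l D) {φ : J → ℍ → ℝ} {lam : J → ℝ}
    (hl : ∀ j, 0 < lam j) (ht : Tendsto lam U atTop) (h : ∀ j, Eig Γ D (φ j) (lam j)) {M : ℝ}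
    (hM : ∀ᶠ j in (U : Filter J), ∫ z in D, φ j z ^ 4 ≤ M) :
    ∃ f : ℍ → ℝ, Measurable f ∧ IntegrableOn (fun z => f z ^ 2) D ∧ 3 * ∫ z in D, f z ^ 2 ≤ M ∧
      ∀ (ψ : ℍ → ℝ) (B : ℝ), Measurable ψ → (∀ z, |ψ z| ≤ B) →
        Tendsto (fun j => ∫ z in D, ψ z * φ j z ^ 2) U (𝓝 (∫ z in D, ψ z * f z)) ∧
        Tendsto (fun j => ∫ z in D, ψ z * φ j z ^ 3) U (𝓝 0) := by
  choose Φ hL h0 hi using fun j => (h j).ladder hD (hl j)
  have M0 : 0 ≤ M := by
    obtain ⟨j, hj⟩ := hM.exists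
    exact (integral_nonneg fun z => by positivity).trans hj
  have hF : Fam U lam Φ := by
    refine ⟨hL, ht, LB_four hL ht ?_⟩
    have : LH U fun j z => ‖ph (Φ j) 0 z‖ ^ 4 := by
      intro K hK hU
      have hK' := isEmbedding_coe.isInducing.isCompact_preimage' hK fun z hz => ⟨⟨z, hU hz⟩, rfl⟩
      obtain ⟨c, hc, hc'⟩ := hD.tsum_compact hK'
      refine ⟨c.toReal * M, hM.mono fun j hj => ?_⟩
      rw [← measurePreserving_coe.setIntegral_preimage_emb measurableEmbedding_coe]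
      simp only [h0, Complex.norm_real, Real.norm_eq_abs, Even.pow_abs (by decide : Even 4)]
      exact ((h j).iw.le hD hK'.measurableSet hc hc').2.trans (by gcongr)
    intro R
    obtain ⟨C, hC⟩ := this.lb (fun j z => by positivity)
      (fun j => ((hL j).cd_ph 0).continuousOn.norm.pow 4) R
    refine ⟨C, hC.mono fun j hj => le_of_eq_of_le ?_ hj⟩
    refine setIntegral_congr_fun (measurableSet_KB R) fun v hv => ?_
    simp only [(hL j).norm_ph 0 (KB_subset_Om R hv)]
  obtain ⟨μ, hμ⟩ := hF.exists_isLim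
  have := hμ.lf
  have pw : ∀ {ι : Type} [Fintype ι] [DecidableEq ι], Fintype.card ι ≤ 4 → ∀ {τ : ℂ → ℝ}, TF τ →
      Tendsto (fun j => ∫ z : ℍ, τ z * φ j z ^ Fintype.card ι) U
        (𝓝 (QQ (ι := ι) U Φ (fun z => τ z) 1).re) := by
    intro ι _ _ hι τ hτ
    refine ((Complex.continuous_re.tendsto _).comp (hF.tendsto_QQ hι hτ.ofReal 1)).congr fun j => ?_
    simp only [Function.comp, GG_one, integral_hyp_coe, h0, ← Complex.ofReal_pow,
      ← Complex.ofReal_mul, integral_complex_ofReal, Complex.ofReal_re]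
  have p2 : ∀ {τ : ℂ → ℝ}, TF τ →
      Tendsto (fun j => ∫ z : ℍ, τ z * φ j z ^ 2) U (𝓝 (∫ v, τ (pr v) ∂μ)) := by
    intro τ hτ
    have := hF.tendsto_GR hμ hτ 1
    simp only [Polynomial.eval_one, one_mul, GR, map_one, GG_one, integral_hyp_coe, h0,
      ← Complex.ofReal_pow, Complex.ofReal_re, Fintype.card_fin] at this
    exact this
  have w1 : ∀ χ, TF1 χ → WB μ χ (QQ (ι := Fin 4) U Φ (fun z => χ z) 1).re := by
    intro χ hχ ψ hψ
    refine le_of_tendsto_of_tendsto' (((p2 (hχ.toTF.mul_real hψ)).const_mul 2).sub_const _)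
      (pw (by simp) hχ.toTF) fun j => ?_
    have ii : ∀ {u : ℍ → ℝ}, Continuous u → Integrable fun z : ℍ => χ z * u z := fun hu =>
      ((hχ.cont.comp continuous_coe).mul hu).integrable_of_hasCompactSupport
        hχ.toTF.hcs_coe.mul_right
    have c := (h j).cont
    have i1 := (ii (u := fun z => ψ z * φ j z ^ 2) (by fun_prop)).const_mul 2
    have i2 := ii (u := fun z => ψ z ^ 2) (by fun_prop)
    simp only [mul_assoc]
    rw [integral_hyp_coe, ← integral_const_mul, ← integral_sub i1 i2]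
    refine integral_mono (i1.sub i2) (ii (by fun_prop)) fun z => ?_
    have := mul_nonneg (hχ.nn z) (sq_nonneg (φ j z ^ 2 - ψ z))
    simp only [Fintype.card_fin]
    nlinarith
  have w2 : ∀ χ, FC Γ χ → (QQ (ι := Fin 4) U Φ (fun z => χ z) 1).re ≤ M := by
    rintro χ ⟨hχ, c1, O, hO, hfr, c2⟩
    refine le_of_tendsto (pw (by simp) hχ.toTF) (hM.mono fun j hj => ?_)
    obtain ⟨i1, b1⟩ := (h j).iw.le_free hD hO hfr
    refine le_trans ?_ (b1.trans hj)
    rw [← setIntegral_eq_integral_of_forall_compl_eq_zero (s := O) fun z hz => by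
      rw [image_eq_zero_of_notMem_tsupport fun h' => hz (c2 z h'), zero_mul]]
    exact integral_mono_of_nonneg
      (Eventually.of_forall fun z => mul_nonneg (hχ.nn _) ((h j).iw.nn z))
      i1 (Eventually.of_forall fun z => mul_le_of_le_one_left ((h j).iw.nn z) (c1 _))
  obtain ⟨f, hA⟩ := exists_adm hF hμ hD (fun γ j n => hi j γ n) (fun χ hχ => ⟨_, w1 χ hχ⟩)
    (C := M) fun χ hχ ψ hψ => (w1 χ hχ.1 ψ hψ).trans (w2 χ hχ)
  obtain ⟨n1, n2, n3⟩ := hA.nc hμ.ae_Om
  have sq := hμ.sq_le hD hA.mf hA.dens (C := M / 3) fun χ hχ ψ hψ => by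
    linarith [local_four hF hμ hχ.1 n1 n2 hψ, w2 χ hχ]
  have mf := hA.mf.ennreal_toReal
  have iw : IW Γ D fun z => (f z).toReal ^ 2 := ⟨mf.pow_const 2, fun z => by positivity,
    fun γ z => by simp only [hA.inv], by
      simpa only [ENNReal.toReal_pow, IntegrableOn] using
        integrable_toReal_of_lintegral_ne_top (hA.mf.pow_const 2).aemeasurable hA.sq⟩
  have fl : ∀ᵐ z : ℍ, f z < ⊤ := by
    have := hμ.lf_muH
    have e := Measure.rnDeriv_withDensity volume hA.mf
    rw [← hA.dens] at e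
    filter_upwards [e, Measure.rnDeriv_lt_top (muH μ) volume] with z h1 h2
    exact h1 ▸ h2
  refine ⟨fun z => (f z).toReal, mf, iw.int, ?_, fun ψ B hψ hB => ⟨?_, ?_⟩⟩
  · simp only [← ENNReal.toReal_pow]
    rw [integral_toReal (hA.mf.pow_const 2).aemeasurable (ae_restrict_of_ae
      (fl.mono fun z hz => ENNReal.pow_lt_top hz))]
    linarith [ENNReal.toReal_le_of_le_ofReal (by positivity) sq]
  · refine tendsto_of_tau hD (u := fun j z => φ j z ^ 2)
      (fun j => ((h j).cont.pow 2).measurable) mf (fun j => (h j).iw) iw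
      (fun s hs => ?_) hM (fun τ hτ _ => ?_) hψ hB
    · have key : ∀ x : ℝ, |x| ≤ 1 / s + s * x ^ 2 := fun x => by
        have e : 1 / s + s * |x| ^ 2 - 2 * |x| = (1 - s * |x|) ^ 2 / s := by field_simp; ring
        have : 0 ≤ (1 - s * |x|) ^ 2 / s := by positivity
        rw [← sq_abs x]; linarith [abs_nonneg x]
      exact ⟨1 / s, by positivity, fun j z => (key _).trans (le_of_eq (by ring)), fun z => key _⟩
    · convert p2 hτ using 2
      rw [← hμ.integral_muH hτ.cont.measurable, muH, hA.dens,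
        integral_withDensity_eq_integral_toReal_smul hA.mf fl]
      simp only [smul_eq_mul, mul_comm]
  · have := tendsto_of_tau hD (u := fun j z => φ j z ^ 3) (u0 := fun _ => 0)
      (fun j => ((h j).cont.pow 3).measurable)
      measurable_const (fun j => (h j).iw) iw (fun s hs => ?_) hM (fun τ hτ hd => ?_) hψ hB
    · simpa using this
    · refine ⟨(1 / s) ^ 3, by positivity, fun j z => ?_, fun z => by simp; positivity⟩
      rw [abs_pow, ← Even.pow_abs (by decide : Even 4)]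
      have x0 := abs_nonneg (φ j z)
      rcases le_total |φ j z| (1 / s) with h1 | h1
      · exact (pow_le_pow_left₀ x0 h1 3).trans (le_add_of_nonneg_right (by positivity))
      · rw [div_le_iff₀ hs] at h1
        have := mul_le_mul_of_nonneg_left h1 (pow_nonneg x0 3)
        have : 0 ≤ (1 / s) ^ 3 := by positivity
        nlinarith
    · have := pw (ι := Fin 3) (by simp) hτ
      rw [local_three hF hμ n3 hτ hd] at this
      simpa using this

omit [Countable Γ] in
lemma eig_zero (D : Set ℍ) : Eig Γ D (fun _ => 0) 1 :=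
  ⟨fun _ _ => rfl, contDiffOn_const, fun z _ => by simp, by simp⟩

theorem core {J : Type} {U : Ultrafilter J} (hD : FD l D) {φ : J → ℍ → ℝ} {lam : J → ℝ}
    (ht : Tendsto lam U atTop) (h : ∀ j, Eig Γ D (φ j) (lam j)) {M : ℝ}
    (hM : ∀ᶠ j in (U : Filter J), ∫ z in D, φ j z ^ 4 ≤ M) :
    ∃ f : ℍ → ℝ, Measurable f ∧ IntegrableOn (fun z => f z ^ 2) D ∧ 3 * ∫ z in D, f z ^ 2 ≤ M ∧
      ∀ (ψ : ℍ → ℝ) (B : ℝ), Measurable ψ → (∀ z, |ψ z| ≤ B) →
        Tendsto (fun j => ∫ z in D, ψ z * φ j z ^ 2) U (𝓝 (∫ z in D, ψ z * f z)) ∧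
        Tendsto (fun j => ∫ z in D, ψ z * φ j z ^ 3) U (𝓝 0) := by
  have ev := ht.eventually_gt_atTop 0
  obtain ⟨f, h1, h2, h3, h4⟩ := core_pos (U := U) hD (M := M)
    (φ := fun j => if 0 < lam j then φ j else fun _ => 0)
    (lam := fun j => if 0 < lam j then lam j else 1)
    (fun j => by split_ifs with h' <;> simp [h']) (ht.congr' (ev.mono fun j hj => by simp [hj]))
    (fun j => by
      split_ifs
      · exact h j
      · exact eig_zero D)
    (by filter_upwards [ev, hM] with j h1 h2; simpa [h1] using h2)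
  exact ⟨f, h1, h2, h3, fun ψ B hψ hB =>
    ⟨(h4 ψ B hψ hB).1.congr' (ev.mono fun j hj => by simp [hj]),
      (h4 ψ B hψ hB).2.congr' (ev.mono fun j hj => by simp [hj])⟩⟩

lemma exists_ultra {p : ℕ → Prop} (h : ¬∀ᶠ j in atTop, p j) :
    ∃ U : Ultrafilter ℕ, (U : Filter ℕ) ≤ atTop ∧ ∀ᶠ j in (U : Filter ℕ), ¬p j := by
  have := frequently_iff_neBot.1 (not_eventually.1 h)
  obtain ⟨U, hU⟩ := Ultrafilter.exists_le (atTop ⊓ 𝓟 {j | ¬p j})
  exact ⟨U, hU.trans inf_le_left, le_principal_iff.1 (hU.trans inf_le_right)⟩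

theorem fourth_FD (hD : FD l D) {φ : ℕ → ℍ → ℝ} {lam : ℕ → ℝ} (ht : Tendsto lam atTop atTop)
    (h : ∀ j, Eig Γ D (φ j) (lam j)) (hn : ∀ j, ∫ z in D, φ j z ^ 2 = 1) {ψ : ℍ → ℝ} {B : ℝ}
    (hψ : Measurable ψ) (hB : ∀ z, |ψ z| ≤ B) (h0 : ∫ z in D, ψ z = 0)
    (h1 : ∫ z in D, ψ z ^ 2 ≤ 1) {ε : ℝ} (hε : 0 < ε) : ∀ᶠ j in atTop,
      3 / volume.real D + 3 * (∫ z in D, ψ z * φ j z ^ 2) ^ 2 - ε ≤ ∫ z in D, φ j z ^ 4 := by
  by_contra hc
  obtain ⟨U, hU, hU'⟩ := exists_ultra hc
  have : IsFiniteMeasure (volume.restrict D) := isFiniteMeasure_restrict.2 hD.fin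
  have V0 : 0 < volume.real D := by
    refine ENNReal.toReal_pos (fun e => ?_) hD.fin
    have := hn 0
    rw [Measure.restrict_eq_zero.2 e, integral_zero_measure] at this
    exact zero_ne_one this
  have b : ∀ j, |∫ z in D, ψ z * φ j z ^ 2| ≤ B := fun j => by
    have i2 : IntegrableOn (fun z => φ j z ^ 2) D := by
      by_contra h'
      have := hn j
      rw [integral_undef h'] at this
      exact zero_ne_one this
    rw [← mul_one B, ← hn j, ← integral_const_mul, ← Real.norm_eq_abs]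
    refine norm_integral_le_of_norm_le (i2.const_mul _) (Eventually.of_forall fun z => ?_)
    rw [norm_mul, Real.norm_of_nonneg (sq_nonneg (φ j z))]
    exact mul_le_mul_of_nonneg_right (hB z) (sq_nonneg _)
  have t := tendsto_ul (U := U) (f := fun j => ∫ z in D, ψ z * φ j z ^ 2)
    (Asymptotics.IsBigO.of_bound B (Eventually.of_forall fun j => by simpa using b j))
  set x := ul U fun j => ∫ z in D, ψ z * φ j z ^ 2
  obtain ⟨f, m, i, q, hf⟩ := core (U := U) hD (ht.mono_left hU) h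
    (M := 3 / volume.real D + 3 * x ^ 2 - ε / 2) (by
      filter_upwards [hU', ((t.pow 2).const_mul 3).eventually
        (gt_mem_nhds (lt_add_of_pos_right _ (half_pos hε)))] with j h2 h3
      linarith [not_le.1 h2])
  have e1 : x = ∫ z in D, ψ z * f z := tendsto_nhds_unique t (hf ψ B hψ hB).1
  have e2 : ∫ z in D, f z = 1 := by
    have := (hf (fun _ => 1) 1 measurable_const (by simp)).1
    simp only [one_mul, hn] at this
    exact tendsto_nhds_unique this tendsto_const_nhds |>.symm ▸ rfl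
  have i1 : IntegrableOn f D := ((integrable_const 1).add i).mono' m.aestronglyMeasurable
    (Eventually.of_forall fun z => by
      rw [Real.norm_eq_abs, Pi.add_apply, ← sq_abs]; nlinarith [sq_nonneg (|f z| - 1)])
  have i2 : IntegrableOn ψ D := integrable_of_abs_le hψ hB
  have i3 : IntegrableOn (fun z => ψ z * f z) D :=
    i1.bdd_mul hψ.aestronglyMeasurable (Eventually.of_forall hB)
  have i4 : IntegrableOn (fun z => ψ z ^ 2) D := integrable_of_abs_le (hψ.pow_const 2) (B := B ^ 2)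
    fun z => by rw [abs_pow]; exact pow_le_pow_left₀ (abs_nonneg _) (hB z) 2
  set c := 1 / volume.real D
  have key : ∫ z in D, (2 * c * f z + 2 * x * (ψ z * f z) - c ^ 2 - 2 * c * x * ψ z
      - x ^ 2 * ψ z ^ 2) ≤ ∫ z in D, f z ^ 2 :=
    integral_mono (((((i1.const_mul _).add (i3.const_mul _)).sub (integrable_const _)).sub
      (i2.const_mul _)).sub (i4.const_mul _)) i fun z => by
        simp only; nlinarith [sq_nonneg (f z - c - x * ψ z)]
  rw [integral_sub (by exact ((((i1.const_mul _).add (i3.const_mul _)).sub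
      (integrable_const _)).sub (i2.const_mul _))) (i4.const_mul _),
    integral_sub (by exact (((i1.const_mul _).add (i3.const_mul _)).sub (integrable_const _)))
      (i2.const_mul _), integral_sub (by exact (i1.const_mul _).add (i3.const_mul _))
      (integrable_const _), integral_add (i1.const_mul _) (i3.const_mul _), integral_const_mul,
    integral_const_mul, integral_const_mul, integral_const_mul, setIntegral_const, ← e1, e2, h0,
    smul_eq_mul] at key
  have e3 : volume.real D * c ^ 2 = c := by simp only [c]; field_simp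
  have e4 : 3 / volume.real D = 3 * c := by simp only [c]; ring
  nlinarith [mul_le_mul_of_nonneg_left h1 (sq_nonneg x)]

theorem third_FD (hD : FD l D) {φ : ℕ → ℍ → ℝ} {lam : ℕ → ℝ} (ht : Tendsto lam atTop atTop)
    (h : ∀ j, Eig Γ D (φ j) (lam j)) {M : ℝ} (hM : ∀ j, ∫ z in D, φ j z ^ 4 ≤ M) {ψ : ℍ → ℝ}
    {B : ℝ} (hψ : Measurable ψ) (hB : ∀ z, |ψ z| ≤ B) :
    Tendsto (fun j => ∫ z in D, ψ z * φ j z ^ 3) atTop (𝓝 0) := by
  rw [tendsto_iff_ultrafilter]
  intro U hU
  obtain ⟨f, -, -, -, hf⟩ := core (U := U) hD (ht.mono_left hU) h (Eventually.of_forall hM)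
  exact (hf ψ B hψ hB).2

end Pool.Agent.Lib.MP_a52643_an
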