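import Pool.Agent.Lib.MP_a52643_an.H53Defs

open Complex MeasureTheory Set Filter Topology Metric
open UpperHalfPlane (ofComplex)
open scoped ComplexConjugate ContDiff ENNReal UpperHalfPlane Laplacian Real

noncomputable section

namespace Pool.Agent.Lib.MP_a52643_an.H53

variable {J : Type} {l : Filter J} {F G : J → ℂ → ℂ}

lemma Tst.mono {n m : ℕ} {τ : ℂ → ℂ} (h : Tst n τ) (hm : m ≤ n) : Tst m τ :=
  ⟨h.cd.of_le (by exact_mod_cast hm), h.hcs, h.sub⟩

lemma Tst.tf {n : ℕ} {τ : ℂ → ℂ} (h : Tst n τ) : TF τ := ⟨h.cd.continuous, h.hcs, h.sub⟩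

lemma Tst.mul {n : ℕ} {τ g : ℂ → ℂ} (h : Tst n τ) (hg : ContDiffOn ℝ n g UH) :
    Tst n fun z => τ z * g z := by
  refine ⟨contDiff_iff_contDiffAt.2 fun w => ?_, h.hcs.mul_right,
    (tsupport_mul_subset_left (f := τ) (g := g)).trans h.sub⟩
  by_cases hw : w ∈ tsupport τ
  · exact h.cd.contDiffAt.mul (hg.contDiffAt (isOpen_UH.mem_nhds (h.sub hw)))
  · refine (contDiffAt_const (c := (0 : ℂ))).congr_of_eventuallyEq ?_
    filter_upwards [notMem_tsupport_iff_eventuallyEq.1 hw] with y hy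
    simp [hy]

lemma Tst.add {n : ℕ} {τ σ : ℂ → ℂ} (h : Tst n τ) (h' : Tst n σ) :
    Tst n fun z => τ z + σ z :=
  ⟨h.cd.add h'.cd, h.hcs.add h'.hcs, (tsupport_add τ σ).trans (union_subset h.sub h'.sub)⟩

lemma tst_fderiv_a0 {n : ℕ} {τ : ℂ → ℂ} (h : Tst (n + 1) τ) (v : ℂ) :
    Tst n fun z => fderiv ℝ τ z v :=
  ⟨(h.cd.fderiv_right (m := n) (by exact_mod_cast le_rfl)).clm_apply contDiff_const,
    h.hcs.fderiv_apply ℝ v, (tsupport_fderiv_apply_subset ℝ v).trans h.sub⟩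

lemma Tst.px {n : ℕ} {τ : ℂ → ℂ} (h : Tst (n + 1) τ) : Tst n (px τ) := tst_fderiv_a0 h 1

lemma Tst.py {n : ℕ} {τ : ℂ → ℂ} (h : Tst (n + 1) τ) : Tst n (py τ) := tst_fderiv_a0 h I

lemma tf_mul {τ g : ℂ → ℂ} (h : TF τ) (hg : ContinuousOn g UH) : TF fun z => τ z * g z := by
  have h1 := (tsupport_mul_subset_left (f := τ) (g := g)).trans h.sub
  exact ⟨(h.cont.continuousOn.mul hg).continuous_of_tsupport_subset isOpen_UH h1,
    h.hcs.mul_right, h1⟩

lemma tf_integrable {τ g : ℂ → ℂ} (h : TF τ) (hg : ContinuousOn g UH) :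
    Integrable fun z => τ z * g z :=
  (tf_mul h hg).cont.integrable_of_hasCompactSupport (tf_mul h hg).hcs

/-- integrals against a test function only see the upper half plane -/
lemma tf_congr {τ f g : ℂ → ℂ} (h : TF τ) (e : ∀ z ∈ UH, f z = g z) :
    ∫ z, τ z * f z = ∫ z, τ z * g z := by
  congr 1
  funext z
  by_cases hz : z ∈ UH
  · rw [e z hz]
  · rw [image_eq_zero_of_notMem_tsupport fun h' => hz (h.sub h'), zero_mul, zero_mul]

lemma tf_hyp {τ : ℂ → ℂ} (h : TF τ) (f : ℂ → ℂ) :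
    ∫ z, τ z * f z ∂hyp = ∫ z, τ z * ((z.im : ℂ) ^ 2)⁻¹ * f z := by
  rw [integral_hyp_weight, setIntegral_eq_integral_of_forall_compl_eq_zero]
  · congr 1
    funext z
    rw [real_smul]
    push_cast
    ring
  · intro z hz
    simp [image_eq_zero_of_notMem_tsupport fun h' => hz (h.sub h')]

lemma integral_fderiv_a0 {τ : ℂ → ℂ} (h : Tst 1 τ) (v : ℂ) : ∫ z, fderiv ℝ τ z v = 0 := by
  have h1 := (tst_fderiv_a0 (n := 0) h v).tf
  have h2 := integral_mul_fderiv_eq_neg_fderiv_mul_of_integrable (μ := (volume : Measure ℂ))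
    (f := fun _ : ℂ => (1 : ℂ)) (g := τ) (v := v) (by simp)
    (by simpa using h1.cont.integrable_of_hasCompactSupport h1.hcs)
    (by simpa using h.tf.cont.integrable_of_hasCompactSupport h.hcs)
    (fun _ _ => differentiableAt_const _)
    (fun x _ => (h.cd.differentiable (by simp)) x)
  simpa using h2

lemma integral_px {τ : ℂ → ℂ} (h : Tst 1 τ) : ∫ z, px τ z = 0 := integral_fderiv_a0 h 1

lemma integral_py {τ : ℂ → ℂ} (h : Tst 1 τ) : ∫ z, py τ z = 0 := integral_fderiv_a0 h I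

lemma contOn_px {f : ℂ → ℂ} (hf : ContDiffOn ℝ 1 f UH) : ContinuousOn (px f) UH :=
  (hf.continuousOn_fderiv_of_isOpen isOpen_UH le_rfl).clm_apply continuousOn_const

lemma contOn_py {f : ℂ → ℂ} (hf : ContDiffOn ℝ 1 f UH) : ContinuousOn (py f) UH :=
  (hf.continuousOn_fderiv_of_isOpen isOpen_UH le_rfl).clm_apply continuousOn_const

lemma dz_eq (f : ℂ → ℂ) (z : ℂ) : dz f z = (px f z - I * py f z) / 2 := by
  simp [dz, wp, px, py]

lemma dzb_eq (f : ℂ → ℂ) (z : ℂ) : dzb f z = (px f z + I * py f z) / 2 := by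
  simp [dzb, wm, px, py]

lemma cdOn_im (n : ℕ) : ContDiffOn ℝ n (fun z : ℂ => (z.im : ℂ)) UH :=
  (ofRealCLM.comp imCLM).contDiff.contDiffOn

lemma cdOn_im_inv (n : ℕ) : ContDiffOn ℝ n (fun z : ℂ => (z.im : ℂ)⁻¹) UH :=
  (cdOn_im n).inv fun _ hz => ofReal_ne_zero.2 (ne_of_gt hz)

/-- the box -/
def bx (M : ℝ) : Set ℂ := {z | |z.re| ≤ M ∧ M⁻¹ ≤ z.im ∧ z.im ≤ M}

lemma bx_compact (M : ℝ) : IsCompact (bx M) := by
  refine isCompact_of_isClosed_isBounded ?_
    ((isBounded_closedBall (x := (0 : ℂ)) (r := M + (|M| + |M⁻¹|))).subset fun z hz => ?_)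
  · exact (isClosed_le continuous_re.abs continuous_const).inter
      ((isClosed_le continuous_const continuous_im).inter
        (isClosed_le continuous_im continuous_const))
  · obtain ⟨h1, h2, h3⟩ := hz
    rw [mem_closedBall_zero_iff]
    refine (norm_le_abs_re_add_abs_im z).trans (add_le_add h1 (abs_le.2 ⟨?_, ?_⟩))
    · linarith [neg_abs_le M⁻¹, abs_nonneg M]
    · linarith [le_abs_self M, abs_nonneg M⁻¹]

lemma bx_convex (M : ℝ) : Convex ℝ (bx M) := by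
  have : bx M = ({z : ℂ | -M ≤ z.re} ∩ {z : ℂ | z.re ≤ M}) ∩
      ({z : ℂ | M⁻¹ ≤ z.im} ∩ {z : ℂ | z.im ≤ M}) := by
    ext z
    simp [bx, abs_le]
  rw [this]
  exact ((convex_halfSpace_re_ge _).inter (convex_halfSpace_re_le _)).inter
    ((convex_halfSpace_im_ge _).inter (convex_halfSpace_im_le _))

lemma bx_sub {M : ℝ} (hM : 1 ≤ M) : bx M ⊆ UH := fun _ hz =>
  lt_of_lt_of_le (inv_pos.2 (by linarith)) hz.2.1

lemma exists_bx {K : Set ℂ} (hK : IsCompact K) (hU : K ⊆ UH) : ∃ M : ℕ, 2 ≤ M ∧ K ⊆ bx M := by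
  obtain ⟨R, hR⟩ := hK.exists_bound_of_continuousOn (f := fun z : ℂ => z) continuousOn_id
  obtain ⟨C, hC⟩ := hK.exists_bound_of_continuousOn (f := fun z : ℂ => z.im⁻¹)
    (continuous_im.continuousOn.inv₀ fun z hz => ne_of_gt (hU hz))
  obtain ⟨M, hM⟩ := exists_nat_ge (max (max R C) 2)
  have h1 : R ≤ M := ((le_max_left _ _).trans (le_max_left _ _)).trans hM
  have h2 : C ≤ M := ((le_max_right _ _).trans (le_max_left _ _)).trans hM
  have h3 : (2 : ℝ) ≤ M := (le_max_right _ _).trans hM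
  refine ⟨M, by exact_mod_cast h3, fun z hz => ⟨?_, ?_, ?_⟩⟩
  · exact ((abs_re_le_norm z).trans (hR z hz)).trans h1
  · exact (inv_le_comm₀ (by linarith) (hU hz)).2 (((le_abs_self _).trans (hC z hz)).trans h2)
  · exact ((im_le_norm z).trans (hR z hz)).trans h1

lemma cball_sub_a0 {K : Set ℂ} {ε ε0 : ℝ} (hε : ε ≤ ε0) {z : ℂ} (hz : z ∈ K) :
    closedBall z ε ⊆ cthickening ε0 K :=
  (closedBall_subset_closedBall hε).trans (closedBall_subset_cthickening hz ε0)

lemma int_ball_a0 {f : ℂ → ℂ} (hf : ContinuousOn f UH) {z : ℂ} {ε : ℝ}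
    (h : closedBall z ε ⊆ UH) : IntegrableOn (fun x => ‖f x‖) (ball z ε) :=
  ((hf.norm.mono h).integrableOn_compact (isCompact_closedBall z ε)).mono_set
    ball_subset_closedBall

lemma ball_le_a0 {f : ℂ → ℂ} {u : ℂ → ℝ} {z : ℂ} {ε : ℝ} (hu : IntegrableOn u (ball z ε))
    (h : ∀ x ∈ closedBall z ε, ‖f x‖ ≤ u x) : ∫ x in ball z ε, ‖f x‖ ≤ ∫ x in ball z ε, u x :=
  integral_mono_of_nonneg (Eventually.of_forall fun _ => norm_nonneg _) hu
    ((ae_restrict_mem measurableSet_ball).mono fun x hx => h x (ball_subset_closedBall hx))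

lemma DB.of_le (hG : DB l G) (cG : ∀ j, ContinuousOn (G j) UH)
    (h : ∀ j, ∀ z ∈ UH, ‖F j z‖ ≤ ‖G j z‖) : DB l F := by
  intro K hK hU
  obtain ⟨C, ε0, h0, h1, h2⟩ := hG K hK hU
  refine ⟨C, ε0, h0, h1, fun ε e0 e1 => (h2 ε e0 e1).mono fun j hj z hz => ?_⟩
  have h3 := (cball_sub_a0 e1 hz).trans h1
  exact (ball_le_a0 (int_ball_a0 (cG j) h3) fun x hx => h j x (h3 hx)).trans (hj z hz)

lemma DB.add (hF : DB l F) (hG : DB l G) (cF : ∀ j, ContinuousOn (F j) UH)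
    (cG : ∀ j, ContinuousOn (G j) UH) : DB l fun j z => F j z + G j z := by
  intro K hK hU
  obtain ⟨C, ε0, h0, h1, h2⟩ := hF K hK hU
  obtain ⟨C', ε0', h0', -, h2'⟩ := hG K hK hU
  refine ⟨C + C', min ε0 ε0', lt_min h0 h0', (cthickening_mono (min_le_left _ _) K).trans h1,
    fun ε e0 e1 => ?_⟩
  filter_upwards [h2 ε e0 (e1.trans (min_le_left _ _)), h2' ε e0 (e1.trans (min_le_right _ _))]
    with j hj hj' z hz
  have h3 := (cball_sub_a0 (e1.trans (min_le_left _ _)) hz).trans h1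
  have i1 := int_ball_a0 (cF j) h3
  have i2 := int_ball_a0 (cG j) h3
  refine (ball_le_a0 (u := fun x => ‖F j x‖ + ‖G j x‖) (i1.add i2)
    fun x _ => norm_add_le _ _).trans ?_
  rw [integral_add i1 i2, add_mul]
  exact add_le_add (hj z hz) (hj' z hz)

lemma DB.mul {g : ℂ → ℂ} (hF : DB l F) (cF : ∀ j, ContinuousOn (F j) UH)
    (hg : ContinuousOn g UH) : DB l fun j z => g z * F j z := by
  intro K hK hU
  obtain ⟨C, ε0, h0, h1, h2⟩ := hF K hK hU
  obtain ⟨B, hB⟩ := (hK.cthickening (r := ε0)).exists_bound_of_continuousOn (hg.mono h1)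
  refine ⟨|B| * C, ε0, h0, h1, fun ε e0 e1 => (h2 ε e0 e1).mono fun j hj z hz => ?_⟩
  have h3 := cball_sub_a0 e1 hz
  refine (ball_le_a0 (u := fun x => |B| * ‖F j x‖)
    ((int_ball_a0 (cF j) (h3.trans h1)).const_mul _) fun x hx => ?_).trans ?_
  · rw [norm_mul]
    exact mul_le_mul_of_nonneg_right ((hB x (h3 hx)).trans (le_abs_self B)) (norm_nonneg _)
  · rw [integral_const_mul, mul_assoc]
    exact mul_le_mul_of_nonneg_left (hj z hz) (abs_nonneg B)

lemma DB.const (c : ℂ) : DB l fun _ _ => c := by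
  intro K hK hU
  obtain ⟨δ, hδ, h1⟩ := hK.exists_cthickening_subset_open isOpen_UH hU
  refine ⟨π * ‖c‖, δ, hδ, h1, fun ε e0 _ => Eventually.of_forall fun _ z _ => le_of_eq ?_⟩
  rw [setIntegral_const, Measure.real, Complex.volume_ball, smul_eq_mul, ENNReal.toReal_mul,
    ENNReal.toReal_pow, ENNReal.toReal_ofReal e0.le, ENNReal.coe_toReal, NNReal.coe_real_pi]
  ring

/-- a density bound gives a bound on compact sets -/
lemma DB.bdd (hF : DB l F) (cF : ∀ j, ContinuousOn (F j) UH) {K : Set ℂ} (hK : IsCompact K)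
    (hU : K ⊆ UH) : ∃ C : ℝ, ∀ᶠ j in l, ∫ z in K, ‖F j z‖ ≤ C := by
  obtain ⟨C, ε0, h0, h1, h2⟩ := hF K hK hU
  obtain ⟨t, t1, t2, t3⟩ := hK.finite_cover_balls h0
  lift t to Finset ℂ using t2
  refine ⟨∑ _z ∈ t, C * ε0 ^ 2, (h2 ε0 h0 le_rfl).mono fun j hj => ?_⟩
  have i1 : ∀ z ∈ t, Integrable ((ball z ε0).indicator fun x => ‖F j x‖) := fun z hz =>
    (int_ball_a0 (cF j) ((cball_sub_a0 le_rfl (t1 hz)).trans h1)).integrable_indicator
      measurableSet_ball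
  rw [← integral_indicator hK.measurableSet]
  refine (integral_mono_of_nonneg (g := fun x => ∑ z ∈ t, (ball z ε0).indicator
    (fun x => ‖F j x‖) x) (Eventually.of_forall fun x => indicator_nonneg
      (fun _ _ => norm_nonneg _) x) (integrable_finsetSum _ i1)
    (Eventually.of_forall fun x => ?_)).trans ?_
  · have n0 : ∀ z ∈ t, 0 ≤ (ball z ε0).indicator (fun x => ‖F j x‖) x := fun z _ =>
      indicator_nonneg (fun _ _ => norm_nonneg _) x
    beta_reduce
    by_cases hx : x ∈ K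
    · obtain ⟨z, hz, hxz⟩ := mem_iUnion₂.1 (t3 hx)
      refine le_trans (le_of_eq ?_) (Finset.single_le_sum n0 hz)
      rw [indicator_of_mem hx, indicator_of_mem hxz]
    · rw [indicator_of_notMem hx]
      exact Finset.sum_nonneg n0
  · rw [integral_finsetSum _ i1]
    refine Finset.sum_le_sum fun z hz => ?_
    rw [integral_indicator measurableSet_ball]
    exact hj z (t1 hz)

lemma WD.congr (hF : WD l F) (h : ∀ j, ∀ z ∈ UH, G j z = F j z) : WD l G :=
  ⟨fun j => (hF.cont j).congr (h j),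
    fun τ hτ => (hF.wk τ hτ).congr fun j => tf_congr hτ.tf fun z hz => (h j z hz).symm,
    hF.db.of_le hF.cont fun j z hz => (congrArg norm (h j z hz)).le⟩

lemma WD.add (hF : WD l F) (hG : WD l G) : WD l fun j z => F j z + G j z := by
  refine ⟨fun j => (hF.cont j).add (hG.cont j), fun τ hτ => ?_,
    hF.db.add hG.db hF.cont hG.cont⟩
  have h := (hF.wk τ hτ).add (hG.wk τ hτ)
  rw [add_zero] at h
  refine h.congr fun j => ?_
  rw [← integral_add (tf_integrable hτ.tf (hF.cont j)) (tf_integrable hτ.tf (hG.cont j))]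
  simp only [mul_add]

lemma WD.mul {g : ℂ → ℂ} (hF : WD l F) (hg : ContDiffOn ℝ 1 g UH) :
    WD l fun j z => g z * F j z :=
  ⟨fun j => hg.continuousOn.mul (hF.cont j),
    fun τ hτ => (hF.wk _ (hτ.mul hg)).congr fun j => by simp only [mul_assoc],
    hF.db.mul hF.cont hg.continuousOn⟩

end Pool.Agent.Lib.MP_a52643_an.H53
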