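import Pool.Agent.Lib.MP_a52643_an.H53A0

open Complex MeasureTheory Set Filter Topology Metric
open UpperHalfPlane (ofComplex)
open scoped ComplexConjugate ContDiff ENNReal UpperHalfPlane Laplacian Real

noncomputable section

namespace Pool.Agent.Lib.MP_a52643_an.H53

variable {J : Type} {l : Filter J} {F G : J → ℂ → ℂ} {s s' : J → ℝ}

lemma int_sq_a0b {f : ℂ → ℂ} (hf : ContinuousOn f UH) {K : Set ℂ} (hK : IsCompact K)
    (hU : K ⊆ UH) : IntegrableOn (fun z => ‖f z‖ ^ 2) K :=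
  ((hf.mono hU).norm.pow 2).integrableOn_compact hK

lemma int_nm_a0b {f : ℂ → ℂ} (hf : ContinuousOn f UH) {K : Set ℂ} (hK : IsCompact K)
    (hU : K ⊆ UH) : IntegrableOn (fun z => ‖f z‖) K :=
  (hf.mono hU).norm.integrableOn_compact hK

lemma sq_nn_a0b (f : ℂ → ℂ) (K : Set ℂ) : 0 ≤ ∫ z in K, ‖f z‖ ^ 2 :=
  integral_nonneg fun _ => by positivity

/-- comparison of set integrals with an integrable majorant -/
lemma le_int_a0b {u v : ℂ → ℝ} {K : Set ℂ} (hK : IsCompact K) (hv : IntegrableOn v K)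
    (h0 : ∀ z, 0 ≤ u z) (h : ∀ z ∈ K, u z ≤ v z) : ∫ z in K, u z ≤ ∫ z in K, v z :=
  integral_mono_of_nonneg (Eventually.of_forall h0) hv
    (ae_restrict_of_forall_mem hK.measurableSet h)

lemma SM.congr (hF : SM l s F) (h : ∀ j, ∀ z ∈ UH, G j z = F j z) : SM l s G := by
  refine ⟨fun j => (hF.cont j).congr (h j), fun K hK hU => ?_⟩
  refine (hF.lim K hK hU).congr fun j => ?_
  congr 1
  exact setIntegral_congr_fun hK.measurableSet fun z hz => by simp only [h j z (hU hz)]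

lemma SM.of_le (hF : SM l s F) (cG : ∀ j, ContinuousOn (G j) UH) {C : ℝ}
    (h : ∀ᶠ j in l, 0 ≤ s j ∧ 0 ≤ s' j ∧ ∀ z ∈ UH, s' j * ‖G j z‖ ^ 2 ≤ C * (s j * ‖F j z‖ ^ 2)) :
    SM l s' G := by
  refine ⟨cG, fun K hK hU => ?_⟩
  have h1 := (hF.lim K hK hU).const_mul C
  rw [mul_zero] at h1
  refine squeeze_zero' (h.mono fun j hj => mul_nonneg hj.2.1 (sq_nn_a0b _ _)) (h.mono fun j hj => ?_) h1
  rw [← integral_const_mul, ← integral_const_mul, ← integral_const_mul]
  exact le_int_a0b hK (((int_sq_a0b (hF.cont j) hK hU).const_mul _).const_mul _)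
    (fun z => mul_nonneg hj.2.1 (by positivity)) fun z hz => hj.2.2 z (hU hz)

lemma SM.mono (hF : SM l s F) (h : ∀ᶠ j in l, 0 ≤ s' j ∧ s' j ≤ s j) : SM l s' F :=
  hF.of_le hF.cont (C := 1) (h.mono fun j hj => ⟨hj.1.trans hj.2, hj.1, fun z _ => by
    rw [one_mul]; exact mul_le_mul_of_nonneg_right hj.2 (by positivity)⟩)

lemma SM.add (hF : SM l s F) (hG : SM l s G) (hs : ∀ᶠ j in l, 0 ≤ s j) :
    SM l s fun j z => F j z + G j z := by
  refine ⟨fun j => (hF.cont j).add (hG.cont j), fun K hK hU => ?_⟩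
  have h1 := ((hF.lim K hK hU).add (hG.lim K hK hU)).const_mul 2
  rw [add_zero, mul_zero] at h1
  refine squeeze_zero' (hs.mono fun j hj => mul_nonneg hj (sq_nn_a0b _ _)) (hs.mono fun j hj => ?_) h1
  have i1 := int_sq_a0b (hF.cont j) hK hU
  have i2 := int_sq_a0b (hG.cont j) hK hU
  have : ∫ z in K, ‖F j z + G j z‖ ^ 2 ≤ ∫ z in K, 2 * (‖F j z‖ ^ 2 + ‖G j z‖ ^ 2) :=
    le_int_a0b hK ((i1.add i2).const_mul 2) (fun z => by positivity) fun z _ => by
      have h2 := norm_add_le (F j z) (G j z)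
      have h3 := pow_le_pow_left₀ (norm_nonneg _) h2 2
      nlinarith [sq_nonneg (‖F j z‖ - ‖G j z‖)]
  rw [integral_const_mul, integral_add i1 i2] at this
  have h4 := mul_le_mul_of_nonneg_left this hj
  linarith

lemma SM.mul {g : ℂ → ℂ} (hF : SM l s F) (hg : ContinuousOn g UH) (hs : ∀ᶠ j in l, 0 ≤ s j) :
    SM l s fun j z => g z * F j z := by
  refine ⟨fun j => hg.mul (hF.cont j), fun K hK hU => ?_⟩
  obtain ⟨B, hB⟩ := hK.exists_bound_of_continuousOn (hg.mono hU)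
  have h1 := (hF.lim K hK hU).const_mul (B ^ 2)
  rw [mul_zero] at h1
  refine squeeze_zero' (hs.mono fun j hj => mul_nonneg hj (sq_nn_a0b _ _)) (hs.mono fun j hj => ?_) h1
  have : ∫ z in K, ‖g z * F j z‖ ^ 2 ≤ ∫ z in K, B ^ 2 * ‖F j z‖ ^ 2 :=
    le_int_a0b hK ((int_sq_a0b (hF.cont j) hK hU).const_mul _) (fun z => by positivity)
      fun z hz => by
        rw [norm_mul, mul_pow]
        exact mul_le_mul_of_nonneg_right (pow_le_pow_left₀ (norm_nonneg _) (hB z hz) 2)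
          (by positivity)
  rw [integral_const_mul] at this
  have h4 := mul_le_mul_of_nonneg_left this hj
  linarith

lemma SM.const (hs : Tendsto s l (𝓝 0)) (c : ℂ) : SM l s fun _ _ => c :=
  ⟨fun _ => continuousOn_const, fun K _ _ => by
    have := hs.mul_const (∫ _ in K, ‖c‖ ^ 2)
    rwa [zero_mul] at this⟩

/-- smallness in square mean gives smallness in mean -/
lemma SM.l1_a0b (hF : SM l (fun _ => 1) F) {K : Set ℂ} (hK : IsCompact K) (hU : K ⊆ UH) :
    Tendsto (fun j => ∫ z in K, ‖F j z‖) l (𝓝 0) := by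
  have h1 := hF.lim K hK hU
  simp only [one_mul] at h1
  refine tendsto_order.2 ⟨fun a ha => Eventually.of_forall fun j =>
    ha.trans_le (integral_nonneg fun _ => norm_nonneg _), fun ε hε => ?_⟩
  set A : ℝ := ∫ _ in K, (1 : ℝ) with hA
  have hA0 : 0 ≤ A := integral_nonneg fun _ => zero_le_one
  set δ : ℝ := ε / (2 * (A + 1)) with hδ
  have hδ0 : 0 < δ := by positivity
  have hδA : δ * A ≤ ε / 2 := by
    rw [hδ, div_mul_eq_mul_div, div_le_div_iff₀ (by positivity) (by positivity)]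
    nlinarith
  filter_upwards [(tendsto_order.1 h1).2 (δ * (ε / 2)) (by positivity)] with j hj
  have i1 := int_sq_a0b (hF.cont j) hK hU
  have i0 : IntegrableOn (fun _ : ℂ => (1 : ℝ)) K := continuousOn_const.integrableOn_compact hK
  have : ∫ z in K, ‖F j z‖ ≤ ∫ z in K, (δ * 1 + δ⁻¹ * ‖F j z‖ ^ 2) :=
    le_int_a0b hK ((i0.const_mul δ).add (i1.const_mul _)) (fun z => norm_nonneg _) fun z _ => by
      refine le_of_mul_le_mul_left ?_ hδ0
      rw [mul_add, mul_inv_cancel_left₀ hδ0.ne']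
      nlinarith [sq_nonneg (‖F j z‖ - δ), mul_nonneg hδ0.le (norm_nonneg (F j z))]
  rw [integral_add (i0.const_mul δ) (i1.const_mul _), integral_const_mul, integral_const_mul] at this
  have h2 : δ⁻¹ * ∫ z in K, ‖F j z‖ ^ 2 < ε / 2 := by
    rw [inv_mul_lt_iff₀ hδ0]; exact hj
  linarith

/-- bound for an integral against a test function -/
lemma test_le_a0b {τ : ℂ → ℂ} (hτ : TF τ) : ∃ B : ℝ, 0 ≤ B ∧ ∀ (H : ℂ → ℂ) (v : ℂ → ℝ),
    IntegrableOn v (tsupport τ) → (∀ z ∈ tsupport τ, ‖H z‖ ≤ v z) →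
    ‖∫ z, τ z * H z‖ ≤ B * ∫ z in tsupport τ, v z := by
  obtain ⟨B, hB⟩ := hτ.cont.bounded_above_of_compact_support hτ.hcs
  have hB0 : 0 ≤ B := (norm_nonneg _).trans (hB 0)
  refine ⟨B, hB0, fun H v hv h => ?_⟩
  rw [← setIntegral_eq_integral_of_forall_compl_eq_zero (s := tsupport τ) fun z hz => by
    rw [image_eq_zero_of_notMem_tsupport hz, zero_mul], ← integral_const_mul]
  refine (norm_integral_le_integral_norm _).trans
    (le_int_a0b hτ.hcs (hv.const_mul B) (fun z => norm_nonneg _) fun z hz => ?_)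
  rw [norm_mul]
  exact mul_le_mul (hB z) (h z hz) (norm_nonneg _) hB0

lemma SM.wd (hF : SM l (fun _ => 1) F) : WD l F := by
  refine ⟨hF.cont, fun τ hτ => ?_, fun K hK hU => ?_⟩
  · obtain ⟨B, -, hB⟩ := test_le_a0b hτ.tf
    have h1 := (hF.l1_a0b hτ.hcs hτ.sub).const_mul B
    rw [mul_zero] at h1
    exact squeeze_zero_norm (fun j => hB _ _ (int_nm_a0b (hF.cont j) hτ.hcs hτ.sub)
      fun z _ => le_rfl) h1
  · obtain ⟨δ, hδ, hδU⟩ := hK.exists_cthickening_subset_open isOpen_UH hU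
    have hK1 : IsCompact (cthickening δ K) := hK.cthickening
    refine ⟨1, δ, hδ, hδU, fun ε hε hεδ => ?_⟩
    filter_upwards [(tendsto_order.1 (hF.l1_a0b hK1 hδU)).2 (ε ^ 2) (by positivity)] with j hj z hz
    rw [one_mul]
    refine le_trans (setIntegral_mono_set (int_nm_a0b (hF.cont j) hK1 hδU)
      (Eventually.of_forall fun _ => norm_nonneg _) (LE.le.eventuallyLE ?_)) hj.le
    exact (ball_subset_closedBall.trans (closedBall_subset_closedBall hεδ)).trans
      (closedBall_subset_cthickening hz δ)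

lemma SM.pair (hF : SM l s F) (hG : SM l s' G)
    (hs : ∀ᶠ j in l, 0 ≤ s j ∧ 0 ≤ s' j ∧ 1 ≤ s j * s' j) {τ : ℂ → ℂ} (hτ : TF τ) :
    Tendsto (fun j => ∫ z, τ z * (F j z * G j z)) l (𝓝 0) := by
  obtain ⟨B, -, hB⟩ := test_le_a0b hτ
  have h1 := ((hF.lim _ hτ.hcs hτ.sub).add (hG.lim _ hτ.hcs hτ.sub)).const_mul B
  rw [add_zero, mul_zero] at h1
  refine squeeze_zero_norm' (hs.mono fun j hj => ?_) h1
  have i1 := (int_sq_a0b (hF.cont j) hτ.hcs hτ.sub).const_mul (s j)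
  have i2 := (int_sq_a0b (hG.cont j) hτ.hcs hτ.sub).const_mul (s' j)
  rw [← integral_const_mul, ← integral_const_mul, ← integral_add i1 i2]
  refine hB _ _ (i1.add i2) fun z _ => ?_
  have hp : 0 < s j := lt_of_le_of_ne hj.1 fun e => by
    have := hj.2.2; rw [← e, zero_mul] at this; linarith
  rw [norm_mul]
  refine le_of_mul_le_mul_left ?_ hp
  have h2 := mul_le_mul_of_nonneg_right hj.2.2 (sq_nonneg ‖G j z‖)
  nlinarith [sq_nonneg (s j * ‖F j z‖ - ‖G j z‖),
    mul_nonneg hj.1 (mul_nonneg (norm_nonneg (F j z)) (norm_nonneg (G j z)))]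

lemma SM.pair_weight (hF : SM l s F) (hG : SM l s G) (hs : ∀ᶠ j in l, 0 ≤ s j) {τ : ℂ → ℂ}
    (hτ : TF τ) : Tendsto (fun j => (s j : ℂ) * ∫ z, τ z * (F j z * G j z)) l (𝓝 0) := by
  obtain ⟨B, -, hB⟩ := test_le_a0b hτ
  have h1 := ((hF.lim _ hτ.hcs hτ.sub).add (hG.lim _ hτ.hcs hτ.sub)).const_mul B
  rw [add_zero, mul_zero] at h1
  refine squeeze_zero_norm' (hs.mono fun j hj => ?_) h1
  have i1 := int_sq_a0b (hF.cont j) hτ.hcs hτ.sub
  have i2 := int_sq_a0b (hG.cont j) hτ.hcs hτ.sub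
  have h2 := hB (fun z => F j z * G j z) _ (i1.add i2) fun z _ => by
    rw [norm_mul]
    simp only [Pi.add_apply]
    nlinarith [sq_nonneg (‖F j z‖ - ‖G j z‖),
      mul_nonneg (norm_nonneg (F j z)) (norm_nonneg (G j z))]
  simp only [Pi.add_apply] at h2
  rw [integral_add i1 i2] at h2
  rw [norm_mul, Complex.norm_real, Real.norm_of_nonneg hj]
  have h3 := mul_le_mul_of_nonneg_left h2 hj
  linarith

/-- retraction of the plane onto a closed half plane -/
def ret_a0b (δ : ℝ) (z : ℂ) : ℂ := z.re + (max z.im δ : ℝ) * I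

lemma ret_cont_a0b {f : ℂ → ℂ} (hf : ContinuousOn f UH) {δ : ℝ} (hδ : 0 < δ) :
    Continuous fun z => f (ret_a0b δ z) := by
  refine hf.comp_continuous (by unfold ret_a0b; fun_prop) fun z => ?_
  simp only [UH, ret_a0b, mem_ofPred_eq, add_im, ofReal_im, mul_im, ofReal_re, I_im, I_re,
    mul_one, mul_zero, add_zero, zero_add]
  exact hδ.trans_le (le_max_right _ _)

lemma ret_eq_a0b {δ : ℝ} {z : ℂ} (h : δ ≤ z.im) : ret_a0b δ z = z := by
  rw [ret_a0b, max_eq_left h, re_add_im]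

lemma vint_ret_a0b (f : ℂ → ℂ) {δ : ℝ} (h1 : δ ≤ 1) {z : ℂ} (h : δ ≤ z.im) :
    vint f z = vint (fun z => f (ret_a0b δ z)) z := by
  refine intervalIntegral.integral_congr fun t ht => ?_
  have : δ ≤ t := le_trans (le_min h1 h) ht.1
  simp only
  rw [ret_eq_a0b (by simpa using this)]

lemma vint_cont_a0b {g : ℂ → ℂ} (hg : Continuous g) : Continuous (vint g) :=
  intervalIntegral.continuous_parametric_intervalIntegral_of_continuous
    (f := fun (z : ℂ) (t : ℝ) => g (z.re + t * I)) (by unfold Function.uncurry; fun_prop)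
    continuous_im

lemma cont_vint {f : ℂ → ℂ} (hf : ContinuousOn f UH) : ContinuousOn (vint f) UH := by
  intro z hz
  have hz0 : 0 < z.im := hz
  have hδ : 0 < min 1 (z.im / 2) := lt_min one_pos (by positivity)
  refine ContinuousAt.continuousWithinAt
    ((vint_cont_a0b (ret_cont_a0b hf hδ)).continuousAt.congr ?_)
  have : ∀ᶠ w in 𝓝 z, z.im / 2 < w.im :=
    continuous_im.continuousAt.eventually (lt_mem_nhds (by linarith))
  filter_upwards [this] with w hw
  exact (vint_ret_a0b f (min_le_left _ _) ((min_le_right _ _).trans hw.le)).symm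

lemma bx_int_a0b {u : ℂ → ℝ} (hu : Continuous u) (M : ℝ) :
    IntegrableOn (fun x : ℝ => ∫ y in Icc M⁻¹ M, u (x + y * I)) (Icc (-M) M) ∧
    ∫ z in bx M, u z = ∫ x in Icc (-M) M, ∫ y in Icc M⁻¹ M, u (x + y * I) := by
  have hc : Continuous fun p : ℝ × ℝ => u (p.1 + p.2 * I) := by fun_prop
  have hi : IntegrableOn (fun p : ℝ × ℝ => u (p.1 + p.2 * I)) (Icc (-M) M ×ˢ Icc M⁻¹ M)
      (volume.prod volume) :=
    hc.continuousOn.integrableOn_compact (isCompact_Icc.prod isCompact_Icc)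
  constructor
  · have := hi
    rw [IntegrableOn, ← Measure.prod_restrict] at this
    exact this.integral_prod_left
  · rw [← setIntegral_prod _ hi, ← Measure.volume_eq_prod,
      ← volume_preserving_equiv_real_prod.setIntegral_preimage_emb
        measurableEquivRealProd.measurableEmbedding]
    have e : measurableEquivRealProd ⁻¹' (Icc (-M) M ×ˢ Icc M⁻¹ M) = bx M := by
      ext z
      simp only [bx, abs_le, mem_preimage, mem_prod, mem_Icc, mem_ofPred_eq,
        measurableEquivRealProd_apply]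
    rw [e]
    simp

lemma vint_le_a0b {g : ℂ → ℂ} (hg : Continuous g) {M : ℝ} (hM : 1 ≤ M) (x : ℝ) {y : ℝ}
    (hy : y ∈ Icc M⁻¹ M) :
    ‖vint g (x + y * I)‖ ^ 2 ≤ M * ∫ t in Icc M⁻¹ M, ‖g (x + t * I)‖ ^ 2 := by
  have hM0 : 0 < M := by linarith
  have hc : Continuous fun t : ℝ => ‖g (x + t * I)‖ := by fun_prop
  have i1 : IntegrableOn (fun t : ℝ => ‖g (x + t * I)‖) (Icc M⁻¹ M) :=
    hc.continuousOn.integrableOn_compact isCompact_Icc
  have i2 : IntegrableOn (fun t : ℝ => ‖g (x + t * I)‖ ^ 2) (Icc M⁻¹ M) :=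
    (hc.pow 2).continuousOn.integrableOn_compact isCompact_Icc
  set A : ℝ := ∫ t in Icc M⁻¹ M, ‖g (x + t * I)‖ with hA
  have h1 : ‖vint g (x + y * I)‖ ≤ A := by
    have e : vint g (x + y * I) = ∫ t in (1 : ℝ)..y, g (x + t * I) := by simp [vint]
    rw [e]
    refine intervalIntegral.norm_integral_le_integral_norm_uIoc.trans
      (setIntegral_mono_set i1 (Eventually.of_forall fun _ => norm_nonneg _)
        (LE.le.eventuallyLE ?_))
    exact uIoc_subset_uIcc.trans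
      (uIcc_subset_Icc ⟨inv_le_one_of_one_le₀ hM, hM⟩ hy)
  have i0 : IntegrableOn (fun _ : ℝ => A ^ 2) (Icc M⁻¹ M) :=
    continuousOn_const.integrableOn_compact isCompact_Icc
  have h2 : ∫ t in Icc M⁻¹ M, 2 * A * M * ‖g (x + t * I)‖
      ≤ ∫ t in Icc M⁻¹ M, (A ^ 2 + M ^ 2 * ‖g (x + t * I)‖ ^ 2) :=
    integral_mono (i1.const_mul _) (i0.add (i2.const_mul _)) fun t => by
      simp only
      nlinarith [sq_nonneg (A - M * ‖g (x + t * I)‖)]
  rw [integral_const_mul, integral_add i0 (i2.const_mul _), integral_const_mul, setIntegral_const,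
    Real.volume_real_Icc_of_le (hy.1.trans hy.2), smul_eq_mul, ← hA] at h2
  have h3 : (M - M⁻¹) * A ^ 2 ≤ M * A ^ 2 :=
    mul_le_mul_of_nonneg_right (by have := inv_pos.2 hM0; linarith) (sq_nonneg _)
  refine (pow_le_pow_left₀ (norm_nonneg _) h1 2).trans (le_of_mul_le_mul_left ?_ hM0)
  nlinarith

lemma SM.vint (hF : SM l s F) (hs : ∀ᶠ j in l, 0 ≤ s j) : SM l s fun j => vint (F j) := by
  refine ⟨fun j => cont_vint (hF.cont j), fun K hK hU => ?_⟩
  obtain ⟨N, hN, hKN⟩ := exists_bx hK hU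
  have hM : (1 : ℝ) ≤ N := by exact_mod_cast (by omega : 1 ≤ N)
  generalize (N : ℝ) = M at hM hKN
  have hM0 : 0 < M := by linarith
  have h1 := (hF.lim _ (bx_compact M) (bx_sub hM)).const_mul (M * M)
  rw [mul_zero] at h1
  refine squeeze_zero' (hs.mono fun j hj => mul_nonneg hj (sq_nn_a0b _ _)) (hs.mono fun j hj => ?_) h1
  set g : ℂ → ℂ := fun z => F j (ret_a0b M⁻¹ z) with hg
  have gc : Continuous g := ret_cont_a0b (hF.cont j) (inv_pos.2 hM0)
  have e1 : ∫ z in bx M, ‖F j z‖ ^ 2 = ∫ z in bx M, ‖g z‖ ^ 2 :=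
    setIntegral_congr_fun (bx_compact M).measurableSet fun z hz => by
      simp only [hg, ret_eq_a0b hz.2.1]
  have e2 : ∫ z in bx M, ‖H53.vint (F j) z‖ ^ 2 = ∫ z in bx M, ‖H53.vint g z‖ ^ 2 :=
    setIntegral_congr_fun (bx_compact M).measurableSet fun z hz => by
      simp only [hg, ← vint_ret_a0b (F j) (inv_le_one_of_one_le₀ hM) hz.2.1]
  have h2 : ∫ z in K, ‖H53.vint (F j) z‖ ^ 2 ≤ ∫ z in bx M, ‖H53.vint (F j) z‖ ^ 2 :=
    setIntegral_mono_set (int_sq_a0b (cont_vint (hF.cont j)) (bx_compact M) (bx_sub hM))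
      (Eventually.of_forall fun _ => by positivity) hKN.eventuallyLE
  obtain ⟨i1, f1⟩ := bx_int_a0b (u := fun z => ‖g z‖ ^ 2) (gc.norm.pow 2) M
  obtain ⟨-, f2⟩ := bx_int_a0b (u := fun z => ‖H53.vint g z‖ ^ 2) ((vint_cont_a0b gc).norm.pow 2) M
  have h3 : ∫ z in bx M, ‖H53.vint g z‖ ^ 2 ≤ M * M * ∫ z in bx M, ‖g z‖ ^ 2 := by
    rw [f1, f2, ← integral_const_mul]
    refine integral_mono_of_nonneg (Eventually.of_forall fun x =>
      integral_nonneg fun _ => by positivity) (i1.const_mul _) (Eventually.of_forall fun x => ?_)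
    have h4 : ∫ y in Icc M⁻¹ M, ‖H53.vint g (x + y * I)‖ ^ 2
        ≤ ∫ _ in Icc M⁻¹ M, M * ∫ t in Icc M⁻¹ M, ‖g (x + t * I)‖ ^ 2 :=
      integral_mono_of_nonneg (Eventually.of_forall fun _ => by positivity)
        (continuousOn_const.integrableOn_compact isCompact_Icc)
        (ae_restrict_of_forall_mem measurableSet_Icc fun y hy => vint_le_a0b gc hM x hy)
    rw [setIntegral_const, Real.volume_real_Icc_of_le ((inv_le_one_of_one_le₀ hM).trans hM),
      smul_eq_mul] at h4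
    have h5 : 0 ≤ M * ∫ t in Icc M⁻¹ M, ‖g (x + t * I)‖ ^ 2 :=
      mul_nonneg hM0.le (integral_nonneg fun _ => by positivity)
    have h6 := mul_le_mul_of_nonneg_right (show M - M⁻¹ ≤ M by have := inv_pos.2 hM0; linarith) h5
    simp only
    linarith
  rw [e2] at h2
  rw [e1]
  have h7 := mul_le_mul_of_nonneg_left (h2.trans h3) hj
  linarith

end Pool.Agent.Lib.MP_a52643_an.H53
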