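import Pool.Agent.Lib.MP_a52643_an.H53A0

open Complex MeasureTheory Set Filter Topology Metric
open UpperHalfPlane (ofComplex)
open scoped ComplexConjugate ContDiff ENNReal UpperHalfPlane Laplacian Real

noncomputable section

namespace Pool.Agent.Lib.MP_a52643_an.H53

lemma norm_fderiv_le_a1 (f : ℂ → ℂ) (x : ℂ) : ‖fderiv ℝ f x‖ ≤ ‖px f x‖ + ‖py f x‖ := by
  refine ContinuousLinearMap.opNorm_le_bound _ (by positivity) fun w => ?_
  have e : w = w.re • (1 : ℂ) + w.im • I := by simp
  conv_lhs => rw [e, map_add, map_smul, map_smul]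
  refine (norm_add_le _ _).trans ?_
  rw [norm_smul, norm_smul, add_mul, mul_comm ‖px f x‖, mul_comm ‖py f x‖]
  exact add_le_add (mul_le_mul_of_nonneg_right (abs_re_le_norm w) (norm_nonneg _))
    (mul_le_mul_of_nonneg_right (abs_im_le_norm w) (norm_nonneg _))

lemma exists_cut_a1 : ∃ L : ℝ, 0 ≤ L ∧ ∀ (z : ℂ) (r : ℝ), 0 < r → ∃ τ : ℂ → ℝ, ContDiff ℝ 1 τ ∧
    (∀ x ∈ ball z r, τ x = 1) ∧ (∀ x, ‖τ x‖ ≤ 1) ∧ (∀ x ∉ ball z (2 * r), τ =ᶠ[𝓝 x] 0) ∧
    ∀ x, ‖fderiv ℝ τ x‖ ≤ L / r := by
  let θ : ContDiffBump (0 : ℂ) := ⟨1, 3 / 2, by norm_num, by norm_num⟩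
  have hθ : ContDiff ℝ 1 θ := θ.contDiff
  obtain ⟨L, hL⟩ := (hθ.continuous_fderiv one_ne_zero).bounded_above_of_compact_support
    (θ.hasCompactSupport.fderiv ℝ)
  refine ⟨L, (norm_nonneg _).trans (hL 0), fun z r hr => ⟨fun x => θ (r⁻¹ • (x - z)),
    hθ.comp (by fun_prop), fun x hx => ?_, fun x => ?_, fun x hx => ?_, fun x => ?_⟩⟩
  · refine θ.one_of_mem_closedBall ?_
    rw [mem_ball_iff_norm] at hx
    rw [mem_closedBall_zero_iff, norm_smul, norm_inv, Real.norm_of_nonneg hr.le,
      inv_mul_le_iff₀ hr]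
    simpa [θ] using hx.le
  · rw [Real.norm_of_nonneg θ.nonneg]
    exact θ.le_one
  · have h1 : x ∈ (closedBall z (3 / 2 * r))ᶜ := fun h => hx (closedBall_subset_ball (by linarith) h)
    filter_upwards [isClosed_closedBall.isOpen_compl.mem_nhds h1] with y hy
    refine θ.zero_of_le_dist ?_
    rw [mem_compl_iff, mem_closedBall_iff_norm, not_le] at hy
    rw [dist_zero_right, norm_smul, norm_inv, Real.norm_of_nonneg hr.le, le_inv_mul_iff₀ hr]
    simpa [θ, mul_comm] using hy.le
  · have h1 : HasFDerivAt (fun x : ℂ => r⁻¹ • (x - z)) (r⁻¹ • ContinuousLinearMap.id ℝ ℂ) x :=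
      ((hasFDerivAt_id x).sub_const z).const_smul r⁻¹
    have h2 := ((hθ.differentiable one_ne_zero _).hasFDerivAt.comp x h1).fderiv
    rw [show (fun x => θ (r⁻¹ • (x - z))) = θ ∘ fun x => r⁻¹ • (x - z) from rfl, h2]
    refine (ContinuousLinearMap.opNorm_comp_le _ _).trans ?_
    rw [div_eq_mul_inv]
    refine mul_le_mul (hL _) ?_ (norm_nonneg _) ((norm_nonneg _).trans (hL 0))
    rw [norm_smul, norm_inv, Real.norm_of_nonneg hr.le]
    exact mul_le_of_le_one_right (by positivity) ContinuousLinearMap.norm_id_le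

/-- Gagliardo-Nirenberg inequality on balls -/
theorem gn_ball : ∃ C : ℝ, 0 ≤ C ∧ ∀ (f : ℂ → ℂ) (z : ℂ) (r : ℝ), 0 < r →
    closedBall z (2 * r) ⊆ UH → ContDiffOn ℝ 1 f UH →
    ∫ x in ball z r, ‖f x‖ ^ 2
      ≤ C * (∫ x in ball z (2 * r), (‖px f x‖ + ‖py f x‖ + ‖f x‖ / r)) ^ 2 := by
  obtain ⟨L, hL, hcut⟩ := exists_cut_a1
  have hU : IsOpen UH := isOpen_lt continuous_const Complex.continuous_im
  set c := lintegralPowLePowLIntegralFDerivConst (volume : Measure ℂ) 2
  refine ⟨c * (1 + L) ^ 2, by positivity, fun f z r hr hz hf => ?_⟩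
  obtain ⟨τ, h1, h2, h3, h4, h5⟩ := hcut z r hr
  have h6 : ∀ x ∉ ball z (2 * r), (fun x => τ x • f x) =ᶠ[𝓝 x] fun _ => 0 := fun x hx =>
    (h4 x hx).mono fun y hy => by simp [hy]
  have hfa : ∀ x ∈ ball z (2 * r), ContDiffAt ℝ 1 f x := fun x hx =>
    hf.contDiffAt (hU.mem_nhds (hz (ball_subset_closedBall hx)))
  have hu : ContDiff ℝ 1 fun x => τ x • f x := contDiff_iff_contDiffAt.2 fun x => by
    by_cases hx : x ∈ ball z (2 * r)
    · exact h1.contDiffAt.smul (hfa x hx)
    · exact contDiffAt_const.congr_of_eventuallyEq (h6 x hx)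
  have hc : HasCompactSupport fun x => τ x • f x :=
    HasCompactSupport.intro (isCompact_closedBall z (2 * r)) fun x hx =>
      (h6 x fun h => hx (ball_subset_closedBall h)).self_of_nhds
  have key := lintegral_pow_le_pow_lintegral_fderiv volume hu hc (p := 2)
    (by rw [finrank_real_complex]; exact_mod_cast Real.HolderConjugate.two_two)
  have hd : ContinuousOn (fderiv ℝ f) UH := hf.continuousOn_fderiv_of_isOpen hU le_rfl
  have hg : IntegrableOn (fun x => ‖px f x‖ + ‖py f x‖ + ‖f x‖ / r) (ball z (2 * r)) := by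
    refine IntegrableOn.mono_set (ContinuousOn.integrableOn_compact (isCompact_closedBall z _)
      (ContinuousOn.mono ?_ hz)) ball_subset_closedBall
    exact ((hd.clm_apply continuousOn_const).norm.add (hd.clm_apply continuousOn_const).norm).add
      (hf.continuousOn.norm.div_const r)
  have hf2 : IntegrableOn (fun x => ‖f x‖ ^ 2) (ball z r) :=
    IntegrableOn.mono_set (ContinuousOn.integrableOn_compact (isCompact_closedBall z _)
      ((hf.continuousOn.norm.pow 2).mono hz))
      ((ball_subset_ball (by linarith)).trans ball_subset_closedBall)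
  set X := ∫ x in ball z (2 * r), (‖px f x‖ + ‖py f x‖ + ‖f x‖ / r) with hX
  have hX0 : 0 ≤ X := integral_nonneg fun x => by positivity
  have e1 : ENNReal.ofReal (∫ x in ball z r, ‖f x‖ ^ 2) ≤ ∫⁻ x, ‖τ x • f x‖ₑ ^ (2 : ℝ) := by
    rw [ofReal_integral_eq_lintegral_ofReal hf2 (Eventually.of_forall fun x => by positivity)]
    refine le_trans (le_of_eq ?_) (setLIntegral_le_lintegral (ball z r) _)
    refine setLIntegral_congr_fun measurableSet_ball fun x hx => ?_
    simp only [h2 x hx, one_smul]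
    rw [ENNReal.ofReal_pow (norm_nonneg _), ofReal_norm, ENNReal.rpow_two]
  have e2 : ∫⁻ x, ‖fderiv ℝ (fun x => τ x • f x) x‖ₑ ≤ ENNReal.ofReal ((1 + L) * X) := by
    rw [hX, ← integral_const_mul, ofReal_integral_eq_lintegral_ofReal (hg.const_mul _)
      (Eventually.of_forall fun x => by positivity), ← lintegral_indicator measurableSet_ball]
    refine lintegral_mono fun x => ?_
    by_cases hx : x ∈ ball z (2 * r)
    · rw [indicator_of_mem hx, ← ofReal_norm]
      refine ENNReal.ofReal_le_ofReal ?_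
      rw [fderiv_fun_smul (h1.differentiable one_ne_zero x)
        ((hfa x hx).differentiableAt one_ne_zero)]
      refine (norm_add_le _ _).trans ?_
      rw [norm_smul, ContinuousLinearMap.norm_smulRight_apply]
      have k1 := mul_le_mul (h3 x) (norm_fderiv_le_a1 f x) (norm_nonneg _) zero_le_one
      have k2 := mul_le_mul_of_nonneg_right (h5 x) (norm_nonneg (f x))
      have k3 : 0 ≤ L * (‖px f x‖ + ‖py f x‖) := by positivity
      have k4 : 0 ≤ ‖f x‖ / r := by positivity
      have k5 : L / r * ‖f x‖ = L * (‖f x‖ / r) := by ring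
      linarith
    · rw [(h6 x hx).fderiv_eq]
      simp
  have e3 : ENNReal.ofReal (∫ x in ball z r, ‖f x‖ ^ 2) ≤
      ENNReal.ofReal (c * (1 + L) ^ 2 * X ^ 2) := by
    refine e1.trans (key.trans ?_)
    rw [mul_assoc, ← mul_pow, ENNReal.ofReal_mul c.coe_nonneg, ENNReal.ofReal_coe_nnreal,
      ENNReal.ofReal_pow (by positivity), ENNReal.rpow_two]
    gcongr
  exact (ENNReal.ofReal_le_ofReal_iff (by positivity)).1 e3

lemma swap_a1 {g : ℂ → ℝ≥0∞} (hg : Measurable g) (S : Set ℂ) (ρ : ℝ) :
    ∫⁻ z in S, ∫⁻ x in ball z ρ, g x = ∫⁻ x, g x * volume.restrict S (ball x ρ) := by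
  have h : ∀ z, ∫⁻ x in ball z ρ, g x = ∫⁻ x, if dist x z < ρ then g x else 0 := fun z => by
    rw [← lintegral_indicator measurableSet_ball]
    exact lintegral_congr fun x => by classical simp only [indicator_apply, mem_ball]
  simp_rw [h]
  rw [lintegral_lintegral_swap]
  · refine lintegral_congr fun x => ?_
    rw [← lintegral_indicator_const measurableSet_ball]
    exact lintegral_congr fun z => by
      classical simp only [indicator_apply, mem_ball, dist_comm z x]
  · exact (Measurable.ite (measurableSet_lt (by fun_prop) measurable_const)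
      (hg.comp measurable_snd) measurable_const).aemeasurable

/-- summing a local inequality over all centres -/
theorem cover_le {u e : ℂ → ℝ} (hu : ContinuousOn u UH) (he : ContinuousOn e UH)
    (u0 : ∀ z, 0 ≤ u z) (e0 : ∀ z, 0 ≤ e z) {K : Set ℂ} (hK : IsCompact K) {r A : ℝ} (hr : 0 < r)
    (hU : cthickening (3 * r) K ⊆ UH) (hA : 0 ≤ A)
    (h : ∀ z ∈ cthickening r K, ∫ x in ball z r, u x ≤ A * ∫ x in ball z (2 * r), e x) :
    ∫ x in K, u x ≤ 4 * A * ∫ x in cthickening (3 * r) K, e x := by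
  classical
  have hUm : MeasurableSet UH := (isOpen_lt continuous_const Complex.continuous_im).measurableSet
  have hK3 : IsCompact (cthickening (3 * r) K) := hK.cthickening
  have hb : ∀ z ∈ cthickening r K, ball z (2 * r) ⊆ cthickening (3 * r) K := fun z hz => by
    refine (ball_subset_closedBall.trans (closedBall_subset_cthickening hz _)).trans ?_
    rw [show 3 * r = 2 * r + r by ring]
    exact cthickening_cthickening_subset (by positivity) hr.le K
  have conv : ∀ {w : ℂ → ℝ}, ContinuousOn w UH → (∀ z, 0 ≤ w z) → ∀ S, MeasurableSet S →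
      S ⊆ cthickening (3 * r) K →
      ENNReal.ofReal (∫ x in S, w x) = ∫⁻ x in S, ENNReal.ofReal (UH.piecewise w 0 x) :=
    fun hw w0 S hS hS' => by
      rw [ofReal_integral_eq_lintegral_ofReal
        (((hw.mono hU).integrableOn_compact hK3).mono_set hS') (Eventually.of_forall w0)]
      exact setLIntegral_congr_fun hS fun x hx => by
        simp only [piecewise_eq_of_mem _ _ _ (hU (hS' hx))]
  have mu := (hu.measurable_piecewise (continuousOn_const (c := (0 : ℝ))) hUm).ennreal_ofReal
  have me := (he.measurable_piecewise (continuousOn_const (c := (0 : ℝ))) hUm).ennreal_ofReal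
  set p : ℝ≥0∞ := ENNReal.ofReal r ^ 2 * NNReal.pi with hp
  have p0 : p ≠ 0 := mul_ne_zero (pow_ne_zero _ (by simpa using hr))
    (by exact_mod_cast NNReal.pi_ne_zero)
  have p1 : p ≠ ⊤ := ENNReal.mul_ne_top (ENNReal.pow_ne_top ENNReal.ofReal_ne_top)
    ENNReal.coe_ne_top
  have e1 : ENNReal.ofReal (∫ x in K, u x) * p ≤
      ∫⁻ z in cthickening r K, ∫⁻ x in ball z r, ENNReal.ofReal (UH.piecewise u 0 x) := by
    rw [conv hu u0 K hK.measurableSet (self_subset_cthickening K)]
    refine le_trans ?_ (swap_a1 mu _ _).ge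
    rw [← lintegral_mul_const' _ _ p1]
    refine le_trans (le_of_eq ?_) (setLIntegral_le_lintegral K _)
    refine setLIntegral_congr_fun hK.measurableSet fun x hx => ?_
    rw [Measure.restrict_apply measurableSet_ball, inter_eq_left.2
      (ball_subset_closedBall.trans (closedBall_subset_cthickening hx r)), Complex.volume_ball]
    rfl
  have e2 : ∫⁻ z in cthickening r K, ∫⁻ x in ball z (2 * r), ENNReal.ofReal (UH.piecewise e 0 x) ≤
      ENNReal.ofReal (∫ x in cthickening (3 * r) K, e x) * (4 * p) := by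
    rw [conv he e0 _ hK3.measurableSet Subset.rfl]
    refine (swap_a1 me _ _).le.trans ?_
    rw [← lintegral_mul_const' _ _ (ENNReal.mul_ne_top (by simp) p1),
      ← lintegral_indicator hK3.measurableSet]
    refine lintegral_mono fun x => ?_
    by_cases hx : x ∈ cthickening (3 * r) K
    · rw [indicator_of_mem hx]
      refine mul_le_mul' le_rfl ((Measure.restrict_apply_le _ _).trans (le_of_eq ?_))
      rw [Complex.volume_ball, ENNReal.ofReal_mul zero_le_two, mul_pow, hp, mul_assoc]
      norm_num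
    · rw [Measure.restrict_apply measurableSet_ball, eq_empty_of_forall_notMem
        (s := ball x (2 * r) ∩ cthickening r K) fun z hz => hx (hb z hz.2 (mem_ball_comm.1 hz.1))]
      simp
  have e3 : ∫⁻ z in cthickening r K, ∫⁻ x in ball z r, ENNReal.ofReal (UH.piecewise u 0 x) ≤
      ENNReal.ofReal A * ∫⁻ z in cthickening r K, ∫⁻ x in ball z (2 * r),
        ENNReal.ofReal (UH.piecewise e 0 x) := by
    rw [← lintegral_const_mul' _ _ ENNReal.ofReal_ne_top]
    refine setLIntegral_mono' isClosed_cthickening.measurableSet fun z hz => ?_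
    rw [← conv hu u0 _ measurableSet_ball ((ball_subset_ball (by linarith)).trans (hb z hz)),
      ← conv he e0 _ measurableSet_ball (hb z hz), ← ENNReal.ofReal_mul hA]
    exact ENNReal.ofReal_le_ofReal (h z hz)
  have e4 := e1.trans (e3.trans (mul_le_mul' le_rfl e2))
  clear_value p
  rw [← mul_assoc, ← mul_assoc, ENNReal.mul_le_mul_iff_left p0 p1, ← ENNReal.ofReal_mul hA,
    ← ENNReal.ofReal_ofNat 4, ← ENNReal.ofReal_mul
      (mul_nonneg hA (integral_nonneg e0)), ENNReal.ofReal_le_ofReal_iff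
      (mul_nonneg (mul_nonneg hA (integral_nonneg e0)) (by norm_num))] at e4
  linarith

end Pool.Agent.Lib.MP_a52643_an.H53
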