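import Pool.Agent.Lib.MP_a52643_an.H53A0b

open Complex MeasureTheory Set Filter Topology Metric
open UpperHalfPlane (ofComplex)
open scoped ComplexConjugate ContDiff ENNReal UpperHalfPlane Laplacian Real

noncomputable section

namespace Pool.Agent.Lib.MP_a52643_an.H53

variable {J : Type} {l : Filter J} {lam : J → ℝ} {Φ : J → ℤ → V → ℂ} {κ : ℝ}

lemma hyp_weight_a2 {τ f : ℂ → ℂ} (hτ : Tst 1 τ) :
    ∫ z, τ z * (z.im : ℂ) ^ 2 * f z ∂hyp = ∫ z, τ z * f z := by
  have h2 : Tst 1 fun z => τ z * (z.im : ℂ) ^ 2 := hτ.mul ((cdOn_im 1).pow 2)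
  rw [tf_hyp h2.tf f]
  have := tf_congr (f := fun z => (z.im : ℂ) ^ 2 * ((z.im : ℂ) ^ 2)⁻¹ * f z) (g := f) hτ.tf
    fun z hz => by
      have hy : (z.im : ℂ) ≠ 0 := by exact_mod_cast (ne_of_gt hz)
      rw [mul_inv_cancel₀ (pow_ne_zero 2 hy), one_mul]
  rw [← this]
  congr 1
  ext z
  ring

/-- weak convergence with respect to Lebesgue measure -/
lemma QF.weakL_a2 (h : QF l lam Φ κ) {τ : ℂ → ℂ} (hτ : Tst 1 τ) (a b : ℤ) :
    Tendsto (fun j => ∫ z, τ z * psi (Φ j) ![a, b] z) l (𝓝 (lc κ a b * ∫ z, τ z)) := by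
  have h2 : Tst 1 fun z => τ z * (z.im : ℂ) ^ 2 := hτ.mul ((cdOn_im 1).pow 2)
  have := h.weak _ h2 a b
  have e : ∫ z, τ z * (z.im : ℂ) ^ 2 ∂hyp = ∫ z, τ z := by
    simpa using hyp_weight_a2 (f := fun _ => 1) hτ
  simpa only [hyp_weight_a2 hτ, e] using this

lemma sq_eq_a2 {lam : ℝ} {Φ : ℤ → V → ℂ} (h : Ladder lam Φ) (n : ℤ) (z : ℂ) :
    ((‖ph Φ n z‖ ^ 2 : ℝ) : ℂ) = (-1) ^ n * psi Φ ![n, -n] z := by
  rw [← mul_conj_sq, psi_two]
  simp only [ph]
  rw [h.cnj]
  ring

lemma norm_lc_a2 (κ : ℝ) (a b : ℤ) : ‖lc κ a b‖ ≤ |κ| := by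
  unfold lc
  split_ifs
  · simp
  · simp

lemma QF.db_sq_a2 (h : QF l lam Φ κ) (n : ℤ) :
    DB l fun j z => ((‖ph (Φ j) n z‖ ^ 2 : ℝ) : ℂ) := by
  intro K hK hU
  obtain ⟨δ, hδ, hδU⟩ := hK.exists_cthickening_subset_open isOpen_UH hU
  refine ⟨9 * π * |κ| + 1, δ / 3, by positivity,
    (cthickening_mono (by linarith) K).trans hδU, fun ε hε hε0 => ?_⟩
  obtain ⟨t, htK, htf, hcov⟩ := hK.finite_cover_balls hε
  have key : ∀ w ∈ t, ∀ᶠ j in l, ∫ x in closedBall w (2 * ε), ‖ph (Φ j) n x‖ ^ 2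
      ≤ (9 * π * |κ| + 1) * ε ^ 2 := by
    intro w hw
    have hb : ball w (3 * ε) ⊆ UH := fun x hx => hδU
      (mem_cthickening_of_dist_le x w δ K (htK hw) (by have := mem_ball.1 hx; linarith))
    obtain ⟨θ, θ1, θ2, θ3, θ4, θ5⟩ := exists_bump (isCompact_closedBall w (2 * ε)) isOpen_ball
      (closedBall_subset_ball (by linarith) : closedBall w (2 * ε) ⊆ ball w (3 * ε))
    have hT : Tst 1 fun z => (θ z : ℂ) :=
      ⟨ofRealCLM.contDiff.comp θ1, θ2.comp_left (g := fun r : ℝ => (r : ℂ)) (by simp),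
        (closure_mono (Function.support_comp_subset (g := fun r : ℝ => (r : ℂ)) (by simp) θ)).trans
          (θ3.trans hb)⟩
    have hI : ‖∫ z, (θ z : ℂ)‖ ≤ 9 * π * ε ^ 2 := by
      rw [← setIntegral_eq_integral_of_forall_compl_eq_zero (s := ball w (3 * ε)) fun x hx => by
        simp [image_eq_zero_of_notMem_tsupport fun h' => hx (θ3 h')]]
      refine (norm_setIntegral_le_of_norm_le_const (C := 1) measure_ball_lt_top fun x _ => ?_).trans
        (le_of_eq ?_)
      · rw [Complex.norm_real, Real.norm_of_nonneg (θ5 x).1]; exact (θ5 x).2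
      · rw [measureReal_def, Complex.volume_ball, ENNReal.toReal_mul, ENNReal.toReal_pow,
          ENNReal.toReal_ofReal (by positivity)]
        simp
        ring
    have hlim := (h.weakL_a2 hT n (-n)).norm
    have hlt : ‖lc κ n (-n) * ∫ z, (θ z : ℂ)‖ < (9 * π * |κ| + 1) * ε ^ 2 := by
      rw [norm_mul]
      have := mul_le_mul (norm_lc_a2 κ n (-n)) hI (norm_nonneg _) (abs_nonneg _)
      nlinarith [pow_pos hε 2]
    filter_upwards [hlim.eventually (gt_mem_nhds hlt)] with j hj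
    refine le_trans ?_ hj.le
    have hc : ContinuousOn (fun x => ‖ph (Φ j) n x‖ ^ 2) UH :=
      ((h.lad j).cd_ph n).continuousOn.norm.pow 2
    have e : ‖∫ z, (θ z : ℂ) * psi (Φ j) ![n, -n] z‖ = ‖∫ z, θ z * ‖ph (Φ j) n z‖ ^ 2‖ := by
      rw [← Complex.norm_real (∫ z, θ z * ‖ph (Φ j) n z‖ ^ 2), ← integral_complex_ofReal]
      have : ∀ z, ((θ z * ‖ph (Φ j) n z‖ ^ 2 : ℝ) : ℂ)
          = (-1) ^ n * ((θ z : ℂ) * psi (Φ j) ![n, -n] z) := fun z => by
        rw [ofReal_mul, sq_eq_a2 (h.lad j)]; ring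
      simp only [this]
      rw [integral_const_mul, norm_mul]
      simp
    have hi : Integrable fun z => θ z * ‖ph (Φ j) n z‖ ^ 2 := by
      have := (tf_integrable hT.tf (continuous_ofReal.comp_continuousOn hc)).re
      refine this.congr (Eventually.of_forall fun z => ?_)
      simp only [Function.comp, RCLike.re_to_complex, ← ofReal_mul, ofReal_re]
    rw [e]
    calc ∫ x in closedBall w (2 * ε), ‖ph (Φ j) n x‖ ^ 2
        = ∫ x in closedBall w (2 * ε), θ x * ‖ph (Φ j) n x‖ ^ 2 :=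
          setIntegral_congr_fun measurableSet_closedBall fun x hx => by
            simp only [θ4.self_of_nhdsSet x hx, one_mul]
      _ ≤ ∫ x, θ x * ‖ph (Φ j) n x‖ ^ 2 :=
          setIntegral_le_integral hi (Eventually.of_forall fun x =>
            mul_nonneg (θ5 x).1 (by positivity))
      _ ≤ _ := le_abs_self _
  filter_upwards [(eventually_all_finite htf).2 key] with j hj z hz
  obtain ⟨w, hw, hzw⟩ := mem_iUnion₂.1 (hcov hz)
  refine le_trans ?_ (hj w hw)
  have hb : closedBall w (2 * ε) ⊆ UH := fun x hx => hδU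
    (mem_cthickening_of_dist_le x w δ K (htK hw) (by have := mem_closedBall.1 hx; linarith))
  have hc : ContinuousOn (fun x => ‖ph (Φ j) n x‖ ^ 2) UH :=
    ((h.lad j).cd_ph n).continuousOn.norm.pow 2
  simp only [Complex.norm_real, Real.norm_of_nonneg (sq_nonneg _)]
  refine setIntegral_mono_set ((hc.mono hb).integrableOn_compact (isCompact_closedBall _ _))
    (Eventually.of_forall fun x => by positivity) (LE.le.eventuallyLE fun x hx => ?_)
  have h1 := mem_ball.1 hx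
  have h2 := mem_ball.1 hzw
  have := dist_triangle x z w
  exact mem_closedBall.2 (by linarith)

theorem QF.db (h : QF l lam Φ κ) (a b : ℤ) : DB l fun j => psi (Φ j) ![a, b] := by
  have hc : ∀ n j, ContinuousOn (fun z => ((‖ph (Φ j) n z‖ ^ 2 : ℝ) : ℂ)) UH := fun n j =>
    continuous_ofReal.comp_continuousOn (((h.lad j).cd_ph n).continuousOn.norm.pow 2)
  refine ((h.db_sq_a2 a).add (h.db_sq_a2 b) (hc a) (hc b)).of_le
    (fun j => (hc a j).add (hc b j)) fun j z _ => ?_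
  rw [← ofReal_add, Complex.norm_real, Real.norm_of_nonneg (by positivity), psi_two, norm_mul]
  nlinarith [sq_nonneg (‖ph (Φ j) a z‖ - ‖ph (Φ j) b z‖), norm_nonneg (ph (Φ j) a z),
    norm_nonneg (ph (Φ j) b z)]

theorem QF.wd (h : QF l lam Φ κ) (a b : ℤ) :
    WD l fun j z => psi (Φ j) ![a, b] z - lc κ a b := by
  have hc : ∀ j, ContinuousOn (psi (Φ j) ![a, b]) UH := fun j => ((h.lad j).cd_psi _).continuousOn
  refine ⟨fun j => (hc j).sub continuousOn_const, fun τ hτ => ?_, ?_⟩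
  · have := (h.weakL_a2 hτ a b).sub_const (lc κ a b * ∫ z, τ z)
    rw [sub_self] at this
    refine this.congr fun j => ?_
    simp only [mul_sub]
    rw [integral_sub (tf_integrable hτ.tf (hc j)) (tf_integrable hτ.tf continuousOn_const),
      integral_mul_const, mul_comm]
  · simp only [sub_eq_add_neg]
    exact (h.db a b).add (DB.const _) hc fun _ => continuousOn_const

lemma ladder_smul_a2 {lam : ℝ} {Φ : ℤ → V → ℂ} (h : Ladder lam Φ) (c : ℝ) :
    Ladder lam fun n v => (c : ℂ) * Φ n v := by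
  refine ⟨fun n => contDiffOn_const.mul (h.smooth n), fun n => (h.hom n).const_mul _,
    fun n v hv => ?_, fun n v hv => ?_, fun n v => ?_⟩
  · rw [Ep_const_mul _ (diffAt_of_Om (h.smooth n) one_ne_zero hv), h.up n v hv]; ring
  · rw [Em_const_mul _ (diffAt_of_Om (h.smooth _) one_ne_zero hv), h.down n v hv]; ring
  · rw [map_mul, conj_ofReal, h.cnj]; ring

lemma hyp_le_a2 {u : ℂ → ℝ} (hu : ContinuousOn u UH) (h0 : ∀ z, 0 ≤ u z) {K : Set ℂ}
    (hK : IsCompact K) {M : ℝ} (hM : 1 ≤ M) (hKM : K ⊆ bx M) :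
    ∫ z in K, u z ∂hyp ≤ M ^ 2 * ∫ z in bx M, u z := by
  have hU := hKM.trans (bx_sub hM)
  rw [← integral_indicator (μ := hyp) hK.measurableSet, integral_hyp_weight]
  have : ∀ z, (1 / z.im ^ 2) • K.indicator u z = K.indicator (fun z => (1 / z.im ^ 2) * u z) z := by
    intro z; by_cases h : z ∈ K <;> simp [h]
  simp only [this]
  rw [setIntegral_indicator hK.measurableSet, inter_eq_self_of_subset_right hU]
  have c : ContinuousOn (fun z : ℂ => 1 / z.im ^ 2 * u z) UH :=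
    (continuousOn_const.div (by fun_prop) fun z hz => pow_ne_zero 2 (ne_of_gt hz)).mul hu
  have i1 : IntegrableOn u (bx M) := (hu.mono (bx_sub hM)).integrableOn_compact (bx_compact M)
  calc ∫ z in K, 1 / z.im ^ 2 * u z ≤ ∫ z in K, M ^ 2 * u z := by
        refine setIntegral_mono_on ((c.mono hU).integrableOn_compact hK)
          ((i1.mono_set hKM).const_mul _) hK.measurableSet fun z hz => ?_
        refine mul_le_mul_of_nonneg_right ?_ (h0 z)
        have h1 : 0 < z.im := hU hz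
        have h2 : M⁻¹ ≤ z.im := (hKM hz).2.1
        have h3 : 1 ≤ M * z.im := by
          have := mul_le_mul_of_nonneg_left h2 (by linarith : 0 ≤ M)
          rwa [mul_inv_cancel₀ (by linarith)] at this
        rw [div_le_iff₀ (by positivity)]
        nlinarith
    _ = M ^ 2 * ∫ z in K, u z := integral_const_mul _ _
    _ ≤ _ := mul_le_mul_of_nonneg_left
        (setIntegral_mono_set i1 (Eventually.of_forall h0) hKM.eventuallyLE) (by positivity)

/-- one weight dominating countably many null families -/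
lemma exists_eta_a2 {x : ℕ → J → ℝ} (h0 : ∀ m j, 0 ≤ x m j) (hx : ∀ m, Tendsto (x m) l (𝓝 0)) :
    ∃ η : J → ℝ, (∀ j, 0 ≤ η j) ∧ Tendsto η l (𝓝 0) ∧ ∀ m, ∀ᶠ j in l, x m j ≤ 2 ^ m * η j := by
  have hb : ∀ j m, ‖(1 / 2 : ℝ) ^ m * min 1 (x m j)‖ ≤ (1 / 2) ^ m := fun j m => by
    rw [Real.norm_of_nonneg (mul_nonneg (by positivity) (le_min one_pos.le (h0 m j)))]
    exact mul_le_of_le_one_right (by positivity) (min_le_left _ _)
  have hn : ∀ j m, 0 ≤ (1 / 2 : ℝ) ^ m * min 1 (x m j) := fun j m =>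
    mul_nonneg (by positivity) (le_min one_pos.le (h0 m j))
  refine ⟨fun j => ∑' m, (1 / 2 : ℝ) ^ m * min 1 (x m j), fun j => tsum_nonneg (hn j), ?_,
    fun m => ?_⟩
  · have := tendsto_tsum_of_dominated_convergence (𝓕 := l) (g := fun _ => (0 : ℝ))
      (f := fun j m => (1 / 2 : ℝ) ^ m * min 1 (x m j)) summable_geometric_two (fun m => by
        have := ((tendsto_const_nhds (x := (1 : ℝ))).min (hx m)).const_mul ((1 / 2 : ℝ) ^ m)
        simpa using this) (Eventually.of_forall hb)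
    simpa only [tsum_zero] using this
  · filter_upwards [(hx m).eventually (ge_mem_nhds one_pos)] with j hj
    have h1 := (Summable.of_norm_bounded summable_geometric_two (hb j)).le_tsum m
      fun k _ => hn j k
    rw [min_eq_right hj] at h1
    calc x m j = 2 ^ m * ((1 / 2) ^ m * x m j) := by
          rw [← mul_assoc, ← mul_pow]; simp
      _ ≤ _ := mul_le_mul_of_nonneg_left h1 (by positivity)

/-- a single weight for all compact sets, then the homogeneous estimate `LB_four` -/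
theorem sm_all (hL : ∀ j, Ladder (lam j) (Φ j)) (ht : Tendsto lam l atTop)
    (h0 : SM l (fun j => (√(lam j))⁻¹) fun j => psi (Φ j) ![0, 0]) (a b : ℤ) :
    SM l (fun j => (√(lam j))⁻¹) fun j => psi (Φ j) ![a, b] := by
  have h1 : ∀ m : ℕ, (1 : ℝ) ≤ ((m + 1 : ℕ) : ℝ) := fun m => by exact_mod_cast Nat.le_add_left 1 m
  obtain ⟨η0, η1, η2, η3⟩ := exists_eta_a2 (l := l)
    (x := fun m j => (√(lam j))⁻¹ * ∫ z in bx ((m + 1 : ℕ) : ℝ), ‖psi (Φ j) ![0, 0] z‖ ^ 2)
    (fun m j => mul_nonneg (by positivity) (integral_nonneg fun z => by positivity))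
    fun m => h0.lim _ (bx_compact _) (bx_sub (h1 m))
  set η : J → ℝ := fun j => η0 j + (√(lam j))⁻¹ with hη
  have ηt : Tendsto η l (𝓝 0) := by
    simpa using η2.add (tendsto_sqrt_lam ht).inv_tendsto_atTop
  have hp : ∀ᶠ j in l, 0 < √(lam j) := (tendsto_sqrt_lam ht).eventually_gt_atTop 0
  have ηn : ∀ j, 0 ≤ η j := fun j => add_nonneg (η1 j) (by positivity)
  set c : J → ℝ := fun j => (√(√(√(lam j) * η j)))⁻¹ with hc
  have c4 : ∀ j, c j ^ 4 = (√(lam j) * η j)⁻¹ := fun j => by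
    have h2 : 0 ≤ √(lam j) * η j := mul_nonneg (Real.sqrt_nonneg _) (ηn j)
    rw [hc, inv_pow, show (4 : ℕ) = 2 * 2 from rfl, pow_mul, Real.sq_sqrt (Real.sqrt_nonneg _),
      Real.sq_sqrt h2]
  set Ψ : J → ℤ → V → ℂ := fun j n v => (c j : ℂ) * Φ j n v with hΨ
  have hL' : ∀ j, Ladder (lam j) (Ψ j) := fun j => ladder_smul_a2 (hL j) (c j)
  have hpsi : ∀ j a b z, ‖psi (Ψ j) ![a, b] z‖ ^ 2
      = (√(lam j) * η j)⁻¹ * ‖psi (Φ j) ![a, b] z‖ ^ 2 := fun j a b z => by
    rw [← c4]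
    simp only [psi_two, ph, hΨ, norm_mul, Complex.norm_real, mul_pow, Real.norm_eq_abs, sq_abs]
    ring
  have hcont : ∀ j a b, ContinuousOn (fun z => ‖psi (Ψ j) ![a, b] z‖ ^ 2) UH := fun j a b =>
    ((hL' j).cd_psi _).continuousOn.norm.pow 2
  have hLH : LH l fun j z => ‖psi (Ψ j) ![0, 0] z‖ ^ 2 := by
    intro K hK hU
    obtain ⟨M, hM, hKM⟩ := exists_bx hK hU
    obtain ⟨m, rfl⟩ : ∃ m, M = m + 1 := ⟨M - 1, by omega⟩
    refine ⟨((m + 1 : ℕ) : ℝ) ^ 2 * 2 ^ m, ?_⟩
    filter_upwards [η3 m, hp] with j hj hj0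
    refine (hyp_le_a2 (hcont j 0 0) (fun z => by positivity) hK (h1 m) hKM).trans
      (mul_le_mul_of_nonneg_left ?_ (by positivity))
    have hη0 : 0 < η j := add_pos_of_nonneg_of_pos (η1 j) (by positivity)
    simp only [hpsi]
    rw [integral_const_mul, mul_inv, mul_comm (√(lam j))⁻¹, mul_assoc, inv_mul_le_iff₀ hη0]
    have : η0 j ≤ η j := le_add_of_nonneg_right (by positivity)
    calc _ ≤ 2 ^ m * η0 j := hj
      _ ≤ 2 ^ m * η j := by gcongr
      _ = _ := mul_comm _ _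
  have hLB : LB l fun j v => ‖Ψ j 0 v‖ ^ 4 := by
    intro R
    obtain ⟨C, hC⟩ := hLH.lb (fun j z => by positivity) (fun j => hcont j 0 0) R
    refine ⟨C, hC.mono fun j hj => le_of_eq_of_le ?_ hj⟩
    refine setIntegral_congr_fun (measurableSet_KB R) fun v hv => ?_
    simp only [psi_two, norm_mul, (hL' j).norm_ph 0 (KB_subset_Om R hv)]
    ring
  have hF : Fam l lam Ψ := ⟨hL', ht, LB_four hL' ht hLB⟩
  refine ⟨fun j => ((hL j).cd_psi _).continuousOn, fun K hK hU => ?_⟩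
  obtain ⟨C, hC⟩ := (hF.l2_psi a b).bd K hK hU
  obtain ⟨Y, hY⟩ := hK.exists_bound_of_continuousOn (f := fun z : ℂ => z.im ^ 2) (by fun_prop)
  refine squeeze_zero' (g := fun j => η j * (max Y 0 * C)) (Eventually.of_forall fun j =>
    mul_nonneg (by positivity) (integral_nonneg fun z => by positivity)) ?_
    (by simpa using ηt.mul_const (max Y 0 * C))
  filter_upwards [hC, hp] with j hj hj0
  have hη0 : 0 < η j := add_pos_of_nonneg_of_pos (η1 j) (by positivity)
  have h2 := (setIntegral_le_hyp (hcont j a b) (fun z => by positivity) hK hU (Y := max Y 0)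
    fun z hz => ((le_abs_self _).trans (hY z hz)).trans (le_max_left _ _)).trans
    (mul_le_mul_of_nonneg_left hj (le_max_right _ _))
  simp only [hpsi] at h2
  rw [integral_const_mul, mul_inv, mul_comm (√(lam j))⁻¹, mul_assoc, inv_mul_le_iff₀ hη0] at h2
  exact h2

end Pool.Agent.Lib.MP_a52643_an.H53
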