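import Pool.Agent.Lib.MP_a52643_an.H53A0

open Complex MeasureTheory Set Filter Topology Metric
open UpperHalfPlane (ofComplex)
open scoped ComplexConjugate ContDiff ENNReal UpperHalfPlane Laplacian Real

noncomputable section

namespace Pool.Agent.Lib.MP_a52643_an.H53

/-- Wirtinger derivatives at a point -/
structure HD (f : ℂ → ℂ) (z a b : ℂ) : Prop where
  diff : DifferentiableAt ℝ f z
  x : dz f z = a
  y : dzb f z = b

lemma HD.of_diff {f : ℂ → ℂ} {z : ℂ} (h : DifferentiableAt ℝ f z) :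
    HD f z (dz f z) (dzb f z) := ⟨h, rfl, rfl⟩

lemma HD.mul {f g : ℂ → ℂ} {z a b c d : ℂ} (h : HD f z a b) (h' : HD g z c d) :
    HD (fun x => f x * g x) z (a * g z + f z * c) (b * g z + f z * d) :=
  ⟨h.diff.mul h'.diff, by rw [dz_mul h.diff h'.diff, h.x, h'.x],
    by rw [dzb_mul h.diff h'.diff, h.y, h'.y]⟩

lemma HD.add {f g : ℂ → ℂ} {z a b c d : ℂ} (h : HD f z a b) (h' : HD g z c d) :
    HD (fun x => f x + g x) z (a + c) (b + d) := by
  refine ⟨h.diff.add h'.diff, ?_, ?_⟩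
  · rw [← h.x, ← h'.x]
    simp only [dz, wp, fderiv_fun_add h.diff h'.diff, _root_.add_apply]
    ring
  · rw [← h.y, ← h'.y]
    simp only [dzb, wm, fderiv_fun_add h.diff h'.diff, _root_.add_apply]
    ring

lemma HD.const (c z : ℂ) : HD (fun _ => c) z 0 0 :=
  ⟨differentiableAt_const c, by simp [dz, wp], by simp [dzb, wm]⟩

lemma HD.sub_const (z0 z : ℂ) : HD (fun x => x - z0) z 1 0 := by
  have h : HasFDerivAt (fun x : ℂ => x - z0) (ContinuousLinearMap.id ℝ ℂ) z :=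
    (hasFDerivAt_id z).sub_const z0
  exact ⟨h.differentiableAt, by simp [dz, wp, h.fderiv], by simp [dzb, wm, h.fderiv]⟩

lemma HD.conj_sub (z0 z : ℂ) : HD (fun x => conj (x - z0)) z 0 1 := by
  have h := (HD.sub_const z0 z).diff
  have h' : HasFDerivAt (fun x : ℂ => x - z0) (ContinuousLinearMap.id ℝ ℂ) z :=
    (hasFDerivAt_id z).sub_const z0
  refine ⟨differentiableAt_conj' h, ?_, ?_⟩
  · simp only [dz, wp, fderiv_conj_comp (fun x : ℂ => x - z0), h'.fderiv]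
    simp
  · simp only [dzb, wm, fderiv_conj_comp (fun x : ℂ => x - z0), h'.fderiv]
    simp

lemma HD.im (z : ℂ) : HD (fun x : ℂ => (x.im : ℂ)) z (-I / 2) (I / 2) := by
  have h : HasFDerivAt (fun x : ℂ => (x.im : ℂ)) (ofRealCLM.comp imCLM) z :=
    (ofRealCLM.comp imCLM).hasFDerivAt
  exact ⟨h.differentiableAt, by simp [dz, wp, h.fderiv], by simp [dzb, wm, h.fderiv]⟩

lemma HD.inv {f : ℂ → ℂ} {z a b : ℂ} (h : HD f z a b) (h0 : ∀ x, f x ≠ 0) :
    HD (fun x => (f x)⁻¹) z (-a / f z ^ 2) (-b / f z ^ 2) := by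
  have h1 : DifferentiableAt ℝ (fun x => (f x)⁻¹) z := h.diff.inv (h0 z)
  have h2 := (HD.of_diff h1).mul h
  have h3 : (fun x => (f x)⁻¹ * f x) = fun _ => 1 := funext fun x => inv_mul_cancel₀ (h0 x)
  rw [h3] at h2
  have h4 := h2.x.symm.trans (HD.const 1 z).x
  have h5 := h2.y.symm.trans (HD.const 1 z).y
  have h6 := h0 z
  refine ⟨h1, ?_, ?_⟩
  · field_simp at h4 ⊢
    linear_combination h4
  · field_simp at h5 ⊢
    linear_combination h5

/-- regularised distance -/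
def rd (r : ℝ) (z0 x : ℂ) : ℝ := √(r ^ 2 + normSq (x - z0))

lemma rd_sq (r : ℝ) (z0 x : ℂ) : rd r z0 x ^ 2 = r ^ 2 + ‖x - z0‖ ^ 2 := by
  rw [rd, Real.sq_sqrt (add_nonneg (sq_nonneg r) (normSq_nonneg _)), normSq_eq_norm_sq]

lemma le_rd {r : ℝ} (z0 x : ℂ) : r ≤ rd r z0 x :=
  Real.le_sqrt_of_sq_le (le_add_of_nonneg_right (normSq_nonneg _))

lemma cd_rd {r : ℝ} (hr : 0 < r) (z0 : ℂ) : ContDiff ℝ 1 fun x => (rd r z0 x : ℂ) := by
  refine ofRealCLM.contDiff.comp (ContDiff.sqrt ?_ fun x => ?_)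
  · exact contDiff_const.add (contDiff_normSq.comp (contDiff_id.sub contDiff_const))
  · exact (add_pos_of_pos_of_nonneg (pow_pos hr 2) (normSq_nonneg _)).ne'

lemma hd_rd {r : ℝ} (hr : 0 < r) (z0 x : ℂ) : HD (fun x => (rd r z0 x : ℂ)) x
    (conj (x - z0) / (2 * rd r z0 x)) ((x - z0) / (2 * rd r z0 x)) := by
  have h1 := HD.of_diff (((cd_rd hr z0).differentiable one_ne_zero) x)
  have h2 := h1.mul h1
  have h3 := (HD.const ((r : ℂ) ^ 2) x).add ((HD.sub_const z0 x).mul (HD.conj_sub z0 x))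
  have h4 : (fun x => (rd r z0 x : ℂ) * rd r z0 x)
      = fun x => (r : ℂ) ^ 2 + (x - z0) * conj (x - z0) := by
    funext x
    rw [mul_conj_sq, ← sq]
    exact_mod_cast rd_sq r z0 x
  rw [h4] at h2
  have h5 := h2.x.symm.trans h3.x
  have h6 := h2.y.symm.trans h3.y
  have h0 : (rd r z0 x : ℂ) ≠ 0 := by exact_mod_cast (hr.trans_le (le_rd z0 x)).ne'
  refine ⟨h1.diff, ?_, ?_⟩
  · field_simp
    linear_combination h5
  · field_simp
    linear_combination h6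

lemma neg_le_re {x : ℂ} {c : ℝ} (h : ‖x‖ ≤ c) : -c ≤ x.re :=
  (neg_le_neg h).trans ((neg_le_neg (abs_re_le_norm x)).trans (neg_abs_le _))

lemma mor_pt {a r t y Y Z ζ u : ℝ} {p w ζ1 ζ2 : ℂ} (hr : 0 < r) (hra : r ≤ a)
    (ha : a ^ 2 = r ^ 2 + ‖w‖ ^ 2) (ht : 0 < t) (hy : 0 < y) (hY : y ≤ Y) (hY' : y⁻¹ ≤ Y)
    (h0 : 0 ≤ ζ) (h1 : ζ ≤ 1) (z1 : ‖ζ1‖ ≤ Z) (z2 : ‖ζ2‖ ≤ Z) (h2 : Y ≤ r * t) (h3 : 1 ≤ r * t) :
    ζ * (r / (4 * a * (a + r))) * (u ^ 2 + ‖p‖ ^ 2) ≤
      (((ζ * ((2 * a)⁻¹ - (2 * (a + r))⁻¹) * u ^ 2 + ζ * (2 * (a + r))⁻¹ * ‖p‖ ^ 2 : ℝ) : ℂ)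
        + ζ1 * (w / (a + r)) * u ^ 2 + ζ2 * (w / (a + r)) * p ^ 2
        + ζ * (-w ^ 2 / (2 * a * (a + r) ^ 2)) * p ^ 2 + ζ * (w / (a + r)) * (I / y) * p ^ 2
        + 2 / t * (y * (ζ2 / (2 * (a + r))) + y * ζ * (-w / (4 * a * (a + r) ^ 2))
          + I * ζ / (2 * (a + r))) * (u * p)).re
      + (Z + Y + (Y * Z + 1) / 4) * (u ^ 2 + ‖p‖ ^ 2) := by
  have ha0 : 0 < a := hr.trans_le hra
  have har : 0 < a + r := by positivity
  have hZ : 0 ≤ Z := (norm_nonneg _).trans z1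
  have hY0 : 0 < Y := hy.trans_le hY
  have hw : ‖w‖ ≤ a := abs_le_of_sq_le_sq' (by nlinarith [sq_nonneg r]) ha0.le |>.2
  have nar : ‖(a : ℂ) + r‖ = a + r := by
    rw [← ofReal_add, norm_real, Real.norm_of_nonneg har.le]
  have nξ : ‖w / ((a : ℂ) + r)‖ ≤ 1 := by
    rw [norm_div, nar, div_le_one har]; linarith
  have nζ : ‖(ζ : ℂ)‖ = ζ := by rw [norm_real, Real.norm_of_nonneg h0]
  have na : ‖(a : ℂ)‖ = a := by rw [norm_real, Real.norm_of_nonneg ha0.le]
  have ny : ‖(y : ℂ)‖ = y := by rw [norm_real, Real.norm_of_nonneg hy.le]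
  have e1 : ‖ζ1 * (w / (a + r)) * u ^ 2‖ ≤ Z * u ^ 2 := by
    rw [norm_mul, norm_mul, norm_pow, norm_real, Real.norm_eq_abs, sq_abs]
    exact mul_le_mul_of_nonneg_right ((mul_le_mul z1 nξ (norm_nonneg _) hZ).trans_eq (mul_one Z))
      (sq_nonneg u)
  have e2 : ‖ζ2 * (w / (a + r)) * p ^ 2‖ ≤ Z * ‖p‖ ^ 2 := by
    rw [norm_mul, norm_mul, norm_pow]
    exact mul_le_mul_of_nonneg_right ((mul_le_mul z2 nξ (norm_nonneg _) hZ).trans_eq (mul_one Z))
      (sq_nonneg _)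
  have e3 : ‖ζ * (-w ^ 2 / (2 * a * (a + r) ^ 2)) * p ^ 2‖
      ≤ ζ * ((a - r) / (2 * a * (a + r))) * ‖p‖ ^ 2 := by
    simp only [norm_mul, norm_div, norm_neg, norm_pow, nar, nζ, na, Complex.norm_ofNat]
    have : ‖w‖ ^ 2 = (a - r) * (a + r) := by linarith
    rw [this]
    apply le_of_eq
    field_simp
  have e4 : ‖ζ * (w / (a + r)) * (I / y) * p ^ 2‖ ≤ Y * ‖p‖ ^ 2 := by
    rw [norm_mul, norm_mul, norm_mul, norm_pow, nζ, norm_div I, norm_I, ny, one_div]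
    refine mul_le_mul_of_nonneg_right ?_ (sq_nonneg _)
    exact (mul_le_mul (mul_le_one₀ h1 (norm_nonneg _) nξ) hY' (by positivity) zero_le_one).trans_eq
      (one_mul Y)
  have f1 : ‖y * (ζ2 / (2 * (a + r)))‖ ≤ Y * Z / (4 * r) := by
    rw [norm_mul, norm_div, norm_mul, nar, ny, Complex.norm_ofNat, mul_div_assoc]
    exact mul_le_mul hY (div_le_div₀ hZ z2 (by positivity) (by linarith)) (by positivity) hY0.le
  have f2 : ‖y * ζ * (-w / (4 * a * (a + r) ^ 2))‖ ≤ Y * ζ * (4 * a * (a + r))⁻¹ := by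
    simp only [norm_mul, norm_div, norm_neg, norm_pow, nar, nζ, na, ny, Complex.norm_ofNat]
    refine mul_le_mul (mul_le_mul_of_nonneg_right hY h0) ?_ (by positivity) (by positivity)
    rw [div_le_iff₀ (by positivity)]
    have : (4 * a * (a + r))⁻¹ * (4 * a * (a + r) ^ 2) = a + r := by field_simp
    rw [this]; linarith
  have f3 : ‖I * ζ / (2 * (a + r))‖ ≤ 1 / (4 * r) := by
    rw [norm_div, norm_mul, norm_mul, nar, nζ, norm_I, Complex.norm_ofNat, one_mul]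
    exact div_le_div₀ zero_le_one h1 (by positivity) (by linarith)
  have f4 : ‖(u : ℂ) * p‖ ≤ (u ^ 2 + ‖p‖ ^ 2) / 2 := by
    rw [norm_mul, norm_real, Real.norm_eq_abs]
    nlinarith [sq_nonneg (|u| - ‖p‖), sq_abs u]
  have e5 : ‖2 / t * (y * (ζ2 / (2 * (a + r))) + y * ζ * (-w / (4 * a * (a + r) ^ 2))
      + I * ζ / (2 * (a + r))) * (u * p)‖
      ≤ ((Y * Z + 1) / 4 + ζ * (r / (4 * a * (a + r)))) * (u ^ 2 + ‖p‖ ^ 2) := by
    rw [norm_mul, norm_mul, norm_div, norm_real, Real.norm_of_nonneg ht.le, Complex.norm_ofNat]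
    have g1 := (norm_add₃_le.trans (add_le_add (add_le_add f1 f2) f3))
    refine (mul_le_mul (mul_le_mul_of_nonneg_left g1 (by positivity)) f4 (norm_nonneg _)
      (by positivity)).trans ?_
    have g2 : 2 / t * (Y * Z / (4 * r) + Y * ζ * (4 * a * (a + r))⁻¹ + 1 / (4 * r))
        * ((u ^ 2 + ‖p‖ ^ 2) / 2) = ((Y * Z + 1) / 4 / (r * t)
          + ζ * (Y / t / (4 * a * (a + r)))) * (u ^ 2 + ‖p‖ ^ 2) := by
      field_simp
      ring
    rw [g2]
    refine mul_le_mul_of_nonneg_right (add_le_add (div_le_self (by positivity) h3)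
      (mul_le_mul_of_nonneg_left (div_le_div_of_nonneg_right ?_ (by positivity)) h0))
      (by positivity)
    rwa [div_le_iff₀ ht]
  have k1 : (2 * a)⁻¹ - (2 * (a + r))⁻¹ = 2 * (r / (4 * a * (a + r))) := by
    field_simp; ring
  have k2 : (2 * (a + r))⁻¹ = (a - r) / (2 * a * (a + r)) + 2 * (r / (4 * a * (a + r))) := by
    field_simp; ring
  simp only [add_re, ofReal_re]
  rw [k1, k2]
  have r1 := neg_le_re e1
  have r2 := neg_le_re e2
  have r3 := neg_le_re e3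
  have r4 := neg_le_re e4
  have r5 := neg_le_re e5
  have r6 := mul_nonneg hY0.le (sq_nonneg u)
  generalize r / (4 * a * (a + r)) = d at r5 ⊢
  generalize (a - r) / (2 * a * (a + r)) = σ at r3 ⊢
  linarith

lemma mor_core {lam : ℝ} {Φ : ℤ → V → ℂ} (hl : 0 < lam) (h : Ladder lam Φ) {ζ : ℂ → ℝ}
    (hζ : ContDiff ℝ 1 ζ) {z0 : ℂ} {ε r Y Z : ℝ} (hr : 0 < r) (hU : closedBall z0 ε ⊆ UH)
    (hs : tsupport ζ ⊆ ball z0 ε) (h01 : ∀ x, ζ x ∈ Icc (0 : ℝ) 1)
    (h1 : ∀ x ∈ ball z0 (2 * r), ζ x = 1) (hε : 2 * r ≤ ε)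
    (z1 : ∀ x, ‖dz (fun x => (ζ x : ℂ)) x‖ ≤ Z) (z2 : ∀ x, ‖dzb (fun x => (ζ x : ℂ)) x‖ ≤ Z)
    (hY : ∀ x ∈ ball z0 ε, x.im ≤ Y ∧ x.im⁻¹ ≤ Y) (h2 : Y ≤ r * √lam) (h3 : 1 ≤ r * √lam) :
    ∫ x in ball z0 (2 * r), en Φ x
      ≤ 48 * r * (Z + Y + (Y * Z + 1) / 4) * ∫ x in ball z0 ε, en Φ x := by
  have hU' : ball z0 ε ⊆ UH := ball_subset_closedBall.trans hU
  have ht : 0 < √lam := Real.sqrt_pos.2 hl
  have cζ : ContDiff ℝ 1 fun x => (ζ x : ℂ) := ofRealCLM.contDiff.comp hζ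
  have sζ : tsupport (fun x => (ζ x : ℂ)) ⊆ ball z0 ε :=
    (tsupport_comp_subset (g := ofReal) (by simp) ζ).trans hs
  have T : Tst 1 fun x => (ζ x : ℂ) := ⟨cζ, (isCompact_closedBall z0 ε).of_isClosed_subset
    (isClosed_tsupport _) (sζ.trans ball_subset_closedBall), sζ.trans hU'⟩
  have n0 : ∀ x, (rd r z0 x : ℂ) + r ≠ 0 := fun x => by
    exact_mod_cast (add_pos (hr.trans_le (le_rd z0 x)) hr).ne'
  have cq : ContDiff ℝ 1 fun x => ((rd r z0 x : ℂ) + r)⁻¹ :=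
    ((cd_rd hr z0).add contDiff_const).inv n0
  have cξ : ContDiffOn ℝ 1 (fun x => (x - z0) * ((rd r z0 x : ℂ) + r)⁻¹) UH :=
    ((contDiff_id.sub contDiff_const).mul cq).contDiffOn
  have T1 := T.mul (cξ.mul ((h.cd_ph 0).mul (h.cd_ph 0)))
  have T2 := T.mul (cξ.mul ((h.cd_ph 1).mul (h.cd_ph 1)))
  have T3 := T.mul (((contDiffOn_const (c := ((√lam : ℝ) : ℂ)⁻¹)).mul cq.contDiffOn).mul
    ((cdOn_im 1).mul ((h.cd_ph 0).mul (h.cd_ph 1))))
  set G1 : ℂ → ℂ := fun x => ζ x * ((x - z0) * ((rd r z0 x : ℂ) + r)⁻¹ * (ph Φ 0 x * ph Φ 0 x))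
  set G2 : ℂ → ℂ := fun x => ζ x * ((x - z0) * ((rd r z0 x : ℂ) + r)⁻¹ * (ph Φ 1 x * ph Φ 1 x))
  set G3 : ℂ → ℂ := fun x => ζ x * (((√lam : ℝ) : ℂ)⁻¹ * ((rd r z0 x : ℂ) + r)⁻¹
    * (x.im * (ph Φ 0 x * ph Φ 1 x)))
  have i1 : Integrable (dz G1) :=
    (continuous_dz T1.cd).integrable_of_hasCompactSupport (hcs_dz T1.hcs)
  have i2 : Integrable (dzb G2) :=
    (continuous_dzb T2.cd).integrable_of_hasCompactSupport (hcs_dzb T2.hcs)
  have i3 : Integrable (dzb G3) :=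
    (continuous_dzb T3.cd).integrable_of_hasCompactSupport (hcs_dzb T3.hcs)
  have iH : Integrable fun x => dz G1 x + dzb G2 x + dzb G3 x := (i1.add i2).add i3
  have H0 : ∫ x, (dz G1 x + dzb G2 x + dzb G3 x).re = 0 := by
    have := integral_re iH
    simp only [RCLike.re_to_complex] at this
    have i12 : Integrable fun x => dz G1 x + dzb G2 x := i1.add i2
    rw [this, integral_add i12 i3, integral_add i1 i2, integral_dz T1.cd T1.hcs,
      integral_dzb T2.cd T2.hcs, integral_dzb T3.cd T3.hcs]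
    simp
  have ce : ContinuousOn (en Φ) UH :=
    ((h.cd_ph 0).continuousOn.norm.pow 2).add ((h.cd_ph 1).continuousOn.norm.pow 2)
  have ie : IntegrableOn (en Φ) (ball z0 ε) :=
    ((ce.mono hU).integrableOn_compact (isCompact_closedBall _ _)).mono_set ball_subset_closedBall
  have ie' : IntegrableOn (en Φ) (ball z0 (2 * r)) := ie.mono_set (ball_subset_ball hε)
  have key : ∀ x, (48 * r)⁻¹ * (ball z0 (2 * r)).indicator (en Φ) x
      ≤ (dz G1 x + dzb G2 x + dzb G3 x).re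
        + (Z + Y + (Y * Z + 1) / 4) * (ball z0 ε).indicator (en Φ) x := by
    intro x
    by_cases hx : x ∈ ball z0 ε
    swap
    · have hx' : (fun x => (ζ x : ℂ)) =ᶠ[𝓝 x] 0 :=
        notMem_tsupport_iff_eventuallyEq.1 fun h' => hx (sζ h')
      have g : ∀ F : ℂ → ℂ, fderiv ℝ (fun x => (ζ x : ℂ) * F x) x = 0 := fun F => by
        have : (fun x => (ζ x : ℂ) * F x) =ᶠ[𝓝 x] fun _ => 0 := by
          filter_upwards [hx'] with y hy
          simp only [hy, Pi.zero_apply, zero_mul]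
        rw [this.fderiv_eq, fderiv_fun_const, Pi.zero_apply]
      rw [indicator_of_notMem hx, indicator_of_notMem fun h' => hx (ball_subset_ball hε h')]
      simp [dz, dzb, wp, wm, G1, G2, G3, g]
    have hxU := hU' hx
    have hy : 0 < x.im := hxU
    have hy0 : (x.im : ℂ) ≠ 0 := by exact_mod_cast hy.ne'
    have ht0 : ((√lam : ℝ) : ℂ) ≠ 0 := by exact_mod_cast ht.ne'
    have ha0 : (rd r z0 x : ℂ) ≠ 0 := by exact_mod_cast (hr.trans_le (le_rd z0 x)).ne'
    have a0 : al lam 0 = √lam := by simp [al]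
    have a1 : al lam (-1) = √lam := by simp [al]
    have d1 := h.dz_ph 0 hxU
    have d2 := h.dzb_ph 0 hxU
    have d3 := h.dzb_ph (-1) hxU
    have c1 : conj (ph Φ 1 x) = -ph Φ (-1) x := by simpa [ph] using h.cnj 1 (x, 1)
    simp only [a0, a1, zero_add, neg_add_cancel, Int.cast_zero, zero_mul, sub_zero, one_mul,
      Int.cast_neg, Int.cast_one, ← neg_eq_iff_eq_neg.2 c1] at d1 d2 d3
    have u1 : dz (ph Φ 0) x = √lam * ph Φ 1 x / (2 * x.im) := by
      field_simp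
      linear_combination (-I) * d1 + (2 * x.im * dz (ph Φ 0) x - √lam * ph Φ 1 x) * I_mul_I
    have u2 : dzb (ph Φ 0) x = √lam * conj (ph Φ 1 x) / (2 * x.im) := by
      field_simp
      linear_combination (-I) * d3
        + (2 * x.im * dzb (ph Φ 0) x - √lam * conj (ph Φ 1 x)) * I_mul_I
    have u3 : dzb (ph Φ 1) x = (-(√lam * ph Φ 0 x) + I * ph Φ 1 x) / (2 * x.im) := by
      field_simp
      linear_combination (-I) * d2 + (2 * x.im * dzb (ph Φ 1) x + √lam * ph Φ 0 x) * I_mul_I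
    have q0 := HD.of_diff ((cζ.differentiable one_ne_zero) x)
    have qq := ((hd_rd hr z0 x).add (HD.const r x)).inv n0
    have qξ := (HD.sub_const z0 x).mul qq
    have qu := HD.of_diff (h.diff_ph 0 hxU)
    have qp := HD.of_diff (h.diff_ph 1 hxU)
    have e1 := (q0.mul (qξ.mul (qu.mul qu))).x
    have e2 := (q0.mul (qξ.mul (qp.mul qp))).y
    have e3 := (q0.mul (((HD.const ((√lam : ℝ) : ℂ)⁻¹ x).mul qq).mul
      ((HD.im x).mul (qu.mul qp)))).y
    have hw : (x - z0) * conj (x - z0) = (rd r z0 x : ℂ) ^ 2 - (r : ℂ) ^ 2 := by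
      rw [mul_conj_sq]
      have := rd_sq r z0 x
      exact_mod_cast (by linarith : ‖x - z0‖ ^ 2 = rd r z0 x ^ 2 - r ^ 2)
    have hp := mul_conj_sq (ph Φ 1 x)
    have hu := h.ph_zero_real x
    have M := mor_pt (u := (ph Φ 0 x).re) (p := ph Φ 1 x) hr (le_rd z0 x) (rd_sq r z0 x) ht hy
      (hY x hx).1 (hY x hx).2 (h01 x).1 (h01 x).2 (z1 x) (z2 x) h2 h3
    have en_eq : en Φ x = (ph Φ 0 x).re ^ 2 + ‖ph Φ 1 x‖ ^ 2 := by
      rw [en, hu, norm_real, Real.norm_eq_abs, sq_abs, ofReal_re]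
    rw [indicator_of_mem hx, en_eq]
    refine le_trans ?_ (M.trans_eq ?_)
    · by_cases hx2 : x ∈ ball z0 (2 * r)
      · rw [indicator_of_mem hx2, h1 x hx2, en_eq, one_mul]
        refine mul_le_mul_of_nonneg_right ?_ (by positivity)
        have b1 : ‖x - z0‖ < 2 * r := by simpa [dist_eq_norm] using hx2
        have b2 : rd r z0 x ≤ 3 * r := abs_le_of_sq_le_sq' (by
          rw [rd_sq]; nlinarith [norm_nonneg (x - z0)]) (by positivity) |>.2
        have b3 := hr.trans_le (le_rd z0 x)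
        rw [inv_eq_one_div, div_le_div_iff₀ (by positivity) (by positivity)]
        nlinarith
      · rw [indicator_of_notMem hx2, mul_zero]
        have := hr.trans_le (le_rd z0 x)
        have := (h01 x).1
        positivity
    · congr 2
      simp only [G1, G2, G3]
      rw [e1, e2, e3, u1, u2, u3]
      have n1 := n0 x
      push_cast
      rw [← hu]
      push_cast at hp
      rw [← hp]
      field_simp
      linear_combination (4 * (√lam : ℝ) * x.im * ζ x * ph Φ 0 x ^ 2) * hw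
  have fin := integral_mono ((ie'.integrable_indicator measurableSet_ball).const_mul _)
    (iH.re.add ((ie.integrable_indicator measurableSet_ball).const_mul _)) key
  rw [integral_add' iH.re ((ie.integrable_indicator measurableSet_ball).const_mul _),
    integral_const_mul, integral_const_mul, integral_indicator measurableSet_ball,
    integral_indicator measurableSet_ball] at fin
  simp only [RCLike.re_to_complex, H0, zero_add] at fin
  rw [inv_mul_le_iff₀ (by positivity)] at fin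
  linarith

/-- Morawetz type estimate: the energy of a small ball against that of a larger ball -/
theorem morawetz {K : Set ℂ} (hK : IsCompact K) (hU : K ⊆ UH) :
    ∃ C ε0 : ℝ, 0 < C ∧ 0 < ε0 ∧ cthickening ε0 K ⊆ UH ∧
      ∀ (lam : ℝ) (Φ : ℤ → V → ℂ), 0 < lam → Ladder lam Φ → ∀ z ∈ K, ∀ ε r : ℝ, ε ≤ ε0 →
        C / √lam ≤ r → 4 * r ≤ ε →
        ∫ x in ball z (2 * r), en Φ x ≤ C * r / ε * ∫ x in ball z ε, en Φ x := by
  obtain ⟨δ, δ0, hδ⟩ := hK.exists_cthickening_subset_open isOpen_UH hU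
  obtain ⟨θ, θ1, θ2, θ3, θ4, θ5⟩ := exists_bump (isCompact_closedBall (0 : ℂ) (1 / 2)) isOpen_ball
    (closedBall_subset_ball (by norm_num : (1 / 2 : ℝ) < 1))
  have cθ : ContDiff ℝ 1 fun x => (θ x : ℂ) := ofRealCLM.contDiff.comp θ1
  have sθ : HasCompactSupport fun x => (θ x : ℂ) := θ2.comp_left (g := ofReal) (by simp)
  obtain ⟨Z1, hZ1⟩ := (continuous_dz cθ).bounded_above_of_compact_support (hcs_dz sθ)
  obtain ⟨Z2, hZ2⟩ := (continuous_dzb cθ).bounded_above_of_compact_support (hcs_dzb sθ)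
  obtain ⟨M, hM, hKM⟩ := exists_bx (hK.cthickening (r := δ)) hδ
  have hM' : (2 : ℝ) ≤ M := by exact_mod_cast hM
  set Z := max Z1 Z2
  have hZ : 0 ≤ Z := ((norm_nonneg _).trans (hZ1 0)).trans (le_max_left _ _)
  refine ⟨48 * (Z + M + (M * Z + 1) / 4), min δ 1, by positivity, by positivity,
    (cthickening_mono (min_le_left _ _) K).trans hδ, fun lam Φ hl h z hz ε r hε h1 h2 => ?_⟩
  have ht : 0 < √lam := Real.sqrt_pos.2 hl
  have hr : 0 < r := lt_of_lt_of_le (by positivity) h1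
  have e0 : 0 < ε := by linarith
  have e1 : ε ≤ 1 := hε.trans (min_le_right _ _)
  rw [div_le_iff₀ ht] at h1
  have h3 : (M : ℝ) ≤ r * √lam := by nlinarith [mul_nonneg (by linarith : (0 : ℝ) ≤ M) hZ]
  have hb : closedBall z ε ⊆ cthickening δ K :=
    (closedBall_subset_closedBall (hε.trans (min_le_left _ _))).trans
      (closedBall_subset_cthickening hz δ)
  have nn : ∀ x : ℂ, ‖-(ε⁻¹ • z) + ε⁻¹ • x‖ = ε⁻¹ * dist x z := fun x => by
    rw [neg_add_eq_sub, ← smul_sub, norm_smul, Real.norm_of_nonneg (by positivity), dist_eq_norm]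
  have cs : Continuous fun x : ℂ => -(ε⁻¹ • z) + ε⁻¹ • x := by fun_prop
  have H := mor_core (ζ := fun x => θ (-(ε⁻¹ • z) + ε⁻¹ • x)) (z0 := z) (ε := ε) (Y := M)
    (Z := Z / ε) hl h (θ1.comp (contDiff_const.add (contDiff_id.const_smul _))) hr (hb.trans hδ)
    (fun x hx => by
      have := θ3 (tsupport_comp_subset_preimage θ cs hx)
      rw [mem_ball_zero_iff, nn, inv_mul_lt_iff₀ e0, mul_one] at this
      exact this)
    (fun x => θ5 _)
    (fun x hx => θ4.self_of_nhdsSet _ (by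
      rw [mem_closedBall_zero_iff, nn, inv_mul_le_iff₀ e0]
      linarith [mem_ball.1 hx]))
    (by linarith)
    (fun x => by
      have : dz (fun x => (θ (-(ε⁻¹ • z) + ε⁻¹ • x) : ℂ)) x
          = (ε⁻¹ : ℝ) * dz (fun x => (θ x : ℂ)) (-(ε⁻¹ • z) + ε⁻¹ • x) := by
        simp only [dz, wp, fderiv_shift cθ]
        ring
      rw [this, norm_mul, norm_real, Real.norm_of_nonneg (by positivity), inv_mul_eq_div]
      exact div_le_div_of_nonneg_right ((hZ1 _).trans (le_max_left _ _)) e0.le)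
    (fun x => by
      rw [dzb_shift cθ, norm_mul, norm_real, Real.norm_of_nonneg (by positivity), inv_mul_eq_div]
      exact div_le_div_of_nonneg_right ((hZ2 _).trans (le_max_right _ _)) e0.le)
    (fun x hx => by
      obtain ⟨-, b1, b2⟩ := hKM (hb (ball_subset_closedBall hx))
      exact ⟨b2, inv_le_of_inv_le₀ (by positivity) b1⟩)
    h3 (by linarith)
  refine H.trans (mul_le_mul_of_nonneg_right ?_ (integral_nonneg fun x => by
    simp only [en]; positivity))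
  rw [le_div_iff₀ e0]
  have : 48 * r * (Z / ε + M + (M * (Z / ε) + 1) / 4) * ε
      = 48 * r * (Z + M * ε + (M * Z + ε) / 4) := by field_simp
  rw [this]
  have : (M : ℝ) * ε ≤ M := mul_le_of_le_one_right (by linarith) e1
  nlinarith

end Pool.Agent.Lib.MP_a52643_an.H53
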