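import Pool.Agent.Lib.MP_a52643_an.H53A1
import Pool.Agent.Lib.MP_a52643_an.H53A2
import Pool.Agent.Lib.MP_a52643_an.H53A3

open Complex MeasureTheory Set Filter Topology Metric
open UpperHalfPlane (ofComplex)
open scoped ComplexConjugate ContDiff ENNReal UpperHalfPlane Laplacian Real

noncomputable section

namespace Pool.Agent.Lib.MP_a52643_an.H53

variable {J : Type} {l : Filter J} {lam : J → ℝ} {Φ : J → ℤ → V → ℂ} {κ : ℝ}

lemma tend_a3b {x : J → ℝ} {M e : ℝ} (he : 0 < e) (h0 : ∀ j, 0 ≤ x j)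
    (h : ∀ ε, 0 < ε → ε ≤ e → ∀ᶠ j in l, x j ≤ M * ε) : Tendsto x l (𝓝 0) := by
  refine tendsto_order.2 ⟨fun a ha => Eventually.of_forall fun j => ha.trans_le (h0 j),
    fun a ha => ?_⟩
  have h1 : Tendsto (fun ε : ℝ => M * ε) (𝓝[>] 0) (𝓝 (M * 0)) :=
    ((continuous_const.mul continuous_id).tendsto 0).mono_left nhdsWithin_le_nhds
  rw [mul_zero] at h1
  obtain ⟨ε, h2, h3⟩ := ((h1.eventually_lt_const ha).and (Ioc_mem_nhdsGT he)).exists
  exact (h ε h3.1 h3.2).mono fun j hj => hj.trans_lt h2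

section one

variable {lam : ℝ} {Φ : ℤ → V → ℂ}

lemma en_nonneg_a3b (Φ : ℤ → V → ℂ) (z : ℂ) : 0 ≤ en Φ z := by unfold en; positivity

lemma en_cont_a3b (h : Ladder lam Φ) : ContinuousOn (en Φ) UH :=
  ((h.cd_ph 0).continuousOn.norm.pow 2).add ((h.cd_ph 1).continuousOn.norm.pow 2)

lemma en_eq_a3b (h : Ladder lam Φ) (z : ℂ) :
    ‖psi Φ ![0, 0] z + -1 * psi Φ ![1, -1] z‖ = en Φ z := by
  have b0 : conj (ph Φ 0 z) = ph Φ 0 z := by simpa [ph] using h.cnj 0 (z, 1)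
  have b1 : conj (ph Φ 1 z) = -ph Φ (-1) z := by simpa [ph] using h.cnj 1 (z, 1)
  have e : psi Φ ![0, 0] z + -1 * psi Φ ![1, -1] z = (en Φ z : ℝ) := by
    simp only [psi_two, en, ofReal_add, ofReal_pow, ← mul_conj', b0, b1]
    ring
  rw [e, Complex.norm_real, Real.norm_of_nonneg (en_nonneg_a3b Φ z)]

lemma grad_a3b (h : Ladder lam Φ) {z : ℂ} {δ : ℝ} (hδ : 0 < δ) (hz : δ ≤ z.im) :
    ‖px (psi Φ ![0, 0]) z‖ + ‖py (psi Φ ![0, 0]) z‖ ≤ 2 / δ * √lam * en Φ z := by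
  have hU : z ∈ UH := hδ.trans_le hz
  have e1 := congrArg norm (h.dz_ph 0 hU)
  have e2 := congrArg norm (h.dzb_ph (-1) hU)
  have e3 : ‖ph Φ (-1) z‖ = ‖ph Φ 1 z‖ := h.norm_neg 1 _
  have a0 : al lam 0 = √lam := by simp [al]
  have a1 : al lam (-1) = √lam := by simp [al]
  have hy : |z.im| = z.im := abs_of_pos hU
  have ht : |√lam| = √lam := abs_of_nonneg (Real.sqrt_nonneg _)
  simp only [a0, a1, e3, hy, ht, zero_add, neg_add_cancel, Int.cast_zero, Int.cast_neg,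
    Int.cast_one, zero_mul, sub_zero, norm_mul, norm_neg, norm_I, Complex.norm_real,
    Real.norm_eq_abs, Complex.norm_ofNat, mul_one, one_mul] at e1 e2
  have d := h.diff_ph 0 hU
  have f1 := dz_mul d d
  have f2 := dzb_mul d d
  rw [← psi_two, dz_eq] at f1
  rw [← psi_two, dzb_eq] at f2
  have g1 : px (psi Φ ![0, 0]) z = 2 * ph Φ 0 z * (dz (ph Φ 0) z + dzb (ph Φ 0) z) := by
    linear_combination f1 + f2
  have g2 : py (psi Φ ![0, 0]) z = I * (2 * ph Φ 0 z * (dz (ph Φ 0) z - dzb (ph Φ 0) z)) := by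
    linear_combination I * (f1 - f2) + py (psi Φ ![0, 0]) z * I_mul_I
  have n1 := norm_add_le (dz (ph Φ 0) z) (dzb (ph Φ 0) z)
  have n2 := norm_sub_le (dz (ph Φ 0) z) (dzb (ph Φ 0) z)
  rw [g1, g2, en, mul_assoc (2 / δ), div_mul_eq_mul_div, le_div_iff₀ hδ]
  simp only [norm_mul, norm_I, Complex.norm_ofNat, one_mul]
  have p0 := norm_nonneg (ph Φ 0 z)
  have s0 : 0 ≤ ‖dz (ph Φ 0) z‖ + ‖dzb (ph Φ 0) z‖ := by positivity
  have s1 := mul_le_mul_of_nonneg_left hz s0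
  have s2 := mul_nonneg (Real.sqrt_nonneg lam) (sq_nonneg (‖ph Φ 0 z‖ - ‖ph Φ 1 z‖))
  have s3 := mul_le_mul_of_nonneg_left (mul_le_mul_of_nonneg_right (add_le_add n1 n2) hδ.le) p0
  have s4 := mul_le_mul_of_nonneg_left s1 p0
  have s5 := congrArg (‖ph Φ 0 z‖ * ·) e1
  have s6 := congrArg (‖ph Φ 0 z‖ * ·) e2
  linarith

lemma ball_a3b (h : Ladder lam Φ) {z : ℂ} {δ r C : ℝ} (hδ : 0 < δ) (hr : 0 < r) (hC : 0 < C)
    (e : √lam * r = C) (hz : ∀ x ∈ closedBall z (2 * r), δ ≤ x.im) :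
    ∫ x in ball z (2 * r), (‖px (psi Φ ![0, 0]) x‖ + ‖py (psi Φ ![0, 0]) x‖ +
      ‖psi Φ ![0, 0] x‖ / r) ≤ (2 / δ + 1 / C) * √lam * ∫ x in ball z (2 * r), en Φ x := by
  rw [← integral_const_mul]
  refine integral_mono_of_nonneg (Eventually.of_forall fun x => by positivity)
    (Integrable.const_mul ((((en_cont_a3b h).mono fun x hx => hδ.trans_le
      (hz x hx)).integrableOn_compact (isCompact_closedBall _ _)).mono_set ball_subset_closedBall) _)
    ((ae_restrict_mem measurableSet_ball).mono fun x hx => ?_)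
  have h1 := grad_a3b h hδ (hz x (ball_subset_closedBall hx))
  have h2 : ‖psi Φ ![0, 0] x‖ / r ≤ 1 / C * √lam * en Φ x := by
    have h3 : 1 / C * √lam * en Φ x * r = en Φ x := by
      rw [← e] at hC ⊢
      field_simp [left_ne_zero_of_mul hC.ne']
    rw [div_le_iff₀ hr, h3, psi_two, norm_mul, en, ← sq]
    exact le_add_of_nonneg_right (sq_nonneg _)
  simp only
  linarith

end one

theorem QF.sm0 (h : QF l lam Φ κ) :
    SM l (fun j => (√(lam j))⁻¹) fun j => psi (Φ j) ![0, 0] := by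
  refine ⟨fun j => ((h.lad j).cd_psi _).continuousOn, fun K hK hU => ?_⟩
  obtain ⟨ρ, hρ, hU1⟩ := hK.exists_cthickening_subset_open isOpen_UH hU
  have hK1 : IsCompact (cthickening ρ K) := hK.cthickening
  obtain ⟨C, ε0, hC, h0, hU2, hM⟩ := morawetz hK1 hU1
  obtain ⟨δ, hδ, hδ'⟩ := (hK1.cthickening (r := ε0)).exists_forall_le' continuous_im.continuousOn
    (a := 0) hU2
  obtain ⟨Cg, hCg, hg⟩ := gn_ball
  have c : ∀ a b j, ContinuousOn (psi (Φ j) ![a, b]) UH := fun a b j =>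
    ((h.lad j).cd_psi _).continuousOn
  have hD := (h.db 0 0).add ((h.db 1 (-1)).mul (c 1 (-1)) (continuousOn_const (c := -1))) (c 0 0)
    fun j => continuousOn_const.mul (c 1 (-1) j)
  obtain ⟨C2, h2⟩ := hD.bdd (fun j => (c 0 0 j).add (continuousOn_const.mul (c 1 (-1) j))) hK1 hU1
  obtain ⟨C1, ε1, h1, -, h3⟩ := hD _ hK1 hU1
  simp only [en_eq_a3b (h.lad _)] at h2 h3
  refine tend_a3b (M := 4 * (Cg * (2 / δ + 1 / C) ^ 2 * C ^ 2 * |C1|) * C2) (lt_min h0 h1)
    (fun j => by positivity) fun ε hε hε' => ?_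
  have h4 : Tendsto (fun j => C / √(lam j)) l (𝓝 0) :=
    (Real.tendsto_sqrt_atTop.comp h.tend).const_div_atTop C
  filter_upwards [h2, h3 ε hε (hε'.trans (min_le_right _ _)), h.tend.eventually_gt_atTop 0,
    h4.eventually_le_const (show 0 < ε / 4 by positivity),
    h4.eventually_le_const (show 0 < ρ / 3 by positivity)] with j a2 a3 a4 a5 a6
  have e0 := hε'.trans (min_le_left _ _)
  have ht := Real.sqrt_pos.2 a4
  obtain ⟨r, hr⟩ : ∃ r, r = C / √(lam j) := ⟨_, rfl⟩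
  have r0 : 0 < r := hr ▸ div_pos hC ht
  have r1 : √(lam j) * r = C := by rw [hr, mul_div_cancel₀ _ ht.ne']
  rw [← hr] at a5 a6
  have s1 : cthickening (3 * r) K ⊆ cthickening ρ K := cthickening_mono (by linarith) K
  have key := cover_le ((c 0 0 j).norm.pow 2) (en_cont_a3b (h.lad j)) (fun z => sq_nonneg _)
    (en_nonneg_a3b _) hK r0 (s1.trans hU1)
    (A := √(lam j) * (Cg * (2 / δ + 1 / C) ^ 2 * C ^ 2 * |C1|) * ε) (by positivity) fun z hz => by
      have z1 : z ∈ cthickening ρ K := cthickening_mono (by linarith) K hz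
      have z2 : closedBall z (2 * r) ⊆ cthickening ε0 (cthickening ρ K) :=
        (closedBall_subset_closedBall (by linarith)).trans (closedBall_subset_cthickening z1 _)
      have b1 := hg _ z r r0 (z2.trans hU2) ((h.lad j).cd_psi ![0, 0])
      have b2 := ball_a3b (h.lad j) hδ r0 hC r1 fun x hx => hδ' x (z2 hx)
      have b3 := (hM _ _ a4 (h.lad j) z z1 ε r e0 hr.ge (by linarith)).trans
        (mul_le_mul_of_nonneg_left ((a3 z z1).trans
          (mul_le_mul_of_nonneg_right (le_abs_self C1) (sq_nonneg ε))) (by positivity))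
      have b4 : 0 ≤ ∫ x in ball z (2 * r), en (Φ j) x := integral_nonneg (en_nonneg_a3b _)
      refine b1.trans ((mul_le_mul_of_nonneg_left (pow_le_pow_left₀
        (integral_nonneg fun x => by positivity) b2 2) hCg).trans ?_)
      generalize ∫ x in ball z (2 * r), en (Φ j) x = E at b3 b4 ⊢
      calc Cg * ((2 / δ + 1 / C) * √(lam j) * E) ^ 2
          = Cg * ((2 / δ + 1 / C) * √(lam j)) ^ 2 * E * E := by ring
        _ ≤ Cg * ((2 / δ + 1 / C) * √(lam j)) ^ 2 * E * (C * r / ε * (|C1| * ε ^ 2)) :=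
          mul_le_mul_of_nonneg_left b3 (by positivity)
        _ = √(lam j) * (Cg * (2 / δ + 1 / C) ^ 2 * (C * (√(lam j) * r)) * |C1|) * ε * E := by
          field_simp
        _ = _ := by rw [r1, ← sq]
  have b5 := (setIntegral_mono_set (((en_cont_a3b (h.lad j)).mono hU1).integrableOn_compact hK1)
    (Eventually.of_forall (en_nonneg_a3b _)) s1.eventuallyLE).trans a2
  rw [inv_mul_le_iff₀ ht]
  refine key.trans ((mul_le_mul_of_nonneg_left b5 (by positivity)).trans_eq ?_)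
  ring

theorem QF.sm (h : QF l lam Φ κ) (a b : ℤ) :
    SM l (fun j => (√(lam j))⁻¹) fun j => psi (Φ j) ![a, b] :=
  sm_all h.lad h.tend h.sm0 a b

end Pool.Agent.Lib.MP_a52643_an.H53
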