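import Pool.Agent.Lib.MP_a52643_an.H53A1
import Pool.Agent.Lib.MP_a52643_an.H53A0b

open Complex MeasureTheory Set Filter Topology Metric
open UpperHalfPlane (ofComplex)
open scoped ComplexConjugate ContDiff ENNReal UpperHalfPlane Laplacian Real

noncomputable section

namespace Pool.Agent.Lib.MP_a52643_an.H53

variable {J : Type} {l : Filter J}

lemma contDiff_hk_a4 : ContDiff ℝ 1 hk := by
  have h1 : ContDiff ℝ 1 (deriv bet) := by
    have : ContDiff ℝ (1 + 1) bet := by simpa [one_add_one_eq_two] using contDiff_bet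
    exact (contDiff_succ_iff_deriv.1 this).2.2
  exact (h1.comp contDiff_normSq).div_const _

/-- the rescaled kernel -/
def kr_a4 (ε : ℝ) (x y : ℂ) : ℝ := (ε ^ 2)⁻¹ * hk (ε⁻¹ • (y - x))

lemma continuous_kr_a4 (ε : ℝ) : Continuous fun p : ℂ × ℂ => kr_a4 ε p.1 p.2 := by
  unfold kr_a4; fun_prop

lemma kr_zero_a4 {ε : ℝ} (hε : 0 < ε) {x y : ℂ} (h : y ∉ closedBall x ε) : kr_a4 ε x y = 0 := by
  have h' : ε < ‖y - x‖ := by simpa [dist_eq_norm] using h
  have : 1 < ‖ε⁻¹ • (y - x)‖ := by
    rw [norm_smul, norm_inv, Real.norm_of_nonneg hε.le, ← div_eq_inv_mul, one_lt_div hε]; exact h'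
  simp only [kr_a4, hk_zero this, mul_zero]

lemma tst_kr_a4 {ε : ℝ} (hε : 0 < ε) {x : ℂ} (hx : closedBall x ε ⊆ UH) :
    Tst 1 fun y => (kr_a4 ε x y : ℂ) := by
  have hs : tsupport (fun y => (kr_a4 ε x y : ℂ)) ⊆ closedBall x ε :=
    closure_minimal (fun y hy => by
      by_contra h
      exact hy (by simp [kr_zero_a4 hε h])) isClosed_closedBall
  refine ⟨?_, (isCompact_closedBall x ε).of_isClosed_subset (isClosed_tsupport _) hs, hs.trans hx⟩
  have h1 : ContDiff ℝ 1 fun y => kr_a4 ε x y :=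
    contDiff_const.mul (contDiff_hk_a4.comp ((contDiff_id.sub contDiff_const).const_smul _))
  exact ofRealCLM.contDiff.comp h1

lemma wd_unif_a4 {G : J → ℂ → ℂ} (hG : WD l G) {K : Set ℂ} (hK : IsCompact K) {ε : ℝ}
    (hε : 0 < ε) (hU : cthickening ε K ⊆ UH) {ρ : ℝ} (hρ : 0 < ρ) :
    ∀ᶠ j in l, ∀ x ∈ K, ‖∫ y, (kr_a4 ε x y : ℂ) * G j y‖ ≤ ρ := by
  rcases l.eq_or_neBot with rfl | hl
  · simp
  have hK1 := hK.cthickening (r := ε)
  have b1 : ∀ x ∈ K, closedBall x ε ⊆ cthickening ε K := fun x hx =>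
    closedBall_subset_cthickening hx ε
  have tst : ∀ x ∈ K, Tst 1 fun y => (kr_a4 ε x y : ℂ) := fun x hx =>
    tst_kr_a4 hε ((b1 x hx).trans hU)
  have h := tendstoUniformlyOn_of_equi (l := l)
    (g := fun j x => ∫ y, (kr_a4 ε x y : ℂ) * G j y) (g0 := fun _ => 0) hK
    (fun x hx => hG.wk _ (tst x hx)) ?_
  · filter_upwards [Metric.tendstoUniformlyOn_iff.1 h ρ hρ] with j hj x hx
    simpa using (hj x hx).le
  intro η hη
  obtain ⟨C, hC⟩ := hG.db.bdd hG.cont hK1 hU
  have hM : 0 < |C| + 1 := by positivity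
  have uc := (hK.prod hK1).uniformContinuousOn_of_continuous (continuous_kr_a4 ε).continuousOn
  obtain ⟨δ, hδ, h1⟩ := Metric.uniformContinuousOn_iff.1 uc (η / (|C| + 1)) (by positivity)
  refine ⟨δ, hδ, hC.mono fun j hj x hx x' hx' hd => ?_⟩
  rw [dist_eq_norm, ← integral_sub (tf_integrable (tst x hx).tf (hG.cont j))
    (tf_integrable (tst x' hx').tf (hG.cont j)),
    ← setIntegral_eq_integral_of_forall_compl_eq_zero (s := cthickening ε K)]
  · have i1 : IntegrableOn (fun z => ‖G j z‖) (cthickening ε K) :=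
      ((hG.cont j).norm.mono hU).integrableOn_compact hK1
    calc _ ≤ ∫ y in cthickening ε K, η / (|C| + 1) * ‖G j y‖ := by
          refine norm_integral_le_of_norm_le (i1.const_mul _)
            ((ae_restrict_iff' hK1.measurableSet).2 (Eventually.of_forall fun y hy => ?_))
          have := h1 (x, y) ⟨hx, hy⟩ (x', y) ⟨hx', hy⟩
            (by rw [Prod.dist_eq]; exact max_lt hd (by simpa using hδ))
          rw [← sub_mul, norm_mul, ← ofReal_sub, Complex.norm_real]
          exact mul_le_mul_of_nonneg_right this.le (norm_nonneg _)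
      _ ≤ η / (|C| + 1) * (|C| + 1) := by
          rw [integral_const_mul]
          refine mul_le_mul_of_nonneg_left ?_ (by positivity)
          have := le_abs_self C
          linarith
      _ = η := by field_simp
  · intro y hy
    have z : ∀ x ∈ K, kr_a4 ε x y = 0 := fun x hx => kr_zero_a4 hε fun h => hy (b1 x hx h)
    simp [z x hx, z x' hx']

lemma swap_le_a4 {Y : Type*} [MeasurableSpace Y] {ν : Measure Y} [SFinite ν] {S : Set ℂ}
    {H : ℂ → Y → ℝ} (hH : Integrable (Function.uncurry H) ((volume.restrict S).prod ν))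
    {u : ℂ → ℝ} (u0 : ∀ x, 0 ≤ u x) (hu : ∀ x, u x ≤ ∫ y, H x y ∂ν) {w : Y → ℝ}
    (hw : Integrable w ν) (h : ∀ᵐ y ∂ν, ∫ x in S, H x y ≤ w y) :
    ∫ x in S, u x ≤ ∫ y, w y ∂ν :=
  calc ∫ x in S, u x ≤ ∫ x in S, ∫ y, H x y ∂ν :=
        integral_mono_of_nonneg (ae_of_all _ u0) hH.integral_prod_left (ae_of_all _ hu)
    _ = ∫ y, (∫ x in S, H x y) ∂ν := integral_integral_swap hH
    _ ≤ _ := integral_mono_ae hH.integral_prod_right hw h

lemma intOn_ball_a4 {E : Type*} [NormedAddCommGroup E] {N : ℂ → E} {z : ℂ} {r : ℝ}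
    (hN : ContinuousOn N (closedBall z r)) : IntegrableOn N (ball z r) :=
  (hN.integrableOn_compact (isCompact_closedBall z r)).mono_set ball_subset_closedBall

lemma shift_le_a4 {N : ℂ → ℝ} (hN : Continuous N) (N0 : ∀ x, 0 ≤ N x) (z : ℂ) (r : ℝ) {ε : ℝ}
    {b : ℂ} (hb : ‖b‖ ≤ ε) : ∫ x in ball z r, N (x + b) ≤ ∫ x in ball z (r + ε), N x := by
  rw [← (measurePreserving_add_right volume b).setIntegral_image_emb
    (measurableEmbedding_addRight b) N (ball z r)]
  refine setIntegral_mono_set (intOn_ball_a4 hN.continuousOn) (Eventually.of_forall N0)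
    (show (fun x => x + b) '' ball z r ⊆ ball z (r + ε) from ?_).eventuallyLE
  rintro _ ⟨x, hx, rfl⟩
  rw [mem_ball, dist_eq_norm] at hx ⊢
  calc ‖x + b - z‖ = ‖(x - z) + b‖ := by ring_nf
    _ ≤ ‖x - z‖ + ‖b‖ := norm_add_le _ _
    _ < r + ε := by linarith

lemma trans_le_a4 {F : ℂ → ℂ} (hF : ContDiff ℝ 1 F) (z : ℂ) (r : ℝ) {ε : ℝ} {b : ℂ}
    (hb : ‖b‖ ≤ ε) :
    ∫ x in ball z r, ‖F (x + b) - F x‖ ≤ ε * ∫ x in ball z (r + ε), ‖fderiv ℝ F x‖ := by
  have hε : 0 ≤ ε := (norm_nonneg b).trans hb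
  have cD := hF.continuous_fderiv one_ne_zero
  have h := swap_le_a4 (ν := volume.restrict (Ioc (0 : ℝ) 1)) (S := ball z r)
    (H := fun x s => ε * ‖fderiv ℝ F (x + s • b)‖) ?_ (u := fun x => ‖F (x + b) - F x‖)
    (fun x => norm_nonneg _) (fun x => ?_)
    (w := fun _ => ε * ∫ x in ball z (r + ε), ‖fderiv ℝ F x‖) (integrable_const _) ?_
  · simpa using h
  · rw [Measure.prod_restrict]
    refine (ContinuousOn.integrableOn_compact ((isCompact_closedBall z r).prod
      (isCompact_Icc (a := (0 : ℝ)) (b := 1))) (Continuous.continuousOn ?_)).mono_set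
      (prod_mono ball_subset_closedBall Ioc_subset_Icc_self)
    unfold Function.uncurry
    fun_prop
  · have hd : ∀ s ∈ uIcc (0 : ℝ) 1, HasDerivAt (fun s : ℝ => F (x + s • b))
        (fderiv ℝ F (x + s • b) b) s := by
      intro s _
      have h1 : HasDerivAt (fun s : ℝ => x + s • b) b s := by
        simpa using ((hasDerivAt_id s).smul_const b).const_add x
      exact ((hF.differentiable one_ne_zero) _).hasFDerivAt.comp_hasDerivAt s h1
    have h2 := intervalIntegral.integral_eq_sub_of_hasDerivAt hd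
      (Continuous.intervalIntegrable (by fun_prop) _ _)
    simp only [one_smul, zero_smul, add_zero] at h2
    rw [← h2, intervalIntegral.integral_of_le zero_le_one]
    refine norm_integral_le_of_norm_le ?_ (ae_of_all _ fun s => ?_)
    · exact (Continuous.integrableOn_Icc (by fun_prop)).mono_set Ioc_subset_Icc_self
    · calc _ ≤ ‖fderiv ℝ F (x + s • b)‖ * ‖b‖ := ContinuousLinearMap.le_opNorm _ _
        _ ≤ ‖fderiv ℝ F (x + s • b)‖ * ε := by gcongr
        _ = _ := mul_comm _ _
  · refine (ae_restrict_iff' measurableSet_Ioc).2 (ae_of_all _ fun s hs => ?_)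
    rw [integral_const_mul]
    refine mul_le_mul_of_nonneg_left
      (shift_le_a4 (N := fun x => ‖fderiv ℝ F x‖) cD.norm (fun _ => norm_nonneg _) z r ?_) hε
    rw [norm_smul, Real.norm_of_nonneg hs.1.le]
    nlinarith [hs.1, hs.2, norm_nonneg b]

lemma integrable_hk_a4 : Integrable hk := continuous_hk.integrable_of_hasCompactSupport hcs_hk

lemma moll_le_a4 {F : ℂ → ℂ} (hF : ContDiff ℝ 1 F) (hc : HasCompactSupport F) (z : ℂ) (r : ℝ)
    {ε : ℝ} (hε : 0 < ε) :
    ∫ x in ball z r, ‖F x - moll ε F x‖ ≤ ε * ∫ x in ball z (r + ε), ‖fderiv ℝ F x‖ := by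
  have cF := hF.continuous
  obtain ⟨B, hB⟩ := hc.exists_bound_of_continuous cF
  have : IsFiniteMeasure (volume.restrict (ball z r)) :=
    isFiniteMeasure_restrict.2 measure_ball_lt_top.ne
  have h := swap_le_a4 (ν := volume) (S := ball z r)
    (H := fun x a => hk a * ‖F (x + ε • a) - F x‖) ?_ (u := fun x => ‖F x - moll ε F x‖)
    (fun x => norm_nonneg _) (fun x => ?_)
    (w := fun a => hk a * (ε * ∫ x in ball z (r + ε), ‖fderiv ℝ F x‖))
    (integrable_hk_a4.mul_const _) (ae_of_all _ fun a => ?_)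
  · rwa [integral_mul_const, integral_hk, one_mul] at h
  · refine Integrable.mono' ((integrable_const (2 * B)).mul_prod integrable_hk_a4)
      (Continuous.aestronglyMeasurable (by unfold Function.uncurry; fun_prop))
      (ae_of_all _ fun p => ?_)
    have h0 := hk_nonneg p.2
    simp only [Function.uncurry, norm_mul, norm_norm, Real.norm_of_nonneg h0]
    rw [mul_comm]
    refine mul_le_mul_of_nonneg_right ((norm_sub_le _ _).trans ?_) h0
    linarith [hB (p.1 + ε • p.2), hB p.1]
  · have i1 : Integrable fun a => (hk a : ℂ) * F (x + ε • a) :=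
      Continuous.integrable_of_hasCompactSupport (by fun_prop) hcs_hkC.mul_right
    have i2 : Integrable fun a => (hk a : ℂ) * F x :=
      Continuous.integrable_of_hasCompactSupport (by fun_prop) hcs_hkC.mul_right
    have e : moll ε F x - F x = ∫ a, (hk a : ℂ) * (F (x + ε • a) - F x) := by
      simp only [mul_sub]
      rw [integral_sub i1 i2, integral_mul_const, integral_complex_ofReal, integral_hk]
      simp [moll]
    rw [norm_sub_rev, e]
    refine (norm_integral_le_integral_norm _).trans (le_of_eq ?_)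
    congr 1; ext a
    rw [norm_mul, Complex.norm_real, Real.norm_of_nonneg (hk_nonneg a)]
  · by_cases ha : ‖a‖ ≤ 1
    · rw [integral_const_mul]
      refine mul_le_mul_of_nonneg_left (trans_le_a4 hF z r ?_) (hk_nonneg a)
      rw [norm_smul, Real.norm_of_nonneg hε.le]
      nlinarith
    · simp [hk_zero (not_le.1 ha)]

lemma norm_clm_a4 (L : ℂ →L[ℝ] ℂ) : ‖L‖ ≤ ‖L 1‖ + ‖L I‖ := by
  refine L.opNorm_le_bound (by positivity) fun v => ?_
  have e : L v = v.re • L 1 + v.im • L I := by
    rw [← map_smul, ← map_smul, ← map_add]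
    congr 1
    simp
  rw [e]
  refine (norm_add_le _ _).trans ?_
  rw [norm_smul, norm_smul, Real.norm_eq_abs, Real.norm_eq_abs]
  have h1 := abs_re_le_norm v
  have h2 := abs_im_le_norm v
  nlinarith [norm_nonneg (L 1), norm_nonneg (L I)]

lemma moll_deriv_a4 {F : ℂ → ℂ} (hF : ContDiff ℝ 1 F) (hc : HasCompactSupport F) {ε : ℝ}
    (hε : 0 < ε) (x : ℂ) : ∃ L : ℂ →L[ℝ] ℂ, HasFDerivAt (moll ε F) L x ∧
      ∀ v, L v = ∫ y, (kr_a4 ε x y : ℂ) * fderiv ℝ F y v := by
  have cF := hF.continuous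
  have cD := hF.continuous_fderiv one_ne_zero
  obtain ⟨B, hB⟩ := (hc.fderiv ℝ).exists_bound_of_continuous cD
  have c1 : Continuous fun a => (hk a : ℂ) • fderiv ℝ F (x + ε • a) := by fun_prop
  have i1 : Integrable fun a => (hk a : ℂ) • fderiv ℝ F (x + ε • a) :=
    c1.integrable_of_hasCompactSupport hcs_hkC.smul_right
  refine ⟨∫ a, (hk a : ℂ) • fderiv ℝ F (x + ε • a), ?_, fun v => ?_⟩
  · refine hasFDerivAt_integral_of_dominated_of_fderiv_le (s := univ) (bound := fun a => hk a * B)
      (F := fun x a => (hk a : ℂ) * F (x + ε • a))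
      (F' := fun x a => (hk a : ℂ) • fderiv ℝ F (x + ε • a)) univ_mem
      (Eventually.of_forall fun x => Continuous.aestronglyMeasurable (by fun_prop))
      (Continuous.integrable_of_hasCompactSupport (by fun_prop) hcs_hkC.mul_right)
      c1.aestronglyMeasurable (ae_of_all _ fun a x _ => ?_) (integrable_hk_a4.mul_const _)
      (ae_of_all _ fun a x _ => ?_)
    · rw [norm_smul, Complex.norm_real, Real.norm_of_nonneg (hk_nonneg a)]
      exact mul_le_mul_of_nonneg_left (hB _) (hk_nonneg a)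
    · have h1 : HasFDerivAt (fun x => F (x + ε • a)) (fderiv ℝ F (x + ε • a)) x :=
        (hasFDerivAt_comp_add_right (ε • a)).2 ((hF.differentiable one_ne_zero) _).hasFDerivAt
      exact h1.const_mul _
  · rw [ContinuousLinearMap.integral_apply i1]
    have := integral_scale hε x (fun y => fderiv ℝ F y v)
    simpa [kr_a4] using this

lemma vol_ball_a4 (z : ℂ) {r : ℝ} (hr : 0 ≤ r) : volume.real (ball z r) = π * r ^ 2 := by
  simp [measureReal_def, Complex.volume_ball, hr, mul_comm]

lemma ball_sub_a4 {K : Set ℂ} {z : ℂ} {a b c : ℝ} (ha : 0 ≤ a) (hb : 0 ≤ b) (hc : b + a ≤ c)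
    (hz : z ∈ cthickening a K) : closedBall z b ⊆ cthickening c K :=
  ((closedBall_subset_cthickening hz b).trans (cthickening_cthickening_subset hb ha K)).trans
    (cthickening_mono hc K)

/-- near-constancy on a convex compact set -/
lemma near_const_a4 {f : J → ℂ → ℂ} (hf : ∀ j, ContDiffOn ℝ 1 (f j) UH)
    (hx : WD l fun j => px (f j)) (hy : WD l fun j => py (f j)) {K : Set ℂ} (hK : IsCompact K)
    (hKc : Convex ℝ K) (hU : K ⊆ UH) {η : ℝ} (hη : 0 < η) :
    ∀ᶠ j in l, ∃ c : ℂ, ∫ z in K, ‖f j z - c‖ ^ 2 ≤ η := by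
  rcases K.eq_empty_or_nonempty with rfl | ⟨x0, hx0⟩
  · exact Eventually.of_forall fun j => ⟨0, by simpa using hη.le⟩
  obtain ⟨δ, hδ, hδU⟩ := hK.exists_cthickening_subset_open isOpen_UH hU
  have hK1 := hK.cthickening (r := δ)
  obtain ⟨C1, ε1, hε1, -, h1⟩ := hx.db _ hK1 hδU
  obtain ⟨C2, ε2, hε2, -, h2⟩ := hy.db _ hK1 hδU
  obtain ⟨C, hC0, hC⟩ := gn_ball
  obtain ⟨θ, θ1, θ2, θ3, θ4, -⟩ := exists_bump hK1 isOpen_UH hδU
  obtain ⟨R, hR0, hR⟩ := hK1.isBounded.subset_closedBall_lt 0 x0
  set C3 : ℝ := 18 * (|C1| + |C2|) + 4 * π with hC3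
  set V : ℝ := volume.real (cthickening δ K) with hV
  have V0 : 0 ≤ V := measureReal_nonneg
  set C4 : ℝ := C * C3 ^ 2 / π * V + 1 with hC4
  have C40 : 0 < C4 := by positivity
  obtain ⟨ε, hε, e1, e2, e3, e4⟩ : ∃ ε : ℝ, 0 < ε ∧ 4 * ε ≤ δ ∧ 3 * ε ≤ ε1 ∧ 3 * ε ≤ ε2 ∧
      C4 * ε ^ 2 ≤ η := by
    refine ⟨min (min (δ / 4) (min (ε1 / 3) (ε2 / 3))) (min 1 (η / C4)), by positivity, ?_, ?_, ?_,
      ?_⟩
    · have := (min_le_left _ (min 1 (η / C4))).trans
        (min_le_left (δ / 4) (min (ε1 / 3) (ε2 / 3)))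
      linarith
    · have := ((min_le_left _ (min 1 (η / C4))).trans
        (min_le_right (δ / 4) (min (ε1 / 3) (ε2 / 3)))).trans (min_le_left _ _)
      linarith
    · have := ((min_le_left _ (min 1 (η / C4))).trans
        (min_le_right (δ / 4) (min (ε1 / 3) (ε2 / 3)))).trans (min_le_right _ _)
      linarith
    · set e := min (min (δ / 4) (min (ε1 / 3) (ε2 / 3))) (min 1 (η / C4)) with he
      have g0 : 0 < e := by positivity
      have g1 : e ≤ 1 := (min_le_right _ _).trans (min_le_left _ _)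
      have g2 : e ≤ η / C4 := (min_le_right _ _).trans (min_le_right _ _)
      rw [le_div_iff₀ C40] at g2
      nlinarith
  have hK2 := hK.cthickening (r := 3 * ε)
  have s23 : cthickening (3 * ε) K ⊆ cthickening δ K := cthickening_mono (by linarith) K
  have s24 : cthickening ε (cthickening (3 * ε) K) ⊆ cthickening δ K :=
    (cthickening_cthickening_subset hε.le (by positivity) K).trans
      (cthickening_mono (by linarith) K)
  have hρ : 0 < ε / (2 * R) := by positivity
  filter_upwards [h1 (3 * ε) (by positivity) e2, h2 (3 * ε) (by positivity) e3,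
    wd_unif_a4 hx hK2 hε (s24.trans hδU) hρ, wd_unif_a4 hy hK2 hε (s24.trans hδU) hρ]
    with j g1 g2 g3 g4
  set F : ℂ → ℂ := fun z => (θ z : ℂ) * f j z with hFdef
  have hF : ContDiff ℝ 1 F := contDiff_cut θ1 θ3 (hf j)
  have hFc : HasCompactSupport F := (θ2.comp_left (g := ofReal) (by simp)).mul_right
  have hFe : ∀ x ∈ cthickening δ K, F =ᶠ[𝓝 x] f j := fun x hx => by
    filter_upwards [nhds_le_nhdsSet hx θ4] with y hy
    simp [hFdef, show θ y = 1 from hy]
  have hFD : ∀ x ∈ cthickening δ K, fderiv ℝ F x = fderiv ℝ (f j) x := fun x hx =>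
    (hFe x hx).fderiv_eq
  choose L hL hLv using moll_deriv_a4 hF hFc hε
  have hLv' : ∀ x ∈ cthickening (3 * ε) K, ∀ v,
      L x v = ∫ y, (kr_a4 ε x y : ℂ) * fderiv ℝ (f j) y v := by
    intro x hx v
    rw [hLv]
    congr 1; ext y
    by_cases hy : y ∈ closedBall x ε
    · rw [hFD y (ball_sub_a4 (by positivity) hε.le (by linarith) hx hy)]
    · simp [kr_zero_a4 hε hy]
  have hLn : ∀ x ∈ cthickening (3 * ε) K, ‖L x‖ ≤ ε / R := by
    intro x hx
    refine (norm_clm_a4 _).trans ?_
    rw [hLv' x hx, hLv' x hx]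
    have e : ε / R = ε / (2 * R) + ε / (2 * R) := by field_simp; ring
    rw [e]
    exact add_le_add (g3 x hx) (g4 x hx)
  have hm : ∀ x ∈ cthickening (3 * ε) K, ‖moll ε F x - moll ε F x0‖ ≤ ε := by
    intro x hx
    have := (hKc.cthickening (3 * ε)).norm_image_sub_le_of_norm_hasFDerivWithin_le
      (fun x _ => (hL x).hasFDerivWithinAt) hLn (self_subset_cthickening _ hx0) hx
    refine this.trans ?_
    have h3 : ‖x - x0‖ ≤ R := by simpa [dist_eq_norm] using hR (s23 hx)
    calc ε / R * ‖x - x0‖ ≤ ε / R * R := by gcongr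
      _ = ε := by field_simp
  set c := moll ε F x0 with hc
  refine ⟨c, ?_⟩
  have cf := (hf j).continuousOn
  have cx := contOn_px (hf j)
  have cy := contOn_py (hf j)
  have hA : 0 ≤ C * C3 ^ 2 * ε ^ 2 / (4 * π) := by positivity
  have key := cover_le (u := fun z => ‖f j z - c‖ ^ 2) (e := fun _ => 1)
    ((cf.sub continuousOn_const).norm.pow 2) continuousOn_const (fun z => by positivity)
    (fun _ => zero_le_one) hK hε (s23.trans hδU) hA ?_
  · refine key.trans (le_trans ?_ e4)
    have h3 : volume.real (cthickening (3 * ε) K) ≤ V := measureReal_mono s23 hK1.measure_lt_top.ne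
    simp only [integral_const, MeasurableSet.univ, measureReal_restrict_apply, univ_inter,
      smul_eq_mul, mul_one]
    calc 4 * (C * C3 ^ 2 * ε ^ 2 / (4 * π)) * volume.real (cthickening (3 * ε) K)
        ≤ 4 * (C * C3 ^ 2 * ε ^ 2 / (4 * π)) * V := by gcongr
      _ = C * C3 ^ 2 / π * V * ε ^ 2 := by field_simp
      _ ≤ C4 * ε ^ 2 := by gcongr; linarith
  intro z hz
  have b2 : closedBall z (2 * ε) ⊆ cthickening (3 * ε) K :=
    ball_sub_a4 hε.le (by positivity) (by linarith) hz
  have b3 : closedBall z (3 * ε) ⊆ cthickening δ K :=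
    ball_sub_a4 hε.le (by positivity) (by linarith) hz
  have u2 := (b2.trans s23).trans hδU
  have u3 := b3.trans hδU
  have hz1 : z ∈ cthickening δ K := cthickening_mono (by linarith) K hz
  have ix := intOn_ball_a4 (cx.norm.mono u3)
  have iy := intOn_ball_a4 (cy.norm.mono u3)
  have ixy : IntegrableOn (fun x => ‖px (f j) x‖ + ‖py (f j) x‖) (ball z (3 * ε)) := ix.add iy
  have bb : ball z (2 * ε) ⊆ ball z (3 * ε) := ball_subset_ball (by linarith)
  have t1 : ∫ x in ball z (3 * ε), (‖px (f j) x‖ + ‖py (f j) x‖) ≤ 9 * (|C1| + |C2|) * ε ^ 2 := by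
    rw [integral_add ix iy]
    have a1 := g1 z hz1
    have a2 := g2 z hz1
    have a3 := le_abs_self C1
    have a4 := le_abs_self C2
    nlinarith [sq_nonneg ε]
  have t2 : ∫ x in ball z (2 * ε), (‖px (f j) x‖ + ‖py (f j) x‖) ≤ 9 * (|C1| + |C2|) * ε ^ 2 :=
    (setIntegral_mono_set ixy (Eventually.of_forall fun x => by positivity)
      bb.eventuallyLE).trans t1
  have t3 : ∫ x in ball z (2 * ε), ‖F x - moll ε F x‖ ≤ ε * (9 * (|C1| + |C2|) * ε ^ 2) := by
    refine (moll_le_a4 hF hFc z (2 * ε) hε).trans (mul_le_mul_of_nonneg_left ?_ hε.le)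
    rw [show 2 * ε + ε = 3 * ε by ring]
    refine le_trans (setIntegral_mono_on
      (intOn_ball_a4 (hF.continuous_fderiv one_ne_zero).norm.continuousOn) ixy
      measurableSet_ball fun x hx => ?_) t1
    rw [hFD x (b3 (ball_subset_closedBall hx))]
    exact norm_clm_a4 _
  have ic : IntegrableOn (fun x => ‖f j x - c‖) (ball z (2 * ε)) :=
    intOn_ball_a4 (((cf.sub (continuousOn_const (c := c))).norm).mono u2)
  have im : IntegrableOn (fun x => ‖F x - moll ε F x‖) (ball z (2 * ε)) :=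
    intOn_ball_a4 (hF.continuous.sub (continuous_moll hF.continuous ε)).norm.continuousOn
  have v2 := vol_ball_a4 z (r := 2 * ε) (by positivity)
  have t4 : ∫ x in ball z (2 * ε), ‖f j x - c‖
      ≤ ε * (9 * (|C1| + |C2|) * ε ^ 2) + ε * (π * (2 * ε) ^ 2) := by
    have i0 : IntegrableOn (fun _ : ℂ => ε) (ball z (2 * ε)) := intOn_ball_a4 continuousOn_const
    calc _ ≤ ∫ x in ball z (2 * ε), (‖F x - moll ε F x‖ + ε) := by
          refine setIntegral_mono_on ic (im.add i0) measurableSet_ball fun x hx => ?_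
          have hx' := b2 (ball_subset_closedBall hx)
          rw [← (hFe x (s23 hx')).eq_of_nhds]
          have := norm_sub_le_norm_sub_add_norm_sub (F x) (moll ε F x) c
          linarith [hm x hx']
      _ = (∫ x in ball z (2 * ε), ‖F x - moll ε F x‖) + ε * (π * (2 * ε) ^ 2) := by
          rw [integral_add im i0, setIntegral_const, v2, smul_eq_mul, mul_comm (π * _) ε]
      _ ≤ _ := by linarith
  have hg := hC (fun z => f j z - c) z ε hε u2 ((hf j).sub contDiffOn_const)
  have ex : px (fun z => f j z - c) = px (f j) := by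
    ext x; simp [px, fderiv_sub_const]
  have ey : py (fun z => f j z - c) = py (f j) := by
    ext x; simp [py, fderiv_sub_const]
  rw [ex, ey, integral_add (ixy.mono_set bb) (ic.div_const ε), integral_div] at hg
  refine hg.trans ?_
  have p1 : 0 ≤ ∫ x in ball z (2 * ε), (‖px (f j) x‖ + ‖py (f j) x‖) :=
    integral_nonneg fun x => by positivity
  have p2 : 0 ≤ (∫ x in ball z (2 * ε), ‖f j x - c‖) / ε :=
    div_nonneg (integral_nonneg fun x => norm_nonneg _) hε.le
  have t5 : (∫ x in ball z (2 * ε), ‖f j x - c‖) / ε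
      ≤ 9 * (|C1| + |C2|) * ε ^ 2 + π * (2 * ε) ^ 2 := by
    rw [div_le_iff₀ hε]; linarith
  have t6 : (∫ x in ball z (2 * ε), (‖px (f j) x‖ + ‖py (f j) x‖))
      + (∫ x in ball z (2 * ε), ‖f j x - c‖) / ε ≤ C3 * ε ^ 2 := by
    rw [hC3]; nlinarith
  simp only [integral_const, MeasurableSet.univ, measureReal_restrict_apply, univ_inter,
    smul_eq_mul, mul_one, v2]
  calc _ ≤ C * (C3 * ε ^ 2) ^ 2 := by gcongr
    _ = _ := by field_simp; ring

/-- a function whose gradient is weakly null with bounded density is nearly constant -/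
theorem pot_small {f : J → ℂ → ℂ} (hf : ∀ j, ContDiffOn ℝ 1 (f j) UH)
    (hx : WD l fun j => px (f j)) (hy : WD l fun j => py (f j)) :
    ∃ k : J → ℂ, SM l (fun _ => 1) fun j z => f j z - k j := by
  set B : Set ℂ := ball I (1 / 4) with hB
  set v : ℝ := volume.real B with hv
  have v0 : 0 < v := by rw [hv, hB, vol_ball_a4 I (by norm_num)]; positivity
  have cf := fun j => (hf j).continuousOn
  refine ⟨fun j => (v : ℂ)⁻¹ * ∫ z in B, f j z,
    fun j => (cf j).sub continuousOn_const, fun K hK hU => ?_⟩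
  obtain ⟨M, hM, hKM⟩ := exists_bx hK hU
  have hM' : (2 : ℝ) ≤ M := by exact_mod_cast hM
  have hU' : bx M ⊆ UH := bx_sub (by linarith)
  have hBM : closedBall I (1 / 4) ⊆ bx M := by
    intro z hz
    rw [mem_closedBall, dist_eq_norm] at hz
    have h1 := (abs_re_le_norm (z - I)).trans hz
    have h2 := abs_le.1 ((abs_im_le_norm (z - I)).trans hz)
    simp only [sub_re, I_re, sub_zero, sub_im, I_im] at h1 h2
    have h3 : (M : ℝ)⁻¹ ≤ 1 / 2 := by rw [one_div]; gcongr
    exact ⟨by linarith, by linarith [h2.1], by linarith [h2.2]⟩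
  set V : ℝ := volume.real (bx M) with hV
  have V0 : 0 ≤ V := measureReal_nonneg
  set C : ℝ := 2 + 2 * V * (v⁻¹ * (v + 1)) ^ 2 with hC
  have C0 : 0 < C := by positivity
  simp only [one_mul]
  rw [Metric.tendsto_nhds]
  intro η hη
  obtain ⟨t, ht, htη⟩ : ∃ t : ℝ, 0 < t ∧ C * t ^ 2 < η := by
    refine ⟨min 1 (η / (2 * C)), by positivity, ?_⟩
    have g0 : 0 < min 1 (η / (2 * C)) := by positivity
    have g1 := min_le_left 1 (η / (2 * C))
    have g2 := min_le_right 1 (η / (2 * C))
    rw [le_div_iff₀ (by positivity)] at g2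
    nlinarith
  filter_upwards [near_const_a4 hf hx hy (bx_compact M) (bx_convex M) hU' (pow_pos ht 2)]
    with j ⟨c, hc⟩
  set k : ℂ := (v : ℂ)⁻¹ * ∫ z in B, f j z with hk
  have cg : ∀ c : ℂ, ContinuousOn (fun z => ‖f j z - c‖ ^ 2) UH := fun c =>
    ((cf j).sub continuousOn_const).norm.pow 2
  have ig : ∀ c : ℂ, IntegrableOn (fun z => ‖f j z - c‖ ^ 2) (bx M) := fun c =>
    ((cg c).mono hU').integrableOn_compact (bx_compact M)
  have hBM' : B ⊆ bx M := ball_subset_closedBall.trans hBM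
  have hkc : ‖k - c‖ ≤ v⁻¹ * (v + 1) * t := by
    have i1 : IntegrableOn (f j) B := intOn_ball_a4 ((cf j).mono (hBM.trans hU'))
    have i2 : IntegrableOn (fun _ : ℂ => c) B := intOn_ball_a4 continuousOn_const
    have i3 : IntegrableOn (fun _ : ℂ => t) B := intOn_ball_a4 continuousOn_const
    have hv' : (v : ℂ) ≠ 0 := by exact_mod_cast v0.ne'
    have e : k - c = (v : ℂ)⁻¹ * ∫ z in B, (f j z - c) := by
      rw [integral_sub i1 i2, hk]
      simp only [integral_const, MeasurableSet.univ, measureReal_restrict_apply, univ_inter,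
        real_smul, ← hv]
      field_simp
    have h1 : ‖∫ z in B, (f j z - c)‖ ≤ ∫ z in B, (t + ‖f j z - c‖ ^ 2 / t) := by
      refine norm_integral_le_of_norm_le (i3.add (((ig c).mono_set hBM').div_const t))
        (ae_of_all _ fun z => ?_)
      rw [← sub_le_iff_le_add', le_div_iff₀ ht]
      nlinarith [sq_nonneg (‖f j z - c‖ - t), norm_nonneg (f j z - c)]
    have h2 : ∫ z in B, ‖f j z - c‖ ^ 2 ≤ t ^ 2 :=
      (setIntegral_mono_set (ig c) (Eventually.of_forall fun z => by positivity)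
        hBM'.eventuallyLE).trans hc
    rw [integral_add i3 (((ig c).mono_set hBM').div_const t), integral_div] at h1
    simp only [integral_const, MeasurableSet.univ, measureReal_restrict_apply, univ_inter,
      smul_eq_mul, ← hv] at h1
    have h3 : (∫ z in B, ‖f j z - c‖ ^ 2) / t ≤ t := by rw [div_le_iff₀ ht]; linarith
    rw [e, norm_mul, norm_inv, Complex.norm_real, Real.norm_of_nonneg v0.le, mul_assoc]
    refine mul_le_mul_of_nonneg_left ?_ (by positivity)
    linarith
  have i0 : IntegrableOn (fun _ : ℂ => 2 * (v⁻¹ * (v + 1) * t) ^ 2) (bx M) :=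
    continuousOn_const.integrableOn_compact (bx_compact M)
  rw [Real.dist_eq, sub_zero, abs_of_nonneg (integral_nonneg fun z => by positivity)]
  calc ∫ z in K, ‖f j z - k‖ ^ 2 ≤ ∫ z in bx M, ‖f j z - k‖ ^ 2 :=
        setIntegral_mono_set (ig k) (Eventually.of_forall fun z => by positivity)
          hKM.eventuallyLE
    _ ≤ ∫ z in bx M, (2 * ‖f j z - c‖ ^ 2 + 2 * (v⁻¹ * (v + 1) * t) ^ 2) := by
        refine integral_mono (ig k) (((ig c).const_mul 2).add i0) fun z => ?_
        have h1 := norm_sub_le_norm_sub_add_norm_sub (f j z) c k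
        rw [norm_sub_rev c k] at h1
        have h2 := norm_nonneg (f j z - k)
        have h3 := norm_nonneg (f j z - c)
        have h4 := norm_nonneg (k - c)
        simp only
        nlinarith [sq_nonneg (‖f j z - c‖ - v⁻¹ * (v + 1) * t)]
    _ ≤ C * t ^ 2 := by
        rw [integral_add ((ig c).const_mul 2) i0, integral_const_mul]
        simp only [integral_const, MeasurableSet.univ, measureReal_restrict_apply, univ_inter,
          smul_eq_mul, ← hV]
        rw [hC]
        nlinarith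
    _ < η := htη

end Pool.Agent.Lib.MP_a52643_an.H53
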