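import Pool.Agent.Lib.MP_a52643_an.H53A0b

open Complex MeasureTheory Set Filter Topology Metric
open UpperHalfPlane (ofComplex)
open scoped ComplexConjugate ContDiff ENNReal UpperHalfPlane Laplacian Real

noncomputable section

namespace Pool.Agent.Lib.MP_a52643_an.H53

lemma mem_UH_a5 (x : ℝ) {y : ℝ} (hy : 0 < y) : (x : ℂ) + y * I ∈ UH := by
  simpa [UH] using hy

lemma pos_of_uIcc_a5 {y s : ℝ} (hy : 0 < y) (hs : s ∈ uIcc (1 : ℝ) y) : 0 < s :=
  (lt_min one_pos hy).trans_le hs.1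

lemma cont_xy_a5 : Continuous fun v : ℝ × ℝ => (v.1 : ℂ) + v.2 * I := by fun_prop

/-- continuous derivatives in the two coordinate directions give a `C^1` function -/
lemma glue_a5 {g : ℝ → ℝ → ℂ} {P Q : ℂ → ℂ} (hP : ContinuousOn P UH) (hQ : ContinuousOn Q UH)
    (h1 : ∀ x y : ℝ, 0 < y → HasDerivAt (fun x => g x y) (P (x + y * I)) x)
    (h2 : ∀ x y : ℝ, 0 < y → HasDerivAt (g x) (Q (x + y * I)) y) :
    ContDiffOn ℝ 1 (fun z : ℂ => g z.re z.im) UH ∧
      (∀ z ∈ UH, py (fun z : ℂ => g z.re z.im) z = Q z) ∧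
      ∀ z ∈ UH, px (fun z : ℂ => g z.re z.im) z = P z := by
  let T : ℂ →L[ℝ] ℝ →L[ℝ] ℂ := ContinuousLinearMap.smulRightL ℝ ℝ ℂ 1
  have hT : ∀ c : ℂ, T c = ContinuousLinearMap.toSpanSingleton ℝ c := fun c => by
    ext
    simp [T]
  let D : ℂ → ℂ →L[ℝ] ℂ := fun z => reCLM.smulRight (P z) + imCLM.smulRight (Q z)
  have hD : ∀ z ∈ UH, HasFDerivAt (fun z : ℂ => g z.re z.im) (D z) z := by
    intro z hz
    have hev : ∀ᶠ v : ℝ × ℝ in 𝓝 (z.re, z.im), 0 < v.2 :=
      (isOpen_lt continuous_const continuous_snd).mem_nhds hz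
    have hz' : (fun v : ℝ × ℝ => (v.1 : ℂ) + v.2 * I) (z.re, z.im) = z := re_add_im z
    have cP : ContinuousAt (fun v : ℝ × ℝ => P (v.1 + v.2 * I)) (z.re, z.im) :=
      ContinuousAt.comp_of_eq (hP.continuousAt (isOpen_UH.mem_nhds hz)) cont_xy_a5.continuousAt hz'
    have cQ : ContinuousAt (fun v : ℝ × ℝ => Q (v.1 + v.2 * I)) (z.re, z.im) :=
      ContinuousAt.comp_of_eq (hQ.continuousAt (isOpen_UH.mem_nhds hz)) cont_xy_a5.continuousAt hz'
    have h := hasStrictFDerivAt_uncurry_coprod (𝕜 := ℝ) (u := (z.re, z.im)) (f := g)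
      (f₁ := fun x y => T (P (x + y * I))) (f₂ := fun x y => T (Q (x + y * I)))
      (hev.mono fun v hv => by
        have h3 := (h1 v.1 v.2 hv).hasFDerivAt
        rw [← hT] at h3
        exact h3)
      (hev.mono fun v hv => by
        have h3 := (h2 v.1 v.2 hv).hasFDerivAt
        rw [← hT] at h3
        exact h3)
      (T.continuous.continuousAt.comp cP) (T.continuous.continuousAt.comp cQ)
    have h4 := HasFDerivAt.comp z (g := Function.uncurry g) (f := fun z : ℂ => (z.re, z.im))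
      h.hasFDerivAt (reCLM.hasFDerivAt.prodMk imCLM.hasFDerivAt)
    refine h4.congr_fderiv ?_
    ext w
    simp [D, hT, Function.HasUncurry.uncurry, re_add_im]
  have cD : ContinuousOn D UH :=
    ((ContinuousLinearMap.smulRightL ℝ ℂ ℂ reCLM).continuous.comp_continuousOn hP).add
      ((ContinuousLinearMap.smulRightL ℝ ℂ ℂ imCLM).continuous.comp_continuousOn hQ)
  refine ⟨?_, fun z hz => ?_, fun z hz => ?_⟩
  · have e : (1 : WithTop ℕ∞) = 0 + 1 := by simp
    rw [e, contDiffOn_succ_iff_fderiv_of_isOpen isOpen_UH]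
    refine ⟨fun z hz => (hD z hz).differentiableAt.differentiableWithinAt, by simp, ?_⟩
    rw [contDiffOn_zero]
    exact cD.congr fun z hz => (hD z hz).fderiv
  · rw [py, (hD z hz).fderiv]
    simp [D]
  · rw [px, (hD z hz).fderiv]
    simp [D]

lemma hasDeriv_x_a5 {f : ℂ → ℂ} (hf : ContDiffOn ℝ 1 f UH) (x : ℝ) {y : ℝ} (hy : 0 < y) :
    HasDerivAt (fun x : ℝ => f (x + y * I)) (px f (x + y * I)) x := by
  have h1 := ((hf.differentiableOn one_ne_zero).differentiableAt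
    (isOpen_UH.mem_nhds (mem_UH_a5 x hy))).hasFDerivAt
  have h2 : HasDerivAt (fun x : ℝ => (x : ℂ) + y * I) 1 x :=
    (ofRealCLM.hasDerivAt (x := x)).add_const _
  exact h1.comp_hasDerivAt x h2

lemma hasDeriv_y_a5 {f : ℂ → ℂ} (hf : ContDiffOn ℝ 1 f UH) (x : ℝ) {y : ℝ} (hy : 0 < y) :
    HasDerivAt (fun y : ℝ => f (x + y * I)) (py f (x + y * I)) y := by
  have h1 := ((hf.differentiableOn one_ne_zero).differentiableAt
    (isOpen_UH.mem_nhds (mem_UH_a5 x hy))).hasFDerivAt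
  have h2 : HasDerivAt (fun y : ℝ => (x : ℂ) + y * I) I y := by
    have h3 := ((ofRealCLM.hasDerivAt (x := y)).mul_const I).const_add (x : ℂ)
    simpa using h3
  exact h1.comp_hasDerivAt y h2

lemma contOn_y_a5 {f : ℂ → ℂ} (hf : ContinuousOn f UH) (x : ℝ) :
    ContinuousOn (fun s : ℝ => f (x + s * I)) (Ioi 0) :=
  hf.comp (by fun_prop) fun s hs => mem_UH_a5 x hs

lemma intInt_a5 {f : ℂ → ℂ} (hf : ContinuousOn f UH) (x : ℝ) {y : ℝ} (hy : 0 < y) :
    IntervalIntegrable (fun s : ℝ => f (x + s * I)) volume 1 y :=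
  ((contOn_y_a5 hf x).mono fun _ hs => pos_of_uIcc_a5 hy hs).intervalIntegrable

lemma param_a5 {f : ℂ → ℂ} (hf : ContDiffOn ℝ 1 f UH) (x : ℝ) {y : ℝ} (hy : 0 < y) :
    HasDerivAt (fun x : ℝ => ∫ s in (1 : ℝ)..y, f (x + s * I))
      (∫ s in (1 : ℝ)..y, px f (x + s * I)) x := by
  have hK : IsCompact (closedBall x 1 ×ˢ uIcc (1 : ℝ) y) :=
    (isCompact_closedBall x 1).prod isCompact_uIcc
  have hc : ContinuousOn (fun v : ℝ × ℝ => px f (v.1 + v.2 * I))
      (closedBall x 1 ×ˢ uIcc (1 : ℝ) y) :=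
    (contOn_px hf).comp cont_xy_a5.continuousOn fun v hv => mem_UH_a5 _ (pos_of_uIcc_a5 hy hv.2)
  obtain ⟨C, hC⟩ := hK.exists_bound_of_continuousOn hc
  refine (intervalIntegral.hasDerivAt_integral_of_dominated_loc_of_deriv_le
    (F := fun (x : ℝ) (s : ℝ) => f (x + s * I)) (F' := fun (x : ℝ) (s : ℝ) => px f (x + s * I))
    (bound := fun _ => C) (closedBall_mem_nhds x one_pos)
    (Eventually.of_forall fun x' => (intInt_a5 hf.continuousOn x' hy).def'.aestronglyMeasurable)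
    (intInt_a5 hf.continuousOn x hy) (intInt_a5 (contOn_px hf) x hy).def'.aestronglyMeasurable
    (Eventually.of_forall fun s hs x' hx' => hC (x', s) ⟨hx', uIoc_subset_uIcc hs⟩)
    intervalIntegrable_const
    (Eventually.of_forall fun s hs x' _ =>
      hasDeriv_x_a5 hf x' (pos_of_uIcc_a5 hy (uIoc_subset_uIcc hs)))).2

/-- potentials of a vector field which is nearly divergence free -/
theorem exists_pot {a b : ℂ → ℂ} (ha : ContDiffOn ℝ 1 a UH) (hb : ContDiffOn ℝ 1 b UH) :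
    ∃ α : ℂ → ℂ, ContDiffOn ℝ 1 α UH ∧ (∀ z ∈ UH, py α z = a z) ∧
      ∀ z ∈ UH, px α z = -b z + vint (fun x => px a x + py b x) z := by
  have cb : Continuous fun t : ℝ => b (t + (1 : ℝ) * I) :=
    hb.continuousOn.comp_continuous (by fun_prop) fun t => mem_UH_a5 t one_pos
  refine ⟨_, glue_a5
    (g := fun x y => (∫ s in (1 : ℝ)..y, a (x + s * I)) - ∫ t in (0 : ℝ)..x, b (t + (1 : ℝ) * I))
    (hb.continuousOn.neg.add (cont_vint ((contOn_px ha).add (contOn_py hb)))) ha.continuousOn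
    (fun x y hy => ?_) (fun x y hy => ?_)⟩
  · have h1 := (param_a5 ha x hy).sub (cb.integral_hasStrictDerivAt 0 x).hasDerivAt
    have h2 : ∫ s in (1 : ℝ)..y, py b (x + s * I) = b (x + y * I) - b (x + (1 : ℝ) * I) :=
      intervalIntegral.integral_eq_sub_of_hasDerivAt (f := fun s : ℝ => b (x + s * I))
        (fun s hs => hasDeriv_y_a5 hb x (pos_of_uIcc_a5 hy hs)) (intInt_a5 (contOn_py hb) x hy)
    refine h1.congr_deriv ?_
    have e1 : ((x : ℂ) + y * I).re = x := by simp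
    have e2 : ((x : ℂ) + y * I).im = y := by simp
    simp only [vint, e1, e2]
    rw [intervalIntegral.integral_add (intInt_a5 (contOn_px ha) x hy)
      (intInt_a5 (contOn_py hb) x hy), h2]
    ring
  · have hc := contOn_y_a5 ha.continuousOn x
    exact (intervalIntegral.integral_hasDerivAt_right (intInt_a5 ha.continuousOn x hy)
      (hc.stronglyMeasurableAtFilter isOpen_Ioi y hy)
      (hc.continuousAt (Ioi_mem_nhds hy))).sub_const _

end Pool.Agent.Lib.MP_a52643_an.H53
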