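import Pool.Agent.Lib.MP_a52643_an.H53A4
import Pool.Agent.Lib.MP_a52643_an.H53A5

open Complex MeasureTheory Set Filter Topology Metric
open UpperHalfPlane (ofComplex)
open scoped ComplexConjugate ContDiff ENNReal UpperHalfPlane Laplacian Real

noncomputable section

namespace Pool.Agent.Lib.MP_a52643_an.H53

variable {J : Type} {l : Filter J} {t : J → ℝ}

/-- first derivatives at a point -/
structure HP (f : ℂ → ℂ) (z fx fy : ℂ) : Prop where
  diff : DifferentiableAt ℝ f z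
  x : px f z = fx
  y : py f z = fy

lemma HP.of_cd {f : ℂ → ℂ} (hf : ContDiffOn ℝ 1 f UH) {z : ℂ} (hz : z ∈ UH) :
    HP f z (px f z) (py f z) :=
  ⟨(hf.contDiffAt (isOpen_UH.mem_nhds hz)).differentiableAt one_ne_zero, rfl, rfl⟩

lemma HP.mul {f g : ℂ → ℂ} {z a b c d : ℂ} (h : HP f z a b) (h' : HP g z c d) :
    HP (fun x => f x * g x) z (a * g z + f z * c) (b * g z + f z * d) := by
  refine ⟨h.diff.mul h'.diff, ?_, ?_⟩
  · rw [← h.x, ← h'.x]
    simp only [px, fderiv_fun_mul h.diff h'.diff, _root_.add_apply,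
      _root_.smul_apply, smul_eq_mul]
    ring
  · rw [← h.y, ← h'.y]
    simp only [py, fderiv_fun_mul h.diff h'.diff, _root_.add_apply,
      _root_.smul_apply, smul_eq_mul]
    ring

lemma HP.add {f g : ℂ → ℂ} {z a b c d : ℂ} (h : HP f z a b) (h' : HP g z c d) :
    HP (fun x => f x + g x) z (a + c) (b + d) := by
  refine ⟨h.diff.add h'.diff, ?_, ?_⟩
  · rw [← h.x, ← h'.x]
    simp only [px, fderiv_fun_add h.diff h'.diff, _root_.add_apply]
  · rw [← h.y, ← h'.y]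
    simp only [py, fderiv_fun_add h.diff h'.diff, _root_.add_apply]

lemma HP.const (c z : ℂ) : HP (fun _ => c) z 0 0 :=
  ⟨differentiableAt_const c, by simp [px], by simp [py]⟩

lemma HP.im (z : ℂ) : HP (fun x : ℂ => (x.im : ℂ)) z 0 1 := by
  have h : HasFDerivAt (fun x : ℂ => (x.im : ℂ)) (ofRealCLM.comp imCLM) z :=
    (ofRealCLM.comp imCLM).hasFDerivAt
  exact ⟨h.differentiableAt, by simp [px, h.fderiv], by simp [py, h.fderiv]⟩

lemma HP.im_inv {z : ℂ} (hz : z ∈ UH) :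
    HP (fun x : ℂ => (x.im : ℂ)⁻¹) z 0 (-((z.im : ℂ) ^ 2)⁻¹) := by
  have h0 : (z.im : ℂ) ≠ 0 := by exact_mod_cast (ne_of_gt hz)
  have h1 := HP.of_cd (cdOn_im_inv 1) hz
  have h2 := (HP.im z).mul h1
  have h3 : (fun x : ℂ => (x.im : ℂ) * (x.im : ℂ)⁻¹) =ᶠ[𝓝 z] fun _ => 1 := by
    filter_upwards [isOpen_UH.mem_nhds hz] with x hx
    exact mul_inv_cancel₀ (by exact_mod_cast (ne_of_gt hx))
  have h4 := h2.x
  have h5 := h2.y
  simp only [px, py, h3.fderiv_eq, fderiv_fun_const, Pi.zero_apply,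
    _root_.zero_apply] at h4 h5
  refine ⟨h1.diff, ?_, ?_⟩
  · simp only [px]
    have : (z.im : ℂ) * fderiv ℝ (fun x : ℂ => (x.im : ℂ)⁻¹) z 1 = 0 := by
      linear_combination -h4
    exact (mul_eq_zero.1 this).resolve_left h0
  · simp only [py]
    field_simp
    field_simp at h5
    linear_combination -h5

lemma Tst.zero {n : ℕ} {τ : ℂ → ℂ} (h : Tst n τ) {z : ℂ} (hz : z ∉ UH) : τ z = 0 :=
  image_eq_zero_of_notMem_tsupport fun h' => hz (h.sub h')

/-- integrable families whose integrals tend to zero -/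
structure NI (l : Filter J) (f : J → ℂ → ℂ) : Prop where
  int : ∀ j, Integrable (f j)
  lim : Tendsto (fun j => ∫ z, f j z) l (𝓝 0)

lemma NI.add {f g : J → ℂ → ℂ} (h : NI l f) (h' : NI l g) : NI l fun j z => f j z + g j z :=
  ⟨fun j => (h.int j).add (h'.int j), by
    simpa only [integral_add (h.int _) (h'.int _), add_zero] using h.lim.add h'.lim⟩

lemma NI.pair {F G : J → ℂ → ℂ} {s s' : J → ℝ} (hF : SM l s F) (hG : SM l s' G)
    (hs : ∀ᶠ j in l, 0 ≤ s j ∧ 0 ≤ s' j ∧ 1 ≤ s j * s' j) {n : ℕ} {τ : ℂ → ℂ} (hτ : Tst n τ) :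
    NI l fun j z => τ z * (F j z * G j z) :=
  ⟨fun j => tf_integrable hτ.tf ((hF.cont j).mul (hG.cont j)), hF.pair hG hs hτ.tf⟩

lemma NI.px {P : J → ℂ → ℂ} (h : ∀ j, Tst 1 (P j)) : NI l fun j => px (P j) :=
  ⟨fun j => (h j).px.tf.cont.integrable_of_hasCompactSupport (h j).px.hcs, by
    simp only [integral_px (h _)]; exact tendsto_const_nhds⟩

lemma NI.py {P : J → ℂ → ℂ} (h : ∀ j, Tst 1 (P j)) : NI l fun j => py (P j) :=
  ⟨fun j => (h j).py.tf.cont.integrable_of_hasCompactSupport (h j).py.hcs, by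
    simp only [integral_py (h _)]; exact tendsto_const_nhds⟩

/-- weak continuity of the determinant of a nearly conserved symmetric tensor -/
theorem hessian {a b c : J → ℂ → ℂ} (ht : Tendsto t l atTop)
    (ha : ∀ j, ContDiffOn ℝ 1 (a j) UH) (hb : ∀ j, ContDiffOn ℝ 1 (b j) UH)
    (hc : ∀ j, ContDiffOn ℝ 1 (c j) UH) (wa : WD l a) (wb : WD l b) (wc : WD l c)
    (sb : SM l (fun j => (t j)⁻¹) b) (h1 : SM l t fun j z => px (a j) z + py (b j) z)
    (h2 : SM l t fun j z => px (b j) z + py (c j) z + (a j z + c j z) / z.im)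
    {χ : ℂ → ℂ} (hχ : Tst 2 χ) :
    Tendsto (fun j => ∫ z, χ z * (z.im * (a j z * c j z - b j z ^ 2))) l (𝓝 0) := by
  have t0 : ∀ᶠ j in l, 1 ≤ t j := ht.eventually_ge_atTop 1
  have t1 : ∀ᶠ j in l, 0 ≤ (1 : ℝ) ∧ 1 ≤ t j := t0.mono fun j h => ⟨zero_le_one, h⟩
  have o1 : ∀ᶠ _ in l, (0 : ℝ) ≤ 1 := Eventually.of_forall fun _ => zero_le_one
  have o2 : ∀ᶠ _ in l, (0 : ℝ) ≤ 1 ∧ (0 : ℝ) ≤ 1 ∧ (1 : ℝ) ≤ 1 * 1 :=
    Eventually.of_forall fun _ => by norm_num
  have cm : ∀ (n : ℕ) (c : ℂ), ContDiffOn ℝ n (fun _ : ℂ => c) UH := fun _ _ => contDiffOn_const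
  choose α0 hα0 hαy hαx using fun j => exists_pot (ha j) (hb j)
  set H1 : J → ℂ → ℂ := fun j => vint fun x => px (a j) x + py (b j) x with hH1
  have sH1 : SM l t H1 := h1.vint (t0.mono fun j h => by linarith)
  have oH1 : SM l (fun _ => 1) H1 := sH1.mono t1
  have oh2 := h2.mono t1
  obtain ⟨k, hk⟩ := pot_small hα0 (((wb.mul (cm 1 (-1))).add oH1.wd).congr
    fun j z hz => by rw [hαx j z hz]; ring) (wa.congr hαy)
  set α : J → ℂ → ℂ := fun j z => α0 j z - k j with hα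
  have cα : ∀ j, ContDiffOn ℝ 1 (α j) UH := fun j => (hα0 j).sub contDiffOn_const
  have pα : ∀ j, ∀ z ∈ UH, HP (α j) z (-b j z + H1 j z) (a j z) := fun j z hz => by
    have := (HP.of_cd (hα0 j) hz).add (HP.const (-k j) z)
    rw [hαx j z hz, hαy j z hz, add_zero, add_zero] at this
    simpa only [← sub_eq_add_neg] using this
  have ca' : ∀ j, ContDiffOn ℝ 1 (fun z : ℂ => -1 * (z.im * b j z)) UH := fun j =>
    (cm 1 _).mul ((cdOn_im 1).mul (hb j))
  have cb' : ∀ j, ContDiffOn ℝ 1 (fun z : ℂ => -1 * (z.im * c j z + α j z)) UH := fun j =>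
    (cm 1 _).mul (((cdOn_im 1).mul (hc j)).add (cα j))
  choose β0 hβ0 hβy hβx using fun j => exists_pot (ca' j) (cb' j)
  set H2 : J → ℂ → ℂ := fun j => vint fun x => px (fun z : ℂ => -1 * (z.im * b j z)) x
    + py (fun z : ℂ => -1 * (z.im * c j z + α j z)) x with hH2
  have oH2 : SM l (fun _ => 1) H2 := by
    refine SM.vint ((oh2.mul ((cm 1 (-1)).mul (cdOn_im 1)).continuousOn o1).congr
      fun j z hz => ?_) o1
    have h0 : (z.im : ℂ) ≠ 0 := by exact_mod_cast (ne_of_gt hz)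
    rw [((HP.const (-1) z).mul ((HP.im z).mul (HP.of_cd (hb j) hz))).x,
      ((HP.const (-1) z).mul (((HP.im z).mul (HP.of_cd (hc j) hz)).add (pα j z hz))).y]
    field_simp
    ring
  obtain ⟨k', hk'⟩ := pot_small hβ0 ((((wc.mul (cdOn_im 1)).add hk.wd).add oH2.wd).congr
    fun j z hz => by rw [hβx j z hz]; ring)
    ((wb.mul ((cm 1 (-1)).mul (cdOn_im 1))).congr fun j z hz => by rw [hβy j z hz]; ring)
  set β : J → ℂ → ℂ := fun j z => β0 j z - k' j with hβ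
  have cβ : ∀ j, ContDiffOn ℝ 1 (β j) UH := fun j => (hβ0 j).sub contDiffOn_const
  have pβ : ∀ j, ∀ z ∈ UH, HP (β j) z (z.im * c j z + α j z + H2 j z) (-(z.im * b j z)) :=
    fun j z hz => by
      have := (HP.of_cd (hβ0 j) hz).add (HP.const (-k' j) z)
      rw [hβx j z hz, hβy j z hz, add_zero, add_zero] at this
      simp only [← sub_eq_add_neg] at this
      convert this using 1 <;> ring
  have χ1 : Tst 1 χ := hχ.mono one_le_two
  have χx : Tst 1 (px χ) := hχ.px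
  have χy : Tst 1 (py χ) := hχ.py
  have tP : ∀ j, Tst 1 fun z => χ z * (z.im * α j z * b j z)
      + px χ z * (2⁻¹ * (z.im * α j z * α j z)) + py χ z * (-1 * (α j z * β j z)) := fun j =>
    ((χ1.mul (((cdOn_im 1).mul (cα j)).mul (hb j))).add
      (χx.mul ((cm 1 _).mul (((cdOn_im 1).mul (cα j)).mul (cα j))))).add
      (χy.mul ((cm 1 _).mul ((cα j).mul (cβ j))))
  have tQ : ∀ j, Tst 1 fun z => χ z * (α j z * (z.im * c j z + α j z))
      + χ z * (-2⁻¹ * (α j z * α j z)) + py χ z * (2⁻¹ * (β j z * β j z * (z.im : ℂ)⁻¹)) := fun j =>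
    ((χ1.mul ((cα j).mul (((cdOn_im 1).mul (hc j)).add (cα j)))).add
      (χ1.mul ((cm 1 _).mul ((cα j).mul (cα j))))).add
      (χy.mul ((cm 1 _).mul (((cβ j).mul (cβ j)).mul (cdOn_im_inv 1))))
  have τ1 : Tst 0 fun z => χ z * (-1 * z.im) :=
    (hχ.mono zero_le_two).mul ((cm 0 _).mul (cdOn_im 0))
  have τ2 : Tst 0 fun z => px χ z * (-1 * z.im) :=
    (χx.mono zero_le_one).mul ((cm 0 _).mul (cdOn_im 0))
  have τ3 : Tst 0 fun z => px (px χ) z * (-2⁻¹ * z.im) + py χ z * 2⁻¹ :=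
    (χx.px.mul ((cm 0 _).mul (cdOn_im 0))).add ((χy.mono zero_le_one).mul (cm 0 _))
  have τ4 : Tst 0 fun z => py (py χ) z * (-2⁻¹ * (z.im : ℂ)⁻¹)
      + py χ z * (2⁻¹ * ((z.im : ℂ)⁻¹ * (z.im : ℂ)⁻¹)) :=
    (χy.py.mul ((cm 0 _).mul (cdOn_im_inv 0))).add
      ((χy.mono zero_le_one).mul ((cm 0 _).mul ((cdOn_im_inv 0).mul (cdOn_im_inv 0))))
  have N := (((((((((NI.px (l := l) tP).add (NI.py tQ)).add
    (NI.pair sH1 sb (t0.mono fun j h => ⟨by linarith, by positivity,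
      (mul_inv_cancel₀ (by linarith)).ge⟩) τ1)).add
    (NI.pair hk oh2 o2 τ1)).add (NI.pair hk oH1 o2 τ2)).add (NI.pair oH1 hk' o2 χy)).add
    (NI.pair hk oH2 o2 χy)).add (NI.pair hk hk o2 τ3)).add (NI.pair hk hk' o2 χy.px)).add
    (NI.pair hk' hk' o2 τ4)
  refine N.lim.congr fun j => integral_congr_ae (Eventually.of_forall fun z => ?_)
  by_cases hz : z ∈ UH
  swap
  · simp only [(tP j).px.zero hz, (tQ j).py.zero hz, χ1.zero hz, χx.zero hz, χy.zero hz,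
      χx.px.zero hz, χy.px.zero hz, χy.py.zero hz, zero_mul, add_zero]
  have h0 : (z.im : ℂ) ≠ 0 := by exact_mod_cast (ne_of_gt hz)
  have q0 := HP.of_cd χ1.cd.contDiffOn hz
  have qx := HP.of_cd χx.cd.contDiffOn hz
  have qy := HP.of_cd χy.cd.contDiffOn hz
  have qa := pα j z hz
  have qb := pβ j z hz
  have e1 := (((q0.mul (((HP.im z).mul qa).mul (HP.of_cd (hb j) hz))).add
    (qx.mul ((HP.const 2⁻¹ z).mul (((HP.im z).mul qa).mul qa)))).add
    (qy.mul ((HP.const (-1) z).mul (qa.mul qb)))).x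
  have e2 := (((q0.mul (qa.mul (((HP.im z).mul (HP.of_cd (hc j) hz)).add qa))).add
    (q0.mul ((HP.const (-2⁻¹) z).mul (qa.mul qa)))).add
    (qy.mul ((HP.const 2⁻¹ z).mul ((qb.mul qb).mul (HP.im_inv hz))))).y
  simp only
  rw [e1, e2]
  simp only [hα, hβ]
  field_simp
  ring

end Pool.Agent.Lib.MP_a52643_an.H53
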