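import Pool.Agent.Lib.MP_a52643_an.H53A5b

open Complex MeasureTheory Set Filter Topology Metric
open UpperHalfPlane (ofComplex)
open scoped ComplexConjugate ContDiff ENNReal UpperHalfPlane Laplacian Real

noncomputable section

namespace Pool.Agent.Lib.MP_a52643_an.H53

variable {J : Type} {l : Filter J} {t : J → ℝ} {m : ℤ} {R S : J → ℤ → ℂ → ℂ}

lemma hp_id_a6 (z : ℂ) : HP (fun x : ℂ => x) z 1 I :=
  ⟨differentiableAt_id, by simp [px], by simp [py]⟩

lemma hp_conj_a6 (z : ℂ) : HP (fun x : ℂ => conj x) z 1 (-I) := by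
  have h : HasFDerivAt (fun x : ℂ => conj x) (conjCLE : ℂ →L[ℝ] ℂ) z := conjCLE.hasFDerivAt
  exact ⟨h.differentiableAt, by simp [px, h.fderiv], by simp [py, h.fderiv]⟩

lemma cd_id_a6 (n : ℕ) : ContDiffOn ℝ n (fun z : ℂ => z) UH := contDiffOn_id

lemma cd_conj_a6 (n : ℕ) : ContDiffOn ℝ n (fun z : ℂ => conj z) UH :=
  conjCLE.contDiff.contDiffOn

lemma cm_a6 (n : ℕ) (c : ℂ) : ContDiffOn ℝ n (fun _ : ℂ => c) UH := contDiffOn_const

lemma pos_a6 (ht : Tendsto t l atTop) : ∀ᶠ j in l, 0 ≤ t j := ht.eventually_ge_atTop 0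

lemma pos_inv_a6 (ht : Tendsto t l atTop) : ∀ᶠ j in l, 0 ≤ (t j)⁻¹ :=
  (pos_a6 ht).mono fun _ h => inv_nonneg.2 h

lemma im_ne_a6 {z : ℂ} (hz : z ∈ UH) : (z.im : ℂ) ≠ 0 := by exact_mod_cast (ne_of_gt hz)

/-- the law in terms of the derivatives in the two coordinate directions -/
lemma law_eq_a6 {m : ℤ} {R : ℤ → ℂ → ℂ} {k : ℤ} {z a b c d : ℂ} (h : HP (R k) z a b)
    (h' : HP (R (k + 1)) z c d) :
    law m R k z = I * z.im * (a - I * b + (c + I * d)) + (m + 2 * k) * R k z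
      + (m + 2 * k + 2) * R (k + 1) z := by
  simp only [law, dz_eq, dzb_eq, h.x, h.y, h'.x, h'.y]
  ring

/-- combinations of two neighbouring members with coefficients of class `C^1` -/
lemma chain_comb_a6 {m' : ℤ} {V : J → ℤ → ℂ → ℂ} {p q : ℂ → ℂ} (ht : Tendsto t l atTop)
    (h : Chain l t m R) (hp : ContDiffOn ℝ 1 p UH) (hq : ContDiffOn ℝ 1 q UH)
    (hV : ∀ j k z, V j k z = p z * R j (k + 1) z + q z * R j k z)
    (hl : ∀ j k, ∀ z ∈ UH, law m' (V j) k z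
      = p z * law m (R j) (k + 1) z + q z * law m (R j) k z) : Chain l t m' V := by
  refine ⟨fun j k => ?_, fun k => ?_, fun k => ?_, fun k => ?_⟩
  · exact ((hp.mul (h.cd j (k + 1))).add (hq.mul (h.cd j k))).congr fun z _ => hV j k z
  · exact (((h.wd (k + 1)).mul hp).add ((h.wd k).mul hq)).congr fun j z _ => hV j k z
  · exact (((h.sm (k + 1)).mul hp.continuousOn (pos_inv_a6 ht)).add
      ((h.sm k).mul hq.continuousOn (pos_inv_a6 ht)) (pos_inv_a6 ht)).congr fun j z _ => hV j k z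
  · exact (((h.law (k + 1)).mul hp.continuousOn (pos_a6 ht)).add
      ((h.law k).mul hq.continuousOn (pos_a6 ht)) (pos_a6 ht)).congr fun j z hz => hl j k z hz

theorem Chain.add (ht : Tendsto t l atTop) (h : Chain l t m R) (h' : Chain l t m S) :
    Chain l t m fun j k z => R j k z + S j k z := by
  refine ⟨fun j k => (h.cd j k).add (h'.cd j k), fun k => (h.wd k).add (h'.wd k),
    fun k => (h.sm k).add (h'.sm k) (pos_inv_a6 ht),
    fun k => ((h.law k).add (h'.law k) (pos_a6 ht)).congr fun j z hz => ?_⟩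
  have a0 := HP.of_cd (h.cd j k) hz
  have a1 := HP.of_cd (h.cd j (k + 1)) hz
  have b0 := HP.of_cd (h'.cd j k) hz
  have b1 := HP.of_cd (h'.cd j (k + 1)) hz
  rw [law_eq_a6 (R := fun k z => R j k z + S j k z) (a0.add b0) (a1.add b1),
    law_eq_a6 a0 a1, law_eq_a6 b0 b1]
  ring

theorem Chain.shift (h : Chain l t m R) (n : ℤ) :
    Chain l t (m + 2 * n) fun j k => R j (k + n) := by
  refine ⟨fun j k => h.cd j (k + n), fun k => h.wd (k + n), fun k => h.sm (k + n),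
    fun k => (h.law (k + n)).congr fun j z _ => ?_⟩
  simp only [H53.law, add_right_comm k 1 n]
  push_cast
  ring

theorem Chain.up1 (ht : Tendsto t l atTop) (h : Chain l t m R) :
    Chain l t (m + 1) fun j k z => (R j (k + 1) z + R j k z) / z.im := by
  refine chain_comb_a6 ht h (cdOn_im_inv 1) (cdOn_im_inv 1) (fun j k z => by ring)
    fun j k z hz => ?_
  have h0 := im_ne_a6 hz
  have a0 := HP.of_cd (h.cd j k) hz
  have a1 := HP.of_cd (h.cd j (k + 1)) hz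
  have a2 := HP.of_cd (h.cd j (k + 1 + 1)) hz
  rw [law_eq_a6 (R := fun k z => (R j (k + 1) z + R j k z) / z.im)
      (by simpa only [div_eq_mul_inv] using (a1.add a0).mul (HP.im_inv hz))
      (by simpa only [div_eq_mul_inv] using (a2.add a1).mul (HP.im_inv hz)),
    law_eq_a6 a0 a1, law_eq_a6 a1 a2]
  push_cast
  field_simp
  linear_combination (R j (k + 1) z + R j k z - (R j (k + 1 + 1) z + R j (k + 1) z)) * I_mul_I

theorem Chain.up2 (ht : Tendsto t l atTop) (h : Chain l t m R) :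
    Chain l t (m + 1) fun j k z => (z * R j (k + 1) z + conj z * R j k z) / z.im := by
  refine chain_comb_a6 ht h ((cd_id_a6 1).mul (cdOn_im_inv 1))
    ((cd_conj_a6 1).mul (cdOn_im_inv 1)) (fun j k z => by ring) fun j k z hz => ?_
  have h0 := im_ne_a6 hz
  have a0 := HP.of_cd (h.cd j k) hz
  have a1 := HP.of_cd (h.cd j (k + 1)) hz
  have a2 := HP.of_cd (h.cd j (k + 1 + 1)) hz
  have e : conj z = z - 2 * z.im * I := by
    have := sub_conj z
    push_cast at this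
    linear_combination -this
  rw [law_eq_a6 (R := fun k z => (z * R j (k + 1) z + conj z * R j k z) / z.im)
      (by simpa only [div_eq_mul_inv] using
        (((hp_id_a6 z).mul a1).add ((hp_conj_a6 z).mul a0)).mul (HP.im_inv hz))
      (by simpa only [div_eq_mul_inv] using
        (((hp_id_a6 z).mul a2).add ((hp_conj_a6 z).mul a1)).mul (HP.im_inv hz)),
    law_eq_a6 a0 a1, law_eq_a6 a1 a2]
  push_cast
  field_simp
  rw [e]
  have := I_mul_I
  grind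

/-- combinations of the three middle members -/
def tri_a6 (c0 c1 c2 : ℂ) (R : ℤ → ℂ → ℂ) (z : ℂ) : ℂ :=
  (c0 * R 0 z + c1 * R 1 z + c2 * R (-1) z) * ((z.im : ℂ)⁻¹ * (z.im : ℂ)⁻¹)

lemma cw_a6 (n : ℕ) (c : ℂ) :
    ContDiffOn ℝ n (fun z : ℂ => c * ((z.im : ℂ)⁻¹ * (z.im : ℂ)⁻¹)) UH :=
  (cm_a6 n c).mul ((cdOn_im_inv n).mul (cdOn_im_inv n))

lemma tri_cd_a6 (h : Chain l t m R) (c0 c1 c2 : ℂ) (j : J) :
    ContDiffOn ℝ 1 (tri_a6 c0 c1 c2 (R j)) UH :=
  ((((cm_a6 1 c0).mul (h.cd j 0)).add ((cm_a6 1 c1).mul (h.cd j 1))).add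
    ((cm_a6 1 c2).mul (h.cd j (-1)))).mul ((cdOn_im_inv 1).mul (cdOn_im_inv 1))

lemma tri_wd_a6 (h : Chain l t m R) (c0 c1 c2 : ℂ) : WD l fun j => tri_a6 c0 c1 c2 (R j) :=
  ((((h.wd 0).mul (cw_a6 1 c0)).add ((h.wd 1).mul (cw_a6 1 c1))).add
    ((h.wd (-1)).mul (cw_a6 1 c2))).congr fun j z _ => by simp only [tri_a6]; ring

lemma tri_sm_a6 (ht : Tendsto t l atTop) (h : Chain l t m R) (c0 c1 c2 : ℂ) :
    SM l (fun j => (t j)⁻¹) fun j => tri_a6 c0 c1 c2 (R j) :=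
  ((((h.sm 0).mul (cw_a6 1 c0).continuousOn (pos_inv_a6 ht)).add
    ((h.sm 1).mul (cw_a6 1 c1).continuousOn (pos_inv_a6 ht)) (pos_inv_a6 ht)).add
    ((h.sm (-1)).mul (cw_a6 1 c2).continuousOn (pos_inv_a6 ht)) (pos_inv_a6 ht)).congr
    fun j z _ => by simp only [tri_a6]; ring

lemma tri_hp_a6 (h : Chain l t m R) (c0 c1 c2 : ℂ) (j : J) {z : ℂ} (hz : z ∈ UH) :
    HP (tri_a6 c0 c1 c2 (R j)) z
      ((c0 * px (R j 0) z + c1 * px (R j 1) z + c2 * px (R j (-1)) z) / (z.im : ℂ) ^ 2)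
      ((c0 * py (R j 0) z + c1 * py (R j 1) z + c2 * py (R j (-1)) z) / (z.im : ℂ) ^ 2
        - 2 * (c0 * R j 0 z + c1 * R j 1 z + c2 * R j (-1) z) / (z.im : ℂ) ^ 3) := by
  have h0 := im_ne_a6 hz
  have := (((((HP.const c0 z).mul (HP.of_cd (h.cd j 0) hz)).add
    ((HP.const c1 z).mul (HP.of_cd (h.cd j 1) hz))).add
    ((HP.const c2 z).mul (HP.of_cd (h.cd j (-1)) hz))).mul ((HP.im_inv hz).mul (HP.im_inv hz)))
  refine ⟨this.diff, this.x.trans ?_, this.y.trans ?_⟩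
  · field_simp
    ring
  · field_simp
    ring

theorem chain_zero (ht : Tendsto t l atTop) (h : Chain l t 0 R) {τ : ℂ → ℂ} (hτ : Tst 2 τ) :
    Tendsto (fun j => ∫ z, τ z * DD (R j) (R j) z) l (𝓝 0) := by
  have cw : ∀ c : ℂ, ContinuousOn
      (fun z : ℂ => c * ((z.im : ℂ)⁻¹ * (z.im : ℂ)⁻¹) * (z.im : ℂ)⁻¹) UH := fun c =>
    ((cw_a6 1 c).mul (cdOn_im_inv 1)).continuousOn
  have L0 : ∀ j, ∀ z ∈ UH, law 0 (R j) 0 z = I * z.im * (px (R j 0) z - I * py (R j 0) z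
      + (px (R j 1) z + I * py (R j 1) z)) + 2 * R j 1 z := fun j z hz => by
    rw [law_eq_a6 (HP.of_cd (h.cd j 0) hz) (HP.of_cd (h.cd j (0 + 1)) hz)]
    simp
  have L1 : ∀ j, ∀ z ∈ UH, law 0 (R j) (-1) z = I * z.im * (px (R j (-1)) z - I * py (R j (-1)) z
      + (px (R j 0) z + I * py (R j 0) z)) - 2 * R j (-1) z := fun j z hz => by
    rw [law_eq_a6 (HP.of_cd (h.cd j (-1)) hz) (HP.of_cd (h.cd j (-1 + 1)) hz)]
    simp only [neg_add_cancel]
    push_cast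
    ring
  have χ2 : Tst 2 fun z => τ z * (8 * (z.im * z.im * z.im)) :=
    hτ.mul ((cm_a6 2 8).mul (((cdOn_im 2).mul (cdOn_im 2)).mul (cdOn_im 2)))
  have key := hessian (a := fun j => tri_a6 2⁻¹ 4⁻¹ 4⁻¹ (R j))
    (b := fun j => tri_a6 0 (I / 4) (-I / 4) (R j)) (c := fun j => tri_a6 2⁻¹ (-4⁻¹) (-4⁻¹) (R j))
    ht (tri_cd_a6 h _ _ _) (tri_cd_a6 h _ _ _) (tri_cd_a6 h _ _ _) (tri_wd_a6 h _ _ _)
    (tri_wd_a6 h _ _ _) (tri_wd_a6 h _ _ _) (tri_sm_a6 ht h _ _ _)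
    ((((h.law 0).mul (cw (-I / 4)) (pos_a6 ht)).add ((h.law (-1)).mul (cw (-I / 4)) (pos_a6 ht))
      (pos_a6 ht)).congr fun j z hz => ?_)
    ((((h.law 0).mul (cw 4⁻¹) (pos_a6 ht)).add ((h.law (-1)).mul (cw (-4⁻¹)) (pos_a6 ht))
      (pos_a6 ht)).congr fun j z hz => ?_) χ2
  · refine key.congr fun j => integral_congr_ae (Eventually.of_forall fun z => ?_)
    by_cases hz : z ∈ UH
    swap
    · simp only [hτ.zero hz, zero_mul]
    have h0 := im_ne_a6 hz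
    simp only [tri_a6, DD]
    field_simp
    have := I_mul_I
    grind
  · have h0 := im_ne_a6 hz
    rw [(tri_hp_a6 h _ _ _ j hz).x, (tri_hp_a6 h _ _ _ j hz).y, L0 j z hz, L1 j z hz]
    field_simp
    have := I_mul_I
    grind
  · have h0 := im_ne_a6 hz
    rw [(tri_hp_a6 h _ _ _ j hz).x, (tri_hp_a6 h _ _ _ j hz).y, L0 j z hz, L1 j z hz]
    simp only [tri_a6]
    field_simp
    have := I_mul_I
    grind

end Pool.Agent.Lib.MP_a52643_an.H53
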