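import Pool.Agent.Lib.MP_a52643_an.H53A6
import Pool.Agent.Lib.MP_a52643_an.H53A3b

open Complex MeasureTheory Set Filter Topology Metric
open UpperHalfPlane (ofComplex)
open scoped ComplexConjugate ContDiff ENNReal UpperHalfPlane Laplacian Real

noncomputable section

namespace Pool.Agent.Lib.MP_a52643_an.H53

variable {J : Type} {l : Filter J} {lam : J → ℝ} {Φ : J → ℤ → V → ℂ} {κ : ℝ}

/-- the statement proved by induction on the offsets -/
def PP_a6b (l : Filter J) (t : J → ℝ) (m m' : ℤ) : Prop :=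
  ∀ R S : J → ℤ → ℂ → ℂ, Chain l t m R → Chain l t m' S → ∀ τ : ℂ → ℂ, Tst 2 τ →
    Tendsto (fun j => ∫ z, τ z * DD (R j) (S j) z) l (𝓝 0)

lemma contOn_DD_a6b {R S : ℤ → ℂ → ℂ} (hR : ∀ k, ContinuousOn (R k) UH)
    (hS : ∀ k, ContinuousOn (S k) UH) : ContinuousOn (DD R S) UH :=
  (((continuousOn_const.mul (hR 0)).mul (hS 0)).sub ((hR (-1)).mul (hS 1))).sub
    ((hR 1).mul (hS (-1)))

lemma Chain.contDD_a6b {t : J → ℝ} {m m' : ℤ} {R S : J → ℤ → ℂ → ℂ} (h : Chain l t m R)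
    (h' : Chain l t m' S) (j : J) : ContinuousOn (DD (R j) (S j)) UH :=
  contOn_DD_a6b (fun k => (h.cd j k).continuousOn) (fun k => (h'.cd j k).continuousOn)

lemma PP_symm_a6b {t : J → ℝ} {m m' : ℤ} (h : PP_a6b l t m m') : PP_a6b l t m' m := by
  intro R S hR hS τ hτ
  refine (h S R hS hR τ hτ).congr fun j => ?_
  congr 1
  ext z
  simp only [DD]
  ring

lemma PP_zero_a6b {t : J → ℝ} (ht : Tendsto t l atTop) : PP_a6b l t 0 0 := by
  intro R S hR hS τ hτ
  have hRS := Chain.add ht hR hS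
  have h1 := chain_zero ht hRS hτ
  have h2 := chain_zero ht hR hτ
  have h3 := chain_zero ht hS hτ
  have h4 := ((h1.sub h2).sub h3).const_mul (1 / 2 : ℂ)
  simp only [sub_zero, mul_zero] at h4
  refine h4.congr fun j => ?_
  have i1 := tf_integrable hτ.tf (hRS.contDD_a6b hRS j)
  have i2 := tf_integrable hτ.tf (hR.contDD_a6b hR j)
  have i3 := tf_integrable hτ.tf (hS.contDD_a6b hS j)
  have i4 : Integrable fun z => τ z * DD (fun k z => R j k z + S j k z)
      (fun k z => R j k z + S j k z) z - τ z * DD (R j) (R j) z := i1.sub i2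
  rw [← integral_sub i1 i2, ← integral_sub i4 i3, ← integral_const_mul]
  congr 1
  ext z
  simp only [DD]
  ring

/-- a chain which is a combination of two chains with smooth coefficients -/
lemma comb_a6b {t : J → ℝ} {m m' : ℤ} (h : PP_a6b l t m m') {A B R S : J → ℤ → ℂ → ℂ}
    (hA : Chain l t m A) (hB : Chain l t m B) (hS : Chain l t m' S) {f g : ℂ → ℂ}
    (hf : ContDiff ℝ 2 f) (hg : ContDiff ℝ 2 g)
    (e : ∀ j k, ∀ z ∈ UH, R j k z = f z * A j k z + g z * B j k z) {τ : ℂ → ℂ} (hτ : Tst 2 τ) :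
    Tendsto (fun j => ∫ z, τ z * DD (R j) (S j) z) l (𝓝 0) := by
  have t1 : Tst 2 fun z => τ z * f z := hτ.mul (by exact_mod_cast hf.contDiffOn)
  have t2 : Tst 2 fun z => τ z * g z := hτ.mul (by exact_mod_cast hg.contDiffOn)
  have h1 := (h A S hA hS _ t1).add (h B S hB hS _ t2)
  rw [add_zero] at h1
  refine h1.congr fun j => ?_
  rw [← integral_add (tf_integrable t1.tf (hA.contDD_a6b hS j))
    (tf_integrable t2.tf (hB.contDD_a6b hS j)),
    tf_congr hτ.tf (f := DD (R j) (S j))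
      (g := fun z => f z * DD (A j) (S j) z + g z * DD (B j) (S j) z)
      (fun z hz => by simp only [DD, e j _ z hz]; ring)]
  congr 1
  ext z
  ring

lemma im_ne_a6b {z : ℂ} (hz : z ∈ UH) : (z.im : ℂ) ≠ 0 := by
  exact_mod_cast (ne_of_gt hz)

lemma PP_down_a6b {t : J → ℝ} (ht : Tendsto t l atTop) {m m' : ℤ} (h : PP_a6b l t (m + 1) m') :
    PP_a6b l t m m' := by
  intro R S hR hS τ hτ
  refine comb_a6b h (hR.up1 ht) (hR.up2 ht) hS (f := fun z => z * (-I / 2)) (g := fun _ => I / 2)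
    (contDiff_id.mul contDiff_const) contDiff_const (fun j k z hz => ?_) hτ
  have hy := im_ne_a6b hz
  have e := Complex.sub_conj z
  push_cast at e
  field_simp
  linear_combination (I * R j k z) * e + (2 * z.im * R j k z) * I_mul_I

lemma PP_up_a6b {t : J → ℝ} (ht : Tendsto t l atTop) {m m' : ℤ} (h : PP_a6b l t m m') :
    PP_a6b l t (m + 1) m' := by
  intro R S hR hS τ hτ
  have hT := hR.shift (-1)
  have e0 : m + 1 + 2 * (-1) + 1 = m := by ring
  have h1 := hT.up1 ht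
  have h2 := hT.up2 ht
  rw [e0] at h1 h2
  have hc : ContDiff ℝ 2 fun z : ℂ => conj z := conjCLE.contDiff
  refine comb_a6b h h1 h2 hS (f := fun z => conj z * (I / 2)) (g := fun _ => -I / 2)
    (hc.mul contDiff_const) contDiff_const (fun j k z hz => ?_) hτ
  have hy := im_ne_a6b hz
  have e := Complex.sub_conj z
  have e1 : k + 1 + -1 = k := by ring
  push_cast at e
  simp only [e1]
  field_simp
  linear_combination (I * R j k z) * e + (2 * z.im * R j k z) * I_mul_I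

lemma PP_all_a6b {t : J → ℝ} (ht : Tendsto t l atTop) {m' : ℤ} (h : PP_a6b l t 0 m') (m : ℤ) :
    PP_a6b l t m m' := by
  induction m using Int.induction_on with
  | zero => exact h
  | succ i ih => exact PP_up_a6b ht ih
  | pred i ih =>
    refine PP_down_a6b ht ?_
    rwa [sub_add_cancel]

theorem chain_all {t : J → ℝ} (ht : Tendsto t l atTop) {m m' : ℤ} {R S : J → ℤ → ℂ → ℂ}
    (h : Chain l t m R) (h' : Chain l t m' S) {τ : ℂ → ℂ} (hτ : Tst 2 τ) :
    Tendsto (fun j => ∫ z, τ z * DD (R j) (S j) z) l (𝓝 0) :=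
  PP_all_a6b ht (PP_symm_a6b (PP_all_a6b ht (PP_zero_a6b ht) m')) m R S h h' τ hτ

lemma lc_mul_a6b (κ : ℝ) (a b : ℤ) : ((a : ℂ) + b) * lc κ a b = 0 := by
  unfold lc
  split_ifs with h
  · have : (a : ℂ) + b = 0 := by exact_mod_cast h
    rw [this, zero_mul]
  · rw [mul_zero]

lemma lc_eq_a6b (κ : ℝ) (a b : ℤ) : lc κ a b = κ * lc 1 a b := by
  unfold lc
  split_ifs with h
  · simp [mul_comm]
  · simp

lemma QF.sqrt_tend_a6b (h : QF l lam Φ κ) : Tendsto (fun j => √(lam j)) l atTop :=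
  Real.tendsto_sqrt_atTop.comp h.tend

lemma law_eq_a6b {lam : ℝ} {Φ : ℤ → V → ℂ} (h : Ladder lam Φ) (κ : ℝ) (a b k : ℤ) {z : ℂ}
    (hz : z ∈ UH) :
    law (a + b) (fun k z => psi Φ ![a + k, b + k] z - lc κ (a + k) (b + k)) k z =
      I * (al lam (a + k) - al lam (b + k) : ℝ) *
        (psi Φ ![a + k + 1, b + k] z + -1 * psi Φ ![a + k, b + k + 1] z) := by
  have hy := im_ne_a6b hz
  have e := h.eP_psi (a + k) (b + k) hz
  have c1 := lc_mul_a6b κ (a + k) (b + k)
  have c2 := lc_mul_a6b κ (a + k + 1) (b + k + 1)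
  have d1 : ∀ (f : ℂ → ℂ) (c : ℂ), dz (fun z => f z - c) z = dz f z := fun f c => by
    simp only [dz, fderiv_sub_const]
  have d2 : ∀ (f : ℂ → ℂ) (c : ℂ), dzb (fun z => f z - c) z = dzb f z := fun f c => by
    simp only [dzb, fderiv_sub_const]
  simp only [law, d1, d2, ← add_assoc]
  simp only [eP] at e
  rw [e]
  push_cast at c1 c2 ⊢
  field_simp
  linear_combination (-1 : ℂ) * c1 - c2

theorem QF.chain (h : QF l lam Φ κ) (a b : ℤ) :
    Chain l (fun j => √(lam j)) (a + b)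
      fun j k z => psi (Φ j) ![a + k, b + k] z - lc κ (a + k) (b + k) := by
  have h0 : ∀ᶠ j in l, 0 ≤ (√(lam j))⁻¹ := Eventually.of_forall fun j => by positivity
  have hs : Tendsto (fun j => (√(lam j))⁻¹) l (𝓝 0) := h.sqrt_tend_a6b.inv_tendsto_atTop
  refine ⟨fun j k => ((h.lad j).cd_psi _).sub contDiffOn_const, fun k => h.wd _ _, fun k => ?_,
    fun k => ?_⟩
  · exact ((h.sm (a + k) (b + k)).add (SM.const hs (-lc κ (a + k) (b + k))) h0).congr
      fun j z _ => by ring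
  · have hF := (h.sm (a + k + 1) (b + k)).add
      ((h.sm (a + k) (b + k + 1)).mul (g := fun _ => -1) continuousOn_const h0) h0
    have hG : SM l (fun j => √(lam j)) fun j z =>
        I * (al (lam j) (a + k) - al (lam j) (b + k) : ℝ) *
          (psi (Φ j) ![a + k + 1, b + k] z + -1 * psi (Φ j) ![a + k, b + k + 1] z) := by
      refine hF.of_le (fun j => continuousOn_const.mul (hF.cont j))
        (C := |((a + k : ℤ) : ℝ) * ((a + k : ℤ) + 1) - ((b + k : ℤ) : ℝ) * ((b + k : ℤ) + 1)| ^ 2) ?_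
      filter_upwards [h.tend.eventually_gt_atTop 0] with j hj
      refine ⟨by positivity, by positivity, fun z _ => ?_⟩
      have hsq : 0 < √(lam j) := Real.sqrt_pos.2 hj
      have hb := abs_al_sub_le hj (a + k) (b + k)
      set c := |((a + k : ℤ) : ℝ) * ((a + k : ℤ) + 1) - ((b + k : ℤ) : ℝ) * ((b + k : ℤ) + 1)|
      set F := psi (Φ j) ![a + k + 1, b + k] z + -1 * psi (Φ j) ![a + k, b + k + 1] z
      set s := √(lam j)
      rw [norm_mul, norm_mul, norm_I, one_mul, norm_real, Real.norm_eq_abs, mul_pow]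
      have hb2 : |al (lam j) (a + k) - al (lam j) (b + k)| ^ 2 ≤ (c / s) ^ 2 :=
        pow_le_pow_left₀ (abs_nonneg _) hb 2
      calc s * (|al (lam j) (a + k) - al (lam j) (b + k)| ^ 2 * ‖F‖ ^ 2)
          ≤ s * ((c / s) ^ 2 * ‖F‖ ^ 2) := by gcongr
        _ = c ^ 2 * (s⁻¹ * ‖F‖ ^ 2) := by field_simp
    exact hG.congr fun j z hz => law_eq_a6b (h.lad j) κ a b k hz

lemma NN4_single_a6b (a : Fin 4 → ℤ) (c : ℝ) :
    NN4 * AddMonoidAlgebra.single a c =
      AddMonoidAlgebra.single a (2 * c) +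
        AddMonoidAlgebra.single ![a 0 + -1, a 1 + -1, a 2 + 1, a 3 + 1] (-c) +
        AddMonoidAlgebra.single ![a 0 + 1, a 1 + 1, a 2 + -1, a 3 + -1] (-c) := by
  have e : NN4 = 1 + 1 - W 2 * W 3 * W' 0 * W' 1 - W 0 * W 1 * W' 2 * W' 3 := by
    unfold NN4
    linear_combination (W 3 * W' 3 : LA (Fin 4)) * W_mul_W' (2 : Fin 4) + W_mul_W' (3 : Fin 4)
      + (W 1 * W' 1 : LA (Fin 4)) * W_mul_W' (0 : Fin 4) + W_mul_W' (1 : Fin 4)
  have e1 : (Pi.single 2 1 + Pi.single 3 1 + -Pi.single 0 1 + -Pi.single 1 1 + a : Fin 4 → ℤ)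
      = ![a 0 + -1, a 1 + -1, a 2 + 1, a 3 + 1] := by
    ext i
    fin_cases i <;> simp [add_comm]
  have e2 : (Pi.single 0 1 + Pi.single 1 1 + -Pi.single 2 1 + -Pi.single 3 1 + a : Fin 4 → ℤ)
      = ![a 0 + 1, a 1 + 1, a 2 + -1, a 3 + -1] := by
    ext i
    fin_cases i <;> simp [add_comm]
  rw [e, sub_mul, sub_mul, add_mul, one_mul]
  simp only [W, W', AddMonoidAlgebra.single_mul_single, one_mul, e1, e2,
    AddMonoidAlgebra.single_neg, two_mul, AddMonoidAlgebra.single_add]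
  abel

lemma QF.tendsto_single_a6b (h : QF l lam Φ κ) {τ : ℂ → ℂ} (hτ : Tst 2 τ) (a : Fin 4 → ℤ)
    (c : ℝ) : Tendsto (fun j => Q4 (Φ j) τ (NN4 * AddMonoidAlgebra.single a c)) l
      (𝓝 (κ ^ 2 * (∫ z, τ z ∂hyp) * Lam (NN4 * AddMonoidAlgebra.single a c))) := by
  have hR := h.chain (a 0) (a 1)
  have hS := h.chain (a 2) (a 3)
  set p : ℤ → ℂ := fun k => lc κ (a 0 + k) (a 1 + k) with hp
  set q : ℤ → ℂ := fun k => lc κ (a 2 + k) (a 3 + k) with hq
  set R : J → ℤ → ℂ → ℂ := fun j k z => psi (Φ j) ![a 0 + k, a 1 + k] z - p k with hRd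
  set S : J → ℤ → ℂ → ℂ := fun j k z => psi (Φ j) ![a 2 + k, a 3 + k] z - q k with hSd
  have hσ : Tst 2 fun z => τ z * ((z.im : ℂ) ^ 2)⁻¹ := by
    refine hτ.mul ?_
    simpa only [inv_pow] using (cdOn_im_inv 2).pow 2
  set σ : ℂ → ℂ := fun z => τ z * ((z.im : ℂ) ^ 2)⁻¹ with hσd
  have h1 := chain_all h.sqrt_tend_a6b hR hS hσ
  have cm : ∀ (x : ℂ) {F : J → ℂ → ℂ}, WD l F → WD l fun j z => x * F j z :=
    fun x _ hF => hF.mul (g := fun _ => x) contDiffOn_const
  have hL := (((((cm (2 * q 0) (hR.wd 0)).add (cm (-q 1) (hR.wd (-1)))).add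
    (cm (-q (-1)) (hR.wd 1))).add (cm (2 * p 0) (hS.wd 0))).add (cm (-p (-1)) (hS.wd 1))).add
    (cm (-p 1) (hS.wd (-1)))
  have h2 := hL.wk σ (hσ.mono (by norm_num))
  set K : ℂ := 2 * p 0 * q 0 - p (-1) * q 1 - p 1 * q (-1) with hK
  have h3 := ((h1.add h2).add_const (∫ z, σ z * K)).const_mul (c : ℂ)
  have e1 : ∫ z, τ z ∂hyp = ∫ z, σ z := by
    have := tf_hyp hτ.tf fun _ => 1
    simpa only [mul_one] using this
  have e2 : (κ : ℂ) ^ 2 * (∫ z, τ z ∂hyp) * Lam (NN4 * AddMonoidAlgebra.single a c)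
      = c * (0 + 0 + ∫ z, σ z * K) := by
    rw [e1, integral_mul_const, NN4_single_a6b, hK]
    simp only [Lam, map_add, lin_single, real_smul, hp, hq, lc_eq_a6b κ, add_zero]
    simp
    ring
  rw [e2]
  refine h3.congr fun j => ?_
  have i1 := tf_integrable hσ.tf (hR.contDD_a6b hS j)
  have i2 := tf_integrable hσ.tf (hL.cont j)
  have i3 := tf_integrable hσ.tf (g := fun _ => K) continuousOn_const
  have i4 := i1.add i2
  rw [Pi.add_def] at i4
  rw [← integral_add i1 i2, ← integral_add i4 i3, ← integral_const_mul, Q4,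
    tf_hyp hτ.tf]
  congr 1
  ext z
  have ea : a = ![a 0, a 1, a 2, a 3] := by
    ext i
    fin_cases i <;> rfl
  have ep : psi (Φ j) a z = psi (Φ j) ![a 2, a 3] z * psi (Φ j) ![a 0, a 1] z := by
    conv_lhs => rw [ea]
    exact psi_four _ _ _ _ _ _
  rw [NN4_single_a6b]
  simp only [GG_add, GG_single, psi_four, ep, DD, hRd, hSd, hK, hσd, add_zero]
  push_cast
  ring

theorem QF.tendsto_NN4 (h : QF l lam Φ κ) {τ : ℂ → ℂ} (hτ : Tst 2 τ) (P : LA (Fin 4)) :
    Tendsto (fun j => Q4 (Φ j) τ (NN4 * P)) l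
      (𝓝 (κ ^ 2 * (∫ z, τ z ∂hyp) * Lam (NN4 * P))) := by
  induction P using AddMonoidAlgebra.induction_linear with
  | zero => simp [Q4, tendsto_const_nhds]
  | add f g hf hg =>
    rw [mul_add, map_add, mul_add]
    refine (hf.add hg).congr fun j => ?_
    simp only [Q4, GG_add, mul_add]
    rw [integral_add (hτ.tf.integrable_mul ((h.lad j).cont_GG _))
      (hτ.tf.integrable_mul ((h.lad j).cont_GG _))]
  | single a c => exact h.tendsto_single_a6b hτ a c

end Pool.Agent.Lib.MP_a52643_an.H53
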