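import Pool.Agent.Lib.MP_a52643_an.H53Defs

open Complex MeasureTheory Set Filter Topology Metric
open UpperHalfPlane (ofComplex)
open scoped ComplexConjugate ContDiff ENNReal UpperHalfPlane Laplacian Real

noncomputable section

namespace Pool.Agent.Lib.MP_a52643_an.H53

lemma hu_a7 (θ : ℝ) : ∀ i, ![(exp (θ * I))⁻¹, -(exp (θ * I))⁻¹, (1 : ℂ)⁻¹, -(1 : ℂ)⁻¹] i ≠ 0 := by
  intro i
  fin_cases i <;> simp [exp_ne_zero]

/-- evaluation along the circle -/
def ev_a7 (θ : ℝ) : LA (Fin 4) →ₐ[ℝ] ℂ :=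
  evC ![(exp (θ * I))⁻¹, -(exp (θ * I))⁻¹, (1 : ℂ)⁻¹, -(1 : ℂ)⁻¹] (hu_a7 θ)

lemma ev_single_a7 (θ : ℝ) (a : Fin 4 → ℤ) :
    ev_a7 θ (AddMonoidAlgebra.single a 1)
      = (-1) ^ (a 1) * (-1) ^ (a 3) * exp ((-((a 0 + a 1 : ℤ) : ℂ) * I) * θ) := by
  have h1 : exp ((-((a 0 + a 1 : ℤ) : ℂ) * I) * θ)
      = (exp (θ * I))⁻¹ ^ (a 0) * (exp (θ * I))⁻¹ ^ (a 1) := by
    rw [← zpow_add₀ (inv_ne_zero (exp_ne_zero _)), ← exp_neg, ← exp_int_mul]
    congr 1
    ring
  rw [ev_a7, evC_single, one_smul, Fin.prod_univ_four, h1]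
  simp only [Matrix.cons_val_zero, Matrix.cons_val_one, Matrix.cons_val, inv_one, one_zpow]
  rw [neg_eq_neg_one_mul (exp (θ * I))⁻¹, mul_zpow]
  ring

/-- the span of the monomials of total degree zero -/
def S_a7 : Submodule ℝ (LA (Fin 4)) :=
  Submodule.span ℝ {P | ∃ a : Fin 4 → ℤ, ∑ i, a i = 0 ∧ P = AddMonoidAlgebra.single a 1}

lemma single_mem_a7 (a : Fin 4 → ℤ) (h : ∑ i, a i = 0) :
    AddMonoidAlgebra.single a (1 : ℝ) ∈ S_a7 := Submodule.subset_span ⟨a, h, rfl⟩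

lemma mul_mem_a7 (P P' : LA (Fin 4)) (hP : P ∈ S_a7) (hP' : P' ∈ S_a7) : P * P' ∈ S_a7 := by
  induction hP using Submodule.span_induction with
  | zero => simp
  | add x y _ _ hx hy => rw [add_mul]; exact S_a7.add_mem hx hy
  | smul c x _ hx => rw [smul_mul_assoc]; exact S_a7.smul_mem c hx
  | mem x hx =>
    obtain ⟨a, ha, rfl⟩ := hx
    induction hP' using Submodule.span_induction with
    | zero => simp
    | add x y _ _ hx hy => rw [mul_add]; exact S_a7.add_mem hx hy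
    | smul c x _ hx => rw [mul_smul_comm]; exact S_a7.smul_mem c hx
    | mem y hy =>
      obtain ⟨b, hb, rfl⟩ := hy
      rw [AddMonoidAlgebra.single_mul_single, one_mul]
      refine single_mem_a7 _ ?_
      simp only [Pi.add_apply, Finset.sum_add_distrib, ha, hb, add_zero]

/-- the same span as a subalgebra -/
def A_a7 : Subalgebra ℝ (LA (Fin 4)) :=
  S_a7.toSubalgebra (single_mem_a7 0 (by simp)) mul_mem_a7

lemma WW'_mem_a7 (i j : Fin 4) : W i * W' j ∈ A_a7 := by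
  change W i * W' j ∈ S_a7
  rw [W, W', AddMonoidAlgebra.single_mul_single, one_mul]
  refine single_mem_a7 _ ?_
  simp [Finset.sum_add_distrib, Finset.sum_pi_single']

lemma hf_mem_a7 : (hf : LA (Fin 4)) ∈ A_a7 := A_a7.algebraMap_mem _

lemma cc_mem_a7 (i j : Fin 4) : cc i j ∈ A_a7 := by
  refine A_a7.mul_mem hf_mem_a7 (A_a7.add_mem (WW'_mem_a7 i j) ?_)
  rw [mul_comm]
  exact WW'_mem_a7 j i

lemma NN4_mem_a7 : NN4 ∈ A_a7 := by
  have : NN4 = (W 2 * W' 2) * (W 3 * W' 3) - (W 2 * W' 0) * (W 3 * W' 1)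
      - (W 0 * W' 2) * (W 1 * W' 3) + (W 0 * W' 0) * (W 1 * W' 1) := by
    unfold NN4; ring
  rw [this]
  refine A_a7.add_mem (A_a7.sub_mem (A_a7.sub_mem ?_ ?_) ?_) ?_ <;>
    exact A_a7.mul_mem (WW'_mem_a7 _ _) (WW'_mem_a7 _ _)

lemma good_a7 (P : LA (Fin 4)) (hP : P ∈ S_a7) :
    Continuous (fun θ : ℝ => ev_a7 θ P) ∧
      (2 * π : ℂ) * Lam P = ∫ θ in (0 : ℝ)..(2 * π), ev_a7 θ P := by
  induction hP using Submodule.span_induction with
  | zero => simp [continuous_const]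
  | add x y _ _ hx hy =>
    simp only [map_add]
    refine ⟨hx.1.add hy.1, ?_⟩
    rw [intervalIntegral.integral_add (hx.1.intervalIntegrable _ _) (hy.1.intervalIntegrable _ _),
      ← hx.2, ← hy.2, mul_add]
  | smul c x _ hx =>
    simp only [map_smul]
    refine ⟨hx.1.const_smul c, ?_⟩
    rw [intervalIntegral.integral_smul, ← hx.2, mul_smul_comm]
  | mem x hx =>
    obtain ⟨a, ha, rfl⟩ := hx
    simp only [ev_single_a7]
    refine ⟨by fun_prop, ?_⟩
    rw [intervalIntegral.integral_const_mul, Lam, lin_single, one_smul]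
    rw [Fin.sum_univ_four] at ha
    by_cases h : a 0 + a 1 = 0
    · have h' : a 2 + a 3 = 0 := by omega
      simp [lc, h, h']
      ring
    · have hc : -((a 0 + a 1 : ℤ) : ℂ) * I ≠ 0 :=
        mul_ne_zero (neg_ne_zero.2 (Int.cast_ne_zero.2 h)) I_ne_zero
      have he : exp (-((a 0 + a 1 : ℤ) : ℂ) * I * ((2 * π : ℝ) : ℂ)) = 1 := by
        have := exp_int_mul_two_pi_mul_I (-(a 0 + a 1))
        rw [← this]
        congr 1
        push_cast
        ring
      rw [integral_exp_mul_complex hc, he, lc, if_neg h]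
      simp

open Polynomial in
lemma ev_NN4_a7 (θ : ℝ) (k : ℝ[X]) : ev_a7 θ (NN4 * (hf * hf * aeval (cc 0 2) k))
    = ((((1 - X ^ 2) * k).eval (Real.cos θ) : ℝ) : ℂ) := by
  have h := evC_dcP (x := exp (θ * I)) (y := 1) (norm_exp_ofReal_mul_I θ) norm_one (hu_a7 θ) k
  rw [map_one, mul_one, exp_ofReal_mul_I_re] at h
  rw [← h, ev_a7]
  simp only [NN4, dcP, map_mul, map_add, map_sub, evC_W']
  simp only [Matrix.cons_val_zero, Matrix.cons_val_one, Matrix.cons_val, inv_neg, inv_inv]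
  ring

open Polynomial in
theorem Lam_eval (k : ℝ[X]) : Lam (NN4 * (hf * hf * aeval (cc 0 2) k))
    = ((π⁻¹ * ∫ θ in (0 : ℝ)..π, ((1 - X ^ 2) * k).eval (Real.cos θ) : ℝ) : ℂ) := by
  have hm : NN4 * (hf * hf * aeval (cc 0 2) k) ∈ A_a7 := by
    refine A_a7.mul_mem NN4_mem_a7 (A_a7.mul_mem (A_a7.mul_mem hf_mem_a7 hf_mem_a7) ?_)
    exact Algebra.adjoin_le (Set.singleton_subset_iff.2 (cc_mem_a7 0 2))
      (Polynomial.aeval_mem_adjoin_singleton ℝ _)
  have h := (good_a7 _ hm).2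
  simp only [ev_NN4_a7] at h
  rw [intervalIntegral.integral_ofReal] at h
  set q : ℝ[X] := (1 - X ^ 2) * k
  have hc : Continuous fun θ : ℝ => q.eval (Real.cos θ) := q.continuous.comp Real.continuous_cos
  have h2 : ∫ θ in π..(2 * π), q.eval (Real.cos θ) = ∫ θ in (0 : ℝ)..π, q.eval (Real.cos θ) := by
    have := intervalIntegral.integral_comp_sub_left (a := 0) (b := π)
      (fun θ : ℝ => q.eval (Real.cos θ)) (2 * π)
    simp only [Real.cos_two_pi_sub, sub_zero] at this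
    rw [this]
    congr 1
    ring
  rw [← intervalIntegral.integral_add_adjacent_intervals (b := π) (hc.intervalIntegrable _ _)
    (hc.intervalIntegrable _ _), h2] at h
  have hπ : (π : ℂ) ≠ 0 := ofReal_ne_zero.2 Real.pi_ne_zero
  have h2π : (2 * π : ℂ) ≠ 0 := mul_ne_zero two_ne_zero hπ
  apply mul_left_cancel₀ h2π
  rw [h]
  push_cast
  field_simp
  ring

open Polynomial in
/-- consequences of the two linear relations and of the symmetry -/
theorem kills_eval {Q : LA (Fin 4) →ₗ[ℝ] ℂ} (h : Kills Q)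
    (hs : ∀ (σ : Fin 4 ≃ Fin 4) P, Q (rel σ P) = Q P) (A B : ℝ) (k : ℝ[X]) :
    Q (aeval (cc 0 1) (C A + C B * X + (1 - X ^ 2) * k))
      = (A - B / 3 : ℝ) * Q 1 + 2 * Q (NN4 * (hf * hf * aeval (cc 0 2) k)) := by
  have e1 : Q ((W 2 * W 3 - W 0 * W 1) * dcP k) = Q (NN4 * (hf * hf * aeval (cc 0 2) k)) := by
    apply eq_of_mk_eq
    set f := Ideal.Quotient.mkₐ ℝ (nullI Q)
    have h2 := h.mk2
    simp only [Fin.sum_univ_four] at h2
    simp only [NN4, dcP, map_mul, map_add, map_sub, map_hf]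
    linear_combination ((f (W 2) * f (W 3) - f (W 0) * f (W 1)) * (hf * hf)
      * f (aeval (cc 0 2) k) * f (W' 0)) * h2
  have e2 : Q (cc 0 1 + cc 0 2 + cc 0 3) = Q (-1) := by
    apply eq_of_mk_eq
    set f := Ideal.Quotient.mkₐ ℝ (nullI Q)
    have h1 := h.mk1
    have h2 := h.mk2
    simp only [Fin.sum_univ_four] at h1 h2
    simp only [cc, map_mul, map_add, map_hf, map_neg, map_one]
    linear_combination hf * f (W' 0) * h1 + hf * f (W 0) * h2 - 2 * hf * map_WW' f 0 - two_hf' f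
  have s2 := hs (Equiv.swap 1 2) (cc 0 1)
  have s3 := hs (Equiv.swap 1 3) (cc 0 1)
  rw [rel_cc] at s2 s3
  have a1 : (Equiv.swap (1 : Fin 4) 2) 0 = 0 := by decide
  have a2 : (Equiv.swap (1 : Fin 4) 2) 1 = 2 := by decide
  have a3 : (Equiv.swap (1 : Fin 4) 3) 0 = 0 := by decide
  have a4 : (Equiv.swap (1 : Fin 4) 3) 1 = 3 := by decide
  rw [a1, a2] at s2
  rw [a3, a4] at s3
  rw [map_add, map_add, s2, s3, map_neg] at e2
  have e3 : aeval (cc (0 : Fin 4) 1) (C A + C B * X + (1 - X ^ 2) * k)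
      = A • (1 : LA (Fin 4)) + B • cc 0 1 + aeval (cc 0 1) ((1 - X ^ 2) * k) := by
    rw [map_add, map_add, map_mul (aeval _) (C B), aeval_C, aeval_C, aeval_X,
      Algebra.algebraMap_eq_smul_one, Algebra.smul_def B]
  rw [e3, map_add, map_add, map_smul, map_smul, h.split hs, e1, real_smul, real_smul]
  push_cast
  linear_combination (B / 3 : ℂ) * e2

open Polynomial in
theorem poly_split (p : ℝ[X]) : ∃ k : ℝ[X], p = C ((p.eval 1 + p.eval (-1)) / 2)
    + C ((p.eval 1 - p.eval (-1)) / 2) * X + (1 - X ^ 2) * k := by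
  set a := (p.eval 1 + p.eval (-1)) / 2 with ha
  set b := (p.eval 1 - p.eval (-1)) / 2 with hb
  have h1 : (p - C a - C b * X).IsRoot 1 := by
    simp only [IsRoot, eval_sub, eval_C, eval_mul, eval_X, ha, hb]
    ring
  obtain ⟨q1, hq1⟩ := dvd_iff_isRoot.2 h1
  have h2 : q1.IsRoot (-1) := by
    have := congrArg (eval (-1)) hq1
    simp only [eval_sub, eval_C, eval_mul, eval_X, ha, hb] at this
    simp only [IsRoot]
    linarith
  obtain ⟨q2, hq2⟩ := dvd_iff_isRoot.2 h2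
  refine ⟨-q2, ?_⟩
  rw [hq2, map_neg, map_one] at hq1
  linear_combination hq1

end Pool.Agent.Lib.MP_a52643_an.H53
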