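import Pool.Agent.Lib.MP_a52643_an.H53A6b
import Pool.Agent.Lib.MP_a52643_an.H53A7

open Complex MeasureTheory Set Filter Topology Metric
open UpperHalfPlane (ofComplex)
open scoped ComplexConjugate ContDiff ENNReal UpperHalfPlane Laplacian Real

noncomputable section

namespace Pool.Agent.Lib.MP_a52643_an.H53

variable {J : Type} {l : Filter J} {lam : J → ℝ} {Φ : J → ℤ → V → ℂ} {κ : ℝ}

lemma Q4_add {lam : ℝ} {Φ : ℤ → V → ℂ} (h : Ladder lam Φ) {τ : ℂ → ℂ} (hτ : TF τ)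
    (P P' : LA (Fin 4)) : Q4 Φ τ (P + P') = Q4 Φ τ P + Q4 Φ τ P' := by
  simp only [Q4, GG_add, mul_add]
  exact integral_add (hτ.integrable_mul (h.cont_GG P)) (hτ.integrable_mul (h.cont_GG P'))

lemma Q4_smul (Φ : ℤ → V → ℂ) (τ : ℂ → ℂ) (c : ℝ) (P : LA (Fin 4)) :
    Q4 Φ τ (c • P) = c * Q4 Φ τ P := by
  simp only [Q4, GG, map_smul, real_smul]
  rw [← integral_const_mul]
  congr 1; ext z; ring

lemma Q4_zero_a8 (Φ : ℤ → V → ℂ) (τ : ℂ → ℂ) : Q4 Φ τ 0 = 0 := by simp [Q4]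

lemma Q4_single_a8 (Φ : ℤ → V → ℂ) (τ : ℂ → ℂ) (a : Fin 4 → ℤ) (c : ℝ) :
    Q4 Φ τ (AddMonoidAlgebra.single a c) = c * ∫ z, τ z * psi Φ a z ∂hyp := by
  simp only [Q4, GG_single]
  rw [← integral_const_mul]
  congr 1; ext z; ring

lemma QF.psi_small_a8 (h : QF l lam Φ κ) {τ : ℂ → ℂ} (hτ : TF τ) (a : Fin 4 → ℤ) :
    Tendsto (fun j => (((√(lam j))⁻¹ : ℝ) : ℂ) * ∫ z, τ z * psi (Φ j) a z ∂hyp) l (𝓝 0) := by
  have hc : ContinuousOn (fun z : ℂ => ((z.im : ℂ) ^ 2)⁻¹) UH := by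
    exact (((cdOn_im_inv 0).continuousOn).pow 2).congr fun z _ => by simp
  have := SM.pair_weight (h.sm (a 2) (a 3)) (h.sm (a 0) (a 1))
    (Eventually.of_forall fun j => by positivity) (tf_mul hτ hc)
  refine this.congr fun j => ?_
  rw [tf_hyp hτ]
  congr 2; ext z
  have e : a = ![a 0, a 1, a 2, a 3] := by ext i; fin_cases i <;> rfl
  rw [← psi_four, ← e]

theorem QF.Q4_small (h : QF l lam Φ κ) {τ : ℂ → ℂ} (hτ : TF τ) (P : LA (Fin 4)) :
    Tendsto (fun j => ((√(lam j))⁻¹ : ℝ) * Q4 (Φ j) τ P) l (𝓝 0) := by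
  induction P using AddMonoidAlgebra.induction_linear with
  | zero => simpa [Q4_zero_a8] using tendsto_const_nhds
  | add f g hf hg =>
    have := hf.add hg
    rw [add_zero] at this
    refine this.congr fun j => ?_
    rw [Q4_add (h.lad j) hτ, mul_add]
  | single a c =>
    have := (h.psi_small_a8 hτ a).const_mul (c : ℂ)
    rw [mul_zero] at this
    refine this.congr fun j => ?_
    rw [Q4_single_a8]; ring

lemma sum_zero_a8 (hl : Tendsto lam l atTop) (n : Fin 4 → ℤ) {X : Fin 4 → J → ℂ} {Y : J → ℂ}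
    (hX : ∀ i, Tendsto (fun j => (((√(lam j))⁻¹ : ℝ) : ℂ) * X i j) l (𝓝 0))
    (hY : Tendsto (fun j => (((√(lam j))⁻¹ : ℝ) : ℂ) * Y j) l (𝓝 0))
    (e : ∀ j, ∑ i, (al (lam j) (n i) : ℂ) * X i j = Y j) :
    Tendsto (fun j => ∑ i, X i j) l (𝓝 0) := by
  have h1 : ∀ i, Tendsto (fun j => ((al (lam j) (n i) - al (lam j) 0 : ℝ) : ℂ) *
      ((((√(lam j))⁻¹ : ℝ) : ℂ) * X i j)) l (𝓝 0) := fun i => by
    have := (tendsto_al_sub hl (n i) 0).ofReal.mul (hX i)
    simpa only [mul_zero] using this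
  have h2 := hY.sub (tendsto_finsetSum Finset.univ fun i _ => h1 i)
  simp only [Finset.sum_const_zero, sub_zero] at h2
  refine h2.congr' ?_
  filter_upwards [hl.eventually_gt_atTop 0] with j hj
  have h0 : al (lam j) 0 = √(lam j) := by simp [al]
  have h3 : ((√(lam j) : ℝ) : ℂ) ≠ 0 := by exact_mod_cast (Real.sqrt_pos.2 hj).ne'
  rw [← e j, h0, Finset.mul_sum, ← Finset.sum_sub_distrib]
  refine Finset.sum_congr rfl fun i _ => ?_
  push_cast
  field_simp
  ring

lemma tf_comb_a8 {τ : ℂ → ℂ} (hτ : Tst 1 τ) (c k : ℂ) :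
    TF fun z => py τ z * z.im + px τ z * (c * z.im) + τ z * k := by
  have h1 : Tst 0 (px τ) := Tst.px hτ
  have h2 : Tst 0 (py τ) := Tst.py hτ
  exact (((h2.mul (cdOn_im 0)).add (h1.mul (contDiffOn_const.mul (cdOn_im 0)))).add
    ((hτ.mono zero_le_one).mul contDiffOn_const)).tf

lemma key_up_a8 {lam : ℝ} {Φ : ℤ → V → ℂ} (h : Ladder lam Φ) {τ : ℂ → ℂ} (hτ : Tst 1 τ)
    (a : Fin 4 → ℤ) :
    ∑ i, (al lam (a i) : ℂ) * ∫ z, τ z * psi Φ (a + Pi.single i 1) z ∂hyp
      = I * ∫ z, (py τ z * z.im + px τ z * (I * z.im) + τ z * (-(∑ i, a i + 1) : ℤ))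
        * psi Φ a z ∂hyp := by
  have hd : ContDiff ℝ 1 τ := by simpa using hτ.cd
  set σ : V → ℂ := fun v => τ (pr v) * om v ^ (-(∑ i, a i + 1)) with hσ
  have hc : CS σ := hτ.tf.cs.mul_right _
  have hs : ContDiffOn ℝ 1 σ Om := (hd.comp_contDiffOn contDiffOn_pr).mul (contDiffOn_om_zpow _)
  have e := ibp_Ep hs hc (h.cd_mono a)
  have e2 : ∫ v, σ v * Ep (mono Φ a) v ∂mV = ∑ i, I * (al lam (a i) *
      ∫ v, σ v * mono Φ (a + Pi.single i 1) v ∂mV) := by
    simp only [← integral_const_mul]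
    rw [← integral_finsetSum _ fun i _ => (((hc.mul_right _).integrable
      (hs.continuousOn.mul (h.cd_mono _).continuousOn)).const_mul _).const_mul _]
    refine integral_congr_ae (ae_Om.mono fun v hv => ?_)
    simp only [(h.hasE_mono a hv).ep, Finset.mul_sum]
    exact Finset.sum_congr rfl fun i _ => by ring
  have e3 : ∀ i, ∫ z, τ z * psi Φ (a + Pi.single i 1) z ∂hyp
      = ∫ v, σ v * mono Φ (a + Pi.single i 1) v ∂mV := fun i => by
    rw [integral_psi h hτ.tf]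
    simp [hσ, Finset.sum_add_distrib, Finset.sum_pi_single']
  have e4 : ∫ z, (py τ z * z.im + px τ z * (I * z.im) + τ z * (-(∑ i, a i + 1) : ℤ))
      * psi Φ a z ∂hyp = ∫ v, Ep σ v * mono Φ a v ∂mV := by
    rw [integral_psi h (tf_comb_a8 hτ _ _)]
    refine integral_congr_ae (ae_Om.mono fun v hv => ?_)
    have h2 := snd_ne_zero hv
    have d1 : DifferentiableAt ℝ τ (pr v) := hd.differentiable one_ne_zero _
    have h0 := om_ne_zero h2
    have e5 : Ep σ v = (py τ (pr v) * (pr v).im + px τ (pr v) * (I * (pr v).im)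
        + τ (pr v) * (-(∑ i, a i + 1) : ℤ)) * om v ^ (-∑ i, a i) := by
      rw [hσ, Ep_mul (F := fun w => τ (pr w))
        (d1.comp _ ((contDiffAt_pr (n := 1) h2).differentiableAt one_ne_zero))
        (diffAt_om_zpow h2 _), Ep_om_zpow h2, Ep_comp_pr h2 d1]
      have e6 : -(∑ i, a i + 1) + 1 = -∑ i, a i := by ring
      have e7 : om v ^ (-∑ i, a i) = om v ^ (-(∑ i, a i + 1)) * om v := by
        rw [← e6, zpow_add_one₀ h0]
      rw [e6, e7]
      simp only [Aop, px, py]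
      ring
    simp only [e5]
  rw [e2, ← Finset.mul_sum] at e
  simp only [e3, e4]
  linear_combination -I * e + (∑ i, (al lam (a i) *
      ∫ v, σ v * mono Φ (a + Pi.single i 1) v ∂mV)) * I_mul_I

lemma key_down_a8 {lam : ℝ} {Φ : ℤ → V → ℂ} (h : Ladder lam Φ) {τ : ℂ → ℂ} (hτ : Tst 1 τ)
    (a : Fin 4 → ℤ) :
    ∑ i, (al lam (a i - 1) : ℂ) * ∫ z, τ z * psi Φ (a - Pi.single i 1) z ∂hyp
      = I * ∫ z, (py τ z * z.im + px τ z * (-I * z.im) + τ z * (∑ i, a i - 1 : ℤ))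
        * psi Φ a z ∂hyp := by
  have hd : ContDiff ℝ 1 τ := by simpa using hτ.cd
  set σ : V → ℂ := fun v => τ (pr v) * om v ^ (-(∑ i, a i - 1)) with hσ
  have hc : CS σ := hτ.tf.cs.mul_right _
  have hs : ContDiffOn ℝ 1 σ Om := (hd.comp_contDiffOn contDiffOn_pr).mul (contDiffOn_om_zpow _)
  have e := ibp_Em hs hc (h.cd_mono a)
  have e2 : ∫ v, σ v * Em (mono Φ a) v ∂mV = ∑ i, I * (al lam (a i - 1) *
      ∫ v, σ v * mono Φ (a - Pi.single i 1) v ∂mV) := by
    simp only [← integral_const_mul]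
    rw [← integral_finsetSum _ fun i _ => (((hc.mul_right _).integrable
      (hs.continuousOn.mul (h.cd_mono _).continuousOn)).const_mul _).const_mul _]
    refine integral_congr_ae (ae_Om.mono fun v hv => ?_)
    simp only [(h.hasE_mono a hv).em, Finset.mul_sum]
    exact Finset.sum_congr rfl fun i _ => by ring
  have e3 : ∀ i, ∫ z, τ z * psi Φ (a - Pi.single i 1) z ∂hyp
      = ∫ v, σ v * mono Φ (a - Pi.single i 1) v ∂mV := fun i => by
    rw [integral_psi h hτ.tf]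
    simp [hσ, Finset.sum_sub_distrib, Finset.sum_pi_single']
  have e4 : ∫ z, (py τ z * z.im + px τ z * (-I * z.im) + τ z * (∑ i, a i - 1 : ℤ))
      * psi Φ a z ∂hyp = ∫ v, Em σ v * mono Φ a v ∂mV := by
    rw [integral_psi h (tf_comb_a8 hτ _ _)]
    refine integral_congr_ae (ae_Om.mono fun v hv => ?_)
    have h2 := snd_ne_zero hv
    have d1 : DifferentiableAt ℝ τ (pr v) := hd.differentiable one_ne_zero _
    have h0 := om_ne_zero h2
    have e5 : Em σ v = (py τ (pr v) * (pr v).im + px τ (pr v) * (-I * (pr v).im)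
        + τ (pr v) * (∑ i, a i - 1 : ℤ)) * om v ^ (-∑ i, a i) := by
      rw [hσ, Em_mul (F := fun w => τ (pr w))
        (d1.comp _ ((contDiffAt_pr (n := 1) h2).differentiableAt one_ne_zero))
        (diffAt_om_zpow h2 _), Em_om_zpow h2, Em_comp_pr h2 d1]
      have e6 : -(∑ i, a i - 1) - 1 = -∑ i, a i := by ring
      have e7 : om v ^ (-∑ i, a i) = om v ^ (-(∑ i, a i - 1)) * (om v)⁻¹ := by
        rw [← e6, zpow_sub_one₀ h0]
      rw [e6, e7]
      simp only [Bop, px, py]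
      push_cast
      ring
    simp only [e5]
  rw [e2, ← Finset.mul_sum] at e
  simp only [e3, e4]
  linear_combination -I * e + (∑ i, (al lam (a i - 1) *
      ∫ v, σ v * mono Φ (a - Pi.single i 1) v ∂mV)) * I_mul_I

lemma Q4_sum_a8 {lam : ℝ} {Φ : ℤ → V → ℂ} (h : Ladder lam Φ) {τ : ℂ → ℂ} (hτ : TF τ)
    (P : Fin 4 → LA (Fin 4)) : Q4 Φ τ (∑ i, P i) = ∑ i, Q4 Φ τ (P i) := by
  simp only [Fin.sum_univ_four, Q4_add h hτ]

theorem QF.kills (h : QF l lam Φ κ) {τ : ℂ → ℂ} (hτ : Tst 1 τ) (P : LA (Fin 4)) :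
    Tendsto (fun j => Q4 (Φ j) τ ((∑ i, W i) * P)) l (𝓝 0) ∧
      Tendsto (fun j => Q4 (Φ j) τ ((∑ i, W' i) * P)) l (𝓝 0) := by
  induction P using AddMonoidAlgebra.induction_linear with
  | zero => simpa [Q4_zero_a8] using tendsto_const_nhds
  | add f g hf hg =>
    have h1 := hf.1.add hg.1
    have h2 := hf.2.add hg.2
    rw [add_zero] at h1 h2
    exact ⟨h1.congr fun j => by rw [mul_add, Q4_add (h.lad j) hτ.tf],
      h2.congr fun j => by rw [mul_add, Q4_add (h.lad j) hτ.tf]⟩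
  | single a c =>
    constructor
    · have h1 := sum_zero_a8 h.tend a (fun i => h.psi_small_a8 hτ.tf (a + Pi.single i 1))
        (by
          have := (h.psi_small_a8 (tf_comb_a8 hτ I (-(∑ i, a i + 1) : ℤ)) a).const_mul I
          rw [mul_zero] at this
          exact this.congr fun j => mul_left_comm _ _ _)
        fun j => key_up_a8 (h.lad j) hτ a
      have h2 := h1.const_mul (c : ℂ)
      rw [mul_zero] at h2
      refine h2.congr fun j => ?_
      rw [Finset.sum_mul, Q4_sum_a8 (h.lad j) hτ.tf, Finset.mul_sum]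
      refine Finset.sum_congr rfl fun i _ => ?_
      rw [W, AddMonoidAlgebra.single_mul_single, Q4_single_a8, one_mul, add_comm a]
    · have h1 := sum_zero_a8 h.tend (fun i => a i - 1)
        (fun i => h.psi_small_a8 hτ.tf (a - Pi.single i 1))
        (by
          have := (h.psi_small_a8 (tf_comb_a8 hτ (-I) (∑ i, a i - 1 : ℤ)) a).const_mul I
          rw [mul_zero] at this
          exact this.congr fun j => mul_left_comm _ _ _)
        fun j => key_down_a8 (h.lad j) hτ a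
      have h2 := h1.const_mul (c : ℂ)
      rw [mul_zero] at h2
      refine h2.congr fun j => ?_
      rw [Finset.sum_mul, Q4_sum_a8 (h.lad j) hτ.tf, Finset.mul_sum]
      refine Finset.sum_congr rfl fun i _ => ?_
      rw [W', AddMonoidAlgebra.single_mul_single, Q4_single_a8, one_mul, neg_add_eq_sub]

/-- the null sequences along a filter -/
def Null_a8 (l : Filter J) : Submodule ℝ (J → ℂ) where
  carrier := {x | Tendsto x l (𝓝 0)}
  add_mem' := fun {x y} hx hy => by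
    have := Tendsto.add hx hy
    rwa [add_zero] at this
  zero_mem' := tendsto_const_nhds
  smul_mem' := fun c x hx => by
    have := Tendsto.const_smul hx c
    rwa [smul_zero] at this

/-- the family of quartic functionals as a linear map -/
def QL_a8 (h : QF l lam Φ κ) {τ : ℂ → ℂ} (hτ : TF τ) : LA (Fin 4) →ₗ[ℝ] (J → ℂ) where
  toFun P j := Q4 (Φ j) τ P
  map_add' P P' := funext fun j => Q4_add (h.lad j) hτ P P'
  map_smul' c P := funext fun j => by simp [Q4_smul]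

lemma Q4_rel_a8 (Φ : ℤ → V → ℂ) (τ : ℂ → ℂ) (σ : Fin 4 ≃ Fin 4) (P : LA (Fin 4)) :
    Q4 Φ τ (rel σ P) = Q4 Φ τ P := by
  unfold Q4 GG
  congr 1; ext z
  rw [lin_rel_equiv σ fun a => Equiv.prod_comp σ.symm fun i => ph Φ (a i) z]

open Polynomial in
lemma QF.kills_eval_a8 (h : QF l lam Φ κ) {τ : ℂ → ℂ} (hτ : Tst 1 τ) (A B : ℝ) (k : ℝ[X]) :
    Tendsto (fun j => Q4 (Φ j) τ (aeval (cc 0 1) (C A + C B * X + (1 - X ^ 2) * k))
      - ((A - B / 3 : ℝ) * Q4 (Φ j) τ 1
        + 2 * Q4 (Φ j) τ (NN4 * (hf * hf * aeval (cc 0 2) k)))) l (𝓝 0) := by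
  set L := QL_a8 h hτ.tf with hL
  have key : L (aeval (cc 0 1) (C A + C B * X + (1 - X ^ 2) * k))
      - ((A - B / 3 : ℝ) • L 1 + (2 : ℝ) • L (NN4 * (hf * hf * aeval (cc 0 2) k)))
      ∈ Null_a8 l := by
    by_contra hn
    obtain ⟨f, hf0, hf1⟩ := Submodule.exists_le_ker_of_notMem hn
    set Q : LA (Fin 4) →ₗ[ℝ] ℂ := ofRealCLM.toLinearMap ∘ₗ f ∘ₗ L with hQ
    have hQ' : ∀ P, Q P = (f (L P) : ℝ) := fun P => rfl
    have hk : Kills Q := fun P => by
      have h1 : f (L ((∑ i, W i) * P)) = 0 := hf1 (h.kills hτ P).1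
      have h2 : f (L ((∑ i, W' i) * P)) = 0 := hf1 (h.kills hτ P).2
      simp [hQ', h1, h2]
    have hs : ∀ (σ : Fin 4 ≃ Fin 4) P, Q (rel σ P) = Q P := fun σ P => by
      have : L (rel σ P) = L P := funext fun j => Q4_rel_a8 (Φ j) τ σ P
      rw [hQ', hQ', this]
    have e := kills_eval hk hs A B k
    simp only [hQ'] at e
    apply hf0
    rw [f.map_sub, f.map_add, f.map_smul, f.map_smul, smul_eq_mul, smul_eq_mul, sub_eq_zero]
    exact_mod_cast e
  refine Tendsto.congr (fun j => ?_) key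
  simp [hL, QL_a8]

open Polynomial in
/-- the local formula -/
theorem QF.local_formula (h : QF l lam Φ κ) {τ : ℂ → ℂ} (hτ : Tst 2 τ) (p : ℝ[X]) :
    Tendsto (fun j => Q4 (Φ j) τ (aeval (cc 0 1) p)
      - (((p.eval 1 + 2 * p.eval (-1)) / 3 : ℝ) * Q4 (Φ j) τ 1
        + 2 * κ ^ 2 * (∫ z, τ z ∂hyp) * ((π⁻¹ * (∫ θ in (0 : ℝ)..π, p.eval (Real.cos θ))
          - (p.eval 1 + p.eval (-1)) / 2 : ℝ) : ℂ))) l (𝓝 0) := by
  obtain ⟨k, hk⟩ := poly_split p
  set A := (p.eval 1 + p.eval (-1)) / 2 with hA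
  set B := (p.eval 1 - p.eval (-1)) / 2 with hB
  have h1 := h.kills_eval_a8 (hτ.mono one_le_two) A B k
  rw [← hk] at h1
  have h2 := h.tendsto_NN4 hτ (hf * hf * aeval (cc 0 2) k)
  rw [Lam_eval] at h2
  have e1 : (p.eval 1 + 2 * p.eval (-1)) / 3 = A - B / 3 := by rw [hA, hB]; ring
  have e2 : π⁻¹ * (∫ θ in (0 : ℝ)..π, p.eval (Real.cos θ)) - A
      = π⁻¹ * ∫ θ in (0 : ℝ)..π, ((1 - X ^ 2) * k).eval (Real.cos θ) := by
    have c1 : Continuous fun θ : ℝ => ((1 - X ^ 2) * k).eval (Real.cos θ) :=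
      (Polynomial.continuous _).comp Real.continuous_cos
    have c2 : Continuous fun θ : ℝ => A + B * Real.cos θ := by fun_prop
    have c3 : Continuous fun θ : ℝ => B * Real.cos θ := by fun_prop
    have e3 : ∀ θ : ℝ, p.eval (Real.cos θ)
        = A + B * Real.cos θ + ((1 - X ^ 2) * k).eval (Real.cos θ) := fun θ => by
      conv_lhs => rw [hk]
      simp only [eval_add, eval_mul, eval_C, eval_X]
    simp only [e3]
    rw [intervalIntegral.integral_add (c2.intervalIntegrable _ _) (c1.intervalIntegrable _ _),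
      intervalIntegral.integral_add (continuous_const.intervalIntegrable _ _)
        (c3.intervalIntegrable _ _),
      intervalIntegral.integral_const_mul, integral_cos]
    have := Real.pi_ne_zero
    simp only [intervalIntegral.integral_const, sub_zero, smul_eq_mul, Real.sin_pi, Real.sin_zero,
      mul_zero, add_zero]
    field_simp
    ring
  have h3 := h1.add ((h2.const_mul 2).sub_const
    (2 * (κ ^ 2 * (∫ z, τ z ∂hyp) *
      ((π⁻¹ * ∫ θ in (0 : ℝ)..π, ((1 - X ^ 2) * k).eval (Real.cos θ) : ℝ) : ℂ))))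
  rw [sub_self, add_zero] at h3
  refine h3.congr fun j => ?_
  rw [e1, e2]
  ring

end Pool.Agent.Lib.MP_a52643_an.H53
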