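import Pool.Agent.Lib.MP_a52643_an.H53C2

open Complex MeasureTheory Set Filter Topology Metric
open UpperHalfPlane (ofComplex)
open scoped ComplexConjugate ContDiff ENNReal UpperHalfPlane Laplacian Real

noncomputable section

namespace Pool.Agent.Lib.MP_a52643_an.H53

variable {Γ : Type} [Group Γ] [Countable Γ] [MulAction Γ ℍ] {l : Γ → SL2} {D : Set ℍ}
  {w : ℂ → ℝ}

lemma fR_eq {lam : ℝ} {Φ : ℤ → V → ℂ} (h : Ladder lam Φ) (a : ℤ) (z : ℍ) :
    (fR Φ a z : ℂ) = psi Φ ![a, -a] z := by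
  refine Complex.conj_eq_iff_re.1 ?_
  have h1 : ((-1 : ℂ) ^ a) * (-1) ^ (-a) = 1 := by
    rw [← zpow_add₀ (by norm_num), add_neg_cancel, zpow_zero]
  simp only [psi_two, ph, map_mul, h.cnj, neg_neg]
  linear_combination (Φ a (z, 1) * Φ (-a) (z, 1)) * h1

lemma fR_cont {lam : ℝ} {Φ : ℤ → V → ℂ} (h : Ladder lam Φ) (a : ℤ) : Continuous (fR Φ a) :=
  continuous_re.comp ((h.cd_psi ![a, -a]).continuousOn.comp_continuous
    UpperHalfPlane.continuous_coe fun z => z.im_pos)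

lemma psi_pr_b1 {lam : ℝ} {Φ : ℤ → V → ℂ} (h : Ladder lam Φ) (a : ℤ) {v : V} (hv : v ∈ Om) :
    psi Φ ![a, -a] (pr v) = Φ a v * Φ (-a) v := by
  rw [h.psi_pr _ hv]
  simp [mono]

omit [Countable Γ] in
lemma fR_inv (hD : FD l D) {lam : ℝ} {Φ : ℤ → V → ℂ} (h : Ladder lam Φ) (hi : ∀ n, IV l (Φ n))
    (a : ℤ) (γ : Γ) (z : ℍ) : fR Φ a (γ • z) = fR Φ a z := by
  have hv : ((z : ℂ), (1 : ℂ)) ∈ Om := one_mem_Om z.im_pos
  have h1 : pr ((z : ℂ), (1 : ℂ)) = z := by simp [pr]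
  have h2 := pr_Lm (l γ) hv
  rw [h1, UpperHalfPlane.ofComplex_apply, ← hD.act] at h2
  rw [fR, fR, ← h2, psi_pr_b1 h a (Lm_mem _ hv), hi _ _ _ hv, hi _ _ _ hv, ← psi_pr_b1 h a hv, h1]

variable {φ : ℕ → ℍ → ℝ} {lam : ℕ → ℝ} {Φ : ℕ → ℤ → V → ℂ}

lemma bridge_b1 (hS : Spec l D φ lam Φ) (hG : Geo l D w) (j k : ℕ) (a : ℤ) :
    ((∫ z in D, fR (Φ j) a z * φ k z : ℝ) : ℂ)
      = ∫ v, Φ j a v * Φ j (-a) v * (φ k (ofComplex (pr v)) : ℂ) ∂nuW w := by
  have h1 : Continuous fun z => fR (Φ j) a z * φ k z := (fR_cont (hS.lad j) a).mul (hS.cont k)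
  have h2 := hG.integral_pr (F := fun z => fR (Φ j) a (ofComplex z) * φ k (ofComplex z))
    fun z hz => (h1.continuousAt.comp (H60.cont_of_cut hz)).continuousWithinAt
  rw [hG.integral_D h1 fun γ z => by rw [fR_inv hG.fd (hS.lad j) (hS.linv j), hS.inv]]
  simp only [smul_eq_mul] at h2
  rw [← h2, ← integral_complex_ofReal]
  refine integral_congr_ae (hG.ae_Om.mono fun v hv => ?_)
  simp only [ofReal_mul]
  rw [fR_eq (hS.lad j), H60.coe_of_cut (pr_mem hv), psi_pr_b1 (hS.lad j) a hv]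

theorem Spec.recur (hS : Spec l D φ lam Φ) (hG : Geo l D w) (j k : ℕ) (a : ℤ) :
    lam k * ∫ z in D, fR (Φ j) a z * φ k z
      = al (lam j) a ^ 2 * ((∫ z in D, fR (Φ j) a z * φ k z)
          + ∫ z in D, fR (Φ j) (a + 1) z * φ k z)
        + al (lam j) (a - 1) ^ 2 * ((∫ z in D, fR (Φ j) a z * φ k z)
          + ∫ z in D, fR (Φ j) (a - 1) z * φ k z) := by
  have h := hS.lad j
  obtain ⟨u, hu⟩ : ∃ u : V → ℂ, u = fun v => (φ k (ofComplex (pr v)) : ℂ) := ⟨_, rfl⟩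
  have u1 : ContDiffOn ℝ ∞ u Om := hu ▸
    ofRealCLM.contDiff.comp_contDiffOn ((hS.sm k).comp contDiffOn_pr fun v hv => pr_mem hv)
  have u2 : ContDiffOn ℝ 1 u Om := u1.of_le (by simp)
  have u3 : ContDiffOn ℝ 1 (Ep u) Om := (contDiffOn_Ep (n := ∞) u1).of_le (by simp)
  have u4 : IV l u := fun γ v hv => by
    simp only [hu]
    rw [pr_Lm _ hv, UpperHalfPlane.ofComplex_apply, ← hG.fd.act, hS.inv]
  have u5 : ∀ v ∈ Om, Em (Ep u) v = -lam k * u v := fun v hv => by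
    rw [hu, Em_Ep_comp_pr ((hS.sm k).of_le two_le_infty) hv, hS.eig k _ (pr_mem hv)]
    simp
  have c : ∀ a b, ContDiffOn ℝ 1 (fun v => Φ j a v * Φ j b v) Om :=
    fun a b => (h.smooth a).mul (h.smooth b)
  have iv : ∀ a b {G : V → ℂ}, IV l G → IV l fun v => Φ j a v * Φ j b v * G v :=
    fun a b G hi γ v hv => by simp only [hS.linv j _ γ v hv, hi γ v hv]
  have i1 := hG.int_Em ((c a (-a)).mul u3) (iv a (-a) (u4.ep u2))
  have i2 := hG.int_Ep ((c (a - 1) (-a)).mul u2) (iv _ _ u4)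
  have i3 := hG.int_Ep ((c a (-(a + 1))).mul u2) (iv _ _ u4)
  have j1 := hG.integrable (continuousOn_Em ((c a (-a)).mul u3))
  have j2 := hG.integrable (continuousOn_Ep ((c (a - 1) (-a)).mul u2))
  have j3 := hG.integrable (continuousOn_Ep ((c a (-(a + 1))).mul u2))
  have k0 : ∀ b, Integrable (fun v => Φ j b v * Φ j (-b) v * u v) (nuW w) :=
    fun b => hG.integrable ((c b (-b)).mul u2).continuousOn
  have a1 : al (lam j) (-a - 1) = al (lam j) a := al_neg _ _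
  have a2 : al (lam j) (-a) = al (lam j) (a - 1) := by
    rw [← al_neg _ (a - 1)]
    congr 1
    ring
  have a3 : al (lam j) (-(a + 1)) = al (lam j) a := by rw [neg_add', a1]
  have e : ∫ v, (Em (fun v => Φ j a v * Φ j (-a) v * Ep u v) v
      - I * al (lam j) (a - 1) * Ep (fun v => Φ j (a - 1) v * Φ j (-a) v * u v) v
      - I * al (lam j) a * Ep (fun v => Φ j a v * Φ j (-(a + 1)) v * u v) v) ∂nuW w
      = ∫ v, ((al (lam j) a ^ 2 + al (lam j) (a - 1) ^ 2 - lam k) * (Φ j a v * Φ j (-a) v * u v)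
        + al (lam j) a ^ 2 * (Φ j (a + 1) v * Φ j (-(a + 1)) v * u v)
        + al (lam j) (a - 1) ^ 2 * (Φ j (a - 1) v * Φ j (-(a - 1)) v * u v)) ∂nuW w := by
    refine integral_congr_ae (hG.ae_Om.mono fun v hv => ?_)
    have d1 := HasE.of_diff (diffAt_of_Om u2 one_ne_zero hv)
    have d2 := HasE.of_diff (diffAt_of_Om u3 one_ne_zero hv)
    simp only []
    rw [(((h.hasE a hv).mul (h.hasE (-a) hv)).mul d2).em,
      (((h.hasE (a - 1) hv).mul (h.hasE (-a) hv)).mul d1).ep,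
      (((h.hasE a hv).mul (h.hasE (-(a + 1)) hv)).mul d1).ep, u5 v hv, a1, a2, a3, sub_add_cancel,
      show -a - 1 = -(a + 1) by ring, show -a + 1 = -(a - 1) by ring,
      show -(a + 1) + 1 = -a by ring]
    linear_combination (-(al (lam j) a ^ 2 * (Φ j a v * Φ j (-a) v * u v
      + Φ j (a + 1) v * Φ j (-(a + 1)) v * u v) + al (lam j) (a - 1) ^ 2 *
      (Φ j a v * Φ j (-a) v * u v + Φ j (a - 1) v * Φ j (-(a - 1)) v * u v))) * I_mul_I
  rw [integral_sub (by exact j1.sub (j2.const_mul _)) (j3.const_mul _),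
    integral_sub j1 (j2.const_mul _),
    integral_add (by exact ((k0 a).const_mul _).add ((k0 _).const_mul _)) ((k0 _).const_mul _),
    integral_add ((k0 a).const_mul _) ((k0 _).const_mul _)] at e
  simp only [integral_const_mul, i1, i2, i3] at e
  refine Complex.ofReal_injective ?_
  push_cast
  simp only [bridge_b1 hS hG]
  simp only [hu] at e
  linear_combination e

end Pool.Agent.Lib.MP_a52643_an.H53
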