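import Pool.Agent.Lib.MP_a52643_an.H53B1
import Pool.Agent.Lib.MP_a52643_an.H53A8

open Complex MeasureTheory Set Filter Topology Metric
open UpperHalfPlane (ofComplex)
open scoped ComplexConjugate ContDiff ENNReal UpperHalfPlane Laplacian Real

noncomputable section

namespace Pool.Agent.Lib.MP_a52643_an.H53

variable {Γ : Type} [Group Γ] [Countable Γ] [MulAction Γ ℍ] {l : Γ → SL2} {D : Set ℍ}
  {w : ℂ → ℝ}

variable {φ : ℕ → ℍ → ℝ} {lam : ℕ → ℝ} {Φ : ℕ → ℤ → V → ℂ}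

/-- the recursion of the moments -/
def mom_b2 (lam : ℝ) (b : ℤ → ℝ) : ℕ → ℤ → ℝ
  | 0, a => b a
  | n + 1, a => al lam a ^ 2 / lam * (mom_b2 lam b n a + mom_b2 lam b n (a + 1))
      + al lam (a - 1) ^ 2 / lam * (mom_b2 lam b n a + mom_b2 lam b n (a - 1))

omit [Countable Γ] in
lemma Spec.fR_zero_b2 (hS : Spec l D φ lam Φ) {j : ℕ} (hj : 0 < lam j) (z : ℍ) :
    fR (Φ j) 0 z = φ j z ^ 2 := by
  have h := fR_eq (hS.lad j) 0 z
  rw [neg_zero, psi_two] at h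
  simp only [hS.zero j hj z] at h
  have : ((fR (Φ j) 0 z : ℝ) : ℂ) = ((φ j z ^ 2 : ℝ) : ℂ) := by rw [h]; push_cast; ring
  exact_mod_cast this

lemma Spec.hasSum_b2 (hS : Spec l D φ lam Φ) (hG : Geo l D w) (j n : ℕ) (a : ℤ) :
    HasSum (fun k => (lam k / lam j) ^ n * ((∫ z in D, φ j z ^ 2 * φ k z)
      * ∫ z in D, fR (Φ j) a z * φ k z))
      (mom_b2 (lam j) (fun a => ∫ z in D, φ j z ^ 2 * fR (Φ j) a z) n a) := by
  induction n generalizing a with
  | zero =>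
    simp only [pow_zero, one_mul, mom_b2]
    exact hS.pars (fun z => φ j z ^ 2) (fR (Φ j) a) ((hS.cont j).pow 2) (fR_cont (hS.lad j) a)
      (fun γ z => by simp only [hS.inv j γ z]) (fR_inv hG.fd (hS.lad j) (hS.linv j) a)
  | succ n ih =>
    have h := (((ih a).add (ih (a + 1))).mul_left (al (lam j) a ^ 2 / lam j)).add
      (((ih a).add (ih (a - 1))).mul_left (al (lam j) (a - 1) ^ 2 / lam j))
    simp only [mom_b2]
    refine (congrArg (fun f => HasSum f _) (funext fun k => ?_)).mp h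
    have r := hS.recur hG j k a
    rw [pow_succ]
    linear_combination (-(lam k / lam j) ^ n * (∫ z in D, φ j z ^ 2 * φ k z) / lam j) * r

lemma Spec.hasSum0_b2 (hS : Spec l D φ lam Φ) (hG : Geo l D w) {j : ℕ} (hj : 0 < lam j) (n : ℕ) :
    HasSum (fun k => (lam k / lam j) ^ n * (∫ z in D, φ j z ^ 2 * φ k z) ^ 2)
      (mom_b2 (lam j) (fun a => ∫ z in D, φ j z ^ 2 * fR (Φ j) a z) n 0) := by
  have h := hS.hasSum_b2 hG j n 0
  simp only [hS.fR_zero_b2 hj] at h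
  simpa only [sq] using h

theorem Spec.summable (hS : Spec l D φ lam Φ) (hG : Geo l D w) (j n : ℕ) :
    Summable fun k => (lam k / lam j) ^ n * (∫ z in D, φ j z ^ 2 * φ k z) ^ 2 := by
  rcases (hS.nonneg hG j).eq_or_lt with h | h
  · rcases n with _ | n
    · have := (hS.pars (fun z => φ j z ^ 2) (fun z => φ j z ^ 2) ((hS.cont j).pow 2)
        ((hS.cont j).pow 2) (fun γ z => by simp only [hS.inv j γ z])
        (fun γ z => by simp only [hS.inv j γ z])).summable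
      simpa only [pow_zero, one_mul, sq] using this
    · simp only [← h, div_zero, zero_pow (Nat.succ_ne_zero n), zero_mul]
      exact summable_zero
  · exact (hS.hasSum0_b2 hG h n).summable

def sg_b2 (a : ℤ) : LA (Fin 4) := AddMonoidAlgebra.single ![a, -a, 0, 0] 1

lemma sg_zero_b2 : sg_b2 0 = 1 := by
  rw [sg_b2, AddMonoidAlgebra.one_def]
  congr 1
  ext i
  fin_cases i <;> simp

lemma cc_sg_b2 (a : ℤ) : (2 + 2 * cc 0 1 : LA (Fin 4)) * sg_b2 a
    = (sg_b2 a + sg_b2 (a + 1)) + (sg_b2 a + sg_b2 (a - 1)) := by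
  have e1 : W 0 * W' 1 * sg_b2 a = sg_b2 (a + 1) := by
    simp only [W, W', sg_b2, AddMonoidAlgebra.single_mul_single, one_mul]
    congr 1
    ext i
    fin_cases i <;> simp <;> ring
  have e2 : W' 0 * W 1 * sg_b2 a = sg_b2 (a - 1) := by
    simp only [W, W', sg_b2, AddMonoidAlgebra.single_mul_single, one_mul]
    congr 1
    ext i
    fin_cases i <;> simp <;> ring
  rw [← e1, ← e2, cc]
  linear_combination ((W 0 * W' 1 + W' 0 * W 1) * sg_b2 a) * (two_hf (A := LA (Fin 4)))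

lemma Spec.base_b2 (hS : Spec l D φ lam Φ) (hG : Geo l D w) {j : ℕ} (hj : 0 < lam j) (a : ℤ) :
    ((∫ z in D, φ j z ^ 2 * fR (Φ j) a z : ℝ) : ℂ)
      = Q4 (Φ j) (fun z => (w z : ℂ)) (sg_b2 a) := by
  rw [hG.integral_D (F := fun z => φ j z ^ 2 * fR (Φ j) a z)
    (((hS.cont j).pow 2).mul (fR_cont (hS.lad j) a))
    (fun γ z => by simp only [hS.inv j γ z, fR_inv hG.fd (hS.lad j) (hS.linv j) a γ z]),
    ← integral_complex_ofReal, Q4]
  refine integral_congr_ae ?_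
  filter_upwards [ae_UH] with z hz
  have e : ofComplex z = (⟨z, hz⟩ : ℍ) := UpperHalfPlane.ofComplex_apply_of_im_pos hz
  have h1 := fR_eq (hS.lad j) a ⟨z, hz⟩
  have h2 := hS.zero j hj ⟨z, hz⟩
  rw [e, sg_b2, GG_single, psi_four, psi_two (Φ j) 0 0]
  push_cast
  rw [h1, ← h2]
  ring

lemma Spec.diff_b2 (hS : Spec l D φ lam Φ) (hG : Geo l D w) {L : Filter ℕ} {κ : ℝ}
    (hQ : QF L lam Φ κ) (n : ℕ) (a : ℤ) :
    Tendsto (fun j => ((mom_b2 (lam j) (fun a => ∫ z in D, φ j z ^ 2 * fR (Φ j) a z) n a : ℝ) : ℂ)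
      - Q4 (Φ j) (fun z => (w z : ℂ)) ((2 + 2 * cc 0 1) ^ n * sg_b2 a)) L (𝓝 0) := by
  have hp : ∀ᶠ j in L, 0 < lam j := hQ.tend.eventually_gt_atTop 0
  have hτ : TF fun z => (w z : ℂ) := (hG.tst 1).tf
  have hs : Tendsto (fun j => (((√(lam j))⁻¹ : ℝ) : ℂ)) L (𝓝 0) := by
    have := (Real.tendsto_sqrt_atTop.comp hQ.tend).inv_tendsto_atTop
    exact (continuous_ofReal.tendsto' 0 0 ofReal_zero).comp this
  induction n generalizing a with
  | zero =>
    refine tendsto_const_nhds.congr' ?_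
    filter_upwards [hp] with j hj
    simp only [mom_b2, pow_zero, one_mul, hS.base_b2 hG hj a, sub_self]
  | succ n ih =>
    have q := fun a => hQ.Q4_small hτ ((2 + 2 * cc 0 1) ^ n * sg_b2 a)
    have t1 := ((tendsto_const_nhds (x := (1 : ℂ))).add
      ((hs.mul hs).const_mul ((a : ℂ) * (a + 1)))).mul ((ih a).add (ih (a + 1)))
    have t2 := ((tendsto_const_nhds (x := (1 : ℂ))).add
      ((hs.mul hs).const_mul (((a : ℂ) - 1) * a))).mul ((ih a).add (ih (a - 1)))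
    have t3 := (hs.mul ((q a).add (q (a + 1)))).const_mul ((a : ℂ) * (a + 1))
    have t4 := (hs.mul ((q a).add (q (a - 1)))).const_mul (((a : ℂ) - 1) * a)
    have t := ((t1.add t2).add t3).add t4
    simp only [add_zero, mul_zero] at t
    refine t.congr' ?_
    filter_upwards [hp] with j hj
    have e : (((√(lam j))⁻¹ : ℝ) : ℂ) * (((√(lam j))⁻¹ : ℝ) : ℂ) = ((lam j : ℝ) : ℂ)⁻¹ := by
      rw [← ofReal_mul, ← mul_inv, Real.mul_self_sqrt hj.le, ofReal_inv]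
    have e0 : ((lam j : ℝ) : ℂ) * ((lam j : ℝ) : ℂ)⁻¹ = 1 :=
      mul_inv_cancel₀ (ofReal_ne_zero.2 hj.ne')
    rw [pow_succ, mul_assoc ((2 + 2 * cc 0 1 : LA (Fin 4)) ^ n), cc_sg_b2]
    simp only [mul_add, Q4_add (hS.lad j) hτ, mom_b2, al_sq hj]
    generalize Q4 (Φ j) (fun z => (w z : ℂ)) ((2 + 2 * cc 0 1) ^ n * sg_b2 a) = x0
    generalize Q4 (Φ j) (fun z => (w z : ℂ)) ((2 + 2 * cc 0 1) ^ n * sg_b2 (a + 1)) = x1
    generalize Q4 (Φ j) (fun z => (w z : ℂ)) ((2 + 2 * cc 0 1) ^ n * sg_b2 (a - 1)) = x2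
    generalize mom_b2 (lam j) (fun a => ∫ z in D, φ j z ^ 2 * fR (Φ j) a z) n = m
    generalize (((√(lam j))⁻¹ : ℝ) : ℂ) = s at e ⊢
    push_cast
    simp only [div_eq_mul_inv]
    linear_combination ((a : ℂ) * (a + 1) * ((m a : ℂ) + m (a + 1))
      + ((a : ℂ) - 1) * a * ((m a : ℂ) + m (a - 1))) * e
      - (2 * (m a : ℂ) + m (a + 1) + m (a - 1)) * e0

theorem Spec.moment (hS : Spec l D φ lam Φ) (hG : Geo l D w) {L : Filter ℕ}
    (hQ : QF L lam Φ (volume.real D)⁻¹) (n : ℕ) :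
    Tendsto (fun j => ∑' k, (lam k / lam j) ^ n * (∫ z in D, φ j z ^ 2 * φ k z) ^ 2
      - RHS (volume.real D) (fun s => s ^ n) (∫ z in D, φ j z ^ 4)) L (𝓝 0) := by
  have hp : ∀ᶠ j in L, 0 < lam j := hQ.tend.eventually_gt_atTop 0
  have h1 := hS.diff_b2 hG hQ n 0
  have h2 := hQ.local_formula (hG.tst 2) ((2 + 2 * Polynomial.X) ^ n)
  have h3 := h1.add h2
  rw [add_zero] at h3
  have h4 := (continuous_re.tendsto 0).comp h3
  rw [zero_re] at h4
  refine h4.congr' ?_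
  filter_upwards [hp] with j hj
  obtain ⟨-, m2, m3⟩ := hG.mass
  have e1 : Polynomial.aeval (cc 0 1 : LA (Fin 4)) ((2 + 2 * Polynomial.X : Polynomial ℝ) ^ n)
      = (2 + 2 * cc 0 1) ^ n * sg_b2 0 := by
    rw [sg_zero_b2, mul_one, map_pow, map_add, map_mul, Polynomial.aeval_X, map_ofNat]
  have e2 : Q4 (Φ j) (fun z => (w z : ℂ)) 1 = ((∫ z in D, φ j z ^ 4 : ℝ) : ℂ) := by
    rw [← sg_zero_b2, ← hS.base_b2 hG hj 0]
    simp only [hS.fR_zero_b2 hj, ← pow_add]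
  have e3 : ∫ z, (w z : ℂ) ∂hyp = ((volume.real D : ℝ) : ℂ) := by
    rw [integral_complex_ofReal, m2]
  rw [(hS.hasSum0_b2 hG hj n).tsum_eq]
  simp only [Function.comp_apply]
  rw [e1, e2, e3, sub_add_sub_cancel]
  simp only [Polynomial.eval_pow, Polynomial.eval_add, Polynomial.eval_mul, Polynomial.eval_X,
    Polynomial.eval_ofNat, RHS, arc]
  rw [← ofReal_pow, ← ofReal_ofNat 2, ← ofReal_mul, ← ofReal_mul, ← ofReal_mul, ← ofReal_mul,
    ← ofReal_add, ← ofReal_sub, ofReal_re]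
  have e4 : (2 + 2 * 1 : ℝ) = 4 := by norm_num
  have e5 : (2 + 2 * -1 : ℝ) = 0 := by norm_num
  rw [e4, e5]
  field_simp
  ring

end Pool.Agent.Lib.MP_a52643_an.H53
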