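import Pool.Agent.Lib.MP_a52643_an.H53Defs

open Complex MeasureTheory Set Filter Topology Metric
open UpperHalfPlane (ofComplex)
open scoped ComplexConjugate ContDiff ENNReal UpperHalfPlane Laplacian Real

noncomputable section

namespace Pool.Agent.Lib.MP_a52643_an.H53

theorem mv_b4 {f f' : ℝ → ℝ} (hf : ∀ x, HasDerivAt f (f' x) x) {a b K : ℝ}
    (hK : ∀ x ∈ uIcc a b, |f' x| ≤ K) : |f b - f a| ≤ K * |b - a| :=
  Convex.norm_image_sub_le_of_norm_hasDerivWithin_le (f := f) (f' := f') (s := uIcc a b)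
    (fun x _ => (hf x).hasDerivWithinAt) hK (convex_uIcc a b) left_mem_uIcc right_mem_uIcc

theorem two_b4 {r r' r'' : ℝ → ℝ} (h1 : ∀ x, HasDerivAt r (r' x) x)
    (h2 : ∀ x, HasDerivAt r' (r'' x) x) (h3 : r 4 = 0) (h4 : r' 4 = 0) {K : ℝ}
    (hK : ∀ x ∈ Icc (0 : ℝ) 5, |r'' x| ≤ K) {s : ℝ} (hs : s ∈ Icc (0 : ℝ) 5) :
    |r' s| ≤ K * |s - 4| ∧ |r s| ≤ K * (s - 4) ^ 2 := by
  have hK0 : 0 ≤ K := (abs_nonneg _).trans (hK s hs)
  have a1 : ∀ s ∈ Icc (0 : ℝ) 5, |r' s| ≤ K * |s - 4| := fun s hs => by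
    have := mv_b4 h2 (a := 4) (b := s) fun x hx =>
      hK x (uIcc_subset_Icc ⟨by norm_num, by norm_num⟩ hs hx)
    rwa [h4, sub_zero] at this
  refine ⟨a1 s hs, ?_⟩
  have := mv_b4 h1 (a := 4) (b := s) (K := K * |s - 4|) fun x hx =>
    (a1 x (uIcc_subset_Icc ⟨by norm_num, by norm_num⟩ hs hx)).trans
      (mul_le_mul_of_nonneg_left (abs_sub_left_of_mem_uIcc hx) hK0)
  rwa [h3, sub_zero, mul_assoc, abs_mul_abs_self, ← sq] at this

theorem anti_b4 (q : Polynomial ℝ) (c : ℝ) :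
    ∃ Q : Polynomial ℝ, Q.derivative = q ∧ Q.eval 4 = c := by
  have h : ∃ Q : Polynomial ℝ, Q.derivative = q := by
    induction q using Polynomial.induction_on' with
    | add p q hp hq =>
      obtain ⟨P, rfl⟩ := hp
      obtain ⟨Q, rfl⟩ := hq
      exact ⟨P + Q, Polynomial.derivative_add⟩
    | monomial n a =>
      refine ⟨Polynomial.monomial (n + 1) (a / (n + 1)), ?_⟩
      rw [Polynomial.derivative_monomial_succ, div_mul_cancel₀ _ (by positivity)]
  obtain ⟨Q, rfl⟩ := h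
  exact ⟨Q + Polynomial.C (c - Q.eval 4), by simp, by simp⟩

theorem grow_add_b4 {f g : ℝ → ℝ} (hf : ∃ (C : ℝ) (d : ℕ), ∀ s, |f s| ≤ C * (1 + |s|) ^ d)
    (hg : ∃ (C : ℝ) (d : ℕ), ∀ s, |g s| ≤ C * (1 + |s|) ^ d) :
    ∃ (C : ℝ) (d : ℕ), ∀ s, |f s| + |g s| ≤ C * (1 + |s|) ^ d := by
  obtain ⟨C, d, h⟩ := hf
  obtain ⟨C', d', h'⟩ := hg
  refine ⟨|C| + |C'|, d + d', fun s => ?_⟩
  have h1 : 1 ≤ 1 + |s| := le_add_of_nonneg_right (abs_nonneg s)
  rw [add_mul]
  exact add_le_add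
    ((h s).trans (mul_le_mul (le_abs_self _) (pow_le_pow_right₀ h1 (by omega)) (by positivity)
      (abs_nonneg _)))
    ((h' s).trans (mul_le_mul (le_abs_self _) (pow_le_pow_right₀ h1 (by omega)) (by positivity)
      (abs_nonneg _)))

theorem grow_b4 (p : Polynomial ℝ) : ∃ (C : ℝ) (d : ℕ), ∀ s, |p.eval s| ≤ C * (1 + |s|) ^ d := by
  induction p using Polynomial.induction_on' with
  | add p q hp hq =>
    obtain ⟨C, d, h⟩ := grow_add_b4 hp hq
    exact ⟨C, d, fun s => by rw [Polynomial.eval_add]; exact (abs_add_le _ _).trans (h s)⟩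
  | monomial n a =>
    refine ⟨|a|, n, fun s => ?_⟩
    rw [Polynomial.eval_monomial, abs_mul, abs_pow]
    exact mul_le_mul_of_nonneg_left
      (pow_le_pow_left₀ (abs_nonneg s) (le_add_of_nonneg_left zero_le_one) n) (abs_nonneg a)

open Polynomial in
/-- approximation in the second order sense, with a dominated tail -/
theorem approx_poly {g : ℝ → ℝ} (hg : ContDiff ℝ 2 g) {C : ℝ} {d : ℕ}
    (hC : ∀ s, |g s| ≤ C * (1 + |s|) ^ d) {δ : ℝ} (hδ : 0 < δ) :
    ∃ (p : ℝ[X]) (A : ℝ) (m0 : ℕ), p.eval 0 = g 0 ∧ p.eval 4 = g 4 ∧ 0 ≤ A ∧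
      (∀ s ∈ Icc (0 : ℝ) 4, |g s - p.eval s| ≤ δ) ∧ ∀ m, m0 ≤ m → ∀ s, 0 ≤ s →
        |g s - p.eval s| ≤ s * (4 - s) ^ 2 * (δ + A * ((s - 2) / (5 / 2)) ^ (2 * m)) := by
  have g1 : ContDiff ℝ 1 (deriv g) := hg.deriv'
  have g2 : Continuous (deriv (deriv g)) := g1.continuous_deriv le_rfl
  have d1 : ∀ x, HasDerivAt g (deriv g x) x := fun x =>
    (hg.differentiable (by norm_num) x).hasDerivAt
  have d2 : ∀ x, HasDerivAt (deriv g) (deriv (deriv g) x) x := fun x =>
    (g1.differentiable (by norm_num) x).hasDerivAt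
  obtain ⟨q, hq⟩ := exists_polynomial_near_of_continuousOn 0 5 _ g2.continuousOn (δ / 48)
    (by positivity)
  obtain ⟨q1, rfl, e1⟩ := anti_b4 q (deriv g 4)
  obtain ⟨q0, rfl, e0⟩ := anti_b4 q1 (g 4)
  have k0 := two_b4 (r := fun x => g x - q0.eval x) (fun x => (d1 x).sub (q0.hasDerivAt x))
    (fun x => (d2 x).sub (q0.derivative.hasDerivAt x)) (by simp [e0]) (by simp [e1])
    (fun x hx => by rw [abs_sub_comm]; exact (hq x hx).le) (s := 0) ⟨le_rfl, by norm_num⟩
  set a := (g 0 - q0.eval 0) / 16 with ha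
  have ha' : |a| ≤ δ / 48 := by
    rw [ha, abs_div, div_le_iff₀ (by norm_num), abs_of_pos (by norm_num : (0 : ℝ) < 16)]
    exact k0.2.trans (by norm_num)
  set p : ℝ[X] := q0 + Polynomial.C a * (X - Polynomial.C 4) ^ 2 with hp
  have p0 : ∀ x, p.eval x = q0.eval x + a * (x - 4) ^ 2 := fun x => by simp [hp]
  have p1 : ∀ x, p.derivative.eval x = q0.derivative.eval x + a * (2 * (x - 4)) := fun x => by
    simp [hp, derivative_pow]
  have p2 : ∀ x, p.derivative.derivative.eval x = q0.derivative.derivative.eval x + a * 2 :=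
    fun x => by simp [hp, derivative_pow]
  have hp0 : p.eval 0 = g 0 := by rw [p0, ha]; ring
  have k : ∀ s ∈ Icc (0 : ℝ) 5, |deriv g s - p.derivative.eval s| ≤ δ / 16 * |s - 4| ∧
      |g s - p.eval s| ≤ δ / 16 * (s - 4) ^ 2 := fun s hs =>
    two_b4 (r := fun x => g x - p.eval x) (fun x => (d1 x).sub (p.hasDerivAt x))
      (fun x => (d2 x).sub (p.derivative.hasDerivAt x)) (by simp [p0, e0]) (by simp [p1, e1])
      (fun x hx => by
        have h1 := abs_le.1 (hq x hx).le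
        have h2 := abs_le.1 ha'
        rw [p2, abs_le]
        constructor <;> linarith [h1.1, h1.2, h2.1, h2.2]) hs
  obtain ⟨B, e, hB⟩ := grow_add_b4 ⟨C, d, hC⟩ (grow_b4 p)
  have hB0 : 0 ≤ B := by
    have := (add_nonneg (abs_nonneg _) (abs_nonneg _)).trans (hB 0)
    simpa using this
  refine ⟨p, B * 5 ^ e, e, hp0, by simp [p0, e0], by positivity, fun s hs => ?_,
    fun m hm s hs => ?_⟩
  · refine (k s ⟨hs.1, by linarith [hs.2]⟩).2.trans ?_
    have : (s - 4) ^ 2 ≤ 16 := by nlinarith [hs.1, hs.2]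
    nlinarith
  have hu : 0 ≤ B * 5 ^ e * ((s - 2) / (5 / 2)) ^ (2 * m) :=
    mul_nonneg (by positivity) (by rw [pow_mul]; positivity)
  have hw : 0 ≤ s * (4 - s) ^ 2 := by positivity
  rcases le_total s 5 with h5 | h5
  · refine le_trans ?_ (mul_le_mul_of_nonneg_left (le_add_of_nonneg_right hu) hw)
    rcases le_total s 1 with h1 | h1
    · have h2 := mv_b4 (f := fun x => g x - p.eval x) (fun x => (d1 x).sub (p.hasDerivAt x))
        (a := 0) (b := s) (K := δ) fun x hx => by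
          rw [uIcc_of_le hs] at hx
          refine (k x ⟨hx.1, by linarith [hx.2]⟩).1.trans ?_
          have : |x - 4| ≤ 16 := abs_le.2 ⟨by linarith [hx.1], by linarith [hx.2]⟩
          nlinarith
      simp only [hp0, sub_self, sub_zero, abs_of_nonneg hs] at h2
      refine h2.trans ?_
      have h3 : 1 ≤ (4 - s) ^ 2 := by nlinarith
      nlinarith [mul_nonneg hs hδ.le]
    · refine (k s ⟨hs, h5⟩).2.trans ?_
      have h3 : 0 ≤ δ * (4 - s) ^ 2 := by positivity
      nlinarith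
  · have h1 : 1 ≤ s * (4 - s) ^ 2 := by
      have : 1 ≤ (4 - s) ^ 2 := by nlinarith
      nlinarith
    refine le_trans ?_ (le_mul_of_one_le_left (by positivity) h1)
    refine le_trans ?_ (le_add_of_nonneg_left hδ.le)
    refine ((abs_sub _ _).trans (hB s)).trans ?_
    rw [mul_assoc, abs_of_nonneg hs]
    refine mul_le_mul_of_nonneg_left ?_ hB0
    calc (1 + s) ^ e ≤ (5 * ((s - 2) / (5 / 2))) ^ e :=
          pow_le_pow_left₀ (by positivity) (by linarith) e
      _ = 5 ^ e * ((s - 2) / (5 / 2)) ^ e := mul_pow _ _ _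
      _ ≤ _ := mul_le_mul_of_nonneg_left
          (pow_le_pow_right₀ (by rw [le_div_iff₀ (by norm_num)]; linarith) (by omega))
          (by positivity)

theorem summable_poly_b4 {s c : ℕ → ℝ} (h : ∀ n : ℕ, Summable fun k => s k ^ n * c k)
    (p : Polynomial ℝ) : Summable fun k => p.eval (s k) * c k := by
  induction p using Polynomial.induction_on' with
  | add p q hp hq => simpa only [Polynomial.eval_add, add_mul] using hp.add hq
  | monomial n a => simpa only [Polynomial.eval_monomial, mul_assoc] using (h n).mul_left a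

theorem summable_g {s c : ℕ → ℝ} (hc : ∀ k, 0 ≤ c k) (hs : ∀ k, 0 ≤ s k)
    (h : ∀ n : ℕ, Summable fun k => s k ^ n * c k) {g : ℝ → ℝ} {C : ℝ} {d : ℕ}
    (hC : ∀ s, |g s| ≤ C * (1 + |s|) ^ d) : Summable fun k => g (s k) * c k := by
  refine (summable_poly_b4 h (Polynomial.C C * (1 + Polynomial.X) ^ d)).of_norm_bounded
    fun k => ?_
  rw [Real.norm_eq_abs, abs_mul, abs_of_nonneg (hc k)]
  refine mul_le_mul_of_nonneg_right ((hC _).trans (le_of_eq ?_)) (hc k)
  simp [abs_of_nonneg (hs k)]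

theorem arc_add_b4 {f g : ℝ → ℝ} (hf : Continuous f) (hg : Continuous g) :
    arc (fun x => f x + g x) = arc f + arc g := by
  simp only [arc]
  rw [intervalIntegral.integral_add (Continuous.intervalIntegrable (by fun_prop) _ _)
    (Continuous.intervalIntegrable (by fun_prop) _ _), mul_add]

theorem arc_mul_b4 (a : ℝ) (f : ℝ → ℝ) : arc (fun x => a * f x) = a * arc f := by
  simp only [arc]
  rw [intervalIntegral.integral_const_mul]; ring

theorem arc_le_b4 {f : ℝ → ℝ} {K : ℝ} (h : ∀ s ∈ Icc (0 : ℝ) 4, |f s| ≤ K) : |arc f| ≤ K := by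
  have h1 := intervalIntegral.norm_integral_le_of_norm_le_const (a := 0) (b := π) (C := K)
    (f := fun θ => f (2 + 2 * Real.cos θ)) fun x _ =>
      h _ ⟨by linarith [Real.neg_one_le_cos x], by linarith [Real.cos_le_one x]⟩
  rw [sub_zero, abs_of_pos Real.pi_pos, Real.norm_eq_abs] at h1
  rw [arc, abs_mul, abs_of_pos (inv_pos.2 Real.pi_pos), inv_mul_le_iff₀ Real.pi_pos, mul_comm]
  exact h1

theorem RHS_add_b4 (V0 m : ℝ) {f g : ℝ → ℝ} (hf : Continuous f) (hg : Continuous g) :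
    RHS V0 (fun x => f x + g x) m = RHS V0 f m + RHS V0 g m := by
  simp only [RHS, arc_add_b4 hf hg]; ring

theorem poly_b4 {J : Type} {L : Filter J} {s c : J → ℕ → ℝ} {m : J → ℝ} {V0 : ℝ}
    (hsum : ∀ j (n : ℕ), Summable fun k => s j k ^ n * c j k)
    (h : ∀ n : ℕ, Tendsto (fun j => ∑' k, s j k ^ n * c j k - RHS V0 (fun x => x ^ n) (m j)) L
      (𝓝 0)) (p : Polynomial ℝ) :
    Tendsto (fun j => ∑' k, p.eval (s j k) * c j k - RHS V0 (fun x => p.eval x) (m j)) L
      (𝓝 0) := by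
  induction p using Polynomial.induction_on' with
  | add p q hp hq =>
    have h1 := hp.add hq
    rw [add_zero] at h1
    refine h1.congr fun j => ?_
    simp only [Polynomial.eval_add, add_mul]
    rw [RHS_add_b4 _ _ p.continuous q.continuous,
      (summable_poly_b4 (hsum j) p).tsum_add (summable_poly_b4 (hsum j) q)]
    ring
  | monomial n a =>
    have h1 := (h n).const_mul a
    rw [mul_zero] at h1
    refine h1.congr fun j => ?_
    simp only [Polynomial.eval_monomial, mul_assoc, tsum_mul_left, RHS, arc_mul_b4]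
    ring

theorem general_g {J : Type} {L : Filter J} {s c : J → ℕ → ℝ} {m : J → ℝ} {V0 : ℝ}
    (hc : ∀ j k, 0 ≤ c j k) (hs : ∀ j k, 0 ≤ s j k)
    (hsum : ∀ j (n : ℕ), Summable fun k => s j k ^ n * c j k)
    (h : ∀ n : ℕ, Tendsto (fun j => ∑' k, s j k ^ n * c j k - RHS V0 (fun x => x ^ n) (m j)) L
      (𝓝 0)) {g : ℝ → ℝ} (hg : ContDiff ℝ 2 g) {C : ℝ} {d : ℕ}
    (hC : ∀ s, |g s| ≤ C * (1 + |s|) ^ d) :
    Tendsto (fun j => ∑' k, g (s j k) * c j k - RHS V0 g (m j)) L (𝓝 0) := by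
  rw [Metric.tendsto_nhds]
  intro ε hε
  set v := |2 / V0| with hv
  have hv0 : 0 ≤ v := abs_nonneg _
  set δ := ε / (2 + 129 * v + 1) with hδ
  have hδ0 : 0 < δ := by positivity
  obtain ⟨p, A, m0, p0, p4, hA, h1, h2⟩ := approx_poly hg hC hδ0
  obtain ⟨n, hn0, hn⟩ : ∃ n, m0 ≤ n ∧ A * (16 / 25 : ℝ) ^ n ≤ δ := by
    have h3 := (tendsto_pow_atTop_nhds_zero_of_lt_one (r := (16 / 25 : ℝ)) (by norm_num)
      (by norm_num)).const_mul A
    rw [mul_zero] at h3
    exact ((eventually_ge_atTop m0).and (h3.eventually (ge_mem_nhds hδ0))).exists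
  set q : Polynomial ℝ := Polynomial.X * (Polynomial.C 4 - Polynomial.X) ^ 2 * (Polynomial.C δ +
    Polynomial.C A * ((Polynomial.X - Polynomial.C 2) * Polynomial.C (5 / 2)⁻¹) ^ (2 * n)) with hq
  have q0 : ∀ x, q.eval x = x * (4 - x) ^ 2 * (δ + A * ((x - 2) / (5 / 2)) ^ (2 * n)) := fun x => by
    simp only [hq, Polynomial.eval_mul, Polynomial.eval_add, Polynomial.eval_pow,
      Polynomial.eval_sub, Polynomial.eval_C, Polynomial.eval_X, div_eq_mul_inv (x - 2)]
  have q1 : |arc fun x => q.eval x| ≤ 128 * δ := by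
    refine arc_le_b4 fun x hx => ?_
    have a1 : ((x - 2) / (5 / 2)) ^ (2 * n) ≤ (16 / 25) ^ n := by
      rw [pow_mul]
      exact pow_le_pow_left₀ (sq_nonneg _) (by nlinarith [hx.1, hx.2]) n
    have a2 : 0 ≤ ((x - 2) / (5 / 2)) ^ (2 * n) := by rw [pow_mul]; positivity
    have a3 : 0 ≤ x * (4 - x) ^ 2 := mul_nonneg hx.1 (sq_nonneg _)
    have a4 : x * (4 - x) ^ 2 ≤ 64 := by
      have : (4 - x) ^ 2 ≤ 16 := by nlinarith [hx.1, hx.2]
      nlinarith [hx.1, hx.2]
    have a5 := mul_le_mul_of_nonneg_left a1 hA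
    rw [q0, abs_of_nonneg (by positivity)]
    calc _ ≤ 64 * (δ + δ) := mul_le_mul a4 (by linarith) (by positivity) (by norm_num)
      _ = _ := by ring
  have r1 : |arc fun x => g x - p.eval x| ≤ δ := arc_le_b4 h1
  filter_upwards [Metric.tendsto_nhds.1 (poly_b4 hsum h p) δ hδ0,
    Metric.tendsto_nhds.1 (poly_b4 hsum h q) δ hδ0] with j a1 a2
  rw [Real.dist_eq, sub_zero] at a1 a2 ⊢
  have s1 := summable_g (hc j) (hs j) (hsum j) hC
  have s2 := summable_poly_b4 (hsum j) p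
  have s3 := summable_poly_b4 (hsum j) q
  have b1 : |∑' k, g (s j k) * c j k - ∑' k, p.eval (s j k) * c j k| ≤
      ∑' k, q.eval (s j k) * c j k := by
    rw [← s1.tsum_sub s2, ← Real.norm_eq_abs]
    refine tsum_of_norm_bounded s3.hasSum fun k => ?_
    rw [Real.norm_eq_abs, ← sub_mul, abs_mul, abs_of_nonneg (hc j k), q0]
    exact mul_le_mul_of_nonneg_right (h2 n hn0 _ (hs j k)) (hc j k)
  have b2 : RHS V0 g (m j) = RHS V0 (fun x => p.eval x) (m j) +
      2 / V0 * arc fun x => g x - p.eval x := by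
    have := RHS_add_b4 V0 (m j) (g := fun x => g x - p.eval x) p.continuous
      (hg.continuous.sub p.continuous)
    simp only [add_sub_cancel] at this
    rw [this]
    simp [RHS, p0, p4]
  have b3 : RHS V0 (fun x => q.eval x) (m j) = 2 / V0 * arc fun x => q.eval x := by
    simp [RHS, q0]
  have c1 : |2 / V0 * arc fun x => g x - p.eval x| ≤ v * δ := by
    rw [abs_mul]; exact mul_le_mul_of_nonneg_left r1 hv0
  have c2 : |2 / V0 * arc fun x => q.eval x| ≤ v * (128 * δ) := by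
    rw [abs_mul]; exact mul_le_mul_of_nonneg_left q1 hv0
  have e : ε = δ * (2 + 129 * v + 1) := by rw [hδ]; field_simp
  rw [b3] at a2
  rw [b2, e, abs_lt]
  rw [abs_lt] at a1 a2
  rw [abs_le] at b1 c1 c2
  constructor <;> linarith [a1.1, a1.2, a2.1, a2.2, b1.1, b1.2, c1.1, c1.2, c2.1, c2.2]

end Pool.Agent.Lib.MP_a52643_an.H53
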