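import Pool.Agent.Lib.MP_a52643_an.H53Defs

open Complex MeasureTheory Set Filter Topology Metric
open UpperHalfPlane (ofComplex)
open scoped ComplexConjugate ContDiff ENNReal UpperHalfPlane Laplacian Real

noncomputable section

namespace Pool.Agent.Lib.MP_a52643_an.H53

/-! algebra of the two actions -/

lemma act_apply (m x : V) : act m x = m.1 • x + m.2 • cj x := rfl

lemma act_act (m n x : V) : act m (act n x) = act (gm m n) x := by
  ext <;> simp [act_apply, gm] <;> ring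

lemma act_one (x : V) : act (1, 0) x = x := by
  simp [act_apply]

lemma dt_act (m x : V) : dt (act m x) = dm m * dt x := by
  simp [act_apply, dt_eq, dm, normSq_apply]; ring

lemma dm_gm (m n : V) : dm (gm m n) = dm m * dm n := by
  simp [dm, gm, normSq_apply]; ring

lemma act_mem {m x : V} (hm : 0 < dm m) (hx : x ∈ Om) : act m x ∈ Om := by
  have h : 0 < dt x := hx
  show 0 < dt (act m x)
  rw [dt_act]; positivity

lemma act_smul_left (c : ℝ) (m x : V) : act (c • m) x = c • act m x := by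
  ext <;> simp [act_apply] <;> ring

lemma act_Lm (m : V) (g : SL2) (x : V) : act m (Lm g x) = Lm g (act m x) := by
  ext <;> simp [act_apply, Lm] <;> ring

lemma continuous_act : Continuous fun p : V × V => act p.1 p.2 := by
  simp only [act_apply]
  fun_prop

lemma continuous_dm : Continuous dm := by
  unfold dm
  exact (continuous_normSq.comp continuous_fst).sub (continuous_normSq.comp continuous_snd)

lemma fl_eq_act (t : ℝ) (x : V) : fl t x = act ((Real.cosh t : ℂ), (Real.sinh t : ℂ)) x := by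
  rw [fl_apply, act_apply, Complex.coe_smul, Complex.coe_smul]

lemma dm_fl (t : ℝ) : dm ((Real.cosh t : ℂ), (Real.sinh t : ℂ)) = 1 := by
  simp only [dm, normSq_ofReal]
  nlinarith [Real.cosh_sq t]

lemma fl_mem (t : ℝ) {x : V} (hx : x ∈ Om) : fl t x ∈ Om := by
  rw [fl_eq_act]
  exact act_mem (by rw [dm_fl]; exact one_pos) hx

lemma Uf_c0 (x : ℝ) : Uf x = (⟨1, x / 2⟩, ⟨0, x / 2⟩) := by
  ext <;> apply Complex.ext <;> simp [Uf]

lemma Ub_c0 (x : ℝ) : Ub x = (⟨1, -x / 2⟩, ⟨0, x / 2⟩) := by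
  ext <;> apply Complex.ext <;> simp [Ub, neg_div]

lemma dm_Uf (x : ℝ) : dm (Uf x) = 1 := by
  simp [dm, Uf_c0, normSq_apply]

lemma dm_Ub (x : ℝ) : dm (Ub x) = 1 := by
  simp [dm, Ub_c0, normSq_apply]; ring

lemma exp_c0 (t : ℝ) : ∃ e f : ℝ, e * f = 1 ∧ Real.cosh t = (e + f) / 2 ∧
    Real.sinh t = (e - f) / 2 ∧ Real.exp (-2 * t) = f * f ∧ Real.exp (2 * t) = e * e :=
  ⟨Real.exp t, Real.exp (-t), by rw [← Real.exp_add]; simp, Real.cosh_eq t, Real.sinh_eq t,
    by rw [← Real.exp_add]; ring_nf, by rw [← Real.exp_add]; ring_nf⟩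

lemma fl_Uf (t x : ℝ) (v : V) :
    fl t (act (Uf x) v) = act (Uf (x * Real.exp (-2 * t))) (fl t v) := by
  obtain ⟨e, f, h1, h2, h3, h4, -⟩ := exp_c0 t
  rw [fl_eq_act, fl_eq_act, act_act, act_act, h2, h3, h4]
  congr 2
  ext <;> apply Complex.ext <;> simp only [gm, Uf_c0, add_re, add_im, mul_re, mul_im, conj_re,
    conj_im, ofReal_re, ofReal_im]
  · ring
  · linear_combination (-(x * f) / 2) * h1
  · ring
  · linear_combination (-(x * f) / 2) * h1

lemma fl_Ub (t x : ℝ) (v : V) :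
    fl t (act (Ub x) v) = act (Ub (x * Real.exp (2 * t))) (fl t v) := by
  obtain ⟨e, f, h1, h2, h3, -, h4⟩ := exp_c0 t
  rw [fl_eq_act, fl_eq_act, act_act, act_act, h2, h3, h4]
  congr 2
  ext <;> apply Complex.ext <;> simp only [gm, Ub_c0, add_re, add_im, mul_re, mul_im, conj_re,
    conj_im, ofReal_re, ofReal_im]
  · ring
  · linear_combination (x * e / 2) * h1
  · ring
  · linear_combination (-(x * e) / 2) * h1

lemma gm_c0 (x y z : ℝ) : gm (gm (Uf x) (Ub y)) (Uf z) =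
    (⟨(2 + y * z + x * y) / 2, (x * (1 + y * z) + z - y) / 2⟩,
      ⟨(y * z - x * y) / 2, (x * (1 + y * z) + z + y) / 2⟩) := by
  ext <;> apply Complex.ext <;> simp [gm, Uf_c0, Ub_c0] <;> ring

/-- generic elements are products of three horocycle elements, up to a positive scalar -/
lemma act_decomp {m : V} (hm : 0 < dm m) (h : m.2.im ≠ m.1.im) :
    ∃ c x y z : ℝ, 0 < c ∧ ∀ v, act m v = c • act (Uf x) (act (Ub y) (act (Uf z) v)) := by
  obtain ⟨c, hc, hc2⟩ : ∃ c : ℝ, 0 < c ∧ c ^ 2 = dm m :=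
    ⟨√(dm m), Real.sqrt_pos.2 hm, Real.sq_sqrt hm.le⟩
  have hb : m.2.im - m.1.im ≠ 0 := sub_ne_zero.2 h
  simp only [dm, normSq_apply] at hc2
  refine ⟨c, (m.1.re - m.2.re - c) / (m.2.im - m.1.im), (m.2.im - m.1.im) / c,
    (m.1.re + m.2.re - c) / (m.2.im - m.1.im), hc, fun v => ?_⟩
  rw [act_act, act_act, ← act_smul_left, gm_c0]
  congr 2
  ext <;> apply Complex.ext <;> simp <;> field_simp
  · ring
  · linear_combination hc2
  · ring
  · linear_combination hc2

lemma Lm_mem (g : SL2) {v : V} (hv : v ∈ Om) : Lm g v ∈ Om := Lg_mem (det_eq g) hv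

lemma dt_Lm (g : SL2) (v : V) : dt (Lm g v) = dt v := by
  rw [Lm, dt_Lg, det_eq, one_mul]

lemma Lm_mul (g h : SL2) (v : V) : Lm (g * h) v = Lm g (Lm h v) := by
  ext <;> simp [Lm] <;> ring

lemma pr_Lm (g : SL2) {v : V} (hv : v ∈ Om) :
    pr (Lm g v) = (g • ofComplex (pr v) : ℍ) := by
  have h2 := snd_ne_zero hv
  rw [coe_act, UpperHalfPlane.ofComplex_apply_of_im_pos (pr_mem hv), UpperHalfPlane.coe_mk]
  simp only [pr, Lm, Lg_apply]
  have e1 : ea g * (v.1 / v.2) + eb g = (ea g * v.1 + eb g * v.2) / v.2 := by field_simp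
  have e2 : ec g * (v.1 / v.2) + ed g = (ec g * v.1 + ed g * v.2) / v.2 := by field_simp
  rw [e1, e2, div_div_div_cancel_right₀ h2]

lemma mp_Lm (g : SL2) : MeasurePreserving (Lm g) mV mV := measurePreserving_Lg_mV (det_eq g)

lemma mp_act {m : V} (hm : dm m = 1) : MeasurePreserving (act m) mV mV := by
  refine measurePreserving_mV ?_ fun v => by rw [dt_act, hm, one_mul]
  obtain ⟨T, hT⟩ : ∃ T : ℂ →ₗ[ℝ] ℂ, T = Matrix.toLin basisOneI basisOneI
      !![m.1.re + m.2.re, m.2.im - m.1.im; m.1.im + m.2.im, m.1.re - m.2.re] := ⟨_, rfl⟩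
  have hd : LinearMap.det T = 1 := by
    rw [hT, LinearMap.det_toLin, Matrix.det_fin_two_of, ← hm]
    simp only [dm, normSq_apply]; ring
  have h1 : MeasurePreserving T volume volume := ⟨T.continuous_of_finiteDimensional.measurable, by
    rw [Measure.map_linearMap_addHaar_eq_smul_addHaar _ (by rw [hd]; simp), hd]; simp⟩
  have h2 : ∀ z, T z = m.1 * z + m.2 * conj z := fun z => by
    rw [hT, Matrix.toLin_apply]
    apply Complex.ext <;> simp [Matrix.mulVec, dotProduct, Fin.sum_univ_two] <;> ring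
  have h3 : ⇑(act m) = Prod.map T T := by ext v <;> simp [act_apply, h2]
  rw [h3]
  exact h1.prod h1

lemma fderiv_Lm_c0 (g : SL2) {F : V → ℂ} {v : V} (hF : DifferentiableAt ℝ F (Lm g v)) (h : V) :
    fderiv ℝ (fun x => F (Lm g x)) v h = fderiv ℝ F (Lm g v) (Lm g h) := by
  have e1 : HasFDerivAt (fun w => F (Lm g w)) ((fderiv ℝ F (Lm g v)).comp (Lm g)) v :=
    hF.hasFDerivAt.comp v (Lm g).hasFDerivAt
  rw [e1.fderiv]; rfl

lemma cj_Lm_c0 (g : SL2) (v : V) : cj (Lm g v) = Lm g (cj v) := by ext <;> simp [Lm]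

lemma I_Lm_c0 (g : SL2) (v : V) : I • Lm g v = Lm g (I • v) := by ext <;> simp [Lm] <;> ring

lemma Ep_Lm (g : SL2) {F : V → ℂ} {v : V} (hF : DifferentiableAt ℝ F (Lm g v)) :
    Ep (fun x => F (Lm g x)) v = Ep F (Lm g v) := by
  rw [Ep, Ep, wp, wp, fderiv_Lm_c0 g hF, fderiv_Lm_c0 g hF, cj_Lm_c0, I_Lm_c0]

lemma Em_Lm (g : SL2) {F : V → ℂ} {v : V} (hF : DifferentiableAt ℝ F (Lm g v)) :
    Em (fun x => F (Lm g x)) v = Em F (Lm g v) := by
  rw [Em, Em, wm, wm, fderiv_Lm_c0 g hF, fderiv_Lm_c0 g hF, cj_Lm_c0, I_Lm_c0]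

/-- the orbit map is a linear change of variables -/
lemma integral_act {x : V} (hx : x ∈ Om) (f : V → ℝ) :
    ∫ m, f (act m x) = (4 * dt x ^ 2)⁻¹ * ∫ v, f v := by
  have h0 : 0 < dt x := hx
  obtain ⟨T, hT⟩ : ∃ T : V →ₗ[ℝ] V, T = (LC x.1 (conj x.1) x.2 (conj x.2)).restrictScalars ℝ :=
    ⟨_, rfl⟩
  have hd : LinearMap.det T = 4 * dt x ^ 2 := by
    rw [hT, det_LC]
    simp [normSq_apply, dt_eq]; ring
  have hd' : LinearMap.det T ≠ 0 := by rw [hd]; positivity
  have h2 : ∀ m, act m x = T m := fun m => by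
    rw [hT, LinearMap.restrictScalars_apply, LC_apply]
    ext <;> simp [act_apply, mul_comm]
  have h3 := integral_map_equiv (μ := (volume : Measure V))
    (T.equivOfDetNeZero hd').toContinuousLinearEquiv.toHomeomorph.toMeasurableEquiv f
  have h4 : ⇑(T.equivOfDetNeZero hd').toContinuousLinearEquiv.toHomeomorph.toMeasurableEquiv
    = T := rfl
  rw [h4, Measure.map_linearMap_addHaar_eq_smul_addHaar _ hd', integral_smul_measure, hd,
    ENNReal.toReal_ofReal (abs_nonneg _), abs_of_pos (by positivity), smul_eq_mul] at h3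
  simp only [h2]
  exact h3.symm

/-- derivative in the direction of the right action -/
lemma fderiv_act {u : V → ℂ} (hp : PH u) {y : V} (hy : y ∈ Om) (hu : DifferentiableAt ℝ u y)
    (q : V) : fderiv ℝ u y (act q y)
      = q.1.im * fderiv ℝ u y (I • y) - q.2 * Ep u y - conj q.2 * Em u y := by
  have h1 : HasDerivAt (fun t : ℝ => u (t • y)) (fderiv ℝ u y y) 1 := by
    have hF : HasFDerivAt u (fderiv ℝ u y) ((1 : ℝ) • y) := by simpa using hu.hasFDerivAt
    have := hF.comp_hasDerivAt (1 : ℝ) ((hasDerivAt_id (1 : ℝ)).smul_const y)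
    rw [one_smul] at this
    exact this
  have h2 : (fun _ => u y) =ᶠ[𝓝 1] fun t : ℝ => u (t • y) := by
    filter_upwards [lt_mem_nhds (zero_lt_one' ℝ)] with t ht using (hp t ht y hy).symm
  have h3 := (h1.congr_of_eventuallyEq h2).unique (hasDerivAt_const _ _)
  rw [act_apply, map_add, map_csmul, h3, ← wp_add_wm _ (q.2 • cj y), wp_smul, wm_smul, Ep, Em]
  ring

lemma ph_of_hom {k : ℤ} {F : V → ℂ} (h : Hom k F) : PH F := by
  intro c hc v hv
  have h0 : (c : ℂ) ≠ 0 := by exact_mod_cast hc.ne'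
  rw [← Complex.coe_smul, h c h0 v hv, conj_ofReal, div_self h0, one_zpow, one_mul]

variable {Γ : Type} {l : Γ → SL2}

lemma IV.ep {F : V → ℂ} (h : IV l F) (hF : ContDiffOn ℝ 1 F Om) : IV l (Ep F) := by
  intro γ v hv
  rw [← Ep_Lm _ (diffAt_of_Om hF one_ne_zero (Lm_mem _ hv))]
  exact Ep_congr_Om hv (h γ)

lemma IV.em {F : V → ℂ} (h : IV l F) (hF : ContDiffOn ℝ 1 F Om) : IV l (Em F) := by
  intro γ v hv
  rw [← Em_Lm _ (diffAt_of_Om hF one_ne_zero (Lm_mem _ hv))]
  exact Em_congr_Om hv (h γ)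

lemma IV.rot {F : V → ℂ} (h : IV l F) (hF : ContDiffOn ℝ 1 F Om) :
    IV l fun x => fderiv ℝ F x (I • x) := by
  intro γ v hv
  have e : (fun x => F (Lm (l γ) x)) =ᶠ[𝓝 v] F := by
    filter_upwards [isOpen_Om.mem_nhds hv] with w hw using h γ w hw
  simp only
  rw [I_Lm_c0, ← fderiv_Lm_c0 _ (diffAt_of_Om hF one_ne_zero (Lm_mem _ hv)), e.fderiv_eq]

lemma smul_mem_c0 {c : ℝ} (hc : 0 < c) {v : V} (hv : v ∈ Om) : c • v ∈ Om := by
  rw [← Complex.coe_smul]
  exact smul_mem_Om (by exact_mod_cast hc.ne') hv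

lemma PH.fderiv_c0 {F : V → ℂ} (h : PH F) (hF : ContDiffOn ℝ 1 F Om) {c : ℝ} (hc : 0 < c) {v : V}
    (hv : v ∈ Om) (u : V) : fderiv ℝ F (c • v) (c • u) = fderiv ℝ F v u := by
  have e1 : HasFDerivAt (fun w => F (c • w))
      ((fderiv ℝ F (c • v)).comp (c • ContinuousLinearMap.id ℝ V)) v :=
    (diffAt_of_Om hF one_ne_zero (smul_mem_c0 hc hv)).hasFDerivAt.comp v
      (c • ContinuousLinearMap.id ℝ V).hasFDerivAt
  have e3 : F =ᶠ[𝓝 v] fun w => F (c • w) := by
    filter_upwards [isOpen_Om.mem_nhds hv] with w hw using (h c hc w hw).symm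
  rw [(e1.congr_of_eventuallyEq e3).fderiv]
  rfl

lemma PH.ep {F : V → ℂ} (h : PH F) (hF : ContDiffOn ℝ 1 F Om) : PH (Ep F) := by
  intro c hc v hv
  rw [Ep, Ep, wp, wp, map_smul, smul_comm I c, h.fderiv_c0 hF hc hv, h.fderiv_c0 hF hc hv]

lemma PH.em {F : V → ℂ} (h : PH F) (hF : ContDiffOn ℝ 1 F Om) : PH (Em F) := by
  intro c hc v hv
  rw [Em, Em, wm, wm, map_smul, smul_comm I c, h.fderiv_c0 hF hc hv, h.fderiv_c0 hF hc hv]

lemma PH.rot {F : V → ℂ} (h : PH F) (hF : ContDiffOn ℝ 1 F Om) :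
    PH fun x => fderiv ℝ F x (I • x) := by
  intro c hc v hv
  simp only
  rw [smul_comm I c, h.fderiv_c0 hF hc hv]

lemma IC.act {E : Type*} [TopologicalSpace E] {F : V → E} (h : IC l F) {m : V} (hm : 0 < dm m) :
    IC l fun x => F (act m x) :=
  ⟨h.cont.comp (H53.act m).continuous.continuousOn fun _ hx => act_mem hm hx,
    fun γ v hv => by rw [act_Lm]; exact h.inv γ _ (act_mem hm hv),
    fun c hc v hv => by rw [map_smul]; exact h.ph c hc _ (act_mem hm hv)⟩

lemma IC.fl {E : Type*} [TopologicalSpace E] {F : V → E} (h : IC l F) (t : ℝ) :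
    IC l fun x => F (fl t x) := by
  simp only [fl_eq_act]
  exact h.act (by rw [dm_fl]; exact one_pos)

end Pool.Agent.Lib.MP_a52643_an.H53
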