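import Pool.Agent.Lib.MP_a52643_an.H53C0
import Pool.Agent.Lib.MP_a52643_an.H53A0

open Complex MeasureTheory Set Filter Topology Metric
open UpperHalfPlane (ofComplex)
open scoped ComplexConjugate ContDiff ENNReal UpperHalfPlane Laplacian Real

noncomputable section

namespace Pool.Agent.Lib.MP_a52643_an.H53

variable {Γ : Type} [Group Γ] [Countable Γ] [MulAction Γ ℍ] {l : Γ → SL2} {D : Set ℍ}
  {w : ℂ → ℝ}

theorem exists_geo (hD : FD l D) {K : Set ℍ} (hK : IsCompact K) (h : ∀ z, ∃ γ : Γ, γ • z ∈ K) :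
    ∃ w, Geo l D w := by
  have hK' : IsCompact (UpperHalfPlane.coe '' K) := hK.image UpperHalfPlane.continuous_coe
  obtain ⟨O, hO, hKO, hOU, hOc⟩ := exists_open_between_and_isCompact_closure hK' isOpen_UH
    (by rintro _ ⟨z, -, rfl⟩; exact z.im_pos)
  obtain ⟨χ, hχ, cχ, rχ⟩ := hO.exists_contDiff_support_eq (n := ⊤)
  have χ0 : ∀ w, 0 ≤ χ w := fun w => (rχ ⟨w, rfl⟩).1
  have tχ : tsupport χ = closure O := by rw [tsupport, hχ]
  have hK2 : IsCompact (UpperHalfPlane.coe ⁻¹' closure O) := H60.compact_unf hOc hOU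
  set S : ℍ → ℝ := fun z => ∑' γ : Γ, χ (γ • z : ℍ) with hS
  have hloc : ∀ z : ℍ, ∃ F : Finset Γ, ∀ z' ∈ ball z 1, ∀ γ ∉ F, χ (γ • z' : ℍ) = 0 := by
    intro z
    obtain ⟨F, hF⟩ := H60.fin_cut hD hK2 z
    refine ⟨F, fun z' hz' γ hγ => ?_⟩
    by_contra h
    exact hγ (hF z' hz' γ (subset_closure (hχ ▸ h : ((γ • z' : ℍ) : ℂ) ∈ O)))
  have Spos : ∀ z : ℍ, 0 < S z := by
    intro z
    obtain ⟨γ, hγ⟩ := h z
    obtain ⟨F, hF⟩ := hloc z
    have h1 : ((γ • z : ℍ) : ℂ) ∈ Function.support χ := hχ ▸ hKO ⟨_, hγ, rfl⟩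
    exact (summable_of_ne_finset_zero (hF z (mem_ball_self one_pos))).tsum_pos
      (fun δ => χ0 _) γ (lt_of_le_of_ne (χ0 _) (Ne.symm h1))
  have Sinv : ∀ (δ : Γ) (z : ℍ), S (δ • z) = S z := by
    intro δ z
    simp only [hS, smul_smul]
    exact (Equiv.mulRight δ).tsum_eq fun γ : Γ => χ (γ • z : ℍ)
  have Ssm : ∀ w ∈ UH, ContDiffAt ℝ ∞ (fun w : ℂ => S (ofComplex w)) w := by
    intro w hw
    obtain ⟨F, hF⟩ := hloc (ofComplex w)
    have h1 : ContDiffAt ℝ ∞ (fun w : ℂ => ∑ γ ∈ F, χ ((l γ • ofComplex w : ℍ) : ℂ)) w :=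
      ContDiffAt.sum fun γ _ => cχ.contDiffAt.comp w (H60.moeb_cut (l γ) hw)
    refine h1.congr_of_eventuallyEq ?_
    filter_upwards [(H60.cont_of_cut hw).eventually (ball_mem_nhds _ one_pos)] with w' hw'
    simp only [hS]
    rw [tsum_eq_sum (hF _ hw')]
    simp only [hD.act]
  have hsub : tsupport (fun w : ℂ => χ w / S (ofComplex w)) ⊆ closure O := by
    rw [← tχ]
    refine closure_mono fun w hw h => hw ?_
    simp only [h, zero_div]
  refine ⟨fun w => χ w / S (ofComplex w), hD, ?_,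
    hOc.of_isClosed_subset (isClosed_tsupport _) hsub, hsub.trans hOU,
    fun w => div_nonneg (χ0 w) (Spos _).le, fun z => ?_⟩
  · refine contDiff_iff_contDiffAt.2 fun w => ?_
    by_cases hw : w ∈ tsupport (fun w : ℂ => χ w / S (ofComplex w))
    · exact cχ.contDiffAt.div (Ssm w (hOU (hsub hw))) (Spos _).ne'
    · exact (contDiffAt_const (c := (0 : ℝ))).congr_of_eventuallyEq
        (notMem_tsupport_iff_eventuallyEq.1 hw)
  · simp only [UpperHalfPlane.ofComplex_apply, Sinv]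
    rw [tsum_div_const]
    exact div_self (Spos z).ne'

lemma Geo.tf_c1 (h : Geo l D w) : TF w := ⟨h.cd.continuous, h.hcs, h.sub⟩

lemma Geo.meas_c1 (h : Geo l D w) : Measurable fun v : V => ENNReal.ofReal (w (pr v)) :=
  (h.cd.continuous.measurable.comp measurable_pr).ennreal_ofReal

lemma Geo.tst (h : Geo l D w) (n : ℕ) : Tst n fun z => (w z : ℂ) :=
  ⟨ofRealCLM.contDiff.comp (h.cd.of_le (by exact_mod_cast le_top)), h.tf_c1.ofReal.hcs,
    h.tf_c1.ofReal.sub⟩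

lemma Geo.integral_nu (h : Geo l D w) {E : Type*} [NormedAddCommGroup E] [NormedSpace ℝ E]
    (F : V → E) : ∫ v, F v ∂nuW w = ∫ v, w (pr v) • F v ∂mV := by
  unfold nuW
  rw [integral_withDensity_eq_integral_toReal_smul h.meas_c1 (by simp)]
  simp [ENNReal.toReal_ofReal (h.nn _)]

lemma Geo.exists_KB (h : Geo l D w) :
    ∃ R : ℝ, (∀ v ∈ slab, R < ‖v‖ → w (pr v) = 0) ∧ ∀ᵐ v ∂nuW w, v ∈ KB R := by
  obtain ⟨R, hR⟩ := h.tf_c1.cs
  refine ⟨R, hR, ?_⟩
  unfold nuW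
  rw [ae_withDensity_iff h.meas_c1]
  filter_upwards [ae_slab] with v hv h1
  refine ⟨?_, slab_subset_cslab hv⟩
  by_contra h2
  exact h1 (by simp [hR v hv (by simpa using h2)])

lemma Geo.ae_Om (h : Geo l D w) : ∀ᵐ v ∂nuW w, v ∈ Om := by
  obtain ⟨R, -, hR⟩ := h.exists_KB
  exact hR.mono fun v hv => KB_subset_Om R hv

lemma Geo.fin (h : Geo l D w) : IsFiniteMeasure (nuW w) :=
  isFiniteMeasure_withDensity_ofReal (h.tf_c1.cs.integrable h.tf_c1.contOn).hasFiniteIntegral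

lemma Geo.integrable (h : Geo l D w) {E : Type*} [NormedAddCommGroup E] {F : V → E}
    (hF : ContinuousOn F Om) : Integrable F (nuW w) := by
  obtain ⟨R, -, hR⟩ := h.exists_KB
  have := h.fin
  have h1 : IntegrableOn F (KB R) (nuW w) :=
    (hF.mono (KB_subset_Om R)).integrableOn_compact (isCompact_KB R)
  rwa [IntegrableOn, Measure.restrict_eq_self_of_ae_mem hR] at h1

lemma Geo.integrable_prod (h : Geo l D w) {P : Type} [TopologicalSpace P] [T2Space P]
    [SecondCountableTopology P] [MeasurableSpace P] [BorelSpace P] (μ : Measure P)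
    [IsFiniteMeasureOnCompacts μ] [SFinite μ] {S : Set P} (hS : IsCompact S) {E : Type}
    [NormedAddCommGroup E] {f : P × V → E} (hf : ContinuousOn f (S ×ˢ Om)) :
    Integrable f ((μ.restrict S).prod (nuW w)) := by
  obtain ⟨R, -, hR⟩ := h.exists_KB
  have := h.fin
  have h1 : IntegrableOn f (S ×ˢ KB R) (μ.prod (nuW w)) :=
    (hf.mono (prod_mono_right (KB_subset_Om R))).integrableOn_compact (hS.prod (isCompact_KB R))
  rwa [IntegrableOn, ← Measure.prod_restrict, Measure.restrict_eq_self_of_ae_mem hR] at h1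

lemma Geo.contOn_integral (h : Geo l D w) {P : Type} [TopologicalSpace P]
    [FirstCountableTopology P] {S : Set P} (hS : IsCompact S) {E : Type} [NormedAddCommGroup E]
    [NormedSpace ℝ E] {f : P × V → E} (hf : ContinuousOn f (S ×ˢ Om)) :
    ContinuousOn (fun p => ∫ v, f (p, v) ∂nuW w) S := by
  obtain ⟨R, -, hR⟩ := h.exists_KB
  have := h.fin
  obtain ⟨C, hC⟩ := (hS.prod (isCompact_KB R)).exists_bound_of_continuousOn
    (hf.mono (prod_mono_right (KB_subset_Om R)))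
  refine continuousOn_of_dominated (bound := fun _ => C) (fun p hp => ?_) (fun p hp => ?_)
    (integrable_const C) ?_
  · exact (h.integrable (hf.comp (Continuous.prodMk_right p).continuousOn
      fun v hv => ⟨hp, hv⟩)).aestronglyMeasurable
  · exact hR.mono fun v hv => hC (p, v) ⟨hp, hv⟩
  · exact h.ae_Om.mono fun v hv =>
      hf.comp (Continuous.prodMk_left v).continuousOn fun p hp => ⟨hp, hv⟩

lemma Geo.integral_pr (h : Geo l D w) {E : Type*} [NormedAddCommGroup E] [NormedSpace ℝ E]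
    {F : ℂ → E} (hF : ContinuousOn F UH) :
    ∫ v, F (pr v) ∂nuW w = ∫ z, w z • F z ∂hyp := by
  rw [h.integral_nu, integral_hyp_eq (F := fun z => w z • F z)
    (aesm_hyp (h.cd.continuous.continuousOn.smul hF))]

lemma Geo.integral_D (h : Geo l D w) {F : ℍ → ℝ} (hF : Continuous F)
    (hi : ∀ (γ : Γ) z, F (γ • z) = F z) :
    ∫ z in D, F z = ∫ z, w z * F (ofComplex z) ∂hyp := by
  have h1 := H60.unfold_int h.fd h.cd.continuous h.hcs h.sub hF hi
  simp only [h.sum, one_mul] at h1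
  rw [h1, integral_hyp_weight, setIntegral_eq_integral_of_forall_compl_eq_zero fun z hz => by
    rw [image_eq_zero_of_notMem_tsupport fun h' => hz (h.sub h'), zero_mul, smul_zero]]
  refine integral_congr_ae (Eventually.of_forall fun z => ?_)
  simp only [smul_eq_mul]
  ring

lemma Geo.mass (h : Geo l D w) : (nuW w).real univ = volume.real D ∧
    ∫ z, w z ∂hyp = volume.real D ∧ 0 < volume.real D := by
  have h1 := h.integral_D (F := fun _ => 1) continuous_const fun _ _ => rfl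
  have h2 := h.integral_pr (F := fun _ => (1 : ℝ)) continuousOn_const
  simp only [integral_const, smul_eq_mul, mul_one, MeasurableSet.univ,
    measureReal_restrict_apply, univ_inter] at h1 h2
  refine ⟨h2.trans h1.symm, h1.symm, ENNReal.toReal_pos (fun h0 => ?_) h.fd.fin⟩
  have h3 : volume (⋃ γ : Γ, (fun z : ℍ => γ • z) ⁻¹' D) = 0 :=
    measure_iUnion_null fun γ => by
      rw [(h.fd.mp γ).measure_preimage h.fd.meas.nullMeasurableSet, h0]
  refine (isOpen_univ.measure_pos (volume : Measure ℍ) univ_nonempty).ne'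
    (measure_mono_null_ae ?_ h3)
  filter_upwards [h.fd.cov] with z ⟨γ, hγ⟩ _ using mem_iUnion.2 ⟨γ, hγ⟩

/-- invariant continuous functions are bounded -/
lemma Geo.bdd (h : Geo l D w) {E : Type*} [NormedAddCommGroup E] {F : V → E} (hF : IC l F) :
    ∃ B : ℝ, ∀ v ∈ Om, ‖F v‖ ≤ B := by
  obtain ⟨R, hR⟩ := exists_R_of_compact h.hcs.isCompact h.sub
  obtain ⟨B, hB⟩ := (isCompact_KB R).exists_bound_of_continuousOn (hF.cont.mono (KB_subset_Om R))
  refine ⟨B, fun v hv => ?_⟩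
  obtain ⟨γ, hγ⟩ : ∃ γ : Γ, w (γ • ofComplex (pr v) : ℍ) ≠ 0 := by
    by_contra h0
    push Not at h0
    have := h.sum (ofComplex (pr v))
    simp [h0] at this
  have h1 := Lm_mem (l γ) hv
  have h2 : 0 < dt (Lm (l γ) v) := h1
  set u := Lm (l γ) v with hu
  have hc : 0 < (√(dt u))⁻¹ := by positivity
  have e : (√(dt u))⁻¹ • u = (((√(dt u))⁻¹ : ℝ) : ℂ) • u := (Complex.coe_smul _ _).symm
  have h3 : dt ((√(dt u))⁻¹ • u) = 1 := by
    rw [e, dt_smul, normSq_ofReal, ← mul_inv, Real.mul_self_sqrt h2.le, inv_mul_cancel₀ h2.ne']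
  have h4 : (√(dt u))⁻¹ • u ∈ cslab := ⟨h3.ge, by rw [h3]; norm_num⟩
  have h5 : pr ((√(dt u))⁻¹ • u) ∈ tsupport w := by
    rw [e, pr_smul (by exact_mod_cast hc.ne'), hu, pr_Lm _ hv, ← h.fd.act]
    exact subset_tsupport _ hγ
  rw [← hF.inv γ v hv, ← hF.ph _ hc _ h1]
  exact hB _ ⟨by simpa using hR _ h4 h5, h4⟩

lemma Geo.hom_zero (h : Geo l D w) {k : ℤ} (hk : k ≠ 0) {F : V → ℂ} (hF : ContinuousOn F Om)
    (hh : Hom k F) : ∫ v, F v ∂nuW w = 0 := by
  set c : ℂ := exp (((π / (2 * k) : ℝ) : ℂ) * I) with hc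
  have c0 : c ≠ 0 := exp_ne_zero _
  have c1 : ‖c‖ = 1 := norm_exp_ofReal_mul_I _
  have c2 : (conj c / c) ^ k = -1 := by
    have hk' : (k : ℂ) ≠ 0 := by exact_mod_cast hk
    rw [hc, ← exp_conj, ← exp_sub, ← exp_int_mul, ← exp_neg_pi_mul_I]
    congr 1
    simp only [map_mul, conj_ofReal, conj_I]
    push_cast
    field_simp
    ring
  have e := (measurePreserving_smul_mV c1).integral_comp
    (Homeomorph.smulOfNeZero c c0).measurableEmbedding fun v => w (pr v) • F v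
  have e2 : ∫ v, w (pr (c • v)) • F (c • v) ∂mV = -∫ v, w (pr v) • F v ∂mV := by
    rw [← integral_neg]
    refine integral_congr_ae (Pool.Agent.Lib.MP_a52643_an.ae_Om.mono fun v hv => ?_)
    simp only
    rw [pr_smul c0, hh c c0 v hv, c2]
    simp
  rw [h.integral_nu]
  linear_combination (e2 - e) / 2

/-- Cauchy-Schwarz inequality -/
lemma Geo.cs (h : Geo l D w) {F G : V → ℂ} (hF : ContinuousOn F Om) (hG : ContinuousOn G Om) :
    (∫ v, ‖F v‖ * ‖G v‖ ∂nuW w) ^ 2 ≤ (∫ v, ‖F v‖ ^ 2 ∂nuW w) * ∫ v, ‖G v‖ ^ 2 ∂nuW w := by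
  have i1 : Integrable (fun v => ‖F v‖ ^ 2) (nuW w) := h.integrable (hF.norm.pow 2)
  have i2 : Integrable (fun v => ‖G v‖ ^ 2) (nuW w) := h.integrable (hG.norm.pow 2)
  have i3 : Integrable (fun v => ‖F v‖ * ‖G v‖) (nuW w) := h.integrable (hF.norm.mul hG.norm)
  have key : ∀ t : ℝ, 0 ≤ (∫ v, ‖F v‖ ^ 2 ∂nuW w) * (t * t)
      + (-2 * ∫ v, ‖F v‖ * ‖G v‖ ∂nuW w) * t + ∫ v, ‖G v‖ ^ 2 ∂nuW w := by
    intro t
    have h0 : 0 ≤ ∫ v, (‖F v‖ ^ 2 * (t * t) + (-2 * (‖F v‖ * ‖G v‖)) * t + ‖G v‖ ^ 2) ∂nuW w :=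
      integral_nonneg fun v => by
        simp only [Pi.zero_apply]
        nlinarith [sq_nonneg (‖F v‖ * t - ‖G v‖)]
    rwa [integral_add (by exact (i1.mul_const _).add ((i3.const_mul _).mul_const _)) i2,
      integral_add (i1.mul_const _) ((i3.const_mul _).mul_const _), integral_mul_const,
      integral_mul_const, integral_const_mul] at h0
  have := discrim_le_zero key
  rw [discrim] at this
  nlinarith

lemma ONF.norm_sum (h : Geo l D w) {ι : Type} [DecidableEq ι] {s : Finset ι} {u : ι → V → ℂ}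
    (hu : ONF w s u) (hc : ∀ i ∈ s, ContinuousOn (u i) Om) (x : ι → ℂ) :
    ∫ v, ‖∑ i ∈ s, x i * u i v‖ ^ 2 ∂nuW w = ∑ i ∈ s, ‖x i‖ ^ 2 := by
  have hi : ∀ i ∈ s, ∀ k ∈ s,
      Integrable (fun v => x i * conj (x k) * (u i v * conj (u k v))) (nuW w) := fun i hi k hk =>
    (h.integrable ((hc i hi).mul (continuous_conj.comp_continuousOn (hc k hk)))).const_mul _
  have e : ∀ v, ((‖∑ i ∈ s, x i * u i v‖ ^ 2 : ℝ) : ℂ)
      = ∑ i ∈ s, ∑ k ∈ s, x i * conj (x k) * (u i v * conj (u k v)) := by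
    intro v
    rw [ofReal_pow, ← mul_conj', map_sum, Finset.sum_mul_sum]
    refine Finset.sum_congr rfl fun i _ => Finset.sum_congr rfl fun k _ => ?_
    rw [map_mul]; ring
  apply ofReal_injective
  rw [← integral_complex_ofReal]
  simp only [e]
  rw [integral_finsetSum _ fun i hi' => integrable_finsetSum _ (hi i hi'), ofReal_sum]
  refine Finset.sum_congr rfl fun i hi' => ?_
  rw [integral_finsetSum _ (hi i hi'), Finset.sum_eq_single_of_mem i hi']
  · rw [integral_const_mul, hu i hi' i hi', if_pos rfl, mul_one, mul_conj', ofReal_pow]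
  · intro k hk hne
    rw [integral_const_mul, hu i hi' k hk, if_neg (Ne.symm hne), mul_zero]

lemma dual_bessel {ι : Type} {s : Finset ι} {a : ι → ℂ} {M : ℝ} (hM : 0 ≤ M)
    (h : ∀ x : ι → ℂ, ‖∑ i ∈ s, x i * a i‖ ^ 2 ≤ M * ∑ i ∈ s, ‖x i‖ ^ 2) :
    ∑ i ∈ s, ‖a i‖ ^ 2 ≤ M := by
  have h1 := h fun i => conj (a i)
  have h0 : 0 ≤ ∑ i ∈ s, ‖a i‖ ^ 2 := Finset.sum_nonneg fun i _ => sq_nonneg _
  have e : ∑ i ∈ s, conj (a i) * a i = ((∑ i ∈ s, ‖a i‖ ^ 2 : ℝ) : ℂ) := by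
    rw [ofReal_sum]
    exact Finset.sum_congr rfl fun i _ => by rw [conj_mul', ofReal_pow]
  simp only [e, norm_conj, norm_real, Real.norm_of_nonneg h0] at h1
  rcases h0.eq_or_lt with h2 | h2
  · rwa [← h2]
  · nlinarith

end Pool.Agent.Lib.MP_a52643_an.H53
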