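import Pool.Agent.Lib.MP_a52643_an.H53C1

open Complex MeasureTheory Set Filter Topology Metric
open UpperHalfPlane (ofComplex)
open scoped ComplexConjugate ContDiff ENNReal UpperHalfPlane Laplacian Real

noncomputable section

namespace Pool.Agent.Lib.MP_a52643_an.H53

variable {Γ : Type} [Group Γ] [Countable Γ] [MulAction Γ ℍ] {l : Γ → SL2} {D : Set ℍ}
  {w : ℂ → ℝ}

/-- only finitely many translates matter -/
lemma Geo.exists_fin (h : Geo l D w) {K K' : Set ℂ} (hK : IsCompact K) (hU : K ⊆ UH)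
    (hK' : IsCompact K') (hU' : K' ⊆ UH) :
    ∃ s : Finset Γ, ∀ (γ : Γ) (z : ℍ), (z : ℂ) ∈ K → ((γ • z : ℍ) : ℂ) ∈ K' → γ ∈ s := by
  obtain ⟨R, hR⟩ := ((H60.compact_unf hK hU).union
    (H60.compact_unf hK' hU')).isBounded.subset_closedBall UpperHalfPlane.I
  exact ⟨(h.fd.finite R).toFinset, fun γ z h1 h2 =>
    (Finite.mem_toFinset _).2 ⟨z, hR (.inl h1), hR (.inr h2)⟩⟩

lemma int_comp_c1b {T : V → V} (hT : MeasurePreserving T mV mV) {f : V → ℂ}
    (hf : Integrable f mV) : ∫ v, f (T v) ∂mV = ∫ v, f v ∂mV := by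
  rw [← integral_map hT.measurable.aemeasurable (hT.map_eq.symm ▸ hf.1), hT.map_eq]

lemma coe_pr_c1b {v : V} (hv : v ∈ Om) : ((ofComplex (pr v) : ℍ) : ℂ) = pr v := by
  rw [UpperHalfPlane.ofComplex_apply_of_im_pos (pr_mem hv)]

omit [Countable Γ] in
lemma Geo.prL_c1b (h : Geo l D w) (γ : Γ) {v : V} (hv : v ∈ Om) :
    pr (Lm (l γ) v) = (γ • ofComplex (pr v) : ℍ) := by
  rw [pr_Lm _ hv, h.fd.act]

lemma cpt_c1b (R : ℝ) : IsCompact (pr '' KB R) :=
  (isCompact_KB R).image_of_continuousOn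
    ((contDiffOn_pr (n := 0)).continuousOn.mono (KB_subset_Om R))

lemma sub_c1b (R : ℝ) : pr '' KB R ⊆ UH := by
  rintro _ ⟨v, hv, rfl⟩
  exact pr_mem (KB_subset_Om R hv)

lemma Lm_slab_c1b (g : SL2) {v : V} (hv : v ∈ slab) : Lm g v ∈ slab := by
  simpa only [slab, mem_ofPred_eq, dt_Lm] using hv

lemma mem_KB_c1b {E : Type*} [Zero E] {u : V → E} {R : ℝ} (hR : ∀ v ∈ slab, R < ‖v‖ → u v = 0)
    {v : V} (hv : v ∈ slab) (h : u v ≠ 0) : v ∈ KB R :=
  ⟨mem_closedBall_zero_iff.2 (not_lt.1 fun h' => h (hR v hv h')), slab_subset_cslab hv⟩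

lemma comp_c1b {E : Type*} [TopologicalSpace E] {u : V → E} (hu : ContinuousOn u Om)
    (T : V →L[ℝ] V) (hT : ∀ v ∈ Om, T v ∈ Om) : ContinuousOn (fun v => u (T v)) Om :=
  hu.comp T.continuous.continuousOn hT

/-- unfolding -/
theorem Geo.unfold (h : Geo l D w) {u H : V → ℂ} (hu : ContinuousOn u Om) (hc : CS u)
    (hH : ContinuousOn H Om) (hi : IV l H) :
    ∫ v, u v * H v ∂mV = ∫ v, Per l u v * H v ∂nuW w := by
  obtain ⟨R, hR⟩ := id hc
  obtain ⟨s, hs⟩ := h.exists_fin h.hcs.isCompact h.sub (cpt_c1b R) (sub_c1b R)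
  have hw := (h.tst 0).tf
  have i1 : ∀ γ, Integrable (fun v => (w (pr (Lm (l γ⁻¹) v)) : ℂ) * (u v * H v)) mV := fun γ =>
    ((hc.mul_right H).mul_left _).integrable
      ((comp_c1b hw.contOn _ fun v => Lm_mem _).mul (hu.mul hH))
  have i2 : ∀ γ, Integrable (fun v => (w (pr v) : ℂ) * (u (Lm (l γ) v) * H v)) mV := fun γ =>
    (hw.cs.mul_right _).integrable (hw.contOn.mul ((comp_c1b hu _ fun v => Lm_mem _).mul hH))
  calc ∫ v, u v * H v ∂mV
      = ∫ v, ∑ γ ∈ s, (w (pr (Lm (l γ⁻¹) v)) : ℂ) * (u v * H v) ∂mV := by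
        refine integral_congr_ae (ae_slab.mono fun v hv => ?_)
        have hO := slab_subset_Om hv
        by_cases h0 : u v = 0
        · simp [h0]
        have h1 := (Equiv.inv Γ).tsum_eq fun γ : Γ => w (γ • ofComplex (pr v) : ℍ)
        rw [h.sum, tsum_eq_sum (s := s) fun γ hγ => ?_] at h1
        · simp only [Equiv.inv_apply] at h1
          simp only [h.prL_c1b _ hO]
          rw [← Finset.sum_mul, ← ofReal_sum, h1, ofReal_one, one_mul]
        · by_contra h2
          refine hγ (hs γ _ (subset_tsupport _ h2) ?_)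
          rw [Equiv.inv_apply, smul_inv_smul, coe_pr_c1b hO]
          exact ⟨v, mem_KB_c1b hR hv h0, rfl⟩
    _ = ∑ γ ∈ s, ∫ v, (w (pr v) : ℂ) * (u (Lm (l γ) v) * H v) ∂mV := by
        rw [integral_finsetSum _ fun γ _ => i1 γ]
        refine Finset.sum_congr rfl fun γ _ => ?_
        rw [← int_comp_c1b (mp_Lm (l γ)) (i1 γ)]
        refine integral_congr_ae (MP_a52643_an.ae_Om.mono fun v hv => ?_)
        simp only
        rw [hi γ v hv, h.prL_c1b _ (Lm_mem _ hv), h.prL_c1b _ hv, UpperHalfPlane.ofComplex_apply,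
          inv_smul_smul, coe_pr_c1b hv]
    _ = _ := by
        rw [← integral_finsetSum _ fun γ _ => i2 γ, h.integral_nu]
        refine integral_congr_ae (ae_slab.mono fun v hv => ?_)
        have hO := slab_subset_Om hv
        by_cases h0 : w (pr v) = 0
        · simp [h0]
        simp only
        rw [← Finset.mul_sum, ← Finset.sum_mul, real_smul, Per, tsum_eq_sum (s := s) fun γ hγ => ?_]
        by_contra h2
        refine hγ (hs γ (ofComplex (pr v)) ?_ ?_)
        · rw [coe_pr_c1b hO]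
          exact subset_tsupport _ h0
        · rw [← h.prL_c1b _ hO]
          exact ⟨_, mem_KB_c1b hR (Lm_slab_c1b _ hv) h2, rfl⟩

lemma Geo.transport_c1b (h : Geo l D w) {H : V → ℂ} (hH : IC l H) {m : V} (hm : dm m = 1) :
    ∫ v, H (act m v) ∂nuW w = ∫ v, H v ∂nuW w := by
  have hw := (h.tst 0).tf
  have hm0 : 0 < dm m := hm ▸ one_pos
  have hm1 : dm (conj m.1, -m.2) = 1 := by simpa [dm] using hm
  have hm2 : 0 < dm (conj m.1, -m.2) := hm1 ▸ one_pos
  have e : ∀ v, act m (act (conj m.1, -m.2) v) = v := fun v => by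
    have : gm m (conj m.1, -m.2) = (1, 0) := by
      have h1 : ((normSq m.1 - normSq m.2 : ℝ) : ℂ) = 1 := by
        rw [← dm, hm, ofReal_one]
      rw [ofReal_sub, ← mul_conj, ← mul_conj] at h1
      ext
      · simpa [gm, sub_eq_add_neg] using h1
      · simp [gm, mul_comm]
    rw [act_act, this, act_one]
  obtain ⟨R, hR⟩ := hw.cs
  have hc : CS fun v => (w (pr (act (conj m.1, -m.2) v)) : ℂ) :=
    ⟨‖act m‖ * R, fun v hv h1 => hR _ (by
      simpa only [slab, mem_ofPred_eq, dt_act, hm1, one_mul] using hv) (by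
        by_contra h2
        have h3 := (act m).le_opNorm (act (conj m.1, -m.2) v)
        rw [e] at h3
        exact h1.not_ge (h3.trans (mul_le_mul_of_nonneg_left (not_lt.1 h2) (norm_nonneg _))))⟩
  have i1 : Integrable (fun v => (w (pr v) : ℂ) * H (act m v)) mV :=
    (hw.cs.mul_right _).integrable (hw.contOn.mul (hH.act hm0).cont)
  rw [h.integral_nu]
  simp only [real_smul]
  rw [← int_comp_c1b (mp_act hm1) i1]
  simp only [e]
  rw [h.unfold (comp_c1b hw.contOn _ fun v => act_mem hm2) hc hH.cont hH.inv]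
  refine integral_congr_ae (h.ae_Om.mono fun v hv => ?_)
  simp only [Per, act_Lm, h.prL_c1b _ (act_mem hm2 hv)]
  rw [← ofReal_tsum, h.sum, ofReal_one, one_mul]

theorem Geo.transport (h : Geo l D w) {H : V → ℂ} (hH : IC l H) {m : V} (hm : 0 < dm m) :
    ∫ v, H (act m v) ∂nuW w = ∫ v, H v ∂nuW w := by
  have hs := Real.sqrt_pos.2 hm
  have h1 : dm ((√(dm m))⁻¹ • m) = 1 := by
    have : ∀ c : ℝ, dm (c • m) = c * c * dm m := fun c => by
      simp only [dm, Prod.smul_fst, Prod.smul_snd, real_smul, normSq_mul, normSq_ofReal]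
      ring
    rw [this, ← mul_inv, Real.mul_self_sqrt hm.le, inv_mul_cancel₀ hm.ne']
  rw [← h.transport_c1b hH h1]
  refine integral_congr_ae (h.ae_Om.mono fun v hv => ?_)
  simp only [act_smul_left]
  exact (hH.ph _ (inv_pos.2 hs) _ (act_mem hm hv)).symm

theorem Geo.transport_real (h : Geo l D w) {H : V → ℝ} (hH : IC l H) {m : V} (hm : 0 < dm m) :
    ∫ v, H (act m v) ∂nuW w = ∫ v, H v ∂nuW w := by
  have := h.transport (H := fun v => (H v : ℂ)) ⟨continuous_ofReal.comp_continuousOn hH.cont,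
    fun γ v hv => congrArg _ (hH.inv γ v hv), fun c hc v hv => congrArg _ (hH.ph c hc v hv)⟩ hm
  simpa only [integral_complex_ofReal, ofReal_inj] using this

theorem Geo.local_le (h : Geo l D w) (R : ℝ) : ∃ M : ℝ, 0 ≤ M ∧ ∀ H : V → ℝ,
    ContinuousOn H Om → IV l H → (∀ v, 0 ≤ H v) →
      ∫ v in KB R, H v ∂mV ≤ M * ∫ v, H v ∂nuW w := by
  obtain ⟨ζ, Z, hc, h1⟩ := exists_cut (lt_max_of_lt_right one_pos : 0 < max R 1)
  obtain ⟨R0, -, hR0⟩ := h.exists_KB
  obtain ⟨s, hs⟩ := h.exists_fin (cpt_c1b R0) (sub_c1b R0) (cpt_c1b (max R 1 + 1)) (sub_c1b _)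
  refine ⟨s.card, by positivity, fun H hH hi h0 => ?_⟩
  have e := h.unfold (H := fun v => (H v : ℂ)) hc.cdo.continuousOn hc.csc
    (continuous_ofReal.comp_continuousOn hH) fun γ v hv => congrArg _ (hi γ v hv)
  simp only [← ofReal_mul, integral_complex_ofReal] at e
  have i1 : Integrable (fun v => ζ v * H v) mV :=
    (hc.cs.mul_right _).integrable (hc.smooth.continuous.continuousOn.mul hH)
  calc ∫ v in KB R, H v ∂mV = ∫ v in KB R, ζ v * H v ∂mV :=
        setIntegral_congr_fun (measurableSet_KB R) fun v hv => by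
          simp only [h1 v ((mem_closedBall_zero_iff.1 hv.1).trans (le_max_left _ _)), one_mul]
    _ ≤ ∫ v, ζ v * H v ∂mV :=
        setIntegral_le_integral i1 (Eventually.of_forall fun v => mul_nonneg (hc.nonneg v) (h0 v))
    _ ≤ ‖((∫ v, ζ v * H v ∂mV : ℝ) : ℂ)‖ := by
        rw [norm_real]
        exact le_abs_self _
    _ ≤ _ := by
        rw [e, ← integral_const_mul]
        refine norm_integral_le_of_norm_le ((h.integrable hH).const_mul _)
          (hR0.mono fun v hv => ?_)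
        have hO := KB_subset_Om _ hv
        rw [norm_mul, norm_real, Real.norm_of_nonneg (h0 v), Per,
          tsum_eq_sum (s := s) fun γ hγ => ?_]
        · refine mul_le_mul_of_nonneg_right ((norm_sum_le _ _).trans
            ((Finset.sum_le_card_nsmul _ _ 1 fun γ _ => ?_).trans (by simp))) (h0 v)
          rw [norm_real, Real.norm_of_nonneg (hc.nonneg _)]
          exact hc.le_one _
        · by_contra h2
          refine hγ (hs γ (ofComplex (pr v)) ?_ ?_)
          · rw [coe_pr_c1b hO]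
            exact ⟨v, hv, rfl⟩
          · rw [← h.prL_c1b _ hO]
            refine ⟨_, ⟨mem_closedBall_zero_iff.2 (not_lt.1 fun h3 => h2 ?_), ?_⟩, rfl⟩
            · rw [hc.zero _ h3, ofReal_zero]
            · simpa only [cslab, mem_ofPred_eq, dt_Lm] using hv.2

lemma Ep_sum_c1b {ι : Type*} (s : Finset ι) {F : ι → V → ℂ} {v : V}
    (hF : ∀ i ∈ s, DifferentiableAt ℝ (F i) v) :
    Ep (fun x => ∑ i ∈ s, F i x) v = ∑ i ∈ s, Ep (F i) v := by
  simp only [Ep, wp, fderiv_fun_sum hF, _root_.sum_apply, Finset.mul_sum,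
    ← Finset.sum_sub_distrib, Finset.sum_div, Finset.sum_neg_distrib]

theorem Geo.int_Ep (h : Geo l D w) {H : V → ℂ} (hH : ContDiffOn ℝ 1 H Om) (hi : IV l H) :
    ∫ v, Ep H v ∂nuW w = 0 := by
  have hw := (h.tst 0).tf
  have hτ : ContDiffOn ℝ 1 (fun v => (w (pr v) : ℂ)) Om :=
    (h.tst 1).cd.comp_contDiffOn contDiffOn_pr
  rw [h.integral_nu]
  simp only [real_smul]
  rw [ibp_Ep hτ hw.cs hH, h.unfold (continuousOn_Ep hτ) hw.cs.Ep hH.continuousOn hi, neg_eq_zero]
  refine integral_eq_zero_of_ae (h.ae_Om.mono fun v hv => ?_)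
  obtain ⟨s, hs⟩ := H60.fin_cut h.fd (H60.compact_unf h.hcs.isCompact h.sub) (ofComplex (pr v))
  have hd : ∀ γ : Γ, DifferentiableAt ℝ (fun v => (w (pr v) : ℂ)) (Lm (l γ) v) := fun γ =>
    diffAt_of_Om hτ one_ne_zero (Lm_mem _ hv)
  have ev : ∀ᶠ x in 𝓝 v, x ∈ Om ∧ ∀ γ ∉ s, w (γ • ofComplex (pr x) : ℍ) = 0 := by
    have hc : ContinuousAt (fun x => ofComplex (pr x)) v :=
      (H60.cont_of_cut (pr_mem hv)).comp (contDiffAt_pr (n := 0) (snd_ne_zero hv)).continuousAt
    filter_upwards [isOpen_Om.mem_nhds hv, hc.eventually (ball_mem_nhds _ one_pos)] with x h1 h2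
    exact ⟨h1, fun γ hγ => by_contra fun h3 => hγ (hs _ h2 γ (subset_tsupport _ h3))⟩
  have e : Per l (Ep fun v => (w (pr v) : ℂ)) v = 0 := by
    simp only [Per, ← Ep_Lm _ (hd _)]
    rw [tsum_eq_sum (s := s) fun γ hγ => ?_, ← Ep_sum_c1b _ fun γ _ => by
      exact (hd γ).comp v (Lm (l γ)).differentiableAt, ← Ep_const 1 v]
    · refine Ep_congr (ev.mono fun x hx => ?_)
      simp only [h.prL_c1b _ hx.1]
      rw [← ofReal_sum, (tsum_eq_sum hx.2).symm.trans (h.sum _), ofReal_one]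
    · rw [← Ep_const 0 v]
      refine Ep_congr (ev.mono fun x hx => ?_)
      simp only [h.prL_c1b _ hx.1, hx.2 γ hγ, ofReal_zero]
  simp only [e, zero_mul, Pi.zero_apply]

theorem Geo.int_Em (h : Geo l D w) {H : V → ℂ} (hH : ContDiffOn ℝ 1 H Om) (hi : IV l H) :
    ∫ v, Em H v ∂nuW w = 0 := by
  have := h.int_Ep (contDiffOn_conj' hH) fun γ v hv => congrArg _ (hi γ v hv)
  simp only [Ep_conj, integral_conj] at this
  exact (map_eq_zero _).1 this

lemma cs_c1b {α : Type*} [MeasurableSpace α] {μ : Measure α} {f g : α → ℝ}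
    (h1 : Integrable (fun x => f x ^ 2) μ) (h2 : Integrable (fun x => f x * g x) μ)
    (h3 : Integrable (fun x => g x ^ 2) μ) :
    (∫ x, f x * g x ∂μ) ^ 2 ≤ (∫ x, f x ^ 2 ∂μ) * ∫ x, g x ^ 2 ∂μ := by
  have := discrim_le_zero (a := ∫ x, f x ^ 2 ∂μ) (b := 2 * ∫ x, f x * g x ∂μ)
    (c := ∫ x, g x ^ 2 ∂μ) fun t => by
      rw [← integral_mul_const, ← integral_const_mul, ← integral_mul_const,
        ← integral_add (h1.mul_const _) ((h2.const_mul _).mul_const _),
        ← integral_add (by exact (h1.mul_const _).add ((h2.const_mul _).mul_const _)) h3]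
      exact integral_nonneg fun x => (sq_nonneg (f x * t + g x)).trans_eq (by ring)
  rw [discrim] at this
  linarith

/-- Bessel inequality against a compactly supported function -/
theorem Geo.bessel (h : Geo l D w) (R : ℝ) : ∃ M : ℝ, 0 ≤ M ∧ ∀ (s : Finset ℕ) (u : ℕ → V → ℂ),
    ONF w s u → (∀ i ∈ s, ContinuousOn (u i) Om) → (∀ i ∈ s, IV l (u i)) → ∀ G : V → ℂ,
      ContinuousOn G Om → (∀ v ∈ slab, R < ‖v‖ → G v = 0) →
      ∑ i ∈ s, ‖∫ v, G v * u i v ∂mV‖ ^ 2 ≤ M * ∫ v, ‖G v‖ ^ 2 ∂mV := by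
  obtain ⟨M, hM, hM'⟩ := h.local_le R
  refine ⟨M, hM, fun s u hu hc hi G hG hR => dual_bessel
    (mul_nonneg hM (integral_nonneg fun v => sq_nonneg _)) fun x => ?_⟩
  have cG : CS G := ⟨R, hR⟩
  have cU : ContinuousOn (fun v => ∑ i ∈ s, x i * u i v) Om :=
    continuousOn_finsetSum _ fun i hi => continuousOn_const.mul (hc i hi)
  have e : ∑ i ∈ s, x i * ∫ v, G v * u i v ∂mV
      = ∫ v in KB R, G v * ∑ i ∈ s, x i * u i v ∂mV := by
    rw [← integral_indicator (measurableSet_KB R), ← integral_congr_ae (ae_eq_indicator_KB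
      (F := fun v => G v * ∑ i ∈ s, x i * u i v) fun v hv h1 => by rw [hR v hv h1, zero_mul])]
    simp only [← integral_const_mul, Finset.mul_sum, mul_left_comm (G _)]
    exact (integral_finsetSum _ fun i hi =>
      ((cG.mul_right _).integrable (hG.mul (hc i hi))).const_mul _).symm
  have b := hM' (fun v => ‖∑ i ∈ s, x i * u i v‖ ^ 2) (cU.norm.pow 2) (fun γ v hv => by
    simp only
    rw [Finset.sum_congr rfl fun i h1 => congrArg _ (hi i h1 γ v hv)]) fun v => sq_nonneg _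
  rw [hu.norm_sum h hc] at b
  calc _ ≤ (∫ v in KB R, ‖G v‖ * ‖∑ i ∈ s, x i * u i v‖ ∂mV) ^ 2 := by
        rw [e]
        refine pow_le_pow_left₀ (norm_nonneg _) ((norm_integral_le_integral_norm _).trans_eq ?_) 2
        simp only [norm_mul]
    _ ≤ _ := cs_c1b (integrableOn_KB (hG.norm.pow 2) R) (integrableOn_KB (hG.norm.mul cU.norm) R)
        (integrableOn_KB (cU.norm.pow 2) R)
    _ ≤ (∫ v, ‖G v‖ ^ 2 ∂mV) * (M * ∑ i ∈ s, ‖x i‖ ^ 2) :=
        mul_le_mul (setIntegral_le_integral ((cG.comp (g := fun z => ‖z‖ ^ 2) (by simp)).integrable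
          (hG.norm.pow 2)) (Eventually.of_forall fun v => sq_nonneg _)) b
          (integral_nonneg fun v => sq_nonneg _) (integral_nonneg fun v => sq_nonneg _)
    _ = _ := by ring

end Pool.Agent.Lib.MP_a52643_an.H53
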