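import Pool.Agent.Lib.MP_a52643_an.H6CDefs

open MeasureTheory Set Filter Topology Metric UpperHalfPlane
open scoped ENNReal NNReal ContDiff Laplacian MatrixGroups Real

noncomputable section

namespace Pool.Agent.Lib.MP_a52643_an.H6C

theorem ea_neg_nu (g : SL2) : ea (-g) = -ea g := rfl
theorem eb_neg_nu (g : SL2) : eb (-g) = -eb g := rfl
theorem ec_neg_nu (g : SL2) : ec (-g) = -ec g := rfl
theorem ed_neg_nu (g : SL2) : ed (-g) = -ed g := rfl

theorem tr_conj_nu (h g : SL2) : tr (h * g * h⁻¹) = tr g := by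
  simp only [tr, ea_mul, eb_mul, ec_mul, ed_mul, ea_inv, eb_inv, ec_inv, ed_inv]
  linear_combination (ea g + ed g) * det_eq h

theorem nu_conj (h g : SL2) (z : ℍ) : nu (h * g * h⁻¹) (h • z) = nu g z := by
  rw [nu, nu, tr_conj_nu, mul_smul, mul_smul, inv_smul_smul, dist_smul]

theorem cosh_I_nu (g : SL2) :
    2 * Real.cosh (dist I (g • I)) = ea g ^ 2 + eb g ^ 2 + ec g ^ 2 + ed g ^ 2 := by
  have h := ent_sq g
  rw [bp, dist_comm] at h
  linear_combination -h - 2 * det_eq g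

theorem nu_I (g : SL2) :
    nu g I = ea g ^ 2 + eb g ^ 2 + ec g ^ 2 + ed g ^ 2 + 2 - 2 * |ea g + ed g| := by
  rw [nu, cosh_I_nu, tr]

theorem neg_act_nu (g : SL2) (z : ℍ) : (-g) • z = g • z := by
  apply UpperHalfPlane.ext
  rw [coe_act, coe_act, ea_neg_nu, eb_neg_nu, ec_neg_nu, ed_neg_nu, ← neg_div_neg_eq]
  push_cast
  congr 1 <;> ring

theorem nu_neg (g : SL2) (z : ℍ) : nu (-g) z = nu g z := by
  rw [nu, nu, neg_act_nu, tr, tr, ea_neg_nu, ed_neg_nu, ← neg_add, abs_neg]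

theorem nu_inv (g : SL2) (z : ℍ) : nu g⁻¹ z = nu g z := by
  rw [nu, nu, ← dist_smul g, smul_inv_smul, dist_comm, tr, tr, ea_inv, ed_inv, add_comm (ed g)]

theorem continuous_nu (g : SL2) : Continuous (nu g) := by
  have h : Continuous fun z : ℍ => g • z := (isometry_smul ℍ g).continuous
  unfold nu
  fun_prop

theorem pm_conj (h g : SL2) : pm (h * g * h⁻¹) ↔ pm g := by
  have key : ∀ h g : SL2, pm g → pm (h * g * h⁻¹) := by
    rintro h g (rfl | rfl)
    · left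
      simp
    · right
      simp
  refine ⟨fun H => ?_, key h g⟩
  have := key h⁻¹ _ H
  rwa [show h⁻¹ * (h * g * h⁻¹) * h⁻¹⁻¹ = g by group] at this

theorem exists_conj_nu (g : SL2) (z : ℍ) : ∃ s k : SL2, s • I = z ∧ g = s * k * s⁻¹ ∧
    ea k = ea g - ec g * z.re ∧
    eb k = (eb g + (ea g - ed g) * z.re - ec g * z.re ^ 2) / z.im ∧
    ec k = ec g * z.im ∧ ed k = ed g + ec g * z.re := by
  obtain ⟨r, hr, hy⟩ : ∃ r : ℝ, 0 < r ∧ z.im = r ^ 2 :=
    ⟨√z.im, Real.sqrt_pos.2 z.im_pos, (Real.sq_sqrt z.im_pos.le).symm⟩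
  have hr' := hr.ne'
  refine ⟨mkG r (z.re / r) 0 (1 / r) (by field_simp; ring),
    (mkG r (z.re / r) 0 (1 / r) (by field_simp; ring))⁻¹ * g *
      mkG r (z.re / r) 0 (1 / r) (by field_simp; ring), ?_, by group, ?_, ?_, ?_, ?_⟩
  · apply UpperHalfPlane.ext
    have hc : (r : ℂ) ≠ 0 := by exact_mod_cast hr'
    have hz : (z : ℂ) = z.re + (r : ℂ) ^ 2 * Complex.I := by
      rw [← Complex.re_add_im (z : ℂ), coe_re, coe_im, hy]
      push_cast
      rfl
    rw [coe_act, ea_mkG, eb_mkG, ec_mkG, ed_mkG, hz, coe_I]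
    push_cast
    field_simp
    ring
  all_goals
    simp only [ea_mul, eb_mul, ec_mul, ed_mul, ea_inv, eb_inv, ec_inv, ed_inv, ea_mkG, eb_mkG,
      ec_mkG, ed_mkG, hy]
    field_simp
    ring

theorem formula_nu (g : SL2) (z : ℍ) : nu g z = (ea g - ec g * z.re) ^ 2 +
    ((eb g + (ea g - ed g) * z.re - ec g * z.re ^ 2) / z.im) ^ 2 + (ec g * z.im) ^ 2 +
    (ed g + ec g * z.re) ^ 2 + 2 - 2 * |tr g| := by
  obtain ⟨s, k, h1, h2, h3, h4, h5, h6⟩ := exists_conj_nu g z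
  have h7 : tr g = ea k + ed k := by
    rw [h3, h6, tr]
    ring
  rw [← h3, ← h4, ← h5, ← h6, h7, ← nu_I, ← nu_conj s k, h1, ← h2]

theorem nu_unbdd_nu {g : SL2} (hg : ¬pm g) (M : ℝ) : ∃ z : ℍ, M ≤ nu g z := by
  obtain ⟨K, hK⟩ : ∃ K : ℝ, K = |M| + 2 * |tr g| + 1 := ⟨_, rfl⟩
  have h1 : 1 ≤ K := by
    have := abs_nonneg M
    have := abs_nonneg (tr g)
    linarith
  have h2 : M + 2 * |tr g| ≤ K ^ 2 := by
    have := le_abs_self M
    nlinarith
  by_cases hc : ec g = 0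
  · have : ∃ x : ℝ, eb g + (ea g - ed g) * x ≠ 0 := by
      by_contra hn
      push Not at hn
      have e0 := hn 0
      have e1 := hn 1
      have hb : eb g = 0 := by linarith
      have had : ea g = ed g := by linarith
      have hd := det_eq g
      rw [hb, ← had, zero_mul, sub_zero] at hd
      rcases mul_self_eq_one_iff.1 hd with h | h
      · exact hg (Or.inl (SL2_ext h hb hc (had ▸ h)))
      · refine hg (Or.inr (SL2_ext h ?_ ?_ (had ▸ h)))
        · rw [hb, eb_neg_nu, eb_one, neg_zero]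
        · rw [hc, ec_neg_nu, ec_one, neg_zero]
    obtain ⟨x, hx⟩ := this
    have hp : 0 < |eb g + (ea g - ed g) * x| := abs_pos.2 hx
    refine ⟨⟨⟨x, |eb g + (ea g - ed g) * x| / K⟩, by positivity⟩, ?_⟩
    rw [formula_nu]
    simp only [mk_re, mk_im, hc, zero_mul, sub_zero]
    have e : ((eb g + (ea g - ed g) * x) / (|eb g + (ea g - ed g) * x| / K)) ^ 2 = K ^ 2 := by
      rw [div_pow, div_pow, sq_abs]
      field_simp
    rw [e]
    nlinarith [sq_nonneg (ea g), sq_nonneg (ed g + 0)]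
  · have hp : 0 < |ec g| := abs_pos.2 hc
    refine ⟨⟨⟨0, K / |ec g|⟩, by positivity⟩, ?_⟩
    rw [formula_nu]
    simp only [mk_re, mk_im]
    have e : (ec g * (K / |ec g|)) ^ 2 = K ^ 2 := by
      rw [mul_pow, div_pow, sq_abs]
      field_simp
    rw [e]
    nlinarith [sq_nonneg (ea g - ec g * 0), sq_nonneg (ed g + ec g * 0),
      sq_nonneg ((eb g + (ea g - ed g) * 0 - ec g * 0 ^ 2) / (K / |ec g|))]

theorem pm_iff_act (g : SL2) : pm g ↔ ∀ z : ℍ, g • z = z := by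
  constructor
  · rintro (rfl | rfl) z
    · exact one_smul _ z
    · rw [neg_act_nu, one_smul]
  · intro h
    by_contra hg
    obtain ⟨z, hz⟩ := nu_unbdd_nu hg 5
    rw [nu, h z, dist_self, Real.cosh_zero] at hz
    have := abs_nonneg (tr g)
    linarith

theorem nu_pos {g : SL2} (hg : ¬pm g) (z : ℍ) : 0 < nu g z := by
  obtain ⟨s, k, h1, h2, -⟩ := exists_conj_nu g z
  rw [h2, pm_conj] at hg
  rw [h2, ← h1, nu_conj, nu_I]
  by_contra hn
  rcases abs_cases (ea k + ed k) with ⟨h, -⟩ | ⟨h, -⟩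
  · rw [h] at hn
    have q1 := sq_nonneg (ea k - 1)
    have q2 := sq_nonneg (eb k)
    have q3 := sq_nonneg (ec k)
    have q4 := sq_nonneg (ed k - 1)
    refine hg (Or.inl (SL2_ext ?_ ?_ ?_ ?_))
    · exact sub_eq_zero.1 (pow_eq_zero_iff two_ne_zero |>.1 (by rw [ea_one]; nlinarith))
    · exact pow_eq_zero_iff two_ne_zero |>.1 (by nlinarith)
    · exact pow_eq_zero_iff two_ne_zero |>.1 (by nlinarith)
    · exact sub_eq_zero.1 (pow_eq_zero_iff two_ne_zero |>.1 (by rw [ed_one]; nlinarith))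
  · rw [h] at hn
    have q1 := sq_nonneg (ea k + 1)
    have q2 := sq_nonneg (eb k)
    have q3 := sq_nonneg (ec k)
    have q4 := sq_nonneg (ed k + 1)
    have r1 : ea k + 1 = 0 := pow_eq_zero_iff two_ne_zero |>.1 (by nlinarith)
    have r2 : eb k = 0 := pow_eq_zero_iff two_ne_zero |>.1 (by nlinarith)
    have r3 : ec k = 0 := pow_eq_zero_iff two_ne_zero |>.1 (by nlinarith)
    have r4 : ed k + 1 = 0 := pow_eq_zero_iff two_ne_zero |>.1 (by nlinarith)
    refine hg (Or.inr (SL2_ext ?_ ?_ ?_ ?_))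
    · rw [ea_neg_nu, ea_one]; linarith
    · rw [eb_neg_nu, eb_one]; linarith
    · rw [ec_neg_nu, ec_one]; linarith
    · rw [ed_neg_nu, ed_one]; linarith

theorem cosh_ge_nu (g : SL2) (z : ℍ) : |tr g| ^ 2 - 2 ≤ 2 * Real.cosh (dist z (g • z)) := by
  obtain ⟨s, k, h1, h2, -⟩ := exists_conj_nu g z
  rw [h2, ← h1, tr_conj_nu, mul_smul, mul_smul, inv_smul_smul, dist_smul, cosh_I_nu, sq_abs, tr]
  nlinarith [sq_nonneg (eb k - ec k), det_eq k]

theorem nu_dist {g : SL2} {z : ℍ} (h : nu g z ≤ 1) : dist z (g • z) ≤ 2 := by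
  have h1 := cosh_ge_nu g z
  have h2 := le_cosh (dist z (g • z))
  have h3 := abs_nonneg (tr g)
  rw [nu] at h
  have h4 : |tr g| ≤ 5 / 2 := by nlinarith
  refine (pow_le_pow_iff_left₀ dist_nonneg zero_le_two two_ne_zero).1 ?_
  linarith

theorem nu_unbdd {g : SL2} (hg : ¬pm g) (M : ℝ) : ∃ z : ℍ, M ≤ nu g z :=
  nu_unbdd_nu hg M

theorem nu_lower {g : SL2} (hg : |tr g| ≠ 2) : ∃ δ : ℝ, 0 < δ ∧ ∀ z : ℍ, δ ≤ nu g z := by
  rcases lt_or_gt_of_ne hg with h | h
  · refine ⟨4 - 2 * |tr g|, by linarith, fun z => ?_⟩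
    have := Real.one_le_cosh (dist z (g • z))
    rw [nu]
    linarith
  · refine ⟨|tr g| * (|tr g| - 2), mul_pos (by linarith) (by linarith), fun z => ?_⟩
    have := cosh_ge_nu g z
    rw [nu]
    linarith

theorem TT_smul (β : ℝ) (z : ℍ) : TT β • z = β +ᵥ z := by
  apply UpperHalfPlane.ext
  rw [coe_act, coe_vadd, TT, ea_mkG, eb_mkG, ec_mkG, ed_mkG]
  push_cast
  ring

theorem TT_add (α β : ℝ) : TT (α + β) = TT α * TT β := by
  apply SL2_ext <;> simp [TT, add_comm]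

theorem nu_TT (β : ℝ) (z : ℍ) : nu (TT β) z = β ^ 2 / z.im ^ 2 := by
  rw [formula_nu, tr, TT, ea_mkG, eb_mkG, ec_mkG, ed_mkG, abs_of_pos (by norm_num)]
  ring

end Pool.Agent.Lib.MP_a52643_an.H6C
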