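import Pool.Agent.Lib.MP_a52643_an.H53C1b
import Pool.Agent.Lib.MP_a52643_an.H6CNu

open Complex MeasureTheory Set Filter Topology Metric
open UpperHalfPlane (ofComplex)
open scoped ComplexConjugate ContDiff ENNReal UpperHalfPlane Laplacian Real

noncomputable section

namespace Pool.Agent.Lib.MP_a52643_an.H53

variable {Γ : Type} [Group Γ] [Countable Γ] [MulAction Γ ℍ] {l : Γ → SL2} {D : Set ℍ}
  {w : ℂ → ℝ}

lemma Lm_smul_c2 (g : SL2) (c : ℂ) (v : V) : Lm g (c • v) = c • Lm g v := by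
  ext <;> simp [Lm] <;> ring

lemma Lm_neg_c2 (g : SL2) (v : V) : Lm (-g) v = (-1 : ℂ) • Lm g v := by
  ext <;> simp [Lm, H6C.ea_neg_nu, H6C.eb_neg_nu, H6C.ec_neg_nu, H6C.ed_neg_nu] <;> ring

omit [Countable Γ] in
lemma l_mul_c2 (hD : FD l D) (γ δ : Γ) : l γ * l δ = l (γ * δ) ∨ l γ * l δ = -l (γ * δ) := by
  have h : H6C.pm ((l (γ * δ))⁻¹ * (l γ * l δ)) := by
    rw [H6C.pm_iff_act]
    intro z
    rw [mul_smul, mul_smul, ← hD.act δ, ← hD.act γ, smul_smul γ δ, hD.act, inv_smul_smul]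
  rcases h with h | h
  · left
    rw [inv_mul_eq_one] at h
    exact h.symm
  · right
    rw [inv_mul_eq_iff_eq_mul] at h
    rw [h]
    simp

omit [Countable Γ] in
lemma per_inv_c2 (hD : FD l D) {k : ℤ} {u : V → ℂ} (hu : Hom k u) : IV l (Per l u) := by
  intro δ v hv
  unfold Per
  rw [← (Equiv.mulRight δ).tsum_eq fun γ : Γ => u (Lm (l γ) v)]
  congr 1
  ext γ
  rw [← Lm_mul, Equiv.coe_mulRight]
  rcases l_mul_c2 hD γ δ with h | h
  · rw [h]
  · rw [h, Lm_neg_c2, hu (-1) (by norm_num) _ (Lm_mem _ hv)]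
    simp

omit [Group Γ] [Countable Γ] [MulAction Γ ℍ] in
lemma per_hom_c2 {k : ℤ} {u : V → ℂ} (hu : Hom k u) : Hom k (Per l u) := by
  intro c hc v hv
  unfold Per
  rw [← tsum_mul_left]
  congr 1
  ext γ
  rw [Lm_smul_c2, hu c hc _ (Lm_mem _ hv)]

/-- periodisation of a test function of weight `k` -/
theorem Geo.per (h : Geo l D w) {τ : ℂ → ℂ} (hτ : Tst 1 τ) (k : ℤ) :
    ContDiffOn ℝ 1 (Per l fun v => τ (pr v) * om v ^ k) Om ∧
      IV l (Per l fun v => τ (pr v) * om v ^ k) ∧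
      Hom k (Per l fun v => τ (pr v) * om v ^ k) := by
  refine ⟨?_, per_inv_c2 h.fd (hom_test τ k), per_hom_c2 (hom_test τ k)⟩
  have hu : ContDiffOn ℝ 1 (fun v => τ (pr v) * om v ^ k) Om :=
    (hτ.cd.comp_contDiffOn contDiffOn_pr).mul (contDiffOn_om_zpow k)
  intro v hv
  obtain ⟨F, hF⟩ := H60.fin_cut h.fd (H60.compact_unf hτ.hcs hτ.sub) (ofComplex (pr v))
  have h1 : ContDiffAt ℝ 1 (fun x => ∑ γ ∈ F, τ (pr (Lm (l γ) x)) * om (Lm (l γ) x) ^ k) v :=
    ContDiffAt.sum fun γ _ =>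
      (hu.contDiffAt (isOpen_Om.mem_nhds (Lm_mem (l γ) hv))).comp v (Lm (l γ)).contDiff.contDiffAt
  refine (h1.congr_of_eventuallyEq ?_).contDiffWithinAt
  have c1 : ContinuousAt (fun x => ofComplex (pr x)) v :=
    (H60.cont_of_cut (pr_mem hv)).comp (contDiffAt_pr (n := 0) (snd_ne_zero hv)).continuousAt
  filter_upwards [c1.eventually (ball_mem_nhds _ one_pos), isOpen_Om.mem_nhds hv] with x hx hx'
  unfold Per
  refine tsum_eq_sum fun γ hγ => ?_
  have : τ (pr (Lm (l γ) x)) = 0 := by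
    by_contra h0
    refine hγ (hF _ hx γ ?_)
    rw [pr_Lm _ hx', ← h.fd.act] at h0
    exact subset_tsupport _ h0
  simp only [this, zero_mul]

variable {φ : ℕ → ℍ → ℝ} {lam : ℕ → ℝ} {Φ : ℕ → ℤ → V → ℂ}

omit [Countable Γ] in
lemma Spec.cont (hS : Spec l D φ lam Φ) (j : ℕ) : Continuous (φ j) := by
  have := (hS.sm j).continuousOn.comp_continuous UpperHalfPlane.continuous_coe
    fun z => z.im_pos
  simpa [Function.comp_def] using this

lemma Spec.on_c2 (hS : Spec l D φ lam Φ) (h : Geo l D w) (j k : ℕ) :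
    ∫ v, ((φ j (ofComplex (pr v)) * φ k (ofComplex (pr v)) : ℝ) : ℂ) ∂nuW w
      = if j = k then 1 else 0 := by
  rw [integral_complex_ofReal, h.integral_pr (F := fun z => φ j (ofComplex z) * φ k (ofComplex z))
    ((hS.sm j).continuousOn.mul (hS.sm k).continuousOn)]
  have := h.integral_D (F := fun z => φ j z * φ k z) ((hS.cont j).mul (hS.cont k))
    fun γ z => by simp only [hS.inv]
  simp only [smul_eq_mul]
  rw [← this, hS.on]
  split_ifs <;> simp

lemma step_c2 (h : Geo l D w) {lam lam' : ℝ} {Φ Ψ : ℤ → V → ℂ} (h1 : Ladder lam Φ)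
    (h2 : Ladder lam' Ψ) (i1 : ∀ n, IV l (Φ n)) (i2 : ∀ n, IV l (Ψ n)) (a : ℤ) :
    (al lam a : ℂ) * ∫ v, Φ (a + 1) v * conj (Ψ (a + 1) v) ∂nuW w
      = al lam' a * ∫ v, Φ a v * conj (Ψ a v) ∂nuW w := by
  have e := h.int_Ep (H := fun v => Φ a v * conj (Ψ (a + 1) v))
    ((h1.smooth a).mul (contDiffOn_conj' (h2.smooth (a + 1))))
    fun γ v hv => by simp only [i1 a γ v hv, i2 (a + 1) γ v hv]
  have ii : ∀ b, Integrable (fun v => Φ b v * conj (Ψ b v)) (nuW w) := fun b =>
    h.integrable ((h1.smooth b).mul (contDiffOn_conj' (h2.smooth b))).continuousOn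
  have e2 : ∫ v, Ep (fun v => Φ a v * conj (Ψ (a + 1) v)) v ∂nuW w
      = ∫ v, (I * al lam a * (Φ (a + 1) v * conj (Ψ (a + 1) v))
        - I * al lam' a * (Φ a v * conj (Ψ a v))) ∂nuW w := by
    refine integral_congr_ae (h.ae_Om.mono fun v hv => ?_)
    simp only
    rw [Ep_mul (diffAt_of_Om (h1.smooth a) one_ne_zero hv)
      (differentiableAt_conj' (diffAt_of_Om (h2.smooth (a + 1)) one_ne_zero hv)), Ep_conj,
      h1.up a v hv, h2.down a v hv]
    simp only [map_mul, conj_I, conj_ofReal]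
    ring
  rw [e2, integral_sub ((ii _).const_mul _) ((ii _).const_mul _), integral_const_mul,
    integral_const_mul] at e
  refine mul_left_cancel₀ I_ne_zero ?_
  linear_combination e

theorem Spec.ol (hS : Spec l D φ lam Φ) (h : Geo l D w) : OL l w lam Φ := by
  refine ⟨hS.lad, hS.linv, hS.mono, hS.tend, fun j k hj hk a b => ?_⟩
  by_cases hab : a = b
  swap
  · rw [if_neg fun e => hab e.2]
    exact h.hom_zero (k := a + -b) (by omega)
      (((hS.lad j).smooth a).mul (contDiffOn_conj' ((hS.lad k).smooth b))).continuousOn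
      (((hS.lad j).hom a).mul ((hS.lad k).hom b).conj)
  subst hab
  simp only [and_true]
  have key : ∀ a : ℤ, (∫ v, Φ j (a + 1) v * conj (Φ k (a + 1) v) ∂nuW w
      = if j = k then 1 else 0) ↔ (∫ v, Φ j a v * conj (Φ k a v) ∂nuW w
      = if j = k then 1 else 0) := by
    intro a
    have e := step_c2 h (hS.lad j) (hS.lad k) (hS.linv j) (hS.linv k) a
    have p1 : (al (lam j) a : ℂ) ≠ 0 := by exact_mod_cast (al_pos hj a).ne'
    have p2 : (al (lam k) a : ℂ) ≠ 0 := by exact_mod_cast (al_pos hk a).ne'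
    by_cases hjk : j = k
    · subst hjk
      rw [mul_left_cancel₀ p1 e]
    · simp only [if_neg hjk]
      constructor
      · intro h0
        rw [h0, mul_zero] at e
        exact (mul_eq_zero.1 e.symm).resolve_left p2
      · intro h0
        rw [h0, mul_zero] at e
        exact (mul_eq_zero.1 e).resolve_left p1
  induction a using Int.induction_on with
  | zero =>
    rw [← hS.on_c2 h j k]
    refine integral_congr_ae (h.ae_Om.mono fun v hv => ?_)
    have e : ∀ i, 0 < lam i → Φ i 0 v = φ i (ofComplex (pr v)) := fun i hi => by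
      rw [(hS.lad i).eq_ph 0 hv, zpow_zero, one_mul, ← hS.zero i hi,
        H60.coe_of_cut (pr_mem hv)]
    simp only [e j hj, e k hk, conj_ofReal, ofReal_mul]
  | succ n ih => exact (key n).2 ih
  | pred n ih => exact (key (-n - 1)).1 (by simpa using ih)

theorem Spec.nonneg (hS : Spec l D φ lam Φ) (h : Geo l D w) (k : ℕ) : 0 ≤ lam k := by
  set f : V → ℂ := fun v => (φ k (ofComplex (pr v)) : ℂ) with hf
  have c2 : ContDiffOn ℝ 2 f Om :=
    ofRealCLM.contDiff.comp_contDiffOn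
      (((hS.sm k).of_le two_le_infty).comp contDiffOn_pr fun v hv => pr_mem hv)
  have c1 : ContDiffOn ℝ 1 f Om := c2.of_le (by norm_num)
  have ce : ContDiffOn ℝ 1 (Ep f) Om := contDiffOn_Ep (n := 1) c2
  have i1 : IV l f := fun γ v hv => by
    simp only [hf]
    rw [pr_Lm _ hv, UpperHalfPlane.ofComplex_apply, ← h.fd.act, hS.inv]
  have e := h.int_Em (H := fun v => f v * Ep f v) (c1.mul ce)
    fun γ v hv => by simp only [i1 γ v hv, i1.ep c1 γ v hv]
  have e2 : ∫ v, Em (fun v => f v * Ep f v) v ∂nuW w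
      = ∫ v, (((‖Ep f v‖ ^ 2 : ℝ) : ℂ) - lam k *
        ((φ k (ofComplex (pr v)) * φ k (ofComplex (pr v)) : ℝ) : ℂ)) ∂nuW w := by
    refine integral_congr_ae (h.ae_Om.mono fun v hv => ?_)
    have a1 : Em f v = conj (Ep f v) := by
      rw [← Em_conj]
      simp only [hf, conj_ofReal]
    have a2 := Em_Ep_comp_pr (φ := fun z => φ k (ofComplex z)) ((hS.sm k).of_le two_le_infty) hv
    rw [hS.eig k _ (pr_mem hv)] at a2
    simp only
    rw [Em_mul (diffAt_of_Om c1 one_ne_zero hv) (diffAt_of_Om ce one_ne_zero hv), a1, a2,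
      ← normSq_eq_conj_mul_self, normSq_eq_norm_sq]
    simp only [hf]
    push_cast
    ring
  have j1 : Integrable (fun v => ((‖Ep f v‖ ^ 2 : ℝ) : ℂ)) (nuW w) :=
    h.integrable (continuous_ofReal.comp_continuousOn (ce.continuousOn.norm.pow 2))
  have j2 : Integrable (fun v =>
      ((φ k (ofComplex (pr v)) * φ k (ofComplex (pr v)) : ℝ) : ℂ)) (nuW w) := by
    have := h.integrable (c1.mul c1).continuousOn
    simpa only [hf, ofReal_mul] using this
  rw [e2, integral_sub j1 (j2.const_mul _), integral_const_mul, hS.on_c2 h k k, if_pos rfl,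
    integral_complex_ofReal, mul_one, sub_eq_zero] at e
  have e3 : ∫ v, ‖Ep f v‖ ^ 2 ∂nuW w = lam k := by exact_mod_cast e
  rw [← e3]
  exact integral_nonneg fun v => by positivity

end Pool.Agent.Lib.MP_a52643_an.H53
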