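import Pool.Agent.Lib.MP_a52643_an.H53C1

open Complex MeasureTheory Set Filter Topology Metric
open UpperHalfPlane (ofComplex)
open scoped ComplexConjugate ContDiff ENNReal UpperHalfPlane Laplacian Real

noncomputable section

namespace Pool.Agent.Lib.MP_a52643_an.H53

variable {Γ : Type} [Group Γ] [Countable Γ] [MulAction Γ ℍ] {l : Γ → SL2} {D : Set ℍ}
  {w : ℂ → ℝ}

lemma sum_sq_c3 (n : ℕ) (M : ℝ) : ∑ a ∈ Finset.Icc (-(n : ℤ)) n, (M - |(a : ℝ)|) ^ 2 =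
    (2 * n + 1) * M ^ 2 - 2 * M * n * (n + 1) + n * (n + 1) * (2 * n + 1) / 3 := by
  induction n with
  | zero => simp
  | succ n ih =>
    have e : Finset.Icc (-((n + 1 : ℕ) : ℤ)) ((n + 1 : ℕ) : ℤ) =
        insert ((n : ℤ) + 1) (insert (-((n : ℤ) + 1)) (Finset.Icc (-(n : ℤ)) n)) := by
      ext a
      simp only [Finset.mem_Icc, Finset.mem_insert]
      omega
    rw [e, Finset.sum_insert (by simp only [Finset.mem_Icc, Finset.mem_insert]; omega),
      Finset.sum_insert (by simp only [Finset.mem_Icc]; omega), ih]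
    have h : |(n : ℝ) + 1| = n + 1 := abs_of_nonneg (by positivity)
    push_cast
    rw [abs_neg, h]
    ring

theorem exists_tent {N : ℕ} (hN : 1 ≤ N) : ∃ χ, Tent N χ := by
  have hN' : (1 : ℝ) ≤ N := by exact_mod_cast hN
  set S : ℝ := N * (2 * N ^ 2 + 1) / 3 with hS
  have hS0 : 0 < S := by positivity
  have hz : ∀ a : ℤ, (N : ℤ) ≤ |a| → max ((N : ℝ) - |(a : ℝ)|) 0 = 0 := fun a ha =>
    max_eq_right (sub_nonpos.2 (by exact_mod_cast ha))
  refine ⟨fun a => max ((N : ℝ) - |(a : ℝ)|) 0 / √S, fun a ha => by rw [hz a ha, zero_div], ?_, ?_⟩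
  · simp only [div_pow, Real.sq_sqrt hS0.le]
    rw [← Finset.sum_div, div_eq_one_iff_eq hS0.ne']
    have h : ∀ a ∈ Finset.Icc (-(N : ℤ)) N,
        max ((N : ℝ) - |(a : ℝ)|) 0 ^ 2 = ((N : ℝ) - |(a : ℝ)|) ^ 2 := fun a ha => by
      have h1 : |a| ≤ (N : ℤ) := abs_le.2 (Finset.mem_Icc.1 ha)
      rw [max_eq_left (sub_nonneg.2 (by exact_mod_cast h1))]
    rw [Finset.sum_congr rfl h, sum_sq_c3, hS]
    ring
  · simp only [← sub_div, div_pow, Real.sq_sqrt hS0.le]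
    rw [← Finset.sum_div, div_le_div_iff₀ hS0 (by positivity)]
    have h1 : ∑ a ∈ Finset.Icc (-(N : ℤ) - 1) N,
        (max ((N : ℝ) - |((a + 1 : ℤ) : ℝ)|) 0 - max ((N : ℝ) - |(a : ℝ)|) 0) ^ 2 ≤ 2 * N := by
      rw [← Finset.sum_subset (s₁ := Finset.Icc (-(N : ℤ)) (N - 1))
        (Finset.Icc_subset_Icc (by omega) (by omega))]
      · refine (Finset.sum_le_card_nsmul _ _ 1 fun a _ => ?_).trans ?_
        · rw [sq_le_one_iff_abs_le_one]
          refine (abs_max_sub_max_le_abs _ _ _).trans ?_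
          have h2 := abs_abs_sub_abs_le_abs_sub (a : ℝ) ((a + 1 : ℤ) : ℝ)
          have h3 : (a : ℝ) - ((a + 1 : ℤ) : ℝ) = -1 := by push_cast; ring
          rw [h3, abs_neg, abs_one] at h2
          rwa [sub_sub_sub_cancel_left]
        · rw [Int.card_Icc, nsmul_eq_mul, mul_one]
          have h4 : ((N : ℤ) - 1 + 1 - -(N : ℤ)).toNat = 2 * N := by omega
          rw [h4]
          push_cast
          exact le_rfl
      · intro a ha ha'
        simp only [Finset.mem_Icc] at ha ha'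
        rw [hz _ (le_abs.2 (by omega)), hz _ (le_abs.2 (by omega))]
        simp
    calc _ ≤ 2 * N * (N : ℝ) ^ 2 := mul_le_mul_of_nonneg_right h1 (by positivity)
      _ ≤ 3 * S := by rw [hS]; nlinarith

variable {lam : ℝ} {Φ : ℤ → V → ℂ} {N : ℕ} {χ : ℤ → ℝ}

omit [Group Γ] [Countable Γ] [MulAction Γ ℍ] in
lemma OL1.lift_reg (h : OL1 l w lam Φ) (N : ℕ) (χ : ℤ → ℝ) :
    ContDiffOn ℝ 1 (lift N χ Φ) Om ∧ IV l (lift N χ Φ) ∧ PH (lift N χ Φ) := by
  refine ⟨ContDiffOn.sum fun a _ => contDiffOn_const.mul (h.lad.smooth a), fun γ v hv => ?_,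
    fun c hc v hv => ?_⟩
  · exact Finset.sum_congr rfl fun a _ => by rw [h.linv a γ v hv]
  · exact Finset.sum_congr rfl fun a _ => by rw [ph_of_hom (h.lad.hom a) c hc v hv]

lemma OL1.norm_c3 (h : OL1 l w lam Φ) (hG : Geo l D w) (s : Finset ℤ) (x : ℤ → ℂ) :
    ∫ v, ‖∑ i ∈ s, x i * Φ i v‖ ^ 2 ∂nuW w = ∑ i ∈ s, ‖x i‖ ^ 2 :=
  ONF.norm_sum hG (fun a _ b _ => h.orth a b) (fun a _ => (h.lad.smooth a).continuousOn) x

lemma OL1.lift_norm (h : OL1 l w lam Φ) (hG : Geo l D w) (hχ : Tent N χ) :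
    ∫ x, ‖lift N χ Φ x‖ ^ 2 ∂nuW w = 1 := by
  have h1 := h.norm_c3 hG (Finset.Icc (-(N : ℤ)) N) fun a => (χ a : ℂ)
  simp only [Complex.norm_real, Real.norm_eq_abs, sq_abs] at h1
  rw [← hχ.sq, ← h1]
  rfl

lemma shift_c3 {M : Type} [AddCommMonoid M] {g : ℤ → M} (hg : ∀ a, (N : ℤ) ≤ |a| → g a = 0)
    {e : ℤ} (he : |e| ≤ 1) :
    ∑ a ∈ Finset.Icc (-(N : ℤ) - 1) (N + 1), g (a + e) = ∑ a ∈ Finset.Icc (-(N : ℤ)) N, g a := by
  have he' := abs_le.1 he
  rw [Finset.sum_equiv (Equiv.addRight e) (t := Finset.Icc (-(N : ℤ) - 1 + e) (N + 1 + e))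
    (f := fun a => g (a + e)) (g := g) (fun a => by simp only [Finset.mem_Icc, Equiv.coe_addRight]; omega) fun _ _ => rfl]
  refine (Finset.sum_subset (Finset.Icc_subset_Icc (by omega) (by omega)) fun a _ ha => ?_).symm
  simp only [Finset.mem_Icc] at ha
  exact hg a (le_abs.2 (by omega))

lemma dif_c3 (hχ : Tent N χ) {e : ℤ} (he : e = 1 ∨ e = -1) :
    ∑ a ∈ Finset.Icc (-(N : ℤ) - 1) (N + 1), (χ (a + e) - χ a) ^ 2 ≤ 3 / (N : ℝ) ^ 2 := by
  refine le_of_eq_of_le ?_ hχ.dif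
  rcases he with rfl | rfl
  · refine (Finset.sum_subset (Finset.Icc_subset_Icc le_rfl (by omega)) fun a ha ha' => ?_).symm
    simp only [Finset.mem_Icc] at ha ha'
    rw [hχ.zero _ (le_abs.2 (by omega)), hχ.zero _ (le_abs.2 (by omega))]
    simp
  · rw [Finset.sum_equiv (Equiv.addRight (-1)) (t := Finset.Icc (-(N : ℤ) - 2) N)
      (g := fun a => (χ (a + 1) - χ a) ^ 2)
      (fun a => by simp only [Finset.mem_Icc, Equiv.coe_addRight]; omega) fun a _ => by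
        simp only [Equiv.coe_addRight, neg_add_cancel_right]
        ring]
    refine (Finset.sum_subset (Finset.Icc_subset_Icc (by omega) le_rfl) fun a ha ha' => ?_).symm
    simp only [Finset.mem_Icc] at ha ha'
    rw [hχ.zero _ (le_abs.2 (by omega)), hχ.zero _ (le_abs.2 (by omega))]
    simp

lemma coef_c3 (hχ : Tent N χ) {T : ℝ} {β : ℤ → ℝ}
    (hβ : ∀ b : ℤ, |b| < N → |β b - T| ≤ 3 * (T / N)) {e : ℤ} (he : e = 1 ∨ e = -1) :
    ∑ a ∈ Finset.Icc (-(N : ℤ) - 1) (N + 1),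
      ‖I * ((β (a + e) * χ (a + e) - T * χ a : ℝ) : ℂ)‖ ^ 2 ≤ 100 * (T / N) ^ 2 := by
  have he1 : |e| ≤ 1 := by rcases he with rfl | rfl <;> simp
  have h1 : ∀ b : ℤ, ((β b - T) * χ b) ^ 2 ≤ 9 * (T / N) ^ 2 * χ b ^ 2 := fun b => by
    rcases lt_or_ge |b| (N : ℤ) with hb | hb
    · rw [mul_pow]
      refine mul_le_mul_of_nonneg_right ?_ (sq_nonneg _)
      have h2 := pow_le_pow_left₀ (abs_nonneg _) (hβ b hb) 2
      rw [sq_abs] at h2
      linarith [h2, mul_pow 3 (T / N) 2]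
    · simp [hχ.zero b hb]
  have h2 : ∑ a ∈ Finset.Icc (-(N : ℤ) - 1) (N + 1), χ (a + e) ^ 2 = 1 := by
    rw [shift_c3 (g := fun a => χ a ^ 2) (fun a ha => by simp [hχ.zero a ha]) he1, hχ.sq]
  calc _ ≤ ∑ a ∈ Finset.Icc (-(N : ℤ) - 1) (N + 1),
        (18 * (T / N) ^ 2 * χ (a + e) ^ 2 + 2 * T ^ 2 * (χ (a + e) - χ a) ^ 2) := by
        refine Finset.sum_le_sum fun a _ => ?_
        rw [norm_mul, norm_I, one_mul, Complex.norm_real, Real.norm_eq_abs, sq_abs]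
        nlinarith [h1 (a + e), sq_nonneg ((β (a + e) - T) * χ (a + e) - T * (χ (a + e) - χ a))]
    _ ≤ 18 * (T / N) ^ 2 * 1 + 2 * T ^ 2 * (3 / (N : ℝ) ^ 2) := by
        rw [Finset.sum_add_distrib, ← Finset.mul_sum, ← Finset.mul_sum, h2]
        have := mul_le_mul_of_nonneg_left (dif_c3 hχ he) (by positivity : 0 ≤ 2 * T ^ 2)
        linarith
    _ = 24 * (T / N) ^ 2 := by ring
    _ ≤ _ := by nlinarith [sq_nonneg (T / N)]

lemma al_c3 (hl : 0 < lam) (hN : 2 ≤ N) {T : ℝ} (hT : (N : ℝ) ^ 2 ≤ T) (ht : |√lam - T| ≤ T / N)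
    {b : ℤ} (h1 : -(N : ℤ) ≤ b) (h2 : b < N) : |al lam b - T| ≤ 3 * (T / N) := by
  have hN' : (2 : ℝ) ≤ N := by exact_mod_cast hN
  have hT0 : 0 < T := by nlinarith
  have e0 : al lam 0 = √lam := by simp [al]
  have h3 := abs_al_sub_le hl b 0
  rw [e0] at h3
  have h4 : T / N ≤ T / 2 := div_le_div_of_nonneg_left hT0.le two_pos hN'
  have h5 : T / 2 ≤ √lam := by linarith [(abs_le.1 ht).1]
  have h6 : |(b : ℝ) * (b + 1) - ((0 : ℤ) : ℝ) * (((0 : ℤ) : ℝ) + 1)| ≤ T := by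
    have b1 : -(N : ℝ) ≤ b := by exact_mod_cast h1
    have b2 : (b : ℝ) + 1 ≤ N := by exact_mod_cast h2
    rw [Int.cast_zero, zero_mul, sub_zero, abs_of_nonneg (int_mul_succ_nonneg b)]
    nlinarith
  have h7 : |al lam b - √lam| ≤ 2 := by
    refine h3.trans ?_
    rw [div_le_iff₀ (by linarith)]
    linarith
  have h8 : 1 ≤ T / N := by
    rw [le_div_iff₀ (by linarith)]
    nlinarith
  linarith [abs_sub_le (al lam b) (√lam) T]

lemma fderiv_lift_c3 (h : Ladder lam Φ) (N : ℕ) (χ : ℤ → ℝ) {x : V} (hx : x ∈ Om) (y : V) :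
    fderiv ℝ (lift N χ Φ) x y = ∑ a ∈ Finset.Icc (-(N : ℤ)) N, χ a * fderiv ℝ (Φ a) x y := by
  have h1 : HasFDerivAt (lift N χ Φ)
      (∑ a ∈ Finset.Icc (-(N : ℤ)) N, (χ a : ℂ) • fderiv ℝ (Φ a) x) x :=
    HasFDerivAt.fun_sum fun a _ =>
      (diffAt_of_Om (h.smooth a) one_ne_zero hx).hasFDerivAt.const_mul (χ a : ℂ)
  rw [h1.fderiv]
  simp

lemma Ep_lift_c3 (h : Ladder lam Φ) (N : ℕ) (χ : ℤ → ℝ) {x : V} (hx : x ∈ Om) :
    Ep (lift N χ Φ) x = ∑ a ∈ Finset.Icc (-(N : ℤ)) N, χ a * Ep (Φ a) x := by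
  simp only [Ep, wp, fderiv_lift_c3 h N χ hx, Finset.mul_sum, ← Finset.sum_sub_distrib,
    Finset.sum_div, ← Finset.sum_neg_distrib]
  exact Finset.sum_congr rfl fun a _ => by ring

lemma Em_lift_c3 (h : Ladder lam Φ) (N : ℕ) (χ : ℤ → ℝ) {x : V} (hx : x ∈ Om) :
    Em (lift N χ Φ) x = ∑ a ∈ Finset.Icc (-(N : ℤ)) N, χ a * Em (Φ a) x := by
  simp only [Em, wm, fderiv_lift_c3 h N χ hx, Finset.mul_sum, ← Finset.sum_add_distrib,
    Finset.sum_div, ← Finset.sum_neg_distrib]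
  exact Finset.sum_congr rfl fun a _ => by ring

lemma lift_wide_c3 (hχ : Tent N χ) (Φ : ℤ → V → ℂ) (x : V) :
    lift N χ Φ x = ∑ a ∈ Finset.Icc (-(N : ℤ) - 1) (N + 1), χ a * Φ a x := by
  have h := shift_c3 (N := N) (g := fun a => (χ a : ℂ) * Φ a x)
    (fun a ha => by simp [hχ.zero a ha]) (e := 0) (by simp)
  simp only [add_zero] at h
  exact h.symm

theorem OL1.isLift (h : OL1 l w lam Φ) (hG : Geo l D w) (hχ : Tent N χ) (hN : 2 ≤ N) {T : ℝ}
    (hT : (N : ℝ) ^ 2 ≤ T) (ht : |√lam - T| ≤ T / N) : Lift l w T N (lift N χ Φ) := by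
  obtain ⟨r1, r2, r3⟩ := h.lift_reg N χ
  refine ⟨r1, r2, r3, (h.lift_norm hG hχ).le, ?_, ?_, ?_⟩
  · refine le_of_eq_of_le ?_ (coef_c3 hχ (T := T) (β := al lam) (e := -1)
      (fun b hb => al_c3 h.pos hN hT ht (abs_lt.1 hb).1.le (abs_lt.1 hb).2) (Or.inr rfl))
    rw [← h.norm_c3 hG]
    refine integral_congr_ae ?_
    filter_upwards [hG.ae_Om] with x hx
    rw [Ep_lift_c3 h.lad N χ hx, ← shift_c3 (g := fun a => (χ a : ℂ) * Ep (Φ a) x)
      (fun a ha => by simp [hχ.zero a ha]) (e := -1) (by simp), lift_wide_c3 hχ, Finset.mul_sum,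
      ← Finset.sum_sub_distrib]
    congr 2
    refine Finset.sum_congr rfl fun a _ => ?_
    rw [h.lad.up _ x hx, neg_add_cancel_right]
    push_cast
    ring
  · refine le_of_eq_of_le ?_ (coef_c3 hχ (T := T) (β := fun b => al lam (b - 1)) (e := 1)
      (fun b hb => al_c3 h.pos hN hT ht (by have := abs_lt.1 hb; omega)
        (by have := abs_lt.1 hb; omega)) (Or.inl rfl))
    rw [← h.norm_c3 hG]
    refine integral_congr_ae ?_
    filter_upwards [hG.ae_Om] with x hx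
    rw [Em_lift_c3 h.lad N χ hx, ← shift_c3 (g := fun a => (χ a : ℂ) * Em (Φ a) x)
      (fun a ha => by simp [hχ.zero a ha]) (e := 1) (by simp), lift_wide_c3 hχ, Finset.mul_sum,
      ← Finset.sum_sub_distrib]
    congr 2
    refine Finset.sum_congr rfl fun a _ => ?_
    rw [h.lad.down _ x hx, add_sub_cancel_right]
    push_cast
    ring
  · have h1 : ∫ x, ‖fderiv ℝ (lift N χ Φ) x (I • x)‖ ^ 2 ∂nuW w =
        ∑ a ∈ Finset.Icc (-(N : ℤ)) N, ‖(χ a : ℂ) * (-2 * I * a)‖ ^ 2 := by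
      rw [← h.norm_c3 hG]
      refine integral_congr_ae ?_
      filter_upwards [hG.ae_Om] with x hx
      rw [fderiv_lift_c3 h.lad N χ hx]
      congr 2
      refine Finset.sum_congr rfl fun a _ => ?_
      rw [(h.lad.hom a).fderiv_I hx (diffAt_of_Om (h.lad.smooth a) one_ne_zero hx)]
      ring
    rw [h1, ← mul_one (100 * (N : ℝ) ^ 2), ← hχ.sq, Finset.mul_sum]
    refine Finset.sum_le_sum fun a ha => ?_
    have h2 : |a| ≤ (N : ℤ) := abs_le.2 (Finset.mem_Icc.1 ha)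
    have h3 : |(a : ℝ)| ≤ N := by exact_mod_cast h2
    have h4 := pow_le_pow_left₀ (abs_nonneg _) h3 2
    simp only [norm_mul, norm_neg, norm_I, Complex.norm_real, Real.norm_eq_abs, norm_intCast,
      Complex.norm_ofNat, mul_pow, sq_abs] at h4 ⊢
    nlinarith [sq_nonneg (χ a), sq_nonneg (a : ℝ), mul_le_mul_of_nonneg_left h4 (sq_nonneg (χ a))]

theorem OL.onf {lam : ℕ → ℝ} {Φ : ℕ → ℤ → V → ℂ} (h : OL l w lam Φ) (hG : Geo l D w)
    (hχ : Tent N χ) {s : Finset ℕ} (hs : ∀ j ∈ s, 0 < lam j) :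
    ONF w s fun j => lift N χ (Φ j) := by
  intro j hj k hk
  have hi : ∀ a b : ℤ, Integrable
      (fun v => ((χ a * χ b : ℝ) : ℂ) * (Φ j a v * conj (Φ k b v))) (nuW w) := fun a b =>
    (hG.integrable (((h.lad j).smooth a).continuousOn.mul
      (contDiffOn_conj' ((h.lad k).smooth b)).continuousOn)).const_mul _
  have e : ∀ v, lift N χ (Φ j) v * conj (lift N χ (Φ k) v) =
      ∑ a ∈ Finset.Icc (-(N : ℤ)) N, ∑ b ∈ Finset.Icc (-(N : ℤ)) N,
        ((χ a * χ b : ℝ) : ℂ) * (Φ j a v * conj (Φ k b v)) := fun v => by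
    simp only [lift, map_sum, map_mul, conj_ofReal, Finset.sum_mul_sum]
    refine Finset.sum_congr rfl fun a _ => Finset.sum_congr rfl fun b _ => ?_
    push_cast
    ring
  simp only [e]
  rw [integral_finsetSum _ fun a _ => integrable_finsetSum _ fun b _ => hi a b]
  simp only [integral_finsetSum _ fun b _ => hi _ b, integral_const_mul,
    h.orth j k (hs j hj) (hs k hk)]
  by_cases hjk : j = k
  · simp only [hjk, true_and, mul_ite, mul_one, mul_zero, Finset.sum_ite_eq, if_true]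
    rw [Finset.sum_congr rfl fun a ha => if_pos ha, ← ofReal_sum]
    simp only [← sq, hχ.sq, ofReal_one]
  · simp [hjk]

end Pool.Agent.Lib.MP_a52643_an.H53
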