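import Pool.Agent.Lib.MP_a52643_an.H53C1b

open Complex MeasureTheory Set Filter Topology Metric
open UpperHalfPlane (ofComplex)
open scoped ComplexConjugate ContDiff ENNReal UpperHalfPlane Laplacian Real

noncomputable section

namespace Pool.Agent.Lib.MP_a52643_an.H53

variable {Γ : Type} [Group Γ] [Countable Γ] [MulAction Γ ℍ] {l : Γ → SL2} {D : Set ℍ}
  {w : ℂ → ℝ}

lemma sq_le_c4 {f f' : ℝ → ℂ} {g : ℝ → ℝ} (hf : ∀ s ∈ Icc (0 : ℝ) 1, HasDerivAt f (f' s) s)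
    (hb : ∀ s ∈ Icc (0 : ℝ) 1, ‖f' s‖ ^ 2 ≤ g s) (hg : ContinuousOn g (Icc 0 1)) :
    ‖f 1 - f 0‖ ^ 2 ≤ ∫ s in Icc (0 : ℝ) 1, g s := by
  have hi : IntervalIntegrable g volume 0 1 := hg.intervalIntegrable_of_Icc zero_le_one
  rw [integral_Icc_eq_integral_Ioc, ← intervalIntegral.integral_of_le zero_le_one]
  have h0 : 0 ≤ ∫ s in (0 : ℝ)..1, g s :=
    intervalIntegral.integral_nonneg zero_le_one fun s hs => (sq_nonneg _).trans (hb s hs)
  set A := ‖f 1 - f 0‖ with hA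
  rcases (norm_nonneg (f 1 - f 0)).eq_or_lt with h | h
  · rw [hA, ← h]
    simpa using h0
  rw [← hA] at h
  have h1 : A ≤ ∫ s in (0 : ℝ)..1, (A / 2 + (2 * A)⁻¹ * g s) := by
    refine norm_sub_le_integral_of_norm_deriv_le_of_le zero_le_one
      (fun s hs => (hf s hs).continuousAt.continuousWithinAt)
      (fun s hs => (hf s (Ioo_subset_Icc_self hs)).differentiableAt.differentiableWithinAt)
      (Eventually.of_forall fun s hs => ?_) (intervalIntegrable_const.add (hi.const_mul _))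
    have hs' := Ioo_subset_Icc_self hs
    rw [(hf s hs').deriv]
    have h2 : A / 2 + (2 * A)⁻¹ * g s = (A ^ 2 + g s) / (2 * A) := by
      field_simp
    rw [h2, le_div_iff₀ (by positivity)]
    nlinarith [hb s hs', sq_nonneg (A - ‖f' s‖)]
  rw [intervalIntegral.integral_add intervalIntegrable_const (hi.const_mul _),
    intervalIntegral.integral_const, intervalIntegral.integral_const_mul] at h1
  have h3 : (2 * A)⁻¹ * (∫ s in (0 : ℝ)..1, g s) = (∫ s in (0 : ℝ)..1, g s) / (2 * A) := by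
    field_simp
  have h4 : A / 2 ≤ (∫ s in (0 : ℝ)..1, g s) / (2 * A) := by
    rw [← h3]
    simp only [sub_zero, smul_eq_mul, one_mul] at h1
    linarith
  rw [le_div_iff₀ (by positivity)] at h4
  nlinarith

/-- the path of group elements -/
def ms_c4 (γ : ℝ) (β : ℂ) (s : ℝ) : V := (1 + s * (I * γ), s * β)

lemma dm_ms_c4 (γ : ℝ) (β : ℂ) (s : ℝ) :
    dm (ms_c4 γ β s) = 1 - s ^ 2 * (‖β‖ ^ 2 - γ ^ 2) := by
  simp only [dm, ms_c4, ← normSq_eq_norm_sq, normSq_apply]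
  simp
  ring

lemma act_ms_c4 (γ : ℝ) (β : ℂ) (s : ℝ) (x : V) :
    act (ms_c4 γ β s) x = x + s • act (I * γ, β) x := by
  simp only [act_apply, ms_c4, add_smul, one_smul, smul_add, mul_smul, coe_smul]
  abel

lemma gm_ms_c4 (γ : ℝ) (β : ℂ) (s d : ℝ) (hd : d = 1 - s ^ 2 * (‖β‖ ^ 2 - γ ^ 2)) (h0 : d ≠ 0) :
    gm ((I * γ - s * (‖β‖ ^ 2 - γ ^ 2 : ℝ)) / d, β / d) (ms_c4 γ β s) = (I * γ, β) := by
  have h1 : (d : ℂ) ≠ 0 := ofReal_ne_zero.2 h0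
  have h2 : (d : ℂ) = 1 - s ^ 2 * (‖β‖ ^ 2 - γ ^ 2) := by
    rw [hd]
    push_cast
    ring
  have h3 : β * conj β = (‖β‖ : ℂ) ^ 2 := mul_conj' β
  simp only [gm, ms_c4, map_mul, map_add, map_one, conj_ofReal, conj_I, Prod.mk.injEq]
  push_cast
  constructor
  · field_simp
    rw [h2]
    linear_combination (s : ℂ) * h3 + (s : ℂ) * γ ^ 2 * I_mul_I
  · field_simp
    rw [h2]
    ring

/-- the majorant -/
def G_c4 (T η γ : ℝ) (β : ℂ) (u : V → ℂ) (x : V) : ℝ :=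
  16 * η ^ 2 * ‖u x‖ ^ 2 + 16 * γ ^ 2 * ‖fderiv ℝ u x (I • x)‖ ^ 2
    + 16 * ‖β‖ ^ 2 * ‖Ep u x - I * T * u x‖ ^ 2 + 16 * ‖β‖ ^ 2 * ‖Em u x - I * T * u x‖ ^ 2

lemma cont_rot_c4 {u : V → ℂ} (hu : ContDiffOn ℝ 1 u Om) :
    ContinuousOn (fun x => fderiv ℝ u x (I • x)) Om :=
  (contDiffOn_fderiv_lin (n := 0) (by simpa using hu) (smulL I)).continuousOn

omit [Group Γ] [Countable Γ] [MulAction Γ ℍ] in
lemma ic_G_c4 {T N : ℝ} {u : V → ℂ} (h : Lift l w T N u) (η γ : ℝ) (β : ℂ) :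
    IC l (G_c4 T η γ β u) := by
  refine ⟨?_, fun g v hv => ?_, fun c hc v hv => ?_⟩
  · have h1 := h.cd.continuousOn
    have h2 := cont_rot_c4 h.cd
    have h3 := continuousOn_Ep h.cd
    have h4 := continuousOn_Em h.cd
    unfold G_c4
    fun_prop
  · have h2 := h.inv.rot h.cd g v hv
    simp only [G_c4, h.inv g v hv, h.inv.ep h.cd g v hv, h.inv.em h.cd g v hv] at h2 ⊢
    rw [h2]
  · have h2 := h.ph.rot h.cd c hc v hv
    simp only [G_c4, h.ph c hc v hv, h.ph.ep h.cd c hc v hv, h.ph.em h.cd c hc v hv] at h2 ⊢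
    rw [h2]

lemma int_G_c4 (hG : Geo l D w) {T N η : ℝ} {u : V → ℂ} (h : Lift l w T N u) (hN : 1 ≤ N)
    (hT : N ^ 2 ≤ T) (hη : 0 < η) {γ : ℝ} {β : ℂ} (hγ : |γ| ≤ 2 * η / N)
    (hβ : ‖β‖ ≤ 3 * η * N / T) : ∫ x, G_c4 T η γ β u x ∂nuW w ≤ 10 ^ 5 * η ^ 2 := by
  have h1 := h.cd.continuousOn
  have h2 := cont_rot_c4 h.cd
  have h3 := continuousOn_Ep h.cd
  have h4 := continuousOn_Em h.cd
  have hN0 : 0 < N := by linarith
  have hT0 : 0 < T := lt_of_lt_of_le (by positivity) hT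
  unfold G_c4
  rw [integral_add (hG.integrable (by fun_prop)) (hG.integrable (by fun_prop)),
    integral_add (hG.integrable (by fun_prop)) (hG.integrable (by fun_prop)),
    integral_add (hG.integrable (by fun_prop)) (hG.integrable (by fun_prop)),
    integral_const_mul, integral_const_mul, integral_const_mul, integral_const_mul]
  have e1 : γ ^ 2 * N ^ 2 ≤ 4 * η ^ 2 := by
    have h5 : |γ| * N ≤ 2 * η := (le_div_iff₀ hN0).1 hγ
    have h6 := pow_le_pow_left₀ (by positivity) h5 2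
    rw [mul_pow, sq_abs] at h6
    linarith
  have e2 : ‖β‖ ^ 2 * (T / N) ^ 2 ≤ 9 * η ^ 2 := by
    have h5 : ‖β‖ * (T / N) ≤ 3 * η := by
      rw [← mul_div_assoc, div_le_iff₀ hN0]
      exact (le_div_iff₀ hT0).1 hβ
    have h6 := pow_le_pow_left₀ (by positivity) h5 2
    rw [mul_pow] at h6
    linarith
  have a0 := mul_le_mul_of_nonneg_left h.n0 (by positivity : 0 ≤ 16 * η ^ 2)
  have a1 := mul_le_mul_of_nonneg_left h.rot (by positivity : 0 ≤ 16 * γ ^ 2)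
  have a2 := mul_le_mul_of_nonneg_left h.ep (by positivity : 0 ≤ 16 * ‖β‖ ^ 2)
  have a3 := mul_le_mul_of_nonneg_left h.em (by positivity : 0 ≤ 16 * ‖β‖ ^ 2)
  nlinarith [sq_nonneg η]

lemma del_c4 {T N η γ : ℝ} {β : ℂ} (hN : 1 ≤ N) (hT : N ^ 2 ≤ T)
    (hγ : |γ| ≤ 2 * η / N) (hβ : ‖β‖ ≤ 3 * η * N / T) :
    |‖β‖ ^ 2 - γ ^ 2| * N ≤ 13 * η ^ 2 := by
  have hN0 : 0 < N := by linarith
  have hT0 : 0 < T := lt_of_lt_of_le (by positivity) hT
  have h1 : |γ| * N ≤ 2 * η := (le_div_iff₀ hN0).1 hγ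
  have h2 : ‖β‖ * T ≤ 3 * η * N := (le_div_iff₀ hT0).1 hβ
  have h3 : ‖β‖ * N ≤ 3 * η := by
    have h4 : ‖β‖ * N * N ≤ 3 * η * N := by nlinarith [norm_nonneg β]
    exact le_of_mul_le_mul_right h4 hN0
  have h5 := pow_le_pow_left₀ (by positivity) h1 2
  have h6 := pow_le_pow_left₀ (by positivity) h3 2
  rw [mul_pow, sq_abs] at h5
  rw [mul_pow] at h6
  have h7 : |‖β‖ ^ 2 - γ ^ 2| ≤ ‖β‖ ^ 2 + γ ^ 2 :=
    abs_le.2 ⟨by nlinarith [sq_nonneg ‖β‖], by nlinarith [sq_nonneg γ]⟩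
  have h8 : N ≤ N ^ 2 := by nlinarith
  calc _ ≤ (‖β‖ ^ 2 + γ ^ 2) * N ^ 2 := mul_le_mul h7 h8 hN0.le (by positivity)
    _ ≤ _ := by nlinarith

lemma half_c4 {N η δ s : ℝ} (hN : 1 ≤ N) (hη : 0 < η) (hη' : η ≤ 1 / 100)
    (hδ : |δ| * N ≤ 13 * η ^ 2) (hs : s ∈ Icc (0 : ℝ) 1) : 1 / 2 ≤ 1 - s ^ 2 * δ := by
  have h1 : s ^ 2 ≤ 1 := by nlinarith [hs.1, hs.2]
  have h2 : s ^ 2 * δ ≤ |δ| := by nlinarith [le_abs_self δ, abs_nonneg δ, sq_nonneg s]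
  have h3 : η ^ 2 ≤ 1 / 100 := by nlinarith
  nlinarith [abs_nonneg δ]

lemma bound_c4 {η γ k d : ℝ} {β a R p m : ℂ} (hd : 1 / 2 ≤ d) (hk : |k| ≤ η) :
    ‖I * k * a + (γ * R - β * p - conj β * m) / d‖ ^ 2 ≤
      16 * η ^ 2 * ‖a‖ ^ 2 + 16 * γ ^ 2 * ‖R‖ ^ 2 + 16 * ‖β‖ ^ 2 * ‖p‖ ^ 2
        + 16 * ‖β‖ ^ 2 * ‖m‖ ^ 2 := by
  have h1 : ‖I * k * a‖ ≤ η * ‖a‖ := by
    rw [norm_mul, norm_mul, norm_I, one_mul, norm_real, Real.norm_eq_abs]
    exact mul_le_mul_of_nonneg_right hk (norm_nonneg _)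
  have h2 : ‖γ * R - β * p - conj β * m‖ ≤ |γ| * ‖R‖ + ‖β‖ * ‖p‖ + ‖β‖ * ‖m‖ := by
    refine (norm_sub_le _ _).trans (add_le_add ((norm_sub_le _ _).trans ?_) ?_) <;> simp
  have h3 : ‖(γ * R - β * p - conj β * m) / d‖ ≤ 2 * (|γ| * ‖R‖ + ‖β‖ * ‖p‖ + ‖β‖ * ‖m‖) := by
    rw [norm_div, norm_real, Real.norm_eq_abs, abs_of_pos (by linarith : 0 < d),
      div_le_iff₀ (by linarith)]
    nlinarith [norm_nonneg (γ * R - β * p - conj β * m)]
  have h4 := pow_le_pow_left₀ (norm_nonneg _) ((norm_add_le _ _).trans (add_le_add h1 h3)) 2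
  refine h4.trans ?_
  rw [← sq_abs γ]
  have e : ∀ x y : ℝ, 16 * x ^ 2 * y ^ 2 = 16 * (x * y) ^ 2 := fun x y => by ring
  rw [e, e, e, e]
  generalize η * ‖a‖ = A, |γ| * ‖R‖ = B, ‖β‖ * ‖p‖ = C, ‖β‖ * ‖m‖ = E
  nlinarith [sq_nonneg (A - 2 * B), sq_nonneg (A - 2 * C), sq_nonneg (A - 2 * E), sq_nonneg (B - C),
    sq_nonneg (B - E), sq_nonneg (C - E), sq_nonneg A]

lemma k_c4 {T N η δ s d : ℝ} {β : ℂ} (hN : 1 ≤ N) (hT : 0 < T) (hη : 0 < η) (hη' : η ≤ 1 / 100)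
    (hβ : ‖β‖ ≤ 3 * η * N / T) (hδ : |δ| * N ≤ 13 * η ^ 2) (hs : s ∈ Icc (0 : ℝ) 1)
    (hd : d = 1 - s ^ 2 * δ) (h2 : 1 / 2 ≤ d) : |2 * β.re * T * (1 - 1 / d)| ≤ η := by
  have h0 : 0 < d := by linarith
  have e : 2 * β.re * T * (1 - 1 / d) = -(2 * (β.re * T) * (s ^ 2 * δ)) / d := by
    field_simp
    rw [hd]
    ring
  have h3 : |β.re| * T ≤ 3 * η * N :=
    (mul_le_mul_of_nonneg_right (abs_re_le_norm β) hT.le).trans ((le_div_iff₀ hT).1 hβ)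
  have h4 : s ^ 2 ≤ 1 := by nlinarith [hs.1, hs.2]
  rw [e, abs_div, abs_neg, abs_of_pos h0, div_le_iff₀ h0, abs_mul, abs_mul, abs_mul, abs_mul,
    abs_of_pos hT, abs_two, abs_of_nonneg (sq_nonneg s)]
  have h5 : s ^ 2 * |δ| ≤ |δ| := by nlinarith [abs_nonneg δ]
  have h6 : 2 * (|β.re| * T) * (s ^ 2 * |δ|) ≤ 2 * (3 * η * N) * |δ| :=
    mul_le_mul (by linarith) h5 (by positivity) (by positivity)
  have h7 : η ^ 2 ≤ 1 / 10000 := by nlinarith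
  have h8 : η * (|δ| * N) ≤ η * (13 * η ^ 2) := mul_le_mul_of_nonneg_left hδ hη.le
  nlinarith

omit [Group Γ] [Countable Γ] [MulAction Γ ℍ] in
lemma point_c4 {T N η : ℝ} {u : V → ℂ} (h : Lift l w T N u) (hN : 1 ≤ N)
    (hT : N ^ 2 ≤ T) (hη : 0 < η) (hη' : η ≤ 1 / 100) {γ : ℝ} {β : ℂ} (hγ : |γ| ≤ 2 * η / N)
    (hβ : ‖β‖ ≤ 3 * η * N / T) {x : V} (hx : x ∈ Om) :
    ‖Complex.exp (2 * I * β.re * T) * u (act (1 + I * γ, β) x) - u x‖ ^ 2
      ≤ ∫ s in Icc (0 : ℝ) 1, G_c4 T η γ β u (act (ms_c4 γ β s) x) := by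
  have hT0 : 0 < T := lt_of_lt_of_le (by positivity) hT
  have hδ := del_c4 hN hT hγ hβ
  have hd : ∀ s ∈ Icc (0 : ℝ) 1, 1 / 2 ≤ dm (ms_c4 γ β s) := fun s hs => by
    rw [dm_ms_c4]
    exact half_c4 hN hη hη' hδ hs
  have hm : ∀ s ∈ Icc (0 : ℝ) 1, act (ms_c4 γ β s) x ∈ Om := fun s hs =>
    act_mem (by linarith [hd s hs]) hx
  have hc : Continuous fun s => act (ms_c4 γ β s) x := by
    simp only [act_ms_c4]
    fun_prop
  have key := sq_le_c4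
    (f := fun s : ℝ => Complex.exp (2 * I * β.re * T * s) * u (act (ms_c4 γ β s) x))
    (f' := fun s : ℝ => Complex.exp (2 * I * β.re * T * s) * (2 * I * β.re * T) *
      u (act (ms_c4 γ β s) x) + Complex.exp (2 * I * β.re * T * s) *
        fderiv ℝ u (act (ms_c4 γ β s) x) (act (I * γ, β) x))
    (g := fun s => G_c4 T η γ β u (act (ms_c4 γ β s) x)) (fun s hs => ?_) (fun s hs => ?_)
    ((ic_G_c4 h η γ β).cont.comp hc.continuousOn hm)
  · have e1 : ms_c4 γ β 1 = (1 + I * γ, β) := by simp [ms_c4]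
    have e0 : act (ms_c4 γ β 0) x = x := by simp [act_ms_c4]
    simpa only [e1, e0, ofReal_one, mul_one, ofReal_zero, mul_zero, Complex.exp_zero, one_mul]
      using key
  · have h1 : HasDerivAt (fun s : ℝ => act (ms_c4 γ β s) x) (act (I * γ, β) x) s := by
      simp only [act_ms_c4]
      simpa using ((hasDerivAt_id s).smul_const (act (I * γ, β) x)).const_add x
    have h2 := (diffAt_of_Om h.cd one_ne_zero (hm s hs)).hasFDerivAt.comp_hasDerivAt s h1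
    have h3 : HasDerivAt (fun s : ℝ => 2 * I * β.re * T * (s : ℂ)) (2 * I * β.re * T) s := by
      simpa using (hasDerivAt_id s).ofReal_comp.const_mul (2 * I * β.re * T)
    exact h3.cexp.mul h2
  · have h1 := hd s hs
    have h2 := dm_ms_c4 γ β s
    set d := dm (ms_c4 γ β s)
    set y := act (ms_c4 γ β s) x with hy
    have h0 : d ≠ 0 := by linarith
    have h3 : act (I * γ, β) x =
        act ((I * γ - s * (‖β‖ ^ 2 - γ ^ 2 : ℝ)) / d, β / d) y := by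
      rw [hy, act_act, gm_ms_c4 γ β s d h2 h0]
    have h4 : ((I * γ - s * (‖β‖ ^ 2 - γ ^ 2 : ℝ)) / (d : ℂ)).im = γ / d := by
      rw [div_ofReal_im, ← ofReal_mul]
      simp only [sub_im, mul_im, I_re, I_im, ofReal_re, ofReal_im, mul_zero, one_mul, zero_add,
        sub_zero]
    have h5 : (d : ℂ) ≠ 0 := ofReal_ne_zero.2 h0
    have h6 : (β.re : ℂ) = (β + conj β) / 2 := re_eq_add_conj β
    have h7 : Complex.exp (2 * I * β.re * T * s) * (2 * I * β.re * T) * u y +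
        Complex.exp (2 * I * β.re * T * s) * fderiv ℝ u y (act (I * γ, β) x) =
        Complex.exp (2 * I * β.re * T * s) * (I * (2 * β.re * T * (1 - 1 / d) : ℝ) * u y +
          (γ * fderiv ℝ u y (I • y) - β * (Ep u y - I * T * u y)
            - conj β * (Em u y - I * T * u y)) / d) := by
      rw [h3, fderiv_act h.ph (hm s hs) (diffAt_of_Om h.cd one_ne_zero (hm s hs))]
      simp only [h4, map_div₀, conj_ofReal]
      push_cast
      rw [h6]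
      field_simp
      ring
    have h8 : ‖Complex.exp (2 * I * β.re * T * s)‖ = 1 := by
      have e : 2 * I * β.re * T * s = ((2 * β.re * T * s : ℝ) : ℂ) * I := by
        push_cast
        ring
      rw [e, norm_exp_ofReal_mul_I]
    rw [h7, norm_mul, h8, one_mul]
    exact bound_c4 h1 (k_c4 hN hT0 hη hη' hβ hδ hs h2 h1)

/-- a lift hardly moves, up to a phase, under small elements -/
theorem Lift.path (hG : Geo l D w) {T N η : ℝ} {u : V → ℂ} (h : Lift l w T N u) (hN : 1 ≤ N)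
    (hT : N ^ 2 ≤ T) (hη : 0 < η) (hη' : η ≤ 1 / 100) {γ : ℝ} {β : ℂ} (hγ : |γ| ≤ 2 * η / N)
    (hβ : ‖β‖ ≤ 3 * η * N / T) :
    ∫ x, ‖Complex.exp (2 * I * β.re * T) * u (act (1 + I * γ, β) x) - u x‖ ^ 2 ∂nuW w
      ≤ 10 ^ 5 * η ^ 2 := by
  have := hG.fin
  have hI := ic_G_c4 h η γ β
  have hd : ∀ s ∈ Icc (0 : ℝ) 1, 0 < dm (ms_c4 γ β s) := fun s hs => by
    rw [dm_ms_c4]
    linarith [half_c4 hN hη hη' (del_c4 hN hT hγ hβ) hs]
  have hc : Continuous fun p : ℝ × V => act (ms_c4 γ β p.1) p.2 := by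
    simp only [act_ms_c4]
    fun_prop
  have hi := hG.integrable_prod volume (isCompact_Icc (a := (0 : ℝ)) (b := 1))
    (f := fun p : ℝ × V => G_c4 T η γ β u (act (ms_c4 γ β p.1) p.2))
    (hI.cont.comp hc.continuousOn fun p hp => act_mem (hd _ hp.1) hp.2)
  calc _ ≤ ∫ x, (∫ s in Icc (0 : ℝ) 1, G_c4 T η γ β u (act (ms_c4 γ β s) x)) ∂nuW w :=
        integral_mono_of_nonneg (Eventually.of_forall fun _ => sq_nonneg _) hi.integral_prod_right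
          (hG.ae_Om.mono fun x hx => point_c4 h hN hT hη hη' hγ hβ hx)
    _ = ∫ s in Icc (0 : ℝ) 1, ∫ x, G_c4 T η γ β u (act (ms_c4 γ β s) x) ∂nuW w :=
        (integral_integral_swap (f := fun s x => G_c4 T η γ β u (act (ms_c4 γ β s) x)) hi).symm
    _ = ∫ _ in Icc (0 : ℝ) 1, ∫ x, G_c4 T η γ β u x ∂nuW w :=
        setIntegral_congr_fun measurableSet_Icc fun s hs => hG.transport_real hI (hd s hs)
    _ ≤ _ := by simpa using int_G_c4 hG h hN hT hη hγ hβ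

end Pool.Agent.Lib.MP_a52643_an.H53
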