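import Pool.Agent.Lib.MP_a52643_an.H53C0

open Complex MeasureTheory Set Filter Topology Metric
open UpperHalfPlane (ofComplex)
open scoped ComplexConjugate ContDiff ENNReal UpperHalfPlane Laplacian Real

noncomputable section

namespace Pool.Agent.Lib.MP_a52643_an.H53

lemma rho_lb_c4a : ∃ c : ℝ, 0 < c ∧ ∀ t ∈ Icc (5 / 4 : ℝ) (7 / 4), c ≤ rho t := by
  obtain ⟨t, ht, h⟩ := (isCompact_Icc (a := (5 / 4 : ℝ)) (b := 7 / 4)).exists_isMinOn
    (nonempty_Icc.2 (by norm_num)) continuous_rho.continuousOn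
  refine ⟨rho t, div_pos (mul_pos ?_ ?_) cRho_pos, fun s hs => h hs⟩ <;>
    exact expNegInvGlue.pos_of_pos (by linarith [ht.1, ht.2])

lemma act_inj_c4a {x : V} (hx : x ∈ Om) : Function.Injective fun m : V => act m x := by
  intro m n h
  have h0 : (dt x : ℂ) ≠ 0 := ofReal_ne_zero.2 (ne_of_gt hx)
  have h1 : m.1 * x.1 + m.2 * conj x.1 = n.1 * x.1 + n.2 * conj x.1 := by
    simpa [act_apply] using congrArg Prod.fst h
  have h2 : m.1 * x.2 + m.2 * conj x.2 = n.1 * x.2 + n.2 * conj x.2 := by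
    simpa [act_apply] using congrArg Prod.snd h
  have h3 : x.1 * conj x.2 - conj x.1 * x.2 = 2 * dt x * I := by
    apply Complex.ext
    · simp
    · simp [dt_eq]
      ring
  have h4 : (2 * dt x * I : ℂ) ≠ 0 := mul_ne_zero (mul_ne_zero two_ne_zero h0) I_ne_zero
  refine Prod.ext (mul_right_cancel₀ h4 ?_) (mul_right_cancel₀ h4 ?_) <;> rw [← h3]
  · linear_combination conj x.2 * h1 - conj x.1 * h2
  · linear_combination x.1 * h2 - x.2 * h1

lemma ball_c4a {m : V} (hm : m ∈ closedBall ((1, 0) : V) (1 / 15)) :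
    ‖m.1‖ + ‖m.2‖ ≤ 3 / 2 ∧ 5 / 6 ≤ dm m ∧ dm m ≤ 7 / 6 := by
  rw [mem_closedBall, Prod.dist_eq, max_le_iff, dist_eq_norm, dist_zero_right] at hm
  have h1 := abs_le.1 ((abs_norm_sub_norm_le m.1 1).trans hm.1)
  rw [norm_one] at h1
  have h2 := norm_nonneg m.2
  rw [dm, normSq_eq_norm_sq, normSq_eq_norm_sq]
  refine ⟨by linarith [h1.2, hm.2], by nlinarith [h1.1, hm.2], by nlinarith [h1.1, h1.2, hm.2]⟩

lemma norm_act_c4a (m x : V) : ‖act m x‖ ≤ (‖m.1‖ + ‖m.2‖) * ‖x‖ := by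
  have h : ‖cj x‖ = ‖x‖ := by simp [Prod.norm_def]
  rw [act_apply, add_mul]
  refine (norm_add_le _ _).trans (le_of_eq ?_)
  rw [norm_smul, norm_smul, h]

lemma scale_c4a {x : V} (hx : x ∈ cslab) : ∃ c : ℝ, 0 < c ∧ c ≤ 2 ∧ dt (c • x) = 3 / 2 := by
  have h1 : 1 ≤ dt x := hx.1
  refine ⟨√(3 / 2 / dt x), by positivity, Real.sqrt_le_iff.2 ⟨by norm_num, ?_⟩, ?_⟩
  · rw [div_le_iff₀ (by linarith)]
    linarith
  · rw [← Complex.coe_smul, dt_smul, normSq_ofReal, Real.mul_self_sqrt (by positivity)]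
    field_simp

/-- the orbit of a neighbourhood of the identity -/
theorem kernel_le (R0 : ℝ) : ∃ R C : ℝ, 0 ≤ C ∧ ∀ x ∈ KB R0, ∀ H : V → ℝ, ContinuousOn H Om →
    PH H → (∀ v, 0 ≤ H v) →
    ∫ m in closedBall ((1, 0) : V) (1 / 15), H (act m x) ≤ C * ∫ v in KB R, H v ∂mV := by
  obtain ⟨c0, hc0, hrho⟩ := rho_lb_c4a
  refine ⟨3 * R0, 9⁻¹ * c0⁻¹, by positivity, fun x hx H hH hp h0 => ?_⟩
  obtain ⟨c, hc, hc2, hd⟩ := scale_c4a hx.2
  have hxO : x ∈ Om := KB_subset_Om _ hx
  have hyO : c • x ∈ Om := by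
    change 0 < dt (c • x)
    rw [hd]
    norm_num
  have hn : ‖c • x‖ ≤ 2 * R0 := by
    rw [norm_smul, Real.norm_of_nonneg hc.le]
    exact mul_le_mul hc2 (mem_closedBall_zero_iff.1 hx.1) (norm_nonneg _) zero_le_two
  set B := closedBall ((1, 0) : V) (1 / 15) with hB
  set T := (fun m : V => act m (c • x)) '' B with hT
  have hTc : IsCompact T := (isCompact_closedBall _ _).image
    (continuous_act.comp (continuous_id.prodMk continuous_const))
  have hT1 : ∀ v ∈ T, dt v ∈ Icc (5 / 4 : ℝ) (7 / 4) := by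
    rintro _ ⟨m, hm, rfl⟩
    obtain ⟨-, h1, h2⟩ := ball_c4a hm
    rw [dt_act, hd]
    constructor <;> linarith
  have hT2 : T ⊆ KB (3 * R0) := by
    intro v hv
    refine ⟨?_, by linarith [(hT1 v hv).1], by linarith [(hT1 v hv).2]⟩
    obtain ⟨m, hm, rfl⟩ := hv
    refine mem_closedBall_zero_iff.2 ((norm_act_c4a _ _).trans ?_)
    refine (mul_le_mul (ball_c4a hm).1 hn (norm_nonneg _) (by norm_num)).trans (le_of_eq ?_)
    ring
  have hTO : T ⊆ Om := hT2.trans (KB_subset_Om _)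
  have e1 : ∫ m in B, H (act m x) = ∫ m, T.indicator H (act m (c • x)) := by
    rw [← integral_indicator measurableSet_closedBall]
    refine integral_congr_ae (Eventually.of_forall fun m => ?_)
    beta_reduce
    by_cases hm : m ∈ B
    · have hm' : act m (c • x) ∈ T := mem_image_of_mem _ hm
      rw [indicator_of_mem hm, indicator_of_mem hm', map_smul,
        hp c hc _ (act_mem (by linarith [(ball_c4a hm).2.1]) hxO)]
    · rw [indicator_of_notMem hm, indicator_of_notMem]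
      exact fun h => hm ((act_inj_c4a hyO).mem_set_image.1 h)
  have e2 : ∫ v in T, H v ∂mV = ∫ v in T, rho (dt v) * H v := by
    rw [← integral_indicator hTc.measurableSet, ← integral_indicator hTc.measurableSet,
      integral_mV]
    refine integral_congr_ae (Eventually.of_forall fun v => ?_)
    by_cases hv : v ∈ T <;> simp [hv]
  have e3 : c0 * ∫ v in T, H v ≤ ∫ v in T, rho (dt v) * H v := by
    rw [← integral_const_mul]
    have hi : ContinuousOn H T := hH.mono hTO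
    exact setIntegral_mono_on ((continuousOn_const.mul hi).integrableOn_compact hTc)
      (((continuous_rho.comp continuous_dt).continuousOn.mul hi).integrableOn_compact hTc)
      hTc.measurableSet fun v hv => mul_le_mul_of_nonneg_right (hrho _ (hT1 v hv)) (h0 v)
  have e4 : ∫ v in T, H v ∂mV ≤ ∫ v in KB (3 * R0), H v ∂mV :=
    setIntegral_mono_set (integrableOn_KB hH _) (Eventually.of_forall h0) hT2.eventuallyLE
  rw [e1, integral_act hyO, hd, integral_indicator hTc.measurableSet, mul_assoc]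
  refine mul_le_mul (by norm_num) ?_ (integral_nonneg h0) (by norm_num)
  rw [le_inv_mul_iff₀ hc0]
  exact e3.trans (e2 ▸ e4)

end Pool.Agent.Lib.MP_a52643_an.H53
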