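import Pool.Agent.Lib.MP_a52643_an.H53C4
import Pool.Agent.Lib.MP_a52643_an.H53C4a

open Complex MeasureTheory Set Filter Topology Metric
open UpperHalfPlane (ofComplex)
open scoped ComplexConjugate ContDiff ENNReal UpperHalfPlane Laplacian Real

noncomputable section

namespace Pool.Agent.Lib.MP_a52643_an.H53

variable {Γ : Type} [Group Γ] [Countable Γ] [MulAction Γ ℍ] {l : Γ → SL2} {D : Set ℍ}
  {w : ℂ → ℝ}

lemma cs_c4b {α : Type} [MeasurableSpace α] {μ : Measure α} [IsFiniteMeasure μ] {g : α → ℂ}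
    (h1 : Integrable g μ) (h2 : Integrable (fun x => ‖g x‖ ^ 2) μ) (hv : 0 < μ.real univ) :
    ‖∫ x, g x ∂μ‖ ^ 2 ≤ μ.real univ * ∫ x, ‖g x‖ ^ 2 ∂μ := by
  have h3 : ‖∫ x, g x ∂μ‖ ^ 2 ≤ (∫ x, ‖g x‖ ∂μ) ^ 2 :=
    pow_le_pow_left₀ (norm_nonneg _) (norm_integral_le_integral_norm g) 2
  refine h3.trans ?_
  set a := ∫ x, ‖g x‖ ∂μ with ha
  set v := μ.real univ with hv'
  have h4 : 0 ≤ ∫ x, (v ^ 2 * ‖g x‖ ^ 2 - 2 * v * a * ‖g x‖ + a ^ 2) ∂μ :=
    integral_nonneg fun x => by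
      have := sq_nonneg (v * ‖g x‖ - a)
      simp only [Pi.zero_apply]
      linarith
  rw [integral_add (by exact (h2.const_mul _).sub (h1.norm.const_mul _)) (integrable_const _),
    integral_sub (h2.const_mul _) (h1.norm.const_mul _), integral_const_mul, integral_const_mul,
    integral_const, smul_eq_mul, ← ha, ← hv'] at h4
  refine le_of_mul_le_mul_left ?_ hv
  linarith

/-- the box -/
def box_c4b (a b : ℝ) : Set V :=
  (Icc (19 / 20 : ℝ) (21 / 20) ×ℂ Icc (-a) a) ×ˢ (Icc (-b) b ×ℂ Icc (-b) b)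

lemma cpt_c4b (a b : ℝ) : IsCompact (box_c4b a b) :=
  (isCompact_Icc.reProdIm isCompact_Icc).prod (isCompact_Icc.reProdIm isCompact_Icc)

lemma vol1_c4b (s t : Set ℝ) : volume (s ×ℂ t) = volume s * volume t := by
  rw [← Measure.prod_prod, ← Measure.volume_eq_prod,
    ← volume_preserving_equiv_real_prod.measure_preimage_equiv]
  rfl

lemma vol_c4b {a b : ℝ} (ha : 0 ≤ a) (hb : 0 ≤ b) :
    (volume.restrict (box_c4b a b)).real univ = 4 / 5 * a * b ^ 2 := by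
  rw [measureReal_restrict_apply_univ, box_c4b, Measure.real, Measure.volume_eq_prod,
    Measure.prod_prod, vol1_c4b, vol1_c4b]
  simp only [Real.volume_Icc, ENNReal.toReal_mul]
  rw [ENNReal.toReal_ofReal (by norm_num), ENNReal.toReal_ofReal (by linarith),
    ENNReal.toReal_ofReal (by linarith)]
  ring

lemma mem_c4b {a b : ℝ} {m : V} (h : m ∈ box_c4b a b) :
    19 / 20 ≤ m.1.re ∧ m.1.re ≤ 21 / 20 ∧ |m.1.im| ≤ a ∧ ‖m.2‖ ≤ 2 * b := by
  obtain ⟨⟨h1, h2⟩, h3, h4⟩ := h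
  refine ⟨h1.1, h1.2, abs_le.2 h2, (norm_le_abs_re_add_abs_im _).trans ?_⟩
  have := abs_le.2 h3
  have := abs_le.2 h4
  linarith

lemma sub_c4b {a b : ℝ} (ha : a ≤ 1 / 100) (hb : b ≤ 1 / 100) :
    box_c4b a b ⊆ closedBall ((1, 0) : V) (1 / 15) := by
  intro m hm
  obtain ⟨h1, h2, h3, h4⟩ := mem_c4b hm
  rw [mem_closedBall, Prod.dist_eq, max_le_iff, dist_eq_norm, dist_zero_right]
  refine ⟨(norm_le_abs_re_add_abs_im _).trans ?_, by linarith⟩
  have : |m.1.re - 1| ≤ 1 / 20 := abs_le.2 ⟨by linarith, by linarith⟩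
  simp only [sub_re, one_re, sub_im, one_im, sub_zero]
  linarith

lemma dm_c4b {m : V} (hm : m ∈ closedBall ((1, 0) : V) (1 / 15)) : 0 < dm m := by
  rw [mem_closedBall, Prod.dist_eq, max_le_iff, dist_eq_norm, dist_zero_right] at hm
  obtain ⟨h1, h2⟩ := hm
  have h3 := norm_sub_norm_le (1 : ℂ) m.1
  rw [norm_sub_rev, norm_one] at h3
  rw [dm, normSq_eq_norm_sq, normSq_eq_norm_sq, sub_pos]
  exact pow_lt_pow_left₀ (by linarith) (norm_nonneg _) two_ne_zero

/-- the phase -/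
def ph_c4b (T : ℝ) (m : V) : ℂ := Complex.exp (2 * I * (m.2.re / m.1.re : ℝ) * T)

lemma norm_ph_c4b (T : ℝ) (m : V) : ‖ph_c4b T m‖ = 1 := by
  rw [ph_c4b, Complex.norm_exp]
  simp only [mul_re, mul_im, I_re, I_im, ofReal_re, ofReal_im, re_ofNat, im_ofNat]
  simp

lemma cont_ph_c4b (T a b : ℝ) : ContinuousOn (ph_c4b T) (box_c4b a b) := by
  have h : ContinuousOn (fun m : V => m.2.re / m.1.re) (box_c4b a b) :=
    ContinuousOn.div (by fun_prop) (by fun_prop) fun m hm => by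
      have := (mem_c4b hm).1
      linarith
  exact ((continuousOn_const.mul (continuous_ofReal.comp_continuousOn h)).mul
    continuousOn_const).cexp

lemma cont_act_c4b {E : Type} [TopologicalSpace E] {u : V → E} (hu : ContinuousOn u Om) :
    ContinuousOn (fun p : V × V => u (act p.1 p.2)) (closedBall ((1, 0) : V) (1 / 15) ×ˢ Om) :=
  hu.comp continuous_act.continuousOn fun _ hp => act_mem (dm_c4b hp.1) hp.2

lemma cont_act'_c4b {E : Type} [TopologicalSpace E] {u : V → E} (hu : ContinuousOn u Om) {x : V}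
    (hx : x ∈ Om) : ContinuousOn (fun m => u (act m x)) (closedBall ((1, 0) : V) (1 / 15)) :=
  (cont_act_c4b hu).comp (f := fun m => (m, x)) (by fun_prop) fun _ hm => ⟨hm, hx⟩

lemma path_c4b (hG : Geo l D w) {T N η : ℝ} {u : V → ℂ} (h : Lift l w T N u) (hN : 1 ≤ N)
    (hT : N ^ 2 ≤ T) (hη : 0 < η) (hη' : η ≤ 1 / 100) {m : V}
    (hm : m ∈ box_c4b (η / N) (η * N / T)) (hd : 0 < dm m) :
    ∫ x, ‖ph_c4b T m * u (act m x) - u x‖ ^ 2 ∂nuW w ≤ 10 ^ 5 * η ^ 2 := by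
  obtain ⟨h1, h2, h3, h4⟩ := mem_c4b hm
  have hr : 0 < m.1.re := by linarith
  have hi : m.1.re⁻¹ ≤ 3 / 2 := by
    rw [inv_le_comm₀ hr (by norm_num)]
    linarith
  have hi0 : 0 < m.1.re⁻¹ := inv_pos.2 hr
  have ha : 0 ≤ η / N := (abs_nonneg _).trans h3
  have hb : 0 ≤ η * N / T := by linarith [norm_nonneg m.2]
  have e : m.1.re⁻¹ • m = (1 + I * (m.1.re⁻¹ * m.1.im : ℝ), m.1.re⁻¹ • m.2) := by
    refine Prod.ext (Complex.ext ?_ ?_) rfl
    · simp [hr.ne']
    · simp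
  have := h.path hG hN hT hη hη' (γ := m.1.re⁻¹ * m.1.im) (β := m.1.re⁻¹ • m.2)
    (by rw [abs_mul, abs_of_pos hi0, mul_div_assoc]; nlinarith [abs_nonneg m.1.im])
    (by rw [norm_smul, Real.norm_eq_abs, abs_of_pos hi0, mul_assoc, mul_div_assoc]
        nlinarith [norm_nonneg m.2])
  refine le_of_eq_of_le (integral_congr_ae (hG.ae_Om.mono fun x hx => ?_)) this
  simp only
  rw [← e, act_smul_left, h.ph _ hi0 _ (act_mem hd hx), ph_c4b, smul_re, smul_eq_mul,
    div_eq_inv_mul]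

lemma bes_c4b (hG : Geo l D w) (R0 : ℝ) : ∃ C : ℝ, 0 ≤ C ∧ ∀ (T a b : ℝ) (s : Finset ℕ)
    (u : ℕ → V → ℂ), 0 < a → 0 < b → a ≤ 1 / 100 → b ≤ 1 / 100 → (∀ j ∈ s, IC l (u j)) →
    ONF w s u → ∀ x ∈ KB R0, ∑ j ∈ s, ‖∫ m in box_c4b a b, ph_c4b T m * u j (act m x)‖ ^ 2 ≤
      4 / 5 * a * b ^ 2 * C := by
  obtain ⟨R, C, hC, h1⟩ := kernel_le R0
  obtain ⟨M, hM, h2⟩ := hG.local_le R
  refine ⟨C * M, by positivity, fun T a b s u ha hb ha' hb' hu ho x hx => ?_⟩
  have hx' := KB_subset_Om R0 hx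
  have hs := sub_c4b ha' hb'
  have hk := cpt_c4b a b
  have : IsFiniteMeasure (volume.restrict (box_c4b a b)) :=
    isFiniteMeasure_restrict.2 hk.measure_lt_top.ne
  refine dual_bessel (by positivity) fun c => ?_
  have hF : ContinuousOn (fun v => ∑ j ∈ s, c j * u j v) Om :=
    continuousOn_finsetSum _ fun j hj => continuousOn_const.mul (hu j hj).cont
  have hH : ContinuousOn (fun v => ‖∑ j ∈ s, c j * u j v‖ ^ 2) Om := hF.norm.pow 2
  have e1 : ∑ j ∈ s, c j * ∫ m in box_c4b a b, ph_c4b T m * u j (act m x) =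
      ∫ m in box_c4b a b, ph_c4b T m * ∑ j ∈ s, c j * u j (act m x) := by
    simp only [Finset.mul_sum]
    rw [integral_finsetSum]
    · refine Finset.sum_congr rfl fun j _ => ?_
      rw [← integral_const_mul]
      simp only [mul_left_comm]
    · exact fun j hj => ((cont_ph_c4b T a b).mul (continuousOn_const.mul
        ((cont_act'_c4b (hu j hj).cont hx').mono hs))).integrableOn_compact hk
  have hc := (cont_ph_c4b T a b).mul ((cont_act'_c4b hF hx').mono hs)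
  have h3 := cs_c4b (hc.integrableOn_compact hk) ((hc.norm.pow 2).integrableOn_compact hk)
    (by rw [vol_c4b ha.le hb.le]; positivity)
  rw [vol_c4b ha.le hb.le] at h3
  simp only [Pi.mul_apply, norm_mul, norm_ph_c4b, one_mul] at h3
  have h4 : ∫ m in box_c4b a b, ‖∑ j ∈ s, c j * u j (act m x)‖ ^ 2 ≤
      ∫ m in closedBall ((1, 0) : V) (1 / 15), ‖∑ j ∈ s, c j * u j (act m x)‖ ^ 2 :=
    setIntegral_mono_set ((cont_act'_c4b hH hx').integrableOn_compact (isCompact_closedBall _ _))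
      (Eventually.of_forall fun _ => by positivity) hs.eventuallyLE
  have h5 := h1 x hx _ hH (fun r hr v hv => by
    rw [Finset.sum_congr rfl fun j hj => by rw [(hu j hj).ph r hr v hv]]) fun _ => by positivity
  have h6 := h2 _ hH (fun γ v hv => by
    rw [Finset.sum_congr rfl fun j hj => by rw [(hu j hj).inv γ v hv]]) fun _ => by positivity
  rw [ho.norm_sum hG fun j hj => (hu j hj).cont] at h6
  rw [e1, mul_assoc _ (C * M), mul_assoc C]
  exact h3.trans (mul_le_mul_of_nonneg_left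
    (h4.trans (h5.trans (mul_le_mul_of_nonneg_left h6 hC))) (by positivity))

lemma pt_c4b {T a b : ℝ} (ha : 0 < a) (hb : 0 < b) (ha' : a ≤ 1 / 100) (hb' : b ≤ 1 / 100)
    {u : V → ℂ} (hu : ContinuousOn u Om) {x : V} (hx : x ∈ Om) :
    (4 / 5 * a * b ^ 2) ^ 2 * ‖u x‖ ^ 2 ≤
      2 * (4 / 5 * a * b ^ 2) * (∫ m in box_c4b a b, ‖ph_c4b T m * u (act m x) - u x‖ ^ 2) +
        2 * ‖∫ m in box_c4b a b, ph_c4b T m * u (act m x)‖ ^ 2 := by
  have hk := cpt_c4b a b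
  have : IsFiniteMeasure (volume.restrict (box_c4b a b)) :=
    isFiniteMeasure_restrict.2 hk.measure_lt_top.ne
  have hc := (cont_ph_c4b T a b).mul ((cont_act'_c4b hu hx).mono (sub_c4b ha' hb'))
  have hc' := hc.sub (continuousOn_const (c := u x))
  have h3 := cs_c4b (hc'.integrableOn_compact hk) ((hc'.norm.pow 2).integrableOn_compact hk)
    (by rw [vol_c4b ha.le hb.le]; positivity)
  simp only [Pi.mul_apply, Pi.sub_apply] at h3
  rw [integral_sub (by exact hc.integrableOn_compact hk) (integrable_const _), integral_const,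
    vol_c4b ha.le hb.le] at h3
  set A := ∫ m in box_c4b a b, ph_c4b T m * u (act m x)
  have hv : 0 < 4 / 5 * a * b ^ 2 := by positivity
  set v := 4 / 5 * a * b ^ 2
  have h4 : v * ‖u x‖ ≤ ‖A - v • u x‖ + ‖A‖ := by
    have := norm_sub_norm_le (v • u x) A
    rw [norm_sub_rev, norm_smul, Real.norm_eq_abs, abs_of_pos hv] at this
    linarith
  have h5 := pow_le_pow_left₀ (by positivity) h4 2
  nlinarith [sq_nonneg (‖A - v • u x‖ - ‖A‖)]

/-- local Weyl upper bound for an orthonormal family of lifts -/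
theorem Geo.box (hG : Geo l D w) : ∃ C : ℝ, 0 < C ∧ ∀ (T N η B : ℝ) (s : Finset ℕ)
    (u : ℕ → V → ℂ) (y : V → ℂ), 1 ≤ N → N ^ 2 ≤ T → 0 < η → η ≤ 1 / 100 →
    (∀ j ∈ s, Lift l w T N (u j)) → ONF w s u → ContinuousOn y Om → (∀ v ∈ Om, ‖y v‖ ≤ B) →
    ∑ j ∈ s, ∫ x, ‖y x‖ ^ 2 * ‖u j x‖ ^ 2 ∂nuW w
      ≤ C * (η ^ 2 * B ^ 2 * s.card + T ^ 2 / (η ^ 3 * N) * ∫ x, ‖y x‖ ^ 2 ∂nuW w) := by
  obtain ⟨R0, -, hR⟩ := hG.exists_KB
  obtain ⟨C, hC, h1⟩ := bes_c4b hG R0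
  refine ⟨2 * 10 ^ 5 + 3 * C, by positivity, fun T N η B s u y hN hT hη hη' hu ho hy hB => ?_⟩
  have hT0 : 0 < T := by nlinarith
  have ha : 0 < η / N := by positivity
  have hb : 0 < η * N / T := by positivity
  have ha' : η / N ≤ 1 / 100 := (div_le_self hη.le hN).trans hη'
  have hb' : η * N / T ≤ 1 / 100 := by
    rw [div_le_iff₀ hT0]
    nlinarith
  have hk := cpt_c4b (η / N) (η * N / T)
  have hs := sub_c4b ha' hb'
  have := hG.fin
  have : IsFiniteMeasure (volume.restrict (box_c4b (η / N) (η * N / T))) :=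
    isFiniteMeasure_restrict.2 hk.measure_lt_top.ne
  have hc : ∀ j ∈ s, ContinuousOn (u j) Om := fun j hj => (hu j hj).cd.continuousOn
  have h2 := h1 T _ _ s u ha hb ha' hb' (fun j hj => ⟨hc j hj, (hu j hj).inv, (hu j hj).ph⟩) ho
  have hvol := vol_c4b ha.le hb.le
  have hpt := fun j hj => @pt_c4b T _ _ ha hb ha' hb' (u j) (hc j hj)
  have hv : 0 < 4 / 5 * (η / N) * (η * N / T) ^ 2 := by positivity
  have hv' : (4 / 5 * (η / N) * (η * N / T) ^ 2)⁻¹ = 5 / 4 * (T ^ 2 / (η ^ 3 * N)) := by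
    field_simp
  generalize 4 / 5 * (η / N) * (η * N / T) ^ 2 = v at h2 hvol hpt hv hv'
  have hi : ∀ j ∈ s, Integrable
      (fun p : V × V => ‖ph_c4b T p.1 * u j (act p.1 p.2) - u j p.2‖ ^ 2)
      ((volume.restrict (box_c4b (η / N) (η * N / T))).prod (nuW w)) := fun j hj =>
    hG.integrable_prod volume hk (((((cont_ph_c4b T _ _).comp continuousOn_fst fun _ h => h.1).mul
      ((cont_act_c4b (hc j hj)).mono (prod_mono hs le_rfl))).sub
      ((hc j hj).comp continuousOn_snd fun _ h => h.2)).norm.pow 2)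
  have h3 : ∀ j ∈ s, ∫ x, (∫ m in box_c4b (η / N) (η * N / T),
      ‖ph_c4b T m * u j (act m x) - u j x‖ ^ 2) ∂nuW w ≤ v * (10 ^ 5 * η ^ 2) := by
    intro j hj
    rw [← integral_integral_swap (hi j hj), ← hvol, ← smul_eq_mul (Measure.real _ _),
      ← integral_const]
    refine integral_mono_ae (hi j hj).integral_prod_left (integrable_const _) ?_
    filter_upwards [ae_restrict_mem hk.measurableSet] with m hm
    exact path_c4b hG (hu j hj) hN hT hη hη' hm (dm_c4b (hs hm))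
  have hy2 : Integrable (fun x => ‖y x‖ ^ 2) (nuW w) := hG.integrable (hy.norm.pow 2)
  have hyu : ∀ j ∈ s, Integrable (fun x => ‖y x‖ ^ 2 * ‖u j x‖ ^ 2) (nuW w) := fun j hj =>
    hG.integrable ((hy.norm.pow 2).mul ((hc j hj).norm.pow 2))
  have hg0 : ∀ j ∈ s, Integrable (fun x => ∫ m in box_c4b (η / N) (η * N / T),
      ‖ph_c4b T m * u j (act m x) - u j x‖ ^ 2) (nuW w) := fun j hj => (hi j hj).integral_prod_right
  have hg := integrable_finsetSum s hg0
  have h4 : ∫ x, v ^ 2 * ∑ j ∈ s, ‖y x‖ ^ 2 * ‖u j x‖ ^ 2 ∂nuW w ≤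
      ∫ x, (2 * v * B ^ 2 * ∑ j ∈ s, (∫ m in box_c4b (η / N) (η * N / T),
        ‖ph_c4b T m * u j (act m x) - u j x‖ ^ 2) + 2 * v * C * ‖y x‖ ^ 2) ∂nuW w := by
    refine integral_mono_ae ((integrable_finsetSum s hyu).const_mul _)
      ((hg.const_mul _).add (hy2.const_mul _)) ?_
    filter_upwards [hR] with x hx
    have hx' := KB_subset_Om R0 hx
    have h5 := Finset.sum_le_sum fun j hj => hpt j hj hx'
    rw [Finset.sum_add_distrib, ← Finset.mul_sum, ← Finset.mul_sum, ← Finset.mul_sum] at h5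
    have h6 := h2 x hx
    have h7 : ‖y x‖ ^ 2 ≤ B ^ 2 := pow_le_pow_left₀ (norm_nonneg _) (hB x hx') 2
    have h8 : 0 ≤ ∑ j ∈ s, ∫ m in box_c4b (η / N) (η * N / T),
        ‖ph_c4b T m * u j (act m x) - u j x‖ ^ 2 :=
      Finset.sum_nonneg fun j _ => integral_nonneg fun _ => by positivity
    rw [← Finset.mul_sum]
    have h9 := mul_le_mul_of_nonneg_left h5 (sq_nonneg ‖y x‖)
    have h10 := mul_le_mul_of_nonneg_left h6 (sq_nonneg ‖y x‖)
    have h11 := mul_le_mul_of_nonneg_right h7 (mul_nonneg hv.le h8)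
    linarith
  rw [integral_const_mul, integral_finsetSum s hyu, integral_add (hg.const_mul _) (hy2.const_mul _),
    integral_const_mul, integral_const_mul,
    integral_finsetSum s hg0] at h4
  have h5 := Finset.sum_le_sum h3
  rw [Finset.sum_const, nsmul_eq_mul] at h5
  have h6 := mul_le_mul_of_nonneg_left h5 (by positivity : 0 ≤ 2 * v * B ^ 2)
  have h7 : 0 ≤ ∫ x, ‖y x‖ ^ 2 ∂nuW w := integral_nonneg fun _ => by positivity
  have h8 : 0 ≤ T ^ 2 / (η ^ 3 * N) := by positivity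
  generalize ∫ x, ‖y x‖ ^ 2 ∂nuW w = Y at *
  generalize T ^ 2 / (η ^ 3 * N) = Z at *
  have h9 : v * Z = 4 / 5 := by
    have := mul_inv_cancel₀ hv.ne'
    rw [hv'] at this
    linarith
  refine le_of_mul_le_mul_left (h4.trans ?_) (pow_pos hv 2)
  have h10 : v ^ 2 * (Z * Y) = 4 / 5 * (v * Y) := by rw [← h9]; ring
  have h11 : 0 ≤ v * Y := by positivity
  have h12 : 0 ≤ C * (v * Y) := by positivity
  have h13 : 0 ≤ C * (v ^ 2 * (η ^ 2 * B ^ 2 * s.card)) := by positivity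
  have h14 : v ^ 2 * ((2 * 10 ^ 5 + 3 * C) * (η ^ 2 * B ^ 2 * s.card + Z * Y)) =
      (2 * 10 ^ 5 + 3 * C) * (v ^ 2 * (η ^ 2 * B ^ 2 * s.card) + 4 / 5 * (v * Y)) := by
    rw [← h10]; ring
  rw [h14]
  linarith

end Pool.Agent.Lib.MP_a52643_an.H53
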