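import Pool.Agent.Lib.MP_a52643_an.H53C1b
import Pool.Agent.Lib.MP_a52643_an.H53C3

open Complex MeasureTheory Set Filter Topology Metric
open UpperHalfPlane (ofComplex)
open scoped ComplexConjugate ContDiff ENNReal UpperHalfPlane Laplacian Real

noncomputable section

namespace Pool.Agent.Lib.MP_a52643_an.H53

variable {Γ : Type} [Group Γ] [Countable Γ] [MulAction Γ ℍ] {l : Γ → SL2} {D : Set ℍ}
  {w : ℂ → ℝ}

lemma cont_conj_c5 {f : V → ℂ} (hf : ContinuousOn f Om) :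
    ContinuousOn (fun v => conj (f v)) Om := continuous_conj.comp_continuousOn hf

lemma pair_c5 (hG : Geo l D w) {H f g : V → ℂ} (hf : ContinuousOn f Om) (hg : ContinuousOn g Om)
    {B p q : ℝ} (hB0 : 0 ≤ B) (hB : ∀ᵐ v ∂nuW w, ‖H v‖ ≤ B) (hp : 0 ≤ p) (hq : 0 ≤ q)
    (h1 : ∫ v, ‖f v‖ ^ 2 ∂nuW w ≤ p ^ 2) (h2 : ∫ v, ‖g v‖ ^ 2 ∂nuW w ≤ q ^ 2) :
    ‖∫ v, H v * (f v * conj (g v)) ∂nuW w‖ ≤ B * (p * q) := by
  have hi : Integrable (fun v => ‖f v‖ * ‖g v‖) (nuW w) := hG.integrable (hf.norm.mul hg.norm)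
  have e1 : ‖∫ v, H v * (f v * conj (g v)) ∂nuW w‖ ≤ ∫ v, B * (‖f v‖ * ‖g v‖) ∂nuW w := by
    refine norm_integral_le_of_norm_le (hi.const_mul B) ?_
    filter_upwards [hB] with v hv
    rw [norm_mul, norm_mul, RCLike.norm_conj]
    exact mul_le_mul_of_nonneg_right hv (by positivity)
  rw [integral_const_mul] at e1
  refine e1.trans (mul_le_mul_of_nonneg_left ?_ hB0)
  have e2 := hG.cs hf hg
  have e3 : (∫ v, ‖f v‖ * ‖g v‖ ∂nuW w) ^ 2 ≤ (p * q) ^ 2 := by
    rw [mul_pow]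
    exact e2.trans (mul_le_mul h1 h2 (integral_nonneg fun v => by positivity) (by positivity))
  exact (abs_le_of_sq_le_sq' e3 (by positivity)).2

omit [Group Γ] [Countable Γ] [MulAction Γ ℍ] in
lemma OL1.norm_c5 {lam : ℝ} {Φ : ℤ → V → ℂ} (h : OL1 l w lam Φ) (a : ℤ) :
    ∫ v, ‖Φ a v‖ ^ 2 ∂nuW w = 1 := by
  apply Complex.ofReal_injective
  rw [← integral_complex_ofReal]
  have := h.orth a a
  simp only [TT, mul_conj_sq, if_true] at this
  rw [this]
  simp

lemma OL1.xx_c5 {lam : ℝ} {Φ : ℤ → V → ℂ} (h : OL1 l w lam Φ) (hG : Geo l D w) {G : V → ℂ}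
    (hc : ContDiffOn ℝ 1 G Om) (hi : IV l G) (a b : ℤ) :
    (∫ v, Ep G v * TT Φ (a - 1) b v ∂nuW w) + ∫ v, Em G v * TT Φ a (b - 1) v ∂nuW w
      = -I * (al lam (a - 1) - al lam (b - 1) : ℝ) *
        ((∫ v, G v * TT Φ a b v ∂nuW w) + ∫ v, G v * TT Φ (a - 1) (b - 1) v ∂nuW w) := by
  have hL := h.lad
  have iv : ∀ a b, IV l fun v => G v * TT Φ a b v := fun a b γ v hv => by
    simp only [TT, hi γ v hv, h.linv _ γ v hv]
  have e1 := hG.int_Ep (hc.mul (hL.cd_TT (a - 1) b)) (iv _ _)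
  have e2 := hG.int_Em (hc.mul (hL.cd_TT a (b - 1))) (iv _ _)
  have ii : ∀ a b, Integrable (fun v => G v * TT Φ a b v) (nuW w) := fun a b =>
    hG.integrable (hc.continuousOn.mul (hL.cd_TT a b).continuousOn)
  have ip : Integrable (fun v => Ep G v * TT Φ (a - 1) b v) (nuW w) :=
    hG.integrable ((continuousOn_Ep hc).mul (hL.cd_TT _ _).continuousOn)
  have im : Integrable (fun v => Em G v * TT Φ a (b - 1) v) (nuW w) :=
    hG.integrable ((continuousOn_Em hc).mul (hL.cd_TT _ _).continuousOn)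
  have jj : ∀ (c d : ℂ) (a b a' b' : ℤ), Integrable (fun v => c * (G v * TT Φ a b v) -
      d * (G v * TT Φ a' b' v)) (nuW w) := fun c d a b a' b' =>
    ((ii _ _).const_mul _).sub ((ii _ _).const_mul _)
  have f1 : ∫ v, Ep (fun v => G v * TT Φ (a - 1) b v) v ∂nuW w
      = (∫ v, Ep G v * TT Φ (a - 1) b v ∂nuW w) +
      (I * al lam (a - 1) * (∫ v, G v * TT Φ a b v ∂nuW w)
      - I * al lam (b - 1) * ∫ v, G v * TT Φ (a - 1) (b - 1) v ∂nuW w) := by
    rw [← integral_const_mul, ← integral_const_mul,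
      ← integral_sub ((ii _ _).const_mul _) ((ii _ _).const_mul _),
      ← integral_add ip (jj _ _ _ _ _ _)]
    refine integral_congr_ae (hG.ae_Om.mono fun v hv => ?_)
    have t := (hL.hasE (a - 1) hv).mul (hL.hasE b hv).conj
    have e : Ep (TT Φ (a - 1) b) v = _ := t.ep
    have e' := Ep_mul (diffAt_of_Om hc one_ne_zero hv)
      (diffAt_of_Om (hL.cd_TT (a - 1) b) one_ne_zero hv)
    beta_reduce
    rw [e', e]
    simp only [TT, sub_add_cancel, map_mul, conj_I, conj_ofReal]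
    ring
  have f2 : ∫ v, Em (fun v => G v * TT Φ a (b - 1) v) v ∂nuW w
      = (∫ v, Em G v * TT Φ a (b - 1) v ∂nuW w) +
      (I * al lam (a - 1) * (∫ v, G v * TT Φ (a - 1) (b - 1) v ∂nuW w)
      - I * al lam (b - 1) * ∫ v, G v * TT Φ a b v ∂nuW w) := by
    rw [← integral_const_mul, ← integral_const_mul,
      ← integral_sub ((ii _ _).const_mul _) ((ii _ _).const_mul _),
      ← integral_add im (jj _ _ _ _ _ _)]
    refine integral_congr_ae (hG.ae_Om.mono fun v hv => ?_)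
    have t := (hL.hasE a hv).mul (hL.hasE (b - 1) hv).conj
    have e : Em (TT Φ a (b - 1)) v = _ := t.em
    have e' := Em_mul (diffAt_of_Om hc one_ne_zero hv)
      (diffAt_of_Om (hL.cd_TT a (b - 1)) one_ne_zero hv)
    beta_reduce
    rw [e', e]
    simp only [TT, sub_add_cancel, map_mul, conj_I, conj_ofReal]
    ring
  push_cast
  linear_combination e1 + e2 - f1 - f2

lemma shift_c5 {N : ℕ} {χ : ℤ → ℝ} (hχ : Tent N χ) (Φ : ℤ → V → ℂ) (v : V) :
    lift N χ (fun a => Φ (a - 1)) v - lift N χ Φ v =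
      ∑ a ∈ Finset.Icc (-(N : ℤ) - 1) N, ((χ (a + 1) - χ a : ℝ) : ℂ) * Φ a v := by
  have e1 : ∑ a ∈ Finset.Icc (-(N : ℤ) - 1) N, (χ (a + 1) : ℂ) * Φ a v =
      ∑ a ∈ Finset.Icc (-(N : ℤ)) (N + 1), (χ a : ℂ) * Φ (a - 1) v := by
    refine Finset.sum_nbij' (· + 1) (· - 1) ?_ ?_ ?_ ?_ ?_
    · intro a ha
      simp only [Finset.mem_Icc] at ha ⊢
      omega
    · intro a ha
      simp only [Finset.mem_Icc] at ha ⊢
      omega
    · intro a _
      simp
    · intro a _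
      simp
    · intro a _
      simp
  have e2 : lift N χ (fun a => Φ (a - 1)) v =
      ∑ a ∈ Finset.Icc (-(N : ℤ)) (N + 1), (χ a : ℂ) * Φ (a - 1) v := by
    refine Finset.sum_subset (Finset.Icc_subset_Icc le_rfl (by omega)) fun a ha ha' => ?_
    simp only [Finset.mem_Icc] at ha ha'
    rw [hχ.zero a (by rw [le_abs]; omega)]
    simp
  have e3 : lift N χ Φ v = ∑ a ∈ Finset.Icc (-(N : ℤ) - 1) N, (χ a : ℂ) * Φ a v := by
    refine Finset.sum_subset (Finset.Icc_subset_Icc (by omega) le_rfl) fun a ha ha' => ?_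
    simp only [Finset.mem_Icc] at ha ha'
    rw [hχ.zero a (by rw [le_abs]; omega)]
    simp
  rw [e2, e3, ← e1, ← Finset.sum_sub_distrib]
  refine Finset.sum_congr rfl fun a _ => ?_
  push_cast
  ring

lemma Tent.abs_le_c5 {N : ℕ} {χ : ℤ → ℝ} (hχ : Tent N χ) {a : ℤ}
    (ha : a ∈ Finset.Icc (-(N : ℤ)) N) : |χ a| ≤ 1 := by
  have := Finset.single_le_sum (f := fun a => χ a ^ 2) (fun a _ => sq_nonneg (χ a)) ha
  rw [hχ.sq] at this
  exact abs_le_one_iff_mul_self_le_one.2 (by nlinarith)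

lemma al_le_c5 {lam : ℝ} (hl : 0 < lam) {N : ℕ} (hN : 1 ≤ N) {a b : ℤ}
    (ha : a ∈ Finset.Icc (-(N : ℤ)) N) (hb : b ∈ Finset.Icc (-(N : ℤ)) N) :
    |al lam (a - 1) - al lam (b - 1)| ≤ 2 * (N : ℝ) ^ 2 / √lam := by
  refine (abs_al_sub_le hl _ _).trans (div_le_div_of_nonneg_right ?_ (Real.sqrt_nonneg _))
  simp only [Finset.mem_Icc] at ha hb
  have hN' : (1 : ℝ) ≤ N := by exact_mod_cast hN
  have key : ∀ c : ℤ, -(N : ℤ) ≤ c → c ≤ N → (((c - 1 : ℤ) : ℝ) * (((c - 1 : ℤ) : ℝ) + 1)) ≤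
      2 * (N : ℝ) ^ 2 := by
    intro c h1 h2
    have h1' : -(N : ℝ) ≤ c := by exact_mod_cast h1
    have h2' : (c : ℝ) ≤ N := by exact_mod_cast h2
    push_cast
    nlinarith
  have p1 := int_mul_succ_nonneg (a - 1)
  have p2 := int_mul_succ_nonneg (b - 1)
  have q1 := key a ha.1 ha.2
  have q2 := key b hb.1 hb.2
  rw [abs_le]
  constructor <;> linarith

/-- infinitesimal approximate invariance -/
theorem OL1.inv_inf {lam : ℝ} {Φ : ℤ → V → ℂ} (h : OL1 l w lam Φ) (hG : Geo l D w) {N : ℕ}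
    {χ : ℤ → ℝ} (hχ : Tent N χ) (hN : 1 ≤ N) {G : V → ℂ} (hc : ContDiffOn ℝ 1 G Om) (hi : IV l G)
    {B : ℝ} (hB : ∀ᵐ v ∂nuW w, ‖G v‖ ≤ B ∧ ‖Ep G v‖ ≤ B ∧ ‖Em G v‖ ≤ B) :
    ‖∫ v, (Ep G v + Em G v) * (‖lift N χ Φ v‖ ^ 2 : ℝ) ∂nuW w‖
      ≤ B * (4 / N + 50 * N ^ 4 / √lam) := by
  have hL := h.lad
  have hN' : (1 : ℝ) ≤ N := by exact_mod_cast hN
  have hB0 : 0 ≤ B := by
    by_contra hneg
    have h0 : nuW w = 0 := by
      rw [← ae_eq_bot, ← eventually_false_iff_eq_bot]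
      filter_upwards [hB] with v hv
      linarith [norm_nonneg (G v), hv.1]
    have := h.norm_c5 0
    rw [h0] at this
    simp at this
  set S := Finset.Icc (-(N : ℤ)) N with hS
  set f := lift N χ Φ with hf
  set u := lift N χ (fun a => Φ (a - 1)) with hu
  have cf : ContinuousOn f Om :=
    continuousOn_finsetSum _ fun a _ => continuousOn_const.mul (hL.cont _)
  have cu : ContinuousOn u Om :=
    continuousOn_finsetSum _ fun a _ => continuousOn_const.mul (hL.cont _)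
  have cp := continuousOn_Ep hc
  have cm := continuousOn_Em hc
  have nf : ∫ v, ‖f v‖ ^ 2 ∂nuW w ≤ 1 ^ 2 := by rw [h.lift_norm hG hχ]; simp
  have nd : ∫ v, ‖u v - f v‖ ^ 2 ∂nuW w ≤ (2 / N) ^ 2 := by
    have e := ONF.norm_sum hG (s := Finset.Icc (-(N : ℤ) - 1) N) (u := Φ)
      (fun a _ b _ => h.orth a b) (fun a _ => hL.cont a) fun a => ((χ (a + 1) - χ a : ℝ) : ℂ)
    simp only [hu, hf, shift_c5 hχ, e, Complex.norm_real, Real.norm_eq_abs, sq_abs]
    refine hχ.dif.trans ?_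
    rw [div_pow]
    exact div_le_div_of_nonneg_right (by norm_num) (by positivity)
  have cd : ContinuousOn (fun v => u v - f v) Om := cu.sub cf
  have t1 := pair_c5 hG cd cf hB0 (hB.mono fun v hv => hv.2.1) (by positivity)
    zero_le_one nd nf
  have t2 := pair_c5 hG cf cd hB0 (hB.mono fun v hv => hv.2.2) zero_le_one
    (by positivity) nf nd
  have hX : ∀ a b, ‖∫ v, G v * TT Φ a b v ∂nuW w‖ ≤ B := fun a b => by
    have := pair_c5 hG (hL.cont a) (hL.cont b) hB0 (hB.mono fun v hv => hv.1) zero_le_one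
      zero_le_one (by rw [h.norm_c5]; simp) (by rw [h.norm_c5]; simp)
    simpa [TT] using this
  have s1 : ∫ v, Ep G v * (u v * conj (f v)) ∂nuW w =
      ∑ a ∈ S, ∑ b ∈ S, (χ a * χ b : ℂ) * ∫ v, Ep G v * TT Φ (a - 1) b v ∂nuW w := by
    have ii : ∀ a b, Integrable (fun v => (χ a * χ b : ℂ) * (Ep G v * TT Φ (a - 1) b v))
        (nuW w) := fun a b => (hG.integrable (cp.mul (hL.cd_TT _ _).continuousOn)).const_mul _
    simp only [← integral_const_mul]
    rw [Finset.sum_congr rfl fun a _ => (integral_finsetSum S fun b _ => ii a b).symm,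
      ← integral_finsetSum S fun a _ => integrable_finsetSum S fun b _ => ii a b]
    refine integral_congr_ae (Eventually.of_forall fun v => ?_)
    simp only [hu, hf, lift, map_sum, TT, map_mul, conj_ofReal, hS]
    rw [Finset.sum_mul_sum, Finset.mul_sum]
    refine Finset.sum_congr rfl fun a _ => ?_
    rw [Finset.mul_sum]
    exact Finset.sum_congr rfl fun b _ => by ring
  have s2 : ∫ v, Em G v * (f v * conj (u v)) ∂nuW w =
      ∑ a ∈ S, ∑ b ∈ S, (χ a * χ b : ℂ) * ∫ v, Em G v * TT Φ a (b - 1) v ∂nuW w := by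
    have ii : ∀ a b, Integrable (fun v => (χ a * χ b : ℂ) * (Em G v * TT Φ a (b - 1) v))
        (nuW w) := fun a b => (hG.integrable (cm.mul (hL.cd_TT _ _).continuousOn)).const_mul _
    simp only [← integral_const_mul]
    rw [Finset.sum_congr rfl fun a _ => (integral_finsetSum S fun b _ => ii a b).symm,
      ← integral_finsetSum S fun a _ => integrable_finsetSum S fun b _ => ii a b]
    refine integral_congr_ae (Eventually.of_forall fun v => ?_)
    simp only [hu, hf, lift, map_sum, TT, map_mul, conj_ofReal, hS]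
    rw [Finset.sum_mul_sum, Finset.mul_sum]
    refine Finset.sum_congr rfl fun a _ => ?_
    rw [Finset.mul_sum]
    exact Finset.sum_congr rfl fun b _ => by ring
  have hs : 0 < √lam := Real.sqrt_pos.2 h.pos
  have t3 : ‖(∫ v, Ep G v * (u v * conj (f v)) ∂nuW w) +
      ∫ v, Em G v * (f v * conj (u v)) ∂nuW w‖ ≤ B * (50 * N ^ 4 / √lam) := by
    rw [s1, s2, ← Finset.sum_add_distrib]
    simp only [← Finset.sum_add_distrib, ← mul_add, h.xx_c5 hG hc hi]
    have hcard : (S.card : ℝ) ≤ 3 * N := by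
      have : S.card = 2 * N + 1 := by rw [hS, Int.card_Icc]; omega
      rw [this]
      push_cast
      linarith
    have bd : ∀ a ∈ S, ∀ b ∈ S, ‖(χ a * χ b : ℂ) * (-I * (al lam (a - 1) - al lam (b - 1) : ℝ) *
        ((∫ v, G v * TT Φ a b v ∂nuW w) + ∫ v, G v * TT Φ (a - 1) (b - 1) v ∂nuW w))‖ ≤
        2 * (N : ℝ) ^ 2 / √lam * (B + B) := by
      intro a ha b hb
      rw [norm_mul, norm_mul, norm_mul, norm_mul, norm_neg, norm_I, one_mul, Complex.norm_real,
        Complex.norm_real, Complex.norm_real, Real.norm_eq_abs, Real.norm_eq_abs,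
        Real.norm_eq_abs]
      have a1 := hχ.abs_le_c5 ha
      have a2 := hχ.abs_le_c5 hb
      have a3 := al_le_c5 h.pos hN ha hb
      have a4 := (norm_add_le _ _).trans (add_le_add (hX a b) (hX (a - 1) (b - 1)))
      calc _ ≤ 1 * 1 * (2 * (N : ℝ) ^ 2 / √lam * (B + B)) := by gcongr
        _ = _ := by ring
    calc _ ≤ ∑ a ∈ S, ∑ b ∈ S, 2 * (N : ℝ) ^ 2 / √lam * (B + B) :=
          (norm_sum_le _ _).trans (Finset.sum_le_sum fun a ha =>
            (norm_sum_le _ _).trans (Finset.sum_le_sum fun b hb => bd a ha b hb))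
      _ = S.card * (S.card * (2 * (N : ℝ) ^ 2 / √lam * (B + B))) := by
          simp only [Finset.sum_const, nsmul_eq_mul]
      _ ≤ (3 * N) * ((3 * N) * (2 * (N : ℝ) ^ 2 / √lam * (B + B))) := by gcongr
      _ = B * (36 * N ^ 4 / √lam) := by ring
      _ ≤ _ := by gcongr; norm_num
  have i1 : Integrable (fun v => Ep G v * (u v * conj (f v))) (nuW w) :=
    hG.integrable (cp.mul (cu.mul (cont_conj_c5 cf)))
  have i2 : Integrable (fun v => Em G v * (f v * conj (u v))) (nuW w) :=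
    hG.integrable (cm.mul (cf.mul (cont_conj_c5 cu)))
  have i3 : Integrable (fun v => Ep G v * ((u v - f v) * conj (f v))) (nuW w) :=
    hG.integrable (cp.mul (cd.mul (cont_conj_c5 cf)))
  have i4 : Integrable (fun v => Em G v * (f v * conj (u v - f v))) (nuW w) :=
    hG.integrable (cm.mul (cf.mul (cont_conj_c5 cd)))
  have i5 : Integrable (fun v => Ep G v * (u v * conj (f v)) + Em G v * (f v * conj (u v)))
    (nuW w) := i1.add i2
  have i6 : Integrable (fun v => Ep G v * ((u v - f v) * conj (f v)) +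
    Em G v * (f v * conj (u v - f v))) (nuW w) := i3.add i4
  have fin : ∫ v, (Ep G v + Em G v) * (‖f v‖ ^ 2 : ℝ) ∂nuW w =
      ((∫ v, Ep G v * (u v * conj (f v)) ∂nuW w) + ∫ v, Em G v * (f v * conj (u v)) ∂nuW w) -
      ((∫ v, Ep G v * ((u v - f v) * conj (f v)) ∂nuW w) +
        ∫ v, Em G v * (f v * conj (u v - f v)) ∂nuW w) := by
    rw [← integral_add i1 i2, ← integral_add i3 i4, ← integral_sub i5 i6]
    refine integral_congr_ae (Eventually.of_forall fun v => ?_)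
    simp only [← mul_conj_sq, map_sub]
    ring
  rw [fin]
  refine (norm_sub_le _ _).trans ((add_le_add t3 ((norm_add_le _ _).trans
    (add_le_add t1 t2))).trans (le_of_eq ?_))
  ring

lemma cont_fl_c5 : Continuous fun p : ℝ × V => fl p.1 p.2 := by
  simp only [fl_apply]
  fun_prop

lemma fderiv_fl_c5 {F : V → ℂ} (hc : ContDiffOn ℝ 1 F Om) (s : ℝ) {x : V} (hx : x ∈ Om) :
    fderiv ℝ (fun y => F (fl s y)) x = (fderiv ℝ F (fl s x)).comp (fl s) :=
  ((diffAt_of_Om hc one_ne_zero (fl_mem s hx)).hasFDerivAt.comp x (fl s).hasFDerivAt).fderiv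

lemma cont_fderiv_c5 {F : V → ℂ} (hc : ContDiffOn ℝ 1 F Om) {g : V → V} (hg : Continuous g) :
    ContinuousOn (fun p : ℝ × V => fderiv ℝ (fun y => F (fl p.1 y)) p.2 (g p.2))
      (univ ×ˢ Om) := by
  have c1 : ContinuousOn (fun p : ℝ × V => fderiv ℝ F (fl p.1 p.2)) (univ ×ˢ Om) :=
    (hc.continuousOn_fderiv_of_isOpen isOpen_Om le_rfl).comp cont_fl_c5.continuousOn
      fun p hp => fl_mem p.1 hp.2
  have c2 : Continuous fun p : ℝ × V => fl p.1 (g p.2) :=
    cont_fl_c5.comp (continuous_fst.prodMk (hg.comp continuous_snd))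
  refine (c1.clm_apply c2.continuousOn).congr fun p hp => ?_
  simp only [fderiv_fl_c5 hc p.1 hp.2, ContinuousLinearMap.comp_apply]

lemma cont_Ep_c5 {F : V → ℂ} (hc : ContDiffOn ℝ 1 F Om) :
    ContinuousOn (fun p : ℝ × V => Ep (fun y => F (fl p.1 y)) p.2) (univ ×ˢ Om) := by
  have c1 := cont_fderiv_c5 hc cj.continuous
  have c2 := cont_fderiv_c5 hc (g := fun y => I • cj y) (cj.continuous.const_smul I)
  exact ((c1.sub (continuousOn_const.mul c2)).div_const 2).neg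

lemma cont_Em_c5 {F : V → ℂ} (hc : ContDiffOn ℝ 1 F Om) :
    ContinuousOn (fun p : ℝ × V => Em (fun y => F (fl p.1 y)) p.2) (univ ×ˢ Om) := by
  have c1 := cont_fderiv_c5 hc cj.continuous
  have c2 := cont_fderiv_c5 hc (g := fun y => I • cj y) (cj.continuous.const_smul I)
  exact ((c1.add (continuousOn_const.mul c2)).div_const 2).neg

lemma der_fl_c5 (x : V) (t : ℝ) : HasDerivAt (fun t => fl t x) (fl t (cj x)) t := by
  have h1 := ((Real.hasDerivAt_cosh t).smul_const x).add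
    ((Real.hasDerivAt_sinh t).smul_const (cj x))
  have e : fl t (cj x) = Real.sinh t • x + Real.cosh t • cj x := by
    rw [fl_apply, cj_cj, add_comm]
  rw [e]
  exact h1

lemma der_c5 {F : V → ℂ} (hc : ContDiffOn ℝ 1 F Om) {x : V} (hx : x ∈ Om) (t : ℝ) :
    HasDerivAt (fun t => -F (fl t x))
      (Ep (fun y => F (fl t y)) x + Em (fun y => F (fl t y)) x) t := by
  have h2 : HasFDerivAt F (fderiv ℝ F (fl t x)) (fl t x) :=
    (diffAt_of_Om hc one_ne_zero (fl_mem t hx)).hasFDerivAt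
  have h3 := (HasFDerivAt.comp_hasDerivAt (f := fun t => fl t x) t h2 (der_fl_c5 x t)).neg
  rw [Ep_add_Em, fderiv_fl_c5 hc t hx, ContinuousLinearMap.comp_apply]
  exact h3

lemma cont_EE_c5 {F : V → ℂ} (hc : ContDiffOn ℝ 1 F Om) :
    ContinuousOn (fun p : ℝ × V => Ep (fun y => F (fl p.1 y)) p.2 +
      Em (fun y => F (fl p.1 y)) p.2) (univ ×ˢ Om) := (cont_Ep_c5 hc).add (cont_Em_c5 hc)

lemma ftc_c5 {F : V → ℂ} (hc : ContDiffOn ℝ 1 F Om) {x : V} (hx : x ∈ Om) (T : ℝ) :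
    F x - F (fl T x) =
      ∫ s in (0 : ℝ)..T, (Ep (fun y => F (fl s y)) x + Em (fun y => F (fl s y)) x) := by
  have c1 : Continuous fun t : ℝ => ((t, x) : ℝ × V) := continuous_id.prodMk continuous_const
  have c2 := (cont_EE_c5 hc).comp_continuous c1 fun t => ⟨mem_univ _, hx⟩
  have hcont : Continuous fun t : ℝ =>
      Ep (fun y => F (fl t y)) x + Em (fun y => F (fl t y)) x := by
    simpa only [Function.comp_def] using c2
  rw [intervalIntegral.integral_eq_sub_of_hasDerivAt (fun t _ => der_c5 hc hx t)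
    (hcont.intervalIntegrable _ _), fl_zero]
  ring

/-- approximate invariance for the time averages -/
theorem Geo.inv_tav (hG : Geo l D w) {F : V → ℂ} (hc : ContDiffOn ℝ 1 F Om) (hi : IV l F)
    {K : ℕ} (hK : 0 < K) : ∃ B : ℝ, 0 ≤ B ∧ ∀ (lam : ℝ) (Φ : ℤ → V → ℂ) (N : ℕ) (χ : ℤ → ℝ),
      OL1 l w lam Φ → Tent N χ → 1 ≤ N →
      ‖(∫ v, tav F K v * (‖lift N χ Φ v‖ ^ 2 : ℝ) ∂nuW w)
        - ∫ v, F v * (‖lift N χ Φ v‖ ^ 2 : ℝ) ∂nuW w‖ ≤ B * (1 / N + N ^ 4 / √lam) := by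
  obtain ⟨R, -, hR⟩ := hG.exists_KB
  have := hG.fin
  have hcomp : IsCompact (Icc (0 : ℝ) K ×ˢ KB R) := isCompact_Icc.prod (isCompact_KB R)
  have hsub : Icc (0 : ℝ) K ×ˢ KB R ⊆ univ ×ˢ Om := prod_mono (subset_univ _) (KB_subset_Om R)
  have c0 : ContinuousOn (fun p : ℝ × V => F (fl p.1 p.2)) (univ ×ˢ Om) :=
    hc.continuousOn.comp cont_fl_c5.continuousOn fun p hp => fl_mem p.1 hp.2
  obtain ⟨B0, hB0⟩ := hcomp.exists_bound_of_continuousOn (c0.mono hsub)
  obtain ⟨B1, hB1⟩ := hcomp.exists_bound_of_continuousOn ((cont_Ep_c5 hc).mono hsub)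
  obtain ⟨B2, hB2⟩ := hcomp.exists_bound_of_continuousOn ((cont_Em_c5 hc).mono hsub)
  set B := max (max B0 B1) (max B2 0) with hB
  have hBn : 0 ≤ B := le_max_of_le_right (le_max_right _ _)
  refine ⟨50 * K * B, by positivity, fun lam Φ N χ h hχ hN => ?_⟩
  set ρ : V → ℂ := fun v => ((‖lift N χ Φ v‖ ^ 2 : ℝ) : ℂ) with hρ
  have cρ : ContinuousOn ρ Om :=
    continuous_ofReal.comp_continuousOn ((h.lift_reg N χ).1.continuousOn.norm.pow 2)
  have cs : ∀ s : ℝ, ContDiffOn ℝ 1 (fun y => F (fl s y)) Om := fun s =>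
    hc.comp (fl s).contDiff.contDiffOn fun y hy => fl_mem s hy
  have one : ∀ s ∈ Icc (0 : ℝ) K, ‖∫ v, (Ep (fun y => F (fl s y)) v + Em (fun y => F (fl s y)) v)
      * ρ v ∂nuW w‖ ≤ B * (4 / N + 50 * N ^ 4 / √lam) := by
    intro s hs
    refine h.inv_inf hG hχ hN (cs s) (fun γ v hv => ?_) ?_
    · have := hi γ _ (fl_mem s hv)
      simp only [fl_eq_act, act_Lm] at this ⊢
      exact this
    · filter_upwards [hR] with v hv
      exact ⟨(hB0 (s, v) ⟨hs, hv⟩).trans (le_max_of_le_left (le_max_left _ _)),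
        (hB1 (s, v) ⟨hs, hv⟩).trans (le_max_of_le_left (le_max_right _ _)),
        (hB2 (s, v) ⟨hs, hv⟩).trans (le_max_of_le_right (le_max_left _ _))⟩
  have iF : ∀ s : ℝ, Integrable (fun v => F (fl s v) * ρ v) (nuW w) := fun s =>
    hG.integrable ((cs s).continuousOn.mul cρ)
  have i0 : Integrable (fun v => F v * ρ v) (nuW w) := hG.integrable (hc.continuousOn.mul cρ)
  have hpos : 0 ≤ B * (4 / N + 50 * N ^ 4 / √lam) := by positivity
  have two : ∀ T ∈ Icc (0 : ℝ) K, ‖(∫ v, F (fl T v) * ρ v ∂nuW w) - ∫ v, F v * ρ v ∂nuW w‖ ≤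
      K * (B * (4 / N + 50 * N ^ 4 / √lam)) := by
    intro T hT
    have hI := hG.integrable_prod (volume : Measure ℝ) (isCompact_Icc (a := (0 : ℝ)) (b := T))
      (f := fun p : ℝ × V =>
        (Ep (fun y => F (fl p.1 y)) p.2 + Em (fun y => F (fl p.1 y)) p.2) * ρ p.2)
      (((cont_EE_c5 hc).mul
        (cρ.comp continuous_snd.continuousOn fun p hp => hp.2)).mono
        (prod_mono (subset_univ _) le_rfl))
    have e1 : (∫ v, F v * ρ v ∂nuW w) - ∫ v, F (fl T v) * ρ v ∂nuW w =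
        ∫ s in Icc (0 : ℝ) T, ∫ v, (Ep (fun y => F (fl s y)) v + Em (fun y => F (fl s y)) v)
          * ρ v ∂nuW w := by
      rw [integral_integral_swap hI, ← integral_sub i0 (iF T)]
      refine integral_congr_ae (hG.ae_Om.mono fun v hv => ?_)
      simp only
      rw [← sub_mul, ftc_c5 hc hv, integral_mul_const, intervalIntegral.integral_of_le hT.1,
        integral_Icc_eq_integral_Ioc]
    rw [norm_sub_rev, e1]
    refine (norm_setIntegral_le_of_norm_le_const measure_Icc_lt_top fun s hs =>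
      one s ⟨hs.1, hs.2.trans hT.2⟩).trans ?_
    rw [Real.volume_real_Icc_of_le hT.1, sub_zero, mul_comm]
    exact mul_le_mul_of_nonneg_right hT.2 hpos
  have hK' : (0 : ℝ) < K := by exact_mod_cast hK
  have e2 : (∫ v, tav F K v * ρ v ∂nuW w) - ∫ v, F v * ρ v ∂nuW w =
      (K : ℂ)⁻¹ * ∑ k ∈ Finset.range K,
        ((∫ v, F (fl k v) * ρ v ∂nuW w) - ∫ v, F v * ρ v ∂nuW w) := by
    have hK0 : (K : ℂ) ≠ 0 := by exact_mod_cast hK.ne'
    simp only [tav, mul_assoc, Finset.sum_mul]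
    rw [integral_const_mul, integral_finsetSum (f := fun (k : ℕ) v => F (fl k v) * ρ v) _
      fun k _ => iF k, Finset.sum_sub_distrib,
      Finset.sum_const, Finset.card_range, nsmul_eq_mul]
    field_simp
  rw [e2, norm_mul, norm_inv, Complex.norm_natCast]
  have e3 : ‖∑ k ∈ Finset.range K,
      ((∫ v, F (fl k v) * ρ v ∂nuW w) - ∫ v, F v * ρ v ∂nuW w)‖ ≤
      K * (K * (B * (4 / N + 50 * N ^ 4 / √lam))) := by
    refine (norm_sum_le _ _).trans ((Finset.sum_le_sum fun (k : ℕ) hk =>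
      two (k : ℝ) ⟨Nat.cast_nonneg k, ?_⟩).trans (le_of_eq ?_))
    · exact_mod_cast (Finset.mem_range.1 hk).le
    · rw [Finset.sum_const, Finset.card_range, nsmul_eq_mul]
  calc _ ≤ (K : ℝ)⁻¹ * (K * (K * (B * (4 / N + 50 * N ^ 4 / √lam)))) := by gcongr
    _ = K * B * (4 * (1 / N) + 50 * (N ^ 4 / √lam)) := by field_simp
    _ ≤ K * B * (50 * (1 / N) + 50 * (N ^ 4 / √lam)) := by gcongr; norm_num
    _ = _ := by ring

end Pool.Agent.Lib.MP_a52643_an.H53
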