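import Pool.Agent.Lib.MP_a52643_an.H53C1b
import Pool.Agent.Lib.MP_a52643_an.H53C3

open Complex MeasureTheory Set Filter Topology Metric
open UpperHalfPlane (ofComplex)
open scoped ComplexConjugate ContDiff ENNReal UpperHalfPlane Laplacian Real

noncomputable section

namespace Pool.Agent.Lib.MP_a52643_an.H53

variable {Γ : Type} [Group Γ] [Countable Γ] [MulAction Γ ℍ] {l : Γ → SL2} {D : Set ℍ}
  {w : ℂ → ℝ}

lemma tent_dif_c5b {N : ℕ} {χ : ℤ → ℝ} (h : Tent N χ) (s : Finset ℤ) :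
    ∑ a ∈ s, (χ (a + 1) - χ a) ^ 2 ≤ 3 / (N : ℝ) ^ 2 := by
  refine le_trans ?_ h.dif
  classical
  rw [← Finset.sum_filter_of_ne (p := fun a => a ∈ Finset.Icc (-(N : ℤ) - 1) N)]
  · exact Finset.sum_le_sum_of_subset_of_nonneg (fun a ha => (Finset.mem_filter.1 ha).2)
      fun _ _ _ => sq_nonneg _
  · intro a _ hne
    by_contra hn
    apply hne
    rw [Finset.mem_Icc] at hn
    have h1 : χ (a + 1) = 0 := h.zero _ (by rw [le_abs]; omega)
    have h2 : χ a = 0 := h.zero _ (by rw [le_abs]; omega)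
    rw [h1, h2]; simp

lemma tent_abs_c5b {N : ℕ} {χ : ℤ → ℝ} (h : Tent N χ) (a : ℤ) : |χ a| ≤ 1 := by
  by_cases ha : a ∈ Finset.Icc (-(N : ℤ)) N
  · have h1 : χ a ^ 2 ≤ 1 := by
      rw [← h.sq]
      exact Finset.single_le_sum (f := fun a => χ a ^ 2) (fun _ _ => sq_nonneg _) ha
    exact (sq_le_one_iff_abs_le_one _).1 h1
  · rw [Finset.mem_Icc] at ha
    rw [h.zero a (by rw [le_abs]; omega)]; simp

lemma tent_step_c5b {N : ℕ} {χ : ℤ → ℝ} (h : Tent N χ) (hN : 1 ≤ N) (n : ℤ) :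
    |(∑ c ∈ Finset.Icc (-(N : ℤ)) N, χ c * χ (c + (n + 1)))
      - ∑ c ∈ Finset.Icc (-(N : ℤ)) N, χ c * χ (c + n)| ≤ 2 / N := by
  have hN' : (0 : ℝ) < N := by exact_mod_cast hN
  rw [← Finset.sum_sub_distrib]
  have h1 := Finset.sum_mul_sq_le_sq_mul_sq (Finset.Icc (-(N : ℤ)) N) χ
    (fun c => χ (c + n + 1) - χ (c + n))
  have h2 : ∑ c ∈ Finset.Icc (-(N : ℤ)) N, (χ (c + n + 1) - χ (c + n)) ^ 2
      ≤ 3 / (N : ℝ) ^ 2 := by
    have := tent_dif_c5b h ((Finset.Icc (-(N : ℤ)) N).map (addRightEmbedding n))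
    rw [Finset.sum_map] at this
    simpa using this
  rw [h.sq, one_mul] at h1
  have e : ∑ c ∈ Finset.Icc (-(N : ℤ)) N, (χ c * χ (c + (n + 1)) - χ c * χ (c + n))
      = ∑ c ∈ Finset.Icc (-(N : ℤ)) N, χ c * (χ (c + n + 1) - χ (c + n)) :=
    Finset.sum_congr rfl fun c _ => by rw [add_assoc]; ring
  rw [e]
  refine abs_le_of_sq_le_sq' ?_ (by positivity) |> abs_le.2
  refine (h1.trans h2).trans ?_
  rw [div_pow]
  exact div_le_div_of_nonneg_right (by norm_num) (by positivity)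

lemma tent_corr_c5b {N : ℕ} {χ : ℤ → ℝ} (h : Tent N χ) (hN : 1 ≤ N) (n : ℤ) :
    |(∑ c ∈ Finset.Icc (-(N : ℤ)) N, χ c * χ (c + n)) - 1| ≤ 2 * |(n : ℝ)| / N := by
  induction n using Int.induction_on with
  | zero =>
    have : ∑ c ∈ Finset.Icc (-(N : ℤ)) N, χ c * χ (c + 0) = 1 := by
      rw [← h.sq]; exact Finset.sum_congr rfl fun c _ => by rw [add_zero, sq]
    rw [this]; simp
  | succ n ih =>
    have h1 := tent_step_c5b h hN n
    have e : (2 : ℝ) * |(((n : ℤ) + 1 : ℤ) : ℝ)| / N = 2 / N + 2 * |((n : ℤ) : ℝ)| / N := by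
      push_cast
      rw [abs_of_nonneg (by positivity), abs_of_nonneg (by positivity)]; ring
    rw [e]
    exact (abs_sub_le _ _ _).trans (add_le_add h1 ih)
  | pred n ih =>
    have h1 := tent_step_c5b h hN (-(n : ℤ) - 1)
    rw [sub_add_cancel, abs_sub_comm] at h1
    have e : (2 : ℝ) * |((-(n : ℤ) - 1 : ℤ) : ℝ)| / N = 2 / N + 2 * |((-(n : ℤ) : ℤ) : ℝ)| / N := by
      push_cast
      have : (0 : ℝ) ≤ n := by positivity
      rw [abs_of_nonpos (by linarith), abs_of_nonpos (by linarith)]; ring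
    rw [e]
    exact (abs_sub_le _ _ _).trans (add_le_add h1 ih)

lemma bd_c5b (hG : Geo l D w) {G : V → ℂ} (hc : ContinuousOn G Om) {B : ℝ}
    (hB : ∀ v ∈ Om, ‖G v‖ ≤ B) (hB0 : 0 ≤ B) {lam : ℝ} {Φ : ℤ → V → ℂ} (h : OL1 l w lam Φ)
    (c d : ℤ) : ‖∫ v, G v * TT Φ c d v ∂nuW w‖ ≤ B := by
  have n1 : ∀ c, ∫ v, ‖Φ c v‖ ^ 2 ∂nuW w = 1 := fun c => by
    have := h.orth c c
    simp only [TT, mul_conj_sq, if_true] at this
    rw [integral_complex_ofReal] at this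
    exact_mod_cast this
  have h1 := hG.cs (h.lad.cont c) (h.lad.cont d)
  rw [n1, n1, one_mul] at h1
  have h2 : ∫ v, ‖Φ c v‖ * ‖Φ d v‖ ∂nuW w ≤ 1 :=
    (le_abs_self _).trans ((sq_le_one_iff_abs_le_one _).1 h1)
  have i1 : Integrable (fun v => ‖Φ c v‖ * ‖Φ d v‖) (nuW w) :=
    hG.integrable ((h.lad.cont c).norm.mul (h.lad.cont d).norm)
  calc ‖∫ v, G v * TT Φ c d v ∂nuW w‖ ≤ ∫ v, B * (‖Φ c v‖ * ‖Φ d v‖) ∂nuW w := by
        refine norm_integral_le_of_norm_le (i1.const_mul B) (hG.ae_Om.mono fun v hv => ?_)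
        rw [norm_mul, TT, norm_mul, Complex.norm_conj]
        exact mul_le_mul_of_nonneg_right (hB v hv) (by positivity)
    _ = B * ∫ v, ‖Φ c v‖ * ‖Φ d v‖ ∂nuW w := integral_const_mul _ _
    _ ≤ B := mul_le_of_le_one_right hB0 h2

lemma ibp_c5b (hG : Geo l D w) {F : V → ℂ} (hc : ContDiffOn ℝ 1 F Om) (hi : IV l F)
    {lam : ℝ} {Φ : ℤ → V → ℂ} (h : OL1 l w lam Φ) (c d : ℤ) :
    (∫ v, Ep F v * TT Φ c (d + 1) v ∂nuW w)
      + I * al lam c * (∫ v, F v * TT Φ (c + 1) (d + 1) v ∂nuW w)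
      - I * al lam d * ∫ v, F v * TT Φ c d v ∂nuW w = 0 := by
  have hT := h.lad.cd_TT
  have e0 := hG.int_Ep (H := fun v => F v * TT Φ c (d + 1) v) (hc.mul (hT _ _)) (by
    intro γ v hv
    simp only [TT, hi γ v hv, h.linv c γ v hv, h.linv (d + 1) γ v hv])
  have ii : ∀ a b, Integrable (fun v => F v * TT Φ a b v) (nuW w) := fun a b =>
    hG.integrable (hc.continuousOn.mul (hT a b).continuousOn)
  have i2 : Integrable (fun v => Ep F v * TT Φ c (d + 1) v) (nuW w) :=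
    hG.integrable ((continuousOn_Ep hc).mul (hT _ _).continuousOn)
  have i3 : Integrable (fun v => Ep F v * TT Φ c (d + 1) v
      + I * al lam c * (F v * TT Φ (c + 1) (d + 1) v)) (nuW w) := i2.add ((ii _ _).const_mul _)
  rw [← e0, ← integral_const_mul, ← integral_const_mul,
    ← integral_add i2 ((ii _ _).const_mul _), ← integral_sub i3 ((ii _ _).const_mul _)]
  refine integral_congr_ae (hG.ae_Om.mono fun v hv => ?_)
  have := ((HasE.of_diff (diffAt_of_Om hc one_ne_zero hv)).mul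
    ((h.lad.hasE c hv).mul (h.lad.hasE (d + 1) hv).conj)).ep
  have e : Ep (fun v => F v * TT Φ c (d + 1) v) v = _ := this
  beta_reduce
  rw [e]
  simp only [TT, add_sub_cancel_right, map_mul, conj_I, conj_ofReal]
  ring

lemma step_c5b (hG : Geo l D w) {F : V → ℂ} (hc : ContDiffOn ℝ 1 F Om) (hi : IV l F)
    (hp : PH F) (c d : ℤ) : ∃ C : ℝ, 0 ≤ C ∧ ∀ (lam : ℝ) (Φ : ℤ → V → ℂ), OL1 l w lam Φ →
      1 ≤ lam → ‖(∫ v, F v * TT Φ (c + 1) (d + 1) v ∂nuW w) - ∫ v, F v * TT Φ c d v ∂nuW w‖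
        ≤ C / √lam := by
  obtain ⟨B0, hB0⟩ := hG.bdd (F := F) ⟨hc.continuousOn, hi, hp⟩
  obtain ⟨B1, hB1⟩ := hG.bdd (F := Ep F) ⟨continuousOn_Ep hc, hi.ep hc, hp.ep hc⟩
  set K : ℝ := |(d : ℝ) * (d + 1) - c * (c + 1)| with hK
  refine ⟨max B1 0 + K * max B0 0, by positivity, fun lam Φ h hl => ?_⟩
  have b0 := bd_c5b hG hc.continuousOn (B := max B0 0)
    (fun v hv => (hB0 v hv).trans (le_max_left _ _)) (le_max_right _ _) h c d
  have b1 := bd_c5b hG (continuousOn_Ep hc) (B := max B1 0)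
    (fun v hv => (hB1 v hv).trans (le_max_left _ _)) (le_max_right _ _) h c (d + 1)
  have e := ibp_c5b hG hc hi h c d
  set Y := ∫ v, Ep F v * TT Φ c (d + 1) v ∂nuW w
  set X' := ∫ v, F v * TT Φ (c + 1) (d + 1) v ∂nuW w
  set X := ∫ v, F v * TT Φ c d v ∂nuW w
  have hs : 1 ≤ √lam := Real.one_le_sqrt.2 hl
  have e2 : ((al lam c : ℝ) : ℂ) * (X' - X) = I * Y + ((al lam d - al lam c : ℝ) : ℂ) * X := by
    push_cast
    linear_combination (-I) * e + (al lam c * X' - al lam d * X) * I_mul_I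
  have h3 : |al lam d - al lam c| ≤ K :=
    (abs_al_sub_le h.pos d c).trans (div_le_self (abs_nonneg _) hs)
  have h4 : al lam c * ‖X' - X‖ ≤ max B1 0 + K * max B0 0 := by
    have := congrArg norm e2
    rw [norm_mul, Complex.norm_real, Real.norm_of_nonneg (al_pos h.pos c).le] at this
    rw [this]
    refine (norm_add_le _ _).trans (add_le_add ?_ ?_)
    · rw [norm_mul, Complex.norm_I, one_mul]; exact b1
    · rw [norm_mul, Complex.norm_real, Real.norm_eq_abs]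
      exact mul_le_mul h3 b0 (norm_nonneg _) (abs_nonneg _)
  rw [le_div_iff₀ (by linarith)]
  refine le_trans ?_ h4
  rw [mul_comm]
  exact mul_le_mul_of_nonneg_right (sqrt_le_al lam c) (norm_nonneg _)

lemma chain_c5b (hG : Geo l D w) {F : V → ℂ} (hc : ContDiffOn ℝ 1 F Om) (hi : IV l F)
    (hp : PH F) (a b k : ℤ) : ∃ C : ℝ, 0 ≤ C ∧ ∀ (lam : ℝ) (Φ : ℤ → V → ℂ), OL1 l w lam Φ →
      1 ≤ lam → ‖(∫ v, F v * TT Φ (a + k) (b + k) v ∂nuW w) - ∫ v, F v * TT Φ a b v ∂nuW w‖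
        ≤ C / √lam := by
  induction k using Int.induction_on with
  | zero => exact ⟨0, le_rfl, fun lam Φ _ _ => by simp⟩
  | succ k ih =>
    obtain ⟨C, hC, H⟩ := ih
    obtain ⟨C', hC', H'⟩ := step_c5b hG hc hi hp (a + k) (b + k)
    refine ⟨C' + C, by positivity, fun lam Φ h hl => ?_⟩
    rw [add_div, ← add_assoc, ← add_assoc]
    exact (norm_sub_le_norm_sub_add_norm_sub _ _ _).trans
      (add_le_add (H' lam Φ h hl) (H lam Φ h hl))
  | pred k ih =>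
    obtain ⟨C, hC, H⟩ := ih
    obtain ⟨C', hC', H'⟩ := step_c5b hG hc hi hp (a + (-(k : ℤ) - 1)) (b + (-(k : ℤ) - 1))
    refine ⟨C' + C, by positivity, fun lam Φ h hl => ?_⟩
    have h1 := H' lam Φ h hl
    rw [add_assoc, add_assoc, sub_add_cancel, norm_sub_rev] at h1
    rw [add_div]
    exact (norm_sub_le_norm_sub_add_norm_sub _ _ _).trans (add_le_add h1 (H lam Φ h hl))

lemma expand_c5b (hG : Geo l D w) {F : V → ℂ} (hc : ContinuousOn F Om) {n : ℤ} (hh : Hom n F)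
    {lam : ℝ} {Φ : ℤ → V → ℂ} (h : OL1 l w lam Φ) {N : ℕ} {χ : ℤ → ℝ} (hχ : Tent N χ) :
    ∫ v, F v * (‖lift N χ Φ v‖ ^ 2 : ℝ) ∂nuW w = ∑ c ∈ Finset.Icc (-(N : ℤ)) N,
      ((χ c * χ (c + n) : ℝ) : ℂ) * ∫ v, F v * TT Φ c (c + n) v ∂nuW w := by
  have hT := h.lad.cd_TT
  have ii : ∀ a b, Integrable (fun v => F v * TT Φ a b v) (nuW w) := fun a b =>
    hG.integrable (hc.mul (hT a b).continuousOn)
  have e : ∀ v, F v * (‖lift N χ Φ v‖ ^ 2 : ℝ) = ∑ c ∈ Finset.Icc (-(N : ℤ)) N,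
      ∑ d ∈ Finset.Icc (-(N : ℤ)) N, ((χ c * χ d : ℝ) : ℂ) * (F v * TT Φ c d v) := by
    intro v
    rw [← mul_conj_sq, lift, map_sum, Finset.sum_mul_sum, Finset.mul_sum]
    refine Finset.sum_congr rfl fun c _ => ?_
    rw [Finset.mul_sum]
    refine Finset.sum_congr rfl fun d _ => ?_
    simp only [TT, map_mul, conj_ofReal, ofReal_mul]
    ring
  simp only [e]
  rw [integral_finsetSum _ fun c _ => integrable_finsetSum _ fun d _ => (ii c d).const_mul _]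
  refine Finset.sum_congr rfl fun c _ => ?_
  rw [integral_finsetSum _ fun d _ => (ii c d).const_mul _]
  simp only [integral_const_mul]
  refine Finset.sum_eq_single (c + n) (fun d _ hd => ?_) fun hd => ?_
  · rw [hG.hom_zero (k := n + (c - d)) (F := fun v => F v * TT Φ c d v) (by omega)
      (hc.mul (hT c d).continuousOn) (hh.mul (h.lad.hom_TT c d)), mul_zero]
  · rw [Finset.mem_Icc] at hd
    rw [hχ.zero (c + n) (by rw [le_abs]; omega)]; simp

/-- the lift reproduces the matrix coefficients -/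
theorem Geo.shift (hG : Geo l D w) {F : V → ℂ} (hc : ContDiffOn ℝ 1 F Om) (hi : IV l F)
    (a b : ℤ) (hh : Hom (b - a) F) : ∃ B : ℝ, 0 ≤ B ∧ ∀ N : ℕ, 1 ≤ N → ∃ C : ℝ, 0 ≤ C ∧
      ∀ (lam : ℝ) (Φ : ℤ → V → ℂ) (χ : ℤ → ℝ), OL1 l w lam Φ → Tent N χ → 1 ≤ lam →
      ‖(∫ v, F v * (‖lift N χ Φ v‖ ^ 2 : ℝ) ∂nuW w) - ∫ v, F v * TT Φ a b v ∂nuW w‖
        ≤ B / N + C / √lam := by
  have hp : PH F := ph_of_hom hh
  obtain ⟨B0, hB0⟩ := hG.bdd (F := F) ⟨hc.continuousOn, hi, hp⟩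
  choose C hC H using chain_c5b hG hc hi hp a b
  refine ⟨2 * |((b - a : ℤ) : ℝ)| * max B0 0, by positivity, fun N hN =>
    ⟨∑ c ∈ Finset.Icc (-(N : ℤ)) N, C (c - a), Finset.sum_nonneg fun c _ => hC _,
      fun lam Φ χ h hχ hl => ?_⟩⟩
  have b0 := bd_c5b hG hc.continuousOn (B := max B0 0)
    (fun v hv => (hB0 v hv).trans (le_max_left _ _)) (le_max_right _ _) h a b
  rw [expand_c5b hG hc.continuousOn hh h hχ]
  set X := ∫ v, F v * TT Φ a b v ∂nuW w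
  have e : (∑ c ∈ Finset.Icc (-(N : ℤ)) N, ((χ c * χ (c + (b - a)) : ℝ) : ℂ)
        * ∫ v, F v * TT Φ c (c + (b - a)) v ∂nuW w) - X
      = (((∑ c ∈ Finset.Icc (-(N : ℤ)) N, χ c * χ (c + (b - a))) - 1 : ℝ) : ℂ) * X
        + ∑ c ∈ Finset.Icc (-(N : ℤ)) N, ((χ c * χ (c + (b - a)) : ℝ) : ℂ)
          * ((∫ v, F v * TT Φ c (c + (b - a)) v ∂nuW w) - X) := by
    simp only [mul_sub, Finset.sum_sub_distrib, ofReal_sub, ofReal_sum, sub_mul, Finset.sum_mul,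
      ofReal_one, one_mul]
    ring
  rw [e]
  refine (norm_add_le _ _).trans (add_le_add ?_ ?_)
  · rw [norm_mul, Complex.norm_real, Real.norm_eq_abs, mul_div_right_comm]
    exact mul_le_mul (tent_corr_c5b hχ hN _) b0 (norm_nonneg _) (by positivity)
  · rw [Finset.sum_div]
    refine (norm_sum_le _ _).trans (Finset.sum_le_sum fun c _ => ?_)
    have h1 := H (c - a) lam Φ h hl
    rw [show a + (c - a) = c by ring, show b + (c - a) = c + (b - a) by ring] at h1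
    rw [norm_mul, Complex.norm_real, Real.norm_eq_abs, abs_mul]
    refine le_trans (mul_le_of_le_one_left (norm_nonneg _) ?_) h1
    exact mul_le_one₀ (tent_abs_c5b hχ _) (abs_nonneg _) (tent_abs_c5b hχ _)

end Pool.Agent.Lib.MP_a52643_an.H53
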