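import Pool.Agent.Lib.MP_a52643_an.H53C1b

open Complex MeasureTheory Set Filter Topology Metric
open UpperHalfPlane (ofComplex)
open scoped ComplexConjugate ContDiff ENNReal UpperHalfPlane Laplacian Real

noncomputable section

namespace Pool.Agent.Lib.MP_a52643_an.H53

variable {Γ : Type} [Group Γ] [Countable Γ] [MulAction Γ ℍ] {l : Γ → SL2} {D : Set ℍ}
  {w : ℂ → ℝ}

omit [Group Γ] [Countable Γ] [MulAction Γ ℍ] in
lemma IC.avg_c6 {F : ℕ → V → ℂ} (h : ∀ k, IC l (F k)) (K : ℕ) :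
    IC l fun x => (K : ℂ)⁻¹ * ∑ k ∈ Finset.range K, F k x :=
  ⟨continuousOn_const.mul (continuousOn_finsetSum _ fun k _ => (h k).cont),
    fun γ v hv => by simp only [(h _).inv γ v hv], fun c hc v hv => by simp only [(h _).ph c hc v hv]⟩

omit [Group Γ] [Countable Γ] [MulAction Γ ℍ] in
lemma IC.tav {F : V → ℂ} (h : IC l F) (K : ℕ) : IC l (tav F K) :=
  IC.avg_c6 (fun k => h.fl k) K

lemma tav_bound {F : V → ℂ} {B : ℝ} (hB : ∀ v ∈ Om, ‖F v‖ ≤ B) {K : ℕ} (hK : 0 < K) :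
    ∀ v ∈ Om, ‖tav F K v‖ ≤ B := by
  intro v hv
  rw [tav, norm_mul, norm_inv, Complex.norm_natCast, inv_mul_le_iff₀ (by exact_mod_cast hK)]
  refine (norm_sum_le _ _).trans ?_
  simpa using Finset.sum_le_sum (s := Finset.range K) fun k _ => hB _ (fl_mem k hv)

omit [Group Γ] [Countable Γ] [MulAction Γ ℍ] in
lemma IC.sub_c6 {F G : V → ℂ} (h : IC l F) (h' : IC l G) : IC l fun x => F x - G x :=
  ⟨h.cont.sub h'.cont, fun γ v hv => by simp only [h.inv γ v hv, h'.inv γ v hv],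
    fun c hc v hv => by simp only [h.ph c hc v hv, h'.ph c hc v hv]⟩

omit [Group Γ] [Countable Γ] [MulAction Γ ℍ] in
lemma IC.sq_c6 {F : V → ℂ} (h : IC l F) : IC l fun x => ‖F x‖ ^ 2 :=
  ⟨h.cont.norm.pow 2, fun γ v hv => by simp only [h.inv γ v hv],
    fun c hc v hv => by simp only [h.ph c hc v hv]⟩

lemma Geo.sq_fl_c6 (hG : Geo l D w) {F : V → ℂ} (h : IC l F) (t : ℝ) :
    ∫ v, ‖F (fl t v)‖ ^ 2 ∂nuW w = ∫ v, ‖F v‖ ^ 2 ∂nuW w := by
  simp only [fl_eq_act]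
  exact hG.transport_real h.sq_c6 (by rw [dm_fl]; exact one_pos)

lemma Geo.tri_c6 (hG : Geo l D w) {A B C : ℕ → V → ℂ} (hA : ∀ k, IC l (A k)) (hB : ∀ k, IC l (B k))
    (hC : ∀ k, IC l (C k))
    (h1 : Tendsto (fun k => ∫ v, ‖A k v - B k v‖ ^ 2 ∂nuW w) atTop (𝓝 0))
    (h2 : Tendsto (fun k => ∫ v, ‖B k v - C k v‖ ^ 2 ∂nuW w) atTop (𝓝 0)) :
    Tendsto (fun k => ∫ v, ‖A k v - C k v‖ ^ 2 ∂nuW w) atTop (𝓝 0) := by
  have h := (h1.add h2).const_mul 2
  rw [add_zero, mul_zero] at h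
  refine squeeze_zero (fun k => integral_nonneg fun v => by positivity) (fun k => ?_) h
  have i1 := hG.integrable ((hA k).sub_c6 (hB k)).sq_c6.cont
  have i2 := hG.integrable ((hB k).sub_c6 (hC k)).sq_c6.cont
  rw [← integral_add i1 i2, ← integral_const_mul]
  refine integral_mono (hG.integrable ((hA k).sub_c6 (hC k)).sq_c6.cont) ((i1.add i2).const_mul 2)
    fun v => ?_
  have h3 := norm_sub_le_norm_sub_add_norm_sub (A k v) (B k v) (C k v)
  have h4 := pow_le_pow_left₀ (norm_nonneg _) h3 2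
  simp only
  nlinarith [sq_nonneg (‖A k v - B k v‖ - ‖B k v - C k v‖)]

lemma Geo.avg_c6 (hG : Geo l D w) {F : V → ℂ} (h : IC l F) {m : V} (t : ℕ → ℝ) (n : ℕ → V)
    (hn : ∀ k, 0 < dm (n k)) (ht : ∀ k v, fl (t k) (act m v) = act (n k) (fl (t k) v)) (K : ℕ) :
    ∫ v, ‖(K : ℂ)⁻¹ * ∑ k ∈ Finset.range K, F (fl (t k) (act m v)) -
        (K : ℂ)⁻¹ * ∑ k ∈ Finset.range K, F (fl (t k) v)‖ ^ 2 ∂nuW w ≤
      (K : ℝ)⁻¹ * ∑ k ∈ Finset.range K, ∫ v, ‖F (act (n k) v) - F v‖ ^ 2 ∂nuW w := by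
  have h1 : ∀ k, IC l fun v => F (act (n k) v) - F v := fun k => (h.act (hn k)).sub_c6 h
  have h2 : ∀ k ∈ Finset.range K, Integrable (fun v => ‖F (act (n k) (fl (t k) v)) - F (fl (t k) v)‖ ^ 2)
      (nuW w) := fun k _ => hG.integrable ((h1 k).fl (t k)).sq_c6.cont
  simp only [← fun k => hG.sq_fl_c6 (h1 k) (t k)]
  rw [← integral_finsetSum _ h2, ← integral_const_mul]
  refine integral_mono_of_nonneg (Eventually.of_forall fun v => by positivity)
    ((integrable_finsetSum _ h2).const_mul _) (Eventually.of_forall fun v => ?_)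
  simp only [ht, ← mul_sub, ← Finset.sum_sub_distrib, norm_mul, norm_inv, Complex.norm_natCast]
  rcases Nat.eq_zero_or_pos K with rfl | hK
  · simp
  have h3 := sq_sum_le_card_mul_sum_sq (s := Finset.range K)
    (f := fun k => ‖F (act (n k) (fl (t k) v)) - F (fl (t k) v)‖)
  have h4 := (pow_le_pow_left₀ (norm_nonneg _) (norm_sum_le (Finset.range K)
    fun k => F (act (n k) (fl (t k) v)) - F (fl (t k) v)) 2).trans h3
  rw [Finset.card_range] at h4
  have h5 : (0 : ℝ) < K := by exact_mod_cast hK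
  rw [mul_pow]
  refine (mul_le_mul_of_nonneg_left h4 (by positivity)).trans_eq ?_
  field_simp

lemma Geo.ces_c6 (hG : Geo l D w) {F : V → ℂ} (h : IC l F) {U : ℝ → V} (hU : Continuous U)
    (hU0 : U 0 = (1, 0)) (hU1 : ∀ x, dm (U x) = 1) (x : ℝ) :
    Tendsto (fun j : ℕ => ((2 ^ j : ℕ) : ℝ)⁻¹ * ∑ k ∈ Finset.range (2 ^ j),
      ∫ v, ‖F (act (U (x * Real.exp (-2 * k))) v) - F v‖ ^ 2 ∂nuW w) atTop (𝓝 0) := by
  have h1 := (hG.contOn_integral (isCompact_closedBall (0 : ℝ) 1)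
    (f := fun p => ‖F (act (U p.1) p.2) - F p.2‖ ^ 2) (((h.cont.comp
      (continuous_act.comp ((hU.comp continuous_fst).prodMk continuous_snd)).continuousOn
      fun p hp => act_mem (one_pos.trans_eq (hU1 p.1).symm) hp.2).sub
      (h.cont.comp continuousOn_snd fun p hp => hp.2)).norm.pow 2)).continuousAt
      (closedBall_mem_nhds 0 one_pos)
  have h2 : Tendsto (fun k : ℕ => x * Real.exp (-2 * k)) atTop (𝓝 0) := by
    simpa using (Real.tendsto_exp_atBot.comp (tendsto_natCast_atTop_atTop.const_mul_atTop_of_neg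
      (show (-2 : ℝ) < 0 by norm_num))).const_mul x
  have h3 := (h1.tendsto.comp h2).cesaro.comp (tendsto_pow_atTop_atTop_of_one_lt one_lt_two)
  simpa only [hU0, act_one, sub_self, norm_zero, ne_eq, OfNat.ofNat_ne_zero, not_false_eq_true,
    zero_pow, integral_zero, Function.comp_def] using h3

lemma Geo.shift_c6 (hG : Geo l D w) {F : V → ℂ} (h : IC l F) :
    Tendsto (fun k : ℕ => ∫ v, ‖tav F (2 ^ k) (fl (2 ^ k : ℕ) v) - tav F (2 ^ k) v‖ ^ 2 ∂nuW w) atTop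
      (𝓝 0) := by
  set a : ℕ → ℝ := fun k => ∫ v, ‖tav F (2 ^ k) v‖ ^ 2 ∂nuW w with ha
  have h1 : ∀ k, ∫ v, ‖tav F (2 ^ k) (fl (2 ^ k : ℕ) v) - tav F (2 ^ k) v‖ ^ 2 ∂nuW w =
      4 * (a k - a (k + 1)) := by
    intro k
    have i1 := hG.integrable (h.tav (2 ^ k)).sq_c6.cont
    have i2 := hG.integrable ((h.tav (2 ^ k)).fl (2 ^ k : ℕ)).sq_c6.cont
    have i3 := hG.integrable (h.tav (2 ^ (k + 1))).sq_c6.cont
    have h2 : ∀ v, ‖tav F (2 ^ k) (fl (2 ^ k : ℕ) v) - tav F (2 ^ k) v‖ ^ 2 =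
        2 * (‖tav F (2 ^ k) (fl (2 ^ k : ℕ) v)‖ ^ 2 + ‖tav F (2 ^ k) v‖ ^ 2) -
          4 * ‖tav F (2 ^ (k + 1)) v‖ ^ 2 := fun v => by
      have h3 : tav F (2 ^ k) (fl (2 ^ k : ℕ) v) + tav F (2 ^ k) v = 2 * tav F (2 ^ (k + 1)) v := by
        simp only [tav, pow_succ, mul_two, Finset.sum_range_add, fl_fl, Nat.cast_add,
          add_comm ((2 ^ k : ℕ) : ℝ)]
        field_simp
        ring
      have h4 := parallelogram_law_with_norm ℂ (tav F (2 ^ k) (fl (2 ^ k : ℕ) v)) (tav F (2 ^ k) v)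
      rw [h3, norm_mul, Complex.norm_two] at h4
      nlinarith
    simp only [h2]
    rw [integral_sub (by exact (i2.add i1).const_mul 2) (i3.const_mul 4), integral_const_mul,
      integral_const_mul, integral_add i2 i1, hG.sq_fl_c6 (h.tav _)]
    ring
  have h2 : Antitone a := antitone_nat_of_succ_le fun k => by
    have := (integral_nonneg fun v => by positivity).trans_eq (h1 k)
    linarith
  have h3 := tendsto_atTop_ciInf h2 ⟨0, by
    rintro _ ⟨k, rfl⟩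
    exact integral_nonneg fun v => by positivity⟩
  simpa only [h1, sub_self, mul_zero, Function.comp_def] using
    (h3.sub (h3.comp (tendsto_add_atTop_nat 1))).const_mul 4

lemma Geo.uf_c6 (hG : Geo l D w) {F : V → ℂ} (h : IC l F) (x : ℝ) :
    Tendsto (fun k : ℕ => ∫ v, ‖tav F (2 ^ k) (act (Uf x) v) - tav F (2 ^ k) v‖ ^ 2 ∂nuW w) atTop
      (𝓝 0) :=
  squeeze_zero (fun _ => integral_nonneg fun v => by positivity)
    (fun k => hG.avg_c6 h (fun k => k) _ (fun k => by rw [dm_Uf]; exact one_pos)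
      (fun k v => fl_Uf k x v) _)
    (hG.ces_c6 h (by unfold Uf; fun_prop) (by simp [Uf]) dm_Uf x)

lemma Geo.ub_c6 (hG : Geo l D w) {F : V → ℂ} (h : IC l F) (x : ℝ) :
    Tendsto (fun k : ℕ => ∫ v, ‖tav F (2 ^ k) (act (Ub x) v) - tav F (2 ^ k) v‖ ^ 2 ∂nuW w) atTop
      (𝓝 0) := by
  have hm : 0 < dm (Ub x) := by rw [dm_Ub]; exact one_pos
  have hy : ∀ k : ℕ, IC l fun v => tav F (2 ^ k) (fl (1 - (2 ^ k : ℕ)) (fl (-1) v)) := fun k =>
    ((h.tav _).fl _).fl _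
  have h1 : Tendsto (fun k : ℕ => ∫ v, ‖tav F (2 ^ k) v -
      tav F (2 ^ k) (fl (1 - (2 ^ k : ℕ)) (fl (-1) v))‖ ^ 2 ∂nuW w) atTop (𝓝 0) := by
    refine (hG.shift_c6 h).congr fun k => ?_
    rw [← hG.sq_fl_c6 ((h.tav _).sub_c6 (hy k)) (2 ^ k : ℕ)]
    simp only [fl_fl, show (1 - ((2 ^ k : ℕ) : ℝ)) + (-1 + (2 ^ k : ℕ)) = 0 by ring, fl_zero]
  have h2 : Tendsto (fun k : ℕ => ∫ v,
      ‖tav F (2 ^ k) (fl (1 - (2 ^ k : ℕ)) (fl (-1) (act (Ub x) v))) -
        tav F (2 ^ k) (fl (1 - (2 ^ k : ℕ)) (fl (-1) v))‖ ^ 2 ∂nuW w) atTop (𝓝 0) := by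
    refine squeeze_zero (fun _ => integral_nonneg fun v => by positivity) (fun k => ?_)
      (hG.ces_c6 h (U := Ub) (by unfold Ub; fun_prop) (by simp [Ub]) dm_Ub (x * Real.exp (-2)))
    have h3 : ∀ v, tav F (2 ^ k) (fl (1 - (2 ^ k : ℕ)) (fl (-1) v)) =
        ((2 ^ k : ℕ) : ℂ)⁻¹ * ∑ j ∈ Finset.range (2 ^ k), F (fl (-(j + 1)) v) := fun v => by
      rw [tav, ← Finset.sum_range_reflect]
      refine congrArg _ (Finset.sum_congr rfl fun j hj => ?_)
      rw [fl_fl, fl_fl, Nat.sub_right_comm, Nat.cast_pred (Nat.sub_pos_of_lt (Finset.mem_range.1 hj)),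
        Nat.cast_sub (Finset.mem_range.1 hj).le]
      congr 3
      ring
    simp only [h3]
    refine hG.avg_c6 h (fun j => -(j + 1)) _ (fun k => by rw [dm_Ub]; exact one_pos) (fun j v => ?_) _
    rw [fl_Ub, mul_assoc, ← Real.exp_add]
    congr 5
    ring
  refine hG.tri_c6 (fun k => (h.tav _).act hm) hy (fun k => h.tav _)
    (hG.tri_c6 (fun k => (h.tav _).act hm) (fun k => (hy k).act hm) hy (h1.congr fun k => ?_) h2)
    (by simpa only [norm_sub_rev] using h1)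
  exact (hG.transport_real ((h.tav _).sub_c6 (hy k)).sq_c6 hm).symm

/-- time averages become invariant under generic elements -/
theorem Geo.tav_act (hG : Geo l D w) {F : V → ℂ} (h : IC l F) {m : V} (hm : 0 < dm m)
    (hm' : m.2.im ≠ m.1.im) :
    Tendsto (fun k : ℕ => ∫ v, ‖tav F (2 ^ k) (act m v) - tav F (2 ^ k) v‖ ^ 2 ∂nuW w) atTop
      (𝓝 0) := by
  obtain ⟨c, x, y, z, hc, hv⟩ := act_decomp hm hm'
  have hf : ∀ x, 0 < dm (Uf x) := fun x => by rw [dm_Uf]; exact one_pos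
  have hb : 0 < dm (Ub y) := by rw [dm_Ub]; exact one_pos
  have h1 := hG.tri_c6 (fun k => ((h.tav _).act (hf x)).act hb) (fun k => (h.tav _).act hb)
    (fun k => h.tav _) ((hG.uf_c6 h x).congr fun k => (hG.transport_real
      (((h.tav _).act (hf x)).sub_c6 (h.tav _)).sq_c6 hb).symm) (hG.ub_c6 h y)
  have h2 := hG.tri_c6 (fun k => (((h.tav _).act (hf x)).act hb).act (hf z))
    (fun k => (h.tav _).act (hf z)) (fun k => h.tav _) (h1.congr fun k => (hG.transport_real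
      ((((h.tav _).act (hf x)).act hb).sub_c6 (h.tav _)).sq_c6 (hf z)).symm) (hG.uf_c6 h z)
  refine h2.congr fun k => integral_congr_ae (hG.ae_Om.mono fun v hv' => ?_)
  simp only
  rw [hv, (h.tav _).ph c hc _ (act_mem (hf x) (act_mem hb (act_mem (hf z) hv')))]

end Pool.Agent.Lib.MP_a52643_an.H53
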