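import Pool.Agent.Lib.MP_a52643_an.H53C6

open Complex MeasureTheory Set Filter Topology Metric
open UpperHalfPlane (ofComplex)
open scoped ComplexConjugate ContDiff ENNReal UpperHalfPlane Laplacian Real

noncomputable section

namespace Pool.Agent.Lib.MP_a52643_an.H53

variable {Γ : Type} [Group Γ] [Countable Γ] [MulAction Γ ℍ] {l : Γ → SL2} {D : Set ℍ}
  {w : ℂ → ℝ}

lemma norm_le_c6b {R : ℝ} {m x : V} (hx : x ∈ KB R) (hv : ‖act m x‖ ≤ R) : ‖m‖ ≤ R ^ 2 := by
  have hxR : ‖x‖ ≤ R := by simpa using hx.1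
  have hx1 : ‖x.1‖ ≤ R := (norm_fst_le x).trans hxR
  have hx2 : ‖x.2‖ ≤ R := (norm_snd_le x).trans hxR
  have hv1 : ‖(act m x).1‖ ≤ R := (norm_fst_le _).trans hv
  have hv2 : ‖(act m x).2‖ ≤ R := (norm_snd_le _).trans hv
  have hR : 0 ≤ R := (norm_nonneg _).trans hxR
  have hd : 1 ≤ dt x := hx.2.1
  have e1 : (act m x).1 = m.1 * x.1 + m.2 * conj x.1 := by simp [act_apply, cj]
  have e2 : (act m x).2 = m.1 * x.2 + m.2 * conj x.2 := by simp [act_apply, cj]
  have hdt : x.1 * conj x.2 - x.2 * conj x.1 = (2 * dt x : ℝ) * I := by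
    rw [dt, ← sub_conj]; simp [mul_comm]
  have hn : ‖((2 * dt x : ℝ) : ℂ) * I‖ = 2 * dt x := by
    rw [norm_mul, norm_I, mul_one, norm_real, Real.norm_of_nonneg (by linarith)]
  have key : ∀ c a b p q : ℂ, ‖a‖ ≤ R → ‖b‖ ≤ R → ‖p‖ ≤ R → ‖q‖ ≤ R →
      c * (((2 * dt x : ℝ) : ℂ) * I) = a * p - b * q → ‖c‖ ≤ R ^ 2 := by
    intro c a b p q ha hb hp hq h
    have h1 : ‖c‖ * (2 * dt x) ≤ R * R + R * R := by
      rw [← hn, ← norm_mul, h]
      refine (norm_sub_le _ _).trans (add_le_add ?_ ?_) <;> rw [norm_mul]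
      exacts [mul_le_mul ha hp (norm_nonneg _) hR, mul_le_mul hb hq (norm_nonneg _) hR]
    nlinarith [norm_nonneg c]
  rw [Prod.norm_def]
  refine max_le (key _ _ _ (conj x.2) (conj x.1) hv1 hv2 (by simpa using hx2) (by simpa using hx1)
    ?_) (key _ _ _ x.1 x.2 hv2 hv1 hx1 hx2 ?_)
  · rw [← hdt, e1, e2]; ring
  · rw [← hdt, e1, e2]; ring

lemma sq_le_c6b (hG : Geo l D w) {y : V → ℂ} (hy : ContinuousOn y Om)
    (h0 : ∫ v, y v ∂nuW w = 0) (c : ℂ) :
    ∫ v, ‖y v‖ ^ 2 ∂nuW w ≤ ∫ v, ‖y v - c‖ ^ 2 ∂nuW w := by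
  have h1 : Integrable (fun v => ‖y v‖ ^ 2) (nuW w) := hG.integrable (hy.norm.pow 2)
  have h2 : Integrable (fun v => conj c * y v) (nuW w) := (hG.integrable hy).const_mul _
  have h3 : ∫ v, 2 * (conj c * y v).re ∂nuW w = 0 := by
    rw [integral_const_mul]
    have := integral_re h2
    simp only [RCLike.re_to_complex] at this
    rw [this, integral_const_mul, h0]
    simp
  have h4 : Integrable (fun v => 2 * (conj c * y v).re) (nuW w) := h2.re.const_mul 2
  calc ∫ v, ‖y v‖ ^ 2 ∂nuW w = ∫ v, (‖y v‖ ^ 2 - 2 * (conj c * y v).re) ∂nuW w := by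
        rw [integral_sub h1 h4, h3, sub_zero]
    _ ≤ _ := by
        refine integral_mono (h1.sub h4)
          (hG.integrable ((hy.sub continuousOn_const).norm.pow 2)) fun v => ?_
        simp only [← normSq_eq_norm_sq, normSq_apply, mul_re, conj_re, conj_im, sub_re, sub_im]
        nlinarith [sq_nonneg c.re, sq_nonneg c.im]

lemma contOn_c6b {S : Set V} (hS : ∀ m ∈ S, 0 < dm m) {y : V → ℂ} (hy : ContinuousOn y Om) :
    ContinuousOn (fun p : V × V => ‖y (act p.1 p.2) - y p.2‖ ^ 2) (S ×ˢ Om) :=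
  ((hy.comp continuous_act.continuousOn fun _ hp => act_mem (hS _ hp.1) hp.2).sub
    (hy.comp continuous_snd.continuousOn fun _ hp => hp.2)).norm.pow 2

/-- the variance is controlled by the displacement under a compact set of elements -/
theorem Geo.var_le (hG : Geo l D w) : ∃ (S : Set V) (C : ℝ), IsCompact S ∧ (∀ m ∈ S, 0 < dm m) ∧
    ∀ y : V → ℂ, ContinuousOn y Om → ∫ v, y v ∂nuW w = 0 →
      ∫ v, ‖y v‖ ^ 2 ∂nuW w ≤ C * ∫ m in S, ∫ v, ‖y (act m v) - y v‖ ^ 2 ∂nuW w := by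
  obtain ⟨R, hR, hae⟩ := hG.exists_KB
  have := hG.fin
  obtain ⟨B1, hB1⟩ := hG.hcs.exists_bound_of_continuous hG.cd.continuous
  obtain ⟨B2, hB2⟩ := (isCompact_Icc (a := (1 : ℝ)) (b := 2)).exists_bound_of_continuousOn
    continuous_rho.continuousOn
  have hB10 : 0 ≤ B1 := (norm_nonneg _).trans (hB1 0)
  have hB20 : 0 ≤ B2 := (norm_nonneg _).trans (hB2 1 ⟨le_rfl, by norm_num⟩)
  set S : Set V := closedBall 0 (R ^ 2) ∩ {m | 1 / 2 ≤ dm m} with hSdef
  have hS : IsCompact S :=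
    (isCompact_closedBall _ _).inter_right (isClosed_le continuous_const continuous_dm)
  have hS0 : ∀ m ∈ S, 0 < dm m := fun m hm => lt_of_lt_of_le (by norm_num) hm.2
  have hV : 0 < (nuW w).real univ := by rw [hG.mass.1]; exact hG.mass.2.2
  refine ⟨S, 16 * (B2 * B1) / (nuW w).real univ, hS, hS0, fun y hy h0 => ?_⟩
  have hc := contOn_c6b hS0 hy
  have hint := hG.integrable_prod volume hS hc
  have key : ∀ x ∈ KB R, ∫ v, ‖y v‖ ^ 2 ∂nuW w ≤
      16 * (B2 * B1) * ∫ m in S, ‖y (act m x) - y x‖ ^ 2 := by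
    intro x hx
    have hxO := KB_subset_Om R hx
    have hd1 : 1 ≤ dt x := hx.2.1
    have hd2 : dt x ≤ 2 := hx.2.2
    have h1 := integral_act hxO fun v => rho (dt v) • (w (pr v) • ‖y v - y x‖ ^ 2)
    have h2 : IntegrableOn (fun m => ‖y (act m x) - y x‖ ^ 2) S :=
      (hc.comp (f := fun m => (m, x)) (by fun_prop) fun m hm => ⟨hm, hxO⟩).integrableOn_compact hS
    have h3 : ∫ m, rho (dt (act m x)) • (w (pr (act m x)) • ‖y (act m x) - y x‖ ^ 2) ≤
        B2 * B1 * ∫ m in S, ‖y (act m x) - y x‖ ^ 2 := by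
      rw [← integral_const_mul, ← integral_indicator hS.measurableSet]
      refine integral_mono_of_nonneg (Eventually.of_forall fun m => ?_)
        ((integrable_indicator_iff hS.measurableSet).2 (h2.const_mul _))
        (Eventually.of_forall fun m => ?_)
      · exact mul_nonneg (rho_nonneg _) (mul_nonneg (hG.nn _) (sq_nonneg _))
      · have hnn : 0 ≤ S.indicator (fun m => B2 * B1 * ‖y (act m x) - y x‖ ^ 2) m :=
          indicator_nonneg (fun _ _ => by positivity) m
        simp only [smul_eq_mul]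
        by_cases hr : rho (dt (act m x)) = 0
        · rw [hr, zero_mul]; exact hnn
        by_cases hw : w (pr (act m x)) = 0
        · rw [hw, zero_mul, mul_zero]; exact hnn
        have hsl := rho_ne_zero hr
        have hnorm : ‖act m x‖ ≤ R := not_lt.1 fun h => hw (hR _ hsl h)
        have hm : m ∈ S := by
          refine ⟨by simpa using norm_le_c6b hx hnorm, ?_⟩
          have h4 := hsl.1
          rw [dt_act] at h4
          change 1 / 2 ≤ dm m
          by_contra h5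
          push Not at h5
          nlinarith
        rw [indicator_of_mem hm, ← mul_assoc]
        refine mul_le_mul_of_nonneg_right (mul_le_mul ?_ ?_ (hG.nn _) hB20) (sq_nonneg _)
        · exact (le_abs_self _).trans (hB2 _ ⟨hsl.1.le, hsl.2.le⟩)
        · exact (le_abs_self _).trans (hB1 _)
    have h4 : 0 ≤ B2 * B1 * ∫ m in S, ‖y (act m x) - y x‖ ^ 2 :=
      mul_nonneg (mul_nonneg hB20 hB10) (integral_nonneg fun _ => sq_nonneg _)
    refine (sq_le_c6b hG hy h0 (y x)).trans ?_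
    rw [hG.integral_nu, integral_mV]
    rw [h1, inv_mul_le_iff₀ (by positivity)] at h3
    refine h3.trans ?_
    rw [mul_assoc 16]
    exact mul_le_mul_of_nonneg_right (by nlinarith) h4
  have h5 : ∫ _x, (∫ v, ‖y v‖ ^ 2 ∂nuW w) ∂nuW w ≤
      ∫ x, 16 * (B2 * B1) * (∫ m in S, ‖y (act m x) - y x‖ ^ 2) ∂nuW w :=
    integral_mono_ae (integrable_const _) (hint.integral_prod_right.const_mul _)
      (hae.mono fun x hx => key x hx)
  rw [integral_const, integral_const_mul, smul_eq_mul,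
    ← integral_integral_swap (f := fun m x => ‖y (act m x) - y x‖ ^ 2) hint] at h5
  rw [div_mul_eq_mul_div, le_div_iff₀ hV, mul_comm]
  exact h5

lemma ae_ne_c6b : ∀ᵐ m : V, m.2.im ≠ m.1.im := by
  let L : V →ₗ[ℝ] ℝ := imLm.comp (LinearMap.snd ℝ ℂ ℂ) - imLm.comp (LinearMap.fst ℝ ℂ ℂ)
  have h : (volume : Measure V) (LinearMap.ker L) = 0 := by
    refine Measure.addHaar_submodule _ _ fun h => ?_
    have h1 : ((0, I) : V) ∈ LinearMap.ker L := h ▸ Submodule.mem_top
    simp [L] at h1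
  rw [ae_iff]
  refine measure_mono_null (fun m hm => ?_) h
  simpa [L, sub_eq_zero] using hm

/-- mean ergodic theorem for the geodesic flow -/
theorem Geo.ergodic (hG : Geo l D w) {F : V → ℂ} (h : IC l F) (h0 : ∫ v, F v ∂nuW w = 0)
    {δ : ℝ} (hδ : 0 < δ) : ∃ K : ℕ, 0 < K ∧ ∫ v, ‖tav F K v‖ ^ 2 ∂nuW w ≤ δ := by
  obtain ⟨S, C, hS, hS0, hC⟩ := hG.var_le
  obtain ⟨B, hB⟩ := hG.bdd h
  have := hG.fin
  have : IsFiniteMeasure ((volume : Measure V).restrict S) :=
    isFiniteMeasure_restrict.2 hS.measure_lt_top.ne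
  have hz : ∀ K : ℕ, ∫ v, tav F K v ∂nuW w = 0 := fun K => by
    simp only [tav]
    rw [integral_const_mul, integral_finsetSum _ fun (k : ℕ) _ => hG.integrable (h.fl k).cont,
      Finset.sum_eq_zero fun k _ => ?_, mul_zero]
    simp only [fl_eq_act]
    rw [hG.transport h (by rw [dm_fl]; exact one_pos), h0]
  have hlim : Tendsto (fun k : ℕ => ∫ m in S,
      ∫ v, ‖tav F (2 ^ k) (act m v) - tav F (2 ^ k) v‖ ^ 2 ∂nuW w) atTop
      (𝓝 (∫ _m in S, (0 : ℝ))) := by
    refine tendsto_integral_of_dominated_convergence (fun _ => (B + B) ^ 2 * (nuW w).real univ)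
      (fun k => (hG.contOn_integral hS (contOn_c6b hS0 (h.tav _).cont)).aestronglyMeasurable
        hS.measurableSet) (integrable_const _) (fun k => ?_) ?_
    · filter_upwards [ae_restrict_mem hS.measurableSet] with m hm
      refine norm_integral_le_of_norm_le_const ?_
      filter_upwards [hG.ae_Om] with v hv
      have hb := tav_bound hB (pow_pos two_pos k)
      rw [norm_pow, norm_norm]
      exact pow_le_pow_left₀ (norm_nonneg _) ((norm_sub_le _ _).trans
        (add_le_add (hb _ (act_mem (hS0 m hm) hv)) (hb _ hv))) 2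
    · filter_upwards [ae_restrict_mem hS.measurableSet, ae_restrict_of_ae ae_ne_c6b] with m hm hm'
      exact hG.tav_act h (hS0 m hm) hm'
  have h1 := hlim.const_mul C
  rw [integral_zero, mul_zero] at h1
  obtain ⟨k, hk⟩ := (h1.eventually (ge_mem_nhds hδ)).exists
  exact ⟨2 ^ k, pow_pos two_pos k, (hC _ (h.tav _).cont (hz _)).trans hk⟩

end Pool.Agent.Lib.MP_a52643_an.H53
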