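import Pool.Agent.Lib.MP_a52643_an.H53C7a

open Complex MeasureTheory Set Filter Topology Metric
open UpperHalfPlane (ofComplex)
open scoped ComplexConjugate ContDiff ENNReal UpperHalfPlane Laplacian Real

noncomputable section

namespace Pool.Agent.Lib.MP_a52643_an.H53

variable {Γ : Type} [Group Γ] [Countable Γ] [MulAction Γ ℍ] {l : Γ → SL2} {D : Set ℍ}
  {w : ℂ → ℝ}

variable {φ : ℕ → ℍ → ℝ} {lam : ℕ → ℝ} {Φ : ℕ → ℤ → V → ℂ}

lemma cs_c7 {X : Type*} [MeasurableSpace X] {μ : Measure X} {b f : X → ℝ} (hb : ∀ x, 0 ≤ b x)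
    (i0 : Integrable b μ) (i1 : Integrable (fun x => b x * f x) μ)
    (i2 : Integrable (fun x => b x * f x ^ 2) μ) {Z : ℝ} (hZ : 0 < Z) (h : ∫ x, b x ∂μ ≤ Z) :
    (∫ x, b x * f x ∂μ) ^ 2 ≤ Z * ∫ x, b x * f x ^ 2 ∂μ := by
  set Y := ∫ x, b x * f x ∂μ with hY
  set t := Y / Z with ht
  have h1 : 0 ≤ ∫ x, (b x * f x ^ 2 - 2 * t * (b x * f x) + t ^ 2 * b x) ∂μ :=
    integral_nonneg fun x => by
      have : b x * f x ^ 2 - 2 * t * (b x * f x) + t ^ 2 * b x = b x * (f x - t) ^ 2 := by ring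
      simp only [Pi.zero_apply]
      rw [this]; exact mul_nonneg (hb x) (sq_nonneg _)
  have i3 : Integrable (fun x => b x * f x ^ 2 - 2 * t * (b x * f x)) μ :=
    i2.sub (i1.const_mul _)
  rw [integral_add i3 (i0.const_mul _),
    integral_sub i2 (i1.const_mul _), integral_const_mul, integral_const_mul, ← hY] at h1
  have h2 : t ^ 2 * ∫ x, b x ∂μ ≤ t ^ 2 * Z := mul_le_mul_of_nonneg_left h (sq_nonneg _)
  have h3 : Y = t * Z := by rw [ht]; field_simp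
  rw [h3] at h1 ⊢
  nlinarith

/-- the fixed compact set -/
def Kc7 : Set ℂ := closedBall I (1 / 2)

lemma Kc7_compact : IsCompact Kc7 := isCompact_closedBall _ _

lemma Kc7_im {z : ℂ} (hz : z ∈ Kc7) : 1 / 2 ≤ z.im ∧ z.im ≤ 3 / 2 := by
  have h1 : ‖z - I‖ ≤ 1 / 2 := by simpa [Kc7, dist_eq_norm] using hz
  have h2 := (abs_im_le_norm (z - I)).trans h1
  simp only [sub_im, I_im] at h2
  rw [abs_le] at h2
  constructor <;> linarith [h2.1, h2.2]

lemma Kc7_sub : Kc7 ⊆ UH := fun z hz => by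
  have := (Kc7_im hz).1
  show 0 < z.im
  linarith

lemma Kc7_wt {z : ℂ} (hz : z ∈ Kc7) : 4 / 9 ≤ 1 / z.im ^ 2 ∧ 1 / z.im ^ 2 ≤ 4 := by
  obtain ⟨h1, h2⟩ := Kc7_im hz
  have h3 : 0 < z.im ^ 2 := by positivity
  constructor
  · rw [le_div_iff₀ h3]; nlinarith
  · rw [div_le_iff₀ h3]; nlinarith

lemma contOn_wt_c7 : ContinuousOn (fun z : ℂ => 1 / z.im ^ 2) Kc7 :=
  continuousOn_const.div (by fun_prop) fun z hz => pow_ne_zero 2 (ne_of_gt (Kc7_sub hz))

lemma hyp_K_c7 {F : ℂ → ℝ} (hF : ∀ z, z ∉ Kc7 → F z = 0) :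
    ∫ z, F z ∂hyp = ∫ z in Kc7, 1 / z.im ^ 2 * F z := by
  rw [integral_hyp_weight, setIntegral_eq_of_subset_of_forall_sdiff_eq_zero
    isOpen_UH.measurableSet Kc7_sub fun z hz => by simp [hF z hz.2]]
  simp only [smul_eq_mul]

lemma scale_c7 (f : ℂ → ℝ) {r : ℝ} (hr : 0 < r) (x : ℂ) :
    ∫ z, f (r⁻¹ • (z - x)) = r ^ 2 * ∫ z, f z := by
  rw [integral_sub_right_eq_self (fun z => f (r⁻¹ • z)) x,
    Measure.integral_comp_inv_smul_of_nonneg volume f hr.le, Complex.finrank_real_complex,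
    smul_eq_mul]

lemma dzb_scale_c7 {f : ℂ → ℂ} (hf : ContDiff ℝ 1 f) (r : ℝ) (x z : ℂ) :
    dzb (fun y => f (r • (y - x))) z = r * dzb f (r • (z - x)) := by
  have h1 : HasFDerivAt (fun y : ℂ => r • (y - x)) (r • ContinuousLinearMap.id ℝ ℂ) z :=
    ((hasFDerivAt_id z).sub_const x).const_smul r
  have h2 := ((hf.differentiable one_ne_zero) (r • (z - x))).hasFDerivAt.comp z h1
  have h3 : fderiv ℝ (fun y => f (r • (y - x))) z = _ := h2.fderiv
  have h4 : ∀ u : ℂ, fderiv ℝ (fun y => f (r • (y - x))) z u =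
      r * fderiv ℝ f (r • (z - x)) u := fun u => by
    rw [h3, ContinuousLinearMap.comp_apply, _root_.smul_apply,
      ContinuousLinearMap.id_apply, map_smul, real_smul]
  rw [dzb, dzb, wm, wm, h4, h4]
  ring

/-- a fixed bump function -/
lemma exists_theta_c7 : ∃ θ : ℂ → ℝ, ContDiff ℝ 1 θ ∧ (∀ z, 0 ≤ θ z) ∧
    (∀ z, 1 < ‖z‖ → θ z = 0) ∧ θ 0 = 1 := by
  let f : ContDiffBump (0 : ℂ) := ⟨1 / 2, 1, by norm_num, by norm_num⟩
  refine ⟨f, f.contDiff, fun z => f.nonneg, fun z hz => f.zero_of_le_dist ?_,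
    f.one_of_mem_closedBall (by simp [f])⟩
  simpa [f] using hz.le

lemma loc_c7 (hS : Spec l D φ lam Φ) (hG : Geo l D w) : ∃ c : ℝ, 0 < c ∧ ∀ k,
    ∫ z in Kc7, 1 / z.im ^ 2 * φ k (ofComplex z) ^ 2 ≤ c := by
  have hO : IsCompact ((↑) ⁻¹' Kc7 : Set ℍ) :=
    UpperHalfPlane.isOpenEmbedding_coe.isInducing.isCompact_preimage' Kc7_compact
      fun z hz => ⟨⟨z, Kc7_sub hz⟩, rfl⟩
  obtain ⟨c, hc, hc'⟩ := hG.fd.tsum_compact hO
  refine ⟨c.toReal + 1, by positivity, fun k => ?_⟩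
  have h1 : ∫ z in D, φ k z ^ 2 = 1 := by
    have := hS.on k k
    simpa [sq] using this
  have iw : IW Γ D fun z => φ k z ^ 2 := ⟨((hS.cont k).pow 2).measurable, fun z => sq_nonneg _,
    fun γ z => by rw [hS.inv], Integrable.of_integral_ne_zero (by rw [h1]; exact one_ne_zero)⟩
  have h2 := (iw.le hG.fd hO.measurableSet hc hc').2
  rw [h1, mul_one] at h2
  have h3 := hyp_K_c7 (F := Kc7.indicator fun z => φ k (ofComplex z) ^ 2)
    fun z hz => indicator_of_notMem hz _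
  rw [integral_hyp_coe] at h3
  have h4 : ∫ z in Kc7, 1 / z.im ^ 2 * φ k (ofComplex z) ^ 2 =
      ∫ z in Kc7, 1 / z.im ^ 2 * (Kc7.indicator fun z => φ k (ofComplex z) ^ 2) z :=
    setIntegral_congr_fun Kc7_compact.measurableSet fun z hz => by
      simp only [indicator_of_mem hz]
  rw [h4, ← h3]
  have h5 : ∫ z : ℍ, (Kc7.indicator fun z => φ k (ofComplex z) ^ 2) z =
      ∫ z in ((↑) ⁻¹' Kc7 : Set ℍ), φ k z ^ 2 := by
    rw [← integral_indicator hO.measurableSet]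
    congr 1; ext z
    by_cases hz : (z : ℂ) ∈ Kc7
    · rw [indicator_of_mem hz, indicator_of_mem (show z ∈ ((↑) ⁻¹' Kc7 : Set ℍ) from hz),
        UpperHalfPlane.ofComplex_apply]
    · rw [indicator_of_notMem hz, indicator_of_notMem (show z ∉ ((↑) ⁻¹' Kc7 : Set ℍ) from hz)]
  rw [h5]; linarith

section bump

variable {θ : ℂ → ℝ}

lemma hcs_c7 (h0 : ∀ z, 1 < ‖z‖ → θ z = 0) : HasCompactSupport θ :=
  HasCompactSupport.intro (isCompact_closedBall 0 1) fun a ha => h0 a (by simpa using ha)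

lemma bump_zero_c7 (h0 : ∀ z, 1 < ‖z‖ → θ z = 0) {r : ℝ} (hr : 0 < r) (hr' : r ≤ 1 / 4) {x : ℂ}
    (hx : x ∈ closedBall I (1 / 4)) {z : ℂ} (hz : z ∉ Kc7) : θ (r⁻¹ • (z - x)) = 0 := by
  refine h0 _ ?_
  rw [norm_smul, norm_inv, Real.norm_of_nonneg hr.le, inv_mul_eq_div, lt_div_iff₀ hr]
  have h1 : 1 / 2 < dist z I := by simpa [Kc7] using hz
  have h2 : dist x I ≤ 1 / 4 := hx
  have h3 := dist_triangle z x I
  rw [dist_eq_norm z x] at h3
  linarith

lemma upper_c7 (h1 : ContDiff ℝ 1 θ) (hn : ∀ z, 0 ≤ θ z) (h0 : ∀ z, 1 < ‖z‖ → θ z = 0)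
    (hA : 0 < ∫ z, θ z) {r : ℝ} (hr : 0 < r) (hr' : r ≤ 1 / 4) {x : ℂ}
    (hx : x ∈ closedBall I (1 / 4)) {f : ℂ → ℝ} (hf : ContinuousOn f UH) :
    (∫ z, θ (r⁻¹ • (z - x)) * f z ∂hyp) ^ 2 ≤ 4 * (r ^ 2 * ∫ z, θ z) *
      ∫ z, Kc7.indicator (fun z => 1 / z.im ^ 2 * f z ^ 2) z * θ (r⁻¹ • (z - x)) := by
  have cb : Continuous fun z : ℂ => θ (r⁻¹ • (z - x)) := h1.continuous.comp (by fun_prop)
  have cw : ContinuousOn (fun z : ℂ => 1 / z.im ^ 2 * θ (r⁻¹ • (z - x))) Kc7 :=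
    contOn_wt_c7.mul cb.continuousOn
  have cf := hf.mono Kc7_sub
  have e1 : ∫ z, θ (r⁻¹ • (z - x)) * f z ∂hyp =
      ∫ z in Kc7, (1 / z.im ^ 2 * θ (r⁻¹ • (z - x))) * f z := by
    rw [hyp_K_c7 fun z hz => by rw [bump_zero_c7 h0 hr hr' hx hz, zero_mul]]
    simp only [mul_assoc]
  have e2 : ∫ z, Kc7.indicator (fun z => 1 / z.im ^ 2 * f z ^ 2) z * θ (r⁻¹ • (z - x)) =
      ∫ z in Kc7, (1 / z.im ^ 2 * θ (r⁻¹ • (z - x))) * f z ^ 2 := by
    rw [← integral_indicator Kc7_compact.measurableSet]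
    congr 1; ext z
    by_cases hz : z ∈ Kc7
    · simp only [indicator_of_mem hz]; ring
    · simp only [indicator_of_notMem hz, zero_mul]
  rw [e1, e2]
  refine cs_c7 (fun z => mul_nonneg (by positivity) (hn _)) (cw.integrableOn_compact Kc7_compact)
    ((cw.mul cf).integrableOn_compact Kc7_compact)
    ((cw.mul (cf.pow 2)).integrableOn_compact Kc7_compact) (by positivity) ?_
  rw [← scale_c7 θ hr x, ← setIntegral_eq_integral_of_forall_compl_eq_zero (s := Kc7)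
    fun z hz => bump_zero_c7 h0 hr hr' hx hz, ← integral_const_mul]
  refine setIntegral_mono_on (cw.integrableOn_compact Kc7_compact)
    ((cb.continuousOn.integrableOn_compact Kc7_compact).const_mul _) Kc7_compact.measurableSet
    fun z hz => mul_le_mul_of_nonneg_right (Kc7_wt hz).2 (hn _)

lemma lower_c7 (h1 : ContDiff ℝ 1 θ) (h0 : ∀ z, 1 < ‖z‖ → θ z = 0)
    {r : ℝ} (hr : 0 < r) (hr' : r ≤ 1 / 4) {x : ℂ} (hx : x ∈ closedBall I (1 / 4)) :
    4 / 9 * (r ^ 2 * ∫ z, θ z ^ 2) ≤ ∫ z, θ (r⁻¹ • (z - x)) ^ 2 ∂hyp := by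
  have cb : Continuous fun z : ℂ => θ (r⁻¹ • (z - x)) ^ 2 :=
    (h1.continuous.comp (by fun_prop)).pow 2
  have z0 : ∀ z, z ∉ Kc7 → θ (r⁻¹ • (z - x)) ^ 2 = 0 := fun z hz => by
    rw [bump_zero_c7 h0 hr hr' hx hz]; simp
  rw [hyp_K_c7 z0, ← scale_c7 (fun z => θ z ^ 2) hr x,
    ← setIntegral_eq_integral_of_forall_compl_eq_zero (s := Kc7) z0, ← integral_const_mul]
  refine setIntegral_mono_on ((cb.continuousOn.integrableOn_compact Kc7_compact).const_mul _)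
    ((contOn_wt_c7.mul cb.continuousOn).integrableOn_compact Kc7_compact)
    Kc7_compact.measurableSet fun z hz => mul_le_mul_of_nonneg_right (Kc7_wt hz).1 (sq_nonneg _)

lemma energy_c7 (h1 : ContDiff ℝ 1 θ) {r : ℝ} (hr : 0 < r) (x : ℂ) :
    ∫ z, ‖dzb (fun y => (θ (r⁻¹ • (y - x)) : ℂ)) z‖ ^ 2 =
      ∫ z, ‖dzb (fun y => (θ y : ℂ)) z‖ ^ 2 := by
  have hc : ContDiff ℝ 1 fun y => (θ y : ℂ) := ofRealCLM.contDiff.comp h1
  have e : ∀ z, ‖dzb (fun y => (θ (r⁻¹ • (y - x)) : ℂ)) z‖ ^ 2 =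
      (r ^ 2)⁻¹ * ‖dzb (fun y => (θ y : ℂ)) (r⁻¹ • (z - x))‖ ^ 2 := fun z => by
    rw [dzb_scale_c7 hc r⁻¹ x z, norm_mul, norm_real, norm_inv, Real.norm_of_nonneg hr.le,
      mul_pow, inv_pow]
  simp only [e]
  rw [integral_const_mul, scale_c7 (fun z => ‖dzb (fun y => (θ y : ℂ)) z‖ ^ 2) hr x,
    ← mul_assoc, inv_mul_cancel₀ (by positivity), one_mul]

lemma conv_c7 (h1 : ContDiff ℝ 1 θ) (h0 : ∀ z, 1 < ‖z‖ → θ z = 0) {r : ℝ} (hr : 0 < r)
    {g : ℂ → ℝ} (hg : Integrable g) :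
    Integrable (fun x => ∫ z, g z * θ (r⁻¹ • (z - x))) ∧
      ∫ x, ∫ z, g z * θ (r⁻¹ • (z - x)) = (∫ z, g z) * (r ^ 2 * ∫ z, θ z) := by
  have i0 : Integrable θ := h1.continuous.integrable_of_hasCompactSupport (hcs_c7 h0)
  have i1 : Integrable fun u : ℂ => θ (r⁻¹ • u) :=
    (integrable_comp_smul_iff volume θ (inv_ne_zero hr.ne')).2 i0
  have i2 : Integrable fun u : ℂ => θ (r⁻¹ • (-u)) := i1.comp_neg
  have e : (fun x => ∫ z, g z * θ (r⁻¹ • (z - x))) =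
      convolution g (fun u : ℂ => θ (r⁻¹ • (-u))) (ContinuousLinearMap.mul ℝ ℝ) volume := by
    ext x
    simp only [convolution, neg_sub, ContinuousLinearMap.mul_apply']
  rw [e]
  refine ⟨hg.integrable_convolution _ i2, ?_⟩
  rw [integral_convolution _ hg i2, ContinuousLinearMap.mul_apply',
    integral_neg_eq_self (fun u : ℂ => θ (r⁻¹ • u)) volume]
  have := scale_c7 θ hr 0
  simp only [sub_zero] at this
  rw [this]

end bump

theorem Spec.weyl (hS : Spec l D φ lam Φ) (hG : Geo l D w) : Weyl lam := by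
  obtain ⟨θ, h1, hn, h0, h00⟩ := exists_theta_c7
  obtain ⟨M, hM, hlow⟩ := hS.low hG Kc7_compact Kc7_sub
  obtain ⟨c, hc, hloc⟩ := loc_c7 hS hG
  have hA1 : 0 < ∫ z, θ z := h1.continuous.integral_pos_of_hasCompactSupport_nonneg_nonzero
    (hcs_c7 h0) hn (x := 0) (by rw [h00]; exact one_ne_zero)
  have hA2 : 0 < ∫ z, θ z ^ 2 :=
    (h1.continuous.pow 2).integral_pos_of_hasCompactSupport_nonneg_nonzero
      ((hcs_c7 h0).comp_left (g := fun t : ℝ => t ^ 2) (by simp)) (fun z => sq_nonneg _) (x := 0)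
      (by rw [h00]; simp)
  set A1 := ∫ z, θ z with hA1e
  set A2 := ∫ z, θ z ^ 2 with hA2e
  set C1 := ∫ z, ‖dzb (fun y => (θ y : ℂ)) z‖ ^ 2 with hC1e
  have hC1 : 0 ≤ C1 := integral_nonneg fun z => by positivity
  set R : ℝ := 9 * M * C1 / (2 * A2) + 1 with hR
  have hR0 : 0 ≤ 9 * M * C1 / (2 * A2) := by positivity
  have hR1 : 1 ≤ R := by linarith
  have hR2 : M * C1 ≤ 2 / 9 * (R ^ 2 * A2) := by
    have a1 : 9 * M * C1 / (2 * A2) ≤ R ^ 2 := by nlinarith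
    rw [div_le_iff₀ (by positivity)] at a1
    linarith
  set B : Set ℂ := closedBall I (1 / 4) with hB
  have hv : 0 < volume.real B := by
    refine ENNReal.toReal_pos (measure_closedBall_pos volume I (by norm_num)).ne' ?_
    exact (isCompact_closedBall _ _).measure_ne_top
  set v := volume.real B with hve
  refine ⟨v * (2 / 9 * A2) / (4 * A1 ^ 2 * c * R ^ 2), by positivity, ?_⟩
  filter_upwards [eventually_ge_atTop (4 * R)] with T hT
  have hT0 : 0 < T := by linarith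
  have hfin : {j | lam j ≤ T ^ 2}.Finite := by
    obtain ⟨N, hN⟩ := eventually_atTop.1 (hS.tend.eventually (eventually_gt_atTop (T ^ 2)))
    exact (finite_Iio N).subset fun j hj => by
      by_contra h
      exact absurd (hN j (not_lt.1 h)) (not_lt.2 hj)
  rw [ncard_eq_toFinset_card _ hfin]
  set s := hfin.toFinset with hs
  set r := R / T with hre
  have hr : 0 < r := by positivity
  have hr' : r ≤ 1 / 4 := by rw [hre, div_le_iff₀ hT0]; linarith
  set g : ℕ → ℂ → ℝ := fun k => Kc7.indicator fun z => 1 / z.im ^ 2 * φ k (ofComplex z) ^ 2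
    with hg
  have cf : ∀ k, ContinuousOn (fun z => φ k (ofComplex z)) UH := fun k => (hS.sm k).continuousOn
  have ig : ∀ k, Integrable (g k) := fun k =>
    (integrable_indicator_iff Kc7_compact.measurableSet).2
      ((contOn_wt_c7.mul (((cf k).mono Kc7_sub).pow 2)).integrableOn_compact Kc7_compact)
  have g0 : ∀ k z, 0 ≤ g k z := fun k z => indicator_nonneg (fun z _ => by positivity) z
  have gc : ∀ k, ∫ z, g k z ≤ c := fun k => by
    rw [hg]; simp only []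
    rw [integral_indicator Kc7_compact.measurableSet]; exact hloc k
  have key : ∀ x ∈ B, 2 / 9 * (r ^ 2 * A2) ≤
      ∑ k ∈ s, 4 * (r ^ 2 * A1) * ∫ z, g k z * θ (r⁻¹ • (z - x)) := by
    intro x hx
    have a1 := hlow (fun z => θ (r⁻¹ • (z - x))) (h1.comp (by fun_prop))
      (closure_minimal (fun z hz => by
        by_contra h
        exact hz (bump_zero_c7 h0 hr hr' hx h)) Kc7_compact.isClosed) (fun z => hn _) T hT0 s
      (fun k hk => hfin.mem_toFinset.2 hk)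
    rw [energy_c7 h1 hr x] at a1
    have a2 := lower_c7 h1 h0 hr hr' hx
    have a3 : M / T ^ 2 * C1 ≤ 2 / 9 * (r ^ 2 * A2) := by
      have : 2 / 9 * (r ^ 2 * A2) = 2 / 9 * (R ^ 2 * A2) / T ^ 2 := by rw [hre]; field_simp
      rw [this, div_mul_eq_mul_div]
      exact div_le_div_of_nonneg_right hR2 (by positivity)
    refine le_trans (by linarith) (a1.trans (Finset.sum_le_sum fun k _ => ?_))
    exact upper_c7 h1 hn h0 hA1 hr hr' hx (cf k)
  have iF : Integrable fun x => ∑ k ∈ s, 4 * (r ^ 2 * A1) * ∫ z, g k z * θ (r⁻¹ • (z - x)) :=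
    integrable_finsetSum s fun k _ => (conv_c7 h1 h0 hr (ig k)).1.const_mul _
  have b1 : v * (2 / 9 * (r ^ 2 * A2)) ≤
      ∫ x in B, ∑ k ∈ s, 4 * (r ^ 2 * A1) * ∫ z, g k z * θ (r⁻¹ • (z - x)) := by
    have := setIntegral_mono_on (μ := volume)
      (integrableOn_const (isCompact_closedBall I (1 / 4)).measure_ne_top) iF.integrableOn
      (isCompact_closedBall I (1 / 4)).measurableSet key
    rwa [setIntegral_const, smul_eq_mul] at this
  have b2 := setIntegral_le_integral (s := B) iF (Eventually.of_forall fun x =>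
    Finset.sum_nonneg fun k _ => mul_nonneg (by positivity)
      (integral_nonneg fun z => mul_nonneg (g0 k z) (hn _)))
  have b3 : ∫ x, ∑ k ∈ s, 4 * (r ^ 2 * A1) * ∫ z, g k z * θ (r⁻¹ • (z - x)) ≤
      s.card * (4 * (r ^ 2 * A1) * (c * (r ^ 2 * A1))) := by
    rw [integral_finsetSum s fun k _ => (conv_c7 h1 h0 hr (ig k)).1.const_mul _, ← nsmul_eq_mul]
    refine Finset.sum_le_card_nsmul _ _ _ fun k _ => ?_
    rw [integral_const_mul, (conv_c7 h1 h0 hr (ig k)).2]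
    exact mul_le_mul_of_nonneg_left (mul_le_mul_of_nonneg_right (gc k) (by positivity))
      (by positivity)
  have b4 := b1.trans (b2.trans b3)
  have b5 : v * (2 / 9 * A2) ≤ s.card * (4 * A1 ^ 2 * c * r ^ 2) := by
    refine le_of_mul_le_mul_right ?_ (pow_pos hr 2)
    nlinarith [b4]
  rw [div_mul_eq_mul_div, div_le_iff₀ (by positivity)]
  have b6 : R ^ 2 = r ^ 2 * T ^ 2 := by rw [hre]; field_simp
  rw [b6]
  nlinarith [mul_le_mul_of_nonneg_right b5 (sq_nonneg T)]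

end Pool.Agent.Lib.MP_a52643_an.H53
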