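import Pool.Agent.Lib.MP_a52643_an.H53C2

open Complex MeasureTheory Set Filter Topology Metric
open UpperHalfPlane (ofComplex)
open scoped ComplexConjugate ContDiff ENNReal UpperHalfPlane Laplacian Real

noncomputable section

namespace Pool.Agent.Lib.MP_a52643_an.H53

variable {Γ : Type} [Group Γ] [Countable Γ] [MulAction Γ ℍ] {l : Γ → SL2} {D : Set ℍ}
  {w : ℂ → ℝ}

variable {φ : ℕ → ℍ → ℝ} {lam : ℕ → ℝ} {Φ : ℕ → ℤ → V → ℂ}

lemma unfold_c7a (hD : FD l D) {b : ℂ → ℝ} (hb : TF b) {F : ℍ → ℝ} (hF : Continuous F)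
    (hi : ∀ (γ : Γ) z, F (γ • z) = F z) :
    ∫ z in D, (∑' γ : Γ, b (γ • z : ℍ)) * F z = ∫ z, b z * F (ofComplex z) ∂hyp := by
  rw [H60.unfold_int hD hb.cont hb.hcs hb.sub hF hi, integral_hyp_weight,
    setIntegral_eq_integral_of_forall_compl_eq_zero fun z hz => by
      rw [image_eq_zero_of_notMem_tsupport fun h => hz (hb.sub h), zero_mul, smul_zero]]
  refine integral_congr_ae (Eventually.of_forall fun z => ?_)
  simp only [smul_eq_mul]
  ring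

lemma loc_c7a (hD : FD l D) {b : ℂ → ℝ} (hb : TF b) (z : ℍ) :
    ∃ F : Finset Γ, ∀ z' ∈ ball z 1, ∀ γ ∉ F, b (γ • z' : ℍ) = 0 := by
  obtain ⟨F, hF⟩ := H60.fin_cut hD (H60.compact_unf hb.hcs.isCompact hb.sub) z
  refine ⟨F, fun z' hz' γ hγ => ?_⟩
  by_contra h
  exact hγ (hF z' hz' γ (subset_tsupport b h))

lemma cont_c7a (hD : FD l D) {b : ℂ → ℝ} (hb : TF b) :
    Continuous fun z : ℍ => ∑' γ : Γ, b (γ • z : ℍ) := by
  refine continuous_iff_continuousAt.2 fun z => ?_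
  obtain ⟨F, hF⟩ := loc_c7a hD hb z
  have h1 : Continuous fun z : ℍ => ∑ γ ∈ F, b ((l γ • z : ℍ) : ℂ) :=
    continuous_finsetSum _ fun γ _ =>
      hb.cont.comp (UpperHalfPlane.continuous_coe.comp (continuous_const_smul (l γ)))
  refine h1.continuousAt.congr ?_
  filter_upwards [ball_mem_nhds z one_pos] with z' hz'
  rw [tsum_eq_sum (hF _ hz')]
  simp only [hD.act]

omit [Countable Γ] in
lemma inv_c7a (b : ℂ → ℝ) (δ : Γ) (z : ℍ) :
    ∑' γ : Γ, b (γ • δ • z : ℍ) = ∑' γ : Γ, b (γ • z : ℍ) := by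
  simp only [smul_smul]
  exact (Equiv.mulRight δ).tsum_eq fun γ : Γ => b (γ • z : ℍ)

lemma le_c7a (hD : FD l D) {b : ℂ → ℝ} (hb : TF b) (h0 : ∀ z, 0 ≤ b z) (z : ℍ) :
    b z ≤ ∑' γ : Γ, b (γ • z : ℍ) := by
  obtain ⟨F, hF⟩ := loc_c7a hD hb z
  have hs : Summable fun γ : Γ => b (γ • z : ℍ) :=
    summable_of_ne_finset_zero (hF z (mem_ball_self one_pos))
  have := hs.le_tsum (1 : Γ) fun γ _ => h0 _
  simpa using this

lemma contOn_of_c7a {F : ℍ → ℝ} (hF : Continuous F) :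
    ContinuousOn (fun z : ℂ => F (ofComplex z)) UH := fun _ hz =>
  (hF.continuousAt.comp (H60.cont_of_cut hz)).continuousWithinAt

/-- Parseval -/
lemma pars_c7a (hS : Spec l D φ lam Φ) (hG : Geo l D w) {b : ℂ → ℝ} (hb : TF b)
    (h0 : ∀ z, 0 ≤ b z) : ∃ A : ℝ, ∫ z, b z ^ 2 ∂hyp ≤ A ∧
      HasSum (fun k => (∫ z, b z * φ k (ofComplex z) ∂hyp) ^ 2) A := by
  have hc := cont_c7a hG.fd hb
  have hp := hS.pars _ _ hc hc (inv_c7a b) (inv_c7a b)
  refine ⟨_, ?_, hp.congr_fun fun k => ?_⟩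
  · rw [unfold_c7a hG.fd hb hc (inv_c7a b)]
    simp only [sq]
    refine integral_mono_ae (hb.integrable_real hb.cont.continuousOn)
      (hb.integrable_real (contOn_of_c7a hc)) (ae_UH.mono fun z hz => ?_)
    refine mul_le_mul_of_nonneg_left ?_ (h0 z)
    have := le_c7a hG.fd hb h0 (ofComplex z)
    rwa [H60.coe_of_cut hz] at this
  · rw [unfold_c7a hG.fd hb (hS.cont k) (hS.inv k), sq]

lemma bop_c7a (f : ℂ → ℂ) (z : ℂ) : ‖Bop f z‖ ^ 2 = 4 * z.im ^ 2 * ‖dzb f z‖ ^ 2 := by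
  have : Bop f z = (-2 * I * z.im) * dzb f z := by
    simp only [Bop, dzb, wm, smul_eq_mul, mul_one]
    linear_combination (z.im * fderiv ℝ f z I) * I_mul_I
  rw [this, norm_mul, mul_pow]
  congr 1
  simp [mul_pow]
  norm_num

lemma energy_c7a {f : ℂ → ℂ} (hf : ContDiff ℝ 1 f) (hc : HasCompactSupport f) :
    ∫ v, ‖Em (fun v => f (pr v)) v‖ ^ 2 ∂mV ≤ 4 * ∫ z, ‖dzb f z‖ ^ 2 := by
  have cd := continuous_dzb hf
  have e1 : ∫ v, ‖Em (fun v => f (pr v)) v‖ ^ 2 ∂mV =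
      ∫ v, 4 * (pr v).im ^ 2 * ‖dzb f (pr v)‖ ^ 2 ∂mV := by
    refine integral_congr_ae (ae_Om.mono fun v hv => ?_)
    simp only
    rw [Em_comp_pr (snd_ne_zero hv) (hf.differentiable one_ne_zero _), norm_mul, norm_inv,
      norm_om (snd_ne_zero hv), inv_one, one_mul, bop_c7a]
  have cF : Continuous fun z : ℂ => 4 * z.im ^ 2 * ‖dzb f z‖ ^ 2 := by fun_prop
  have e2 := integral_hyp_eq (aesm_hyp cF.continuousOn)
  have c2 : Continuous fun z : ℂ => ‖dzb f z‖ ^ 2 := by fun_prop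
  have s2 : HasCompactSupport fun z : ℂ => ‖dzb f z‖ ^ 2 :=
    (hcs_dzb hc).mono fun z hz h => hz (by simp [h])
  have hi : Integrable fun z : ℂ => ‖dzb f z‖ ^ 2 := c2.integrable_of_hasCompactSupport s2
  rw [e1, ← e2, integral_hyp_weight, ← integral_const_mul]
  refine le_trans (le_of_eq ?_) (setIntegral_le_integral (s := UH) (hi.const_mul 4)
    (Eventually.of_forall fun z => by positivity))
  refine setIntegral_congr_fun isOpen_UH.measurableSet fun z hz => ?_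
  have hz' : z.im ≠ 0 := ne_of_gt hz
  simp only [smul_eq_mul]
  field_simp

omit [Countable Γ] in
lemma coef_c7a (hS : Spec l D φ lam Φ) {b : ℂ → ℝ} (hb : TF b) (h1 : ContDiff ℝ 1 b) {k : ℕ}
    (hk : 0 < lam k) : lam k * (∫ z, b z * φ k (ofComplex z) ∂hyp) ^ 2 =
      ‖∫ v, Em (fun v => (b (pr v) : ℂ)) v * Φ k 1 v ∂mV‖ ^ 2 := by
  have cb : ContDiff ℝ 1 fun z => (b z : ℂ) := ofRealCLM.contDiff.comp h1
  have cτ : ContDiffOn ℝ 1 (fun v => (b (pr v) : ℂ)) Om := cb.comp_contDiffOn contDiffOn_pr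
  have h := ibp_Em cτ hb.ofReal.cs ((hS.lad k).smooth 1)
  have e : ∫ v, (b (pr v) : ℂ) * Em (Φ k 1) v ∂mV =
      I * al (lam k) 0 * ((∫ z, b z * φ k (ofComplex z) ∂hyp : ℝ) : ℂ) := by
    rw [integral_hyp_eq (hb.integrable_real (contOn_of_c7a (hS.cont k))).aestronglyMeasurable,
      ← integral_complex_ofReal, ← integral_const_mul]
    refine integral_congr_ae (ae_Om.mono fun v hv => ?_)
    have d := (hS.lad k).down 0 v hv
    rw [zero_add] at d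
    have e0 := ((hS.lad k).hom 0).eq_om hv
    have z0 := hS.zero k hk (ofComplex (pr v))
    rw [H60.coe_of_cut (pr_mem hv), ph] at z0
    rw [zpow_zero, one_mul, z0] at e0
    simp only
    rw [d, e0]
    push_cast
    ring
  rw [e] at h
  rw [← norm_neg, ← h, norm_mul, norm_mul, norm_I, one_mul, mul_pow, norm_real, norm_real,
    Real.norm_eq_abs, Real.norm_eq_abs, sq_abs, sq_abs, al_sq hk]
  simp

/-- lower bound for the low frequency part of a bump function -/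
theorem Spec.low (hS : Spec l D φ lam Φ) (hG : Geo l D w) {K : Set ℂ} (hK : IsCompact K)
    (hU : K ⊆ UH) : ∃ M : ℝ, 0 ≤ M ∧ ∀ b : ℂ → ℝ, ContDiff ℝ 1 b → tsupport b ⊆ K →
      (∀ z, 0 ≤ b z) → ∀ T : ℝ, 0 < T → ∀ s : Finset ℕ, (∀ k, lam k ≤ T ^ 2 → k ∈ s) →
      (∫ z, b z ^ 2 ∂hyp) - M / T ^ 2 * ∫ z, ‖dzb (fun x => (b x : ℂ)) z‖ ^ 2
        ≤ ∑ k ∈ s, (∫ z, b z * φ k (ofComplex z) ∂hyp) ^ 2 := by
  obtain ⟨R, hR⟩ := exists_R_of_compact hK hU
  obtain ⟨M, hM, hB⟩ := hG.bessel R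
  refine ⟨4 * M, by positivity, fun b h1 hsub h0 T hT s hs => ?_⟩
  have hcs : HasCompactSupport b := hK.of_isClosed_subset (isClosed_tsupport b) hsub
  have hb : TF b := ⟨h1.continuous, hcs, hsub.trans hU⟩
  have cb : ContDiff ℝ 1 fun z => (b z : ℂ) := ofRealCLM.contDiff.comp h1
  have cτ : ContDiffOn ℝ 1 (fun v => (b (pr v) : ℂ)) Om := cb.comp_contDiffOn contDiffOn_pr
  have hz : ∀ v ∈ slab, R < ‖v‖ → (fun v => (b (pr v) : ℂ)) v = 0 := by
    intro v hv h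
    have : b (pr v) = 0 := image_eq_zero_of_notMem_tsupport fun h2 => by
      linarith [hR v (slab_subset_cslab hv) (hsub h2)]
    simp [this]
  have hz' : ∀ v ∈ slab, R < ‖v‖ → Em (fun v => (b (pr v) : ℂ)) v = 0 := fun v hv h => by
    rw [Em_congr (CS.eventually hz hv h), Em_const]
  have hE := energy_c7a cb hb.ofReal.hcs
  obtain ⟨A, hA, hsum⟩ := pars_c7a hS hG hb h0
  have hT2 : 0 < T ^ 2 := by positivity
  have hO := hS.ol hG
  have tail : ∀ t : Finset ℕ, (∀ k ∈ t, k ∉ s) →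
      ∑ k ∈ t, (∫ z, b z * φ k (ofComplex z) ∂hyp) ^ 2 ≤
        4 * M / T ^ 2 * ∫ z, ‖dzb (fun x => (b x : ℂ)) z‖ ^ 2 := by
    intro t ht
    have hl : ∀ k ∈ t, T ^ 2 < lam k := fun k hk => lt_of_not_ge fun h => ht k hk (hs k h)
    have hp : ∀ k ∈ t, 0 < lam k := fun k hk => hT2.trans (hl k hk)
    have hon : ONF w t fun k => Φ k 1 := fun i hi k hk => by
      simpa using hO.orth i k (hp i hi) (hp k hk) 1 1
    have h2 := hB t (fun k => Φ k 1) hon (fun i _ => (hS.lad i).cont 1) (fun i _ => hS.linv i 1)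
      _ (continuousOn_Em cτ) hz'
    have h3 : T ^ 2 * ∑ k ∈ t, (∫ z, b z * φ k (ofComplex z) ∂hyp) ^ 2 ≤
        ∑ k ∈ t, ‖∫ v, Em (fun v => (b (pr v) : ℂ)) v * Φ k 1 v ∂mV‖ ^ 2 := by
      rw [Finset.mul_sum]
      refine Finset.sum_le_sum fun k hk => ?_
      rw [← coef_c7a hS hb h1 (hp k hk)]
      exact mul_le_mul_of_nonneg_right (hl k hk).le (sq_nonneg _)
    have h4 := mul_le_mul_of_nonneg_left hE hM
    rw [div_mul_eq_mul_div, le_div_iff₀ hT2]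
    linarith
  have key : A ≤ ∑ k ∈ s, (∫ z, b z * φ k (ofComplex z) ∂hyp) ^ 2 +
      4 * M / T ^ 2 * ∫ z, ‖dzb (fun x => (b x : ℂ)) z‖ ^ 2 := by
    refine hasSum_le_of_sum_le hsum fun u => ?_
    have a1 : ∑ k ∈ u, (∫ z, b z * φ k (ofComplex z) ∂hyp) ^ 2 ≤
        ∑ k ∈ s ∪ u \ s, (∫ z, b z * φ k (ofComplex z) ∂hyp) ^ 2 :=
      Finset.sum_le_sum_of_subset_of_nonneg (fun k hk => by
        by_cases h : k ∈ s <;> simp [h, hk]) fun k _ _ => sq_nonneg _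
    rw [Finset.sum_union Finset.disjoint_sdiff] at a1
    linarith [tail (u \ s) fun k hk => (Finset.mem_sdiff.1 hk).2]
  linarith

end Pool.Agent.Lib.MP_a52643_an.H53
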