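import Pool.Agent.Lib.MP_a52643_an.H53Defs

open Complex MeasureTheory Set Filter Topology Metric
open UpperHalfPlane (ofComplex)
open scoped ComplexConjugate ContDiff ENNReal UpperHalfPlane Laplacian Real

noncomputable section

namespace Pool.Agent.Lib.MP_a52643_an.H53

lemma ncard_Iio_c8 (J : ℕ) : (Iio J).ncard = J := by
  rw [← Finset.coe_range, ncard_coe_finset, Finset.card_range]

lemma dF_le : dF ≤ atTop := by
  intro S hS
  obtain ⟨a, ha⟩ := mem_atTop_sets.1 hS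
  rw [mem_dF]
  refine squeeze_zero (fun J => by positivity) (fun J => ?_)
    (tendsto_const_div_atTop_nhds_zero_nat (a : ℝ))
  refine div_le_div_of_nonneg_right (Nat.cast_le.2 ?_) (by positivity)
  rw [← ncard_Iio_c8 a]
  refine ncard_le_ncard (fun j hj => ?_) (finite_Iio a)
  by_contra h
  exact hj.1 (ha j (not_lt.1 h))

lemma fin_c8 {lam : ℕ → ℝ} (ht : Tendsto lam atTop atTop) (T : ℝ) : {j | lam j ≤ T}.Finite := by
  obtain ⟨a, ha⟩ := eventually_atTop.1 (ht.eventually (eventually_gt_atTop T))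
  exact (finite_Iio a).subset fun j hj => not_le.1 fun h => not_le.2 (ha j h) hj

lemma fin2_c8 {lam : ℕ → ℝ} (ht : Tendsto lam atTop atTop) (B : Set ℕ) (T : ℝ) :
    (B ∩ {j | √(lam j) ≤ T}).Finite :=
  (fin_c8 ht (T ^ 2)).subset fun _ hj => (Real.sqrt_le_iff.1 hj.2).2

lemma count_c8 {lam : ℕ → ℝ} (ht : Tendsto lam atTop atTop) {B : Set ℕ} {δ N T0 : ℝ} (hδ : 0 < δ)
    (hN : 2 ≤ N) (h : ∀ T, T0 ≤ T → ∀ s : Finset ℕ, (∀ j ∈ s, j ∈ B ∧ |√(lam j) - T| ≤ T / N) →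
        (s.card : ℝ) ≤ δ * T ^ 2 / N) : ∃ C : ℝ, ∀ T, 0 ≤ T →
      ((B ∩ {j | √(lam j) ≤ T}).ncard : ℝ) ≤ C + δ * T ^ 2 := by
  set f : ℝ → ℕ := fun T => (B ∩ {j | √(lam j) ≤ T}).ncard with hf
  set ρ := 1 - 1 / N with hρ
  have N0 : 0 < N := by linarith
  have hρ0 : 0 ≤ ρ := by
    have : 1 / N ≤ 1 / 2 := one_div_le_one_div_of_le two_pos hN
    linarith
  have hρ1 : ρ < 1 := by
    have : 0 < 1 / N := by positivity
    linarith
  have mono : ∀ {T T'}, T ≤ T' → f T ≤ f T' := fun hT =>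
    ncard_le_ncard (fun j hj => ⟨hj.1, le_trans hj.2 hT⟩) (fin2_c8 ht B _)
  have step : ∀ T, 0 ≤ T → T0 ≤ T → (f T : ℝ) ≤ f (T * ρ) + δ * (T ^ 2 - (T * ρ) ^ 2) := by
    intro T hT hT0
    have hfin : ((B ∩ {j | √(lam j) ≤ T}) \ {j : ℕ | √(lam j) ≤ T * ρ}).Finite :=
      (fin2_c8 ht B T).subset diff_subset
    have h1 := h T hT0 hfin.toFinset fun j hj => by
      rw [Finite.mem_toFinset] at hj
      have a1 : √(lam j) ≤ T := hj.1.2
      have a2 : T * ρ < √(lam j) := not_le.1 hj.2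
      have e : T * ρ = T - T / N := by rw [hρ]; ring
      have : 0 ≤ T / N := by positivity
      exact ⟨hj.1.1, abs_le.2 ⟨by linarith, by linarith⟩⟩
    rw [← ncard_eq_toFinset_card _ hfin] at h1
    have h2 : f T ≤ f (T * ρ) + ((B ∩ {j | √(lam j) ≤ T}) \ {j : ℕ | √(lam j) ≤ T * ρ}).ncard := by
      refine le_trans (ncard_le_ncard (fun j hj => ?_) ((fin2_c8 ht B _).union hfin))
        (ncard_union_le _ _)
      by_cases hj' : √(lam j) ≤ T * ρ
      · exact Or.inl ⟨hj.1, hj'⟩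
      · exact Or.inr ⟨hj, hj'⟩
    have h3 : (f T : ℝ) ≤ f (T * ρ) +
        (((B ∩ {j | √(lam j) ≤ T}) \ {j : ℕ | √(lam j) ≤ T * ρ}).ncard : ℝ) := by exact_mod_cast h2
    have h4 : T ^ 2 - (T * ρ) ^ 2 = T ^ 2 / N * (1 + ρ) := by
      have : ρ = 1 - 1 / N := hρ
      rw [this]
      field_simp
      ring
    have h5 : 0 ≤ δ * (T ^ 2 / N) * ρ := by positivity
    rw [h4]
    rw [mul_div_assoc] at h1
    linarith
  have ind : ∀ n : ℕ, ∀ T, 0 ≤ T → T * ρ ^ n ≤ max T0 1 →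
      (f T : ℝ) ≤ f (max T0 1) + δ * T ^ 2 := by
    intro n
    induction n with
    | zero =>
      intro T hT h0
      rw [pow_zero, mul_one] at h0
      have h1 : (f T : ℝ) ≤ f (max T0 1) := by exact_mod_cast mono h0
      have : 0 ≤ δ * T ^ 2 := by positivity
      linarith
    | succ n ih =>
      intro T hT h0
      rcases le_total T (max T0 1) with h1 | h1
      · have h2 : (f T : ℝ) ≤ f (max T0 1) := by exact_mod_cast mono h1
        have : 0 ≤ δ * T ^ 2 := by positivity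
        linarith
      · have h2 := ih (T * ρ) (mul_nonneg hT hρ0) (by rwa [mul_assoc, ← pow_succ'])
        have h3 := step T hT ((le_max_left _ _).trans h1)
        linarith
  refine ⟨f (max T0 1), fun T hT => ?_⟩
  have h1 := (tendsto_pow_atTop_nhds_zero_of_lt_one hρ0 hρ1).const_mul T
  rw [mul_zero] at h1
  obtain ⟨n, hn⟩ := (h1.eventually (eventually_le_nhds
    (lt_of_lt_of_le one_pos (le_max_right T0 1)))).exists
  exact ind n T hT hn

/-- from bounds in short windows to density zero -/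
theorem dF_of_window {lam : ℕ → ℝ} (hm : Monotone lam) (ht : Tendsto lam atTop atTop)
    (hW : Weyl lam) {B : Set ℕ} (h : ∀ δ : ℝ, 0 < δ → ∃ N T0 : ℝ, 2 ≤ N ∧ ∀ T, T0 ≤ T →
      ∀ s : Finset ℕ, (∀ j ∈ s, j ∈ B ∧ |√(lam j) - T| ≤ T / N) →
        (s.card : ℝ) ≤ δ * T ^ 2 / N) : Bᶜ ∈ dF := by
  rw [mem_dF, compl_compl]
  obtain ⟨c, hc, hW⟩ := hW
  refine Metric.tendsto_nhds.2 fun ε hε => ?_
  obtain ⟨N, T0, hN, h1⟩ := h (c * ε / 16) (by positivity)
  obtain ⟨C, hC⟩ := count_c8 ht (by positivity) hN h1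
  have t1 : Tendsto (fun J => √(lam J) / 2) atTop atTop :=
    (Real.tendsto_sqrt_atTop.comp ht).atTop_div_const two_pos
  filter_upwards [t1.eventually hW, ht.eventually (eventually_gt_atTop 0),
    (tendsto_const_div_atTop_nhds_zero_nat C).eventually (eventually_lt_nhds (half_pos hε)),
    eventually_gt_atTop 0] with J a1 a2 a3 a4
  have J0 : (0 : ℝ) < J := by exact_mod_cast a4
  have e : (√(lam J) / 2) ^ 2 = lam J / 4 := by
    rw [div_pow, Real.sq_sqrt a2.le]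
    norm_num
  rw [e] at a1
  have b1 : {j | lam j ≤ lam J / 4}.ncard ≤ J := by
    refine le_trans (ncard_le_ncard (fun j hj => mem_Iio.2 (not_le.1 fun hJ => ?_)) (finite_Iio J))
      (ncard_Iio_c8 J).le
    have := hm hJ
    have hj' : lam j ≤ lam J / 4 := hj
    linarith
  have b2 : c * (lam J / 4) ≤ J := a1.trans (by exact_mod_cast b1)
  have b3 : (B ∩ Iio J).ncard ≤ (B ∩ {j | √(lam j) ≤ √(lam J)}).ncard :=
    ncard_le_ncard (fun j hj => ⟨hj.1, Real.sqrt_le_sqrt (hm (le_of_lt hj.2))⟩) (fin2_c8 ht B _)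
  have b4 := hC _ (Real.sqrt_nonneg (lam J))
  rw [Real.sq_sqrt a2.le] at b4
  have b5 : ((B ∩ Iio J).ncard : ℝ) ≤ C + c * ε / 16 * lam J := le_trans (by exact_mod_cast b3) b4
  rw [Real.dist_eq, sub_zero, abs_of_nonneg (by positivity), div_lt_iff₀ J0]
  rw [div_lt_iff₀ J0] at a3
  have b6 := mul_le_mul_of_nonneg_left b2 hε.le
  have b7 : 0 < ε * J := by positivity
  nlinarith

lemma ev_c8 {l : Filter ℕ} {x : ℕ → ℕ → ℝ} (h : ∀ n, Tendsto (x n) l (𝓝 0)) (m : ℕ) :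
    ∀ᶠ j in l, ∀ n ≤ m, |x n j| ≤ 1 / ((m : ℝ) + 1) := by
  have : ∀ᶠ j in l, ∀ n ∈ Iic m, |x n j| ≤ 1 / ((m : ℝ) + 1) := by
    refine (eventually_all_finite (finite_Iic m)).2 fun n _ => ?_
    have h1 := (h n).abs
    rw [abs_zero] at h1
    exact h1.eventually (eventually_le_nhds (by positivity))
  exact this

/-- one set of density one for countably many sequences -/
theorem dF_extract {x : ℕ → ℕ → ℝ} (h : ∀ n, Tendsto (x n) dF (𝓝 0)) :
    ∃ S : Set ℕ, Tendsto (fun J : ℕ => ((S ∩ Iio J).ncard : ℝ) / J) atTop (𝓝 1) ∧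
      ∀ n, Tendsto (x n) (atTop ⊓ 𝓟 S) (𝓝 0) := by
  set A : ℕ → Set ℕ := fun m => {j | ∀ n ≤ m, |x n j| ≤ 1 / ((m : ℝ) + 1)} with hA
  have hAm : ∀ m, A m ∈ dF := fun m => ev_c8 h m
  have hanti : ∀ {m m'}, m ≤ m' → A m' ⊆ A m := by
    intro m m' hm j hj n hn
    refine (hj n (hn.trans hm)).trans (one_div_le_one_div_of_le (by positivity) ?_)
    exact_mod_cast Nat.succ_le_succ hm
  have hJ : ∀ m, ∃ J0 : ℕ, ∀ J, J0 ≤ J → (((A m)ᶜ ∩ Iio J).ncard : ℝ) / J ≤ 1 / ((m : ℝ) + 1) :=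
    fun m => eventually_atTop.1 ((mem_dF.1 (hAm m)).eventually (eventually_le_nhds (by positivity)))
  choose J0 hJ0 using hJ
  obtain ⟨g, hg, hgm⟩ : ∃ g : ℕ → ℕ, (∀ m, J0 m ≤ g m) ∧ ∀ m, m ≤ g m :=
    ⟨fun m => max (J0 m) m, fun m => le_max_left _ _, fun m => le_max_right _ _⟩
  set S : Set ℕ := {j | ∀ m, g m ≤ j → j ∈ A m} with hS
  have hc : Tendsto (fun J : ℕ => ((Sᶜ ∩ Iio J).ncard : ℝ) / J) atTop (𝓝 0) := by
    refine Metric.tendsto_atTop.2 fun ε hε => ?_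
    obtain ⟨m, hm⟩ := exists_nat_one_div_lt hε
    refine ⟨g m, fun J hJ => ?_⟩
    rw [Real.dist_eq, sub_zero, abs_of_nonneg (by positivity)]
    have hfin : {k | g k ≤ J}.Finite := (finite_Iic J).subset fun k hk => (hgm k).trans hk
    obtain ⟨M, hM, hmax⟩ := hfin.exists_maximalFor id _ ⟨m, hJ⟩
    have hle : ∀ k, g k ≤ J → k ≤ M := fun k hk =>
      (le_total k M).elim id fun h => hmax hk h
    refine lt_of_le_of_lt (le_trans ?_ ((hJ0 M J ((hg M).trans hM)).trans ?_)) hm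
    · refine div_le_div_of_nonneg_right (Nat.cast_le.2 ?_) (by positivity)
      refine ncard_le_ncard (fun j hj => ⟨fun hj' => hj.1 fun k hk => ?_, hj.2⟩)
        ((finite_Iio J).inter_of_right _)
      exact hanti (hle k (hk.trans (le_of_lt hj.2))) hj'
    · refine one_div_le_one_div_of_le (by positivity) ?_
      exact_mod_cast Nat.succ_le_succ (hle m hJ)
  refine ⟨S, ?_, fun n => ?_⟩
  · have h1 := (tendsto_const_nhds (x := (1 : ℝ))).sub hc
    rw [sub_zero] at h1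
    refine h1.congr' ?_
    filter_upwards [eventually_gt_atTop 0] with J hJ
    have h2 : (S ∩ Iio J).ncard + (Sᶜ ∩ Iio J).ncard = J := by
      rw [inter_comm S, inter_comm Sᶜ, ← diff_eq,
        ncard_inter_add_ncard_diff_eq_ncard _ _ (finite_Iio J), ncard_Iio_c8]
    have h3 : ((S ∩ Iio J).ncard : ℝ) + (Sᶜ ∩ Iio J).ncard = J := by exact_mod_cast h2
    have h4 : (J : ℝ) ≠ 0 := by positivity
    field_simp
    linarith
  · refine Metric.tendsto_nhds.2 fun ε hε => ?_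
    obtain ⟨m, hm⟩ := exists_nat_one_div_lt hε
    rw [eventually_inf_principal]
    filter_upwards [eventually_ge_atTop (g (max m n))] with j hj hjS
    rw [Real.dist_eq, sub_zero]
    refine lt_of_le_of_lt ((hjS _ hj n (le_max_right _ _)).trans ?_) hm
    refine one_div_le_one_div_of_le (by positivity) ?_
    exact_mod_cast Nat.succ_le_succ (le_max_left m n)

end Pool.Agent.Lib.MP_a52643_an.H53
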