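import Pool.Agent.Lib.MP_a52643_an.H53C2
import Pool.Agent.Lib.MP_a52643_an.H53C4b
import Pool.Agent.Lib.MP_a52643_an.H53C5
import Pool.Agent.Lib.MP_a52643_an.H53C5b
import Pool.Agent.Lib.MP_a52643_an.H53C6b
import Pool.Agent.Lib.MP_a52643_an.H53C8

open Complex MeasureTheory Set Filter Topology Metric
open UpperHalfPlane (ofComplex)
open scoped ComplexConjugate ContDiff ENNReal UpperHalfPlane Laplacian Real

noncomputable section

namespace Pool.Agent.Lib.MP_a52643_an.H53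

variable {Γ : Type} [Group Γ] [Countable Γ] [MulAction Γ ℍ] {l : Γ → SL2} {D : Set ℍ}
  {w : ℂ → ℝ}

variable {lam : ℕ → ℝ} {Φ : ℕ → ℤ → V → ℂ}

theorem OL.qe_core (h : OL l w lam Φ) (hG : Geo l D w) (hW : Weyl lam) {F : V → ℂ}
    (hc : ContDiffOn ℝ 1 F Om) (hi : IV l F) (a b : ℤ) (hh : Hom (b - a) F)
    (h0 : ∫ v, F v ∂nuW w = 0) :
    Tendsto (fun j => ∫ v, F v * TT (Φ j) a b v ∂nuW w) dF (𝓝 0) := by
  refine Metric.tendsto_nhds.2 fun ε hε => ?_
  have hF : IC l F := ⟨hc.continuousOn, hi, ph_of_hom hh⟩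
  obtain ⟨C, hC, hbox⟩ := hG.box
  obtain ⟨B, hB⟩ := hG.bdd hF
  obtain ⟨B2, hB2, hsh⟩ := hG.shift hc hi a b hh
  have key := dF_of_window h.mono h.tend hW
    (B := {j | ε ≤ ‖∫ v, F v * TT (Φ j) a b v ∂nuW w‖}) fun δ hδ => ?_
  · filter_upwards [key] with j hj
    simpa using hj
  obtain ⟨η, η0, η1, η2⟩ : ∃ η : ℝ, 0 < η ∧ η ≤ 1 / 100 ∧ C * (η ^ 2 * B ^ 2) ≤ ε ^ 2 / 8 := by
    refine ⟨min (1 / 100) (ε ^ 2 / 8 / (C * B ^ 2 + 1)), by positivity, min_le_left _ _, ?_⟩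
    generalize hη : min (1 / 100) (ε ^ 2 / 8 / (C * B ^ 2 + 1)) = η
    have h1 : 0 < η := by rw [← hη]; positivity
    have h2 : η ≤ 1 / 100 := hη ▸ min_le_left _ _
    have h3 : η ≤ ε ^ 2 / 8 / (C * B ^ 2 + 1) := hη ▸ min_le_right _ _
    rw [le_div_iff₀ (by positivity)] at h3
    have h4 : 0 ≤ C * B ^ 2 * η := by positivity
    nlinarith
  obtain ⟨K, hK, herg⟩ := hG.ergodic hF h0 (δ := δ * ε ^ 2 * η ^ 3 / (8 * C)) (by positivity)
  obtain ⟨B1, hB1, htav⟩ := hG.inv_tav hc hi hK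
  obtain ⟨N, hN⟩ := exists_nat_ge (2 + 8 * (B1 + B2) / ε)
  have hN0 : 0 ≤ 8 * (B1 + B2) / ε := by positivity
  have hN2 : (2 : ℝ) ≤ N := by linarith
  have hN2' : 2 ≤ N := by exact_mod_cast hN2
  have hN3 : (B1 + B2) / N ≤ ε / 4 := by
    have : 8 * (B1 + B2) / ε ≤ N := by linarith
    rw [div_le_iff₀ hε] at this
    rw [div_le_iff₀ (by linarith)]
    nlinarith
  obtain ⟨C2, hC2, hsh⟩ := hsh N (by omega)
  obtain ⟨χ, hχ⟩ := exists_tent (N := N) (by omega)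
  refine ⟨N, N ^ 2 + 8 * (B1 * N ^ 4 + C2) / ε, hN2, fun T hT s hs => ?_⟩
  have hT0 : 0 ≤ 8 * (B1 * N ^ 4 + C2) / ε := by positivity
  have hT1 : (N : ℝ) ^ 2 ≤ T := by linarith
  have hT2 : 4 ≤ T := by nlinarith
  have hT3 : 8 * (B1 * N ^ 4 + C2) ≤ T * ε := by
    rw [← div_le_iff₀ hε]
    nlinarith
  have hl : ∀ j ∈ s, T / 2 ≤ √(lam j) := fun j hj => by
    have h1 := (abs_le.1 (hs j hj).2).1
    have h2 : T / N ≤ T / 2 := div_le_div_of_nonneg_left (by linarith) two_pos hN2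
    linarith
  have hl1 : ∀ j ∈ s, 1 ≤ lam j := fun j hj => Real.one_le_sqrt.1 (by linarith [hl j hj])
  have ho : ∀ j ∈ s, OL1 l w (lam j) (Φ j) := fun j hj => h.ol1 (by linarith [hl1 j hj])
  have ct := (hF.tav K).cont
  have hb := hbox T N η B s (fun j => lift N χ (Φ j)) (tav F K) (by linarith) hT1 η0 η1
    (fun j hj => (ho j hj).isLift hG hχ hN2' hT1 (hs j hj).2)
    (h.onf hG hχ fun j hj => (ho j hj).pos) ct (tav_bound hB hK)
  have hlow : ∀ j ∈ s,
      ε ^ 2 / 4 ≤ ∫ x, ‖tav F K x‖ ^ 2 * ‖lift N χ (Φ j) x‖ ^ 2 ∂nuW w := fun j hj => by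
    have h1 := htav _ _ N χ (ho j hj) hχ (by omega)
    have h2 := hsh _ _ χ (ho j hj) hχ (hl1 j hj)
    have h3 : ε ≤ _ := (hs j hj).1
    have h4 : (B1 * N ^ 4 + C2) / √(lam j) ≤ ε / 4 := by
      rw [div_le_iff₀ (by linarith [hl j hj])]
      nlinarith [hl j hj]
    have cl := ((ho j hj).lift_reg N χ).1.continuousOn
    have h5 := hG.cs (ct.mul cl) cl
    rw [(ho j hj).lift_norm hG hχ, mul_one] at h5
    simp only [Pi.mul_apply, norm_mul, mul_pow] at h5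
    have h6 := norm_integral_le_integral_norm (μ := nuW w)
      fun v => tav F K v * (‖lift N χ (Φ j) v‖ ^ 2 : ℝ)
    simp only [norm_mul, norm_real, Real.norm_eq_abs, abs_norm, pow_two, ← mul_assoc] at h6
    simp only [← pow_two] at h6
    generalize ∫ v, tav F K v * (‖lift N χ (Φ j) v‖ ^ 2 : ℝ) ∂nuW w = Z at h1 h6
    generalize ∫ v, F v * (‖lift N χ (Φ j) v‖ ^ 2 : ℝ) ∂nuW w = Y at h1 h2
    generalize ∫ v, F v * TT (Φ j) a b v ∂nuW w = X at h2 h3
    have h7 : ‖X‖ ≤ ‖Z‖ + ‖Z - Y‖ + ‖Y - X‖ := by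
      calc ‖X‖ = ‖Z - (Z - Y) - (Y - X)‖ := by congr 1; ring
        _ ≤ _ := (norm_sub_le _ _).trans (add_le_add_left (norm_sub_le _ _) _)
    have h8 : B1 * (1 / N + N ^ 4 / √(lam j)) + (B2 / N + C2 / √(lam j))
        = (B1 + B2) / N + (B1 * N ^ 4 + C2) / √(lam j) := by ring
    have h9 : ε / 2 ≤ ‖Z‖ := by linarith
    refine le_trans ?_ h5
    calc ε ^ 2 / 4 = (ε / 2) ^ 2 := by ring
      _ ≤ _ := pow_le_pow_left₀ (by positivity) (h9.trans h6) 2
  have h1 := (Finset.card_nsmul_le_sum s _ _ hlow).trans hb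
  rw [nsmul_eq_mul] at h1
  have h2 : C * (T ^ 2 / (η ^ 3 * N) * ∫ x, ‖tav F K x‖ ^ 2 ∂nuW w)
      ≤ ε ^ 2 / 8 * (δ * T ^ 2 / N) := by
    calc _ ≤ C * (T ^ 2 / (η ^ 3 * N) * (δ * ε ^ 2 * η ^ 3 / (8 * C))) := by gcongr
      _ = _ := by field_simp
  have h3 := mul_le_mul_of_nonneg_right η2 (Nat.cast_nonneg (α := ℝ) s.card)
  refine le_of_mul_le_mul_left ?_ (show 0 < ε ^ 2 / 8 by positivity)
  linarith

/-- quantum ergodicity -/
theorem OL.qf (h : OL l w lam Φ) (hG : Geo l D w) (hW : Weyl lam) :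
    QF dF lam Φ (volume.real D)⁻¹ := by
  refine ⟨h.lad, h.tend.mono_left dF_le, fun τ hτ a b => ?_⟩
  obtain ⟨hc, hi, hh⟩ := hG.per hτ (-(a + b))
  have cu : ContinuousOn (fun v => τ (pr v) * om v ^ (-(a + b))) Om :=
    hτ.tf.contOn.mul (contDiffOn_om_zpow (n := 0) _).continuousOn
  have su : CS fun v => τ (pr v) * om v ^ (-(a + b)) := hτ.tf.cs.mul_right _
  have e1 := hG.unfold cu su (H := fun _ => 1) continuousOn_const fun _ _ _ => rfl
  have e2 : ∀ j, ∫ z, τ z * psi (Φ j) ![a, b] z ∂hyp = (-1) ^ b *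
      ∫ v, Per l (fun v => τ (pr v) * om v ^ (-(a + b))) v * TT (Φ j) a (-b) v ∂nuW w := by
    intro j
    rw [← hG.unfold cu su ((h.lad j).cd_TT a (-b)).continuousOn fun γ v hv => by
      simp only [TT, h.linv j _ γ v hv], integral_psi (h.lad j) hτ.tf, ← integral_const_mul]
    congr 1; ext v
    have : (-1 : ℂ) ^ b * (-1) ^ (-b) = 1 := by rw [← zpow_add₀ (by norm_num)]; simp
    simp only [(h.lad j).TT_eq, neg_neg, Fin.sum_univ_two, Matrix.cons_val_zero,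
      Matrix.cons_val_one]
    linear_combination (-(τ (pr v) * om v ^ (-(a + b)) * MP_a52643_an.mono (Φ j) ![a, b] v)) * this
  simp only [e2, mul_one] at e1 ⊢
  generalize Per l (fun v => τ (pr v) * om v ^ (-(a + b))) = F at hc hi hh e1
  rw [show -(a + b) = -b - a by ring] at hh
  by_cases hab : a + b = 0
  swap
  · have := (h.qe_core hG hW hc hi a (-b) hh
      (hG.hom_zero (by omega) hc.continuousOn hh)).const_mul ((-1) ^ b)
    simpa [lc, hab] using this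
  obtain ⟨m1, -, m2⟩ := hG.mass
  have := hG.fin
  rw [hab, neg_zero] at e1
  simp only [zpow_zero, mul_one] at e1
  rw [← integral_hyp_eq hτ.cd.continuous.aestronglyMeasurable] at e1
  have hV : (volume.real D : ℂ) ≠ 0 := by exact_mod_cast m2.ne'
  generalize ∫ z, τ z ∂hyp = M at e1
  have k := h.qe_core hG hW (F := fun v => F v - (volume.real D : ℂ)⁻¹ * M)
    (hc.sub contDiffOn_const) (fun γ v hv => by simp only [hi γ v hv]) a (-b)
    (fun c hc v hv => by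
      simp only [hh c hc v hv, show -b - a = 0 by omega, zpow_zero, one_mul])
    (by
      rw [integral_sub (hG.integrable hc.continuousOn) (integrable_const _), ← e1, integral_const,
        m1, real_smul, mul_inv_cancel_left₀ hV, sub_self])
  have k2 := (k.add_const ((volume.real D : ℂ)⁻¹ * M)).const_mul ((-1) ^ b)
  rw [zero_add, ← mul_assoc] at k2
  simp only [lc, if_pos hab, ofReal_inv]
  refine k2.congr' ?_
  filter_upwards [(h.tend.mono_left dF_le).eventually_gt_atTop 0] with j hj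
  have ct := ((h.lad j).cd_TT a (-b)).continuousOn
  have h1 := (h.ol1 hj).orth a (-b)
  rw [if_pos (by omega)] at h1
  simp only [sub_mul]
  rw [integral_sub (hG.integrable (F := fun v => F v * TT (Φ j) a (-b) v) (hc.continuousOn.mul ct))
    ((hG.integrable ct).const_mul _), integral_const_mul, h1, mul_one, sub_add_cancel]

end Pool.Agent.Lib.MP_a52643_an.H53
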