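import Pool.Agent.Lib.MP_a52643_an.H60Cut

open MeasureTheory Set Filter Topology Metric UpperHalfPlane
open scoped ENNReal NNReal ContDiff Laplacian MatrixGroups

noncomputable section

namespace Pool.Agent.Lib.MP_a52643_an.H60

variable {Γ : Type} [Group Γ] [Countable Γ] [MulAction Γ ℍ] {l : Γ → SL2} {D : Set ℍ}

lemma compact_unf {S : Set ℂ} (hS : IsCompact S) (hU : S ⊆ UH) :
    IsCompact (UpperHalfPlane.coe ⁻¹' S) :=
  isOpenEmbedding_coe.isInducing.isCompact_preimage' hS fun w hw => ⟨⟨w, hU hw⟩, rfl⟩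

lemma dens_unf : Measurable fun z : ℂ => ENNReal.ofReal (1 / z.im ^ 2) :=
  (measurable_const.div (Complex.measurable_im.pow_const 2)).ennreal_ofReal

omit [Countable Γ] in
lemma fd_unf (hD : FD l D) : IsFundamentalDomain Γ D volume :=
  IsFundamentalDomain.mk'' hD.meas.nullMeasurableSet hD.cov
    (fun γ hγ => Disjoint.aedisjoint (disjoint_left.2 (by
      rintro _ ⟨z, hz, rfl⟩ h
      exact hD.free γ hγ z hz h)))
    fun γ => (hD.mp γ).quasiMeasurePreserving

/-- Unfolding. -/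
theorem unfold_int (hD : FD l D) {ψ0 : ℂ → ℝ} (h1 : Continuous ψ0) (h2 : HasCompactSupport ψ0)
    (h3 : tsupport ψ0 ⊆ UH) {F : ℍ → ℝ} (hF : Continuous F) (hi : ∀ (γ : Γ) z, F (γ • z) = F z) :
    ∫ z in D, (∑' γ : Γ, ψ0 (γ • z : ℍ)) * F z = ∫ w : ℂ, ψ0 w / w.im ^ 2 * F (ofComplex w) := by
  have : MeasurableConstSMul Γ ℍ := ⟨fun γ => (hD.mp γ).measurable⟩
  have : SMulInvariantMeasure Γ ℍ volume :=
    ⟨fun γ s hs => (hD.mp γ).measure_preimage hs.nullMeasurableSet⟩
  have hc : Continuous fun z : ℍ => ψ0 z * F z := (h1.comp continuous_coe).mul hF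
  have hs : HasCompactSupport fun z : ℍ => ψ0 z * F z :=
    HasCompactSupport.intro (compact_unf h2 h3) fun z hz => by
      rw [image_eq_zero_of_notMem_tsupport hz, zero_mul]
  have hI : Integrable (fun z : ℍ => ψ0 z * F z) volume := hc.integrable_of_hasCompactSupport hs
  have e1 := (fd_unf hD).integral_eq_tsum'' _ hI
  have e2 := (fd_unf hD).lintegral_eq_tsum'' fun z : ℍ => ‖ψ0 z * F z‖ₑ
  have e3 := integral_tsum (μ := volume.restrict D)
    (f := fun (γ : Γ) (z : ℍ) => ψ0 (γ • z : ℍ) * F (γ • z))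
    (fun γ => (hc.measurable.comp (hD.mp γ).measurable).aestronglyMeasurable)
    (by rw [← e2]; exact hI.2.ne)
  have e4 : ∫ z in D, (∑' γ : Γ, ψ0 (γ • z : ℍ)) * F z = ∫ z : ℍ, ψ0 z * F z := by
    rw [e1, ← e3]
    simp only [hi, tsum_mul_right]
  have e5 := measurePreserving_coe.integral_comp measurableEmbedding_coe
    fun w : ℂ => ψ0 w * F (ofComplex w)
  simp only [ofComplex_apply] at e5
  rw [e4, e5, hyp, integral_withDensity_eq_integral_toReal_smul dens_unf
    (Eventually.of_forall fun _ => ENNReal.ofReal_lt_top),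
    setIntegral_eq_integral_of_forall_compl_eq_zero fun w hw => by
      rw [image_eq_zero_of_notMem_tsupport fun h => hw (h3 h), zero_mul, smul_zero]]
  refine integral_congr_ae (Eventually.of_forall fun w => ?_)
  simp only
  rw [ENNReal.toReal_ofReal (by positivity), smul_eq_mul]
  ring

lemma lint_unf {S : Set ℂ} (hS : MeasurableSet S) (hU : S ⊆ UH) (G : ℍ → ℝ≥0∞) :
    ∫⁻ w in S, G (ofComplex w) =
      ∫⁻ z in UpperHalfPlane.coe ⁻¹' S, ENNReal.ofReal (z.im ^ 2) * G z := by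
  have e := measurePreserving_coe.lintegral_comp_emb measurableEmbedding_coe
    (S.indicator fun w : ℂ => ENNReal.ofReal (w.im ^ 2) * G (ofComplex w))
  rw [hyp, lintegral_withDensity_eq_lintegral_mul_non_measurable _ dens_unf
    (Eventually.of_forall fun _ => ENNReal.ofReal_lt_top)] at e
  rw [← lintegral_indicator (measurableEmbedding_coe.measurable hS)]
  have e1 : ∀ z : ℍ, (UpperHalfPlane.coe ⁻¹' S).indicator
      (fun z : ℍ => ENNReal.ofReal (z.im ^ 2) * G z) z =
      S.indicator (fun w : ℂ => ENNReal.ofReal (w.im ^ 2) * G (ofComplex w)) z := fun z => by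
    by_cases hz : (z : ℂ) ∈ S <;> simp [hz, ofComplex_apply]
  simp only [e1]
  rw [e, ← lintegral_indicator hS, ← lintegral_indicator isOpen_UH.measurableSet]
  refine lintegral_congr fun w => ?_
  by_cases hw : w ∈ S
  · have h0 : 0 < w.im := hU hw
    rw [indicator_of_mem hw, indicator_of_mem (hU hw), Pi.mul_apply, indicator_of_mem hw,
      ← mul_assoc, ← ENNReal.ofReal_mul (by positivity), one_div_mul_cancel (by positivity),
      ENNReal.ofReal_one, one_mul]
  · by_cases hw' : w ∈ UH <;> simp [hw, hw']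

/-- Mass on a compact set of the plane is bounded by the mass on the fundamental domain. -/
theorem NN_le (hD : FD l D) {S : Set ℂ} (hS : IsCompact S) (hU : S ⊆ UH) {ρ : ℍ → ℝ}
    (hρ : Continuous ρ) (h0 : ∀ z, 0 < ρ z) (hi : ∀ (γ : Γ) z, ρ (γ • z) = ρ z) :
    ∃ N : ℝ≥0∞, N ≠ ⊤ ∧ ∀ φ : ℍ → ℝ, Continuous φ → (∀ (γ : Γ) z, φ (γ • z) = φ z) →
      ∫ z in D, φ z ^ 2 * ρ z = 1 → NN S (fun w => φ (ofComplex w)) ≤ N := by
  have hO := compact_unf hS hU
  obtain ⟨c', hc', h1⟩ := hD.tsum_compact hO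
  have hq : Continuous fun z : ℍ => z.im ^ 2 / ρ z :=
    (continuous_im.pow 2).div hρ fun z => (h0 z).ne'
  obtain ⟨c, hc⟩ := hO.exists_bound_of_continuousOn hq.continuousOn
  refine ⟨ENNReal.ofReal c * c', ENNReal.mul_ne_top ENNReal.ofReal_ne_top hc',
    fun φ hφ hφi h2 => ?_⟩
  have hm : Measurable fun z : ℍ => ENNReal.ofReal (φ z ^ 2 * ρ z) :=
    ((hφ.pow 2).mul hρ).measurable.ennreal_ofReal
  have h3 := hD.eqv.le_of_tsum hD hm (fun γ z => by simp only [hφi, hi]) hO.measurableSet h1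
  simp only [preimage_id] at h3
  have h4 : IntegrableOn (fun z => φ z ^ 2 * ρ z) D := by
    by_contra h
    rw [integral_undef h] at h2
    exact zero_ne_one h2
  rw [← ofReal_integral_eq_lintegral_ofReal h4
    (Eventually.of_forall fun z => mul_nonneg (sq_nonneg _) (h0 z).le), h2, ENNReal.ofReal_one,
    mul_one] at h3
  rw [NN, lint_unf hS.measurableSet hU fun z => ‖φ z‖ₑ ^ 2]
  calc ∫⁻ z in UpperHalfPlane.coe ⁻¹' S, ENNReal.ofReal (z.im ^ 2) * ‖φ z‖ₑ ^ 2
      ≤ ∫⁻ z in UpperHalfPlane.coe ⁻¹' S, ENNReal.ofReal c * ENNReal.ofReal (φ z ^ 2 * ρ z) := by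
        refine setLIntegral_mono' hO.measurableSet fun z hz => ?_
        have k1 : z.im ^ 2 / ρ z ≤ c := (le_abs_self _).trans (hc z hz)
        have k2 : 0 ≤ c := (div_nonneg (sq_nonneg _) (h0 z).le).trans k1
        rw [div_le_iff₀ (h0 z)] at k1
        rw [Real.enorm_eq_ofReal_abs, ← ENNReal.ofReal_pow (abs_nonneg _), sq_abs,
          ← ENNReal.ofReal_mul (sq_nonneg _), ← ENNReal.ofReal_mul k2]
        refine ENNReal.ofReal_le_ofReal ?_
        nlinarith [sq_nonneg (φ z)]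
    _ = ENNReal.ofReal c * ∫⁻ z in UpperHalfPlane.coe ⁻¹' S, ENNReal.ofReal (φ z ^ 2 * ρ z) :=
        lintegral_const_mul _ hm
    _ ≤ ENNReal.ofReal c * c' := by gcongr

end Pool.Agent.Lib.MP_a52643_an.H60
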