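import Pool.Agent.Lib.MP_a52643_an.Glob
import Pool.Agent.Lib.MP_a52643_an.H60Unf

/-!
Definitions for the bulk range of the spectral expansion of the fourth moment.
-/

open Complex MeasureTheory Set Filter Topology Metric
open UpperHalfPlane (ofComplex)
open scoped ComplexConjugate ContDiff ENNReal UpperHalfPlane Laplacian Real

noncomputable section

namespace Pool.Agent.Lib.MP_a52643_an.H53

/-! ### Part A: local analysis along an arbitrary filter -/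

/-- test functions of class `C^n` -/
structure Tst (n : ℕ) (τ : ℂ → ℂ) : Prop where
  cd : ContDiff ℝ n τ
  hcs : HasCompactSupport τ
  sub : tsupport τ ⊆ UH

def px (f : ℂ → ℂ) (z : ℂ) : ℂ := fderiv ℝ f z 1

def py (f : ℂ → ℂ) (z : ℂ) : ℂ := fderiv ℝ f z I

section fam

variable {J : Type}

/-- bounded density at every fixed small scale -/
def DB (l : Filter J) (F : J → ℂ → ℂ) : Prop :=
  ∀ K : Set ℂ, IsCompact K → K ⊆ UH → ∃ C ε0 : ℝ, 0 < ε0 ∧ cthickening ε0 K ⊆ UH ∧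
    ∀ ε, 0 < ε → ε ≤ ε0 → ∀ᶠ j in l, ∀ z ∈ K, ∫ x in ball z ε, ‖F j x‖ ≤ C * ε ^ 2

/-- weakly null with bounded density -/
structure WD (l : Filter J) (F : J → ℂ → ℂ) : Prop where
  cont : ∀ j, ContinuousOn (F j) UH
  wk : ∀ τ, Tst 1 τ → Tendsto (fun j => ∫ z, τ z * F j z) l (𝓝 0)
  db : DB l F

/-- locally small in square mean, with a weight -/
structure SM (l : Filter J) (s : J → ℝ) (F : J → ℂ → ℂ) : Prop where
  cont : ∀ j, ContinuousOn (F j) UH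
  lim : ∀ K : Set ℂ, IsCompact K → K ⊆ UH →
    Tendsto (fun j => s j * ∫ z in K, ‖F j z‖ ^ 2) l (𝓝 0)

/-- the limit of the quadratic expression of index `a, b` -/
def lc (κ : ℝ) (a b : ℤ) : ℂ := if a + b = 0 then (-1) ^ b * κ else 0

/-- families of ladders which equidistribute in phase space -/
structure QF (l : Filter J) (lam : J → ℝ) (Φ : J → ℤ → V → ℂ) (κ : ℝ) : Prop where
  lad : ∀ j, Ladder (lam j) (Φ j)
  tend : Tendsto lam l atTop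
  weak : ∀ τ, Tst 1 τ → ∀ a b : ℤ, Tendsto (fun j => ∫ z, τ z * psi (Φ j) ![a, b] z ∂hyp) l
    (𝓝 (lc κ a b * ∫ z, τ z ∂hyp))

/-- the conservation law of a chain with offset `m` -/
def law (m : ℤ) (R : ℤ → ℂ → ℂ) (k : ℤ) (z : ℂ) : ℂ :=
  2 * I * z.im * (dz (R k) z + dzb (R (k + 1)) z) + (m + 2 * k) * R k z
    + (m + 2 * k + 2) * R (k + 1) z

structure Chain (l : Filter J) (t : J → ℝ) (m : ℤ) (R : J → ℤ → ℂ → ℂ) : Prop where
  cd : ∀ j k, ContDiffOn ℝ 1 (R j k) UH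
  wd : ∀ k, WD l fun j => R j k
  sm : ∀ k, SM l (fun j => (t j)⁻¹) fun j => R j k
  law : ∀ k, SM l t fun j => law m (R j) k

def DD (R S : ℤ → ℂ → ℂ) (z : ℂ) : ℂ :=
  2 * R 0 z * S 0 z - R (-1) z * S 1 z - R 1 z * S (-1) z

def vint (f : ℂ → ℂ) (z : ℂ) : ℂ := ∫ s in (1 : ℝ)..z.im, f (z.re + s * I)

/-- energy density -/
def en (Φ : ℤ → V → ℂ) (z : ℂ) : ℝ := ‖ph Φ 0 z‖ ^ 2 + ‖ph Φ 1 z‖ ^ 2

def NN4 : LA (Fin 4) := (W 2 * W 3 - W 0 * W 1) * (W' 2 * W' 3 - W' 0 * W' 1)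

def Lam : LA (Fin 4) →ₗ[ℝ] ℂ := lin fun a => lc 1 (a 0) (a 1) * lc 1 (a 2) (a 3)

/-- the quartic functional -/
def Q4 (Φ : ℤ → V → ℂ) (τ : ℂ → ℂ) (P : LA (Fin 4)) : ℂ := ∫ z, τ z * GG Φ P z ∂hyp

end fam

/-! ### Parts B and C: global objects -/

def Lm (g : SL2) : V →L[ℝ] V := Lg (ea g) (eb g) (ec g) (ed g)

section glob

variable {Γ : Type} [Group Γ] [MulAction Γ ℍ]

/-- invariance under the group -/
def IV (l : Γ → SL2) {E : Type*} (H : V → E) : Prop := ∀ γ, ∀ v ∈ Om, H (Lm (l γ) v) = H v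

/-- invariance under positive scalars -/
def PH {E : Type*} (H : V → E) : Prop := ∀ c : ℝ, 0 < c → ∀ v ∈ Om, H (c • v) = H v

structure IC (l : Γ → SL2) {E : Type*} [TopologicalSpace E] (H : V → E) : Prop where
  cont : ContinuousOn H Om
  inv : IV l H
  ph : PH H

/-- a fundamental domain together with a partition of unity -/
structure Geo (l : Γ → SL2) (D : Set ℍ) (w : ℂ → ℝ) : Prop where
  fd : FD l D
  cd : ContDiff ℝ ∞ w
  hcs : HasCompactSupport w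
  sub : tsupport w ⊆ UH
  nn : ∀ z, 0 ≤ w z
  sum : ∀ z : ℍ, ∑' γ : Γ, w (γ • z : ℍ) = 1

/-- the measure computing integrals of invariant functions over the quotient -/
def nuW (w : ℂ → ℝ) : Measure V := mV.withDensity fun v => ENNReal.ofReal (w (pr v))

def Per (l : Γ → SL2) (u : V → ℂ) (v : V) : ℂ := ∑' γ : Γ, u (Lm (l γ) v)

/-- the right action -/
def act (m : V) : V →L[ℝ] V := smulL m.1 + (smulL m.2).comp cj

def dm (m : V) : ℝ := normSq m.1 - normSq m.2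

def gm (m n : V) : V := (m.1 * n.1 + m.2 * conj n.2, m.1 * n.2 + m.2 * conj n.1)

structure Spec (l : Γ → SL2) (D : Set ℍ) (φ : ℕ → ℍ → ℝ) (lam : ℕ → ℝ)
    (Φ : ℕ → ℤ → V → ℂ) : Prop where
  inv : ∀ j (γ : Γ) z, φ j (γ • z) = φ j z
  sm : ∀ j, ContDiffOn ℝ ∞ (fun z => φ j (ofComplex z)) UH
  eig : ∀ j, ∀ z ∈ UH,
    z.im ^ 2 * Δ (fun z => φ j (ofComplex z)) z = -lam j * φ j (ofComplex z)
  on : ∀ j k, ∫ z in D, φ j z * φ k z = if j = k then 1 else 0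
  pars : ∀ F G : ℍ → ℝ, Continuous F → Continuous G → (∀ (γ : Γ) z, F (γ • z) = F z) →
    (∀ (γ : Γ) z, G (γ • z) = G z) →
    HasSum (fun k => (∫ z in D, F z * φ k z) * ∫ z in D, G z * φ k z) (∫ z in D, F z * G z)
  mono : Monotone lam
  tend : Tendsto lam atTop atTop
  lad : ∀ j, Ladder (lam j) (Φ j)
  linv : ∀ j n, IV l (Φ j n)
  zero : ∀ j, 0 < lam j → ∀ z : ℍ, ph (Φ j) 0 z = φ j z

/-- orthonormal finite families -/
def ONF {ι : Type} [DecidableEq ι] (w : ℂ → ℝ) (s : Finset ι) (u : ι → V → ℂ) : Prop :=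
  ∀ i ∈ s, ∀ k ∈ s, ∫ v, u i v * conj (u k v) ∂nuW w = if i = k then 1 else 0

/-- one orthonormal invariant ladder -/
structure OL1 (l : Γ → SL2) (w : ℂ → ℝ) (lam : ℝ) (Φ : ℤ → V → ℂ) : Prop where
  pos : 0 < lam
  lad : Ladder lam Φ
  linv : ∀ n, IV l (Φ n)
  orth : ∀ a b, ∫ v, TT Φ a b v ∂nuW w = if a = b then 1 else 0

/-- a family of orthonormal invariant ladders -/
structure OL (l : Γ → SL2) (w : ℂ → ℝ) (lam : ℕ → ℝ) (Φ : ℕ → ℤ → V → ℂ) : Prop where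
  lad : ∀ j, Ladder (lam j) (Φ j)
  linv : ∀ j n, IV l (Φ j n)
  mono : Monotone lam
  tend : Tendsto lam atTop atTop
  orth : ∀ j k, 0 < lam j → 0 < lam k → ∀ a b,
    ∫ v, Φ j a v * conj (Φ k b v) ∂nuW w = if j = k ∧ a = b then 1 else 0

omit [Group Γ] [MulAction Γ ℍ] in
lemma OL.ol1 {l : Γ → SL2} {w : ℂ → ℝ} {lam : ℕ → ℝ} {Φ : ℕ → ℤ → V → ℂ} (h : OL l w lam Φ)
    {j : ℕ} (hj : 0 < lam j) : OL1 l w (lam j) (Φ j) :=
  ⟨hj, h.lad j, h.linv j, fun a b => by simpa [TT] using h.orth j j hj hj a b⟩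

structure Tent (N : ℕ) (χ : ℤ → ℝ) : Prop where
  zero : ∀ a, (N : ℤ) ≤ |a| → χ a = 0
  sq : ∑ a ∈ Finset.Icc (-(N : ℤ)) N, χ a ^ 2 = 1
  dif : ∑ a ∈ Finset.Icc (-(N : ℤ) - 1) N, (χ (a + 1) - χ a) ^ 2 ≤ 3 / (N : ℝ) ^ 2

/-- the microlocal lift -/
def lift (N : ℕ) (χ : ℤ → ℝ) (Φ : ℤ → V → ℂ) (v : V) : ℂ :=
  ∑ a ∈ Finset.Icc (-(N : ℤ)) N, χ a * Φ a v

structure Lift (l : Γ → SL2) (w : ℂ → ℝ) (T N : ℝ) (u : V → ℂ) : Prop where
  cd : ContDiffOn ℝ 1 u Om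
  inv : IV l u
  ph : PH u
  n0 : ∫ x, ‖u x‖ ^ 2 ∂nuW w ≤ 1
  ep : ∫ x, ‖Ep u x - I * T * u x‖ ^ 2 ∂nuW w ≤ 100 * (T / N) ^ 2
  em : ∫ x, ‖Em u x - I * T * u x‖ ^ 2 ∂nuW w ≤ 100 * (T / N) ^ 2
  rot : ∫ x, ‖fderiv ℝ u x (I • x)‖ ^ 2 ∂nuW w ≤ 100 * N ^ 2

/-- time average along the geodesic flow -/
def tav (F : V → ℂ) (K : ℕ) (x : V) : ℂ := (K : ℂ)⁻¹ * ∑ k ∈ Finset.range K, F (fl k x)

/-- the two horocycle groups -/
def Uf (x : ℝ) : V := (1 + I * x / 2, I * x / 2)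

def Ub (x : ℝ) : V := (1 - I * x / 2, I * x / 2)

def fR (Φ : ℤ → V → ℂ) (a : ℤ) (z : ℍ) : ℝ := (psi Φ ![a, -a] z).re

/-- lower Weyl bound -/
def Weyl (lam : ℕ → ℝ) : Prop :=
  ∃ c : ℝ, 0 < c ∧ ∀ᶠ T : ℝ in atTop, c * T ^ 2 ≤ ({j | lam j ≤ T ^ 2}.ncard : ℝ)

def arc (g : ℝ → ℝ) : ℝ := π⁻¹ * ∫ θ in (0 : ℝ)..π, g (2 + 2 * Real.cos θ)

def RHS (V0 : ℝ) (g : ℝ → ℝ) (m : ℝ) : ℝ :=
  g 0 / V0 + 2 / V0 * arc g + (2 * g 0 + g 4) / 3 * (m - 3 / V0)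

end glob

/-- the filter of sets of density one -/
def dF : Filter ℕ where
  sets := {S | Tendsto (fun J : ℕ => ((Sᶜ ∩ Iio J).ncard : ℝ) / J) atTop (𝓝 0)}
  univ_sets := by simp
  sets_of_superset := by
    intro S S' hS h
    refine squeeze_zero (fun J => by positivity) (fun J => ?_) hS
    refine div_le_div_of_nonneg_right (Nat.cast_le.2 ?_) (by positivity)
    exact ncard_le_ncard (inter_subset_inter_left _ (compl_subset_compl.2 h))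
      ((finite_Iio J).inter_of_right _)
  inter_sets := by
    intro S S' hS hS'
    have h := Tendsto.add hS hS'
    rw [add_zero] at h
    refine squeeze_zero (fun J => by positivity) (fun J => ?_) h
    rw [← add_div]
    refine div_le_div_of_nonneg_right ?_ (by positivity)
    rw [compl_inter, union_inter_distrib_right]
    exact_mod_cast ncard_union_le _ _

lemma mem_dF {S : Set ℕ} :
    S ∈ dF ↔ Tendsto (fun J : ℕ => ((Sᶜ ∩ Iio J).ncard : ℝ) / J) atTop (𝓝 0) := Iff.rfl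

end Pool.Agent.Lib.MP_a52643_an.H53
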