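import Pool.Agent.Lib.MP_a52643_an.H53B2
import Pool.Agent.Lib.MP_a52643_an.H53B4
import Pool.Agent.Lib.MP_a52643_an.H53C7
import Pool.Agent.Lib.MP_a52643_an.H53C9

open Complex MeasureTheory Set Filter Topology Metric
open UpperHalfPlane (ofComplex)
open scoped ComplexConjugate ContDiff ENNReal UpperHalfPlane Laplacian Real

noncomputable section

namespace Pool.Agent.Lib.MP_a52643_an.H53

variable {Γ : Type} [Group Γ] [Countable Γ] [MulAction Γ ℍ] {l : Γ → SL2} {D : Set ℍ}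
  {w : ℂ → ℝ}

lemma ladder_zero_main (lam : ℝ) : Ladder lam fun _ _ => 0 := by
  refine ⟨fun n => contDiffOn_const, fun n c hc v hv => by simp, fun n v hv => ?_,
    fun n v hv => ?_, fun n v => by simp⟩
  · simp [Ep, wp]
  · simp [Em, wm]

omit [Countable Γ] in
lemma bdd_main {K : Set ℍ} (hK : IsCompact K) (h : ∀ z, ∃ γ : Γ, γ • z ∈ K) {F : ℍ → ℝ}
    (hF : Continuous F) (hi : ∀ (γ : Γ) z, F (γ • z) = F z) : ∃ B, ∀ z, ‖F z‖ ≤ B := by
  obtain ⟨B, hB⟩ := hK.exists_bound_of_continuousOn hF.continuousOn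
  refine ⟨B, fun z => ?_⟩
  obtain ⟨γ, hγ⟩ := h z
  rw [← hi γ z]
  exact hB _ hγ

lemma inner_eq_main {μ : Measure ℍ} {f g : Lp ℝ 2 μ} {F G : ℍ → ℝ} (hf : f =ᵐ[μ] F)
    (hg : g =ᵐ[μ] G) : inner ℝ f g = ∫ z, F z * G z ∂μ := by
  rw [L2.inner_def]
  refine integral_congr_ae ?_
  filter_upwards [hf, hg] with z a1 a2
  simp [a1, a2, mul_comm]

theorem exists_spec (hD : FD l D) {K : Set ℍ} (hK : IsCompact K) (h : ∀ z, ∃ γ : Γ, γ • z ∈ K)
    {φ : ℕ → ℍ → ℝ} {lam : ℕ → ℝ} (hinv : ∀ (j : ℕ) (γ : Γ) (z : ℍ), φ j (γ • z) = φ j z)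
    (hsm : ∀ j, ContDiffOn ℝ ∞ (fun z : ℂ => φ j (ofComplex z)) UH)
    (heig : ∀ j, ∀ z ∈ UH,
      z.im ^ 2 * Δ (fun z => φ j (ofComplex z)) z = -lam j * φ j (ofComplex z))
    (hmono : Monotone lam) (hlam : Tendsto lam atTop atTop) {D' : Set ℍ} (e : D =ᵐ[volume] D')
    (b : HilbertBasis ℕ ℝ (Lp ℝ 2 (volume.restrict D')))
    (hb : ∀ j, b j =ᵐ[volume.restrict D'] φ j) : ∃ Φ, Spec l D φ lam Φ := by
  have hr : volume.restrict D = volume.restrict D' := Measure.restrict_congr_set e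
  have hfin : IsFiniteMeasure (volume.restrict D') := by
    rw [← hr]; exact isFiniteMeasure_restrict.2 hD.fin
  have hc : ∀ j, Continuous (φ j) := fun j => by
    have := (hsm j).continuousOn.comp_continuous UpperHalfPlane.continuous_coe fun z => z.im_pos
    simpa only [Function.comp_def, UpperHalfPlane.ofComplex_apply] using this
  have hmem : ∀ F : ℍ → ℝ, Continuous F → (∀ (γ : Γ) z, F (γ • z) = F z) →
      MemLp F 2 (volume.restrict D') := fun F hF hi => by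
    obtain ⟨B, hB⟩ := bdd_main hK h hF hi
    exact MemLp.of_bound hF.aestronglyMeasurable B (Eventually.of_forall hB)
  have hl : ∀ j, ∃ Φ : ℤ → V → ℂ, Ladder (lam j) Φ ∧ (∀ n, IV l (Φ n)) ∧
      (0 < lam j → ∀ z : ℍ, ph Φ 0 z = φ j z) := by
    intro j
    by_cases hj : 0 < lam j
    · have hE : Eig Γ D (φ j) (lam j) := by
        refine ⟨hinv j, hsm j, heig j, ?_⟩
        rw [IntegrableOn, hr]
        exact (hmem (fun z => φ j z ^ 4) ((hc j).pow 4) fun γ z => by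
          simp only [hinv]).integrable one_le_two
      obtain ⟨Φ, h1, h2, h3⟩ := hE.ladder hD hj
      exact ⟨Φ, h1, fun n γ => h3 γ n, fun _ => h2⟩
    · exact ⟨fun _ _ => 0, ladder_zero_main _, fun n γ v hv => rfl, fun h => absurd h hj⟩
  choose Φ h1 h2 h3 using hl
  refine ⟨Φ, hinv, hsm, heig, fun j k => ?_, fun F G hF hG iF iG => ?_, hmono, hlam, h1, h2, h3⟩
  · rw [hr, ← inner_eq_main (hb j) (hb k)]
    exact orthonormal_iff_ite.1 b.orthonormal j k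
  · have mF := hmem F hF iF
    have mG := hmem G hG iG
    have := b.hasSum_inner_mul_inner (mF.toLp F) (mG.toLp G)
    rw [inner_eq_main mF.coeFn_toLp mG.coeFn_toLp] at this
    rw [hr]
    have e2 : ∀ k, inner ℝ (mF.toLp F) (b k) * inner ℝ (b k) (mG.toLp G)
        = (∫ z in D', F z * φ k z) * ∫ z in D', G z * φ k z := fun k => by
      rw [inner_eq_main mF.coeFn_toLp (hb k), real_inner_comm,
        inner_eq_main mG.coeFn_toLp (hb k)]
    simpa only [e2] using this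

theorem Spec.main {φ : ℕ → ℍ → ℝ} {lam : ℕ → ℝ} {Φ : ℕ → ℤ → V → ℂ} (hS : Spec l D φ lam Φ)
    (hG : Geo l D w) :
    ∃ S : Set ℕ, Tendsto (fun J : ℕ => ((S ∩ Iio J).ncard : ℝ) / J) atTop (𝓝 1) ∧
      ∀ g : ℝ → ℝ, ContDiff ℝ 2 g → (∃ (C : ℝ) (d : ℕ), ∀ s, |g s| ≤ C * (1 + |s|) ^ d) →
        (∀ j, Summable fun k => g (lam k / lam j) * (∫ z in D, φ j z ^ 2 * φ k z) ^ 2) ∧
        Tendsto (fun j => ∑' k, g (lam k / lam j) * (∫ z in D, φ j z ^ 2 * φ k z) ^ 2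
          - RHS (volume.real D) g (∫ z in D, φ j z ^ 4)) (atTop ⊓ 𝓟 S) (𝓝 0) := by
  have hQ := (hS.ol hG).qf hG (hS.weyl hG)
  obtain ⟨S, h1, h2⟩ := dF_extract fun n => hS.moment hG hQ n
  have h3 : ∀ j k, 0 ≤ lam k / lam j := fun j k => div_nonneg (hS.nonneg hG k) (hS.nonneg hG j)
  refine ⟨S, h1, fun g hg ⟨C, d, hC⟩ => ⟨fun j => ?_, ?_⟩⟩
  · exact summable_g (fun k => sq_nonneg _) (h3 j) (hS.summable hG j) hC
  · exact general_g (fun j k => sq_nonneg _) h3 (hS.summable hG) h2 hg hC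

end Pool.Agent.Lib.MP_a52643_an.H53
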