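import Pool.Agent.Lib.MP_a52643_an.H60Defs

open MeasureTheory Set Filter Topology Metric
open scoped ENNReal NNReal ContDiff Laplacian FourierTransform Real

noncomputable section

namespace Pool.Agent.Lib.MP_a52643_an.H60

variable {k k' : ℕ} {M M' B : ℝ} {w n : ℂ → ℂ}

theorem le_inf_adm (j : ℕ) : (j : WithTop ℕ∞) ≤ ((⊤ : ℕ∞) : WithTop ℕ∞) := by exact_mod_cast le_top

theorem Bnd.mono (h : Bnd k M w) (hk : k' ≤ k) (hM : M ≤ M') : Bnd k' M' w := by
  exact fun j hj Y hY => (h j (hj.trans hk) Y hY).trans hM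

theorem Adm.mono (h : Adm k M w) (hk : k' ≤ k) (hM : M ≤ M') : Adm k' M' w := by
  exact ⟨h.sm, h.supp, h.bd.mono hk hM⟩

theorem Bnd.nonneg_adm (h : Bnd k M w) : 0 ≤ M :=
  (norm_nonneg _).trans (h 0 (Nat.zero_le _) 0 (mem_ball_self one_pos))

theorem Adm.nonneg (h : Adm k M w) : 0 ≤ M := by
  exact h.bd.nonneg_adm

theorem Adm.hcs (h : Adm k M w) : HasCompactSupport w := by
  exact (isCompact_closedBall (0 : ℂ) 1).of_isClosed_subset (isClosed_tsupport w)
    (h.supp.trans ball_subset_closedBall)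

theorem Adm.zero (h : Adm k M w) {Y : ℂ} (hY : Y ∉ ball (0 : ℂ) 1) : w Y = 0 := by
  exact image_eq_zero_of_notMem_tsupport fun h' => hY (h.supp h')

theorem Adm.norm_le (h : Adm k M w) (Y : ℂ) : ‖w Y‖ ≤ M := by
  by_cases hY : Y ∈ ball (0 : ℂ) 1
  · have := h.bd 0 (Nat.zero_le _) Y hY
    rwa [norm_iteratedFDeriv_zero] at this
  · rw [h.zero hY, norm_zero]
    exact h.nonneg

theorem Adm.dd (h : Adm (k + 1) M w) {e : ℂ} (he : ‖e‖ ≤ 1) : Adm k M (dd e w) := by
  have h1 : ContDiff ℝ ∞ (fderiv ℝ w) := (contDiff_infty_iff_fderiv.1 h.sm).2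
  refine ⟨h1.clm_apply contDiff_const, (tsupport_fderiv_apply_subset ℝ e).trans h.supp,
    fun j hj Y hY => ?_⟩
  refine (norm_iteratedFDeriv_clm_apply_const (c := e) h1.contDiffAt (le_inf_adm j)).trans ?_
  rw [norm_iteratedFDeriv_fderiv]
  exact (mul_le_of_le_one_left (norm_nonneg _) he).trans (h.bd (j + 1) (by omega) Y hY)

theorem Adm.mul (h : Adm k B w) (hn : ContDiff ℝ ∞ n) (hb : Bnd k M n) :
    Adm k (2 ^ k * M * B) fun Y => n Y * w Y := by
  have hM := hb.nonneg_adm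
  have hB := h.nonneg
  refine ⟨hn.mul h.sm, tsupport_mul_subset_right.trans h.supp, fun j hj Y hY => ?_⟩
  refine (norm_iteratedFDeriv_mul_le hn h.sm Y (le_inf_adm j)).trans ?_
  calc _ ≤ ∑ i ∈ Finset.range (j + 1), (j.choose i : ℝ) * M * B := by
        refine Finset.sum_le_sum fun i hi => ?_
        have hi' : i ≤ j := Nat.lt_succ_iff.1 (Finset.mem_range.1 hi)
        have a1 := hb i (hi'.trans hj) Y hY
        have a2 := h.bd (j - i) ((Nat.sub_le j i).trans hj) Y hY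
        gcongr
    _ = 2 ^ j * M * B := by
        rw [← Finset.sum_mul, ← Finset.sum_mul, ← Nat.cast_sum, Nat.sum_range_choose]
        norm_num
    _ ≤ 2 ^ k * M * B := by
        gcongr
        norm_num

theorem bnd_clm_adm (L : ℂ →L[ℝ] ℂ) (hL : ‖L‖ ≤ M) : Bnd k M L := by
  intro j _ Y hY
  have hM : 0 ≤ M := (norm_nonneg _).trans hL
  rcases j with _ | _ | j
  · rw [norm_iteratedFDeriv_zero]
    refine (L.le_opNorm Y).trans ((mul_le_of_le_one_right (norm_nonneg _) ?_).trans hL)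
    exact (mem_ball_zero_iff.1 hY).le
  · rwa [zero_add, norm_iteratedFDeriv_one, L.fderiv]
  · have e : fderiv ℝ (L : ℂ → ℂ) = fun _ => L := funext fun _ => L.fderiv
    rw [← norm_iteratedFDeriv_fderiv, e, iteratedFDeriv_succ_const]
    simpa using hM

theorem Adm.lw (h : Adm k B w) {e : ℂ} (he : ‖e‖ ≤ M) : Adm k (2 ^ k * M * B) (lw e w) := by
  have hL : ‖Complex.ofRealCLM.comp (innerSL ℝ e)‖ ≤ M := by
    refine (ContinuousLinearMap.opNorm_comp_le _ _).trans ?_
    rwa [Complex.ofRealCLM_norm, one_mul, innerSL_apply_norm]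
  have e1 : H60.lw e w = fun Y => Complex.ofRealCLM.comp (innerSL ℝ e) Y * w Y := by
    funext Y
    rw [H60.lw, real_inner_comm]
    rfl
  rw [e1]
  exact h.mul (ContinuousLinearMap.contDiff _) (bnd_clm_adm _ hL)

theorem exists_adm (k : ℕ) (hw : ContDiff ℝ ∞ w) (hs : tsupport w ⊆ ball 0 1) :
    ∃ M, Adm k M w := by
  choose C hC using fun j : ℕ => (isCompact_closedBall (0 : ℂ) 1).exists_bound_of_continuousOn
    (hw.continuous_iteratedFDeriv (le_inf_adm j)).continuousOn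
  refine ⟨∑ j ∈ Finset.range (k + 1), C j, hw, hs, fun j hj Y hY => ?_⟩
  refine (hC j Y (ball_subset_closedBall hY)).trans (Finset.single_le_sum (f := C)
    (fun i _ => (norm_nonneg _).trans (hC i 0 (mem_closedBall_self zero_le_one))) ?_)
  exact Finset.mem_range.2 (Nat.lt_succ_iff.2 hj)

theorem contDiff_cx {n : ℂ → ℝ} (hn : ContDiff ℝ ∞ n) : ContDiff ℝ ∞ (cx n) := by
  exact Complex.ofRealCLM.contDiff.comp hn

theorem exists_win : ∃ q, Win q := by
  let b : ContDiffBump (0 : ℂ) := ⟨1 / 4, 1 / 2, by norm_num, by norm_num⟩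
  have b0 : b 0 = 1 := b.one_of_mem_closedBall (mem_closedBall_self b.rIn_pos.le)
  have hc : HasCompactSupport fun Y => b Y ^ 3 :=
    b.hasCompactSupport.comp_left (g := fun t : ℝ => t ^ 3) (by norm_num)
  have hI : 0 < ∫ Y, b Y ^ 3 :=
    (b.continuous.pow 3).integral_pos_of_hasCompactSupport_nonneg_nonzero hc
      (fun Y => pow_nonneg b.nonneg 3) (x := 0) (by simp [b0])
  set c := (∫ Y, b Y ^ 3)⁻¹ ^ ((3 : ℕ)⁻¹ : ℝ) with hc'
  have c0 : 0 < c := Real.rpow_pos_of_pos (inv_pos.2 hI) _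
  have c3 : c ^ 3 = (∫ Y, b Y ^ 3)⁻¹ := Real.rpow_inv_natCast_pow (inv_pos.2 hI).le (by norm_num)
  refine ⟨fun Y => c * b Y, contDiff_const.mul b.contDiff, ?_, fun Y => by rw [b.neg], ?_,
    fun Y => mul_nonneg c0.le b.nonneg, ?_⟩
  · refine tsupport_mul_subset_right.trans ?_
    rw [b.tsupport_eq]
    exact closedBall_subset_ball (by norm_num [b])
  · rwa [b0, mul_one]
  · simp only [mul_pow]
    rw [integral_const_mul, c3, inv_mul_cancel₀ hI.ne']

theorem Win.adm {q : ℂ → ℝ} (h : Win q) (k : ℕ) : ∃ M, Adm k M (cx q) := by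
  exact exists_adm k (contDiff_cx h.sm)
    ((tsupport_comp_subset (g := Complex.ofReal) Complex.ofReal_zero q).trans h.supp)

end Pool.Agent.Lib.MP_a52643_an.H60
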