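import Pool.Agent.Lib.MP_a52643_an.H60Defs

open MeasureTheory Set Filter Topology Metric
open scoped ENNReal NNReal ContDiff Laplacian FourierTransform Real

noncomputable section

namespace Pool.Agent.Lib.MP_a52643_an.H60

theorem Tri.pos {a : R3} (h : Tri a) : 0 < a.1 ∧ 0 < a.2.1 ∧ 0 < a.2.2 := by
  obtain ⟨h1, h2, h3⟩ := h
  exact ⟨by linarith, by linarith, by linarith⟩

theorem isOpen_Tri : IsOpen {a : R3 | Tri a} := by
  have h1 : IsOpen {a : R3 | a.1 < a.2.1 + a.2.2} := isOpen_lt (by fun_prop) (by fun_prop)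
  have h2 : IsOpen {a : R3 | a.2.1 < a.1 + a.2.2} := isOpen_lt (by fun_prop) (by fun_prop)
  have h3 : IsOpen {a : R3 | a.2.2 < a.1 + a.2.1} := isOpen_lt (by fun_prop) (by fun_prop)
  exact h1.inter (h2.inter h3)

theorem measurable_al : Measurable al := by
  exact Real.continuous_arccos.measurable.comp (by fun_prop)

theorem measurable_be : Measurable be := by
  exact Real.continuous_arccos.measurable.comp (by fun_prop)

theorem mem_ang {x y z : ℝ} (h1 : x < y + z) (h2 : y < x + z) (h3 : z < x + y) :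
    -1 < (y ^ 2 - x ^ 2 - z ^ 2) / (2 * x * z) ∧ (y ^ 2 - x ^ 2 - z ^ 2) / (2 * x * z) < 1 := by
  have hx : 0 < x := by linarith
  have hz : 0 < z := by linarith
  have hp : 0 < 2 * x * z := by positivity
  rw [lt_div_iff₀ hp, div_lt_iff₀ hp]
  constructor
  · nlinarith [mul_pos (sub_pos.2 h1) (sub_pos.2 h3)]
  · nlinarith [mul_pos (sub_pos.2 h2) (show 0 < x + y + z by linarith)]

theorem Tri.ca_ang {a : R3} (h : Tri a) :
    -1 < (a.2.1 ^ 2 - a.1 ^ 2 - a.2.2 ^ 2) / (2 * a.1 * a.2.2) ∧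
      (a.2.1 ^ 2 - a.1 ^ 2 - a.2.2 ^ 2) / (2 * a.1 * a.2.2) < 1 := mem_ang h.1 h.2.1 h.2.2

theorem Tri.cb_ang {a : R3} (h : Tri a) :
    -1 < (a.1 ^ 2 - a.2.1 ^ 2 - a.2.2 ^ 2) / (2 * a.2.1 * a.2.2) ∧
      (a.1 ^ 2 - a.2.1 ^ 2 - a.2.2 ^ 2) / (2 * a.2.1 * a.2.2) < 1 :=
  mem_ang h.2.1 h.1 (by linarith [h.2.2])

theorem sin_arccos_pos_ang {c : ℝ} (h : -1 < c ∧ c < 1) : 0 < Real.sin (Real.arccos c) := by
  rw [Real.sin_arccos]
  exact Real.sqrt_pos.2 (by nlinarith [h.1, h.2])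

theorem Tri.sin_al_ang {a : R3} (h : Tri a) : 0 < Real.sin (al a) := sin_arccos_pos_ang h.ca_ang

theorem Tri.sin_be_ang {a : R3} (h : Tri a) : 0 < Real.sin (be a) := sin_arccos_pos_ang h.cb_ang

theorem Tri.cos_al_ang {a : R3} (h : Tri a) :
    2 * a.1 * a.2.2 * Real.cos (al a) = a.2.1 ^ 2 - a.1 ^ 2 - a.2.2 ^ 2 := by
  obtain ⟨h1, _, h3⟩ := h.pos
  rw [al, Real.cos_arccos h.ca_ang.1.le h.ca_ang.2.le]
  field_simp

theorem Tri.cos_be_ang {a : R3} (h : Tri a) :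
    2 * a.2.1 * a.2.2 * Real.cos (be a) = a.1 ^ 2 - a.2.1 ^ 2 - a.2.2 ^ 2 := by
  obtain ⟨_, h2, h3⟩ := h.pos
  rw [be, Real.cos_arccos h.cb_ang.1.le h.cb_ang.2.le]
  field_simp

theorem Tri.re_ang {a : R3} (h : Tri a) :
    a.1 * Real.cos (al a) + a.2.1 * Real.cos (be a) + a.2.2 = 0 := by
  have h3 := h.pos.2.2
  refine mul_left_cancel₀ (show 2 * a.2.2 ≠ 0 by positivity) ?_
  linear_combination h.cos_al_ang + h.cos_be_ang

theorem Tri.im_ang {a : R3} (h : Tri a) : a.1 * Real.sin (al a) = a.2.1 * Real.sin (be a) := by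
  obtain ⟨h1, h2, h3⟩ := h.pos
  refine (pow_left_inj₀ (mul_pos h1 h.sin_al_ang).le (mul_pos h2 h.sin_be_ang).le two_ne_zero).1 ?_
  refine mul_left_cancel₀ (show 4 * a.2.2 ^ 2 ≠ 0 by positivity) ?_
  rw [mul_pow, mul_pow, Real.sin_sq, Real.sin_sq]
  have e1 := h.cos_al_ang
  have e2 := h.cos_be_ang
  linear_combination
    (-(2 * a.1 * a.2.2 * Real.cos (al a) + (a.2.1 ^ 2 - a.1 ^ 2 - a.2.2 ^ 2))) * e1 +
      (2 * a.2.1 * a.2.2 * Real.cos (be a) + (a.1 ^ 2 - a.2.1 ^ 2 - a.2.2 ^ 2)) * e2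

theorem Tri.sin_add_ang {a : R3} (h : Tri a) : Real.sin (al a + be a) ≠ 0 := by
  obtain ⟨h1, h2, h3⟩ := h.pos
  intro h0
  rw [Real.sin_add] at h0
  have e : a.2.2 * Real.sin (be a) = 0 := by
    linear_combination Real.sin (be a) * h.re_ang - a.1 * h0 + Real.cos (be a) * h.im_ang
  exact (mul_pos h3 h.sin_be_ang).ne' e

theorem Tri.cos_add_ang {a : R3} (h : Tri a) :
    2 * a.1 * a.2.1 * Real.cos (al a + be a) = a.2.2 ^ 2 - a.1 ^ 2 - a.2.1 ^ 2 := by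
  rw [Real.cos_add]
  have e1 := Real.sin_sq_add_cos_sq (al a)
  have e2 := Real.sin_sq_add_cos_sq (be a)
  linear_combination
    (a.1 * Real.cos (al a) + a.2.1 * Real.cos (be a) - a.2.2) * h.re_ang +
      (a.1 * Real.sin (al a) - a.2.1 * Real.sin (be a)) * h.im_ang - a.1 ^ 2 * e1 - a.2.1 ^ 2 * e2

theorem Tri.contDiffAt_al {a : R3} (h : Tri a) : ContDiffAt ℝ 1 al a := by
  obtain ⟨h1, _, h3⟩ := h.pos
  exact (Real.contDiffAt_arccos h.ca_ang.1.ne' h.ca_ang.2.ne).comp a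
    (ContDiffAt.div (by fun_prop) (by fun_prop) (by positivity))

theorem Tri.contDiffAt_be {a : R3} (h : Tri a) : ContDiffAt ℝ 1 be a := by
  obtain ⟨_, h2, h3⟩ := h.pos
  exact (Real.contDiffAt_arccos h.cb_ang.1.ne' h.cb_ang.2.ne).comp a
    (ContDiffAt.div (by fun_prop) (by fun_prop) (by positivity))

theorem Tri.deriv_ang {a : R3} (h : Tri a) :
    fderiv ℝ al a (0, 0, 1) + fderiv ℝ be a (0, 0, 1) ≠ 0 := by
  intro h0
  have h3 := h.pos.2.2
  have hl : HasDerivAt (fun s : ℝ => ((a.1, a.2.1, s) : R3)) (0, 0, 1) a.2.2 :=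
    (hasDerivAt_const _ _).prodMk ((hasDerivAt_const _ _).prodMk (hasDerivAt_id _))
  have d1 : HasDerivAt (fun s : ℝ => al (a.1, a.2.1, s)) (fderiv ℝ al a (0, 0, 1)) a.2.2 :=
    HasFDerivAt.comp_hasDerivAt (l := al) (f := fun s : ℝ => ((a.1, a.2.1, s) : R3)) a.2.2
      (h.contDiffAt_al.differentiableAt one_ne_zero).hasFDerivAt hl
  have d2 : HasDerivAt (fun s : ℝ => be (a.1, a.2.1, s)) (fderiv ℝ be a (0, 0, 1)) a.2.2 :=
    HasFDerivAt.comp_hasDerivAt (l := be) (f := fun s : ℝ => ((a.1, a.2.1, s) : R3)) a.2.2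
      (h.contDiffAt_be.differentiableAt one_ne_zero).hasFDerivAt hl
  have d3 := ((d1.add d2).cos).const_mul (2 * a.1 * a.2.1)
  rw [h0, mul_zero, mul_zero] at d3
  have d4 : HasDerivAt (fun s : ℝ => s ^ 2 - a.1 ^ 2 - a.2.1 ^ 2) (2 * a.2.2) a.2.2 := by
    simpa using ((hasDerivAt_pow 2 a.2.2).sub_const (a.1 ^ 2)).sub_const (a.2.1 ^ 2)
  have ev : ∀ᶠ s in 𝓝 a.2.2, Tri (a.1, a.2.1, s) :=
    hl.continuousAt.eventually (isOpen_Tri.mem_nhds h)
  have d5 := d4.congr_of_eventuallyEq (f₁ := fun s : ℝ =>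
    2 * a.1 * a.2.1 * Real.cos (al (a.1, a.2.1, s) + be (a.1, a.2.1, s)))
    (ev.mono fun s hs => hs.cos_add_ang)
  have := d5.unique d3
  linarith

theorem Tri.closes {a : R3} (h : Tri a) :
    (a.1 : ℂ) * ex (al a) + (a.2.1 : ℂ) * ex (-be a) + (a.2.2 : ℂ) = 0 := by
  apply Complex.ext
  · simpa [ex, Complex.exp_ofReal_mul_I_re, Complex.exp_re] using h.re_ang
  · simpa [ex, Complex.exp_ofReal_mul_I_im, Complex.exp_im, add_neg_eq_zero] using h.im_ang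

theorem Tri.ang {a : R3} (h : Tri a) : Ang a al fun r => -be r := by
  refine ⟨h.contDiffAt_al, h.contDiffAt_be.neg, measurable_al, measurable_be.neg, h.sin_al_ang.ne',
    ?_, ?_, ?_⟩
  · rw [Real.sin_neg]
    exact neg_ne_zero.2 h.sin_be_ang.ne'
  · rw [sub_neg_eq_add]
    exact h.sin_add_ang
  · intro e
    rw [fderiv_fun_neg] at e
    exact h.deriv_ang (by rw [e]; simp)

theorem Tri.ang' {a : R3} (h : Tri a) : Ang a (fun r => -al r) be := by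
  refine ⟨h.contDiffAt_al.neg, h.contDiffAt_be, measurable_al.neg, measurable_be, ?_,
    h.sin_be_ang.ne', ?_, ?_⟩
  · rw [Real.sin_neg]
    exact neg_ne_zero.2 h.sin_al_ang.ne'
  · rw [← neg_add', Real.sin_neg]
    exact neg_ne_zero.2 h.sin_add_ang
  · intro e
    rw [fderiv_fun_neg] at e
    exact h.deriv_ang (by rw [← e]; simp)

end Pool.Agent.Lib.MP_a52643_an.H60
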