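import Pool.Agent.Lib.MP_a52643_an.H60Defs

open MeasureTheory Set Filter Topology Metric
open scoped ENNReal NNReal ContDiff Laplacian FourierTransform Real

noncomputable section

namespace Pool.Agent.Lib.MP_a52643_an.H60

theorem mvt_anti {F : Type} [NormedAddCommGroup F] [NormedSpace ℝ F] {f f' : ℝ → F} {ε C : ℝ}
    (h : ∀ t, |t| < ε → HasDerivAt f (f' t) t) (hb : ∀ t, |t| < ε → ‖f' t‖ ≤ C)
    {a b : ℝ} (ha : |a| < ε) (hb' : |b| < ε) : ‖f a - f b‖ ≤ C * |a - b| := by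
  have hm : ∀ t, t ∈ ball (0 : ℝ) ε ↔ |t| < ε := fun t => by simp [Real.norm_eq_abs]
  have := (convex_ball (0 : ℝ) ε).norm_image_sub_le_of_norm_hasDerivWithin_le (f := f) (f' := f')
    (C := C) (fun t ht => (h t ((hm t).1 ht)).hasDerivWithinAt) (fun t ht => hb t ((hm t).1 ht))
    ((hm b).2 hb') ((hm a).2 ha)
  simpa [Real.norm_eq_abs] using this

theorem d1_anti {Z F : Type} [NormedAddCommGroup Z] [NormedSpace ℝ Z]
    [NormedAddCommGroup F] [NormedSpace ℝ F] {G : Z × R2 → F} (hG : Differentiable ℝ G)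
    (z : Z) (s σ : ℝ) :
    HasDerivAt (fun u => G (z, (u, σ))) (fderiv ℝ G (z, (s, σ)) (0, (1, 0))) s :=
  (hG (z, (s, σ))).hasFDerivAt.comp_hasDerivAt s
    ((hasDerivAt_const s z).prodMk ((hasDerivAt_id s).prodMk (hasDerivAt_const s σ)))

theorem d2_anti {Z F : Type} [NormedAddCommGroup Z] [NormedSpace ℝ Z]
    [NormedAddCommGroup F] [NormedSpace ℝ F] {G : Z × R2 → F} (hG : Differentiable ℝ G)
    (z : Z) (s σ : ℝ) :
    HasDerivAt (fun u => G (z, (s, u))) (fderiv ℝ G (z, (s, σ)) (0, (0, 1))) σ :=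
  (hG (z, (s, σ))).hasFDerivAt.comp_hasDerivAt σ
    ((hasDerivAt_const σ z).prodMk ((hasDerivAt_const σ s).prodMk (hasDerivAt_id σ)))

theorem d3_anti {W F : Type} [NormedAddCommGroup W] [NormedSpace ℝ W]
    [NormedAddCommGroup F] [NormedSpace ℝ F] {G : (W × ℝ) × R2 → F} (hG : Differentiable ℝ G)
    (w : W) (t : ℝ) (p : R2) :
    HasDerivAt (fun u => G ((w, u), p)) (fderiv ℝ G ((w, t), p) ((0, 1), 0)) t :=
  (hG ((w, t), p)).hasFDerivAt.comp_hasDerivAt t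
    (((hasDerivAt_const t w).prodMk (hasDerivAt_id t)).prodMk (hasDerivAt_const t p))

theorem low_anti {D M : R2} (hi : ∀ a b : ℝ, a • D + b • M = 0 → a = 0 ∧ b = 0) :
    ∃ c0 : ℝ, 0 < c0 ∧ ∀ a b : ℝ, c0 * (|a| + |b|) ≤ ‖a • D + b • M‖ := by
  let A : R2 →ₗ[ℝ] R2 :=
    (LinearMap.fst ℝ ℝ ℝ).smulRight D + (LinearMap.snd ℝ ℝ ℝ).smulRight M
  have hA : ∀ x : R2, A x = x.1 • D + x.2 • M := fun x => rfl
  have hk : LinearMap.ker A = ⊥ := by
    rw [LinearMap.ker_eq_bot']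
    intro x hx
    obtain ⟨h1, h2⟩ := hi x.1 x.2 (by rw [← hA]; exact hx)
    exact Prod.ext h1 h2
  obtain ⟨k, hk0, hanti⟩ := A.exists_antilipschitzWith hk
  have hkpos : (0 : ℝ) < k := by exact_mod_cast hk0
  refine ⟨1 / (2 * k), by positivity, fun a b => ?_⟩
  have h1 := hanti.le_mul_dist (a, b) 0
  rw [map_zero, dist_zero_right, dist_zero_right, hA] at h1
  have h2 : |a| ≤ ‖((a, b) : R2)‖ := norm_fst_le ((a, b) : R2)
  have h3 : |b| ≤ ‖((a, b) : R2)‖ := norm_snd_le ((a, b) : R2)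
  rw [div_mul_eq_mul_div, one_mul, div_le_iff₀ (by positivity)]
  simp only at h1
  nlinarith

/-- Uniform expansion from an injective derivative. -/
theorem anti {Z E F : Type} [NormedAddCommGroup Z] [NormedSpace ℝ Z]
    [NormedAddCommGroup E] [NormedSpace ℝ E] [FiniteDimensional ℝ E]
    [NormedAddCommGroup F] [NormedSpace ℝ F] {G : Z × E → F} {z0 : Z} {e0 : E}
    (hG : ContDiffAt ℝ 1 G (z0, e0))
    (hi : ∀ e : E, fderiv ℝ G (z0, e0) (0, e) = 0 → e = 0) :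
    ∃ ε : ℝ, 0 < ε ∧ ∃ K : ℝ, ∀ z ∈ ball z0 ε, ∀ e ∈ ball e0 ε, ∀ e' ∈ ball e0 ε,
      ‖e - e'‖ ≤ K * ‖G (z, e) - G (z, e')‖ := by
  let A : E →ₗ[ℝ] F :=
    ((fderiv ℝ G (z0, e0)).comp (ContinuousLinearMap.inr ℝ Z E) : E →L[ℝ] F)
  have hA : ∀ e : E, A e = fderiv ℝ G (z0, e0) (0, e) := fun e => rfl
  have hk : LinearMap.ker A = ⊥ := by
    rw [LinearMap.ker_eq_bot']
    intro x hx
    exact hi x hx
  obtain ⟨k, hk0, hanti⟩ := A.exists_antilipschitzWith hk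
  have hkpos : (0 : ℝ) < k := by exact_mod_cast hk0
  have hs : HasStrictFDerivAt G (fderiv ℝ G (z0, e0)) (z0, e0) :=
    hG.hasStrictFDerivAt one_ne_zero
  have hlo := hasStrictFDerivAt_iff_isLittleO.1 hs
  have hb := hlo.bound (c := 1 / (2 * k)) (by positivity)
  obtain ⟨ε, hε, hball⟩ := Metric.eventually_nhds_iff_ball.1 hb
  refine ⟨ε, hε, 2 * k, fun z hz e he e' he' => ?_⟩
  have hm : (((z, e), (z, e')) : (Z × E) × (Z × E)) ∈ ball ((z0, e0), (z0, e0)) ε := by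
    rw [← ball_prod_same, ← ball_prod_same]
    exact ⟨⟨hz, he⟩, ⟨hz, he'⟩⟩
  have h1 := hball _ hm
  have hsub : ((z, e) : Z × E) - (z, e') = (0, e - e') := by simp
  simp only [hsub] at h1
  have hn : ‖((0, e - e') : Z × E)‖ = ‖e - e'‖ := by simp [Prod.norm_def]
  rw [hn, ← hA] at h1
  have h2 := hanti.le_mul_dist (e - e') 0
  rw [map_zero, dist_zero_right, dist_zero_right] at h2
  have h3 : ‖A (e - e')‖ ≤ ‖G (z, e) - G (z, e')‖ + ‖G (z, e) - G (z, e') - A (e - e')‖ := by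
    have := norm_sub_le (G (z, e) - G (z, e')) (G (z, e) - G (z, e') - A (e - e'))
    rwa [sub_sub_cancel] at this
  have h4 : (k : ℝ) * (1 / (2 * k) * ‖e - e'‖) = ‖e - e'‖ / 2 := by field_simp
  nlinarith [mul_le_mul_of_nonneg_left h1 hkpos.le, mul_le_mul_of_nonneg_left h3 hkpos.le]

/-- Degenerate expansion: the map does not depend on `s` when `σ = 0` and the last parameter
vanishes, and the mixed derivative is transversal to the `σ` derivative. -/
theorem expand {W : Type} [NormedAddCommGroup W] [NormedSpace ℝ W]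
    {G : (W × ℝ) × R2 → R2} {w0 : W} (hG : ContDiff ℝ 2 G)
    (h0 : ∀ᶠ p in 𝓝 (w0, (0 : ℝ)), G ((p.1, 0), (p.2, 0)) = G ((p.1, 0), (0, 0)))
    (hi : ∀ a b : ℝ, a • deriv (fun σ => G ((w0, 0), (0, σ))) 0 +
      b • deriv (fun s => deriv (fun σ => G ((w0, 0), (s, σ))) 0) 0 = 0 → a = 0 ∧ b = 0) :
    ∃ ε : ℝ, 0 < ε ∧ ∃ c : ℝ, 0 < c ∧ ∃ K : ℝ, ∀ τ : ℝ, 0 < τ → ∀ z ∈ ball ((w0, 0) : W × ℝ) ε,
      |z.2| ≤ c * τ → ∀ p ∈ ball (0 : R2) ε, ∀ p' ∈ ball (0 : R2) ε, τ ≤ |p.2| →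
      τ * |p.1 - p'.1| + |p.2 - p'.2| ≤ K * ‖G (z, p) - G (z, p')‖ := by
  have hd : Differentiable ℝ G := hG.differentiable (by norm_num)
  have hΦ : ContDiff ℝ 1 (fderiv ℝ G) := hG.fderiv_right (by norm_num)
  set x0 : (W × ℝ) × R2 := ((w0, 0), (0, 0)) with hx0
  let H : (W × ℝ) × R2 → R2 := fun x => fderiv ℝ G x (0, (0, 1))
  let P : (W × ℝ) × R2 → R2 := fun x => fderiv ℝ G x (0, (1, 0))
  have hH : ContDiff ℝ 1 H := hΦ.clm_apply contDiff_const
  have hP : ContDiff ℝ 1 P := hΦ.clm_apply contDiff_const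
  have hHd : Differentiable ℝ H := hH.differentiable one_ne_zero
  have hPd : Differentiable ℝ P := hP.differentiable one_ne_zero
  let N : (W × ℝ) × R2 → R2 := fun x => fderiv ℝ H x (0, (1, 0))
  let Q : (W × ℝ) × R2 → R2 := fun x => fderiv ℝ P x ((0, 1), 0)
  have hN : Continuous N := (hH.continuous_fderiv one_ne_zero).clm_apply continuous_const
  have hQ : Continuous Q := (hP.continuous_fderiv one_ne_zero).clm_apply continuous_const
  have e1 : ∀ s : ℝ, deriv (fun σ => G ((w0, 0), (s, σ))) 0 = H ((w0, 0), (s, 0)) :=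
    fun s => (d2_anti hd (w0, 0) s 0).deriv
  have e2 : deriv (fun s => deriv (fun σ => G ((w0, 0), (s, σ))) 0) 0 = N x0 := by
    simp only [e1]
    exact (d1_anti hHd (w0, 0) 0 0).deriv
  rw [e1 0, e2] at hi
  obtain ⟨c0, hc0, hlow⟩ := low_anti hi
  set D : R2 := H x0 with hD
  set M : R2 := N x0 with hM
  set C : ℝ := ‖Q x0‖ + 1 with hC
  have hCpos : 0 < C := by positivity
  have v1 : ∀ᶠ x in 𝓝 x0, ‖H x - D‖ ≤ c0 / 4 := by
    have := (hH.continuous.tendsto x0).eventually (closedBall_mem_nhds D (by positivity : 0 < c0 / 4))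
    simpa [dist_eq_norm] using this
  have v2 : ∀ᶠ x in 𝓝 x0, ‖N x - M‖ ≤ c0 / 4 := by
    have := (hN.tendsto x0).eventually (closedBall_mem_nhds M (by positivity : 0 < c0 / 4))
    simpa [dist_eq_norm] using this
  have v3 : ∀ᶠ x in 𝓝 x0, ‖Q x‖ ≤ C := by
    have := (hQ.norm.tendsto x0).eventually (gt_mem_nhds (lt_add_one ‖Q x0‖))
    exact this.mono fun x hx => le_of_lt hx
  have v4 : ∀ᶠ p in 𝓝 (w0, (0 : ℝ)), P ((p.1, 0), (p.2, 0)) = 0 := by
    refine h0.eventually_nhds.mono fun p hp => ?_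
    have hc : Tendsto (fun u : ℝ => ((p.1, u) : W × ℝ)) (𝓝 p.2) (𝓝 p) :=
      (Continuous.prodMk_right p.1).tendsto p.2
    have he : (fun u => G ((p.1, 0), (u, 0))) =ᶠ[𝓝 p.2] fun _ => G ((p.1, 0), (0, 0)) :=
      hc.eventually hp
    have h1 := (d1_anti hd (p.1, 0) p.2 0)
    exact h1.unique ((hasDerivAt_const p.2 _).congr_of_eventuallyEq he)
  have v5 : ∀ᶠ x in 𝓝 x0, P ((x.1.1, 0), (x.2.1, 0)) = 0 := by
    have hc : Tendsto (fun x : (W × ℝ) × R2 => ((x.1.1, x.2.1) : W × ℝ)) (𝓝 x0) (𝓝 (w0, 0)) :=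
      (by fun_prop : Continuous fun x : (W × ℝ) × R2 => ((x.1.1, x.2.1) : W × ℝ)).tendsto x0
    exact hc.eventually v4
  obtain ⟨ε, hε, hball⟩ := Metric.eventually_nhds_iff_ball.1 (v1.and (v2.and (v3.and v5)))
  refine ⟨ε, hε, c0 / (4 * C), by positivity, 2 / c0, ?_⟩
  rintro τ hτ ⟨w, t⟩ hz hzt ⟨s, σ⟩ hp ⟨s', σ'⟩ hp' hτσ
  simp only at hzt hτσ ⊢
  have hw : w ∈ ball w0 ε ∧ |t| < ε := by
    rw [← ball_prod_same] at hz
    exact ⟨hz.1, by simpa [Real.norm_eq_abs] using hz.2⟩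
  have hmem : ∀ t s σ : ℝ, |t| < ε → |s| < ε → |σ| < ε →
      (((w, t), (s, σ)) : (W × ℝ) × R2) ∈ ball x0 ε := by
    intro t s σ ht hs hσ
    rw [hx0, ← ball_prod_same, ← ball_prod_same, ← ball_prod_same]
    exact ⟨⟨hw.1, by simpa [Real.norm_eq_abs] using ht⟩,
      ⟨by simpa [Real.norm_eq_abs] using hs, by simpa [Real.norm_eq_abs] using hσ⟩⟩
  have hR : ∀ a b : ℝ, ((a, b) : R2) ∈ ball (0 : R2) ε → |a| < ε ∧ |b| < ε := by
    intro a b h
    simpa [Prod.norm_def, Real.norm_eq_abs] using h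
  obtain ⟨hs, hσ⟩ := hR s σ hp
  obtain ⟨hs', hσ'⟩ := hR s' σ' hp'
  have h00 : |(0 : ℝ)| < ε := by simpa using hε
  -- the three pieces
  have t1 : ‖(G ((w, t), (s, σ)) - G ((w, t), (s', σ)) - σ • ((s - s') • M)) -
      (G ((w, t), (s, 0)) - G ((w, t), (s', 0)) - (0 : ℝ) • ((s - s') • M))‖ ≤
      (c0 / 4 * |s - s'|) * |σ - 0| := by
    refine mvt_anti (ε := ε)
      (f := fun u => G ((w, t), (s, u)) - G ((w, t), (s', u)) - u • ((s - s') • M))
      (f' := fun u => H ((w, t), (s, u)) - H ((w, t), (s', u)) - (s - s') • M)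
      (fun u _ => ?_) (fun u hu => ?_) hσ h00
    · have := ((d2_anti hd (w, t) s u).sub (d2_anti hd (w, t) s' u)).sub
        ((hasDerivAt_id u).smul_const ((s - s') • M))
      rw [one_smul] at this
      exact this
    · have := mvt_anti (ε := ε) (C := c0 / 4) (f := fun v => H ((w, t), (v, u)) - v • M)
        (f' := fun v => N ((w, t), (v, u)) - M) (fun v _ => ?_)
        (fun v hv => (hball _ (hmem t v u hw.2 hv hu)).2.1) hs hs'
      · refine le_trans (le_of_eq ?_) this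
        congr 1
        rw [sub_smul]
        abel
      · have := (d1_anti hHd (w, t) v u).sub ((hasDerivAt_id v).smul_const M)
        rw [one_smul] at this
        exact this
  have t2 : ‖G ((w, t), (s, 0)) - G ((w, t), (s', 0))‖ ≤ (C * |t|) * |s - s'| := by
    refine mvt_anti (ε := ε) (f := fun v => G ((w, t), (v, 0)))
      (f' := fun v => P ((w, t), (v, 0))) (fun v _ => d1_anti hd (w, t) v 0) (fun v hv => ?_) hs hs'
    have := mvt_anti (ε := ε) (C := C) (f := fun u => P ((w, u), (v, 0)))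
      (f' := fun u => Q ((w, u), (v, 0))) (fun u _ => d3_anti hPd w u (v, 0))
      (fun u hu => (hball _ (hmem u v 0 hu hv h00)).2.2.1) hw.2 h00
    have h5 : P ((w, 0), (v, 0)) = 0 := (hball _ (hmem 0 v 0 h00 hv h00)).2.2.2
    simpa [h5] using this
  have t3 : ‖(G ((w, t), (s', σ)) - σ • D) - (G ((w, t), (s', σ')) - σ' • D)‖ ≤
      c0 / 4 * |σ - σ'| := by
    refine mvt_anti (ε := ε) (f := fun u => G ((w, t), (s', u)) - u • D)
      (f' := fun u => H ((w, t), (s', u)) - D) (fun u _ => ?_)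
      (fun u hu => (hball _ (hmem t s' u hw.2 hs' hu)).1) hσ hσ'
    have := (d2_anti hd (w, t) s' u).sub ((hasDerivAt_id u).smul_const D)
    rw [one_smul] at this
    exact this
  have t4 := hlow (σ - σ') (σ * (s - s'))
  have hid : (σ - σ') • D + (σ * (s - s')) • M =
      (G ((w, t), (s, σ)) - G ((w, t), (s', σ'))) -
      ((G ((w, t), (s, σ)) - G ((w, t), (s', σ)) - σ • ((s - s') • M)) -
        (G ((w, t), (s, 0)) - G ((w, t), (s', 0)) - (0 : ℝ) • ((s - s') • M))) -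
      (G ((w, t), (s, 0)) - G ((w, t), (s', 0))) -
      ((G ((w, t), (s', σ)) - σ • D) - (G ((w, t), (s', σ')) - σ' • D)) := by
    rw [zero_smul, mul_smul, sub_smul σ σ' D]
    abel
  have t5 : ‖(σ - σ') • D + (σ * (s - s')) • M‖ ≤ ‖G ((w, t), (s, σ)) - G ((w, t), (s', σ'))‖ +
      (c0 / 4 * |s - s'|) * |σ - 0| + (C * |t|) * |s - s'| + c0 / 4 * |σ - σ'| := by
    rw [hid]
    refine (norm_sub_le _ _).trans (add_le_add ((norm_sub_le _ _).trans (add_le_add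
      ((norm_sub_le _ _).trans (add_le_add le_rfl t1)) t2)) t3)
  have t6 : C * |t| ≤ c0 / 4 * |σ| := by
    calc C * |t| ≤ C * (c0 / (4 * C) * τ) := by gcongr
      _ = c0 / 4 * τ := by field_simp
      _ ≤ c0 / 4 * |σ| := by gcongr
  rw [abs_mul] at t4
  rw [sub_zero] at t5
  have t7 : (C * |t|) * |s - s'| ≤ (c0 / 4 * |σ|) * |s - s'| := by gcongr
  have t8 : τ * |s - s'| ≤ |σ| * |s - s'| := by gcongr
  have t9 : c0 / 2 * (τ * |s - s'| + |σ - σ'|) ≤ ‖G ((w, t), (s, σ)) - G ((w, t), (s', σ'))‖ := by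
    have : 0 ≤ c0 * |σ - σ'| := by positivity
    nlinarith [mul_le_mul_of_nonneg_left t8 hc0.le]
  rw [div_mul_eq_mul_div, le_div_iff₀ hc0]
  linarith

end Pool.Agent.Lib.MP_a52643_an.H60
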