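import Pool.Agent.Lib.MP_a52643_an.H60Defs

open MeasureTheory Set Filter Topology Metric
open scoped ENNReal NNReal ContDiff Laplacian FourierTransform Real

noncomputable section

namespace Pool.Agent.Lib.MP_a52643_an.H60

/-- An expanding map does not concentrate Haar measure. -/
theorem lm {E F : Type} [NormedAddCommGroup E] [NormedSpace ℝ E] [FiniteDimensional ℝ E]
    [MeasurableSpace E] [BorelSpace E] [NormedAddCommGroup F] [NormedSpace ℝ F]
    [FiniteDimensional ℝ F] [MeasurableSpace F] [BorelSpace F]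
    (μ : Measure E) [μ.IsAddHaarMeasure] (ν : Measure F) [ν.IsAddHaarMeasure]
    (hd : Module.finrank ℝ E = Module.finrank ℝ F) (K : ℝ) :
    ∃ C : ℝ≥0∞, C ≠ ⊤ ∧ ∀ (s : Set E) (f : E → F), MeasurableSet s → Measurable f →
      (∀ a ∈ s, ∀ b ∈ s, ‖a - b‖ ≤ K * ‖f a - f b‖) →
      ∀ g : F → ℝ≥0∞, Measurable g → ∫⁻ x in s, g (f x) ∂μ ≤ C * ∫⁻ y, g y ∂ν := by
  have h1 := Measure.isAddLeftInvariant_eq_smul μ (μH[Module.finrank ℝ E] : Measure E)
  have h2 := Measure.isAddLeftInvariant_eq_smul (μH[Module.finrank ℝ F] : Measure F) ν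
  set c1 := Measure.addHaarScalarFactor μ (μH[Module.finrank ℝ E] : Measure E)
  set c2 := Measure.addHaarScalarFactor (μH[Module.finrank ℝ F] : Measure F) ν
  have hd0 : (0 : ℝ) ≤ (Module.finrank ℝ E : ℝ) := Nat.cast_nonneg _
  refine ⟨c1 * ((K.toNNReal : ℝ≥0∞) ^ (Module.finrank ℝ E : ℝ) * c2), ?_,
    fun s f hs hf hK g hg => ?_⟩
  · exact ENNReal.mul_ne_top ENNReal.coe_ne_top (ENNReal.mul_ne_top
      (ENNReal.rpow_ne_top_of_nonneg hd0 ENNReal.coe_ne_top) ENNReal.coe_ne_top)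
  have hinj : InjOn f s := fun a ha b hb e => by
    have := hK a ha b hb
    rw [e, sub_self, norm_zero, mul_zero] at this
    exact sub_eq_zero.1 (norm_le_zero_iff.1 this)
  have hl := hinj.leftInvOn_invFunOn
  have hlip : LipschitzOnWith K.toNNReal (Function.invFunOn f s) (f '' s) := by
    refine LipschitzOnWith.of_dist_le_mul ?_
    rintro _ ⟨a, ha, rfl⟩ _ ⟨b, hb, rfl⟩
    rw [hl ha, hl hb, dist_eq_norm, dist_eq_norm]
    exact (hK a ha b hb).trans
      (mul_le_mul_of_nonneg_right (Real.le_coe_toNNReal K) (norm_nonneg _))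
  have key : Measure.map f (μ.restrict s) ≤
      ((c1 : ℝ≥0∞) * ((K.toNNReal : ℝ≥0∞) ^ (Module.finrank ℝ E : ℝ) * c2)) • ν := by
    refine Measure.le_iff.2 fun T hT => ?_
    rw [Measure.map_apply hf hT, Measure.restrict_apply (hf hT)]
    have e1 : f ⁻¹' T ∩ s ⊆ Function.invFunOn f s '' (f '' s ∩ T) :=
      fun a ha => ⟨f a, ⟨⟨a, ha.2, rfl⟩, ha.1⟩, hl ha.2⟩
    have e2 := (hlip.mono (inter_subset_left (t := T))).hausdorffMeasure_image_le hd0
    have e3 : (μH[Module.finrank ℝ E] : Measure F) (f '' s ∩ T) ≤ c2 * ν T := by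
      rw [hd, h2]
      exact measure_mono inter_subset_right
    calc μ (f ⁻¹' T ∩ s) = c1 * (μH[Module.finrank ℝ E] : Measure E) (f ⁻¹' T ∩ s) := by
          conv_lhs => rw [h1]
          rfl
      _ ≤ c1 * ((K.toNNReal : ℝ≥0∞) ^ (Module.finrank ℝ E : ℝ) * (c2 * ν T)) := by
          gcongr
          refine ((measure_mono e1).trans e2).trans ?_
          gcongr
      _ = _ := by simp only [Measure.smul_apply, smul_eq_mul, mul_assoc]
  rw [← lintegral_map hg hf, ← smul_eq_mul, ← lintegral_smul_measure]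
  exact lintegral_mono' key le_rfl

/-- Anisotropic version in the plane. -/
theorem lm2 (K : ℝ) :
    ∃ C : ℝ≥0∞, C ≠ ⊤ ∧ ∀ τ : ℝ, 0 < τ → ∀ (s : Set R2) (f : R2 → R2), MeasurableSet s →
      Measurable f →
      (∀ a ∈ s, ∀ b ∈ s, τ * |a.1 - b.1| + |a.2 - b.2| ≤ K * ‖f a - f b‖) →
      ∀ g : R2 → ℝ≥0∞, Measurable g →
        ∫⁻ x in s, g (f x) ≤ C / ENNReal.ofReal τ * ∫⁻ y, g y := by
  obtain ⟨C, hC, h⟩ := lm (volume : Measure R2) (volume : Measure R2) rfl K
  refine ⟨C, hC, fun τ hτ s f hs hf hK g hg => ?_⟩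
  set B : R2 → R2 := Prod.map (fun x : ℝ => τ⁻¹ * x) id with hB
  have mB : Measurable B := (measurable_const_mul _).prodMap measurable_id
  have e1 : Measure.map B volume = ENNReal.ofReal τ • (volume : Measure R2) := by
    rw [Measure.volume_eq_prod, hB,
      ← Measure.map_prod_map _ _ (measurable_const_mul _) measurable_id,
      Real.map_volume_mul_left (inv_ne_zero hτ.ne'), Measure.map_id, Measure.prod_smul_left,
      inv_inv, abs_of_pos hτ]
  have e2 := h (B ⁻¹' s) (fun x => f (B x)) (mB hs) (hf.comp mB) (fun a ha b hb => by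
    refine le_trans ?_ (hK _ ha _ hb)
    have e : τ * |(B a).1 - (B b).1| = |a.1 - b.1| := by
      show τ * |τ⁻¹ * a.1 - τ⁻¹ * b.1| = _
      rw [← mul_sub, abs_mul, abs_of_pos (inv_pos.2 hτ), mul_inv_cancel_left₀ hτ.ne']
    rw [e, Prod.norm_def]
    show max |a.1 - b.1| |a.2 - b.2| ≤ |a.1 - b.1| + |a.2 - b.2|
    exact max_le (le_add_of_nonneg_right (abs_nonneg _)) (le_add_of_nonneg_left (abs_nonneg _)))
    g hg
  rw [← setLIntegral_map (f := fun x => g (f x)) hs (hg.comp hf) mB, e1, Measure.restrict_smul,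
    lintegral_smul_measure, smul_eq_mul] at e2
  have h0 : ENNReal.ofReal τ ≠ 0 := (ENNReal.ofReal_pos.2 hτ).ne'
  rw [ENNReal.div_eq_inv_mul, mul_assoc]
  calc _ = (ENNReal.ofReal τ)⁻¹ * (ENNReal.ofReal τ * ∫⁻ x in s, g (f x)) := by
        rw [← mul_assoc, ENNReal.inv_mul_cancel h0 ENNReal.ofReal_ne_top, one_mul]
    _ ≤ _ := by gcongr

/-- A `C¹` map is Lipschitz on bounded sets. -/
theorem lip_ball {E F : Type} [NormedAddCommGroup E] [NormedSpace ℝ E] [FiniteDimensional ℝ E]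
    [NormedAddCommGroup F] [NormedSpace ℝ F] {f : E → F} (hf : ContDiff ℝ 1 f) (x : E) (R : ℝ) :
    ∃ K : ℝ, 0 < K ∧ ∀ a ∈ ball x R, ∀ b ∈ ball x R, ‖f a - f b‖ ≤ K * ‖a - b‖ := by
  obtain ⟨C, hC⟩ := (isCompact_closedBall x R).exists_bound_of_continuousOn
    (hf.continuous_fderiv one_ne_zero).continuousOn
  refine ⟨max C 1, lt_max_of_lt_right one_pos, fun a ha b hb => ?_⟩
  exact (convex_ball x R).norm_image_sub_le_of_norm_fderiv_le
    (fun y _ => hf.differentiable one_ne_zero y)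
    (fun y hy => (hC y (ball_subset_closedBall hy)).trans (le_max_left _ _)) hb ha

/-- A germ of finite smoothness is the germ of a globally smooth map. -/
theorem exists_global {E F : Type} [NormedAddCommGroup E] [NormedSpace ℝ E]
    [FiniteDimensional ℝ E] [NormedAddCommGroup F] [NormedSpace ℝ F] {n : ℕ} {f : E → F} {x : E}
    (hf : ContDiffAt ℝ n f x) : ∃ g : E → F, ContDiff ℝ n g ∧ g =ᶠ[𝓝 x] f := by
  obtain ⟨r, hr, h⟩ := Metric.eventually_nhds_iff_ball.1 (hf.eventually (by simp))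
  let b : ContDiffBump x := ⟨r / 4, r / 2, by positivity, by linarith⟩
  refine ⟨fun y => b y • f y, contDiff_iff_contDiffAt.2 fun y => ?_, ?_⟩
  · by_cases hy : y ∈ tsupport b
    · rw [b.tsupport_eq] at hy
      exact b.contDiffAt.smul (h y (closedBall_subset_ball (show r / 2 < r by linarith) hy))
    · refine (contDiffAt_const (c := (0 : F))).congr_of_eventuallyEq ?_
      filter_upwards [notMem_tsupport_iff_eventuallyEq.1 hy] with z hz
      rw [hz, Pi.zero_apply, zero_smul]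
  · filter_upwards [b.eventuallyEq_one] with z hz
    rw [hz, Pi.one_apply, one_smul]

end Pool.Agent.Lib.MP_a52643_an.H60
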