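import Pool.Agent.Lib.MP_a52643_an.H60Flow
import Pool.Agent.Lib.MP_a52643_an.H60LM

open MeasureTheory Set Filter Topology Metric
open scoped ENNReal NNReal ContDiff Laplacian FourierTransform Real

noncomputable section

namespace Pool.Agent.Lib.MP_a52643_an.H60

theorem contDiff_ex_box : ContDiff ℝ ∞ ex := by
  unfold ex
  exact Complex.contDiff_exp.comp (Complex.ofRealCLM.contDiff.mul contDiff_const)

theorem ex_ne_box (t : ℝ) : ex t ≠ 0 := Complex.exp_ne_zero _

theorem contDiff_Yf {u : ℂ → ℝ} (hu : ContDiff ℝ ∞ u) : ContDiff ℝ ∞ (Yf u) := by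
  have h1 : ContDiff ℝ ∞ (fun v : V => ex v.2) := contDiff_ex_box.comp contDiff_snd
  have h2 : ContDiff ℝ ∞ (fun v : V => fderiv ℝ u v.1) :=
    (hu.fderiv_right (m := ∞) (by simp)).comp contDiff_fst
  exact h1.prodMk (h2.clm_apply (contDiff_const.mul h1))

theorem line_box {E F : Type} [NormedAddCommGroup E] [NormedSpace ℝ E] [NormedAddCommGroup F]
    [NormedSpace ℝ F] {X : E → F} (hX : DifferentiableAt ℝ X 0) (w : E) :
    HasDerivAt (fun t : ℝ => X (t • w)) (fderiv ℝ X 0 w) 0 := by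
  have h1 : HasDerivAt (fun t : ℝ => t • w) w 0 := by
    simpa using (hasDerivAt_id (0 : ℝ)).smul_const w
  have h2 : HasFDerivAt X (fderiv ℝ X 0) ((fun t : ℝ => t • w) 0) := by
    simpa using hX.hasFDerivAt
  exact h2.comp_hasDerivAt (0 : ℝ) h1

theorem chart_box {u : ℂ → ℝ} (hu : ContDiff ℝ ∞ u) (v0 : V) :
    ∃ X : P3 → V, ContDiff ℝ 2 X ∧ X 0 = v0 ∧ Function.Injective (fderiv ℝ X 0) ∧
      ∀ᶠ p in 𝓝 (0 : P3), HasDerivAt (fun s => X (p.1, s)) (Yf u (X p)) p.2 := by
  obtain ⟨Φ, hΦ, h0, hfl⟩ :=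
    exists_flow (Y := Yf u) ((contDiff_Yf hu).of_le (WithTop.coe_le_coe.mpr (le_top : (2 : ℕ∞) ≤ ⊤))) v0
  let ι : R2 → V := fun l => (v0.1 + l.1 • (Complex.I * ex v0.2), v0.2 + l.2)
  have hι : ContDiff ℝ 2 ι :=
    (contDiff_const.add (contDiff_fst.smul contDiff_const)).prodMk
      (contDiff_const.add contDiff_snd)
  have hι0 : ι 0 = v0 := by simp [ι]
  let j : P3 → V × ℝ := fun p => (ι p.1, p.2)
  have hj : ContDiff ℝ 2 j := (hι.comp contDiff_fst).prodMk contDiff_snd
  have hj0 : j 0 = (v0, 0) := by simp [j, hι0]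
  have hX0 : ContDiffAt ℝ 2 (fun p => Φ (j p)) 0 := by
    have h : ContDiffAt ℝ 2 Φ (j 0) := by rw [hj0]; exact hΦ
    exact h.comp 0 hj.contDiffAt
  obtain ⟨X, hX, hXe⟩ := exists_global (n := 2) hX0
  have hX' : ContDiff ℝ 2 X := hX
  have hz : X 0 = v0 := by
    have h : X 0 = Φ (j 0) := hXe.self_of_nhds
    rw [h, hj0]
    exact h0.self_of_nhds
  have hjt : Tendsto j (𝓝 0) (𝓝 (v0, 0)) := by
    rw [← hj0]
    exact hj.continuous.continuousAt
  have hflow : ∀ᶠ p in 𝓝 (0 : P3), HasDerivAt (fun s => X (p.1, s)) (Yf u (X p)) p.2 := by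
    filter_upwards [hXe.eventually_nhds, hjt.eventually hfl] with p hp hq
    have hp' : X =ᶠ[𝓝 p] fun p => Φ (j p) := hp
    have ht : Tendsto (fun s : ℝ => (p.1, s)) (𝓝 p.2) (𝓝 p) :=
      (continuous_const.prodMk continuous_id).continuousAt (x := p.2)
    have he : (fun s => X (p.1, s)) =ᶠ[𝓝 p.2] fun s => Φ ((j p).1, s) := ht.eventually hp'
    rw [hp'.self_of_nhds]
    exact hq.congr_of_eventuallyEq he
  refine ⟨X, hX', hz, ?_, hflow⟩
  have hd : DifferentiableAt ℝ X 0 := hX'.differentiable (by simp) 0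
  have hA : ∀ l : R2, fderiv ℝ X 0 (l, 0) = (l.1 • (Complex.I * ex v0.2), l.2) := by
    intro l
    have h1 := line_box hd ((l, 0) : P3)
    have ht : Tendsto (fun t : ℝ => t • ((l, 0) : P3)) (𝓝 0) (𝓝 0) := by
      have h : Continuous (fun t : ℝ => t • ((l, 0) : P3)) := continuous_id.smul continuous_const
      simpa using h.tendsto 0
    have ht2 : Tendsto (fun t : ℝ => ι (t • l)) (𝓝 0) (𝓝 v0) := by
      have h : Continuous (fun t : ℝ => ι (t • l)) :=
        hι.continuous.comp (continuous_id.smul continuous_const)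
      simpa [hι0] using h.tendsto 0
    have he : (fun t : ℝ => X (t • ((l, 0) : P3))) =ᶠ[𝓝 0] fun t => ι (t • l) := by
      filter_upwards [ht.eventually hXe, ht2.eventually h0] with t h2 h3
      rw [h2, ← h3]
      simp [j]
    have h2 : HasDerivAt (fun t : ℝ => ι (t • l)) (l.1 • (Complex.I * ex v0.2), l.2) 0 := by
      have a1 : HasDerivAt (fun t : ℝ => t * l.1) l.1 0 := by
        simpa using (hasDerivAt_id (0 : ℝ)).mul_const l.1
      have a2 : HasDerivAt (fun t : ℝ => t * l.2) l.2 0 := by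
        simpa using (hasDerivAt_id (0 : ℝ)).mul_const l.2
      exact ((a1.smul_const (Complex.I * ex v0.2)).const_add v0.1).prodMk (a2.const_add v0.2)
    exact h1.unique (h2.congr_of_eventuallyEq he)
  have hB : fderiv ℝ X 0 (0, 1) = Yf u v0 := by
    have h1 := line_box hd ((0, 1) : P3)
    have h2 := hflow.self_of_nhds
    rw [hz] at h2
    have he : (fun t : ℝ => X (t • ((0, 1) : P3))) = fun s => X ((0 : P3).1, s) := by
      funext t
      simp
    rw [he] at h1
    exact h1.unique h2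
  rw [injective_iff_map_eq_zero]
  rintro ⟨l, s⟩ h
  have hs : ((l, s) : P3) = (l, 0) + s • ((0, 1) : P3) := by simp
  rw [hs, map_add, map_smul, hA, hB] at h
  have h1 := congrArg Prod.fst h
  have h2 := congrArg Prod.snd h
  simp only [Yf, Prod.fst_add, Prod.smul_fst, Prod.snd_add, Prod.smul_snd, Prod.fst_zero,
    Prod.snd_zero, Complex.real_smul, smul_eq_mul] at h1 h2
  have h3 : ((l.1 : ℂ) * Complex.I + s) * ex v0.2 = 0 := by linear_combination h1
  have h4 := (mul_eq_zero.mp h3).resolve_right (ex_ne_box _)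
  have h5 : s = 0 := by simpa using congrArg Complex.re h4
  have h6 : l.1 = 0 := by simpa using congrArg Complex.im h4
  have h7 : l.2 = 0 := by
    rw [h5] at h2
    simpa using h2
  exact Prod.ext (Prod.ext h6 h7) h5

theorem exists_box {u : ℂ → ℝ} (hu : ContDiff ℝ ∞ u) (v0 : V) :
    ∃ (L : ℝ) (X : P3 → V) (c : V → P3), Box u v0 L X c := by
  obtain ⟨X, hX, hz, hinj, hflow⟩ := chart_box hu v0
  have hdim : Module.finrank ℝ P3 = Module.finrank ℝ V := by
    simp [P3, V, R2, Module.finrank_prod]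
  let D : P3 ≃L[ℝ] V :=
    (LinearMap.linearEquivOfInjective (fderiv ℝ X 0 : P3 →ₗ[ℝ] V) hinj hdim).toContinuousLinearEquiv
  have hD : HasFDerivAt X (D : P3 →L[ℝ] V) 0 := by
    have h : (D : P3 →L[ℝ] V) = fderiv ℝ X 0 := by
      ext1 <;> rfl
    rw [h]
    exact (hX.differentiable (by simp) 0).hasFDerivAt
  have hn : (2 : WithTop ℕ∞) ≠ 0 := by simp
  have hXa : ContDiffAt ℝ 2 X 0 := hX.contDiffAt
  have hc0 := hXa.to_localInverse hD hn
  have hl := (hXa.hasStrictFDerivAt' hD hn).eventually_left_inverse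
  have hr := (hXa.hasStrictFDerivAt' hD hn).eventually_right_inverse
  obtain ⟨c, hc, hce⟩ := exists_global (n := 2) hc0
  have hc' : ContDiff ℝ 2 c := hc
  have hl' : ∀ᶠ p in 𝓝 (0 : P3), c (X p) = p := by
    filter_upwards [hl, (hX.continuous.tendsto 0).eventually hce] with p h1 h2
    exact h2.trans h1
  have hr' : ∀ᶠ v in 𝓝 v0, X (c v) = v := by
    rw [← hz]
    filter_upwards [hr, hce] with v h1 h2
    rw [h2]
    exact h1
  obtain ⟨L1, hL1, h1⟩ := Metric.eventually_nhds_iff_ball.mp (hl'.and hflow)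
  obtain ⟨L2, hL2, h2⟩ := Metric.eventually_nhds_iff_ball.mp hr'
  refine ⟨min L1 L2, X, c, lt_min hL1 hL2, hX, hc', hz, ?_, ?_, ?_⟩
  · exact fun p hp => (h1 p (ball_subset_ball (min_le_left _ _) hp)).1
  · exact fun v hv => h2 v (ball_subset_ball (min_le_right _ _) hv)
  · exact fun p hp => (h1 p (ball_subset_ball (min_le_left _ _) hp)).2

variable {u : ℂ → ℝ} {v0 : V} {L : ℝ} {X : P3 → V} {c : V → P3}

theorem Box.c_zero (b : Box u v0 L X c) : c v0 = 0 := by
  have h := b.left 0 (mem_ball_self b.pos)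
  rwa [b.zero] at h

/-- The inverse chart straightens the vector field. -/
theorem Box.fderiv_Yf (b : Box u v0 L X c) :
    ∀ᶠ v in 𝓝 v0, fderiv ℝ c v (Yf u v) = ((0 : R2), (1 : ℝ)) := by
  have ht : Tendsto c (𝓝 v0) (𝓝 0) := by
    rw [← b.c_zero]
    exact b.cc.continuous.tendsto v0
  filter_upwards [ht.eventually (ball_mem_nhds (0 : P3) b.pos), ball_mem_nhds v0 b.pos]
    with v hp hv
  have hXp : X (c v) = v := b.right v hv
  have h1 := b.flow (c v) hp
  rw [hXp] at h1
  have h2 : HasFDerivAt c (fderiv ℝ c v) ((fun s => X ((c v).1, s)) (c v).2) := by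
    have h : (fun s => X ((c v).1, s)) (c v).2 = v := hXp
    rw [h]
    exact (b.cc.differentiable (by simp) v).hasFDerivAt
  have h3 := h2.comp_hasDerivAt (c v).2 h1
  have h4 : HasDerivAt (fun s : ℝ => (((c v).1, s) : P3)) ((0 : R2), (1 : ℝ)) (c v).2 :=
    (hasDerivAt_const _ _).prodMk (hasDerivAt_id _)
  have h5 : Tendsto (fun s : ℝ => (((c v).1, s) : P3)) (𝓝 (c v).2) (𝓝 (c v)) :=
    (continuous_const.prodMk continuous_id).continuousAt (x := (c v).2)
  have he : (c ∘ fun s => X ((c v).1, s)) =ᶠ[𝓝 (c v).2] fun s : ℝ => (((c v).1, s) : P3) := by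
    filter_upwards [h5.eventually (isOpen_ball.mem_nhds hp)] with s hs
    exact b.left _ hs
  exact h3.unique (h4.congr_of_eventuallyEq he)

theorem Box.inj_c (b : Box u v0 L X c) : Function.Injective (fderiv ℝ c v0) := by
  have h1 : HasFDerivAt c (fderiv ℝ c v0) v0 := (b.cc.differentiable (by simp) v0).hasFDerivAt
  have h2 : HasFDerivAt X (fderiv ℝ X 0) (c v0) := by
    rw [b.c_zero]
    exact (b.cX.differentiable (by simp) 0).hasFDerivAt
  have h3 := h2.comp v0 h1
  have he : (X ∘ c) =ᶠ[𝓝 v0] id := by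
    filter_upwards [ball_mem_nhds v0 b.pos] with v hv
    exact b.right v hv
  have h4 := h3.unique ((hasFDerivAt_id v0).congr_of_eventuallyEq he)
  intro a a' h
  have h5 := congrArg (fun T : V →L[ℝ] V => T a) h4
  have h6 := congrArg (fun T : V →L[ℝ] V => T a') h4
  simp only [ContinuousLinearMap.comp_apply, ContinuousLinearMap.id_apply] at h5 h6
  rw [← h5, ← h6, h]

theorem Box.inj_X (b : Box u v0 L X c) : Function.Injective (fderiv ℝ X 0) := by
  have h1 : HasFDerivAt X (fderiv ℝ X 0) 0 := (b.cX.differentiable (by simp) 0).hasFDerivAt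
  have h2 : HasFDerivAt c (fderiv ℝ c v0) (X 0) := by
    rw [b.zero]
    exact (b.cc.differentiable (by simp) v0).hasFDerivAt
  have h3 := h2.comp 0 h1
  have he : (c ∘ X) =ᶠ[𝓝 0] id := by
    filter_upwards [ball_mem_nhds (0 : P3) b.pos] with p hp
    exact b.left p hp
  have h4 := h3.unique ((hasFDerivAt_id (0 : P3)).congr_of_eventuallyEq he)
  intro a a' h
  have h5 := congrArg (fun T : P3 →L[ℝ] P3 => T a) h4
  have h6 := congrArg (fun T : P3 →L[ℝ] P3 => T a') h4
  simp only [ContinuousLinearMap.comp_apply, ContinuousLinearMap.id_apply] at h5 h6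
  rw [← h5, ← h6, h]

/-- The kernel of the derivative of the ray coordinate is spanned by the vector field. -/
theorem Box.ker (b : Box u v0 L X c) {w : V} (h : (fderiv ℝ c v0 w).1 = 0) :
    ∃ t : ℝ, w = t • Yf u v0 := by
  refine ⟨(fderiv ℝ c v0 w).2, b.inj_c ?_⟩
  rw [map_smul, b.fderiv_Yf.self_of_nhds]
  refine Prod.ext ?_ ?_
  · rw [h]
    simp
  · simp

end Pool.Agent.Lib.MP_a52643_an.H60
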