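import Pool.Agent.Lib.MP_a52643_an.H60Box

open MeasureTheory Set Filter Topology Metric
open scoped ENNReal NNReal ContDiff Laplacian FourierTransform Real

noncomputable section

namespace Pool.Agent.Lib.MP_a52643_an.H60

/-- The two step map: follow a ray of the first family, turn, follow a ray of the third family,
turn back. -/
def gg (X3 : P3 → V) (c3 : V → P3) (X1 : P3 → V) (c1 : V → P3)
    (q : ((R2 × ℝ) × ℝ) × R2) : R2 :=
  (c1 (rot (q.1.1.2 + q.1.2)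
    (X3 (c3 (rot (-q.1.1.2) (X1 (q.1.1.1, q.2.1))) + (0, q.2.2))))).1

variable {u : ℂ → ℝ} {x0 : ℂ} {θ0 α0 L3 L1 : ℝ} {X3 X1 : P3 → V} {c3 c1 : V → P3}

theorem contDiff_rot : ContDiff ℝ ∞ fun p : ℝ × V => rot p.1 p.2 := by
  unfold rot
  fun_prop

theorem contDiff_gg (b3 : Box u (x0, θ0) L3 X3 c3) (b1 : Box u (x0, θ0 + α0) L1 X1 c1) :
    ContDiff ℝ 2 (gg X3 c3 X1 c1) := by
  have h1 := b3.cX
  have h2 := b3.cc
  have h3 := b1.cX
  have h4 := b1.cc
  unfold gg rot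
  fun_prop

theorem rot_rot_br (α : ℝ) (v : V) : rot (α + 0) (rot (-α) v) = v := by
  simp [rot]

theorem rot_eq_br (α : ℝ) (v : V) : rot α v = v + (0, α) := by
  simp [rot, Prod.ext_iff]

theorem gg_fst_br (b3 : Box u (x0, θ0) L3 X3 c3) (b1 : Box u (x0, θ0 + α0) L1 X1 c1) :
    ∀ᶠ p in 𝓝 ((((0 : R2), α0) : R2 × ℝ), (0 : ℝ)),
      gg X3 c3 X1 c1 ((p.1, 0), (p.2, 0)) = p.1.1 := by
  have hX := b1.cX.continuous
  have h1 : Continuous fun p : (R2 × ℝ) × ℝ => rot (-p.1.2) (X1 (p.1.1, p.2)) := by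
    unfold rot
    fun_prop
  have h2 : Continuous fun p : (R2 × ℝ) × ℝ => ((p.1.1, p.2) : P3) := by fun_prop
  have h3 : ∀ᶠ p in 𝓝 ((((0 : R2), α0) : R2 × ℝ), (0 : ℝ)),
      rot (-p.1.2) (X1 (p.1.1, p.2)) ∈ ball ((x0, θ0) : V) L3 := by
    refine h1.continuousAt.eventually (isOpen_ball.mem_nhds ?_)
    change rot (-α0) (X1 0) ∈ _
    rw [b1.zero]
    simp [rot, b3.pos]
  have h4 : ∀ᶠ p in 𝓝 ((((0 : R2), α0) : R2 × ℝ), (0 : ℝ)),
      ((p.1.1, p.2) : P3) ∈ ball (0 : P3) L1 :=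
    h2.continuousAt.eventually (isOpen_ball.mem_nhds (mem_ball_self b1.pos))
  filter_upwards [h3, h4] with p k1 k2
  simp only [gg]
  rw [Prod.mk_zero_zero, add_zero (c3 _), b3.right _ k1, rot_rot_br, b1.left _ k2]

theorem gg_zero (b3 : Box u (x0, θ0) L3 X3 c3) (b1 : Box u (x0, θ0 + α0) L1 X1 c1) :
    ∀ᶠ p in 𝓝 ((((0 : R2), α0) : R2 × ℝ), (0 : ℝ)),
      gg X3 c3 X1 c1 ((p.1, 0), (p.2, 0)) = gg X3 c3 X1 c1 ((p.1, 0), (0, 0)) := by
  have h1 := gg_fst_br b3 b1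
  have h2 : Continuous fun p : (R2 × ℝ) × ℝ => ((p.1, 0) : (R2 × ℝ) × ℝ) := by fun_prop
  have h3 := (h2.tendsto ((((0 : R2), α0) : R2 × ℝ), (0 : ℝ))).eventually h1
  filter_upwards [h1, h3] with p k1 k2
  exact k1.trans k2.symm

theorem hasDerivAt_ex_br (t : ℝ) : HasDerivAt ex (Complex.I * ex t) t := by
  have h1 : HasDerivAt (fun s : ℝ => (s : ℂ) * Complex.I) Complex.I t := by
    simpa using (Complex.ofRealCLM.hasDerivAt (x := t)).mul_const Complex.I
  have h2 := h1.cexp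
  rw [mul_comm] at h2
  exact h2

theorem fderiv_Yf_br (hu : ContDiff ℝ ∞ u) (v w : V) :
    fderiv ℝ (Yf u) v w = (w.2 • (Complex.I * ex v.2),
      fderiv ℝ (fderiv ℝ u) v.1 w.1 (Complex.I * ex v.2) - w.2 * fderiv ℝ u v.1 (ex v.2)) := by
  have h1 := (hasDerivAt_ex_br v.2).hasFDerivAt.comp v
    (hasFDerivAt_snd (𝕜 := ℝ) (E := ℂ) (F := ℝ) (p := v))
  have h0 : Differentiable ℝ (fderiv ℝ u) :=
    (hu.fderiv_right (m := 1) (by norm_cast)).differentiable one_ne_zero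
  have h2 := (h0 v.1).hasFDerivAt.comp v (hasFDerivAt_fst (𝕜 := ℝ) (E := ℂ) (F := ℝ) (p := v))
  have h3 := h1.prodMk (h2.clm_apply (h1.const_mul Complex.I))
  have h4 : fderiv ℝ (Yf u) v = _ := h3.fderiv
  rw [h4]
  have e : Complex.I * (w.2 * (Complex.I * ex v.2)) = (-w.2) • ex v.2 := by
    rw [Complex.real_smul]
    push_cast
    linear_combination (w.2 * ex v.2) * Complex.I_mul_I
  simp only [ContinuousLinearMap.prod_apply, ContinuousLinearMap.comp_apply,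
    ContinuousLinearMap.toSpanSingleton_apply, ContinuousLinearMap.coe_snd',
    add_apply, ContinuousLinearMap.flip_apply, ContinuousLinearMap.coe_fst',
    Function.comp_apply, smul_apply, smul_eq_mul, Complex.real_smul, e]
  rw [← Complex.real_smul (x := -w.2), map_smul, smul_eq_mul]
  congr 1
  ring

theorem ex_eq_br (t : ℝ) : ex t = Real.cos t • (1 : ℂ) + Real.sin t • Complex.I := by
  simp [ex, Complex.exp_mul_I]

theorem ex_add_br (s t : ℝ) :
    ex (s + t) = Real.cos t • ex s + Real.sin t • (Complex.I * ex s) := by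
  have h1 : ex (s + t) = ex s * ex t := by
    simp [ex, add_mul, Complex.exp_add]
  rw [h1, ex_eq_br t]
  simp only [Complex.real_smul]
  ring

theorem I_ex_add_br (s t : ℝ) :
    Complex.I * ex (s + t) = Real.cos t • (Complex.I * ex s) - Real.sin t • ex s := by
  rw [ex_add_br]
  simp only [Complex.real_smul]
  linear_combination (Real.sin t * ex s) * Complex.I_mul_I

theorem trace_br (Q : ℂ →L[ℝ] ℂ →L[ℝ] ℝ) (t : ℝ) :
    Q (ex t) (ex t) + Q (Complex.I * ex t) (Complex.I * ex t) =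
      Q 1 1 + Q Complex.I Complex.I := by
  have h1 : Complex.I * ex t = Real.cos t • Complex.I - Real.sin t • (1 : ℂ) := by
    rw [ex_eq_br]
    simp only [Complex.real_smul]
    linear_combination (Real.sin t : ℂ) * Complex.I_mul_I
  rw [h1, ex_eq_br]
  simp only [map_add, map_sub, map_smul, add_apply,
    sub_apply, smul_apply, smul_eq_mul]
  linear_combination (Q 1 1 + Q Complex.I Complex.I) * Real.sin_sq_add_cos_sq t

/-- Three vectors: the field, the turned field and their bracket are independent when the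
curvature does not vanish. -/
theorem bracket_indep (hu : ContDiff ℝ ∞ u) (hK : Δ u x0 ≠ 0) (hα : Real.sin α0 ≠ 0)
    (a b t : ℝ)
    (h : a • Yf u (x0, θ0) + b • (fderiv ℝ (Yf u) (x0, θ0) (Yf u (x0, θ0 + α0)) -
      fderiv ℝ (Yf u) (x0, θ0 + α0) (Yf u (x0, θ0))) = t • Yf u (x0, θ0 + α0)) :
    a = 0 ∧ b = 0 := by
  have hL : Δ u x0 = fderiv ℝ (fderiv ℝ u) x0 1 1 +
      fderiv ℝ (fderiv ℝ u) x0 Complex.I Complex.I := by
    rw [InnerProductSpace.laplacian_eq_iteratedFDeriv_complexPlane]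
    simp [iteratedFDeriv_two_apply]
  rw [fderiv_Yf_br hu, fderiv_Yf_br hu] at h
  simp only [Yf, Prod.smul_mk, Prod.mk_sub_mk, Prod.mk_add_mk, Prod.mk.injEq, smul_eq_mul] at h
  obtain ⟨h1, h2⟩ := h
  have hII : ∀ z : ℂ, Complex.I * (Complex.I * z) = -z := fun z => by
    linear_combination z * Complex.I_mul_I
  have h3 := congrArg (fun z => fderiv ℝ u x0 (Complex.I * z)) h1
  simp only [mul_add, mul_sub, mul_smul_comm, smul_sub, hII, map_add, map_sub, map_smul, map_neg,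
    smul_eq_mul] at h3
  have h4 : fderiv ℝ (fderiv ℝ u) x0 (ex (θ0 + α0)) (Complex.I * ex θ0) -
      fderiv ℝ (fderiv ℝ u) x0 (ex θ0) (Complex.I * ex (θ0 + α0)) = Real.sin α0 * Δ u x0 := by
    rw [hL, ← trace_br _ θ0, I_ex_add_br, ex_add_br]
    simp only [map_add, map_sub, map_smul, add_apply,
      smul_apply, smul_eq_mul]
    ring
  have h5 : b * (Real.sin α0 * Δ u x0) = 0 := by
    rw [← h4]
    linear_combination h2 - h3
  have hb : b = 0 := by
    rcases mul_eq_zero.1 h5 with k | k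
    · exact k
    · exact absurd k (mul_ne_zero hα hK)
  refine ⟨?_, hb⟩
  rw [hb, zero_smul, add_zero, ex_add_br] at h1
  have h6 : ex θ0 ≠ 0 := Complex.exp_ne_zero _
  have h7 : (a : ℂ) = t * (Real.cos α0 + Real.sin α0 * Complex.I) := by
    apply mul_right_cancel₀ h6
    simp only [Complex.real_smul] at h1
    linear_combination h1
  have h8 := congrArg Complex.im h7
  have h9 := congrArg Complex.re h7
  simp only [Complex.ofReal_im, Complex.ofReal_re, Complex.mul_im, Complex.mul_re, Complex.add_im,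
    Complex.add_re, Complex.I_im, Complex.I_re, mul_zero, mul_one, zero_mul, add_zero, zero_add,
    sub_zero, sub_self] at h8 h9
  have ht : t = 0 := by
    rcases mul_eq_zero.1 h8.symm with k | k
    · exact k
    · exact absurd k hα
  rw [h9, ht, zero_mul]

theorem gg_indep (hu : ContDiff ℝ ∞ u) (hK : Δ u x0 ≠ 0) (hα : Real.sin α0 ≠ 0)
    (b3 : Box u (x0, θ0) L3 X3 c3) (b1 : Box u (x0, θ0 + α0) L1 X1 c1) (a b : ℝ)
    (h : a • deriv (fun σ => gg X3 c3 X1 c1 ((((0 : R2), α0), 0), (0, σ))) 0 +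
      b • deriv (fun s => deriv (fun σ => gg X3 c3 X1 c1 ((((0 : R2), α0), 0), (s, σ))) 0) 0 = 0) :
    a = 0 ∧ b = 0 := by
  have hc1 : Differentiable ℝ c1 := b1.cc.differentiable two_ne_zero
  have hD1 : Differentiable ℝ (fderiv ℝ c1) :=
    (b1.cc.fderiv_right (m := 1) (by norm_num)).differentiable one_ne_zero
  have hY : Differentiable ℝ (Yf u) := (contDiff_Yf hu).differentiable (by simp)
  have hγ0 : X1 (0, 0) = (x0, θ0 + α0) := b1.zero
  have hw0 : rot (-α0) (X1 (0, 0)) = (x0, θ0) := by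
    rw [hγ0]
    simp [rot]
  have hγ : HasDerivAt (fun s : ℝ => X1 (0, s)) (Yf u (x0, θ0 + α0)) 0 := by
    have h1 := b1.flow 0 (mem_ball_self b1.pos)
    rw [b1.zero] at h1
    exact h1
  have hw : HasDerivAt (fun s : ℝ => rot (-α0) (X1 (0, s))) (Yf u (x0, θ0 + α0)) 0 := by
    simp only [rot_eq_br]
    exact hγ.add_const _
  -- the derivative in the second time
  have hk : ∀ᶠ s : ℝ in 𝓝 0, deriv (fun σ => gg X3 c3 X1 c1 ((((0 : R2), α0), 0), (s, σ))) 0 =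
      (fderiv ℝ c1 (X1 (0, s)) (Yf u (rot (-α0) (X1 (0, s))))).1 := by
    have h1 : ∀ᶠ s : ℝ in 𝓝 0, rot (-α0) (X1 (0, s)) ∈ ball ((x0, θ0) : V) L3 := by
      refine hw.continuousAt.eventually (isOpen_ball.mem_nhds ?_)
      beta_reduce
      rw [hw0]
      exact mem_ball_self b3.pos
    have h2 : ∀ᶠ s : ℝ in 𝓝 0, c3 (rot (-α0) (X1 (0, s))) ∈ ball (0 : P3) L3 := by
      refine (b3.cc.continuous.continuousAt.comp hw.continuousAt).eventually
        (isOpen_ball.mem_nhds ?_)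
      rw [Function.comp_apply, hw0, b3.c_zero]
      exact mem_ball_self b3.pos
    filter_upwards [h1, h2] with s k1 k2
    have k3 := b3.flow _ k2
    rw [b3.right _ k1] at k3
    have k4 : HasDerivAt (fun σ : ℝ => X3 (c3 (rot (-α0) (X1 (0, s))) + (0, σ)))
        (Yf u (rot (-α0) (X1 (0, s)))) 0 := by
      have k5 := HasDerivAt.comp_const_add (c3 (rot (-α0) (X1 (0, s)))).2 0
        (f := fun r => X3 ((c3 (rot (-α0) (X1 (0, s)))).1, r)) (by rwa [add_zero])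
      refine k5.congr_of_eventuallyEq (Eventually.of_forall fun σ => ?_)
      exact congrArg X3 (Prod.ext (add_zero _) rfl)
    have k6 : HasDerivAt (fun σ : ℝ => rot (α0 + 0) (X3 (c3 (rot (-α0) (X1 (0, s))) + (0, σ))))
        (Yf u (rot (-α0) (X1 (0, s)))) 0 := by
      simp only [rot_eq_br (α0 + 0)]
      exact k4.add_const _
    have k7 : rot (α0 + 0) (X3 (c3 (rot (-α0) (X1 (0, s))) + (0, 0))) = X1 (0, s) := by
      rw [Prod.mk_zero_zero, add_zero (c3 _), b3.right _ k1, rot_rot_br]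
    have k8 := (hc1 _).hasFDerivAt.comp_hasDerivAt_of_eq 0 k6 k7.symm
    exact ((hasFDerivAt_fst (𝕜 := ℝ)).comp_hasDerivAt 0 k8).deriv
  have hk0 := hk.self_of_nhds
  rw [hw0, hγ0] at hk0
  have hk1 : HasDerivAt (fun s : ℝ => fderiv ℝ c1 (X1 (0, s)) (Yf u (rot (-α0) (X1 (0, s)))))
      (fderiv ℝ (fderiv ℝ c1) (x0, θ0 + α0) (Yf u (x0, θ0 + α0)) (Yf u (x0, θ0)) +
        fderiv ℝ c1 (x0, θ0 + α0) (fderiv ℝ (Yf u) (x0, θ0) (Yf u (x0, θ0 + α0)))) 0 := by
    have h1 := (hD1 _).hasFDerivAt.comp_hasDerivAt_of_eq 0 hγ hγ0.symm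
    have h2 := (hY _).hasFDerivAt.comp_hasDerivAt_of_eq 0 hw hw0.symm
    have h3 := h1.clm_apply h2
    simp only [Function.comp_apply] at h3
    rw [hw0, hγ0] at h3
    exact h3
  have hk2 := ((hasFDerivAt_fst (𝕜 := ℝ)).comp_hasDerivAt 0 hk1).deriv
  have hz : fderiv ℝ c1 (x0, θ0 + α0) (fderiv ℝ (Yf u) (x0, θ0 + α0) (Yf u (x0, θ0))) +
      fderiv ℝ (fderiv ℝ c1) (x0, θ0 + α0) (Yf u (x0, θ0)) (Yf u (x0, θ0 + α0)) = 0 := by
    have h1 := (hD1 (x0, θ0 + α0)).hasFDerivAt.clm_apply (hY (x0, θ0 + α0)).hasFDerivAt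
    have h2 := (hasFDerivAt_const (𝕜 := ℝ) (((0 : R2), (1 : ℝ)) : P3)
      ((x0, θ0 + α0) : V)).congr_of_eventuallyEq b1.fderiv_Yf
    have h3 := congrArg (fun A => A (Yf u (x0, θ0))) (h1.unique h2)
    simpa using h3
  have hs := (b1.cc.contDiffAt (x := (x0, θ0 + α0))).isSymmSndFDerivAt (by simp)
    (Yf u (x0, θ0)) (Yf u (x0, θ0 + α0))
  rw [hk0, Filter.EventuallyEq.deriv_eq hk] at h
  have h' : a • (fderiv ℝ c1 (x0, θ0 + α0) (Yf u (x0, θ0))).1 +
      b • (fderiv ℝ (fderiv ℝ c1) (x0, θ0 + α0) (Yf u (x0, θ0 + α0)) (Yf u (x0, θ0)) +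
        fderiv ℝ c1 (x0, θ0 + α0) (fderiv ℝ (Yf u) (x0, θ0) (Yf u (x0, θ0 + α0)))).1 = 0 := by
    rw [← h]
    congr 2
    exact hk2.symm
  rw [← hs, eq_neg_of_add_eq_zero_right hz] at h'
  obtain ⟨t, ht⟩ := b1.ker (w := a • Yf u (x0, θ0) + b •
      (fderiv ℝ (Yf u) (x0, θ0) (Yf u (x0, θ0 + α0)) -
        fderiv ℝ (Yf u) (x0, θ0 + α0) (Yf u (x0, θ0)))) (by
    rw [← h', map_add, map_smul, map_smul, map_sub, neg_add_eq_sub]
    rfl)
  exact bracket_indep hu hK hα a b t ht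

end Pool.Agent.Lib.MP_a52643_an.H60
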