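import Pool.Agent.Lib.MP_a52643_an.H60Defs

open MeasureTheory Set Filter Topology Metric
open scoped ENNReal NNReal ContDiff Laplacian FourierTransform Real

noncomputable section

namespace Pool.Agent.Lib.MP_a52643_an.H60

theorem continuous_ex_pol0 : Continuous ex := by
  unfold ex
  fun_prop

theorem norm_ex_pol0 {r : ℝ} (hr : 0 < r) (θ : ℝ) : ‖(r : ℂ) * ex θ‖ = r := by
  rw [norm_mul, ex, Complex.norm_exp_ofReal_mul_I, mul_one, Complex.norm_real,
    Real.norm_of_nonneg hr.le]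

theorem JJ_pol0 {a η r : ℝ} (hη : η ≤ a / 2) (hr : r ∈ JJ a η) : a / 2 < r := by
  have := hr.1
  linarith

theorem measurableSet_Ann (a η : ℝ) : MeasurableSet (Ann a η) :=
  measurable_norm measurableSet_Ioo

theorem pol_arc {a η : ℝ} (ha : 0 < a) (hη : η ≤ a / 2) (θ0 : ℝ) {f : ℂ → ℝ≥0∞}
    (hf : Measurable f) :
    ∫⁻ r in JJ a η, ∫⁻ θ in Ioo (θ0 - 1) (θ0 + 1), f (r * ex θ)
      ≤ ENNReal.ofReal (2 / a) * ∫⁻ z in Ann a η, f z := by
  have hex := continuous_ex_pol0.measurable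
  have hJ : MeasurableSet (JJ a η) := measurableSet_Ioo
  have h1 : ∫⁻ z in Ann a η, f z = ∫⁻ z, (Ann a η).indicator f (ex θ0 * z) := by
    rw [← lintegral_indicator (measurableSet_Ann a η)]
    exact ((rotation (Circle.exp θ0)).measurePreserving.lintegral_comp
      (hf.indicator (measurableSet_Ann a η))).symm
  have h2 : ∀ r : ℝ, ∫⁻ θ in Ioo (θ0 - 1) (θ0 + 1), f (r * ex θ) =
      ∫⁻ θ in Ioo (-1 : ℝ) 1, f (r * ex (θ0 + θ)) := by
    intro r
    rw [← (measurePreserving_add_left volume θ0).setLIntegral_comp_preimage measurableSet_Ioo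
      (f := fun θ => f (r * ex θ)) (by fun_prop), preimage_const_add_Ioo]
    congr 3 <;> ring
  have h3 : ∫⁻ r in JJ a η, ∫⁻ θ in Ioo (-1 : ℝ) 1, f (r * ex (θ0 + θ)) =
      ∫⁻ p in JJ a η ×ˢ Ioo (-1 : ℝ) 1, f (p.1 * ex (θ0 + p.2)) := by
    rw [Measure.volume_eq_prod, ← Measure.prod_restrict,
      lintegral_prod _ (Measurable.aemeasurable (by fun_prop))]
  have h4 : JJ a η ×ˢ Ioo (-1 : ℝ) 1 ⊆ polarCoord.target := by
    rintro p ⟨k1, k2⟩
    have k3 := JJ_pol0 hη k1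
    have k4 := Real.pi_gt_three
    exact ⟨show 0 < p.1 by linarith, by linarith [k2.1], by linarith [k2.2]⟩
  simp only [h2]
  rw [h3, h1, ← Complex.lintegral_comp_polarCoord_symm]
  refine le_trans ?_ (mul_le_mul_right (lintegral_mono_set h4) _)
  rw [← lintegral_const_mul' _ _ ENNReal.ofReal_ne_top]
  refine setLIntegral_mono' (hJ.prod measurableSet_Ioo) ?_
  rintro p ⟨k1, -⟩
  have k3 := JJ_pol0 hη k1
  have k4 : 0 < p.1 := by linarith
  have k5 : ex θ0 * Complex.polarCoord.symm p = p.1 * ex (θ0 + p.2) := by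
    rw [Complex.polarCoord_symm_apply, ex, ex, Complex.ofReal_add, add_mul, Complex.exp_add,
      Complex.exp_mul_I (p.2 : ℂ)]
    push_cast
    ring
  have k6 : (p.1 : ℂ) * ex (θ0 + p.2) ∈ Ann a η := by
    change ‖(p.1 : ℂ) * ex (θ0 + p.2)‖ ∈ JJ a η
    rwa [norm_ex_pol0 k4]
  rw [k5, indicator_of_mem k6, smul_eq_mul, ← mul_assoc,
    ← ENNReal.ofReal_mul (by positivity)]
  refine le_mul_of_one_le_left' (ENNReal.one_le_ofReal.2 ?_)
  rw [div_mul_eq_mul_div, one_le_div ha]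
  linarith

theorem measurableSet_Res (a : R3) (η : ℝ) : MeasurableSet (Res a η) :=
  (measurable_fst (measurableSet_Ann a.1 η)).inter
    (((measurable_fst.neg.sub measurable_snd) (measurableSet_Ann a.2.1 η)).inter
      (measurable_snd (measurableSet_Ann a.2.2 η)))

theorem measurable_pol {g : ℂ × ℂ → ℝ≥0∞} (hg : Measurable g) : Measurable (pol g) := by
  have hex := continuous_ex_pol0.measurable
  unfold pol
  fun_prop

theorem MM_le_MC {δ a η : ℝ} (ha : 0 < a) (hη : η ≤ a / 2) (x0 : ℂ) (R θ0 : ℝ)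
    {g q : ℂ × ℂ → ℝ≥0∞} (hg : Measurable g) (hq : Measurable q) :
    MM δ a η x0 R θ0 (pol g) (pol q) ≤ ENNReal.ofReal (2 / a) * MC δ a η x0 R g q := by
  have hex := continuous_ex_pol0.measurable
  have hw : Measurable (wt δ a) := by
    unfold wt
    fun_prop
  have hJ : MeasurableSet (JJ a η) := measurableSet_Ioo
  have h1 : MM δ a η x0 R θ0 (pol g) (pol q) = ∫⁻ r in JJ a η, ∫⁻ x in ball x0 R,
      ∫⁻ θ in Ioo (θ0 - 1) (θ0 + 1), wt δ a ‖(r : ℂ) * ex θ‖ ^ 2 *
        (g (x, r * ex θ) ^ 2 + q (x, r * ex θ) ^ 2) := by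
    refine setLIntegral_congr_fun hJ fun r hr => ?_
    have k4 : 0 < r := by linarith [JJ_pol0 hη hr]
    simp only [norm_ex_pol0 k4, pol]
    rw [← lintegral_const_mul _ (by fun_prop), Measure.volume_eq_prod, ← Measure.prod_restrict,
      lintegral_prod _ (Measurable.aemeasurable (by fun_prop))]
  rw [h1, lintegral_lintegral_swap (Measurable.aemeasurable (by fun_prop)), MC,
    ← lintegral_const_mul' _ _ ENNReal.ofReal_ne_top]
  refine lintegral_mono fun x => ?_
  exact pol_arc ha hη θ0 (f := fun z => wt δ a ‖z‖ ^ 2 * (g (x, z) ^ 2 + q (x, z) ^ 2))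
    (by fun_prop)

end Pool.Agent.Lib.MP_a52643_an.H60
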