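import Pool.Agent.Lib.MP_a52643_an.H60Lme
import Pool.Agent.Lib.MP_a52643_an.H60Pol0
import Pool.Agent.Lib.MP_a52643_an.H60Ang

open MeasureTheory Set Filter Topology Metric
open scoped ENNReal NNReal ContDiff Laplacian FourierTransform Real

noncomputable section

namespace Pool.Agent.Lib.MP_a52643_an.H60

theorem exists_lb_branch {ι : Type} (t : Finset ι) (f : ι → ℝ) (hf : ∀ j ∈ t, 0 < f j) :
    ∃ r : ℝ, 0 < r ∧ ∀ j ∈ t, r ≤ f j := by
  classical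
  induction t using Finset.induction_on with
  | empty => exact ⟨1, one_pos, by simp⟩
  | insert j s hj ih =>
    obtain ⟨r, hr, h⟩ := ih fun i hi => hf i (Finset.mem_insert_of_mem hi)
    refine ⟨min r (f j), lt_min hr (hf j (Finset.mem_insert_self j s)), fun i hi => ?_⟩
    rcases Finset.mem_insert.1 hi with rfl | hi
    · exact min_le_right _ _
    · exact (min_le_left _ _).trans (h i hi)

theorem lintegral_cover_branch {ι : Type} (t : Finset ι) (U : ι → Set V) {s : Set V}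
    (hs : s ⊆ ⋃ j ∈ t, U j) (f : V → ℝ≥0∞) :
    ∫⁻ v in s, f v ≤ ∑ j ∈ t, ∫⁻ v in U j, f v := by
  classical
  refine (lintegral_mono_set hs).trans ?_
  clear hs
  induction t using Finset.induction_on with
  | empty => simp
  | insert j s hj ih =>
    rw [Finset.set_biUnion_insert, Finset.sum_insert hj]
    exact (lintegral_union_le _ _ _).trans (add_le_add le_rfl ih)

theorem lintegral3_sum_branch {ι : Type} (t : Finset ι) (f : ι → R3 → ℝ≥0∞)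
    (hf : ∀ j ∈ t, Measurable (f j)) (J1 J2 J3 : Set ℝ) :
    ∫⁻ r1 in J1, ∫⁻ r2 in J2, ∫⁻ r3 in J3, ∑ j ∈ t, f j (r1, r2, r3)
      = ∑ j ∈ t, ∫⁻ r1 in J1, ∫⁻ r2 in J2, ∫⁻ r3 in J3, f j (r1, r2, r3) := by
  have h3 : ∀ j ∈ t, Measurable fun p : ℝ × ℝ => ∫⁻ r3 in J3, f j (p.1, p.2, r3) := by
    intro j hj
    have : Measurable fun p : (ℝ × ℝ) × ℝ => f j (p.1.1, p.1.2, p.2) :=
      (hf j hj).comp (by fun_prop)
    exact this.lintegral_prod_right'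
  rw [← lintegral_finsetSum]
  · refine lintegral_congr fun r1 => ?_
    rw [← lintegral_finsetSum]
    · refine lintegral_congr fun r2 => ?_
      rw [← lintegral_finsetSum]
      intro j hj
      exact (hf j hj).comp (by fun_prop)
    · intro j hj
      exact (h3 j hj).comp (measurable_prodMk_left (x := r1))
  · intro j hj
    exact (h3 j hj).lintegral_prod_right'

theorem sq_sum_le_branch {ι : Type} (t : Finset ι) (x : ι → ℝ≥0∞) {n : ℕ} (hn : t.card ≤ n)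
    {M : ℝ≥0∞} (h : ∀ j ∈ t, x j ^ 2 ≤ M) : (∑ j ∈ t, x j) ^ 2 ≤ (n : ℝ≥0∞) ^ 2 * M := by
  rcases t.eq_empty_or_nonempty with rfl | hne
  · simp
  obtain ⟨j, hj, hmax⟩ := t.exists_max_image x hne
  have h1 : ∑ j ∈ t, x j ≤ (n : ℝ≥0∞) * x j := by
    refine (Finset.sum_le_card_nsmul t x (x j) hmax).trans ?_
    rw [nsmul_eq_mul]
    gcongr
  calc (∑ j ∈ t, x j) ^ 2 ≤ ((n : ℝ≥0∞) * x j) ^ 2 := by gcongr
    _ = (n : ℝ≥0∞) ^ 2 * x j ^ 2 := mul_pow _ _ _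
    _ ≤ (n : ℝ≥0∞) ^ 2 * M := by gcongr; exact h j hj

theorem exists_lbK_branch {K : Set R3} (hc : IsCompact K) (hT : ∀ a ∈ K, Tri a) :
    ∃ m : ℝ, 0 < m ∧ ∀ a ∈ K, m ≤ a.1 ∧ m ≤ a.2.1 ∧ m ≤ a.2.2 := by
  have hcont : ContinuousOn (fun a : R3 => min a.1 (min a.2.1 a.2.2)) K := by fun_prop
  obtain ⟨m, hm, h⟩ := hc.exists_forall_le' (a := 0) hcont fun a ha =>
    lt_min (hT a ha).pos.1 (lt_min (hT a ha).pos.2.1 (hT a ha).pos.2.2)
  refine ⟨m, hm, fun a ha => ?_⟩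
  have := h a ha
  simp only [le_min_iff] at this
  exact this

theorem measurable_int_branch {A B : R3 → ℝ} (hA : Measurable A) (hB : Measurable B)
    {G1 G2 G3 : ℝ × V → ℝ≥0∞} (h1 : Measurable G1) (h2 : Measurable G2) (h3 : Measurable G3)
    (s : Set V) :
    Measurable fun r : R3 => ∫⁻ v in s,
      G3 (r.2.2, v) * (G1 (r.1, rot (A r) v) * G2 (r.2.1, rot (B r) v)) := by
  have hr : ∀ {E : R3 → ℝ}, Measurable E → Measurable fun p : R3 × V => rot (E p.1) p.2 := by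
    intro E hE
    unfold rot
    exact (measurable_fst.comp measurable_snd).prodMk
      ((measurable_snd.comp measurable_snd).add (hE.comp measurable_fst))
  have : Measurable fun p : R3 × V =>
      G3 (p.1.2.2, p.2) * (G1 (p.1.1, rot (A p.1) p.2) * G2 (p.1.2.1, rot (B p.1) p.2)) := by
    refine (h3.comp (by fun_prop)).mul ((h1.comp ?_).mul (h2.comp ?_))
    · exact (measurable_fst.comp measurable_fst).prodMk (hr hA)
    · exact (measurable_fst.comp (measurable_snd.comp measurable_fst)).prodMk (hr hB)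
  exact this.lintegral_prod_right'

theorem MM_le_branch {δ a η m : ℝ} (hm : 0 < m) (ha : m ≤ a) (hη : η ≤ m / 2) (x0 : ℂ)
    (R θ0 : ℝ) {g q : ℂ × ℂ → ℝ≥0∞} (hg : Measurable g) (hq : Measurable q) :
    MM δ a η x0 R θ0 (pol g) (pol q) ≤ ENNReal.ofReal (2 / m) * MC δ a η x0 R g q := by
  refine (MM_le_MC (hm.trans_le ha) (by linarith) x0 R θ0 hg hq).trans ?_
  gcongr

/-- One branch, all directions. -/
theorem branch {u : ℂ → ℝ} (hu : ContDiff ℝ ∞ u) {x0 : ℂ} (hK : Δ u x0 ≠ 0)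
    {K : Set R3} (hc : IsCompact K) (hT : ∀ a ∈ K, Tri a) {A B : R3 → ℝ}
    (h : ∀ a ∈ K, Ang a A B) {R : ℝ} (hR : 0 < R) :
    ∃ r0 : ℝ, 0 < r0 ∧ ∃ c : ℝ, 0 < c ∧ ∃ C : ℝ≥0∞, C ≠ ⊤ ∧ ∀ τ ∈ Ioc (0 : ℝ) 1, ∀ η : ℝ,
      η ≤ c * τ → ∀ a ∈ K, ∀ g1 q1 g2 q2 g3 q3 : ℂ × ℂ → ℝ≥0∞,
      Measurable g1 → Measurable q1 → Measurable g2 → Measurable q2 → Measurable g3 →
      Measurable q3 → Trans u x0 R (JJ a.1 η) (pol g1) (pol q1) →
      Trans u x0 R (JJ a.2.1 η) (pol g2) (pol q2) → Trans u x0 R (JJ a.2.2 η) (pol g3) (pol q3) →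
      (∫⁻ r1 in JJ a.1 η, ∫⁻ r2 in JJ a.2.1 η, ∫⁻ r3 in JJ a.2.2 η,
        ∫⁻ v in ball x0 r0 ×ˢ Icc (-π) π, pol g3 (r3, v) *
          (pol g1 (r1, rot (A (r1, r2, r3)) v) * pol g2 (r2, rot (B (r1, r2, r3)) v))) ^ 2
        ≤ C * ENNReal.ofReal (τ ^ 5) *
          (MC (τ ^ 2) a.1 η x0 R g1 q1 * MC (τ ^ 2) a.2.1 η x0 R g2 q2 *
            MC (τ ^ 2) a.2.2 η x0 R g3 q3) := by
  classical
  have hS : IsCompact (Icc (-π) π ×ˢ K : Set (ℝ × R3)) := isCompact_Icc.prod hc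
  have hl := fun (p : ℝ × R3) (hp : p ∈ (Icc (-π) π ×ˢ K : Set (ℝ × R3))) =>
    lme hu hK p.1 (h p.2 hp.2) hR
  choose! ε hε c hc0 C hC H using hl
  obtain ⟨t, htS, hcov⟩ := hS.elim_nhds_subcover (fun p => ball p (ε p))
    fun p hp => ball_mem_nhds p (hε p hp)
  obtain ⟨r0, hr0, hr0le⟩ := exists_lb_branch t ε fun p hp => hε p (htS p hp)
  obtain ⟨c0, hc0', hc0le⟩ := exists_lb_branch t c fun p hp => hc0 p (htS p hp)
  obtain ⟨m, hm, hmle⟩ := exists_lbK_branch hc hT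
  refine ⟨r0, hr0, min c0 (m / 2), lt_min hc0' (half_pos hm),
    (t.card : ℝ≥0∞) ^ 2 * ((∑ p ∈ t, C p) * ENNReal.ofReal (2 / m) ^ 3), ?_, ?_⟩
  · refine ENNReal.mul_ne_top (ENNReal.pow_ne_top (ENNReal.natCast_ne_top _))
      (ENNReal.mul_ne_top ?_ (ENNReal.pow_ne_top ENNReal.ofReal_ne_top))
    exact ENNReal.sum_ne_top.2 fun p hp => hC p (htS p hp)
  intro τ hτ η hη a ha g1 q1 g2 q2 g3 q3 mg1 mq1 mg2 mq2 mg3 mq3 T1 T2 T3
  have hηm : η ≤ m / 2 := by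
    refine hη.trans ?_
    calc min c0 (m / 2) * τ ≤ m / 2 * 1 :=
          mul_le_mul (min_le_right _ _) hτ.2 hτ.1.le (half_pos hm).le
      _ = m / 2 := mul_one _
  set t' := t.filter fun p => a ∈ ball p.2 (ε p) with ht'
  have hcov' : (ball x0 r0 ×ˢ Icc (-π) π : Set V) ⊆ ⋃ p ∈ t', ball ((x0, p.1) : V) (ε p) := by
    intro v hv
    have : ((v.2, a) : ℝ × R3) ∈ (Icc (-π) π ×ˢ K : Set (ℝ × R3)) := ⟨hv.2, ha⟩
    obtain ⟨p, hp, hvp⟩ := mem_iUnion₂.1 (hcov this)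
    rw [mem_ball, Prod.dist_eq, max_lt_iff] at hvp
    refine mem_iUnion₂.2 ⟨p, Finset.mem_filter.2 ⟨hp, hvp.2⟩, ?_⟩
    rw [mem_ball, Prod.dist_eq, max_lt_iff]
    exact ⟨lt_of_lt_of_le hv.1 (hr0le p hp), hvp.1⟩
  let f : ℝ × R3 → R3 → ℝ≥0∞ := fun p r => ∫⁻ v in ball ((x0, p.1) : V) (ε p),
    pol g3 (r.2.2, v) * (pol g1 (r.1, rot (A r) v) * pol g2 (r.2.1, rot (B r) v))
  have hf : ∀ p ∈ t', Measurable (f p) := fun p _ =>
    measurable_int_branch (h a ha).mA (h a ha).mB (measurable_pol mg1) (measurable_pol mg2)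
      (measurable_pol mg3) _
  have h1 : (∫⁻ r1 in JJ a.1 η, ∫⁻ r2 in JJ a.2.1 η, ∫⁻ r3 in JJ a.2.2 η,
        ∫⁻ v in ball x0 r0 ×ˢ Icc (-π) π, pol g3 (r3, v) *
          (pol g1 (r1, rot (A (r1, r2, r3)) v) * pol g2 (r2, rot (B (r1, r2, r3)) v)))
      ≤ ∑ p ∈ t', ∫⁻ r1 in JJ a.1 η, ∫⁻ r2 in JJ a.2.1 η, ∫⁻ r3 in JJ a.2.2 η,
        f p (r1, r2, r3) := by
    rw [← lintegral3_sum_branch t' f hf]
    refine lintegral_mono fun r1 => lintegral_mono fun r2 => lintegral_mono fun r3 => ?_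
    exact lintegral_cover_branch t' _ hcov' _
  have h2 : ∀ p ∈ t', (∫⁻ r1 in JJ a.1 η, ∫⁻ r2 in JJ a.2.1 η, ∫⁻ r3 in JJ a.2.2 η,
        f p (r1, r2, r3)) ^ 2 ≤ ((∑ p ∈ t, C p) * ENNReal.ofReal (2 / m) ^ 3) *
          ENNReal.ofReal (τ ^ 5) *
          (MC (τ ^ 2) a.1 η x0 R g1 q1 * MC (τ ^ 2) a.2.1 η x0 R g2 q2 *
            MC (τ ^ 2) a.2.2 η x0 R g3 q3) := by
    intro p hp
    obtain ⟨hpt, hpa⟩ := Finset.mem_filter.1 hp
    have hηc : η ≤ c p * τ :=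
      hη.trans (mul_le_mul_of_nonneg_right ((min_le_left _ _).trans (hc0le p hpt)) hτ.1.le)
    have h3 := H p (htS p hpt) τ hτ η hηc a hpa (pol g1) (pol q1) (pol g2) (pol q2) (pol g3)
      (pol q3) (measurable_pol mg1) (measurable_pol mq1) (measurable_pol mg2) (measurable_pol mq2)
      (measurable_pol mg3) (measurable_pol mq3) T1 T2 T3
    refine h3.trans ?_
    have e1 := MM_le_branch (δ := τ ^ 2) hm (hmle a ha).1 hηm x0 R (p.1 + A p.2) mg1 mq1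
    have e2 := MM_le_branch (δ := τ ^ 2) hm (hmle a ha).2.1 hηm x0 R (p.1 + B p.2) mg2 mq2
    have e3 := MM_le_branch (δ := τ ^ 2) hm (hmle a ha).2.2 hηm x0 R p.1 mg3 mq3
    have e4 : C p ≤ ∑ p ∈ t, C p := Finset.single_le_sum (fun _ _ => zero_le) hpt
    refine (mul_le_mul' (mul_le_mul' e4 le_rfl) (mul_le_mul' (mul_le_mul' e1 e2) e3)).trans
      (le_of_eq ?_)
    ring
  refine (pow_le_pow_left' h1 2).trans ?_
  refine (sq_sum_le_branch t' _ (Finset.card_filter_le t _) h2).trans (le_of_eq ?_)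
  ring

end Pool.Agent.Lib.MP_a52643_an.H60
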