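import Pool.Agent.Lib.MP_a52643_an.H60Adm

open MeasureTheory Set Filter Topology Metric
open scoped ENNReal NNReal ContDiff Laplacian FourierTransform Real

noncomputable section

namespace Pool.Agent.Lib.MP_a52643_an.H60

variable {u : ℂ → ℝ}

theorem contDiff_rho (hu : ContDiff ℝ ∞ u) (a : ℝ) : ContDiff ℝ ∞ (rho u a) :=
  contDiff_const.mul (contDiff_const.mul hu).exp

theorem aff_coef (δ : ℝ) (x : ℂ) : ContDiff ℝ ∞ fun Y : ℂ => x + δ • Y :=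
  contDiff_const.add (contDiff_id.const_smul δ)

theorem contDiff_sc {φ : ℂ → ℝ} (hφ : ContDiff ℝ ∞ φ) (δ : ℝ) (x : ℂ) :
    ContDiff ℝ ∞ (sc δ φ x) :=
  hφ.comp (aff_coef δ x)

theorem contDiff_n1 {ρ : ℂ → ℝ} (hρ : ContDiff ℝ ∞ ρ) (δ : ℝ) (x : ℂ) :
    ContDiff ℝ ∞ (n1 δ ρ x) :=
  ((hρ.comp (aff_coef δ x)).sub contDiff_const).div_const δ

theorem contDiff_n2 {ρ : ℂ → ℝ} (hρ : ContDiff ℝ ∞ ρ) (δ : ℝ) (x : ℂ) :
    ContDiff ℝ ∞ (n2 δ ρ x) :=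
  (((hρ.comp (aff_coef δ x)).sub contDiff_const).sub
    (contDiff_const.mul (fderiv ℝ ρ x).contDiff)).div_const _

theorem inner_gr (u : ℂ → ℝ) (x Y : ℂ) : inner ℝ Y (gr u x) = fderiv ℝ u x Y := by
  have h : Y = Y.re • (1 : ℂ) + Y.im • Complex.I := by
    apply Complex.ext <;> simp
  conv_rhs => rw [h, map_add, map_smul, map_smul]
  simp [gr, Complex.inner]
  ring

theorem fderiv_coef {F : Type} [NormedAddCommGroup F] [NormedSpace ℝ F] {f : ℂ → F}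
    (hf : ContDiff ℝ ∞ f) : ContDiff ℝ ∞ (fderiv ℝ f) :=
  hf.fderiv_right (m := ∞) le_rfl

theorem continuous_gr (hu : ContDiff ℝ ∞ u) : Continuous (gr u) := by
  have h := (fderiv_coef hu).continuous
  unfold gr
  fun_prop

theorem fderiv_rho (hu : ContDiff ℝ ∞ u) (a : ℝ) (x Y : ℂ) :
    fderiv ℝ (rho u a) x Y = 2 * rho u a x * fderiv ℝ u x Y := by
  have h := (hu.differentiable (by simp) x).hasFDerivAt
  have h1 : HasFDerivAt (rho u a) _ x := ((h.const_mul 2).exp).const_mul (a ^ 2)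
  rw [h1.fderiv]
  simp [rho]
  ring

section

variable {F : Type} [NormedAddCommGroup F] [NormedSpace ℝ F] {f : ℂ → F} {k : ℕ} {C δ : ℝ}

theorem iter_aff_coef (hf : ContDiff ℝ ∞ f) (j : ℕ) (δ : ℝ) (x Y : ℂ) :
    iteratedFDeriv ℝ j (fun Y => f (x + δ • Y)) Y = δ ^ j • iteratedFDeriv ℝ j f (x + δ • Y) := by
  have h : ContDiff ℝ j fun z => f (x + z) :=
    (hf.of_le (by exact_mod_cast le_top)).comp (contDiff_const.add contDiff_id)
  have h1 := congrFun (iteratedFDeriv_comp_const_smul δ h) Y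
  rw [iteratedFDeriv_comp_add_left] at h1
  exact h1

theorem norm_aff_coef (hf : ContDiff ℝ ∞ f) (j : ℕ) (hδ : δ ∈ Ioc (0 : ℝ) 1) (x Y : ℂ) :
    ‖iteratedFDeriv ℝ j (fun Y => f (x + δ • Y)) Y‖ ≤ ‖iteratedFDeriv ℝ j f (x + δ • Y)‖ := by
  rw [iter_aff_coef hf, norm_smul, Real.norm_of_nonneg (pow_nonneg hδ.1.le j)]
  exact mul_le_of_le_one_left (norm_nonneg _) (pow_le_one₀ hδ.1.le hδ.2)

theorem prim_coef (hf : ContDiff ℝ ∞ f) (h0 : f 0 = 0)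
    (h : ∀ j ≤ k, ∀ Y ∈ ball (0 : ℂ) 1, ‖iteratedFDeriv ℝ j (fderiv ℝ f) Y‖ ≤ C) :
    ∀ j ≤ k, ∀ Y ∈ ball (0 : ℂ) 1, ‖iteratedFDeriv ℝ j f Y‖ ≤ C := by
  intro j hj Y hY
  cases j with
  | zero =>
    have hb : ∀ y ∈ ball (0 : ℂ) 1, ‖fderiv ℝ f y‖ ≤ C := fun y hy => by
      simpa using h 0 (Nat.zero_le _) y hy
    have h1 := (convex_ball (0 : ℂ) 1).norm_image_sub_le_of_norm_fderiv_le
      (fun y _ => hf.differentiable (by simp) y) hb (mem_ball_self one_pos) hY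
    rw [h0, sub_zero, sub_zero] at h1
    rw [norm_iteratedFDeriv_zero]
    have hC : 0 ≤ C := (norm_nonneg _).trans (hb Y hY)
    exact h1.trans (mul_le_of_le_one_right hC (mem_ball_zero_iff.1 hY).le)
  | succ i =>
    rw [← norm_iteratedFDeriv_fderiv]
    exact h i (by omega) Y hY

theorem has_aff_coef (hf : ContDiff ℝ ∞ f) (δ : ℝ) (x Y : ℂ) :
    HasFDerivAt (fun Y => f (x + δ • Y)) (δ • fderiv ℝ f (x + δ • Y)) Y := by
  have h1 : HasFDerivAt (fun Y : ℂ => x + δ • Y) (δ • ContinuousLinearMap.id ℝ ℂ) Y :=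
    ((hasFDerivAt_id Y).const_smul δ).const_add x
  have h2 := (hf.differentiable (by simp) (x + δ • Y)).hasFDerivAt.comp Y h1
  refine h2.congr_fderiv ?_
  ext1 v
  simp

theorem quo_coef (hf : ContDiff ℝ ∞ f) (hδ : δ ∈ Ioc (0 : ℝ) 1) (x : ℂ)
    (h : ∀ j ≤ k, ∀ y, ‖iteratedFDeriv ℝ j (fderiv ℝ f) y‖ ≤ C) :
    ∀ j ≤ k, ∀ Y ∈ ball (0 : ℂ) 1,
      ‖iteratedFDeriv ℝ j (fun Y => δ⁻¹ • (f (x + δ • Y) - f x)) Y‖ ≤ C := by
  refine prim_coef (((hf.comp (aff_coef δ x)).sub contDiff_const).const_smul δ⁻¹) (by simp) ?_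
  have e : fderiv ℝ (fun Y => δ⁻¹ • (f (x + δ • Y) - f x)) =
      fun Y => fderiv ℝ f (x + δ • Y) := by
    funext Y
    rw [(((has_aff_coef hf δ x Y).sub_const (f x)).fun_const_smul δ⁻¹).fderiv, smul_smul,
      inv_mul_cancel₀ hδ.1.ne', one_smul]
  intro j hj Y _
  rw [e]
  exact (norm_aff_coef (fderiv_coef hf) j hδ x Y).trans (h j hj _)

theorem bdd_coef (hf : ContDiff ℝ ∞ f) (hc : HasCompactSupport f) (k : ℕ) :
    ∃ C, 0 ≤ C ∧ ∀ j ≤ k, ∀ y, ‖iteratedFDeriv ℝ j f y‖ ≤ C := by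
  have h : ∀ j : ℕ, ∃ C, ∀ y, ‖iteratedFDeriv ℝ j f y‖ ≤ C := fun j =>
    (hf.continuous_iteratedFDeriv (by exact_mod_cast le_top)).bounded_above_of_compact_support
      (hc.iteratedFDeriv j)
  choose c hc using h
  have h0 : ∀ j, 0 ≤ c j := fun j => (norm_nonneg _).trans (hc j 0)
  refine ⟨∑ j ∈ Finset.range (k + 1), c j, Finset.sum_nonneg fun j _ => h0 j, fun j hj y => ?_⟩
  exact (hc j y).trans (Finset.single_le_sum (fun j _ => h0 j) (Finset.mem_range.2 (by omega)))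

end

theorem bnd_cx_coef {n : ℂ → ℝ} {k : ℕ} {C : ℝ} (hn : ContDiff ℝ ∞ n)
    (h : ∀ j ≤ k, ∀ Y ∈ ball (0 : ℂ) 1, ‖iteratedFDeriv ℝ j n Y‖ ≤ C) : Bnd k C (cx n) := by
  intro j hj Y hY
  have h1 := Complex.ofRealLI.norm_iteratedFDeriv_comp_left (hn.contDiffAt (x := Y))
    (i := j) (by exact_mod_cast le_top)
  exact h1.trans_le (h j hj Y hY)

theorem bnd_n1_coef {ρ : ℂ → ℝ} {k : ℕ} {C δ : ℝ} (hρ : ContDiff ℝ ∞ ρ) (hδ : δ ∈ Ioc (0 : ℝ) 1)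
    (x : ℂ) (h : ∀ j ≤ k, ∀ y, ‖iteratedFDeriv ℝ j (fderiv ℝ ρ) y‖ ≤ C) :
    Bnd k C (cx (n1 δ ρ x)) := by
  refine bnd_cx_coef (contDiff_n1 hρ δ x) ?_
  have e : n1 δ ρ x = fun Y => δ⁻¹ • (ρ (x + δ • Y) - ρ x) := by
    funext Y
    rw [n1, smul_eq_mul, div_eq_inv_mul]
  rw [e]
  exact quo_coef hρ hδ x h

theorem bnd_n2_coef {ρ : ℂ → ℝ} {k : ℕ} {C δ : ℝ} (hρ : ContDiff ℝ ∞ ρ) (hδ : δ ∈ Ioc (0 : ℝ) 1)
    (x : ℂ) (h : ∀ j ≤ k + 1, ∀ y, ‖iteratedFDeriv ℝ j (fderiv ℝ ρ) y‖ ≤ C) :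
    Bnd k C (cx (n2 δ ρ x)) := by
  refine bnd_cx_coef (contDiff_n2 hρ δ x) (prim_coef (contDiff_n2 hρ δ x) (by simp [n2]) ?_)
  have e : fderiv ℝ (n2 δ ρ x) = fun Y => δ⁻¹ • (fderiv ℝ ρ (x + δ • Y) - fderiv ℝ ρ x) := by
    funext Y
    have h1 : HasFDerivAt (n2 δ ρ x) _ Y :=
      (((has_aff_coef hρ δ x Y).sub_const (ρ x)).fun_sub
        ((fderiv ℝ ρ x).hasFDerivAt.const_mul δ)).mul_const (δ ^ 2)⁻¹
    rw [h1.fderiv, ← smul_sub, smul_smul]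
    congr 1
    have := hδ.1.ne'
    field_simp
  rw [e]
  refine quo_coef (fderiv_coef hρ) hδ x fun j hj y => ?_
  rw [norm_iteratedFDeriv_fderiv]
  exact h (j + 1) (by omega) y

theorem drho_coef (hu : ContDiff ℝ ∞ u) (hc : HasCompactSupport u) (k : ℕ) :
    ∃ C, 0 ≤ C ∧ ∀ a, ∀ j ≤ k, ∀ y, ‖iteratedFDeriv ℝ j (fderiv ℝ (rho u a)) y‖ ≤ a ^ 2 * C := by
  have hG := fderiv_coef (contDiff_rho hu 1)
  have hGc : HasCompactSupport (fderiv ℝ (rho u 1)) := by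
    refine (hc.fderiv (𝕜 := ℝ)).mono fun y hy h0 => hy ?_
    ext1 Y
    rw [fderiv_rho hu, h0]
    simp
  obtain ⟨C, hC0, hC⟩ := bdd_coef hG hGc k
  refine ⟨C, hC0, fun a j hj y => ?_⟩
  have e : fderiv ℝ (rho u a) = fun y => a ^ 2 • fderiv ℝ (rho u 1) y := by
    funext y
    ext1 Y
    rw [smul_apply, fderiv_rho hu, fderiv_rho hu]
    simp only [rho, smul_eq_mul]
    ring
  rw [e, iteratedFDeriv_const_smul_apply' (hG.contDiffAt.of_le (by exact_mod_cast le_top)),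
    norm_smul, Real.norm_of_nonneg (sq_nonneg a)]
  exact mul_le_mul_of_nonneg_left (hC j hj y) (sq_nonneg _)

theorem gr_coef {D : ℝ} {x : ℂ} (hD : ‖fderiv ℝ u x‖ ≤ D) : ‖gr u x‖ ≤ 2 * D := by
  have h1 : ∀ e : ℂ, ‖e‖ = 1 → ‖fderiv ℝ u x e‖ ≤ D := fun e he =>
    ((fderiv ℝ u x).le_opNorm e).trans (by rw [he, mul_one]; exact hD)
  refine (norm_add_le _ _).trans ?_
  rw [norm_mul, Complex.norm_I, mul_one, Complex.norm_real, Complex.norm_real]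
  linarith [h1 1 norm_one, h1 Complex.I Complex.norm_I]

theorem max_coef (a b c d e f : ℝ) : ∃ M : ℝ, a ≤ M ∧ b ≤ M ∧ c ≤ M ∧ d ≤ M ∧ e ≤ M ∧ f ≤ M :=
  ⟨max (max (max a b) (max c d)) (max e f), by simp⟩

theorem exists_coef (hu : ContDiff ℝ ∞ u) (hc : HasCompactSupport u) (k : ℕ) {A A' : ℝ}
    (hA : 0 < A) : ∃ M, ∀ a ∈ Icc A A', Coef k M u a := by
  obtain ⟨U, hU⟩ := hu.continuous.bounded_above_of_compact_support hc
  obtain ⟨D, hD⟩ :=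
    (fderiv_coef hu).continuous.bounded_above_of_compact_support (hc.fderiv (𝕜 := ℝ))
  obtain ⟨C, hC0, hC⟩ := drho_coef hu hc (k + 1)
  obtain ⟨M, m1, m2, m3, m4, m5, m6⟩ := max_coef 1 A⁻¹ A' (Real.exp U) (2 * D) (A' ^ 2 * C)
  refine ⟨M, fun a ha => ?_⟩
  have hρ : ∀ j ≤ k + 1, ∀ y, ‖iteratedFDeriv ℝ j (fderiv ℝ (rho u a)) y‖ ≤ M := by
    intro j hj y
    have h1 : a ^ 2 ≤ A' ^ 2 := pow_le_pow_left₀ (hA.le.trans ha.1) ha.2 2
    exact (hC a j hj y).trans ((mul_le_mul_of_nonneg_right h1 hC0).trans m6)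
  refine ⟨m1, (inv_le_of_inv_le₀ hA m2).trans ha.1, ha.2.trans m3, fun x => ?_, fun x => ?_,
    fun x => (gr_coef (hD x)).trans m5, fun δ hδ x => ?_, fun δ hδ x => ?_⟩
  · refine inv_le_of_inv_le₀ (Real.exp_pos _) (le_trans ?_ m4)
    rw [← Real.exp_neg]
    exact Real.exp_le_exp.2 ((neg_le_abs _).trans (hU x))
  · exact (Real.exp_le_exp.2 ((le_abs_self _).trans (hU x))).trans m4
  · exact bnd_n1_coef (contDiff_rho hu a) hδ x fun j hj => hρ j (by omega)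
  · exact bnd_n2_coef (contDiff_rho hu a) hδ x hρ

theorem mem_coef {δ R : ℝ} {x0 x Y : ℂ} (hδ : 0 < δ) (hR : δ ≤ R) (hx : x ∈ ball x0 R)
    (hY : Y ∈ ball (0 : ℂ) 1) : x + δ • Y ∈ ball x0 (2 * R) := by
  rw [mem_ball_iff_norm] at hx ⊢
  rw [mem_ball_zero_iff] at hY
  have e : x + δ • Y - x0 = x - x0 + δ • Y := by ring
  have h1 := norm_add_le (x - x0) (δ • Y)
  rw [norm_smul, Real.norm_of_nonneg hδ.le] at h1
  have h2 : δ * ‖Y‖ ≤ δ := mul_le_of_le_one_right hδ.le hY.le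
  rw [e]
  linarith

theorem HelG.hel (hu : ContDiff ℝ ∞ u) {a δ R : ℝ} {x0 x : ℂ} {φ : ℂ → ℝ}
    (h : HelG u a δ x0 (2 * R) φ) (hδ : 0 < δ) (hR : δ ≤ R) (hx : x ∈ ball x0 R) :
    Hel δ (rho u a x) (n1 δ (rho u a) x) (sc δ φ x) := by
  refine ⟨contDiff_sc h.sm δ x, contDiff_n1 (contDiff_rho hu a) δ x, fun Y hY => ?_⟩
  have h1 := h.eq _ (mem_coef hδ hR hx hY)
  have h2 : Δ (sc δ φ x) Y = δ ^ 2 * Δ φ (x + δ • Y) := by
    have h3 : iteratedFDeriv ℝ 2 (sc δ φ x) Y = _ := iter_aff_coef h.sm 2 δ x Y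
    simp only [InnerProductSpace.laplacian_eq_iteratedFDeriv_complexPlane, h3,
      smul_apply, smul_eq_mul]
    ring
  have h4 : rho u a x + δ * n1 δ (rho u a) x Y = rho u a (x + δ • Y) := by
    unfold n1
    field_simp
    ring
  rw [h2, h4, sc, ← h1]
  ring

theorem meas_coef {φ : ℂ → ℝ} (hφ : Continuous φ) (δ : ℝ) :
    Measurable fun p : ℂ × ℂ => ‖sc δ φ p.1 p.2‖ₑ ^ 2 := by
  have h : Continuous fun p : ℂ × ℂ => sc δ φ p.1 p.2 := by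
    unfold sc
    fun_prop
  exact h.measurable.enorm.pow_const 2

theorem measurable_m2 {φ : ℂ → ℝ} (hφ : Continuous φ) (δ : ℝ) :
    Measurable fun x => m2 (sc δ φ x) :=
  (meas_coef hφ δ).lintegral_prod_right'

theorem m2_le {φ : ℂ → ℝ} (hφ : Continuous φ) {δ R : ℝ} {x0 x : ℂ} (hδ : 0 < δ) (hR : δ ≤ R)
    (hx : x ∈ ball x0 R) :
    m2 (sc δ φ x) ≤ ENNReal.ofReal (δ⁻¹ ^ 2) * NN (ball x0 (2 * R)) φ := by
  let H : ℂ → ℝ≥0∞ := (ball x0 (2 * R)).indicator fun y => ‖φ y‖ₑ ^ 2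
  have hH : Measurable H := (hφ.measurable.enorm.pow_const 2).indicator measurableSet_ball
  have h1 : m2 (sc δ φ x) ≤ ∫⁻ Y, H (x + δ • Y) := by
    refine le_trans (le_of_eq ?_) (setLIntegral_le_lintegral (ball (0 : ℂ) 1) _)
    refine setLIntegral_congr_fun measurableSet_ball fun Y hY => ?_
    simp only [H, indicator_of_mem (mem_coef hδ hR hx hY), sc]
  have h2 := lintegral_map (μ := volume) (f := fun z => H (x + z)) (g := fun Y : ℂ => δ • Y)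
    (hH.comp (measurable_const_add x)) (measurable_const_smul δ)
  rw [Measure.map_addHaar_smul _ hδ.ne', lintegral_smul_measure, lintegral_add_left_eq_self,
    lintegral_indicator measurableSet_ball, Complex.finrank_real_complex,
    abs_of_nonneg (by positivity), ← inv_pow] at h2
  exact h1.trans h2.ge

theorem lintegral_m2 {φ : ℂ → ℝ} (hφ : Continuous φ) {δ R : ℝ} (x0 : ℂ) (hδ : 0 < δ)
    (hR : δ ≤ R) : ∫⁻ x in ball x0 R, m2 (sc δ φ x) ≤ 4 * NN (ball x0 (2 * R)) φ := by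
  let H : ℂ → ℝ≥0∞ := (ball x0 (2 * R)).indicator fun y => ‖φ y‖ₑ ^ 2
  have h1 : ∀ Y ∈ ball (0 : ℂ) 1,
      ∫⁻ x in ball x0 R, ‖sc δ φ x Y‖ₑ ^ 2 ≤ NN (ball x0 (2 * R)) φ := by
    intro Y hY
    have h2 : ∫⁻ x in ball x0 R, ‖sc δ φ x Y‖ₑ ^ 2 ≤ ∫⁻ x, H (x + δ • Y) := by
      refine le_trans (le_of_eq ?_) (setLIntegral_le_lintegral (ball x0 R) _)
      refine setLIntegral_congr_fun measurableSet_ball fun x hx => ?_
      simp only [H, indicator_of_mem (mem_coef hδ hR hx hY), sc]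
    rw [lintegral_add_right_eq_self, lintegral_indicator measurableSet_ball] at h2
    exact h2
  unfold m2
  rw [lintegral_lintegral_swap (meas_coef hφ δ).aemeasurable]
  refine (setLIntegral_mono' measurableSet_ball h1).trans ?_
  rw [setLIntegral_const, mul_comm, Complex.volume_ball]
  gcongr
  have h3 : NNReal.pi ≤ 4 := by
    rw [← NNReal.coe_le_coe, NNReal.coe_real_pi]
    exact Real.pi_le_four
  rw [ENNReal.ofReal_one, one_pow, one_mul]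
  exact_mod_cast h3

end Pool.Agent.Lib.MP_a52643_an.H60
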