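import Pool.Agent.Lib.MP_a52643_an.H60Core2

open MeasureTheory Set Filter Topology Metric
open scoped ENNReal NNReal ContDiff Laplacian FourierTransform Real

noncomputable section

namespace Pool.Agent.Lib.MP_a52643_an.H60

variable {L X1 X2 : Type} [MeasurableSpace L] [MeasurableSpace X1] [MeasurableSpace X2]
  {μ : Measure L} {ν1 : Measure X1} {ν2 : Measure X2} [SFinite μ] [SFinite ν1] [SFinite ν2]
  {S J1 J2 J3 : Set ℝ} {w1 w2 w3 : ℝ → ℝ≥0∞} {D : ℝ≥0∞}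
  {a1 : ℝ × X1 → ℝ≥0∞} {a2 : ℝ × X2 → ℝ≥0∞} {k1 : R3 × L × ℝ → X1} {k2 : R3 × L × ℝ → X2}

theorem cs_core {A : Type} [MeasurableSpace A] (m : Measure A) {f g : A → ℝ≥0∞}
    (hf : Measurable f) (hg : Measurable g) :
    (∫⁻ x, f x * g x ∂m) ^ 2 ≤ (∫⁻ x, f x ^ 2 ∂m) * ∫⁻ x, g x ^ 2 ∂m := by
  have h1 := ENNReal.lintegral_mul_le_Lp_mul_Lq m Real.HolderConjugate.two_two hf.aemeasurable
    hg.aemeasurable
  simp only [Pi.mul_apply, ENNReal.rpow_ofNat] at h1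
  refine (pow_le_pow_left' h1 2).trans (le_of_eq ?_)
  rw [mul_pow, ← ENNReal.rpow_natCast, ← ENNReal.rpow_natCast, ← ENNReal.rpow_mul,
    ← ENNReal.rpow_mul]
  norm_num

theorem swap_core {A B C E : Type} [MeasurableSpace A] [MeasurableSpace B] [MeasurableSpace C]
    [MeasurableSpace E] (mA : Measure A) (mB : Measure B) (mC : Measure C) (mE : Measure E)
    [SFinite mA] [SFinite mB] [SFinite mC] [SFinite mE] {f : A × B × C × E → ℝ≥0∞}
    (hf : Measurable f) :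
    ∫⁻ a, ∫⁻ b, ∫⁻ c, ∫⁻ e, f (a, b, c, e) ∂mE ∂mC ∂mB ∂mA =
      ∫⁻ b, ∫⁻ c, ∫⁻ e, ∫⁻ a, f (a, b, c, e) ∂mA ∂mE ∂mC ∂mB := by
  rw [lintegral_lintegral_swap (Measurable.aemeasurable (by fun_prop))]
  refine lintegral_congr fun b => ?_
  rw [lintegral_lintegral_swap (Measurable.aemeasurable (by fun_prop))]
  refine lintegral_congr fun c => ?_
  rw [lintegral_lintegral_swap (Measurable.aemeasurable (by fun_prop))]

/-- The indicator of the short differences. -/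
def nrCore (τ t : ℝ) : ℝ≥0∞ := (Ioo (-τ) τ).indicator 1 t

theorem measurable_nr_core (τ : ℝ) : Measurable (nrCore τ) :=
  measurable_one.indicator measurableSet_Ioo

theorem nr_add_far_core (τ t : ℝ) : nrCore τ t + far τ t = 1 := by
  by_cases h : τ ≤ |t|
  · have h1 : t ∉ Ioo (-τ) τ := fun h2 => (abs_lt.2 h2).not_ge h
    simp [nrCore, far, h, h1]
  · have h1 : t ∈ Ioo (-τ) τ := abs_lt.1 (not_le.1 h)
    simp [nrCore, far, h, h1]

theorem nr_neg_core (τ s t : ℝ) : nrCore τ (s - t) = nrCore τ (t - s) := by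
  have h : s - t ∈ Ioo (-τ) τ ↔ t - s ∈ Ioo (-τ) τ := by
    simp only [mem_Ioo]
    constructor <;> rintro ⟨h1, h2⟩ <;> constructor <;> linarith
  by_cases h1 : s - t ∈ Ioo (-τ) τ
  · rw [nrCore, nrCore, indicator_of_mem h1, indicator_of_mem (h.1 h1)]
    rfl
  · rw [nrCore, nrCore, indicator_of_notMem h1, indicator_of_notMem fun h2 => h1 (h.2 h2)]

theorem nr_sq_core (τ t : ℝ) : nrCore τ t * nrCore τ t = nrCore τ t := by
  by_cases h1 : t ∈ Ioo (-τ) τ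
  · simp [nrCore, h1]
  · simp [nrCore, h1]

theorem lintegral_nr_core (τ s : ℝ) (S : Set ℝ) :
    ∫⁻ s' in S, nrCore τ (s' - s) ≤ ENNReal.ofReal (2 * τ) := by
  refine (setLIntegral_le_lintegral _ _).trans (le_of_eq ?_)
  rw [lintegral_sub_right_eq_self (nrCore τ) s]
  unfold nrCore
  rw [lintegral_indicator_one measurableSet_Ioo, Real.volume_Ioo]
  congr 1
  ring

theorem sq_lintegral_le {b : ℝ → ℝ≥0∞} (hb : Measurable b) {S : Set ℝ} (hS : MeasurableSet S)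
    {τ : ℝ} (hτ : 0 < τ) :
    (∫⁻ s in S, b s) ^ 2 ≤ ENNReal.ofReal (2 * τ) * (∫⁻ s in S, b s ^ 2) +
      ∫⁻ s in S, ∫⁻ s' in S, far τ (s' - s) * (b s * b s') := by
  have hn := measurable_nr_core τ
  have hf := measurable_far τ
  have h1 : (∫⁻ s in S, b s) ^ 2 = (∫⁻ s in S, ∫⁻ s' in S, nrCore τ (s' - s) * (b s * b s')) +
      ∫⁻ s in S, ∫⁻ s' in S, far τ (s' - s) * (b s * b s') := by
    rw [sq, ← lintegral_lintegral_mul hb.aemeasurable hb.aemeasurable,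
      ← lintegral_add_left (by fun_prop)]
    refine lintegral_congr fun s => ?_
    rw [← lintegral_add_left (by fun_prop)]
    refine lintegral_congr fun s' => ?_
    rw [← add_mul, nr_add_far_core, one_mul]
  have h2 : ∫⁻ s in S, ∫⁻ s' in S, nrCore τ (s' - s) * b s ^ 2 ≤
      ENNReal.ofReal (2 * τ) * ∫⁻ s in S, b s ^ 2 := by
    rw [← lintegral_const_mul _ (by fun_prop)]
    refine lintegral_mono fun s => ?_
    rw [lintegral_mul_const _ (by fun_prop)]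
    exact mul_le_mul_left (lintegral_nr_core τ s S) _
  have h3 := cs_core ((volume.restrict S).prod (volume.restrict S))
    (f := fun p : ℝ × ℝ => nrCore τ (p.2 - p.1) * b p.1)
    (g := fun p : ℝ × ℝ => nrCore τ (p.2 - p.1) * b p.2) (by fun_prop) (by fun_prop)
  rw [lintegral_prod _ (Measurable.aemeasurable (by fun_prop)),
    lintegral_prod _ (Measurable.aemeasurable (by fun_prop)),
    lintegral_prod_symm _ (Measurable.aemeasurable (by fun_prop))] at h3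
  have e1 : ∀ s s', nrCore τ (s' - s) * b s * (nrCore τ (s' - s) * b s') =
      nrCore τ (s' - s) * (b s * b s') := fun s s' => by
    rw [mul_mul_mul_comm, nr_sq_core]
  have e2 : ∀ s s', (nrCore τ (s' - s) * b s) ^ 2 = nrCore τ (s' - s) * b s ^ 2 := fun s s' => by
    rw [mul_pow, sq, nr_sq_core]
  have e3 : ∀ s s', (nrCore τ (s - s') * b s) ^ 2 = nrCore τ (s' - s) * b s ^ 2 := fun s s' => by
    rw [nr_neg_core, e2]
  simp only [e1, e2, e3] at h3
  rw [h1]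
  refine add_le_add_left ?_ _
  have h4 := h3.trans (mul_le_mul' h2 h2)
  rw [← sq] at h4
  exact (ENNReal.pow_le_pow_left_iff two_ne_zero).1 h4

theorem Core.main (h : Core S J1 J2 J3 w1 w2 w3 D a1 a2 k1 k2) {Cn Cf : ℝ≥0∞} {τ : ℝ}
    (hτ : 0 < τ) (hN : HN μ ν1 ν2 S J1 J2 J3 k1 k2 Cn)
    (h1 : HF μ ν1 S J1 J2 J3 τ k1 Cf) (h2 : HF μ ν2 S J1 J2 J3 τ k2 Cf)
    {a3 : ℝ × L → ℝ≥0∞} (m3 : Measurable a3) :
    (∫⁻ r1 in J1, ∫⁻ r2 in J2, ∫⁻ r3 in J3, ∫⁻ l, ∫⁻ s in S, a3 (r3, l) *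
        (a1 (r1, k1 ((r1, r2, r3), l, s)) * a2 (r2, k2 ((r1, r2, r3), l, s))) ∂volume ∂μ) ^ 2
      ≤ (ENNReal.ofReal (2 * τ) * D ^ 2 * Cn + D ^ 3 * Cf) *
        (WN ν1 J1 w1 a1 * WN ν2 J2 w2 a2 * WN μ J3 w3 a3) := by
  have ma1 := h.ma1
  have ma2 := h.ma2
  have mk1 := h.mk1
  have mk2 := h.mk2
  have mw3 := h.mw3
  have mf := measurable_far τ
  set b : ℝ × L × ℝ → ℝ≥0∞ := fun p => bb J1 J2 a1 a2 k1 k2 p.1 p.2.1 p.2.2 with hbdef
  have mb : Measurable b := h.measurable_bb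
  have e1 : ∫⁻ r1 in J1, ∫⁻ r2 in J2, ∫⁻ r3 in J3, ∫⁻ l, ∫⁻ s in S, a3 (r3, l) *
        (a1 (r1, k1 ((r1, r2, r3), l, s)) * a2 (r2, k2 ((r1, r2, r3), l, s))) ∂volume ∂μ =
      ∫⁻ q : ℝ × L, (w3 q.1 * a3 q) * ((w3 q.1)⁻¹ * ∫⁻ s in S, b (q.1, q.2, s))
        ∂(volume.restrict J3).prod μ := by
    rw [lintegral_congr fun r1 => swap_core (volume.restrict J2) (volume.restrict J3) μ
      (volume.restrict S) (f := fun q : ℝ × ℝ × L × ℝ => a3 (q.2.1, q.2.2.1) *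
        (a1 (r1, k1 ((r1, q.1, q.2.1), q.2.2.1, q.2.2.2)) *
          a2 (q.1, k2 ((r1, q.1, q.2.1), q.2.2.1, q.2.2.2)))) (by fun_prop),
      swap_core (volume.restrict J1) (volume.restrict J3) μ
      (volume.restrict S) (f := fun q : ℝ × ℝ × L × ℝ => ∫⁻ r2 in J2, a3 (q.2.1, q.2.2.1) *
        (a1 (q.1, k1 ((q.1, r2, q.2.1), q.2.2.1, q.2.2.2)) *
          a2 (r2, k2 ((q.1, r2, q.2.1), q.2.2.1, q.2.2.2)))) (by fun_prop),
      lintegral_prod _ (Measurable.aemeasurable (by fun_prop))]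
    refine lintegral_congr fun r3 => lintegral_congr fun l => ?_
    rw [mul_mul_mul_comm, ENNReal.mul_inv_cancel (zero_lt_one.trans_le (h.one3 r3)).ne'
      (h.top3 r3), one_mul, ← lintegral_const_mul _ (by fun_prop)]
    refine lintegral_congr fun s => ?_
    simp only [hbdef, bb]
    rw [← lintegral_const_mul _ (by fun_prop)]
    refine lintegral_congr fun r1 => ?_
    rw [← lintegral_const_mul _ (by fun_prop)]
  have e2 : ∫⁻ q : ℝ × L, (w3 q.1 * a3 q) ^ 2 ∂(volume.restrict J3).prod μ = WN μ J3 w3 a3 := by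
    rw [lintegral_prod _ (Measurable.aemeasurable (by fun_prop)), WN]
    refine lintegral_congr fun r3 => ?_
    rw [← lintegral_const_mul _ (by fun_prop)]
    simp only [mul_pow]
  have e3 : ∫⁻ q : ℝ × L, ((w3 q.1)⁻¹ * ∫⁻ s in S, b (q.1, q.2, s)) ^ 2
      ∂(volume.restrict J3).prod μ ≤ (ENNReal.ofReal (2 * τ) * D ^ 2 * Cn + D ^ 3 * Cf) *
        (WN ν1 J1 w1 a1 * WN ν2 J2 w2 a2) := by
    rw [lintegral_prod _ (Measurable.aemeasurable (by fun_prop))]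
    have k1' : ∀ r3 ∈ J3, ∫⁻ l, ((w3 r3)⁻¹ * ∫⁻ s in S, b (r3, l, s)) ^ 2 ∂μ ≤
        ENNReal.ofReal (2 * τ) * (∫⁻ l, ∫⁻ s in S, b (r3, l, s) ^ 2 ∂volume ∂μ) +
          (w3 r3 ^ 2)⁻¹ * (D ^ 2 * Cf * (WN ν1 J1 w1 a1 * WN ν2 J2 w2 a2)) := by
      intro r3 hr
      have k2' : (w3 r3 ^ 2)⁻¹ ≤ 1 := ENNReal.inv_le_one.2 (one_le_pow₀ (h.one3 r3))
      have k3 : ∫⁻ l, (∫⁻ s in S, b (r3, l, s)) ^ 2 ∂μ ≤
          ENNReal.ofReal (2 * τ) * (∫⁻ l, ∫⁻ s in S, b (r3, l, s) ^ 2 ∂volume ∂μ) +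
            D ^ 2 * Cf * (WN ν1 J1 w1 a1 * WN ν2 J2 w2 a2) := by
        refine le_trans (lintegral_mono fun l =>
          sq_lintegral_le (b := fun s => b (r3, l, s)) (by fun_prop) h.mS hτ) ?_
        rw [lintegral_add_left (by fun_prop), lintegral_const_mul _ (by fun_prop)]
        exact add_le_add_right (h.far_le h1 h2 hr) _
      simp only [mul_pow]
      rw [lintegral_const_mul _ (by fun_prop), ← ENNReal.inv_pow]
      refine (mul_le_mul_right k3 _).trans ?_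
      rw [mul_add]
      exact add_le_add_left (mul_le_of_le_one_left' k2') _
    refine (setLIntegral_mono' h.mJ3 k1').trans ?_
    rw [lintegral_add_left (by fun_prop), lintegral_const_mul _ (by fun_prop),
      lintegral_mul_const _ (by fun_prop)]
    refine (add_le_add (mul_le_mul_right (h.near hN) _) (mul_le_mul_left h.hD3 _)).trans
      (le_of_eq ?_)
    ring
  rw [e1]
  refine (cs_core _ (by fun_prop) (by fun_prop)).trans ?_
  rw [e2]
  refine (mul_le_mul_right e3 _).trans (le_of_eq ?_)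
  ring

end Pool.Agent.Lib.MP_a52643_an.H60
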