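import Pool.Agent.Lib.MP_a52643_an.H60Defs

open MeasureTheory Set Filter Topology Metric
open scoped ENNReal NNReal ContDiff Laplacian FourierTransform Real

noncomputable section

namespace Pool.Agent.Lib.MP_a52643_an.H60

variable {L X1 X2 : Type} [MeasurableSpace L] [MeasurableSpace X1] [MeasurableSpace X2]
  {μ : Measure L} {ν1 : Measure X1} {ν2 : Measure X2} [SFinite μ] [SFinite ν1] [SFinite ν2]
  {S J1 J2 J3 : Set ℝ} {w1 w2 w3 : ℝ → ℝ≥0∞} {D : ℝ≥0∞}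
  {a1 : ℝ × X1 → ℝ≥0∞} {a2 : ℝ × X2 → ℝ≥0∞} {k1 : R3 × L × ℝ → X1} {k2 : R3 × L × ℝ → X2}

theorem cs_core1 {α : Type} [MeasurableSpace α] (m : Measure α) {f w : α → ℝ≥0∞}
    (hf : Measurable f) (hw : Measurable w) (h0 : ∀ x, w x ≠ 0) (ht : ∀ x, w x ≠ ⊤) :
    (∫⁻ x, f x ∂m) ^ 2 ≤ (∫⁻ x, (w x ^ 2)⁻¹ ∂m) * ∫⁻ x, w x ^ 2 * f x ^ 2 ∂m := by
  have h := ENNReal.lintegral_mul_le_Lp_mul_Lq m Real.HolderConjugate.two_two
    (f := fun x => (w x)⁻¹) (g := fun x => w x * f x) hw.inv.aemeasurable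
    (hw.mul hf).aemeasurable
  have e1 : ∫⁻ x, ((fun x => (w x)⁻¹) * fun x => w x * f x) x ∂m = ∫⁻ x, f x ∂m := by
    refine lintegral_congr fun x => ?_
    simp only [Pi.mul_apply]
    rw [← mul_assoc, ENNReal.inv_mul_cancel (h0 x) (ht x), one_mul]
  rw [e1] at h
  refine (pow_le_pow_left' h 2).trans_eq ?_
  have e2 : ∀ a : ℝ≥0∞, (a ^ (1 / 2 : ℝ)) ^ 2 = a := by
    intro a
    rw [← ENNReal.rpow_natCast, ← ENNReal.rpow_mul]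
    norm_num
  rw [mul_pow, e2, e2]
  simp only [ENNReal.rpow_ofNat, ENNReal.inv_pow, mul_pow]

theorem triple_core1 {A B E : Type} [MeasurableSpace A] [MeasurableSpace B] [MeasurableSpace E]
    (m1 : Measure A) (m2 : Measure B) (m3 : Measure E) [SFinite m2] [SFinite m3]
    {G : A × B × E → ℝ≥0∞} (hG : Measurable G) :
    ∫⁻ x, ∫⁻ y, ∫⁻ z, G (x, y, z) ∂m3 ∂m2 ∂m1 = ∫⁻ p, G p ∂(m1.prod (m2.prod m3)) := by
  rw [lintegral_prod _ hG.aemeasurable]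
  refine lintegral_congr fun x => ?_
  exact (lintegral_prod (fun y => G (x, y)) (hG.comp measurable_prodMk_left).aemeasurable).symm

theorem Core.meas_core1 (h : Core S J1 J2 J3 w1 w2 w3 D a1 a2 k1 k2) :
    Measurable (fun q : (ℝ × L × ℝ) × ℝ × ℝ =>
      a1 (q.2.1, k1 ((q.2.1, q.2.2, q.1.1), q.1.2.1, q.1.2.2))) ∧
    Measurable (fun q : (ℝ × L × ℝ) × ℝ × ℝ =>
      a2 (q.2.2, k2 ((q.2.1, q.2.2, q.1.1), q.1.2.1, q.1.2.2))) := by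
  have h1 := h.ma1
  have h2 := h.ma2
  have h3 := h.mk1
  have h4 := h.mk2
  constructor <;> fun_prop

theorem Core.bb_eq_core1 (h : Core S J1 J2 J3 w1 w2 w3 D a1 a2 k1 k2) (p : ℝ × L × ℝ) :
    bb J1 J2 a1 a2 k1 k2 p.1 p.2.1 p.2.2 =
      ∫⁻ r : ℝ × ℝ, a1 (r.1, k1 ((r.1, r.2, p.1), p.2.1, p.2.2)) *
        a2 (r.2, k2 ((r.1, r.2, p.1), p.2.1, p.2.2))
        ∂((volume.restrict J1).prod (volume.restrict J2)) := by
  exact (lintegral_prod (fun r : ℝ × ℝ => a1 (r.1, k1 ((r.1, r.2, p.1), p.2.1, p.2.2)) *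
      a2 (r.2, k2 ((r.1, r.2, p.1), p.2.1, p.2.2)))
    ((h.meas_core1.1.mul h.meas_core1.2).comp (measurable_prodMk_left (x := p))).aemeasurable).symm

theorem Core.measurable_bb (h : Core S J1 J2 J3 w1 w2 w3 D a1 a2 k1 k2) :
    Measurable fun p : ℝ × L × ℝ => bb J1 J2 a1 a2 k1 k2 p.1 p.2.1 p.2.2 := by
  simp only [h.bb_eq_core1]
  exact (h.meas_core1.1.mul h.meas_core1.2).lintegral_prod_right'

theorem Core.near (h : Core S J1 J2 J3 w1 w2 w3 D a1 a2 k1 k2) {C : ℝ≥0∞}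
    (hN : HN μ ν1 ν2 S J1 J2 J3 k1 k2 C) :
    ∫⁻ r3 in J3, ∫⁻ l, ∫⁻ s in S, bb J1 J2 a1 a2 k1 k2 r3 l s ^ 2 ∂volume ∂μ
      ≤ D ^ 2 * C * (WN ν1 J1 w1 a1 * WN ν2 J2 w2 a2) := by
  set m : Measure (ℝ × ℝ) := (volume.restrict J1).prod (volume.restrict J2) with hm
  set P : Measure (ℝ × L × ℝ) := (volume.restrict J3).prod (μ.prod (volume.restrict S)) with hP
  obtain ⟨m1, m2⟩ := h.meas_core1
  have mw1 := h.mw1
  have mw2 := h.mw2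
  have ma1 := h.ma1
  have ma2 := h.ma2
  have n1 : ∀ r, w1 r ≠ 0 := fun r => (zero_lt_one.trans_le (h.one1 r)).ne'
  have n2 : ∀ r, w2 r ≠ 0 := fun r => (zero_lt_one.trans_le (h.one2 r)).ne'
  set G : (ℝ × L × ℝ) × ℝ × ℝ → ℝ≥0∞ := fun q =>
    a1 (q.2.1, k1 ((q.2.1, q.2.2, q.1.1), q.1.2.1, q.1.2.2)) ^ 2 *
      a2 (q.2.2, k2 ((q.2.1, q.2.2, q.1.1), q.1.2.1, q.1.2.2)) ^ 2 with hG
  have mG : Measurable G := (m1.pow_const 2).mul (m2.pow_const 2)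
  have mW : Measurable fun r : ℝ × ℝ => (w1 r.1 * w2 r.2) ^ 2 := by fun_prop
  have mWG : Measurable fun q : (ℝ × L × ℝ) × ℝ × ℝ => (w1 q.2.1 * w2 q.2.2) ^ 2 * G q :=
    (mW.comp measurable_snd).mul mG
  have hD : ∫⁻ r : ℝ × ℝ, ((w1 r.1 * w2 r.2) ^ 2)⁻¹ ∂m ≤ D ^ 2 := by
    have e : ∀ r : ℝ × ℝ, ((w1 r.1 * w2 r.2) ^ 2)⁻¹ = (w1 r.1 ^ 2)⁻¹ * (w2 r.2 ^ 2)⁻¹ := by
      intro r
      rw [mul_pow, ENNReal.mul_inv (Or.inl (pow_ne_zero 2 (n1 _)))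
        (Or.inl (ENNReal.pow_ne_top (h.top1 _)))]
    simp only [e]
    rw [hm, lintegral_prod_mul (f := fun r => (w1 r ^ 2)⁻¹) (g := fun r => (w2 r ^ 2)⁻¹)
      (by fun_prop) (by fun_prop), sq]
    exact mul_le_mul' h.hD1 h.hD2
  have hpt : ∀ p : ℝ × L × ℝ, bb J1 J2 a1 a2 k1 k2 p.1 p.2.1 p.2.2 ^ 2 ≤
      D ^ 2 * ∫⁻ r, (w1 r.1 * w2 r.2) ^ 2 * G (p, r) ∂m := by
    intro p
    rw [h.bb_eq_core1]
    refine (cs_core1 m ((m1.mul m2).comp (measurable_prodMk_left (x := p)))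
      (w := fun r : ℝ × ℝ => w1 r.1 * w2 r.2) (by fun_prop)
      (fun r => mul_ne_zero (n1 _) (n2 _))
      (fun r => ENNReal.mul_ne_top (h.top1 _) (h.top2 _))).trans ?_
    refine mul_le_mul' hD (le_of_eq (lintegral_congr fun r => ?_))
    simp only [hG, mul_pow, Function.comp_apply, Pi.mul_apply]
  have mN1 : Measurable fun r : ℝ => w1 r ^ 2 * ∫⁻ y, a1 (r, y) ^ 2 ∂ν1 :=
    (mw1.pow_const 2).mul (ma1.pow_const 2).lintegral_prod_right'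
  have mN2 : Measurable fun r : ℝ => w2 r ^ 2 * ∫⁻ y, a2 (r, y) ^ 2 ∂ν2 :=
    (mw2.pow_const 2).mul (ma2.pow_const 2).lintegral_prod_right'
  have hae : ∀ᵐ r ∂m, r ∈ J1 ×ˢ J2 := by
    rw [hm, Measure.prod_restrict]
    exact ae_restrict_mem (h.mJ1.prod h.mJ2)
  calc ∫⁻ r3 in J3, ∫⁻ l, ∫⁻ s in S, bb J1 J2 a1 a2 k1 k2 r3 l s ^ 2 ∂volume ∂μ
      = ∫⁻ p, bb J1 J2 a1 a2 k1 k2 p.1 p.2.1 p.2.2 ^ 2 ∂P :=
        triple_core1 _ _ _ (h.measurable_bb.pow_const 2)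
    _ ≤ ∫⁻ p, D ^ 2 * (∫⁻ r, (w1 r.1 * w2 r.2) ^ 2 * G (p, r) ∂m) ∂P := lintegral_mono hpt
    _ = D ^ 2 * ∫⁻ r, (∫⁻ p, (w1 r.1 * w2 r.2) ^ 2 * G (p, r) ∂P) ∂m := by
        rw [lintegral_const_mul _ mWG.lintegral_prod_right',
          lintegral_lintegral_swap (f := fun p (r : ℝ × ℝ) => (w1 r.1 * w2 r.2) ^ 2 * G (p, r))
            mWG.aemeasurable]
    _ ≤ D ^ 2 * ∫⁻ r : ℝ × ℝ, C * ((w1 r.1 ^ 2 * ∫⁻ y, a1 (r.1, y) ^ 2 ∂ν1) *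
          (w2 r.2 ^ 2 * ∫⁻ y, a2 (r.2, y) ^ 2 ∂ν2)) ∂m := by
        refine mul_le_mul' le_rfl (lintegral_mono_ae ?_)
        filter_upwards [hae] with r hr
        have mGr : Measurable fun p : ℝ × L × ℝ => G (p, r) := mG.comp measurable_prodMk_right
        rw [lintegral_const_mul _ mGr, hP, ← triple_core1 _ _ _ mGr]
        have := hN r.1 hr.1 r.2 hr.2 (fun y => a1 (r.1, y) ^ 2) (fun y => a2 (r.2, y) ^ 2)
          (by fun_prop) (by fun_prop)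
        refine (mul_le_mul' le_rfl this).trans_eq ?_
        ring
    _ = D ^ 2 * C * (WN ν1 J1 w1 a1 * WN ν2 J2 w2 a2) := by
        have mN : Measurable fun r : ℝ × ℝ => (w1 r.1 ^ 2 * ∫⁻ y, a1 (r.1, y) ^ 2 ∂ν1) *
            (w2 r.2 ^ 2 * ∫⁻ y, a2 (r.2, y) ^ 2 ∂ν2) :=
          (mN1.comp measurable_fst).mul (mN2.comp measurable_snd)
        rw [lintegral_const_mul _ mN, hm,
          lintegral_prod_mul mN1.aemeasurable mN2.aemeasurable, mul_assoc]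
        rfl

end Pool.Agent.Lib.MP_a52643_an.H60
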