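import Pool.Agent.Lib.MP_a52643_an.H60Core1

open MeasureTheory Set Filter Topology Metric
open scoped ENNReal NNReal ContDiff Laplacian FourierTransform Real

noncomputable section

namespace Pool.Agent.Lib.MP_a52643_an.H60

variable {L X1 X2 : Type} [MeasurableSpace L] [MeasurableSpace X1] [MeasurableSpace X2]
  {μ : Measure L} {ν1 : Measure X1} {ν2 : Measure X2} [SFinite μ] [SFinite ν1] [SFinite ν2]
  {S J1 J2 J3 : Set ℝ} {w1 w2 w3 : ℝ → ℝ≥0∞} {D : ℝ≥0∞}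
  {a1 : ℝ × X1 → ℝ≥0∞} {a2 : ℝ × X2 → ℝ≥0∞} {k1 : R3 × L × ℝ → X1} {k2 : R3 × L × ℝ → X2}

theorem measurable_far (τ : ℝ) : Measurable (far τ) :=
  measurable_one.indicator (measurableSet_le measurable_const measurable_id.abs)

theorem far_mul_c2 (τ t : ℝ) : far τ t * far τ t = far τ t := by
  unfold far
  by_cases h : t ∈ {t : ℝ | τ ≤ |t|} <;> simp [h]

theorem sqrt_sq_c2 (x : ℝ≥0∞) : (x ^ (1 / 2 : ℝ)) ^ 2 = x := by
  rw [← ENNReal.rpow_natCast, ← ENNReal.rpow_mul]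
  norm_num

theorem cs_c2 {α : Type} [MeasurableSpace α] (m : Measure α) {f g : α → ℝ≥0∞} (hf : Measurable f)
    (hg : Measurable g) :
    (∫⁻ x, f x * g x ∂m) ^ 2 ≤ (∫⁻ x, f x ^ 2 ∂m) * ∫⁻ x, g x ^ 2 ∂m := by
  have h := ENNReal.lintegral_mul_le_Lp_mul_Lq m Real.HolderConjugate.two_two hf.aemeasurable
    hg.aemeasurable
  simp only [Pi.mul_apply, ENNReal.rpow_two] at h
  refine (pow_le_pow_left' h 2).trans ?_
  rw [mul_pow, sqrt_sq_c2, sqrt_sq_c2]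

theorem wt_c2 {X : Type} [MeasurableSpace X] (ν : Measure X) [SFinite ν] {J : Set ℝ}
    {w : ℝ → ℝ≥0∞} {a : ℝ × X → ℝ≥0∞} {D : ℝ≥0∞} (mw : Measurable w) (one : ∀ r, 1 ≤ w r)
    (top : ∀ r, w r ≠ ⊤) (hD : ∫⁻ r in J, (w r ^ 2)⁻¹ ≤ D) (ma : Measurable a) :
    (∫⁻ r in J, (∫⁻ y, a (r, y) ^ 2 ∂ν) ^ (1 / 2 : ℝ)) ^ 2 ≤ D * WN ν J w a := by
  have mn : Measurable fun r => (∫⁻ y, a (r, y) ^ 2 ∂ν) ^ (1 / 2 : ℝ) :=
    (Measurable.lintegral_prod_right' (ma.pow_const 2)).pow_const _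
  have h := cs_c2 (volume.restrict J) mw.inv (mw.mul mn)
  have e : ∀ r, (w r)⁻¹ * (w r * (∫⁻ y, a (r, y) ^ 2 ∂ν) ^ (1 / 2 : ℝ))
      = (∫⁻ y, a (r, y) ^ 2 ∂ν) ^ (1 / 2 : ℝ) := by
    intro r
    rw [← mul_assoc, ENNReal.inv_mul_cancel (lt_of_lt_of_le one_pos (one r)).ne' (top r), one_mul]
  simp only [Pi.inv_apply, Pi.mul_apply, e, mul_pow, sqrt_sq_c2, ← ENNReal.inv_pow] at h
  exact h.trans (mul_le_mul_left hD _)

theorem iter_c2 (m : Measure ℝ) [SFinite m] {F : L × ℝ × ℝ → ℝ≥0∞} (hF : Measurable F) :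
    ∫⁻ q, F q ∂(μ.prod (m.prod m)) = ∫⁻ l, ∫⁻ s, ∫⁻ s', F (l, s, s') ∂m ∂m ∂μ := by
  rw [lintegral_prod _ hF.aemeasurable]
  refine lintegral_congr fun l => ?_
  exact lintegral_prod _ (hF.comp measurable_prodMk_left).aemeasurable

theorem Core.far_le (h : Core S J1 J2 J3 w1 w2 w3 D a1 a2 k1 k2) {C τ}
    (h1 : HF μ ν1 S J1 J2 J3 τ k1 C) (h2 : HF μ ν2 S J1 J2 J3 τ k2 C) {r3 : ℝ} (hr : r3 ∈ J3) :
    ∫⁻ l, ∫⁻ s in S, ∫⁻ s' in S, far τ (s' - s) *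
      (bb J1 J2 a1 a2 k1 k2 r3 l s * bb J1 J2 a1 a2 k1 k2 r3 l s') ∂volume ∂volume ∂μ
      ≤ D ^ 2 * C * (WN ν1 J1 w1 a1 * WN ν2 J2 w2 a2) := by
  have ma1 := h.ma1
  have ma2 := h.ma2
  have mk1 := h.mk1
  have mk2 := h.mk2
  have mfar := measurable_far τ
  obtain ⟨A1, hA1⟩ : ∃ A1 : (ℝ × ℝ) × L × ℝ → ℝ≥0∞,
      A1 = fun p => a1 (p.1.1, k1 ((p.1.1, p.1.2, r3), p.2)) := ⟨_, rfl⟩
  obtain ⟨A2, hA2⟩ : ∃ A2 : (ℝ × ℝ) × L × ℝ → ℝ≥0∞,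
      A2 = fun p => a2 (p.1.2, k2 ((p.1.1, p.1.2, r3), p.2)) := ⟨_, rfl⟩
  have mA1 : Measurable A1 := by
    rw [hA1]
    fun_prop
  have mA2 : Measurable A2 := by
    rw [hA2]
    fun_prop
  obtain ⟨n1, hn1⟩ : ∃ n1 : ℝ → ℝ≥0∞,
      n1 = fun r => (∫⁻ y, a1 (r, y) ^ 2 ∂ν1) ^ (1 / 2 : ℝ) := ⟨_, rfl⟩
  obtain ⟨n2, hn2⟩ : ∃ n2 : ℝ → ℝ≥0∞,
      n2 = fun r => (∫⁻ y, a2 (r, y) ^ 2 ∂ν2) ^ (1 / 2 : ℝ) := ⟨_, rfl⟩
  have mn1 : Measurable n1 :=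
    hn1 ▸ (Measurable.lintegral_prod_right' (ma1.pow_const 2)).pow_const _
  have mn2 : Measurable n2 :=
    hn2 ▸ (Measurable.lintegral_prod_right' (ma2.pow_const 2)).pow_const _
  have hbb : ∀ l s, bb J1 J2 a1 a2 k1 k2 r3 l s = ∫⁻ R, A1 (R, l, s) * A2 (R, l, s)
      ∂((volume.restrict J1).prod (volume.restrict J2)) := by
    intro l s
    rw [lintegral_prod _ (by fun_prop), hA1, hA2]
    rfl
  have mbb : Measurable fun p : L × ℝ => bb J1 J2 a1 a2 k1 k2 r3 p.1 p.2 :=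
    h.measurable_bb.comp (measurable_prodMk_left (x := r3))
  have step1 : ∀ q : L × ℝ × ℝ, far τ (q.2.2 - q.2.1) *
      (bb J1 J2 a1 a2 k1 k2 r3 q.1 q.2.1 * bb J1 J2 a1 a2 k1 k2 r3 q.1 q.2.2)
      = ∫⁻ R : (ℝ × ℝ) × ℝ × ℝ, far τ (q.2.2 - q.2.1) *
        ((A1 (R.1, q.1, q.2.1) * A2 (R.1, q.1, q.2.1)) *
          (A1 (R.2, q.1, q.2.2) * A2 (R.2, q.1, q.2.2)))
        ∂(((volume.restrict J1).prod (volume.restrict J2)).prod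
          ((volume.restrict J1).prod (volume.restrict J2))) := by
    intro q
    rw [lintegral_const_mul _ (by fun_prop), hbb, hbb]
    congr 1
    exact (lintegral_prod_mul (f := fun R => A1 (R, q.1, q.2.1) * A2 (R, q.1, q.2.1))
      (g := fun R => A1 (R, q.1, q.2.2) * A2 (R, q.1, q.2.2)) (by fun_prop) (by fun_prop)).symm
  have step2 : ∀ R : (ℝ × ℝ) × ℝ × ℝ, R ∈ (J1 ×ˢ J2) ×ˢ (J1 ×ˢ J2) →
      ∫⁻ q : L × ℝ × ℝ, far τ (q.2.2 - q.2.1) *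
        ((A1 (R.1, q.1, q.2.1) * A2 (R.1, q.1, q.2.1)) *
          (A1 (R.2, q.1, q.2.2) * A2 (R.2, q.1, q.2.2)))
        ∂(μ.prod ((volume.restrict S).prod (volume.restrict S)))
      ≤ C * ((n1 R.1.1 * n2 R.1.2) * (n1 R.2.1 * n2 R.2.2)) := by
    intro R hR
    have c := cs_c2 (μ.prod ((volume.restrict S).prod (volume.restrict S)))
      (f := fun q : L × ℝ × ℝ =>
        far τ (q.2.2 - q.2.1) * (A1 (R.1, q.1, q.2.1) * A1 (R.2, q.1, q.2.2)))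
      (g := fun q : L × ℝ × ℝ =>
        far τ (q.2.2 - q.2.1) * (A2 (R.1, q.1, q.2.1) * A2 (R.2, q.1, q.2.2)))
      (by fun_prop) (by fun_prop)
    have e1 : ∀ t : ℝ, ∀ x y z u : ℝ≥0∞, far τ t * (x * z) * (far τ t * (y * u))
        = far τ t * (x * y * (z * u)) := by
      intro t x y z u
      rw [mul_mul_mul_comm, far_mul_c2, mul_mul_mul_comm]
    have e2 : ∀ t : ℝ, ∀ x y : ℝ≥0∞, (far τ t * (x * y)) ^ 2 = far τ t * (x ^ 2 * y ^ 2) := by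
      intro t x y
      rw [mul_pow, mul_pow, sq (far τ t), far_mul_c2]
    simp only [e1, e2] at c
    have b1 := h1 R.1.1 hR.1.1 R.1.2 hR.1.2 R.2.1 hR.2.1 R.2.2 hR.2.2 r3 hr
      (fun y => a1 (R.1.1, y) ^ 2) (fun y => a1 (R.2.1, y) ^ 2) (by fun_prop) (by fun_prop)
    have b2 := h2 R.1.1 hR.1.1 R.1.2 hR.1.2 R.2.1 hR.2.1 R.2.2 hR.2.2 r3 hr
      (fun y => a2 (R.1.2, y) ^ 2) (fun y => a2 (R.2.2, y) ^ 2) (by fun_prop) (by fun_prop)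
    have d1 : ∫⁻ q : L × ℝ × ℝ, far τ (q.2.2 - q.2.1) *
        (A1 (R.1, q.1, q.2.1) ^ 2 * A1 (R.2, q.1, q.2.2) ^ 2)
        ∂(μ.prod ((volume.restrict S).prod (volume.restrict S)))
        ≤ C * (n1 R.1.1 ^ 2 * n1 R.2.1 ^ 2) := by
      rw [iter_c2 _ (by fun_prop), hA1, hn1]
      simp only [sqrt_sq_c2]
      exact b1
    have d2 : ∫⁻ q : L × ℝ × ℝ, far τ (q.2.2 - q.2.1) *
        (A2 (R.1, q.1, q.2.1) ^ 2 * A2 (R.2, q.1, q.2.2) ^ 2)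
        ∂(μ.prod ((volume.restrict S).prod (volume.restrict S)))
        ≤ C * (n2 R.1.2 ^ 2 * n2 R.2.2 ^ 2) := by
      rw [iter_c2 _ (by fun_prop), hA2, hn2]
      simp only [sqrt_sq_c2]
      exact b2
    refine (ENNReal.pow_le_pow_left_iff two_ne_zero).1 ((c.trans (mul_le_mul' d1 d2)).trans_eq ?_)
    ring
  rw [← iter_c2 (F := fun q : L × ℝ × ℝ => far τ (q.2.2 - q.2.1) *
      (bb J1 J2 a1 a2 k1 k2 r3 q.1 q.2.1 * bb J1 J2 a1 a2 k1 k2 r3 q.1 q.2.2)) _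
    ((mfar.comp (by fun_prop)).mul ((mbb.comp (f := fun q : L × ℝ × ℝ => (q.1, q.2.1))
      (by fun_prop)).mul (mbb.comp (f := fun q : L × ℝ × ℝ => (q.1, q.2.2)) (by fun_prop))))]
  simp only [step1]
  rw [lintegral_lintegral_swap (by fun_prop)]
  have hae : ∀ᵐ R ∂(((volume.restrict J1).prod (volume.restrict J2)).prod
      ((volume.restrict J1).prod (volume.restrict J2))), R ∈ (J1 ×ˢ J2) ×ˢ (J1 ×ˢ J2) := by
    rw [Measure.prod_restrict, Measure.prod_restrict]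
    exact ae_restrict_mem ((h.mJ1.prod h.mJ2).prod (h.mJ1.prod h.mJ2))
  refine (lintegral_mono_ae (hae.mono step2)).trans ?_
  rw [lintegral_const_mul _ (by fun_prop),
    lintegral_prod_mul (f := fun R : ℝ × ℝ => n1 R.1 * n2 R.2)
      (g := fun R : ℝ × ℝ => n1 R.1 * n2 R.2) (by fun_prop) (by fun_prop),
    lintegral_prod_mul mn1.aemeasurable mn2.aemeasurable]
  have c1 := wt_c2 ν1 h.mw1 h.one1 h.top1 h.hD1 ma1
  have c2 := wt_c2 ν2 h.mw2 h.one2 h.top2 h.hD2 ma2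
  rw [hn1, hn2]
  refine le_of_eq_of_le ?_ ((mul_le_mul_right (mul_le_mul' c1 c2) C).trans_eq ?_) <;> ring

end Pool.Agent.Lib.MP_a52643_an.H60
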