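import Pool.Agent.Lib.MP_a52643_an.H60Defs
import Pool.Agent.Lib.MP_a52643_an.Fund

open MeasureTheory Set Filter Topology Metric UpperHalfPlane
open scoped ENNReal NNReal ContDiff Laplacian MatrixGroups

noncomputable section

namespace Pool.Agent.Lib.MP_a52643_an.H60

variable {Γ : Type} [Group Γ] [Countable Γ] [MulAction Γ ℍ] {l : Γ → SL2} {D : Set ℍ}

lemma coe_of_cut {w : ℂ} (hw : w ∈ UH) : ((ofComplex w : ℍ) : ℂ) = w := by
  rw [ofComplex_apply_of_im_pos hw]

lemma cont_of_cut {w : ℂ} (hw : w ∈ UH) : ContinuousAt (fun w : ℂ => ofComplex w) w := by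
  refine isOpenEmbedding_coe.isInducing.continuousAt_iff.2 ?_
  exact continuousAt_id.congr (eventuallyEq_coe_comp_ofComplex hw).symm

lemma moeb_cut (g : SL2) {w : ℂ} (hw : w ∈ UH) :
    ContDiffAt ℝ ∞ (fun w : ℂ => ((g • ofComplex w : ℍ) : ℂ)) w := by
  have h0 : (ec g : ℂ) * w + ed g ≠ 0 := by
    intro h
    have h1 := congrArg Complex.im h
    have h2 := congrArg Complex.re h
    simp only [Complex.add_im, Complex.mul_im, Complex.ofReal_re, Complex.ofReal_im, zero_mul,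
      add_zero, Complex.zero_im, Complex.add_re, Complex.mul_re, sub_zero, Complex.zero_re] at h1 h2
    have hw' : 0 < w.im := hw
    have h3 : ec g = 0 := (mul_eq_zero.1 h1).resolve_right hw'.ne'
    have h4 : ed g = 0 := by rw [h3] at h2; simpa using h2
    have h5 := det_eq g
    rw [h3, h4] at h5
    simp at h5
  have h1 : ContDiffAt ℝ ∞ (fun w : ℂ => ((ea g : ℂ) * w + eb g) / ((ec g : ℂ) * w + ed g)) w := by
    simp only [div_eq_mul_inv]
    refine ContDiffAt.mul (by fun_prop) (ContDiffAt.inv (by fun_prop) h0)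
  refine h1.congr_of_eventuallyEq ?_
  filter_upwards [isOpen_UH.mem_nhds hw] with w' hw'
  rw [coe_act, coe_of_cut hw']

/-- near a point only finitely many translates meet a compact set -/
lemma fin_cut (hD : FD l D) {K : Set ℍ} (hK : IsCompact K) (z : ℍ) :
    ∃ F : Finset Γ, ∀ z' ∈ ball z 1, ∀ γ : Γ, γ • z' ∈ K → γ ∈ F := by
  obtain ⟨R, hR⟩ := (hK.union (isCompact_closedBall z 1)).isBounded.subset_closedBall I
  refine ⟨(hD.finite R).toFinset, fun z' hz' γ hγ => ?_⟩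
  rw [Finite.mem_toFinset]
  exact ⟨z', hR (Or.inr (ball_subset_closedBall hz')), hR (Or.inl hγ)⟩

/-- An invariant smooth function with compact support modulo the group is the sum of the
translates of a smooth compactly supported function. -/
theorem exists_cut (hD : FD l D) {ψ : ℍ → ℝ} (hi : ∀ (γ : Γ) z, ψ (γ • z) = ψ z)
    (hs : ContDiffOn ℝ ∞ (fun w : ℂ => ψ (ofComplex w)) UH) {K : Set ℍ} (hK : IsCompact K)
    (hψ : ∀ z, ψ z ≠ 0 → ∃ γ : Γ, γ • z ∈ K) :
    ∃ ψ0 : ℂ → ℝ, ContDiff ℝ ∞ ψ0 ∧ HasCompactSupport ψ0 ∧ tsupport ψ0 ⊆ UH ∧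
      (∀ w ∈ tsupport ψ0, ofComplex w ∈ tsupport ψ) ∧
      ∀ z : ℍ, ∑' γ : Γ, ψ0 (γ • z : ℍ) = ψ z := by
  have hK' : IsCompact (((↑) : ℍ → ℂ) '' K) := hK.image continuous_coe
  obtain ⟨O, hO, hKO, hOU, hOc⟩ := exists_open_between_and_isCompact_closure hK' isOpen_UH
    (by rintro _ ⟨z, -, rfl⟩; exact z.im_pos)
  obtain ⟨χ, hχ, cχ, rχ⟩ := hO.exists_contDiff_support_eq (n := ⊤)
  have χ0 : ∀ w, 0 ≤ χ w := fun w => (rχ ⟨w, rfl⟩).1
  have tχ : tsupport χ = closure O := by rw [tsupport, hχ]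
  have hK2 : IsCompact (((↑) : ℍ → ℂ) ⁻¹' closure O) :=
    (isOpenEmbedding_coe.isInducing.isCompact_preimage_iff
      fun w hw => ⟨ofComplex w, coe_of_cut (hOU hw)⟩).2 hOc
  set S : ℍ → ℝ := fun z => ∑' γ : Γ, χ (γ • z : ℍ) with hS
  have hloc : ∀ z : ℍ, ∃ F : Finset Γ, ∀ z' ∈ ball z 1, ∀ γ ∉ F, χ (γ • z' : ℍ) = 0 := by
    intro z
    obtain ⟨F, hF⟩ := fin_cut hD hK2 z
    refine ⟨F, fun z' hz' γ hγ => ?_⟩
    by_contra h
    exact hγ (hF z' hz' γ (subset_closure (hχ ▸ h : ((γ • z' : ℍ) : ℂ) ∈ O)))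
  have Spos : ∀ (z : ℍ) (γ : Γ), γ • z ∈ K → 0 < S z := by
    intro z γ hγ
    obtain ⟨F, hF⟩ := hloc z
    have h1 : ((γ • z : ℍ) : ℂ) ∈ Function.support χ := hχ ▸ hKO ⟨_, hγ, rfl⟩
    exact (summable_of_ne_finset_zero (hF z (mem_ball_self one_pos))).tsum_pos
      (fun δ => χ0 _) γ (lt_of_le_of_ne (χ0 _) (Ne.symm h1))
  have Sinv : ∀ (δ : Γ) (z : ℍ), S (δ • z) = S z := by
    intro δ z
    simp only [hS, smul_smul]
    exact (Equiv.mulRight δ).tsum_eq fun γ : Γ => χ (γ • z : ℍ)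
  have Ssm : ∀ w ∈ UH, ContDiffAt ℝ ∞ (fun w : ℂ => S (ofComplex w)) w := by
    intro w hw
    obtain ⟨F, hF⟩ := hloc (ofComplex w)
    have h1 : ContDiffAt ℝ ∞ (fun w : ℂ => ∑ γ ∈ F, χ ((l γ • ofComplex w : ℍ) : ℂ)) w :=
      ContDiffAt.sum fun γ _ => cχ.contDiffAt.comp w (moeb_cut (l γ) hw)
    refine h1.congr_of_eventuallyEq ?_
    filter_upwards [(cont_of_cut hw).eventually (ball_mem_nhds _ one_pos)] with w' hw'
    simp only [hS]
    rw [tsum_eq_sum (hF _ hw')]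
    simp only [hD.act]
  have hsub : tsupport (fun w : ℂ => ψ (ofComplex w) * χ w / S (ofComplex w)) ⊆ closure O := by
    rw [← tχ]
    refine closure_mono fun w hw h => hw ?_
    simp only [h, mul_zero, zero_div]
  have hz : ∀ w ∈ UH, ψ =ᶠ[𝓝 (ofComplex w)] 0 →
      (fun w : ℂ => ψ (ofComplex w) * χ w / S (ofComplex w)) =ᶠ[𝓝 w] 0 := by
    intro w hw h
    filter_upwards [(cont_of_cut hw).eventually h] with w' hw'
    simp only [hw', Pi.zero_apply, zero_mul, zero_div]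
  refine ⟨fun w => ψ (ofComplex w) * χ w / S (ofComplex w), ?_,
    hOc.of_isClosed_subset (isClosed_tsupport _) hsub, hsub.trans hOU, fun w hw => ?_,
    fun z => ?_⟩
  · refine contDiff_iff_contDiffAt.2 fun w => ?_
    by_cases hw : w ∈ tsupport (fun w : ℂ => ψ (ofComplex w) * χ w / S (ofComplex w))
    swap
    · exact (contDiffAt_const (c := (0 : ℝ))).congr_of_eventuallyEq
        (notMem_tsupport_iff_eventuallyEq.1 hw)
    have hU : w ∈ UH := hOU (hsub hw)
    by_cases h0 : S (ofComplex w) = 0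
    · refine (contDiffAt_const (c := (0 : ℝ))).congr_of_eventuallyEq (hz w hU ?_)
      obtain ⟨F, hF⟩ := fin_cut hD hK (ofComplex w)
      have h1 : ∀ γ ∈ F, ∀ᶠ z in 𝓝 (ofComplex w), γ • z ∉ K := by
        intro γ _
        have h2 : Continuous fun z : ℍ => γ • z := by
          simp only [hD.act]; exact continuous_const_smul _
        exact h2.continuousAt.eventually
          (hK.isClosed.isOpen_compl.mem_nhds fun h => (Spos _ γ h).ne' h0)
      filter_upwards [(eventually_all_finset F).2 h1, ball_mem_nhds (ofComplex w) one_pos]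
        with z h2 h3
      by_contra h4
      obtain ⟨γ, hγ⟩ := hψ z h4
      exact h2 γ (hF z h3 γ hγ) hγ
    · exact ((hs.contDiffAt (isOpen_UH.mem_nhds hU)).mul cχ.contDiffAt).div (Ssm w hU) h0
  · by_contra h
    exact notMem_tsupport_iff_eventuallyEq.2
      (hz w (hOU (hsub hw)) (notMem_tsupport_iff_eventuallyEq.1 h)) hw
  · simp only [ofComplex_apply, hi, Sinv]
    rw [tsum_div_const, tsum_mul_left]
    by_cases h : ψ z = 0
    · simp [h]
    · obtain ⟨γ, hγ⟩ := hψ z h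
      exact mul_div_cancel_right₀ _ (Spos z γ hγ).ne'

end Pool.Agent.Lib.MP_a52643_an.H60
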