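import Mathlib

/-!
Definitions for the trilinear estimate for Laplace eigenfunctions on surfaces of non-zero
curvature.  The metric is `exp (2 u) |dx|^2` on a piece of the plane.
-/

open MeasureTheory Set Filter Topology Metric
open scoped ENNReal NNReal ContDiff Laplacian FourierTransform Real

noncomputable section

namespace Pool.Agent.Lib.MP_a52643_an.H60

/-- Unit tangent bundle of the plane: position and angle. -/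
abbrev V : Type := ℂ × ℝ

abbrev R2 : Type := ℝ × ℝ

/-- Flow box coordinates: ray and time. -/
abbrev P3 : Type := R2 × ℝ

abbrev R3 : Type := ℝ × ℝ × ℝ

def ex (t : ℝ) : ℂ := Complex.exp (t * Complex.I)

/-- The geodesic vector field, parametrised by Euclidean arc length. -/
def Yf (u : ℂ → ℝ) (v : V) : V := (ex v.2, fderiv ℝ u v.1 (Complex.I * ex v.2))

def rot (α : ℝ) (v : V) : V := (v.1, v.2 + α)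

/-- A flow box for `Yf u` around `v0`. -/
structure Box (u : ℂ → ℝ) (v0 : V) (L : ℝ) (X : P3 → V) (c : V → P3) : Prop where
  pos : 0 < L
  cX : ContDiff ℝ 2 X
  cc : ContDiff ℝ 2 c
  zero : X 0 = v0
  left : ∀ p ∈ ball (0 : P3) L, c (X p) = p
  right : ∀ v ∈ ball v0 L, X (c v) = v
  flow : ∀ p ∈ ball (0 : P3) L, HasDerivAt (fun s => X (p.1, s)) (Yf u (X p)) p.2

/-- Strict triangle inequalities. -/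
def Tri (a : R3) : Prop := a.1 < a.2.1 + a.2.2 ∧ a.2.1 < a.1 + a.2.2 ∧ a.2.2 < a.1 + a.2.1

/-- Angle from the third to the first side vector of a triangle with side lengths `r`. -/
def al (r : R3) : ℝ := Real.arccos ((r.2.1 ^ 2 - r.1 ^ 2 - r.2.2 ^ 2) / (2 * r.1 * r.2.2))

/-- Angle from the second to the third side vector of a triangle with side lengths `r`. -/
def be (r : R3) : ℝ := Real.arccos ((r.1 ^ 2 - r.2.1 ^ 2 - r.2.2 ^ 2) / (2 * r.2.1 * r.2.2))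

/-- Hypotheses on a pair of angle functions. -/
structure Ang (a0 : R3) (A B : R3 → ℝ) : Prop where
  cA : ContDiffAt ℝ 1 A a0
  cB : ContDiffAt ℝ 1 B a0
  mA : Measurable A
  mB : Measurable B
  sA : Real.sin (A a0) ≠ 0
  sB : Real.sin (B a0) ≠ 0
  sAB : Real.sin (A a0 - B a0) ≠ 0
  dAB : fderiv ℝ A a0 (0, 0, 1) ≠ fderiv ℝ B a0 (0, 0, 1)

def far (τ t : ℝ) : ℝ≥0∞ := {t : ℝ | τ ≤ |t|}.indicator 1 t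

def wt (δ a r : ℝ) : ℝ≥0∞ := ENNReal.ofReal (1 + |r - a| / δ)

def JJ (a η : ℝ) : Set ℝ := Ioo (a - η) (a + η)

def Ann (a η : ℝ) : Set ℂ := {z | ‖z‖ ∈ JJ a η}

/-- `G` changes along geodesics by at most the integral of `Q`. -/
def Trans (u : ℂ → ℝ) (x0 : ℂ) (R : ℝ) (J : Set ℝ) (G Q : ℝ × V → ℝ≥0∞) : Prop :=
  ∀ r ∈ J, ∀ γ : ℝ → V, ∀ e : ℝ, 0 < e →
    (∀ t ∈ Ioo (-e) e, HasDerivAt γ (Yf u (γ t)) t ∧ (γ t).1 ∈ ball x0 R) →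
    ∀ s ∈ Ioo (-e) e, ∀ s' ∈ Ioo (-e) e,
      G (r, γ s) ≤ G (r, γ s') + ∫⁻ t in Ioo (-e) e, Q (r, γ t)

def MM (δ a η : ℝ) (x0 : ℂ) (R θ : ℝ) (G Q : ℝ × V → ℝ≥0∞) : ℝ≥0∞ :=
  ∫⁻ r in JJ a η, wt δ a r ^ 2 *
    ∫⁻ v in ball x0 R ×ˢ Ioo (θ - 1) (θ + 1), (G (r, v) ^ 2 + Q (r, v) ^ 2)

def pol (g : ℂ × ℂ → ℝ≥0∞) (p : ℝ × V) : ℝ≥0∞ := g (p.2.1, p.1 * ex p.2.2)

def MC (δ a η : ℝ) (x0 : ℂ) (R : ℝ) (g q : ℂ × ℂ → ℝ≥0∞) : ℝ≥0∞ :=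
  ∫⁻ x in ball x0 R, ∫⁻ z in Ann a η, wt δ a ‖z‖ ^ 2 * (g (x, z) ^ 2 + q (x, z) ^ 2)

/-- The resonant region, in the variables (first vector, third vector). -/
def Res (a : R3) (η : ℝ) : Set (ℂ × ℂ) :=
  {p | p.1 ∈ Ann a.1 η ∧ -p.1 - p.2 ∈ Ann a.2.1 η ∧ p.2 ∈ Ann a.2.2 η}

/-- Data of the measure theoretic core inequality. -/
structure Core {L X1 X2 : Type} [MeasurableSpace L] [MeasurableSpace X1] [MeasurableSpace X2]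
    (S J1 J2 J3 : Set ℝ) (w1 w2 w3 : ℝ → ℝ≥0∞) (D : ℝ≥0∞)
    (a1 : ℝ × X1 → ℝ≥0∞) (a2 : ℝ × X2 → ℝ≥0∞)
    (k1 : R3 × L × ℝ → X1) (k2 : R3 × L × ℝ → X2) : Prop where
  mS : MeasurableSet S
  mJ1 : MeasurableSet J1
  mJ2 : MeasurableSet J2
  mJ3 : MeasurableSet J3
  mw1 : Measurable w1
  mw2 : Measurable w2
  mw3 : Measurable w3
  one1 : ∀ r, 1 ≤ w1 r
  one2 : ∀ r, 1 ≤ w2 r
  one3 : ∀ r, 1 ≤ w3 r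
  top1 : ∀ r, w1 r ≠ ⊤
  top2 : ∀ r, w2 r ≠ ⊤
  top3 : ∀ r, w3 r ≠ ⊤
  hD1 : ∫⁻ r in J1, (w1 r ^ 2)⁻¹ ≤ D
  hD2 : ∫⁻ r in J2, (w2 r ^ 2)⁻¹ ≤ D
  hD3 : ∫⁻ r in J3, (w3 r ^ 2)⁻¹ ≤ D
  ma1 : Measurable a1
  ma2 : Measurable a2
  mk1 : Measurable k1
  mk2 : Measurable k2

/-- The bilinear expression of the core inequality. -/
def bb {L X1 X2 : Type} (J1 J2 : Set ℝ) (a1 : ℝ × X1 → ℝ≥0∞) (a2 : ℝ × X2 → ℝ≥0∞)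
    (k1 : R3 × L × ℝ → X1) (k2 : R3 × L × ℝ → X2) (r3 : ℝ) (l : L) (s : ℝ) : ℝ≥0∞ :=
  ∫⁻ r1 in J1, ∫⁻ r2 in J2,
    a1 (r1, k1 ((r1, r2, r3), l, s)) * a2 (r2, k2 ((r1, r2, r3), l, s))

/-- Weighted square norm. -/
def WN {X : Type} [MeasurableSpace X] (ν : Measure X) (J : Set ℝ) (w : ℝ → ℝ≥0∞)
    (a : ℝ × X → ℝ≥0∞) : ℝ≥0∞ :=
  ∫⁻ r in J, w r ^ 2 * ∫⁻ y, a (r, y) ^ 2 ∂ν

def HN {L X1 X2 : Type} [MeasurableSpace L] [MeasurableSpace X1] [MeasurableSpace X2]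
    (μ : Measure L) (ν1 : Measure X1) (ν2 : Measure X2) (S J1 J2 J3 : Set ℝ)
    (k1 : R3 × L × ℝ → X1) (k2 : R3 × L × ℝ → X2) (C : ℝ≥0∞) : Prop :=
  ∀ r1 ∈ J1, ∀ r2 ∈ J2, ∀ (a : X1 → ℝ≥0∞) (b : X2 → ℝ≥0∞), Measurable a → Measurable b →
    ∫⁻ r3 in J3, ∫⁻ l, ∫⁻ s in S,
      a (k1 ((r1, r2, r3), l, s)) * b (k2 ((r1, r2, r3), l, s)) ∂volume ∂μ
      ≤ C * ((∫⁻ y, a y ∂ν1) * ∫⁻ y, b y ∂ν2)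

def HF {L X : Type} [MeasurableSpace L] [MeasurableSpace X]
    (μ : Measure L) (ν : Measure X) (S J1 J2 J3 : Set ℝ) (τ : ℝ)
    (k : R3 × L × ℝ → X) (C : ℝ≥0∞) : Prop :=
  ∀ r1 ∈ J1, ∀ r2 ∈ J2, ∀ r1' ∈ J1, ∀ r2' ∈ J2, ∀ r3 ∈ J3,
    ∀ a b : X → ℝ≥0∞, Measurable a → Measurable b →
    ∫⁻ l, ∫⁻ s in S, ∫⁻ s' in S, far τ (s' - s) *
      (a (k ((r1, r2, r3), l, s)) * b (k ((r1', r2', r3), l, s'))) ∂volume ∂volume ∂μ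
      ≤ C * ((∫⁻ y, a y ∂ν) * ∫⁻ y, b y ∂ν)

/-! ### Windowed Fourier transform -/

def FT (δ : ℝ) (f : ℂ → ℝ) (w : ℂ → ℂ) (ξ : ℂ) : ℂ :=
  ((δ⁻¹ : ℝ) : ℂ) * 𝓕 (fun Y : ℂ => (f Y : ℂ) * w Y) (δ⁻¹ • ξ)

def Bnd (k : ℕ) (M : ℝ) (f : ℂ → ℂ) : Prop :=
  ∀ j ≤ k, ∀ Y ∈ ball (0 : ℂ) 1, ‖iteratedFDeriv ℝ j f Y‖ ≤ M

/-- Admissible windows. -/
structure Adm (k : ℕ) (M : ℝ) (w : ℂ → ℂ) : Prop where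
  sm : ContDiff ℝ ∞ w
  supp : tsupport w ⊆ ball 0 1
  bd : Bnd k M w

def dd (e : ℂ) (w : ℂ → ℂ) (Y : ℂ) : ℂ := fderiv ℝ w Y e

def cx (n : ℂ → ℝ) (Y : ℂ) : ℂ := n Y

def m2 (f : ℂ → ℝ) : ℝ≥0∞ := ∫⁻ Y in ball (0 : ℂ) 1, ‖f Y‖ₑ ^ 2

def mu (δ ρ0 : ℝ) (ξ : ℂ) : ℝ := |‖ξ‖ ^ 2 - ρ0| / (δ * (1 + ‖ξ‖))

/-- The rescaled Helmholtz equation on the unit ball. -/
structure Hel (δ ρ0 : ℝ) (n f : ℂ → ℝ) : Prop where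
  sf : ContDiff ℝ ∞ f
  sn : ContDiff ℝ ∞ n
  eq : ∀ Y ∈ ball (0 : ℂ) 1, δ ^ 2 * Δ f Y = -(4 * π ^ 2 * (ρ0 + δ * n Y)) * f Y

def sc (δ : ℝ) (φ : ℂ → ℝ) (x Y : ℂ) : ℝ := φ (x + δ • Y)

def rho (u : ℂ → ℝ) (a : ℝ) (x : ℂ) : ℝ := a ^ 2 * Real.exp (2 * u x)

def n1 (δ : ℝ) (ρ : ℂ → ℝ) (x Y : ℂ) : ℝ := (ρ (x + δ • Y) - ρ x) / δ

def n2 (δ : ℝ) (ρ : ℂ → ℝ) (x Y : ℂ) : ℝ :=
  (ρ (x + δ • Y) - ρ x - δ * fderiv ℝ ρ x Y) / δ ^ 2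

def gr (u : ℂ → ℝ) (x : ℂ) : ℂ := (fderiv ℝ u x 1 : ℝ) + (fderiv ℝ u x Complex.I : ℝ) * Complex.I

/-- The window multiplied by a linear form. -/
def lw (e : ℂ) (w : ℂ → ℂ) (Y : ℂ) : ℂ := ((inner ℝ Y e : ℝ) : ℂ) * w Y

/-- Derivative of the transform in the direction `(xd, ξd)`. -/
def DF (δ : ℝ) (φ : ℂ → ℝ) (w : ℂ → ℂ) (x ξ xd ξd : ℂ) : ℂ :=
  FT δ (fun Y => fderiv ℝ φ (x + δ • Y) xd) w ξ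
    - 2 * π * Complex.I / δ * FT δ (sc δ φ x) (lw ξd w) ξ

def cF (δ ρ0 : ℝ) (ξ : ℂ) : ℝ := 2 * π * ‖ξ‖ / δ ^ 2 - π * (‖ξ‖ ^ 2 - ρ0) / (δ ^ 2 * ‖ξ‖)

/-- The error term of the transport equation. -/
def QF (δ : ℝ) (u : ℂ → ℝ) (a : ℝ) (φ : ℂ → ℝ) (w : ℂ → ℂ) (x ξ : ℂ) : ℂ :=
  DF δ φ w x ξ (‖ξ‖⁻¹ • ξ) (‖ξ‖ • gr u x)
    - Complex.I * cF δ (rho u a x) ξ * FT δ (sc δ φ x) w ξ

def gF (δ : ℝ) (u φ : ℂ → ℝ) (w : ℂ → ℂ) (p : ℂ × ℂ) : ℝ≥0∞ :=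
  ‖FT δ (sc δ φ p.1) w (Real.exp (u p.1) • p.2)‖ₑ

def qF (δ : ℝ) (u : ℂ → ℝ) (a : ℝ) (φ : ℂ → ℝ) (w : ℂ → ℂ) (p : ℂ × ℂ) : ℝ≥0∞ :=
  ‖QF δ u a φ w p.1 (Real.exp (u p.1) • p.2)‖ₑ

/-- The Helmholtz equation on a ball. -/
structure HelG (u : ℂ → ℝ) (a δ : ℝ) (x0 : ℂ) (R : ℝ) (φ : ℂ → ℝ) : Prop where
  sm : ContDiff ℝ ∞ φ
  eq : ∀ y ∈ ball x0 R, δ ^ 4 * Δ φ y = -(4 * π ^ 2 * rho u a y) * φ y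

def NN (s : Set ℂ) (φ : ℂ → ℝ) : ℝ≥0∞ := ∫⁻ y in s, ‖φ y‖ₑ ^ 2

/-- Uniform bounds for the coefficients. -/
structure Coef (k : ℕ) (M : ℝ) (u : ℂ → ℝ) (a : ℝ) : Prop where
  one : 1 ≤ M
  ha : M⁻¹ ≤ a
  ha' : a ≤ M
  lo : ∀ x, M⁻¹ ≤ Real.exp (u x)
  hi : ∀ x, Real.exp (u x) ≤ M
  gr : ∀ x, ‖gr u x‖ ≤ M
  b1 : ∀ δ ∈ Ioc (0 : ℝ) 1, ∀ x, Bnd k M (cx (n1 δ (rho u a) x))
  b2 : ∀ δ ∈ Ioc (0 : ℝ) 1, ∀ x, Bnd k M (cx (n2 δ (rho u a) x))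

/-- The basic window. -/
structure Win (q : ℂ → ℝ) : Prop where
  sm : ContDiff ℝ ∞ q
  supp : tsupport q ⊆ ball 0 1
  even : ∀ Y, q (-Y) = q Y
  zero : 0 < q 0
  nn : ∀ Y, 0 ≤ q Y
  one : ∫ Y, q Y ^ 3 = 1

/-- The trilinear integral over a set of pairs (first vector, third vector). -/
def T3 (s : Set (ℂ × ℂ)) (g1 g2 g3 : ℂ → ℝ≥0∞) : ℝ≥0∞ :=
  ∫⁻ z3, ∫⁻ z1, s.indicator 1 (z1, z3) * (g1 z1 * g2 (-z1 - z3) * g3 z3)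

end Pool.Agent.Lib.MP_a52643_an.H60
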