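import Pool.Agent.Lib.MP_a52643_an.H60Green

open MeasureTheory Set Filter Topology Metric
open scoped ENNReal NNReal ContDiff Laplacian FourierTransform Real

noncomputable section

namespace Pool.Agent.Lib.MP_a52643_an.H60

theorem measurable_mu (δ ρ0 : ℝ) : Measurable (mu δ ρ0) := by
  unfold mu
  fun_prop

theorem mu_nonneg_el {δ : ℝ} (hδ : 0 < δ) (ρ0 : ℝ) (ξ : ℂ) : 0 ≤ mu δ ρ0 ξ := by
  unfold mu
  positivity

theorem ofReal_mul_el {m : ℝ} (hm : 0 ≤ m) (z : ℂ) :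
    ENNReal.ofReal m * ‖z‖ₑ ^ 2 = ENNReal.ofReal (m * ‖z‖ ^ 2) := by
  rw [ENNReal.ofReal_mul hm, ENNReal.ofReal_pow (norm_nonneg z), ofReal_norm]

theorem step_el {k : ℕ} {B δ ρ0 : ℝ} {n f : ℂ → ℝ} {w : ℂ → ℂ} (hδ : 0 < δ) (hδ1 : δ ≤ 1)
    (h : Hel δ ρ0 n f) (hw : Adm k B w) (ξ : ℂ) :
    mu δ ρ0 ξ * ‖FT δ f w ξ‖ ≤ ‖FT δ f (dd 1 w) ξ‖ + ‖FT δ f (dd Complex.I w) ξ‖
      + ‖FT δ f (dd 1 (dd 1 w)) ξ‖ + ‖FT δ f (dd Complex.I (dd Complex.I w)) ξ‖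
      + ‖FT δ f (fun Y => cx n Y * w Y) ξ‖ := by
  have g := green hδ h hw ξ
  rw [FT_dd h.sf.continuous hw ξ ξ] at g
  set F := FT δ f w ξ
  set A := FT δ f (dd 1 w) ξ
  set A' := FT δ f (dd Complex.I w) ξ
  set D := FT δ f (dd 1 (dd 1 w)) ξ
  set D' := FT δ f (dd Complex.I (dd Complex.I w)) ξ
  set E := FT δ f (fun Y => cx n Y * w Y) ξ
  have hπ : (3 : ℝ) < π := Real.pi_gt_three
  have l : ‖(4 * π ^ 2 * ((‖ξ‖ ^ 2 - ρ0 : ℝ) : ℂ) * F : ℂ)‖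
      = 4 * π ^ 2 * (|‖ξ‖ ^ 2 - ρ0| * ‖F‖) := by
    rw [norm_mul, norm_mul, norm_mul, norm_pow, Complex.norm_real, Complex.norm_real,
      Real.norm_eq_abs, Real.norm_eq_abs, abs_of_pos Real.pi_pos]
    simp only [Complex.norm_ofNat]
    ring
  have r0 : ‖(ξ.re : ℂ) * A + (ξ.im : ℂ) * A'‖ ≤ ‖ξ‖ * (‖A‖ + ‖A'‖) := by
    refine (norm_add_le _ _).trans ?_
    rw [norm_mul, norm_mul, Complex.norm_real, Complex.norm_real, Real.norm_eq_abs,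
      Real.norm_eq_abs, mul_add]
    exact add_le_add (mul_le_mul_of_nonneg_right (Complex.abs_re_le_norm ξ) (norm_nonneg _))
      (mul_le_mul_of_nonneg_right (Complex.abs_im_le_norm ξ) (norm_nonneg _))
  have r1 : ‖(-(4 * π * Complex.I * δ) * ((ξ.re : ℂ) * A + (ξ.im : ℂ) * A') : ℂ)‖
      ≤ 4 * π * δ * (‖ξ‖ * (‖A‖ + ‖A'‖)) := by
    rw [norm_mul, norm_neg, norm_mul, norm_mul, norm_mul, Complex.norm_real, Complex.norm_real,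
      Real.norm_eq_abs, Real.norm_eq_abs, abs_of_pos Real.pi_pos, abs_of_pos hδ, Complex.norm_I]
    simp only [Complex.norm_ofNat, mul_one]
    exact mul_le_mul_of_nonneg_left r0 (by positivity)
  have r2 : ‖((δ : ℂ) ^ 2 * (D + D') : ℂ)‖ ≤ δ ^ 2 * (‖D‖ + ‖D'‖) := by
    rw [norm_mul, norm_pow, Complex.norm_real, Real.norm_eq_abs, abs_of_pos hδ]
    exact mul_le_mul_of_nonneg_left (norm_add_le _ _) (by positivity)
  have r3 : ‖(4 * π ^ 2 * δ * E : ℂ)‖ = 4 * π ^ 2 * δ * ‖E‖ := by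
    rw [norm_mul, norm_mul, norm_mul, norm_pow, Complex.norm_real, Complex.norm_real,
      Real.norm_eq_abs, Real.norm_eq_abs, abs_of_pos Real.pi_pos, abs_of_pos hδ]
    simp only [Complex.norm_ofNat]
  have tot : 4 * π ^ 2 * (|‖ξ‖ ^ 2 - ρ0| * ‖F‖) ≤ 4 * π * δ * (‖ξ‖ * (‖A‖ + ‖A'‖))
      + δ ^ 2 * (‖D‖ + ‖D'‖) + 4 * π ^ 2 * δ * ‖E‖ := by
    rw [← l, g, ← r3]
    refine (norm_add_le _ _).trans (add_le_add ((norm_add_le _ _).trans (add_le_add r1 r2)) le_rfl)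
  have hx := norm_nonneg ξ
  have ha := norm_nonneg A
  have ha' := norm_nonneg A'
  have hd := norm_nonneg D
  have hd' := norm_nonneg D'
  have he := norm_nonneg E
  have s1 : 4 * π * δ * (‖ξ‖ * (‖A‖ + ‖A'‖)) ≤ 4 * π ^ 2 * (δ * (1 + ‖ξ‖) * (‖A‖ + ‖A'‖)) := by
    have e1 : 4 * π ^ 2 * (δ * (1 + ‖ξ‖) * (‖A‖ + ‖A'‖)) - 4 * π * δ * (‖ξ‖ * (‖A‖ + ‖A'‖))
        = 4 * π * δ * (‖A‖ + ‖A'‖) * (π + (π - 1) * ‖ξ‖) := by ring
    have e2 : 0 ≤ 4 * π * δ * (‖A‖ + ‖A'‖) * (π + (π - 1) * ‖ξ‖) := by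
      have : 0 ≤ π - 1 := by linarith
      positivity
    linarith
  have s2 : δ ^ 2 * (‖D‖ + ‖D'‖) ≤ 4 * π ^ 2 * (δ * (1 + ‖ξ‖) * (‖D‖ + ‖D'‖)) := by
    have e1 : 4 * π ^ 2 * (δ * (1 + ‖ξ‖) * (‖D‖ + ‖D'‖)) - δ ^ 2 * (‖D‖ + ‖D'‖)
        = δ * (‖D‖ + ‖D'‖) * ((4 * π ^ 2 - δ) + 4 * π ^ 2 * ‖ξ‖) := by ring
    have e2 : 0 ≤ δ * (‖D‖ + ‖D'‖) * ((4 * π ^ 2 - δ) + 4 * π ^ 2 * ‖ξ‖) := by
      have : 0 ≤ 4 * π ^ 2 - δ := by nlinarith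
      positivity
    linarith
  have s3 : 4 * π ^ 2 * δ * ‖E‖ ≤ 4 * π ^ 2 * (δ * (1 + ‖ξ‖) * ‖E‖) := by
    have e1 : 4 * π ^ 2 * (δ * (1 + ‖ξ‖) * ‖E‖) - 4 * π ^ 2 * δ * ‖E‖
        = 4 * π ^ 2 * δ * ‖E‖ * ‖ξ‖ := by ring
    have e2 : 0 ≤ 4 * π ^ 2 * δ * ‖E‖ * ‖ξ‖ := by positivity
    linarith
  have fin : |‖ξ‖ ^ 2 - ρ0| * ‖F‖ ≤ (‖A‖ + ‖A'‖ + ‖D‖ + ‖D'‖ + ‖E‖) * (δ * (1 + ‖ξ‖)) := by
    have hp : 0 < 4 * π ^ 2 := by positivity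
    refine le_of_mul_le_mul_left ?_ hp
    nlinarith
  unfold mu
  rw [div_mul_eq_mul_div, div_le_iff₀ (by positivity)]
  exact fin

theorem meas_el {k : ℕ} {B δ ρ0 : ℝ} {f : ℂ → ℝ} {w : ℂ → ℂ} (hf : Continuous f)
    (hw : Adm k B w) (j : ℕ) :
    Measurable fun ξ => ENNReal.ofReal (mu δ ρ0 ξ ^ j) * ‖FT δ f w ξ‖ₑ ^ 2 := by
  have h1 : Measurable (FT δ f w) := (continuous_FT hf hw.sm.continuous hw.hcs).measurable
  exact (((measurable_mu δ ρ0).pow_const j).ennreal_ofReal).mul (h1.enorm.pow_const 2)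

/-- Localisation near the energy shell. -/
theorem el (N : ℕ) (M : ℝ) : ∃ C : ℝ, 0 ≤ C ∧ ∀ δ ∈ Ioc (0 : ℝ) 1, ∀ (ρ0 B : ℝ) (n f : ℂ → ℝ)
    (w : ℂ → ℂ), Hel δ ρ0 n f → Bnd (2 * N) M (cx n) → Adm (2 * N) B w →
    ∫⁻ ξ, ENNReal.ofReal (mu δ ρ0 ξ ^ (2 * N)) * ‖FT δ f w ξ‖ₑ ^ 2
      ≤ ENNReal.ofReal (C * B ^ 2) * m2 f := by
  induction N with
  | zero =>
    refine ⟨1, zero_le_one, ?_⟩
    intro δ hδ ρ0 B n f w h _ hw
    simp only [mul_zero, pow_zero, ENNReal.ofReal_one, one_mul]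
    exact planch hδ.1 h.sf hw
  | succ N ih =>
    obtain ⟨C, hC, ih⟩ := ih
    refine ⟨5 * (C * (4 + (2 ^ (2 * N) * M) ^ 2)), by positivity, ?_⟩
    intro δ hδ ρ0 B n f w h hn hw
    have hn' : Bnd (2 * N) M (cx n) := hn.mono (by omega) le_rfl
    have hw2 : Adm (2 * N + 1 + 1) B w := hw.mono (by omega) le_rfl
    have n1 : ‖(1 : ℂ)‖ ≤ 1 := by simp
    have nI : ‖Complex.I‖ ≤ 1 := by simp
    have a1 : Adm (2 * N) B (dd 1 w) := (hw2.dd n1).mono (by omega) le_rfl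
    have a2 : Adm (2 * N) B (dd Complex.I w) := (hw2.dd nI).mono (by omega) le_rfl
    have a3 : Adm (2 * N) B (dd 1 (dd 1 w)) := (hw2.dd n1).dd n1
    have a4 : Adm (2 * N) B (dd Complex.I (dd Complex.I w)) := (hw2.dd nI).dd nI
    have a5 : Adm (2 * N) (2 ^ (2 * N) * M * B) (fun Y => cx n Y * w Y) :=
      (hw.mono (by omega) le_rfl).mul (contDiff_cx h.sn) hn'
    have i1 := ih δ hδ ρ0 B n f _ h hn' a1
    have i2 := ih δ hδ ρ0 B n f _ h hn' a2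
    have i3 := ih δ hδ ρ0 B n f _ h hn' a3
    have i4 := ih δ hδ ρ0 B n f _ h hn' a4
    have i5 := ih δ hδ ρ0 _ n f _ h hn' a5
    have hf := h.sf.continuous
    have m5 := meas_el (δ := δ) (ρ0 := ρ0) hf a5 (2 * N)
    have m2' := meas_el (δ := δ) (ρ0 := ρ0) hf a2 (2 * N)
    have m3 := meas_el (δ := δ) (ρ0 := ρ0) hf a3 (2 * N)
    have m4 := meas_el (δ := δ) (ρ0 := ρ0) hf a4 (2 * N)
    have pt : ∀ ξ : ℂ, ENNReal.ofReal (mu δ ρ0 ξ ^ (2 * (N + 1))) * ‖FT δ f w ξ‖ₑ ^ 2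
        ≤ 5 * (ENNReal.ofReal (mu δ ρ0 ξ ^ (2 * N)) * ‖FT δ f (dd 1 w) ξ‖ₑ ^ 2
          + ENNReal.ofReal (mu δ ρ0 ξ ^ (2 * N)) * ‖FT δ f (dd Complex.I w) ξ‖ₑ ^ 2
          + ENNReal.ofReal (mu δ ρ0 ξ ^ (2 * N)) * ‖FT δ f (dd 1 (dd 1 w)) ξ‖ₑ ^ 2
          + ENNReal.ofReal (mu δ ρ0 ξ ^ (2 * N))
            * ‖FT δ f (dd Complex.I (dd Complex.I w)) ξ‖ₑ ^ 2
          + ENNReal.ofReal (mu δ ρ0 ξ ^ (2 * N)) * ‖FT δ f (fun Y => cx n Y * w Y) ξ‖ₑ ^ 2) := by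
      intro ξ
      have hm := mu_nonneg_el hδ.1 ρ0 ξ
      have st := step_el hδ.1 hδ.2 h hw ξ
      have hp : 0 ≤ mu δ ρ0 ξ ^ (2 * N) := pow_nonneg hm _
      rw [ofReal_mul_el (pow_nonneg hm _), ofReal_mul_el hp, ofReal_mul_el hp, ofReal_mul_el hp,
        ofReal_mul_el hp, ofReal_mul_el hp,
        ← ENNReal.ofReal_add (by positivity) (by positivity),
        ← ENNReal.ofReal_add (by positivity) (by positivity),
        ← ENNReal.ofReal_add (by positivity) (by positivity),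
        ← ENNReal.ofReal_add (by positivity) (by positivity),
        ← ENNReal.ofReal_ofNat 5, ← ENNReal.ofReal_mul (by norm_num)]
      refine ENNReal.ofReal_le_ofReal ?_
      generalize ‖FT δ f (dd 1 w) ξ‖ = a at st ⊢
      generalize ‖FT δ f (dd Complex.I w) ξ‖ = b at st ⊢
      generalize ‖FT δ f (dd 1 (dd 1 w)) ξ‖ = c at st ⊢
      generalize ‖FT δ f (dd Complex.I (dd Complex.I w)) ξ‖ = d at st ⊢
      generalize ‖FT δ f (fun Y => cx n Y * w Y) ξ‖ = e at st ⊢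
      have h0 : 0 ≤ mu δ ρ0 ξ * ‖FT δ f w ξ‖ := mul_nonneg hm (norm_nonneg _)
      have q1 : (mu δ ρ0 ξ * ‖FT δ f w ξ‖) ^ 2 ≤ (a + b + c + d + e) ^ 2 :=
        pow_le_pow_left₀ h0 st 2
      have q2 : (a + b + c + d + e) ^ 2 ≤ 5 * (a ^ 2 + b ^ 2 + c ^ 2 + d ^ 2 + e ^ 2) := by
        nlinarith [sq_nonneg (a - b), sq_nonneg (a - c), sq_nonneg (a - d), sq_nonneg (a - e),
          sq_nonneg (b - c), sq_nonneg (b - d), sq_nonneg (b - e), sq_nonneg (c - d),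
          sq_nonneg (c - e), sq_nonneg (d - e)]
      have q3 := mul_le_mul_of_nonneg_left (q1.trans q2) hp
      calc mu δ ρ0 ξ ^ (2 * (N + 1)) * ‖FT δ f w ξ‖ ^ 2
          = mu δ ρ0 ξ ^ (2 * N) * (mu δ ρ0 ξ * ‖FT δ f w ξ‖) ^ 2 := by ring
        _ ≤ _ := q3
        _ = _ := by ring
    refine (lintegral_mono pt).trans ?_
    rw [lintegral_const_mul' _ _ (by norm_num),
      lintegral_add_right _ m5, lintegral_add_right _ m4, lintegral_add_right _ m3,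
      lintegral_add_right _ m2']
    refine (mul_le_mul_right (add_le_add (add_le_add (add_le_add (add_le_add i1 i2) i3) i4) i5)
      5).trans (le_of_eq ?_)
    have p1 : 0 ≤ C * B ^ 2 := by positivity
    rw [← add_mul, ← add_mul, ← add_mul, ← add_mul, ← mul_assoc,
      ← ENNReal.ofReal_add p1 p1, ← ENNReal.ofReal_add (by positivity) p1,
      ← ENNReal.ofReal_add (by positivity) p1,
      ← ENNReal.ofReal_add (by positivity) (by positivity),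
      ← ENNReal.ofReal_ofNat 5, ← ENNReal.ofReal_mul (by norm_num)]
    congr 2
    ring

end Pool.Agent.Lib.MP_a52643_an.H60
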