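import Pool.Agent.Lib.MP_a52643_an.H60FT0

open MeasureTheory Set Filter Topology Metric
open scoped ENNReal NNReal ContDiff Laplacian FourierTransform Real

noncomputable section

namespace Pool.Agent.Lib.MP_a52643_an.H60

variable {k : ℕ} {M δ : ℝ} {w w' : ℂ → ℂ} {f : ℂ → ℝ}

theorem scale_ft (hδ : 0 < δ) (H : ℂ → ℝ≥0∞) :
    ∫⁻ z, H (δ • z) = ENNReal.ofReal (δ ^ 2)⁻¹ * ∫⁻ z, H z := by
  have h1 := lintegral_map_equiv (μ := (volume : Measure ℂ)) H (MeasurableEquiv.smul₀ δ hδ.ne')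
  have h2 := Measure.map_addHaar_smul (volume : Measure ℂ) hδ.ne'
  rw [Complex.finrank_real_complex, abs_of_pos (by positivity)] at h2
  rw [MeasurableEquiv.coe_smul₀, h2, lintegral_smul_measure, smul_eq_mul] at h1
  exact h1.symm

theorem enorm_ft (hδ : 0 < δ) (f : ℂ → ℝ) (w : ℂ → ℂ) (z : ℂ) :
    ‖𝓕 (fun Y : ℂ => (f Y : ℂ) * w Y) z‖ₑ = ENNReal.ofReal δ * ‖FT δ f w (δ • z)‖ₑ := by
  have e : 𝓕 (fun Y : ℂ => (f Y : ℂ) * w Y) z = (δ : ℂ) * FT δ f w (δ • z) := by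
    rw [FT, smul_smul, inv_mul_cancel₀ hδ.ne', one_smul, ← mul_assoc, ← Complex.ofReal_mul,
      mul_inv_cancel₀ hδ.ne', Complex.ofReal_one, one_mul]
  rw [e, enorm_mul, ← ofReal_norm, Complex.norm_real, Real.norm_eq_abs, abs_of_pos hδ]

theorem good_ft (hf : ContDiff ℝ ∞ f) (hw : Adm k M w) :
    Continuous (fun Y : ℂ => (f Y : ℂ) * w Y) ∧ HasCompactSupport (fun Y : ℂ => (f Y : ℂ) * w Y) ∧
      Integrable (𝓕 fun Y : ℂ => (f Y : ℂ) * w Y) := by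
  have h1 : ContDiff ℝ ∞ fun Y : ℂ => (f Y : ℂ) * w Y := (contDiff_cx hf).mul hw.sm
  have h2 : HasCompactSupport fun Y : ℂ => (f Y : ℂ) * w Y := hw.hcs.mul_left
  exact ⟨h1.continuous, h2, (𝓕 (h2.toSchwartzMap h1)).integrable⟩

theorem parseval_ft {H G : ℂ → ℂ} (hH : Integrable H) (hc : Continuous G) (hG : Integrable G)
    (hG' : Integrable (𝓕 G)) : ∫ Y, H Y * G Y = ∫ z, 𝓕 H (-z) * 𝓕 G z := by
  have h1 := VectorFourier.integral_fourierIntegral_smul_eq_flip (L := -innerₗ ℂ)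
    (μ := volume) (ν := volume) Real.continuous_fourierChar (f := H) (g := 𝓕 G)
    (continuous_inner.neg) hH hG'
  have e1 : ∀ z, VectorFourier.fourierIntegral Real.fourierChar volume (-innerₗ ℂ) H z
      = 𝓕 H (-z) := fun z => Real.fourierInv_eq_fourier_neg H z
  have e2 : ∀ z, VectorFourier.fourierIntegral Real.fourierChar volume (-innerₗ ℂ).flip (𝓕 G) z
      = G z := fun z => by
    have e3 : (-innerₗ ℂ).flip = -innerₗ ℂ := by
      refine LinearMap.ext fun a => LinearMap.ext fun b => ?_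
      exact congrArg Neg.neg (real_inner_comm a b)
    rw [e3]
    exact congrFun (hc.fourierInv_fourier_eq hG hG') z
  simp only [e1, e2, smul_eq_mul] at h1
  exact h1.symm

theorem prod_ft {G1 G2 : ℂ → ℂ} (hc : Continuous G1) (h1 : Integrable G1)
    (h1' : Integrable (𝓕 G1)) (h2 : Integrable G2) (z : ℂ) :
    𝓕 (fun Y => G1 Y * G2 Y) (-z) = ∫ y, 𝓕 G2 (-y - z) * 𝓕 G1 y := by
  have h3 := parseval_ft ((Real.fourierIntegral_convergent_iff (-z)).2 h2) hc h1 h1'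
  have e1 : ∀ y, 𝓕 (fun v : ℂ => Real.fourierChar (-inner ℝ v (-z)) • G2 v) (-y)
      = 𝓕 G2 (-y - z) := fun y => by
    simp only [Real.fourier_eq, smul_smul, ← AddChar.map_add_eq_mul, sub_eq_add_neg,
      inner_add_right, neg_add]
  simp only [e1] at h3
  rw [← h3, Real.fourier_eq]
  refine integral_congr_ae (Eventually.of_forall fun v => ?_)
  simp only [Circle.smul_def, smul_eq_mul]
  ring

theorem inv_le (hδ : 0 < δ) (hf : ContDiff ℝ ∞ f) (hw : Adm k M w) :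
    ‖(f 0 : ℂ) * w 0‖ₑ ≤ ENNReal.ofReal δ⁻¹ * ∫⁻ ξ, ‖FT δ f w ξ‖ₑ := by
  obtain ⟨c, s, i⟩ := good_ft hf hw
  have h1 := congrFun (c.fourierInv_fourier_eq (c.integrable_of_hasCompactSupport s) i) 0
  rw [Real.fourierInv_eq] at h1
  simp only [inner_zero_right, AddChar.map_zero_eq_one, one_smul] at h1
  rw [← h1]
  refine (enorm_integral_le_lintegral_enorm _).trans (le_of_eq ?_)
  simp only [enorm_ft hδ]
  rw [lintegral_const_mul' _ _ ENNReal.ofReal_ne_top, scale_ft hδ fun ξ => ‖FT δ f w ξ‖ₑ,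
    ← mul_assoc, ← ENNReal.ofReal_mul hδ.le]
  congr 2
  field_simp

theorem tri_le (hδ : 0 < δ) {f1 f2 f3 : ℂ → ℝ} (h1 : ContDiff ℝ ∞ f1) (h2 : ContDiff ℝ ∞ f2)
    (h3 : ContDiff ℝ ∞ f3) (hw : Adm k M w) :
    ‖∫ Y : ℂ, (f1 Y : ℂ) * w Y * ((f2 Y : ℂ) * w Y) * ((f3 Y : ℂ) * w Y)‖ₑ ≤ ENNReal.ofReal δ⁻¹ *
      T3 univ (fun ξ => ‖FT δ f1 w ξ‖ₑ) (fun ξ => ‖FT δ f2 w ξ‖ₑ) fun ξ => ‖FT δ f3 w ξ‖ₑ := by
  obtain ⟨c1, s1, i1⟩ := good_ft h1 hw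
  obtain ⟨c2, s2, -⟩ := good_ft h2 hw
  obtain ⟨c3, s3, i3⟩ := good_ft h3 hw
  have j12 : Integrable fun Y : ℂ => (f1 Y : ℂ) * w Y * ((f2 Y : ℂ) * w Y) :=
    (c1.mul c2).integrable_of_hasCompactSupport s2.mul_left
  rw [parseval_ft j12 c3 (c3.integrable_of_hasCompactSupport s3) i3]
  refine (enorm_integral_le_lintegral_enorm _).trans ?_
  have hd : ENNReal.ofReal δ ≠ ⊤ := ENNReal.ofReal_ne_top
  have hd3 : ENNReal.ofReal δ ^ 3 ≠ ⊤ := ENNReal.pow_ne_top hd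
  have step : ∀ z : ℂ, ‖𝓕 (fun Y : ℂ => (f1 Y : ℂ) * w Y * ((f2 Y : ℂ) * w Y)) (-z) *
      𝓕 (fun Y : ℂ => (f3 Y : ℂ) * w Y) z‖ₑ ≤ ENNReal.ofReal δ ^ 3 * ENNReal.ofReal (δ ^ 2)⁻¹ *
      ∫⁻ y, ‖FT δ f1 w y‖ₑ * ‖FT δ f2 w (-y - δ • z)‖ₑ * ‖FT δ f3 w (δ • z)‖ₑ := fun z => by
    rw [prod_ft c1 (c1.integrable_of_hasCompactSupport s1) i1
      (c2.integrable_of_hasCompactSupport s2), enorm_mul]
    refine (mul_le_mul_left (enorm_integral_le_lintegral_enorm _) _).trans (le_of_eq ?_)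
    rw [← lintegral_mul_const' _ _ enorm_ne_top, mul_assoc, ← scale_ft hδ,
      ← lintegral_const_mul' _ _ hd3]
    refine lintegral_congr fun y => ?_
    rw [enorm_mul, enorm_ft hδ, enorm_ft hδ, enorm_ft hδ, smul_sub, smul_neg]
    ring
  refine (lintegral_mono step).trans (le_of_eq ?_)
  rw [lintegral_const_mul' _ _ (ENNReal.mul_ne_top hd3 ENNReal.ofReal_ne_top),
    scale_ft hδ fun z => ∫⁻ y, ‖FT δ f1 w y‖ₑ * ‖FT δ f2 w (-y - z)‖ₑ * ‖FT δ f3 w z‖ₑ,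
    ← mul_assoc, ← ENNReal.ofReal_pow hδ.le, ← ENNReal.ofReal_mul (by positivity),
    ← ENNReal.ofReal_mul (by positivity)]
  simp only [T3, indicator_univ, Pi.one_apply, one_mul]
  congr 2
  field_simp

end Pool.Agent.Lib.MP_a52643_an.H60
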