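import Pool.Agent.Lib.MP_a52643_an.H60Adm

open MeasureTheory Set Filter Topology Metric
open scoped ENNReal NNReal ContDiff Laplacian FourierTransform Real

noncomputable section

namespace Pool.Agent.Lib.MP_a52643_an.H60

variable {k : ℕ} {M δ : ℝ} {w w' : ℂ → ℂ} {f : ℂ → ℝ}

theorem FT_eq (δ : ℝ) (f : ℂ → ℝ) (w : ℂ → ℂ) (ξ : ℂ) :
    FT δ f w ξ = ((δ⁻¹ : ℝ) : ℂ) * ∫ Y : ℂ,
      Complex.exp (((-2 * π * (δ⁻¹ * inner ℝ Y ξ) : ℝ) : ℂ) * Complex.I) * ((f Y : ℂ) * w Y) := by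
  rw [FT, Real.fourier_eq']
  simp only [real_inner_smul_right, smul_eq_mul]

theorem FT_add (hf : Continuous f) (hw : Continuous w) (hc : HasCompactSupport w)
    (hw' : Continuous w') (hc' : HasCompactSupport w') (ξ : ℂ) :
    FT δ f (fun Y => w Y + w' Y) ξ = FT δ f w ξ + FT δ f w' ξ := by
  have h1 : Integrable fun Y : ℂ =>
      Complex.exp (((-2 * π * (δ⁻¹ * inner ℝ Y ξ) : ℝ) : ℂ) * Complex.I) * ((f Y : ℂ) * w Y) :=
    Continuous.integrable_of_hasCompactSupport (by fun_prop) hc.mul_left.mul_left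
  have h2 : Integrable fun Y : ℂ =>
      Complex.exp (((-2 * π * (δ⁻¹ * inner ℝ Y ξ) : ℝ) : ℂ) * Complex.I) * ((f Y : ℂ) * w' Y) :=
    Continuous.integrable_of_hasCompactSupport (by fun_prop) hc'.mul_left.mul_left
  simp only [FT_eq]
  rw [← mul_add, ← integral_add h1 h2]
  simp only [mul_add]

theorem FT_const_mul (c : ℂ) (ξ : ℂ) : FT δ f (fun Y => c * w Y) ξ = c * FT δ f w ξ := by
  simp only [FT_eq]
  rw [mul_left_comm c, ← integral_const_mul c]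
  congr 2
  ext Y
  ring

theorem continuous_FT (hf : Continuous f) (hw : Continuous w) (hc : HasCompactSupport w) :
    Continuous (FT δ f w) := by
  have h1 : Continuous fun ξ : ℂ => ∫ Y in tsupport w,
      Complex.exp (((-2 * π * (δ⁻¹ * inner ℝ Y ξ) : ℝ) : ℂ) * Complex.I) * ((f Y : ℂ) * w Y) :=
    continuous_parametric_integral_of_continuous (by fun_prop) hc
  refine (continuous_const.mul h1 (f := fun _ => ((δ⁻¹ : ℝ) : ℂ))).congr fun ξ => ?_
  rw [FT_eq, Pi.mul_apply, setIntegral_eq_integral_of_forall_compl_eq_zero]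
  intro Y hY
  simp [image_eq_zero_of_notMem_tsupport hY]

/-- Joint continuity for families. -/
theorem continuous_FT_param {X : Type} [TopologicalSpace X] [FirstCountableTopology X]
    [LocallyCompactSpace X] {F : X → ℂ → ℝ} {W : X → ℂ → ℂ} {Z : X → ℂ}
    (hF : Continuous fun p : X × ℂ => F p.1 p.2) (hW : Continuous fun p : X × ℂ => W p.1 p.2)
    (hs : ∀ x, ∀ Y ∉ ball (0 : ℂ) 1, W x Y = 0) (hZ : Continuous Z) :
    Continuous fun x => FT δ (F x) (W x) (Z x) := by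
  have h0 : Continuous fun p : X × ℂ =>
      Complex.exp (((-2 * π * (δ⁻¹ * inner ℝ p.2 (Z p.1)) : ℝ) : ℂ) * Complex.I) := by fun_prop
  have h1 : Continuous fun x : X => ∫ Y in closedBall (0 : ℂ) 1,
      Complex.exp (((-2 * π * (δ⁻¹ * inner ℝ Y (Z x)) : ℝ) : ℂ) * Complex.I) *
        ((F x Y : ℂ) * W x Y) :=
    continuous_parametric_integral_of_continuous
      (h0.mul ((Complex.continuous_ofReal.comp hF).mul hW)) (isCompact_closedBall _ _)
  refine (continuous_const.mul h1 (f := fun _ => ((δ⁻¹ : ℝ) : ℂ))).congr fun x => ?_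
  rw [FT_eq, Pi.mul_apply, setIntegral_eq_integral_of_forall_compl_eq_zero]
  intro Y hY
  simp [hs x Y fun h => hY (ball_subset_closedBall h)]

theorem lintegral_sq_ft0 (g : SchwartzMap ℂ ℂ) :
    ∫⁻ x, ‖g x‖ₑ ^ 2 = ENNReal.ofReal (∫ x, ‖g x‖ ^ 2) := by
  have h1 : Integrable fun x => ‖g x‖ ^ 2 :=
    (g.memLp ((2 : ℕ) : ℝ≥0∞)).integrable_norm_pow two_ne_zero
  rw [ofReal_integral_eq_lintegral_ofReal h1 (Eventually.of_forall fun x => by positivity)]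
  refine lintegral_congr fun x => ?_
  rw [ENNReal.ofReal_pow (norm_nonneg _), ofReal_norm]

theorem planch (hδ : 0 < δ) (hf : ContDiff ℝ ∞ f) (hw : Adm k M w) :
    ∫⁻ ξ, ‖FT δ f w ξ‖ₑ ^ 2 ≤ ENNReal.ofReal (M ^ 2) * m2 f := by
  set G : SchwartzMap ℂ ℂ := HasCompactSupport.toSchwartzMap
    (f := fun Y : ℂ => (f Y : ℂ) * w Y) hw.hcs.mul_left ((contDiff_cx hf).mul hw.sm) with hG
  have h1 : ∀ ξ, ‖FT δ f w ξ‖ₑ ^ 2 = ENNReal.ofReal (δ⁻¹ ^ 2) * ‖(𝓕 G) (δ⁻¹ • ξ)‖ₑ ^ 2 := by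
    intro ξ
    rw [FT, enorm_mul, mul_pow, ENNReal.ofReal_pow (by positivity), ← ofReal_norm,
      Complex.norm_real, Real.norm_of_nonneg (by positivity)]
    rfl
  have hm : Measurable fun ξ : ℂ => ‖(𝓕 G) ξ‖ₑ ^ 2 :=
    (𝓕 G).continuous.measurable.enorm.pow_const 2
  have h2 : ∫⁻ ξ : ℂ, ‖(𝓕 G) (δ⁻¹ • ξ)‖ₑ ^ 2 =
      ENNReal.ofReal (δ ^ 2) * ∫⁻ ξ : ℂ, ‖(𝓕 G) ξ‖ₑ ^ 2 := by
    rw [← lintegral_map hm (measurable_const_smul δ⁻¹),
      Measure.map_addHaar_smul volume (inv_ne_zero hδ.ne'), lintegral_smul_measure,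
      Complex.finrank_real_complex, inv_pow, inv_inv, abs_of_pos (by positivity), smul_eq_mul]
  have h3 : ∫⁻ ξ, ‖FT δ f w ξ‖ₑ ^ 2 = ∫⁻ Y : ℂ, ‖G Y‖ₑ ^ 2 := by
    simp only [h1]
    rw [lintegral_const_mul' _ _ ENNReal.ofReal_ne_top, h2, ← mul_assoc,
      ← ENNReal.ofReal_mul (by positivity), ← mul_pow, inv_mul_cancel₀ hδ.ne', one_pow,
      ENNReal.ofReal_one, one_mul, lintegral_sq_ft0, lintegral_sq_ft0,
      SchwartzMap.integral_norm_sq_fourier]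
  rw [h3, m2, ← lintegral_const_mul' _ _ ENNReal.ofReal_ne_top,
    ← lintegral_indicator measurableSet_ball]
  refine lintegral_mono fun Y => ?_
  change ‖(f Y : ℂ) * w Y‖ₑ ^ 2 ≤ _
  by_cases hY : Y ∈ ball (0 : ℂ) 1
  · rw [indicator_of_mem hY, enorm_mul, mul_pow, mul_comm, ENNReal.ofReal_pow hw.nonneg]
    refine mul_le_mul' (pow_le_pow_left' ?_ 2) (le_of_eq ?_)
    · rw [← ofReal_norm]
      exact ENNReal.ofReal_le_ofReal (hw.norm_le Y)
    · rw [← ofReal_norm, ← ofReal_norm, Complex.norm_real]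
  · simp [hw.zero hY]

end Pool.Agent.Lib.MP_a52643_an.H60
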