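import Pool.Agent.Lib.MP_a52643_an.H60Br
import Pool.Agent.Lib.MP_a52643_an.H60Anti

open MeasureTheory Set Filter Topology Metric
open scoped ENNReal NNReal ContDiff Laplacian FourierTransform Real

noncomputable section

namespace Pool.Agent.Lib.MP_a52643_an.H60

theorem measurable_far_far (τ : ℝ) : Measurable (far τ) := by
  unfold far
  exact measurable_one.indicator (measurableSet_le measurable_const measurable_id.abs)

theorem shift_far {ε ε1 s : ℝ} (hε : 2 * ε ≤ ε1) (hs : s ∈ Ioo (-ε) ε) (φ : ℝ → ℝ≥0∞) :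
    ∫⁻ s' in Ioo (-ε) ε, φ (s' - s) ≤ ∫⁻ σ in Ioo (-ε1) ε1, φ σ := by
  rw [← lintegral_indicator measurableSet_Ioo, ← lintegral_indicator measurableSet_Ioo,
    ← lintegral_sub_right_eq_self ((Ioo (-ε1) ε1).indicator φ) s]
  refine lintegral_mono fun s' => ?_
  by_cases h : s' ∈ Ioo (-ε) ε
  · have h' : s' - s ∈ Ioo (-ε1) ε1 := ⟨by linarith [h.1, hs.2], by linarith [h.2, hs.1]⟩
    simp only [indicator_of_mem h, indicator_of_mem h', le_refl]
  · simp only [indicator_of_notMem h, zero_le]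

theorem ball_P3_far (ε : ℝ) : ball (0 : P3) ε = ball (0 : R2) ε ×ˢ Ioo (-ε) ε := by
  have : (0 : P3) = ((0 : R2), (0 : ℝ)) := rfl
  rw [this, ← ball_prod_same, Real.ball_eq_Ioo, zero_sub, zero_add]

theorem ball_R2_far (ε : ℝ) : ball (0 : R2) ε = Ioo (-ε) ε ×ˢ Ioo (-ε) ε := by
  have : (0 : R2) = ((0 : ℝ), (0 : ℝ)) := rfl
  rw [this, ← ball_prod_same, Real.ball_eq_Ioo, zero_sub, zero_add]

theorem tonelli_far {ε : ℝ} {f : P3 → ℝ≥0∞} (hf : Measurable f) :
    ∫⁻ p in ball (0 : P3) ε, f p = ∫⁻ l in ball (0 : R2) ε, ∫⁻ s in Ioo (-ε) ε, f (l, s) := by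
  rw [ball_P3_far, Measure.volume_eq_prod, ← Measure.prod_restrict,
    lintegral_prod _ hf.aemeasurable]

theorem plane_far {K : ℝ} {C : ℝ≥0∞}
    (hC : ∀ τ : ℝ, 0 < τ → ∀ (s : Set R2) (f : R2 → R2), MeasurableSet s → Measurable f →
      (∀ a ∈ s, ∀ b ∈ s, τ * |a.1 - b.1| + |a.2 - b.2| ≤ K * ‖f a - f b‖) →
      ∀ g : R2 → ℝ≥0∞, Measurable g →
        ∫⁻ x in s, g (f x) ≤ C / ENNReal.ofReal τ * ∫⁻ y, g y)
    {τ ε : ℝ} (hτ : 0 < τ) {f : R2 → R2} (hf : Measurable f)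
    (h : ∀ p ∈ ball (0 : R2) ε, ∀ p' ∈ ball (0 : R2) ε, τ ≤ |p.2| →
      τ * |p.1 - p'.1| + |p.2 - p'.2| ≤ K * ‖f p - f p'‖)
    {b : R2 → ℝ≥0∞} (hb : Measurable b) :
    ∫⁻ s in Ioo (-ε) ε, ∫⁻ σ in Ioo (-ε) ε, far τ σ * b (f (s, σ)) ≤
      C / ENNReal.ofReal τ * ∫⁻ y, b y := by
  have hm : MeasurableSet {p : R2 | τ ≤ |p.2|} :=
    measurableSet_le measurable_const measurable_snd.abs
  have hm2 : Measurable fun p : R2 => far τ p.2 * b (f p) :=
    ((measurable_far_far τ).comp measurable_snd).mul (hb.comp hf)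
  have e1 : ∫⁻ p in ball (0 : R2) ε, far τ p.2 * b (f p) =
      ∫⁻ s in Ioo (-ε) ε, ∫⁻ σ in Ioo (-ε) ε, far τ σ * b (f (s, σ)) := by
    rw [ball_R2_far, Measure.volume_eq_prod, ← Measure.prod_restrict,
      lintegral_prod _ hm2.aemeasurable]
  have e2 : ∫⁻ p in ball (0 : R2) ε, far τ p.2 * b (f p) =
      ∫⁻ p in {p : R2 | τ ≤ |p.2|} ∩ ball (0 : R2) ε, b (f p) := by
    rw [← Measure.restrict_restrict hm, ← lintegral_indicator hm]
    refine lintegral_congr fun p => ?_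
    by_cases hp : τ ≤ |p.2|
    · simp [far, hp]
    · simp [far, hp]
  rw [← e1, e2]
  exact hC τ hτ _ f (hm.inter measurableSet_ball) hf
    (fun p hp p' hp' => h p hp.2 p' hp'.2 hp.1) b hb

theorem far_est {u : ℂ → ℝ} {x0 : ℂ} {θ0 α0 L3 L1 : ℝ} {X3 X1 : P3 → V} {c3 c1 : V → P3}
    (hu : ContDiff ℝ ∞ u) (hK : Δ u x0 ≠ 0) (hα : Real.sin α0 ≠ 0)
    (b3 : Box u (x0, θ0) L3 X3 c3) (b1 : Box u (x0, θ0 + α0) L1 X1 c1) :
    ∃ ε : ℝ, 0 < ε ∧ ∃ c : ℝ, 0 < c ∧ ∃ C : ℝ≥0∞, C ≠ ⊤ ∧ ∀ τ : ℝ, 0 < τ → ∀ α α' : ℝ,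
      |α - α0| < ε → |α' - α0| < ε → |α - α'| ≤ c * τ →
      ∀ a b : R2 → ℝ≥0∞, Measurable a → Measurable b →
      ∫⁻ l in ball (0 : R2) ε, ∫⁻ s in Ioo (-ε) ε, ∫⁻ s' in Ioo (-ε) ε, far τ (s' - s) *
        (a (c1 (rot α (X3 (l, s)))).1 * b (c1 (rot α' (X3 (l, s')))).1)
        ≤ C / ENNReal.ofReal τ * ((∫⁻ y, a y) * ∫⁻ y, b y) := by
  have hG := contDiff_gg b3 b1
  obtain ⟨ε1, hε1, c, hc, K, hE⟩ := expand (w0 := ((0 : R2), α0)) hG (gg_zero b3 b1)
    (gg_indep hu hK hα b3 b1)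
  have hrot : ContDiff ℝ 1 fun p : ℝ × V => rot p.1 p.2 := contDiff_rot.of_le (by simp)
  have hX3 : ContDiff ℝ 1 X3 := b3.cX.of_le (by norm_num)
  have hX1 : ContDiff ℝ 1 X1 := b1.cX.of_le (by norm_num)
  have hc3 : ContDiff ℝ 1 c3 := b3.cc.of_le (by norm_num)
  have hc1 : ContDiff ℝ 1 c1 := b1.cc.of_le (by norm_num)
  have hS : ContDiff ℝ 1 fun q : ℝ × P3 => c3 (rot (-q.1) (X1 q.2)) :=
    hc3.comp (hrot.comp (contDiff_fst.neg.prodMk (hX1.comp contDiff_snd)))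
  have hR : Continuous fun q : ℝ × P3 => rot q.1 (X3 q.2) :=
    (hrot.comp (contDiff_fst.prodMk (hX3.comp contDiff_snd))).continuous
  obtain ⟨K1, hK1, hL⟩ := lip_ball hS (α0, 0) ε1
  have hR0 : rot α0 (X3 0) = (x0, θ0 + α0) := by rw [b3.zero]; rfl
  have ev1 : ∀ᶠ q : ℝ × P3 in 𝓝 (α0, 0), rot q.1 (X3 q.2) ∈ ball (x0, θ0 + α0) L1 := by
    refine hR.continuousAt.eventually_mem ?_
    simp only [hR0]
    exact ball_mem_nhds _ b1.pos
  have ev2 : ∀ᶠ q : ℝ × P3 in 𝓝 (α0, 0), c1 (rot q.1 (X3 q.2)) ∈ ball (0 : P3) ε1 := by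
    refine (hc1.continuous.comp hR).continuousAt.eventually_mem ?_
    simp only [Function.comp, hR0, b1.c_zero]
    exact ball_mem_nhds _ hε1
  obtain ⟨ε2, hε2, h12⟩ := Metric.eventually_nhds_iff_ball.1 (ev1.and ev2)
  have : (volume : Measure R2).IsAddHaarMeasure := Measure.prod.instIsAddHaarMeasure _ _
  have : (volume : Measure P3).IsAddHaarMeasure := Measure.prod.instIsAddHaarMeasure _ _
  obtain ⟨C1, hC1, hlm⟩ := lm (volume : Measure P3) (volume : Measure P3) rfl K1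
  obtain ⟨C2, hC2, hlm2⟩ := lm2 K
  set ε : ℝ := min (min ε2 L3) (ε1 / 2) with hε
  have hεa : ε ≤ ε2 := (min_le_left _ _).trans (min_le_left _ _)
  have hεb : ε ≤ L3 := (min_le_left _ _).trans (min_le_right _ _)
  have hεc : 2 * ε ≤ ε1 := by
    have := min_le_right (min ε2 L3) (ε1 / 2)
    linarith
  have hεp : 0 < ε := lt_min (lt_min hε2 b3.pos) (by linarith)
  refine ⟨ε, hεp, c, hc, C1 * C2, ENNReal.mul_ne_top hC1 hC2,
    fun τ hτ α α' h1 h2 h3 a b ha hb => ?_⟩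
  set T : P3 → P3 := fun p => c1 (rot α (X3 p)) with hT
  have hTm : Measurable T :=
    (hc1.continuous.comp (hR.comp (continuous_const.prodMk continuous_id))).measurable
  have hin : ∀ p ∈ ball (0 : P3) ε, ((α, p) : ℝ × P3) ∈ ball ((α0, 0) : ℝ × P3) ε2 := by
    intro p hp
    rw [← ball_prod_same]
    exact ⟨by rw [mem_ball, Real.dist_eq]; linarith, ball_subset_ball hεa hp⟩
  have hTb : ∀ p ∈ ball (0 : P3) ε, T p ∈ ball (0 : P3) ε1 := fun p hp => (h12 _ (hin p hp)).2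
  have hST : ∀ p ∈ ball (0 : P3) ε, c3 (rot (-α) (X1 (T p))) = p := by
    intro p hp
    have e1 : X1 (T p) = rot α (X3 p) := b1.right _ (h12 _ (hin p hp)).1
    have e2 : rot (-α) (rot α (X3 p)) = X3 p := by simp [rot]
    rw [e1, e2, b3.left p (ball_subset_ball hεb hp)]
  have hexp : ∀ p ∈ ball (0 : P3) ε, ∀ p' ∈ ball (0 : P3) ε, ‖p - p'‖ ≤ K1 * ‖T p - T p'‖ := by
    intro p hp p' hp'
    have hm : ∀ q ∈ ball (0 : P3) ε1, ((α, q) : ℝ × P3) ∈ ball ((α0, 0) : ℝ × P3) ε1 := by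
      intro q hq
      rw [← ball_prod_same]
      exact ⟨by rw [mem_ball, Real.dist_eq]; linarith, hq⟩
    have := hL _ (hm _ (hTb p hp)) _ (hm _ (hTb p' hp'))
    simp only [hST p hp, hST p' hp'] at this
    simpa [Prod.norm_def (x := ((0 : ℝ), T p - T p'))] using this
  set g : P3 × ℝ → R2 := fun r => gg X3 c3 X1 c1 (((r.1.1, α), α' - α), (r.1.2, r.2)) with hg
  have hgm : Measurable g := by
    refine (hG.continuous.comp ?_).measurable
    fun_prop
  set H : P3 → ℝ≥0∞ := fun q => a q.1 * ∫⁻ σ in Ioo (-ε1) ε1, far τ σ * b (g (q, σ)) with hH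
  have hin2 : Measurable fun q : P3 => ∫⁻ σ in Ioo (-ε1) ε1, far τ σ * b (g (q, σ)) :=
    Measurable.lintegral_prod_right'
      (((measurable_far_far τ).comp measurable_snd).mul (hb.comp hgm))
  have hHm : Measurable H := (ha.comp measurable_fst).mul hin2
  have step1 : ∫⁻ l in ball (0 : R2) ε, ∫⁻ s in Ioo (-ε) ε, ∫⁻ s' in Ioo (-ε) ε, far τ (s' - s) *
        (a (c1 (rot α (X3 (l, s)))).1 * b (c1 (rot α' (X3 (l, s')))).1) ≤
      ∫⁻ p in ball (0 : P3) ε, (ball (0 : P3) ε1).indicator H (T p) := by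
    have hm : Measurable fun p : P3 => (ball (0 : P3) ε1).indicator H (T p) :=
      (hHm.indicator measurableSet_ball).comp hTm
    rw [tonelli_far hm]
    refine setLIntegral_mono' measurableSet_ball fun l hl => ?_
    refine setLIntegral_mono' measurableSet_Ioo fun s hs => ?_
    have hp : ((l, s) : P3) ∈ ball (0 : P3) ε := by
      rw [ball_P3_far]
      exact ⟨hl, hs⟩
    have e : ∀ s' : ℝ, (c1 (rot α' (X3 (l, s')))).1 = g (T (l, s), s' - s) := by
      intro s'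
      simp only [hg, gg, Prod.mk.eta, hST _ hp]
      simp
    simp only [indicator_of_mem (hTb _ hp), hH]
    refine le_trans (le_of_eq ?_) (mul_le_mul_right
      (shift_far hεc hs fun σ => far τ σ * b (g (T (l, s), σ))) _)
    rw [← lintegral_const_mul]
    · refine lintegral_congr fun s' => ?_
      rw [e s']
      simp only [hT]
      ring
    · exact ((measurable_far_far τ).comp (measurable_id.sub_const s)).mul
        (hb.comp (hgm.comp (measurable_const.prodMk (measurable_id.sub_const s))))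
  have step2 := hlm (ball (0 : P3) ε) T measurableSet_ball hTm hexp _
    (hHm.indicator (measurableSet_ball (x := (0 : P3)) (ε := ε1)))
  have step3 : ∫⁻ q, (ball (0 : P3) ε1).indicator H q ≤
      (∫⁻ y, a y) * (C2 / ENNReal.ofReal τ * ∫⁻ y, b y) := by
    rw [lintegral_indicator measurableSet_ball, tonelli_far hHm, ← lintegral_mul_const _ ha]
    refine le_trans (setLIntegral_mono' measurableSet_ball fun l hl => ?_)
      (setLIntegral_le_lintegral _ _)
    simp only [hH]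
    have hm : Measurable fun s : ℝ => ∫⁻ σ in Ioo (-ε1) ε1, far τ σ * b (g ((l, s), σ)) :=
      hin2.comp (measurable_const.prodMk measurable_id)
    rw [lintegral_const_mul _ hm]
    refine mul_le_mul_right ?_ _
    have hz : (((l, α), α' - α) : (R2 × ℝ) × ℝ) ∈ ball ((((0 : R2), α0), 0) : (R2 × ℝ) × ℝ) ε1 := by
      rw [← ball_prod_same, ← ball_prod_same]
      refine ⟨⟨hl, by rw [mem_ball, Real.dist_eq]; linarith⟩, ?_⟩
      rw [mem_ball, Real.dist_eq, sub_zero]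
      have := abs_lt.1 h1
      have := abs_lt.1 h2
      rw [abs_lt]
      constructor <;> linarith
    exact plane_far hlm2 hτ (f := fun p : R2 => gg X3 c3 X1 c1 (((l, α), α' - α), p))
      (hG.continuous.comp (continuous_const.prodMk continuous_id)).measurable
      (hE τ hτ _ hz (by rw [abs_sub_comm]; exact h3)) hb
  refine step1.trans (step2.trans ((mul_le_mul_right step3 _).trans (le_of_eq ?_)))
  rw [div_eq_mul_inv, div_eq_mul_inv]
  ring

end Pool.Agent.Lib.MP_a52643_an.H60
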