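import Pool.Agent.Lib.MP_a52643_an.H60Nem

open MeasureTheory Set Filter Topology Metric
open scoped ENNReal NNReal ContDiff Laplacian FourierTransform Real

noncomputable section

namespace Pool.Agent.Lib.MP_a52643_an.H60

section
variable {E : Type} [NormedAddCommGroup E] [NormedSpace ℝ E]

/-- extension of a continuous curve on `[-2, 2]` to the line -/
def ext_flow (g : C(Icc (-2 : ℝ) 2, E)) (t : ℝ) : E := g (projIcc (-2) 2 (by norm_num) t)

omit [NormedSpace ℝ E] in
theorem continuous_ext_flow (g : C(Icc (-2 : ℝ) 2, E)) : Continuous (ext_flow g) :=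
  g.continuous.comp continuous_projIcc

omit [NormedSpace ℝ E] in
theorem ext_of_mem_flow (g : C(Icc (-2 : ℝ) 2, E)) {t : ℝ} (ht : t ∈ Icc (-2 : ℝ) 2) :
    ext_flow g t = g ⟨t, ht⟩ := by
  rw [ext_flow, projIcc_of_mem _ ht]

/-- the primitive vanishing at `0` as a bounded operator -/
theorem exists_prim_flow [CompleteSpace E] :
    ∃ P : C(Icc (-2 : ℝ) 2, E) →L[ℝ] C(Icc (-2 : ℝ) 2, E),
      ∀ g t, P g t = ∫ τ in (0 : ℝ)..t, ext_flow g τ := by
  let L : C(Icc (-2 : ℝ) 2, E) →ₗ[ℝ] C(Icc (-2 : ℝ) 2, E) :=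
    { toFun := fun g => ⟨fun t => ∫ τ in (0 : ℝ)..t, ext_flow g τ,
        (intervalIntegral.continuous_primitive
          (fun a b => (continuous_ext_flow g).intervalIntegrable a b) 0).comp
          continuous_subtype_val⟩
      map_add' := fun g h => by
        ext t
        exact intervalIntegral.integral_add ((continuous_ext_flow g).intervalIntegrable _ _)
          ((continuous_ext_flow h).intervalIntegrable _ _)
      map_smul' := fun c g => by
        ext t
        exact intervalIntegral.integral_smul c (ext_flow g) }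
  refine ⟨L.mkContinuous 2 fun g => ?_, fun g t => rfl⟩
  rw [ContinuousMap.norm_le _ (by positivity)]
  intro t
  have h1 : ‖∫ τ in (0 : ℝ)..t, ext_flow g τ‖ ≤ ‖g‖ * |(t : ℝ) - 0| :=
    intervalIntegral.norm_integral_le_of_norm_le_const fun x _ => g.norm_coe_le_norm _
  have h2 : |(t : ℝ) - 0| ≤ 2 := by
    rw [sub_zero]; exact abs_le.mpr t.2
  calc ‖L g t‖ ≤ ‖g‖ * |(t : ℝ) - 0| := h1
    _ ≤ ‖g‖ * 2 := by gcongr
    _ = 2 * ‖g‖ := mul_comm _ _

/-- solutions of the rescaled integral equation depend smoothly on the data -/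
theorem exists_sol_flow [FiniteDimensional ℝ E] {Y : E → E} (hY : ContDiff ℝ 2 Y) (v0 : E) :
    ∃ ψ : E × ℝ → C(Icc (-2 : ℝ) 2, E), ContDiffAt ℝ 2 ψ (v0, 0) ∧
      ψ (v0, 0) = ContinuousMap.const _ v0 ∧
      ∀ᶠ p in 𝓝 (v0, (0 : ℝ)), ∀ t ∈ Icc (-2 : ℝ) 2,
        ext_flow (ψ p) t = p.1 + p.2 • ∫ τ in (0 : ℝ)..t, Y (ext_flow (ψ p) τ) := by
  have : CompleteSpace E := FiniteDimensional.complete ℝ E
  obtain ⟨P, hP⟩ := exists_prim_flow (E := E)
  let Yc : C(E, E) := ⟨Y, hY.continuous⟩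
  let c : E →L[ℝ] C(Icc (-2 : ℝ) 2, E) := ContinuousLinearMap.const ℝ _
  have hc : ∀ v, c v = ContinuousMap.const _ v := fun v => rfl
  let G : (E × ℝ) × C(Icc (-2 : ℝ) 2, E) → C(Icc (-2 : ℝ) 2, E) :=
    fun p => p.2 - c p.1.1 - p.1.2 • P (Yc.comp p.2)
  have hN : ContDiff ℝ 2 fun γ : C(Icc (-2 : ℝ) 2, E) => Yc.comp γ :=
    contDiff_comp_left 2 Yc hY
  have hG : ContDiff ℝ 2 G :=
    (contDiff_snd.sub (c.contDiff.comp (contDiff_fst.comp contDiff_fst))).sub
      ((contDiff_snd.comp contDiff_fst).smul (P.contDiff.comp (hN.comp contDiff_snd)))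
  let u : (E × ℝ) × C(Icc (-2 : ℝ) 2, E) := ((v0, 0), c v0)
  have hGu : ContDiffAt ℝ 2 G u := hG.contDiffAt
  have hd : fderiv ℝ G u ∘L ContinuousLinearMap.inr ℝ (E × ℝ) C(Icc (-2 : ℝ) 2, E)
      = ContinuousLinearMap.id ℝ _ := by
    have h1 : HasFDerivAt (fun g => G ((v0, 0), g))
        (fderiv ℝ G u ∘L ContinuousLinearMap.inr ℝ (E × ℝ) C(Icc (-2 : ℝ) 2, E)) (c v0) :=
      HasFDerivAt.comp (c v0) (g := G) (f := fun g => ((v0, (0 : ℝ)), g))
        (hGu.differentiableAt (by norm_num)).hasFDerivAt (hasFDerivAt_prodMk_right _ _)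
    have h2 : HasFDerivAt (fun g => G ((v0, 0), g)) (ContinuousLinearMap.id ℝ _) (c v0) := by
      simp only [G, zero_smul, sub_zero]
      exact (hasFDerivAt_id _).sub_const _
    exact h1.unique h2
  have hinv : (fderiv ℝ G u ∘L
      ContinuousLinearMap.inr ℝ (E × ℝ) C(Icc (-2 : ℝ) 2, E)).IsInvertible := by
    rw [hd]
    exact ⟨ContinuousLinearEquiv.refl ℝ _, rfl⟩
  refine ⟨hGu.implicitFunction two_ne_zero hinv, hGu.contDiffAt_implicitFunction two_ne_zero hinv,
    hGu.implicitFunction_apply_self two_ne_zero hinv, ?_⟩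
  filter_upwards [hGu.eventually_apply_implicitFunction two_ne_zero hinv] with p hp t ht
  have h0 : G u = 0 := by simp only [G, u, zero_smul, sub_self]
  rw [h0] at hp
  have h1 := congrArg (fun g : C(Icc (-2 : ℝ) 2, E) => g ⟨t, ht⟩) hp
  simp only [G, ContinuousMap.sub_apply, ContinuousMap.smul_apply, hP, hc,
    ContinuousMap.const_apply, ContinuousMap.zero_apply] at h1
  rw [ext_of_mem_flow _ ht, sub_sub, sub_eq_zero] at *
  exact h1

end

/-- Existence of a local flow of class `C²`. -/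
theorem exists_flow {E : Type} [NormedAddCommGroup E] [NormedSpace ℝ E] [FiniteDimensional ℝ E]
    {Y : E → E} (hY : ContDiff ℝ 2 Y) (v0 : E) :
    ∃ Φ : E × ℝ → E, ContDiffAt ℝ 2 Φ (v0, 0) ∧ (∀ᶠ v in 𝓝 v0, Φ (v, 0) = v) ∧
      ∀ᶠ p in 𝓝 (v0, (0 : ℝ)), HasDerivAt (fun s => Φ (p.1, s)) (Y (Φ p)) p.2 := by
  have : CompleteSpace E := FiniteDimensional.complete ℝ E
  obtain ⟨ψ, hψ, hψ0, hsol⟩ := exists_sol_flow hY v0
  obtain ⟨K, S, hS, hK⟩ := (hY.of_le (by norm_num : (1 : ℕ∞ω) ≤ 2)).contDiffAt.exists_lipschitzOnWith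
    (x := v0)
  obtain ⟨r, hr, hrS⟩ := Metric.mem_nhds_iff.mp hS
  have hnear : ∀ᶠ p in 𝓝 (v0, (0 : ℝ)), ψ p ∈ ball (ContinuousMap.const _ v0) r := by
    apply hψ.continuousAt.eventually_mem
    rw [hψ0]
    exact ball_mem_nhds _ hr
  obtain ⟨δ, hδ, hb⟩ := Metric.eventually_nhds_iff_ball.mp (hsol.and hnear)
  have h1 : (1 : ℝ) ∈ Icc (-2 : ℝ) 2 := by constructor <;> norm_num
  have h0 : (0 : ℝ) ∈ Icc (-2 : ℝ) 2 := by constructor <;> norm_num
  have hmem : ∀ v ∈ ball v0 δ, ∀ s : ℝ, |s| < δ → (v, s) ∈ ball (v0, (0 : ℝ)) δ := by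
    intro v hv s hs
    rw [← ball_prod_same]
    exact ⟨hv, by simpa using hs⟩
  have hin : ∀ p ∈ ball (v0, (0 : ℝ)) δ, ∀ t, ext_flow (ψ p) t ∈ S := by
    intro p hp t
    apply hrS
    have := (hb p hp).2
    rw [mem_ball] at this ⊢
    exact lt_of_le_of_lt (ContinuousMap.dist_apply_le_dist (f := ψ p)
      (g := ContinuousMap.const _ v0) _) this
  have hini : ∀ p ∈ ball (v0, (0 : ℝ)) δ, ext_flow (ψ p) 0 = p.1 := by
    intro p hp
    rw [(hb p hp).1 0 h0]
    simp
  have hode : ∀ p ∈ ball (v0, (0 : ℝ)) δ, ∀ t ∈ Ioo (-2 : ℝ) 2,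
      HasDerivAt (ext_flow (ψ p)) (p.2 • Y (ext_flow (ψ p) t)) t := by
    intro p hp t ht
    have a := (((hY.continuous.comp (continuous_ext_flow (ψ p))).integral_hasStrictDerivAt
      0 t).hasDerivAt.const_smul p.2).const_add p.1
    refine a.congr_of_eventuallyEq ?_
    filter_upwards [Icc_mem_nhds ht.1 ht.2] with x hx
    exact (hb p hp).1 x hx
  have hδ2 : |δ / 2| < δ := by rw [abs_of_pos (by linarith)]; linarith
  have hscale : ∀ v ∈ ball v0 δ, ∀ s : ℝ, |s| < δ / 2 →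
      ext_flow (ψ (v, s)) 1 = ext_flow (ψ (v, δ / 2)) (s / (δ / 2)) := by
    intro v hv s hs
    have hp := hmem v hv s (by linarith)
    have hq := hmem v hv (δ / 2) hδ2
    have hs1 : |s / (δ / 2)| < 1 := by
      rw [abs_div, abs_of_pos (by linarith : 0 < δ / 2), div_lt_one (by linarith)]
      exact hs
    have key := ODE_solution_unique_of_mem_Ioo (v := fun _ x => s • Y x) (s := fun _ => S)
      (K := ‖s‖₊ * K) (a := -2) (b := 2) (t₀ := 0) (f := ext_flow (ψ (v, s)))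
      (g := fun t => ext_flow (ψ (v, δ / 2)) (s / (δ / 2) * t))
      (fun _ _ => (lipschitzWith_smul s).comp_lipschitzOnWith hK) (by constructor <;> norm_num)
      (fun t ht => ⟨hode _ hp t ht, hin _ hp t⟩)
      (fun t ht => ⟨by
        have ht' : s / (δ / 2) * t ∈ Ioo (-2 : ℝ) 2 := by
          have a1 : |t| < 2 := abs_lt.mpr ht
          have a2 : |s / (δ / 2) * t| < 2 := by
            rw [abs_mul]
            nlinarith [abs_nonneg t, abs_nonneg (s / (δ / 2))]
          exact abs_lt.mp a2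
        have a := (hode _ hq _ ht').scomp t ((hasDerivAt_id t).const_mul (s / (δ / 2)))
        refine a.congr_deriv ?_
        rw [smul_smul]
        congr 1
        field_simp, hin _ hq _⟩)
      (by rw [mul_zero, hini _ hp, hini _ hq])
    have := key (show (1 : ℝ) ∈ Ioo (-2 : ℝ) 2 by constructor <;> norm_num)
    simpa only [mul_one] using this
  refine ⟨fun p => ext_flow (ψ p) 1, ?_, ?_, ?_⟩
  · simp only [ext_of_mem_flow _ h1]
    exact (ContinuousMap.evalCLM ℝ (⟨1, h1⟩ : Icc (-2 : ℝ) 2)).contDiff.contDiffAt.comp _ hψ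
  · filter_upwards [ball_mem_nhds v0 hδ] with v hv
    rw [(hb _ (hmem v hv 0 (by simpa using hδ))).1 1 h1]
    simp
  · filter_upwards [ball_mem_nhds (v0, (0 : ℝ)) (half_pos hδ)] with p hp
    rw [← ball_prod_same] at hp
    have hv : p.1 ∈ ball v0 δ := ball_subset_ball (by linarith) hp.1
    have hs : |p.2| < δ / 2 := by simpa using hp.2
    have hq := hmem p.1 hv (δ / 2) hδ2
    have hs1 : |p.2 / (δ / 2)| < 1 := by
      rw [abs_div, abs_of_pos (by linarith : 0 < δ / 2), div_lt_one (by linarith)]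
      exact hs
    have ht' : p.2 / (δ / 2) ∈ Ioo (-2 : ℝ) 2 := by
      have := abs_lt.mp hs1
      constructor <;> linarith [this.1, this.2]
    have a := (hode _ hq _ ht').scomp p.2 ((hasDerivAt_id p.2).div_const (δ / 2))
    have b : HasDerivAt (fun s => ext_flow (ψ (p.1, δ / 2)) (s / (δ / 2)))
        (Y (ext_flow (ψ p) 1)) p.2 := by
      refine a.congr_deriv ?_
      rw [smul_smul, hscale p.1 hv p.2 hs]
      have : 1 / (δ / 2) * (δ / 2) = 1 := by field_simp
      rw [this, one_smul]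
    refine b.congr_of_eventuallyEq ?_
    filter_upwards [(isOpen_lt continuous_abs continuous_const).mem_nhds hs] with s hs'
    exact hscale p.1 hv s hs'

end Pool.Agent.Lib.MP_a52643_an.H60
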