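import Pool.Agent.Lib.MP_a52643_an.H60Plane

open MeasureTheory Set Filter Topology Metric
open scoped ENNReal NNReal ContDiff Laplacian FourierTransform Real

noncomputable section

namespace Pool.Agent.Lib.MP_a52643_an.H60

/-- Normalised triangles with a margin. -/
def tri_pl2 (κ : ℝ) : Set R3 :=
  {a | a.1 = 1 ∧ 0 ≤ a.2.1 ∧ 0 ≤ a.2.2 ∧ (2 + κ) * a.1 ≤ a.1 + a.2.1 + a.2.2 ∧
    (2 + κ) * a.2.1 ≤ a.1 + a.2.1 + a.2.2 ∧ (2 + κ) * a.2.2 ≤ a.1 + a.2.1 + a.2.2}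

theorem isCompact_tri_pl2 {κ : ℝ} (hκ : 0 < κ) : IsCompact (tri_pl2 κ) := by
  have hcl : IsClosed (tri_pl2 κ) := by
    unfold tri_pl2
    simp only [ofPred_and]
    refine IsClosed.inter ?_ (IsClosed.inter ?_ (IsClosed.inter ?_ (IsClosed.inter ?_
      (IsClosed.inter ?_ ?_))))
    · exact isClosed_eq (by fun_prop) (by fun_prop)
    all_goals exact isClosed_le (by fun_prop) (by fun_prop)
  refine (isCompact_Icc (a := ((1, 0, 0) : R3)) (b := ((1, 2 / κ, 2 / κ) : R3))).of_isClosed_subset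
    hcl ?_
  rintro ⟨a, b, c⟩ ⟨h1, h2, h3, -, h5, h6⟩
  simp only at h1 h2 h3 h5 h6
  subst h1
  have hb : b ≤ 2 / κ := by
    rw [le_div_iff₀ hκ]
    nlinarith [mul_nonneg hκ.le h3]
  have hc : c ≤ 2 / κ := by
    rw [le_div_iff₀ hκ]
    nlinarith [mul_nonneg hκ.le h2]
  exact ⟨⟨le_rfl, h2, h3⟩, le_rfl, hb, hc⟩

theorem tri_of_pl2 {κ : ℝ} (hκ : 0 < κ) : ∀ a ∈ tri_pl2 κ, Tri a := by
  rintro ⟨a, b, c⟩ ⟨h1, h2, h3, h4, h5, h6⟩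
  simp only at h1 h2 h3 h4 h5 h6
  subst h1
  refine ⟨?_, ?_, ?_⟩
  · show (1 : ℝ) < b + c
    linarith
  · show b < 1 + c
    by_contra h
    nlinarith [not_lt.1 h]
  · show c < 1 + b
    by_contra h
    nlinarith [not_lt.1 h]

/-- The same in terms of eigenvalues, with real numbers. -/
theorem plane_real {U : Set ℂ} (hU : IsOpen U) {u : ℂ → ℝ} (hu : ContDiffOn ℝ ∞ u U)
    {ψ : ℂ → ℝ} (hψ : ContDiff ℝ ∞ ψ) (hc : HasCompactSupport ψ) (hs : tsupport ψ ⊆ U)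
    (hK : ∀ x ∈ tsupport ψ, Δ u x ≠ 0) {κ : ℝ} (hκ : 0 < κ) :
    ∃ S : Set ℂ, IsCompact S ∧ S ⊆ U ∧ ∀ N : ℝ≥0∞, N ≠ ⊤ → ∃ C L : ℝ,
      ∀ (φ : Fin 3 → ℂ → ℝ) (lam : Fin 3 → ℝ), (∀ i, HelU U u (lam i) (φ i)) →
      (∀ i, NN S (φ i) ≤ N) → (∀ i, L ≤ lam i) → (∀ i, (2 + κ) * √(lam i) ≤ ∑ j, √(lam j)) →
      |∫ y, ψ y * (φ 0 y * φ 1 y * φ 2 y)| ≤ C * lam 0 ^ (-(1 / 16) : ℝ) := by
  obtain ⟨S, hS, hSU, C, hC, τ0, hτ0, H⟩ :=
    plane hU hu hψ hc hs hK (isCompact_tri_pl2 hκ) (tri_of_pl2 hκ)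
  refine ⟨S, hS, hSU, fun N hN => ?_⟩
  have hp : 0 < 4 * π ^ 2 := by positivity
  set D : ℝ := (C * (N * N * N)).toReal * (4 * π ^ 2) ^ (1 / 8 : ℝ) with hD
  have D0 : 0 ≤ D := by positivity
  refine ⟨√D, max 1 (4 * π ^ 2 / τ0 ^ 8), fun φ lam hφ hNN hL hT => ?_⟩
  have l1 : ∀ i, 0 < lam i := fun i => lt_of_lt_of_le one_pos ((le_max_left _ _).trans (hL i))
  have s0 : 0 < √(lam 0) := Real.sqrt_pos.2 (l1 0)
  set τ : ℝ := (4 * π ^ 2 / lam 0) ^ (1 / 8 : ℝ) with hτ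
  have q0 : 0 < 4 * π ^ 2 / lam 0 := div_pos hp (l1 0)
  have τp : 0 < τ := Real.rpow_pos_of_pos q0 _
  have τ8 : τ ^ 8 = 4 * π ^ 2 / lam 0 := by
    rw [hτ, ← Real.rpow_natCast, ← Real.rpow_mul q0.le]
    norm_num
  have τle : τ ≤ τ0 := by
    refine le_of_pow_le_pow_left₀ (n := 8) (by norm_num) hτ0.le ?_
    have h1 := (le_max_right _ _).trans (hL 0)
    rw [div_le_iff₀ (by positivity)] at h1
    rw [τ8, div_le_iff₀ (l1 0)]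
    linarith
  have ha : ((1, √(lam 1) / √(lam 0), √(lam 2) / √(lam 0)) : R3) ∈ tri_pl2 κ := by
    have e : (1 : ℝ) + √(lam 1) / √(lam 0) + √(lam 2) / √(lam 0) =
        (∑ j, √(lam j)) / √(lam 0) := by
      rw [Fin.sum_univ_three]
      field_simp
    refine ⟨rfl, by positivity, by positivity, ?_, ?_, ?_⟩
    · show (2 + κ) * 1 ≤ 1 + √(lam 1) / √(lam 0) + √(lam 2) / √(lam 0)
      rw [e, le_div_iff₀ s0, mul_one]
      exact hT 0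
    · show (2 + κ) * (√(lam 1) / √(lam 0)) ≤ 1 + √(lam 1) / √(lam 0) + √(lam 2) / √(lam 0)
      rw [e, ← mul_div_assoc]
      exact div_le_div_of_nonneg_right (hT 1) s0.le
    · show (2 + κ) * (√(lam 2) / √(lam 0)) ≤ 1 + √(lam 1) / √(lam 0) + √(lam 2) / √(lam 0)
      rw [e, ← mul_div_assoc]
      exact div_le_div_of_nonneg_right (hT 2) s0.le
  have e0 : 4 * π ^ 2 * (1 : ℝ) ^ 2 / τ ^ 8 = lam 0 := by
    rw [τ8]
    field_simp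
  have ei : ∀ i, 4 * π ^ 2 * (√(lam i) / √(lam 0)) ^ 2 / τ ^ 8 = lam i := by
    intro i
    have := (l1 0).ne'
    rw [τ8, div_pow, Real.sq_sqrt (l1 i).le, Real.sq_sqrt (l1 0).le]
    field_simp
  have h1 := H τ ⟨τp, τle⟩ _ ha (φ 0) (φ 1) (φ 2) (by rw [e0]; exact hφ 0)
    (by rw [ei 1]; exact hφ 1) (by rw [ei 2]; exact hφ 2)
  have h2 : ‖∫ y, ψ y * (φ 0 y * φ 1 y * φ 2 y)‖ₑ ^ 2 ≤ C * (N * N * N) * ENNReal.ofReal τ := by
    refine h1.trans ?_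
    rw [mul_right_comm]
    gcongr
    · exact hNN 0
    · exact hNN 1
    · exact hNN 2
  have hfin : C * (N * N * N) * ENNReal.ofReal τ ≠ ⊤ :=
    ENNReal.mul_ne_top (ENNReal.mul_ne_top hC (ENNReal.mul_ne_top (ENNReal.mul_ne_top hN hN) hN))
      ENNReal.ofReal_ne_top
  have h3 := ENNReal.toReal_mono hfin h2
  rw [ENNReal.toReal_pow, toReal_enorm, ENNReal.toReal_mul, ENNReal.toReal_ofReal τp.le,
    Real.norm_eq_abs, sq_abs] at h3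
  refine abs_le_of_sq_le_sq (h3.trans (le_of_eq ?_))
    (mul_nonneg (Real.sqrt_nonneg _) (Real.rpow_nonneg (l1 0).le _))
  rw [mul_pow, Real.sq_sqrt D0, hD, hτ, Real.div_rpow hp.le (l1 0).le, ← Real.rpow_natCast,
    ← Real.rpow_natCast (lam 0 ^ (-(1 / 16) : ℝ)), ← Real.rpow_mul (l1 0).le, mul_assoc,
    div_eq_mul_inv, ← Real.rpow_neg (l1 0).le]
  norm_num
  ring

end Pool.Agent.Lib.MP_a52643_an.H60
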