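import Pool.Agent.Lib.MP_a52643_an.H60Unf
import Pool.Agent.Lib.MP_a52643_an.H60Plane2

open MeasureTheory Set Filter Topology Metric UpperHalfPlane
open scoped ENNReal NNReal ContDiff Laplacian MatrixGroups

noncomputable section

namespace Pool.Agent.Lib.MP_a52643_an.H60

/-- Logarithm of the Euclidean conformal factor, halved. -/
def uu (ρ : ℍ → ℝ) (w : ℂ) : ℝ := Real.log (ρ (ofComplex w)) / 2 - Real.log w.im

theorem contDiffOn_logim_glob : ContDiffOn ℝ ∞ (fun w : ℂ => Real.log w.im) UH :=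
  Complex.imCLM.contDiff.contDiffOn.log fun _ hw => ne_of_gt hw

theorem contDiffOn_uu {ρ : ℍ → ℝ} (h0 : ∀ z, 0 < ρ z)
    (hs : ContDiffOn ℝ ∞ (fun w : ℂ => ρ (ofComplex w)) UH) : ContDiffOn ℝ ∞ (uu ρ) UH :=
  ((hs.log fun _ _ => (h0 _).ne').div_const 2).sub contDiffOn_logim_glob

theorem exp_uu {ρ : ℍ → ℝ} (h0 : ∀ z, 0 < ρ z) {w : ℂ} (hw : w ∈ UH) :
    Real.exp (2 * uu ρ w) = ρ (ofComplex w) / w.im ^ 2 := by
  have h1 : 0 < w.im := hw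
  have h2 : 2 * uu ρ w = Real.log (ρ (ofComplex w)) - Real.log (w.im ^ 2) := by
    rw [uu, Real.log_pow]; push_cast; ring
  rw [h2, Real.exp_sub, Real.exp_log (h0 _), Real.exp_log (by positivity)]

theorem hasFDerivAt_logim_glob {w : ℂ} (hw : w ∈ UH) :
    HasFDerivAt (fun w : ℂ => Real.log w.im) ((w.im)⁻¹ • Complex.imCLM) w :=
  (Complex.imCLM.hasFDerivAt (x := w)).log (ne_of_gt hw)

theorem laplacian_logim_glob {w : ℂ} (hw : w ∈ UH) :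
    Δ (fun w : ℂ => Real.log w.im) w = -(w.im ^ 2)⁻¹ := by
  have h1 : w.im ≠ 0 := ne_of_gt hw
  have e1 : fderiv ℝ (fun w : ℂ => Real.log w.im) =ᶠ[𝓝 w]
      fun w : ℂ => (w.im)⁻¹ • Complex.imCLM := by
    filter_upwards [isOpen_UH.mem_nhds hw] with y hy using (hasFDerivAt_logim_glob hy).fderiv
  have d1 : HasFDerivAt (fun w : ℂ => (w.im)⁻¹) ((-(w.im ^ 2)⁻¹) • Complex.imCLM) w :=
    (hasDerivAt_inv h1).comp_hasFDerivAt w (Complex.imCLM.hasFDerivAt (x := w))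
  have d2 := (d1.smul_const Complex.imCLM).fderiv
  rw [InnerProductSpace.laplacian_eq_iteratedFDeriv_complexPlane]
  simp only [iteratedFDeriv_two_apply, e1.fderiv_eq, d2]
  simp

theorem laplacian_uu {ρ : ℍ → ℝ} (h0 : ∀ z, 0 < ρ z)
    (hs : ContDiffOn ℝ ∞ (fun w : ℂ => ρ (ofComplex w)) UH) {w : ℂ} (hw : w ∈ UH) :
    w.im ^ 2 * Δ (uu ρ) w =
      1 + w.im ^ 2 * Δ (fun w : ℂ => Real.log (ρ (ofComplex w))) w / 2 := by
  have h1 : w.im ≠ 0 := ne_of_gt hw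
  have hn := isOpen_UH.mem_nhds hw
  have c1 : ContDiffAt ℝ 2 (fun w : ℂ => Real.log (ρ (ofComplex w))) w :=
    ((hs.log fun _ _ => (h0 _).ne').contDiffAt hn).of_le (WithTop.coe_le_coe.2 le_top)
  have c2 : ContDiffAt ℝ 2 (fun w : ℂ => Real.log w.im) w :=
    (contDiffOn_logim_glob.contDiffAt hn).of_le (WithTop.coe_le_coe.2 le_top)
  have e : uu ρ = (2⁻¹ : ℝ) • (fun w : ℂ => Real.log (ρ (ofComplex w))) -
      fun w : ℂ => Real.log w.im := by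
    ext y; simp only [uu, Pi.sub_apply, Pi.smul_apply, smul_eq_mul]; ring
  have c3 : ContDiffAt ℝ 2 ((2⁻¹ : ℝ) • (fun w : ℂ => Real.log (ρ (ofComplex w)))) w :=
    c1.const_smul (2⁻¹ : ℝ)
  rw [e, ContDiffAt.laplacian_sub c3 c2,
    InnerProductSpace.laplacian_smul _ c1, laplacian_logim_glob hw, smul_eq_mul]
  field_simp
  ring

theorem cont_glob {f : ℍ → ℝ} (h : ContDiffOn ℝ ∞ (fun w : ℂ => f (ofComplex w)) UH) :
    Continuous f := by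
  have := h.continuousOn.comp_continuous continuous_coe fun z => z.im_pos
  simpa only [Function.comp_def, ofComplex_apply] using this

theorem smooth_mul_glob {f g : ℂ → ℝ} (hf : ContDiff ℝ ∞ f) (hs : tsupport f ⊆ UH)
    (hg : ContDiffOn ℝ ∞ g UH) : ContDiff ℝ ∞ fun w => f w * g w := by
  refine contDiff_iff_contDiffAt.2 fun w => ?_
  by_cases hw : w ∈ tsupport f
  · exact hf.contDiffAt.mul (hg.contDiffAt (isOpen_UH.mem_nhds (hs hw)))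
  · refine (contDiffAt_const (c := (0 : ℝ))).congr_of_eventuallyEq ?_
    filter_upwards [notMem_tsupport_iff_eventuallyEq.1 hw] with y hy
    simp [hy]

theorem glob {Γ : Type} [Group Γ] [Countable Γ] [MulAction Γ ℍ] {l : Γ → SL2} {D : Set ℍ}
    (hD : FD l D) {ρ : ℍ → ℝ} (h0 : ∀ z, 0 < ρ z) (hi : ∀ (γ : Γ) z, ρ (γ • z) = ρ z)
    (hs : ContDiffOn ℝ ∞ (fun w : ℂ => ρ (ofComplex w)) UH)
    {ψ : ℍ → ℝ} (hψi : ∀ (γ : Γ) z, ψ (γ • z) = ψ z)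
    (hψs : ContDiffOn ℝ ∞ (fun w : ℂ => ψ (ofComplex w)) UH) {K : Set ℍ} (hK : IsCompact K)
    (hψ : ∀ z, ψ z ≠ 0 → ∃ γ : Γ, γ • z ∈ K)
    (hc : ∀ z ∈ tsupport ψ,
      1 + z.im ^ 2 * Δ (fun w : ℂ => Real.log (ρ (ofComplex w))) z / 2 ≠ 0)
    {κ : ℝ} (hκ : 0 < κ) :
    ∃ C L : ℝ, ∀ (φ : Fin 3 → ℍ → ℝ) (lam : Fin 3 → ℝ),
      (∀ i (γ : Γ) z, φ i (γ • z) = φ i z) →
      (∀ i, ContDiffOn ℝ ∞ (fun w : ℂ => φ i (ofComplex w)) UH) →
      (∀ i (z : ℍ), z.im ^ 2 * Δ (fun w : ℂ => φ i (ofComplex w)) z = -lam i * ρ z * φ i z) →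
      (∀ i, ∫ z in D, φ i z ^ 2 * ρ z = 1) → (∀ i, L ≤ lam i) →
      (∀ i, (2 + κ) * √(lam i) ≤ ∑ j, √(lam j)) →
      |∫ z in D, ψ z * (φ 0 z * φ 1 z * φ 2 z) * ρ z| ≤ C * lam 0 ^ (-(1 / 16) : ℝ) := by
  obtain ⟨ψ0, s0, c0, t0, t1, e0⟩ := exists_cut hD hψi hψs hK hψ
  have hg : ContDiffOn ℝ ∞ (fun w : ℂ => ρ (ofComplex w) / w.im ^ 2) UH :=
    hs.div (Complex.imCLM.contDiff.contDiffOn.pow 2) fun w hw => pow_ne_zero 2 (ne_of_gt hw)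
  have s1 : ContDiff ℝ ∞ fun w : ℂ => ψ0 w * (ρ (ofComplex w) / w.im ^ 2) :=
    smooth_mul_glob s0 t0 hg
  have t2 : tsupport (fun w : ℂ => ψ0 w * (ρ (ofComplex w) / w.im ^ 2)) ⊆ tsupport ψ0 :=
    tsupport_mul_subset_left
  have hK' : ∀ x ∈ tsupport (fun w : ℂ => ψ0 w * (ρ (ofComplex w) / w.im ^ 2)),
      Δ (uu ρ) x ≠ 0 := by
    intro x hx h
    have hx' : x ∈ UH := t0 (t2 hx)
    have h1 := laplacian_uu h0 hs hx'
    have h2 := hc _ (t1 x (t2 hx))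
    rw [ofComplex_apply_of_im_pos hx'] at h2
    rw [h, mul_zero] at h1
    exact h2 h1.symm
  obtain ⟨S, hS, hSU, hN⟩ := plane_real isOpen_UH (contDiffOn_uu h0 hs) s1 c0.mul_right
    (t2.trans t0) hK' hκ
  obtain ⟨N, hN1, hN2⟩ := NN_le hD hS hSU (cont_glob hs) h0 hi
  obtain ⟨C, L, hC⟩ := hN N hN1
  refine ⟨C, L, fun φ lam h1 h2 h3 h4 h5 h6 => ?_⟩
  have hφ : ∀ i, Continuous (φ i) := fun i => cont_glob (h2 i)
  have h7 := hC (fun i w => φ i (ofComplex w)) lam (fun i => ⟨h2 i, fun y hy => ?_⟩)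
    (fun i => hN2 (φ i) (hφ i) (h1 i) (h4 i)) h5 h6
  · have h8 := unfold_int hD s0.continuous c0 t0
      (F := fun z => φ 0 z * φ 1 z * φ 2 z * ρ z)
      ((((hφ 0).mul (hφ 1)).mul (hφ 2)).mul (cont_glob hs))
      (fun γ z => by simp only [h1, hi])
    simp only [e0] at h8
    have h9 : ∫ z in D, ψ z * (φ 0 z * φ 1 z * φ 2 z) * ρ z =
        ∫ y : ℂ, ψ0 y * (ρ (ofComplex y) / y.im ^ 2) *
          (φ 0 (ofComplex y) * φ 1 (ofComplex y) * φ 2 (ofComplex y)) := by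
      simp only [mul_assoc (ψ _)]
      rw [h8]
      congr 1; ext y; ring
    rw [h9]
    exact h7
  · have h8 := h3 i ⟨y, hy⟩
    have h9 : y.im ≠ 0 := ne_of_gt hy
    rw [exp_uu h0 hy, ofComplex_apply_of_im_pos hy]
    have h10 : (⟨y, hy⟩ : ℍ).im = y.im := rfl
    have h11 : ((⟨y, hy⟩ : ℍ) : ℂ) = y := rfl
    rw [h10, h11] at h8
    field_simp
    linarith

end Pool.Agent.Lib.MP_a52643_an.H60
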