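import Pool.Agent.Lib.MP_a52643_an.H60FT0

open MeasureTheory Set Filter Topology Metric
open scoped ENNReal NNReal ContDiff Laplacian FourierTransform Real

noncomputable section

namespace Pool.Agent.Lib.MP_a52643_an.H60

variable {k : ℕ} {M δ ρ0 : ℝ} {w : ℂ → ℂ} {f n : ℂ → ℝ}

theorem four_add_green {g h : ℂ → ℂ} (hg : Integrable g) (hh : Integrable h) (η : ℂ) :
    𝓕 (fun Y => g Y + h Y) η = 𝓕 g η + 𝓕 h η := by
  have hL : Continuous fun p : ℂ × ℂ => (innerₗ ℂ) p.1 p.2 := continuous_inner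
  have := VectorFourier.fourierIntegral_add (μ := (volume : Measure ℂ)) (L := innerₗ ℂ)
    Real.continuous_fourierChar hL hg hh
  exact congrFun this η

theorem four_fderiv_green {g : ℂ → ℂ} (hg : ContDiff ℝ 1 g) (hc : HasCompactSupport g)
    (e η : ℂ) :
    𝓕 (fun Y => fderiv ℝ g Y e) η = 2 * π * Complex.I * ((inner ℝ e η : ℝ) : ℂ) * 𝓕 g η := by
  have h1 : Integrable g := hg.continuous.integrable_of_hasCompactSupport hc
  have h2 : Integrable (fderiv ℝ g) :=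
    (hg.continuous_fderiv one_ne_zero).integrable_of_hasCompactSupport (hc.fderiv ℝ)
  rw [← Real.fourier_continuousLinearMap_apply h2,
    Real.fourier_fderiv h1 (hg.differentiable one_ne_zero) h2]
  have h3 : (-innerSL ℝ : ℂ →L[ℝ] ℂ →L[ℝ] ℝ) η e = -inner ℝ e η := by
    rw [real_inner_comm]; rfl
  rw [VectorFourier.fourierSMulRight_apply, h3, smul_eq_mul, Complex.real_smul]
  push_cast
  ring

theorem cont_dd_green (hw : ContDiff ℝ ∞ w) (e : ℂ) : ContDiff ℝ ∞ (dd e w) := by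
  unfold dd
  exact (hw.fderiv_right (m := ∞) (by simp)).clm_apply contDiff_const

theorem tsupp_dd_green (w : ℂ → ℂ) (e : ℂ) : tsupport (dd e w) ⊆ tsupport w := by
  unfold dd
  exact tsupport_fderiv_apply_subset ℝ e

theorem adm_dd_green (hw : Adm k M w) (e : ℂ) : ∃ M', Adm 0 M' (dd e w) :=
  exists_adm 0 (cont_dd_green hw.sm e) ((tsupp_dd_green w e).trans hw.supp)

theorem cont_fd_green (hf : ContDiff ℝ ∞ f) (e : ℂ) :
    ContDiff ℝ ∞ fun Y => fderiv ℝ f Y e :=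
  (hf.fderiv_right (m := ∞) (by simp)).clm_apply contDiff_const

/-- Integration by parts. -/
theorem FT_fderiv (hδ : 0 < δ) (hf : ContDiff ℝ ∞ f) (hw : Adm k M w) (e ξ : ℂ) :
    FT δ (fun Y => fderiv ℝ f Y e) w ξ =
      2 * π * Complex.I * ((inner ℝ e ξ : ℝ) : ℂ) / δ * FT δ f w ξ - FT δ f (dd e w) ξ := by
  obtain ⟨M', hw'⟩ := adm_dd_green hw e
  have hfc : ContDiff ℝ ∞ fun Y => (f Y : ℂ) := Complex.ofRealCLM.contDiff.comp hf
  have hg : ContDiff ℝ 1 fun Y => (f Y : ℂ) * w Y := (hfc.mul hw.sm).of_le (by simp)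
  have hc : HasCompactSupport fun Y => (f Y : ℂ) * w Y := hw.hcs.mul_left
  have key := four_fderiv_green hg hc e (δ⁻¹ • ξ)
  have hd : (fun Y => fderiv ℝ (fun Y => (f Y : ℂ) * w Y) Y e) =
      fun Y => ((fderiv ℝ f Y e : ℝ) : ℂ) * w Y + (f Y : ℂ) * dd e w Y := by
    funext Y
    have h1 : HasFDerivAt f (fderiv ℝ f Y) Y := (hf.differentiable (by simp) Y).hasFDerivAt
    have h2 : HasFDerivAt w (fderiv ℝ w Y) Y := (hw.sm.differentiable (by simp) Y).hasFDerivAt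
    have h3 := (Complex.ofRealCLM.hasFDerivAt.comp Y h1).mul h2
    have h4 : fderiv ℝ (fun Y => (f Y : ℂ) * w Y) Y = _ := h3.fderiv
    rw [h4]
    simp [dd]
    ring
  have i1 : Integrable fun Y => ((fderiv ℝ f Y e : ℝ) : ℂ) * w Y :=
    ((Complex.continuous_ofReal.comp (cont_fd_green hf e).continuous).mul
      hw.sm.continuous).integrable_of_hasCompactSupport hw.hcs.mul_left
  have i2 : Integrable fun Y => (f Y : ℂ) * dd e w Y :=
    (hfc.continuous.mul hw'.sm.continuous).integrable_of_hasCompactSupport hw'.hcs.mul_left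
  rw [hd, four_add_green i1 i2, real_inner_smul_right] at key
  unfold FT
  rw [eq_sub_of_add_eq key]
  push_cast
  ring

theorem FT_dd (hf : Continuous f) (hw : Adm k M w) (e ξ : ℂ) :
    FT δ f (dd e w) ξ =
      (e.re : ℂ) * FT δ f (dd 1 w) ξ + (e.im : ℂ) * FT δ f (dd Complex.I w) ξ := by
  obtain ⟨M1, h1⟩ := adm_dd_green hw 1
  obtain ⟨M2, h2⟩ := adm_dd_green hw Complex.I
  have hd : dd e w = fun Y => (e.re : ℂ) * dd 1 w Y + (e.im : ℂ) * dd Complex.I w Y := by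
    funext Y
    have he : e = e.re • (1 : ℂ) + e.im • Complex.I := by
      simp [Complex.re_add_im]
    unfold dd
    conv_lhs => rw [he]
    rw [map_add, map_smul, map_smul]
    simp
  have e4 := FT_add (δ := δ) hf (w := fun Y => (e.re : ℂ) * dd 1 w Y)
    (w' := fun Y => (e.im : ℂ) * dd Complex.I w Y)
    (continuous_const.mul h1.sm.continuous) h1.hcs.mul_left
    (continuous_const.mul h2.sm.continuous) h2.hcs.mul_left ξ
  rw [hd, e4, FT_const_mul, FT_const_mul]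

theorem fd2_green (hf : ContDiff ℝ ∞ f) (e Y : ℂ) :
    iteratedFDeriv ℝ 2 f Y ![e, e] = fderiv ℝ (fun Y => fderiv ℝ f Y e) Y e := by
  have h1 : DifferentiableAt ℝ (fderiv ℝ f) Y :=
    (hf.fderiv_right (m := ∞) (by simp)).differentiable (by simp) Y
  rw [iteratedFDeriv_two_apply, fderiv_clm_apply h1 (differentiableAt_const e)]
  simp

theorem FT_fd2_green (hδ : 0 < δ) (hf : ContDiff ℝ ∞ f) (hw : Adm k M w) (e ξ : ℂ) :
    FT δ (fun Y => fderiv ℝ (fun Y => fderiv ℝ f Y e) Y e) w ξ =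
      (2 * π * Complex.I * ((inner ℝ e ξ : ℝ) : ℂ) / δ) ^ 2 * FT δ f w ξ
        - 2 * (2 * π * Complex.I * ((inner ℝ e ξ : ℝ) : ℂ) / δ) * FT δ f (dd e w) ξ
        + FT δ f (dd e (dd e w)) ξ := by
  obtain ⟨M', hw'⟩ := adm_dd_green hw e
  rw [FT_fderiv hδ (cont_fd_green hf e) hw, FT_fderiv hδ hf hw, FT_fderiv hδ hf hw']
  ring

/-- The Helmholtz equation after the transform. -/
theorem green (hδ : 0 < δ) (h : Hel δ ρ0 n f) (hw : Adm k M w) (ξ : ℂ) :
    4 * π ^ 2 * ((‖ξ‖ ^ 2 - ρ0 : ℝ) : ℂ) * FT δ f w ξ =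
      -(4 * π * Complex.I * δ) * FT δ f (dd ξ w) ξ
      + (δ : ℂ) ^ 2 * (FT δ f (dd 1 (dd 1 w)) ξ + FT δ f (dd Complex.I (dd Complex.I w)) ξ)
      + 4 * π ^ 2 * δ * FT δ f (fun Y => cx n Y * w Y) ξ := by
  have hf := h.sf
  have e1 := FT_fd2_green hδ hf hw 1 ξ
  have e2 := FT_fd2_green hδ hf hw Complex.I ξ
  have e3 := FT_dd (δ := δ) hf.continuous hw ξ ξ
  have hn : Continuous (cx n) := (contDiff_cx h.sn).continuous
  have e4 := FT_add (δ := δ) hf.continuous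
    (w := fun Y => (-(4 * π ^ 2 * ρ0) : ℂ) * w Y)
    (w' := fun Y => (-(4 * π ^ 2 * δ) : ℂ) * (cx n Y * w Y))
    (continuous_const.mul hw.sm.continuous) hw.hcs.mul_left
    (continuous_const.mul (hn.mul hw.sm.continuous)) hw.hcs.mul_left.mul_left ξ
  rw [FT_const_mul, FT_const_mul] at e4
  have i1 : ∀ e : ℂ, Integrable fun Y =>
      ((fderiv ℝ (fun Y => fderiv ℝ f Y e) Y e : ℝ) : ℂ) * ((δ : ℂ) ^ 2 * w Y) := fun e =>
    ((Complex.continuous_ofReal.comp (cont_fd_green (cont_fd_green hf e) e).continuous).mul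
      (continuous_const.mul hw.sm.continuous)).integrable_of_hasCompactSupport
        hw.hcs.mul_left.mul_left
  have e5 : FT δ (fun Y => fderiv ℝ (fun Y => fderiv ℝ f Y 1) Y 1) (fun Y => (δ : ℂ) ^ 2 * w Y) ξ
      + FT δ (fun Y => fderiv ℝ (fun Y => fderiv ℝ f Y Complex.I) Y Complex.I)
        (fun Y => (δ : ℂ) ^ 2 * w Y) ξ
      = FT δ f (fun Y => (-(4 * π ^ 2 * ρ0) : ℂ) * w Y
        + (-(4 * π ^ 2 * δ) : ℂ) * (cx n Y * w Y)) ξ := by
    unfold FT
    rw [← mul_add, ← four_add_green (i1 1) (i1 Complex.I)]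
    refine congrArg (fun g : ℂ → ℂ => ((δ⁻¹ : ℝ) : ℂ) * 𝓕 g (δ⁻¹ • ξ)) ?_
    funext Y
    by_cases hY : Y ∈ ball (0 : ℂ) 1
    · have h1 := h.eq Y hY
      rw [InnerProductSpace.laplacian_eq_iteratedFDeriv_complexPlane] at h1
      simp only [fd2_green hf] at h1
      have h2 := congrArg (fun t : ℝ => (t : ℂ)) h1
      simp only [cx]
      push_cast at h2
      linear_combination (w Y) * h2
    · simp [hw.zero hY]
  rw [FT_const_mul, FT_const_mul, e4, e1, e2] at e5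
  have r1 : (inner ℝ (1 : ℂ) ξ : ℝ) = ξ.re := by simp [Complex.inner]
  have r2 : (inner ℝ Complex.I ξ : ℝ) = ξ.im := by simp [Complex.inner]
  have r3 : ‖ξ‖ ^ 2 = ξ.re ^ 2 + ξ.im ^ 2 := by
    rw [← Complex.normSq_eq_norm_sq, Complex.normSq_apply]; ring
  rw [r1, r2] at e5
  rw [r3, e3]
  have hδ' : (δ : ℂ) ≠ 0 := by exact_mod_cast hδ.ne'
  field_simp at e5
  push_cast
  have hI : Complex.I ^ 2 = -1 := Complex.I_sq
  linear_combination (-1 : ℂ) * e5
    + 4 * π ^ 2 * ((ξ.re : ℂ) ^ 2 + (ξ.im : ℂ) ^ 2) * FT δ f w ξ * hI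

end Pool.Agent.Lib.MP_a52643_an.H60
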