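import Pool.Agent.Lib.MP_a52643_an.H60Pol0

open MeasureTheory Set Filter Topology Metric
open scoped ENNReal NNReal ContDiff Laplacian FourierTransform Real

noncomputable section

namespace Pool.Agent.Lib.MP_a52643_an.H60

theorem T3_univ_young (g1 g2 g3 : ℂ → ℝ≥0∞) :
    T3 univ g1 g2 g3 = ∫⁻ z3, ∫⁻ z1, g1 z1 * g2 (-z1 - z3) * g3 z3 := by
  simp only [T3, indicator_univ, Pi.one_apply, one_mul]

theorem refl_young (c : ℂ) (g : ℂ → ℝ≥0∞) : ∫⁻ z, g (-z - c) = ∫⁻ z, g z := by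
  rw [← lintegral_sub_left_eq_self g (-c)]
  refine lintegral_congr fun z => ?_
  congr 1
  ring

theorem cs_young (c : ℂ) {f g : ℂ → ℝ≥0∞} (hf : Measurable f) (hg : Measurable g) :
    ∫⁻ z, f z * g (-z - c) ≤
      (∫⁻ z, f z ^ 2) ^ (1 / 2 : ℝ) * (∫⁻ z, g z ^ 2) ^ (1 / 2 : ℝ) := by
  have h := ENNReal.lintegral_mul_le_Lp_mul_Lq (volume : Measure ℂ)
    Real.HolderConjugate.two_two hf.aemeasurable
    (g := fun z => g (-z - c)) (Measurable.aemeasurable (by fun_prop))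
  simp only [Pi.mul_apply, ENNReal.rpow_two] at h
  rwa [refl_young c (fun z => g z ^ 2)] at h

theorem sq_half_young (x : ℝ≥0∞) : (x ^ (1 / 2 : ℝ)) ^ 2 = x := by
  rw [← ENNReal.rpow_two, ← ENNReal.rpow_mul]
  norm_num

/-- Young type inequalities for the trilinear integral. -/
theorem young1 {g1 g2 g3 : ℂ → ℝ≥0∞} (h1 : Measurable g1) (h2 : Measurable g2)
    (h3 : Measurable g3) :
    T3 univ g1 g2 g3 ^ 2 ≤ (∫⁻ z, g1 z) ^ 2 * (∫⁻ z, g2 z ^ 2) * ∫⁻ z, g3 z ^ 2 := by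
  have k : T3 univ g1 g2 g3 ≤ (∫⁻ z, g1 z) *
      ((∫⁻ z, g3 z ^ 2) ^ (1 / 2 : ℝ) * (∫⁻ z, g2 z ^ 2) ^ (1 / 2 : ℝ)) := by
    rw [T3_univ_young, lintegral_lintegral_swap (Measurable.aemeasurable (by fun_prop)),
      ← lintegral_mul_const _ h1]
    refine lintegral_mono fun z1 => ?_
    have e : ∀ z3 : ℂ, g1 z1 * g2 (-z1 - z3) * g3 z3 = g1 z1 * (g3 z3 * g2 (-z3 - z1)) := by
      intro z3
      rw [show -z1 - z3 = -z3 - z1 by ring]
      ring
    simp only [e]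
    rw [lintegral_const_mul _ (by fun_prop)]
    exact mul_le_mul_right (cs_young z1 h3 h2) _
  refine (pow_le_pow_left' k 2).trans (le_of_eq ?_)
  rw [mul_pow, mul_pow, sq_half_young, sq_half_young]
  ring

theorem young3 {g1 g2 g3 : ℂ → ℝ≥0∞} (h1 : Measurable g1) (h2 : Measurable g2)
    (h3 : Measurable g3) :
    T3 univ g1 g2 g3 ^ 2 ≤ (∫⁻ z, g1 z ^ 2) * (∫⁻ z, g2 z ^ 2) * (∫⁻ z, g3 z) ^ 2 := by
  have k : T3 univ g1 g2 g3 ≤
      ((∫⁻ z, g1 z ^ 2) ^ (1 / 2 : ℝ) * (∫⁻ z, g2 z ^ 2) ^ (1 / 2 : ℝ)) * ∫⁻ z, g3 z := by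
    rw [T3_univ_young, ← lintegral_const_mul _ h3]
    refine lintegral_mono fun z3 => ?_
    rw [lintegral_mul_const _ (by fun_prop)]
    exact mul_le_mul_left (cs_young z3 h1 h2) _
  refine (pow_le_pow_left' k 2).trans (le_of_eq ?_)
  rw [mul_pow, mul_pow, sq_half_young, sq_half_young]

/-- Splitting into the resonant region and three tails. -/
theorem T3_split (a : R3) (η : ℝ) {g1 g2 g3 : ℂ → ℝ≥0∞} (h1 : Measurable g1)
    (h2 : Measurable g2) (h3 : Measurable g3) :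
    T3 univ g1 g2 g3 ≤ T3 (Res a η) g1 g2 g3 + (T3 univ ((Ann a.1 η)ᶜ.indicator g1) g2 g3 +
      T3 univ g1 ((Ann a.2.1 η)ᶜ.indicator g2) g3 +
      T3 univ g1 g2 ((Ann a.2.2 η)ᶜ.indicator g3)) := by
  have m1 := h1.indicator (measurableSet_Ann a.1 η).compl
  have m2 := h2.indicator (measurableSet_Ann a.2.1 η).compl
  have m3 := h3.indicator (measurableSet_Ann a.2.2 η).compl
  have m0 : Measurable ((Res a η).indicator (1 : ℂ × ℂ → ℝ≥0∞)) :=
    measurable_one.indicator (measurableSet_Res a η)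
  generalize hi1 : (Ann a.1 η)ᶜ.indicator g1 = i1 at m1 ⊢
  generalize hi2 : (Ann a.2.1 η)ᶜ.indicator g2 = i2 at m2 ⊢
  generalize hi3 : (Ann a.2.2 η)ᶜ.indicator g3 = i3 at m3 ⊢
  rw [T3_univ_young, T3_univ_young, T3_univ_young, T3_univ_young, T3]
  generalize hi0 : (Res a η).indicator (1 : ℂ × ℂ → ℝ≥0∞) = i0 at m0 ⊢
  rw [← lintegral_add_left (Measurable.lintegral_prod_right' (f := fun p : ℂ × ℂ =>
      i1 p.2 * g2 (-p.2 - p.1) * g3 p.1) (by fun_prop)),
    ← lintegral_add_right _ (Measurable.lintegral_prod_right' (f := fun p : ℂ × ℂ =>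
      g1 p.2 * g2 (-p.2 - p.1) * i3 p.1) (by fun_prop)),
    ← lintegral_add_left (Measurable.lintegral_prod_right' (f := fun p : ℂ × ℂ =>
      i0 (p.2, p.1) * (g1 p.2 * g2 (-p.2 - p.1) * g3 p.1)) (by fun_prop))]
  refine lintegral_mono fun z3 => ?_
  beta_reduce
  rw [← lintegral_add_left (by fun_prop), ← lintegral_add_left (by fun_prop),
    ← lintegral_add_left (by fun_prop)]
  refine lintegral_mono fun z1 => ?_
  beta_reduce
  by_cases k1 : z1 ∈ Ann a.1 η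
  · by_cases k2 : -z1 - z3 ∈ Ann a.2.1 η
    · by_cases k3 : z3 ∈ Ann a.2.2 η
      · have k0 : (z1, z3) ∈ Res a η := ⟨k1, k2, k3⟩
        rw [← hi0, indicator_of_mem k0, Pi.one_apply, one_mul]
        exact le_self_add
      · rw [← hi3, indicator_of_mem (mem_compl k3)]
        exact le_add_left le_add_self
    · rw [← hi2, indicator_of_mem (mem_compl k2)]
      exact le_add_left (le_add_right le_add_self)
  · rw [← hi1, indicator_of_mem (mem_compl k1)]
    exact le_add_left (le_add_right le_self_add)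

theorem lintegral_scale {t : ℝ} (ht : 0 < t) (g : ℂ → ℝ≥0∞) :
    ∫⁻ z, g z = ENNReal.ofReal (t ^ 2) * ∫⁻ z : ℂ, g (t • z) := by
  have h := lintegral_map_equiv (μ := (volume : Measure ℂ)) g (MeasurableEquiv.smul₀ t ht.ne')
  rw [MeasurableEquiv.coe_smul₀, Measure.map_addHaar_smul volume ht.ne', lintegral_smul_measure,
    Complex.finrank_real_complex] at h
  rw [← h, smul_eq_mul, ← mul_assoc, ← ENNReal.ofReal_mul (by positivity),
    abs_of_pos (by positivity), mul_inv_cancel₀ (by positivity), ENNReal.ofReal_one, one_mul]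

theorem T3_scale {t : ℝ} (ht : 0 < t) {g1 g2 g3 : ℂ → ℝ≥0∞} (h1 : Measurable g1)
    (h2 : Measurable g2) (h3 : Measurable g3) :
    T3 univ g1 g2 g3 = ENNReal.ofReal (t ^ 4) *
      T3 univ (fun z => g1 (t • z)) (fun z => g2 (t • z)) fun z => g3 (t • z) := by
  have _ := h1
  have _ := h2
  have _ := h3
  rw [T3_univ_young, T3_univ_young, lintegral_scale ht,
    show t ^ 4 = t ^ 2 * t ^ 2 by ring, ENNReal.ofReal_mul (by positivity), mul_assoc]
  congr 1
  rw [← lintegral_const_mul' _ _ ENNReal.ofReal_ne_top]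
  refine lintegral_congr fun z3 => ?_
  rw [lintegral_scale ht]
  simp only [smul_sub, smul_neg]

end Pool.Agent.Lib.MP_a52643_an.H60
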