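import Pool.Agent.Lib.MP_a52643_an.H60EL
import Pool.Agent.Lib.MP_a52643_an.H60Young

open MeasureTheory Set Filter Topology Metric
open scoped ENNReal NNReal ContDiff Laplacian FourierTransform Real

noncomputable section

namespace Pool.Agent.Lib.MP_a52643_an.H60

theorem cauchy_l1 (K a b : ℝ) (hK : 0 ≤ K) (hb : 0 < b) :
    ∫⁻ r : ℝ, ENNReal.ofReal (K * (1 + (b * (r - a)) ^ 2)⁻¹) = ENNReal.ofReal (K * (b⁻¹ * π)) := by
  have i1 : Integrable fun r : ℝ => (1 + (b * (r - a)) ^ 2)⁻¹ :=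
    (integrable_inv_one_add_sq.comp_mul_left' hb.ne').comp_sub_right a
  rw [← ofReal_integral_eq_lintegral_ofReal (i1.const_mul K)
    (Eventually.of_forall fun r => by positivity), integral_const_mul,
    integral_sub_right_eq_self (fun r : ℝ => (1 + (b * r) ^ 2)⁻¹) a,
    Measure.integral_comp_mul_left (fun r : ℝ => (1 + r ^ 2)⁻¹) b, integral_univ_inv_one_add_sq,
    abs_of_pos (inv_pos.2 hb), smul_eq_mul]

theorem quartic_l1 (t : ℝ) : 1 + t ^ 2 ≤ 2 * (1 + t ^ 4) ∧ |t| * (1 + t ^ 2) ≤ 2 * (1 + t ^ 4) := by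
  refine ⟨by nlinarith [sq_nonneg (t ^ 2 - 1)], ?_⟩
  have h4 : t ^ 4 = |t| ^ 4 := by rw [← abs_pow, abs_of_nonneg (by positivity)]
  rw [h4, ← sq_abs t]
  have h0 := abs_nonneg t
  generalize |t| = s at h0 ⊢
  nlinarith [sq_nonneg (s ^ 2 - 1), sq_nonneg (s - 1), sq_nonneg (s ^ 2 - s)]

theorem point_l1 {δ a c A r : ℝ} (hδ : 0 < δ) (hδ1 : δ ≤ 1) (hc : 0 < c) (hc1 : c ≤ 1)
    (hca : c ≤ a) (haA : a ≤ A) (hr : 0 ≤ r) :
    r * (1 + (|r ^ 2 - a ^ 2| / (δ * (1 + r))) ^ 4)⁻¹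
      ≤ (2 * A + 2 / c) * (1 + (c / δ * (r - a)) ^ 2)⁻¹ := by
  have ha : 0 < a := hc.trans_le hca
  set t := c / δ * (r - a) with ht
  have h1 : |t| = c * |r - a| / δ := by
    rw [ht, abs_mul, abs_of_pos (div_pos hc hδ)]; ring
  have h2 : |t| ≤ |r ^ 2 - a ^ 2| / (δ * (1 + r)) := by
    have e : |r ^ 2 - a ^ 2| = |r - a| * (r + a) := by
      rw [show r ^ 2 - a ^ 2 = (r - a) * (r + a) by ring, abs_mul, abs_of_pos (a := r + a)
        (by positivity)]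
    rw [h1, e, div_le_div_iff₀ hδ (by positivity)]
    have : c * (1 + r) ≤ r + a := by nlinarith
    have h3 := mul_le_mul_of_nonneg_left this (mul_nonneg (abs_nonneg (r - a)) hδ.le)
    nlinarith
  have h3 : t ^ 4 ≤ (|r ^ 2 - a ^ 2| / (δ * (1 + r))) ^ 4 := by
    have h4 : t ^ 4 = |t| ^ 4 := by rw [← abs_pow, abs_of_nonneg (by positivity)]
    rw [h4]
    exact pow_le_pow_left₀ (abs_nonneg _) h2 4
  have h4 : r ≤ A + |t| / c := by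
    have e : |t| / c = |r - a| / δ := by rw [h1]; field_simp
    have : |r - a| ≤ |r - a| / δ := le_div_self (abs_nonneg _) hδ hδ1
    rw [e]
    linarith [le_abs_self (r - a)]
  obtain ⟨q1, q2⟩ := quartic_l1 t
  have hA : 0 < A := ha.trans_le haA
  calc r * (1 + (|r ^ 2 - a ^ 2| / (δ * (1 + r))) ^ 4)⁻¹ ≤ (A + |t| / c) * (1 + t ^ 4)⁻¹ := by
        gcongr
    _ ≤ _ := by
        rw [← div_eq_mul_inv, ← div_eq_mul_inv, div_le_div_iff₀ (by positivity) (by positivity)]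
        have e1 : (A + |t| / c) * (1 + t ^ 2) = A * (1 + t ^ 2) + c⁻¹ * (|t| * (1 + t ^ 2)) := by
          ring
        have e2 : (2 * A + 2 / c) * (1 + t ^ 4)
            = A * (2 * (1 + t ^ 4)) + c⁻¹ * (2 * (1 + t ^ 4)) := by ring
        rw [e1, e2]
        gcongr

theorem shell (M : ℝ) : ∃ C : ℝ, 0 ≤ C ∧ ∀ δ ∈ Ioc (0 : ℝ) 1, ∀ ρ0 : ℝ, M⁻¹ ≤ ρ0 → ρ0 ≤ M →
    0 < M → ∫⁻ ξ : ℂ, ENNReal.ofReal (1 + mu δ ρ0 ξ ^ 4)⁻¹ ≤ ENNReal.ofReal (C * δ) := by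
  rcases le_or_gt M 0 with hM | hM
  · exact ⟨0, le_rfl, fun _ _ _ _ _ h => absurd h (not_lt.2 hM)⟩
  obtain ⟨c, hc, hc1, hc2⟩ : ∃ c : ℝ, 0 < c ∧ c ≤ 1 ∧ c ≤ √M⁻¹ :=
    ⟨min 1 √M⁻¹, by positivity, min_le_left _ _, min_le_right _ _⟩
  refine ⟨(2 * √M + 2 / c) * (c⁻¹ * π) * (2 * π), by positivity, ?_⟩
  rintro δ ⟨hδ, hδ1⟩ ρ0 h1 h2 -
  have hρ : 0 ≤ ρ0 := (inv_pos.2 hM).le.trans h1
  rw [← Complex.lintegral_comp_polarCoord_symm]
  have hm : Measurable fun r : ℝ =>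
      ENNReal.ofReal ((2 * √M + 2 / c) * (1 + (c / δ * (r - √ρ0)) ^ 2)⁻¹) := by fun_prop
  calc _ ≤ ∫⁻ p : ℝ × ℝ in polarCoord.target,
        ENNReal.ofReal ((2 * √M + 2 / c) * (1 + (c / δ * (p.1 - √ρ0)) ^ 2)⁻¹) := by
        refine setLIntegral_mono' polarCoord.open_target.measurableSet fun p hp => ?_
        have hp1 : 0 < p.1 := hp.1
        rw [smul_eq_mul, ← ENNReal.ofReal_mul hp1.le]
        refine ENNReal.ofReal_le_ofReal ?_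
        have := point_l1 hδ hδ1 hc hc1 (hc2.trans (Real.sqrt_le_sqrt h1)) (Real.sqrt_le_sqrt h2)
          hp1.le
        rw [Real.sq_sqrt hρ] at this
        rw [mu, Complex.norm_polarCoord_symm, abs_of_pos hp1]
        exact this
    _ ≤ ∫⁻ p : ℝ × ℝ in univ ×ˢ Ioo (-π) π,
        ENNReal.ofReal ((2 * √M + 2 / c) * (1 + (c / δ * (p.1 - √ρ0)) ^ 2)⁻¹) * 1 := by
        simp only [mul_one]
        exact lintegral_mono_set fun p hp => ⟨mem_univ _, hp.2⟩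
    _ = _ := by
        rw [Measure.volume_eq_prod, ← Measure.prod_restrict,
          lintegral_prod_mul hm.aemeasurable (g := fun _ => 1) aemeasurable_const,
          Measure.restrict_univ, cauchy_l1 _ _ _ (by positivity) (by positivity), lintegral_const,
          one_mul, Measure.restrict_apply_univ, Real.volume_Ioo,
          ← ENNReal.ofReal_mul (by positivity)]
        congr 1
        field_simp
        ring

theorem cs_l1 {g : ℂ → ℝ≥0∞} {W : ℂ → ℝ} (hg : Measurable g) (hW : Measurable W)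
    (h0 : ∀ ξ, 0 < W ξ) : (∫⁻ ξ, g ξ) ^ 2 ≤
      (∫⁻ ξ, ENNReal.ofReal (W ξ)⁻¹) * ∫⁻ ξ, ENNReal.ofReal (W ξ) * g ξ ^ 2 := by
  have m1 : Measurable fun ξ => ENNReal.ofReal (√(W ξ))⁻¹ := by fun_prop
  have m2 : Measurable fun ξ => ENNReal.ofReal (√(W ξ)) * g ξ := by fun_prop
  have H := ENNReal.lintegral_mul_le_Lp_mul_Lq volume Real.HolderConjugate.two_two
    m1.aemeasurable m2.aemeasurable
  have e0 : ∀ ξ, ((fun ξ => ENNReal.ofReal (√(W ξ))⁻¹) * fun ξ => ENNReal.ofReal (√(W ξ)) * g ξ) ξ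
      = g ξ := fun ξ => by
    have := Real.sqrt_pos.2 (h0 ξ)
    rw [Pi.mul_apply, ← mul_assoc, ← ENNReal.ofReal_mul (by positivity), inv_mul_cancel₀ this.ne',
      ENNReal.ofReal_one, one_mul]
  have e1 : ∀ ξ, ENNReal.ofReal (√(W ξ))⁻¹ ^ (2 : ℝ) = ENNReal.ofReal (W ξ)⁻¹ := fun ξ => by
    rw [ENNReal.rpow_two, ← ENNReal.ofReal_pow (by positivity), inv_pow, Real.sq_sqrt (h0 ξ).le]
  have e2 : ∀ ξ, (ENNReal.ofReal (√(W ξ)) * g ξ) ^ (2 : ℝ) = ENNReal.ofReal (W ξ) * g ξ ^ 2 :=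
    fun ξ => by
      rw [ENNReal.rpow_two, mul_pow, ← ENNReal.ofReal_pow (by positivity), Real.sq_sqrt (h0 ξ).le]
  simp only [e0, e1, e2] at H
  refine (pow_le_pow_left' H 2).trans_eq ?_
  rw [mul_pow, ← ENNReal.rpow_two, ← ENNReal.rpow_two, ← ENNReal.rpow_mul, ← ENNReal.rpow_mul]
  norm_num

theorem l1 (M : ℝ) : ∃ C : ℝ, 0 ≤ C ∧ ∀ δ ∈ Ioc (0 : ℝ) 1, ∀ (ρ0 B : ℝ) (n f : ℂ → ℝ)
    (w : ℂ → ℂ), M⁻¹ ≤ ρ0 → ρ0 ≤ M → 0 < M → Hel δ ρ0 n f → Bnd 4 M (cx n) → Adm 4 B w →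
    (∫⁻ ξ, ‖FT δ f w ξ‖ₑ) ^ 2 ≤ ENNReal.ofReal (C * B ^ 2 * δ) * m2 f := by
  obtain ⟨C1, hC1, H1⟩ := shell M
  obtain ⟨C2, hC2, H2⟩ := el 2 M
  refine ⟨C1 * (1 + C2), by positivity, fun δ hδ ρ0 B n f w h1 h2 hM hf hn hw => ?_⟩
  have hg : Measurable fun ξ => ‖FT δ f w ξ‖ₑ :=
    (continuous_FT hf.sf.continuous hw.sm.continuous hw.hcs).measurable.enorm
  have hμ := measurable_mu δ ρ0
  refine (cs_l1 (W := fun ξ => 1 + mu δ ρ0 ξ ^ 4) hg (by fun_prop) fun ξ => by positivity).trans ?_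
  have e : ∫⁻ ξ, ENNReal.ofReal (1 + mu δ ρ0 ξ ^ 4) * ‖FT δ f w ξ‖ₑ ^ 2
      = (∫⁻ ξ, ‖FT δ f w ξ‖ₑ ^ 2)
        + ∫⁻ ξ, ENNReal.ofReal (mu δ ρ0 ξ ^ (2 * 2)) * ‖FT δ f w ξ‖ₑ ^ 2 := by
    rw [← lintegral_add_left (hg.pow_const 2)]
    refine lintegral_congr fun ξ => ?_
    rw [ENNReal.ofReal_add zero_le_one (by positivity), ENNReal.ofReal_one, add_mul, one_mul]
  rw [e]
  have hδ0 := hδ.1
  calc _ ≤ ENNReal.ofReal (C1 * δ) *
        (ENNReal.ofReal (B ^ 2) * m2 f + ENNReal.ofReal (C2 * B ^ 2) * m2 f) :=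
        mul_le_mul' (H1 δ hδ ρ0 h1 h2 hM)
          (add_le_add (planch hδ0 hf.sf hw) (H2 δ hδ ρ0 B n f w hf hn hw))
    _ = _ := by
        rw [← add_mul, ← mul_assoc, ← ENNReal.ofReal_add (by positivity) (by positivity),
          ← ENNReal.ofReal_mul (by positivity)]
        congr 2
        ring

end Pool.Agent.Lib.MP_a52643_an.H60
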