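import Pool.Agent.Lib.MP_a52643_an.H60Br
import Pool.Agent.Lib.MP_a52643_an.H60Anti

open MeasureTheory Set Filter Topology Metric
open scoped ENNReal NNReal ContDiff Laplacian FourierTransform Real

noncomputable section

namespace Pool.Agent.Lib.MP_a52643_an.H60

/-- One component of the map of the near part. -/
def g_near (X3 : P3 → V) (c : V → P3) (A : R3 → ℝ) (q : (ℝ × ℝ) × ℝ × P3) : R2 :=
  (c (rot (A (q.1.1, q.1.2, q.2.1)) (X3 q.2.2))).1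

theorem smooth_near {X3 : P3 → V} {c : V → P3} {A : R3 → ℝ} {a0 : R3} (hX : ContDiff ℝ 2 X3)
    (hc : ContDiff ℝ 2 c) (hA : ContDiffAt ℝ 1 A a0) :
    ContDiffAt ℝ 1 (g_near X3 c A) ((a0.1, a0.2.1), (a0.2.2, 0)) := by
  have h1 : ContDiffAt ℝ 1 (fun q : (ℝ × ℝ) × ℝ × P3 => A (q.1.1, q.1.2, q.2.1))
      ((a0.1, a0.2.1), (a0.2.2, 0)) :=
    ContDiffAt.comp (g := A) (f := fun q : (ℝ × ℝ) × ℝ × P3 => ((q.1.1, q.1.2, q.2.1) : R3))
      _ hA (by fun_prop)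
  have h2 : ContDiffAt ℝ 1 (fun q : (ℝ × ℝ) × ℝ × P3 => X3 q.2.2)
      ((a0.1, a0.2.1), (a0.2.2, 0)) :=
    ((hX.of_le one_le_two).comp (contDiff_snd.comp contDiff_snd)).contDiffAt
  exact ((hc.of_le one_le_two).contDiffAt.comp _ (h2.fst.prodMk (h2.snd.add h1))).fst

theorem meas_near {X3 : P3 → V} {c : V → P3} {A : R3 → ℝ} (hX : ContDiff ℝ 2 X3)
    (hc : ContDiff ℝ 2 c) (hA : Measurable A) : Measurable (g_near X3 c A) := by
  have h1 := hX.continuous.measurable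
  have h2 := hc.continuous.measurable
  unfold g_near rot
  fun_prop

theorem fderiv_near {u : ℂ → ℝ} {x0 : ℂ} {θ0 L3 L1 : ℝ} {X3 X1 : P3 → V}
    {c3 c1 : V → P3} {a0 : R3} {A : R3 → ℝ} (hA : ContDiffAt ℝ 1 A a0)
    (b3 : Box u (x0, θ0) L3 X3 c3) (b1 : Box u (x0, θ0 + A a0) L1 X1 c1) (e : ℝ × P3)
    (h : fderiv ℝ (g_near X3 c1 A) ((a0.1, a0.2.1), (a0.2.2, 0)) (0, e) = 0) :
    ∃ t : ℝ, (((fderiv ℝ X3 0 e.2).1,
      (fderiv ℝ X3 0 e.2).2 + e.1 * fderiv ℝ A a0 (0, 0, 1)) : V) = t • Yf u (x0, θ0 + A a0) := by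
  have f1 := hasFDerivAt_fst (𝕜 := ℝ) (p := (((a0.1, a0.2.1), (a0.2.2, 0)) : (ℝ × ℝ) × ℝ × P3))
  have f2 := hasFDerivAt_snd (𝕜 := ℝ) (p := (((a0.1, a0.2.1), (a0.2.2, 0)) : (ℝ × ℝ) × ℝ × P3))
  have h0 := f1.fst.prodMk (f1.snd.prodMk f2.fst)
  have h1 := HasFDerivAt.comp (g := A) _ (hA.differentiableAt one_ne_zero).hasFDerivAt h0
  have h2 : HasFDerivAt (fun q : (ℝ × ℝ) × ℝ × P3 => X3 q.2.2) _
      ((a0.1, a0.2.1), (a0.2.2, 0)) :=
    HasFDerivAt.comp (g := X3) _ (b3.cX.differentiable two_ne_zero 0).hasFDerivAt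
      f2.snd
  have h3 := h2.fst.prodMk (h2.snd.add h1)
  have h4 : HasFDerivAt c1 (fderiv ℝ c1 (x0, θ0 + A a0)) ((X3 0).1, (X3 0).2 + A a0) := by
    rw [b3.zero]
    exact (b1.cc.differentiable two_ne_zero _).hasFDerivAt
  have h5 : HasFDerivAt (g_near X3 c1 A) _ ((a0.1, a0.2.1), (a0.2.2, 0)) :=
    (HasFDerivAt.comp (g := c1) (f := fun q : (ℝ × ℝ) × ℝ × P3 =>
      (((X3 q.2.2).1, (X3 q.2.2).2 + A (q.1.1, q.1.2, q.2.1)) : V))
      ((a0.1, a0.2.1), (a0.2.2, 0)) h4 h3).fst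
  rw [h5.fderiv] at h
  apply b1.ker
  have e1 : e.1 * fderiv ℝ A a0 (0, 0, 1) = fderiv ℝ A a0 (0, 0, e.1) := by
    rw [← smul_eq_mul, ← map_smul]
    simp
  rw [e1]
  exact h

theorem inj_near {u : ℂ → ℝ} {x0 : ℂ} {θ0 L3 L1 L2 : ℝ} {X3 X1 X2 : P3 → V}
    {c3 c1 c2 : V → P3} {a0 : R3} {A B : R3 → ℝ} (h : Ang a0 A B)
    (b3 : Box u (x0, θ0) L3 X3 c3) (b1 : Box u (x0, θ0 + A a0) L1 X1 c1)
    (b2 : Box u (x0, θ0 + B a0) L2 X2 c2) (e : ℝ × P3)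
    (he : fderiv ℝ (fun q => (g_near X3 c1 A q, g_near X3 c2 B q))
      ((a0.1, a0.2.1), (a0.2.2, 0)) (0, e) = 0) : e = 0 := by
  rw [((smooth_near b3.cX b1.cc h.cA).differentiableAt one_ne_zero).fderiv_prodMk
    ((smooth_near b3.cX b2.cc h.cB).differentiableAt one_ne_zero)] at he
  obtain ⟨t1, h1⟩ := fderiv_near h.cA b3 b1 e (congrArg Prod.fst he)
  obtain ⟨t2, h2⟩ := fderiv_near h.cB b3 b2 e (congrArg Prod.snd he)
  have h3 : t1 • ex (θ0 + A a0) = t2 • ex (θ0 + B a0) :=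
    (congrArg Prod.fst h1).symm.trans (congrArg Prod.fst h2)
  have h4 := congrArg Complex.re h3
  have h5 := congrArg Complex.im h3
  simp only [ex, Complex.smul_re, Complex.smul_im, Complex.exp_ofReal_mul_I_re,
    Complex.exp_ofReal_mul_I_im, smul_eq_mul] at h4 h5
  have h6 : Real.sin (A a0 - B a0) = Real.sin (θ0 + A a0) * Real.cos (θ0 + B a0)
      - Real.cos (θ0 + A a0) * Real.sin (θ0 + B a0) := by
    rw [← Real.sin_sub]
    congr 1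
    ring
  have ht1 : t1 = 0 := by
    refine (mul_eq_zero.1 (?_ : t1 * Real.sin (A a0 - B a0) = 0)).resolve_right h.sAB
    rw [h6]
    linear_combination Real.cos (θ0 + B a0) * h5 - Real.sin (θ0 + B a0) * h4
  have ht2 : t2 = 0 := by
    refine (mul_eq_zero.1 (?_ : t2 * Real.sin (A a0 - B a0) = 0)).resolve_right h.sAB
    rw [h6]
    linear_combination Real.cos (θ0 + A a0) * h5 - Real.sin (θ0 + A a0) * h4
  rw [ht1, zero_smul, Prod.mk_eq_zero] at h1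
  rw [ht2, zero_smul, Prod.mk_eq_zero] at h2
  have h7 : e.1 = 0 := by
    refine (mul_eq_zero.1 (?_ : e.1 * (fderiv ℝ A a0 (0, 0, 1) - fderiv ℝ B a0 (0, 0, 1))
      = 0)).resolve_right (sub_ne_zero.2 h.dAB)
    linear_combination h1.2 - h2.2
  have h8 : fderiv ℝ X3 0 e.2 = 0 := by
    refine Prod.ext h1.1 ?_
    have := h1.2
    rw [h7, zero_mul, add_zero] at this
    exact this
  exact Prod.ext h7 (b3.inj_X (h8.trans (map_zero _).symm))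

theorem near_est {u : ℂ → ℝ} {x0 : ℂ} {θ0 L3 L1 L2 : ℝ} {X3 X1 X2 : P3 → V}
    {c3 c1 c2 : V → P3} {a0 : R3} {A B : R3 → ℝ} (h : Ang a0 A B)
    (b3 : Box u (x0, θ0) L3 X3 c3) (b1 : Box u (x0, θ0 + A a0) L1 X1 c1)
    (b2 : Box u (x0, θ0 + B a0) L2 X2 c2) :
    ∃ ε : ℝ, 0 < ε ∧ ∃ C : ℝ≥0∞, C ≠ ⊤ ∧ ∀ r1 r2 : ℝ, |r1 - a0.1| < ε → |r2 - a0.2.1| < ε →
      ∀ a b : R2 → ℝ≥0∞, Measurable a → Measurable b →
      ∫⁻ r3 in JJ a0.2.2 ε, ∫⁻ l in ball (0 : R2) ε, ∫⁻ s in Ioo (-ε) ε,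
        a (c1 (rot (A (r1, r2, r3)) (X3 (l, s)))).1 * b (c2 (rot (B (r1, r2, r3)) (X3 (l, s)))).1
        ≤ C * ((∫⁻ y, a y) * ∫⁻ y, b y) := by
  obtain ⟨ε, hε, K, hK⟩ := anti
    ((smooth_near b3.cX b1.cc h.cA).prodMk (smooth_near b3.cX b2.cc h.cB)) (inj_near h b3 b1 b2)
  have i1 : (volume : Measure R2).IsAddHaarMeasure :=
    Measure.prod.instIsAddHaarMeasure (volume : Measure ℝ) (volume : Measure ℝ)
  have i2 : ((volume : Measure R2).prod (volume : Measure ℝ)).IsAddHaarMeasure :=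
    Measure.prod.instIsAddHaarMeasure (volume : Measure R2) (volume : Measure ℝ)
  have i3 : ((volume : Measure ℝ).prod
      ((volume : Measure R2).prod (volume : Measure ℝ))).IsAddHaarMeasure :=
    Measure.prod.instIsAddHaarMeasure _ _
  have i4 : ((volume : Measure R2).prod (volume : Measure R2)).IsAddHaarMeasure :=
    Measure.prod.instIsAddHaarMeasure _ _
  obtain ⟨C, hC, hl⟩ := lm (E := ℝ × P3) (F := R2 × R2)
    ((volume : Measure ℝ).prod ((volume : Measure R2).prod (volume : Measure ℝ)))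
    ((volume : Measure R2).prod (volume : Measure R2)) (by simp [Module.finrank_prod]) K
  refine ⟨ε, hε, C, hC, fun r1 r2 h1 h2 a b ha hb => ?_⟩
  have m1 := meas_near b3.cX b1.cc h.mA
  have m2 := meas_near b3.cX b2.cc h.mB
  have hz : ((r1, r2) : ℝ × ℝ) ∈ ball ((a0.1, a0.2.1) : ℝ × ℝ) ε := by
    rw [← ball_prod_same]
    exact ⟨h1, h2⟩
  have key := hl (ball ((a0.2.2, 0) : ℝ × P3) ε)
    (fun e => (g_near X3 c1 A ((r1, r2), e), g_near X3 c2 B ((r1, r2), e))) measurableSet_ball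
    (by fun_prop) (hK _ hz) (fun y => a y.1 * b y.2) (by fun_prop)
  rw [lintegral_prod_mul ha.aemeasurable hb.aemeasurable] at key
  refine le_of_eq_of_le ?_ key
  have e : ball ((a0.2.2, 0) : ℝ × P3) ε
      = JJ a0.2.2 ε ×ˢ (ball (0 : R2) ε ×ˢ Ioo (-ε) ε) := by
    rw [← ball_prod_same, show (0 : P3) = ((0 : R2), (0 : ℝ)) from rfl, ← ball_prod_same,
      Real.ball_eq_Ioo, Real.ball_eq_Ioo, zero_sub, zero_add, JJ]
  rw [e, ← Measure.prod_restrict, ← Measure.prod_restrict, lintegral_prod _ (by fun_prop)]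
  refine lintegral_congr fun r3 => ?_
  rw [lintegral_prod _ (by fun_prop)]
  rfl

end Pool.Agent.Lib.MP_a52643_an.H60
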