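import Pool.Agent.Lib.MP_a52643_an.H60Maj
import Pool.Agent.Lib.MP_a52643_an.H60Far
import Pool.Agent.Lib.MP_a52643_an.H60Near
import Pool.Agent.Lib.MP_a52643_an.H60Core

open MeasureTheory Set Filter Topology Metric
open scoped ENNReal NNReal ContDiff Laplacian FourierTransform Real

noncomputable section

namespace Pool.Agent.Lib.MP_a52643_an.H60

theorem mono_lme {α : Type} [MeasurableSpace α] {μ : Measure α} {s t : Set α} (h : s ⊆ t)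
    {f g : α → ℝ≥0∞} (hfg : ∀ x, f x ≤ g x) : ∫⁻ x in s, f x ∂μ ≤ ∫⁻ x in t, g x ∂μ :=
  lintegral_mono' (Measure.restrict_mono h le_rfl) hfg

theorem ev_lme {x : ℝ} (hx : 0 < x) : ∀ᶠ m in 𝓝[>] (0 : ℝ), m ≤ x := by
  filter_upwards [Ioc_mem_nhdsGT hx] with m hm using hm.2

theorem JJ_lme {a η r : ℝ} (h : r ∈ JJ a η) : |r - a| < η := by
  rw [abs_lt]
  constructor <;> linarith [h.1, h.2]

theorem measurableSet_JJ_lme (a η : ℝ) : MeasurableSet (JJ a η) := measurableSet_Ioo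

theorem lip_lme {a0 : R3} {A : R3 → ℝ} (h : ContDiffAt ℝ 1 A a0) :
    ∃ ρ : ℝ, 0 < ρ ∧ ∃ K : ℝ, 0 ≤ K ∧ ∀ r ∈ ball a0 ρ, ∀ r' ∈ ball a0 ρ,
      |A r - A r'| ≤ K * dist r r' := by
  obtain ⟨K, t, ht, hK⟩ := h.exists_lipschitzOnWith
  obtain ⟨ρ, hρ, hs⟩ := Metric.mem_nhds_iff.1 ht
  refine ⟨ρ, hρ, K, K.2, fun r hr r' hr' => ?_⟩
  have := hK.dist_le_mul r (hs hr) r' (hs hr')
  rwa [Real.dist_eq] at this

theorem dist3_lme {a : R3} {η r1 r2 r3 : ℝ} (h1 : r1 ∈ JJ a.1 η) (h2 : r2 ∈ JJ a.2.1 η)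
    (h3 : r3 ∈ JJ a.2.2 η) : dist ((r1, r2, r3) : R3) a < η := by
  rw [Prod.dist_eq, Prod.dist_eq, Real.dist_eq, Real.dist_eq, Real.dist_eq]
  exact max_lt (JJ_lme h1) (max_lt (JJ_lme h2) (JJ_lme h3))

theorem rot_lme {x0 : ℂ} {θ0 α α0 : ℝ} (v : V) :
    dist (rot α v) ((x0, θ0 + α0) : V) ≤ dist v ((x0, θ0) : V) + |α - α0| := by
  rw [Prod.dist_eq, Prod.dist_eq]
  refine max_le ?_ ?_
  · have := abs_nonneg (α - α0)
    have h2 := le_max_left (dist v.1 x0) (dist v.2 θ0)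
    simp only [rot]
    linarith
  · have h2 := le_max_right (dist v.1 x0) (dist v.2 θ0)
    simp only [rot]
    have h3 : dist v.2 θ0 = |v.2 - θ0| := Real.dist_eq _ _
    have : v.2 + α - (θ0 + α0) = (v.2 - θ0) + (α - α0) := by ring
    rw [Real.dist_eq, this]
    linarith [abs_add_le (v.2 - θ0) (α - α0)]

theorem mk_lme {A : R3 → ℝ} (hA : Measurable A) {X : P3 → V} {c : V → P3} (hX : Continuous X)
    (hc : Continuous c) :
    Measurable fun q : R3 × R2 × ℝ => (c (rot (A q.1) (X q.2))).1 := by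
  have h1 : Measurable fun q : R3 × R2 × ℝ => X q.2 := hX.measurable.comp measurable_snd
  have h2 : Measurable fun q : R3 × R2 × ℝ => rot (A q.1) (X q.2) :=
    h1.fst.prodMk (h1.snd.add (hA.comp measurable_fst))
  exact (hc.measurable.comp h2).fst

theorem WN_lme {μ : Measure R2} (hμ : μ ≤ volume) {δ a η R θ : ℝ} {x0 : ℂ}
    {G Q : ℝ × V → ℝ≥0∞} {f : ℝ × R2 → ℝ≥0∞} {C : ℝ≥0∞} (hC : C ≠ ⊤)
    (h : ∀ r, ∫⁻ y, f (r, y) ^ 2 ≤
      C * ∫⁻ v in ball x0 R ×ˢ Ioo (θ - 1) (θ + 1), (G (r, v) ^ 2 + Q (r, v) ^ 2)) :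
    WN μ (JJ a η) (wt δ a) f ≤ C * MM δ a η x0 R θ G Q := by
  unfold WN MM
  rw [← lintegral_const_mul' C _ hC]
  refine lintegral_mono fun r => ?_
  rw [mul_left_comm]
  exact mul_le_mul_right ((lintegral_mono' hμ le_rfl).trans (h r)) _

theorem num_lme {τ : ℝ} (hτ : 0 < τ) (Cn Cf : ℝ≥0∞) :
    ENNReal.ofReal (2 * τ) * ENNReal.ofReal (2 * τ ^ 2) ^ 2 * Cn
      + ENNReal.ofReal (2 * τ ^ 2) ^ 3 * (Cf / ENNReal.ofReal τ)
      = (8 * Cn + 8 * Cf) * ENNReal.ofReal (τ ^ 5) := by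
  have h2 : ENNReal.ofReal 2 = 2 := by simp
  rw [ENNReal.ofReal_mul zero_le_two, ENNReal.ofReal_mul zero_le_two, ENNReal.ofReal_pow hτ.le,
    ENNReal.ofReal_pow hτ.le, h2]
  have h0 : ENNReal.ofReal τ ≠ 0 := by simpa using hτ
  have hi := ENNReal.mul_inv_cancel h0 ENNReal.ofReal_ne_top
  generalize ENNReal.ofReal τ = t at hi
  rw [div_eq_mul_inv]
  calc 2 * t * (2 * t ^ 2) ^ 2 * Cn + (2 * t ^ 2) ^ 3 * (Cf * t⁻¹)
      = 8 * Cn * t ^ 5 + 8 * Cf * t ^ 5 * (t * t⁻¹) := by ring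
    _ = _ := by rw [hi]; ring

/-- The far hypothesis of the core inequality. -/
theorem HF_lme {X3 : P3 → V} {c1 : V → P3} {A : R3 → ℝ} {a a0 : R3} {ε1 cf e τ η m : ℝ}
    {Cf C : ℝ≥0∞} (hC : Cf ≤ C) (he : e ≤ ε1)
    (hf : ∀ α α' : ℝ, |α - A a0| < ε1 → |α' - A a0| < ε1 → |α - α'| ≤ cf * τ →
      ∀ a b : R2 → ℝ≥0∞, Measurable a → Measurable b →
      ∫⁻ l in ball (0 : R2) ε1, ∫⁻ s in Ioo (-ε1) ε1, ∫⁻ s' in Ioo (-ε1) ε1, far τ (s' - s) *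
        (a (c1 (rot α (X3 (l, s)))).1 * b (c1 (rot α' (X3 (l, s')))).1)
        ≤ Cf / ENNReal.ofReal τ * ((∫⁻ y, a y) * ∫⁻ y, b y))
    (hm : m ≤ ε1) (h1 : ∀ r : R3, dist r a < η → |A r - A a0| < m)
    (h2 : ∀ r r' : R3, dist r a < η → dist r' a < η → |A r - A r'| ≤ cf * τ) :
    HF ((volume : Measure R2).restrict (ball 0 e)) (volume : Measure R2) (Ioo (-e) e)
      (JJ a.1 η) (JJ a.2.1 η) (JJ a.2.2 η) τ
      (fun q : R3 × R2 × ℝ => (c1 (rot (A q.1) (X3 q.2))).1) (C / ENNReal.ofReal τ) := by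
  intro r1 hr1 r2 hr2 r1' hr1' r2' hr2' r3 hr3 f g hf' hg'
  have d := dist3_lme hr1 hr2 hr3
  have d' := dist3_lme hr1' hr2' hr3
  have hs : Ioo (-e) e ⊆ Ioo (-ε1) ε1 := Ioo_subset_Ioo (by linarith) he
  refine le_trans ?_ ((hf _ _ ((h1 _ d).trans_le hm) ((h1 _ d').trans_le hm) (h2 _ _ d d') f g
    hf' hg').trans ?_)
  · exact mono_lme (ball_subset_ball he) fun l => mono_lme hs fun s => mono_lme hs fun s' => le_rfl
  · exact mul_le_mul_left (ENNReal.div_le_div_right hC _) _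

/-- The local estimate near one point of the unit tangent bundle. -/
theorem lme {u : ℂ → ℝ} (hu : ContDiff ℝ ∞ u) {x0 : ℂ} (hK : Δ u x0 ≠ 0) (θ0 : ℝ)
    {a0 : R3} {A B : R3 → ℝ} (h : Ang a0 A B) {R : ℝ} (hR : 0 < R) :
    ∃ ε : ℝ, 0 < ε ∧ ∃ c : ℝ, 0 < c ∧ ∃ C : ℝ≥0∞, C ≠ ⊤ ∧ ∀ τ ∈ Ioc (0 : ℝ) 1, ∀ η : ℝ,
      η ≤ c * τ → ∀ a ∈ ball a0 ε, ∀ G1 Q1 G2 Q2 G3 Q3 : ℝ × V → ℝ≥0∞,
      Measurable G1 → Measurable Q1 → Measurable G2 → Measurable Q2 → Measurable G3 →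
      Measurable Q3 → Trans u x0 R (JJ a.1 η) G1 Q1 → Trans u x0 R (JJ a.2.1 η) G2 Q2 →
      Trans u x0 R (JJ a.2.2 η) G3 Q3 →
      (∫⁻ r1 in JJ a.1 η, ∫⁻ r2 in JJ a.2.1 η, ∫⁻ r3 in JJ a.2.2 η,
        ∫⁻ v in ball ((x0, θ0) : V) ε,
          G3 (r3, v) * (G1 (r1, rot (A (r1, r2, r3)) v) * G2 (r2, rot (B (r1, r2, r3)) v))) ^ 2
        ≤ C * ENNReal.ofReal (τ ^ 5) *
          (MM (τ ^ 2) a.1 η x0 R (θ0 + A a0) G1 Q1 * MM (τ ^ 2) a.2.1 η x0 R (θ0 + B a0) G2 Q2 *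
            MM (τ ^ 2) a.2.2 η x0 R θ0 G3 Q3) := by
  obtain ⟨L3, X3, c3, b3⟩ := exists_box hu (x0, θ0)
  obtain ⟨L1, X1, c1, b1⟩ := exists_box hu (x0, θ0 + A a0)
  obtain ⟨L2, X2, c2, b2⟩ := exists_box hu (x0, θ0 + B a0)
  obtain ⟨ε1, hε1, cf1, hcf1, Cf1, hCf1, hf1⟩ := far_est hu hK h.sA b3 b1
  obtain ⟨ε2, hε2, cf2, hcf2, Cf2, hCf2, hf2⟩ := far_est hu hK h.sB b3 b2
  obtain ⟨εn, hεn, Cn, hCn, hn⟩ := near_est h b3 b1 b2
  obtain ⟨εm1, hεm1, Cm1, hCm1, hm1⟩ := maj b1 hR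
  obtain ⟨εm2, hεm2, Cm2, hCm2, hm2⟩ := maj b2 hR
  obtain ⟨εm3, hεm3, Cm3, hCm3, hm3⟩ := maj b3 hR
  obtain ⟨e, he, he1, he2, hen⟩ : ∃ e : ℝ, 0 < e ∧ e ≤ ε1 ∧ e ≤ ε2 ∧ e ≤ εn :=
    ⟨min ε1 (min ε2 εn), lt_min hε1 (lt_min hε2 hεn), min_le_left _ _,
      (min_le_right _ _).trans (min_le_left _ _), (min_le_right _ _).trans (min_le_right _ _)⟩
  obtain ⟨εb, hεb, Cb, hCb, hb⟩ := box_int b3 he
  obtain ⟨ρA, hρA, KA, hKA, hA⟩ := lip_lme h.cA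
  obtain ⟨ρB, hρB, KB, hKB, hB⟩ := lip_lme h.cB
  obtain ⟨m, hm, p1, p2, p3, p4, p5, p6, p7, p8, p9, p10⟩ : ∃ m : ℝ, 0 < m ∧ m ≤ εb ∧ m ≤ L3 ∧
      m ≤ εm1 ∧ m ≤ εm2 ∧ m ≤ εm3 ∧ m ≤ ρA ∧ m ≤ ρB ∧ m ≤ e ∧ m ≤ cf1 ∧ m ≤ cf2 :=
    ((eventually_mem_nhdsWithin (a := (0 : ℝ)) (s := Ioi 0)).and ((ev_lme hεb).and
      ((ev_lme b3.pos).and ((ev_lme hεm1).and
      ((ev_lme hεm2).and ((ev_lme hεm3).and ((ev_lme hρA).and ((ev_lme hρB).and
      ((ev_lme he).and ((ev_lme hcf1).and (ev_lme hcf2))))))))))).exists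
  obtain ⟨K, hK0, hKA', hKB'⟩ : ∃ K : ℝ, 0 ≤ K ∧ KA ≤ K ∧ KB ≤ K :=
    ⟨KA + KB, by linarith, by linarith, by linarith⟩
  obtain ⟨ε, hε, hεm⟩ : ∃ ε : ℝ, 0 < ε ∧ 2 * (K * ε) + 2 * ε = m :=
    ⟨m / (2 * K + 2), by positivity, by field_simp⟩
  have hKε : 0 ≤ K * ε := by positivity
  refine ⟨ε, hε, ε, hε, Cb ^ 2 * (8 * Cn + 8 * (Cf1 + Cf2)) * (Cm1 * Cm2 * Cm3), ?_, ?_⟩
  · finiteness
  intro τ hτ η hη a ha G1 Q1 G2 Q2 G3 Q3 mG1 mQ1 mG2 mQ2 mG3 mQ3 t1 t2 t3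
  have hτ0 := hτ.1
  have hηε : η ≤ ε := hη.trans (by nlinarith [hτ.2])
  have ha' : dist a a0 < ε := ha
  have hd : ∀ r : R3, dist r a < η → dist r a0 < 2 * ε := by
    intro r hr
    linarith [dist_triangle r a a0]
  have key : ∀ (F : R3 → ℝ) (ρ KF cf : ℝ), m ≤ ρ → 0 ≤ KF → KF ≤ K → m ≤ cf →
      (∀ r ∈ ball a0 ρ, ∀ r' ∈ ball a0 ρ, |F r - F r'| ≤ KF * dist r r') →
      (∀ r : R3, dist r a < η → |F r - F a0| ≤ 2 * (K * ε)) ∧
      (∀ r r' : R3, dist r a < η → dist r' a < η → |F r - F r'| ≤ cf * τ) := by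
    intro F ρ KF cf q1 q0 q2 q3 hF
    have hb' : ∀ r : R3, dist r a < η → r ∈ ball a0 ρ := by
      intro r hr
      have := hd r hr
      rw [mem_ball]
      linarith
    constructor
    · intro r hr
      have e1 := hF r (hb' r hr) a0 (mem_ball_self (by linarith))
      have e2 : KF * dist r a0 ≤ K * (2 * ε) :=
        mul_le_mul q2 (hd r hr).le dist_nonneg hK0
      linarith
    · intro r r' hr hr'
      have e1 := hF r (hb' r hr) r' (hb' r' hr')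
      have e0 : dist r r' ≤ 2 * (ε * τ) := by
        linarith [dist_triangle_right r r' a]
      have e2 : KF * dist r r' ≤ K * (2 * (ε * τ)) := mul_le_mul q2 e0 dist_nonneg hK0
      have e3 : (2 * (K * ε)) * τ ≤ cf * τ := mul_le_mul_of_nonneg_right (by linarith) hτ0.le
      linarith
  obtain ⟨kA1, kA2⟩ := key A ρA KA cf1 p6 hKA hKA' p9 hA
  obtain ⟨kB1, kB2⟩ := key B ρB KB cf2 p7 hKB hKB' p10 hB
  obtain ⟨a1, ma1, la1, na1⟩ := hm1 _ G1 Q1 mG1 mQ1 t1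
  obtain ⟨a2, ma2, la2, na2⟩ := hm2 _ G2 Q2 mG2 mQ2 t2
  obtain ⟨a3, ma3, la3, na3⟩ := hm3 _ G3 Q3 mG3 mQ3 t3
  have hδ : 0 < τ ^ 2 := by positivity
  have mk1 := mk_lme h.mA b3.cX.continuous b1.cc.continuous
  have mk2 := mk_lme h.mB b3.cX.continuous b2.cc.continuous
  have core : Core (Ioo (-e) e) (JJ a.1 η) (JJ a.2.1 η) (JJ a.2.2 η) (wt (τ ^ 2) a.1)
      (wt (τ ^ 2) a.2.1) (wt (τ ^ 2) a.2.2) (ENNReal.ofReal (2 * τ ^ 2)) a1 a2
      (fun q : R3 × R2 × ℝ => (c1 (rot (A q.1) (X3 q.2))).1)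
      (fun q : R3 × R2 × ℝ => (c2 (rot (B q.1) (X3 q.2))).1) :=
    { mS := measurableSet_Ioo
      mJ1 := measurableSet_JJ_lme _ _
      mJ2 := measurableSet_JJ_lme _ _
      mJ3 := measurableSet_JJ_lme _ _
      mw1 := measurable_wt _ _
      mw2 := measurable_wt _ _
      mw3 := measurable_wt _ _
      one1 := one_le_wt hδ _
      one2 := one_le_wt hδ _
      one3 := one_le_wt hδ _
      top1 := fun _ => ENNReal.ofReal_ne_top
      top2 := fun _ => ENNReal.ofReal_ne_top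
      top3 := fun _ => ENNReal.ofReal_ne_top
      hD1 := lintegral_wt hδ _ _
      hD2 := lintegral_wt hδ _ _
      hD3 := lintegral_wt hδ _ _
      ma1 := ma1
      ma2 := ma2
      mk1 := mk1
      mk2 := mk2 }
  have g1 : |a.1 - a0.1| < ε := by
    rw [← Real.dist_eq]
    exact (le_max_left _ _).trans_lt ha'
  have g2 : |a.2.1 - a0.2.1| < ε := by
    rw [← Real.dist_eq]
    exact ((le_max_left _ _).trans (le_max_right (dist a.1 a0.1) (dist a.2 a0.2))).trans_lt ha'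
  have g3 : |a.2.2 - a0.2.2| < ε := by
    rw [← Real.dist_eq]
    exact ((le_max_right _ _).trans (le_max_right (dist a.1 a0.1) (dist a.2 a0.2))).trans_lt ha'
  have hN : HN ((volume : Measure R2).restrict (ball 0 e)) (volume : Measure R2)
      (volume : Measure R2) (Ioo (-e) e) (JJ a.1 η) (JJ a.2.1 η) (JJ a.2.2 η)
      (fun q : R3 × R2 × ℝ => (c1 (rot (A q.1) (X3 q.2))).1)
      (fun q : R3 × R2 × ℝ => (c2 (rot (B q.1) (X3 q.2))).1) Cn := by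
    intro r1 hr1 r2 hr2 f g hf hg
    have e1 : |r1 - a0.1| < εn := by
      have := abs_sub_le r1 a.1 a0.1
      linarith [JJ_lme hr1]
    have e2 : |r2 - a0.2.1| < εn := by
      have := abs_sub_le r2 a.2.1 a0.2.1
      linarith [JJ_lme hr2]
    refine le_trans ?_ (hn r1 r2 e1 e2 f g hf hg)
    have hs : Ioo (-e) e ⊆ Ioo (-εn) εn := Ioo_subset_Ioo (by linarith) hen
    have hJ : JJ a.2.2 η ⊆ JJ a0.2.2 εn := by
      rw [abs_lt] at g3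
      exact Ioo_subset_Ioo (by linarith [g3.1]) (by linarith [g3.2])
    exact mono_lme hJ fun r3 => mono_lme (ball_subset_ball hen) fun l => mono_lme hs fun s => le_rfl
  have hF1 := HF_lme (X3 := X3) (c1 := c1) (A := A) (a := a) (a0 := a0) (η := η) (m := m)
    (C := Cf1 + Cf2) le_self_add he1 (hf1 τ hτ0) (by linarith)
    (fun r hr => by linarith [kA1 r hr]) kA2
  have hF2 := HF_lme (X3 := X3) (c1 := c2) (A := B) (a := a) (a0 := a0) (η := η) (m := m)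
    (C := Cf1 + Cf2) le_add_self he2 (hf2 τ hτ0) (by linarith)
    (fun r hr => by linarith [kB1 r hr]) kB2
  have main := core.main hτ0 hN hF1 hF2 ma3
  rw [num_lme hτ0] at main
  have w1 := WN_lme (δ := τ ^ 2) (a := a.1) (η := η) le_rfl hCm1 na1
  have w2 := WN_lme (δ := τ ^ 2) (a := a.2.1) (η := η) le_rfl hCm2 na2
  have w3 := WN_lme (δ := τ ^ 2) (a := a.2.2) (η := η)
    (Measure.restrict_le_self (s := ball (0 : R2) e)) hCm3 na3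
  have step : (∫⁻ r1 in JJ a.1 η, ∫⁻ r2 in JJ a.2.1 η, ∫⁻ r3 in JJ a.2.2 η,
        ∫⁻ v in ball ((x0, θ0) : V) ε,
          G3 (r3, v) * (G1 (r1, rot (A (r1, r2, r3)) v) * G2 (r2, rot (B (r1, r2, r3)) v)))
      ≤ Cb * ∫⁻ r1 in JJ a.1 η, ∫⁻ r2 in JJ a.2.1 η, ∫⁻ r3 in JJ a.2.2 η,
        ∫⁻ l in ball (0 : R2) e, ∫⁻ s in Ioo (-e) e, a3 (r3, l) *
          (a1 (r1, (c1 (rot (A (r1, r2, r3)) (X3 (l, s)))).1) *
            a2 (r2, (c2 (rot (B (r1, r2, r3)) (X3 (l, s)))).1)) := by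
    rw [← lintegral_const_mul' Cb _ hCb]
    refine setLIntegral_mono' (measurableSet_JJ_lme _ _) fun r1 hr1 => ?_
    rw [← lintegral_const_mul' Cb _ hCb]
    refine setLIntegral_mono' (measurableSet_JJ_lme _ _) fun r2 hr2 => ?_
    rw [← lintegral_const_mul' Cb _ hCb]
    refine setLIntegral_mono' (measurableSet_JJ_lme _ _) fun r3 hr3 => ?_
    have d := dist3_lme hr1 hr2 hr3
    have mH : Measurable fun p : P3 => a3 (r3, p.1) *
        (a1 (r1, (c1 (rot (A (r1, r2, r3)) (X3 p))).1) *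
          a2 (r2, (c2 (rot (B (r1, r2, r3)) (X3 p))).1)) :=
      (ma3.comp (measurable_const.prodMk measurable_fst)).mul
        ((ma1.comp (measurable_const.prodMk (mk1.comp (measurable_const.prodMk measurable_id)))).mul
          (ma2.comp (measurable_const.prodMk (mk2.comp (measurable_const.prodMk measurable_id)))))
    refine le_trans ?_ (hb _ mH)
    refine le_trans (setLIntegral_mono' measurableSet_ball fun v hv => ?_)
      (lintegral_mono_set (ball_subset_ball (by linarith : ε ≤ εb)))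
    have hv' : dist v ((x0, θ0) : V) < ε := hv
    rw [b3.right v (ball_subset_ball (by linarith) hv)]
    refine mul_le_mul' (la3 r3 hr3 v (ball_subset_ball (by linarith) hv))
      (mul_le_mul' (la1 r1 hr1 _ ?_) (la2 r2 hr2 _ ?_))
    · rw [mem_ball]
      linarith [rot_lme (x0 := x0) (θ0 := θ0) (α := A (r1, r2, r3)) (α0 := A a0) v, kA1 _ d]
    · rw [mem_ball]
      linarith [rot_lme (x0 := x0) (θ0 := θ0) (α := B (r1, r2, r3)) (α0 := B a0) v, kB1 _ d]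
  refine (pow_le_pow_left' step 2).trans ?_
  rw [mul_pow]
  refine (mul_le_mul_right (main.trans (mul_le_mul_right
    (mul_le_mul' (mul_le_mul' w1 w2) w3) _)) _).trans (le_of_eq ?_)
  ring

end Pool.Agent.Lib.MP_a52643_an.H60
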