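import Pool.Agent.Lib.MP_a52643_an.H60Adm

open MeasureTheory Set Filter Topology Metric
open scoped ENNReal NNReal ContDiff Laplacian FourierTransform Real

noncomputable section

namespace Pool.Agent.Lib.MP_a52643_an.H60

/-- The smoothed test function. -/
def sm (δ : ℝ) (q ψ : ℂ → ℝ) (y : ℂ) : ℝ := ∫ Y, ψ (y - δ • Y) * q Y ^ 3

theorem q_zero_moll {q : ℂ → ℝ} (hq : Win q) {Y : ℂ} (hY : Y ∉ ball (0 : ℂ) 1) : q Y = 0 :=
  image_eq_zero_of_notMem_tsupport fun h => hY (hq.supp h)

theorem int_moll {q g : ℂ → ℝ} (hq : Win q) (hg : Continuous g) :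
    Integrable (fun Y => g Y * q Y ^ 3) := by
  refine (hg.mul (hq.sm.continuous.pow 3)).integrable_of_hasCompactSupport ?_
  refine HasCompactSupport.intro (isCompact_closedBall (0 : ℂ) 1) fun Y hY => ?_
  have h : q Y = 0 := q_zero_moll hq fun h => hY (ball_subset_closedBall h)
  simp [h]

theorem second_moll {ψ : ℂ → ℝ} (hψ : ContDiff ℝ ∞ ψ) {K : ℝ≥0}
    (hK : LipschitzWith K (fderiv ℝ ψ)) (y h : ℂ) :
    |ψ (y + h) + ψ (y - h) - 2 * ψ y| ≤ 2 * K * ‖h‖ ^ 2 := by
  have hd : Differentiable ℝ ψ := hψ.differentiable (by simp)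
  have key : ∀ t : ℝ, HasDerivAt (fun t : ℝ => ψ (y + t • h) + ψ (y - t • h))
      (fderiv ℝ ψ (y + t • h) h - fderiv ℝ ψ (y - t • h) h) t := by
    intro t
    have a0 : HasDerivAt (fun t : ℝ => t • h) h t := by
      simpa using (hasDerivAt_id t).smul_const h
    have a1 := (hd (y + t • h)).hasFDerivAt.comp_hasDerivAt t (a0.const_add y)
    have a2 := (hd (y - t • h)).hasFDerivAt.comp_hasDerivAt t (a0.const_sub y)
    have a3 := a1.add a2
    rw [map_neg, ← sub_eq_add_neg] at a3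
    exact a3
  have h1 := norm_image_sub_le_of_norm_deriv_le_segment_01' (C := 2 * K * ‖h‖ ^ 2)
    (fun t _ => (key t).hasDerivWithinAt) (fun t ht => by
      rw [← sub_apply]
      refine (ContinuousLinearMap.le_opNorm _ _).trans ?_
      have b1 := hK.norm_sub_le (y + t • h) (y - t • h)
      have b2 : y + t • h - (y - t • h) = (2 * t) • h := by
        rw [mul_smul, two_smul]
        abel
      rw [b2, norm_smul, Real.norm_of_nonneg (by linarith [ht.1])] at b1
      have b3 : (K : ℝ) * (2 * t * ‖h‖) ≤ K * (2 * ‖h‖) := by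
        have : 2 * t * ‖h‖ ≤ 2 * ‖h‖ := by nlinarith [ht.2, norm_nonneg h]
        exact mul_le_mul_of_nonneg_left this K.2
      calc _ ≤ (K * (2 * ‖h‖)) * ‖h‖ := mul_le_mul_of_nonneg_right (b1.trans b3) (norm_nonneg h)
        _ = 2 * K * ‖h‖ ^ 2 := by ring)
  simp only [one_smul, zero_smul, add_zero, sub_zero, Real.norm_eq_abs] at h1
  rwa [two_mul (ψ y)]

theorem sm_sub {q ψ : ℂ → ℝ} (hq : Win q) (hψ : ContDiff ℝ ∞ ψ) (hc : HasCompactSupport ψ) :
    ∃ C : ℝ, 0 ≤ C ∧ ∀ δ : ℝ, ∀ y, |ψ y - sm δ q ψ y| ≤ C * δ ^ 2 := by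
  obtain ⟨K, hK⟩ := ContDiff.lipschitzWith_of_hasCompactSupport (𝕂 := ℝ) (n := ∞) (hc.fderiv ℝ)
    (hψ.fderiv_right (m := ∞) (by simp)) (by simp)
  refine ⟨K, K.2, fun δ y => ?_⟩
  have c1 : Continuous fun Y : ℂ => ψ (y - δ • Y) := hψ.continuous.comp (by fun_prop)
  have c2 : Continuous fun Y : ℂ => ψ (y + δ • Y) := hψ.continuous.comp (by fun_prop)
  have i1 := int_moll hq c1
  have i2 := int_moll hq c2
  have i3 := int_moll hq (g := fun _ => 2 * ψ y) continuous_const
  have i4 := int_moll hq (g := fun _ => 2 * K * δ ^ 2) continuous_const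
  have e1 : ∫ Y, ψ (y + δ • Y) * q Y ^ 3 = sm δ q ψ y := by
    unfold sm
    rw [← integral_neg_eq_self]
    refine integral_congr_ae (Eventually.of_forall fun Y => ?_)
    simp only [smul_neg, hq.even, sub_eq_add_neg]
  have e2 : ∫ Y, (ψ (y + δ • Y) + ψ (y - δ • Y) - 2 * ψ y) * q Y ^ 3
      = 2 * sm δ q ψ y - 2 * ψ y := by
    have h : (fun Y => (ψ (y + δ • Y) + ψ (y - δ • Y) - 2 * ψ y) * q Y ^ 3) = fun Y =>
        (ψ (y + δ • Y) * q Y ^ 3 + ψ (y - δ • Y) * q Y ^ 3) - 2 * ψ y * q Y ^ 3 := by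
      funext Y
      ring
    have i5 : Integrable fun Y => ψ (y + δ • Y) * q Y ^ 3 + ψ (y - δ • Y) * q Y ^ 3 := i2.add i1
    rw [h, integral_sub i5 i3, integral_add i2 i1, e1, integral_const_mul, hq.one]
    unfold sm
    ring
  have e3 : ‖∫ Y, (ψ (y + δ • Y) + ψ (y - δ • Y) - 2 * ψ y) * q Y ^ 3‖
      ≤ ∫ Y, 2 * K * δ ^ 2 * q Y ^ 3 := by
    refine norm_integral_le_of_norm_le i4 (Eventually.of_forall fun Y => ?_)
    by_cases hY : Y ∈ ball (0 : ℂ) 1
    · have h3 : 0 ≤ q Y ^ 3 := pow_nonneg (hq.nn Y) 3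
      rw [norm_mul, Real.norm_of_nonneg h3, Real.norm_eq_abs]
      refine mul_le_mul_of_nonneg_right ((second_moll hψ hK y (δ • Y)).trans ?_) h3
      have h4 : ‖Y‖ ≤ 1 := (mem_ball_zero_iff.mp hY).le
      have h5 : ‖δ • Y‖ ^ 2 ≤ δ ^ 2 := by
        rw [norm_smul, mul_pow, Real.norm_eq_abs, sq_abs]
        exact mul_le_of_le_one_right (sq_nonneg δ) (pow_le_one₀ (norm_nonneg Y) h4)
      exact mul_le_mul_of_nonneg_left h5 (by positivity)
    · simp [q_zero_moll hq hY]
  rw [e2, integral_const_mul, hq.one, Real.norm_eq_abs, abs_le] at e3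
  rw [abs_le]
  constructor <;> linarith [e3.1, e3.2]

theorem sm_zero {q ψ : ℂ → ℝ} (hq : Win q) {x0 : ℂ} {r δ : ℝ} (hs : tsupport ψ ⊆ ball x0 r)
    (hδ : 0 < δ) {y : ℂ} (hy : y ∉ ball x0 (r + δ)) : sm δ q ψ y = 0 := by
  unfold sm
  refine integral_eq_zero_of_ae (Eventually.of_forall fun Y => ?_)
  by_cases hY : Y ∈ ball (0 : ℂ) 1
  · have h : ψ (y - δ • Y) = 0 := by
      refine image_eq_zero_of_notMem_tsupport fun h => hy ?_
      have h1 := mem_ball_iff_norm.mp (hs h)
      have h2 : ‖δ • Y‖ ≤ δ := by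
        rw [norm_smul, Real.norm_of_nonneg hδ.le]
        exact mul_le_of_le_one_right hδ.le (mem_ball_zero_iff.mp hY).le
      have h3 : y - x0 = (y - δ • Y - x0) + δ • Y := by abel
      rw [mem_ball_iff_norm, h3]
      exact (norm_add_le _ _).trans_lt (by linarith)
    simp only [h, zero_mul, Pi.zero_apply]
  · simp [q_zero_moll hq hY]

theorem continuous_sm {q ψ : ℂ → ℝ} (hq : Win q) (hψ : Continuous ψ) (δ : ℝ) :
    Continuous (sm δ q ψ) := by
  have h : sm δ q ψ = fun y => ∫ Y in closedBall (0 : ℂ) 1, ψ (y - δ • Y) * q Y ^ 3 := by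
    funext y
    unfold sm
    refine (setIntegral_eq_integral_of_forall_compl_eq_zero fun Y hY => ?_).symm
    have h : q Y = 0 := q_zero_moll hq fun h => hY (ball_subset_closedBall h)
    simp [h]
  rw [h]
  have hqc := hq.sm.continuous
  refine continuous_parametric_integral_of_continuous
    (f := fun y Y : ℂ => ψ (y - δ • Y) * q Y ^ 3) ?_ (isCompact_closedBall (0 : ℂ) 1)
  exact (hψ.comp (continuous_fst.sub (continuous_snd.const_smul δ))).mul
    ((hqc.comp continuous_snd).pow 3)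

theorem integral_sm {q ψ F : ℂ → ℝ} (hq : Win q) (hψ : Continuous ψ)
    (hc : HasCompactSupport ψ) (hF : Continuous F) (δ : ℝ) :
    ∫ y, sm δ q ψ y * F y = ∫ x, ψ x * ∫ Y, q Y ^ 3 * F (x + δ • Y) := by
  have hqc := hq.sm.continuous
  obtain ⟨R, hR⟩ := hc.isCompact.isBounded.subset_closedBall (0 : ℂ)
  have i1 : Integrable (Function.uncurry fun y Y : ℂ => ψ (y - δ • Y) * q Y ^ 3 * F y)
      (volume.prod volume) := by
    refine Continuous.integrable_of_hasCompactSupport
      (((hψ.comp (continuous_fst.sub (continuous_snd.const_smul δ))).mul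
        ((hqc.comp continuous_snd).pow 3)).mul (hF.comp continuous_fst)) ?_
    refine HasCompactSupport.intro
      ((isCompact_closedBall (0 : ℂ) (R + |δ|)).prod (isCompact_closedBall (0 : ℂ) 1)) ?_
    rintro ⟨y, Y⟩ hp
    by_cases hY : Y ∈ ball (0 : ℂ) 1
    · have h : ψ (y - δ • Y) = 0 := by
        refine image_eq_zero_of_notMem_tsupport fun h => hp ⟨?_, ball_subset_closedBall hY⟩
        have h1 := mem_closedBall_zero_iff.mp (hR h)
        have h2 : ‖δ • Y‖ ≤ |δ| := by
          rw [norm_smul, Real.norm_eq_abs]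
          exact mul_le_of_le_one_right (abs_nonneg δ) (mem_ball_zero_iff.mp hY).le
        have h3 : y = (y - δ • Y) + δ • Y := by abel
        change y ∈ closedBall (0 : ℂ) (R + |δ|)
        rw [mem_closedBall_zero_iff, h3]
        exact (norm_add_le _ _).trans (by linarith)
      change ψ (y - δ • Y) * q Y ^ 3 * F y = 0
      rw [h, zero_mul, zero_mul]
    · change ψ (y - δ • Y) * q Y ^ 3 * F y = 0
      simp [q_zero_moll hq hY]
  have i2 : Integrable (Function.uncurry fun Y x : ℂ => ψ x * (q Y ^ 3 * F (x + δ • Y)))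
      (volume.prod volume) := by
    refine Continuous.integrable_of_hasCompactSupport
      ((hψ.comp continuous_snd).mul (((hqc.comp continuous_fst).pow 3).mul
        (hF.comp (continuous_snd.add (continuous_fst.const_smul δ))))) ?_
    refine HasCompactSupport.intro ((isCompact_closedBall (0 : ℂ) 1).prod hc.isCompact) ?_
    rintro ⟨Y, x⟩ hp
    change ψ x * (q Y ^ 3 * F (x + δ • Y)) = 0
    by_cases hY : Y ∈ ball (0 : ℂ) 1
    · have h : ψ x = 0 :=
        image_eq_zero_of_notMem_tsupport fun h => hp ⟨ball_subset_closedBall hY, h⟩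
      rw [h, zero_mul]
    · simp [q_zero_moll hq hY]
  calc ∫ y, sm δ q ψ y * F y = ∫ y, ∫ Y, ψ (y - δ • Y) * q Y ^ 3 * F y := by
        refine integral_congr_ae (Eventually.of_forall fun y => ?_)
        unfold sm
        simp only []
        rw [integral_mul_const]
    _ = ∫ Y, ∫ y, ψ (y - δ • Y) * q Y ^ 3 * F y := integral_integral_swap i1
    _ = ∫ Y, ∫ x, ψ x * (q Y ^ 3 * F (x + δ • Y)) := by
        refine integral_congr_ae (Eventually.of_forall fun Y => ?_)
        simp only []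
        rw [← integral_add_right_eq_self _ (δ • Y)]
        refine integral_congr_ae (Eventually.of_forall fun x => ?_)
        simp only [add_sub_cancel_right, mul_assoc]
    _ = ∫ x, ∫ Y, ψ x * (q Y ^ 3 * F (x + δ • Y)) := integral_integral_swap i2
    _ = _ := by
        refine integral_congr_ae (Eventually.of_forall fun x => ?_)
        simp only []
        rw [integral_const_mul]

/-- Reduction of the trilinear form to windowed pieces and an error term. -/
theorem split_sm {q ψ : ℂ → ℝ} (hq : Win q) (hψ : ContDiff ℝ ∞ ψ) {x0 : ℂ} {r : ℝ}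
    (hs : tsupport ψ ⊆ ball x0 r) :
    ∃ C : ℝ≥0∞, C ≠ ⊤ ∧ ∀ δ : ℝ, 0 < δ → ∀ F : ℂ → ℝ, Continuous F →
      ‖∫ y, ψ y * F y‖ₑ ≤ C * ENNReal.ofReal (δ ^ 2) * (∫⁻ y in ball x0 (r + δ), ‖F y‖ₑ) +
        C * ∫⁻ x in ball x0 r, ‖∫ Y, q Y ^ 3 * F (x + δ • Y)‖ₑ := by
  have hc : HasCompactSupport ψ :=
    (isCompact_closedBall x0 r).of_isClosed_subset (isClosed_tsupport ψ)
      (hs.trans ball_subset_closedBall)
  obtain ⟨C1, hC1, h1⟩ := sm_sub hq hψ hc
  obtain ⟨C2, h2⟩ := hc.exists_bound_of_continuous hψ.continuous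
  have hC2 : 0 ≤ C2 := (norm_nonneg _).trans (h2 0)
  refine ⟨ENNReal.ofReal (C1 + C2), ENNReal.ofReal_ne_top, fun δ hδ F hF => ?_⟩
  have hsc := continuous_sm hq hψ.continuous δ
  have i1 : Integrable fun y => ψ y * F y :=
    (hψ.continuous.mul hF).integrable_of_hasCompactSupport hc.mul_right
  have i2 : Integrable fun y => sm δ q ψ y * F y := by
    refine (hsc.mul hF).integrable_of_hasCompactSupport ?_
    refine HasCompactSupport.intro (isCompact_closedBall x0 (r + δ)) fun y hy => ?_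
    have h : sm δ q ψ y = 0 := sm_zero hq hs hδ fun h => hy (ball_subset_closedBall h)
    simp [h]
  have e : ∫ y, ψ y * F y = (∫ y, (ψ y - sm δ q ψ y) * F y) +
      ∫ x, ψ x * ∫ Y, q Y ^ 3 * F (x + δ • Y) := by
    rw [← integral_sm hq hψ.continuous hc hF δ]
    simp only [sub_mul]
    rw [integral_sub i1 i2]
    ring
  rw [e]
  refine (enorm_add_le _ _).trans (add_le_add ?_ ?_)
  · refine (enorm_integral_le_lintegral_enorm _).trans ?_
    rw [← lintegral_const_mul' _ _
      (ENNReal.mul_ne_top ENNReal.ofReal_ne_top ENNReal.ofReal_ne_top),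
      ← lintegral_indicator measurableSet_ball]
    refine lintegral_mono fun y => ?_
    by_cases hy : y ∈ ball x0 (r + δ)
    · rw [indicator_of_mem hy, enorm_mul]
      refine mul_le_mul_left ?_ _
      rw [← ENNReal.ofReal_mul (by linarith), Real.enorm_eq_ofReal_abs]
      refine ENNReal.ofReal_le_ofReal ((h1 δ y).trans ?_)
      nlinarith [sq_nonneg δ]
    · have a1 : ψ y = 0 := image_eq_zero_of_notMem_tsupport fun h =>
        hy (ball_subset_ball (by linarith) (hs h))
      simp [a1, sm_zero hq hs hδ hy]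
  · refine (enorm_integral_le_lintegral_enorm _).trans ?_
    rw [← lintegral_const_mul' _ _ ENNReal.ofReal_ne_top, ← lintegral_indicator measurableSet_ball]
    refine lintegral_mono fun y => ?_
    by_cases hy : y ∈ ball x0 r
    · rw [indicator_of_mem hy, enorm_mul]
      refine mul_le_mul_left ?_ _
      rw [← ofReal_norm]
      exact ENNReal.ofReal_le_ofReal ((h2 y).trans (by linarith))
    · have a1 : ψ y = 0 := image_eq_zero_of_notMem_tsupport fun h => hy (hs h)
      simp [a1]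

end Pool.Agent.Lib.MP_a52643_an.H60
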