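import Pool.Agent.Lib.MP_a52643_an.H60Loc1
import Pool.Agent.Lib.MP_a52643_an.H60Moll

open MeasureTheory Set Filter Topology Metric
open scoped ENNReal NNReal ContDiff Laplacian FourierTransform Real

noncomputable section

namespace Pool.Agent.Lib.MP_a52643_an.H60

/-- A crude bound for the absolute trilinear integral. -/
theorem abs_est {u : ℂ → ℝ} (hu : ContDiff ℝ ∞ u) (hc : HasCompactSupport u) {A A' : ℝ}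
    (hA : 0 < A) :
    ∃ C : ℝ≥0∞, C ≠ ⊤ ∧ ∀ δ ∈ Ioc (0 : ℝ) 1, ∀ a ∈ Icc A A', ∀ (x0 : ℂ) (R : ℝ), δ ≤ R →
      ∀ φ1 φ2 φ3 : ℂ → ℝ, Continuous φ1 → Continuous φ2 → HelG u a δ x0 (2 * R) φ3 →
      (∫⁻ y in ball x0 R, ‖φ1 y * φ2 y * φ3 y‖ₑ) ^ 2 ≤ C * ENNReal.ofReal (δ⁻¹ ^ 3) *
        (NN (ball x0 (2 * R)) φ1 * NN (ball x0 (2 * R)) φ2 * NN (ball x0 (2 * R)) φ3) := by
  obtain ⟨q, hq⟩ := exists_win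
  obtain ⟨B, hB⟩ := hq.adm 8
  obtain ⟨M, hM⟩ := exists_coef hu hc 8 (A' := A') hA
  obtain ⟨C, hC, h⟩ := pt_le M B
  have e0 : ‖q 0‖ₑ ^ 2 ≠ 0 := pow_ne_zero 2 (by simpa using hq.zero.ne')
  have e1 : ‖q 0‖ₑ ^ 2 ≠ ⊤ := ENNReal.pow_ne_top enorm_ne_top
  refine ⟨(‖q 0‖ₑ ^ 2)⁻¹ * C, ENNReal.mul_ne_top (ENNReal.inv_ne_top.2 e0) hC,
    fun δ hδ a ha x0 R hR φ1 φ2 φ3 h1 h2 h3 => ?_⟩
  have hp : ∀ x ∈ ball x0 R, ‖φ3 x‖ₑ ^ 2 ≤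
      (‖q 0‖ₑ ^ 2)⁻¹ * C * ENNReal.ofReal (δ⁻¹ ^ 3) * NN (ball x0 (2 * R)) φ3 := by
    intro x hx
    have h4 := (h δ hδ a 1 u φ3 (cx q) x hu h3.sm (hM a ha) hB (h3.hel hu hδ.1 hR hx)
      one_pos).2.2.2
    have h5 := m2_le h3.sm.continuous hδ.1 hR hx
    have h6 : ‖(φ3 x : ℂ) * cx q 0‖ₑ ^ 2 = ‖q 0‖ₑ ^ 2 * ‖φ3 x‖ₑ ^ 2 := by
      rw [cx, ← Complex.ofReal_mul, ← mul_pow, ← enorm_mul, mul_comm]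
      simp only [enorm, Complex.nnnorm_real]
    have h7 : ENNReal.ofReal (δ⁻¹ ^ 3) = ENNReal.ofReal δ⁻¹ * ENNReal.ofReal (δ⁻¹ ^ 2) := by
      rw [← ENNReal.ofReal_mul (inv_pos.2 hδ.1).le]
      congr 1
      ring
    calc ‖φ3 x‖ₑ ^ 2 = (‖q 0‖ₑ ^ 2)⁻¹ * (‖q 0‖ₑ ^ 2 * ‖φ3 x‖ₑ ^ 2) := by
          rw [← mul_assoc, ENNReal.inv_mul_cancel e0 e1, one_mul]
      _ ≤ (‖q 0‖ₑ ^ 2)⁻¹ * (C * ENNReal.ofReal δ⁻¹ *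
            (ENNReal.ofReal (δ⁻¹ ^ 2) * NN (ball x0 (2 * R)) φ3)) := by
          refine mul_le_mul' le_rfl ?_
          rw [← h6]
          exact h4.trans (mul_le_mul' le_rfl h5)
      _ = _ := by rw [h7]; ring
  have hs : ball x0 R ⊆ ball x0 (2 * R) := ball_subset_ball (by linarith [hδ.1])
  refine (lintegral_sq_le (m1 := fun y => ‖φ1 y‖ₑ ^ 2) (m2 := fun y => ‖φ2 y‖ₑ ^ 2)
    (A := (‖q 0‖ₑ ^ 2)⁻¹ * C * ENNReal.ofReal (δ⁻¹ ^ 3) * NN (ball x0 (2 * R)) φ3)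
    measurableSet_ball (h1.measurable.enorm.pow_const 2) (h2.measurable.enorm.pow_const 2)
    fun x hx => ?_).trans ?_
  · rw [enorm_mul, enorm_mul, mul_pow, mul_pow, mul_comm]
    gcongr
    exact hp x hx
  · calc _ ≤ (‖q 0‖ₑ ^ 2)⁻¹ * C * ENNReal.ofReal (δ⁻¹ ^ 3) * NN (ball x0 (2 * R)) φ3 *
          (NN (ball x0 (2 * R)) φ1 * NN (ball x0 (2 * R)) φ2) :=
          mul_le_mul' le_rfl (mul_le_mul' (lintegral_mono_set hs) (lintegral_mono_set hs))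
      _ = _ := by ring

lemma add_sq_loc (X Y : ℝ≥0∞) : (X + Y) ^ 2 ≤ 4 * (X ^ 2 + Y ^ 2) := by
  rcases le_total X Y with h | h
  · calc (X + Y) ^ 2 ≤ (Y + Y) ^ 2 := by gcongr
      _ = 4 * Y ^ 2 := by ring
      _ ≤ _ := by gcongr; exact le_add_self
  · calc (X + Y) ^ 2 ≤ (X + X) ^ 2 := by gcongr
      _ = 4 * X ^ 2 := by ring
      _ ≤ _ := by gcongr; exact le_self_add

/-- The local trilinear estimate. -/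
theorem loc {u : ℂ → ℝ} (hu : ContDiff ℝ ∞ u) (hc : HasCompactSupport u) {x0 : ℂ}
    (hK : Δ u x0 ≠ 0) {K : Set R3} (hKc : IsCompact K) (hT : ∀ a ∈ K, Tri a) {R : ℝ}
    (hR : 0 < R) :
    ∃ r0 : ℝ, 0 < r0 ∧ ∀ ψ : ℂ → ℝ, ContDiff ℝ ∞ ψ → tsupport ψ ⊆ ball x0 r0 →
      ∃ C : ℝ≥0∞, C ≠ ⊤ ∧ ∃ τ0 : ℝ, 0 < τ0 ∧ ∀ τ ∈ Ioc (0 : ℝ) τ0, ∀ a ∈ K,
      ∀ φ1 φ2 φ3 : ℂ → ℝ, HelG u a.1 (τ ^ 2) x0 (2 * R) φ1 →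
      HelG u a.2.1 (τ ^ 2) x0 (2 * R) φ2 → HelG u a.2.2 (τ ^ 2) x0 (2 * R) φ3 →
      ‖∫ y, ψ y * (φ1 y * φ2 y * φ3 y)‖ₑ ^ 2 ≤ C * ENNReal.ofReal τ *
          (NN (ball x0 (2 * R)) φ1 * NN (ball x0 (2 * R)) φ2 * NN (ball x0 (2 * R)) φ3) := by
  obtain ⟨q, hq⟩ := exists_win
  obtain ⟨r0, hr0, C3, hC3, hw⟩ := win_est hu hc hK hKc hT hR hq
  have c3 : Continuous fun a : R3 => a.2.2 := by fun_prop
  obtain ⟨A, hA, hA1⟩ := hKc.exists_forall_le' c3.continuousOn (a := 0)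
    fun a ha => by have := hT a ha; linarith [this.1, this.2.1]
  obtain ⟨A', hA'⟩ := hKc.bddAbove_image c3.continuousOn
  obtain ⟨C2, hC2, hab⟩ := abs_est hu hc (A' := A') hA
  refine ⟨min r0 (R / 2), lt_min hr0 (by linarith), fun ψ hψ hs => ?_⟩
  obtain ⟨C1, hC1, hsp⟩ := split_sm hq hψ hs
  refine ⟨4 * (C1 ^ 2 * C2 + C1 ^ 2 * C3), ENNReal.mul_ne_top (by simp) (ENNReal.add_ne_top.2
    ⟨ENNReal.mul_ne_top (ENNReal.pow_ne_top hC1) hC2,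
      ENNReal.mul_ne_top (ENNReal.pow_ne_top hC1) hC3⟩), min 1 (R / 2),
    lt_min one_pos (by linarith), fun τ hτ a ha φ1 φ2 φ3 h1 h2 h3 => ?_⟩
  have t0 : 0 < τ := hτ.1
  have t1 : τ ≤ 1 := hτ.2.trans (min_le_left _ _)
  have t2 : τ ≤ R / 2 := hτ.2.trans (min_le_right _ _)
  have t3 : τ ^ 2 ≤ τ := by nlinarith
  have d0 : 0 < τ ^ 2 := by positivity
  have e1 := hsp (τ ^ 2) d0 (fun y => φ1 y * φ2 y * φ3 y)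
    ((h1.sm.continuous.mul h2.sm.continuous).mul h3.sm.continuous)
  have e2 := hab (τ ^ 2) ⟨d0, by linarith⟩ a.2.2 ⟨hA1 a ha, hA' ⟨a, ha, rfl⟩⟩ x0 R (by linarith)
    φ1 φ2 φ3 h1.sm.continuous h2.sm.continuous h3
  have e3 := hw τ ⟨t0, t1⟩ (by linarith) a ha φ1 φ2 φ3 h1 h2 h3
  set N := NN (ball x0 (2 * R)) φ1 * NN (ball x0 (2 * R)) φ2 * NN (ball x0 (2 * R)) φ3
  set I1 := ∫⁻ y in ball x0 R, ‖φ1 y * φ2 y * φ3 y‖ₑ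
  set I2 := ∫⁻ x in ball x0 r0,
    ‖∫ Y, q Y ^ 3 * (φ1 (x + τ ^ 2 • Y) * φ2 (x + τ ^ 2 • Y) * φ3 (x + τ ^ 2 • Y))‖ₑ
  have e4 : ‖∫ y, ψ y * (φ1 y * φ2 y * φ3 y)‖ₑ
      ≤ C1 * ENNReal.ofReal ((τ ^ 2) ^ 2) * I1 + C1 * I2 := by
    refine e1.trans (add_le_add (mul_le_mul' le_rfl (lintegral_mono_set (ball_subset_ball ?_)))
      (mul_le_mul' le_rfl (lintegral_mono_set (ball_subset_ball (min_le_left _ _)))))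
    linarith [min_le_right r0 (R / 2)]
  have e5 : ENNReal.ofReal ((τ ^ 2) ^ 2) ^ 2 * ENNReal.ofReal ((τ ^ 2)⁻¹ ^ 3)
      ≤ ENNReal.ofReal τ := by
    rw [← ENNReal.ofReal_pow (by positivity), ← ENNReal.ofReal_mul (by positivity)]
    refine ENNReal.ofReal_le_ofReal (le_trans (le_of_eq ?_) t3)
    field_simp
  calc _ ≤ (C1 * ENNReal.ofReal ((τ ^ 2) ^ 2) * I1 + C1 * I2) ^ 2 := by gcongr
    _ ≤ 4 * ((C1 * ENNReal.ofReal ((τ ^ 2) ^ 2) * I1) ^ 2 + (C1 * I2) ^ 2) := add_sq_loc _ _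
    _ = 4 * (C1 ^ 2 * ENNReal.ofReal ((τ ^ 2) ^ 2) ^ 2 * I1 ^ 2 + C1 ^ 2 * I2 ^ 2) := by ring
    _ ≤ 4 * (C1 ^ 2 * ENNReal.ofReal ((τ ^ 2) ^ 2) ^ 2 * (C2 * ENNReal.ofReal ((τ ^ 2)⁻¹ ^ 3) * N)
          + C1 ^ 2 * (C3 * ENNReal.ofReal τ * N)) := by gcongr
    _ = 4 * (C1 ^ 2 * C2 * (ENNReal.ofReal ((τ ^ 2) ^ 2) ^ 2 * ENNReal.ofReal ((τ ^ 2)⁻¹ ^ 3)) * N
          + C1 ^ 2 * (C3 * ENNReal.ofReal τ * N)) := by ring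
    _ ≤ 4 * (C1 ^ 2 * C2 * ENNReal.ofReal τ * N + C1 ^ 2 * (C3 * ENNReal.ofReal τ * N)) := by
        gcongr
    _ = _ := by ring

end Pool.Agent.Lib.MP_a52643_an.H60
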