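import Pool.Agent.Lib.MP_a52643_an.H60Pol0
import Pool.Agent.Lib.MP_a52643_an.H60Ang
import Pool.Agent.Lib.MP_a52643_an.H60LM

open MeasureTheory Set Filter Topology Metric
open scoped ENNReal NNReal ContDiff Laplacian FourierTransform Real

noncomputable section

namespace Pool.Agent.Lib.MP_a52643_an.H60

theorem ex_add_pol (s t : ℝ) : ex (s + t) = ex s * ex t := by
  simp [ex, add_mul, Complex.exp_add]

theorem norm_ex_pol (t : ℝ) : ‖ex t‖ = 1 := Complex.norm_exp_ofReal_mul_I t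

theorem ex_eq_pol (t : ℝ) : ex t = Real.cos t + Real.sin t * Complex.I := by
  simp [ex, Complex.exp_mul_I]

theorem conj_ex_pol (t : ℝ) : (starRingEnd ℂ) (ex t) = ex (-t) := by
  simp [ex, ← Complex.exp_conj]

theorem cont_ex_pol : Continuous ex := by
  unfold ex
  fun_prop

/-- Polar coordinates on an annulus, with a rotated angle. -/
theorem polar_pol {a η B : ℝ} (hB : a + η ≤ B) (θ0 : ℝ) (f : ℂ → ℝ≥0∞) :
    ∫⁻ z, (Ann a η).indicator f z ≤
      ENNReal.ofReal B * ∫⁻ r in JJ a η, ∫⁻ θ in Ioo (-π) π, f (r * ex (θ0 + θ)) := by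
  have hJ : MeasurableSet (JJ a η) := measurableSet_Ioo
  have hrot := (rotation (Circle.exp θ0)).measurePreserving.lintegral_comp_emb
    (rotation (Circle.exp θ0)).toHomeomorph.measurableEmbedding ((Ann a η).indicator f)
  rw [← hrot, ← Complex.lintegral_comp_polarCoord_symm, polarCoord_target,
    Measure.volume_eq_prod, ← Measure.prod_restrict]
  refine (lintegral_prod_le _).trans ?_
  rw [← lintegral_const_mul' _ _ ENNReal.ofReal_ne_top, ← lintegral_indicator hJ,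
    ← lintegral_indicator measurableSet_Ioi]
  refine lintegral_mono fun r => ?_
  by_cases hr : r ∈ Ioi (0 : ℝ)
  swap
  · rw [indicator_of_notMem hr]
    exact zero_le
  rw [indicator_of_mem hr]
  have e : ∀ θ : ℝ, rotation (Circle.exp θ0) (Complex.polarCoord.symm (r, θ))
      = r * ex (θ0 + θ) := fun θ => by
    rw [rotation_apply, Complex.polarCoord_symm_apply, ex_add_pol, ex_eq_pol θ, Circle.coe_exp]
    simp only [ex]
    ring
  have en : ∀ θ : ℝ, ‖(r : ℂ) * ex (θ0 + θ)‖ = r := fun θ => by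
    rw [norm_mul, norm_ex_pol, mul_one, Complex.norm_real, Real.norm_eq_abs, abs_of_pos hr]
  simp only [e, smul_eq_mul]
  by_cases hj : r ∈ JJ a η
  · rw [indicator_of_mem hj, ← lintegral_const_mul' _ _ ENNReal.ofReal_ne_top]
    refine lintegral_mono fun θ => ?_
    exact mul_le_mul' (ENNReal.ofReal_le_ofReal (hj.2.le.trans hB)) (indicator_le_self _ _ _)
  · have : ∀ θ : ℝ, (Ann a η).indicator f (r * ex (θ0 + θ)) = 0 := fun θ =>
      indicator_of_notMem (fun h => hj (by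
        have h' : ‖(r : ℂ) * ex (θ0 + θ)‖ ∈ JJ a η := h
        rwa [en] at h')) _
    simp [this]

/-- From the angle to the length of the second side, on one half of the circle. -/
theorem half_pol {A B : ℝ → ℝ} (mA : Measurable A) (mB : Measurable B) {S : Set ℝ}
    (hS : MeasurableSet S) {r1 r3 a η k : ℝ} {C : ℝ≥0∞}
    (hC : ∀ (s : Set ℝ) (f : ℝ → ℝ), MeasurableSet s → Measurable f →
      (∀ a ∈ s, ∀ b ∈ s, ‖a - b‖ ≤ k * ‖f a - f b‖) →
      ∀ g : ℝ → ℝ≥0∞, Measurable g → ∫⁻ x in s, g (f x) ≤ C * ∫⁻ y, g y)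
    (hA : ∀ α ∈ S, ‖r1 * ex α + r3‖ ∈ JJ a η → A ‖r1 * ex α + r3‖ = α)
    (hcl : ∀ r ∈ JJ a η, (r1 : ℂ) * ex (A r) + r * ex (B r) + r3 = 0)
    (hL : ∀ r ∈ JJ a η, ∀ r' ∈ JJ a η, ‖A r - A r'‖ ≤ k * ‖r - r'‖)
    {Φ : ℂ × ℂ → ℝ≥0∞} (hΦ : Measurable Φ) (θ : ℝ) :
    ∫⁻ α in S, (Ann a η).indicator (fun z => Φ (r1 * ex (θ + α), z))
        (-(r1 * ex (θ + α)) - r3 * ex θ) ≤
      C * ∫⁻ r in JJ a η, Φ (r1 * ex (θ + A r), r * ex (θ + B r)) := by
  have hJ : MeasurableSet (JJ a η) := measurableSet_Ioo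
  have mex := cont_ex_pol.measurable
  have mn : Measurable fun α : ℝ => ‖r1 * ex α + r3‖ := by fun_prop
  have hs : MeasurableSet (S ∩ (fun α : ℝ => ‖r1 * ex α + r3‖) ⁻¹' JJ a η) := hS.inter (mn hJ)
  have mH : Measurable fun r : ℝ => Φ (r1 * ex (θ + A r), r * ex (θ + B r)) := by fun_prop
  have h1 := hC _ _ hs mn (fun α hα β hβ => by
    have := hL _ hα.2 _ hβ.2
    rwa [hA α hα.1 hα.2, hA β hβ.1 hβ.2] at this) _ (mH.indicator hJ)
  rw [lintegral_indicator hJ] at h1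
  refine le_trans (le_of_eq ?_) h1
  rw [← lintegral_indicator hS, ← lintegral_indicator hs]
  refine lintegral_congr fun α => ?_
  have e1 : -((r1 : ℂ) * ex (θ + α)) - r3 * ex θ = -(ex θ * (r1 * ex α + r3)) := by
    rw [ex_add_pol]
    ring
  have e2 : ‖-((r1 : ℂ) * ex (θ + α)) - r3 * ex θ‖ = ‖r1 * ex α + r3‖ := by
    rw [e1, norm_neg, norm_mul, norm_ex_pol, one_mul]
  by_cases h2 : α ∈ S
  swap
  · rw [indicator_of_notMem h2, indicator_of_notMem fun h => h2 h.1]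
  rw [indicator_of_mem h2]
  by_cases h3 : ‖r1 * ex α + r3‖ ∈ JJ a η
  · have h4 : -((r1 : ℂ) * ex (θ + α)) - r3 * ex θ ∈ Ann a η := by
      change ‖_‖ ∈ JJ a η
      rwa [e2]
    have h5 := hcl _ h3
    rw [hA α h2 h3] at h5
    have h6 : α ∈ S ∩ (fun α : ℝ => ‖r1 * ex α + r3‖) ⁻¹' JJ a η := ⟨h2, h3⟩
    rw [indicator_of_mem h4, indicator_of_mem h6, indicator_of_mem h3,
      hA α h2 h3, e1, ex_add_pol θ (B _)]
    congr 2
    linear_combination (-ex θ) * h5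
  · have h4 : -((r1 : ℂ) * ex (θ + α)) - r3 * ex θ ∉ Ann a η := by
      change ¬ ‖_‖ ∈ JJ a η
      rwa [e2]
    rw [indicator_of_notMem h4, indicator_of_notMem fun h => h3 h.2]

theorem al_norm_pol {r1 r3 α : ℝ} (h1 : 0 < r1) (h3 : 0 < r3) :
    al (r1, ‖r1 * ex α + r3‖, r3) = Real.arccos (Real.cos α) := by
  have e : ‖r1 * ex α + r3‖ ^ 2 = r1 ^ 2 + r3 ^ 2 + 2 * r1 * r3 * Real.cos α := by
    rw [← Complex.normSq_eq_norm_sq, ex_eq_pol, Complex.normSq_apply]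
    simp only [Complex.add_re, Complex.mul_re, Complex.ofReal_re, Complex.ofReal_im,
      Complex.I_re, Complex.I_im, Complex.add_im, Complex.mul_im]
    linear_combination r1 ^ 2 * Real.sin_sq_add_cos_sq α
  simp only [al]
  rw [e]
  congr 1
  field_simp
  ring

/-- Reordering of four integrals. -/
theorem swap_pol (μ1 μ2 μ3 μ4 : Measure ℝ) [SFinite μ1] [SFinite μ2] [SFinite μ3] [SFinite μ4]
    {F : (ℝ × ℝ) × ℝ × ℝ → ℝ≥0∞} (hF : Measurable F) :
    ∫⁻ c, ∫⁻ d, ∫⁻ a, ∫⁻ b, F ((a, b), c, d) ∂μ2 ∂μ1 ∂μ4 ∂μ3 =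
      ∫⁻ a, ∫⁻ b, ∫⁻ c, ∫⁻ d, F ((a, b), c, d) ∂μ4 ∂μ3 ∂μ2 ∂μ1 := by
  have e1 : ∀ q : ℝ × ℝ, ∫⁻ a, ∫⁻ b, F ((a, b), q) ∂μ2 ∂μ1 = ∫⁻ p, F (p, q) ∂μ1.prod μ2 :=
    fun q => (lintegral_prod (fun p => F (p, q)) (by fun_prop)).symm
  have e2 : ∀ p : ℝ × ℝ, ∫⁻ c, ∫⁻ d, F (p, c, d) ∂μ4 ∂μ3 = ∫⁻ q, F (p, q) ∂μ3.prod μ4 :=
    fun p => (lintegral_prod (fun q => F (p, q)) (by fun_prop)).symm
  simp only [e1, e2]
  rw [← lintegral_prod (fun q => ∫⁻ p, F (p, q) ∂μ1.prod μ2)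
      hF.lintegral_prod_left'.aemeasurable,
    ← lintegral_prod (fun p => ∫⁻ q, F (p, q) ∂μ3.prod μ4)
      hF.lintegral_prod_right'.aemeasurable]
  exact (lintegral_lintegral_swap (f := fun p q => F (p, q)) hF.aemeasurable).symm

/-- The resonant region in terms of the three lengths and one angle. -/
theorem pol_res {K : Set R3} (hK : IsCompact K) (hT : ∀ a ∈ K, Tri a) :
    ∃ ε : ℝ, 0 < ε ∧ ∃ C : ℝ≥0∞, C ≠ ⊤ ∧ ∀ a ∈ K, ∀ η : ℝ, 0 < η → η ≤ ε →
      ∀ g1 g2 g3 : ℂ → ℝ≥0∞, Measurable g1 → Measurable g2 → Measurable g3 →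
      T3 (Res a η) g1 g2 g3 ≤ C *
        ((∫⁻ r1 in JJ a.1 η, ∫⁻ r2 in JJ a.2.1 η, ∫⁻ r3 in JJ a.2.2 η, ∫⁻ θ in Icc (-π) π,
          g3 (r3 * ex θ) * (g1 (r1 * ex (θ + al (r1, r2, r3))) *
            g2 (r2 * ex (θ + -be (r1, r2, r3))))) +
        ∫⁻ r1 in JJ a.1 η, ∫⁻ r2 in JJ a.2.1 η, ∫⁻ r3 in JJ a.2.2 η, ∫⁻ θ in Icc (-π) π,
          g3 (r3 * ex θ) * (g1 (r1 * ex (θ + -al (r1, r2, r3))) *
            g2 (r2 * ex (θ + be (r1, r2, r3))))) := by
  obtain ⟨ε, hε, hsub⟩ := hK.exists_cthickening_subset_open isOpen_Tri hT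
  have hK' : IsCompact (cthickening ε K) := hK.cthickening
  obtain ⟨k, hk⟩ := LocallyLipschitzOn.exists_lipschitzOnWith_of_compact (f := al) hK'
    fun p hp => by
      obtain ⟨k, t, ht, h⟩ := (Tri.contDiffAt_al (hsub hp)).exists_lipschitzOnWith
      exact ⟨k, t, mem_nhdsWithin_of_mem_nhds ht, h⟩
  obtain ⟨M, hM⟩ := hK.isBounded.exists_norm_le
  obtain ⟨C, hC, hlm⟩ := lm (volume : Measure ℝ) (volume : Measure ℝ) rfl k
  set B := ENNReal.ofReal (M + ε) with hB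
  have hBt : B ≠ ⊤ := ENNReal.ofReal_ne_top
  refine ⟨ε, hε, B * (B * C), ENNReal.mul_ne_top hBt (ENNReal.mul_ne_top hBt hC), ?_⟩
  intro a ha η hη hηε g1 g2 g3 m1 m2 m3
  have hJ : ∀ c : ℝ, MeasurableSet (JJ c η) := fun c => measurableSet_Ioo
  have mex := cont_ex_pol.measurable
  have mal := measurable_al
  have mbe := measurable_be
  have hd : ∀ {c r : ℝ}, r ∈ JJ c η → dist r c ≤ ε := fun {c r} hr => by
    rw [Real.dist_eq, abs_le]
    constructor <;> linarith [hr.1, hr.2]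
  have hmem : ∀ r1 ∈ JJ a.1 η, ∀ r2 ∈ JJ a.2.1 η, ∀ r3 ∈ JJ a.2.2 η,
      ((r1, r2, r3) : R3) ∈ cthickening ε K := fun r1 h1 r2 h2 r3 h3 =>
    mem_cthickening_of_dist_le _ a ε K ha (by
      rw [Prod.dist_eq, Prod.dist_eq]
      exact max_le (hd h1) (max_le (hd h2) (hd h3)))
  have b1 : a.1 + η ≤ M + ε := add_le_add ((le_abs_self _).trans
    ((norm_fst_le a).trans (hM a ha))) hηε
  have b3 : a.2.2 + η ≤ M + ε := add_le_add ((le_abs_self _).trans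
    (((norm_snd_le a.2).trans (norm_snd_le a)).trans (hM a ha))) hηε
  set P : (ℝ × ℝ) × ℝ × ℝ → ℝ≥0∞ := fun p => g3 (p.2.1 * ex p.2.2) *
    (g1 (p.1.1 * ex (p.2.2 + al (p.1.1, p.1.2, p.2.1))) *
      g2 (p.1.2 * ex (p.2.2 + -be (p.1.1, p.1.2, p.2.1)))) with hP
  set Q : (ℝ × ℝ) × ℝ × ℝ → ℝ≥0∞ := fun p => g3 (p.2.1 * ex p.2.2) *
    (g1 (p.1.1 * ex (p.2.2 + -al (p.1.1, p.1.2, p.2.1))) *
      g2 (p.1.2 * ex (p.2.2 + be (p.1.1, p.1.2, p.2.1)))) with hQ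
  have mP : Measurable P := by
    rw [hP]
    fun_prop
  have mQ : Measurable Q := by
    rw [hQ]
    fun_prop
  have ang : ∀ r1 ∈ JJ a.1 η, ∀ r3 ∈ JJ a.2.2 η, ∀ θ : ℝ,
      ∫⁻ α in Ioo (-π) π, (Ann a.2.1 η).indicator
        (fun z => g3 (r3 * ex θ) * (g1 (r1 * ex (θ + α)) * g2 z)) (-(r1 * ex (θ + α)) - r3 * ex θ)
      ≤ C * ∫⁻ r2 in JJ a.2.1 η, (P ((r1, r2), r3, θ) + Q ((r1, r2), r3, θ)) := by
    intro r1 h1 r3 h3 θ
    have hT' : ∀ r ∈ JJ a.2.1 η, Tri (r1, r, r3) := fun r hr => hsub (hmem _ h1 _ hr _ h3)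
    have h0 : a.2.1 ∈ JJ a.2.1 η := ⟨by linarith, by linarith⟩
    have p1 : 0 < r1 := (hT' _ h0).pos.1
    have p3 : 0 < r3 := (hT' _ h0).pos.2.2
    have hL : ∀ r ∈ JJ a.2.1 η, ∀ r' ∈ JJ a.2.1 η,
        ‖al (r1, r, r3) - al (r1, r', r3)‖ ≤ k * ‖r - r'‖ := fun r hr r' hr' => by
      have := hk.dist_le_mul _ (hmem _ h1 _ hr _ h3) _ (hmem _ h1 _ hr' _ h3)
      simpa [dist_eq_norm, Prod.norm_def] using this
    have mΦ : Measurable fun p : ℂ × ℂ => g3 (r3 * ex θ) * (g1 p.1 * g2 p.2) := by fun_prop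
    have up := half_pol (A := fun r => al (r1, r, r3)) (B := fun r => -be (r1, r, r3))
      (by fun_prop) (by fun_prop) (S := Icc 0 π) measurableSet_Icc hlm
      (fun α hα _ => by rw [al_norm_pol p1 p3, Real.arccos_cos hα.1 hα.2])
      (fun r hr => (hT' r hr).closes) hL mΦ θ
    have dn := half_pol (A := fun r => -al (r1, r, r3)) (B := fun r => be (r1, r, r3))
      (by fun_prop) (by fun_prop) (S := Icc (-π) 0) measurableSet_Icc hlm
      (fun α hα _ => by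
        rw [al_norm_pol p1 p3, ← Real.cos_neg,
          Real.arccos_cos (by linarith [hα.2]) (by linarith [hα.1]), neg_neg])
      (fun r hr => by
        have := congrArg (starRingEnd ℂ) (hT' r hr).closes
        simpa [conj_ex_pol] using this)
      (fun r hr r' hr' => by
        rw [neg_sub_neg, norm_sub_rev]
        exact hL r hr r' hr') mΦ θ
    have hsp : Ioo (-π) π ⊆ Icc 0 π ∪ Icc (-π) 0 := fun α hα => by
      rcases le_total 0 α with h | h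
      · exact Or.inl ⟨h, hα.2.le⟩
      · exact Or.inr ⟨hα.1.le, h⟩
    refine ((lintegral_mono_set hsp).trans (lintegral_union_le _ _ _)).trans ?_
    rw [lintegral_add_left (by fun_prop), mul_add]
    exact add_le_add up dn
  have step1 : ∀ z3 : ℂ,
      ∫⁻ z1, (Res a η).indicator 1 (z1, z3) * (g1 z1 * g2 (-z1 - z3) * g3 z3) =
      (Ann a.2.2 η).indicator (fun z3 => ∫⁻ z1, (Ann a.1 η).indicator (fun z1 =>
        (Ann a.2.1 η).indicator (fun z => g3 z3 * (g1 z1 * g2 z)) (-z1 - z3)) z1) z3 := by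
    intro z3
    by_cases h3 : z3 ∈ Ann a.2.2 η
    · rw [indicator_of_mem h3]
      refine lintegral_congr fun z1 => ?_
      by_cases h1 : z1 ∈ Ann a.1 η
      · rw [indicator_of_mem h1]
        by_cases h2 : -z1 - z3 ∈ Ann a.2.1 η
        · rw [indicator_of_mem h2, indicator_of_mem (show (z1, z3) ∈ Res a η from ⟨h1, h2, h3⟩),
            Pi.one_apply, one_mul, mul_comm]
        · rw [indicator_of_notMem h2, indicator_of_notMem fun h : (z1, z3) ∈ Res a η => h2 h.2.1,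
            zero_mul]
      · rw [indicator_of_notMem h1, indicator_of_notMem fun h : (z1, z3) ∈ Res a η => h1 h.1,
          zero_mul]
    · rw [indicator_of_notMem h3]
      have : ∀ z1, (Res a η).indicator (1 : ℂ × ℂ → ℝ≥0∞) (z1, z3) = 0 := fun z1 =>
        indicator_of_notMem (fun h : (z1, z3) ∈ Res a η => h3 h.2.2) _
      simp [this]
  have fin : ∫⁻ r3 in JJ a.2.2 η, ∫⁻ θ in Icc (-π) π, ∫⁻ r1 in JJ a.1 η, ∫⁻ r2 in JJ a.2.1 η,
      (P ((r1, r2), r3, θ) + Q ((r1, r2), r3, θ)) =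
      (∫⁻ r1 in JJ a.1 η, ∫⁻ r2 in JJ a.2.1 η, ∫⁻ r3 in JJ a.2.2 η, ∫⁻ θ in Icc (-π) π,
        P ((r1, r2), r3, θ)) +
      ∫⁻ r1 in JJ a.1 η, ∫⁻ r2 in JJ a.2.1 η, ∫⁻ r3 in JJ a.2.2 η, ∫⁻ θ in Icc (-π) π,
        Q ((r1, r2), r3, θ) := by
    rw [swap_pol _ _ _ _ (F := fun p => P p + Q p) (mP.add mQ)]
    have m4 : Measurable fun p : (ℝ × ℝ) × ℝ => ∫⁻ θ in Icc (-π) π, P (p.1, p.2, θ) :=
      Measurable.lintegral_prod_right (by fun_prop)
    have m3 : Measurable fun p : ℝ × ℝ => ∫⁻ r3 in JJ a.2.2 η, ∫⁻ θ in Icc (-π) π,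
        P (p, r3, θ) := m4.lintegral_prod_right'
    rw [← lintegral_add_left m3.lintegral_prod_right']
    refine lintegral_congr fun r1 => ?_
    refine Eq.trans ?_ (lintegral_add_left (m3.comp measurable_prodMk_left) _)
    refine lintegral_congr fun r2 => ?_
    refine Eq.trans ?_ (lintegral_add_left (m4.comp measurable_prodMk_left) _)
    refine lintegral_congr fun r3 => ?_
    exact lintegral_add_left (by fun_prop) _
  unfold T3
  simp only [step1]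
  refine (polar_pol b3 0 _).trans ?_
  rw [mul_assoc, ← fin]
  refine mul_le_mul_right ?_ B
  rw [← lintegral_const_mul' _ _ (ENNReal.mul_ne_top hBt hC)]
  refine setLIntegral_mono' (hJ _) fun r3 h3 => ?_
  rw [← lintegral_const_mul' _ _ (ENNReal.mul_ne_top hBt hC)]
  refine (lintegral_mono_set Ioo_subset_Icc_self).trans (lintegral_mono fun θ => ?_)
  simp only [zero_add]
  refine (polar_pol b1 θ _).trans ?_
  rw [mul_assoc]
  refine mul_le_mul_right ?_ B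
  rw [← lintegral_const_mul' _ _ hC]
  exact setLIntegral_mono' (hJ _) fun r1 h1 => ang r1 h1 r3 h3 θ

end Pool.Agent.Lib.MP_a52643_an.H60
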