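import Pool.Agent.Lib.MP_a52643_an.H60Branch
import Pool.Agent.Lib.MP_a52643_an.H60Pol

open MeasureTheory Set Filter Topology Metric
open scoped ENNReal NNReal ContDiff Laplacian FourierTransform Real

noncomputable section

namespace Pool.Agent.Lib.MP_a52643_an.H60

theorem iter_main (J1 J2 J3 : Set ℝ) {G : R3 → ℝ≥0∞} (hG : Measurable G) :
    ∫⁻ r1 in J1, ∫⁻ r2 in J2, ∫⁻ r3 in J3, G (r1, r2, r3)
      = ∫⁻ r, G r ∂((volume.restrict J1).prod ((volume.restrict J2).prod (volume.restrict J3))) := by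
  rw [lintegral_prod _ hG.aemeasurable]
  refine lintegral_congr fun r1 => ?_
  rw [lintegral_prod (fun y => G (r1, y)) (hG.comp measurable_prodMk_left).aemeasurable]

theorem swap_main (J1 J2 J3 T : Set ℝ) (s : Set ℂ) {H : R3 × V → ℝ≥0∞} (hH : Measurable H) :
    (Measurable fun x : ℂ =>
      ∫⁻ r1 in J1, ∫⁻ r2 in J2, ∫⁻ r3 in J3, ∫⁻ θ in T, H ((r1, r2, r3), (x, θ))) ∧
    ∫⁻ x in s, ∫⁻ r1 in J1, ∫⁻ r2 in J2, ∫⁻ r3 in J3, ∫⁻ θ in T, H ((r1, r2, r3), (x, θ))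
      = ∫⁻ r1 in J1, ∫⁻ r2 in J2, ∫⁻ r3 in J3, ∫⁻ v in s ×ˢ T, H ((r1, r2, r3), v) := by
  have m0 : Measurable fun p : (ℂ × R3) × ℝ => H (p.1.2, (p.1.1, p.2)) := hH.comp (by fun_prop)
  have m1 : Measurable fun p : ℂ × R3 => ∫⁻ θ in T, H (p.2, (p.1, θ)) :=
    m0.lintegral_prod_right'
  have m2 : Measurable fun r : R3 => ∫⁻ v in s ×ˢ T, H (r, v) := hH.lintegral_prod_right'
  have e1 : ∀ x : ℂ, ∫⁻ r1 in J1, ∫⁻ r2 in J2, ∫⁻ r3 in J3, ∫⁻ θ in T, H ((r1, r2, r3), (x, θ))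
      = ∫⁻ r, (∫⁻ θ in T, H (r, (x, θ)))
        ∂((volume.restrict J1).prod ((volume.restrict J2).prod (volume.restrict J3))) :=
    fun x => iter_main J1 J2 J3 (G := fun r => ∫⁻ θ in T, H (r, (x, θ)))
      (m1.comp measurable_prodMk_left)
  simp only [e1]
  refine ⟨m1.lintegral_prod_right', ?_⟩
  rw [iter_main J1 J2 J3 m2, lintegral_lintegral_swap m1.aemeasurable]
  refine lintegral_congr fun r => ?_
  rw [Measure.volume_eq_prod, ← Measure.prod_restrict,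
    lintegral_prod (fun v => H (r, v)) (hH.comp measurable_prodMk_left).aemeasurable]

theorem meas_main {A B : R3 → ℝ} (hA : Measurable A) (hB : Measurable B)
    {g1 g2 g3 : ℂ × ℂ → ℝ≥0∞} (h1 : Measurable g1) (h2 : Measurable g2) (h3 : Measurable g3) :
    Measurable fun p : R3 × V => pol g3 (p.1.2.2, p.2) *
      (pol g1 (p.1.1, rot (A p.1) p.2) * pol g2 (p.1.2.1, rot (B p.1) p.2)) := by
  refine ((measurable_pol h3).comp (by fun_prop)).mul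
    (((measurable_pol h1).comp ?_).mul ((measurable_pol h2).comp ?_))
  · unfold rot; fun_prop
  · unfold rot; fun_prop

theorem add_sq_main (s t : ℝ≥0∞) : (s + t) ^ 2 ≤ 4 * (s ^ 2 + t ^ 2) := by
  rcases le_total s t with h | h
  · calc (s + t) ^ 2 ≤ (t + t) ^ 2 := by gcongr
      _ = 4 * t ^ 2 := by ring
      _ ≤ _ := by gcongr; exact le_add_self
  · calc (s + t) ^ 2 ≤ (s + s) ^ 2 := by gcongr
      _ = 4 * s ^ 2 := by ring
      _ ≤ _ := by gcongr; exact le_self_add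

/-- The resonant part of the trilinear form. -/
theorem main_est {u : ℂ → ℝ} (hu : ContDiff ℝ ∞ u) {x0 : ℂ} (hK : Δ u x0 ≠ 0)
    {K : Set R3} (hc : IsCompact K) (hT : ∀ a ∈ K, Tri a) {R : ℝ} (hR : 0 < R) :
    ∃ r0 : ℝ, 0 < r0 ∧ ∃ c : ℝ, 0 < c ∧ (∀ a ∈ K, c ≤ a.1 / 2 ∧ c ≤ a.2.1 / 2 ∧ c ≤ a.2.2 / 2) ∧
      ∃ C : ℝ≥0∞, C ≠ ⊤ ∧ ∀ τ ∈ Ioc (0 : ℝ) 1, ∀ a ∈ K, ∀ g1 q1 g2 q2 g3 q3 : ℂ × ℂ → ℝ≥0∞,
      Measurable g1 → Measurable q1 → Measurable g2 → Measurable q2 → Measurable g3 →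
      Measurable q3 → Trans u x0 R (JJ a.1 (c * τ)) (pol g1) (pol q1) →
      Trans u x0 R (JJ a.2.1 (c * τ)) (pol g2) (pol q2) →
      Trans u x0 R (JJ a.2.2 (c * τ)) (pol g3) (pol q3) →
      (∫⁻ x in ball x0 r0, T3 (Res a (c * τ)) (fun z => g1 (x, z)) (fun z => g2 (x, z))
          fun z => g3 (x, z)) ^ 2
        ≤ C * ENNReal.ofReal (τ ^ 5) *
          (MC (τ ^ 2) a.1 (c * τ) x0 R g1 q1 * MC (τ ^ 2) a.2.1 (c * τ) x0 R g2 q2 *
            MC (τ ^ 2) a.2.2 (c * τ) x0 R g3 q3) := by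
  obtain ⟨ε, hε, C0, hC0, H0⟩ := pol_res hc hT
  obtain ⟨r1, hr1, c1, hc1, C1, hC1, H1⟩ := branch hu hK hc hT (fun a ha => (hT a ha).ang) hR
  obtain ⟨r2, hr2, c2, hc2, C2, hC2, H2⟩ := branch hu hK hc hT (fun a ha => (hT a ha).ang') hR
  obtain ⟨c3, hc3, H3⟩ := hc.exists_forall_le'
    (f := fun a : R3 => min (a.1 / 2) (min (a.2.1 / 2) (a.2.2 / 2))) (by fun_prop) (a := 0)
    (fun a ha => by
      obtain ⟨p1, p2, p3⟩ := (hT a ha).pos
      positivity)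
  obtain ⟨c, hc0, l0, l1, l2, l3⟩ : ∃ c : ℝ, 0 < c ∧ c ≤ ε ∧ c ≤ c1 ∧ c ≤ c2 ∧ c ≤ c3 :=
    ⟨min (min ε c1) (min c2 c3), by positivity, (min_le_left _ _).trans (min_le_left _ _),
      (min_le_left _ _).trans (min_le_right _ _), (min_le_right _ _).trans (min_le_left _ _),
      (min_le_right _ _).trans (min_le_right _ _)⟩
  refine ⟨min r1 r2, by positivity, c, hc0, fun a ha => ?_, C0 ^ 2 * (4 * (C1 + C2)),
    by finiteness, ?_⟩
  · have := l3.trans (H3 a ha)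
    exact ⟨this.trans (min_le_left _ _), this.trans ((min_le_right _ _).trans (min_le_left _ _)),
      this.trans ((min_le_right _ _).trans (min_le_right _ _))⟩
  intro τ hτ a ha g1 q1 g2 q2 g3 q3 m1 n1 m2 n2 m3 n3 t1 t2 t3
  have hη : 0 < c * τ := mul_pos hc0 hτ.1
  have hη' : c * τ ≤ ε := (mul_le_of_le_one_right hc0.le hτ.2).trans l0
  have B1 := H1 τ hτ (c * τ) (mul_le_mul_of_nonneg_right l1 hτ.1.le) a ha g1 q1 g2 q2 g3 q3
    m1 n1 m2 n2 m3 n3 t1 t2 t3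
  have B2 := H2 τ hτ (c * τ) (mul_le_mul_of_nonneg_right l2 hτ.1.le) a ha g1 q1 g2 q2 g3 q3
    m1 n1 m2 n2 m3 n3 t1 t2 t3
  obtain ⟨s1, S1⟩ := swap_main (JJ a.1 (c * τ)) (JJ a.2.1 (c * τ)) (JJ a.2.2 (c * τ))
    (Icc (-π) π) (ball x0 r1) (meas_main measurable_al measurable_be.neg m1 m2 m3)
  obtain ⟨-, S2⟩ := swap_main (JJ a.1 (c * τ)) (JJ a.2.1 (c * τ)) (JJ a.2.2 (c * τ))
    (Icc (-π) π) (ball x0 r2) (meas_main measurable_al.neg measurable_be m1 m2 m3)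
  have E1 := (congrArg (· ^ 2) S1).trans_le B1
  have E2 := (congrArg (· ^ 2) S2).trans_le B2
  have key := setLIntegral_mono' (μ := volume) (s := ball x0 (min r1 r2)) measurableSet_ball
    fun x _ => H0 a ha (c * τ) hη hη' (fun z => g1 (x, z)) (fun z => g2 (x, z))
      (fun z => g3 (x, z)) (m1.comp measurable_prodMk_left) (m2.comp measurable_prodMk_left)
      (m3.comp measurable_prodMk_left)
  rw [lintegral_const_mul' _ _ hC0] at key
  have key2 := key.trans (mul_le_mul' le_rfl ((lintegral_add_left s1 _).le.trans (add_le_add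
    (lintegral_mono_set (ball_subset_ball (min_le_left r1 r2)))
    (lintegral_mono_set (ball_subset_ball (min_le_right r1 r2))))))
  refine (pow_le_pow_left' key2 2).trans ?_
  rw [mul_pow]
  refine (mul_le_mul' le_rfl ((add_sq_main _ _).trans
    (mul_le_mul' le_rfl (add_le_add E1 E2)))).trans_eq ?_
  ring

end Pool.Agent.Lib.MP_a52643_an.H60
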