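import Pool.Agent.Lib.MP_a52643_an.H60Tr

open MeasureTheory Set Filter Topology Metric
open scoped ENNReal NNReal ContDiff Laplacian FourierTransform Real

noncomputable section

namespace Pool.Agent.Lib.MP_a52643_an.H60

/-- Integrating factor. -/
theorem enorm_le_of_deriv {F Q : ℝ → ℂ} {c : ℝ → ℝ} {e : ℝ}
    (hF : ∀ t ∈ Ioo (-e) e, HasDerivAt F (Complex.I * c t * F t + Q t) t)
    (hc : ContinuousOn c (Ioo (-e) e)) (hQ : ContinuousOn Q (Ioo (-e) e))
    {s s' : ℝ} (hs : s ∈ Ioo (-e) e) (hs' : s' ∈ Ioo (-e) e) :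
    ‖F s‖ₑ ≤ ‖F s'‖ₑ + ∫⁻ t in Ioo (-e) e, ‖Q t‖ₑ := by
  have hsub : ∀ t ∈ Ioo (-e) e, uIcc s' t ⊆ Ioo (-e) e := fun t ht =>
    ordConnected_Ioo.uIcc_subset hs' ht
  have hA : ∀ t ∈ Ioo (-e) e, HasDerivAt (fun y => ∫ x in s'..y, c x) (c t) t := fun t ht =>
    intervalIntegral.integral_hasDerivAt_right ((hc.mono (hsub t ht)).intervalIntegrable)
      (hc.stronglyMeasurableAtFilter isOpen_Ioo t ht) (hc.continuousAt (isOpen_Ioo.mem_nhds ht))
  set A : ℝ → ℝ := fun y => ∫ x in s'..y, c x with hAdef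
  have hE : ∀ t ∈ Ioo (-e) e, HasDerivAt (fun y => Complex.exp ((-A y : ℝ) * Complex.I))
      (Complex.exp ((-A t : ℝ) * Complex.I) * ((-c t : ℝ) * Complex.I)) t := fun t ht =>
    ((hA t ht).neg.ofReal_comp.mul_const Complex.I).cexp
  have hG : ∀ t ∈ Ioo (-e) e, HasDerivAt (fun y => F y * Complex.exp ((-A y : ℝ) * Complex.I))
      (Q t * Complex.exp ((-A t : ℝ) * Complex.I)) t := fun t ht =>
    ((hF t ht).fun_mul (hE t ht)).congr_deriv (by push_cast; ring)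
  have cE : ContinuousOn (fun y => Complex.exp ((-A y : ℝ) * Complex.I)) (Ioo (-e) e) :=
    fun t ht => (hE t ht).continuousAt.continuousWithinAt
  have ftc := intervalIntegral.integral_eq_sub_of_hasDerivAt (fun t ht => hG t (hsub s hs ht))
    (((hQ.mul cE).mono (hsub s hs)).intervalIntegrable)
  have nE : ∀ (z : ℂ) (y : ℝ), ‖z * Complex.exp ((y : ℝ) * Complex.I)‖ₑ = ‖z‖ₑ := fun z y => by
    rw [← ofReal_norm, ← ofReal_norm, norm_mul, Complex.norm_exp_ofReal_mul_I,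
      mul_one]
  rw [← nE (F s) (-A s), ← nE (F s') (-A s'), eq_add_of_sub_eq' ftc.symm]
  refine (enorm_add_le _ _).trans (add_le_add le_rfl ?_)
  rw [← ofReal_norm, intervalIntegral.norm_integral_eq_norm_integral_uIoc,
    ofReal_norm]
  refine (enorm_integral_le_lintegral_enorm _).trans ?_
  simp only [nE]
  exact lintegral_mono_set (uIoc_subset_uIcc.trans (hsub s hs))

theorem norm_ex_trans (t : ℝ) : ‖ex t‖ = 1 := Complex.norm_exp_ofReal_mul_I t

theorem gr_trans (u : ℂ → ℝ) (x : ℂ) {z : ℂ} (hz : ‖z‖ = 1) :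
    gr u x = (fderiv ℝ u x z : ℝ) * z + (fderiv ℝ u x (Complex.I * z) : ℝ) * (Complex.I * z) := by
  have e : ∀ y : ℂ, fderiv ℝ u x y = y.re * fderiv ℝ u x 1 + y.im * fderiv ℝ u x Complex.I := by
    intro y
    have : y = y.re • (1 : ℂ) + y.im • Complex.I := by simp
    conv_lhs => rw [this]
    rw [map_add, map_smul, map_smul, smul_eq_mul, smul_eq_mul]
  have n : z.re * z.re + z.im * z.im = 1 := by
    rw [← Complex.normSq_apply, Complex.normSq_eq_norm_sq, hz, one_pow]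
  rw [e z, e (Complex.I * z), gr]
  generalize fderiv ℝ u x 1 = p
  generalize fderiv ℝ u x Complex.I = q
  apply Complex.ext
  · simp
    linear_combination (-p) * n
  · simp
    linear_combination (-q) * n

theorem fst_trans {γ : ℝ → V} {v : V} {t : ℝ} (h : HasDerivAt γ v t) :
    HasDerivAt (fun y => (γ y).1) v.1 t ∧ HasDerivAt (fun y => (γ y).2) v.2 t :=
  ⟨(ContinuousLinearMap.fst ℝ ℂ ℝ).hasFDerivAt.comp_hasDerivAt t h,
    (ContinuousLinearMap.snd ℝ ℂ ℝ).hasFDerivAt.comp_hasDerivAt t h⟩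

theorem trans_FT {k : ℕ} {M δ a η : ℝ} {w : ℂ → ℂ} {u φ : ℂ → ℝ} (hδ : 0 < δ)
    (hu : ContDiff ℝ ∞ u) (hφ : ContDiff ℝ ∞ φ) (hw : Adm k M w) (hη : η ≤ a) (x0 : ℂ) (R : ℝ) :
    Trans u x0 R (JJ a η) (pol (gF δ u φ w)) (pol (qF δ u a φ w)) := by
  intro r hr γ e he hγ s hs s' hs'
  have hr0 : 0 < r := by linarith [hr.1]
  set ξ : ℝ → ℂ := fun t => Real.exp (u (γ t).1) • ((r : ℂ) * ex (γ t).2) with hξ
  have nξ : ∀ t, ‖ξ t‖ = Real.exp (u (γ t).1) * r := fun t => by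
    rw [hξ]
    dsimp only
    rw [norm_smul, norm_mul, norm_ex_trans, mul_one, Real.norm_of_nonneg (Real.exp_pos _).le,
      Complex.norm_of_nonneg hr0.le]
  have pξ : ∀ t, 0 < ‖ξ t‖ := fun t => by rw [nξ]; positivity
  have hx : ∀ t ∈ Ioo (-e) e, HasDerivAt (fun y => (γ y).1) (‖ξ t‖⁻¹ • ξ t) t := fun t ht => by
    refine (fst_trans (hγ t ht).1).1.congr_deriv ?_
    rw [nξ, hξ]
    have h1 : ((Real.exp (u (γ t).1) : ℝ) : ℂ) ≠ 0 := by exact_mod_cast (Real.exp_pos _).ne'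
    have h2 : (r : ℂ) ≠ 0 := by exact_mod_cast hr0.ne'
    simp only [Yf, Complex.real_smul, Complex.ofReal_inv, Complex.ofReal_mul]
    field_simp
  have hd : ∀ t ∈ Ioo (-e) e, HasDerivAt ξ (‖ξ t‖ • gr u (γ t).1) t := fun t ht => by
    have d1 : HasDerivAt (fun y => (γ y).1) (ex (γ t).2) t := (fst_trans (hγ t ht).1).1
    have d2 : HasDerivAt (fun y => (γ y).2) (fderiv ℝ u (γ t).1 (Complex.I * ex (γ t).2)) t :=
      (fst_trans (hγ t ht).1).2
    have d3 : HasDerivAt (fun y => u (γ y).1) (fderiv ℝ u (γ t).1 (ex (γ t).2)) t :=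
      (hu.differentiable (by simp) (γ t).1).hasFDerivAt.comp_hasDerivAt t d1
    have d4 : HasDerivAt (fun y => ex (γ y).2)
        (ex (γ t).2 * ((fderiv ℝ u (γ t).1 (Complex.I * ex (γ t).2) : ℝ) * Complex.I)) t :=
      (d2.ofReal_comp.mul_const Complex.I).cexp
    refine (d3.exp.smul (d4.const_mul (r : ℂ))).congr_deriv ?_
    rw [nξ, gr_trans u _ (norm_ex_trans (γ t).2)]
    simp only [Complex.real_smul, Complex.ofReal_mul]
    ring
  have cx : ContinuousOn (fun y => (γ y).1) (Ioo (-e) e) :=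
    fun t ht => (hx t ht).continuousAt.continuousWithinAt
  have cξ : ContinuousOn ξ (Ioo (-e) e) := fun t ht => (hd t ht).continuousAt.continuousWithinAt
  have cc : ContinuousOn (fun t => cF δ (rho u a (γ t).1) (ξ t)) (Ioo (-e) e) := by
    have cρ : ContinuousOn (fun t => rho u a (γ t).1) (Ioo (-e) e) :=
      (contDiff_rho hu a).continuous.comp_continuousOn cx
    unfold cF
    refine ((continuousOn_const.mul cξ.norm).div_const _).sub
      ((continuousOn_const.mul ((cξ.norm.pow 2).sub cρ)).div (continuousOn_const.mul cξ.norm)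
        fun t _ => ?_)
    have := pξ t
    positivity
  have cQ : ContinuousOn (fun t => QF δ u a φ w (γ t).1 (ξ t)) (Ioo (-e) e) := by
    have c1 : ContinuousOn (fun t => ‖ξ t‖⁻¹ • ξ t) (Ioo (-e) e) :=
      (cξ.norm.inv₀ fun t _ => (pξ t).ne').smul cξ
    have c2 : ContinuousOn (fun t => ‖ξ t‖ • gr u (γ t).1) (Ioo (-e) e) :=
      cξ.norm.smul ((continuous_gr hu).comp_continuousOn cx)
    have c3 : ContinuousOn (fun t => DF δ φ w (γ t).1 (ξ t) (‖ξ t‖⁻¹ • ξ t) (‖ξ t‖ • gr u (γ t).1))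
        (Ioo (-e) e) :=
      (continuous_DF hφ hw).comp_continuousOn
        (f := fun t => ((((γ t).1, ξ t), (‖ξ t‖⁻¹ • ξ t, ‖ξ t‖ • gr u (γ t).1)) : (ℂ × ℂ) × ℂ × ℂ))
        ((cx.prodMk cξ).prodMk (c1.prodMk c2))
    have c4 : ContinuousOn (fun t => FT δ (sc δ φ (γ t).1) w (ξ t)) (Ioo (-e) e) :=
      (continuous_FT_sc hφ hw).comp_continuousOn (f := fun t => (((γ t).1, ξ t) : ℂ × ℂ))
        (cx.prodMk cξ)
    have c5 : ContinuousOn (fun t => ((cF δ (rho u a (γ t).1) (ξ t) : ℝ) : ℂ)) (Ioo (-e) e) :=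
      Complex.continuous_ofReal.comp_continuousOn cc
    exact c3.sub ((continuousOn_const.mul c5).mul c4)
  refine enorm_le_of_deriv (F := fun t => FT δ (sc δ φ (γ t).1) w (ξ t)) (fun t ht => ?_)
    cc cQ hs hs'
  refine (hasDerivAt_FT hδ hφ hw (hx t ht) (hd t ht)).congr_deriv ?_
  rw [QF]
  ring

end Pool.Agent.Lib.MP_a52643_an.H60
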