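import Pool.Agent.Lib.MP_a52643_an.H60Tail
import Pool.Agent.Lib.MP_a52643_an.H60Trans
import Pool.Agent.Lib.MP_a52643_an.H60Main

open MeasureTheory Set Filter Topology Metric
open scoped ENNReal NNReal ContDiff Laplacian FourierTransform Real

noncomputable section

namespace Pool.Agent.Lib.MP_a52643_an.H60

theorem measurable_T3_loc1 {s : Set (ℂ × ℂ)} (hs : MeasurableSet s) {g1 g2 g3 : ℂ × ℂ → ℝ≥0∞}
    (h1 : Measurable g1) (h2 : Measurable g2) (h3 : Measurable g3) :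
    Measurable fun x => T3 s (fun z => g1 (x, z)) (fun z => g2 (x, z)) fun z => g3 (x, z) := by
  have hi : Measurable (s.indicator (1 : ℂ × ℂ → ℝ≥0∞)) := measurable_one.indicator hs
  have hF : Measurable fun p : (ℂ × ℂ) × ℂ => s.indicator 1 (p.2, p.1.2) *
      (g1 (p.1.1, p.2) * g2 (p.1.1, -p.2 - p.1.2) * g3 (p.1.1, p.1.2)) :=
    (hi.comp (by fun_prop)).mul
      (((h1.comp (by fun_prop)).mul (h2.comp (by fun_prop))).mul (h3.comp (by fun_prop)))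
  exact (hF.lintegral_prod_right' (ν := volume)).lintegral_prod_right' (ν := volume)

theorem add_sq_loc1 {x y p p' : ℝ≥0∞} (hx : x ^ 2 ≤ p) (hy : y ^ 2 ≤ p') :
    (x + y) ^ 2 ≤ 4 * (p + p') := by
  rcases le_total x y with h | h
  · calc (x + y) ^ 2 ≤ (y + y) ^ 2 := by gcongr
      _ = 4 * y ^ 2 := by ring
      _ ≤ 4 * (p + p') := by gcongr; exact hy.trans le_add_self
  · calc (x + y) ^ 2 ≤ (x + x) ^ 2 := by gcongr
      _ = 4 * x ^ 2 := by ring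
      _ ≤ 4 * (p + p') := by gcongr; exact hx.trans le_self_add

/-- The windowed form at one point is bounded by the resonant part and the tails. -/
theorem point_loc1 {u : ℂ → ℝ} (hu : ContDiff ℝ ∞ u) {q : ℂ → ℝ} {B M δ : ℝ}
    (hw : Adm 8 B (cx q)) (hδ : 0 < δ) (a : R3) (η : ℝ) {φ1 φ2 φ3 : ℂ → ℝ}
    (h1 : ContDiff ℝ ∞ φ1) (h2 : ContDiff ℝ ∞ φ2) (h3 : ContDiff ℝ ∞ φ3) {x : ℂ}
    (hM : Real.exp (u x) ≤ M) :
    ‖∫ Y, q Y ^ 3 * (φ1 (x + δ • Y) * φ2 (x + δ • Y) * φ3 (x + δ • Y))‖ₑ ≤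
      ENNReal.ofReal δ⁻¹ * ENNReal.ofReal (M ^ 4) *
        (T3 (Res a η) (fun z => gF δ u φ1 (cx q) (x, z)) (fun z => gF δ u φ2 (cx q) (x, z))
            (fun z => gF δ u φ3 (cx q) (x, z)) +
          TL a η (fun z => gF δ u φ1 (cx q) (x, z)) (fun z => gF δ u φ2 (cx q) (x, z))
            (fun z => gF δ u φ3 (cx q) (x, z))) := by
  have e1 : ((∫ Y, q Y ^ 3 * (φ1 (x + δ • Y) * φ2 (x + δ • Y) * φ3 (x + δ • Y)) : ℝ) : ℂ)
      = ∫ Y : ℂ, (sc δ φ1 x Y : ℂ) * cx q Y * ((sc δ φ2 x Y : ℂ) * cx q Y) *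
        ((sc δ φ3 x Y : ℂ) * cx q Y) := by
    rw [← integral_complex_ofReal]
    congr 1
    ext Y
    simp only [sc, cx]
    push_cast
    ring
  have e2 : ‖∫ Y, q Y ^ 3 * (φ1 (x + δ • Y) * φ2 (x + δ • Y) * φ3 (x + δ • Y))‖ₑ
      = ‖∫ Y : ℂ, (sc δ φ1 x Y : ℂ) * cx q Y * ((sc δ φ2 x Y : ℂ) * cx q Y) *
        ((sc δ φ3 x Y : ℂ) * cx q Y)‖ₑ := by
    rw [← e1, ← ofReal_norm, ← ofReal_norm, Complex.norm_real]
  have m : ∀ {φ : ℂ → ℝ}, ContDiff ℝ ∞ φ →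
      Measurable fun ξ => ‖FT δ (sc δ φ x) (cx q) ξ‖ₑ := fun h =>
    (continuous_FT (contDiff_sc h δ x).continuous hw.sm.continuous hw.hcs).measurable.enorm
  have m' : ∀ {φ : ℂ → ℝ}, ContDiff ℝ ∞ φ →
      Measurable fun z => gF δ u φ (cx q) (x, z) := fun h =>
    (measurable_gF hu h hw).comp measurable_prodMk_left
  rw [e2]
  refine (tri_le hδ (contDiff_sc h1 δ x) (contDiff_sc h2 δ x) (contDiff_sc h3 δ x) hw).trans ?_
  rw [T3_scale (Real.exp_pos (u x)) (m h1) (m h2) (m h3), mul_assoc]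
  gcongr
  exact T3_split a η (m' h1) (m' h2) (m' h3)

theorem MC_le_loc1 {u : ℂ → ℝ} (hu : ContDiff ℝ ∞ u) {w : ℂ → ℂ} {δ a η R : ℝ} {x0 : ℂ}
    {φ : ℂ → ℝ} {C : ℝ≥0∞} (hδ : 0 < δ) (hR : δ ≤ R) (h : HelG u a δ x0 (2 * R) φ)
    (hC : ∀ x, Hel δ (rho u a x) (n1 δ (rho u a) x) (sc δ φ x) →
      ∫⁻ z in Ann a η, wt δ a ‖z‖ ^ 2 * (gF δ u φ w (x, z) ^ 2 + qF δ u a φ w (x, z) ^ 2)
        ≤ C * m2 (sc δ φ x)) :
    MC δ a η x0 R (gF δ u φ w) (qF δ u a φ w) ≤ C * (4 * NN (ball x0 (2 * R)) φ) := by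
  calc MC δ a η x0 R (gF δ u φ w) (qF δ u a φ w)
      ≤ ∫⁻ x in ball x0 R, C * m2 (sc δ φ x) :=
        setLIntegral_mono' measurableSet_ball fun x hx => hC x (h.hel hu hδ hR hx)
    _ = C * ∫⁻ x in ball x0 R, m2 (sc δ φ x) :=
        lintegral_const_mul _ (measurable_m2 h.sm.continuous δ)
    _ ≤ C * (4 * NN (ball x0 (2 * R)) φ) := by
        gcongr
        exact lintegral_m2 h.sm.continuous x0 hδ hR

/-- The windowed trilinear form. -/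
theorem win_est {u : ℂ → ℝ} (hu : ContDiff ℝ ∞ u) (hc : HasCompactSupport u) {x0 : ℂ}
    (hK : Δ u x0 ≠ 0) {K : Set R3} (hKc : IsCompact K) (hT : ∀ a ∈ K, Tri a) {R : ℝ}
    (hR : 0 < R) {q : ℂ → ℝ} (hq : Win q) :
    ∃ r0 : ℝ, 0 < r0 ∧ ∃ C : ℝ≥0∞, C ≠ ⊤ ∧ ∀ τ ∈ Ioc (0 : ℝ) 1, τ ^ 2 ≤ R → ∀ a ∈ K,
      ∀ φ1 φ2 φ3 : ℂ → ℝ, HelG u a.1 (τ ^ 2) x0 (2 * R) φ1 →
      HelG u a.2.1 (τ ^ 2) x0 (2 * R) φ2 → HelG u a.2.2 (τ ^ 2) x0 (2 * R) φ3 →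
      (∫⁻ x in ball x0 r0,
        ‖∫ Y, q Y ^ 3 * (φ1 (x + τ ^ 2 • Y) * φ2 (x + τ ^ 2 • Y) * φ3 (x + τ ^ 2 • Y))‖ₑ) ^ 2
        ≤ C * ENNReal.ofReal τ *
          (NN (ball x0 (2 * R)) φ1 * NN (ball x0 (2 * R)) φ2 * NN (ball x0 (2 * R)) φ3) := by
  obtain ⟨r1, hr1, c, hc0, hca, Cm, hCm, hmain⟩ := main_est hu hK hKc hT hR
  obtain ⟨A', hA'⟩ := hKc.isBounded.exists_norm_le
  obtain ⟨M, hM⟩ := exists_coef hu hc 8 (A := 2 * c) (A' := A') (by linarith)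
  obtain ⟨B, hw⟩ := hq.adm 8
  obtain ⟨Ca, hCa, hann⟩ := ann_le M B
  obtain ⟨Cp, hCp, hpt⟩ := pt_le M B
  refine ⟨min r1 R, lt_min hr1 hR, ENNReal.ofReal (M ^ 4) ^ 2 *
    (4 * (Cm * (4 * Ca) ^ 3 + 9 * Cp ^ 3 * ENNReal.ofReal (c⁻¹ ^ 8) * 16)), by finiteness, ?_⟩
  intro τ hτ hτR a ha φ1 φ2 φ3 h1 h2 h3
  have hτ0 := hτ.1
  have hδ : τ ^ 2 ∈ Ioc (0 : ℝ) 1 := ⟨by positivity, pow_le_one₀ hτ0.le hτ.2⟩
  have hη : 0 < c * τ := mul_pos hc0 hτ0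
  have hηc : c * τ ≤ c := mul_le_of_le_one_right hc0.le hτ.2
  obtain ⟨ha1, ha2, ha3⟩ := hca a ha
  have hn := hA' a ha
  have hn1 : a.1 ≤ A' := (le_abs_self _).trans ((norm_fst_le a).trans hn)
  have hn2 : a.2.1 ≤ A' :=
    (le_abs_self _).trans ((norm_fst_le a.2).trans ((norm_snd_le a).trans hn))
  have hn3 : a.2.2 ≤ A' :=
    (le_abs_self _).trans ((norm_snd_le a.2).trans ((norm_snd_le a).trans hn))
  have c1 : Coef 8 M u a.1 := hM _ ⟨by linarith, hn1⟩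
  have c2 : Coef 8 M u a.2.1 := hM _ ⟨by linarith, hn2⟩
  have c3 : Coef 8 M u a.2.2 := hM _ ⟨by linarith, hn3⟩
  have mg1 := measurable_gF (δ := τ ^ 2) hu h1.sm hw
  have mg2 := measurable_gF (δ := τ ^ 2) hu h2.sm hw
  have mg3 := measurable_gF (δ := τ ^ 2) hu h3.sm hw
  generalize hN1 : NN (ball x0 (2 * R)) φ1 = N1
  generalize hN2 : NN (ball x0 (2 * R)) φ2 = N2
  generalize hN3 : NN (ball x0 (2 * R)) φ3 = N3
  -- the resonant part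
  have hres : (∫⁻ x in ball x0 (min r1 R), T3 (Res a (c * τ))
      (fun z => gF (τ ^ 2) u φ1 (cx q) (x, z)) (fun z => gF (τ ^ 2) u φ2 (cx q) (x, z))
      (fun z => gF (τ ^ 2) u φ3 (cx q) (x, z))) ^ 2
      ≤ Cm * (4 * Ca) ^ 3 * (ENNReal.ofReal (τ ^ 5) * (N1 * N2 * N3)) := by
    have a0 := hmain τ hτ a ha _ _ _ _ _ _ mg1 (measurable_qF (a := a.1) hu h1.sm hw) mg2
      (measurable_qF (a := a.2.1) hu h2.sm hw) mg3 (measurable_qF (a := a.2.2) hu h3.sm hw)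
      (trans_FT hδ.1 hu h1.sm hw (by linarith) x0 R)
      (trans_FT hδ.1 hu h2.sm hw (by linarith) x0 R)
      (trans_FT hδ.1 hu h3.sm hw (by linarith) x0 R)
    have b1 := MC_le_loc1 (η := c * τ) hu hδ.1 hτR h1 fun x hx =>
      hann _ hδ _ _ _ _ _ x hu h1.sm c1 hw hx (by linarith)
    have b2 := MC_le_loc1 (η := c * τ) hu hδ.1 hτR h2 fun x hx =>
      hann _ hδ _ _ _ _ _ x hu h2.sm c2 hw hx (by linarith)
    have b3 := MC_le_loc1 (η := c * τ) hu hδ.1 hτR h3 fun x hx =>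
      hann _ hδ _ _ _ _ _ x hu h3.sm c3 hw hx (by linarith)
    rw [hN1] at b1
    rw [hN2] at b2
    rw [hN3] at b3
    refine le_trans (pow_le_pow_left' (lintegral_mono_set
      (ball_subset_ball (min_le_left _ _))) 2) (a0.trans ?_)
    calc _ ≤ Cm * ENNReal.ofReal (τ ^ 5) *
          (Ca * (4 * N1) * (Ca * (4 * N2)) * (Ca * (4 * N3))) := by gcongr
      _ = _ := by ring
  -- the tails
  have htail : (∫⁻ x in ball x0 (min r1 R), TL a (c * τ)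
      (fun z => gF (τ ^ 2) u φ1 (cx q) (x, z)) (fun z => gF (τ ^ 2) u φ2 (cx q) (x, z))
      (fun z => gF (τ ^ 2) u φ3 (cx q) (x, z))) ^ 2
      ≤ 9 * Cp ^ 3 * ENNReal.ofReal (c⁻¹ ^ 8) * 16 *
        (ENNReal.ofReal (τ ^ 5) * (N1 * N2 * N3)) := by
    have e : ENNReal.ofReal (τ ^ 2) * ENNReal.ofReal ((τ ^ 2 / (c * τ)) ^ 8) *
        ENNReal.ofReal ((τ ^ 2)⁻¹ ^ 2) ≤ ENNReal.ofReal (c⁻¹ ^ 8) * ENNReal.ofReal (τ ^ 5) := by
      rw [← ENNReal.ofReal_mul (by positivity), ← ENNReal.ofReal_mul (by positivity),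
        ← ENNReal.ofReal_mul (by positivity)]
      apply ENNReal.ofReal_le_ofReal
      calc τ ^ 2 * (τ ^ 2 / (c * τ)) ^ 8 * (τ ^ 2)⁻¹ ^ 2 = c⁻¹ ^ 8 * τ ^ 5 * τ := by
            field_simp
        _ ≤ c⁻¹ ^ 8 * τ ^ 5 := mul_le_of_le_one_right (by positivity) hτ.2
    have a0 := lintegral_sq_le (s := ball x0 R) measurableSet_ball
      (T := fun x => TL a (c * τ)
        (fun z => gF (τ ^ 2) u φ1 (cx q) (x, z)) (fun z => gF (τ ^ 2) u φ2 (cx q) (x, z))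
        (fun z => gF (τ ^ 2) u φ3 (cx q) (x, z)))
      (measurable_m2 h1.sm.continuous (τ ^ 2)) (measurable_m2 h2.sm.continuous (τ ^ 2))
      (A := 9 * Cp ^ 3 * (ENNReal.ofReal (c⁻¹ ^ 8) * ENNReal.ofReal (τ ^ 5)) * N3)
      (fun x hx => by
        obtain ⟨p1, d1, e1, -⟩ := hpt _ hδ _ _ _ _ _ x hu h1.sm c1 hw (h1.hel hu hδ.1 hτR hx) hη
        obtain ⟨p2, -, e2, -⟩ := hpt _ hδ _ _ _ _ _ x hu h2.sm c2 hw (h2.hel hu hδ.1 hτR hx) hη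
        obtain ⟨-, d3, e3, -⟩ := hpt _ hδ _ _ _ _ _ x hu h3.sm c3 hw (h3.hel hu hδ.1 hτR hx) hη
        have b := m2_le h3.sm.continuous hδ.1 hτR hx
        rw [hN3] at b
        refine (TL_le (mg1.comp measurable_prodMk_left) (mg2.comp measurable_prodMk_left)
          (mg3.comp measurable_prodMk_left) p1 p2 d1 d3 e1 e2 e3).trans ?_
        calc _ ≤ 9 * (Cp * (Cp * ENNReal.ofReal (τ ^ 2)) *
              (Cp * ENNReal.ofReal ((τ ^ 2 / (c * τ)) ^ 8))) *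
              (m2 (sc (τ ^ 2) φ1 x) * m2 (sc (τ ^ 2) φ2 x) *
                (ENNReal.ofReal ((τ ^ 2)⁻¹ ^ 2) * N3)) := by gcongr
          _ = 9 * Cp ^ 3 * (ENNReal.ofReal (τ ^ 2) * ENNReal.ofReal ((τ ^ 2 / (c * τ)) ^ 8) *
              ENNReal.ofReal ((τ ^ 2)⁻¹ ^ 2)) * N3 *
              (m2 (sc (τ ^ 2) φ1 x) * m2 (sc (τ ^ 2) φ2 x)) := by ring
          _ ≤ _ := by gcongr)
    have b1 := lintegral_m2 h1.sm.continuous x0 hδ.1 hτR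
    have b2 := lintegral_m2 h2.sm.continuous x0 hδ.1 hτR
    rw [hN1] at b1
    rw [hN2] at b2
    refine le_trans (pow_le_pow_left' (lintegral_mono_set
      (ball_subset_ball (min_le_right _ _))) 2) (a0.trans ?_)
    calc _ ≤ 9 * Cp ^ 3 * (ENNReal.ofReal (c⁻¹ ^ 8) * ENNReal.ofReal (τ ^ 5)) * N3 *
          (4 * N1 * (4 * N2)) := by gcongr
      _ = _ := by ring
  have hsum := add_sq_loc1 hres htail
  rw [← lintegral_add_left (measurable_T3_loc1 (measurableSet_Res a (c * τ)) mg1 mg2 mg3)]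
    at hsum
  have e : ENNReal.ofReal (τ ^ 2)⁻¹ ^ 2 * ENNReal.ofReal (τ ^ 5) = ENNReal.ofReal τ := by
    rw [← ENNReal.ofReal_pow (by positivity), ← ENNReal.ofReal_mul (by positivity)]
    congr 1
    field_simp
  refine le_trans (pow_le_pow_left' (lintegral_mono fun x =>
    point_loc1 hu hw hδ.1 a (c * τ) h1.sm h2.sm h3.sm (c1.hi x)) 2) ?_
  rw [lintegral_const_mul' _ _ (by finiteness), mul_pow]
  refine le_trans (mul_le_mul_right hsum _) (le_of_eq ?_)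
  rw [← e]
  ring

end Pool.Agent.Lib.MP_a52643_an.H60
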