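import Pool.Agent.Lib.MP_a52643_an.H60Box

open MeasureTheory Set Filter Topology Metric
open scoped ENNReal NNReal ContDiff Laplacian FourierTransform Real

noncomputable section

namespace Pool.Agent.Lib.MP_a52643_an.H60

theorem ball_eq_maj (e : ℝ) :
    ball (0 : P3) e = ball (0 : R2) e ×ˢ Ioo (-e) e := by
  have h1 : Ioo (-e) e = ball (0 : ℝ) e := by
    rw [Real.ball_eq_Ioo]; simp
  rw [h1, ball_prod_same]
  rfl

theorem ball_int_maj (e : ℝ) {H : P3 → ℝ≥0∞} (hH : Measurable H) :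
    ∫⁻ p in ball (0 : P3) e, H p
      = ∫⁻ l in ball (0 : R2) e, ∫⁻ s in Ioo (-e) e, H (l, s) := by
  rw [ball_eq_maj, Measure.volume_eq_prod, ← Measure.prod_restrict,
    lintegral_prod _ hH.aemeasurable]

theorem rank_maj : Module.finrank ℝ V = Module.finrank ℝ P3 := by
  simp [Module.finrank_prod]

theorem haarV_maj : (volume : Measure V).IsAddHaarMeasure :=
  Measure.prod.instIsAddHaarMeasure volume volume

theorem haarP_maj : (volume : Measure P3).IsAddHaarMeasure :=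
  Measure.prod.instIsAddHaarMeasure volume volume

theorem cs_maj {α : Type*} [MeasurableSpace α] (μ : Measure α) {f : α → ℝ≥0∞}
    (hf : Measurable f) : (∫⁻ x, f x ∂μ) ^ 2 ≤ μ univ * ∫⁻ x, f x ^ 2 ∂μ := by
  have h := ENNReal.lintegral_mul_le_Lp_mul_Lq μ Real.HolderConjugate.two_two
    (f := f) (g := fun _ => 1) hf.aemeasurable aemeasurable_const
  simp only [Pi.mul_apply, mul_one, ENNReal.one_rpow, lintegral_const, one_mul] at h
  have h2 : (∫⁻ x, f x ∂μ) ^ 2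
      ≤ ((∫⁻ x, f x ^ (2 : ℝ) ∂μ) ^ (1 / 2 : ℝ) * μ univ ^ (1 / 2 : ℝ)) ^ 2 :=
    pow_le_pow_left' h 2
  refine h2.trans (le_of_eq ?_)
  have h3 : ∀ z : ℝ≥0∞, (z ^ (1 / 2 : ℝ)) ^ 2 = z := by
    intro z
    rw [← ENNReal.rpow_natCast, ← ENNReal.rpow_mul]
    norm_num
  rw [mul_pow, h3, h3, mul_comm]
  congr 1
  refine lintegral_congr fun x => ?_
  rw [← ENNReal.rpow_natCast]
  norm_num

theorem sq_maj (A g q : ℝ≥0∞) :
    (A * g + q) ^ 2 ≤ (A + 1) ^ 2 * 4 * (g ^ 2 + q ^ 2) := by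
  have h1 : A * g + q ≤ (A + 1) * (g + q) := by
    calc A * g + q ≤ (A * g + q) + (A * q + g) := le_self_add
      _ = (A + 1) * (g + q) := by ring
  have h2 : (g + q) ^ 2 ≤ 4 * (g ^ 2 + q ^ 2) := by
    rcases le_total g q with h | h
    · calc (g + q) ^ 2 ≤ (q + q) ^ 2 := by gcongr
        _ = 4 * q ^ 2 := by ring
        _ ≤ 4 * (g ^ 2 + q ^ 2) := by gcongr; exact le_add_self
    · calc (g + q) ^ 2 ≤ (g + g) ^ 2 := by gcongr
        _ = 4 * g ^ 2 := by ring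
        _ ≤ 4 * (g ^ 2 + q ^ 2) := by gcongr; exact le_self_add
  calc (A * g + q) ^ 2 ≤ ((A + 1) * (g + q)) ^ 2 := by gcongr
    _ = (A + 1) ^ 2 * (g + q) ^ 2 := by ring
    _ ≤ (A + 1) ^ 2 * (4 * (g ^ 2 + q ^ 2)) := by gcongr
    _ = (A + 1) ^ 2 * 4 * (g ^ 2 + q ^ 2) := by ring

theorem nbhd_maj {E F : Type} [PseudoMetricSpace E] [TopologicalSpace F] {f : E → F} {x : E}
    (hf : Continuous f) {s : Set F} (hs : s ∈ 𝓝 (f x)) {L : ℝ} (hL : 0 < L) :
    ∃ e : ℝ, 0 < e ∧ e ≤ L ∧ ∀ p ∈ ball x e, f p ∈ s := by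
  obtain ⟨e, he, h⟩ := Metric.mem_nhds_iff.1 (hf.continuousAt.preimage_mem_nhds hs)
  refine ⟨min e L, lt_min he hL, min_le_right _ _, fun p hp => h ?_⟩
  exact ball_subset_ball (min_le_left _ _) hp

/-- A majorant that only depends on the ray. -/
theorem maj {u : ℂ → ℝ} {x0 : ℂ} {θ0 L : ℝ} {X : P3 → V} {c : V → P3}
    (b : Box u (x0, θ0) L X c) {R : ℝ} (hR : 0 < R) :
    ∃ ε : ℝ, 0 < ε ∧ ∃ C : ℝ≥0∞, C ≠ ⊤ ∧ ∀ (J : Set ℝ) (G Q : ℝ × V → ℝ≥0∞),
      Measurable G → Measurable Q → Trans u x0 R J G Q →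
      ∃ a : ℝ × R2 → ℝ≥0∞, Measurable a ∧
        (∀ r ∈ J, ∀ v ∈ ball ((x0, θ0) : V) ε, G (r, v) ≤ a (r, (c v).1)) ∧
        ∀ r, ∫⁻ y, a (r, y) ^ 2 ≤
          C * ∫⁻ v in ball x0 R ×ˢ Ioo (θ0 - 1) (θ0 + 1), (G (r, v) ^ 2 + Q (r, v) ^ 2) := by
  have iV := haarV_maj
  have iP := haarP_maj
  have hX : Continuous X := b.cX.continuous
  have hc : Continuous c := b.cc.continuous
  have hXm : Measurable X := hX.measurable
  set T : Set V := ball x0 R ×ˢ Ioo (θ0 - 1) (θ0 + 1) with hT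
  have hTo : IsOpen T := isOpen_ball.prod isOpen_Ioo
  have hTm : MeasurableSet T := hTo.measurableSet
  have hT0 : T ∩ ball ((x0, θ0) : V) 1 ∈ 𝓝 (X 0) := by
    rw [b.zero]
    refine inter_mem (hTo.mem_nhds ⟨mem_ball_self hR, ?_, ?_⟩) (ball_mem_nhds _ one_pos)
    · show θ0 - 1 < θ0
      linarith
    · show θ0 < θ0 + 1
      linarith
  obtain ⟨e, he, heL, hXe⟩ := nbhd_maj hX hT0 b.pos
  have hc0 : ball (0 : P3) e ∈ 𝓝 (c (x0, θ0)) := by
    rw [b.c_zero]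
    exact ball_mem_nhds _ he
  obtain ⟨ε, hε, hεL, hcε⟩ := nbhd_maj hc hc0 b.pos
  obtain ⟨K, -, hK⟩ := lip_ball (b.cc.of_le (by norm_num : (1 : WithTop ℕ∞) ≤ 2)) (x0, θ0) 1
  obtain ⟨C0, hC0, hlm⟩ := lm (volume : Measure P3) (volume : Measure V) rank_maj.symm K
  have hexp : ∀ p ∈ ball (0 : P3) e, ∀ q ∈ ball (0 : P3) e, ‖p - q‖ ≤ K * ‖X p - X q‖ := by
    intro p hp q hq
    have h := hK (X p) (hXe p hp).2 (X q) (hXe q hq).2
    rwa [b.left p (ball_subset_ball heL hp), b.left q (ball_subset_ball heL hq)] at h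
  set m : ℝ≥0∞ := ENNReal.ofReal (2 * e) with hm
  have hm0 : m ≠ 0 := by
    rw [hm]
    exact (ENNReal.ofReal_pos.2 (by linarith)).ne'
  have hmt : m ≠ ⊤ := ENNReal.ofReal_ne_top
  have hvol : volume (Ioo (-e) e) = m := by
    rw [Real.volume_Ioo, hm]
    congr 1
    ring
  have hmi : m⁻¹ ≠ ⊤ := ENNReal.inv_ne_top.2 hm0
  refine ⟨ε, hε, m * ((m⁻¹ + 1) ^ 2 * 4) * C0, ?_, ?_⟩
  · refine ENNReal.mul_ne_top (ENNReal.mul_ne_top hmt (ENNReal.mul_ne_top ?_ (by simp))) hC0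
    exact ENNReal.pow_ne_top (ENNReal.add_ne_top.2 ⟨hmi, ENNReal.one_ne_top⟩)
  intro J G Q hG hQ hTr
  let W : (ℝ × R2) × ℝ → ℝ≥0∞ := fun z =>
    m⁻¹ * G (z.1.1, X (z.1.2, z.2)) + Q (z.1.1, X (z.1.2, z.2))
  have hk : Measurable fun z : (ℝ × R2) × ℝ => ((z.1.1, X (z.1.2, z.2)) : ℝ × V) :=
    measurable_fst.fst.prodMk (hXm.comp (measurable_fst.snd.prodMk measurable_snd))
  have hW : Measurable W := ((hG.comp hk).const_mul _).add (hQ.comp hk)
  let I : ℝ × R2 → ℝ≥0∞ := fun y => ∫⁻ t in Ioo (-e) e, W (y, t)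
  have hI : Measurable I := hW.lintegral_prod_right'
  refine ⟨(Prod.snd ⁻¹' ball (0 : R2) e).indicator I,
    hI.indicator (measurable_snd measurableSet_ball), ?_, ?_⟩
  · intro r hr v hv
    have hp := hcε v hv
    have hp' := hp
    rw [ball_eq_maj] at hp'
    obtain ⟨hp1, hp2⟩ := hp'
    have hmem : ∀ t ∈ Ioo (-e) e, (((c v).1, t) : P3) ∈ ball (0 : P3) e := by
      intro t ht
      rw [ball_eq_maj]
      exact ⟨hp1, ht⟩
    have hγ : ∀ t ∈ Ioo (-e) e,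
        HasDerivAt (fun s => X ((c v).1, s)) (Yf u ((fun s => X ((c v).1, s)) t)) t ∧
          ((fun s => X ((c v).1, s)) t).1 ∈ ball x0 R := by
      intro t ht
      exact ⟨b.flow _ (ball_subset_ball heL (hmem t ht)), (hXe _ (hmem t ht)).1.1⟩
    have h1 := hTr r hr (fun s => X ((c v).1, s)) e he hγ (c v).2 hp2
    have hv' : X ((c v).1, (c v).2) = v := b.right v (ball_subset_ball hεL hv)
    simp only [hv'] at h1
    have hGm : Measurable fun t : ℝ => G (r, X ((c v).1, t)) :=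
      hG.comp (measurable_const.prodMk (hXm.comp (measurable_const.prodMk measurable_id)))
    have h2 : ∫⁻ _ in Ioo (-e) e, G (r, v) ≤ ∫⁻ s' in Ioo (-e) e,
        (G (r, X ((c v).1, s')) + ∫⁻ t in Ioo (-e) e, Q (r, X ((c v).1, t))) :=
      setLIntegral_mono' measurableSet_Ioo fun s' hs' => h1 s' hs'
    rw [lintegral_add_left hGm, setLIntegral_const, setLIntegral_const, hvol] at h2
    rw [indicator_of_mem (show ((r, (c v).1) : ℝ × R2) ∈ Prod.snd ⁻¹' ball (0 : R2) e from hp1)]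
    show G (r, v) ≤ ∫⁻ t in Ioo (-e) e,
      (m⁻¹ * G (r, X ((c v).1, t)) + Q (r, X ((c v).1, t)))
    rw [lintegral_add_left (hGm.const_mul _), lintegral_const_mul _ hGm]
    calc G (r, v) = m⁻¹ * (G (r, v) * m) := by
          rw [mul_comm (G (r, v)), ← mul_assoc, ENNReal.inv_mul_cancel hm0 hmt, one_mul]
      _ ≤ m⁻¹ * ((∫⁻ t in Ioo (-e) e, G (r, X ((c v).1, t)))
            + (∫⁻ t in Ioo (-e) e, Q (r, X ((c v).1, t))) * m) := by gcongr
      _ = _ := by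
          rw [mul_add, mul_comm _ m, ← mul_assoc, ENNReal.inv_mul_cancel hm0 hmt, one_mul]
  · intro r
    let F : V → ℝ≥0∞ := fun v => G (r, v) ^ 2 + Q (r, v) ^ 2
    have hF : Measurable F :=
      ((hG.comp (measurable_const.prodMk measurable_id)).pow_const 2).add
        ((hQ.comp (measurable_const.prodMk measurable_id)).pow_const 2)
    have hFX : Measurable fun p : P3 => F (X p) := hF.comp hXm
    have h1 : ∀ y : R2, (Prod.snd ⁻¹' ball (0 : R2) e).indicator I (r, y) ^ 2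
        = (ball (0 : R2) e).indicator (fun y => I (r, y) ^ 2) y := by
      intro y
      by_cases hy : y ∈ ball (0 : R2) e
      · rw [indicator_of_mem hy,
          indicator_of_mem (show ((r, y) : ℝ × R2) ∈ Prod.snd ⁻¹' ball (0 : R2) e from hy)]
      · rw [indicator_of_notMem hy,
          indicator_of_notMem (show ((r, y) : ℝ × R2) ∉ Prod.snd ⁻¹' ball (0 : R2) e from hy)]
        simp
    have h2 : ∀ y : R2, I (r, y) ^ 2
        ≤ m * ((m⁻¹ + 1) ^ 2 * 4) * ∫⁻ t in Ioo (-e) e, F (X (y, t)) := by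
      intro y
      have hWy : Measurable fun t : ℝ => W ((r, y), t) :=
        hW.comp (measurable_const.prodMk measurable_id)
      have hFy : Measurable fun t : ℝ => F (X (y, t)) :=
        hFX.comp (measurable_const.prodMk measurable_id)
      have h := cs_maj (volume.restrict (Ioo (-e) e)) hWy
      rw [Measure.restrict_apply_univ, hvol] at h
      refine h.trans ?_
      rw [mul_assoc m, ← lintegral_const_mul _ hFy]
      gcongr with t
      exact sq_maj _ _ _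
    have h3 : ∫⁻ p in ball (0 : P3) e, F (X p) ≤ C0 * ∫⁻ v in T, F v := by
      have h := hlm (ball 0 e) X measurableSet_ball hXm hexp (T.indicator F) (hF.indicator hTm)
      rw [lintegral_indicator hTm] at h
      refine le_trans (le_of_eq ?_) h
      refine setLIntegral_congr_fun measurableSet_ball fun p hp => ?_
      simp only [indicator_of_mem (hXe p hp).1]
    have hFI : Measurable fun y : R2 => ∫⁻ t in Ioo (-e) e, F (X (y, t)) :=
      hFX.lintegral_prod_right'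
    calc ∫⁻ y, (Prod.snd ⁻¹' ball (0 : R2) e).indicator I (r, y) ^ 2
        = ∫⁻ y in ball (0 : R2) e, I (r, y) ^ 2 := by
          rw [← lintegral_indicator measurableSet_ball]
          exact lintegral_congr h1
      _ ≤ ∫⁻ y in ball (0 : R2) e,
            m * ((m⁻¹ + 1) ^ 2 * 4) * ∫⁻ t in Ioo (-e) e, F (X (y, t)) :=
          lintegral_mono h2
      _ = m * ((m⁻¹ + 1) ^ 2 * 4) * ∫⁻ p in ball (0 : P3) e, F (X p) := by
          rw [lintegral_const_mul _ hFI, ball_int_maj e hFX]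
      _ ≤ m * ((m⁻¹ + 1) ^ 2 * 4) * (C0 * ∫⁻ v in T, F v) := by gcongr
      _ = m * ((m⁻¹ + 1) ^ 2 * 4) * C0 * ∫⁻ v in T, F v := by rw [mul_assoc _ C0]

/-- Integration in flow box coordinates. -/
theorem box_int {u : ℂ → ℝ} {v0 : V} {L : ℝ} {X : P3 → V} {c : V → P3}
    (b : Box u v0 L X c) {e : ℝ} (he : 0 < e) :
    ∃ ε : ℝ, 0 < ε ∧ ∃ C : ℝ≥0∞, C ≠ ⊤ ∧ ∀ H : P3 → ℝ≥0∞, Measurable H →
      ∫⁻ v in ball v0 ε, H (c v) ≤ C * ∫⁻ l in ball (0 : R2) e, ∫⁻ s in Ioo (-e) e, H (l, s) := by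
  have iV := haarV_maj
  have iP := haarP_maj
  have hc : Continuous c := b.cc.continuous
  have hc0 : ball (0 : P3) e ∈ 𝓝 (c v0) := by
    rw [b.c_zero]
    exact ball_mem_nhds _ he
  obtain ⟨ε, hε, hεL, hcε⟩ := nbhd_maj hc hc0 b.pos
  obtain ⟨K, -, hK⟩ := lip_ball (b.cX.of_le (by norm_num : (1 : WithTop ℕ∞) ≤ 2)) 0 e
  obtain ⟨C0, hC0, hlm⟩ := lm (volume : Measure V) (volume : Measure P3) rank_maj K
  have hexp : ∀ p ∈ ball v0 ε, ∀ q ∈ ball v0 ε, ‖p - q‖ ≤ K * ‖c p - c q‖ := by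
    intro p hp q hq
    have h := hK (c p) (hcε p hp) (c q) (hcε q hq)
    rwa [b.right p (ball_subset_ball hεL hp), b.right q (ball_subset_ball hεL hq)] at h
  refine ⟨ε, hε, C0, hC0, fun H hH => ?_⟩
  have h := hlm (ball v0 ε) c measurableSet_ball hc.measurable hexp
    ((ball (0 : P3) e).indicator H) (hH.indicator measurableSet_ball)
  rw [lintegral_indicator measurableSet_ball, ball_int_maj e hH] at h
  refine le_trans (le_of_eq ?_) h
  refine setLIntegral_congr_fun measurableSet_ball fun p hp => ?_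
  simp only [indicator_of_mem (hcε p hp)]

theorem measurable_wt (δ a : ℝ) : Measurable (wt δ a) := by
  unfold wt
  exact ENNReal.measurable_ofReal.comp (by fun_prop)

theorem one_le_wt {δ : ℝ} (hδ : 0 < δ) (a r : ℝ) : 1 ≤ wt δ a r := by
  unfold wt
  rw [ENNReal.one_le_ofReal]
  have : 0 ≤ |r - a| / δ := by positivity
  linarith

theorem half_maj {δ : ℝ} (hδ : 0 < δ) :
    ∫⁻ t in Ioi (0 : ℝ), ENNReal.ofReal (((1 + t / δ) ^ 2)⁻¹) = ENNReal.ofReal δ := by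
  have hpos : ∀ t ∈ Ici (0 : ℝ), 0 < 1 + t / δ := by
    intro t ht
    have : 0 ≤ t / δ := div_nonneg ht hδ.le
    linarith
  have hd : ∀ t ∈ Ici (0 : ℝ),
      HasDerivAt (fun t : ℝ => -δ * (1 + t / δ)⁻¹) (((1 + t / δ) ^ 2)⁻¹) t := by
    intro t ht
    have h1 : HasDerivAt (fun t : ℝ => 1 + t / δ) (1 / δ) t :=
      ((hasDerivAt_id t).div_const δ).const_add 1
    have h2 := (h1.inv (hpos t ht).ne').const_mul (-δ)
    have h3 := (hpos t ht).ne'
    have h4 : -δ * (-(1 / δ) / (1 + t / δ) ^ 2) = ((1 + t / δ) ^ 2)⁻¹ := by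
      field_simp
    rw [← h4]
    exact h2
  have hlim : Tendsto (fun t : ℝ => -δ * (1 + t / δ)⁻¹) atTop (𝓝 0) := by
    have h1 : Tendsto (fun t : ℝ => 1 + t / δ) atTop atTop :=
      tendsto_atTop_add_const_left _ _ (tendsto_id.atTop_div_const hδ)
    simpa using h1.inv_tendsto_atTop.const_mul (-δ)
  have hnn : ∀ t ∈ Ioi (0 : ℝ), 0 ≤ ((1 + t / δ) ^ 2)⁻¹ := fun t _ => by positivity
  have hint := integrableOn_Ioi_deriv_of_nonneg' hd hnn hlim
  have hval := integral_Ioi_of_hasDerivAt_of_nonneg' hd hnn hlim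
  rw [← ofReal_integral_eq_lintegral_ofReal hint (ae_of_all _ fun t => by positivity), hval]
  congr 1
  simp

theorem lintegral_wt {δ : ℝ} (hδ : 0 < δ) (a : ℝ) (J : Set ℝ) :
    ∫⁻ r in J, (wt δ a r ^ 2)⁻¹ ≤ ENNReal.ofReal (2 * δ) := by
  let f : ℝ → ℝ≥0∞ := fun t => ENNReal.ofReal (((1 + t / δ) ^ 2)⁻¹)
  have hf : Measurable f := ENNReal.measurable_ofReal.comp (by fun_prop)
  have h1 : ∀ r, (wt δ a r ^ 2)⁻¹ = f |r - a| := by
    intro r
    have hp : 0 < 1 + |r - a| / δ := by positivity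
    unfold wt
    rw [← ENNReal.ofReal_pow hp.le, ← ENNReal.ofReal_inv_of_pos (by positivity)]
  have h2 : ∀ t : ℝ, f |t| ≤ (Ici (0 : ℝ)).indicator f t + (Ici (0 : ℝ)).indicator f (-t) := by
    intro t
    rcases le_total 0 t with h | h
    · rw [abs_of_nonneg h, indicator_of_mem (show t ∈ Ici (0 : ℝ) from h)]
      exact le_self_add
    · rw [abs_of_nonpos h, indicator_of_mem (show -t ∈ Ici (0 : ℝ) from neg_nonneg.2 h)]
      exact le_add_self
  have h3 : ∫⁻ t, (Ici (0 : ℝ)).indicator f t = ENNReal.ofReal δ := by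
    rw [lintegral_indicator measurableSet_Ici, ← half_maj hδ,
      setLIntegral_congr (Ioi_ae_eq_Ici (μ := volume) (a := (0 : ℝ)))]
  calc ∫⁻ r in J, (wt δ a r ^ 2)⁻¹ ≤ ∫⁻ r, (wt δ a r ^ 2)⁻¹ := setLIntegral_le_lintegral _ _
    _ = ∫⁻ r, f |r - a| := lintegral_congr h1
    _ = ∫⁻ t, f |t| := lintegral_sub_right_eq_self (fun t => f |t|) a
    _ ≤ ∫⁻ t, ((Ici (0 : ℝ)).indicator f t + (Ici (0 : ℝ)).indicator f (-t)) :=
        lintegral_mono h2
    _ = ENNReal.ofReal δ + ENNReal.ofReal δ := by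
        rw [lintegral_add_left (hf.indicator measurableSet_Ici), h3,
          lintegral_neg_eq_self (fun t => (Ici (0 : ℝ)).indicator f t), h3]
    _ = ENNReal.ofReal (2 * δ) := by
        rw [← ENNReal.ofReal_add hδ.le hδ.le, two_mul]

end Pool.Agent.Lib.MP_a52643_an.H60
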