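import Pool.Agent.Lib.MP_a52643_an.H60Loc

open MeasureTheory Set Filter Topology Metric
open scoped ENNReal NNReal ContDiff Laplacian FourierTransform Real

noncomputable section

namespace Pool.Agent.Lib.MP_a52643_an.H60

/-- The Helmholtz equation on an open set. -/
structure HelU (U : Set ℂ) (u : ℂ → ℝ) (lam : ℝ) (φ : ℂ → ℝ) : Prop where
  sm : ContDiffOn ℝ ∞ φ U
  eq : ∀ y ∈ U, Δ φ y = -(lam * Real.exp (2 * u y)) * φ y

/-- Cutting off a function that is smooth on an open set. -/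
theorem contDiff_cut_open {U : Set ℂ} (hU : IsOpen U) {x0 : ℂ} (β : ContDiffBump x0)
    (hβ : closedBall x0 β.rOut ⊆ U) {f : ℂ → ℝ} (hf : ContDiffOn ℝ ∞ f U) :
    ContDiff ℝ ∞ fun y => β y * f y := by
  rw [contDiff_iff_contDiffAt]
  intro y
  by_cases hy : y ∈ U
  · exact β.contDiffAt.mul (hf.contDiffAt (hU.mem_nhds hy))
  · have h1 : y ∉ tsupport β := fun h => hy (hβ (β.tsupport_eq ▸ h))
    have h2 : (fun y => β y * f y) =ᶠ[𝓝 y] fun _ => 0 := by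
      filter_upwards [notMem_tsupport_iff_eventuallyEq.mp h1] with z hz
      rw [hz, Pi.zero_apply, zero_mul]
    exact contDiffAt_const.congr_of_eventuallyEq h2

theorem cut_eq_open {x0 : ℂ} (β : ContDiffBump x0) (f : ℂ → ℝ) {y : ℂ}
    (hy : y ∈ ball x0 β.rIn) : (fun y => β y * f y) =ᶠ[𝓝 y] f := by
  filter_upwards [β.eventuallyEq_one_of_mem_ball hy] with z hz
  rw [hz, Pi.one_apply, one_mul]

/-- One point of an open set. -/
theorem loc_open {U : Set ℂ} (hU : IsOpen U) {u : ℂ → ℝ} (hu : ContDiffOn ℝ ∞ u U) {x0 : ℂ}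
    (hx : x0 ∈ U) (hK : Δ u x0 ≠ 0) {K : Set R3} (hKc : IsCompact K) (hT : ∀ a ∈ K, Tri a) :
    ∃ r0 : ℝ, 0 < r0 ∧ ∃ S : Set ℂ, IsCompact S ∧ S ⊆ U ∧ ball x0 r0 ⊆ S ∧
      ∀ ψ : ℂ → ℝ, ContDiff ℝ ∞ ψ → tsupport ψ ⊆ ball x0 r0 →
      ∃ C : ℝ≥0∞, C ≠ ⊤ ∧ ∃ τ0 : ℝ, 0 < τ0 ∧ ∀ τ ∈ Ioc (0 : ℝ) τ0, ∀ a ∈ K,
      ∀ φ1 φ2 φ3 : ℂ → ℝ, HelU U u (4 * π ^ 2 * a.1 ^ 2 / τ ^ 8) φ1 →
      HelU U u (4 * π ^ 2 * a.2.1 ^ 2 / τ ^ 8) φ2 → HelU U u (4 * π ^ 2 * a.2.2 ^ 2 / τ ^ 8) φ3 →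
      ‖∫ y, ψ y * (φ1 y * φ2 y * φ3 y)‖ₑ ^ 2 ≤
        C * ENNReal.ofReal τ * (NN S φ1 * NN S φ2 * NN S φ3) := by
  obtain ⟨ε, hε, hεU⟩ := Metric.isOpen_iff.mp hU x0 hx
  obtain ⟨R, hR, hRε⟩ : ∃ R : ℝ, 0 < R ∧ 4 * R < ε := ⟨ε / 5, by positivity, by linarith⟩
  let β : ContDiffBump x0 := ⟨3 * R, 4 * R, by positivity, by linarith⟩
  have hβ : closedBall x0 β.rOut ⊆ U := (closedBall_subset_ball hRε).trans hεU
  have hin : ball x0 (2 * R) ⊆ ball x0 β.rIn := ball_subset_ball (by change 2 * R ≤ 3 * R; linarith)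
  have hU2 : closedBall x0 (2 * R) ⊆ U :=
    (closedBall_subset_ball (by linarith : 2 * R < ε)).trans hεU
  have hu' := contDiff_cut_open hU β hβ hu
  have hc' : HasCompactSupport fun y => β y * u y := β.hasCompactSupport.mul_right
  have hK' : Δ (fun y => β y * u y) x0 ≠ 0 := by
    rwa [(InnerProductSpace.laplacian_congr_nhds
      (cut_eq_open β u (mem_ball_self β.rIn_pos))).eq_of_nhds]
  obtain ⟨r1, hr1, hloc⟩ := loc hu' hc' hK' hKc hT hR
  refine ⟨min r1 R, lt_min hr1 hR, closedBall x0 (2 * R), isCompact_closedBall _ _, hU2,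
    (ball_subset_ball ((min_le_right _ _).trans (by linarith))).trans ball_subset_closedBall, ?_⟩
  intro ψ hψ hs
  obtain ⟨C, hC, τ0, hτ0, h⟩ := hloc ψ hψ (hs.trans (ball_subset_ball (min_le_left _ _)))
  refine ⟨C, hC, τ0, hτ0, ?_⟩
  intro τ hτ a ha φ1 φ2 φ3 h1 h2 h3
  have hG : ∀ (b : ℝ) (φ : ℂ → ℝ), HelU U u (4 * π ^ 2 * b ^ 2 / τ ^ 8) φ →
      HelG (fun y => β y * u y) b (τ ^ 2) x0 (2 * R) fun y => β y * φ y := by
    intro b φ hφ
    refine ⟨contDiff_cut_open hU β hβ hφ.sm, fun y hy => ?_⟩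
    have e1 := (InnerProductSpace.laplacian_congr_nhds (cut_eq_open β φ (hin hy))).eq_of_nhds
    have e2 : β y = 1 := β.one_of_mem_closedBall (ball_subset_closedBall (hin hy))
    rw [e1, hφ.eq y (hU2 (ball_subset_closedBall hy))]
    simp only [rho, e2, one_mul]
    have := hτ.1.ne'
    field_simp
  have hN : ∀ φ : ℂ → ℝ, NN (ball x0 (2 * R)) (fun y => β y * φ y) ≤
      NN (closedBall x0 (2 * R)) φ := by
    intro φ
    refine le_trans (le_of_eq ?_) (lintegral_mono_set ball_subset_closedBall)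
    refine setLIntegral_congr_fun measurableSet_ball fun y hy => ?_
    simp only [β.one_of_mem_closedBall (ball_subset_closedBall (hin hy)), one_mul]
  have key := h τ hτ a ha _ _ _ (hG _ _ h1) (hG _ _ h2) (hG _ _ h3)
  have e : (fun y => ψ y * (β y * φ1 y * (β y * φ2 y) * (β y * φ3 y))) =
      fun y => ψ y * (φ1 y * φ2 y * φ3 y) := by
    funext y
    by_cases hy : y ∈ tsupport ψ
    · have : y ∈ ball x0 (2 * R) :=
        ball_subset_ball ((min_le_right _ _).trans (by linarith)) (hs hy)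
      simp only [β.one_of_mem_closedBall (ball_subset_closedBall (hin this)), one_mul]
    · rw [image_eq_zero_of_notMem_tsupport hy, zero_mul, zero_mul]
  rw [e] at key
  refine key.trans ?_
  gcongr <;> exact hN _

end Pool.Agent.Lib.MP_a52643_an.H60
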