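import Pool.Agent.Lib.MP_a52643_an.H60Open

open MeasureTheory Set Filter Topology Metric
open scoped ENNReal NNReal ContDiff Laplacian FourierTransform Real

noncomputable section

namespace Pool.Agent.Lib.MP_a52643_an.H60

theorem sum_sq_plane {ι : Type} [Fintype ι] {x : ι → ℝ≥0∞} {m : ℝ≥0∞} (h : ∀ i, x i ^ 2 ≤ m) :
    (∑ i, x i) ^ 2 ≤ (Fintype.card ι : ℝ≥0∞) ^ 2 * m := by
  have e2 : (m ^ (1 / 2 : ℝ)) ^ 2 = m := by
    rw [← ENNReal.rpow_natCast, ← ENNReal.rpow_mul]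
    norm_num
  have h1 : ∀ i, x i ≤ m ^ (1 / 2 : ℝ) := fun i =>
    (ENNReal.pow_le_pow_left_iff two_ne_zero).1 (e2.symm ▸ h i)
  have h2 := Finset.sum_le_card_nsmul Finset.univ x _ fun i _ => h1 i
  rw [Finset.card_univ, nsmul_eq_mul] at h2
  refine (pow_le_pow_left' h2 2).trans ?_
  rw [mul_pow, e2]

/-- The trilinear estimate on an open subset of the plane. -/
theorem plane {U : Set ℂ} (hU : IsOpen U) {u : ℂ → ℝ} (hu : ContDiffOn ℝ ∞ u U) {ψ : ℂ → ℝ}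
    (hψ : ContDiff ℝ ∞ ψ) (hc : HasCompactSupport ψ) (hs : tsupport ψ ⊆ U)
    (hK : ∀ x ∈ tsupport ψ, Δ u x ≠ 0) {K : Set R3} (hKc : IsCompact K) (hT : ∀ a ∈ K, Tri a) :
    ∃ S : Set ℂ, IsCompact S ∧ S ⊆ U ∧
      ∃ C : ℝ≥0∞, C ≠ ⊤ ∧ ∃ τ0 : ℝ, 0 < τ0 ∧ ∀ τ ∈ Ioc (0 : ℝ) τ0, ∀ a ∈ K,
      ∀ φ1 φ2 φ3 : ℂ → ℝ, HelU U u (4 * π ^ 2 * a.1 ^ 2 / τ ^ 8) φ1 →
      HelU U u (4 * π ^ 2 * a.2.1 ^ 2 / τ ^ 8) φ2 → HelU U u (4 * π ^ 2 * a.2.2 ^ 2 / τ ^ 8) φ3 →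
      ‖∫ y, ψ y * (φ1 y * φ2 y * φ3 y)‖ₑ ^ 2 ≤
        C * ENNReal.ofReal τ * (NN S φ1 * NN S φ2 * NN S φ3) := by
  choose r hr S hS hSU hB hP using fun x : tsupport ψ =>
    loc_open hU hu (hs x.2) (hK x x.2) hKc hT
  obtain ⟨t, ht⟩ := hc.isCompact.elim_finite_subcover (fun x : tsupport ψ => ball (x : ℂ) (r x))
    (fun _ => isOpen_ball) fun x hx => mem_iUnion.2 ⟨⟨x, hx⟩, mem_ball_self (hr _)⟩
  obtain ⟨f, hf⟩ := SmoothPartitionOfUnity.exists_isSubordinate (modelWithCornersSelf ℝ ℂ)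
    (isClosed_tsupport ψ) (fun i : t => ball (i.1 : ℂ) (r i.1)) (fun _ => isOpen_ball)
    (fun x hx => by
      obtain ⟨i, hi, h⟩ := mem_iUnion₂.1 (ht hx)
      exact mem_iUnion.2 ⟨⟨i, hi⟩, h⟩)
  have hf1 : ∀ i, ContDiff ℝ ∞ fun y => f i y * ψ y := fun i =>
    (f i).contMDiff.contDiff.mul hψ
  choose C hC τs hτs hE using fun i : t => hP i.1 (fun y => f i y * ψ y) (hf1 i)
    (tsupport_mul_subset_left.trans (hf i))
  obtain ⟨τ0, hτ0, hτ⟩ := (eventually_all.2 fun i => ge_mem_nhds (hτs i) :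
    ∀ᶠ τ in 𝓝 (0 : ℝ), ∀ i, τ ≤ τs i).exists_gt
  refine ⟨⋃ i : t, S i.1, isCompact_iUnion fun i => hS _, iUnion_subset fun i => hSU _,
    (Fintype.card t : ℝ≥0∞) ^ 2 * ∑ i, C i,
    ENNReal.mul_ne_top (ENNReal.pow_ne_top (ENNReal.natCast_ne_top _))
      (ENNReal.sum_ne_top.2 fun i _ => hC i), τ0, hτ0, ?_⟩
  intro τ hτ' a ha φ1 φ2 φ3 h1 h2 h3
  have hF : ContinuousOn (fun y => φ1 y * φ2 y * φ3 y) U :=
    (h1.sm.continuousOn.mul h2.sm.continuousOn).mul h3.sm.continuousOn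
  have hI : ∀ i, Integrable fun y => f i y * ψ y * (φ1 y * φ2 y * φ3 y) := fun i => by
    refine Continuous.integrable_of_hasCompactSupport ?_ (hc.mul_left.mul_right)
    exact ((hf1 i).continuous.continuousOn.mul hF).continuous_of_tsupport_subset hU
      (tsupport_mul_subset_left.trans (tsupport_mul_subset_right.trans hs))
  have e : ∫ y, ψ y * (φ1 y * φ2 y * φ3 y) = ∑ i, ∫ y, f i y * ψ y * (φ1 y * φ2 y * φ3 y) := by
    rw [← integral_finsetSum _ fun i _ => hI i]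
    refine integral_congr_ae (Eventually.of_forall fun y => ?_)
    simp only [← Finset.sum_mul]
    by_cases hy : y ∈ tsupport ψ
    · rw [← finsum_eq_sum_of_fintype, f.sum_eq_one hy, one_mul]
    · rw [image_eq_zero_of_notMem_tsupport hy, mul_zero]
  rw [e, mul_assoc, mul_assoc]
  refine (pow_le_pow_left' (enorm_sum_le _ _) 2).trans (sum_sq_plane fun i => ?_)
  refine (hE i τ ⟨hτ'.1, hτ'.2.trans (hτ i)⟩ a ha φ1 φ2 φ3 h1 h2 h3).trans ?_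
  have hN : ∀ φ, NN (S i.1) φ ≤ NN (⋃ i : t, S i.1) φ := fun φ =>
    lintegral_mono_set (subset_iUnion (fun i : t => S i.1) i)
  rw [mul_assoc]
  exact mul_le_mul' (Finset.single_le_sum (fun _ _ => zero_le) (Finset.mem_univ i))
    (mul_le_mul_right (mul_le_mul' (mul_le_mul' (hN _) (hN _)) (hN _)) _)

end Pool.Agent.Lib.MP_a52643_an.H60
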