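import Pool.Agent.Lib.MP_a52643_an.H60Q0
import Pool.Agent.Lib.MP_a52643_an.H60L1

open MeasureTheory Set Filter Topology Metric
open scoped ENNReal NNReal ContDiff Laplacian FourierTransform Real

noncomputable section

namespace Pool.Agent.Lib.MP_a52643_an.H60

/-- The weighted energy density. -/
def EE_q (δ ρ0 : ℝ) (f : ℂ → ℝ) (w : ℂ → ℂ) (ξ : ℂ) : ℝ≥0∞ :=
  ENNReal.ofReal ((1 + mu δ ρ0 ξ ^ 4) * ‖FT δ f w ξ‖ ^ 2)

theorem enorm_sq_q (z : ℂ) : ‖z‖ₑ ^ 2 = ENNReal.ofReal (‖z‖ ^ 2) := by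
  rw [← ofReal_norm, ENNReal.ofReal_pow (norm_nonneg _)]

theorem measurable_EE_q {k : ℕ} {B : ℝ} (δ ρ0 : ℝ) {f : ℂ → ℝ} {w : ℂ → ℂ} (hf : Continuous f)
    (hw : Adm k B w) : Measurable (EE_q δ ρ0 f w) :=
  ((measurable_const.add ((measurable_mu δ ρ0).pow_const 4)).mul
    ((continuous_FT hf hw.sm.continuous hw.hcs).norm.measurable.pow_const 2)).ennreal_ofReal

theorem EE_le_q (M B : ℝ) : ∃ C : ℝ≥0∞, C ≠ ⊤ ∧ ∀ δ ∈ Ioc (0 : ℝ) 1, ∀ (ρ0 : ℝ) (n f : ℂ → ℝ)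
    (w : ℂ → ℂ), Hel δ ρ0 n f → Bnd 4 M (cx n) → Adm 4 B w →
    ∫⁻ ξ, EE_q δ ρ0 f w ξ ≤ C * m2 f := by
  obtain ⟨C, _, h⟩ := el 2 M
  refine ⟨ENNReal.ofReal (B ^ 2) + ENNReal.ofReal (C * B ^ 2),
    ENNReal.add_ne_top.2 ⟨ENNReal.ofReal_ne_top, ENNReal.ofReal_ne_top⟩,
    fun δ hδ ρ0 n f w hH hn hw => ?_⟩
  have e : ∀ ξ, EE_q δ ρ0 f w ξ = ‖FT δ f w ξ‖ₑ ^ 2 +
      ENNReal.ofReal (mu δ ρ0 ξ ^ (2 * 2)) * ‖FT δ f w ξ‖ₑ ^ 2 := fun ξ => by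
    have hm : 0 ≤ mu δ ρ0 ξ := by
      have := hδ.1
      unfold mu
      positivity
    rw [EE_q, enorm_sq_q, ← ENNReal.ofReal_mul (by positivity),
      ← ENNReal.ofReal_add (by positivity) (by positivity)]
    congr 1
    ring
  simp only [e]
  rw [lintegral_add_left
    ((continuous_FT hH.sf.continuous hw.sm.continuous hw.hcs).enorm.measurable.pow_const 2),
    add_mul]
  exact add_le_add (planch hδ.1 hH.sf hw) (h δ hδ ρ0 B n f w hH hn hw)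

theorem alg_q {K K2 m W F Q F1 F2 F3 F4 : ℝ} (hW0 : 0 ≤ W)
    (hW : W ≤ K * (1 + m)) (hQ0 : 0 ≤ Q) (hQ : Q ≤ K2 * (F1 + F2 + F3 + m * F4)) :
    W ^ 2 * (F ^ 2 + Q ^ 2) ≤ 4 * K ^ 2 * (1 + 4 * K2 ^ 2) * ((1 + m ^ 4) * F ^ 2 +
      (1 + m ^ 4) * F1 ^ 2 + (1 + m ^ 4) * F2 ^ 2 + (1 + m ^ 4) * F3 ^ 2 + (1 + m ^ 4) * F4 ^ 2) := by
  have h1 : W ^ 2 ≤ K ^ 2 * (2 * (1 + m ^ 2)) := by
    refine (pow_le_pow_left₀ hW0 hW 2).trans ?_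
    rw [mul_pow]
    exact mul_le_mul_of_nonneg_left (by nlinarith [sq_nonneg (1 - m)]) (by positivity)
  have h2 : Q ^ 2 ≤ K2 ^ 2 * (4 * (F1 ^ 2 + F2 ^ 2 + F3 ^ 2 + m ^ 2 * F4 ^ 2)) := by
    refine (pow_le_pow_left₀ hQ0 hQ 2).trans ?_
    rw [mul_pow]
    refine mul_le_mul_of_nonneg_left ?_ (by positivity)
    nlinarith [sq_nonneg (F1 - F2), sq_nonneg (F1 - F3), sq_nonneg (F1 - m * F4),
      sq_nonneg (F2 - F3), sq_nonneg (F2 - m * F4), sq_nonneg (F3 - m * F4)]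
  have h3 : 1 + m ^ 2 ≤ 2 * (1 + m ^ 4) := by nlinarith [sq_nonneg (m ^ 2 - 1), sq_nonneg m]
  have h4 : (1 + m ^ 2) * m ^ 2 ≤ 2 * (1 + m ^ 4) := by
    nlinarith [sq_nonneg (m ^ 2 - 1), sq_nonneg m]
  have a0 := mul_le_mul_of_nonneg_right h3 (sq_nonneg F)
  have a1 := mul_le_mul_of_nonneg_right h3 (sq_nonneg F1)
  have a2 := mul_le_mul_of_nonneg_right h3 (sq_nonneg F2)
  have a3 := mul_le_mul_of_nonneg_right h3 (sq_nonneg F3)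
  have a4 := mul_le_mul_of_nonneg_right h4 (sq_nonneg F4)
  obtain ⟨S, hS⟩ : ∃ S, S = (1 + m ^ 4) * F ^ 2 +
      (1 + m ^ 4) * F1 ^ 2 + (1 + m ^ 4) * F2 ^ 2 + (1 + m ^ 4) * F3 ^ 2 + (1 + m ^ 4) * F4 ^ 2 :=
    ⟨_, rfl⟩
  have p0 : 0 ≤ (1 + m ^ 4) * F ^ 2 := by positivity
  have p1 : 0 ≤ (1 + m ^ 4) * F1 ^ 2 := by positivity
  have p2 : 0 ≤ (1 + m ^ 4) * F2 ^ 2 := by positivity
  have p3 : 0 ≤ (1 + m ^ 4) * F3 ^ 2 := by positivity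
  have p4 : 0 ≤ (1 + m ^ 4) * F4 ^ 2 := by positivity
  have b1 : (1 + m ^ 2) * F ^ 2 ≤ 2 * S := by rw [hS]; linarith
  have b2 : (1 + m ^ 2) * (F1 ^ 2 + F2 ^ 2 + F3 ^ 2 + m ^ 2 * F4 ^ 2) ≤ 2 * S := by
    rw [hS]; linarith
  have b3 := mul_le_mul_of_nonneg_left b2 (show 0 ≤ 4 * K2 ^ 2 by positivity)
  have b4 : (1 + m ^ 2) * (F ^ 2 + Q ^ 2) ≤ (1 + 4 * K2 ^ 2) * (2 * S) := by
    have := mul_le_mul_of_nonneg_left h2 (show 0 ≤ 1 + m ^ 2 by positivity)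
    linarith
  have b5 := mul_le_mul_of_nonneg_left b4 (show 0 ≤ 2 * K ^ 2 by positivity)
  have b6 := mul_le_mul_of_nonneg_right h1 (show 0 ≤ F ^ 2 + Q ^ 2 by positivity)
  rw [← hS]
  linarith

theorem geo_q {M δ a η t : ℝ} {z : ℂ} (hδ : 0 < δ) (hM : 1 ≤ M) (ha : M⁻¹ ≤ a) (ha' : a ≤ M)
    (lo : M⁻¹ ≤ t) (hi : t ≤ M) (hη : η ≤ a / 2) (hz : z ∈ Ann a η) :
    0 < ‖t • z‖ ∧ ‖t • z‖⁻¹ ≤ 2 * M ^ 2 ∧
      |(‖t • z‖ ^ 2 - a ^ 2 * t ^ 2) / δ| ≤ (1 + 2 * M ^ 2) * mu δ (a ^ 2 * t ^ 2) (t • z) ∧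
      1 + |‖z‖ - a| / δ ≤ M ^ 3 * (1 + 2 * M ^ 2) * (1 + mu δ (a ^ 2 * t ^ 2) (t • z)) := by
  have hM0 : 0 < M := by linarith
  have hMi : 0 < M⁻¹ := inv_pos.2 hM0
  have ht : 0 < t := hMi.trans_le lo
  have ha0 : 0 < a := hMi.trans_le ha
  have h1 : a / 2 < ‖z‖ := by linarith [hz.1]
  have h2 : ‖z‖ < 2 * a := by linarith [hz.2]
  have e : ‖t • z‖ = t * ‖z‖ := by rw [norm_smul, Real.norm_of_nonneg ht.le]
  have h3 : 0 < ‖t • z‖ := by rw [e]; exact mul_pos ht (by linarith)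
  have h4 : ‖t • z‖ ≤ 2 * M ^ 2 := by
    rw [e]
    calc t * ‖z‖ ≤ M * (2 * M) := mul_le_mul hi (by linarith) (norm_nonneg _) hM0.le
      _ = 2 * M ^ 2 := by ring
  have h5 : (2 * M ^ 2)⁻¹ ≤ ‖t • z‖ := by
    rw [e]
    calc (2 * M ^ 2)⁻¹ = M⁻¹ * (M⁻¹ / 2) := by field_simp
      _ ≤ t * ‖z‖ := mul_le_mul lo (by linarith) (by positivity) ht.le
  have hm : 0 ≤ mu δ (a ^ 2 * t ^ 2) (t • z) := by unfold mu; positivity
  have h6 : |(‖t • z‖ ^ 2 - a ^ 2 * t ^ 2) / δ| ≤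
      (1 + 2 * M ^ 2) * mu δ (a ^ 2 * t ^ 2) (t • z) := by
    have e1 : |(‖t • z‖ ^ 2 - a ^ 2 * t ^ 2) / δ| =
        (1 + ‖t • z‖) * mu δ (a ^ 2 * t ^ 2) (t • z) := by
      rw [abs_div, abs_of_pos hδ, mu]
      field_simp
    rw [e1]
    exact mul_le_mul_of_nonneg_right (by linarith) hm
  refine ⟨h3, inv_le_of_inv_le₀ (by positivity) h5, h6, ?_⟩
  have e2 : |(‖t • z‖ ^ 2 - a ^ 2 * t ^ 2) / δ| = t ^ 2 * (‖z‖ + a) * (|‖z‖ - a| / δ) := by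
    rw [e, show ((t * ‖z‖) ^ 2 - a ^ 2 * t ^ 2) / δ = t ^ 2 * (‖z‖ + a) * ((‖z‖ - a) / δ) by ring,
      abs_mul, abs_div, abs_of_pos hδ, abs_of_nonneg (by positivity)]
  have h7 : 1 ≤ M ^ 3 * (t ^ 2 * (‖z‖ + a)) := by
    have c1 : M⁻¹ ^ 2 * M⁻¹ ≤ t ^ 2 * (‖z‖ + a) :=
      mul_le_mul (pow_le_pow_left₀ hMi.le lo 2) (by linarith [norm_nonneg z]) hMi.le (by positivity)
    calc (1 : ℝ) = M ^ 3 * (M⁻¹ ^ 2 * M⁻¹) := by field_simp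
      _ ≤ _ := mul_le_mul_of_nonneg_left c1 (by positivity)
  have h8 := mul_le_mul_of_nonneg_right h7 (show 0 ≤ |‖z‖ - a| / δ by positivity)
  have h9 := mul_le_mul_of_nonneg_left h6 (show 0 ≤ M ^ 3 by positivity)
  have h10 : 1 ≤ M ^ 3 * (1 + 2 * M ^ 2) :=
    one_le_mul_of_one_le_of_one_le (one_le_pow₀ hM) (by nlinarith)
  rw [e2] at h9
  linarith

theorem norm_q {M r p m : ℝ} {F1 F2 F3 F4 : ℂ} (hM : 1 ≤ M) (hr : 0 < r) (hr' : r⁻¹ ≤ 2 * M ^ 2)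
    (hp : |p| ≤ (1 + 2 * M ^ 2) * m) :
    ‖Complex.I / (r : ℝ) * ((F1 + F2) / (4 * π) + π * F3 - 2 * π * ((p : ℝ) : ℂ) * F4)‖ ≤
      2 * M ^ 2 * (8 * (1 + 2 * M ^ 2)) * (‖F1‖ + ‖F2‖ + ‖F3‖ + m * ‖F4‖) := by
  have p3 := Real.pi_gt_three
  have p4 := Real.pi_le_four
  have hK : 1 ≤ 1 + 2 * M ^ 2 := by nlinarith
  have e1 : ‖Complex.I / (r : ℝ)‖ = r⁻¹ := by
    rw [norm_div, Complex.norm_I, Complex.norm_real, Real.norm_of_nonneg hr.le, one_div]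
  have e2 : ‖(F1 + F2) / (4 * π)‖ ≤ ‖F1‖ + ‖F2‖ := by
    rw [norm_div, norm_mul, Complex.norm_real, Real.norm_of_nonneg Real.pi_pos.le,
      Complex.norm_ofNat]
    exact (div_le_self (norm_nonneg _) (by linarith)).trans (norm_add_le _ _)
  have e3 : ‖(π : ℂ) * F3‖ ≤ 4 * ‖F3‖ := by
    rw [norm_mul, Complex.norm_real, Real.norm_of_nonneg Real.pi_pos.le]
    exact mul_le_mul_of_nonneg_right p4 (norm_nonneg _)
  have e4 : ‖2 * π * ((p : ℝ) : ℂ) * F4‖ ≤ 8 * (1 + 2 * M ^ 2) * (m * ‖F4‖) := by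
    rw [norm_mul, norm_mul, norm_mul, Complex.norm_real, Complex.norm_real,
      Real.norm_of_nonneg Real.pi_pos.le, Complex.norm_ofNat, Real.norm_eq_abs]
    have : 2 * π * |p| ≤ 8 * ((1 + 2 * M ^ 2) * m) :=
      mul_le_mul (by linarith) hp (abs_nonneg _) (by norm_num)
    have := mul_le_mul_of_nonneg_right this (norm_nonneg F4)
    linarith
  have e5 := norm_sub_le ((F1 + F2) / (4 * π) + π * F3) (2 * π * ((p : ℝ) : ℂ) * F4)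
  have e6 := norm_add_le ((F1 + F2) / (4 * π)) (π * F3)
  have e7 := mul_le_mul_of_nonneg_right hK
    (show 0 ≤ ‖F1‖ + ‖F2‖ + ‖F3‖ by positivity)
  have n1 := norm_nonneg F1
  have n2 := norm_nonneg F2
  have n3 := norm_nonneg F3
  rw [norm_mul, e1, mul_assoc (2 * M ^ 2)]
  exact mul_le_mul hr' (by linarith) (norm_nonneg _) (by positivity)

/-- Weighted bound on the annulus at one point. -/
theorem ann_le (M B : ℝ) : ∃ C : ℝ≥0∞, C ≠ ⊤ ∧ ∀ δ ∈ Ioc (0 : ℝ) 1, ∀ (a η : ℝ) (u φ : ℂ → ℝ)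
    (w : ℂ → ℂ) (x : ℂ), ContDiff ℝ ∞ u → ContDiff ℝ ∞ φ → Coef 8 M u a → Adm 8 B w →
    Hel δ (rho u a x) (n1 δ (rho u a) x) (sc δ φ x) → η ≤ a / 2 →
    ∫⁻ z in Ann a η, wt δ a ‖z‖ ^ 2 * (gF δ u φ w (x, z) ^ 2 + qF δ u a φ w (x, z) ^ 2)
      ≤ C * m2 (sc δ φ x) := by
  obtain ⟨C, hC, h⟩ := EE_le_q M (2 ^ 8 * M * B)
  obtain ⟨K, hK⟩ : ∃ K : ℝ, K = 4 * (M ^ 3 * (1 + 2 * M ^ 2)) ^ 2 *
    (1 + 4 * (2 * M ^ 2 * (8 * (1 + 2 * M ^ 2))) ^ 2) := ⟨_, rfl⟩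
  have hK0 : 0 ≤ K := by rw [hK]; positivity
  refine ⟨ENNReal.ofReal K * (ENNReal.ofReal (M ^ 2) * (5 * C)),
    ENNReal.mul_ne_top ENNReal.ofReal_ne_top
      (ENNReal.mul_ne_top ENNReal.ofReal_ne_top (ENNReal.mul_ne_top (by simp) hC)),
    fun δ hδ a η u φ w x hu hφ hc hw hH hη => ?_⟩
  have hM := hc.one
  have hB := hw.nonneg
  have hBB : B ≤ 2 ^ 8 * M * B := le_mul_of_one_le_left hB (by linarith)
  have w0 : Adm 4 (2 ^ 8 * M * B) w := hw.mono (by norm_num) hBB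
  have w1 : Adm 4 (2 ^ 8 * M * B) (dd 1 (dd 1 w)) :=
    (Adm.dd (k := 6) (Adm.dd (k := 7) hw (by simp)) (by simp)).mono (by norm_num) hBB
  have w2 : Adm 4 (2 ^ 8 * M * B) (dd Complex.I (dd Complex.I w)) :=
    (Adm.dd (k := 6) (Adm.dd (k := 7) hw (by simp)) (by simp)).mono (by norm_num) hBB
  have w3 : Adm 4 (2 ^ 8 * M * B) fun Y => cx (n2 δ (rho u a) x) Y * w Y :=
    (hw.mul (contDiff_cx (contDiff_n2 (contDiff_rho hu a) δ x)) (hc.b2 δ hδ x)).mono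
      (by norm_num) le_rfl
  have w4 : Adm 4 (2 ^ 8 * M * B) (lw (gr u x) w) := (hw.lw (hc.gr x)).mono (by norm_num) le_rfl
  have hn : Bnd 4 M (cx (n1 δ (rho u a) x)) := (hc.b1 δ hδ x).mono (by norm_num) le_rfl
  have hf := hH.sf.continuous
  have ht : 0 < Real.exp (u x) := Real.exp_pos _
  have eρ : rho u a x = a ^ 2 * Real.exp (u x) ^ 2 := by
    rw [rho, ← Real.exp_nat_mul]
    norm_num
  obtain ⟨S, hS⟩ : ∃ S : ℂ → ℝ≥0∞, S = fun ξ => EE_q δ (rho u a x) (sc δ φ x) w ξ +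
      EE_q δ (rho u a x) (sc δ φ x) (dd 1 (dd 1 w)) ξ +
      EE_q δ (rho u a x) (sc δ φ x) (dd Complex.I (dd Complex.I w)) ξ +
      EE_q δ (rho u a x) (sc δ φ x) (fun Y => cx (n2 δ (rho u a) x) Y * w Y) ξ +
      EE_q δ (rho u a x) (sc δ φ x) (lw (gr u x) w) ξ := ⟨_, rfl⟩
  have h1 : ∫⁻ ξ, S ξ ≤ 5 * C * m2 (sc δ φ x) := by
    rw [hS]
    rw [lintegral_add_right _ (measurable_EE_q _ _ hf w4),
      lintegral_add_right _ (measurable_EE_q _ _ hf w3),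
      lintegral_add_right _ (measurable_EE_q _ _ hf w2),
      lintegral_add_right _ (measurable_EE_q _ _ hf w1)]
    refine (add_le_add (add_le_add (add_le_add (add_le_add (h δ hδ _ _ _ _ hH hn w0)
      (h δ hδ _ _ _ _ hH hn w1)) (h δ hδ _ _ _ _ hH hn w2)) (h δ hδ _ _ _ _ hH hn w3))
      (h δ hδ _ _ _ _ hH hn w4)).trans (le_of_eq ?_)
    ring
  have h2 : ∫⁻ z : ℂ, S (Real.exp (u x) • z) ≤ ENNReal.ofReal (M ^ 2) * ∫⁻ ξ, S ξ := by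
    rw [lintegral_scale (inv_pos.2 ht) (fun z => S (Real.exp (u x) • z))]
    simp only [smul_inv_smul₀ ht.ne']
    refine mul_le_mul_left (ENNReal.ofReal_le_ofReal ?_) _
    exact pow_le_pow_left₀ (inv_pos.2 ht).le
      (inv_le_of_inv_le₀ (by linarith) (hc.lo x)) 2
  have h3 : ∀ z ∈ Ann a η, wt δ a ‖z‖ ^ 2 * (gF δ u φ w (x, z) ^ 2 + qF δ u a φ w (x, z) ^ 2) ≤
      ENNReal.ofReal K * S (Real.exp (u x) • z) := by
    intro z hz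
    obtain ⟨g1, g2, g3, g4⟩ := geo_q hδ.1 hM hc.ha hc.ha' (hc.lo x) (hc.hi x) hη hz
    rw [← eρ] at g3 g4
    have hW : 0 ≤ 1 + |‖z‖ - a| / δ := by
      have := hδ.1
      positivity
    have hQ := norm_q (F1 := FT δ (sc δ φ x) (dd 1 (dd 1 w)) (Real.exp (u x) • z))
      (F2 := FT δ (sc δ φ x) (dd Complex.I (dd Complex.I w)) (Real.exp (u x) • z))
      (F3 := FT δ (sc δ φ x) (fun Y => cx (n2 δ (rho u a) x) Y * w Y) (Real.exp (u x) • z))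
      (F4 := FT δ (sc δ φ x) (lw (gr u x) w) (Real.exp (u x) • z)) hM g1 g2 g3
    rw [← QF_eq hδ.1 hu hφ hw hH (norm_pos_iff.1 g1)] at hQ
    have key := alg_q (F := ‖FT δ (sc δ φ x) w (Real.exp (u x) • z)‖) hW g4
      (norm_nonneg _) hQ
    rw [← hK] at key
    simp only [hS, EE_q, wt, gF, qF, enorm_sq_q]
    rw [← ENNReal.ofReal_pow hW, ← ENNReal.ofReal_add (by positivity) (by positivity),
      ← ENNReal.ofReal_mul (by positivity), ← ENNReal.ofReal_add (by positivity) (by positivity),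
      ← ENNReal.ofReal_add (by positivity) (by positivity),
      ← ENNReal.ofReal_add (by positivity) (by positivity),
      ← ENNReal.ofReal_add (by positivity) (by positivity), ← ENNReal.ofReal_mul hK0]
    exact ENNReal.ofReal_le_ofReal key
  have hA : MeasurableSet (Ann a η) := measurable_norm measurableSet_Ioo
  calc _ ≤ ∫⁻ z in Ann a η, ENNReal.ofReal K * S (Real.exp (u x) • z) := setLIntegral_mono' hA h3
    _ ≤ ∫⁻ z : ℂ, ENNReal.ofReal K * S (Real.exp (u x) • z) := setLIntegral_le_lintegral _ _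
    _ = ENNReal.ofReal K * ∫⁻ z : ℂ, S (Real.exp (u x) • z) :=
        lintegral_const_mul' _ _ ENNReal.ofReal_ne_top
    _ ≤ ENNReal.ofReal K * (ENNReal.ofReal (M ^ 2) * (5 * C * m2 (sc δ φ x))) := by
        gcongr
        exact h2.trans (by gcongr)
    _ = _ := by ring

end Pool.Agent.Lib.MP_a52643_an.H60
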