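import Pool.Agent.Lib.MP_a52643_an.H60Tr
import Pool.Agent.Lib.MP_a52643_an.H60Green

open MeasureTheory Set Filter Topology Metric
open scoped ENNReal NNReal ContDiff Laplacian FourierTransform Real

noncomputable section

namespace Pool.Agent.Lib.MP_a52643_an.H60

theorem QF_eq {k : ℕ} {M δ a : ℝ} {w : ℂ → ℂ} {u φ : ℂ → ℝ} {x ξ : ℂ} (hδ : 0 < δ)
    (hu : ContDiff ℝ ∞ u) (hφ : ContDiff ℝ ∞ φ) (hw : Adm k M w)
    (h : Hel δ (rho u a x) (n1 δ (rho u a) x) (sc δ φ x)) (hξ : ξ ≠ 0) :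
    QF δ u a φ w x ξ = Complex.I / (‖ξ‖ : ℝ) *
      ((FT δ (sc δ φ x) (dd 1 (dd 1 w)) ξ +
          FT δ (sc δ φ x) (dd Complex.I (dd Complex.I w)) ξ) / (4 * π)
        + π * FT δ (sc δ φ x) (fun Y => cx (n2 δ (rho u a) x) Y * w Y) ξ
        - 2 * π * (((‖ξ‖ ^ 2 - rho u a x) / δ : ℝ) : ℂ) *
          FT δ (sc δ φ x) (lw (gr u x) w) ξ) := by
  have hN : 0 < ‖ξ‖ := norm_pos_iff.mpr hξ
  have hf : ContDiff ℝ ∞ (sc δ φ x) := contDiff_sc hφ δ x
  have hwc : Continuous w := hw.sm.continuous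
  have e1 : (fun Y => fderiv ℝ φ (x + δ • Y) (‖ξ‖⁻¹ • ξ)) =
      fun Y => fderiv ℝ (sc δ φ x) Y ((δ⁻¹ * ‖ξ‖⁻¹) • ξ) := by
    funext Y
    have a1 : HasFDerivAt (fun Y : ℂ => x + δ • Y) (δ • ContinuousLinearMap.id ℝ ℂ) Y :=
      ((hasFDerivAt_id Y).const_smul δ).const_add x
    have a2 := ((hφ.differentiable (by simp) (x + δ • Y)).hasFDerivAt.comp Y a1).fderiv
    have a3 : sc δ φ x = φ ∘ fun Y : ℂ => x + δ • Y := rfl
    rw [a3, a2, ContinuousLinearMap.comp_apply]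
    congr 1
    change _ = δ • (δ⁻¹ * ‖ξ‖⁻¹) • ξ
    rw [smul_smul, ← mul_assoc, mul_inv_cancel₀ hδ.ne', one_mul]
  have e2 : dd ((δ⁻¹ * ‖ξ‖⁻¹) • ξ) w = fun Y => ((δ⁻¹ * ‖ξ‖⁻¹ : ℝ) : ℂ) * dd ξ w Y := by
    funext Y
    unfold dd
    rw [map_smul, Complex.real_smul]
  have e3 : inner ℝ ((δ⁻¹ * ‖ξ‖⁻¹) • ξ) ξ = ‖ξ‖ / δ := by
    rw [real_inner_smul_left, real_inner_self_eq_norm_sq]
    field_simp
  have e4 : lw (‖ξ‖ • gr u x) w = fun Y => ((‖ξ‖ : ℝ) : ℂ) * lw (gr u x) w Y := by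
    funext Y
    simp only [lw, real_inner_smul_right, Complex.ofReal_mul, mul_assoc]
  have e5 : (fun Y => cx (n1 δ (rho u a) x) Y * w Y) = fun Y =>
      ((2 * rho u a x : ℝ) : ℂ) * lw (gr u x) w Y +
        (δ : ℂ) * (cx (n2 δ (rho u a) x) Y * w Y) := by
    funext Y
    have a1 : n1 δ (rho u a) x Y =
        2 * rho u a x * inner ℝ Y (gr u x) + δ * n2 δ (rho u a) x Y := by
      rw [inner_gr, ← fderiv_rho hu]
      unfold n1 n2
      field_simp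
      ring
    simp only [cx, lw, a1]
    push_cast
    ring
  have c1 : Continuous fun Y => ((2 * rho u a x : ℝ) : ℂ) * lw (gr u x) w Y := by
    unfold lw
    exact continuous_const.mul
      ((Complex.continuous_ofReal.comp (continuous_id.inner continuous_const)).mul hwc)
  have s1 : HasCompactSupport fun Y => ((2 * rho u a x : ℝ) : ℂ) * lw (gr u x) w Y := by
    refine HasCompactSupport.intro (isCompact_closedBall (0 : ℂ) 1) fun Y hY => ?_
    have a1 : w Y = 0 := hw.zero fun h => hY (ball_subset_closedBall h)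
    simp [lw, a1]
  have c2 : Continuous fun Y => (δ : ℂ) * (cx (n2 δ (rho u a) x) Y * w Y) :=
    continuous_const.mul
      ((contDiff_cx (contDiff_n2 (contDiff_rho hu a) δ x)).continuous.mul hwc)
  have s2 : HasCompactSupport fun Y => (δ : ℂ) * (cx (n2 δ (rho u a) x) Y * w Y) := by
    refine HasCompactSupport.intro (isCompact_closedBall (0 : ℂ) 1) fun Y hY => ?_
    have a1 : w Y = 0 := hw.zero fun h => hY (ball_subset_closedBall h)
    simp [a1]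
  have hg := green hδ h hw ξ
  rw [e5, FT_add hf.continuous c1 s1 c2 s2, FT_const_mul, FT_const_mul] at hg
  unfold QF DF cF
  rw [e1, FT_fderiv hδ hf hw, e2, e3, e4, FT_const_mul, FT_const_mul]
  have hδ' : (δ : ℂ) ≠ 0 := by exact_mod_cast hδ.ne'
  have hN' : ((‖ξ‖ : ℝ) : ℂ) ≠ 0 := by exact_mod_cast hN.ne'
  have hπ : (π : ℂ) ≠ 0 := by exact_mod_cast Real.pi_ne_zero
  push_cast at hg ⊢
  generalize FT δ (sc δ φ x) w ξ = F at hg ⊢
  generalize FT δ (sc δ φ x) (dd ξ w) ξ = Fx at hg ⊢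
  generalize FT δ (sc δ φ x) (lw (gr u x) w) ξ = Lg at hg ⊢
  generalize FT δ (sc δ φ x) (fun Y => cx (n2 δ (rho u a) x) Y * w Y) ξ = N2 at hg ⊢
  generalize FT δ (sc δ φ x) (dd 1 (dd 1 w)) ξ +
    FT δ (sc δ φ x) (dd Complex.I (dd Complex.I w)) ξ = S at hg ⊢
  field_simp
  linear_combination Complex.I * hg + (-(4 * π * δ * Fx)) * Complex.I_sq

end Pool.Agent.Lib.MP_a52643_an.H60
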