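import Pool.Agent.Lib.MP_a52643_an.H60Q
import Pool.Agent.Lib.MP_a52643_an.H60FT

open MeasureTheory Set Filter Topology Metric
open scoped ENNReal NNReal ContDiff Laplacian FourierTransform Real

noncomputable section

namespace Pool.Agent.Lib.MP_a52643_an.H60

theorem scale_le_tail {M t : ℝ} (hM : 1 ≤ M) (ht : M⁻¹ ≤ t) (g : ℂ → ℝ≥0∞) :
    ∫⁻ z : ℂ, g (t • z) ≤ ENNReal.ofReal (M ^ 2) * ∫⁻ z, g z := by
  have hM0 : 0 < M := by linarith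
  have ht0 : 0 < t := (inv_pos.2 hM0).trans_le ht
  have h1 : 1 ≤ M * t := by rwa [inv_le_iff_one_le_mul₀' hM0] at ht
  rw [lintegral_scale ht0 g, ← mul_assoc, ← ENNReal.ofReal_mul (by positivity), ← mul_pow]
  exact le_mul_of_one_le_left zero_le (ENNReal.one_le_ofReal.2 (one_le_pow₀ h1))

theorem mu_ge_tail {M t a η δ : ℝ} (hM : 1 ≤ M) (ht : M⁻¹ ≤ t) (ht' : t ≤ M) (ha : M⁻¹ ≤ a)
    (hδ : 0 < δ) (hη : 0 < η) {z : ℂ} (hz : z ∉ Ann a η) :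
    1 ≤ δ / η * M ^ 3 * mu δ (a ^ 2 * t ^ 2) (t • z) := by
  have hM0 : 0 < M := by linarith
  have ht0 : 0 < t := (inv_pos.2 hM0).trans_le ht
  have ha0 : 0 < a := (inv_pos.2 hM0).trans_le ha
  have h1 : 1 ≤ M * t := by rwa [inv_le_iff_one_le_mul₀' hM0] at ht
  have h2 : 1 ≤ M * a := by rwa [inv_le_iff_one_le_mul₀' hM0] at ha
  have hr := norm_nonneg z
  have h3 : η ≤ |‖z‖ - a| := by
    by_contra h
    obtain ⟨k1, k2⟩ := abs_lt.1 (not_le.1 h)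
    exact hz ⟨by linarith, by linarith⟩
  have e : (t * ‖z‖) ^ 2 - a ^ 2 * t ^ 2 = t ^ 2 * (‖z‖ + a) * (‖z‖ - a) := by ring
  rw [mu, norm_smul, Real.norm_eq_abs, abs_of_pos ht0, e, abs_mul,
    abs_of_pos (by positivity : 0 < t ^ 2 * (‖z‖ + a)), ← mul_div_assoc,
    le_div_iff₀ (by positivity), one_mul]
  have h4 : 1 + t * ‖z‖ ≤ M * (‖z‖ + a) := by nlinarith
  have h5 : 1 ≤ |‖z‖ - a| / η := (one_le_div hη).2 h3
  have h6 : 1 ≤ (M * t) ^ 2 := one_le_pow₀ h1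
  calc δ * (1 + t * ‖z‖) ≤ δ * (M * (‖z‖ + a)) * 1 * 1 := by
        rw [mul_one, mul_one]
        exact mul_le_mul_of_nonneg_left h4 hδ.le
    _ ≤ δ * (M * (‖z‖ + a)) * (M * t) ^ 2 * (|‖z‖ - a| / η) := by gcongr
    _ = _ := by
        field_simp

/-- Bounds at one point. -/
theorem pt_le (M B : ℝ) : ∃ C : ℝ≥0∞, C ≠ ⊤ ∧ ∀ δ ∈ Ioc (0 : ℝ) 1, ∀ (a η : ℝ) (u φ : ℂ → ℝ)
    (w : ℂ → ℂ) (x : ℂ), ContDiff ℝ ∞ u → ContDiff ℝ ∞ φ → Coef 8 M u a → Adm 8 B w →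
    Hel δ (rho u a x) (n1 δ (rho u a) x) (sc δ φ x) → 0 < η →
    (∫⁻ z, gF δ u φ w (x, z) ^ 2 ≤ C * m2 (sc δ φ x)) ∧
    ((∫⁻ z, gF δ u φ w (x, z)) ^ 2 ≤ C * ENNReal.ofReal δ * m2 (sc δ φ x)) ∧
    (∫⁻ z, (Ann a η)ᶜ.indicator (fun z => gF δ u φ w (x, z)) z ^ 2
      ≤ C * ENNReal.ofReal ((δ / η) ^ 8) * m2 (sc δ φ x)) ∧
    ‖(φ x : ℂ) * w 0‖ₑ ^ 2 ≤ C * ENNReal.ofReal δ⁻¹ * m2 (sc δ φ x) := by
  obtain ⟨C1, hC1, h1⟩ := l1 (M ^ 4)
  obtain ⟨C2, hC2, h2⟩ := el 4 M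
  set c1 := ENNReal.ofReal (M ^ 2) * ENNReal.ofReal (B ^ 2) with hc1
  set c2 := ENNReal.ofReal (M ^ 2) ^ 2 * ENNReal.ofReal (C1 * B ^ 2) with hc2
  set c3 := ENNReal.ofReal ((M ^ 3) ^ 8) *
    (ENNReal.ofReal (M ^ 2) * ENNReal.ofReal (C2 * B ^ 2)) with hc3
  set c4 := ENNReal.ofReal (C1 * B ^ 2) with hc4
  refine ⟨c1 + c2 + c3 + c4, ?_, ?_⟩
  · simp only [hc1, hc2, hc3, hc4]
    finiteness
  intro δ hδ a η u φ w x _ hφ hc hw hH hη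
  have hM := hc.one
  have hM0 : 0 < M := by linarith
  have ha0 : 0 < a := (inv_pos.2 hM0).trans_le hc.ha
  have ht0 := Real.exp_pos (u x)
  have hf := contDiff_sc hφ δ x
  have er : rho u a x = a ^ 2 * Real.exp (u x) ^ 2 := by
    rw [rho, ← Real.exp_nat_mul]
    norm_num
  have hM4 : M ≤ M ^ 4 := le_self_pow₀ hM (by norm_num)
  have k1 := h1 δ hδ (rho u a x) B _ _ w
    (by
      rw [er]
      calc (M ^ 4)⁻¹ = M⁻¹ ^ 2 * M⁻¹ ^ 2 := by ring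
        _ ≤ a ^ 2 * Real.exp (u x) ^ 2 := by
          have := hc.ha
          have := hc.lo x
          gcongr)
    (by
      rw [er]
      calc a ^ 2 * Real.exp (u x) ^ 2 ≤ M ^ 2 * M ^ 2 := by
            have := hc.ha'
            have := hc.hi x
            gcongr
        _ = M ^ 4 := by ring)
    (by positivity) hH ((hc.b1 δ hδ x).mono (by norm_num) hM4) (hw.mono (by norm_num) le_rfl)
  rw [ENNReal.ofReal_mul (by positivity)] at k1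
  have k2 := h2 δ hδ (rho u a x) B _ _ w hH (hc.b1 δ hδ x) hw
  refine ⟨?_, ?_, ?_, ?_⟩
  · refine (scale_le_tail hM (hc.lo x) fun ξ => ‖FT δ (sc δ φ x) w ξ‖ₑ ^ 2).trans ?_
    refine (mul_le_mul_right (planch hδ.1 hf hw) _).trans ?_
    rw [← mul_assoc]
    refine mul_le_mul_left ?_ _
    exact le_self_add.trans (le_self_add.trans le_self_add)
  · refine (pow_le_pow_left' (scale_le_tail hM (hc.lo x) fun ξ => ‖FT δ (sc δ φ x) w ξ‖ₑ) 2).trans ?_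
    rw [mul_pow]
    refine (mul_le_mul_right k1 _).trans ?_
    rw [← mul_assoc, ← mul_assoc]
    refine mul_le_mul_left (mul_le_mul_left ?_ _) _
    exact le_add_self.trans (le_self_add.trans le_self_add)
  · have hp : ∀ z : ℂ, (Ann a η)ᶜ.indicator (fun z => gF δ u φ w (x, z)) z ^ 2 ≤
        ENNReal.ofReal ((δ / η) ^ 8) * ENNReal.ofReal ((M ^ 3) ^ 8) *
        (ENNReal.ofReal (mu δ (rho u a x) (Real.exp (u x) • z) ^ (2 * 4)) *
          ‖FT δ (sc δ φ x) w (Real.exp (u x) • z)‖ₑ ^ 2) := fun z => by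
      by_cases hz : z ∈ (Ann a η)ᶜ
      · rw [indicator_of_mem hz, ← mul_assoc, ← ENNReal.ofReal_mul (by positivity),
          ← ENNReal.ofReal_mul (by positivity), ← mul_pow, ← mul_pow, er]
        exact le_mul_of_one_le_left zero_le (ENNReal.one_le_ofReal.2 (one_le_pow₀
          (mu_ge_tail hM (hc.lo x) (hc.hi x) hc.ha hδ.1 hη hz)))
      · rw [indicator_of_notMem hz]
        simp
    refine (lintegral_mono hp).trans ?_
    rw [lintegral_const_mul' _ _ (by finiteness)]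
    refine (mul_le_mul_right ((scale_le_tail hM (hc.lo x) fun ξ =>
      ENNReal.ofReal (mu δ (rho u a x) ξ ^ (2 * 4)) * ‖FT δ (sc δ φ x) w ξ‖ₑ ^ 2).trans
      (mul_le_mul_right k2 _)) _).trans ?_
    calc _ = c3 * ENNReal.ofReal ((δ / η) ^ 8) * m2 (sc δ φ x) := by
          rw [hc3]
          ring
      _ ≤ _ := mul_le_mul_left (mul_le_mul_left (le_add_self.trans le_self_add) _) _
  · have k3 := inv_le hδ.1 hf hw
    have e0 : sc δ φ x 0 = φ x := by simp [sc]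
    rw [e0] at k3
    refine (pow_le_pow_left' k3 2).trans ?_
    rw [mul_pow]
    refine (mul_le_mul_right k1 _).trans ?_
    have e1 : ENNReal.ofReal δ⁻¹ * ENNReal.ofReal δ = 1 := by
      rw [← ENNReal.ofReal_mul (inv_pos.2 hδ.1).le, inv_mul_cancel₀ hδ.1.ne', ENNReal.ofReal_one]
    calc _ = c4 * ENNReal.ofReal δ⁻¹ * m2 (sc δ φ x) * (ENNReal.ofReal δ⁻¹ * ENNReal.ofReal δ) := by
          ring
      _ ≤ _ := by
          rw [e1, mul_one]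
          exact mul_le_mul_left (mul_le_mul_left le_add_self _) _

/-- The three tails at one point. -/
def TL (a : R3) (η : ℝ) (g1 g2 g3 : ℂ → ℝ≥0∞) : ℝ≥0∞ :=
  T3 univ ((Ann a.1 η)ᶜ.indicator g1) g2 g3 + T3 univ g1 ((Ann a.2.1 η)ᶜ.indicator g2) g3 +
    T3 univ g1 g2 ((Ann a.2.2 η)ᶜ.indicator g3)

theorem three_tail {x y z m : ℝ≥0∞} (hx : x ^ 2 ≤ m) (hy : y ^ 2 ≤ m) (hz : z ^ 2 ≤ m) :
    (x + y + z) ^ 2 ≤ 9 * m := by
  obtain ⟨s, h1, h2, h3, h4⟩ : ∃ s, x ≤ s ∧ y ≤ s ∧ z ≤ s ∧ s ^ 2 ≤ m := by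
    refine ⟨max x (max y z), le_max_left _ _, (le_max_left _ _).trans (le_max_right _ _),
      (le_max_right _ _).trans (le_max_right _ _), ?_⟩
    rcases max_choice x (max y z) with h | h
    · rwa [h]
    · rcases max_choice y z with h' | h'
      · rwa [h, h']
      · rwa [h, h']
  calc (x + y + z) ^ 2 ≤ (s + s + s) ^ 2 := by gcongr
    _ = 9 * s ^ 2 := by ring
    _ ≤ 9 * m := by gcongr

theorem TL_le {a : R3} {η : ℝ} {g1 g2 g3 : ℂ → ℝ≥0∞} (h1 : Measurable g1) (h2 : Measurable g2)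
    (h3 : Measurable g3) {A D E m1 m2 m3 : ℝ≥0∞}
    (a1 : ∫⁻ z, g1 z ^ 2 ≤ A * m1) (a2 : ∫⁻ z, g2 z ^ 2 ≤ A * m2)
    (d1 : (∫⁻ z, g1 z) ^ 2 ≤ D * m1) (d3 : (∫⁻ z, g3 z) ^ 2 ≤ D * m3)
    (e1 : ∫⁻ z, (Ann a.1 η)ᶜ.indicator g1 z ^ 2 ≤ E * m1)
    (e2 : ∫⁻ z, (Ann a.2.1 η)ᶜ.indicator g2 z ^ 2 ≤ E * m2)
    (e3 : ∫⁻ z, (Ann a.2.2 η)ᶜ.indicator g3 z ^ 2 ≤ E * m3) :
    TL a η g1 g2 g3 ^ 2 ≤ 9 * (A * D * E) * (m1 * m2 * m3) := by
  have hA : ∀ c : ℝ, MeasurableSet (Ann c η)ᶜ := fun c => (measurableSet_Ann c η).compl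
  rw [mul_assoc]
  refine three_tail ?_ ?_ ?_
  · refine (young3 (h1.indicator (hA _)) h2 h3).trans ?_
    calc _ ≤ E * m1 * (A * m2) * (D * m3) := by gcongr
      _ = _ := by ring
  · refine (young3 h1 (h2.indicator (hA _)) h3).trans ?_
    calc _ ≤ A * m1 * (E * m2) * (D * m3) := by gcongr
      _ = _ := by ring
  · refine (young1 h1 h2 (h3.indicator (hA _))).trans ?_
    calc _ ≤ D * m1 * (A * m2) * (E * m3) := by gcongr
      _ = _ := by ring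

/-- Integration of a pointwise geometric mean bound. -/
theorem lintegral_sq_le {s : Set ℂ} (hs : MeasurableSet s) {T m1 m2 : ℂ → ℝ≥0∞}
    (h1 : Measurable m1) (h2 : Measurable m2) {A : ℝ≥0∞}
    (h : ∀ x ∈ s, T x ^ 2 ≤ A * (m1 x * m2 x)) :
    (∫⁻ x in s, T x) ^ 2 ≤ A * ((∫⁻ x in s, m1 x) * ∫⁻ x in s, m2 x) := by
  have e1 : ∀ y : ℝ≥0∞, (y ^ (1 / 2 : ℝ)) ^ (2 : ℝ) = y := fun y => by
    rw [← ENNReal.rpow_mul]
    norm_num
  have e2 : ∀ y : ℝ≥0∞, (y ^ (1 / 2 : ℝ)) ^ 2 = y := fun y => by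
    rw [← ENNReal.rpow_natCast]
    exact e1 y
  have k1 : ∀ x ∈ s, T x ≤ A ^ (1 / 2 : ℝ) * (m1 x ^ (1 / 2 : ℝ) * m2 x ^ (1 / 2 : ℝ)) := by
    intro x hx
    refine (ENNReal.pow_le_pow_left_iff two_ne_zero).1 ?_
    rw [mul_pow, mul_pow, e2, e2, e2]
    exact h x hx
  have k2 := ENNReal.lintegral_mul_le_Lp_mul_Lq (volume.restrict s) Real.HolderConjugate.two_two
    (f := fun x => m1 x ^ (1 / 2 : ℝ)) (g := fun x => m2 x ^ (1 / 2 : ℝ))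
    (by fun_prop) (by fun_prop)
  simp only [e1, Pi.mul_apply] at k2
  refine (pow_le_pow_left' (setLIntegral_mono' hs k1) 2).trans ?_
  rw [lintegral_const_mul _ (by fun_prop)]
  refine (pow_le_pow_left' (mul_le_mul_right k2 _) 2).trans ?_
  rw [mul_pow, mul_pow, e2, e2, e2]

end Pool.Agent.Lib.MP_a52643_an.H60
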