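import Pool.Agent.Lib.MP_a52643_an.H60FT0
import Pool.Agent.Lib.MP_a52643_an.H60Coef

open MeasureTheory Set Filter Topology Metric
open scoped ENNReal NNReal ContDiff Laplacian FourierTransform Real

noncomputable section

namespace Pool.Agent.Lib.MP_a52643_an.H60

variable {k : ℕ} {M δ a : ℝ} {w : ℂ → ℂ} {u φ : ℂ → ℝ}

/-- Differentiation under the integral sign for integrands carried by the unit ball. -/
theorem hasDerivAt_int_tr {G : (ℂ × ℂ) × ℂ → ℂ} (hG : ContDiff ℝ 1 G)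
    (h0 : ∀ p, ∀ Y ∉ ball (0 : ℂ) 1, G (p, Y) = 0) {γ : ℝ → ℂ × ℂ} {γ' : ℂ × ℂ} {t : ℝ}
    (hγ : HasDerivAt γ γ' t) {g : ℂ → ℂ}
    (hg : ∀ Y, HasDerivAt (fun s => G (γ s, Y)) (g Y) t) :
    HasDerivAt (fun s => ∫ Y, G (γ s, Y)) (∫ Y, g Y) t := by
  have hD : Continuous (fderiv ℝ G) := hG.continuous_fderiv one_ne_zero
  set F' : ℂ × ℂ → ℂ → (ℂ × ℂ →L[ℝ] ℂ) := fun p Y =>
    (fderiv ℝ G (p, Y)).comp (ContinuousLinearMap.inl ℝ (ℂ × ℂ) ℂ) with hF'
  have hF'c : Continuous fun q : (ℂ × ℂ) × ℂ => F' q.1 q.2 := hD.clm_comp continuous_const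
  have hdiff : ∀ p Y, HasFDerivAt (fun p => G (p, Y)) (F' p Y) p := fun p Y =>
    (hG.differentiable one_ne_zero (p, Y)).hasFDerivAt.comp p (hasFDerivAt_prodMk_left p Y)
  have hK : IsCompact (closedBall (0 : ℂ) 1) := isCompact_closedBall _ _
  obtain ⟨C, hC⟩ := ((isCompact_closedBall (γ t) 1).prod hK).exists_bound_of_continuousOn
    hF'c.continuousOn
  have hc1 : ∀ p, Continuous fun Y => G (p, Y) := fun p =>
    hG.continuous.comp (continuous_const.prodMk continuous_id)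
  have hc2 : Continuous (F' (γ t)) := hF'c.comp (continuous_const.prodMk continuous_id)
  have h1 := hasFDerivAt_integral_of_dominated_of_fderiv_le
    (μ := volume.restrict (closedBall (0 : ℂ) 1)) (F := fun p Y => G (p, Y)) (F' := F')
    (bound := fun _ => C) (closedBall_mem_nhds (γ t) one_pos)
    (Eventually.of_forall fun p => (hc1 p).aestronglyMeasurable)
    ((hc1 _).continuousOn.integrableOn_compact hK) hc2.aestronglyMeasurable
    ((ae_restrict_mem measurableSet_closedBall).mono fun Y hY p hp => hC (p, Y) ⟨hp, hY⟩)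
    (continuousOn_const.integrableOn_compact hK)
    (Eventually.of_forall fun Y p _ => hdiff p Y)
  have h2 := h1.comp_hasDerivAt t hγ
  have h3 : ∀ Y, F' (γ t) Y γ' = g Y := fun Y =>
    ((hdiff (γ t) Y).comp_hasDerivAt t hγ).unique (hg Y)
  rw [ContinuousLinearMap.integral_apply (hc2.continuousOn.integrableOn_compact hK)] at h2
  simp only [h3] at h2
  have h4 : ∀ Y ∉ closedBall (0 : ℂ) 1, g Y = 0 := by
    intro Y hY
    have h5 := hg Y
    simp only [h0 _ Y fun h => hY (ball_subset_closedBall h)] at h5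
    exact h5.unique (hasDerivAt_const t 0)
  rw [setIntegral_eq_integral_of_forall_compl_eq_zero h4] at h2
  refine h2.congr_of_eventuallyEq (Eventually.of_forall fun s => ?_)
  exact (setIntegral_eq_integral_of_forall_compl_eq_zero fun Y hY =>
    h0 _ Y fun h => hY (ball_subset_closedBall h)).symm

theorem hasDerivAt_FT (hδ : 0 < δ) (hφ : ContDiff ℝ ∞ φ) (hw : Adm k M w) {x ξ : ℝ → ℂ}
    {xd ξd : ℂ} {t : ℝ} (hx : HasDerivAt x xd t) (hξ : HasDerivAt ξ ξd t) :
    HasDerivAt (fun s => FT δ (sc δ φ (x s)) w (ξ s)) (DF δ φ w (x t) (ξ t) xd ξd) t := by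
  have hφ1 : ContDiff ℝ 1 φ := hφ.of_le (by norm_cast)
  have hw1 : ContDiff ℝ 1 w := hw.sm.of_le (by norm_cast)
  have hof : ContDiff ℝ 1 fun r : ℝ => (r : ℂ) := Complex.ofRealCLM.contDiff
  have hin : ContDiff ℝ 1 fun q : (ℂ × ℂ) × ℂ => (inner ℝ q.2 q.1.2 : ℝ) :=
    contDiff_snd.inner ℝ (contDiff_snd.comp contDiff_fst)
  have hE : ContDiff ℝ 1 fun q : (ℂ × ℂ) × ℂ =>
      Complex.exp (((-2 * π * (δ⁻¹ * inner ℝ q.2 q.1.2) : ℝ) : ℂ) * Complex.I) :=
    ((hof.comp (contDiff_const.mul (contDiff_const.mul hin))).mul contDiff_const).cexp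
  have hG : ContDiff ℝ 1 fun q : (ℂ × ℂ) × ℂ =>
      Complex.exp (((-2 * π * (δ⁻¹ * inner ℝ q.2 q.1.2) : ℝ) : ℂ) * Complex.I) *
        ((φ (q.1.1 + δ • q.2) : ℂ) * w q.2) :=
    hE.mul ((hof.comp (hφ1.comp (by fun_prop))).mul (hw1.comp contDiff_snd))
  have hEc : Continuous fun Y : ℂ =>
      Complex.exp (((-2 * π * (δ⁻¹ * inner ℝ Y (ξ t)) : ℝ) : ℂ) * Complex.I) := by fun_prop
  have hDφ : Continuous (fderiv ℝ φ) := hφ1.continuous_fderiv one_ne_zero
  have hφc := hφ.continuous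
  have hwc := hw.sm.continuous
  have hi1 : Integrable fun Y : ℂ =>
      Complex.exp (((-2 * π * (δ⁻¹ * inner ℝ Y (ξ t)) : ℝ) : ℂ) * Complex.I) *
        ((fderiv ℝ φ (x t + δ • Y) xd : ℂ) * w Y) :=
    Continuous.integrable_of_hasCompactSupport (by fun_prop) hw.hcs.mul_left.mul_left
  have hi2 : Integrable fun Y : ℂ =>
      Complex.exp (((-2 * π * (δ⁻¹ * inner ℝ Y (ξ t)) : ℝ) : ℂ) * Complex.I) *
        ((φ (x t + δ • Y) : ℂ) * (((inner ℝ Y ξd : ℝ) : ℂ) * w Y)) :=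
    Continuous.integrable_of_hasCompactSupport (by fun_prop) hw.hcs.mul_left.mul_left.mul_left
  have h1 := hasDerivAt_int_tr hG (fun p Y hY => by simp [hw.zero hY]) (hx.prodMk hξ)
    (g := fun Y => Complex.exp (((-2 * π * (δ⁻¹ * inner ℝ Y (ξ t)) : ℝ) : ℂ) * Complex.I) *
        ((fderiv ℝ φ (x t + δ • Y) xd : ℂ) * w Y) - 2 * π * Complex.I / δ *
      (Complex.exp (((-2 * π * (δ⁻¹ * inner ℝ Y (ξ t)) : ℝ) : ℂ) * Complex.I) *
        ((φ (x t + δ • Y) : ℂ) * (((inner ℝ Y ξd : ℝ) : ℂ) * w Y)))) (fun Y => by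
      have k1 : HasDerivAt (fun s => (inner ℝ Y (ξ s) : ℝ)) (inner ℝ Y ξd) t :=
        (innerSL ℝ Y).hasFDerivAt.comp_hasDerivAt t hξ
      have k2 := ((((k1.const_mul δ⁻¹).const_mul (-2 * π)).ofReal_comp).mul_const
        Complex.I).cexp
      have k3 := (((hφ1.differentiable one_ne_zero (x t + δ • Y)).hasFDerivAt.comp_hasDerivAt t
        (hx.add_const (δ • Y))).ofReal_comp).mul_const (w Y)
      refine (k2.mul k3).congr_deriv ?_
      simp only [Function.comp_apply]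
      push_cast
      ring)
  rw [integral_sub hi1 (hi2.const_mul _), integral_const_mul] at h1
  have h2 := h1.const_mul ((δ⁻¹ : ℝ) : ℂ)
  simp only [FT_eq, DF, sc, lw]
  refine h2.congr_deriv ?_
  ring

theorem continuous_FT_sc (hφ : ContDiff ℝ ∞ φ) (hw : Adm k M w) :
    Continuous fun p : ℂ × ℂ => FT δ (sc δ φ p.1) w p.2 := by
  have hφc := hφ.continuous
  refine continuous_FT_param (F := fun p : ℂ × ℂ => sc δ φ p.1) (W := fun _ => w) ?_
    (hw.sm.continuous.comp continuous_snd) (fun _ Y hY => hw.zero hY) continuous_snd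
  unfold sc
  fun_prop

theorem continuous_DF (hφ : ContDiff ℝ ∞ φ) (hw : Adm k M w) :
    Continuous fun p : (ℂ × ℂ) × ℂ × ℂ => DF δ φ w p.1.1 p.1.2 p.2.1 p.2.2 := by
  have hφc := hφ.continuous
  have hwc := hw.sm.continuous
  have hDφ : Continuous (fderiv ℝ φ) := hφ.continuous_fderiv (by simp)
  have h1 : Continuous fun p : (ℂ × ℂ) × ℂ × ℂ =>
      FT δ (fun Y => fderiv ℝ φ (p.1.1 + δ • Y) p.2.1) w p.1.2 :=
    continuous_FT_param (F := fun (p : (ℂ × ℂ) × ℂ × ℂ) Y => fderiv ℝ φ (p.1.1 + δ • Y) p.2.1)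
      (W := fun _ => w) (by fun_prop) (hwc.comp continuous_snd) (fun _ Y hY => hw.zero hY)
      (by fun_prop)
  have h2 : Continuous fun p : (ℂ × ℂ) × ℂ × ℂ => FT δ (sc δ φ p.1.1) (lw p.2.2 w) p.1.2 := by
    refine continuous_FT_param (F := fun p : (ℂ × ℂ) × ℂ × ℂ => sc δ φ p.1.1)
      (W := fun p => lw p.2.2 w) ?_ ?_ (fun _ Y hY => by simp [lw, hw.zero hY]) (by fun_prop)
    · unfold sc
      fun_prop
    · unfold lw
      fun_prop
  exact h1.sub (continuous_const.mul h2)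

theorem measurable_gF (hu : ContDiff ℝ ∞ u) (hφ : ContDiff ℝ ∞ φ) (hw : Adm k M w) :
    Measurable (gF δ u φ w) := by
  have huc := hu.continuous
  have h1 : Continuous fun p : ℂ × ℂ => (p.1, Real.exp (u p.1) • p.2) := by fun_prop
  exact ((continuous_FT_sc (δ := δ) hφ hw).comp h1).measurable.enorm

theorem measurable_qF (hu : ContDiff ℝ ∞ u) (hφ : ContDiff ℝ ∞ φ) (hw : Adm k M w) :
    Measurable (qF δ u a φ w) := by
  have huc := hu.continuous
  have hg := (continuous_gr hu).measurable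
  have hr := (contDiff_rho hu a).continuous.measurable
  have h0 : Measurable fun p : ℂ × ℂ => Real.exp (u p.1) • p.2 :=
    Continuous.measurable (by fun_prop)
  have h1 : Measurable fun p : ℂ × ℂ => (p.1, Real.exp (u p.1) • p.2) := measurable_fst.prodMk h0
  have h2 : Measurable fun p : ℂ × ℂ => ((p.1, Real.exp (u p.1) • p.2),
      (‖Real.exp (u p.1) • p.2‖⁻¹ • Real.exp (u p.1) • p.2,
        ‖Real.exp (u p.1) • p.2‖ • gr u p.1)) :=
    h1.prodMk ((h0.norm.inv.smul h0).prodMk (h0.norm.smul (hg.comp measurable_fst)))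
  have h3 := (continuous_DF (δ := δ) hφ hw).measurable.comp h2
  have h4 := (continuous_FT_sc (δ := δ) hφ hw).measurable.comp h1
  have h5 : Measurable fun p : ℂ × ℂ => cF δ (rho u a p.1) (Real.exp (u p.1) • p.2) := by
    have h6 := h0.norm
    have h7 : Measurable fun p : ℂ × ℂ => rho u a p.1 := hr.comp measurable_fst
    unfold cF
    exact ((h6.const_mul _).div_const _).sub
      ((((h6.pow_const 2).sub h7).const_mul _).div (h6.const_mul _))
  exact (h3.sub ((measurable_const.mul (Complex.measurable_ofReal.comp h5)).mul h4)).enorm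

end Pool.Agent.Lib.MP_a52643_an.H60
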