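import Pool.Agent.Lib.MP_a52643_an.H6COde

open MeasureTheory Set Filter Topology Metric UpperHalfPlane
open scoped ENNReal NNReal ContDiff Laplacian MatrixGroups Real

noncomputable section

namespace Pool.Agent.Lib.MP_a52643_an.H6C

variable {A t c : ℝ} {P R Q : ℝ → ℝ}

theorem anti_adi {f f' : ℝ → ℝ} {a b : ℝ} (hab : a ≤ b)
    (hd : ∀ x ∈ Icc a b, HasDerivAt f (f' x) x) (hn : ∀ x ∈ Icc a b, f' x ≤ 0) : f b ≤ f a :=
  antitoneOn_of_deriv_nonpos (convex_Icc a b)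
    (fun x hx => (hd x hx).continuousAt.continuousWithinAt)
    (fun x hx => (hd x (interior_subset hx)).differentiableAt.differentiableWithinAt)
    (fun x hx => by rw [(hd x (interior_subset hx)).deriv]; exact hn x (interior_subset hx))
    (left_mem_Icc.2 hab) (right_mem_Icc.2 hab) hab

theorem hasDerivAt_p_adi (c v : ℝ) :
    HasDerivAt (fun v => c ^ 2 * Real.exp (2 * v)) (2 * (c ^ 2 * Real.exp (2 * v))) v := by
  have h1 : HasDerivAt (fun v : ℝ => 2 * v) 2 v := by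
    simpa using (hasDerivAt_id v).const_mul (2 : ℝ)
  have h2 := (h1.exp).const_mul (c ^ 2)
  refine HasDerivAt.congr_deriv h2 ?_
  ring

theorem hasDerivAt_s_adi (t c v : ℝ) (hq : 0 < qq t c v) :
    HasDerivAt (fun v => √(qq t c v)) (-(c ^ 2 * Real.exp (2 * v)) / √(qq t c v)) v := by
  have h1 : HasDerivAt (qq t c) (-(2 * (c ^ 2 * Real.exp (2 * v)))) v := by
    have := (hasDerivAt_p_adi c v).const_sub (t ^ 2)
    exact this
  have h2 := h1.sqrt hq.ne'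
  have hs : 0 < √(qq t c v) := Real.sqrt_pos.2 hq
  refine HasDerivAt.congr_deriv h2 ?_
  field_simp

theorem abs_R_adi {s p r q : ℝ} (hs : 0 < s) (hp : 0 ≤ p) (hq : 0 ≤ q) (h : r ^ 2 ≤ p * q) :
    |r| ≤ (s * p + q / s) / 2 := by
  have h0 : 0 ≤ (s * p + q / s) / 2 := by positivity
  apply abs_le_of_sq_le_sq' _ h0 |> fun h => abs_le.2 h
  have e : p * q = (s * p) * (q / s) := by field_simp
  nlinarith [sq_nonneg (s * p - q / s)]

theorem t_pos_adi {θ : ℝ} (h0 : 0 < θ) (ht : t * θ ^ 6 = 1) : 0 < t := by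
  by_contra hh
  have h6 : 0 < θ ^ 6 := by positivity
  nlinarith [mul_nonneg (neg_nonneg.2 (not_lt.1 hh)) h6.le]

/-- Adiabatic invariant in the oscillatory region. -/
theorem Sys.adi0 (h : Sys A t c P R Q) {θ : ℝ} (h0 : 0 < θ) (h1 : θ ≤ 1 / 2)
    (ht : t * θ ^ 6 = 1) {b u : ℝ} (hb : A < b) (hc : c ^ 2 * Real.exp (2 * b) ≤ t ^ 2 / 4)
    (hu : b ≤ u) (hq : t ^ 2 * θ ^ 4 ≤ qq t c u) :
    √(qq t c u) * P u + Q u / √(qq t c u) ≤ 10 * En t c P Q b / t := by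
  have htp : 0 < t := t_pos_adi h0 ht
  set p : ℝ → ℝ := fun v => c ^ 2 * Real.exp (2 * v) with hp
  set s : ℝ → ℝ := fun v => √(qq t c v) with hs
  set κ : ℝ → ℝ := fun v => -p v / s v ^ 3 with hκ
  set F : ℝ → ℝ := fun v => s v * P v + Q v / s v with hF
  have hqv : ∀ v ∈ Icc b u, t ^ 2 * θ ^ 4 ≤ qq t c v := fun v hv =>
    hq.trans (qq_anti t c hv.2)
  have hpos : 0 < t ^ 2 * θ ^ 4 := by positivity
  have hq0 : ∀ v ∈ Icc b u, 0 < qq t c v := fun v hv => hpos.trans_le (hqv v hv)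
  have hs0 : ∀ v ∈ Icc b u, 0 < s v := fun v hv => Real.sqrt_pos.2 (hq0 v hv)
  have hss : ∀ v ∈ Icc b u, qq t c v = s v ^ 2 := fun v hv =>
    (Real.sq_sqrt (hq0 v hv).le).symm
  have hsl : ∀ v ∈ Icc b u, t * θ ^ 2 ≤ s v := fun v hv => by
    apply Real.le_sqrt_of_sq_le
    calc (t * θ ^ 2) ^ 2 = t ^ 2 * θ ^ 4 := by ring
      _ ≤ _ := hqv v hv
  have hp0 : ∀ v, 0 ≤ p v := fun v => by simp only [hp]; positivity
  have hpt : ∀ v ∈ Icc b u, p v ≤ t ^ 2 := fun v hv => by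
    have := hq0 v hv
    simp only [qq] at this
    simp only [hp]; linarith
  have hκ0 : ∀ v ∈ Icc b u, κ v ≤ 0 := fun v hv => by
    have := hs0 v hv
    simp only [hκ]
    exact div_nonpos_of_nonpos_of_nonneg (neg_nonpos.2 (hp0 v)) (by positivity)
  have hκ1 : ∀ v ∈ Icc b u, -1 ≤ κ v := fun v hv => by
    have h3 := hs0 v hv
    have h4 : (t * θ ^ 2) ^ 3 ≤ s v ^ 3 := pow_le_pow_left₀ (by positivity) (hsl v hv) 3
    have h5 : (t * θ ^ 2) ^ 3 = t ^ 2 := by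
      calc (t * θ ^ 2) ^ 3 = t ^ 2 * (t * θ ^ 6) := by ring
        _ = t ^ 2 := by rw [ht, mul_one]
    simp only [hκ]
    rw [le_div_iff₀ (by positivity)]
    linarith [hpt v hv]
  have hRF : ∀ v ∈ Icc b u, |R v| ≤ F v / 2 := fun v hv =>
    abs_R_adi (hs0 v hv) (h.P0 v) (h.Q0 v) (h.cs v)
  have hF0 : ∀ v ∈ Icc b u, 0 ≤ F v := fun v hv => by
    have := hRF v hv
    have := abs_nonneg (R v)
    linarith
  have hder : ∀ v ∈ Icc b u, HasDerivAt (fun v => (F v + κ v * R v) * Real.exp (κ v))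
      (Real.exp (κ v) * (-2 * p v / s v ^ 3 - 3 * p v ^ 2 / s v ^ 5) *
        (F v + (1 + κ v) * R v)) v := by
    intro v hv
    have hA : A < v := hb.trans_le hv.1
    have hsv := hs0 v hv
    have dp : HasDerivAt p (2 * p v) v := hasDerivAt_p_adi c v
    have ds : HasDerivAt s (-p v / s v) v := hasDerivAt_s_adi t c v (hq0 v hv)
    have dκ : HasDerivAt κ (-2 * p v / s v ^ 3 - 3 * p v ^ 2 / s v ^ 5) v := by
      have := (dp.neg).div (ds.pow 3) (pow_ne_zero 3 hsv.ne')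
      refine HasDerivAt.congr_deriv this ?_
      simp only [Pi.neg_apply, Pi.pow_apply]
      field_simp
      ring
    have dF : HasDerivAt F (-κ v * (Q v - qq t c v * P v)) v := by
      have := (ds.mul (h.dP v hA)).add ((h.dQ v hA).div ds hsv.ne')
      refine HasDerivAt.congr_deriv this ?_
      simp only [hκ]
      rw [hss v hv]
      field_simp
      ring
    have := (dF.add (dκ.mul (h.dR v hA))).mul dκ.exp
    refine HasDerivAt.congr_deriv this ?_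
    simp only [Pi.add_apply, Pi.mul_apply]
    ring
  have hneg : ∀ v ∈ Icc b u, Real.exp (κ v) * (-2 * p v / s v ^ 3 - 3 * p v ^ 2 / s v ^ 5) *
        (F v + (1 + κ v) * R v) ≤ 0 := by
    intro v hv
    have hsv := hs0 v hv
    have a1 : -2 * p v / s v ^ 3 - 3 * p v ^ 2 / s v ^ 5 ≤ 0 := by
      have b1 : 0 ≤ 2 * p v / s v ^ 3 := by have := hp0 v; positivity
      have b2 : 0 ≤ 3 * p v ^ 2 / s v ^ 5 := by positivity
      have b3 : -2 * p v / s v ^ 3 = -(2 * p v / s v ^ 3) := by ring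
      linarith
    have a2 : 0 ≤ F v + (1 + κ v) * R v := by
      have b1 := abs_le.1 (hRF v hv)
      have b2 := hκ0 v hv
      have b3 := hκ1 v hv
      have b4 := hF0 v hv
      nlinarith [b1.1, mul_nonneg (by linarith : 0 ≤ 1 + κ v) (by linarith [b1.1] : 0 ≤ R v + F v / 2)]
    exact mul_nonpos_of_nonpos_of_nonneg
      (mul_nonpos_of_nonneg_of_nonpos (Real.exp_pos _).le a1) a2
  have hmain := anti_adi hu hder hneg
  have hbm : b ∈ Icc b u := left_mem_Icc.2 hu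
  have hum : u ∈ Icc b u := right_mem_Icc.2 hu
  have hG : ∀ v ∈ Icc b u, F v / 2 ≤ F v + κ v * R v ∧ F v + κ v * R v ≤ 3 * F v / 2 := by
    intro v hv
    have b1 := abs_le.1 (hRF v hv)
    have b2 := hκ0 v hv
    have b3 := hκ1 v hv
    have b4 := hF0 v hv
    constructor
    · nlinarith [mul_nonneg (by linarith : 0 ≤ -κ v) (by linarith [b1.2] : 0 ≤ F v / 2 - R v)]
    · nlinarith [mul_nonneg (by linarith : 0 ≤ -κ v) (by linarith [b1.1] : 0 ≤ F v / 2 + R v)]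
  have e1 : (F b + κ b * R b) * Real.exp (κ b) ≤ 3 * F b / 2 := by
    have a1 : Real.exp (κ b) ≤ 1 := Real.exp_le_one_iff.2 (hκ0 b hbm)
    have a2 := hG b hbm
    have a3 := hF0 b hbm
    nlinarith [mul_le_mul_of_nonneg_left a1 (by linarith [a2.1] : 0 ≤ F b + κ b * R b)]
  have e2 : F u / 2 * (0.36 : ℝ) ≤ (F u + κ u * R u) * Real.exp (κ u) := by
    have a1 : (0.36 : ℝ) ≤ Real.exp (κ u) := by
      have := Real.exp_neg_one_gt_d9
      have a2 : Real.exp (-1) ≤ Real.exp (κ u) := Real.exp_le_exp.2 (hκ1 u hum)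
      linarith
    have a2 := hG u hum
    have a3 := hF0 u hum
    exact mul_le_mul a2.1 a1 (by norm_num) (by linarith [a2.1])
  have e3 : F b * s b = En t c P Q b := by
    have := hs0 b hbm
    simp only [hF, En]
    rw [hss b hbm]
    field_simp
    ring
  have e4 : (0.86 : ℝ) * t ≤ s b := by
    apply Real.le_sqrt_of_sq_le
    simp only [qq]
    nlinarith
  have e5 : F u ≤ 8.6 * F b := by
    have := hF0 b hbm
    nlinarith
  show F u ≤ 10 * En t c P Q b / t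
  rw [le_div_iff₀ htp, ← e3]
  have := hF0 b hbm
  nlinarith [mul_le_mul_of_nonneg_left e4 this, mul_le_mul_of_nonneg_right e5 htp.le]

theorem Sys.turn_adi (h : Sys A t c P R Q) {θ : ℝ} (h0 : 0 < θ) (h1 : θ ≤ 1 / 2)
    (ht : t * θ ^ 6 = 1) {b u a : ℝ} (hb : A < b) (hc : c ^ 2 * Real.exp (2 * b) ≤ t ^ 2 / 4)
    (ha : En t c P Q b = t ^ 2 * a) (ha0 : 0 ≤ a) (hq : qq t c u < t ^ 2 * θ ^ 4) :
    P u * θ ^ 2 ≤ 100 * a ∧ Q u ≤ t ^ 2 * (100 * a) * θ ^ 2 := by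
  have htp : 0 < t := t_pos_adi h0 ht
  have hθ4 : θ ^ 4 ≤ 1 / 16 := by
    calc θ ^ 4 ≤ (1 / 2) ^ 4 := pow_le_pow_left₀ h0.le h1 4
      _ = 1 / 16 := by norm_num
  have hθp : 0 < θ ^ 4 := by positivity
  have ht2 : 0 < t ^ 2 := by positivity
  have hc0 : 0 < c ^ 2 := by
    rcases (sq_nonneg c).eq_or_lt with e | e
    · simp only [qq, ← e] at hq
      nlinarith
    · exact e
  have hcn : c ≠ 0 := by rintro rfl; simp at hc0
  obtain ⟨u1, hu1⟩ : ∃ u1 : ℝ, u1 = Real.log (t ^ 2 / c ^ 2) / 2 := ⟨_, rfl⟩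
  obtain ⟨u2, hu2⟩ : ∃ u2 : ℝ, u2 = u1 + Real.log (1 - θ ^ 4) / 2 := ⟨_, rfl⟩
  have e1 : Real.exp (2 * u1) = t ^ 2 / c ^ 2 := by
    rw [hu1, mul_div_cancel₀ _ (two_ne_zero), Real.exp_log (by positivity)]
  have e2 : Real.exp (2 * u2) = t ^ 2 / c ^ 2 * (1 - θ ^ 4) := by
    have : 2 * u2 = 2 * u1 + Real.log (1 - θ ^ 4) := by rw [hu2]; ring
    rw [this, Real.exp_add, e1, Real.exp_log (by linarith)]
  have q1 : qq t c u1 = 0 := by
    simp only [qq, e1]; field_simp; ring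
  have q2 : qq t c u2 = t ^ 2 * θ ^ 4 := by
    simp only [qq, e2]; field_simp; ring
  have l1 : u2 ≤ u1 := by
    have : Real.log (1 - θ ^ 4) ≤ 0 := Real.log_nonpos (by linarith) (by linarith)
    linarith
  have l2 : u1 - u2 ≤ θ ^ 4 := by
    have a1 := Real.one_sub_inv_le_log_of_pos (by linarith : 0 < 1 - θ ^ 4)
    have a2 : (1 - θ ^ 4)⁻¹ ≤ 1 + 2 * θ ^ 4 := by
      rw [inv_le_iff_one_le_mul₀ (by linarith)]
      nlinarith
    linarith
  have l3 : u2 ≤ u := by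
    by_contra hh
    have := qq_anti t c (not_le.1 hh).le
    linarith
  have l4 : b ≤ u2 := by
    by_contra hh
    have := qq_anti t c (not_le.1 hh).le
    rw [q2] at this
    simp only [qq] at this
    nlinarith
  have hA2 : A < u2 := hb.trans_le l4
  have hs2 : √(qq t c u2) = t * θ ^ 2 := by
    rw [q2, show t ^ 2 * θ ^ 4 = (t * θ ^ 2) ^ 2 by ring, Real.sqrt_sq (by positivity)]
  have hF := h.adi0 h0 h1 ht hb hc l4 q2.ge
  rw [hs2, ha, show 10 * (t ^ 2 * a) / t = 10 * (t * a) by field_simp] at hF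
  have hs0 : 0 < t * θ ^ 2 := by positivity
  have hE : En t c P Q u2 ≤ 10 * (t ^ 2 * θ ^ 2 * a) := by
    have a1 := mul_le_mul_of_nonneg_left hF hs0.le
    have a2 : t * θ ^ 2 * (t * θ ^ 2 * P u2 + Q u2 / (t * θ ^ 2)) = En t c P Q u2 := by
      simp only [En, q2]; field_simp; ring
    rw [a2] at a1
    linarith [a1, show t * θ ^ 2 * (10 * (t * a)) = 10 * (t ^ 2 * θ ^ 2 * a) by ring]
  have hP2 : P u2 * θ ^ 2 ≤ 10 * a := by
    have a1 : 0 ≤ Q u2 / (t * θ ^ 2) := div_nonneg (h.Q0 _) hs0.le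
    have a2 : t * (P u2 * θ ^ 2) ≤ t * (10 * a) := by nlinarith
    exact le_of_mul_le_mul_left a2 htp
  have hQ : ∀ v ∈ Icc u2 u1, Q v ≤ 10 * (t ^ 2 * θ ^ 2 * a) := by
    intro v hv
    have a1 : En t c P Q v ≤ En t c P Q u2 := h.En_anti hA2 (hA2.trans_le hv.1) hv.1
    have a2 : 0 ≤ qq t c v := q1 ▸ qq_anti t c hv.2
    have a3 : 0 ≤ qq t c v * P v := mul_nonneg a2 (h.P0 v)
    simp only [En] at a1 hE
    linarith
  have hP : ∀ v ∈ Icc u2 u1, P v * θ ^ 2 ≤ 100 * a := by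
    intro v hv
    have hd : ∀ x ∈ Icc u2 v, HasDerivAt
        (fun x => (P x * θ ^ 2 + 10 * a) * Real.exp (-(x / θ ^ 4)))
        ((2 * R x * θ ^ 2 - (P x * θ ^ 2 + 10 * a) / θ ^ 4) * Real.exp (-(x / θ ^ 4))) x := by
      intro x hx
      have a1 := ((h.dP x (hA2.trans_le hx.1)).mul_const (θ ^ 2)).add_const (10 * a)
      have a2 := (((hasDerivAt_id x).div_const (θ ^ 4)).neg).exp
      have := a1.mul a2
      refine HasDerivAt.congr_deriv this ?_
      simp only [id, Pi.neg_apply]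
      ring
    have hn : ∀ x ∈ Icc u2 v,
        (2 * R x * θ ^ 2 - (P x * θ ^ 2 + 10 * a) / θ ^ 4) * Real.exp (-(x / θ ^ 4)) ≤ 0 := by
      intro x hx
      apply mul_nonpos_of_nonpos_of_nonneg _ (Real.exp_pos _).le
      have a1 := abs_R_adi (inv_pos.2 hθp) (h.P0 x) (h.Q0 x) (h.cs x)
      have a2 := (abs_le.1 a1).2
      have a3 := hQ x ⟨hx.1, hx.2.trans hv.2⟩
      rw [sub_nonpos, le_div_iff₀ hθp]
      have a4 : 2 * R x * θ ^ 4 ≤ P x + θ ^ 8 * Q x := by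
        have b1 := mul_le_mul_of_nonneg_right a2 hθp.le
        have b2 : ((θ ^ 4)⁻¹ * P x + Q x / (θ ^ 4)⁻¹) / 2 * θ ^ 4 = (P x + θ ^ 8 * Q x) / 2 := by
          field_simp
        rw [b2] at b1
        linarith
      have a5 : θ ^ 8 * Q x * θ ^ 2 ≤ 10 * a := by
        have b1 : θ ^ 8 * Q x * θ ^ 2 ≤ θ ^ 8 * (10 * (t ^ 2 * θ ^ 2 * a)) * θ ^ 2 := by gcongr
        have b2 : θ ^ 8 * (10 * (t ^ 2 * θ ^ 2 * a)) * θ ^ 2 = 10 * a * (t * θ ^ 6) ^ 2 := by ring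
        rw [b2, ht] at b1
        linarith
      have a6 := mul_le_mul_of_nonneg_right a4 (by positivity : 0 ≤ θ ^ 2)
      nlinarith
    have hm := anti_adi hv.1 hd hn
    have a1 : Real.exp (-(u2 / θ ^ 4)) ≤ 3 * Real.exp (-(v / θ ^ 4)) := by
      have b1 : -(u2 / θ ^ 4) ≤ 1 + -(v / θ ^ 4) := by
        have : (v - u2) / θ ^ 4 ≤ 1 := by
          rw [div_le_one hθp]; linarith [hv.2]
        rw [sub_div] at this
        linarith
      have b2 := Real.exp_le_exp.2 b1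
      rw [Real.exp_add] at b2
      have b3 := Real.exp_one_lt_d9
      have b4 := Real.exp_pos (-(v / θ ^ 4))
      nlinarith
    have a2 : (P u2 * θ ^ 2 + 10 * a) * Real.exp (-(u2 / θ ^ 4)) ≤
        (20 * a) * (3 * Real.exp (-(v / θ ^ 4))) :=
      mul_le_mul (by linarith) a1 (Real.exp_pos _).le (by linarith)
    have a3 : (P v * θ ^ 2 + 10 * a) * Real.exp (-(v / θ ^ 4)) ≤
        (60 * a) * Real.exp (-(v / θ ^ 4)) := by linarith
    have a4 := le_of_mul_le_mul_right a3 (Real.exp_pos _)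
    linarith
  have hx : 0 ≤ t ^ 2 * θ ^ 2 * a := by positivity
  rcases le_total u u1 with hle | hle
  · refine ⟨hP u ⟨l3, hle⟩, ?_⟩
    have := hQ u ⟨l3, hle⟩
    nlinarith
  · have hA1 : A < u1 := hA2.trans_le l1
    have a1 : P u ≤ P u1 := h.P_anti hA1 q1.le (mem_Ici.2 le_rfl) hle hle
    have a2 : Q u ≤ Q u1 := h.Q_anti hA1 q1.le (mem_Ici.2 le_rfl) hle hle
    have a3 := hP u1 ⟨l1, le_rfl⟩
    have a4 := hQ u1 ⟨l1, le_rfl⟩
    have a5 := mul_le_mul_of_nonneg_right a1 (by positivity : 0 ≤ θ ^ 2)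
    constructor
    · linarith
    · nlinarith

/-- Uniform amplitude bounds, through the turning point. -/
theorem Sys.adi (h : Sys A t c P R Q) {θ : ℝ} (h0 : 0 < θ) (h1 : θ ≤ 1 / 2)
    (ht : t * θ ^ 6 = 1) {b u : ℝ} (hb : A < b) (hc : c ^ 2 * Real.exp (2 * b) ≤ t ^ 2 / 4)
    (hu : b ≤ u) :
    P u ^ 2 * rr θ t c u ≤ (100 * (En t c P Q b / t ^ 2)) ^ 2 ∧
      Q u ^ 2 ≤ t ^ 4 * (100 * (En t c P Q b / t ^ 2)) ^ 2 * rr θ t c u := by
  have htp : 0 < t := t_pos_adi h0 ht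
  have ht2 : 0 < t ^ 2 := by positivity
  obtain ⟨a, ha'⟩ : ∃ a : ℝ, a = En t c P Q b / t ^ 2 := ⟨_, rfl⟩
  rw [← ha']
  have ha : En t c P Q b = t ^ 2 * a := by rw [ha']; field_simp
  have ha0 : 0 ≤ a := ha' ▸ div_nonneg (h.En_nonneg hb) ht2.le
  have hP0 := h.P0 u
  have hQ0 := h.Q0 u
  rcases le_or_gt (t ^ 2 * θ ^ 4) (qq t c u) with hq | hq
  · have hr : rr θ t c u = qq t c u / t ^ 2 := by
      apply max_eq_left
      rw [le_div_iff₀ ht2]; linarith
    have hq0 : 0 < qq t c u := lt_of_lt_of_le (by positivity) hq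
    have hF := h.adi0 h0 h1 ht hb hc hu hq
    rw [ha, show 10 * (t ^ 2 * a) / t = 10 * (t * a) by field_simp] at hF
    obtain ⟨s, hs⟩ : ∃ s : ℝ, s = √(qq t c u) := ⟨_, rfl⟩
    have hs0 : 0 < s := hs ▸ Real.sqrt_pos.2 hq0
    have hss : qq t c u = s ^ 2 := by rw [hs, Real.sq_sqrt hq0.le]
    rw [← hs] at hF
    rw [hr, hss]
    have a1 : 0 ≤ Q u / s := by positivity
    have a2 : 0 ≤ s * P u := by positivity
    have hta : 0 ≤ t * a := by positivity
    constructor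
    · have b1 : s * P u ≤ 100 * a * t := by nlinarith
      have b2 := pow_le_pow_left₀ a2 b1 2
      rw [← mul_div_assoc, div_le_iff₀ ht2]
      nlinarith
    · have b1 : Q u / s ≤ 100 * a * t := by nlinarith
      rw [div_le_iff₀ hs0] at b1
      have b2 := pow_le_pow_left₀ hQ0 b1 2
      have b3 : t ^ 4 * (100 * a) ^ 2 * (s ^ 2 / t ^ 2) = (100 * a * t * s) ^ 2 := by
        field_simp
      rw [b3]; exact b2
  · have hr : rr θ t c u = θ ^ 4 := by
      apply max_eq_right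
      rw [div_le_iff₀ ht2]; linarith
    obtain ⟨b1, b2⟩ := h.turn_adi h0 h1 ht hb hc ha ha0 hq
    rw [hr]
    constructor
    · have := pow_le_pow_left₀ (by positivity) b1 2
      nlinarith
    · have := pow_le_pow_left₀ hQ0 b2 2
      nlinarith

end Pool.Agent.Lib.MP_a52643_an.H6C
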