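import Pool.Agent.Lib.MP_a52643_an.H6CDefs
import Pool.Agent.Lib.MP_a52643_an.H60Cut

open MeasureTheory Set Filter Topology Metric UpperHalfPlane
open scoped ENNReal NNReal ContDiff Laplacian MatrixGroups Real

noncomputable section

namespace Pool.Agent.Lib.MP_a52643_an.H6C

variable {Γ : Type} [Group Γ] [MulAction Γ ℍ] {l : Γ → SL2} {S : Finset SL2}

theorem Cusps.im_eq (hS : Cusps Γ S) {s s' : SL2} (hs : s ∈ S) (hs' : s' ∈ S) {γ γ' : Γ}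
    {z w w' : ℍ} (h1 : 10 < w.im) (h2 : 10 < w'.im) (e1 : γ • z = s • w) (e2 : γ' • z = s' • w') :
    w.im = w'.im := by
  have e : (γ' * γ⁻¹) • s • w = s' • w' := by rw [← e1, ← e2, mul_smul, inv_smul_smul]
  obtain ⟨rfl, n, hn⟩ := hS.sep s hs s' hs' _ w w' h1 h2 e
  rw [hn, smul_left_cancel_iff] at e
  rw [← e, vadd_im]

/-- A representation of one point gives a representation of every other point. -/
theorem near_psi (hl : ∀ (γ : Γ) (z : ℍ), γ • z = l γ • z) {γ : Γ} {s : SL2} {z w : ℍ}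
    (e : γ • z = s • w) (z' : ℍ) :
    w.im ≤ (s⁻¹ • γ • z').im * Real.exp (dist z z') := by
  have h : dist w (s⁻¹ • γ • z') = dist z z' := by
    rw [← dist_smul s, smul_inv_smul, ← e, hl, hl, dist_smul]
  rw [← h]
  exact im_le_im_mul_exp_dist _ _

/-- Heights are bounded on a compact set. -/
theorem Cusps.ht_bdd (hl : ∀ (γ : Γ) (z : ℍ), γ • z = l γ • z) (hS : Cusps Γ S) {K : Set ℍ}
    (hK : IsCompact K) : ∃ Y : ℝ, ∀ (γ : Γ), ∀ s ∈ S, ∀ w : ℍ, γ • s • w ∈ K → w.im ≤ Y := by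
  obtain ⟨R, hR⟩ := hK.isBounded.subset_closedBall I
  obtain ⟨h, hh⟩ : ∃ h : ℝ, ∀ (γ : Γ), ∀ s ∈ S, ∀ w : ℍ, γ • I = s • w → w.im ≤ h := by
    by_cases h0 : ∃ γ : Γ, ∃ s ∈ S, ∃ w : ℍ, 10 < w.im ∧ γ • I = s • w
    · obtain ⟨γ, s, hs, w, h1, e⟩ := h0
      refine ⟨w.im, fun γ' s' hs' w' e' => ?_⟩
      by_cases h2 : 10 < w'.im
      · exact (hS.im_eq hs' hs h2 h1 e' e).le
      · exact (not_lt.1 h2).trans h1.le
    · exact ⟨10, fun γ s hs w e => not_lt.1 fun h1 => h0 ⟨γ, s, hs, w, h1, e⟩⟩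
  refine ⟨h * Real.exp R, fun γ s hs w hw => ?_⟩
  have h1 := hh γ⁻¹ s hs (s⁻¹ • γ⁻¹ • I) (smul_inv_smul _ _).symm
  refine (near_psi hl (inv_smul_smul γ (s • w)) I).trans ?_
  exact mul_le_mul h1 (Real.exp_le_exp.2 (hR hw)) (Real.exp_pos _).le ((im_pos _).le.trans h1)

theorem exp_psi {x : ℝ} (hx : 4 ≤ x) : 10 < Real.exp x := by
  have h1 := Real.quadratic_le_exp_of_nonneg (show (0 : ℝ) ≤ 4 by norm_num)
  have h2 := Real.exp_le_exp.2 hx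
  linarith

/-- The invariant cutoff of the cusps. -/
theorem Cusps.exists_psi (hl : ∀ (γ : Γ) (z : ℍ), γ • z = l γ • z) (hS : Cusps Γ S) {k : ℝ}
    (hk : 5 ≤ k) : ∃ ψ : ℍ → ℝ, (∀ (γ : Γ) (z : ℍ), ψ (γ • z) = ψ z) ∧
      ContDiffOn ℝ ∞ (fun w : ℂ => ψ (ofComplex w)) UH ∧
      (∀ s ∈ S, ∀ w : ℍ, 10 < w.im → ψ (s • w) = Real.smoothTransition (Real.log w.im - k)) ∧
      (∀ z, ψ z ≠ 0 → ∃ γ : Γ, ∃ s ∈ S, ∃ w : ℍ, Real.exp k < w.im ∧ γ • z = s • w) ∧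
      ∃ K : Set ℍ, IsCompact K ∧ ∀ z, 1 - ψ z ≠ 0 → ∃ γ : Γ, γ • z ∈ K := by
  obtain ⟨ψ, hrep, hno⟩ : ∃ ψ : ℍ → ℝ,
      (∀ (z : ℍ) (γ : Γ), ∀ s ∈ S, ∀ w : ℍ, 10 < w.im → γ • z = s • w →
        ψ z = Real.smoothTransition (Real.log w.im - k)) ∧
      ∀ z : ℍ, (¬∃ γ : Γ, ∃ s ∈ S, ∃ w : ℍ, 10 < w.im ∧ γ • z = s • w) → ψ z = 0 := by
    have key : ∀ z : ℍ, ∃ c : ℝ, (∀ γ : Γ, ∀ s ∈ S, ∀ w : ℍ, 10 < w.im → γ • z = s • w →
        c = Real.smoothTransition (Real.log w.im - k)) ∧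
        ((¬∃ γ : Γ, ∃ s ∈ S, ∃ w : ℍ, 10 < w.im ∧ γ • z = s • w) → c = 0) := by
      intro z
      by_cases h0 : ∃ γ : Γ, ∃ s ∈ S, ∃ w : ℍ, 10 < w.im ∧ γ • z = s • w
      · obtain ⟨γ, s, hs, w, h1, e⟩ := id h0
        exact ⟨Real.smoothTransition (Real.log w.im - k),
          fun γ' s' hs' w' h2 e' => by rw [hS.im_eq hs hs' h1 h2 e e'], fun h => absurd h0 h⟩
      · exact ⟨0, fun γ s hs w h1 e => absurd ⟨γ, s, hs, w, h1, e⟩ h0, fun _ => rfl⟩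
    choose ψ h1 h2 using key
    exact ⟨ψ, h1, h2⟩
  have hne : ∀ z, ψ z ≠ 0 → ∃ γ : Γ, ∃ s ∈ S, ∃ w : ℍ, Real.exp k < w.im ∧ γ • z = s • w := by
    intro z hz
    obtain ⟨γ, s, hs, w, h1, e⟩ := not_not.1 (mt (hno z) hz)
    refine ⟨γ, s, hs, w, ?_, e⟩
    rw [← Real.lt_log_iff_exp_lt w.im_pos]
    by_contra h
    exact hz ((hrep z γ s hs w h1 e).trans
      (Real.smoothTransition.zero_of_nonpos (sub_nonpos.2 (not_lt.1 h))))
  refine ⟨ψ, fun δ z => ?_, fun u hu => ContDiffAt.contDiffWithinAt ?_,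
    fun s hs w h1 => hrep _ 1 s hs w h1 (one_smul _ _), hne, ?_⟩
  · by_cases h0 : ∃ γ : Γ, ∃ s ∈ S, ∃ w : ℍ, 10 < w.im ∧ γ • z = s • w
    · obtain ⟨γ, s, hs, w, h1, e⟩ := h0
      rw [hrep z γ s hs w h1 e, hrep (δ • z) (γ * δ⁻¹) s hs w h1 (by rw [mul_smul, inv_smul_smul, e])]
    · rw [hno z h0, hno]
      rintro ⟨γ, s, hs, w, h1, e⟩
      exact h0 ⟨γ * δ, s, hs, w, h1, by rw [mul_smul, e]⟩
  · by_cases h0 : ∃ γ : Γ, ∃ s ∈ S, ∃ w : ℍ, 10 < w.im ∧ γ • ofComplex u = s • w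
    · obtain ⟨γ, s, hs, w, h1, e⟩ := h0
      have e1 : ∀ z : ℍ, γ • z = s • (s⁻¹ * l γ) • z := fun z => by
        rw [mul_smul, smul_inv_smul, hl]
      have e2 : (s⁻¹ * l γ) • ofComplex u = w := by rw [mul_smul, ← hl, e, inv_smul_smul]
      have h2 : ContDiffAt ℝ ∞ (fun v : ℂ => ((s⁻¹ * l γ) • ofComplex v : ℍ).im) u :=
        Complex.imCLM.contDiff.contDiffAt.comp u (H60.moeb_cut (s⁻¹ * l γ) hu)
      have h3 : ContDiffAt ℝ ∞ (fun v : ℂ => Real.smoothTransition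
          (Real.log ((s⁻¹ * l γ) • ofComplex v : ℍ).im - k)) u :=
        Real.smoothTransition.contDiff.contDiffAt.comp u
          ((h2.log (im_pos _).ne').sub contDiffAt_const)
      refine h3.congr_of_eventuallyEq ?_
      filter_upwards [h2.continuousAt.eventually (lt_mem_nhds (e2 ▸ h1))] with v hv
      exact hrep _ γ s hs _ hv (e1 _)
    · refine (contDiffAt_const (c := (0 : ℝ))).congr_of_eventuallyEq ?_
      filter_upwards [(H60.cont_of_cut hu).eventually (ball_mem_nhds _ one_pos)] with v hv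
      by_contra h
      obtain ⟨γ, s, hs, w, h1, e⟩ := hne _ h
      refine h0 ⟨γ, s, hs, s⁻¹ • γ • ofComplex u, ?_, (smul_inv_smul _ _).symm⟩
      have h2 := near_psi hl e (ofComplex u)
      have h3 : Real.exp (dist (ofComplex v) (ofComplex u)) ≤ Real.exp 1 :=
        Real.exp_le_exp.2 (le_of_lt hv)
      have h4 := h1.trans_le (h2.trans (mul_le_mul_of_nonneg_left h3 (im_pos _).le))
      rw [← div_lt_iff₀ (Real.exp_pos 1), ← Real.exp_sub] at h4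
      exact (exp_psi (by linarith)).trans h4
  · obtain ⟨K, hK, h⟩ := hS.cov (Real.exp (k + 1))
    refine ⟨K, hK, fun z hz => (h z).resolve_right ?_⟩
    rintro ⟨γ, s, hs, w, h1, e⟩
    rw [hrep z γ s hs w ((exp_psi (by linarith)).trans h1) e,
      Real.smoothTransition.one_of_one_le, sub_self] at hz
    · exact hz rfl
    · have := (Real.lt_log_iff_exp_lt w.im_pos).2 h1
      linarith

end Pool.Agent.Lib.MP_a52643_an.H6C
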