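import Pool.Agent.Lib.MP_a52643_an.H6CNu

open MeasureTheory Set Filter Topology Metric UpperHalfPlane
open scoped ENNReal NNReal ContDiff Laplacian MatrixGroups Real

noncomputable section

namespace Pool.Agent.Lib.MP_a52643_an.H6C

variable {Γ : Type} [Group Γ] [Countable Γ] [MulAction Γ ℍ] {l : Γ → SL2} {D : Set ℍ}

omit [Countable Γ] in
theorem act_ne (hD : FD l D) {γ : Γ} (h : ∀ z : ℍ, γ • z = z) : γ = 1 := by
  have hne : (volume : Measure ℍ) ≠ 0 := fun h0 => by
    have := measure_ball_pos (volume : Measure ℍ) I one_pos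
    rw [h0] at this
    exact lt_irrefl _ this
  haveI := ae_neBot.2 hne
  obtain ⟨z, δ, hz⟩ := hD.cov.exists
  by_contra hγ
  exact hD.free γ hγ _ hz (by rw [h]; exact hz)

theorem sq_le_thick {g : SL2} (h : dist (bp g) I ≤ 2) :
    ea g ^ 2 + eb g ^ 2 + ec g ^ 2 + ed g ^ 2 ≤ 2 * Real.cosh 2 := by
  have h1 := ent_sq g
  have h2 := det_eq g
  have h3 : Real.cosh (dist (bp g) I) ≤ Real.cosh 2 := by
    rw [Real.cosh_le_cosh, abs_of_nonneg dist_nonneg, abs_of_pos two_pos]
    exact h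
  nlinarith

theorem nu_le_thick (h k : SL2) : nu (h⁻¹ * k) I ≤
    (ea h ^ 2 + eb h ^ 2 + ec h ^ 2 + ed h ^ 2) *
      ((ea k - ea h) ^ 2 + (eb k - eb h) ^ 2 + (ec k - ec h) ^ 2 + (ed k - ed h) ^ 2) := by
  rw [nu_I]
  have h1 := le_abs_self (ea (h⁻¹ * k) + ed (h⁻¹ * k))
  have h2 := det_eq h
  simp only [ea_mul, eb_mul, ec_mul, ed_mul, ea_inv, eb_inv, ec_inv, ed_inv] at h1 ⊢
  set a := ea h
  set b := eb h
  set c := ec h
  set d := ed h
  obtain ⟨p, hp⟩ : ∃ p, ea k = a + p := ⟨ea k - a, by ring⟩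
  obtain ⟨q, hq⟩ : ∃ q, eb k = b + q := ⟨eb k - b, by ring⟩
  obtain ⟨r, hr⟩ : ∃ r, ec k = c + r := ⟨ec k - c, by ring⟩
  obtain ⟨s, hs⟩ : ∃ s, ed k = d + s := ⟨ed k - d, by ring⟩
  rw [hp, hq, hr, hs] at h1 ⊢
  have e1 : d * (a + p) + -b * (c + r) = 1 + (d * p - b * r) := by linear_combination h2
  have e2 : -c * (b + q) + a * (d + s) = 1 + (a * s - c * q) := by linear_combination h2
  rw [e1, e2] at h1 ⊢
  nlinarith [sq_nonneg (d * r + b * p), sq_nonneg (d * s + b * q), sq_nonneg (a * p + c * r),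
    sq_nonneg (a * q + c * s)]

theorem meas_thick (hD : FD l D) (z : ℍ) :
    MeasurableSet {w : ℍ | ∃ γ : Γ, γ • w ∈ ball z 1} := by
  rw [Set.ofPred_exists]
  exact MeasurableSet.iUnion fun γ => (hD.mp γ).measurable measurableSet_ball

/-- Packing bound: separated elements of bounded displacement. -/
theorem packing {η : ℝ} (hη : 0 < η) : ∃ N : ℕ, ∀ (z : ℍ) (ι : Type) (s : Finset ι)
    (g : ι → SL2), (∀ i ∈ s, dist z (g i • z) ≤ 2) →
    (∀ i ∈ s, ∀ j ∈ s, i ≠ j → η ≤ nu ((g i)⁻¹ * g j) z) → s.card ≤ N := by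
  classical
  set C : ℝ := 2 * Real.cosh 2 with hC
  have hC0 : 0 < C := by have := Real.cosh_pos 2; linarith
  set e : ℝ := min 1 (η / (32 * C)) with he
  have he0 : 0 < e := lt_min one_pos (by positivity)
  have he2 : C * (16 * e ^ 2) < η := by
    have h1 : e ≤ 1 := min_le_left _ _
    have h2 : e ≤ η / (32 * C) := min_le_right _ _
    rw [le_div_iff₀ (by positivity)] at h2
    nlinarith [mul_pos hC0 he0]
  obtain ⟨t, -, ht, hcov⟩ := finite_cover_balls_of_compact
    (isCompact_closedBall (0 : ℝ × ℝ × ℝ × ℝ) (C + 1)) he0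
  refine ⟨ht.toFinset.card, fun z ι s g h1 h2 => ?_⟩
  obtain ⟨σ, rfl⟩ := MulAction.exists_smul_eq SL2 I z
  set k : ι → SL2 := fun i => σ⁻¹ * g i * σ with hk
  have hsq : ∀ i ∈ s, ea (k i) ^ 2 + eb (k i) ^ 2 + ec (k i) ^ 2 + ed (k i) ^ 2 ≤ C := by
    intro i hi
    refine sq_le_thick ?_
    have : dist (bp (k i)) I = dist (σ • I) (g i • σ • I) := by
      rw [← dist_smul σ, dist_comm]
      simp only [bp, hk, mul_smul, smul_inv_smul]
    rw [this]
    exact h1 i hi
  have hmem : ∀ i ∈ s, ∃ x ∈ t, (ea (k i), eb (k i), ec (k i), ed (k i)) ∈ ball x e := by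
    intro i hi
    have h3 := hsq i hi
    have hb : ∀ x : ℝ, x ^ 2 ≤ C → |x| ≤ C + 1 := fun x hx =>
      abs_le.2 ⟨by nlinarith [sq_nonneg (x + 1)], by nlinarith [sq_nonneg (x - 1)]⟩
    have : (ea (k i), eb (k i), ec (k i), ed (k i)) ∈
        closedBall (0 : ℝ × ℝ × ℝ × ℝ) (C + 1) := by
      rw [mem_closedBall_zero_iff]
      simp only [Prod.norm_def, Real.norm_eq_abs, max_le_iff]
      have := sq_nonneg (ea (k i))
      have := sq_nonneg (eb (k i))
      have := sq_nonneg (ec (k i))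
      have := sq_nonneg (ed (k i))
      exact ⟨hb _ (by linarith), hb _ (by linarith), hb _ (by linarith), hb _ (by linarith)⟩
    simpa only [mem_iUnion, exists_prop] using hcov this
  choose! x hx1 hx2 using hmem
  refine Finset.card_le_card_of_injOn x (fun i hi => ?_) fun i hi j hj hij => ?_
  · exact ht.mem_toFinset.2 (hx1 i hi)
  · by_contra hne
    have h3 := h2 i hi j hj hne
    have e1 : (g i)⁻¹ * g j = σ * ((k i)⁻¹ * k j) * σ⁻¹ := by
      simp only [hk]; group
    rw [e1, nu_conj] at h3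
    have h4 := nu_le_thick (k i) (k j)
    have h5 : dist (ea (k j), eb (k j), ec (k j), ed (k j))
        (ea (k i), eb (k i), ec (k i), ed (k i)) < 2 * e := by
      have a1 := hx2 i hi
      have a2 := hx2 j hj
      rw [← hij] at a2
      rw [mem_ball] at a1 a2
      linarith [dist_triangle_right (ea (k j), eb (k j), ec (k j), ed (k j))
        (ea (k i), eb (k i), ec (k i), ed (k i)) (x i)]
    simp only [Prod.dist_eq, Real.dist_eq, max_lt_iff] at h5
    obtain ⟨b1, b2, b3, b4⟩ := h5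
    have hb : ∀ y : ℝ, |y| < 2 * e → y ^ 2 ≤ 4 * e ^ 2 := fun y hy => by
      have := abs_lt.1 hy
      nlinarith
    have h6 : (ea (k j) - ea (k i)) ^ 2 + (eb (k j) - eb (k i)) ^ 2 + (ec (k j) - ec (k i)) ^ 2 +
        (ed (k j) - ed (k i)) ^ 2 ≤ 16 * e ^ 2 := by
      linarith [hb _ b1, hb _ b2, hb _ b3, hb _ b4]
    have h7 := mul_le_mul (hsq i hi) h6 (by positivity) hC0.le
    linarith

/-- A ball around a thick point has a definite area in the quotient. -/
theorem thick_vol (hD : FD l D) {η : ℝ} (hη : 0 < η) : ∃ v : ℝ≥0∞, 0 < v ∧ ∀ z : ℍ,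
    (∀ g ∈ GG Γ, ¬pm g → η ≤ nu g z) → v ≤ volume (D ∩ {w | ∃ γ : Γ, γ • w ∈ ball z 1}) := by
  classical
  obtain ⟨N, hN⟩ := packing hη
  refine ⟨volume (ball I 1) / (N + 1), ENNReal.div_pos (measure_ball_pos _ _ one_pos).ne'
    (by simp), fun z hz => ?_⟩
  have hA := meas_thick hD z
  set A := {w : ℍ | ∃ γ : Γ, γ • w ∈ ball z 1} with hAd
  have hv : volume (ball I 1) = volume (ball z 1) := by
    obtain ⟨σ, rfl⟩ := MulAction.exists_smul_eq SL2 I z
    rw [← Metric.smul_ball, measure_smul]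
  have key : ∀ w : ℍ, ∑' γ : Γ, (ball z 1).indicator (1 : ℍ → ℝ≥0∞) (γ • w) ≤
      (N + 1 : ℝ≥0∞) * A.indicator 1 w := by
    intro w
    by_cases hw : w ∈ A
    · rw [indicator_of_mem hw, Pi.one_apply, mul_one]
      obtain ⟨δ, hδ⟩ := hw
      rw [ENNReal.tsum_eq_iSup_sum]
      refine iSup_le fun s => ?_
      have h1 : ∑ γ ∈ s, (ball z 1).indicator (1 : ℍ → ℝ≥0∞) (γ • w) =
          ((s.filter fun γ => γ • w ∈ ball z 1).card : ℝ≥0∞) := by
        rw [Finset.card_filter]
        push_cast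
        refine Finset.sum_congr rfl fun γ _ => ?_
        rw [indicator_apply, Pi.one_apply]
      have h2 := hN z Γ (s.filter fun γ => γ • w ∈ ball z 1) (fun γ => l (γ * δ⁻¹))
        (fun γ hγ => by
          have a1 := (Finset.mem_filter.1 hγ).2
          rw [mem_ball] at a1 hδ
          have a2 : dist (γ • w) ((γ * δ⁻¹) • z) = dist (δ • w) z := by
            rw [← hD.dist_eq (γ * δ⁻¹) (δ • w) z, smul_smul, inv_mul_cancel_right]
          rw [← hD.act]
          linarith [dist_triangle_left z ((γ * δ⁻¹) • z) (γ • w)])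
        (fun γ _ γ' _ hne => by
          have a1 : ∀ u : ℍ, ((l (γ * δ⁻¹))⁻¹ * l (γ' * δ⁻¹)) • u =
              ((γ * δ⁻¹)⁻¹ * (γ' * δ⁻¹)) • u := by
            intro u
            rw [mul_smul, mul_smul (γ * δ⁻¹)⁻¹, inv_smul_eq_iff, ← hD.act, ← hD.act, smul_inv_smul]
          refine hz _ ⟨_, a1⟩ fun hp => hne ?_
          have a2 := act_ne hD fun u => (a1 u).symm.trans ((pm_iff_act _).1 hp u)
          rw [inv_mul_eq_one] at a2
          exact mul_right_cancel a2)
      rw [h1]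
      calc ((s.filter fun γ => γ • w ∈ ball z 1).card : ℝ≥0∞) ≤ N := by exact_mod_cast h2
        _ ≤ N + 1 := le_self_add
    · have : ∀ γ : Γ, (ball z 1).indicator (1 : ℍ → ℝ≥0∞) (γ • w) = 0 := fun γ =>
        indicator_of_notMem (fun h => hw ⟨γ, h⟩) _
      simp only [this, tsum_zero, zero_le]
  have h3 : volume (ball z 1) ≤ (N + 1 : ℝ≥0∞) * volume (D ∩ A) := by
    have h4 := Eqv.unfold hD hD.eqv (H := (ball z 1).indicator (1 : ℍ → ℝ≥0∞))
      (measurable_one.indicator measurableSet_ball)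
    rw [lintegral_indicator_one measurableSet_ball, preimage_id] at h4
    rw [h4]
    refine (lintegral_mono key).trans ?_
    rw [lintegral_const_mul _ (measurable_one.indicator hA), lintegral_indicator_one hA,
      Measure.restrict_apply hA, inter_comm]
  rw [hv]
  exact ENNReal.div_le_of_le_mul' h3

theorem disc_GG (hD : FD l D) : Disc (GG Γ) := by
  classical
  have hl : ∀ γ : Γ, l γ ∈ GG Γ := fun γ => ⟨γ, fun z => (hD.act γ z).symm⟩
  refine ⟨⟨1, fun z => by rw [one_smul]; exact (pm_iff_act _).1 (Or.inr rfl) z⟩,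
    fun K hK => ?_, fun η hη => ?_⟩
  · obtain ⟨R, hR⟩ := hK.isBounded.subset_closedBall I
    refine (((hD.finite R).image l).union ((hD.finite R).image fun γ => -l γ)).subset ?_
    rintro g ⟨⟨γ, hγ⟩, z, hz, hgz⟩
    have hm : γ ∈ {γ : Γ | ∃ z ∈ closedBall I R, γ • z ∈ closedBall I R} :=
      ⟨z, hR hz, hR (by rwa [← hγ])⟩
    have hp : pm ((l γ)⁻¹ * g) := (pm_iff_act _).2 fun u => by
      rw [mul_smul, inv_smul_eq_iff, hγ, hD.act]
    rcases hp with hp | hp
    · exact Or.inl ⟨γ, hm, inv_mul_eq_one.1 hp⟩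
    · refine Or.inr ⟨γ, hm, ?_⟩
      rw [inv_mul_eq_iff_eq_mul] at hp
      simp only
      rw [hp, mul_neg, mul_one]
  · obtain ⟨v, hv, hvol⟩ := thick_vol hD hη
    by_contra H
    push Not at H
    have step : ∀ n : ℕ, ∃ s : Finset ℍ, s.card = n ∧
        (∀ z ∈ s, ∀ g ∈ GG Γ, ¬pm g → η ≤ nu g z) ∧
        ∀ z ∈ s, ∀ z' ∈ s, z ≠ z' → ∀ γ : Γ, 2 ≤ dist (γ • z) z' := by
      intro n
      induction n with
      | zero => exact ⟨∅, rfl, by simp, by simp⟩
      | succ n ih =>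
        obtain ⟨s, h1, h2, h3⟩ := ih
        obtain ⟨z, hz1, hz2⟩ := H (⋃ u ∈ s, closedBall u 2)
          (s.isCompact_biUnion fun u _ => isCompact_closedBall u 2)
        have h4 : ∀ γ : Γ, ∀ u ∈ s, 2 ≤ dist (γ • z) u := by
          intro γ u hu
          by_contra hlt
          refine hz2 (l γ) (hl γ) (mem_iUnion₂.2 ⟨u, hu, ?_⟩)
          rw [← hD.act]
          exact (not_le.1 hlt).le
        have h5 : z ∉ s := fun hs => by
          have := h4 1 z hs
          rw [one_smul, dist_self] at this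
          linarith
        refine ⟨insert z s, by rw [Finset.card_insert_of_notMem h5, h1], fun u hu => ?_,
          fun u hu u' hu' hne γ => ?_⟩
        · rcases Finset.mem_insert.1 hu with rfl | hu
          · exact hz1
          · exact h2 u hu
        · rcases Finset.mem_insert.1 hu with rfl | hu1
          · rcases Finset.mem_insert.1 hu' with rfl | hu2
            · exact absurd rfl hne
            · exact h4 γ u' hu2
          · rcases Finset.mem_insert.1 hu' with rfl | hu2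
            · have := h4 γ⁻¹ u hu1
              rwa [← hD.dist_eq γ, smul_inv_smul, dist_comm] at this
            · exact h3 u hu1 u' hu2 hne γ
    obtain ⟨n, hn⟩ := ENNReal.exists_nat_mul_gt hv.ne' hD.fin
    obtain ⟨s, h1, h2, h3⟩ := step n
    have h4 : volume (⋃ z ∈ s, D ∩ {w : ℍ | ∃ γ : Γ, γ • w ∈ ball z 1}) =
        ∑ z ∈ s, volume (D ∩ {w : ℍ | ∃ γ : Γ, γ • w ∈ ball z 1}) := by
      refine measure_biUnion_finset (fun z hz z' hz' hne => ?_)
        fun z _ => hD.meas.inter (meas_thick hD z)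
      refine disjoint_left.2 ?_
      rintro w ⟨-, γ, hγ⟩ ⟨-, γ', hγ'⟩
      have a1 := h3 z hz z' hz' hne (γ' * γ⁻¹)
      rw [mem_ball] at hγ hγ'
      have a2 : dist (γ' • w) ((γ' * γ⁻¹) • z) = dist (γ • w) z := by
        rw [← hD.dist_eq (γ' * γ⁻¹) (γ • w) z, smul_smul, inv_mul_cancel_right]
      linarith [dist_triangle_left ((γ' * γ⁻¹) • z) z' (γ' • w)]
    have h5 : (n : ℝ≥0∞) * v ≤ volume D := by
      calc (n : ℝ≥0∞) * v = ∑ _z ∈ s, v := by rw [Finset.sum_const, h1, nsmul_eq_mul]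
        _ ≤ ∑ z ∈ s, volume (D ∩ {w : ℍ | ∃ γ : Γ, γ • w ∈ ball z 1}) :=
            Finset.sum_le_sum fun z hz => hvol z (h2 z hz)
        _ ≤ volume D := by
            rw [← h4]
            exact measure_mono (iUnion₂_subset fun _ _ => inter_subset_left)
    exact absurd hn (not_lt.2 h5)

end Pool.Agent.Lib.MP_a52643_an.H6C
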