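import Pool.Agent.Lib.MP_a52643_an.H6CHoro
import Pool.Agent.Lib.MP_a52643_an.H6CThick

open MeasureTheory Set Filter Topology Metric UpperHalfPlane
open scoped ENNReal NNReal ContDiff Laplacian MatrixGroups Real

noncomputable section

namespace Pool.Agent.Lib.MP_a52643_an.H6C

variable {Γ : Type} [Group Γ] [Countable Γ] [MulAction Γ ℍ] {l : Γ → SL2} {D : Set ℍ}

theorem exists_reps {α : Type} {r : α → α → Prop} (hr : Equivalence r) (S : Finset α) :
    ∃ S' : Finset α, S' ⊆ S ∧ (∀ a ∈ S, ∃ b ∈ S', r a b) ∧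
      ∀ a ∈ S', ∀ b ∈ S', r a b → a = b := by
  classical
  induction S using Finset.induction_on with
  | empty => exact ⟨∅, Finset.Subset.refl _, by simp, by simp⟩
  | insert x S _ ih =>
    obtain ⟨S', h1, h2, h3⟩ := ih
    by_cases hx : ∃ b ∈ S', r x b
    · refine ⟨S', h1.trans (Finset.subset_insert _ _), fun a ha => ?_, h3⟩
      rcases Finset.mem_insert.1 ha with rfl | ha
      · exact hx
      · exact h2 a ha
    · refine ⟨insert x S', Finset.insert_subset_insert _ h1, fun a ha => ?_, fun a ha b hb h => ?_⟩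
      · rcases Finset.mem_insert.1 ha with rfl | ha
        · exact ⟨a, Finset.mem_insert_self _ _, hr.refl a⟩
        · obtain ⟨b, hb, h⟩ := h2 a ha
          exact ⟨b, Finset.mem_insert_of_mem hb, h⟩
      · rcases Finset.mem_insert.1 ha with rfl | ha' <;> rcases Finset.mem_insert.1 hb with rfl | hb'
        · rfl
        · exact absurd ⟨b, hb', h⟩ hx
        · exact absurd ⟨a, ha', hr.symm h⟩ hx
        · exact h3 a ha' b hb' h

theorem TT_zero_sie : TT 0 = 1 := by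
  have h := TT_add 0 0
  rw [add_zero] at h
  exact (mul_eq_left.1 h.symm)

theorem neg_smul_sie (g : SL2) (w : ℍ) : (-g) • w = g • w := by
  rw [← mul_neg_one, mul_smul, (pm_iff_act (-1)).1 (Or.inr rfl)]

/-- Two scaling matrices define the same cusp. -/
def RelSie (G : Subgroup SL2) (s s' : SL2) : Prop := ∃ g ∈ G, ∃ β : ℝ, g * s = s' * TT β

theorem equiv_sie (G : Subgroup SL2) : Equivalence (RelSie G) := by
  refine ⟨fun s => ⟨1, G.one_mem, 0, by rw [TT_zero_sie, one_mul, mul_one]⟩, ?_, ?_⟩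
  · rintro s s' ⟨g, hg, β, h⟩
    refine ⟨g⁻¹, G.inv_mem hg, -β, ?_⟩
    rw [inv_mul_eq_iff_eq_mul, ← mul_assoc, h, mul_assoc, ← TT_add, add_neg_cancel, TT_zero_sie,
      mul_one]
  · rintro s s' s'' ⟨g, hg, β, h⟩ ⟨g', hg', β', h'⟩
    refine ⟨g' * g, G.mul_mem hg' hg, β' + β, ?_⟩
    rw [mul_assoc, h, ← mul_assoc, h', mul_assoc, TT_add]

/-- Structure of a hyperbolic surface of finite area. -/
theorem exists_cusps (hD : FD l D) : ∃ S : Finset SL2, Cusps Γ S := by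
  have hG := disc_GG hD
  obtain ⟨S, hS, hcov⟩ := hG.cover
  obtain ⟨S', h1, h2, h3⟩ := exists_reps (equiv_sie (GG Γ)) S
  refine ⟨S', fun s hs => ?_, fun s hs s' hs' γ z z' hz hz' h => ?_, fun Y => ?_⟩
  · obtain ⟨δ, hδ⟩ := (hS s (h1 hs)).1
    exact ⟨δ, fun w => by rw [← hδ, mul_smul, mul_smul, inv_smul_smul, TT_smul]⟩
  · have hl : l γ ∈ GG Γ := ⟨γ, fun z => (hD.act γ z).symm⟩
    rw [hD.act] at h
    obtain ⟨β, hβ⟩ := (hS s (h1 hs)).horo hG (hS s' (h1 hs')) hl hz hz' h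
    have key : ∃ g ∈ GG Γ, (∀ w : ℍ, γ • w = g • w) ∧ g * s = s' * TT β := by
      rcases hβ with hβ | hβ
      · refine ⟨l γ, hl, hD.act γ, ?_⟩
        rw [← hβ, ← mul_assoc, ← mul_assoc, mul_inv_cancel, one_mul]
      · refine ⟨-l γ, ?_, fun w => by rw [neg_smul_sie, hD.act], ?_⟩
        · rw [← mul_neg_one]; exact (GG Γ).mul_mem hl hG.neg
        · rw [← neg_neg (TT β), ← hβ, mul_neg, neg_mul, ← mul_assoc, ← mul_assoc, mul_inv_cancel,
            one_mul]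
    obtain ⟨g, hg, hact, hgs⟩ := key
    obtain rfl : s = s' := h3 s hs s' hs' ⟨g, hg, β, hgs⟩
    obtain ⟨n, rfl⟩ := (hS s (h1 hs)).int hG (β := β) (by rwa [← hgs, mul_inv_cancel_right])
    exact ⟨rfl, n, fun w => by rw [hact, ← mul_smul, hgs, mul_smul, TT_smul]⟩
  · obtain ⟨K, hK, hz⟩ := hcov Y
    refine ⟨K, hK, fun z => ?_⟩
    rcases hz z with ⟨g, ⟨γ, hγ⟩, h⟩ | ⟨g, hg, s, hs, w, hw, h⟩
    · exact Or.inl ⟨γ, hγ z ▸ h⟩
    · obtain ⟨b, hb, g', hg', β, hβ⟩ := h2 s hs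
      obtain ⟨γ, hγ⟩ := (GG Γ).mul_mem hg' hg
      refine Or.inr ⟨γ, b, hb, β +ᵥ w, by rwa [vadd_im], ?_⟩
      rw [← hγ, mul_smul, h, ← mul_smul, hβ, mul_smul, TT_smul]

end Pool.Agent.Lib.MP_a52643_an.H6C
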