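import Pool.Agent.Lib.MP_a52643_an.H6CPart
import Pool.Agent.Lib.MP_a52643_an.H6CSie
import Pool.Agent.Lib.MP_a52643_an.H6CPsi

open MeasureTheory Set Filter Topology Metric UpperHalfPlane
open scoped ENNReal NNReal ContDiff Laplacian MatrixGroups Real

noncomputable section

namespace Pool.Agent.Lib.MP_a52643_an.H6C

variable {Γ : Type} [Group Γ] [Countable Γ] [MulAction Γ ℍ] {l : Γ → SL2} {D : Set ℍ}

omit [Countable Γ] in
theorem int_cpt (hD : FD l D) {F : ℍ → ℝ} (hF : Continuous F) (hi : ∀ (γ : Γ) z, F (γ • z) = F z)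
    {K : Set ℍ} (hK : IsCompact K) (h0 : ∀ z, F z ≠ 0 → ∃ γ : Γ, γ • z ∈ K) :
    IntegrableOn F D := by
  obtain ⟨M, hM⟩ := hK.exists_bound_of_continuousOn hF.continuousOn
  refine Measure.integrableOn_of_bounded (M := max M 0) hD.fin hF.aestronglyMeasurable
    (Eventually.of_forall fun z => ?_)
  by_cases hz : F z = 0
  · rw [hz, norm_zero]
    exact le_max_right _ _
  · obtain ⟨γ, hγ⟩ := h0 z hz
    rw [← hi γ z]
    exact (hM _ hγ).trans (le_max_left _ _)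

lemma rpow_le_all {lam : ℝ} (h : 2 ≤ lam) :
    lam ^ (-(1 / 16) : ℝ) ≤ 3 / √(Real.log lam) := by
  have h0 : 0 < lam := by linarith
  have h1 : 0 < Real.log lam := Real.log_pos (by linarith)
  have h2 : Real.log lam ≤ lam ^ (1 / 8 : ℝ) / (1 / 8) := Real.log_le_rpow_div h0.le (by norm_num)
  have h3 : 0 < lam ^ (1 / 16 : ℝ) := Real.rpow_pos_of_pos h0 _
  have h4 : (lam ^ (1 / 16 : ℝ)) ^ 2 = lam ^ (1 / 8 : ℝ) := by
    rw [← Real.rpow_natCast, ← Real.rpow_mul h0.le]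
    norm_num
  have h5 : √(Real.log lam) ≤ 3 * lam ^ (1 / 16 : ℝ) := by
    rw [Real.sqrt_le_left (by positivity), mul_pow, h4]
    have : 0 < lam ^ (1 / 8 : ℝ) := Real.rpow_pos_of_pos h0 _
    linarith
  rw [Real.rpow_neg h0.le, le_div_iff₀ (Real.sqrt_pos.2 h1), inv_mul_le_iff₀ h3]
  linarith

theorem third_all (hD : FD l D) {ρ : ℍ → ℝ} (h0 : ∀ z, 0 < ρ z)
    (hi : ∀ (γ : Γ) z, ρ (γ • z) = ρ z) (hs : ContDiffOn ℝ ∞ (fun w : ℂ => ρ (ofComplex w)) UH)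
    {K : Set ℍ} (hK : IsCompact K) (hρK : ∀ z, ρ z ≠ 1 → ∃ γ : Γ, γ • z ∈ K)
    (hc : ∀ z : ℍ, 1 + z.im ^ 2 * Δ (fun w : ℂ => Real.log (ρ (ofComplex w))) z / 2 ≠ 0) :
    ∃ C L : ℝ, ∀ (φ : ℍ → ℝ) (lam : ℝ), (∀ (γ : Γ) z, φ (γ • z) = φ z) →
      ContDiffOn ℝ ∞ (fun w : ℂ => φ (ofComplex w)) UH →
      (∀ z : ℍ, z.im ^ 2 * Δ (fun w : ℂ => φ (ofComplex w)) z = -lam * ρ z * φ z) →
      ∫ z in D, φ z ^ 2 * ρ z = 1 → L ≤ lam →
      IntegrableOn (fun z => φ z ^ 3 * ρ z) D ∧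
        |∫ z in D, φ z ^ 3 * ρ z| ≤ C / √(Real.log lam) := by
  obtain ⟨S, hS⟩ := exists_cusps hD
  obtain ⟨Y, hY⟩ := hS.ht_bdd hD.act hK
  set A : ℝ := max 3 (Real.log (max Y 1)) with hA
  have hA3 : 3 ≤ A := le_max_left _ _
  have hYA : Y ≤ Real.exp A := by
    have h1 : max Y 1 = Real.exp (Real.log (max Y 1)) :=
      (Real.exp_log (lt_of_lt_of_le one_pos (le_max_right _ _))).symm
    calc Y ≤ max Y 1 := le_max_left _ _
      _ = Real.exp (Real.log (max Y 1)) := h1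
      _ ≤ Real.exp A := Real.exp_le_exp.2 (le_max_right _ _)
  have h1 : ∀ s ∈ S, ∀ w : ℍ, Real.exp A < w.im → ρ (s • w) = 1 := by
    intro s hs' w hw
    by_contra hne
    obtain ⟨γ, hγ⟩ := hρK _ hne
    have := hY γ s hs' w hγ
    linarith
  obtain ⟨ψ, ψi, ψs, ψ1, ψ0, K', hK', ψK⟩ := hS.exists_psi hD.act (k := A + 5) (by linarith)
  have ρc : Continuous ρ := H60.cont_glob hs
  have ψc : Continuous ψ := H60.cont_glob ψs
  obtain ⟨C1, L1, hL1, H1⟩ := cusp_part hD hS hA3 h0 hi ρc h1 ψi ψc ψ1 ψ0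
  obtain ⟨C2, L2, H2⟩ := H60.glob hD h0 hi hs (ψ := fun z => 1 - ψ z)
    (fun γ z => by rw [ψi]) (contDiffOn_const.sub ψs) hK' ψK (fun z _ => hc z) one_pos
  refine ⟨C1 + 3 * max C2 0, max L1 L2, fun φ lam φi φs φe φn hL => ?_⟩
  have hl2 : 2 ≤ lam := hL1.trans ((le_max_left _ _).trans hL)
  obtain ⟨I1, B1⟩ := H1 φ lam φi φs φe φn ((le_max_left _ _).trans hL)
  have B2 := H2 (fun _ => φ) (fun _ => lam) (fun _ => φi) (fun _ => φs) (fun _ => φe)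
    (fun _ => φn) (fun _ => (le_max_right _ _).trans hL) (fun _ => by
      rw [Fin.sum_univ_three]
      linarith)
  have φc : Continuous φ := H60.cont_glob φs
  have I2 : IntegrableOn (fun z => (1 - ψ z) * (φ z * φ z * φ z) * ρ z) D := by
    refine int_cpt hD (by fun_prop) (fun γ z => by rw [ψi, φi, hi]) hK' fun z hz => ψK z ?_
    intro h
    rw [h, zero_mul, zero_mul] at hz
    exact hz rfl
  have e : (fun z => φ z ^ 3 * ρ z) =
      fun z => ψ z * φ z ^ 3 * ρ z + (1 - ψ z) * (φ z * φ z * φ z) * ρ z := by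
    funext z
    ring
  rw [e]
  refine ⟨I1.add I2, ?_⟩
  rw [integral_add I1 I2]
  refine (abs_add_le _ _).trans ?_
  have B3 : C2 * lam ^ (-(1 / 16) : ℝ) ≤ max C2 0 * (3 / √(Real.log lam)) :=
    mul_le_mul (le_max_left _ _) (rpow_le_all hl2) (Real.rpow_nonneg (by linarith) _)
      (le_max_right _ _)
  calc _ ≤ C1 / √(Real.log lam) + max C2 0 * (3 / √(Real.log lam)) :=
        add_le_add B1 (B2.trans B3)
    _ = _ := by ring

end Pool.Agent.Lib.MP_a52643_an.H6C
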