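import Pool.Agent.Lib.MP_a52643_an.H6CMode

open MeasureTheory Set Filter Topology Metric UpperHalfPlane
open scoped ENNReal NNReal ContDiff Laplacian MatrixGroups Real

noncomputable section

namespace Pool.Agent.Lib.MP_a52643_an.H6C

theorem swap_avg {α : Type} [TopologicalSpace α] [T2Space α] [SecondCountableTopology α]
    [MeasureSpace α] [BorelSpace α] [IsFiniteMeasureOnCompacts (volume : Measure α)]
    [SFinite (volume : Measure α)] {H : ℝ → α → ℝ} (hH : Continuous (Function.uncurry H))
    {K : Set α} (hK : IsCompact K) (h0 : ∀ s, ∀ p, p ∉ K → H s p = 0) :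
    ∫ s in (0 : ℝ)..1, ∫ p, H s p = ∫ p, ∫ s in (0 : ℝ)..1, H s p := by
  refine intervalIntegral_integral_swap ?_
  rw [Measure.restrict_prod_eq_prod_univ]
  have h1 : IntegrableOn (Function.uncurry H) (uIcc (0 : ℝ) 1 ×ˢ K) (volume.prod volume) :=
    hH.continuousOn.integrableOn_compact (isCompact_uIcc.prod hK)
  refine IntegrableOn.of_forall_sdiff_eq_zero h1 (measurableSet_uIoc.prod MeasurableSet.univ) ?_
  rintro ⟨s, p⟩ ⟨h2, h3⟩
  exact h0 s p fun hp => h3 ⟨uIoc_subset_uIcc h2.1, hp⟩

theorem shift_avg {g : ℝ → ℝ} (hp : ∀ x, g (x + 1) = g x) (c : ℝ) :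
    ∫ s in (0 : ℝ)..1, g (s + c) = ∫ x in (0 : ℝ)..1, g x := by
  have h := Function.Periodic.intervalIntegral_add_eq hp c 0
  rw [intervalIntegral.integral_comp_add_right, zero_add, add_comm, h, zero_add]

theorem avg_per {g β : ℝ → ℝ} (hg : Continuous g) (hp : ∀ x, g (x + 1) = g x)
    (hβ : Continuous β) (cβ : HasCompactSupport β) (iβ : ∫ x, β x = 1) (Y : ℝ) :
    ∫ s in (0 : ℝ)..1, ∫ x, β x * g (s + Y * x) = ∫ x in (0 : ℝ)..1, g x := by
  rw [swap_avg (H := fun s x => β x * g (s + Y * x)) (by fun_prop) cβ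
    fun s x hx => by rw [image_eq_zero_of_notMem_tsupport hx, zero_mul]]
  simp only [intervalIntegral.integral_const_mul, shift_avg hp]
  rw [integral_mul_const, iβ, one_mul]

/-- A window of the cusp as an average of integrals over a fixed compact piece of the plane. -/
theorem avg_win {f : ℂ → ℝ} (hf : ContDiffOn ℝ ∞ f UH) (hp : ∀ z ∈ UH, f (z + 1) = f z)
    {β η : ℝ → ℝ} (hβ : Continuous β) (cβ : HasCompactSupport β) (iβ : ∫ x, β x = 1)
    (hη : Continuous η) (e0 : ∀ y, y ≤ 1 → η y = 0) (e1 : ∀ y, Real.exp 2 ≤ y → η y = 0)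
    (e2 : ∀ v, η (Real.exp v) = ch v * Real.exp (-(2 * v))) (k : ℝ) :
    ∫ u in k..(k + 2), ch (u - k) * I3 f u =
      Real.exp (-k) * ∫ s in (0 : ℝ)..1,
        ∫ z : ℂ, β z.re * η z.im * f (s + Real.exp k * z) ^ 3 := by
  set g : ℝ → ℝ → ℝ := fun y x => f (x + (Real.exp k * max y 1 : ℝ) * Complex.I) ^ 3 with hg
  have hm : ∀ x y : ℝ, (x : ℂ) + (Real.exp k * max y 1 : ℝ) * Complex.I ∈ UH := fun x y => by
    have : 0 < Real.exp k * max y 1 := by positivity
    simpa [UH, -Complex.ofReal_exp] using this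
  have gc : Continuous (Function.uncurry g) :=
    (hf.continuousOn.comp_continuous (by fun_prop) fun p : ℝ × ℝ => hm p.2 p.1).pow 3
  have gp : ∀ y x, g y (x + 1) = g y x := fun y x => by
    simp only [hg]
    rw [← hp _ (hm x y)]
    congr 2
    push_cast
    ring
  have e3 : ∀ (s : ℝ) (z : ℂ), β z.re * η z.im * f (s + Real.exp k * z) ^ 3 =
      β z.re * η z.im * g z.im (s + Real.exp k * z.re) := fun s z => by
    rcases le_total z.im 1 with h | h
    · rw [e0 _ h, mul_zero, zero_mul, zero_mul]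
    · simp only [hg, max_eq_left h]
      congr 3
      conv_lhs => rw [← Complex.re_add_im z]
      push_cast
      ring
  have Jc : Continuous fun y => ∫ x in (0 : ℝ)..1, g y x :=
    intervalIntegral.continuous_parametric_intervalIntegral_of_continuous' gc 0 1
  have h1 : ∫ s in (0 : ℝ)..1, ∫ z : ℂ, β z.re * η z.im * f (s + Real.exp k * z) ^ 3 =
      ∫ y, η y * ∫ x in (0 : ℝ)..1, g y x := by
    simp only [e3]
    rw [swap_avg (H := fun s (z : ℂ) => β z.re * η z.im * g z.im (s + Real.exp k * z.re))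
      (((hβ.comp (by fun_prop)).mul (hη.comp (by fun_prop))).mul
        (gc.comp (f := fun p : ℝ × ℂ => (p.2.im, p.1 + Real.exp k * p.2.re)) (by fun_prop)))
      (IsCompact.reProdIm cβ (isCompact_Icc (a := 1) (b := Real.exp 2))) fun s z hz => by
        by_cases h : z.re ∈ tsupport β
        · have h2 : η z.im = 0 := by
            rcases le_total z.im 1 with h3 | h3
            · exact e0 _ h3
            · exact e1 _ (le_of_not_ge fun h4 => hz ⟨h, h3, h4⟩)
          rw [h2, mul_zero, zero_mul]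
        · rw [image_eq_zero_of_notMem_tsupport h, zero_mul, zero_mul]]
    simp only [intervalIntegral.integral_const_mul, shift_avg (gp _), mul_assoc]
    refine (Complex.volume_preserving_equiv_real_prod.integral_comp'
      fun p : ℝ × ℝ => β p.1 * (η p.2 * ∫ x in (0 : ℝ)..1, g p.2 x)).trans ?_
    have h6 := integral_prod_mul (μ := volume) (ν := volume) β
      fun y => η y * ∫ x in (0 : ℝ)..1, g y x
    rw [iβ, one_mul] at h6
    exact h6
  have h2 : ∫ y, η y * ∫ x in (0 : ℝ)..1, g y x =
      ∫ v in (0 : ℝ)..2, (η (Real.exp v) * ∫ x in (0 : ℝ)..1, g (Real.exp v) x) * Real.exp v := by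
    rw [← intervalIntegral.integral_eq_integral_of_support_subset (a := Real.exp 0)
      (b := Real.exp 2) fun y hy => ⟨lt_of_not_ge fun h => hy (by
        rw [e0 y (by simpa using h), zero_mul]), le_of_not_ge fun h => hy (by
        rw [e1 y h, zero_mul])⟩]
    exact (intervalIntegral.integral_comp_mul_deriv (fun v _ => Real.hasDerivAt_exp v)
      Real.continuous_exp.continuousOn (hη.mul Jc)).symm
  rw [h1, h2, ← intervalIntegral.integral_const_mul]
  have h3 := intervalIntegral.integral_comp_add_left (a := 0) (b := 2)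
    (fun u => ch (u - k) * I3 f u) k
  rw [add_zero] at h3
  rw [← h3]
  refine intervalIntegral.integral_congr fun v hv => ?_
  have hv0 : 1 ≤ Real.exp v := Real.one_le_exp (by simpa using hv.1)
  have h4 : ∀ x : ℝ, Wf f (k + v) x ^ 3 = Real.exp (-(k + v) / 2) ^ 3 * g (Real.exp v) x :=
    fun x => by simp only [Wf, hg, pt, max_eq_left hv0, mul_pow, Real.exp_add]
  have h5 : Real.exp ((k + v) / 2) * Real.exp (-(k + v) / 2) ^ 3 =
      Real.exp (-k) * Real.exp (-(2 * v)) * Real.exp v := by
    rw [← Real.exp_nat_mul, ← Real.exp_add, ← Real.exp_add, ← Real.exp_add]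
    congr 1
    push_cast
    ring
  simp only [I3, h4, intervalIntegral.integral_const_mul, e2, add_sub_cancel_left]
  linear_combination (ch v * ∫ x in (0 : ℝ)..1, g (Real.exp v) x) * h5

end Pool.Agent.Lib.MP_a52643_an.H6C
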