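import Pool.Agent.Lib.MP_a52643_an.H6CMode
import Pool.Agent.Lib.MP_a52643_an.H60Plane2

open MeasureTheory Set Filter Topology Metric UpperHalfPlane
open scoped ENNReal NNReal ContDiff Laplacian MatrixGroups Real

noncomputable section

namespace Pool.Agent.Lib.MP_a52643_an.H6C

/-- The slab. -/
def slb : Set ℂ := {z | Real.exp (-1) < z.im ∧ z.im < Real.exp 3}

theorem isOpen_slb : IsOpen slb :=
  (isOpen_lt continuous_const Complex.continuous_im).inter
    (isOpen_lt Complex.continuous_im continuous_const)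

theorem lap_aff_nn (f : ℂ → ℝ) (s : ℂ) {a : ℝ} (ha : a ≠ 0) (z : ℂ) :
    Δ (fun w => f (s + a * w)) z = a ^ 2 * Δ f (s + a * z) := by
  let g : ℂ ≃L[ℝ] ℂ := (LinearEquiv.smulOfNeZero ℝ ℂ a ha).toContinuousLinearEquiv
  have hg : ∀ w, g w = a • w := fun _ => rfl
  have h1 := g.iteratedFDerivWithin_comp_right (fun w => f (s + w)) uniqueDiffOn_univ
    (mem_univ (g z)) 2
  rw [preimage_univ, iteratedFDerivWithin_univ, iteratedFDerivWithin_univ,
    iteratedFDeriv_comp_add_left] at h1
  have e : (fun w => f (s + a * w)) = (fun w => f (s + w)) ∘ g := by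
    funext w
    simp [hg]
  have h2 : ∀ v : ℂ, iteratedFDeriv ℝ 2 (fun w => f (s + a * w)) z ![v, v] =
      a ^ 2 * iteratedFDeriv ℝ 2 f (s + a * z) ![v, v] := by
    intro v
    rw [e, h1, ContinuousMultilinearMap.compContinuousLinearMap_apply]
    have e2 : (fun i => (g : ℂ →L[ℝ] ℂ) (![v, v] i)) = fun i => a • ![v, v] i := rfl
    rw [e2, ContinuousMultilinearMap.map_smul_univ, hg, Complex.real_smul]
    simp
  simp only [InnerProductSpace.laplacian_eq_iteratedFDeriv_complexPlane, h2]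
  ring

theorem im_aff_nn (s k : ℝ) (z : ℂ) :
    ((s : ℂ) + (Real.exp k : ℝ) * z).im = Real.exp k * z.im := by
  rw [Complex.add_im, Complex.ofReal_im, zero_add, Complex.im_ofReal_mul]

/-- Rescaled eigenfunctions solve the Helmholtz equation of the hyperbolic metric. -/
theorem Cusp.helU {A lam : ℝ} {f : ℂ → ℝ} (h : Cusp A lam f) {k : ℝ} (hk : A + 1 ≤ k)
    (s c : ℝ) :
    H60.HelU slb (fun z => -Real.log z.im) lam (fun z => c * f (s + Real.exp k * z)) := by
  have hpos : ∀ z ∈ slb, 0 < z.im := fun z hz => (Real.exp_pos _).trans hz.1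
  have hmem : ∀ z ∈ slb, (s : ℂ) + (Real.exp k : ℝ) * z ∈ UH := fun z hz => by
    change 0 < Complex.im _
    rw [im_aff_nn]
    exact mul_pos (Real.exp_pos k) (hpos z hz)
  have hsm : ContDiffOn ℝ ∞ (fun z : ℂ => f (s + Real.exp k * z)) slb :=
    h.sm.comp (by fun_prop) hmem
  refine ⟨contDiffOn_const.mul hsm, fun z hz => ?_⟩
  have h2 : ContDiffAt ℝ 2 (fun z : ℂ => f (s + Real.exp k * z)) z :=
    (hsm.contDiffAt (isOpen_slb.mem_nhds hz)).of_le (by norm_cast)
  have h3 := InnerProductSpace.laplacian_smul c h2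
  have h4 := h.eq (s + Real.exp k * z) (by
    rw [im_aff_nn]
    calc Real.exp A ≤ Real.exp k * Real.exp (-1) := by
          rw [← Real.exp_add]
          exact Real.exp_le_exp.2 (by linarith)
      _ < _ := mul_lt_mul_of_pos_left hz.1 (Real.exp_pos k))
  have h5 : Real.exp (2 * -Real.log z.im) = (z.im ^ 2)⁻¹ := by
    rw [mul_neg, Real.exp_neg, two_mul, Real.exp_add, Real.exp_log (hpos z hz), sq]
  have h6 := (hpos z hz).ne'
  rw [im_aff_nn] at h4
  refine Eq.trans h3 ?_
  rw [lap_aff_nn f s (Real.exp_pos k).ne', h5, smul_eq_mul]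
  field_simp
  linear_combination c * h4

theorem per_bound_nn {W : ℝ → ℝ} (hW : Continuous W) (h0 : ∀ x, 0 ≤ W x)
    (hp : Function.Periodic W 1) (c L : ℝ) :
    ∫ x in c..c + L, W x ≤ (L + 1) * ∫ x in (0 : ℝ)..1, W x := by
  have hi : ∀ a b, IntervalIntegrable W volume a b := fun a b => hW.intervalIntegrable a b
  have h1 := hp.intervalIntegral_add_zsmul_eq ⌈L⌉ c hi
  rw [hp.intervalIntegral_add_eq c 0, zero_add, zsmul_eq_mul, zsmul_eq_mul, mul_one] at h1
  have h2 : 0 ≤ ∫ x in (0 : ℝ)..1, W x :=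
    intervalIntegral.integral_nonneg zero_le_one fun x _ => h0 x
  have h3 : 0 ≤ ∫ x in c + L..c + ⌈L⌉, W x :=
    intervalIntegral.integral_nonneg (by linarith [Int.le_ceil L]) fun x _ => h0 x
  have h4 := intervalIntegral.integral_add_adjacent_intervals (hi c (c + L)) (hi (c + L) (c + ⌈L⌉))
  have h5 := mul_le_mul_of_nonneg_right (Int.ceil_lt_add_one L).le h2
  linarith

theorem scaled_bound_nn {W : ℝ → ℝ} (hW : Continuous W) (h0 : ∀ x, 0 ≤ W x)
    (hp : Function.Periodic W 1) (s : ℝ) {a R : ℝ} (ha : 1 ≤ a) (hR : 0 ≤ R) :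
    ∫⁻ x in Icc (-R) R, ENNReal.ofReal (W (s + a * x)) ≤
      ENNReal.ofReal ((2 * R + 1) * ∫ x in (0 : ℝ)..1, W x) := by
  have hc : Continuous fun x => W (s + a * x) := by fun_prop
  rw [← ofReal_integral_eq_lintegral_ofReal hc.integrableOn_Icc (ae_of_all _ fun x => h0 _),
    integral_Icc_eq_integral_Ioc, ← intervalIntegral.integral_of_le (by linarith),
    intervalIntegral.integral_comp_add_mul _ (by linarith : a ≠ 0)]
  refine ENNReal.ofReal_le_ofReal ?_
  have h1 := per_bound_nn hW h0 hp (s + a * -R) (2 * R * a)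
  have h2 : 0 ≤ ∫ x in (0 : ℝ)..1, W x :=
    intervalIntegral.integral_nonneg zero_le_one fun x _ => h0 x
  rw [show s + a * -R + 2 * R * a = s + a * R by ring] at h1
  rw [smul_eq_mul, inv_mul_le_iff₀ (by linarith)]
  nlinarith [mul_nonneg (sub_nonneg.2 ha) h2]

/-- Local mass of the rescaled functions. -/
theorem NN_slb {S : Set ℂ} (hS : IsCompact S) (hU : S ⊆ slb) :
    ∃ N : ℝ≥0∞, N ≠ ⊤ ∧ ∀ (A lam : ℝ) (f : ℂ → ℝ) (k s : ℝ), Cusp A lam f → A + 1 ≤ k → 0 ≤ k →
      H60.NN S (fun z => Real.exp (-k / 2) * f (s + Real.exp k * z)) ≤ N := by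
  obtain ⟨R, hR, hSR⟩ := hS.isBounded.subset_closedBall_lt 0 0
  refine ⟨ENNReal.ofReal (Real.exp 6 * (2 * R + 1)), ENNReal.ofReal_ne_top,
    fun A lam f k s h hk hk0 => ?_⟩
  have hW := continuous_Wf h.sm
  let H : ℝ × ℝ → ℝ≥0∞ := fun p =>
    ENNReal.ofReal p.2 * ENNReal.ofReal (Wf f (k + Real.log p.2) (s + Real.exp k * p.1) ^ 2)
  have hH : Measurable H := by
    have h1 : Measurable fun p : ℝ × ℝ => (k + Real.log p.2, s + Real.exp k * p.1) := by
      fun_prop
    exact measurable_snd.ennreal_ofReal.mul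
      ((hW.measurable.comp h1).pow_const 2).ennreal_ofReal
  have hm : ∀ u, 0 ≤ m2 f u := fun u =>
    intervalIntegral.integral_nonneg zero_le_one fun x _ => sq_nonneg _
  have hsub : S ⊆ Complex.measurableEquivRealProd ⁻¹'
      (Icc (-R) R ×ˢ ((fun u => Real.exp (u - k)) '' Ioo (k - 1) (k + 3))) := by
    intro z hz
    have h1 : |z.re| ≤ R := (Complex.abs_re_le_norm z).trans (mem_closedBall_zero_iff.1 (hSR hz))
    have h2 : 0 < z.im := (Real.exp_pos _).trans (hU hz).1
    have h3 := (Real.lt_log_iff_exp_lt h2).2 (hU hz).1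
    have h4 := (Real.log_lt_iff_lt_exp h2).2 (hU hz).2
    refine ⟨abs_le.1 h1, k + Real.log z.im, ⟨by linarith, by linarith⟩, ?_⟩
    change Real.exp (k + Real.log z.im - k) = z.im
    rw [add_sub_cancel_left, Real.exp_log h2]
  have hpt : ∀ z ∈ S, ‖Real.exp (-k / 2) * f (s + Real.exp k * z)‖ₑ ^ 2 =
      H (Complex.measurableEquivRealProd z) := by
    intro z hz
    have h2 : 0 < z.im := (Real.exp_pos _).trans (hU hz).1
    have e1 : pt (s + Real.exp k * z.re) (k + Real.log z.im) = s + Real.exp k * z := by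
      unfold pt
      rw [Real.exp_add, Real.exp_log h2]
      conv_rhs => rw [← Complex.re_add_im z]
      push_cast
      ring
    have e2 : z.im * Real.exp (-(k + Real.log z.im) / 2) ^ 2 = Real.exp (-k / 2) ^ 2 := by
      rw [← Real.exp_nat_mul, ← Real.exp_nat_mul]
      conv_lhs => rw [← Real.exp_log h2, ← Real.exp_add, Real.log_exp]
      congr 1
      push_cast
      ring
    change _ = ENNReal.ofReal z.im *
      ENNReal.ofReal (Wf f (k + Real.log z.im) (s + Real.exp k * z.re) ^ 2)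
    rw [← ENNReal.ofReal_mul h2.le, Wf, e1, mul_pow, ← mul_assoc, e2, ← mul_pow,
      Real.enorm_eq_ofReal_abs, ← ENNReal.ofReal_pow (abs_nonneg _), sq_abs]
  calc H60.NN S (fun z => Real.exp (-k / 2) * f (s + Real.exp k * z))
      = ∫⁻ z in S, H (Complex.measurableEquivRealProd z) :=
        setLIntegral_congr_fun hS.measurableSet hpt
    _ ≤ ∫⁻ p in Icc (-R) R ×ˢ ((fun u => Real.exp (u - k)) '' Ioo (k - 1) (k + 3)), H p := by
        rw [← Complex.volume_preserving_equiv_real_prod.setLIntegral_comp_preimage_emb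
          Complex.measurableEquivRealProd.measurableEmbedding]
        exact lintegral_mono_set hsub
    _ = ∫⁻ y in (fun u => Real.exp (u - k)) '' Ioo (k - 1) (k + 3), ∫⁻ x in Icc (-R) R, H (x, y) :=
        setLIntegral_prod_symm H hH.aemeasurable
    _ = ∫⁻ u in Ioo (k - 1) (k + 3), ENNReal.ofReal |Real.exp (u - k)| *
          ∫⁻ x in Icc (-R) R, H (x, Real.exp (u - k)) :=
        lintegral_image_eq_lintegral_abs_deriv_mul measurableSet_Ioo
          (fun u _ => by
            simpa using ((hasDerivAt_id u).sub_const k).exp.hasDerivWithinAt)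
          (fun a _ b _ e => sub_left_injective (Real.exp_injective e)) _
    _ ≤ ∫⁻ u in Ioo (k - 1) (k + 3),
          ENNReal.ofReal (Real.exp 6 * (2 * R + 1)) * ENNReal.ofReal (m2 f u) := by
        refine setLIntegral_mono' measurableSet_Ioo fun u hu => ?_
        have h1 := scaled_bound_nn (W := fun x => Wf f u x ^ 2)
          ((hW.comp (Continuous.prodMk_right u)).pow 2) (fun x => sq_nonneg _)
          (fun x => by simp only [h.Wf_per]) s (Real.one_le_exp hk0) hR.le
        have h2 : Real.exp (u - k) * Real.exp (u - k) ≤ Real.exp 6 := by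
          rw [← Real.exp_add]
          exact Real.exp_le_exp.2 (by linarith [hu.2])
        simp only [H, Real.log_exp, add_sub_cancel]
        rw [lintegral_const_mul' _ _ ENNReal.ofReal_ne_top, abs_of_pos (Real.exp_pos _),
          ← mul_assoc, ← ENNReal.ofReal_mul (Real.exp_pos _).le,
          ← ENNReal.ofReal_mul (by positivity), mul_assoc (Real.exp 6),
          ENNReal.ofReal_mul (Real.exp_pos 6).le]
        exact mul_le_mul' (ENNReal.ofReal_le_ofReal h2) h1
    _ ≤ ENNReal.ofReal (Real.exp 6 * (2 * R + 1)) * ∫⁻ u in Ioi A, ENNReal.ofReal (m2 f u) := by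
        rw [lintegral_const_mul' _ _ ENNReal.ofReal_ne_top]
        have h1 : Ioo (k - 1) (k + 3) ⊆ Ioi A := fun u hu => lt_of_le_of_lt (by linarith) hu.1
        exact mul_le_mul_right (lintegral_mono_set h1) _
    _ ≤ _ := by
        rw [← ofReal_integral_eq_lintegral_ofReal h.int (ae_of_all _ hm)]
        exact mul_le_of_le_one_right' (ENNReal.ofReal_le_one.2 h.mass)

end Pool.Agent.Lib.MP_a52643_an.H6C
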