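import Pool.Agent.Lib.MP_a52643_an.H6CAvg
import Pool.Agent.Lib.MP_a52643_an.H6CNN
import Pool.Agent.Lib.MP_a52643_an.H60Glob

open MeasureTheory Set Filter Topology Metric UpperHalfPlane
open scoped ENNReal NNReal ContDiff Laplacian MatrixGroups Real

noncomputable section

namespace Pool.Agent.Lib.MP_a52643_an.H6C

theorem ch_smooth_low : ContDiff ℝ ∞ ch :=
  Real.smoothTransition.contDiff.sub
    (Real.smoothTransition.contDiff.comp (contDiff_id.sub contDiff_const))

theorem ch_left_low {u : ℝ} (h : u ≤ 0) : ch u = 0 := by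
  unfold ch
  rw [Real.smoothTransition.zero_of_nonpos h,
    Real.smoothTransition.zero_of_nonpos (by linarith), sub_zero]

theorem ch_right_low {u : ℝ} (h : 2 ≤ u) : ch u = 0 := by
  unfold ch
  rw [Real.smoothTransition.one_of_one_le (by linarith),
    Real.smoothTransition.one_of_one_le (by linarith), sub_self]

theorem exists_beta_low : ∃ β : ℝ → ℝ, ContDiff ℝ ∞ β ∧ HasCompactSupport β ∧ ∫ x, β x = 1 := by
  let b : ContDiffBump (0 : ℝ) := ⟨1, 2, one_pos, one_lt_two⟩
  exact ⟨b.normed volume, b.contDiff_normed, b.hasCompactSupport_normed, b.integral_normed⟩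

theorem slb_sub_low : slb ⊆ UH := fun _ hz => (Real.exp_pos _).trans hz.1

theorem exists_eta : ∃ η : ℝ → ℝ, ContDiff ℝ ∞ η ∧ (∀ y, y ≤ 1 → η y = 0) ∧
    (∀ y, Real.exp 2 ≤ y → η y = 0) ∧ ∀ v, η (Real.exp v) = ch v * Real.exp (-(2 * v)) := by
  have c0 : ∀ y : ℝ, 0 < y → y ≤ 1 → ch (Real.log y) = 0 := fun y h0 h1 =>
    ch_left_low (Real.log_nonpos h0.le h1)
  refine ⟨fun y => if 0 < y then ch (Real.log y) / y ^ 2 else 0, ?_, ?_, ?_, ?_⟩
  · rw [contDiff_iff_contDiffAt]
    intro y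
    rcases lt_or_ge y 1 with h | h
    · have e : (fun y : ℝ => if 0 < y then ch (Real.log y) / y ^ 2 else 0) =ᶠ[𝓝 y]
          fun _ => 0 := by
        filter_upwards [Iio_mem_nhds h] with x hx
        split_ifs with h0
        · rw [c0 x h0 (le_of_lt hx), zero_div]
        · rfl
      exact contDiffAt_const.congr_of_eventuallyEq e
    · have hy : 0 < y := lt_of_lt_of_le one_pos h
      have e : (fun y : ℝ => if 0 < y then ch (Real.log y) / y ^ 2 else 0) =ᶠ[𝓝 y]
          fun y => ch (Real.log y) / y ^ 2 := by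
        filter_upwards [Ioi_mem_nhds hy] with x hx
        exact if_pos hx
      refine ContDiffAt.congr_of_eventuallyEq ?_ e
      exact (ch_smooth_low.contDiffAt.comp y (contDiffAt_id.log hy.ne')).div
        (contDiffAt_id.pow 2) (pow_ne_zero 2 hy.ne')
  · intro y hy
    dsimp only
    split_ifs with h0
    · rw [c0 y h0 hy, zero_div]
    · rfl
  · intro y hy
    have h0 : 0 < y := (Real.exp_pos 2).trans_le hy
    dsimp only
    rw [if_pos h0, ch_right_low ((Real.le_log_iff_exp_le h0).2 hy), zero_div]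
  · intro v
    dsimp only
    rw [if_pos (Real.exp_pos v), Real.log_exp, Real.exp_neg, div_eq_mul_inv, ← Real.exp_nat_mul]
    norm_num

/-- One window at low height. -/
theorem low : ∃ C L : ℝ, 0 < C ∧ ∀ (A lam : ℝ) (f : ℂ → ℝ) (k : ℝ), Cusp A lam f → L ≤ lam →
    A + 1 ≤ k → 0 ≤ k →
    |∫ u in k..(k + 2), ch (u - k) * I3 f u| ≤
      C * Real.exp (k / 2) * lam ^ (-(1 / 16) : ℝ) := by
  obtain ⟨η, hη, e0, e1, e2⟩ := exists_eta
  obtain ⟨β, hβ, cβ, iβ⟩ := exists_beta_low
  have hψ : ContDiff ℝ ∞ fun z : ℂ => β z.re * η z.im :=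
    (hβ.comp Complex.reCLM.contDiff).mul (hη.comp Complex.imCLM.contDiff)
  have hK : IsCompact (tsupport β ×ℂ Icc 1 (Real.exp 2)) :=
    IsCompact.reProdIm cβ isCompact_Icc
  have hz : ∀ z : ℂ, z ∉ tsupport β ×ℂ Icc 1 (Real.exp 2) → β z.re * η z.im = 0 := by
    intro z hz
    rw [Complex.mem_reProdIm, not_and_or] at hz
    rcases hz with h | h
    · rw [image_eq_zero_of_notMem_tsupport h, zero_mul]
    · rw [mem_Icc, not_and_or, not_le, not_le] at h
      rcases h with h | h
      · rw [e0 _ h.le, mul_zero]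
      · rw [e1 _ h.le, mul_zero]
  have hc : HasCompactSupport fun z : ℂ => β z.re * η z.im := HasCompactSupport.intro hK hz
  have hs : tsupport (fun z : ℂ => β z.re * η z.im) ⊆ slb := by
    have h1 : tsupport (fun z : ℂ => β z.re * η z.im) ⊆ tsupport β ×ℂ Icc 1 (Real.exp 2) :=
      closure_minimal (fun z h => by_contra fun h' => h (hz z h')) hK.isClosed
    intro z h
    obtain ⟨h2, h3⟩ := (Complex.mem_reProdIm.1 (h1 h)).2
    refine ⟨lt_of_lt_of_le ?_ h2, h3.trans_lt (Real.exp_lt_exp.2 (by norm_num))⟩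
    exact (Real.exp_lt_exp.2 (by norm_num)).trans_eq Real.exp_zero
  have hu : ContDiffOn ℝ ∞ (fun z : ℂ => -Real.log z.im) slb :=
    (H60.contDiffOn_logim_glob.mono slb_sub_low).neg
  have hL : ∀ x ∈ tsupport (fun z : ℂ => β z.re * η z.im),
      Δ (fun z : ℂ => -Real.log z.im) x ≠ 0 := by
    intro x hx
    have hx' : x ∈ UH := slb_sub_low (hs hx)
    have h1 : Δ (fun z : ℂ => -Real.log z.im) = -Δ (fun z : ℂ => Real.log z.im) :=
      InnerProductSpace.laplacian_neg
    rw [h1, Pi.neg_apply, H60.laplacian_logim_glob hx', neg_neg]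
    exact inv_ne_zero (pow_ne_zero 2 (ne_of_gt hx'))
  obtain ⟨S, hS, hSU, H⟩ := H60.plane_real isOpen_slb hu hψ hc hs hL one_pos
  obtain ⟨N, hN, hNN⟩ := NN_slb hS hSU
  obtain ⟨C, L, H⟩ := H N hN
  refine ⟨max C 1, max L 0, lt_of_lt_of_le one_pos (le_max_right _ _), ?_⟩
  intro A lam f k hf hlam hk hk0
  have l0 : 0 ≤ lam ^ (-(1 / 16) : ℝ) := Real.rpow_nonneg ((le_max_right _ _).trans hlam) _
  have hJ : ∀ s : ℝ, |∫ z : ℂ, β z.re * η z.im * f (s + Real.exp k * z) ^ 3| ≤
      Real.exp (3 * k / 2) * (max C 1 * lam ^ (-(1 / 16) : ℝ)) := by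
    intro s
    have h := H (fun _ z => Real.exp (-k / 2) * f (s + Real.exp k * z)) (fun _ => lam)
      (fun _ => hf.helU hk s _) (fun _ => hNN A lam f k s hf hk hk0)
      (fun _ => (le_max_left _ _).trans hlam) (fun _ => by
        rw [Fin.sum_univ_three]; linarith)
    have e3 : Real.exp (3 * k / 2) * Real.exp (-k / 2) ^ 3 = 1 := by
      rw [← Real.exp_nat_mul, ← Real.exp_add, ← Real.exp_zero]
      congr 1
      push_cast
      ring
    have e4 : ∫ z : ℂ, β z.re * η z.im * f (s + Real.exp k * z) ^ 3 =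
        Real.exp (3 * k / 2) * ∫ z : ℂ, β z.re * η z.im *
          (Real.exp (-k / 2) * f (s + Real.exp k * z) *
            (Real.exp (-k / 2) * f (s + Real.exp k * z)) *
            (Real.exp (-k / 2) * f (s + Real.exp k * z))) := by
      rw [← integral_const_mul]
      refine integral_congr_ae (ae_of_all _ fun z => ?_)
      dsimp only
      linear_combination (-(β z.re * η z.im * f (s + Real.exp k * z) ^ 3)) * e3
    rw [e4, abs_mul, abs_of_pos (Real.exp_pos _)]
    exact mul_le_mul_of_nonneg_left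
      (h.trans (mul_le_mul_of_nonneg_right (le_max_left _ _) l0)) (Real.exp_pos _).le
  rw [avg_win hf.sm hf.per hβ.continuous cβ iβ hη.continuous e0 e1 e2 k, abs_mul,
    abs_of_pos (Real.exp_pos _)]
  have h1 := intervalIntegral.norm_integral_le_of_norm_le_const (a := (0 : ℝ)) (b := 1)
    (f := fun s : ℝ => ∫ z : ℂ, β z.re * η z.im * f (s + Real.exp k * z) ^ 3)
    (fun s _ => (Real.norm_eq_abs _).le.trans (hJ s))
  rw [Real.norm_eq_abs, sub_zero, abs_one, mul_one] at h1
  have e5 : Real.exp (-k) * Real.exp (3 * k / 2) = Real.exp (k / 2) := by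
    rw [← Real.exp_add]
    congr 1
    ring
  refine (mul_le_mul_of_nonneg_left h1 (Real.exp_pos _).le).trans (le_of_eq ?_)
  rw [← mul_assoc, e5]
  ring

end Pool.Agent.Lib.MP_a52643_an.H6C
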