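import Pool.Agent.Lib.MP_a52643_an.H6CHigh
import Pool.Agent.Lib.MP_a52643_an.H6CLow

open MeasureTheory Set Filter Topology Metric UpperHalfPlane
open scoped ENNReal NNReal ContDiff Laplacian MatrixGroups Real

noncomputable section

namespace Pool.Agent.Lib.MP_a52643_an.H6C

theorem ch_abs_cusp (u : ℝ) : |ch u| ≤ 1 := by
  have h1 := Real.smoothTransition.nonneg u
  have h2 := Real.smoothTransition.le_one u
  have h3 := Real.smoothTransition.nonneg (u - 1)
  have h4 := Real.smoothTransition.le_one (u - 1)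
  rw [ch, abs_le]
  constructor <;> linarith

theorem tele_cusp (k u : ℝ) (J : ℕ) : ∑ j ∈ Finset.range J, ch (u - (k + j)) =
    Real.smoothTransition (u - k) - Real.smoothTransition (u - (k + J)) := by
  induction J with
  | zero => simp
  | succ J ih =>
    rw [Finset.sum_range_succ, ih, ch]
    have : u - (k + ((J + 1 : ℕ) : ℝ)) = u - (k + J) - 1 := by push_cast; ring
    rw [this]
    ring

theorem geo_cusp (k : ℝ) (n : ℕ) :
    ∑ j ∈ Finset.range n, Real.exp ((k + j) / 2) ≤ 2 * Real.exp ((k + n) / 2) := by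
  induction n with
  | zero => simp [Real.exp_nonneg]
  | succ n ih =>
    rw [Finset.sum_range_succ]
    have h1 : (k + ((n + 1 : ℕ) : ℝ)) / 2 = (k + n) / 2 + 1 / 2 := by push_cast; ring
    have h2 := Real.add_one_le_exp (1 / 2 : ℝ)
    have h3 := Real.exp_pos ((k + n) / 2)
    rw [h1, Real.exp_add]
    nlinarith

theorem sq_cusp {x : ℝ} (hx : 0 < x) :
    1 / ((x + 1) * √(x + 1)) ≤ 2 / √x - 2 / √(x + 1) := by
  have ha : 0 < √x := Real.sqrt_pos.2 hx
  have hab : √x ≤ √(x + 1) := Real.sqrt_le_sqrt (by linarith)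
  have h1 : √x ^ 2 = x := Real.sq_sqrt hx.le
  have h2 : √(x + 1) ^ 2 = x + 1 := Real.sq_sqrt (by linarith)
  set a := √x
  set b := √(x + 1)
  have hb : 0 < b := ha.trans_le hab
  have h3 : (b - a) * (b + a) = 1 := by nlinarith
  rw [← h2, div_sub_div _ _ ha.ne' hb.ne', div_le_div_iff₀ (by positivity) (by positivity)]
  have h4 : a * (b + a) ≤ 2 * b ^ 2 := by nlinarith
  have h5 : 0 ≤ (b - a) * b := mul_nonneg (by linarith) hb.le
  calc 1 * (a * b) = ((b - a) * b) * (a * (b + a)) := by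
        rw [← h3]; ring
    _ ≤ ((b - a) * b) * (2 * b ^ 2) := mul_le_mul_of_nonneg_left h4 h5
    _ = (2 * b - a * 2) * (b ^ 2 * b) := by ring

/-- Summation of the windows. -/
theorem sum_win {m I : ℝ → ℝ} {k X Y : ℝ} (hk : 0 ≤ k) (hX : 0 ≤ X) (hY : 0 ≤ Y)
    (cm : Continuous m) (m0 : ∀ u, 0 ≤ m u) (im : IntegrableOn m (Ioi k))
    (hm : ∫ u in Ioi k, m u ≤ 1) (cI : Continuous I) (iI : IntegrableOn I (Ioi k))
    (hlow : ∀ j : ℕ, |∫ u in (k + j)..(k + j + 2), ch (u - (k + j)) * I u| ≤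
      X * Real.exp ((k + j) / 2))
    (hhigh : ∀ j : ℕ, |∫ u in (k + j)..(k + j + 2), ch (u - (k + j)) * I u| ≤
      Y / ((j + 1) * √(j + 1)) + Y / √(j + 1) * ∫ u in (k + j)..(k + j + 2), m u)
    {j0 : ℕ} (hj : 1 ≤ j0) :
    |∫ u in Ioi k, Real.smoothTransition (u - k) * I u| ≤
      2 * X * Real.exp ((k + j0) / 2) + 4 * Y / √j0 := by
  obtain ⟨B, -, hc, hz0, hz2, -, -⟩ := ch_prop
  let W : ℕ → ℝ := fun j => ∫ u in (k + j)..(k + j + 2), ch (u - (k + j)) * I u
  have hint : ∀ j : ℕ, IntegrableOn (fun u => ch (u - (k + j)) * I u) (Ioi k) := fun j =>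
    Integrable.bdd_mul (c := 1) iI
      (hc.continuous.comp (continuous_id.sub continuous_const)).aestronglyMeasurable
      (Eventually.of_forall fun u => ch_abs_cusp _)
  have hW : ∀ j : ℕ, ∫ u in Ioi k, ch (u - (k + j)) * I u = W j := fun j => by
    have hj : (0 : ℝ) ≤ j := Nat.cast_nonneg j
    simp only [W]
    rw [intervalIntegral.integral_of_le (by linarith)]
    refine setIntegral_eq_of_subset_of_forall_sdiff_eq_zero measurableSet_Ioi
      (fun u hu => lt_of_le_of_lt (by linarith) hu.1) fun u hu => ?_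
    rcases le_or_gt u (k + j) with h | h
    · rw [hz0 _ (by linarith), zero_mul]
    · have : k + j + 2 < u := by
        by_contra h'
        exact hu.2 ⟨h, not_lt.1 h'⟩
      rw [hz2 _ (by linarith), zero_mul]
  have hS : ∀ J : ℕ, ∫ u in Ioi k, (Real.smoothTransition (u - k) -
      Real.smoothTransition (u - (k + J))) * I u = ∑ j ∈ Finset.range J, W j := fun J => by
    simp only [← tele_cusp, Finset.sum_mul]
    rw [integral_finsetSum _ fun j _ => hint j]
    exact Finset.sum_congr rfl fun j _ => hW j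
  have hlim : Tendsto (fun J : ℕ => ∑ j ∈ Finset.range J, W j) atTop
      (𝓝 (∫ u in Ioi k, Real.smoothTransition (u - k) * I u)) := by
    simp only [← hS]
    refine tendsto_integral_of_dominated_convergence (fun u => ‖I u‖) (fun J => ?_) iI.norm
      (fun J => Eventually.of_forall fun u => ?_) (Eventually.of_forall fun u => ?_)
    · refine Continuous.aestronglyMeasurable ?_
      have := Real.smoothTransition.continuous
      fun_prop
    · rw [norm_mul]
      refine mul_le_of_le_one_left (norm_nonneg _) ?_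
      have h1 := Real.smoothTransition.nonneg (u - k)
      have h2 := Real.smoothTransition.le_one (u - k)
      have h3 := Real.smoothTransition.nonneg (u - (k + J))
      have h4 := Real.smoothTransition.le_one (u - (k + J))
      rw [Real.norm_eq_abs, abs_le]
      constructor <;> linarith
    · refine tendsto_const_nhds.congr' ?_
      filter_upwards [tendsto_natCast_atTop_atTop.eventually_ge_atTop (u - k)] with J hJ
      rw [Real.smoothTransition.zero_of_nonpos (x := u - (k + J)) (by linarith), sub_zero]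
  let F : ℝ → ℝ := fun x => ∫ u in k..x, m u
  have hF0 : ∀ x, k ≤ x → 0 ≤ F x := fun x hx =>
    intervalIntegral.integral_nonneg hx fun u _ => m0 u
  have hF1 : ∀ x, k ≤ x → F x ≤ 1 := fun x hx => by
    simp only [F]
    rw [intervalIntegral.integral_of_le hx]
    exact (setIntegral_mono_set im (Eventually.of_forall m0)
      (Eventually.of_forall Ioc_subset_Ioi_self)).trans hm
  have hj0 : (0 : ℝ) < j0 := by exact_mod_cast hj
  have hs0 : 0 < √(j0 : ℝ) := Real.sqrt_pos.2 hj0
  have hb : ∀ J : ℕ, j0 ≤ J → |∑ j ∈ Finset.range J, W j| ≤ 2 * X * Real.exp ((k + j0) / 2) +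
      Y * (2 / √(j0 : ℝ) - 2 / √(J : ℝ)) + Y / √(j0 : ℝ) * (F (k + J) + F (k + J + 1)) := by
    intro J hJ
    induction J, hJ using Nat.le_induction with
    | base =>
      have h1 : |∑ j ∈ Finset.range j0, W j| ≤ X * ∑ j ∈ Finset.range j0, Real.exp ((k + j) / 2) := by
        rw [Finset.mul_sum]
        exact (Finset.abs_sum_le_sum_abs _ _).trans (Finset.sum_le_sum fun j _ => hlow j)
      have h2 := mul_le_mul_of_nonneg_left (geo_cusp k j0) hX
      have h3 : 0 ≤ Y / √(j0 : ℝ) * (F (k + j0) + F (k + j0 + 1)) :=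
        mul_nonneg (by positivity) (add_nonneg (hF0 _ (by linarith)) (hF0 _ (by linarith)))
      linarith
    | succ J hJ ih =>
      have hJ' : (j0 : ℝ) ≤ J := by exact_mod_cast hJ
      have h1 : |W J| ≤ _ := hhigh J
      have h2 : ∫ u in (k + J)..(k + J + 2), m u = F (k + J + 2) - F (k + J) :=
        (intervalIntegral.integral_interval_sub_left (cm.intervalIntegrable _ _)
          (cm.intervalIntegrable _ _)).symm
      have h3 : 0 ≤ ∫ u in (k + J)..(k + J + 2), m u :=
        intervalIntegral.integral_nonneg (by linarith) fun u _ => m0 u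
      have h4 : Y / √((J : ℝ) + 1) ≤ Y / √(j0 : ℝ) :=
        div_le_div_of_nonneg_left hY hs0 (Real.sqrt_le_sqrt (by linarith))
      have h5 := mul_le_mul_of_nonneg_right h4 h3
      have h6 := mul_le_mul_of_nonneg_left (sq_cusp (hj0.trans_le hJ')) hY
      rw [mul_one_div] at h6
      rw [h2] at h1 h5
      rw [Finset.sum_range_succ]
      have e1 : k + ((J + 1 : ℕ) : ℝ) = k + J + 1 := by push_cast; ring
      have e2 : k + J + 1 + 1 = k + J + 2 := by ring
      rw [e1, e2, Nat.cast_succ]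
      linarith [abs_add_le (∑ j ∈ Finset.range J, W j) (W J)]
  refine le_of_tendsto hlim.abs ?_
  filter_upwards [eventually_ge_atTop j0] with J hJ
  refine (hb J hJ).trans ?_
  have hJ0 : (0 : ℝ) ≤ J := Nat.cast_nonneg J
  have h1 : Y / √(j0 : ℝ) * (F (k + J) + F (k + J + 1)) ≤ Y / √(j0 : ℝ) * 2 :=
    mul_le_mul_of_nonneg_left
      (by linarith [hF1 (k + J) (by linarith), hF1 (k + J + 1) (by linarith)]) (by positivity)
  have h2 : 0 ≤ Y * (2 / √(J : ℝ)) := by positivity
  have h3 : Y * (2 / √(j0 : ℝ)) = Y / √(j0 : ℝ) * 2 := by ring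
  have h4 : 4 * Y / √(j0 : ℝ) = Y / √(j0 : ℝ) * 4 := by ring
  linarith

/-- The cubic integral over a cusp. -/
theorem cusp (A : ℝ) (hA : 0 ≤ A) : ∃ C L : ℝ, 2 ≤ L ∧ ∀ (lam : ℝ) (f : ℂ → ℝ), Cusp A lam f →
    L ≤ lam →
    |∫ u in Ioi (A + 5), Real.smoothTransition (u - (A + 5)) * I3 f u| ≤
      C / √(Real.log lam) := by
  obtain ⟨C1, L1, hC1, hlow⟩ := low
  obtain ⟨C2, hC2, hhigh⟩ := high
  refine ⟨8 * C1 * Real.exp ((A + 5) / 2) + 24 * C2, max (max 5000 L1) (Real.exp 32),
    le_trans (by norm_num) ((le_max_left _ _).trans (le_max_left _ _)), fun lam f h hl => ?_⟩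
  have l1 : 5000 ≤ lam := ((le_max_left _ _).trans (le_max_left _ _)).trans hl
  have l2 : L1 ≤ lam := ((le_max_right _ _).trans (le_max_left _ _)).trans hl
  have l3 : Real.exp 32 ≤ lam := (le_max_right _ _).trans hl
  have lpos : 0 < lam := by linarith
  have l4 : 32 ≤ Real.log lam := (Real.le_log_iff_exp_le lpos).2 l3
  obtain ⟨B, hB⟩ := h.bdd (by linarith)
  have m0 : ∀ u, 0 ≤ m2 f u := fun u =>
    intervalIntegral.integral_nonneg zero_le_one fun x _ => sq_nonneg _
  have hsub : Ioi (A + 5) ⊆ Ioi A := Ioi_subset_Ioi (by linarith)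
  have im : IntegrableOn (m2 f) (Ioi (A + 5)) := h.int.mono_set hsub
  have hm : ∫ u in Ioi (A + 5), m2 f u ≤ 1 :=
    (setIntegral_mono_set h.int (Eventually.of_forall m0) (Eventually.of_forall hsub)).trans h.mass
  have iI : IntegrableOn (I3 f) (Ioi (A + 5)) := by
    refine Integrable.mono' (im.const_mul B) (continuous_I3 h.sm).aestronglyMeasurable ?_
    refine (ae_restrict_iff' measurableSet_Ioi).2 (Eventually.of_forall fun u hu => ?_)
    have hu' : A ≤ u := (hsub hu).le
    have hc : Continuous fun x => Wf f u x :=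
      (continuous_Wf h.sm).comp (Continuous.prodMk_right u)
    have h1 : ‖∫ x in (0 : ℝ)..1, Wf f u x ^ 3‖ ≤
        ∫ x in (0 : ℝ)..1, Real.exp (-u / 2) * B * Wf f u x ^ 2 := by
      refine intervalIntegral.norm_integral_le_of_norm_le zero_le_one
        (Eventually.of_forall fun x _ => ?_)
        ((continuous_const.mul (hc.pow 2)).intervalIntegrable _ _)
      rw [Real.norm_eq_abs, pow_succ', abs_mul, abs_of_nonneg (sq_nonneg (Wf f u x))]
      refine mul_le_mul_of_nonneg_right ?_ (sq_nonneg _)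
      rw [Wf, abs_mul, abs_of_pos (Real.exp_pos _)]
      exact mul_le_mul_of_nonneg_left (hB u x hu') (Real.exp_pos _).le
    rw [intervalIntegral.integral_const_mul] at h1
    have h2 : Real.exp (u / 2) * Real.exp (-u / 2) = 1 := by
      rw [← Real.exp_add, show u / 2 + -u / 2 = 0 by ring, Real.exp_zero]
    rw [I3, norm_mul, Real.norm_of_nonneg (Real.exp_pos _).le]
    calc _ ≤ Real.exp (u / 2) * (Real.exp (-u / 2) * B * ∫ x in (0 : ℝ)..1, Wf f u x ^ 2) :=
          mul_le_mul_of_nonneg_left h1 (Real.exp_pos _).le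
      _ = B * m2 f u := by rw [m2, ← mul_assoc, ← mul_assoc, h2, one_mul]
  set l := Real.log lam with hl'
  have j1 : (⌊l / 16⌋₊ : ℝ) ≤ l / 16 := Nat.floor_le (by linarith)
  have j2 : l / 16 < ⌊l / 16⌋₊ + 1 := Nat.lt_floor_add_one _
  have j3 : 1 ≤ ⌊l / 16⌋₊ := Nat.le_floor (by rw [Nat.cast_one]; linarith)
  have hX : lam ^ (-(1 / 16) : ℝ) = Real.exp (-(l / 16)) := by
    rw [Real.rpow_def_of_pos lpos, ← hl']
    congr 1
    ring
  have key := sum_win (m := m2 f) (I := I3 f) (k := A + 5) (X := C1 * Real.exp (-(l / 16)))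
    (Y := C2) (by linarith) (by positivity) hC2.le (continuous_m2 h.sm) m0 im hm
    (continuous_I3 h.sm) iI (fun j => ?_) (fun j => ?_) j3
  · refine key.trans ?_
    have hs : 0 < √l := Real.sqrt_pos.2 (by linarith)
    have s1 : √l ≤ 4 * Real.exp (l / 32) := by
      refine Real.sqrt_le_iff.2 ⟨by positivity, ?_⟩
      have h1 := Real.add_one_le_exp (l / 16)
      have h2 : Real.exp (l / 32) ^ 2 = Real.exp (l / 16) := by
        rw [sq, ← Real.exp_add]
        congr 1
        ring
      rw [mul_pow, h2]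
      linarith
    have hs' : 0 < √(⌊l / 16⌋₊ : ℝ) := Real.sqrt_pos.2 (by linarith)
    have s2 : √l ≤ 6 * √(⌊l / 16⌋₊ : ℝ) := by
      refine Real.sqrt_le_iff.2 ⟨by positivity, ?_⟩
      rw [mul_pow, Real.sq_sqrt (Nat.cast_nonneg _)]
      linarith
    rw [add_div _ (24 * C2)]
    refine add_le_add ?_ ?_
    · rw [le_div_iff₀ hs]
      have h1 : Real.exp (-(l / 16)) * Real.exp ((A + 5 + ⌊l / 16⌋₊) / 2) * Real.exp (l / 32) ≤
          Real.exp ((A + 5) / 2) := by
        rw [← Real.exp_add, ← Real.exp_add]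
        exact Real.exp_le_exp.2 (by linarith)
      calc 2 * (C1 * Real.exp (-(l / 16))) * Real.exp ((A + 5 + ⌊l / 16⌋₊) / 2) * √l
          ≤ 2 * (C1 * Real.exp (-(l / 16))) * Real.exp ((A + 5 + ⌊l / 16⌋₊) / 2) *
            (4 * Real.exp (l / 32)) := by gcongr
        _ = 8 * C1 * (Real.exp (-(l / 16)) * Real.exp ((A + 5 + ⌊l / 16⌋₊) / 2) *
            Real.exp (l / 32)) := by ring
        _ ≤ 8 * C1 * Real.exp ((A + 5) / 2) := by gcongr
    · rw [div_le_div_iff₀ hs' hs]
      nlinarith [mul_le_mul_of_nonneg_left s2 hC2.le]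
  · have hj : (0 : ℝ) ≤ j := Nat.cast_nonneg j
    refine (hlow A lam f (A + 5 + j) h l2 (by linarith) (by linarith)).trans (le_of_eq ?_)
    rw [hX]
    ring
  · have hj : (0 : ℝ) ≤ j := Nat.cast_nonneg j
    have := hhigh A lam f (A + 5 + j) h l1 (by linarith)
    rwa [show A + 5 + j - A - 4 = (j : ℝ) + 1 by ring] at this

end Pool.Agent.Lib.MP_a52643_an.H6C
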