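import Pool.Agent.Lib.MP_a52643_an.H6CMode

open MeasureTheory Set Filter Topology Metric UpperHalfPlane
open scoped ENNReal NNReal ContDiff Laplacian MatrixGroups Real

noncomputable section

namespace Pool.Agent.Lib.MP_a52643_an.H6C

/-- The strip as a subset of the plane. -/
def St_strip (A : ℝ) : Set ℂ := {z | 0 < z.re ∧ z.re ≤ 1 ∧ Real.exp A < z.im}

lemma measurableSet_St_strip (A : ℝ) : MeasurableSet (St_strip A) := by
  unfold St_strip
  refine (measurableSet_lt measurable_const Complex.measurable_re).inter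
    ((measurableSet_le Complex.measurable_re measurable_const).inter
      (measurableSet_lt measurable_const Complex.measurable_im))

lemma St_eq_strip (A : ℝ) : St A = UpperHalfPlane.coe ⁻¹' St_strip A := rfl

lemma continuous_pt_strip : Continuous fun p : ℝ × ℝ => pt p.2 p.1 := by
  unfold pt; fun_prop

lemma pt_re_strip (x u : ℝ) : (pt x u).re = x := by
  simp [pt, -Complex.ofReal_exp]

lemma pt_im_strip (x u : ℝ) : (pt x u).im = Real.exp u := by
  simp [pt, -Complex.ofReal_exp]

theorem measurableSet_St (A : ℝ) : MeasurableSet (St A) := by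
  rw [St_eq_strip]
  exact measurable_coe (measurableSet_St_strip A)

theorem lintegral_St (A : ℝ) {G : ℂ → ℝ≥0∞} (hG : Measurable G) :
    ∫⁻ z in St A, G z = ∫⁻ u in Ioi A, ∫⁻ x in Ioc (0 : ℝ) 1,
      ENNReal.ofReal (Real.exp (-u)) * G (pt x u) := by
  have hS := measurableSet_St_strip A
  have hd : Measurable fun z : ℂ => ENNReal.ofReal (1 / z.im ^ 2) := by
    refine ENNReal.measurable_ofReal.comp ?_
    exact measurable_const.div (Complex.measurable_im.pow_const 2)
  have hsub : St_strip A ⊆ UH := fun z hz => lt_trans (Real.exp_pos A) hz.2.2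
  have hF : Measurable fun z : ℂ => ENNReal.ofReal (1 / z.im ^ 2) * G z := hd.mul hG
  have h1 : ∫⁻ z in St A, G z =
      ∫⁻ z in St_strip A, ENNReal.ofReal (1 / z.im ^ 2) * G z := by
    rw [St_eq_strip, measurePreserving_coe.setLIntegral_comp_preimage hS hG, hyp,
      restrict_withDensity hS, lintegral_withDensity_eq_lintegral_mul _ hd hG,
      Measure.restrict_restrict hS, inter_eq_left.2 hsub]
    rfl
  have hpre : Complex.measurableEquivRealProd.symm ⁻¹' St_strip A =
      Ioc (0 : ℝ) 1 ×ˢ Ioi (Real.exp A) := by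
    ext p
    simp only [St_strip, mem_preimage, Complex.measurableEquivRealProd_symm_apply, mem_ofPred_eq,
      mem_prod, mem_Ioc, mem_Ioi, and_assoc]
  have hF2 : Measurable fun p : ℝ × ℝ =>
      ENNReal.ofReal (1 / (Complex.measurableEquivRealProd.symm p).im ^ 2) *
        G (Complex.measurableEquivRealProd.symm p) :=
    hF.comp Complex.measurableEquivRealProd.symm.measurable
  have h2 : ∫⁻ z in St_strip A, ENNReal.ofReal (1 / z.im ^ 2) * G z =
      ∫⁻ y in Ioi (Real.exp A), ∫⁻ x in Ioc (0 : ℝ) 1,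
        ENNReal.ofReal (1 / y ^ 2) * G ⟨x, y⟩ := by
    rw [← (Complex.volume_preserving_equiv_real_prod.symm _).setLIntegral_comp_preimage hS hF,
      hpre, Measure.volume_eq_prod, setLIntegral_prod_symm _ hF2.aemeasurable]
    rfl
  have him : Ioi (Real.exp A) = Real.exp '' Ioi A := by
    ext y
    constructor
    · intro hy
      have hy0 : 0 < y := lt_trans (Real.exp_pos A) hy
      exact ⟨Real.log y, (Real.lt_log_iff_exp_lt hy0).2 hy, Real.exp_log hy0⟩
    · rintro ⟨u, hu, rfl⟩
      exact Real.exp_lt_exp.2 hu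
  rw [h1, h2, him, lintegral_image_eq_lintegral_abs_deriv_mul measurableSet_Ioi
    (fun u _ => (Real.hasDerivAt_exp u).hasDerivWithinAt) Real.exp_injective.injOn]
  refine lintegral_congr fun u => ?_
  rw [← lintegral_const_mul' _ _ ENNReal.ofReal_ne_top]
  refine lintegral_congr fun x => ?_
  have hp : (⟨x, Real.exp u⟩ : ℂ) = pt x u :=
    Complex.ext (pt_re_strip x u).symm (pt_im_strip x u).symm
  rw [hp, ← mul_assoc, ← ENNReal.ofReal_mul (abs_nonneg _), abs_of_pos (Real.exp_pos u)]
  congr 2
  rw [Real.exp_neg]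
  have := (Real.exp_pos u).ne'
  field_simp

theorem volume_St (A : ℝ) : volume (St A) ≠ ⊤ := by
  have h := lintegral_St A (G := fun _ => 1) measurable_const
  simp only [lintegral_const, MeasurableSet.univ, Measure.restrict_apply, univ_inter, one_mul,
    mul_one, Real.volume_Ioc, sub_zero, ENNReal.ofReal_one] at h
  rw [h]
  exact (integrableOn_exp_neg_Ioi A).lintegral_lt_top.ne

/-- The weighted product measure in the coordinates `(u, x)`. -/
def nu_strip (A : ℝ) : Measure (ℝ × ℝ) :=
  ((volume.restrict (Ioi A)).withDensity fun u => ENNReal.ofReal (Real.exp (-u))).prod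
    (volume.restrict (Ioc (0 : ℝ) 1))

lemma mp_strip (A : ℝ) : MeasurePreserving (fun p : ℝ × ℝ => pt p.2 p.1) (nu_strip A)
    ((volume.restrict (St A)).map UpperHalfPlane.coe) := by
  have hm := continuous_pt_strip.measurable
  have hd : Measurable fun u : ℝ => ENNReal.ofReal (Real.exp (-u)) := by fun_prop
  refine ⟨hm, Measure.ext fun s hs => ?_⟩
  have hi : Measurable (s.indicator (1 : ℂ → ℝ≥0∞)) := measurable_one.indicator hs
  have hj : Measurable fun p : ℝ × ℝ => s.indicator (1 : ℂ → ℝ≥0∞) (pt p.2 p.1) := hi.comp hm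
  rw [← lintegral_indicator_one hs, ← lintegral_indicator_one hs, lintegral_map hi hm,
    lintegral_map hi measurable_coe, lintegral_St A hi, nu_strip,
    lintegral_prod _ hj.aemeasurable,
    lintegral_withDensity_eq_lintegral_mul _ hd hj.lintegral_prod_right']
  refine lintegral_congr fun u => ?_
  rw [lintegral_const_mul' _ _ ENNReal.ofReal_ne_top]
  rfl

theorem integral_St (A : ℝ) {G : ℂ → ℝ} (hG : ContinuousOn G UH)
    (hi : IntegrableOn (fun z : ℍ => G z) (St A)) :
    ∫ z in St A, G z = ∫ u in Ioi A, Real.exp (-u) * ∫ x in (0 : ℝ)..1, G (pt x u) := by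
  have he : MeasurableEmbedding UpperHalfPlane.coe := isOpenEmbedding_coe.measurableEmbedding
  have hd : Measurable fun u : ℝ => ENNReal.ofReal (Real.exp (-u)) := by fun_prop
  have h1 : Integrable G ((volume.restrict (St A)).map UpperHalfPlane.coe) :=
    he.integrable_map_iff.2 hi
  have h2 : Integrable (fun p : ℝ × ℝ => G (pt p.2 p.1)) (nu_strip A) :=
    (mp_strip A).integrable_comp_of_integrable h1
  have h3 : ∫ z in St A, G z = ∫ p, G (pt p.2 p.1) ∂nu_strip A := by
    rw [← he.integral_map, ← (mp_strip A).map_eq,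
      integral_map (mp_strip A).measurable.aemeasurable]
    rw [(mp_strip A).map_eq]
    exact h1.aestronglyMeasurable
  rw [h3, nu_strip, integral_prod _ h2,
    integral_withDensity_eq_integral_toReal_smul hd
      (Eventually.of_forall fun _ => ENNReal.ofReal_lt_top)]
  refine integral_congr_ae (Eventually.of_forall fun u => ?_)
  simp only [ENNReal.toReal_ofReal (Real.exp_pos _).le, smul_eq_mul,
    intervalIntegral.integral_of_le zero_le_one]

theorem mass_St (A : ℝ) {f : ℂ → ℝ} (hf : ContDiffOn ℝ ∞ f UH)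
    (hm : ∫⁻ z in St A, ENNReal.ofReal (f z ^ 2) ≤ 1) :
    IntegrableOn (m2 f) (Ioi A) ∧ ∫ u in Ioi A, m2 f u ≤ 1 := by
  classical
  have hU : MeasurableSet UH := isOpen_UH.measurableSet
  have hc : ContinuousOn (fun z => ENNReal.ofReal (f z ^ 2)) UH :=
    ENNReal.continuous_ofReal.comp_continuousOn (hf.continuousOn.pow 2)
  have hG : Measurable (UH.piecewise (fun z => ENNReal.ofReal (f z ^ 2)) fun _ => 0) :=
    hc.measurable_piecewise continuousOn_const hU
  have h1 := lintegral_St A hG
  have h2 : ∫⁻ z in St A, UH.piecewise (fun z => ENNReal.ofReal (f z ^ 2)) (fun _ => 0) z =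
      ∫⁻ z in St A, ENNReal.ofReal (f z ^ 2) :=
    lintegral_congr fun z => piecewise_eq_of_mem _ _ _ z.im_pos
  have h0 : ∀ u, 0 ≤ m2 f u := fun u =>
    intervalIntegral.integral_nonneg zero_le_one fun x _ => sq_nonneg _
  have h3 : ∀ u, ∫⁻ x in Ioc (0 : ℝ) 1, ENNReal.ofReal (Real.exp (-u)) *
      UH.piecewise (fun z => ENNReal.ofReal (f z ^ 2)) (fun _ => 0) (pt x u) =
      ENNReal.ofReal (m2 f u) := by
    intro u
    have hw : Continuous fun x => Wf f u x ^ 2 :=
      ((continuous_Wf hf).comp (Continuous.prodMk_right u)).pow 2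
    rw [m2, intervalIntegral.integral_of_le zero_le_one, ofReal_integral_eq_lintegral_ofReal
      (hw.integrableOn_Icc.mono_set Ioc_subset_Icc_self)
      (Eventually.of_forall fun x => sq_nonneg _)]
    refine lintegral_congr fun x => ?_
    rw [piecewise_eq_of_mem _ _ _ (pt_mem x u), ← ENNReal.ofReal_mul (Real.exp_pos _).le, Wf,
      mul_pow, ← Real.exp_nat_mul]
    congr 3
    push_cast
    ring
  have h4 : ∫⁻ u in Ioi A, ENNReal.ofReal (m2 f u) ≤ 1 := by
    rw [← lintegral_congr h3, ← h1, h2]
    exact hm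
  have h5 : IntegrableOn (m2 f) (Ioi A) :=
    ⟨(continuous_m2 hf).aestronglyMeasurable,
      (hasFiniteIntegral_iff_ofReal (Eventually.of_forall h0)).2 (h4.trans_lt ENNReal.one_lt_top)⟩
  refine ⟨h5, ?_⟩
  rw [← ofReal_integral_eq_lintegral_ofReal h5 (Eventually.of_forall h0)] at h4
  exact ENNReal.ofReal_le_one.1 h4

end Pool.Agent.Lib.MP_a52643_an.H6C
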