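import Pool.Agent.Lib.MP_a52643_an.H6CCusp
import Pool.Agent.Lib.MP_a52643_an.H6CStrip

open MeasureTheory Set Filter Topology Metric UpperHalfPlane
open scoped ENNReal NNReal ContDiff Laplacian MatrixGroups Real

noncomputable section

namespace Pool.Agent.Lib.MP_a52643_an.H6C

theorem pt_im_cusp2 (x u : ℝ) : (pt x u).im = Real.exp u := by
  simp only [pt, Complex.add_im, Complex.ofReal_im, Complex.mul_im, Complex.ofReal_re,
    Complex.I_im, Complex.I_re, mul_one, mul_zero, add_zero, zero_add]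

theorem pt_re_cusp2 (x u : ℝ) : (pt x u).re = x := by
  simp only [pt, Complex.add_re, Complex.ofReal_im, Complex.mul_re, Complex.ofReal_re,
    Complex.I_im, Complex.I_re, mul_one, mul_zero, add_zero, sub_zero]

theorem pt_log_cusp2 (z : ℍ) : pt z.re (Real.log z.im) = z := by
  apply Complex.ext
  · rw [pt_re_cusp2, coe_re]
  · rw [pt_im_cusp2, Real.exp_log z.im_pos, coe_im]

theorem I3_eq_cusp2 (f : ℂ → ℝ) (u : ℝ) :
    I3 f u = Real.exp (-u) * ∫ x in (0 : ℝ)..1, f (pt x u) ^ 3 := by
  unfold I3 Wf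
  simp only [mul_pow]
  rw [intervalIntegral.integral_const_mul, ← mul_assoc, ← Real.exp_nat_mul, ← Real.exp_add]
  congr 2
  push_cast
  ring

/-- The cubic integral over a cusp, on the upper half plane. -/
theorem cusp2 (A : ℝ) (hA : 0 ≤ A) : ∃ C L : ℝ, 2 ≤ L ∧ ∀ (lam : ℝ) (f : ℂ → ℝ),
    ContDiffOn ℝ ∞ f UH → (∀ z ∈ UH, f (z + 1) = f z) →
    (∀ z : ℂ, Real.exp A < z.im → z.im ^ 2 * Δ f z = -lam * f z) →
    ∫⁻ z in St A, ENNReal.ofReal (f z ^ 2) ≤ 1 → L ≤ lam →
    IntegrableOn (fun z : ℍ => Real.smoothTransition (Real.log z.im - (A + 5)) * f z ^ 3) (St A) ∧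
    |∫ z in St A, Real.smoothTransition (Real.log z.im - (A + 5)) * f z ^ 3| ≤
      C / √(Real.log lam) := by
  obtain ⟨C, L, hL, h⟩ := cusp A hA
  refine ⟨C, L, hL, fun lam f hf hp he hm hl => ?_⟩
  have hc : Cusp A lam f := ⟨hf, hp, he, (mass_St A hf hm).1, (mass_St A hf hm).2⟩
  obtain ⟨B, hB⟩ := hc.bdd (hL.trans hl)
  let G : ℂ → ℝ := fun z => Real.smoothTransition (Real.log z.im - (A + 5)) * f z ^ 3
  have hG : ContinuousOn G UH := by
    refine ContinuousOn.mul ?_ (hf.continuousOn.pow 3)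
    refine Real.smoothTransition.continuous.comp_continuousOn (ContinuousOn.sub ?_ continuousOn_const)
    exact Complex.continuous_im.continuousOn.log fun z hz => ne_of_gt hz
  have hG' : Continuous fun z : ℍ => G z :=
    hG.comp_continuous continuous_coe fun z => z.im_pos
  have hi : IntegrableOn (fun z : ℍ => G z) (St A) := by
    refine Measure.integrableOn_of_bounded (M := B ^ 3) (volume_St A) hG'.aestronglyMeasurable ?_
    filter_upwards [ae_restrict_mem (measurableSet_St A)] with z hz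
    have h1 : A ≤ Real.log z.im := (Real.le_log_iff_exp_le z.im_pos).mpr hz.2.2.le
    have h2 := hB _ z.re h1
    rw [pt_log_cusp2] at h2
    simp only [G]
    rw [Real.norm_eq_abs, abs_mul, abs_pow, abs_of_nonneg (Real.smoothTransition.nonneg _)]
    calc _ ≤ 1 * B ^ 3 :=
          mul_le_mul (Real.smoothTransition.le_one _) (pow_le_pow_left₀ (abs_nonneg _) h2 3)
            (by positivity) zero_le_one
      _ = B ^ 3 := one_mul _
  refine ⟨hi, ?_⟩
  have h3 := integral_St A hG hi
  have h4 : ∀ u, Real.exp (-u) * ∫ x in (0 : ℝ)..1, G (pt x u) =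
      Real.smoothTransition (u - (A + 5)) * I3 f u := by
    intro u
    simp only [G, pt_im_cusp2, Real.log_exp]
    rw [intervalIntegral.integral_const_mul, I3_eq_cusp2]
    ring
  simp only [h4] at h3
  have h5 : ∫ u in Ioi A, Real.smoothTransition (u - (A + 5)) * I3 f u =
      ∫ u in Ioi (A + 5), Real.smoothTransition (u - (A + 5)) * I3 f u := by
    refine setIntegral_eq_of_subset_of_forall_sdiff_eq_zero measurableSet_Ioi
      (Ioi_subset_Ioi (by linarith)) fun u hu => ?_
    have h6 : u - (A + 5) ≤ 0 := sub_nonpos.mpr (not_lt.mp hu.2)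
    rw [Real.smoothTransition.zero_of_nonpos h6, zero_mul]
  have h7 := h lam f hc hl
  rw [← h5, ← h3] at h7
  exact h7

end Pool.Agent.Lib.MP_a52643_an.H6C
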