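import Pool.Agent.Lib.MP_a52643_an.H6CStrip
import Pool.Agent.Lib.MP_a52643_an.H6CThick
import Pool.Agent.Lib.MP_a52643_an.H60Unf

open MeasureTheory Set Filter Topology Metric UpperHalfPlane
open scoped ENNReal NNReal ContDiff Laplacian MatrixGroups Real

noncomputable section

namespace Pool.Agent.Lib.MP_a52643_an.H6C

variable {Γ : Type} [Group Γ] [Countable Γ] [MulAction Γ ℍ] {l : Γ → SL2} {D : Set ℍ}
  {S : Finset SL2} {A : ℝ}

/-- Union of the cuspidal strips. -/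
def Str (S : Finset SL2) (A : ℝ) : Set ℍ := {z | ∃ s ∈ S, s⁻¹ • z ∈ St A}

lemma ten_dec (hA : 3 ≤ A) : 10 < Real.exp A := by
  have h1 : Real.exp 3 ≤ Real.exp A := Real.exp_le_exp.2 hA
  have h2 : Real.exp 3 = Real.exp 1 ^ 3 := by rw [← Real.exp_nat_mul]; norm_num
  have h3 := Real.exp_one_gt_d9
  have h4 : (2.7 : ℝ) ^ 3 ≤ Real.exp 1 ^ 3 := by gcongr; linarith
  norm_num at h4
  linarith

omit [Countable Γ] in
lemma zpow_dec {δ : Γ} {s : SL2} (h : ∀ w : ℍ, δ • s • w = s • ((1 : ℝ) +ᵥ w)) (n : ℤ) :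
    ∀ w : ℍ, δ ^ n • s • w = s • ((n : ℝ) +ᵥ w) := by
  have h' : ∀ w : ℍ, δ⁻¹ • s • w = s • ((-1 : ℝ) +ᵥ w) := fun w => by
    rw [inv_smul_eq_iff, h, vadd_vadd, add_neg_cancel, zero_vadd]
  induction n using Int.induction_on with
  | zero => intro w; simp
  | succ n ih =>
    intro w
    rw [zpow_add_one, mul_smul, h, ih, vadd_vadd]
    push_cast
    rfl
  | pred n ih =>
    intro w
    rw [zpow_sub_one, mul_smul, h', ih, vadd_vadd]
    push_cast
    rfl

lemma pre_dec (s : SL2) (A : ℝ) : MeasurableSet ((fun z : ℍ => s⁻¹ • z) ⁻¹' St A) :=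
  (measurePreserving_smul s⁻¹ volume).measurable (measurableSet_St A)

lemma Str_eq_dec (S : Finset SL2) (A : ℝ) :
    Str S A = ⋃ s ∈ S, (fun z : ℍ => s⁻¹ • z) ⁻¹' St A := by
  ext z
  simp [Str]

lemma meas_Str_dec (S : Finset SL2) (A : ℝ) : MeasurableSet (Str S A) := by
  rw [Str_eq_dec]
  exact Finset.measurableSet_biUnion _ fun s _ => pre_dec s A

omit [Countable Γ] in
theorem free_Str (hD : FD l D) (hS : Cusps Γ S) (hA : 3 ≤ A) : Free Γ (Str S A) := by
  rintro γ hγ z ⟨s, hs, h1⟩ ⟨s', hs', h2⟩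
  have h10 := ten_dec hA
  obtain ⟨rfl, n, hn⟩ := hS.sep s hs s' hs' γ (s⁻¹ • z) (s'⁻¹ • γ • z) (h10.trans h1.2.2)
    (h10.trans h2.2.2) (by rw [smul_inv_smul, smul_inv_smul])
  have e := hn (s⁻¹ • z)
  rw [smul_inv_smul] at e
  rw [e, inv_smul_smul] at h2
  obtain ⟨a1, a2, -⟩ := h1
  obtain ⟨b1, b2, -⟩ := h2
  rw [vadd_re] at b1 b2
  have n0 : n = 0 := by
    have c1 : (-1 : ℝ) < n := by linarith
    have c2 : (n : ℝ) < 1 := by linarith
    have c3 : -1 < n := by exact_mod_cast c1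
    have c4 : n < 1 := by exact_mod_cast c2
    omega
  refine hγ (act_ne hD fun w => ?_)
  have := hn (s⁻¹ • w)
  rwa [n0, Int.cast_zero, zero_vadd, smul_inv_smul] at this

omit [Countable Γ] in
theorem mem_Str (hS : Cusps Γ S) {s : SL2} (hs : s ∈ S) {w : ℍ} (hw : Real.exp A < w.im) :
    ∃ γ : Γ, γ • s • w ∈ Str S A := by
  obtain ⟨δ, hδ⟩ := hS.per s hs
  refine ⟨δ ^ (1 - ⌈w.re⌉), s, hs, ?_⟩
  rw [zpow_dec hδ, inv_smul_smul]
  have h1 := Int.le_ceil w.re
  have h2 := Int.ceil_lt_add_one w.re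
  refine ⟨?_, ?_, ?_⟩
  · rw [vadd_re]; push_cast; linarith
  · rw [vadd_re]; push_cast; linarith
  · rwa [vadd_im]

theorem mass_le (hD : FD l D) (hS : Cusps Γ S) (hA : 3 ≤ A) {F : ℍ → ℝ≥0∞} (hF : Measurable F)
    (hi : ∀ (γ : Γ) z, F (γ • z) = F z) {s : SL2} (hs : s ∈ S) :
    ∫⁻ w in St A, F (s • w) ≤ ∫⁻ z in D, F z := by
  have e1 := (measurePreserving_smul s⁻¹ (volume : Measure ℍ)).setLIntegral_comp_preimage
    (measurableSet_St A) (f := fun w => F (s • w))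
    (hF.comp (measurePreserving_smul s (volume : Measure ℍ)).measurable)
  simp only [smul_inv_smul] at e1
  have e2 := hD.eqv.le_of_tsum hD hF hi (meas_Str_dec S A) (free_Str hD hS hA).tsum_le
  simp only [preimage_id, one_mul] at e2
  rw [← e1]
  refine le_trans (lintegral_mono_set fun z hz => ?_) e2
  exact ⟨s, hs, hz⟩

theorem dec_int (hD : FD l D) (hS : Cusps Γ S) (hA : 3 ≤ A) {F : ℍ → ℝ} (hF : Measurable F)
    (hi : ∀ (γ : Γ) z, F (γ • z) = F z)
    (h0 : ∀ z, F z ≠ 0 → ∃ γ : Γ, ∃ s ∈ S, ∃ w : ℍ, Real.exp A < w.im ∧ γ • z = s • w)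
    (hI : ∀ s ∈ S, IntegrableOn (fun w : ℍ => F (s • w)) (St A)) :
    IntegrableOn F D ∧ ∫ z in D, F z = ∑ s ∈ S, ∫ w in St A, F (s • w) := by
  have : MeasurableConstSMul Γ ℍ := ⟨fun γ => (hD.mp γ).measurable⟩
  have : SMulInvariantMeasure Γ ℍ volume :=
    ⟨fun γ s hs => (hD.mp γ).measure_preimage hs.nullMeasurableSet⟩
  have hO := meas_Str_dec S A
  have hf := free_Str hD hS hA
  have h10 := ten_dec hA
  have emb : ∀ s : SL2, MeasurableEmbedding fun z : ℍ => s • z := fun s =>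
    (Homeomorph.smul s).measurableEmbedding
  have i1 : ∀ s ∈ S, IntegrableOn F ((fun z : ℍ => s⁻¹ • z) ⁻¹' St A) := fun s hs => by
    have := ((measurePreserving_smul s⁻¹ (volume : Measure ℍ)).integrableOn_comp_preimage
      (emb s⁻¹)).2 (hI s hs)
    simpa only [Function.comp_def, smul_inv_smul] using this
  have i2 : ∀ s : SL2, ∫ z in (fun z : ℍ => s⁻¹ • z) ⁻¹' St A, F z =
      ∫ w in St A, F (s • w) := fun s => by
    have := (measurePreserving_smul s⁻¹ (volume : Measure ℍ)).setIntegral_preimage_emb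
      (emb s⁻¹) (fun w => F (s • w)) (St A)
    simpa only [smul_inv_smul] using this
  have i3 : IntegrableOn F (Str S A) := by
    rw [Str_eq_dec]
    exact integrableOn_finset_iUnion.2 i1
  have i4 : ∫ z in Str S A, F z = ∑ s ∈ S, ∫ w in St A, F (s • w) := by
    rw [Str_eq_dec, integral_biUnion_finset S (fun s _ => pre_dec s A) ?_ i1]
    · exact Finset.sum_congr rfl fun s _ => i2 s
    · intro s hs s' hs' hne
      refine disjoint_left.2 fun z h1 h2 => hne ?_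
      exact (hS.sep s hs s' hs' 1 (s⁻¹ • z) (s'⁻¹ • z) (h10.trans h1.2.2) (h10.trans h2.2.2)
        (by rw [smul_inv_smul, smul_inv_smul, one_smul])).1
  have hI' : Integrable ((Str S A).indicator F) volume := (integrable_indicator_iff hO).2 i3
  have key : ∀ z, (∀ γ : Γ, (Str S A).indicator F (γ • z) = 0) ∧ F z = 0 ∨
      ∃ γ : Γ, (Str S A).indicator F (γ • z) = F z ∧
        ∀ δ : Γ, δ ≠ γ → (Str S A).indicator F (δ • z) = 0 := fun z => by
    by_cases hz : F z = 0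
    · refine Or.inl ⟨fun γ => ?_, hz⟩
      by_cases h : γ • z ∈ Str S A
      · rw [indicator_of_mem h, hi, hz]
      · exact indicator_of_notMem h _
    · obtain ⟨γ, s, hs, w, hw, e⟩ := h0 z hz
      obtain ⟨γ', h'⟩ := mem_Str hS hs hw
      rw [← e, smul_smul] at h'
      refine Or.inr ⟨γ' * γ, by rw [indicator_of_mem h', hi], fun δ hδ => ?_⟩
      refine indicator_of_notMem (fun h'' => hf (δ * (γ' * γ)⁻¹)
        (by rwa [Ne, mul_inv_eq_one]) _ h' ?_) _
      rwa [smul_smul, inv_mul_cancel_right]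
  have k1 : ∀ z, ∑' γ : Γ, (Str S A).indicator F (γ • z) = F z := fun z => by
    rcases key z with ⟨h1, h2⟩ | ⟨γ, h1, h2⟩
    · simp only [h1, h2, tsum_zero]
    · rw [tsum_eq_single γ h2, h1]
  have k2 : ∀ z, ∑' γ : Γ, ‖(Str S A).indicator F (γ • z)‖ₑ = ‖F z‖ₑ := fun z => by
    rcases key z with ⟨h1, h2⟩ | ⟨γ, h1, h2⟩
    · simp only [h1, h2, enorm_zero, tsum_zero]
    · rw [tsum_eq_single γ fun δ hδ => by rw [h2 δ hδ, enorm_zero], h1]
  have hm : ∀ γ : Γ, Measurable fun z : ℍ => (Str S A).indicator F (γ • z) := fun γ =>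
    (hF.indicator hO).comp (hD.mp γ).measurable
  have e1 := (H60.fd_unf hD).integral_eq_tsum'' _ hI'
  have e2 := (H60.fd_unf hD).lintegral_eq_tsum'' fun z : ℍ => ‖(Str S A).indicator F z‖ₑ
  have e3 := integral_tsum (μ := volume.restrict D)
    (f := fun (γ : Γ) (z : ℍ) => (Str S A).indicator F (γ • z))
    (fun γ => (hm γ).aestronglyMeasurable) (by rw [← e2]; exact hI'.2.ne)
  refine ⟨⟨hF.aestronglyMeasurable, ?_⟩, ?_⟩
  · have e4 := lintegral_tsum (μ := volume.restrict D)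
      (f := fun (γ : Γ) (z : ℍ) => ‖(Str S A).indicator F (γ • z)‖ₑ)
      fun γ => (hm γ).enorm.aemeasurable
    simp only [k2] at e4
    rw [HasFiniteIntegral, e4, ← e2]
    exact hI'.2
  · simp only [k1] at e3
    rw [e3, ← e1, integral_indicator hO, i4]

end Pool.Agent.Lib.MP_a52643_an.H6C
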