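import Pool.Agent.Lib.MP_a52643_an.Fund

open MeasureTheory Set Filter Topology Metric UpperHalfPlane
open scoped ENNReal NNReal ContDiff Laplacian MatrixGroups Real

noncomputable section

namespace Pool.Agent.Lib.MP_a52643_an.H6C

/-! ### the ordinary differential equation of a Fourier mode in a cusp -/

def qq (t c u : ℝ) : ℝ := t ^ 2 - c ^ 2 * Real.exp (2 * u)

/-- `P = |w|^2`, `R = Re (w conj w')`, `Q = |w'|^2` for a square integrable solution of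
`w'' = - q w` on the half line `u > A`. -/
structure Sys (A t c : ℝ) (P R Q : ℝ → ℝ) : Prop where
  dP : ∀ u, A < u → HasDerivAt P (2 * R u) u
  dR : ∀ u, A < u → HasDerivAt R (Q u - qq t c u * P u) u
  dQ : ∀ u, A < u → HasDerivAt Q (-2 * qq t c u * R u) u
  P0 : ∀ u, 0 ≤ P u
  Q0 : ∀ u, 0 ≤ Q u
  cs : ∀ u, R u ^ 2 ≤ P u * Q u
  int : IntegrableOn P (Ioi A)

/-- The energy. -/
def En (t c : ℝ) (P Q : ℝ → ℝ) (u : ℝ) : ℝ := Q u + qq t c u * P u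

/-- Regularised distance to the turning point. -/
def rr (θ t c u : ℝ) : ℝ := max (qq t c u / t ^ 2) (θ ^ 4)

/-- An integrable bump of total mass four. -/
def gg (ρ h : ℝ) : ℝ := √ρ / ((|h| + ρ) * √(|h| + ρ))

/-- The resonance function. -/
def hh (x0 x1 x2 : ℝ) : ℝ := 3 - 2 * (x0 ^ 2 + x1 ^ 2 + x2 ^ 2)

/-- Majorant of the integrand after the integration by parts. -/
def maj (ℓ τ h a g l : ℝ) : ℝ :=
  a * ℓ ^ 2 / (h ^ 2 + ℓ ^ 2) +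
    τ * (|h| / (h ^ 2 + ℓ ^ 2) * (l + g) + 2 * |3 - h| * g / (h ^ 2 + ℓ ^ 2))

/-- Bound for the normalised primitive. -/
def gB (x0 x1 x2 p0 p1 p2 d0 d1 d2 : ℝ) : ℝ :=
  |1 + 2 * x1 * x2| * d0 * p1 * p2 + |1 + 2 * x0 * x2| * p0 * d1 * p2 +
    |1 + 2 * x0 * x1| * p0 * p1 * d2 + 2 * d0 * d1 * d2

/-- Bound for the normalised remainder. -/
def lB (x0 x1 x2 p0 p1 p2 d0 d1 d2 : ℝ) : ℝ :=
  4 * (|x1 * x2| * d0 * p1 * p2 + |x0 * x2| * p0 * d1 * p2 + |x0 * x1| * p0 * p1 * d2)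

/-- A solution of `w'' = - q w` on a window. -/
def SolOn (s : Set ℝ) (t c : ℝ) (w w' : ℝ → ℂ) : Prop :=
  ∀ u ∈ s, HasDerivAt w (w' u) u ∧ HasDerivAt w' (-(qq t c u : ℂ) * w u) u

/-- Amplitude bounds on a window. -/
def AmpOn (s : Set ℝ) (θ t c a : ℝ) (w w' : ℝ → ℂ) : Prop :=
  ∀ u ∈ s, ‖w u‖ ^ 4 * rr θ t c u ≤ a ^ 4 ∧ ‖w' u‖ ^ 4 ≤ t ^ 4 * a ^ 4 * rr θ t c u

/-! ### periodic functions -/

/-- Fourier coefficient on the unit interval. -/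
def fc (F : ℝ → ℂ) (n : ℤ) : ℂ :=
  ∫ x in (0 : ℝ)..1, F x * Complex.exp (-(2 * π * n * x) * Complex.I)

/-- The point with coordinates `x` and `log y = u`. -/
def pt (x u : ℝ) : ℂ := x + Real.exp u * Complex.I

def Wf (f : ℂ → ℝ) (u x : ℝ) : ℝ := Real.exp (-u / 2) * f (pt x u)

/-- Fourier mode. -/
def md (f : ℂ → ℝ) (n : ℤ) (u : ℝ) : ℂ := fc (fun x => (Wf f u x : ℂ)) n

/-- Mass at height `u`. -/
def m2 (f : ℂ → ℝ) (u : ℝ) : ℝ := ∫ x in (0 : ℝ)..1, Wf f u x ^ 2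

/-- Cubic density at height `u`. -/
def I3 (f : ℂ → ℝ) (u : ℝ) : ℝ := Real.exp (u / 2) * ∫ x in (0 : ℝ)..1, Wf f u x ^ 3

/-- An eigenfunction in the cusp `log y > A` of width one, with mass at most one. -/
structure Cusp (A lam : ℝ) (f : ℂ → ℝ) : Prop where
  sm : ContDiffOn ℝ ∞ f UH
  per : ∀ z ∈ UH, f (z + 1) = f z
  eq : ∀ z : ℂ, Real.exp A < z.im → z.im ^ 2 * Δ f z = -lam * f z
  int : IntegrableOn (m2 f) (Ioi A)
  mass : ∫ u in Ioi A, m2 f u ≤ 1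

/-- Energy of the mode `n` at height `b`, divided by `t ^ 2`. -/
def aE (f : ℂ → ℝ) (t : ℝ) (n : ℤ) (b : ℝ) : ℝ :=
  En t (2 * π * n) (fun u => ‖md f n u‖ ^ 2) (fun u => ‖deriv (md f n) u‖ ^ 2) b / t ^ 2

/-- Low modes at height `b`. -/
def Low (t b : ℝ) (n : ℤ) : Prop := n ≠ 0 ∧ (2 * π * n) ^ 2 * Real.exp (2 * b) ≤ t ^ 2 / 4

/-- Unit window. -/
def ch (u : ℝ) : ℝ := Real.smoothTransition u - Real.smoothTransition (u - 1)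

/-- The strip. -/
def St (A : ℝ) : Set ℍ := {z | 0 < z.re ∧ z.re ≤ 1 ∧ Real.exp A < z.im}

/-! ### discrete groups -/

def tr (g : SL2) : ℝ := ea g + ed g

/-- Squared distance of `g` to `± 1`, seen from `z`. -/
def nu (g : SL2) (z : ℍ) : ℝ := 2 * Real.cosh (dist z (g • z)) + 2 - 2 * |tr g|

def pm (g : SL2) : Prop := g = 1 ∨ g = -1

/-- Translation matrix. -/
def TT (β : ℝ) : SL2 := mkG 1 β 0 1 (by simp)

/-- Elements of `SL(2, ℝ)` that act as an element of `Γ`. -/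
def GG (Γ : Type) [Group Γ] [MulAction Γ ℍ] : Subgroup SL2 where
  carrier := {g | ∃ γ : Γ, ∀ z : ℍ, g • z = γ • z}
  mul_mem' := by
    rintro a b ⟨γ, h⟩ ⟨δ, k⟩
    exact ⟨γ * δ, fun z => by rw [mul_smul, mul_smul, k, h]⟩
  one_mem' := ⟨1, fun z => by rw [one_smul, one_smul]⟩
  inv_mem' := by
    rintro a ⟨γ, h⟩
    exact ⟨γ⁻¹, fun z => by rw [inv_smul_eq_iff, h, smul_inv_smul]⟩

/-- A discrete group whose thick parts are cocompact. -/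
structure Disc (G : Subgroup SL2) : Prop where
  neg : (-1 : SL2) ∈ G
  fin : ∀ K : Set ℍ, IsCompact K → {g : SL2 | g ∈ G ∧ ∃ z ∈ K, g • z ∈ K}.Finite
  thick : ∀ η : ℝ, 0 < η → ∃ K : Set ℍ, IsCompact K ∧
    ∀ z : ℍ, (∀ g ∈ G, ¬pm g → η ≤ nu g z) → ∃ g ∈ G, g • z ∈ K

/-- `p` is the smallest element of its centraliser. -/
def Prim (G : Subgroup SL2) (p : SL2) : Prop :=
  p ∈ G ∧ ¬pm p ∧ ∀ g ∈ G, g * p = p * g → ¬pm g → ∀ w : ℍ, nu p w ≤ nu g w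

/-- `s` is the scaling matrix of a cusp. -/
def Good (G : Subgroup SL2) (s : SL2) : Prop := Prim G (s * TT 1 * s⁻¹)

/-- Cusp decomposition. -/
structure Cusps (Γ : Type) [Group Γ] [MulAction Γ ℍ] (S : Finset SL2) : Prop where
  per : ∀ s ∈ S, ∃ δ : Γ, ∀ w : ℍ, δ • s • w = s • ((1 : ℝ) +ᵥ w)
  sep : ∀ s ∈ S, ∀ s' ∈ S, ∀ (γ : Γ) (z z' : ℍ), 10 < z.im → 10 < z'.im → γ • s • z = s' • z' →
    s = s' ∧ ∃ n : ℤ, ∀ w : ℍ, γ • s • w = s • ((n : ℝ) +ᵥ w)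
  cov : ∀ Y : ℝ, ∃ K : Set ℍ, IsCompact K ∧ ∀ z : ℍ, (∃ γ : Γ, γ • z ∈ K) ∨
    ∃ γ : Γ, ∃ s ∈ S, ∃ w : ℍ, Y < w.im ∧ γ • z = s • w

end Pool.Agent.Lib.MP_a52643_an.H6C
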