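import Pool.Agent.Lib.MP_a52643_an.H6COde

open MeasureTheory Set Filter Topology Metric UpperHalfPlane
open scoped ENNReal NNReal ContDiff Laplacian MatrixGroups Real

noncomputable section

namespace Pool.Agent.Lib.MP_a52643_an.H6C

variable {A t c : ℝ} {P R Q : ℝ → ℝ}

theorem mono_ene {f f' : ℝ → ℝ} {a : ℝ} (hf : ∀ x, a ≤ x → HasDerivAt f (f' x) x)
    (h0 : ∀ x, a ≤ x → 0 ≤ f' x) : MonotoneOn f (Ici a) := by
  refine monotoneOn_of_deriv_nonneg (convex_Ici a)
    (fun x hx => (hf x hx).continuousAt.continuousWithinAt)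
    (fun x hx => (hf x (interior_subset hx)).differentiableAt.differentiableWithinAt) ?_
  intro x hx
  rw [(hf x (interior_subset hx)).deriv]
  exact h0 x (interior_subset hx)

theorem Sys.cP_ene (h : Sys A t c P R Q) : ContinuousOn P (Ioi A) :=
  fun u hu => (h.dP u hu).continuousAt.continuousWithinAt

theorem Sys.cQ_ene (h : Sys A t c P R Q) : ContinuousOn Q (Ioi A) :=
  fun u hu => (h.dQ u hu).continuousAt.continuousWithinAt

theorem cqq_ene (t c : ℝ) : Continuous (qq t c) := by
  unfold qq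
  fun_prop

theorem Sys.avg_ene (h : Sys A t c P R Q) {x : ℝ} (hx : A ≤ x) :
    ∃ z ∈ Ioc x (x + 1 / 2), P z ≤ 2 * ∫ u in Ioi A, P u := by
  have hs : Ioc x (x + 1 / 2) ⊆ Ioi A := fun z hz => lt_of_le_of_lt hx hz.1
  have hv : volume (Ioc x (x + 1 / 2)) = ENNReal.ofReal (1 / 2) := by
    rw [Real.volume_Ioc]; congr 1; ring
  obtain ⟨z, hz, hle⟩ := exists_le_setAverage (μ := (volume : Measure ℝ)) (s := Ioc x (x + 1 / 2))
    (f := P) (by rw [hv]; simp) (by rw [hv]; simp) (h.int.mono_set hs)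
  refine ⟨z, hz, hle.trans ?_⟩
  have hr : (volume : Measure ℝ).real (Ioc x (x + 1 / 2)) = 1 / 2 := by
    rw [Measure.real, hv, ENNReal.toReal_ofReal (by norm_num)]
  rw [setAverage_eq, hr, smul_eq_mul]
  have h1 : ∫ u in Ioc x (x + 1 / 2), P u ≤ ∫ u in Ioi A, P u :=
    setIntegral_mono_set h.int (Eventually.of_forall fun u => h.P0 u) hs.eventuallyLE
  linarith

theorem Sys.mvt_ene (h : Sys A t c P R Q) {x y : ℝ} (hx : A < x) (hxy : x + 1 / 2 ≤ y) :
    ∃ z ∈ Ioo x y, -P x ≤ R z ∧ R z ≤ P y := by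
  have hlt : x < y := by linarith
  obtain ⟨z, hz, he⟩ := exists_hasDerivAt_eq_slope P (fun u => 2 * R u) hlt
    (h.cP_ene.mono fun u hu => lt_of_lt_of_le hx hu.1) (fun u hu => h.dP u (hx.trans hu.1))
  refine ⟨z, hz, ?_⟩
  rw [eq_div_iff (by linarith)] at he
  have h1 := h.P0 x
  have h2 := h.P0 y
  constructor
  · by_contra hc
    rw [not_le] at hc
    nlinarith
  · by_contra hc
    rw [not_le] at hc
    nlinarith

/-- The energy at height `b` is at most a constant over `b`. -/
theorem Sys.energy (h : Sys A t c P R Q) (ht : 1 ≤ t) {b : ℝ} (hb : A + 1 ≤ b) :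
    (b - A - 1) * En t c P Q b ≤ 6 * t ^ 2 * ∫ u in Ioi A, P u := by
  set M := ∫ u in Ioi A, P u with hM
  have hM0 : 0 ≤ M := setIntegral_nonneg measurableSet_Ioi fun u _ => h.P0 u
  obtain ⟨a1, ha1, hPa⟩ := h.avg_ene (le_refl A)
  obtain ⟨b1, hb1, hPb⟩ := h.avg_ene (x := b + 1 / 2) (by linarith)
  obtain ⟨al, hal, hRa, -⟩ := h.mvt_ene (x := a1) (y := A + 1) ha1.1 (by linarith [ha1.2])
  obtain ⟨be, hbe, -, hRb⟩ := h.mvt_ene (x := b) (y := b1) (by linarith) hb1.1.le
  have hAal : A < al := ha1.1.trans hal.1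
  have hab : al ≤ be := by linarith [hal.2, hbe.1]
  have hsub : uIcc al be ⊆ Ioi A := by
    rw [uIcc_of_le hab]; exact fun u hu => lt_of_lt_of_le hAal hu.1
  have iP : IntervalIntegrable P volume al be := (h.cP_ene.mono hsub).intervalIntegrable
  have iD : IntervalIntegrable (fun u => Q u - qq t c u * P u) volume al be :=
    ((h.cQ_ene.sub ((cqq_ene t c).continuousOn.mul h.cP_ene)).mono hsub).intervalIntegrable
  have ig : IntervalIntegrable (fun u => Q u - qq t c u * P u + 2 * t ^ 2 * P u) volume al be :=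
    iD.add (iP.const_mul _)
  have hge : ∀ u, En t c P Q u ≤ Q u - qq t c u * P u + 2 * t ^ 2 * P u := by
    intro u
    have h1 : 0 ≤ c ^ 2 * Real.exp (2 * u) * P u := mul_nonneg (by positivity) (h.P0 u)
    unfold En qq
    nlinarith
  have e1 : ∫ u in al..be, (Q u - qq t c u * P u) = R be - R al :=
    intervalIntegral.integral_eq_sub_of_hasDerivAt (fun u hu => h.dR u (hsub hu)) iD
  have e2 : ∫ u in al..be, P u ≤ M := by
    rw [intervalIntegral.integral_of_le hab]
    exact setIntegral_mono_set h.int (Eventually.of_forall fun u => h.P0 u)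
      (HasSubset.Subset.eventuallyLE fun u hu => hAal.trans hu.1)
  have e3 : ∫ u in al..be, (Q u - qq t c u * P u + 2 * t ^ 2 * P u)
      = R be - R al + 2 * t ^ 2 * ∫ u in al..be, P u := by
    rw [intervalIntegral.integral_add iD (iP.const_mul _), e1, intervalIntegral.integral_const_mul]
  have e4 : ∫ u in (A + 1)..b, (Q u - qq t c u * P u + 2 * t ^ 2 * P u)
      ≤ ∫ u in al..be, (Q u - qq t c u * P u + 2 * t ^ 2 * P u) := by
    refine intervalIntegral.integral_mono_interval hal.2.le hb hbe.1.le ?_ ig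
    refine (ae_restrict_iff' measurableSet_Ioc).2 (Eventually.of_forall fun u hu => ?_)
    exact (h.En_nonneg (hAal.trans hu.1)).trans (hge u)
  have e5 : ∫ _ in (A + 1)..b, En t c P Q b
      ≤ ∫ u in (A + 1)..b, (Q u - qq t c u * P u + 2 * t ^ 2 * P u) := by
    refine intervalIntegral.integral_mono_on hb (by simp) (ig.mono_set ?_) fun u hu => ?_
    · rw [uIcc_of_le hb, uIcc_of_le hab]
      exact Icc_subset_Icc hal.2.le hbe.1.le
    · refine le_trans ?_ (hge u)
      exact h.En_anti (show A < u by linarith [hu.1]) (show A < b by linarith) hu.2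
  rw [intervalIntegral.integral_const, smul_eq_mul] at e5
  have ht2 : 1 ≤ t ^ 2 := one_le_pow₀ ht
  have e6 : 2 * t ^ 2 * ∫ u in al..be, P u ≤ 2 * t ^ 2 * M :=
    mul_le_mul_of_nonneg_left e2 (by positivity)
  have e7 : M ≤ t ^ 2 * M := le_mul_of_one_le_left hM0 ht2
  have e8 : b - A - 1 = b - (A + 1) := by ring
  rw [e8]
  linarith

/-- The zero mode vanishes. -/
theorem Sys.zero (h : Sys A t 0 P R Q) (ht : 1 ≤ t) {u : ℝ} (hu : A < u) : P u = 0 := by
  set M := ∫ u in Ioi A, P u with hM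
  have hM0 : 0 ≤ M := setIntegral_nonneg measurableSet_Ioi fun u _ => h.P0 u
  have hmono : MonotoneOn (En t 0 P Q) (Ici u) :=
    mono_ene (fun x hx => h.hasDerivAt_En (hu.trans_le hx)) (fun x _ => by simp)
  have hE : En t 0 P Q u ≤ 0 := by
    by_contra hc
    rw [not_le] at hc
    set K := (6 * t ^ 2 * M + 1) / En t 0 P Q u with hK
    have hK0 : 0 ≤ K := by positivity
    have hKE : K * En t 0 P Q u = 6 * t ^ 2 * M + 1 := by
      rw [hK]; field_simp
    have h1 := h.energy ht (b := u + 1 + K) (by linarith)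
    have h2 : En t 0 P Q u ≤ En t 0 P Q (u + 1 + K) :=
      hmono (le_refl u) (show u ≤ u + 1 + K by linarith) (by linarith)
    have h3 : K * En t 0 P Q u ≤ (u + 1 + K - A - 1) * En t 0 P Q (u + 1 + K) :=
      mul_le_mul (by linarith) h2 hc.le (by linarith)
    linarith
  have ht2 : 1 ≤ t ^ 2 := one_le_pow₀ ht
  have h1 := h.P0 u
  have h2 := h.Q0 u
  have h3 : En t 0 P Q u = Q u + t ^ 2 * P u := by simp [En, qq]
  nlinarith

theorem Sys.not_ge_ene (h : Sys A t c P R Q) {v d : ℝ} (hv : A < v) (hd : 0 < d)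
    (hP : ∀ w, v ≤ w → d ≤ P w) : False := by
  have h1 : IntegrableOn P (Ioi v) := h.int.mono_set (Ioi_subset_Ioi hv.le)
  have h2 : IntegrableOn (fun _ : ℝ => d) (Ioi v) := by
    refine Integrable.mono' h1 aestronglyMeasurable_const ?_
    refine (ae_restrict_iff' measurableSet_Ioi).2 (Eventually.of_forall fun w hw => ?_)
    rw [Real.norm_eq_abs, abs_of_pos hd]
    exact hP w (le_of_lt hw)
  rw [integrableOn_const_iff] at h2
  rcases h2 with h2 | h2
  · simp [hd.ne'] at h2
  · simp at h2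

/-- Exponential decay in the forbidden region. -/
theorem Sys.deep (h : Sys A t c P R Q) (ht : 0 < t) {b u : ℝ} (hb : A < b)
    (hc : t ^ 2 / 4 < c ^ 2 * Real.exp (2 * b)) (hu : b + 3 ≤ u) :
    t ^ 2 * P u ≤ En t c P Q b * Real.exp (-(2 * |c| * Real.exp b)) := by
  set k := |c| * Real.exp b with hk
  have hk2 : k ^ 2 = c ^ 2 * Real.exp (2 * b) := by
    rw [hk, mul_pow, sq_abs, ← Real.exp_nat_mul]; norm_num
  have hk0 : 0 ≤ k := by positivity
  have hkp : 0 < k := by
    rcases hk0.lt_or_eq with h0 | h0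
    · exact h0
    · rw [← hk2, ← h0] at hc
      nlinarith
  have he : (5 : ℝ) ≤ Real.exp 2 := by
    have h1 : Real.exp 2 = Real.exp 1 * Real.exp 1 := by rw [← Real.exp_add]; norm_num
    have h2 := Real.exp_one_gt_d9
    nlinarith
  have hbig : ∀ v, b + 1 ≤ v → 5 * k ^ 2 ≤ c ^ 2 * Real.exp (2 * v) := by
    intro v hv
    have h1 : Real.exp (2 * b) * Real.exp 2 ≤ Real.exp (2 * v) := by
      rw [← Real.exp_add]; exact Real.exp_le_exp.2 (by linarith)
    have h2 : Real.exp (2 * b) * 5 ≤ Real.exp (2 * v) :=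
      le_trans (mul_le_mul_of_nonneg_left he (Real.exp_pos _).le) h1
    have h3 := mul_le_mul_of_nonneg_left h2 (sq_nonneg c)
    rw [hk2]
    linarith
  have hq : ∀ v, b + 1 ≤ v → qq t c v ≤ -k ^ 2 := by
    intro v hv
    have := hbig v hv
    unfold qq
    linarith
  have hq0 : ∀ v, b + 1 ≤ v → qq t c v ≤ 0 := fun v hv => (hq v hv).trans (by nlinarith)
  have hA1 : A < b + 1 := by linarith
  have hanti := h.P_anti hA1 (hq0 _ le_rfl)
  have s1 : t ^ 2 * P (b + 2) ≤ En t c P Q b := by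
    have h1 := h.tail (b := b + 1) (B := b + 2) hA1 (by linarith)
    have h2 : En t c P Q (b + 1) ≤ En t c P Q b := h.En_anti hb hA1 (by linarith)
    have hsub : uIcc (b + 1) (b + 2) ⊆ Ioi A := by
      rw [uIcc_of_le (by linarith)]; exact fun u hu => lt_of_lt_of_le hA1 hu.1
    have h3 : ∫ _ in (b + 1)..(b + 2), t ^ 2 * P (b + 2)
        ≤ ∫ u in (b + 1)..(b + 2), 2 * c ^ 2 * Real.exp (2 * u) * P u := by
      refine intervalIntegral.integral_mono_on (by linarith) (by simp) ?_ fun v hv => ?_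
      · refine ContinuousOn.intervalIntegrable (ContinuousOn.mul ?_ (h.cP_ene.mono hsub))
        fun_prop
      · have h4 : P (b + 2) ≤ P v := hanti hv.1 (show b + 1 ≤ b + 2 by linarith) hv.2
        have h5 := hbig v hv.1
        refine mul_le_mul (by nlinarith) h4 (h.P0 _) (by positivity)
    rw [intervalIntegral.integral_const, smul_eq_mul] at h3
    have h6 : b + 2 - (b + 1) = 1 := by ring
    rw [h6] at h3
    linarith
  have s2 : MonotoneOn (fun v => R v + k * P v) (Ici (b + 1)) := by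
    refine mono_ene (f' := fun v => Q v - qq t c v * P v + k * (2 * R v))
      (fun v hv => (h.dR v (hA1.trans_le hv)).add ((h.dP v (hA1.trans_le hv)).const_mul k))
      fun v hv => ?_
    have h1 := h.P0 v
    have h2 := h.Q0 v
    have h3 := h.cs v
    have h4 : (2 * k * R v) ^ 2 ≤ (Q v + k ^ 2 * P v) ^ 2 := by
      have h5 := mul_le_mul_of_nonneg_left h3 (show 0 ≤ 4 * k ^ 2 by positivity)
      nlinarith [sq_nonneg (Q v - k ^ 2 * P v)]
    have h6 := (abs_le_of_sq_le_sq' h4 (by positivity)).1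
    have h7 := mul_le_mul_of_nonneg_right (hq v hv) h1
    linarith
  have s3 : ∀ v, b + 1 ≤ v → R v + k * P v ≤ 0 := by
    intro v hv
    by_contra hcon
    rw [not_le] at hcon
    refine h.not_ge_ene (hA1.trans_le hv) (div_pos hcon hkp) fun w hw => ?_
    have h1 : R v + k * P v ≤ R w + k * P w := s2 hv (hv.trans hw) hw
    have h2 := h.R_nonpos (hA1.trans_le (hv.trans hw)) (hq0 w (hv.trans hw))
    rw [div_le_iff₀ hkp]
    linarith
  have s4 : MonotoneOn (fun v => -(P v * Real.exp (2 * k * v))) (Ici (b + 1)) := by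
    refine mono_ene
      (f' := fun v => -(2 * R v * Real.exp (2 * k * v) + P v * (Real.exp (2 * k * v) * (2 * k))))
      (fun v hv => ?_) fun v hv => ?_
    · have h1 : HasDerivAt (fun v : ℝ => 2 * k * v) (2 * k) v := by
        simpa using (hasDerivAt_id v).const_mul (2 * k)
      exact ((h.dP v (hA1.trans_le hv)).mul h1.exp).neg
    · have h1 := mul_nonneg (neg_nonneg.2 (s3 v hv)) (Real.exp_pos (2 * k * v)).le
      nlinarith
  have s5 : P u * Real.exp (2 * k * u) ≤ P (b + 2) * Real.exp (2 * k * (b + 2)) := by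
    have := s4 (show b + 1 ≤ b + 2 by linarith) (show b + 1 ≤ u by linarith) (by linarith)
    simpa using this
  have s6 : P u ≤ P (b + 2) * Real.exp (-(2 * k)) := by
    have h1 : Real.exp (2 * k * (b + 2)) ≤ Real.exp (-(2 * k)) * Real.exp (2 * k * u) := by
      rw [← Real.exp_add]
      exact Real.exp_le_exp.2 (by nlinarith)
    have h2 := mul_le_mul_of_nonneg_left h1 (h.P0 (b + 2))
    have h3 : P u * Real.exp (2 * k * u)
        ≤ P (b + 2) * Real.exp (-(2 * k)) * Real.exp (2 * k * u) := by linarith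
    exact le_of_mul_le_mul_right h3 (Real.exp_pos _)
  have s7 : 2 * |c| * Real.exp b = 2 * k := by rw [hk]; ring
  rw [s7]
  calc t ^ 2 * P u ≤ t ^ 2 * (P (b + 2) * Real.exp (-(2 * k))) :=
        mul_le_mul_of_nonneg_left s6 (by positivity)
    _ = t ^ 2 * P (b + 2) * Real.exp (-(2 * k)) := by ring
    _ ≤ En t c P Q b * Real.exp (-(2 * k)) :=
        mul_le_mul_of_nonneg_right s1 (Real.exp_pos _).le

end Pool.Agent.Lib.MP_a52643_an.H6C
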