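import Pool.Agent.Lib.MP_a52643_an.H6CDefs

open MeasureTheory Set Filter Topology Metric UpperHalfPlane
open scoped ENNReal NNReal ContDiff Laplacian MatrixGroups Real

noncomputable section

namespace Pool.Agent.Lib.MP_a52643_an.H6C

variable {F : ℝ → ℂ}

/-- The character. -/
def ee_fou (n : ℤ) (x : ℝ) : ℂ := Complex.exp (2 * π * n * x * Complex.I)

lemma ee_cont_fou (n : ℤ) : Continuous (ee_fou n) := by
  unfold ee_fou; fun_prop

lemma ee_add_fou (m n : ℤ) (x : ℝ) : ee_fou (m + n) x = ee_fou m x * ee_fou n x := by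
  unfold ee_fou; rw [← Complex.exp_add]; congr 1; push_cast; ring

lemma ee_norm_fou (n : ℤ) (x : ℝ) : ‖ee_fou n x‖ = 1 := by
  unfold ee_fou
  rw [show (2 * π * n * x * Complex.I : ℂ) = ((2 * π * n * x : ℝ) : ℂ) * Complex.I by push_cast; ring]
  exact Complex.norm_exp_ofReal_mul_I _

lemma fc_eq_fou (F : ℝ → ℂ) (n : ℤ) : fc F n = ∫ x in (0 : ℝ)..1, F x * ee_fou (-n) x := by
  unfold fc ee_fou
  congr 1; ext x; congr 2; push_cast; ring

lemma orth_fou (n : ℤ) : ∫ x in (0 : ℝ)..1, ee_fou n x = if n = 0 then 1 else 0 := by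
  split_ifs with h
  · simp [h, ee_fou]
  · have hc : (2 * π * n * Complex.I : ℂ) ≠ 0 := by
      simp [h, Real.pi_ne_zero]
    have e : ∀ x : ℝ, ee_fou n x = Complex.exp (2 * π * n * Complex.I * x) := fun x => by
      unfold ee_fou; congr 1; ring
    simp_rw [e]
    rw [integral_exp_mul_complex hc]
    have : Complex.exp (2 * π * n * Complex.I * (1 : ℝ)) = 1 := by
      rw [← Complex.exp_int_mul_two_pi_mul_I n]; congr 1; push_cast; ring
    rw [this]; simp

lemma parseval_fou (hF : Continuous F) :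
    HasSum (fun n => ‖fc F n‖ ^ 2) (∫ x in (0 : ℝ)..1, ‖F x‖ ^ 2) := by
  have hL : MemLp F 2 (volume.restrict (Ioc (0 : ℝ) 1)) := by
    obtain ⟨C, hC⟩ := (isCompact_Icc (a := (0 : ℝ)) (b := 1)).exists_bound_of_continuousOn
      hF.continuousOn
    exact MemLp.of_bound hF.aestronglyMeasurable C
      ((ae_restrict_mem measurableSet_Ioc).mono fun x hx => hC x (Ioc_subset_Icc_self hx))
  have h := hasSum_sq_fourierCoeffOn zero_lt_one hL
  have e : ∀ n, fourierCoeffOn zero_lt_one F n = fc F n := fun n => by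
    rw [fourierCoeffOn_eq_integral]
    unfold fc
    simp only [sub_zero, div_one, one_smul, fourier_coe_apply, smul_eq_mul]
    congr 1; ext x; rw [mul_comm]; congr 2; push_cast; ring
  simpa only [e, sub_zero, inv_one, one_smul] using h

/-- Bessel inequality. -/
theorem bessel (hF : Continuous F) (Λ : Finset ℤ) :
    ∑ n ∈ Λ, ‖fc F n‖ ^ 2 ≤ ∫ x in (0 : ℝ)..1, ‖F x‖ ^ 2 :=
  sum_le_hasSum Λ (fun _ _ => by positivity) (parseval_fou hF)

lemma series_fou (hF : Continuous F) (hp : ∀ x, F (x + 1) = F x) (hs : Summable (fc F)) (x : ℝ) :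
    HasSum (fun n => fc F n * ee_fou n x) (F x) := by
  have hP : Function.Periodic F 1 := hp
  let g : C(AddCircle (1 : ℝ), ℂ) := ⟨hP.lift, hF.quotient_lift _⟩
  have e : ∀ n, fourierCoeff g n = fc F n := fun n => by
    rw [fourierCoeff_eq_intervalIntegral _ _ 0]
    unfold fc
    simp only [zero_add, div_one, one_smul, fourier_coe_apply, smul_eq_mul]
    congr 1; ext x; rw [mul_comm]; congr 2; push_cast; ring
  have h := has_pointwise_sum_fourier_series_of_summable (f := g)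
    (by rw [show fourierCoeff g = fc F from funext e]; exact hs) (x : AddCircle (1 : ℝ))
  convert h using 2 with n
  · rw [e, fourier_coe_apply, smul_eq_mul]
    unfold ee_fou; congr 2; push_cast; ring
  · rfl

/-- Uniform approximation by a partial sum. -/
theorem sup_le (hF : Continuous F) (hp : ∀ x, F (x + 1) = F x) (Λ : Finset ℤ) {σ : ℝ}
    (hσ : ∀ s : Finset ℤ, Disjoint s Λ → ∑ n ∈ s, ‖fc F n‖ ≤ σ) (x : ℝ) :
    ‖F x - ∑ n ∈ Λ, fc F n * Complex.exp (2 * π * n * x * Complex.I)‖ ≤ σ := by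
  have hs : Summable (fun n => ‖fc F n‖) := by
    refine summable_of_sum_le (fun _ => norm_nonneg _) (c := σ + ∑ n ∈ Λ, ‖fc F n‖) fun s => ?_
    calc ∑ n ∈ s, ‖fc F n‖ ≤ ∑ n ∈ (s \ Λ) ∪ Λ, ‖fc F n‖ :=
          Finset.sum_le_sum_of_subset_of_nonneg (by intro n hn; simp [hn])
            fun _ _ _ => norm_nonneg _
      _ = _ := Finset.sum_union Finset.sdiff_disjoint
      _ ≤ _ := by gcongr; exact hσ _ Finset.sdiff_disjoint
  have h := series_fou hF hp hs.of_norm x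
  have ht : Tendsto (fun s : Finset ℤ => ‖∑ n ∈ s, fc F n * ee_fou n x -
      ∑ n ∈ Λ, fc F n * ee_fou n x‖) atTop (𝓝 ‖F x - ∑ n ∈ Λ, fc F n * ee_fou n x‖) :=
    (Tendsto.sub_const h _).norm
  refine le_of_tendsto ht ((eventually_ge_atTop Λ).mono fun s hsΛ => ?_)
  rw [← Finset.sum_sdiff hsΛ, add_sub_cancel_right]
  refine (norm_sum_le _ _).trans ?_
  simp only [norm_mul, ee_norm_fou, mul_one]
  exact hσ _ Finset.sdiff_disjoint

lemma fc_sum_fou (Λ : Finset ℤ) (c : ℤ → ℂ) (m : ℤ) :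
    fc (fun x => ∑ n ∈ Λ, c n * ee_fou n x) m = if m ∈ Λ then c m else 0 := by
  rw [fc_eq_fou]
  simp only [Finset.sum_mul, mul_assoc, ← ee_add_fou]
  rw [intervalIntegral.integral_finsetSum (f := fun n x => c n * ee_fou (n + -m) x) fun n _ =>
    (continuous_const.mul (ee_cont_fou _)).intervalIntegrable _ _]
  simp only [intervalIntegral.integral_const_mul, orth_fou, add_neg_eq_zero, mul_ite, mul_one,
    mul_zero, Finset.sum_ite_eq']

/-- The cubic integral in terms of the low modes. -/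
theorem cube_le (hF : Continuous F) (hp : ∀ x, F (x + 1) = F x) (Λ : Finset ℤ) {σ : ℝ}
    (hσ : ∀ s : Finset ℤ, Disjoint s Λ → ∑ n ∈ s, ‖fc F n‖ ≤ σ) :
    ‖(∫ x in (0 : ℝ)..1, F x ^ 3) - ∑ p ∈ (Λ ×ˢ Λ).filter (fun p => -p.1 - p.2 ∈ Λ),
        fc F p.1 * fc F p.2 * fc F (-p.1 - p.2)‖ ≤ 3 * σ * ∫ x in (0 : ℝ)..1, ‖F x‖ ^ 2 := by
  set G : ℝ → ℂ := fun x => ∑ n ∈ Λ, fc F n * ee_fou n x with hG
  have cG : Continuous G := continuous_finsetSum _ fun n _ => continuous_const.mul (ee_cont_fou _)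
  have σ0 : 0 ≤ σ := by simpa using hσ ∅ (Finset.disjoint_empty_left _)
  have fG : ∀ m, fc G m = if m ∈ Λ then fc F m else 0 := fc_sum_fou Λ _
  have nG : ∫ x in (0 : ℝ)..1, ‖G x‖ ^ 2 ≤ ∫ x in (0 : ℝ)..1, ‖F x‖ ^ 2 := by
    refine hasSum_le (fun n => ?_) (parseval_fou cG) (parseval_fou hF)
    rw [fG]
    split_ifs <;> simp
  have c3 : ∫ x in (0 : ℝ)..1, G x ^ 3 = ∑ p ∈ (Λ ×ˢ Λ).filter (fun p => -p.1 - p.2 ∈ Λ),
        fc F p.1 * fc F p.2 * fc F (-p.1 - p.2) := by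
    have e : ∀ x, G x ^ 3 = ∑ p ∈ Λ ×ˢ Λ,
        fc F p.1 * fc F p.2 * (G x * ee_fou (-(-p.1 - p.2)) x) := fun x => by
      rw [Finset.sum_product, show G x ^ 3 = G x * G x * G x by ring]
      nth_rw 1 [hG]
      nth_rw 1 [hG]
      simp only []
      rw [Finset.sum_mul_sum, Finset.sum_mul]
      refine Finset.sum_congr rfl fun a _ => ?_
      rw [Finset.sum_mul]
      refine Finset.sum_congr rfl fun b _ => ?_
      rw [show -(-a - b) = a + b by ring, ee_add_fou]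
      ring
    simp_rw [e]
    rw [intervalIntegral.integral_finsetSum
      (f := fun (p : ℤ × ℤ) x => fc F p.1 * fc F p.2 * (G x * ee_fou (-(-p.1 - p.2)) x)) fun p _ =>
      (continuous_const.mul (cG.mul (ee_cont_fou _))).intervalIntegrable _ _, Finset.sum_filter]
    refine Finset.sum_congr rfl fun p _ => ?_
    rw [intervalIntegral.integral_const_mul, ← fc_eq_fou, fG]
    split_ifs <;> simp
  rw [← c3, ← intervalIntegral.integral_sub (f := fun x => F x ^ 3) (g := fun x => G x ^ 3)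
    ((hF.pow 3).intervalIntegrable _ _)
    ((cG.pow 3).intervalIntegrable _ _)]
  have i1 : IntervalIntegrable (fun x => ‖F x‖ ^ 2) volume 0 1 :=
    (hF.norm.pow 2).intervalIntegrable _ _
  have i2 : IntervalIntegrable (fun x => ‖G x‖ ^ 2) volume 0 1 :=
    (cG.norm.pow 2).intervalIntegrable _ _
  have b := intervalIntegral.norm_integral_le_of_norm_le (μ := volume) (a := 0) (b := 1)
    (f := fun x => F x ^ 3 - G x ^ 3) (g := fun x => 3 / 2 * σ * (‖F x‖ ^ 2 + ‖G x‖ ^ 2))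
    zero_le_one (ae_of_all _ fun x _ => by
      have h1 : ‖F x - G x‖ ≤ σ := sup_le hF hp Λ hσ x
      have h2 : ‖F x ^ 2 + F x * G x + G x ^ 2‖ ≤ 3 / 2 * (‖F x‖ ^ 2 + ‖G x‖ ^ 2) := by
        refine norm_add₃_le.trans ?_
        rw [norm_pow, norm_pow, norm_mul]
        nlinarith [sq_nonneg (‖F x‖ - ‖G x‖)]
      calc ‖F x ^ 3 - G x ^ 3‖ = ‖F x - G x‖ * ‖F x ^ 2 + F x * G x + G x ^ 2‖ := by
            rw [← norm_mul]; congr 1; ring
        _ ≤ σ * (3 / 2 * (‖F x‖ ^ 2 + ‖G x‖ ^ 2)) := by gcongr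
        _ = _ := by ring) ((i1.add i2).const_mul _)
  refine b.trans ?_
  rw [intervalIntegral.integral_const_mul, intervalIntegral.integral_add i1 i2]
  nlinarith [mul_le_mul_of_nonneg_left nG σ0]

theorem tri_sum_le (Λ : Finset ℤ) {a : ℤ → ℝ} (ha : ∀ n, 0 ≤ a n) {M : ℝ}
    (hM : ∑ n ∈ Λ, a n ^ 2 ≤ M) :
    ∑ p ∈ (Λ ×ˢ Λ).filter (fun p => -p.1 - p.2 ∈ Λ), a p.1 * a p.2 * a (-p.1 - p.2) ≤
      √(Λ.card : ℝ) * (M * √M) := by
  have M0 : 0 ≤ M := (Finset.sum_nonneg fun _ _ => sq_nonneg _).trans hM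
  have h1 : ∀ m : ℤ, ∑ n ∈ Λ.filter (fun n => -m - n ∈ Λ), a n * a (-m - n) ≤ M := fun m => by
    have k1 : ∑ n ∈ Λ.filter (fun n => -m - n ∈ Λ), a n ^ 2 ≤ M :=
      (Finset.sum_le_sum_of_subset_of_nonneg (Finset.filter_subset _ _)
        fun _ _ _ => sq_nonneg _).trans hM
    have k2 : ∑ n ∈ Λ.filter (fun n => -m - n ∈ Λ), a (-m - n) ^ 2 ≤ M := by
      rw [← Finset.sum_image (g := fun n => -m - n) (f := fun n => a n ^ 2)
        fun x _ y _ h => by simpa using h]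
      refine (Finset.sum_le_sum_of_subset_of_nonneg ?_ fun _ _ _ => sq_nonneg _).trans hM
      intro k hk
      obtain ⟨n, hn, rfl⟩ := Finset.mem_image.1 hk
      exact (Finset.mem_filter.1 hn).2
    have k3 : ∑ n ∈ Λ.filter (fun n => -m - n ∈ Λ), 2 * (a n * a (-m - n)) ≤
        ∑ n ∈ Λ.filter (fun n => -m - n ∈ Λ), (a n ^ 2 + a (-m - n) ^ 2) :=
      Finset.sum_le_sum fun n _ => by nlinarith [sq_nonneg (a n - a (-m - n))]
    rw [← Finset.mul_sum, Finset.sum_add_distrib] at k3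
    linarith
  have h2 : ∑ n ∈ Λ, a n ≤ √(Λ.card : ℝ) * √M := by
    rw [← Real.sqrt_mul (Nat.cast_nonneg _)]
    refine Real.le_sqrt_of_sq_le (sq_sum_le_card_mul_sum_sq.trans ?_)
    gcongr
  calc _ = ∑ m ∈ Λ, a m * ∑ n ∈ Λ.filter (fun n => -m - n ∈ Λ), a n * a (-m - n) := by
        rw [Finset.sum_filter, Finset.sum_product]
        refine Finset.sum_congr rfl fun m _ => ?_
        rw [Finset.mul_sum, Finset.sum_filter]
        refine Finset.sum_congr rfl fun n _ => ?_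
        simp only [mul_assoc]
    _ ≤ ∑ m ∈ Λ, a m * M := Finset.sum_le_sum fun m _ => mul_le_mul_of_nonneg_left (h1 m) (ha m)
    _ = (∑ m ∈ Λ, a m) * M := (Finset.sum_mul _ _ _).symm
    _ ≤ √(Λ.card : ℝ) * √M * M := by gcongr
    _ = _ := by ring

end Pool.Agent.Lib.MP_a52643_an.H6C
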