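import Pool.Agent.Lib.MP_a52643_an.H6CPt

open MeasureTheory Set Filter Topology Metric UpperHalfPlane
open scoped ENNReal NNReal ContDiff Laplacian MatrixGroups Real

noncomputable section

namespace Pool.Agent.Lib.MP_a52643_an.H6C

lemma le_four_pt2 {a b : ℝ} (hb : 0 ≤ b) (h : a ^ 4 ≤ b ^ 4) : a ≤ b :=
  le_of_pow_le_pow_left₀ (by norm_num) hb h

lemma gg_nonneg_pt2 (ρ h : ℝ) (hρ : 0 < ρ) : 0 ≤ gg ρ h := by
  unfold gg; positivity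

lemma gg1_pt2 {ρ : ℝ} (hρ : 0 < ρ) (h : ℝ) : ρ / (h ^ 2 + ρ ^ 2) ≤ 2 * gg ρ h := by
  have hx := abs_nonneg h
  have e : h ^ 2 = |h| ^ 2 := (sq_abs h).symm
  unfold gg
  rw [e]
  set x := |h|
  have hu : 0 < √ρ := Real.sqrt_pos.2 hρ
  have hv : 0 < √(x + ρ) := Real.sqrt_pos.2 (by positivity)
  have uv : √ρ ≤ √(x + ρ) := Real.sqrt_le_sqrt (by linarith)
  have u2 : √ρ * √ρ = ρ := Real.mul_self_sqrt hρ.le
  have v2 : √(x + ρ) * √(x + ρ) = x + ρ := Real.mul_self_sqrt (by positivity)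
  rw [← mul_div_assoc, div_le_div_iff₀ (by positivity) (by positivity)]
  have h1 : √ρ * √(x + ρ) ≤ x + ρ := by nlinarith
  have h2 : (x + ρ) * (x + ρ) ≤ 2 * (x ^ 2 + ρ ^ 2) := by nlinarith [sq_nonneg (x - ρ)]
  calc ρ * ((x + ρ) * √(x + ρ)) = √ρ * ((x + ρ) * (√ρ * √(x + ρ))) := by
        linear_combination (-((x + ρ) * √(x + ρ))) * u2
    _ ≤ √ρ * ((x + ρ) * (x + ρ)) := by gcongr
    _ ≤ √ρ * (2 * (x ^ 2 + ρ ^ 2)) := by gcongr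
    _ = _ := by ring

lemma gg2_pt2 {ρ θ h : ℝ} (hρ : 0 < ρ) (h1 : θ ^ 4 ≤ ρ) (h2 : |h| + ρ ≤ 1) :
    θ ^ 2 / (|h| + ρ) ≤ gg ρ h := by
  have hx := abs_nonneg h
  unfold gg
  have hv : 0 < √(|h| + ρ) := Real.sqrt_pos.2 (by positivity)
  have v1 : √(|h| + ρ) ≤ 1 := Real.sqrt_le_one.2 h2
  have u1 : θ ^ 2 ≤ √ρ := Real.le_sqrt_of_sq_le (by nlinarith)
  rw [div_le_div_iff₀ (by positivity) (by positivity)]
  calc θ ^ 2 * ((|h| + ρ) * √(|h| + ρ)) ≤ √ρ * ((|h| + ρ) * 1) := by gcongr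
    _ = _ := by ring

lemma gg3_pt2 {r s m h : ℝ} (hr : 0 < r) (hs : √r = s ^ 2) (hm : 0 < m) (e : m ^ 2 = |h|)
    (h1 : r ≤ |h|) : s ^ 2 / m ^ 3 ≤ 4 * gg r h := by
  unfold gg
  have hv : 0 < √(|h| + r) := Real.sqrt_pos.2 (by positivity)
  have v1 : √(|h| + r) ≤ 2 * m := Real.sqrt_le_iff.2 ⟨by positivity, by nlinarith⟩
  rw [hs, ← mul_div_assoc, div_le_div_iff₀ (by positivity) (by positivity)]
  calc s ^ 2 * ((|h| + r) * √(|h| + r)) ≤ s ^ 2 * ((2 * m ^ 2) * (2 * m)) := by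
        gcongr; linarith
    _ = _ := by ring

/-- Near the resonance, after the geometry has been used. -/
theorem pt_near : ∃ C : ℝ, 0 < C ∧ ∀ θ ℓ r r0 h p d g l a : ℝ, 0 < θ → θ ≤ 1 / 2 →
    0 < ℓ → ℓ ^ 4 = r * θ ^ 12 → θ ^ 4 ≤ r → r ≤ 1 → θ ^ 4 ≤ r0 → |r0 - r| ≤ |h| / 3 →
    |h| ≤ 1 / 2 → 0 ≤ p → 0 ≤ d → p ^ 4 * r0 ≤ 1 → d ^ 4 ≤ r0 →
    0 ≤ a → a ≤ 4 * p → 0 ≤ g → g ≤ 20 * (d + (√r + |h|) * p) → 0 ≤ l → l ≤ 40 * (1 + p) →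
    maj ℓ (θ ^ 6) h a g l ≤ C * θ ^ 3 * (|3 - h| * (gg ℓ h + gg r h)) := by
  refine ⟨1100, by norm_num, fun θ ℓ r r0 h p d g l a t0 t1 l0 l4 r1 r2 q1 q2 hx p0 d0 hp hd a0 ha
    g0 hg ll0 hl => ?_⟩
  have rp : 0 < r := lt_of_lt_of_le (by positivity) r1
  obtain ⟨s, s0, s2, s4⟩ : ∃ s : ℝ, 0 < s ∧ √r = s ^ 2 ∧ s ^ 4 = r := by
    have e1 : √(√r) ^ 2 = √r := Real.sq_sqrt (Real.sqrt_nonneg _)
    refine ⟨√(√r), Real.sqrt_pos.2 (Real.sqrt_pos.2 rp), e1.symm, ?_⟩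
    rw [show (4 : ℕ) = 2 * 2 from rfl, pow_mul, e1, Real.sq_sqrt rp.le]
  have el : ℓ = s * θ ^ 3 := by
    refine (pow_left_inj₀ l0.le (by positivity) (n := 4) (by norm_num)).1 ?_
    rw [l4, ← s4]; ring
  have ts : θ ≤ s := le_four_pt2 s0.le (by rwa [s4])
  have s1 : s ≤ 1 := le_four_pt2 zero_le_one (by rwa [s4, one_pow])
  have x0 := abs_nonneg h
  have q3 := abs_le.1 q2
  have t3 : θ ^ 3 ≤ (1 / 2) ^ 3 := by gcongr
  have l1 : ℓ ≤ 1 / 8 := by rw [el]; nlinarith only [pow_pos t0 3, t3, s1, s0]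
  have l2 : θ ^ 4 ≤ ℓ := by rw [el]; nlinarith only [pow_pos t0 3, ts]
  have tp : θ * p ≤ 1 := le_four_pt2 zero_le_one (by
    rw [mul_pow, one_pow]; nlinarith only [pow_nonneg p0 4, q1, hp])
  have d2 : d ≤ 2 := le_four_pt2 (by norm_num) (by linarith)
  have E0 : 0 < h ^ 2 + ℓ ^ 2 := by positivity
  have G1 := gg1_pt2 l0 h
  have G2 := gg2_pt2 l0 l2 (h := h) (by linarith)
  have n1 := gg_nonneg_pt2 ℓ h l0
  have n2 := gg_nonneg_pt2 r h rp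
  have t3p := pow_pos t0 3
  have ss : s ^ 2 ≤ 1 := pow_le_one₀ s0.le s1
  have T2 : θ ^ 6 * (|h| / (h ^ 2 + ℓ ^ 2) * (l + g)) ≤ 400 * θ ^ 3 * gg ℓ h := by
    have e1 : θ * (l + g) ≤ 200 := by
      rw [s2] at hg
      have e0 : (s ^ 2 + |h|) * (θ * p) ≤ 3 / 2 * 1 := by gcongr; linarith
      have e3 := mul_le_mul_of_nonneg_left hg t0.le
      have e4 := mul_le_mul_of_nonneg_left hl t0.le
      have e5 : θ * d ≤ 1 / 2 * 2 := by gcongr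
      linarith
    have e2 : |h| / (h ^ 2 + ℓ ^ 2) ≤ 2 / (|h| + ℓ) := by
      rw [div_le_div_iff₀ E0 (by positivity), ← sq_abs h]
      nlinarith only [sq_nonneg (|h| - ℓ), sq_nonneg ℓ]
    calc _ = θ ^ 5 * (|h| / (h ^ 2 + ℓ ^ 2)) * (θ * (l + g)) := by ring
      _ ≤ θ ^ 5 * (2 / (|h| + ℓ)) * 200 := by gcongr
      _ = 400 * θ ^ 3 * (θ ^ 2 / (|h| + ℓ)) := by ring
      _ ≤ _ := by gcongr
  have T13 : a * ℓ ^ 2 / (h ^ 2 + ℓ ^ 2) ≤ 16 * θ ^ 3 * (gg ℓ h + gg r h) ∧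
      θ ^ 6 * (g / (h ^ 2 + ℓ ^ 2)) ≤ 320 * θ ^ 3 * (gg ℓ h + gg r h) := by
    rcases le_total |h| r with c | c
    · have ps : p * s ≤ 2 := le_four_pt2 (by norm_num) (by
        rw [mul_pow, s4]; nlinarith only [pow_nonneg p0 4, hp, q3.1, c])
      have ds : d ≤ 2 * s := le_four_pt2 (by positivity) (by rw [mul_pow, s4]; linarith)
      have gs : g ≤ 120 * s := by
        rw [s2] at hg
        have e1 : |h| ≤ s ^ 2 := by rw [← s4] at c; nlinarith only [sq_nonneg s, c, ss]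
        have e2 : (s ^ 2 + |h|) * p ≤ 2 * s ^ 2 * p := by gcongr; linarith
        have e3 := mul_le_mul_of_nonneg_left ps s0.le
        linarith
      constructor
      · calc _ = a * s * θ ^ 3 * (ℓ / (h ^ 2 + ℓ ^ 2)) := by rw [sq ℓ]; nth_rw 1 [el]; ring
          _ ≤ 8 * θ ^ 3 * (2 * gg ℓ h) := by gcongr; nlinarith only [ha, ps, s0]
          _ ≤ _ := by nlinarith only [mul_nonneg t3p.le n2]
      · calc _ ≤ θ ^ 6 * (120 * s / (h ^ 2 + ℓ ^ 2)) := by gcongr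
          _ = 120 * θ ^ 3 * (ℓ / (h ^ 2 + ℓ ^ 2)) := by nth_rw 2 [el]; ring
          _ ≤ 120 * θ ^ 3 * (2 * gg ℓ h) := by gcongr
          _ ≤ _ := by nlinarith only [mul_nonneg t3p.le n2, mul_nonneg t3p.le n1]
    · have xp : 0 < |h| := rp.trans_le c
      obtain ⟨m, m0, m2⟩ : ∃ m : ℝ, 0 < m ∧ m ^ 2 = |h| :=
        ⟨√|h|, Real.sqrt_pos.2 xp, Real.sq_sqrt xp.le⟩
      have G3 := gg3_pt2 rp s2 m0 m2 c
      have sm : s ^ 2 ≤ m := by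
        refine le_of_pow_le_pow_left₀ two_ne_zero m0.le ?_
        rw [m2, ← pow_mul]; exact s4.le.trans c
      have t2 : θ ^ 2 ≤ s ^ 2 := by gcongr
      have tm : θ ^ 2 ≤ m := t2.trans sm
      have m1 : m ≤ 1 := by nlinarith only [m2, hx, m0]
      have hE : m ^ 4 ≤ h ^ 2 + ℓ ^ 2 := by
        rw [← sq_abs h, ← m2]; nlinarith only [sq_nonneg ℓ]
      have td : θ * d ≤ 2 * m := le_four_pt2 (by positivity) (by
        have e1 : θ ^ 4 ≤ m ^ 2 := by linarith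
        have e2 : d ^ 4 ≤ 4 / 3 * m ^ 2 := by linarith
        calc (θ * d) ^ 4 = θ ^ 4 * d ^ 4 := by ring
          _ ≤ m ^ 2 * (4 / 3 * m ^ 2) := by gcongr
          _ ≤ _ := by nlinarith only [pow_pos m0 4])
      have tg : θ * g ≤ 80 * m := by
        rw [s2, ← m2] at hg
        have e1 : (s ^ 2 + m ^ 2) * (θ * p) ≤ (m + m) * 1 := by
          gcongr; nlinarith only [m0, m1]
        have e3 := mul_le_mul_of_nonneg_left hg t0.le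
        linarith
      constructor
      · calc _ ≤ a * ℓ ^ 2 / m ^ 4 := by gcongr
          _ = (θ * a) * (θ ^ 2 / m) * θ ^ 3 * (s ^ 2 / m ^ 3) := by rw [el]; field_simp
          _ ≤ 4 * 1 * θ ^ 3 * (4 * gg r h) := by
              gcongr
              · nlinarith only [tp, ha, t0]
              · exact (div_le_one m0).2 tm
          _ ≤ _ := by nlinarith only [mul_nonneg t3p.le n1]
      · calc _ ≤ θ ^ 6 * (g / m ^ 4) := by gcongr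
          _ = (θ * g) * θ ^ 3 * (θ ^ 2 / m ^ 4) := by ring
          _ ≤ (80 * m) * θ ^ 3 * (s ^ 2 / m ^ 4) := by gcongr
          _ = 80 * θ ^ 3 * (s ^ 2 / m ^ 3) := by field_simp
          _ ≤ 80 * θ ^ 3 * (4 * gg r h) := by gcongr
          _ ≤ _ := by nlinarith only [mul_nonneg t3p.le n1]
  have k1 : 1 ≤ |3 - h| := le_trans (by linarith [(abs_le.1 hx).2]) (le_abs_self _)
  obtain ⟨T1, T3⟩ := T13
  have W0 : 0 ≤ θ ^ 3 * (gg ℓ h + gg r h) := by positivity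
  have W1 : 0 ≤ θ ^ 3 * gg r h := by positivity
  have W2 : θ ^ 3 * (gg ℓ h + gg r h) ≤ |3 - h| * (θ ^ 3 * (gg ℓ h + gg r h)) :=
    le_mul_of_one_le_left W0 k1
  have T4 := mul_le_mul_of_nonneg_left T3 (abs_nonneg (3 - h))
  unfold maj
  have e : θ ^ 6 * (|h| / (h ^ 2 + ℓ ^ 2) * (l + g) + 2 * |3 - h| * g / (h ^ 2 + ℓ ^ 2)) =
      θ ^ 6 * (|h| / (h ^ 2 + ℓ ^ 2) * (l + g)) +
        2 * (|3 - h| * (θ ^ 6 * (g / (h ^ 2 + ℓ ^ 2)))) := by ring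
  rw [e]
  nlinarith only [T1, T2, T4, W0, W1, W2]

/-- The pointwise bound. -/
theorem pt_all : ∃ C : ℝ, 0 < C ∧ ∀ θ ℓ r x0 x1 x2 p0 p1 p2 d0 d1 d2 : ℝ, 0 < θ → θ ≤ 1 / 2 →
    0 < ℓ → ℓ ^ 4 = r * θ ^ 12 →
    r = max (1 - 3 * x0 ^ 2 / (2 * (x0 ^ 2 + x1 ^ 2 + x2 ^ 2))) (θ ^ 4) →
    x0 + x1 + x2 = 0 → x1 ^ 2 ≤ x0 ^ 2 → x2 ^ 2 ≤ x0 ^ 2 → |x0| ≤ 75 →
    0 ≤ p0 → 0 ≤ p1 → 0 ≤ p2 → 0 ≤ d0 → 0 ≤ d1 → 0 ≤ d2 →
    p0 ^ 4 * max (1 - x0 ^ 2) (θ ^ 4) ≤ 1 → p1 ^ 4 * max (1 - x1 ^ 2) (θ ^ 4) ≤ 1 →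
    p2 ^ 4 * max (1 - x2 ^ 2) (θ ^ 4) ≤ 1 → d0 ^ 4 ≤ max (1 - x0 ^ 2) (θ ^ 4) →
    d1 ^ 4 ≤ max (1 - x1 ^ 2) (θ ^ 4) → d2 ^ 4 ≤ max (1 - x2 ^ 2) (θ ^ 4) →
    maj ℓ (θ ^ 6) (hh x0 x1 x2) (p0 * p1 * p2) (gB x0 x1 x2 p0 p1 p2 d0 d1 d2)
      (lB x0 x1 x2 p0 p1 p2 d0 d1 d2) ≤
      C * θ ^ 3 * (1 + |3 - hh x0 x1 x2| * (gg ℓ (hh x0 x1 x2) + gg r (hh x0 x1 x2))) := by
  obtain ⟨C1, c1, far⟩ := pt_far
  obtain ⟨C2, c2, near⟩ := pt_near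
  refine ⟨C1 + C2, by positivity, fun θ ℓ r x0 x1 x2 p0 p1 p2 d0 d1 d2 t0 t1 l0 l4 hr hs h1 h2 hx
    a0 a1 a2 b0 b1 b2 P0 P1 P2 D0 D1 D2 => ?_⟩
  have t4 : θ ^ 4 ≤ 1 := pow_le_one₀ t0.le (by linarith)
  have t3p := pow_pos t0 3
  have r1 : θ ^ 4 ≤ r := hr ▸ le_max_right _ _
  have r2 : r ≤ 1 := by
    rw [hr]
    refine max_le ?_ t4
    have : 0 ≤ 3 * x0 ^ 2 / (2 * (x0 ^ 2 + x1 ^ 2 + x2 ^ 2)) := by positivity
    linarith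
  have rp : 0 < r := lt_of_lt_of_le (by positivity) r1
  have n1 := gg_nonneg_pt2 ℓ (hh x0 x1 x2) l0
  have n2 := gg_nonneg_pt2 r (hh x0 x1 x2) rp
  have W0 : 0 ≤ |3 - hh x0 x1 x2| * (gg ℓ (hh x0 x1 x2) + gg r (hh x0 x1 x2)) := by positivity
  have m1 : ∀ x : ℝ, max (1 - x ^ 2) (θ ^ 4) ≤ 1 := fun x =>
    max_le (by linarith [sq_nonneg x]) t4
  have dd : ∀ x d : ℝ, d ^ 4 ≤ max (1 - x ^ 2) (θ ^ 4) → d ≤ 1 := fun x d h =>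
    le_four_pt2 zero_le_one (by rw [one_pow]; exact h.trans (m1 x))
  have e0 := dd _ _ D0
  have e1 := dd _ _ D1
  have e2 := dd _ _ D2
  rcases le_total (1 / 2) |hh x0 x1 x2| with c | c
  · have pp : ∀ x p : ℝ, 0 ≤ p → p ^ 4 * max (1 - x ^ 2) (θ ^ 4) ≤ 1 → θ * p ≤ 1 :=
      fun x p hp h => le_four_pt2 zero_le_one (by
        rw [one_pow, mul_pow, mul_comm]
        exact (mul_le_mul_of_nonneg_left (le_max_right _ _) (by positivity)).trans h)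
    have lt : ℓ ≤ θ ^ 3 := le_four_pt2 t3p.le (by
      rw [l4, ← pow_mul]
      exact mul_le_of_le_one_left (by positivity) r2)
    have := far θ ℓ x0 x1 x2 p0 p1 p2 d0 d1 d2 t0 t1 l0 lt hx ((sq_le_sq.1 h1).trans hx)
      ((sq_le_sq.1 h2).trans hx) a0 a1 a2 b0 b1 b2 (pp _ _ a0 P0) (pp _ _ a1 P1) (pp _ _ a2 P2)
      e0 e1 e2 c
    refine this.trans ?_
    calc C1 * θ ^ 3 = C1 * θ ^ 3 * 1 := (mul_one _).symm
      _ ≤ _ := by gcongr <;> linarith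
  · obtain ⟨g0, g1, g2, g3, g4, g5⟩ := pt_geom hs h1 h2 c (r := r) (hr ▸ le_max_left _ _)
    have pp : ∀ x p : ℝ, 0 ≤ p → x ^ 2 ≤ 7 / 8 → p ^ 4 * max (1 - x ^ 2) (θ ^ 4) ≤ 1 →
        p ≤ 17 / 10 := fun x p hp hx h => le_four_pt2 (by norm_num) (by
      have : p ^ 4 * (1 / 8) ≤ p ^ 4 * max (1 - x ^ 2) (θ ^ 4) :=
        mul_le_mul_of_nonneg_left (le_trans (by linarith) (le_max_left _ _)) (by positivity)
      linarith)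
    have q1 := pp _ _ a1 g1 P1
    have q2 := pp _ _ a2 g2 P2
    have q3 : p1 * p2 ≤ 17 / 10 * (17 / 10) := by gcongr
    have sr : r ≤ √r := Real.le_sqrt_of_sq_le (by nlinarith only [rp, r2])
    have s0 := Real.sqrt_nonneg r
    have h0 := abs_nonneg (hh x0 x1 x2)
    have k12 : |x1 * x2| ≤ 1 :=
      abs_le.2 ⟨by nlinarith only [g1, g2, sq_nonneg (x1 + x2)],
        by nlinarith only [g1, g2, sq_nonneg (x1 - x2)]⟩
    have k02 : |x0 * x2| ≤ 2 :=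
      abs_le.2 ⟨by nlinarith only [g0, g2, sq_nonneg (x0 + x2)],
        by nlinarith only [g0, g2, sq_nonneg (x0 - x2)]⟩
    have k01 : |x0 * x1| ≤ 2 :=
      abs_le.2 ⟨by nlinarith only [g0, g1, sq_nonneg (x0 + x1)],
        by nlinarith only [g0, g1, sq_nonneg (x0 - x1)]⟩
    have k3 : |1 + 2 * x1 * x2| ≤ 3 :=
      abs_le.2 ⟨by linarith [(abs_le.1 k12).1], by linarith [(abs_le.1 k12).2]⟩
    have hrr : |max (1 - x0 ^ 2) (θ ^ 4) - r| ≤ |hh x0 x1 x2| / 3 := by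
      rw [hr]
      exact (abs_max_sub_max_le_abs _ _ _).trans g3
    have hg : gB x0 x1 x2 p0 p1 p2 d0 d1 d2 ≤ 20 * (d0 + (√r + |hh x0 x1 x2|) * p0) := by
      have w1 : |1 + 2 * x1 * x2| * d0 * (p1 * p2) ≤ 3 * d0 * (17 / 10 * (17 / 10)) := by gcongr
      have w2 : |1 + 2 * x0 * x2| * p0 * d1 * p2 ≤
          4 * (√r + |hh x0 x1 x2|) * p0 * 1 * (17 / 10) := by gcongr; linarith
      have w3 : |1 + 2 * x0 * x1| * p0 * p1 * d2 ≤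
          4 * (√r + |hh x0 x1 x2|) * p0 * (17 / 10) * 1 := by gcongr; linarith
      have w4 : 2 * d0 * d1 * d2 ≤ 2 * d0 * 1 * 1 := by gcongr
      have w5 : 0 ≤ (√r + |hh x0 x1 x2|) * p0 := by positivity
      unfold gB
      linarith
    have hl : lB x0 x1 x2 p0 p1 p2 d0 d1 d2 ≤ 40 * (1 + p0) := by
      have w1 : |x1 * x2| * d0 * (p1 * p2) ≤ 1 * 1 * (17 / 10 * (17 / 10)) := by gcongr
      have w2 : |x0 * x2| * p0 * d1 * p2 ≤ 2 * p0 * 1 * (17 / 10) := by gcongr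
      have w3 : |x0 * x1| * p0 * p1 * d2 ≤ 2 * p0 * (17 / 10) * 1 := by gcongr
      unfold lB
      linarith
    have ha : p0 * p1 * p2 ≤ 4 * p0 := by
      have := mul_le_mul_of_nonneg_left q3 a0
      linarith
    have := near θ ℓ r (max (1 - x0 ^ 2) (θ ^ 4)) (hh x0 x1 x2) p0 d0
      (gB x0 x1 x2 p0 p1 p2 d0 d1 d2) (lB x0 x1 x2 p0 p1 p2 d0 d1 d2) (p0 * p1 * p2) t0 t1 l0 l4
      r1 r2 (le_max_right _ _) hrr c a0 b0 P0 D0 (by positivity) ha (by unfold gB; positivity) hg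
      (by unfold lB; positivity) hl
    refine this.trans ?_
    gcongr <;> linarith

end Pool.Agent.Lib.MP_a52643_an.H6C
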