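import Pool.Agent.Lib.MP_a52643_an.H6CIbp
import Pool.Agent.Lib.MP_a52643_an.H6CPt2

open MeasureTheory Set Filter Topology Metric UpperHalfPlane
open scoped ENNReal NNReal ContDiff Laplacian MatrixGroups Real

noncomputable section

namespace Pool.Agent.Lib.MP_a52643_an.H6C

theorem continuous_gg {ρ : ℝ} (hρ : 0 < ρ) : Continuous (gg ρ) := by
  unfold gg
  refine continuous_const.div (by fun_prop) fun h => ?_
  have h1 : 0 < |h| + ρ := by positivity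
  have h2 : 0 < √(|h| + ρ) := Real.sqrt_pos.2 h1
  positivity

theorem prim_pos_tri {ρ h : ℝ} (hρ : 0 < ρ) (hh : 0 ≤ h) : |∫ x in (0 : ℝ)..h, gg ρ x| ≤ 2 := by
  have key : ∫ x in (0 : ℝ)..h, gg ρ x = -2 * √ρ / √(h + ρ) - -2 * √ρ / √(0 + ρ) := by
    apply intervalIntegral.integral_eq_sub_of_hasDerivAt (f := fun x => -2 * √ρ / √(x + ρ))
    · intro x hx
      rw [uIcc_of_le hh] at hx
      have h1 : 0 < x + ρ := by linarith [hx.1]
      have h2 : 0 < √(x + ρ) := Real.sqrt_pos.2 h1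
      have h3 : HasDerivAt (fun x => √(x + ρ)) (1 / (2 * √(x + ρ))) x :=
        ((hasDerivAt_id x).add_const ρ).sqrt h1.ne'
      have h4 := (hasDerivAt_const x (-2 * √ρ)).div h3 h2.ne'
      have e : (0 * √(x + ρ) - -2 * √ρ * (1 / (2 * √(x + ρ)))) / √(x + ρ) ^ 2 = gg ρ x := by
        unfold gg
        rw [abs_of_nonneg hx.1, Real.sq_sqrt h1.le]
        field_simp
        ring
      rw [e] at h4
      exact h4
    · exact (continuous_gg hρ).intervalIntegrable _ _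
  have h1 : 0 < √ρ := Real.sqrt_pos.2 hρ
  have h2 : √ρ ≤ √(h + ρ) := Real.sqrt_le_sqrt (by linarith)
  have h3 : √ρ / √(h + ρ) ≤ 1 := (div_le_one (by linarith)).2 h2
  have h4 : 0 ≤ √ρ / √(h + ρ) := by positivity
  have e : -2 * √ρ / √(h + ρ) - -2 * √ρ / √(0 + ρ) = 2 - 2 * (√ρ / √(h + ρ)) := by
    rw [zero_add]
    field_simp
    ring
  rw [key, e, abs_le]
  constructor <;> linarith

theorem prim_tri {ρ : ℝ} (hρ : 0 < ρ) (h : ℝ) : |∫ x in (0 : ℝ)..h, gg ρ x| ≤ 2 := by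
  rcases le_total 0 h with hh | hh
  · exact prim_pos_tri hρ hh
  · have h1 := prim_pos_tri hρ (neg_nonneg.2 hh)
    have h2 : ∫ x in (0 : ℝ)..h, gg ρ x = -∫ x in (0 : ℝ)..-h, gg ρ x := by
      have h3 := intervalIntegral.integral_comp_neg (a := 0) (b := h) (gg ρ)
      have h4 : (fun x => gg ρ (-x)) = gg ρ := by
        funext x
        unfold gg
        rw [abs_neg]
      rw [h4, neg_zero] at h3
      rw [h3, intervalIntegral.integral_symm]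
    rw [h2, abs_neg]
    exact h1

theorem cont_int_tri {ρ : ℝ} (hρ : 0 < ρ) (S : ℝ) :
    Continuous fun u => S * Real.exp (2 * u) * gg ρ (3 - S * Real.exp (2 * u)) :=
  (by fun_prop : Continuous fun u : ℝ => S * Real.exp (2 * u)).mul
    ((continuous_gg hρ).comp (by fun_prop))

theorem int_gg {ρ S α β : ℝ} (hρ : 0 < ρ) (hS : 0 ≤ S) (hαβ : α ≤ β) :
    ∫ u in α..β, S * Real.exp (2 * u) * gg ρ (3 - S * Real.exp (2 * u)) ≤ 2 := by
  have key := intervalIntegral.integral_eq_sub_of_hasDerivAt (a := α) (b := β)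
    (f := fun u => -(1 / 2) * ∫ x in (0 : ℝ)..(3 - S * Real.exp (2 * u)), gg ρ x)
    (f' := fun u => S * Real.exp (2 * u) * gg ρ (3 - S * Real.exp (2 * u))) (fun u _ => by
      have h1 : HasDerivAt (fun u => 3 - S * Real.exp (2 * u)) (-(S * (Real.exp (2 * u) * 2))) u := by
        have h0 : HasDerivAt (fun u : ℝ => 2 * u) 2 u := by
          simpa using (hasDerivAt_id u).const_mul 2
        exact (h0.exp.const_mul S).const_sub 3
      have h2 := ((continuous_gg hρ).integral_hasStrictDerivAt 0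
        (3 - S * Real.exp (2 * u))).hasDerivAt
      have h3 := (h2.comp u h1).const_mul (-(1 / 2))
      refine h3.congr_deriv ?_
      ring) ((cont_int_tri hρ S).intervalIntegrable _ _)
  rw [key]
  have h1 := abs_le.1 (prim_tri hρ (3 - S * Real.exp (2 * α)))
  have h2 := abs_le.1 (prim_tri hρ (3 - S * Real.exp (2 * β)))
  linarith [h1.2, h2.1]

theorem rr_eq_tri {θ t : ℝ} (ht : 0 < t) (c u : ℝ) :
    rr θ t c u = max (1 - (c * Real.exp u / t) ^ 2) (θ ^ 4) := by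
  unfold rr qq
  congr 1
  rw [show 2 * u = u + u by ring, Real.exp_add]
  field_simp

theorem amp_tri {s : Set ℝ} {θ t c a : ℝ} {w v : ℝ → ℂ} (hθ : 0 < θ) (ht : 0 < t) (ha : 0 ≤ a)
    (h : AmpOn s θ t c a w v) {u : ℝ} (hu : u ∈ s) : ∃ p d : ℝ, 0 ≤ p ∧ 0 ≤ d ∧ ‖w u‖ = a * p ∧
      ‖v u‖ / t = a * d ∧ p ^ 4 * max (1 - (c * Real.exp u / t) ^ 2) (θ ^ 4) ≤ 1 ∧
      d ^ 4 ≤ max (1 - (c * Real.exp u / t) ^ 2) (θ ^ 4) := by
  obtain ⟨h1, h2⟩ := h u hu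
  rw [rr_eq_tri ht] at h1 h2
  set R := max (1 - (c * Real.exp u / t) ^ 2) (θ ^ 4) with hR
  have hR0 : 0 < R := lt_max_of_lt_right (by positivity)
  rcases ha.eq_or_lt with h0 | h0
  · subst h0
    have e1 : ‖w u‖ = 0 := by
      have h3 : ‖w u‖ ^ 4 ≤ 0 := by
        by_contra hc
        push Not at hc
        have := mul_pos hc hR0
        norm_num at h1
        linarith
      exact pow_eq_zero_iff (n := 4) (by norm_num) |>.1 (le_antisymm h3 (by positivity))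
    have e2 : ‖v u‖ = 0 := by
      have h3 : ‖v u‖ ^ 4 ≤ 0 := by simpa using h2
      exact pow_eq_zero_iff (n := 4) (by norm_num) |>.1 (le_antisymm h3 (by positivity))
    refine ⟨0, 0, le_rfl, le_rfl, by simp [e1], by simp [e2], by simp, by simpa using hR0.le⟩
  · refine ⟨‖w u‖ / a, ‖v u‖ / t / a, by positivity, by positivity, by field_simp, by field_simp,
      ?_, ?_⟩
    · rw [div_pow, div_mul_eq_mul_div, div_le_one (by positivity)]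
      exact h1
    · rw [div_div, div_pow, div_le_iff₀ (by positivity), mul_pow]
      linarith

theorem maj_hom_tri (ℓ τ x0 x1 x2 a0 a1 a2 p0 p1 p2 d0 d1 d2 : ℝ) :
    maj ℓ τ (hh x0 x1 x2) (a0 * p0 * (a1 * p1) * (a2 * p2))
      (gB x0 x1 x2 (a0 * p0) (a1 * p1) (a2 * p2) (a0 * d0) (a1 * d1) (a2 * d2))
      (lB x0 x1 x2 (a0 * p0) (a1 * p1) (a2 * p2) (a0 * d0) (a1 * d1) (a2 * d2)) =
    a0 * a1 * a2 * maj ℓ τ (hh x0 x1 x2) (p0 * p1 * p2) (gB x0 x1 x2 p0 p1 p2 d0 d1 d2)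
      (lB x0 x1 x2 p0 p1 p2 d0 d1 d2) := by
  unfold maj gB lB
  ring

theorem exp_ten_tri : Real.exp 10 ≤ 22500 := by
  have h1 : Real.exp 10 = Real.exp 1 ^ 10 := by
    rw [← Real.exp_nat_mul]
    norm_num
  have h2 := Real.exp_one_lt_d9
  have h3 : Real.exp 1 ^ 10 ≤ 2.7182818286 ^ 10 := pow_le_pow_left₀ (Real.exp_pos 1).le h2.le 10
  rw [h1]
  refine h3.trans ?_
  norm_num

theorem triple_max_tri : ∃ C : ℝ, 0 < C ∧ ∀ (θ t b B c0 c1 c2 a0 a1 a2 : ℝ)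
    (w0 w1 w2 v0 v1 v2 : ℝ → ℂ) (χ χ' : ℝ → ℝ), 0 < θ → θ ≤ 1 / 2 → t * θ ^ 6 = 1 →
    c0 + c1 + c2 = 0 → c0 ^ 2 * Real.exp (2 * b) ≤ t ^ 2 / 4 →
    c1 ^ 2 ≤ c0 ^ 2 → c2 ^ 2 ≤ c0 ^ 2 →
    0 ≤ a0 → 0 ≤ a1 → 0 ≤ a2 →
    SolOn (Icc (b + 3) (b + 5)) t c0 w0 v0 → SolOn (Icc (b + 3) (b + 5)) t c1 w1 v1 →
    SolOn (Icc (b + 3) (b + 5)) t c2 w2 v2 →
    AmpOn (Icc (b + 3) (b + 5)) θ t c0 a0 w0 v0 → AmpOn (Icc (b + 3) (b + 5)) θ t c1 a1 w1 v1 →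
    AmpOn (Icc (b + 3) (b + 5)) θ t c2 a2 w2 v2 →
    (∀ u ∈ Icc (b + 3) (b + 5), HasDerivAt χ (χ' u) u) → ContinuousOn χ' (Icc (b + 3) (b + 5)) →
    χ (b + 3) = 0 → χ (b + 5) = 0 → (∀ u ∈ Icc (b + 3) (b + 5), |χ u| ≤ B) →
    (∀ u ∈ Icc (b + 3) (b + 5), |χ' u| ≤ B) →
    ‖∫ u in (b + 3)..(b + 5), (χ u : ℂ) * (w0 u * w1 u * w2 u)‖ ≤
      C * B * θ ^ 3 * (a0 * a1 * a2) := by
  obtain ⟨C, hC, H⟩ := pt_all
  refine ⟨6 * C, by positivity, ?_⟩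
  intro θ t b B c0 c1 c2 a0 a1 a2 w0 w1 w2 v0 v1 v2 χ χ' hθ hθ2 htθ hc hb h1 h2 ha0 ha1 ha2
    s0 s1 s2 m0 m1 m2 hχ cχ e1 e2 b1 b2
  have hθ6 : 0 < θ ^ 6 := by positivity
  have ht : 0 < t := by
    by_contra hn
    push Not at hn
    nlinarith
  have hti : t⁻¹ = θ ^ 6 := inv_eq_of_mul_eq_one_right htθ
  have hab : b + 3 ≤ b + 5 := by linarith
  have hB : 0 ≤ B := (abs_nonneg _).trans (b1 _ (left_mem_Icc.2 hab))
  obtain ⟨r, hr⟩ : ∃ r, r = max (1 - 3 * c0 ^ 2 / (2 * (c0 ^ 2 + c1 ^ 2 + c2 ^ 2))) (θ ^ 4) :=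
    ⟨_, rfl⟩
  have hr0 : 0 < r := by
    rw [hr]
    exact lt_max_of_lt_right (by positivity)
  obtain ⟨ℓ, hℓ⟩ : ∃ ℓ, ℓ = √(√r) * θ ^ 3 := ⟨_, rfl⟩
  have hℓ0 : 0 < ℓ := by
    rw [hℓ]
    have := Real.sqrt_pos.2 (Real.sqrt_pos.2 hr0)
    positivity
  have hℓ4 : ℓ ^ 4 = r * θ ^ 12 := by
    rw [hℓ, mul_pow, show (4 : ℕ) = 2 * 2 from rfl, pow_mul, Real.sq_sqrt (Real.sqrt_nonneg _),
      Real.sq_sqrt hr0.le]
    ring
  obtain ⟨S, hS⟩ : ∃ S, S = 2 * (c0 ^ 2 + c1 ^ 2 + c2 ^ 2) / t ^ 2 := ⟨_, rfl⟩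
  have hS0 : 0 ≤ S := by
    rw [hS]
    positivity
  have hA : 0 ≤ a0 * a1 * a2 := by positivity
  have i1 := (cont_int_tri hℓ0 S).intervalIntegrable (μ := volume) (b + 3) (b + 5)
  have i2 := (cont_int_tri hr0 S).intervalIntegrable (μ := volume) (b + 3) (b + 5)
  have i0 : IntervalIntegrable (fun _ : ℝ => (1 : ℝ)) volume (b + 3) (b + 5) :=
    intervalIntegrable_const
  have key := ibp ht hℓ0 hab hc s0 s1 s2 hχ cχ e1 e2 b1 b2
    (Φ := fun u => a0 * a1 * a2 * (C * θ ^ 3) *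
      (1 + S * Real.exp (2 * u) * gg ℓ (3 - S * Real.exp (2 * u)) +
        S * Real.exp (2 * u) * gg r (3 - S * Real.exp (2 * u))))
    (((i0.add i1).add i2).const_mul _) (fun u hu => by
      obtain ⟨p0, d0, hp0, hd0, x0, y0, z0, q0⟩ := amp_tri hθ ht ha0 m0 hu
      obtain ⟨p1, d1, hp1, hd1, x1, y1, z1, q1⟩ := amp_tri hθ ht ha1 m1 hu
      obtain ⟨p2, d2, hp2, hd2, x2, y2, z2, q2⟩ := amp_tri hθ ht ha2 m2 hu
      rw [x0, x1, x2, y0, y1, y2, maj_hom_tri, hti]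
      obtain ⟨k, hk⟩ : ∃ k, k = Real.exp u / t := ⟨_, rfl⟩
      have hk0 : 0 < k := by
        rw [hk]
        positivity
      have ek : ∀ c : ℝ, c * Real.exp u / t = c * k := fun c => by rw [hk, mul_div_assoc]
      have hk2 : k ^ 2 = Real.exp (2 * u) / t ^ 2 := by
        rw [hk, div_pow, show 2 * u = u + u by ring, Real.exp_add, sq]
      simp only [ek] at z0 z1 z2 q0 q1 q2 ⊢
      have ehh : hh (c0 * k) (c1 * k) (c2 * k) = 3 - S * Real.exp (2 * u) := by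
        unfold hh
        rw [mul_pow, mul_pow, mul_pow, hk2, hS]
        ring
      have er : r = max (1 - 3 * (c0 * k) ^ 2 /
          (2 * ((c0 * k) ^ 2 + (c1 * k) ^ 2 + (c2 * k) ^ 2))) (θ ^ 4) := by
        rw [hr]
        congr 2
        rw [← mul_div_mul_right _ _ (pow_pos hk0 2).ne']
        congr 1 <;> ring
      have hx0 : |c0 * k| ≤ 75 := by
        apply abs_le_of_sq_le_sq _ (by norm_num)
        rw [mul_pow, hk2, ← mul_div_assoc, div_le_iff₀ (by positivity)]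
        have g1 : Real.exp (2 * u) ≤ Real.exp (2 * b) * Real.exp 10 := by
          rw [← Real.exp_add]
          exact Real.exp_le_exp.2 (by linarith [hu.2])
        have g2 := exp_ten_tri
        have g3 : 0 < Real.exp 10 := Real.exp_pos _
        calc c0 ^ 2 * Real.exp (2 * u) ≤ c0 ^ 2 * (Real.exp (2 * b) * Real.exp 10) := by gcongr
          _ = c0 ^ 2 * Real.exp (2 * b) * Real.exp 10 := by ring
          _ ≤ t ^ 2 / 4 * 22500 := by gcongr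
          _ = 75 ^ 2 * t ^ 2 := by ring
      have h3 := H θ ℓ r (c0 * k) (c1 * k) (c2 * k) p0 p1 p2 d0 d1 d2 hθ hθ2 hℓ0 hℓ4 er
        (by rw [← add_mul, ← add_mul, hc, zero_mul])
        (by rw [mul_pow, mul_pow]; gcongr) (by rw [mul_pow, mul_pow]; gcongr) hx0
        hp0 hp1 hp2 hd0 hd1 hd2 z0 z1 z2 q0 q1 q2
      refine (mul_le_mul_of_nonneg_left h3 hA).trans (le_of_eq ?_)
      rw [ehh, sub_sub_cancel, abs_of_nonneg (by positivity)]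
      ring)
  refine key.trans ?_
  rw [intervalIntegral.integral_const_mul, intervalIntegral.integral_add (i0.add i1) i2,
    intervalIntegral.integral_add i0 i1, intervalIntegral.integral_const]
  have j1 := int_gg hℓ0 hS0 hab
  have j2 := int_gg hr0 hS0 hab
  have j3 : (b + 5 - (b + 3)) • (1 : ℝ) +
      (∫ u in (b + 3)..(b + 5), S * Real.exp (2 * u) * gg ℓ (3 - S * Real.exp (2 * u))) +
      (∫ u in (b + 3)..(b + 5), S * Real.exp (2 * u) * gg r (3 - S * Real.exp (2 * u))) ≤ 6 := by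
    rw [smul_eq_mul]
    linarith
  calc _ ≤ B * (a0 * a1 * a2 * (C * θ ^ 3) * 6) := by gcongr
    _ = _ := by ring

/-- Uniform stationary phase bound for a triple of modes. -/
theorem triple : ∃ C : ℝ, 0 < C ∧ ∀ (θ t b B c0 c1 c2 a0 a1 a2 : ℝ)
    (w0 w1 w2 v0 v1 v2 : ℝ → ℂ) (χ χ' : ℝ → ℝ), 0 < θ → θ ≤ 1 / 2 → t * θ ^ 6 = 1 →
    c0 + c1 + c2 = 0 → c0 ^ 2 * Real.exp (2 * b) ≤ t ^ 2 / 4 →
    c1 ^ 2 * Real.exp (2 * b) ≤ t ^ 2 / 4 → c2 ^ 2 * Real.exp (2 * b) ≤ t ^ 2 / 4 →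
    0 ≤ a0 → 0 ≤ a1 → 0 ≤ a2 →
    SolOn (Icc (b + 3) (b + 5)) t c0 w0 v0 → SolOn (Icc (b + 3) (b + 5)) t c1 w1 v1 →
    SolOn (Icc (b + 3) (b + 5)) t c2 w2 v2 →
    AmpOn (Icc (b + 3) (b + 5)) θ t c0 a0 w0 v0 → AmpOn (Icc (b + 3) (b + 5)) θ t c1 a1 w1 v1 →
    AmpOn (Icc (b + 3) (b + 5)) θ t c2 a2 w2 v2 →
    (∀ u ∈ Icc (b + 3) (b + 5), HasDerivAt χ (χ' u) u) → ContinuousOn χ' (Icc (b + 3) (b + 5)) →
    χ (b + 3) = 0 → χ (b + 5) = 0 → (∀ u ∈ Icc (b + 3) (b + 5), |χ u| ≤ B) →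
    (∀ u ∈ Icc (b + 3) (b + 5), |χ' u| ≤ B) →
    ‖∫ u in (b + 3)..(b + 5), (χ u : ℂ) * (w0 u * w1 u * w2 u)‖ ≤
      C * B * θ ^ 3 * (a0 * a1 * a2) := by
  obtain ⟨C, hC, H⟩ := triple_max_tri
  refine ⟨C, hC, ?_⟩
  intro θ t b B c0 c1 c2 a0 a1 a2 w0 w1 w2 v0 v1 v2 χ χ' hθ hθ2 htθ hc hb0 hb1 hb2 ha0 ha1 ha2
    s0 s1 s2 m0 m1 m2 hχ cχ e1 e2 b1 b2
  by_cases k1 : c1 ^ 2 ≤ c0 ^ 2 ∧ c2 ^ 2 ≤ c0 ^ 2
  · exact H θ t b B c0 c1 c2 a0 a1 a2 w0 w1 w2 v0 v1 v2 χ χ' hθ hθ2 htθ hc hb0 k1.1 k1.2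
      ha0 ha1 ha2 s0 s1 s2 m0 m1 m2 hχ cχ e1 e2 b1 b2
  rw [not_and_or, not_le, not_le] at k1
  rcases le_total (c2 ^ 2) (c1 ^ 2) with k2 | k2
  · have k3 : c0 ^ 2 ≤ c1 ^ 2 := by rcases k1 with k | k <;> linarith
    have h := H θ t b B c1 c0 c2 a1 a0 a2 w1 w0 w2 v1 v0 v2 χ χ' hθ hθ2 htθ (by linarith) hb1 k3 k2
      ha1 ha0 ha2 s1 s0 s2 m1 m0 m2 hχ cχ e1 e2 b1 b2
    have e : (fun u => (χ u : ℂ) * (w0 u * w1 u * w2 u)) =
        fun u => (χ u : ℂ) * (w1 u * w0 u * w2 u) := by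
      funext u
      ring
    rw [e, mul_comm a0 a1]
    exact h
  · have k3 : c0 ^ 2 ≤ c2 ^ 2 := by rcases k1 with k | k <;> linarith
    have h := H θ t b B c2 c1 c0 a2 a1 a0 w2 w1 w0 v2 v1 v0 χ χ' hθ hθ2 htθ (by linarith) hb2 k2 k3
      ha2 ha1 ha0 s2 s1 s0 m2 m1 m0 hχ cχ e1 e2 b1 b2
    have e : (fun u => (χ u : ℂ) * (w0 u * w1 u * w2 u)) =
        fun u => (χ u : ℂ) * (w2 u * w1 u * w0 u) := by
      funext u
      ring
    rw [e, show a0 * a1 * a2 = a2 * a1 * a0 by ring]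
    exact h

end Pool.Agent.Lib.MP_a52643_an.H6C
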