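import Pool.Agent.Lib.MP_a52643_an.H6CMass
import Pool.Agent.Lib.MP_a52643_an.H6CTri

open MeasureTheory Set Filter Topology Metric UpperHalfPlane
open scoped ENNReal NNReal ContDiff Laplacian MatrixGroups Real

noncomputable section

namespace Pool.Agent.Lib.MP_a52643_an.H6C

theorem ch_prop : ∃ B : ℝ, 0 < B ∧ ContDiff ℝ ∞ ch ∧ (∀ u, u ≤ 0 → ch u = 0) ∧
    (∀ u, 2 ≤ u → ch u = 0) ∧ (∀ u, |ch u| ≤ B) ∧ ∀ u, |deriv ch u| ≤ B := by
  have hc : ContDiff ℝ ∞ ch :=
    Real.smoothTransition.contDiff.sub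
      (Real.smoothTransition.contDiff.comp (contDiff_id.sub contDiff_const))
  have h0 : ∀ u, u ≤ 0 → ch u = 0 := fun u hu => by
    unfold ch
    rw [Real.smoothTransition.zero_of_nonpos hu,
      Real.smoothTransition.zero_of_nonpos (by linarith), sub_zero]
  have h2 : ∀ u, 2 ≤ u → ch u = 0 := fun u hu => by
    unfold ch
    rw [Real.smoothTransition.one_of_one_le (by linarith),
      Real.smoothTransition.one_of_one_le (by linarith), sub_self]
  have hs : HasCompactSupport ch := by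
    refine HasCompactSupport.intro (isCompact_Icc (a := (0 : ℝ)) (b := 2)) fun x hx => ?_
    rcases le_total x 0 with h | h
    · exact h0 x h
    · refine h2 x ?_
      by_contra h'
      exact hx ⟨h, by linarith [not_le.mp h']⟩
  obtain ⟨C1, hC1⟩ := hc.continuous.bounded_above_of_compact_support hs
  obtain ⟨C2, hC2⟩ := (hc.continuous_deriv (by simp)).bounded_above_of_compact_support hs.deriv
  have h1 : 0 ≤ C1 := (norm_nonneg _).trans (hC1 0)
  have h3 : 0 ≤ C2 := (norm_nonneg _).trans (hC2 0)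
  refine ⟨C1 + C2 + 1, by linarith, hc, h0, h2, fun u => ?_, fun u => ?_⟩
  · have := hC1 u
    rw [Real.norm_eq_abs] at this
    linarith
  · have := hC2 u
    rw [Real.norm_eq_abs] at this
    linarith

lemma theta_high {lam : ℝ} (hl : 5000 ≤ lam) :
    ∃ t θ : ℝ, t ^ 2 = lam - 1 / 4 ∧ 1 ≤ t ∧ 0 < θ ∧ θ ≤ 1 / 2 ∧ t * θ ^ 6 = 1 := by
  have h1 : (64 : ℝ) ≤ √(lam - 1 / 4) := Real.le_sqrt_of_sq_le (by linarith)
  have h0 : 0 < √(lam - 1 / 4) := by linarith
  have h6 : ((√(lam - 1 / 4))⁻¹ ^ (((6 : ℕ) : ℝ)⁻¹)) ^ (6 : ℕ) = (√(lam - 1 / 4))⁻¹ :=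
    Real.rpow_inv_natCast_pow (inv_nonneg.mpr h0.le) (by norm_num)
  have hp : 0 < (√(lam - 1 / 4))⁻¹ ^ (((6 : ℕ) : ℝ)⁻¹) := Real.rpow_pos_of_pos (inv_pos.mpr h0) _
  refine ⟨√(lam - 1 / 4), (√(lam - 1 / 4))⁻¹ ^ (((6 : ℕ) : ℝ)⁻¹), Real.sq_sqrt (by linarith),
    by linarith, hp, ?_, ?_⟩
  · refine le_of_pow_le_pow_left₀ (n := 6) (by norm_num) (by norm_num) ?_
    rw [h6]
    refine (inv_anti₀ (by norm_num) h1).trans ?_
    norm_num
  · rw [h6]; exact mul_inv_cancel₀ h0.ne'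

lemma cont_W_high {A lam : ℝ} {f : ℂ → ℝ} (h : Cusp A lam f) (u : ℝ) :
    Continuous fun x => (Wf f u x : ℂ) :=
  Complex.continuous_ofReal.comp
    ((continuous_Wf h.sm).comp (continuous_const.prodMk continuous_id))

lemma cube_high {A lam : ℝ} {f : ℂ → ℝ} (h : Cusp A lam f) (u : ℝ) (Λ : Finset ℤ) {σ : ℝ}
    (hσ : ∀ s : Finset ℤ, Disjoint s Λ → ∑ n ∈ s, ‖md f n u‖ ≤ σ) :
    ‖((∫ x in (0 : ℝ)..1, Wf f u x ^ 3 : ℝ) : ℂ) -
      ∑ p ∈ (Λ ×ˢ Λ).filter (fun p => -p.1 - p.2 ∈ Λ),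
        md f p.1 u * md f p.2 u * md f (-p.1 - p.2) u‖ ≤ 3 * σ * m2 f u := by
  have h1 := cube_le (cont_W_high h u) (fun x => by rw [h.Wf_per]) Λ hσ
  have h2 : ((∫ x in (0 : ℝ)..1, Wf f u x ^ 3 : ℝ) : ℂ) =
      ∫ x in (0 : ℝ)..1, (Wf f u x : ℂ) ^ 3 := by
    rw [← intervalIntegral.integral_ofReal]
    simp only [Complex.ofReal_pow]
  have h3 : m2 f u = ∫ x in (0 : ℝ)..1, ‖(Wf f u x : ℂ)‖ ^ 2 := by
    unfold m2
    simp only [Complex.norm_real, Real.norm_eq_abs, sq_abs]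
  rw [h2, h3]
  exact h1

/-- One window, uniformly in the height. -/
theorem high : ∃ C : ℝ, 0 < C ∧ ∀ (A lam : ℝ) (f : ℂ → ℝ) (k : ℝ), Cusp A lam f →
    5000 ≤ lam → A + 5 ≤ k →
    |∫ u in k..(k + 2), ch (u - k) * I3 f u| ≤
      C / ((k - A - 4) * √(k - A - 4)) + C / √(k - A - 4) * ∫ u in k..(k + 2), m2 f u := by
  obtain ⟨B, hB, hch, hch0, hch2, hchB, hchB'⟩ := ch_prop
  obtain ⟨C, hC, htri⟩ := triple
  refine ⟨2 * B * Real.exp (5 / 2) * (C * (600 * √600) + 3 * √6), by positivity, ?_⟩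
  intro A lam f k h hl hk
  obtain ⟨t, θ, ht, ht1, hθ0, hθ1, htθ⟩ := theta_high hl
  obtain ⟨b, rfl⟩ : ∃ b, k = b + 3 := ⟨k - 3, by ring⟩
  have e5 : b + 3 + 2 = b + 5 := by ring
  have eD : b + 3 - A - 4 = b - A - 1 := by ring
  rw [e5, eD]
  have hb : A + 2 ≤ b := by linarith
  have hD : 0 < b - A - 1 := by linarith
  set D := b - A - 1 with hDdef
  obtain ⟨Λ, hΛ, hcard⟩ := low_fin (t := t) (by linarith) b
  set T := (Λ ×ˢ Λ).filter (fun p => -p.1 - p.2 ∈ Λ) with hT
  set χ : ℝ → ℝ := fun u => ch (u - (b + 3)) * Real.exp (u / 2) with hχ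
  set χ' : ℝ → ℝ := fun u => deriv ch (u - (b + 3)) * Real.exp (u / 2) +
    ch (u - (b + 3)) * (Real.exp (u / 2) * (1 / 2)) with hχ'
  set B' : ℝ := 2 * B * Real.exp ((b + 5) / 2) with hB'
  set σ : ℝ := √(6 / D) * Real.exp (-b / 2) with hσ
  have hB'0 : 0 < B' := by positivity
  have hσ0 : 0 ≤ σ := by positivity
  have hchd : Differentiable ℝ ch := hch.differentiable (by simp)
  have hchc : Continuous ch := hch.continuous
  have hchc' : Continuous (deriv ch) := hch.continuous_deriv (by simp)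
  have hχd : ∀ u, HasDerivAt χ (χ' u) u := fun u => by
    have a1 : HasDerivAt (fun u : ℝ => ch (u - (b + 3))) (deriv ch (u - (b + 3))) u :=
      (hchd (u - (b + 3))).hasDerivAt.comp_sub_const u (b + 3)
    have a2 : HasDerivAt (fun u : ℝ => Real.exp (u / 2)) (Real.exp (u / 2) * (1 / 2)) u :=
      ((hasDerivAt_id u).div_const 2).exp
    exact a1.mul a2
  have hχc : Continuous χ := by simp only [hχ]; fun_prop
  have hχc' : Continuous χ' := by simp only [hχ']; fun_prop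
  have hexp : ∀ u ∈ Icc (b + 3) (b + 5), Real.exp (u / 2) ≤ Real.exp ((b + 5) / 2) :=
    fun u hu => Real.exp_le_exp.mpr (by linarith [hu.2])
  have hχB : ∀ u ∈ Icc (b + 3) (b + 5), |χ u| ≤ B' := fun u hu => by
    simp only [hχ, hB', abs_mul, abs_of_pos (Real.exp_pos _)]
    have a1 := mul_le_mul (hchB (u - (b + 3))) (hexp u hu) (Real.exp_pos _).le hB.le
    have a2 : 0 ≤ B * Real.exp ((b + 5) / 2) := by positivity
    linarith
  have hχB' : ∀ u ∈ Icc (b + 3) (b + 5), |χ' u| ≤ B' := fun u hu => by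
    refine (abs_add_le _ _).trans ?_
    simp only [hB', abs_mul, abs_of_pos (Real.exp_pos _)]
    have a1 := mul_le_mul (hchB (u - (b + 3))) (hexp u hu) (Real.exp_pos _).le hB.le
    have a3 := mul_le_mul (hchB' (u - (b + 3))) (hexp u hu) (Real.exp_pos _).le hB.le
    have a2 : 0 ≤ B * Real.exp ((b + 5) / 2) := by positivity
    have a4 : |(1 / 2 : ℝ)| = 1 / 2 := abs_of_pos (by norm_num)
    rw [a4]
    linarith
  have hsub : Icc (b + 3) (b + 5) ⊆ Ioi A := fun u hu => by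
    simp only [mem_Ioi]; linarith [hu.1]
  have hsub' : Icc (b + 3) (b + 5) ⊆ Ici b := fun u hu => by
    simp only [mem_Ici]; linarith [hu.1]
  have hsol : ∀ n : ℤ, SolOn (Icc (b + 3) (b + 5)) t (2 * π * n) (md f n) (deriv (md f n)) :=
    fun n u hu => h.sol ht n u (hsub hu)
  have hamp : ∀ n ∈ Λ, AmpOn (Icc (b + 3) (b + 5)) θ t (2 * π * n) (10 * √(aE f t n b))
      (md f n) (deriv (md f n)) := fun n hn u hu =>
    h.amp ht hθ0 hθ1 htθ (by linarith) ((hΛ n).mp hn) u (hsub' hu)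
  have hmc : ∀ n : ℤ, ContinuousOn (md f n) (Icc (b + 3) (b + 5)) := fun n u hu =>
    (hsol n u hu).1.continuousAt.continuousWithinAt
  have hle : b + 3 ≤ b + 5 := by linarith
  have hti : ∀ p : ℤ × ℤ, IntervalIntegrable
      (fun u => (χ u : ℂ) * (md f p.1 u * md f p.2 u * md f (-p.1 - p.2) u)) volume
      (b + 3) (b + 5) := fun p => by
    apply ContinuousOn.intervalIntegrable
    rw [uIcc_of_le hle]
    exact (Complex.continuous_ofReal.comp hχc).continuousOn.mul
      (((hmc _).mul (hmc _)).mul (hmc _))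
  -- the low part
  have hlow : ‖∑ p ∈ T, ∫ u in (b + 3)..(b + 5),
      (χ u : ℂ) * (md f p.1 u * md f p.2 u * md f (-p.1 - p.2) u)‖ ≤
      2 * B * Real.exp (5 / 2) * (C * (600 * √600)) / (D * √D) := by
    have hM : ∑ n ∈ Λ, (10 * √(aE f t n b)) ^ 2 ≤ 600 / D := by
      have a1 := h.sum_aE ht ht1 hb Λ
      have a2 : ∑ n ∈ Λ, (10 * √(aE f t n b)) ^ 2 = 100 * ∑ n ∈ Λ, aE f t n b := by
        rw [Finset.mul_sum]
        refine Finset.sum_congr rfl fun n _ => ?_
        rw [mul_pow, Real.sq_sqrt (h.aE_nonneg ht n (by linarith))]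
        norm_num
      rw [a2]
      calc 100 * ∑ n ∈ Λ, aE f t n b ≤ 100 * (6 / D) := by gcongr
        _ = 600 / D := by ring
    have a3 := tri_sum_le Λ (a := fun n => 10 * √(aE f t n b)) (fun n => by positivity) hM
    have a4 : θ ^ 3 * √(Λ.card : ℝ) ≤ Real.exp (-b / 2) := by
      have b1 : √(Λ.card : ℝ) ≤ √(t * Real.exp (-b)) := Real.sqrt_le_sqrt hcard
      have b2 : θ ^ 3 * √(t * Real.exp (-b)) = Real.exp (-b / 2) := by
        rw [← Real.sqrt_sq (x := θ ^ 3) (by positivity), ← Real.sqrt_mul (by positivity),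
          Real.exp_half]
        congr 1
        calc (θ ^ 3) ^ 2 * (t * Real.exp (-b)) = t * θ ^ 6 * Real.exp (-b) := by ring
          _ = Real.exp (-b) := by rw [htθ, one_mul]
      rw [← b2]
      gcongr
    have a5 : B' * Real.exp (-b / 2) = 2 * B * Real.exp (5 / 2) := by
      rw [hB', mul_assoc, ← Real.exp_add]
      congr 2
      ring
    calc _ ≤ ∑ p ∈ T, C * B' * θ ^ 3 * (10 * √(aE f t p.1 b) * (10 * √(aE f t p.2 b)) *
          (10 * √(aE f t (-p.1 - p.2) b))) := by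
          refine norm_sum_le_of_le _ fun p hp => ?_
          obtain ⟨hp1, hp3⟩ := Finset.mem_filter.mp hp
          obtain ⟨hp1, hp2⟩ := Finset.mem_product.mp hp1
          refine htri θ t b B' _ _ _ _ _ _ _ _ _ _ _ _ χ χ' hθ0 hθ1 htθ ?_
            ((hΛ _).mp hp1).2 ((hΛ _).mp hp2).2 ((hΛ _).mp hp3).2 (by positivity)
            (by positivity) (by positivity) (hsol _) (hsol _) (hsol _) (hamp _ hp1) (hamp _ hp2)
            (hamp _ hp3) (fun u _ => hχd u) hχc'.continuousOn ?_ ?_ hχB hχB'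
          · push_cast; ring
          · simp only [hχ]; rw [hch0 _ (by linarith), zero_mul]
          · simp only [hχ]; rw [hch2 _ (by linarith), zero_mul]
      _ = C * B' * θ ^ 3 * ∑ p ∈ T, 10 * √(aE f t p.1 b) * (10 * √(aE f t p.2 b)) *
          (10 * √(aE f t (-p.1 - p.2) b)) := by rw [Finset.mul_sum]
      _ ≤ C * B' * θ ^ 3 * (√(Λ.card : ℝ) * (600 / D * √(600 / D))) := by gcongr
      _ = C * B' * (θ ^ 3 * √(Λ.card : ℝ)) * (600 / D * √(600 / D)) := by ring
      _ ≤ C * B' * Real.exp (-b / 2) * (600 / D * √(600 / D)) := by gcongr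
      _ = C * (B' * Real.exp (-b / 2)) * (600 / D * √(600 / D)) := by ring
      _ = _ := by
          rw [a5, Real.sqrt_div (by norm_num)]
          have : 0 < √D := Real.sqrt_pos.mpr hD
          field_simp
  -- the high part
  have hI3 : Continuous fun u => ch (u - (b + 3)) * I3 f u := by
    have := continuous_I3 h.sm
    fun_prop
  have hm2 := continuous_m2 h.sm
  have hhigh : ‖(∫ u in (b + 3)..(b + 5), ((ch (u - (b + 3)) * I3 f u : ℝ) : ℂ)) -
      ∑ p ∈ T, ∫ u in (b + 3)..(b + 5),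
        (χ u : ℂ) * (md f p.1 u * md f p.2 u * md f (-p.1 - p.2) u)‖ ≤
      B' * (3 * σ) * ∫ u in (b + 3)..(b + 5), m2 f u := by
    have hI3' : Continuous fun u => ((ch (u - (b + 3)) * I3 f u : ℝ) : ℂ) :=
      Complex.continuous_ofReal.comp hI3
    rw [← intervalIntegral.integral_finsetSum fun p _ => hti p,
      ← intervalIntegral.integral_sub (hI3'.intervalIntegrable _ _)
        (by simpa only [Finset.sum_fn] using IntervalIntegrable.sum T fun p _ => hti p),
      ← intervalIntegral.integral_const_mul]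
    refine intervalIntegral.norm_integral_le_of_norm_le hle (Eventually.of_forall fun u hu => ?_)
      ((continuous_const.mul hm2).intervalIntegrable _ _)
    have hu' : u ∈ Icc (b + 3) (b + 5) := Ioc_subset_Icc_self hu
    have a1 := cube_high h u Λ (σ := σ) fun s hs =>
      h.sigma ht ht1 hb hu'.1 s fun n hn hl =>
        Finset.disjoint_left.mp hs hn ((hΛ n).mpr hl)
    have a2 : ((ch (u - (b + 3)) * I3 f u : ℝ) : ℂ) =
        (χ u : ℂ) * ((∫ x in (0 : ℝ)..1, Wf f u x ^ 3 : ℝ) : ℂ) := by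
      simp only [hχ, I3]
      push_cast
      ring
    rw [a2, ← Finset.mul_sum, ← mul_sub, norm_mul, Complex.norm_real, Real.norm_eq_abs, mul_assoc]
    exact mul_le_mul (hχB u hu') a1 (norm_nonneg _) hB'0.le
  have hm0 : 0 ≤ ∫ u in (b + 3)..(b + 5), m2 f u :=
    intervalIntegral.integral_nonneg hle fun u _ =>
      intervalIntegral.integral_nonneg zero_le_one fun x _ => sq_nonneg _
  have hsD : 0 < √D := Real.sqrt_pos.mpr hD
  have a6 : B' * (3 * σ) = 2 * B * Real.exp (5 / 2) * (3 * √6) / √D := by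
    have a5 : B' * Real.exp (-b / 2) = 2 * B * Real.exp (5 / 2) := by
      rw [hB', mul_assoc, ← Real.exp_add]
      congr 2
      ring
    rw [hσ, Real.sqrt_div (by norm_num), ← a5]
    field_simp
  have a7 : |∫ u in (b + 3)..(b + 5), ch (u - (b + 3)) * I3 f u| =
      ‖∫ u in (b + 3)..(b + 5), ((ch (u - (b + 3)) * I3 f u : ℝ) : ℂ)‖ := by
    rw [intervalIntegral.integral_ofReal, Complex.norm_real, Real.norm_eq_abs]
  rw [a7]
  refine (norm_le_norm_sub_add _ _).trans ((add_le_add hhigh hlow).trans ?_)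
  rw [add_comm, a6]
  have a8 : 0 ≤ C * (600 * √600) := by positivity
  have a9 : (0 : ℝ) ≤ 3 * √6 := by positivity
  gcongr <;> linarith

/-- An eigenfunction is bounded in the cusp. -/
theorem Cusp.bdd {A lam : ℝ} {f : ℂ → ℝ} (h : Cusp A lam f) (hl : 2 ≤ lam) :
    ∃ B : ℝ, ∀ u x, A ≤ u → |f (pt x u)| ≤ B := by
  have ht : √(lam - 1 / 4) ^ 2 = lam - 1 / 4 := Real.sq_sqrt (by linarith)
  have ht1 : 1 ≤ √(lam - 1 / 4) := Real.le_sqrt_of_sq_le (by linarith)
  generalize √(lam - 1 / 4) = t at ht ht1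
  have hW : ∀ u x, f (pt x u) = Real.exp (u / 2) * Wf f u x := fun u x => by
    unfold Wf
    rw [← mul_assoc, ← Real.exp_add, show u / 2 + -u / 2 = 0 by ring, Real.exp_zero, one_mul]
  set u0 := max (A + 5) (Real.log t + 3) with hu0
  have hc : Continuous fun p : ℝ × ℝ => Real.exp (p.1 / 2) * Wf f p.1 p.2 := by
    have := continuous_Wf h.sm
    fun_prop
  obtain ⟨B1, hB1⟩ := ((isCompact_Icc (a := A) (b := u0)).prod
    (isCompact_Icc (a := (0 : ℝ)) (b := 1))).exists_bound_of_continuousOn hc.continuousOn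
  refine ⟨max B1 (√6 * Real.exp (3 / 2)), fun u x hu => ?_⟩
  rw [hW]
  rcases le_total u u0 with h1 | h1
  · refine le_max_of_le_left ?_
    have hp : Function.Periodic (Wf f u) 1 := fun x => h.Wf_per u x
    obtain ⟨y, hy, hxy⟩ := hp.exists_mem_Ico₀ one_pos x
    rw [hxy]
    exact hB1 (u, y) ⟨⟨hu, h1⟩, Ico_subset_Icc_self hy⟩
  · refine le_max_of_le_right ?_
    have h2 : A + 5 ≤ u := (le_max_left _ _).trans h1
    have h3 : Real.log t + 3 ≤ u := (le_max_right _ _).trans h1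
    have h4 : t ≤ Real.exp (u - 3) := by
      rw [← Real.log_le_iff_le_exp (by linarith)]
      linarith
    have h5 : ∀ n : ℤ, ¬Low t (u - 3) n := by
      rintro n ⟨hn, hle⟩
      have a1 : (1 : ℝ) ≤ (n : ℝ) ^ 2 := by
        have : (1 : ℤ) ≤ n ^ 2 := by have := sq_pos_of_ne_zero hn; omega
        exact_mod_cast this
      have a2 : t ^ 2 ≤ Real.exp (2 * (u - 3)) := by
        rw [show 2 * (u - 3) = (u - 3) + (u - 3) by ring, Real.exp_add, sq]
        exact mul_le_mul h4 h4 (by linarith) (Real.exp_pos _).le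
      have a3 : (1 : ℝ) ≤ (2 * π * n) ^ 2 := by
        have := Real.pi_gt_three
        rw [mul_pow]
        nlinarith
      have a4 : t ^ 2 ≤ (2 * π * n) ^ 2 * Real.exp (2 * (u - 3)) :=
        a2.trans (le_mul_of_one_le_left (Real.exp_pos _).le a3)
      nlinarith
    have h6 := sup_le (cont_W_high h u) (fun x => by rw [h.Wf_per]) ∅
      (σ := √(6 / (u - 3 - A - 1)) * Real.exp (-(u - 3) / 2))
      (fun s _ => h.sigma ht ht1 (by linarith) (by linarith) s fun n _ => h5 n) x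
    rw [Finset.sum_empty, sub_zero, Complex.norm_real, Real.norm_eq_abs] at h6
    have h7 : √(6 / (u - 3 - A - 1)) ≤ √6 :=
      Real.sqrt_le_sqrt (div_le_self (by norm_num) (by linarith))
    rw [abs_mul, abs_of_pos (Real.exp_pos _)]
    calc Real.exp (u / 2) * |Wf f u x| ≤ Real.exp (u / 2) * (√6 * Real.exp (-(u - 3) / 2)) := by
          gcongr
          exact h6.trans (by gcongr)
      _ = √6 * (Real.exp (u / 2) * Real.exp (-(u - 3) / 2)) := by ring
      _ = _ := by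
          rw [← Real.exp_add]
          congr 2
          ring

end Pool.Agent.Lib.MP_a52643_an.H6C
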