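import Pool.Agent.Lib.MP_a52643_an.H6CMin

open MeasureTheory Set Filter Topology Metric UpperHalfPlane
open scoped ENNReal NNReal ContDiff Laplacian MatrixGroups Real

noncomputable section

namespace Pool.Agent.Lib.MP_a52643_an.H6C

variable {G : Subgroup SL2}

lemma TT_zero_horo : TT 0 = 1 := SL2_ext rfl rfl rfl rfl

lemma TT_neg_horo (β : ℝ) : TT (-β) = (TT β)⁻¹ := by
  rw [eq_inv_iff_mul_eq_one, ← TT_add, neg_add_cancel, TT_zero_horo]

lemma TT_comm_horo (α β : ℝ) : TT α * TT β = TT β * TT α := by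
  rw [← TT_add, ← TT_add, add_comm]

lemma conj_add_horo (s : SL2) (α β : ℝ) :
    s * TT (α + β) * s⁻¹ = (s * TT α * s⁻¹) * (s * TT β * s⁻¹) := by
  rw [TT_add]; group

lemma int_mem_horo {s : SL2} (h : s * TT 1 * s⁻¹ ∈ G) (n : ℤ) : s * TT n * s⁻¹ ∈ G := by
  have hneg : s * TT (-1) * s⁻¹ ∈ G := by
    have : s * TT (-1) * s⁻¹ = (s * TT 1 * s⁻¹)⁻¹ := by rw [TT_neg_horo]; group
    rw [this]
    exact G.inv_mem h
  induction n using Int.induction_on with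
  | zero =>
    rw [Int.cast_zero, TT_zero_horo, mul_one, mul_inv_cancel]
    exact G.one_mem
  | succ n ih =>
    rw [Int.cast_add, Int.cast_one, conj_add_horo]
    exact G.mul_mem ih h
  | pred n ih =>
    rw [Int.cast_sub, Int.cast_one, sub_eq_add_neg, conj_add_horo]
    exact G.mul_mem ih hneg

lemma not_pm_TT_horo {β : ℝ} (h : β ≠ 0) : ¬pm (TT β) := by
  intro h1
  have h2 := (pm_iff_act _).mp h1 I
  rw [TT_smul] at h2
  have h3 := congrArg UpperHalfPlane.re h2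
  simp at h3
  exact h h3

/-- The translations in the group are the integer translations. -/
theorem Good.int (hG : Disc G) {s : SL2} (hs : Good G s) {β : ℝ} (hβ : s * TT β * s⁻¹ ∈ G) :
    ∃ n : ℤ, β = n := by
  have _ := hG
  refine ⟨⌊β⌋, ?_⟩
  by_contra hne
  have hr : Int.fract β ≠ 0 := fun h => hne (by
    have := Int.floor_add_fract β
    linarith)
  have hmem : s * TT (Int.fract β) * s⁻¹ ∈ G := by
    have e : Int.fract β = β + ((-⌊β⌋ : ℤ) : ℝ) := by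
      have := Int.floor_add_fract β
      push_cast
      linarith
    rw [e, conj_add_horo]
    exact G.mul_mem hβ (int_mem_horo hs.1 _)
  have hc : (s * TT (Int.fract β) * s⁻¹) * (s * TT 1 * s⁻¹) =
      (s * TT 1 * s⁻¹) * (s * TT (Int.fract β) * s⁻¹) := by
    rw [← conj_add_horo, ← conj_add_horo, add_comm]
  have h := hs.2.2 _ hmem hc (by rw [pm_conj]; exact not_pm_TT_horo hr) (s • I)
  rw [nu_conj, nu_conj, nu_TT, nu_TT] at h
  have h0 := Int.fract_nonneg β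
  have h1 := Int.fract_lt_one β
  simp at h
  rw [abs_of_nonneg h0] at h
  linarith

lemma small_horo {z : ℍ} (h : 10 < z.im) : nu (TT 1) z ≤ 1 / 100 := by
  rw [nu_TT, one_pow]
  exact one_div_le_one_div_of_le (by norm_num) (by nlinarith)

/-- Horoballs are precisely invariant. -/
theorem Good.horo (hG : Disc G) {s s' : SL2} (hs : Good G s) (hs' : Good G s') {g : SL2}
    (hg : g ∈ G) {z z' : ℍ} (h1 : 10 < z.im) (h2 : 10 < z'.im) (h : g • s • z = s' • z') :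
    ∃ β : ℝ, s'⁻¹ * g * s = TT β ∨ s'⁻¹ * g * s = -TT β := by
  have hp : Prim G (s * TT 1 * s⁻¹) := hs
  have hp' : Prim G (g⁻¹ * (s' * TT 1 * s'⁻¹) * g⁻¹⁻¹) := Prim.conj hs' (G.inv_mem hg)
  have e1 : nu (s * TT 1 * s⁻¹) (s • z) ≤ 1 / 100 := by
    rw [nu_conj]
    exact small_horo h1
  have e2 : nu (g⁻¹ * (s' * TT 1 * s'⁻¹) * g⁻¹⁻¹) (s • z) ≤ 1 / 100 := by
    have : s • z = g⁻¹ • s' • z' := by rw [← h, inv_smul_smul]
    rw [this, nu_conj, nu_conj]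
    exact small_horo h2
  have hc := hG.comm hp.1 hp'.1 e1 e2
  set k : SL2 := s'⁻¹ * g * s with hk
  have hk' : g⁻¹ * (s' * TT 1 * s'⁻¹) * g⁻¹⁻¹ = s * (k⁻¹ * TT 1 * k) * s⁻¹ := by
    rw [hk]; group
  rw [hk'] at hp' hc
  have hc2 : (k⁻¹ * TT 1 * k) * TT 1 = TT 1 * (k⁻¹ * TT 1 * k) := by
    have a1 : (k⁻¹ * TT 1 * k) * TT 1 =
        s⁻¹ * ((s * (k⁻¹ * TT 1 * k) * s⁻¹) * (s * TT 1 * s⁻¹)) * s := by group
    have a2 : TT 1 * (k⁻¹ * TT 1 * k) =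
        s⁻¹ * ((s * TT 1 * s⁻¹) * (s * (k⁻¹ * TT 1 * k) * s⁻¹)) * s := by group
    rw [a1, a2, hc]
  obtain ⟨β, hβ⟩ := cent_TT hc2
  have n1 := hp.2.2 _ hp'.1 hc.symm hp'.2.1 (s • I)
  have n2 := hp'.2.2 _ hp.1 hc hp.2.1 (s • I)
  rw [nu_conj, nu_conj] at n1 n2
  have n3 : nu (k⁻¹ * TT 1 * k) I = β ^ 2 := by
    rcases hβ with hβ | hβ
    · rw [hβ, nu_TT]; simp
    · rw [hβ, nu_neg, nu_TT]; simp
  have n4 : nu (TT 1) I = 1 := by rw [nu_TT]; simp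
  rw [n3, n4] at n1 n2
  exact conj_TT hβ (le_antisymm n2 n1)

/-- Finitely many cusps cover the thin part. -/
theorem Disc.cover (hG : Disc G) : ∃ S : Finset SL2, (∀ s ∈ S, Good G s) ∧
    ∀ Y : ℝ, ∃ K : Set ℍ, IsCompact K ∧ ∀ z : ℍ, (∃ g ∈ G, g • z ∈ K) ∨
      ∃ g ∈ G, ∃ s ∈ S, ∃ w : ℍ, Y < w.im ∧ g • z = s • w := by
  classical
  obtain ⟨K1, hK1, hT1⟩ := hG.thick (1 / 200) (by norm_num)
  have hA := hG.fin_nu hK1
  choose! f hf using fun (p : SL2) (hp : Prim G p) (ht : |tr p| = 2) => hp.good hG ht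
  refine ⟨(hA.toFinset.filter (fun p => Prim G p ∧ |tr p| = 2)).image f, ?_, fun Y => ?_⟩
  · intro s hs
    obtain ⟨p, hp, rfl⟩ := Finset.mem_image.mp hs
    obtain ⟨h1, h2⟩ := (Finset.mem_filter.mp hp).2
    exact (hf p h1 h2).1
  have hle : ∀ δ : ℝ, 0 < δ → ∀ᶠ η in 𝓝[>] (0 : ℝ), η ≤ δ := fun δ hδ =>
    mem_nhdsWithin_of_mem_nhds (Iic_mem_nhds hδ)
  have ev1 : ∀ᶠ η in 𝓝[>] (0 : ℝ), ∀ p ∈ {g : SL2 | g ∈ G ∧ ∃ z ∈ K1, nu g z ≤ 1},
      |tr p| ≠ 2 → ∀ z : ℍ, η ≤ nu p z := by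
    rw [eventually_all_finite hA]
    intro p _
    by_cases ht : |tr p| = 2
    · exact Eventually.of_forall fun η h => absurd ht h
    · obtain ⟨δ, hδ, h⟩ := nu_lower ht
      filter_upwards [hle δ hδ] with η hη _ z using hη.trans (h z)
  obtain ⟨η, ⟨⟨hη1, hη2⟩, hη3⟩, hη0⟩ :=
    (((ev1.and (hle (1 / 200) (by norm_num))).and
      (hle (1 / (|Y| + 1) ^ 2) (by positivity))).and self_mem_nhdsWithin).exists
  obtain ⟨K, hK, hT⟩ := hG.thick η hη0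
  refine ⟨K, hK, fun z => ?_⟩
  by_cases hz : ∀ g ∈ G, ¬pm g → η ≤ nu g z
  · exact Or.inl (hT z hz)
  right
  push Not at hz
  obtain ⟨a, ha, ha1, ha2⟩ := hz
  obtain ⟨c, hc, hc1, hc2⟩ := hG.exists_min (z := z) ha ha1 (by linarith)
  have hcz : nu c z < η := (hc2 a ha ha1).trans_lt ha2
  have hprim : Prim G c := prim_of_min hc hc1 hc2
  obtain ⟨z1, hz1⟩ := nu_unbdd hc1 (1 / 200)
  obtain ⟨w0, hw0⟩ : (1 / 200 : ℝ) ∈ range (nu c) :=
    intermediate_value_univ z z1 (continuous_nu c) ⟨by linarith, hz1⟩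
  obtain ⟨g, hg, hgK⟩ := hT1 w0 fun b hb hb1 => by
    by_contra hlt
    push Not at hlt
    have hcomm := hG.comm (z := w0) hb hc (by linarith) (by linarith)
    have := hprim.2.2 b hb hcomm hb1 w0
    linarith
  have hp' : Prim G (g * c * g⁻¹) := hprim.conj hg
  have hmem : g * c * g⁻¹ ∈ {g : SL2 | g ∈ G ∧ ∃ z ∈ K1, nu g z ≤ 1} :=
    ⟨hp'.1, g • w0, hgK, by rw [nu_conj]; linarith⟩
  have hsm : nu (g * c * g⁻¹) (g • z) < η := by rw [nu_conj]; exact hcz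
  have htr : |tr (g * c * g⁻¹)| = 2 := by
    by_contra hne
    exact absurd (hη1 _ hmem hne (g • z)) (not_le.mpr hsm)
  refine ⟨g, hg, f (g * c * g⁻¹), Finset.mem_image_of_mem f
    (Finset.mem_filter.mpr ⟨hA.mem_toFinset.mpr hmem, hp', htr⟩),
    (f (g * c * g⁻¹))⁻¹ • g • z, ?_, (smul_inv_smul _ _).symm⟩
  have h1 := (hf _ hp' htr).2 ((f (g * c * g⁻¹))⁻¹ • g • z)
  rw [smul_inv_smul] at h1
  set w : ℍ := (f (g * c * g⁻¹))⁻¹ • g • z
  have h2 : 1 / w.im ^ 2 < 1 / (|Y| + 1) ^ 2 := by linarith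
  have h3 : (|Y| + 1) ^ 2 < w.im ^ 2 :=
    lt_of_one_div_lt_one_div (by have := w.im_pos; positivity) h2
  have h4 : |Y| + 1 < w.im := lt_of_pow_lt_pow_left₀ 2 w.im_pos.le h3
  linarith [le_abs_self Y]

end Pool.Agent.Lib.MP_a52643_an.H6C
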