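import Pool.Agent.Lib.MP_a52643_an.H6CDefs

open MeasureTheory Set Filter Topology Metric UpperHalfPlane
open scoped ENNReal NNReal ContDiff Laplacian MatrixGroups Real

noncomputable section

namespace Pool.Agent.Lib.MP_a52643_an.H6C

/-- The normalised primitive. -/
def gIbp (x0 x1 x2 : ℝ) (w0 w1 w2 y0 y1 y2 : ℂ) : ℂ :=
  ((1 + 2 * x1 * x2 : ℝ) : ℂ) * y0 * w1 * w2 + ((1 + 2 * x0 * x2 : ℝ) : ℂ) * w0 * y1 * w2 +
    ((1 + 2 * x0 * x1 : ℝ) : ℂ) * w0 * w1 * y2 + 2 * y0 * y1 * y2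

/-- The normalised remainder. -/
def lIbp (x0 x1 x2 : ℝ) (w0 w1 w2 y0 y1 y2 : ℂ) : ℂ :=
  4 * (((x1 * x2 : ℝ) : ℂ) * y0 * w1 * w2 + ((x0 * x2 : ℝ) : ℂ) * w0 * y1 * w2 +
    ((x0 * x1 : ℝ) : ℂ) * w0 * w1 * y2)

theorem norm_g_ibp (x0 x1 x2 : ℝ) (w0 w1 w2 y0 y1 y2 : ℂ) :
    ‖gIbp x0 x1 x2 w0 w1 w2 y0 y1 y2‖ ≤ gB x0 x1 x2 ‖w0‖ ‖w1‖ ‖w2‖ ‖y0‖ ‖y1‖ ‖y2‖ := by
  unfold gIbp gB
  refine (norm_add_le _ _).trans (add_le_add (norm_add₃_le.trans (le_of_eq ?_)) (le_of_eq ?_))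
  · simp only [norm_mul, Complex.norm_real, Real.norm_eq_abs]
  · simp only [norm_mul, Complex.norm_ofNat]

theorem norm_l_ibp (x0 x1 x2 : ℝ) (w0 w1 w2 y0 y1 y2 : ℂ) :
    ‖lIbp x0 x1 x2 w0 w1 w2 y0 y1 y2‖ ≤ lB x0 x1 x2 ‖w0‖ ‖w1‖ ‖w2‖ ‖y0‖ ‖y1‖ ‖y2‖ := by
  unfold lIbp lB
  rw [norm_mul, Complex.norm_ofNat]
  refine mul_le_mul_of_nonneg_left (norm_add₃_le.trans (le_of_eq ?_)) (by norm_num)
  simp only [norm_mul, Complex.norm_real, Real.norm_eq_abs, abs_mul]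

theorem der_g_ibp {t u : ℝ} {x0 x1 x2 : ℝ → ℝ} {w0 w1 w2 y0 y1 y2 : ℝ → ℂ}
    (hx : x0 u + x1 u + x2 u = 0) (a0 : HasDerivAt x0 (x0 u) u) (a1 : HasDerivAt x1 (x1 u) u)
    (a2 : HasDerivAt x2 (x2 u) u) (p0 : HasDerivAt w0 (t * y0 u) u)
    (p1 : HasDerivAt w1 (t * y1 u) u) (p2 : HasDerivAt w2 (t * y2 u) u)
    (r0 : HasDerivAt y0 (-(t * (1 - (x0 u : ℂ) ^ 2)) * w0 u) u)
    (r1 : HasDerivAt y1 (-(t * (1 - (x1 u : ℂ) ^ 2)) * w1 u) u)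
    (r2 : HasDerivAt y2 (-(t * (1 - (x2 u : ℂ) ^ 2)) * w2 u) u) :
    HasDerivAt (fun u => gIbp (x0 u) (x1 u) (x2 u) (w0 u) (w1 u) (w2 u) (y0 u) (y1 u) (y2 u))
      (-(t * (hh (x0 u) (x1 u) (x2 u) : ℂ)) * (w0 u * w1 u * w2 u) +
        lIbp (x0 u) (x1 u) (x2 u) (w0 u) (w1 u) (w2 u) (y0 u) (y1 u) (y2 u)) u := by
  have k0 := (((a1.const_mul 2).fun_mul a2).const_add 1).ofReal_comp
  have k1 := (((a0.const_mul 2).fun_mul a2).const_add 1).ofReal_comp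
  have k2 := (((a0.const_mul 2).fun_mul a1).const_add 1).ofReal_comp
  have h := ((((((k0.fun_mul r0).fun_mul p1).fun_mul p2).fun_add
    (((k1.fun_mul p0).fun_mul r1).fun_mul p2)).fun_add
    (((k2.fun_mul p0).fun_mul p1).fun_mul r2)).fun_add
    (((r0.const_mul 2).fun_mul r1).fun_mul r2))
  refine h.congr_deriv ?_
  have e : x0 u = -x1 u - x2 u := by linarith
  simp only [hh, lIbp, e]
  push_cast
  ring

theorem der_k_ibp {ℓ u : ℝ} (hℓ : 0 < ℓ) {h : ℝ → ℝ} (a : HasDerivAt h (-2 * (3 - h u)) u) :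
    HasDerivAt (fun u => h u / (h u ^ 2 + ℓ ^ 2))
      ((ℓ ^ 2 - h u ^ 2) / (h u ^ 2 + ℓ ^ 2) ^ 2 * (-2 * (3 - h u))) u := by
  have hN : h u ^ 2 + ℓ ^ 2 ≠ 0 := by positivity
  refine (a.fun_div ((a.fun_pow 2).add_const (ℓ ^ 2)) hN).congr_deriv ?_
  simp only [Nat.add_one_sub_one, pow_one, Nat.cast_ofNat]
  field_simp
  ring

/-- The integrand after the integration by parts. -/
def fIbp (ℓ τ h c c' : ℝ) (A g l : ℂ) : ℂ :=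
  ((c * (ℓ ^ 2 / (h ^ 2 + ℓ ^ 2)) : ℝ) : ℂ) * A +
    (τ : ℂ) * (((c * (h / (h ^ 2 + ℓ ^ 2)) : ℝ) : ℂ) * l +
      ((c' * (h / (h ^ 2 + ℓ ^ 2)) : ℝ) : ℂ) * g +
      ((c * ((ℓ ^ 2 - h ^ 2) / (h ^ 2 + ℓ ^ 2) ^ 2 * (-2 * (3 - h))) : ℝ) : ℂ) * g)

theorem norm_f_ibp {ℓ τ h c c' B g' l' : ℝ} (hℓ : 0 < ℓ) (hτ : 0 ≤ τ) (hc : |c| ≤ B)
    (hc' : |c'| ≤ B) {A g l : ℂ} (hg : ‖g‖ ≤ g') (hl : ‖l‖ ≤ l') :
    ‖fIbp ℓ τ h c c' A g l‖ ≤ B * maj ℓ τ h ‖A‖ g' l' := by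
  have hN : 0 < h ^ 2 + ℓ ^ 2 := by positivity
  have hB : 0 ≤ B := (abs_nonneg _).trans hc
  have hk : |h / (h ^ 2 + ℓ ^ 2)| = |h| / (h ^ 2 + ℓ ^ 2) := by rw [abs_div, abs_of_pos hN]
  have hd : |(ℓ ^ 2 - h ^ 2) / (h ^ 2 + ℓ ^ 2) ^ 2 * (-2 * (3 - h))| ≤
      2 * |3 - h| / (h ^ 2 + ℓ ^ 2) := by
    have h1 : |ℓ ^ 2 - h ^ 2| ≤ h ^ 2 + ℓ ^ 2 :=
      abs_le.2 ⟨by nlinarith [sq_nonneg ℓ], by nlinarith [sq_nonneg h]⟩
    rw [abs_mul, abs_div, abs_of_pos (pow_pos hN 2), abs_mul, abs_neg, abs_two]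
    calc _ ≤ (h ^ 2 + ℓ ^ 2) / (h ^ 2 + ℓ ^ 2) ^ 2 * (2 * |3 - h|) := by gcongr
      _ = _ := by field_simp
  have t0 : ‖((c * (ℓ ^ 2 / (h ^ 2 + ℓ ^ 2)) : ℝ) : ℂ) * A‖ ≤
      B * (ℓ ^ 2 / (h ^ 2 + ℓ ^ 2)) * ‖A‖ := by
    rw [norm_mul, Complex.norm_real, Real.norm_eq_abs, abs_mul,
      abs_of_nonneg (by positivity : 0 ≤ ℓ ^ 2 / (h ^ 2 + ℓ ^ 2))]
    gcongr
  have t1 : ‖((c * (h / (h ^ 2 + ℓ ^ 2)) : ℝ) : ℂ) * l‖ ≤ B * (|h| / (h ^ 2 + ℓ ^ 2)) * l' := by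
    rw [norm_mul, Complex.norm_real, Real.norm_eq_abs, abs_mul, hk]
    gcongr
  have t2 : ‖((c' * (h / (h ^ 2 + ℓ ^ 2)) : ℝ) : ℂ) * g‖ ≤ B * (|h| / (h ^ 2 + ℓ ^ 2)) * g' := by
    rw [norm_mul, Complex.norm_real, Real.norm_eq_abs, abs_mul, hk]
    gcongr
  have t3 : ‖((c * ((ℓ ^ 2 - h ^ 2) / (h ^ 2 + ℓ ^ 2) ^ 2 * (-2 * (3 - h))) : ℝ) : ℂ) * g‖ ≤
      B * (2 * |3 - h| / (h ^ 2 + ℓ ^ 2)) * g' := by
    rw [norm_mul, Complex.norm_real, Real.norm_eq_abs, abs_mul]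
    gcongr
  unfold fIbp maj
  refine (norm_add_le _ _).trans ?_
  rw [norm_mul (τ : ℂ), Complex.norm_real, Real.norm_eq_abs, abs_of_nonneg hτ]
  refine (add_le_add t0 (mul_le_mul_of_nonneg_left
    (norm_add₃_le.trans (add_le_add (add_le_add t1 t2) t3)) hτ)).trans (le_of_eq ?_)
  ring

theorem sol_ibp {s : Set ℝ} {t c u : ℝ} (ht : 0 < t) {w v : ℝ → ℂ} (h : SolOn s t c w v)
    (hu : u ∈ s) : HasDerivAt w (t * (v u / t)) u ∧ HasDerivAt (fun u => v u / t)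
      (-(t * (1 - ((c * Real.exp u / t : ℝ) : ℂ) ^ 2)) * w u) u := by
  have ht' : (t : ℂ) ≠ 0 := Complex.ofReal_ne_zero.2 ht.ne'
  refine ⟨(h u hu).1.congr_deriv (by field_simp), ((h u hu).2.div_const (t : ℂ)).congr_deriv ?_⟩
  have e : Real.exp (2 * u) = Real.exp u ^ 2 := by rw [two_mul, Real.exp_add, sq]
  rw [qq, e]
  generalize Real.exp u = E
  push_cast
  field_simp

/-- Integration by parts against the resonance function. -/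
theorem ibp {t ℓ α β B c0 c1 c2 : ℝ} (ht : 0 < t) (hℓ : 0 < ℓ) (hαβ : α ≤ β)
    (hc : c0 + c1 + c2 = 0) {w0 w1 w2 v0 v1 v2 : ℝ → ℂ}
    (s0 : SolOn (Icc α β) t c0 w0 v0) (s1 : SolOn (Icc α β) t c1 w1 v1)
    (s2 : SolOn (Icc α β) t c2 w2 v2) {χ χ' : ℝ → ℝ}
    (hχ : ∀ u ∈ Icc α β, HasDerivAt χ (χ' u) u) (cχ : ContinuousOn χ' (Icc α β))
    (e1 : χ α = 0) (e2 : χ β = 0) (b1 : ∀ u ∈ Icc α β, |χ u| ≤ B)
    (b2 : ∀ u ∈ Icc α β, |χ' u| ≤ B) {Φ : ℝ → ℝ} (iΦ : IntervalIntegrable Φ volume α β)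
    (hΦ : ∀ u ∈ Icc α β,
      maj ℓ t⁻¹ (hh (c0 * Real.exp u / t) (c1 * Real.exp u / t) (c2 * Real.exp u / t))
        (‖w0 u‖ * ‖w1 u‖ * ‖w2 u‖)
        (gB (c0 * Real.exp u / t) (c1 * Real.exp u / t) (c2 * Real.exp u / t)
          ‖w0 u‖ ‖w1 u‖ ‖w2 u‖ (‖v0 u‖ / t) (‖v1 u‖ / t) (‖v2 u‖ / t))
        (lB (c0 * Real.exp u / t) (c1 * Real.exp u / t) (c2 * Real.exp u / t)
          ‖w0 u‖ ‖w1 u‖ ‖w2 u‖ (‖v0 u‖ / t) (‖v1 u‖ / t) (‖v2 u‖ / t)) ≤ Φ u) :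
    ‖∫ u in α..β, (χ u : ℂ) * (w0 u * w1 u * w2 u)‖ ≤ B * ∫ u in α..β, Φ u := by
  have ht' : (t : ℂ) ≠ 0 := Complex.ofReal_ne_zero.2 ht.ne'
  have hI : uIcc α β = Icc α β := uIcc_of_le hαβ
  have hB : 0 ≤ B := (abs_nonneg _).trans (b1 α ⟨le_rfl, hαβ⟩)
  have dx : ∀ c u : ℝ, HasDerivAt (fun u => c * Real.exp u / t) (c * Real.exp u / t) u :=
    fun c u => ((Real.hasDerivAt_exp u).const_mul c).div_const t
  set x0 : ℝ → ℝ := fun u => c0 * Real.exp u / t with hx0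
  set x1 : ℝ → ℝ := fun u => c1 * Real.exp u / t with hx1
  set x2 : ℝ → ℝ := fun u => c2 * Real.exp u / t with hx2
  have hx : ∀ u, x0 u + x1 u + x2 u = 0 := fun u => by
    simp only [hx0, hx1, hx2]
    rw [← add_div, ← add_div, ← add_mul, ← add_mul, hc, zero_mul, zero_div]
  set h : ℝ → ℝ := fun u => hh (x0 u) (x1 u) (x2 u) with hh'
  set A : ℝ → ℂ := fun u => w0 u * w1 u * w2 u with hA
  set g : ℝ → ℂ := fun u =>
    gIbp (x0 u) (x1 u) (x2 u) (w0 u) (w1 u) (w2 u) (v0 u / t) (v1 u / t) (v2 u / t) with hg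
  set l : ℝ → ℂ := fun u =>
    lIbp (x0 u) (x1 u) (x2 u) (w0 u) (w1 u) (w2 u) (v0 u / t) (v1 u / t) (v2 u / t) with hl
  set F : ℝ → ℂ := fun u => fIbp ℓ t⁻¹ (h u) (χ u) (χ' u) (A u) (g u) (l u) with hF
  have dh : ∀ u, HasDerivAt h (-2 * (3 - h u)) u := fun u => by
    refine (((((dx c0 u).fun_pow 2).fun_add ((dx c1 u).fun_pow 2)).fun_add
      ((dx c2 u).fun_pow 2)).const_mul 2).const_sub 3 |>.congr_deriv ?_
    simp only [hh', hh, hx0, hx1, hx2, Nat.add_one_sub_one, pow_one, Nat.cast_ofNat]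
    ring
  have dg : ∀ u ∈ Icc α β, HasDerivAt g (-(t * (h u : ℂ)) * A u + l u) u := fun u hu =>
    der_g_ibp (hx u) (dx c0 u) (dx c1 u) (dx c2 u) (sol_ibp ht s0 hu).1 (sol_ibp ht s1 hu).1
      (sol_ibp ht s2 hu).1 (sol_ibp ht s0 hu).2 (sol_ibp ht s1 hu).2 (sol_ibp ht s2 hu).2
  have dΨ : ∀ u ∈ uIcc α β, HasDerivAt
      (fun u => ((χ u * (h u / (h u ^ 2 + ℓ ^ 2)) : ℝ) : ℂ) * g u / t) (F u - χ u * A u) u := by
    intro u hu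
    rw [hI] at hu
    refine (((((hχ u hu).fun_mul (der_k_ibp hℓ (dh u))).ofReal_comp).fun_mul
      (dg u hu)).div_const (t : ℂ)).congr_deriv ?_
    have hN : ((h u : ℂ) ^ 2 + (ℓ : ℂ) ^ 2) ≠ 0 := by
      exact_mod_cast (by positivity : h u ^ 2 + ℓ ^ 2 ≠ 0)
    simp only [hF, fIbp]
    push_cast
    field_simp
    ring
  have cw0 : ContinuousOn w0 (Icc α β) := fun u hu => (s0 u hu).1.continuousAt.continuousWithinAt
  have cw1 : ContinuousOn w1 (Icc α β) := fun u hu => (s1 u hu).1.continuousAt.continuousWithinAt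
  have cw2 : ContinuousOn w2 (Icc α β) := fun u hu => (s2 u hu).1.continuousAt.continuousWithinAt
  have cv0 : ContinuousOn v0 (Icc α β) := fun u hu => (s0 u hu).2.continuousAt.continuousWithinAt
  have cv1 : ContinuousOn v1 (Icc α β) := fun u hu => (s1 u hu).2.continuousAt.continuousWithinAt
  have cv2 : ContinuousOn v2 (Icc α β) := fun u hu => (s2 u hu).2.continuousAt.continuousWithinAt
  have cc : ContinuousOn χ (Icc α β) := fun u hu => (hχ u hu).continuousAt.continuousWithinAt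
  have ch : ContinuousOn h (Icc α β) := fun u _ => (dh u).continuousAt.continuousWithinAt
  have cg : ContinuousOn g (Icc α β) := fun u hu => (dg u hu).continuousAt.continuousWithinAt
  have cA : ContinuousOn A (Icc α β) := (cw0.mul cw1).mul cw2
  have cl : ContinuousOn l (Icc α β) := by
    simp only [hl, lIbp, hx0, hx1, hx2]
    fun_prop
  have cF : ContinuousOn F (Icc α β) := by
    simp only [hF, fIbp]
    fun_prop (disch := intros; positivity)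
  have cχA : ContinuousOn (fun u => (χ u : ℂ) * A u) (Icc α β) := by fun_prop
  have iF : IntervalIntegrable F volume α β := (hI ▸ cF).intervalIntegrable
  have iA : IntervalIntegrable (fun u => (χ u : ℂ) * A u) volume α β :=
    (hI ▸ cχA).intervalIntegrable
  have e := intervalIntegral.integral_eq_sub_of_hasDerivAt dΨ (iF.sub iA)
  rw [intervalIntegral.integral_sub iF iA, e1, e2] at e
  simp only [zero_mul, Complex.ofReal_zero, zero_div, sub_self] at e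
  rw [← sub_eq_zero.1 e, ← intervalIntegral.integral_const_mul]
  refine intervalIntegral.norm_integral_le_of_norm_le hαβ (Eventually.of_forall fun u hu => ?_)
    (iΦ.const_mul B)
  have hu' : u ∈ Icc α β := ⟨hu.1.le, hu.2⟩
  refine (norm_f_ibp hℓ (inv_pos.2 ht).le (b1 u hu') (b2 u hu') (norm_g_ibp ..)
    (norm_l_ibp ..)).trans (mul_le_mul_of_nonneg_left (le_of_eq_of_le ?_ (hΦ u hu')) hB)
  simp only [hA, hh', hx0, hx1, hx2, norm_mul, norm_div, Complex.norm_real, Real.norm_eq_abs,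
    abs_of_pos ht]

end Pool.Agent.Lib.MP_a52643_an.H6C
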