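import Pool.Agent.Lib.MP_a52643_an.H6CMode
import Pool.Agent.Lib.MP_a52643_an.H6CFou
import Pool.Agent.Lib.MP_a52643_an.H6CEne
import Pool.Agent.Lib.MP_a52643_an.H6CAdi

open MeasureTheory Set Filter Topology Metric UpperHalfPlane
open scoped ENNReal NNReal ContDiff Laplacian MatrixGroups Real

noncomputable section

namespace Pool.Agent.Lib.MP_a52643_an.H6C

variable {A lam : ℝ} {f : ℂ → ℝ} {t : ℝ}

theorem Cusp.bessel_mass (h : Cusp A lam f) (s : Finset ℤ) (u : ℝ) :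
    ∑ n ∈ s, ‖md f n u‖ ^ 2 ≤ m2 f u := by
  have hc : Continuous fun x : ℝ => (Wf f u x : ℂ) :=
    Complex.continuous_ofReal.comp ((continuous_Wf h.sm).comp (Continuous.prodMk_right u))
  have h1 := bessel hc s
  simpa only [md, m2, Complex.norm_real, Real.norm_eq_abs, sq_abs] using h1

theorem Cusp.int_mass (h : Cusp A lam f) (ht : t ^ 2 = lam - 1 / 4) (n : ℤ) :
    IntegrableOn (fun u => ‖md f n u‖ ^ 2) (Ioi A) := by
  have hc : ContinuousOn (fun u => ‖md f n u‖ ^ 2) (Ioi A) := fun u hu =>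
    (((h.sol ht n u hu).1.continuousAt.norm).pow 2).continuousWithinAt
  refine Integrable.mono' h.int (hc.aestronglyMeasurable measurableSet_Ioi)
    (Eventually.of_forall fun u => ?_)
  have h1 := h.bessel_mass {n} u
  rw [Finset.sum_singleton] at h1
  rwa [Real.norm_eq_abs, abs_of_nonneg (sq_nonneg _)]

theorem inner_smul_mass (q : ℝ) (a b : ℂ) : inner ℝ a (-(q : ℂ) * b) = -q * inner ℝ a b := by
  have : -(q : ℂ) * b = (-q) • b := by
    rw [Complex.real_smul]; push_cast; ring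
  rw [this, inner_smul_right]

theorem Cusp.sys (h : Cusp A lam f) (ht : t ^ 2 = lam - 1 / 4) (n : ℤ) :
    Sys A t (2 * π * n) (fun u => ‖md f n u‖ ^ 2)
      (fun u => inner ℝ (md f n u) (deriv (md f n) u)) (fun u => ‖deriv (md f n) u‖ ^ 2) := by
  refine ⟨fun u hu => ?_, fun u hu => ?_, fun u hu => ?_, fun u => sq_nonneg _,
    fun u => sq_nonneg _, fun u => ?_, h.int_mass ht n⟩
  · exact (h.sol ht n u hu).1.norm_sq
  · have h1 := HasDerivAt.inner ℝ (h.sol ht n u hu).1 (h.sol ht n u hu).2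
    rw [inner_smul_mass, real_inner_self_eq_norm_sq, real_inner_self_eq_norm_sq] at h1
    exact h1.congr_deriv (by ring)
  · have h1 := (h.sol ht n u hu).2.norm_sq
    rw [inner_smul_mass, real_inner_comm] at h1
    exact h1.congr_deriv (by ring)
  · have h1 := abs_real_inner_le_norm (md f n u) (deriv (md f n) u)
    rw [← mul_pow, ← sq_abs]
    exact pow_le_pow_left₀ (abs_nonneg _) h1 2

theorem Cusp.aE_nonneg (h : Cusp A lam f) (ht : t ^ 2 = lam - 1 / 4) (n : ℤ) {b : ℝ}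
    (hb : A < b) : 0 ≤ aE f t n b :=
  div_nonneg ((h.sys ht n).En_nonneg hb) (sq_nonneg _)

theorem Cusp.sum_aE (h : Cusp A lam f) (ht : t ^ 2 = lam - 1 / 4) (h1 : 1 ≤ t) {b : ℝ}
    (hb : A + 2 ≤ b) (s : Finset ℤ) : ∑ n ∈ s, aE f t n b ≤ 6 / (b - A - 1) := by
  have hpos : 0 < b - A - 1 := by linarith
  have ht0 : 0 < t ^ 2 := by positivity
  have h2 : ∀ n ∈ s, aE f t n b ≤ 6 / (b - A - 1) * ∫ u in Ioi A, ‖md f n u‖ ^ 2 := by
    intro n _
    have h3 := (h.sys ht n).energy h1 (b := b) (by linarith)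
    unfold aE
    rw [div_le_iff₀ ht0, div_mul_eq_mul_div, div_mul_eq_mul_div, le_div_iff₀ hpos]
    linarith
  refine (Finset.sum_le_sum h2).trans ?_
  rw [← Finset.mul_sum, ← integral_finsetSum _ fun n _ => h.int_mass ht n]
  have h3 : ∫ u in Ioi A, ∑ n ∈ s, ‖md f n u‖ ^ 2 ≤ ∫ u in Ioi A, m2 f u :=
    integral_mono (integrable_finsetSum _ fun n _ => h.int_mass ht n) h.int
      fun u => h.bessel_mass s u
  exact mul_le_of_le_one_right (by positivity) (h3.trans h.mass)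

theorem Cusp.amp (h : Cusp A lam f) (ht : t ^ 2 = lam - 1 / 4) {θ : ℝ} (h0 : 0 < θ)
    (h1 : θ ≤ 1 / 2) (h2 : t * θ ^ 6 = 1) {b : ℝ} (hb : A < b) {n : ℤ} (hn : Low t b n) :
    AmpOn (Ici b) θ t (2 * π * n) (10 * √(aE f t n b)) (md f n) (deriv (md f n)) := by
  intro u hu
  have h3 := (h.sys ht n).adi h0 h1 h2 hb hn.2 hu
  have h4 : (10 * √(aE f t n b)) ^ 4 = (100 * aE f t n b) ^ 2 := by
    have h5 := Real.sq_sqrt (h.aE_nonneg ht n hb)
    calc _ = (100 * √(aE f t n b) ^ 2) ^ 2 := by ring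
      _ = _ := by rw [h5]
  rw [h4]
  have e1 : ∀ x : ℝ, x ^ 4 = (x ^ 2) ^ 2 := fun x => by ring
  rw [e1 ‖md f n u‖, e1 ‖deriv (md f n) u‖]
  exact h3

theorem low_fin {t : ℝ} (ht : 0 < t) (b : ℝ) :
    ∃ Λ : Finset ℤ, (∀ n, n ∈ Λ ↔ Low t b n) ∧ (Λ.card : ℝ) ≤ t * Real.exp (-b) := by
  have hx : 0 < t * Real.exp (-b) / (4 * π) := by positivity
  set N : ℕ := ⌊t * Real.exp (-b) / (4 * π)⌋₊ with hN
  have hN1 : (N : ℝ) ≤ t * Real.exp (-b) / (4 * π) := Nat.floor_le hx.le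
  have hE : Real.exp (2 * b) = Real.exp b ^ 2 := by
    rw [sq, ← Real.exp_add]; congr 1; ring
  have hb := Real.exp_pos b
  have key : ∀ n : ℤ, (2 * π * n) ^ 2 * Real.exp (2 * b) ≤ t ^ 2 / 4 ↔
      |(n : ℝ)| ≤ t * Real.exp (-b) / (4 * π) := by
    intro n
    have e1 : (2 * π * n) ^ 2 * Real.exp (2 * b) = (2 * π * |(n : ℝ)| * Real.exp b) ^ 2 := by
      rw [hE, mul_pow, mul_pow, mul_pow, mul_pow, mul_pow, sq_abs]
    have e2 : t ^ 2 / 4 = (t / 2) ^ 2 := by ring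
    rw [e1, e2, sq_le_sq₀ (by positivity) (by positivity), le_div_iff₀ (by positivity : 0 < 4 * π),
      Real.exp_neg, ← div_eq_mul_inv, le_div_iff₀ hb]
    constructor <;> intro h <;> linarith
  refine ⟨(Finset.Icc (-(N : ℤ)) N).erase 0, fun n => ?_, ?_⟩
  · rw [Finset.mem_erase, Finset.mem_Icc, Low, key, ← abs_le]
    refine and_congr_right fun _ => ?_
    rw [← Int.cast_abs, Int.abs_eq_natAbs, Int.cast_natCast, Nat.cast_le, hN, Nat.le_floor_iff hx.le]
  · rw [Finset.card_erase_of_mem (by simp), Int.card_Icc]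
    have e3 : ((N : ℤ) + 1 - -(N : ℤ)).toNat - 1 = 2 * N := by omega
    rw [e3]
    push_cast
    have h4 : (2 : ℝ) ≤ 4 * π := by linarith [Real.two_le_pi]
    rw [le_div_iff₀ (by positivity)] at hN1
    have : (0 : ℝ) ≤ N := Nat.cast_nonneg _
    nlinarith

theorem geo_nat_mass {x : ℝ} (hx : 0 < x) (s : Finset ℕ) (hs : ∀ n ∈ s, n ≠ 0) :
    ∑ n ∈ s, Real.exp (-(x * n)) ≤ 1 / x := by
  have hr0 := Real.exp_pos (-x)
  have hr1 : Real.exp (-x) < 1 := Real.exp_lt_one_iff.mpr (by linarith)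
  have e1 : ∀ n : ℕ, Real.exp (-(x * n)) = Real.exp (-x) ^ n := fun n => by
    rw [← Real.exp_nat_mul]; congr 1; ring
  simp only [e1]
  have hsub : s ⊆ Finset.Ico 1 (s.sup id + 1) := fun n hn =>
    Finset.mem_Ico.mpr ⟨Nat.one_le_iff_ne_zero.mpr (hs n hn),
      Nat.lt_succ_of_le (Finset.le_sup (f := id) hn)⟩
  refine (Finset.sum_le_sum_of_subset_of_nonneg hsub fun _ _ _ => by positivity).trans ?_
  refine (geom_sum_Ico_le_of_lt_one hr0.le hr1).trans ?_
  rw [pow_one, div_le_div_iff₀ (by linarith) hx]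
  have h2 := Real.add_one_le_exp x
  have h3 : Real.exp (-x) * Real.exp x = 1 := by rw [← Real.exp_add]; simp
  nlinarith

theorem geo_int_mass {x : ℝ} (hx : 0 < x) (s : Finset ℤ) (hs : ∀ n ∈ s, n ≠ 0) :
    ∑ n ∈ s, Real.exp (-(x * |(n : ℝ)|)) ≤ 2 / x := by
  have key : ∀ s : Finset ℤ, (∀ n ∈ s, n ≠ 0) → Set.InjOn Int.natAbs s →
      ∑ n ∈ s, Real.exp (-(x * |(n : ℝ)|)) ≤ 1 / x := by
    intro s hs hinj
    have h1 := geo_nat_mass hx (s.image Int.natAbs) fun m hm => by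
      obtain ⟨n, hn, rfl⟩ := Finset.mem_image.mp hm
      exact Int.natAbs_ne_zero.mpr (hs n hn)
    rw [Finset.sum_image hinj] at h1
    simpa only [Nat.cast_natAbs, Int.cast_abs] using h1
  rw [← Finset.sum_filter_add_sum_filter_not s (fun n => 0 ≤ n)]
  have h1 := key (s.filter fun n => 0 ≤ n) (fun n hn => hs n (Finset.mem_filter.mp hn).1)
    fun a ha b hb he => by
      have h1 := (Finset.mem_filter.mp ha).2
      have h2 := (Finset.mem_filter.mp hb).2
      omega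
  have h2 := key (s.filter fun n => ¬0 ≤ n) (fun n hn => hs n (Finset.mem_filter.mp hn).1)
    fun a ha b hb he => by
      have h1 := (Finset.mem_filter.mp ha).2
      have h2 := (Finset.mem_filter.mp hb).2
      omega
  have : 2 / x = 1 / x + 1 / x := by ring
  linarith

/-- The high modes are exponentially small. -/
theorem Cusp.sigma (h : Cusp A lam f) (ht : t ^ 2 = lam - 1 / 4) (h1 : 1 ≤ t) {b u : ℝ}
    (hb : A + 2 ≤ b) (hu : b + 3 ≤ u) (s : Finset ℤ) (hs : ∀ n ∈ s, ¬Low t b n) :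
    ∑ n ∈ s, ‖md f n u‖ ≤ √(6 / (b - A - 1)) * Real.exp (-b / 2) := by
  have hbA : A < b := by linarith
  have ht0 : 0 < t := by linarith
  have hE := Real.exp_pos b
  have hz : ‖md f 0 u‖ = 0 := by
    have h2 := h.sys ht 0
    rw [Int.cast_zero, mul_zero] at h2
    exact pow_eq_zero_iff two_ne_zero |>.mp (h2.zero h1 (u := u) (by linarith))
  rw [← Finset.sum_erase s (f := fun n => ‖md f n u‖) hz]
  set x : ℝ := 4 * π * Real.exp b with hx
  have hx0 : 0 < x := by positivity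
  have h2 : ∀ n ∈ s.erase 0,
      ‖md f n u‖ ≤ √(aE f t n b) * √(Real.exp (-(x * |(n : ℝ)|))) := by
    intro n hn
    rw [Finset.mem_erase] at hn
    have h3 : t ^ 2 / 4 < (2 * π * n) ^ 2 * Real.exp (2 * b) := by
      by_contra hc
      exact hs n hn.2 ⟨hn.1, not_lt.mp hc⟩
    have h4 := (h.sys ht n).deep ht0 hbA h3 hu
    have e1 : 2 * |2 * π * (n : ℝ)| * Real.exp b = x * |(n : ℝ)| := by
      rw [abs_mul, abs_of_pos (by positivity : 0 < 2 * π), hx]; ring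
    rw [e1] at h4
    rw [← Real.sqrt_mul (h.aE_nonneg ht n hbA)]
    refine Real.le_sqrt_of_sq_le ?_
    unfold aE
    rw [div_mul_eq_mul_div, le_div_iff₀ (by positivity)]
    linarith
  refine (Finset.sum_le_sum h2).trans ?_
  refine (Real.sum_sqrt_mul_sqrt_le _ (fun n => h.aE_nonneg ht n hbA)
    (fun n => (Real.exp_pos _).le)).trans ?_
  refine mul_le_mul (Real.sqrt_le_sqrt (h.sum_aE ht h1 hb _)) ?_ (Real.sqrt_nonneg _)
    (Real.sqrt_nonneg _)
  refine Real.sqrt_le_iff.mpr ⟨(Real.exp_pos _).le, ?_⟩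
  refine (geo_int_mass hx0 _ fun n hn => (Finset.mem_erase.mp hn).1).trans ?_
  have e2 : Real.exp (-b / 2) ^ 2 = (Real.exp b)⁻¹ := by
    rw [sq, ← Real.exp_add, ← Real.exp_neg]; congr 1; ring
  rw [e2, div_le_iff₀ hx0, hx]
  have e3 : (Real.exp b)⁻¹ * (4 * π * Real.exp b) = 4 * π := by field_simp
  rw [e3]
  linarith [Real.two_le_pi]

end Pool.Agent.Lib.MP_a52643_an.H6C
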