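import Pool.Agent.Lib.MP_a52643_an.H6CZas

open MeasureTheory Set Filter Topology Metric UpperHalfPlane
open scoped ENNReal NNReal ContDiff Laplacian MatrixGroups Real

noncomputable section

namespace Pool.Agent.Lib.MP_a52643_an.H6C

variable {G : Subgroup SL2}

theorem Disc.fin_nu (hG : Disc G) {K : Set ℍ} (hK : IsCompact K) :
    {g : SL2 | g ∈ G ∧ ∃ z ∈ K, nu g z ≤ 1}.Finite := by
  refine (hG.fin (cthickening 2 K) (hK.cthickening)).subset ?_
  rintro g ⟨hg, z, hz, h⟩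
  refine ⟨hg, z, self_subset_cthickening K hz, ?_⟩
  exact mem_cthickening_of_dist_le _ z 2 K hz (by rw [dist_comm]; exact nu_dist h)

theorem Disc.exists_min (hG : Disc G) {z : ℍ} {a : SL2} (ha : a ∈ G) (h1 : ¬pm a)
    (h2 : nu a z ≤ 1) : ∃ c ∈ G, ¬pm c ∧ ∀ g ∈ G, ¬pm g → nu c z ≤ nu g z := by
  have hfin : {g : SL2 | g ∈ G ∧ ¬pm g ∧ nu g z ≤ 1}.Finite := by
    refine (hG.fin_nu (isCompact_singleton (x := z))).subset ?_
    rintro g ⟨hg, -, h⟩
    exact ⟨hg, z, rfl, h⟩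
  obtain ⟨c, ⟨hc, hc1, hc2⟩, hmin⟩ := Set.exists_min_image _ (fun g => nu g z) hfin
    ⟨a, ha, h1, h2⟩
  refine ⟨c, hc, hc1, fun g hg hg1 => ?_⟩
  by_cases h : nu g z ≤ 1
  · exact hmin g ⟨hg, hg1, h⟩
  · linarith [not_le.1 h]

/-- Small elements commute. -/
theorem Disc.comm (hG : Disc G) {z : ℍ} {a b : SL2} (ha : a ∈ G) (hb : b ∈ G)
    (h1 : nu a z ≤ 1 / 100) (h2 : nu b z ≤ 1 / 100) : a * b = b * a := by
  by_cases hpa : pm a
  · rcases hpa with h | h <;> simp [h]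
  obtain ⟨c, hc, hc1, hmin⟩ := hG.exists_min ha hpa (h1.trans (by norm_num))
  have hc2 : nu c z ≤ 1 / 100 := (hmin a ha hpa).trans h1
  have key : ∀ x ∈ G, nu x z ≤ 1 / 100 → x * c = c * x := by
    intro x hx hx1
    obtain ⟨k1, k2⟩ := nu_comm hc2 hx1
    have hk : c * x * c⁻¹ * x⁻¹ ∈ G :=
      G.mul_mem (G.mul_mem (G.mul_mem hc hx) (G.inv_mem hc)) (G.inv_mem hx)
    have hp : pm (c * x * c⁻¹ * x⁻¹) := by
      by_contra hp
      have h3 := hmin _ hk hp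
      have h4 := nu_pos hc1 z
      linarith
    rcases hp with h | h
    · have h5 : c * x = c * x * c⁻¹ * x⁻¹ * (x * c) := by group
      rw [h5, h, one_mul]
    · exact absurd h k2
  exact comm_trans hc1 (key a ha h1) (key b hb h2)

theorem prim_of_min {z : ℍ} {c : SL2} (hc : c ∈ G) (h1 : ¬pm c)
    (h2 : ∀ g ∈ G, ¬pm g → nu c z ≤ nu g z) : Prim G c := by
  exact ⟨hc, h1, fun g hg hgc hp w => nu_mono h1 hgc (h2 g hg hp) w⟩

theorem Prim.conj {p g : SL2} (hp : Prim G p) (hg : g ∈ G) : Prim G (g * p * g⁻¹) := by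
  obtain ⟨h1, h2, h3⟩ := hp
  refine ⟨G.mul_mem (G.mul_mem hg h1) (G.inv_mem hg), by rwa [pm_conj], fun k hk hc hp w => ?_⟩
  have e1 : k = g * (g⁻¹ * k * g) * g⁻¹ := by group
  have e2 : w = g • (g⁻¹ • w) := (smul_inv_smul g w).symm
  have hk' : g⁻¹ * k * g ∈ G := G.mul_mem (G.mul_mem (G.inv_mem hg) hk) hg
  have hp' : ¬pm (g⁻¹ * k * g) := by
    rw [← pm_conj g, ← e1]
    exact hp
  have hc' : g⁻¹ * k * g * p = p * (g⁻¹ * k * g) := by
    calc g⁻¹ * k * g * p = g⁻¹ * (k * (g * p * g⁻¹)) * g := by group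
      _ = g⁻¹ * (g * p * g⁻¹ * k) * g := by rw [hc]
      _ = p * (g⁻¹ * k * g) := by group
  have h4 := h3 _ hk' hc' hp' (g⁻¹ • w)
  rw [← nu_conj g p, ← nu_conj g (g⁻¹ * k * g), ← e1, ← e2] at h4
  exact h4

theorem Prim.neg (hG : Disc G) {p : SL2} (hp : Prim G p) : Prim G (-p) := by
  obtain ⟨h1, h2, h3⟩ := hp
  refine ⟨?_, ?_, fun k hk hc hp w => ?_⟩
  · have h4 := G.mul_mem hG.neg h1
    rwa [neg_one_mul] at h4
  · rintro (h | h)
    · exact h2 (Or.inr (neg_eq_iff_eq_neg.1 h))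
    · exact h2 (Or.inl (neg_inj.1 h))
  · rw [nu_neg]
    refine h3 k hk ?_ hp w
    rw [mul_neg, neg_mul] at hc
    exact neg_inj.1 hc

theorem Prim.inv {p : SL2} (hp : Prim G p) : Prim G p⁻¹ := by
  obtain ⟨h1, h2, h3⟩ := hp
  refine ⟨G.inv_mem h1, ?_, fun k hk hc hp w => ?_⟩
  · rintro (h | h)
    · exact h2 (Or.inl (inv_eq_one.1 h))
    · refine h2 (Or.inr ?_)
      have h4 : p * p⁻¹ = 1 := mul_inv_cancel p
      rw [h, mul_neg, mul_one] at h4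
      exact neg_eq_iff_eq_neg.1 h4
  · rw [nu_inv]
    refine h3 k hk ?_ hp w
    calc k * p = p * (p⁻¹ * k) * p := by group
      _ = p * (k * p⁻¹) * p := by rw [hc]
      _ = p * k := by group

theorem Prim.good (hG : Disc G) {p : SL2} (hp : Prim G p) (ht : |tr p| = 2) :
    ∃ s : SL2, Good G s ∧ ∀ w : ℍ, nu p (s • w) = 1 / w.im ^ 2 := by
  obtain ⟨s, hs⟩ := parab hp.2.1 ht
  have key : ∀ w : ℍ, nu (s * TT 1 * s⁻¹) (s • w) = 1 / w.im ^ 2 := by
    intro w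
    rw [nu_conj, nu_TT, one_pow]
  refine ⟨s, ?_, fun w => ?_⟩
  · unfold Good
    rcases hs with h | h | h | h <;> rw [h]
    · exact hp
    · exact hp.neg hG
    · exact hp.inv
    · exact hp.inv.neg hG
  · rw [← key w]
    rcases hs with h | h | h | h <;> rw [h]
    · rw [nu_neg]
    · rw [nu_inv]
    · rw [nu_neg, nu_inv]

end Pool.Agent.Lib.MP_a52643_an.H6C
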