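import Pool.Agent.Lib.MP_a52643_an.H6CDefs

open MeasureTheory Set Filter Topology Metric UpperHalfPlane
open scoped ENNReal NNReal ContDiff Laplacian MatrixGroups Real

noncomputable section

namespace Pool.Agent.Lib.MP_a52643_an.H6C

variable {A lam : ℝ} {f : ℂ → ℝ}

theorem pt_mem (x u : ℝ) : pt x u ∈ UH := by
  simpa [UH, pt, Complex.exp_ofReal_re] using Real.exp_pos u

theorem cont_pt_mode {E : Type*} [TopologicalSpace E] {g : ℂ → E} (hg : ContinuousOn g UH) :
    Continuous fun p : ℝ × ℝ => g (pt p.2 p.1) :=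
  hg.comp_continuous (by unfold pt; fun_prop) fun p => pt_mem p.2 p.1

theorem continuous_Wf (hf : ContDiffOn ℝ ∞ f UH) :
    Continuous fun p : ℝ × ℝ => Wf f p.1 p.2 :=
  Continuous.mul (by fun_prop) (cont_pt_mode hf.continuousOn)

theorem continuous_m2 (hf : ContDiffOn ℝ ∞ f UH) : Continuous (m2 f) :=
  intervalIntegral.continuous_parametric_intervalIntegral_of_continuous'
    (f := fun u x => Wf f u x ^ 2)
    (show Continuous fun p : ℝ × ℝ => Wf f p.1 p.2 ^ 2 from (continuous_Wf hf).fun_pow 2) 0 1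

theorem continuous_I3 (hf : ContDiffOn ℝ ∞ f UH) : Continuous (I3 f) :=
  Continuous.mul (by fun_prop)
    (intervalIntegral.continuous_parametric_intervalIntegral_of_continuous'
      (f := fun u x => Wf f u x ^ 3)
      (show Continuous fun p : ℝ × ℝ => Wf f p.1 p.2 ^ 3 from (continuous_Wf hf).fun_pow 3) 0 1)

theorem Cusp.per_mode (h : Cusp A lam f) (u x : ℝ) : f (pt (x + 1) u) = f (pt x u) := by
  rw [← h.per _ (pt_mem x u)]
  congr 1
  simp only [pt]
  push_cast
  ring

theorem Cusp.Wf_per (h : Cusp A lam f) (u x : ℝ) : Wf f u (x + 1) = Wf f u x := by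
  rw [Wf, Wf, h.per_mode]

theorem int_deriv_mode {G G' : ℝ → ℝ → ℂ} (hG : Continuous fun p : ℝ × ℝ => G p.1 p.2)
    (hG' : Continuous fun p : ℝ × ℝ => G' p.1 p.2)
    (h : ∀ u x, HasDerivAt (fun v => G v x) (G' u x) u) (u : ℝ) :
    HasDerivAt (fun v => ∫ x in (0 : ℝ)..1, G v x) (∫ x in (0 : ℝ)..1, G' u x) u := by
  obtain ⟨C, hC⟩ := ((isCompact_closedBall u 1).prod (isCompact_uIcc (a := (0 : ℝ))
    (b := 1))).exists_bound_of_continuousOn hG'.continuousOn
  have h1 : ∀ v, Continuous (G v) := fun v => hG.comp (Continuous.prodMk_right v)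
  exact (intervalIntegral.hasDerivAt_integral_of_dominated_loc_of_deriv_le (bound := fun _ => C)
    (closedBall_mem_nhds u one_pos) (Eventually.of_forall fun v => (h1 v).aestronglyMeasurable)
    ((h1 u).intervalIntegrable _ _) (hG'.comp (Continuous.prodMk_right u)).aestronglyMeasurable
    (ae_of_all _ fun x hx v hv => hC (v, x) ⟨hv, uIoc_subset_uIcc hx⟩) intervalIntegrable_const
    (ae_of_all _ fun x _ v _ => h v x)).2

theorem fc_par_mode {G G' : ℝ → ℝ → ℝ} (hG : Continuous fun p : ℝ × ℝ => G p.1 p.2)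
    (hG' : Continuous fun p : ℝ × ℝ => G' p.1 p.2)
    (h : ∀ u x, HasDerivAt (fun v => G v x) (G' u x) u) (n : ℤ) (u : ℝ) :
    HasDerivAt (fun v => fc (fun x => (G v x : ℂ)) n) (fc (fun x => (G' u x : ℂ)) n) u :=
  int_deriv_mode (G := fun v x => G v x * Complex.exp (-(2 * π * n * x) * Complex.I))
    (G' := fun v x => G' v x * Complex.exp (-(2 * π * n * x) * Complex.I))
    (by fun_prop) (by fun_prop) (fun v x => (h v x).ofReal_comp.mul_const _) u

theorem fc_deriv_mode {F F' : ℝ → ℝ} (hF' : Continuous F') (h : ∀ x, HasDerivAt F (F' x) x)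
    (hp : F 1 = F 0) (n : ℤ) :
    fc (fun x => (F' x : ℂ)) n = 2 * π * n * Complex.I * fc (fun x => (F x : ℂ)) n := by
  have hF : Continuous F := continuous_iff_continuousAt.2 fun x => (h x).continuousAt
  have h1 : ∀ x : ℝ, HasDerivAt (fun x : ℝ => Complex.exp (-(2 * π * n * x) * Complex.I))
      (Complex.exp (-(2 * π * n * x) * Complex.I) * (-(2 * π * n) * Complex.I)) x := fun x => by
    simpa using ((((hasDerivAt_id x).ofReal_comp.const_mul (2 * π * n : ℂ)).neg).mul_const
      Complex.I).cexp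
  have h2 := intervalIntegral.integral_mul_deriv_eq_deriv_mul (a := 0) (b := 1)
    (fun x _ => h1 x) (fun x _ => (h x).ofReal_comp)
    (Continuous.intervalIntegrable (by fun_prop) _ _)
    (Continuous.intervalIntegrable (by fun_prop) _ _)
  have h3 : Complex.exp (-(2 * π * n * (1 : ℝ)) * Complex.I) = 1 := by
    rw [← Complex.exp_int_mul_two_pi_mul_I (-n)]
    congr 1
    push_cast
    ring
  rw [h3, hp] at h2
  rw [fc, fc, ← intervalIntegral.integral_const_mul]
  simp only [mul_comm (F' _ : ℂ)]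
  rw [h2]
  simp only [Complex.ofReal_zero, mul_zero, neg_zero, zero_mul, Complex.exp_zero, sub_self,
    zero_sub, ← intervalIntegral.integral_neg]
  exact intervalIntegral.integral_congr fun x _ => by ring

theorem pt_du_mode (x u : ℝ) : HasDerivAt (fun v => pt x v) (Real.exp u • Complex.I) u := by
  simpa [pt] using ((Real.hasDerivAt_exp u).ofReal_comp.mul_const Complex.I).const_add (x : ℂ)

theorem pt_dx_mode (x u : ℝ) : HasDerivAt (fun y => pt y u) 1 x := by
  simpa [pt] using (hasDerivAt_id x).ofReal_comp.add_const (Real.exp u * Complex.I : ℂ)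

theorem core_mode {a b c p q : ℝ → ℝ → ℝ} (c0 : Continuous fun z : ℝ × ℝ => a z.1 z.2)
    (c1 : Continuous fun z : ℝ × ℝ => b z.1 z.2) (c2 : Continuous fun z : ℝ × ℝ => c z.1 z.2)
    (c3 : ∀ u, Continuous (p u)) (c4 : ∀ u, Continuous (q u))
    (a1 : ∀ u x, HasDerivAt (fun v => a v x) (Real.exp u * b u x) u)
    (a2 : ∀ u x, HasDerivAt (fun v => b v x) (Real.exp u * c u x) u)
    (b1 : ∀ u x, HasDerivAt (a u) (p u x) x) (b2 : ∀ u x, HasDerivAt (p u) (q u x) x)
    (per : ∀ u x, a u (x + 1) = a u x)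
    (pde : ∀ u, A < u → ∀ x, Real.exp u ^ 2 * (q u x + c u x) = -lam * a u x) {t : ℝ}
    (ht : t ^ 2 = lam - 1 / 4) (n : ℤ) {w : ℝ → ℂ}
    (hw : w = fun u => fc (fun x => ((Real.exp (-u / 2) * a u x : ℝ) : ℂ)) n) :
    SolOn (Ioi A) t (2 * π * n) w (deriv w) := by
  have e0 : ∀ u : ℝ, HasDerivAt (fun v : ℝ => Real.exp (-v / 2))
      (Real.exp (-u / 2) * (-1 / 2)) u := fun u => ((hasDerivAt_neg' u).div_const 2).exp
  have k1 := fc_par_mode (G := fun u x => Real.exp (-u / 2) * a u x)
    (G' := fun u x => Real.exp (-u / 2) * (-a u x / 2 + Real.exp u * b u x)) (by fun_prop)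
    (by fun_prop) (fun u x => ((e0 u).fun_mul (a1 u x)).congr_deriv (by ring)) n
  have k2 := fc_par_mode (G := fun u x => Real.exp (-u / 2) * (-a u x / 2 + Real.exp u * b u x))
    (G' := fun u x => Real.exp (-u / 2) * (a u x / 4 + Real.exp u ^ 2 * c u x)) (by fun_prop)
    (by fun_prop) (fun u x => ((e0 u).fun_mul (((a1 u x).fun_neg.div_const 2).fun_add
      ((Real.hasDerivAt_exp u).fun_mul (a2 u x)))).congr_deriv (by ring)) n
  rw [← hw] at k1
  have k3 : deriv w = _ := funext fun u => (k1 u).deriv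
  intro u hu
  refine ⟨(k1 u).differentiableAt.hasDerivAt, ?_⟩
  rw [k3]
  refine (k2 u).congr_deriv ?_
  have p1 : p u 1 = p u 0 := by
    have := (b1 u (0 + 1)).comp_add_const 0 1
    simp only [per, zero_add] at this
    exact this.unique (b1 u 0)
  have i1 := fc_deriv_mode (c3 u) (b1 u) (by simpa using per u 0) n
  have i2 := fc_deriv_mode (c4 u) (b2 u) p1 n
  have c5 : Continuous (a u) := c0.comp (Continuous.prodMk_right u)
  have c6 := c4 u
  have q2 : fc (fun x => ((Real.exp (-u / 2) * (a u x / 4 + Real.exp u ^ 2 * c u x) : ℝ) : ℂ)) n =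
      -(Real.exp (-u / 2) * t ^ 2 : ℝ) * fc (fun x => (a u x : ℂ)) n -
        (Real.exp (-u / 2) * Real.exp u ^ 2 : ℝ) * fc (fun x => (q u x : ℂ)) n := by
    rw [fc, fc, fc, ← intervalIntegral.integral_const_mul, ← intervalIntegral.integral_const_mul,
      ← intervalIntegral.integral_sub (Continuous.intervalIntegrable (by fun_prop) _ _)
        (Continuous.intervalIntegrable (by fun_prop) _ _)]
    refine intervalIntegral.integral_congr fun x _ => ?_
    have q1 : Real.exp u ^ 2 * c u x = -lam * a u x - Real.exp u ^ 2 * q u x := by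
      linarith [pde u hu x]
    simp only [q1, ht]
    generalize Real.exp u = y
    generalize Real.exp (-u / 2) = z
    push_cast
    ring
  have q3 : w u = (Real.exp (-u / 2) : ℝ) * fc (fun x => (a u x : ℂ)) n := by
    rw [hw, fc, ← intervalIntegral.integral_const_mul]
    refine intervalIntegral.integral_congr fun x _ => ?_
    simp only [Complex.ofReal_mul, mul_assoc]
  rw [q2, q3, i2, i1, qq, show Real.exp (2 * u) = Real.exp u ^ 2 by rw [← Real.exp_nat_mul]; rfl]
  generalize Real.exp u = y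
  generalize Real.exp (-u / 2) = z
  push_cast
  linear_combination -(z * y ^ 2 * (2 * π * n) ^ 2 * fc (fun x => (a u x : ℂ)) n) *
    Complex.I_sq

/-- The modes solve the ordinary differential equation. -/
theorem Cusp.sol (h : Cusp A lam f) {t : ℝ} (ht : t ^ 2 = lam - 1 / 4) (n : ℤ) :
    SolOn (Ioi A) t (2 * π * n) (md f n) (deriv (md f n)) := by
  have s1 : ContDiffOn ℝ ∞ (fderiv ℝ f) UH := h.sm.fderiv_of_isOpen isOpen_UH (by simp)
  have s2 : ContDiffOn ℝ ∞ (fderiv ℝ (fderiv ℝ f)) UH := s1.fderiv_of_isOpen isOpen_UH (by simp)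
  have c1 := cont_pt_mode s1.continuousOn
  have c2 := cont_pt_mode s2.continuousOn
  have d0 : ∀ x u, HasFDerivAt f (fderiv ℝ f (pt x u)) (pt x u) := fun x u =>
    ((h.sm.contDiffAt (isOpen_UH.mem_nhds (pt_mem x u))).differentiableAt (by simp)).hasFDerivAt
  have d1 : ∀ x u, HasFDerivAt (fderiv ℝ f) (fderiv ℝ (fderiv ℝ f) (pt x u)) (pt x u) := fun x u =>
    ((s1.contDiffAt (isOpen_UH.mem_nhds (pt_mem x u))).differentiableAt (by simp)).hasFDerivAt
  have c3 : ∀ v : ℂ, Continuous fun z : ℝ × ℝ => fderiv ℝ f (pt z.2 z.1) v := fun v =>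
    c1.clm_apply continuous_const
  have c4 : ∀ v : ℂ, Continuous fun z : ℝ × ℝ => fderiv ℝ (fderiv ℝ f) (pt z.2 z.1) v v :=
    fun v => (c2.clm_apply continuous_const).clm_apply continuous_const
  have c5 : ∀ u, Continuous fun x => fderiv ℝ f (pt x u) 1 := fun u => by
    have := (c3 1).comp (Continuous.prodMk_right u)
    simpa only [Function.comp_def] using this
  have c6 : ∀ u, Continuous fun x => fderiv ℝ (fderiv ℝ f) (pt x u) 1 1 := fun u => by
    have := (c4 1).comp (Continuous.prodMk_right u)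
    simpa only [Function.comp_def] using this
  have b1 : ∀ u x, HasDerivAt (fun y => f (pt y u)) (fderiv ℝ f (pt x u) 1) x := fun u x => by
    have := (d0 x u).comp_hasDerivAt x (pt_dx_mode x u)
    simpa only [Function.comp_def] using this
  refine core_mode (lam := lam) (a := fun u x => f (pt x u))
    (b := fun u x => fderiv ℝ f (pt x u) Complex.I)
    (c := fun u x => fderiv ℝ (fderiv ℝ f) (pt x u) Complex.I Complex.I)
    (p := fun u x => fderiv ℝ f (pt x u) 1) (q := fun u x => fderiv ℝ (fderiv ℝ f) (pt x u) 1 1)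
    (cont_pt_mode h.sm.continuousOn) (c3 _) (c4 _) c5 c6 (fun u x => ?_) (fun u x => ?_) b1
    (fun u x => ?_) h.per_mode (fun u hu x => ?_) ht n rfl
  · have := (d0 x u).comp_hasDerivAt u (pt_du_mode x u)
    simpa only [Function.comp_def, map_smul, smul_eq_mul] using this
  · have := ((d1 x u).comp_hasDerivAt u (pt_du_mode x u)).clm_apply
      (hasDerivAt_const u Complex.I)
    simpa only [Function.comp_def, map_smul, map_zero, add_zero, smul_apply, smul_eq_mul]
      using this
  · have := ((d1 x u).comp_hasDerivAt x (pt_dx_mode x u)).clm_apply (hasDerivAt_const x (1 : ℂ))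
    simpa only [Function.comp_def, map_zero, add_zero] using this
  · have h1 : (pt x u).im = Real.exp u := by simp [pt, Complex.exp_ofReal_re]
    have h2 := h.eq (pt x u) (by rw [h1]; exact Real.exp_lt_exp.2 hu)
    rw [h1, InnerProductSpace.laplacian_eq_iteratedFDeriv_complexPlane] at h2
    simpa only [iteratedFDeriv_two_apply, Matrix.cons_val_zero, Matrix.cons_val_one] using h2

end Pool.Agent.Lib.MP_a52643_an.H6C
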