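import Pool.Agent.Lib.MP_a52643_an.H6CDefs

open MeasureTheory Set Filter Topology Metric UpperHalfPlane
open scoped ENNReal NNReal ContDiff Laplacian MatrixGroups Real

noncomputable section

namespace Pool.Agent.Lib.MP_a52643_an.H6C

variable {A t c : ℝ} {P R Q : ℝ → ℝ}

theorem mono_ode {f f' : ℝ → ℝ} {s : Set ℝ} (hs : Convex ℝ s)
    (hd : ∀ x ∈ s, HasDerivAt f (f' x) x) (h0 : ∀ x ∈ s, 0 ≤ f' x) : MonotoneOn f s :=
  monotoneOn_of_deriv_nonneg hs (fun x hx => (hd x hx).continuousAt.continuousWithinAt)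
    (fun x hx => (hd x (interior_subset hx)).differentiableAt.differentiableWithinAt)
    fun x hx => by
      rw [(hd x (interior_subset hx)).deriv]
      exact h0 x (interior_subset hx)

theorem anti_ode {f f' : ℝ → ℝ} {s : Set ℝ} (hs : Convex ℝ s)
    (hd : ∀ x ∈ s, HasDerivAt f (f' x) x) (h0 : ∀ x ∈ s, f' x ≤ 0) : AntitoneOn f s :=
  antitoneOn_of_deriv_nonpos hs (fun x hx => (hd x hx).continuousAt.continuousWithinAt)
    (fun x hx => (hd x (interior_subset hx)).differentiableAt.differentiableWithinAt)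
    fun x hx => by
      rw [(hd x (interior_subset hx)).deriv]
      exact h0 x (interior_subset hx)

/-- Linear growth from a lower bound for the derivative. -/
theorem grow_ode {f f' : ℝ → ℝ} {u d : ℝ} (hd : ∀ x, u ≤ x → HasDerivAt f (f' x) x)
    (h0 : ∀ x, u ≤ x → d ≤ f' x) {v : ℝ} (hv : u ≤ v) : f u + d * (v - u) ≤ f v := by
  have h := mono_ode (f := fun x => f x - d * x) (f' := fun x => f' x - d * 1) (convex_Ici u)
    (fun x hx => (hd x hx).sub ((hasDerivAt_id x).const_mul d))
    (fun x hx => by have := h0 x hx; linarith) self_mem_Ici hv hv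
  simp only at h
  linarith

theorem not_int_ode {f : ℝ → ℝ} {a d : ℝ} (hd : 0 < d) (h : ∀ x, a < x → d ≤ f x) :
    ¬IntegrableOn f (Ioi a) := by
  intro hi
  have h1 : IntegrableOn (fun _ : ℝ => d) (Ioi a) :=
    Integrable.mono' hi aestronglyMeasurable_const
      ((ae_restrict_iff' measurableSet_Ioi).mpr (Eventually.of_forall fun x hx => by
        rw [Real.norm_eq_abs, abs_of_pos hd]
        exact h x hx))
  rw [integrableOn_const_iff] at h1
  rcases h1 with h1 | h1
  · exact hd.ne' (by simpa using h1)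
  · rw [Real.volume_Ioi] at h1
    exact lt_irrefl _ h1

theorem qq_anti (t c : ℝ) : Antitone (qq t c) := by
  intro u v huv
  have h1 : Real.exp (2 * u) ≤ Real.exp (2 * v) := Real.exp_le_exp.mpr (by linarith)
  have h2 := mul_le_mul_of_nonneg_left h1 (sq_nonneg c)
  unfold qq
  linarith

theorem hasDerivAt_qq_ode (t c u : ℝ) :
    HasDerivAt (qq t c) (-2 * c ^ 2 * Real.exp (2 * u)) u := by
  have h := (((hasDerivAt_id u).const_mul 2).exp.const_mul (c ^ 2)).const_sub (t ^ 2)
  refine HasDerivAt.congr_deriv h ?_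
  simp only [id]
  ring

theorem Sys.hasDerivAt_En (h : Sys A t c P R Q) {u : ℝ} (hu : A < u) :
    HasDerivAt (En t c P Q) (-2 * c ^ 2 * Real.exp (2 * u) * P u) u := by
  have h1 := (h.dQ u hu).add ((hasDerivAt_qq_ode t c u).mul (h.dP u hu))
  refine HasDerivAt.congr_deriv h1 ?_
  ring

theorem Sys.En_anti (h : Sys A t c P R Q) : AntitoneOn (En t c P Q) (Ioi A) := by
  refine anti_ode (convex_Ioi A) (fun x hx => h.hasDerivAt_En hx) fun x _ => ?_
  have h1 : 0 ≤ c ^ 2 * Real.exp (2 * x) * P x :=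
    mul_nonneg (mul_nonneg (sq_nonneg c) (Real.exp_pos _).le) (h.P0 x)
  linarith

theorem Sys.R_nonpos (h : Sys A t c P R Q) {u : ℝ} (hu : A < u) (hq : qq t c u ≤ 0) :
    R u ≤ 0 := by
  by_contra hR
  rw [not_le] at hR
  have h1 : ∀ v, u ≤ v → R u ≤ R v := fun v hv => by
    have := grow_ode (f := R) (d := 0) (fun x hx => h.dR x (hu.trans_le hx)) (fun x hx => by
      have h2 := mul_nonpos_of_nonpos_of_nonneg ((qq_anti t c hx).trans hq) (h.P0 x)
      have h3 := h.Q0 x
      linarith) hv
    linarith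
  refine not_int_ode (a := u + 1) (d := 2 * R u) (by linarith) (fun v hv => ?_)
    (h.int.mono_set (Ioi_subset_Ioi (by linarith)))
  have h2 := grow_ode (f := P) (d := 2 * R u) (fun x hx => h.dP x (hu.trans_le hx))
    (fun x hx => by have := h1 x hx; linarith) (v := v) (by linarith)
  have h3 := h.P0 u
  have h4 : 2 * R u * 1 ≤ 2 * R u * (v - u) :=
    mul_le_mul_of_nonneg_left (by linarith) (by linarith)
  linarith

theorem Sys.En_nonneg (h : Sys A t c P R Q) {u : ℝ} (hu : A < u) : 0 ≤ En t c P Q u := by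
  rcases le_total 0 (qq t c u) with hq | hq
  · exact add_nonneg (h.Q0 u) (mul_nonneg hq (h.P0 u))
  · by_contra hE
    rw [not_le] at hE
    have hd : 0 < -En t c P Q u := neg_pos.mpr hE
    have hv : u ≤ u + (|R u| + 1) / -En t c P Q u :=
      le_add_of_nonneg_right (by positivity)
    have h1 := grow_ode (f := R) (d := -En t c P Q u) (fun x hx => h.dR x (hu.trans_le hx))
      (fun x hx => by
        have h2 : En t c P Q x ≤ En t c P Q u := h.En_anti hu (hu.trans_le hx) hx
        have h3 : En t c P Q x = Q x + qq t c x * P x := rfl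
        have h4 := h.Q0 x
        linarith) hv
    have h2 := h.R_nonpos (hu.trans_le hv) ((qq_anti t c hv).trans hq)
    rw [add_sub_cancel_left, mul_div_cancel₀ _ hd.ne'] at h1
    have h3 := neg_abs_le (R u)
    linarith

theorem Sys.P_anti (h : Sys A t c P R Q) {u : ℝ} (hu : A < u) (hq : qq t c u ≤ 0) :
    AntitoneOn P (Ici u) := by
  refine anti_ode (convex_Ici u) (fun x hx => h.dP x (hu.trans_le hx)) fun x hx => ?_
  have := h.R_nonpos (hu.trans_le hx) ((qq_anti t c hx).trans hq)
  linarith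

theorem Sys.Q_anti (h : Sys A t c P R Q) {u : ℝ} (hu : A < u) (hq : qq t c u ≤ 0) :
    AntitoneOn Q (Ici u) := by
  refine anti_ode (convex_Ici u) (fun x hx => h.dQ x (hu.trans_le hx)) fun x hx => ?_
  have h1 := (qq_anti t c hx).trans hq
  have h2 := mul_nonneg_of_nonpos_of_nonpos h1 (h.R_nonpos (hu.trans_le hx) h1)
  linarith

theorem Sys.tail (h : Sys A t c P R Q) {b B : ℝ} (hb : A < b) (hB : b ≤ B) :
    ∫ u in b..B, 2 * c ^ 2 * Real.exp (2 * u) * P u ≤ En t c P Q b := by
  have hmem : ∀ x ∈ uIcc b B, A < x := fun x hx => by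
    rw [uIcc_of_le hB] at hx
    exact hb.trans_le hx.1
  have hP : ContinuousOn P (uIcc b B) := fun x hx =>
    (h.dP x (hmem x hx)).continuousAt.continuousWithinAt
  have h1 := intervalIntegral.integral_eq_sub_of_hasDerivAt (f := fun u => -En t c P Q u)
    (f' := fun u => 2 * c ^ 2 * Real.exp (2 * u) * P u) (a := b) (b := B)
    (fun x hx => HasDerivAt.congr_deriv (h.hasDerivAt_En (hmem x hx)).neg (by ring))
    (ContinuousOn.intervalIntegrable (ContinuousOn.mul (by fun_prop) hP))
  have h2 := h.En_nonneg (hb.trans_le hB)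
  rw [h1]
  linarith

end Pool.Agent.Lib.MP_a52643_an.H6C
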