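import Pool.Agent.Lib.MP_a52643_an.H6CDefs
import Pool.Agent.Lib.MP_a52643_an.H60Cut

open MeasureTheory Set Filter Topology Metric UpperHalfPlane
open scoped ENNReal NNReal ContDiff Laplacian MatrixGroups Real

noncomputable section

namespace Pool.Agent.Lib.MP_a52643_an.H6C

lemma hasF_pull {m : ℂ → ℂ} {z : ℂ} (hm : DifferentiableAt ℂ m z) :
    HasFDerivAt m (ContinuousLinearMap.mul ℝ ℂ (deriv m z)) z := by
  refine (hm.hasDerivAt.hasFDerivAt.restrictScalars ℝ).congr_fderiv ?_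
  refine ContinuousLinearMap.ext fun v => ?_
  simp [mul_comm]

lemma second_pull {F : ℂ → ℝ} {m : ℂ → ℂ} {w : ℂ} (hm : AnalyticAt ℂ m w)
    (hF : ContDiffAt ℝ 2 F (m w)) (v : ℂ) :
    fderiv ℝ (fderiv ℝ fun z => F (m z)) w v v =
      fderiv ℝ (fderiv ℝ F) (m w) (deriv m w * v) (deriv m w * v) +
        fderiv ℝ F (m w) (deriv (deriv m) w * v * v) := by
  have h1 : ∀ᶠ y in 𝓝 (m w), DifferentiableAt ℝ F y :=
    (hF.eventually (by simp)).mono fun y hy => hy.differentiableAt (by simp)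
  have h2 : ∀ᶠ z in 𝓝 w, DifferentiableAt ℝ F (m z) := hm.continuousAt.eventually h1
  have h3 : (fderiv ℝ fun z => F (m z)) =ᶠ[𝓝 w] fun z =>
      (fderiv ℝ F (m z)).comp (ContinuousLinearMap.mul ℝ ℂ (deriv m z)) := by
    filter_upwards [h2, hm.eventually_analyticAt] with z hz hz'
    exact (hz.hasFDerivAt.comp z (hasF_pull hz'.differentiableAt)).fderiv
  have h4 : DifferentiableAt ℝ (fderiv ℝ F) (m w) :=
    (hF.fderiv_right (m := 1) (by norm_num)).differentiableAt (by simp)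
  have h5 := h4.hasFDerivAt.comp w (hasF_pull hm.differentiableAt)
  have h6 := (ContinuousLinearMap.mul ℝ ℂ).hasFDerivAt.comp w
    (hasF_pull hm.deriv.differentiableAt)
  have h7 := (h5.clm_comp h6).fderiv
  rw [h3.fderiv_eq]
  simp only [Function.comp_def] at h7
  rw [h7]
  simp [add_comm]

lemma bil_pull (B : ℂ →L[ℝ] ℂ →L[ℝ] ℝ) (a : ℂ) :
    B (a * 1) (a * 1) + B (a * Complex.I) (a * Complex.I) =
      ‖a‖ ^ 2 * (B 1 1 + B Complex.I Complex.I) := by
  have h1 : a * 1 = a.re • (1 : ℂ) + a.im • Complex.I := by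
    simp
  have h2 : a * Complex.I = (-a.im) • (1 : ℂ) + a.re • Complex.I := by
    apply Complex.ext <;> simp
  rw [h1, h2, Complex.sq_norm, Complex.normSq_apply]
  simp only [map_add, map_smul, add_apply, smul_apply, smul_eq_mul]
  ring

/-- Conformal invariance of the Laplacian. -/
theorem laplacian_comp {F : ℂ → ℝ} {m : ℂ → ℂ} {w : ℂ} (hm : AnalyticAt ℂ m w)
    (hF : ContDiffAt ℝ 2 F (m w)) :
    Δ (fun z => F (m z)) w = ‖deriv m w‖ ^ 2 * Δ F (m w) := by
  rw [InnerProductSpace.laplacian_eq_iteratedFDeriv_complexPlane,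
    InnerProductSpace.laplacian_eq_iteratedFDeriv_complexPlane]
  simp only [iteratedFDeriv_two_apply, Matrix.cons_val_zero, Matrix.cons_val_one]
  rw [second_pull hm hF, second_pull hm hF, ← bil_pull]
  have h : deriv (deriv m) w * Complex.I * Complex.I = -(deriv (deriv m) w * 1 * 1) := by
    rw [mul_assoc, Complex.I_mul_I]; ring
  rw [h, map_neg]
  ring

theorem pull_smooth {φ : ℍ → ℝ} (h : ContDiffOn ℝ ∞ (fun w : ℂ => φ (ofComplex w)) UH)
    (s : SL2) : ContDiffOn ℝ ∞ (fun w : ℂ => φ (s • ofComplex w)) UH := by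
  intro w hw
  have h1 : ((s • ofComplex w : ℍ) : ℂ) ∈ UH := (s • ofComplex w).im_pos
  have h2 := (h.contDiffAt (isOpen_UH.mem_nhds h1)).comp w (H60.moeb_cut s hw)
  simp only [Function.comp_def, ofComplex_apply] at h2
  exact h2.contDiffWithinAt

lemma den_ne_pull (g : SL2) (z : ℍ) : (ec g : ℂ) * z + ed g ≠ 0 := by
  intro h
  have h1 := congrArg Complex.im h
  have h2 := congrArg Complex.re h
  simp only [Complex.add_im, Complex.mul_im, Complex.ofReal_re, Complex.ofReal_im, zero_mul,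
    add_zero, Complex.zero_im, Complex.add_re, Complex.mul_re, sub_zero, Complex.zero_re] at h1 h2
  have hw' : 0 < (z : ℂ).im := z.im_pos
  have h3 : ec g = 0 := (mul_eq_zero.1 h1).resolve_right hw'.ne'
  have h4 : ed g = 0 := by rw [h3] at h2; simpa using h2
  have h5 := det_eq g
  rw [h3, h4] at h5
  simp at h5

lemma im_act_pull (g : SL2) (z : ℍ) :
    (g • z).im = z.im / Complex.normSq ((ec g : ℂ) * z + ed g) := by
  have h0 : Complex.normSq ((ec g : ℂ) * z + ed g) ≠ 0 := by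
    rw [Ne, Complex.normSq_eq_zero]; exact den_ne_pull g z
  rw [← coe_im, coe_act, Complex.div_im, ← coe_im]
  simp only [Complex.add_im, Complex.mul_im, Complex.ofReal_re, Complex.ofReal_im, zero_mul,
    add_zero, Complex.add_re, Complex.mul_re, sub_zero]
  field_simp
  linear_combination ((z : ℂ).im) * det_eq g

theorem pull_lap {φ : ℍ → ℝ} (h : ContDiffOn ℝ ∞ (fun w : ℂ => φ (ofComplex w)) UH)
    (s : SL2) (z : ℍ) :
    z.im ^ 2 * Δ (fun w : ℂ => φ (s • ofComplex w)) z =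
      (s • z).im ^ 2 * Δ (fun w : ℂ => φ (ofComplex w)) (s • z : ℍ) := by
  set m : ℂ → ℂ := fun w => ((ea s : ℂ) * w + eb s) / ((ec s : ℂ) * w + ed s) with hm
  have h0 := den_ne_pull s z
  have hz : (z : ℂ) ∈ UH := z.im_pos
  have hma : AnalyticAt ℂ m z := AnalyticAt.div (by fun_prop) (by fun_prop) h0
  have hmz : m z = ((s • z : ℍ) : ℂ) := (coe_act s z).symm
  have hd : deriv m z = 1 / ((ec s : ℂ) * z + ed s) ^ 2 := by
    have a1 : HasDerivAt (fun w : ℂ => (ea s : ℂ) * w + eb s) (ea s : ℂ) z := by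
      simpa using ((hasDerivAt_id (z : ℂ)).const_mul (ea s : ℂ)).add_const (eb s : ℂ)
    have a2 : HasDerivAt (fun w : ℂ => (ec s : ℂ) * w + ed s) (ec s : ℂ) z := by
      simpa using ((hasDerivAt_id (z : ℂ)).const_mul (ec s : ℂ)).add_const (ed s : ℂ)
    have a3 : ((ea s : ℂ) * ed s - eb s * ec s) = 1 := by exact_mod_cast det_eq s
    rw [hm, (a1.fun_div a2 h0).deriv]
    congr 1
    linear_combination a3
  have he : (fun w : ℂ => φ (s • ofComplex w)) =ᶠ[𝓝 (z : ℂ)] fun w => φ (ofComplex (m w)) := by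
    filter_upwards [isOpen_UH.mem_nhds hz] with w hw
    have : m w = ((s • ofComplex w : ℍ) : ℂ) := by rw [coe_act, H60.coe_of_cut hw]
    rw [this, ofComplex_apply]
  have hs : ((s • z : ℍ) : ℂ) ∈ UH := (s • z).im_pos
  have hF : ContDiffAt ℝ 2 (fun w : ℂ => φ (ofComplex w)) (m z) := by
    rw [hmz]
    exact (h.contDiffAt (isOpen_UH.mem_nhds hs)).of_le (WithTop.coe_le_coe.2 (le_top : (2 : ℕ∞) ≤ ⊤))
  rw [(InnerProductSpace.laplacian_congr_nhds he).eq_of_nhds,
    laplacian_comp (F := fun w : ℂ => φ (ofComplex w)) hma hF, hmz, hd, im_act_pull, norm_div,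
    norm_one, norm_pow, Complex.sq_norm]
  ring

end Pool.Agent.Lib.MP_a52643_an.H6C
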