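import Pool.Agent.Lib.MP_a52643_an.H6CCusp2
import Pool.Agent.Lib.MP_a52643_an.H6CDec
import Pool.Agent.Lib.MP_a52643_an.H6CPull
import Pool.Agent.Lib.MP_a52643_an.H60Glob

open MeasureTheory Set Filter Topology Metric UpperHalfPlane
open scoped ENNReal NNReal ContDiff Laplacian MatrixGroups Real

noncomputable section

namespace Pool.Agent.Lib.MP_a52643_an.H6C

variable {Γ : Type} [Group Γ] [Countable Γ] [MulAction Γ ℍ] {l : Γ → SL2} {D : Set ℍ}
  {S : Finset SL2} {A : ℝ}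

/-- The part of the cubic integral that lies in the cusps. -/
theorem cusp_part (hD : FD l D) (hS : Cusps Γ S) (hA : 3 ≤ A) {ρ : ℍ → ℝ} (h0 : ∀ z, 0 < ρ z)
    (hi : ∀ (γ : Γ) z, ρ (γ • z) = ρ z) (hc : Continuous ρ)
    (h1 : ∀ s ∈ S, ∀ w : ℍ, Real.exp A < w.im → ρ (s • w) = 1)
    {ψ : ℍ → ℝ} (ψi : ∀ (γ : Γ) (z : ℍ), ψ (γ • z) = ψ z) (ψc : Continuous ψ)
    (ψ1 : ∀ s ∈ S, ∀ w : ℍ, 10 < w.im →
      ψ (s • w) = Real.smoothTransition (Real.log w.im - (A + 5)))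
    (ψ0 : ∀ z, ψ z ≠ 0 → ∃ γ : Γ, ∃ s ∈ S, ∃ w : ℍ, Real.exp (A + 5) < w.im ∧ γ • z = s • w) :
    ∃ C L : ℝ, 2 ≤ L ∧ ∀ (φ : ℍ → ℝ) (lam : ℝ), (∀ (γ : Γ) z, φ (γ • z) = φ z) →
      ContDiffOn ℝ ∞ (fun w : ℂ => φ (ofComplex w)) UH →
      (∀ z : ℍ, z.im ^ 2 * Δ (fun w : ℂ => φ (ofComplex w)) z = -lam * ρ z * φ z) →
      ∫ z in D, φ z ^ 2 * ρ z = 1 → L ≤ lam →
      IntegrableOn (fun z => ψ z * φ z ^ 3 * ρ z) D ∧
        |∫ z in D, ψ z * φ z ^ 3 * ρ z| ≤ C / √(Real.log lam) := by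
  obtain ⟨C, L, hL, H⟩ := cusp2 A (by linarith)
  refine ⟨S.card * C, L, hL, fun φ lam φi φs φe φn hl => ?_⟩
  have cφ : Continuous φ := H60.cont_glob φs
  have h10 := ten_dec hA
  have mm : Measurable fun z : ℍ => ENNReal.ofReal (φ z ^ 2 * ρ z) :=
    ((cφ.pow 2).mul hc).measurable.ennreal_ofReal
  have tot : ∫⁻ z in D, ENNReal.ofReal (φ z ^ 2 * ρ z) = 1 := by
    have hI : IntegrableOn (fun z => φ z ^ 2 * ρ z) D := by
      by_contra h
      rw [integral_undef h] at φn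
      exact zero_ne_one φn
    rw [← ofReal_integral_eq_lintegral_ofReal hI
      (Eventually.of_forall fun z => mul_nonneg (sq_nonneg _) (h0 z).le), φn, ENNReal.ofReal_one]
  have key : ∀ s ∈ S, IntegrableOn (fun w : ℍ => ψ (s • w) * φ (s • w) ^ 3 * ρ (s • w)) (St A) ∧
      |∫ w in St A, ψ (s • w) * φ (s • w) ^ 3 * ρ (s • w)| ≤ C / √(Real.log lam) := by
    intro s hs
    obtain ⟨δ, hδ⟩ := hS.per s hs
    have e : EqOn (fun z : ℍ => Real.smoothTransition (Real.log z.im - (A + 5)) *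
        φ (s • ofComplex (z : ℂ)) ^ 3)
        (fun w : ℍ => ψ (s • w) * φ (s • w) ^ 3 * ρ (s • w)) (St A) := fun w hw => by
      simp only [ofComplex_apply]
      rw [ψ1 s hs w (h10.trans hw.2.2), h1 s hs w hw.2.2, mul_one]
    obtain ⟨k1, k2⟩ := H lam (fun w => φ (s • ofComplex w)) (pull_smooth φs s) (fun z hz => by
        have e1 : ofComplex (z + 1) = (1 : ℝ) +ᵥ ofComplex z := by
          have hz1 : z + 1 ∈ UH := by simpa [UH] using hz
          apply UpperHalfPlane.ext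
          rw [coe_vadd, H60.coe_of_cut hz, H60.coe_of_cut hz1]
          simp [add_comm]
        rw [e1, ← hδ, φi])
      (fun z hz => by
        have hz' : 0 < z.im := (Real.exp_pos A).trans hz
        have e1 := pull_lap φs s ⟨z, hz'⟩
        rw [φe, h1 s hs ⟨z, hz'⟩ hz] at e1
        simp only [ofComplex_apply_of_im_pos hz']
        rw [mul_one] at e1
        exact e1)
      (by
        refine le_trans (le_of_eq ?_) ((mass_le hD hS hA mm
          (fun γ z => by simp only [φi, hi]) hs).trans tot.le)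
        refine setLIntegral_congr_fun (measurableSet_St A) fun w hw => ?_
        simp only [ofComplex_apply]
        rw [h1 s hs w hw.2.2, mul_one]) hl
    rw [setIntegral_congr_fun (measurableSet_St A) e] at k2
    exact ⟨k1.congr_fun e (measurableSet_St A), k2⟩
  obtain ⟨d1, d2⟩ := dec_int hD hS hA (F := fun z => ψ z * φ z ^ 3 * ρ z)
    ((ψc.mul (cφ.pow 3)).mul hc).measurable (fun γ z => by simp only [ψi, φi, hi])
    (fun z hz => by
      obtain ⟨γ, s, hs, w, hw, e⟩ := ψ0 z (fun h => hz (by simp [h]))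
      exact ⟨γ, s, hs, w, lt_trans (Real.exp_lt_exp.2 (by linarith)) hw, e⟩)
    fun s hs => (key s hs).1
  refine ⟨d1, ?_⟩
  rw [d2, mul_div_assoc]
  refine (Finset.abs_sum_le_sum_abs _ _).trans ?_
  simpa using Finset.sum_le_card_nsmul S _ _ fun s hs => (key s hs).2

end Pool.Agent.Lib.MP_a52643_an.H6C
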