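import Pool.Agent.Lib.MP_a52643_an.H6CDefs

open MeasureTheory Set Filter Topology Metric UpperHalfPlane
open scoped ENNReal NNReal ContDiff Laplacian MatrixGroups Real

noncomputable section

namespace Pool.Agent.Lib.MP_a52643_an.H6C

theorem mul_abs_pt {x y : ℝ} (hx : |x| ≤ 75) (hy : |y| ≤ 75) : |x * y| ≤ 5625 := by
  rw [abs_mul]
  calc |x| * |y| ≤ 75 * 75 := mul_le_mul hx hy (abs_nonneg _) (by norm_num)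
    _ = 5625 := by norm_num

theorem one_add_abs_pt {x y : ℝ} (hx : |x| ≤ 75) (hy : |y| ≤ 75) : |1 + 2 * x * y| ≤ 11251 := by
  have h := abs_le.mp (mul_abs_pt hx hy)
  rw [abs_le]
  constructor <;> nlinarith [h.1, h.2]

theorem tri_pt {c M d a b : ℝ} (hcM : c ≤ M) (hM : 0 ≤ M) (hd : 0 ≤ d) (hd1 : d ≤ 1)
    (ha : 0 ≤ a) (ha1 : a ≤ 1) (hb : 0 ≤ b) (hb1 : b ≤ 1) : c * (d * a * b) ≤ M := by
  have h1 : d * a * b ≤ 1 := mul_le_one₀ (mul_le_one₀ hd1 ha ha1) hb hb1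
  have h0 : 0 ≤ d * a * b := by positivity
  calc c * (d * a * b) ≤ M * 1 := mul_le_mul hcM h1 h0 hM
    _ = M := mul_one M

/-- Far from the resonance. -/
theorem pt_far : ∃ C : ℝ, 0 < C ∧ ∀ θ ℓ x0 x1 x2 p0 p1 p2 d0 d1 d2 : ℝ, 0 < θ → θ ≤ 1 / 2 →
    0 < ℓ → ℓ ≤ θ ^ 3 → |x0| ≤ 75 → |x1| ≤ 75 → |x2| ≤ 75 →
    0 ≤ p0 → 0 ≤ p1 → 0 ≤ p2 → 0 ≤ d0 → 0 ≤ d1 → 0 ≤ d2 →
    θ * p0 ≤ 1 → θ * p1 ≤ 1 → θ * p2 ≤ 1 → d0 ≤ 1 → d1 ≤ 1 → d2 ≤ 1 →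
    1 / 2 ≤ |hh x0 x1 x2| →
    maj ℓ (θ ^ 6) (hh x0 x1 x2) (p0 * p1 * p2) (gB x0 x1 x2 p0 p1 p2 d0 d1 d2)
      (lB x0 x1 x2 p0 p1 p2 d0 d1 d2) ≤ C * θ ^ 3 := by
  refine ⟨10 ^ 10, by norm_num, ?_⟩
  intro θ ℓ x0 x1 x2 p0 p1 p2 d0 d1 d2 hθ hθ2 hℓ hℓθ h0 h1 h2 hp0 hp1 hp2 hd0 hd1 hd2
    hq0 hq1 hq2 he0 he1 he2 hh2
  have k0 : 0 ≤ θ * p0 := by positivity
  have k1 : 0 ≤ θ * p1 := by positivity
  have k2 : 0 ≤ θ * p2 := by positivity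
  have hg0 : 0 ≤ gB x0 x1 x2 p0 p1 p2 d0 d1 d2 := by
    unfold gB
    positivity
  have hl0 : 0 ≤ lB x0 x1 x2 p0 p1 p2 d0 d1 d2 := by
    unfold lB
    positivity
  have hg : θ ^ 2 * gB x0 x1 x2 p0 p1 p2 d0 d1 d2 ≤ 33755 := by
    have a1 := tri_pt (one_add_abs_pt h1 h2) (by norm_num) hd0 he0 k1 hq1 k2 hq2
    have a2 := tri_pt (one_add_abs_pt h0 h2) (by norm_num) hd1 he1 k0 hq0 k2 hq2
    have a3 := tri_pt (one_add_abs_pt h0 h1) (by norm_num) hd2 he2 k0 hq0 k1 hq1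
    have hθ1 : 2 * θ ^ 2 ≤ 2 := by nlinarith
    have a4 := tri_pt hθ1 (by norm_num) hd0 he0 hd1 he1 hd2 he2
    have e : θ ^ 2 * gB x0 x1 x2 p0 p1 p2 d0 d1 d2 =
        |1 + 2 * x1 * x2| * (d0 * (θ * p1) * (θ * p2)) +
        |1 + 2 * x0 * x2| * (d1 * (θ * p0) * (θ * p2)) +
        |1 + 2 * x0 * x1| * (d2 * (θ * p0) * (θ * p1)) + 2 * θ ^ 2 * (d0 * d1 * d2) := by
      unfold gB
      ring
    rw [e]
    linarith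
  have hl : θ ^ 2 * lB x0 x1 x2 p0 p1 p2 d0 d1 d2 ≤ 67500 := by
    have a1 := tri_pt (mul_abs_pt h1 h2) (by norm_num) hd0 he0 k1 hq1 k2 hq2
    have a2 := tri_pt (mul_abs_pt h0 h2) (by norm_num) hd1 he1 k0 hq0 k2 hq2
    have a3 := tri_pt (mul_abs_pt h0 h1) (by norm_num) hd2 he2 k0 hq0 k1 hq1
    have e : θ ^ 2 * lB x0 x1 x2 p0 p1 p2 d0 d1 d2 =
        4 * (|x1 * x2| * (d0 * (θ * p1) * (θ * p2)) +
        |x0 * x2| * (d1 * (θ * p0) * (θ * p2)) + |x0 * x1| * (d2 * (θ * p0) * (θ * p1))) := by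
      unfold lB
      ring
    rw [e]
    linarith
  have h3 : |3 - hh x0 x1 x2| ≤ 33750 := by
    have b0 := abs_le.mp (mul_abs_pt h0 h0)
    have b1 := abs_le.mp (mul_abs_pt h1 h1)
    have b2 := abs_le.mp (mul_abs_pt h2 h2)
    unfold hh
    rw [abs_le]
    constructor <;> nlinarith [b0.2, b1.2, b2.2, sq_nonneg x0, sq_nonneg x1, sq_nonneg x2]
  generalize gB x0 x1 x2 p0 p1 p2 d0 d1 d2 = g at *
  generalize lB x0 x1 x2 p0 p1 p2 d0 d1 d2 = l at *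
  generalize hh x0 x1 x2 = h at *
  have hsq : h ^ 2 = |h| ^ 2 := (sq_abs h).symm
  have hD : 1 / 4 ≤ h ^ 2 + ℓ ^ 2 := by nlinarith [sq_nonneg ℓ]
  have hD0 : 0 < h ^ 2 + ℓ ^ 2 := by linarith
  have hθ3 : 0 < θ ^ 3 := by positivity
  have t1 : p0 * p1 * p2 * ℓ ^ 2 / (h ^ 2 + ℓ ^ 2) ≤ 4 * θ ^ 3 := by
    rw [div_le_iff₀ hD0]
    have c1 : ℓ ^ 2 ≤ (θ ^ 3) ^ 2 := by gcongr
    have c2 := tri_pt (le_refl (θ ^ 3)) hθ3.le k0 hq0 k1 hq1 k2 hq2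
    calc p0 * p1 * p2 * ℓ ^ 2 ≤ p0 * p1 * p2 * (θ ^ 3) ^ 2 := by gcongr
      _ = θ ^ 3 * (θ * p0 * (θ * p1) * (θ * p2)) := by ring
      _ ≤ θ ^ 3 := c2
      _ = 4 * θ ^ 3 * (1 / 4) := by ring
      _ ≤ _ := by gcongr
  have t2 : |h| / (h ^ 2 + ℓ ^ 2) ≤ 2 := by
    rw [div_le_iff₀ hD0]
    nlinarith [sq_nonneg ℓ, abs_nonneg h]
  have t3 : 2 * |3 - h| * g / (h ^ 2 + ℓ ^ 2) ≤ 270000 * g := by
    rw [div_le_iff₀ hD0]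
    calc 2 * |3 - h| * g ≤ 2 * 33750 * g := by gcongr
      _ = 270000 * g * (1 / 4) := by ring
      _ ≤ _ := by gcongr
  have t4 : θ ^ 6 * (|h| / (h ^ 2 + ℓ ^ 2) * (l + g) + 2 * |3 - h| * g / (h ^ 2 + ℓ ^ 2)) ≤
      θ ^ 3 * (θ * (2 * (θ ^ 2 * l) + 270002 * (θ ^ 2 * g))) := by
    calc _ ≤ θ ^ 6 * (2 * (l + g) + 270000 * g) := by gcongr
      _ = _ := by ring
  have t5 : θ * (2 * (θ ^ 2 * l) + 270002 * (θ ^ 2 * g)) ≤ 1 / 2 * (2 * 67500 + 270002 * 33755) := by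
    gcongr
  have t6 := mul_le_mul_of_nonneg_left t5 hθ3.le
  unfold maj
  nlinarith

/-- Geometry of nearly resonant triangles. -/
theorem pt_geom {x0 x1 x2 : ℝ} (hs : x0 + x1 + x2 = 0) (h1 : x1 ^ 2 ≤ x0 ^ 2)
    (h2 : x2 ^ 2 ≤ x0 ^ 2) (hh' : |hh x0 x1 x2| ≤ 1 / 2) {r : ℝ}
    (hr : 1 - 3 * x0 ^ 2 / (2 * (x0 ^ 2 + x1 ^ 2 + x2 ^ 2)) ≤ r) :
    x0 ^ 2 ≤ 7 / 6 ∧ x1 ^ 2 ≤ 7 / 8 ∧ x2 ^ 2 ≤ 7 / 8 ∧
      |1 - x0 ^ 2 - (1 - 3 * x0 ^ 2 / (2 * (x0 ^ 2 + x1 ^ 2 + x2 ^ 2)))| ≤ |hh x0 x1 x2| / 3 ∧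
      |1 + 2 * x0 * x2| ≤ r + 3 * √r + |hh x0 x1 x2| ∧
      |1 + 2 * x0 * x1| ≤ r + 3 * √r + |hh x0 x1 x2| := by
  have hb := abs_le.mp hh'
  unfold hh at hb
  have hx0 : x0 = -(x1 + x2) := by linarith
  set S : ℝ := x0 ^ 2 + x1 ^ 2 + x2 ^ 2 with hS
  have hS1 : 5 / 4 ≤ S := by linarith [hb.2]
  have hS2 : S ≤ 7 / 4 := by linarith [hb.1]
  have hS0 : 0 < 2 * S := by linarith
  have hd : (x2 - x1) ^ 2 = 2 * S - 3 * x0 ^ 2 := by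
    rw [hS, hx0]
    ring
  have h3 : 3 * x0 ^ 2 ≤ 2 * S := by nlinarith [sq_nonneg (x2 - x1)]
  set y : ℝ := 3 * x0 ^ 2 / (2 * S) with hy
  have hyS : y * (2 * S) = 3 * x0 ^ 2 := div_mul_cancel₀ _ hS0.ne'
  have hy0 : 0 ≤ y := by positivity
  have hy1 : y ≤ 1 := (div_le_one hS0).mpr h3
  have hr0 : 0 ≤ r := by linarith
  have ha : x0 ^ 2 ≤ 7 / 6 := by linarith
  have h4 : |1 - x0 ^ 2 - (1 - y)| ≤ |hh x0 x1 x2| / 3 := by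
    have e : 1 - x0 ^ 2 - (1 - y) = y * (hh x0 x1 x2 / 3) := by
      unfold hh
      rw [← hS]
      linarith
    rw [e, abs_mul, abs_of_nonneg hy0, abs_div, abs_of_pos (by norm_num : (0 : ℝ) < 3)]
    exact mul_le_of_le_one_left (by positivity) hy1
  have h5 : |x0 * (x2 - x1)| ≤ 3 * √r := by
    apply abs_le_of_sq_le_sq _ (by positivity)
    rw [mul_pow, mul_pow, Real.sq_sqrt hr0, hd]
    have c1 : 2 * S - 3 * x0 ^ 2 ≤ 7 / 2 * r := by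
      calc 2 * S - 3 * x0 ^ 2 = 2 * S * (1 - y) := by linarith
        _ ≤ 7 / 2 * r := mul_le_mul (by linarith) hr (by linarith) (by norm_num)
    calc x0 ^ 2 * (2 * S - 3 * x0 ^ 2) ≤ 7 / 6 * (7 / 2 * r) :=
          mul_le_mul ha c1 (by linarith) (by norm_num)
      _ ≤ 3 ^ 2 * r := by linarith
  have h6 := abs_le.mp h4
  have h7 := abs_le.mp h5
  have h8 := abs_nonneg (hh x0 x1 x2)
  have e1 : 1 + 2 * x0 * x2 = 1 - x0 ^ 2 + x0 * (x2 - x1) := by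
    rw [hx0]
    ring
  have e2 : 1 + 2 * x0 * x1 = 1 - x0 ^ 2 - x0 * (x2 - x1) := by
    rw [hx0]
    ring
  refine ⟨ha, by nlinarith [sq_nonneg x2], by nlinarith [sq_nonneg x1], h4, ?_, ?_⟩
  · rw [e1, abs_le]
    constructor <;> linarith [h6.1, h6.2, h7.1, h7.2]
  · rw [e2, abs_le]
    constructor <;> linarith [h6.1, h6.2, h7.1, h7.2]

end Pool.Agent.Lib.MP_a52643_an.H6C
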