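import Pool.Agent.Lib.MP_a52643_an.H6CNu

open MeasureTheory Set Filter Topology Metric UpperHalfPlane
open scoped ENNReal NNReal ContDiff Laplacian MatrixGroups Real

noncomputable section

namespace Pool.Agent.Lib.MP_a52643_an.H6C

lemma ea_neg_zas (g : SL2) : ea (-g) = -ea g := by simp [ea]
lemma eb_neg_zas (g : SL2) : eb (-g) = -eb g := by simp [eb]
lemma ec_neg_zas (g : SL2) : ec (-g) = -ec g := by simp [ec]
lemma ed_neg_zas (g : SL2) : ed (-g) = -ed g := by simp [ed]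

lemma nu_at_zas (g s : SL2) : nu g (s • I) = nu (s⁻¹ * g * s) I := by
  have := nu_conj s (s⁻¹ * g * s) I
  rw [← this]
  congr 1
  group

/-- Squared Frobenius norm. -/
def fr_zas (M : Matrix (Fin 2) (Fin 2) ℝ) : ℝ := M 0 0 ^ 2 + M 0 1 ^ 2 + M 1 0 ^ 2 + M 1 1 ^ 2

lemma fr_nonneg_zas (M : Matrix (Fin 2) (Fin 2) ℝ) : 0 ≤ fr_zas M := by
  unfold fr_zas; positivity

lemma fr_mul_zas (M N : Matrix (Fin 2) (Fin 2) ℝ) : fr_zas (M * N) ≤ fr_zas M * fr_zas N := by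
  simp only [fr_zas, Matrix.mul_apply, Fin.sum_univ_two]
  nlinarith [sq_nonneg (M 0 0 * N 1 0 - M 0 1 * N 0 0), sq_nonneg (M 0 0 * N 1 1 - M 0 1 * N 0 1),
    sq_nonneg (M 1 0 * N 1 0 - M 1 1 * N 0 0), sq_nonneg (M 1 0 * N 1 1 - M 1 1 * N 0 1)]

lemma fr_sub_zas (M N : Matrix (Fin 2) (Fin 2) ℝ) :
    fr_zas (M - N) ≤ 2 * fr_zas M + 2 * fr_zas N := by
  simp only [fr_zas, Matrix.sub_apply]
  nlinarith [sq_nonneg (M 0 0 + N 0 0), sq_nonneg (M 0 1 + N 0 1), sq_nonneg (M 1 0 + N 1 0),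
    sq_nonneg (M 1 1 + N 1 1)]

lemma fr_one_zas (g : SL2) : fr_zas ((g : Matrix (Fin 2) (Fin 2) ℝ) - 1) =
    (ea g - 1) ^ 2 + eb g ^ 2 + ec g ^ 2 + (ed g - 1) ^ 2 := by
  simp [fr_zas, ea, eb, ec, ed]

lemma fr_coe_zas (g : SL2) : fr_zas (g : Matrix (Fin 2) (Fin 2) ℝ) =
    ea g ^ 2 + eb g ^ 2 + ec g ^ 2 + ed g ^ 2 := rfl

lemma nu_le_fr_zas (g : SL2) : nu g I ≤ fr_zas ((g : Matrix (Fin 2) (Fin 2) ℝ) - 1) := by
  rw [nu_I, fr_one_zas]
  nlinarith [le_abs_self (ea g + ed g)]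

lemma nu_eq_fr_zas {g : SL2} (h : 0 ≤ ea g + ed g) :
    nu g I = fr_zas ((g : Matrix (Fin 2) (Fin 2) ℝ) - 1) := by
  rw [nu_I, fr_one_zas, abs_of_nonneg h]; ring

lemma fr_inv_zas {g : SL2} (h : fr_zas ((g : Matrix (Fin 2) (Fin 2) ℝ) - 1) ≤ 1 / 100) :
    fr_zas ((g⁻¹ : SL2) : Matrix (Fin 2) (Fin 2) ℝ) ≤ 3 := by
  rw [fr_coe_zas, ea_inv, eb_inv, ec_inv, ed_inv]
  rw [fr_one_zas] at h
  nlinarith [sq_nonneg (ea g - 1 - 1 / 10), sq_nonneg (ed g - 1 - 1 / 10), sq_nonneg (eb g),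
    sq_nonneg (ec g)]

lemma comm_fr_zas {a b : SL2} (ha : fr_zas ((a : Matrix (Fin 2) (Fin 2) ℝ) - 1) ≤ 1 / 100)
    (hb : fr_zas ((b : Matrix (Fin 2) (Fin 2) ℝ) - 1) ≤ 1 / 100) :
    fr_zas (((a * b * a⁻¹ * b⁻¹ : SL2) : Matrix (Fin 2) (Fin 2) ℝ) - 1) ≤
      fr_zas ((a : Matrix (Fin 2) (Fin 2) ℝ) - 1) / 2 := by
  set A : Matrix (Fin 2) (Fin 2) ℝ := (a : Matrix (Fin 2) (Fin 2) ℝ) - 1 with hA
  set B : Matrix (Fin 2) (Fin 2) ℝ := (b : Matrix (Fin 2) (Fin 2) ℝ) - 1 with hB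
  have e1 : ((b * a * a⁻¹ * b⁻¹ : SL2) : Matrix (Fin 2) (Fin 2) ℝ) = 1 := by
    rw [show b * a * a⁻¹ * b⁻¹ = 1 by group]; rfl
  have e : ((a * b * a⁻¹ * b⁻¹ : SL2) : Matrix (Fin 2) (Fin 2) ℝ) - 1 =
      (A * B - B * A) * ((a⁻¹ : SL2) : Matrix (Fin 2) (Fin 2) ℝ) *
        ((b⁻¹ : SL2) : Matrix (Fin 2) (Fin 2) ℝ) := by
    rw [← e1]
    simp only [Matrix.SpecialLinearGroup.coe_mul, hA, hB]
    noncomm_ring
  have h1 := fr_inv_zas ha
  have h2 := fr_inv_zas hb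
  have hA0 := fr_nonneg_zas A
  have hB0 := fr_nonneg_zas B
  have h3 : fr_zas (A * B - B * A) ≤ 4 * (fr_zas A * fr_zas B) := by
    have := fr_sub_zas (A * B) (B * A)
    have := fr_mul_zas A B
    have := fr_mul_zas B A
    nlinarith
  have h4 : fr_zas A * fr_zas B ≤ fr_zas A / 100 := by nlinarith
  have hK := fr_nonneg_zas (A * B - B * A)
  have h5 := fr_mul_zas (A * B - B * A) ((a⁻¹ : SL2) : Matrix (Fin 2) (Fin 2) ℝ)
  have h6 := fr_mul_zas ((A * B - B * A) * ((a⁻¹ : SL2) : Matrix (Fin 2) (Fin 2) ℝ))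
    ((b⁻¹ : SL2) : Matrix (Fin 2) (Fin 2) ℝ)
  have h7 := fr_nonneg_zas ((A * B - B * A) * ((a⁻¹ : SL2) : Matrix (Fin 2) (Fin 2) ℝ))
  have h8 := mul_le_mul_of_nonneg_left h1 hK
  have h9 := mul_le_mul_of_nonneg_left h2 h7
  rw [e]
  linarith

lemma nu_comm_pos_zas {a b : SL2} (ta : 0 ≤ ea a + ed a) (tb : 0 ≤ ea b + ed b)
    (ha : nu a I ≤ 1 / 100) (hb : nu b I ≤ 1 / 100) :
    nu (a * b * a⁻¹ * b⁻¹) I ≤ nu a I / 2 ∧ a * b * a⁻¹ * b⁻¹ ≠ -1 := by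
  rw [nu_eq_fr_zas ta] at ha ⊢
  rw [nu_eq_fr_zas tb] at hb
  have h := comm_fr_zas ha hb
  refine ⟨(nu_le_fr_zas _).trans h, fun e => ?_⟩
  rw [e, fr_one_zas, ea_neg_zas, eb_neg_zas, ec_neg_zas, ed_neg_zas] at h
  simp only [ea_one, eb_one, ec_one, ed_one] at h
  linarith

lemma nu_comm_I_zas {a b : SL2} (ha : nu a I ≤ 1 / 100) (hb : nu b I ≤ 1 / 100) :
    nu (a * b * a⁻¹ * b⁻¹) I ≤ nu a I / 2 ∧ a * b * a⁻¹ * b⁻¹ ≠ -1 := by
  have key : ∀ g : SL2, ∃ g' : SL2, (g' = g ∨ g' = -g) ∧ 0 ≤ ea g' + ed g' := by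
    intro g
    rcases le_total 0 (ea g + ed g) with h | h
    · exact ⟨g, Or.inl rfl, h⟩
    · exact ⟨-g, Or.inr rfl, by rw [ea_neg_zas, ed_neg_zas]; linarith⟩
  obtain ⟨a', ha', ta⟩ := key a
  obtain ⟨b', hb', tb⟩ := key b
  have e1 : nu a' I = nu a I := by rcases ha' with rfl | rfl <;> simp only [nu_neg]
  have e2 : nu b' I = nu b I := by rcases hb' with rfl | rfl <;> simp only [nu_neg]
  have e3 : a' * b' * a'⁻¹ * b'⁻¹ = a * b * a⁻¹ * b⁻¹ := by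
    rcases ha' with rfl | rfl <;> rcases hb' with rfl | rfl <;> simp [inv_neg]
  have := nu_comm_pos_zas ta tb (e1 ▸ ha) (e2 ▸ hb)
  rwa [e3, e1] at this

/-- Zassenhaus: commutators of small elements are smaller. -/
theorem nu_comm {a b : SL2} {z : ℍ} (ha : nu a z ≤ 1 / 100) (hb : nu b z ≤ 1 / 100) :
    nu (a * b * a⁻¹ * b⁻¹) z ≤ nu a z / 2 ∧ a * b * a⁻¹ * b⁻¹ ≠ -1 := by
  obtain ⟨s, rfl⟩ : ∃ s : SL2, s • I = z := ⟨_, toSL2R_smul_I z⟩
  rw [nu_at_zas] at ha hb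
  have h := nu_comm_I_zas ha hb
  have e : s⁻¹ * a * s * (s⁻¹ * b * s) * (s⁻¹ * a * s)⁻¹ * (s⁻¹ * b * s)⁻¹ =
      s⁻¹ * (a * b * a⁻¹ * b⁻¹) * s := by group
  rw [e] at h
  rw [nu_at_zas, nu_at_zas a]
  refine ⟨h.1, fun e' => h.2 ?_⟩
  rw [e']; simp

lemma tl_pos_zas {a : SL2} (ha : ¬pm a) : 0 < (ea a - ed a) ^ 2 / 2 + eb a ^ 2 + ec a ^ 2 := by
  by_contra h
  have h1 : ea a - ed a = 0 := by
    nlinarith [sq_nonneg (ea a - ed a), sq_nonneg (eb a), sq_nonneg (ec a)]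
  have h2 : eb a = 0 := by
    nlinarith [sq_nonneg (ea a - ed a), sq_nonneg (eb a), sq_nonneg (ec a)]
  have h3 : ec a = 0 := by
    nlinarith [sq_nonneg (ea a - ed a), sq_nonneg (eb a), sq_nonneg (ec a)]
  have hd := det_eq a
  have h4 : (ea a - 1) * (ea a + 1) = 0 := by
    have : ed a = ea a := by linarith
    rw [this, h2] at hd; linarith
  apply ha
  rcases mul_eq_zero.1 h4 with h5 | h5
  · exact Or.inl (SL2_ext (by simp; linarith) (by simpa using h2) (by simpa using h3)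
      (by simp; linarith))
  · exact Or.inr (SL2_ext (by rw [ea_neg_zas, ea_one]; linarith)
      (by rw [eb_neg_zas, eb_one, h2]; simp) (by rw [ec_neg_zas, ec_one, h3]; simp)
      (by rw [ed_neg_zas, ed_one]; linarith))

/-- `g = α + β a`. -/
def Rel_zas (α β : ℝ) (g a : SL2) : Prop :=
  ea g = α + β * ea a ∧ eb g = β * eb a ∧ ec g = β * ec a ∧ ed g = α + β * ed a

lemma rel_of_comm_zas {a g : SL2} (ha : ¬pm a) (h : g * a = a * g) : ∃ α β, Rel_zas α β g a := by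
  have hN := tl_pos_zas ha
  have e1 := congrArg ea h
  have e2 := congrArg eb h
  have e3 := congrArg ec h
  simp only [ea_mul, eb_mul, ec_mul] at e1 e2 e3
  set N := (ea a - ed a) ^ 2 / 2 + eb a ^ 2 + ec a ^ 2 with hNdef
  set β := ((ea g - ed g) * (ea a - ed a) / 2 + eb g * eb a + ec g * ec a) / N with hβ
  have hβ' : β * N = (ea g - ed g) * (ea a - ed a) / 2 + eb g * eb a + ec g * ec a := by
    rw [hβ]; field_simp
  have f1 : ea g - ed g = β * (ea a - ed a) := by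
    apply mul_right_cancel₀ hN.ne'
    rw [show β * (ea a - ed a) * N = β * N * (ea a - ed a) by ring, hβ', hNdef]
    linear_combination eb a * e2 - ec a * e3
  have f2 : eb g = β * eb a := by
    apply mul_right_cancel₀ hN.ne'
    rw [show β * eb a * N = β * N * eb a by ring, hβ', hNdef]
    linear_combination ec a * e1 - (ea a - ed a) / 2 * e2
  have f3 : ec g = β * ec a := by
    apply mul_right_cancel₀ hN.ne'
    rw [show β * ec a * N = β * N * ec a by ring, hβ', hNdef]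
    linear_combination (-eb a) * e1 + (ea a - ed a) / 2 * e3
  exact ⟨ea g - β * ea a, β, by ring, f2, f3, by linarith⟩

theorem comm_trans {a b c : SL2} (ha : ¬pm a) (h1 : b * a = a * b) (h2 : c * a = a * c) :
    b * c = c * b := by
  obtain ⟨α, β, b1, b2, b3, b4⟩ := rel_of_comm_zas ha h1
  obtain ⟨γ, δ, c1, c2, c3, c4⟩ := rel_of_comm_zas ha h2
  apply SL2_ext <;> simp only [ea_mul, eb_mul, ec_mul, ed_mul, b1, b2, b3, b4, c1, c2, c3, c4] <;>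
    ring

lemma rel_conj_zas {α β : ℝ} {g a : SL2} (h : Rel_zas α β g a) (s : SL2) :
    Rel_zas α β (s⁻¹ * g * s) (s⁻¹ * a * s) := by
  obtain ⟨b1, b2, b3, b4⟩ := h
  have hd := det_eq s
  refine ⟨?_, ?_, ?_, ?_⟩ <;>
    simp only [ea_mul, eb_mul, ec_mul, ed_mul, ea_inv, eb_inv, ec_inv, ed_inv, b1, b2, b3, b4]
  · linear_combination α * hd
  · ring
  · ring
  · linear_combination α * hd

lemma tr_conj_zas (g s : SL2) : ea (s⁻¹ * g * s) + ed (s⁻¹ * g * s) = ea g + ed g := by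
  have hd := det_eq s
  simp only [ea_mul, eb_mul, ec_mul, ed_mul, ea_inv, eb_inv, ec_inv, ed_inv]
  linear_combination (ea g + ed g) * hd

lemma nu_split_zas (g : SL2) : nu g I = (|ea g + ed g| - 2) ^ 2 / 2 +
    ((ea g - ed g) ^ 2 / 2 + eb g ^ 2 + ec g ^ 2) := by
  rw [nu_I]
  have := sq_abs (ea g + ed g)
  linear_combination (-1 / 2 : ℝ) * this

lemma nu_rel_zas {α β : ℝ} {g a : SL2} (ha : ¬pm a) (h : Rel_zas α β g a) (w : ℍ) :
    ∃ N : ℝ, 0 < N ∧ nu a w = (|ea a + ed a| - 2) ^ 2 / 2 + N ∧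
      nu g w = (|ea g + ed g| - 2) ^ 2 / 2 + β ^ 2 * N := by
  obtain ⟨s, rfl⟩ : ∃ s : SL2, s • I = w := ⟨_, toSL2R_smul_I w⟩
  have ha' : ¬pm (s⁻¹ * a * s) := by
    have := pm_conj s⁻¹ a
    rw [inv_inv] at this
    exact fun h => ha (this.1 h)
  refine ⟨_, tl_pos_zas ha', ?_, ?_⟩
  · rw [nu_at_zas, nu_split_zas, tr_conj_zas]
  · obtain ⟨b1, b2, b3, b4⟩ := rel_conj_zas h s
    rw [nu_at_zas, nu_split_zas, tr_conj_zas, b1, b2, b3, b4]
    ring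

lemma sq_le_zas {T U γ : ℝ} (hT : 0 ≤ T) (hU : 0 ≤ U) (h : U ^ 2 - 4 = γ * (T ^ 2 - 4))
    (h0 : 0 ≤ γ) (h1 : γ ≤ 1) : (U - 2) ^ 2 ≤ (T - 2) ^ 2 := by
  rcases le_total 2 T with h2 | h2
  · have a1 : 0 ≤ T ^ 2 - 4 := by nlinarith
    have a2 : 2 ≤ U := by
      by_contra hc
      have := mul_nonneg h0 a1
      nlinarith
    have a3 : U ≤ T := by
      by_contra hc
      have := mul_le_mul_of_nonneg_right h1 a1
      nlinarith
    nlinarith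
  · have a1 : 0 ≤ 4 - T ^ 2 := by nlinarith
    have a2 : U ≤ 2 := by
      by_contra hc
      have := mul_nonneg h0 a1
      nlinarith
    have a3 : T ≤ U := by
      by_contra hc
      have := mul_le_mul_of_nonneg_right h1 a1
      nlinarith
    nlinarith

lemma sq_ge_zas {T U γ : ℝ} (hT : 0 ≤ T) (hU : 0 ≤ U) (h : U ^ 2 - 4 = γ * (T ^ 2 - 4))
    (h1 : 1 ≤ γ) : (T - 2) ^ 2 ≤ (U - 2) ^ 2 := by
  have hγ : 0 < γ := by linarith
  refine sq_le_zas hU hT (γ := γ⁻¹) ?_ (inv_nonneg.2 hγ.le) (inv_le_one_of_one_le₀ h1)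
  rw [h]; field_simp

/-- In a centraliser the order given by `nu` does not depend on the base point. -/
theorem nu_mono {a g : SL2} (ha : ¬pm a) (h : g * a = a * g) {z : ℍ} (hz : nu a z ≤ nu g z)
    (w : ℍ) : nu a w ≤ nu g w := by
  obtain ⟨α, β, hr⟩ := rel_of_comm_zas ha h
  have hT : |ea g + ed g| ^ 2 - 4 = β ^ 2 * (|ea a + ed a| ^ 2 - 4) := by
    obtain ⟨b1, b2, b3, b4⟩ := hr
    have d1 := det_eq g
    have d2 := det_eq a
    rw [sq_abs, sq_abs]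
    rw [b1, b2, b3, b4] at d1
    rw [b1, b4]
    linear_combination 4 * d1 - 4 * β ^ 2 * d2
  obtain ⟨N, hN, n1, n2⟩ := nu_rel_zas ha hr z
  obtain ⟨M, hM, m1, m2⟩ := nu_rel_zas ha hr w
  have hβ : 1 ≤ β ^ 2 := by
    by_contra hc
    have hc' : β ^ 2 < 1 := not_le.1 hc
    have := sq_le_zas (abs_nonneg _) (abs_nonneg _) hT (sq_nonneg β) hc'.le
    have := mul_lt_mul_of_pos_right hc' hN
    linarith
  have := sq_ge_zas (abs_nonneg _) (abs_nonneg _) hT hβ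
  have := mul_le_mul_of_nonneg_right hβ hM.le
  linarith

lemma parab0_zas {p : SL2} (hp : ¬pm p) (ht : ea p + ed p = 2) (hb : 0 ≤ eb p) (hc : ec p ≤ 0) :
    ∃ s : SL2, s * TT 1 * s⁻¹ = p := by
  have hd := det_eq p
  have hN := tl_pos_zas hp
  have e4 : ed p = 2 - ea p := by linarith
  rw [e4] at hd hN
  obtain ⟨a, c, h1, h2, h3⟩ : ∃ a c : ℝ, a ^ 2 = eb p ∧ c ^ 2 = -ec p ∧ a * c = 1 - ea p := by
    have s1 := Real.sq_sqrt hb
    have s2 := Real.sq_sqrt (neg_nonneg.2 hc)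
    have s3 : (√(eb p) * √(-ec p)) ^ 2 = (1 - ea p) ^ 2 := by
      rw [mul_pow, s1, s2]; linear_combination hd
    rcases sq_eq_sq_iff_eq_or_eq_neg.1 s3 with h | h
    · exact ⟨_, _, s1, s2, h⟩
    · exact ⟨√(eb p), -√(-ec p), s1, by rw [neg_sq, s2], by linarith⟩
  have hn : 0 < a ^ 2 + c ^ 2 := by
    by_contra hh
    have a0 : a = 0 := by nlinarith [sq_nonneg a, sq_nonneg c]
    have c0 : c = 0 := by nlinarith [sq_nonneg a, sq_nonneg c]
    rw [a0] at h1 h3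
    rw [c0] at h2
    have u1 : eb p = 0 := by linarith
    have u2 : ec p = 0 := by linarith
    have u3 : ea p = 1 := by linarith
    rw [u1, u2, u3] at hN
    norm_num at hN
  have hdet : a * (a / (a ^ 2 + c ^ 2)) - -c / (a ^ 2 + c ^ 2) * c = 1 := by
    field_simp; ring
  refine ⟨mkG a (-c / (a ^ 2 + c ^ 2)) c (a / (a ^ 2 + c ^ 2)) hdet, ?_⟩
  apply SL2_ext <;>
    simp only [TT, ea_mul, eb_mul, ec_mul, ed_mul, ea_inv, eb_inv, ec_inv, ed_inv, ea_mkG, eb_mkG,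
      ec_mkG, ed_mkG]
  · linear_combination hdet - h3
  · linear_combination h1
  · linear_combination -h2
  · linear_combination hdet + h3 - e4

lemma pm_neg_zas {p : SL2} (hp : ¬pm p) : ¬pm (-p) := by
  rintro (h | h)
  · exact hp (Or.inr (neg_eq_iff_eq_neg.1 h))
  · exact hp (Or.inl (neg_injective h))

lemma pm_inv_zas {p : SL2} (hp : ¬pm p) : ¬pm p⁻¹ := by
  rintro (h | h)
  · exact hp (Or.inl (inv_eq_one.1 h))
  · refine hp (Or.inr ?_)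
    rw [← inv_inv p, h]; simp [inv_neg]

lemma parab1_zas {p : SL2} (hp : ¬pm p) (ht : ea p + ed p = 2) :
    ∃ s : SL2, s * TT 1 * s⁻¹ = p ∨ s * TT 1 * s⁻¹ = p⁻¹ := by
  have hd := det_eq p
  have e4 : ed p = 2 - ea p := by linarith
  rw [e4] at hd
  have hbc : eb p * ec p ≤ 0 := by nlinarith [sq_nonneg (1 - ea p)]
  by_cases h : 0 ≤ eb p ∧ ec p ≤ 0
  · obtain ⟨s, hs⟩ := parab0_zas hp ht h.1 h.2
    exact ⟨s, Or.inl hs⟩
  · have h' : eb p ≤ 0 ∧ 0 ≤ ec p := by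
      rcases not_and_or.1 h with h | h
      · refine ⟨(not_le.1 h).le, ?_⟩
        by_contra hc
        have := mul_pos_of_neg_of_neg (not_le.1 h) (not_le.1 hc)
        linarith
      · refine ⟨?_, (not_le.1 h).le⟩
        by_contra hc
        have := mul_pos (not_le.1 hc) (not_le.1 h)
        linarith
    obtain ⟨s, hs⟩ := parab0_zas (pm_inv_zas hp) (by rw [ea_inv, ed_inv]; linarith)
      (by rw [eb_inv]; linarith [h'.1]) (by rw [ec_inv]; linarith [h'.2])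
    exact ⟨s, Or.inr hs⟩

/-- Normal form of parabolic elements. -/
theorem parab {p : SL2} (hp : ¬pm p) (ht : |tr p| = 2) :
    ∃ s : SL2, s * TT 1 * s⁻¹ = p ∨ s * TT 1 * s⁻¹ = -p ∨ s * TT 1 * s⁻¹ = p⁻¹ ∨
      s * TT 1 * s⁻¹ = -p⁻¹ := by
  unfold tr at ht
  rcases (abs_eq (by norm_num : (0 : ℝ) ≤ 2)).1 ht with h | h
  · obtain ⟨s, hs | hs⟩ := parab1_zas hp h
    · exact ⟨s, Or.inl hs⟩
    · exact ⟨s, Or.inr (Or.inr (Or.inl hs))⟩
  · obtain ⟨s, hs | hs⟩ := parab1_zas (pm_neg_zas hp) (by rw [ea_neg_zas, ed_neg_zas]; linarith)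
    · exact ⟨s, Or.inr (Or.inl hs)⟩
    · exact ⟨s, Or.inr (Or.inr (Or.inr (by rw [hs, inv_neg])))⟩

lemma upper_zas {h : SL2} (hc : ec h = 0) (hd : ed h ^ 2 = 1) :
    ∃ β : ℝ, h = TT β ∨ h = -TT β := by
  have e := det_eq h
  rw [hc] at e
  rcases sq_eq_one_iff.1 hd with h1 | h1
  · refine ⟨eb h, Or.inl (SL2_ext ?_ rfl hc h1)⟩
    rw [h1] at e
    simp only [TT, ea_mkG]; linarith
  · refine ⟨-eb h, Or.inr (SL2_ext ?_ ?_ ?_ ?_)⟩
    · rw [h1] at e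
      simp only [TT, ea_neg_zas, ea_mkG]; linarith
    · simp only [TT, eb_neg_zas, eb_mkG, neg_neg]
    · simp only [TT, ec_neg_zas, ec_mkG, neg_zero, hc]
    · simp only [TT, ed_neg_zas, ed_mkG, h1]

theorem cent_TT {h : SL2} (hh' : h * TT 1 = TT 1 * h) : ∃ β : ℝ, h = TT β ∨ h = -TT β := by
  have e1 := congrArg ea hh'
  have e2 := congrArg eb hh'
  have e := det_eq h
  simp only [TT, ea_mul, eb_mul, ea_mkG, eb_mkG, ec_mkG, ed_mkG] at e1 e2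
  have hc : ec h = 0 := by linarith
  have ha : ea h = ed h := by linarith
  refine upper_zas hc ?_
  rw [hc, ha] at e
  linarith

theorem conj_TT {h : SL2} {β : ℝ} (h1 : h⁻¹ * TT 1 * h = TT β ∨ h⁻¹ * TT 1 * h = -TT β)
    (h2 : β ^ 2 = 1) : ∃ α : ℝ, h = TT α ∨ h = -TT α := by
  have e := det_eq h
  rcases h1 with h1 | h1
  · have e2 := congrArg eb h1
    have e3 := congrArg ec h1
    simp only [TT, eb_mul, ec_mul, ea_mul, ed_mul, ea_inv, eb_inv, ec_inv, ed_inv, ea_mkG, eb_mkG,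
      ec_mkG, ed_mkG] at e2 e3
    have hc : ec h = 0 := by
      have : ec h ^ 2 = 0 := by linear_combination -e3
      exact pow_eq_zero_iff two_ne_zero |>.1 this
    have hb : ed h ^ 2 = β := by linear_combination e2
    refine upper_zas hc ?_
    have : (β - 1) * (β + 1) = 0 := by linear_combination h2
    rcases mul_eq_zero.1 this with h3 | h3
    · linarith
    · nlinarith [sq_nonneg (ed h)]
  · have e1 := congrArg ea h1
    have e3 := congrArg ec h1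
    simp only [TT, ea_neg_zas, ec_neg_zas, eb_mul, ec_mul, ea_mul, ed_mul, ea_inv, eb_inv, ec_inv,
      ed_inv, ea_mkG, eb_mkG, ec_mkG, ed_mkG] at e1 e3
    have hc : ec h = 0 := by
      have : ec h ^ 2 = 0 := by linear_combination -e3
      exact pow_eq_zero_iff two_ne_zero |>.1 this
    rw [hc] at e e1
    exfalso
    linarith

end Pool.Agent.Lib.MP_a52643_an.H6C
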