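import Pool.Agent.Lib.MP_a52643_an.Measure

/-!
Local fourth power bounds propagate along the ladder.
-/

open Complex MeasureTheory Set Filter Topology
open scoped ComplexConjugate ContDiff ENNReal

noncomputable section

namespace Pool.Agent.Lib.MP_a52643_an

structure HasE (F : V → ℂ) (v : V) (a b : ℂ) : Prop where
  diff : DifferentiableAt ℝ F v
  ep : Ep F v = a
  em : Em F v = b

lemma HasE.mul {F G : V → ℂ} {v : V} {a b c d : ℂ} (h : HasE F v a b) (h' : HasE G v c d) :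
    HasE (fun w => F w * G w) v (a * G v + F v * c) (b * G v + F v * d) :=
  ⟨h.diff.mul h'.diff, by rw [Ep_mul h.diff h'.diff, h.ep, h'.ep],
    by rw [Em_mul h.diff h'.diff, h.em, h'.em]⟩

lemma HasE.conj {F : V → ℂ} {v : V} {a b : ℂ} (h : HasE F v a b) :
    HasE (fun w => conj (F w)) v (conj b) (conj a) :=
  ⟨differentiableAt_conj' h.diff, by rw [Ep_conj, h.em], by rw [Em_conj, h.ep]⟩

lemma HasE.of_diff {F : V → ℂ} {v : V} (h : DifferentiableAt ℝ F v) :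
    HasE F v (Ep F v) (Em F v) := ⟨h, rfl, rfl⟩

lemma Ladder.hasE {lam : ℝ} {Φ : ℤ → V → ℂ} (h : Ladder lam Φ) (n : ℤ) {v : V} (hv : v ∈ Om) :
    HasE (Φ n) v (I * al lam n * Φ (n + 1) v) (I * al lam (n - 1) * Φ (n - 1) v) := by
  refine ⟨diffAt_of_Om (h.smooth n) one_ne_zero hv, h.up n v hv, ?_⟩
  have := h.down (n - 1) v hv
  rwa [sub_add_cancel] at this

lemma Ladder.cont {lam : ℝ} {Φ : ℤ → V → ℂ} (h : Ladder lam Φ) (n : ℤ) :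
    ContinuousOn (Φ n) Om := (h.smooth n).continuousOn

lemma Ladder.norm_neg {lam : ℝ} {Φ : ℤ → V → ℂ} (h : Ladder lam Φ) (n : ℤ) (v : V) :
    ‖Φ (-n) v‖ = ‖Φ n v‖ := by
  have := congrArg norm (h.cnj n v)
  simpa using this.symm

lemma le_of_ibp {H : V → ℂ} {g h : V → ℝ} (hH : Integrable H mV) (h0 : ∫ v, H v ∂mV = 0)
    (hg : Integrable g mV) (hh : Integrable h mV)
    (hp : ∀ v ∈ slab, g v ≤ (H v).im + h v) : ∫ v, g v ∂mV ≤ ∫ v, h v ∂mV := by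
  have h1 : Integrable (fun v => (H v).im) mV := hH.im
  have h2 : ∫ v, (H v).im ∂mV = 0 := by
    have := integral_im hH
    simp only [RCLike.im_to_complex] at this
    rw [this, h0]; simp
  calc ∫ v, g v ∂mV ≤ ∫ v, ((H v).im + h v) ∂mV :=
        integral_mono_ae hg (h1.add hh) (ae_slab.mono hp)
    _ = _ := by rw [integral_add h1 hh, h2, zero_add]

lemma mul_conj_sq (x : ℂ) : x * conj x = ((‖x‖ ^ 2 : ℝ) : ℂ) := by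
  rw [mul_conj, normSq_eq_norm_sq]

lemma im_le_norm' (x : ℂ) : x.im ≤ ‖x‖ := (le_abs_self _).trans (abs_im_le_norm x)

lemma neg_im_le_norm (x : ℂ) : -x.im ≤ ‖x‖ := (neg_le_abs _).trans (abs_im_le_norm x)

/-- a smooth cut-off with bounded derivatives -/
structure Cut (ζ : V → ℝ) (R Z : ℝ) : Prop where
  smooth : ContDiff ℝ 1 ζ
  nonneg : ∀ v, 0 ≤ ζ v
  le_one : ∀ v, ζ v ≤ 1
  zero : ∀ v, R < ‖v‖ → ζ v = 0
  ep : ∀ v ∈ slab, ‖Ep (fun w => (ζ w : ℂ)) v‖ ≤ Z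
  em : ∀ v ∈ slab, ‖Em (fun w => (ζ w : ℂ)) v‖ ≤ Z

lemma exists_cut {R : ℝ} (hR : 0 < R) :
    ∃ ζ Z, Cut ζ (R + 1) Z ∧ ∀ v, ‖v‖ ≤ R → ζ v = 1 := by
  let b : ContDiffBump (0 : V) := ⟨R, R + 1, hR, by linarith⟩
  have hs : ContDiff ℝ 1 b := b.contDiff
  have hz : ∀ v, R + 1 < ‖v‖ → b v = 0 := fun v hv => b.zero_of_le_dist (by simpa using hv.le)
  have hc : ContDiffOn ℝ 1 (fun w => (b w : ℂ)) Om := (ofRealCLM.contDiff.comp hs).contDiffOn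
  have hcs : CS fun w => (b w : ℂ) := ⟨R + 1, fun v _ h => by simp [hz v h]⟩
  obtain ⟨_, C1, -, -, h1⟩ := hcs.Ep.exists_bound (continuousOn_Ep hc)
  obtain ⟨_, C2, -, -, h2⟩ := hcs.Em.exists_bound (continuousOn_Em hc)
  refine ⟨b, max C1 C2, ⟨hs, fun v => b.nonneg, fun v => b.le_one, hz,
    fun v hv => (h1 v hv).trans (le_max_left _ _),
    fun v hv => (h2 v hv).trans (le_max_right _ _)⟩, fun v hv => ?_⟩
  exact b.one_of_mem_closedBall (by simpa using hv)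

lemma Cut.cdo {ζ : V → ℝ} {R Z : ℝ} (h : Cut ζ R Z) : ContDiffOn ℝ 1 (fun w => (ζ w : ℂ)) Om :=
  (ofRealCLM.contDiff.comp h.smooth).contDiffOn

lemma Cut.cs {ζ : V → ℝ} {R Z : ℝ} (h : Cut ζ R Z) : CS ζ := ⟨R, fun v _ hv => h.zero v hv⟩

lemma Cut.csc {ζ : V → ℝ} {R Z : ℝ} (h : Cut ζ R Z) : CS fun w => (ζ w : ℂ) :=
  ⟨R, fun v _ hv => by simp [h.zero v hv]⟩

lemma Cut.hasE {ζ : V → ℝ} {R Z : ℝ} (h : Cut ζ R Z) {v : V} (hv : v ∈ Om) :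
    HasE (fun w => (ζ w : ℂ)) v (Ep (fun w => (ζ w : ℂ)) v) (Em (fun w => (ζ w : ℂ)) v) :=
  HasE.of_diff (diffAt_of_Om h.cdo one_ne_zero hv)

lemma Cut.le_ind {ζ : V → ℝ} {R Z : ℝ} (h : Cut ζ R Z) {v : V} (hv : v ∈ slab) :
    ζ v = 0 ∨ (KB R).indicator (fun _ => (1 : ℝ)) v = 1 := by
  by_cases h' : R < ‖v‖
  · exact Or.inl (h.zero v h')
  · right
    rw [indicator_of_mem]
    exact ⟨by simpa using h', slab_subset_cslab hv⟩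

lemma integrable_ind_mul {F : V → ℝ} (hF : ContinuousOn F Om) (R : ℝ) :
    Integrable (fun v => (KB R).indicator (fun _ => (1 : ℝ)) v * F v) mV := by
  have := (integrable_indicator_iff (measurableSet_KB R)).2 (integrableOn_KB hF R)
  refine this.congr (Eventually.of_forall fun v => ?_)
  by_cases h : v ∈ KB R <;> simp [h]

lemma integral_ind_mul (F : V → ℝ) (R : ℝ) :
    ∫ v, (KB R).indicator (fun _ => (1 : ℝ)) v * F v ∂mV = ∫ v in KB R, F v ∂mV := by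
  rw [← integral_indicator (measurableSet_KB R)]
  congr 1; ext v
  by_cases h : v ∈ KB R <;> simp [h]

lemma pt1 (x y w e : ℂ) (z Z α β : ℝ) (hz0 : 0 ≤ z) (hz1 : z ≤ 1) (he : ‖e‖ ≤ Z) (hα : 0 ≤ α)
    (hβ : 0 ≤ β) :
    β * (z ^ 2 * ‖x‖ ^ 4) ≤ (-(2 * z * e * (x * x * conj x * conj w) + z ^ 2 * (I *
      (2 * β * (‖x‖ ^ 2 * ‖w‖ ^ 2 : ℝ) - α * (x * x * conj y * conj w) - β * (‖x‖ ^ 4 : ℝ))))).im
      + (2 * β * (‖x‖ ^ 2 * ‖w‖ ^ 2) + α / 2 * (z ^ 4 * (‖x‖ ^ 2 * ‖y‖ ^ 2) + ‖x‖ ^ 2 * ‖w‖ ^ 2)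
        + Z * (z ^ 2 * ‖x‖ ^ 4 + ‖x‖ ^ 2 * ‖w‖ ^ 2)) := by
  set P := 2 * z * e * (x * x * conj x * conj w) with hP
  set M := x * x * conj y * conj w with hM
  have e1 : (-(P + z ^ 2 * (I * (2 * β * (‖x‖ ^ 2 * ‖w‖ ^ 2 : ℝ) - α * M
      - β * (‖x‖ ^ 4 : ℝ))))).im
      = -P.im - z ^ 2 * (2 * β * (‖x‖ ^ 2 * ‖w‖ ^ 2) - α * M.re - β * ‖x‖ ^ 4) := by
    rw [← ofReal_pow]
    simp only [neg_im, add_im, mul_im, mul_re, sub_re, sub_im, ofReal_re, ofReal_im, I_re, I_im,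
      re_ofNat, im_ofNat]
    ring
  have hPn : ‖P‖ ≤ 2 * z * Z * (‖x‖ ^ 3 * ‖w‖) := by
    rw [hP]
    simp only [norm_mul, Complex.norm_real, Complex.norm_ofNat, RCLike.norm_conj,
      Real.norm_of_nonneg hz0]
    have : 0 ≤ 2 * z * (‖x‖ ^ 3 * ‖w‖) := by positivity
    nlinarith
  have hMn : ‖M‖ = ‖x‖ ^ 2 * ‖y‖ * ‖w‖ := by
    rw [hM]; simp only [norm_mul, RCLike.norm_conj]; ring
  have h1 := im_le_norm' P
  have h2 : -M.re ≤ ‖M‖ := (neg_le_abs _).trans (abs_re_le_norm M)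
  have hZ : 0 ≤ Z := (norm_nonneg _).trans he
  rw [e1]
  set a := ‖x‖
  set b := ‖y‖
  set c := ‖w‖
  have ha : 0 ≤ a := norm_nonneg _
  have h3 : 2 * z * (a ^ 3 * c) ≤ z ^ 2 * a ^ 4 + a ^ 2 * c ^ 2 := by
    nlinarith [sq_nonneg (z * a ^ 2 - a * c)]
  have h4 : z ^ 2 * (a ^ 2 * b * c) ≤ (z ^ 4 * (a ^ 2 * b ^ 2) + a ^ 2 * c ^ 2) / 2 := by
    nlinarith [sq_nonneg (z ^ 2 * a * b - a * c)]
  have h5 : z ^ 2 * (a ^ 2 * c ^ 2) ≤ a ^ 2 * c ^ 2 := by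
    have : z ^ 2 ≤ 1 := by nlinarith
    have : 0 ≤ a ^ 2 * c ^ 2 := by positivity
    nlinarith
  have h6 : z ^ 2 * (-M.re) ≤ z ^ 2 * (a ^ 2 * b * c) := by
    rw [← hMn]; exact mul_le_mul_of_nonneg_left h2 (by positivity)
  nlinarith [mul_le_mul_of_nonneg_left h3 hZ, mul_le_mul_of_nonneg_left (h6.trans h4) hα,
    mul_le_mul_of_nonneg_left h5 hβ]

lemma pt2 (x y w e e' : ℂ) (z Z α β : ℝ) (hz0 : 0 ≤ z) (hz1 : z ≤ 1) (he : ‖e‖ ≤ Z)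
    (he' : ‖e'‖ ≤ Z) (hβ : 0 ≤ β) :
    2 * α * (z ^ 4 * (‖x‖ ^ 2 * ‖y‖ ^ 2)) ≤ (4 * z ^ 3 * e * (x * x * conj x * conj y)
      - 4 * z ^ 3 * e' * (x * x * conj x * conj w) + z ^ 4 * (I *
      (2 * α * (‖x‖ ^ 2 * ‖y‖ ^ 2 : ℝ) - 2 * β * (‖x‖ ^ 2 * ‖w‖ ^ 2 : ℝ)
        + (α - β) * (x * x * conj y * conj w) - (α - β) * (‖x‖ ^ 4 : ℝ)))).im
      + (2 * β * (‖x‖ ^ 2 * ‖w‖ ^ 2)
        + |α - β| * ((z ^ 4 * (‖x‖ ^ 2 * ‖y‖ ^ 2) + ‖x‖ ^ 2 * ‖w‖ ^ 2) / 2 + z ^ 2 * ‖x‖ ^ 4)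
        + 2 * Z * (2 * (z ^ 2 * ‖x‖ ^ 4) + z ^ 4 * (‖x‖ ^ 2 * ‖y‖ ^ 2) + ‖x‖ ^ 2 * ‖w‖ ^ 2)) := by
  set P := 4 * z ^ 3 * e * (x * x * conj x * conj y) with hP
  set P' := 4 * z ^ 3 * e' * (x * x * conj x * conj w) with hP'
  set M := x * x * conj y * conj w with hM
  have e1 : (P - P' + z ^ 4 * (I * (2 * α * (‖x‖ ^ 2 * ‖y‖ ^ 2 : ℝ)
      - 2 * β * (‖x‖ ^ 2 * ‖w‖ ^ 2 : ℝ) + (α - β) * M - (α - β) * (‖x‖ ^ 4 : ℝ)))).im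
      = P.im - P'.im + z ^ 4 * (2 * α * (‖x‖ ^ 2 * ‖y‖ ^ 2) - 2 * β * (‖x‖ ^ 2 * ‖w‖ ^ 2)
        + (α - β) * M.re - (α - β) * ‖x‖ ^ 4) := by
    rw [← ofReal_pow]
    simp only [add_im, mul_im, mul_re, sub_re, sub_im, add_re, ofReal_re, ofReal_im, I_re, I_im,
      re_ofNat, im_ofNat]
    ring
  have hPn : ‖P‖ ≤ 4 * z ^ 3 * Z * (‖x‖ ^ 3 * ‖y‖) := by
    rw [hP]
    simp only [norm_mul, Complex.norm_real, Complex.norm_ofNat, RCLike.norm_conj, norm_pow,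
      Real.norm_of_nonneg hz0]
    have : 0 ≤ 4 * z ^ 3 * (‖x‖ ^ 3 * ‖y‖) := by positivity
    nlinarith
  have hPn' : ‖P'‖ ≤ 4 * z ^ 3 * Z * (‖x‖ ^ 3 * ‖w‖) := by
    rw [hP']
    simp only [norm_mul, Complex.norm_real, Complex.norm_ofNat, RCLike.norm_conj, norm_pow,
      Real.norm_of_nonneg hz0]
    have : 0 ≤ 4 * z ^ 3 * (‖x‖ ^ 3 * ‖w‖) := by positivity
    nlinarith
  have hMn : ‖M‖ = ‖x‖ ^ 2 * ‖y‖ * ‖w‖ := by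
    rw [hM]; simp only [norm_mul, RCLike.norm_conj]; ring
  have h1 := neg_im_le_norm P
  have h1' := im_le_norm' P'
  have h2 : |M.re| ≤ ‖M‖ := abs_re_le_norm M
  have hZ : 0 ≤ Z := (norm_nonneg _).trans he
  rw [e1]
  set a := ‖x‖
  set b := ‖y‖
  set c := ‖w‖
  have ha : 0 ≤ a := norm_nonneg _
  have hb : 0 ≤ b := norm_nonneg _
  have hc : 0 ≤ c := norm_nonneg _
  have z2 : z ^ 2 ≤ 1 := by nlinarith
  have z4 : z ^ 4 ≤ z ^ 2 := by nlinarith [sq_nonneg z]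
  have z3 : z ^ 3 ≤ z := by nlinarith
  have h3 : 2 * z ^ 3 * (a ^ 3 * c) ≤ z ^ 2 * a ^ 4 + a ^ 2 * c ^ 2 := by
    have : 0 ≤ a ^ 3 * c := by positivity
    nlinarith [sq_nonneg (z * a ^ 2 - a * c)]
  have h3' : 2 * z ^ 3 * (a ^ 3 * b) ≤ z ^ 2 * a ^ 4 + z ^ 4 * (a ^ 2 * b ^ 2) := by
    nlinarith [sq_nonneg (z * a ^ 2 - z ^ 2 * a * b)]
  have h4 : z ^ 4 * (a ^ 2 * b * c) ≤ (z ^ 4 * (a ^ 2 * b ^ 2) + a ^ 2 * c ^ 2) / 2 := by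
    have : 0 ≤ a ^ 2 * b * c := by positivity
    nlinarith [sq_nonneg (z ^ 2 * a * b - a * c)]
  have h5 : z ^ 4 * (a ^ 2 * c ^ 2) ≤ a ^ 2 * c ^ 2 := by
    have : 0 ≤ a ^ 2 * c ^ 2 := by positivity
    nlinarith
  have h6 : -((α - β) * M.re) ≤ |α - β| * (a ^ 2 * b * c) := by
    rw [← hMn]
    calc -((α - β) * M.re) ≤ |(α - β) * M.re| := neg_le_abs _
      _ = |α - β| * |M.re| := abs_mul _ _
      _ ≤ _ := mul_le_mul_of_nonneg_left h2 (abs_nonneg _)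
  have h7 : z ^ 4 * ((α - β) * a ^ 4) ≤ |α - β| * (z ^ 2 * a ^ 4) := by
    have h8 : z ^ 4 * a ^ 4 ≤ z ^ 2 * a ^ 4 := mul_le_mul_of_nonneg_right z4 (by positivity)
    have h9 : (α - β) * (z ^ 4 * a ^ 4) ≤ |α - β| * (z ^ 4 * a ^ 4) :=
      mul_le_mul_of_nonneg_right (le_abs_self _) (by positivity)
    nlinarith [mul_le_mul_of_nonneg_left h8 (abs_nonneg (α - β))]
  have h6' := mul_le_mul_of_nonneg_left h6 (by positivity : 0 ≤ z ^ 4)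
  nlinarith [mul_le_mul_of_nonneg_left h3 hZ, mul_le_mul_of_nonneg_left h3' hZ,
    mul_le_mul_of_nonneg_left h4 (abs_nonneg (α - β)), mul_le_mul_of_nonneg_left h5 hβ]

lemma pt0 (x y e : ℂ) (z Z α : ℝ) (hz0 : 0 ≤ z) (hz1 : z ≤ 1) (he : ‖e‖ ≤ Z) (hα : 0 ≤ α) :
    3 * α * (z ^ 2 * (‖x‖ ^ 2 * ‖y‖ ^ 2)) ≤ (2 * z * e * (x * x * conj x * conj y) + z ^ 2 * (I *
      (3 * α * (‖x‖ ^ 2 * ‖y‖ ^ 2 : ℝ) - α * (‖x‖ ^ 4 : ℝ)))).im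
      + (α * ‖x‖ ^ 4 + Z * (‖x‖ ^ 4 + z ^ 2 * (‖x‖ ^ 2 * ‖y‖ ^ 2))) := by
  set P := 2 * z * e * (x * x * conj x * conj y) with hP
  have e1 : (P + z ^ 2 * (I * (3 * α * (‖x‖ ^ 2 * ‖y‖ ^ 2 : ℝ) - α * (‖x‖ ^ 4 : ℝ)))).im
      = P.im + z ^ 2 * (3 * α * (‖x‖ ^ 2 * ‖y‖ ^ 2) - α * ‖x‖ ^ 4) := by
    rw [← ofReal_pow]
    simp only [add_im, mul_im, mul_re, sub_re, sub_im, ofReal_re, ofReal_im, I_re, I_im,
      re_ofNat, im_ofNat]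
    ring
  have hPn : ‖P‖ ≤ 2 * z * Z * (‖x‖ ^ 3 * ‖y‖) := by
    rw [hP]
    simp only [norm_mul, Complex.norm_real, Complex.norm_ofNat, RCLike.norm_conj,
      Real.norm_of_nonneg hz0]
    have : 0 ≤ 2 * z * (‖x‖ ^ 3 * ‖y‖) := by positivity
    nlinarith
  have h1 := neg_im_le_norm P
  have hZ : 0 ≤ Z := (norm_nonneg _).trans he
  rw [e1]
  set a := ‖x‖
  set b := ‖y‖
  have h3 : 2 * z * (a ^ 3 * b) ≤ a ^ 4 + z ^ 2 * (a ^ 2 * b ^ 2) := by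
    nlinarith [sq_nonneg (a ^ 2 - z * a * b)]
  have h5 : z ^ 2 * a ^ 4 ≤ a ^ 4 := by
    have : z ^ 2 ≤ 1 := by nlinarith
    have : 0 ≤ a ^ 4 := by positivity
    nlinarith
  nlinarith [mul_le_mul_of_nonneg_left h3 hZ, mul_le_mul_of_nonneg_left h5 hα]

end Pool.Agent.Lib.MP_a52643_an
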