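import Pool.Agent.Lib.MP_a52643_an.LFour

/-!
Local fourth power bounds along the ladder, conclusion.
-/

open Complex MeasureTheory Set Filter Topology
open scoped ComplexConjugate ContDiff ENNReal

noncomputable section

namespace Pool.Agent.Lib.MP_a52643_an

section step

variable {lam : ℝ} {Φ : ℤ → V → ℂ} {ζ : V → ℝ} {R Z : ℝ}

lemma Ladder.cont2 (h : Ladder lam Φ) (n m : ℤ) :
    ContinuousOn (fun v => ‖Φ n v‖ ^ 2 * ‖Φ m v‖ ^ 2) Om :=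
  ((h.cont n).norm.pow 2).mul ((h.cont m).norm.pow 2)

lemma Ladder.cont4 (h : Ladder lam Φ) (n : ℤ) : ContinuousOn (fun v => ‖Φ n v‖ ^ 4) Om :=
  (h.cont n).norm.pow 4

lemma Cut.int_pow (hc : Cut ζ R Z) (k : ℕ) {F : V → ℝ} (hF : ContinuousOn F Om) :
    Integrable (fun v => ζ v ^ (k + 1) * F v) mV :=
  ((hc.cs.comp (g := fun t => t ^ (k + 1)) (by simp)).mul_right F).integrable
    ((hc.smooth.continuous.pow _).continuousOn.mul hF)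

lemma Ladder.cd4 (h : Ladder lam Φ) (n m : ℤ) :
    ContDiffOn ℝ 1 (fun v => Φ n v * Φ n v * conj (Φ n v) * conj (Φ m v)) Om :=
  (((h.smooth n).mul (h.smooth n)).mul (contDiffOn_conj' (h.smooth n))).mul
    (contDiffOn_conj' (h.smooth m))

lemma al_nonneg (lam : ℝ) (n : ℤ) : 0 ≤ al lam n := Real.sqrt_nonneg _

lemma le_of_ibp3 {H : V → ℂ} {f1 f2 f3 : V → ℝ} (c1 c2 c3 : ℝ) (hH : Integrable H mV)
    (h0 : ∫ v, H v ∂mV = 0) (h1 : Integrable f1 mV) (h2 : Integrable f2 mV)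
    (h3 : Integrable f3 mV)
    (hp : ∀ v ∈ slab, 0 ≤ (H v).im + (c1 * f1 v + c2 * f2 v + c3 * f3 v)) :
    0 ≤ c1 * ∫ v, f1 v ∂mV + c2 * ∫ v, f2 v ∂mV + c3 * ∫ v, f3 v ∂mV := by
  have := le_of_ibp (g := fun _ => 0) (h := fun v => c1 * f1 v + c2 * f2 v + c3 * f3 v) hH h0
    (integrable_zero _ _ _) (((h1.const_mul _).add (h2.const_mul _)).add (h3.const_mul _)) hp
  rw [integral_add (by exact (h1.const_mul _).add (h2.const_mul _)) (h3.const_mul _),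
    integral_add (h1.const_mul _) (h2.const_mul _), integral_const_mul, integral_const_mul,
    integral_const_mul] at this
  simpa using this

lemma step1 (h : Ladder lam Φ) (hc : Cut ζ R Z) (n : ℤ) :
    al lam (n - 1) * ∫ v, ζ v ^ 2 * ‖Φ n v‖ ^ 4 ∂mV ≤
      2 * al lam (n - 1) * (∫ v in KB R, ‖Φ n v‖ ^ 2 * ‖Φ (n - 1) v‖ ^ 2 ∂mV)
      + al lam n / 2 * ((∫ v, ζ v ^ 4 * (‖Φ n v‖ ^ 2 * ‖Φ (n + 1) v‖ ^ 2) ∂mV)
        + ∫ v in KB R, ‖Φ n v‖ ^ 2 * ‖Φ (n - 1) v‖ ^ 2 ∂mV)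
      + Z * ((∫ v, ζ v ^ 2 * ‖Φ n v‖ ^ 4 ∂mV)
        + ∫ v in KB R, ‖Φ n v‖ ^ 2 * ‖Φ (n - 1) v‖ ^ 2 ∂mV) := by
  have ia : Integrable (fun v => ζ v ^ 2 * ‖Φ n v‖ ^ 4) mV := hc.int_pow 1 (h.cont4 n)
  have ib : Integrable (fun v => ζ v ^ 4 * (‖Φ n v‖ ^ 2 * ‖Φ (n + 1) v‖ ^ 2)) mV :=
    hc.int_pow 3 (h.cont2 n (n + 1))
  have iB := integrable_ind_mul (h.cont2 n (n - 1)) R
  set G : V → ℂ := fun v => (ζ v * ζ v : ℂ) *
    (Φ n v * Φ n v * conj (Φ n v) * conj (Φ (n - 1) v)) with hG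
  have hG1 : ContDiffOn ℝ 1 G Om := (hc.cdo.mul hc.cdo).mul (h.cd4 n (n - 1))
  have hG2 : CS G := (hc.csc.mul_right _).mul_right _
  have key := le_of_ibp3 (H := fun v => -Em G v) (Z - al lam (n - 1)) (al lam n / 2)
    (2 * al lam (n - 1) + al lam n / 2 + Z) (hG2.Em.integrable (continuousOn_Em hG1)).neg
    (by rw [integral_neg, integral_Em hG1 hG2, neg_zero]) ia ib iB ?_
  · rw [integral_ind_mul] at key
    linarith
  intro v hv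
  have hv' := slab_subset_Om hv
  have e := (((hc.hasE hv').mul (hc.hasE hv')).mul ((((h.hasE n hv').mul (h.hasE n hv')).mul
    (h.hasE n hv').conj).mul (h.hasE (n - 1) hv').conj)).em
  have e' : Em G v = 2 * ζ v * Em (fun w => (ζ w : ℂ)) v *
      (Φ n v * Φ n v * conj (Φ n v) * conj (Φ (n - 1) v)) + (ζ v : ℂ) ^ 2 * (I *
      (2 * al lam (n - 1) * (‖Φ n v‖ ^ 2 * ‖Φ (n - 1) v‖ ^ 2 : ℝ)
        - al lam n * (Φ n v * Φ n v * conj (Φ (n + 1) v) * conj (Φ (n - 1) v))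
        - al lam (n - 1) * (‖Φ n v‖ ^ 4 : ℝ))) := by
    rw [hG, e, sub_add_cancel]
    have a1 := mul_conj_sq (Φ n v)
    have a2 := mul_conj_sq (Φ (n - 1) v)
    have a3 : ((‖Φ n v‖ ^ 4 : ℝ) : ℂ) = (‖Φ n v‖ ^ 2 : ℝ) * (‖Φ n v‖ ^ 2 : ℝ) := by
      push_cast; ring
    rw [ofReal_mul, a3, ← a1, ← a2]
    simp only [map_mul, conj_I, conj_ofReal]
    ring
  have hZ : 0 ≤ Z := (norm_nonneg _).trans (hc.em v hv)
  have p1 := al_nonneg lam n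
  have p2 := al_nonneg lam (n - 1)
  rw [e']
  rcases hc.le_ind hv with h0 | h1
  · have : 0 ≤ (KB R).indicator (fun _ => (1 : ℝ)) v := indicator_nonneg (by simp) v
    simp only [h0]
    simp
    positivity
  · simp only [h1, one_mul]
    linarith [pt1 (Φ n v) (Φ (n + 1) v) (Φ (n - 1) v) _ _ _ _ _ (hc.nonneg v) (hc.le_one v)
      (hc.em v hv) p1 p2]

lemma step2 (h : Ladder lam Φ) (hc : Cut ζ R Z) (n : ℤ) :
    2 * al lam n * ∫ v, ζ v ^ 4 * (‖Φ n v‖ ^ 2 * ‖Φ (n + 1) v‖ ^ 2) ∂mV ≤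
      2 * al lam (n - 1) * (∫ v in KB R, ‖Φ n v‖ ^ 2 * ‖Φ (n - 1) v‖ ^ 2 ∂mV)
      + |al lam n - al lam (n - 1)| *
        (((∫ v, ζ v ^ 4 * (‖Φ n v‖ ^ 2 * ‖Φ (n + 1) v‖ ^ 2) ∂mV)
          + ∫ v in KB R, ‖Φ n v‖ ^ 2 * ‖Φ (n - 1) v‖ ^ 2 ∂mV) / 2
          + ∫ v, ζ v ^ 2 * ‖Φ n v‖ ^ 4 ∂mV)
      + 2 * Z * (2 * (∫ v, ζ v ^ 2 * ‖Φ n v‖ ^ 4 ∂mV)
        + (∫ v, ζ v ^ 4 * (‖Φ n v‖ ^ 2 * ‖Φ (n + 1) v‖ ^ 2) ∂mV)
        + ∫ v in KB R, ‖Φ n v‖ ^ 2 * ‖Φ (n - 1) v‖ ^ 2 ∂mV) := by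
  have ia : Integrable (fun v => ζ v ^ 2 * ‖Φ n v‖ ^ 4) mV := hc.int_pow 1 (h.cont4 n)
  have ib : Integrable (fun v => ζ v ^ 4 * (‖Φ n v‖ ^ 2 * ‖Φ (n + 1) v‖ ^ 2)) mV :=
    hc.int_pow 3 (h.cont2 n (n + 1))
  have iB := integrable_ind_mul (h.cont2 n (n - 1)) R
  set G : V → ℂ := fun v => (ζ v * ζ v * ζ v * ζ v : ℂ) *
    (Φ n v * Φ n v * conj (Φ n v) * conj (Φ (n - 1) v)) with hG
  set G' : V → ℂ := fun v => (ζ v * ζ v * ζ v * ζ v : ℂ) *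
    (Φ n v * Φ n v * conj (Φ n v) * conj (Φ (n + 1) v)) with hG'
  have hz4 := ((hc.cdo.mul hc.cdo).mul hc.cdo).mul hc.cdo
  have hG1 : ContDiffOn ℝ 1 G Om := hz4.mul (h.cd4 n (n - 1))
  have hG2 : CS G := (hc.csc.mul_left _).mul_right _
  have hG1' : ContDiffOn ℝ 1 G' Om := hz4.mul (h.cd4 n (n + 1))
  have hG2' : CS G' := (hc.csc.mul_left _).mul_right _
  have j1 := hG2'.Ep.integrable (continuousOn_Ep hG1')
  have j2 := hG2.Em.integrable (continuousOn_Em hG1)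
  have key := le_of_ibp3 (H := fun v => Ep G' v - Em G v) (|al lam n - al lam (n - 1)| + 4 * Z)
    (|al lam n - al lam (n - 1)| / 2 + 2 * Z - 2 * al lam n)
    (2 * al lam (n - 1) + |al lam n - al lam (n - 1)| / 2 + 2 * Z) (j1.sub j2)
    (by rw [integral_sub j1 j2, integral_Em hG1 hG2, integral_Ep hG1' hG2', sub_zero])
    ia ib iB ?_
  · rw [integral_ind_mul] at key
    linarith
  intro v hv
  have hv' := slab_subset_Om hv
  have z4 := (((hc.hasE hv').mul (hc.hasE hv')).mul (hc.hasE hv')).mul (hc.hasE hv')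
  have e := (z4.mul ((((h.hasE n hv').mul (h.hasE n hv')).mul
    (h.hasE n hv').conj).mul (h.hasE (n - 1) hv').conj)).em
  have e2 := (z4.mul ((((h.hasE n hv').mul (h.hasE n hv')).mul
    (h.hasE n hv').conj).mul (h.hasE (n + 1) hv').conj)).ep
  have e' : Ep G' v - Em G v = 4 * (ζ v : ℂ) ^ 3 * Ep (fun w => (ζ w : ℂ)) v *
      (Φ n v * Φ n v * conj (Φ n v) * conj (Φ (n + 1) v))
      - 4 * (ζ v : ℂ) ^ 3 * Em (fun w => (ζ w : ℂ)) v *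
      (Φ n v * Φ n v * conj (Φ n v) * conj (Φ (n - 1) v)) + (ζ v : ℂ) ^ 4 * (I *
      (2 * al lam n * (‖Φ n v‖ ^ 2 * ‖Φ (n + 1) v‖ ^ 2 : ℝ)
        - 2 * al lam (n - 1) * (‖Φ n v‖ ^ 2 * ‖Φ (n - 1) v‖ ^ 2 : ℝ)
        + (al lam n - al lam (n - 1)) *
          (Φ n v * Φ n v * conj (Φ (n + 1) v) * conj (Φ (n - 1) v))
        - (al lam n - al lam (n - 1)) * (‖Φ n v‖ ^ 4 : ℝ))) := by
    rw [hG, hG', e, e2, sub_add_cancel, add_sub_cancel_right]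
    have a1 := mul_conj_sq (Φ n v)
    have a2 := mul_conj_sq (Φ (n - 1) v)
    have a2' := mul_conj_sq (Φ (n + 1) v)
    have a3 : ((‖Φ n v‖ ^ 4 : ℝ) : ℂ) = (‖Φ n v‖ ^ 2 : ℝ) * (‖Φ n v‖ ^ 2 : ℝ) := by
      push_cast; ring
    rw [ofReal_mul, ofReal_mul, a3, ← a1, ← a2, ← a2']
    simp only [map_mul, conj_I, conj_ofReal]
    ring
  have hZ : 0 ≤ Z := (norm_nonneg _).trans (hc.em v hv)
  have p2 := al_nonneg lam (n - 1)
  rw [e']
  rcases hc.le_ind hv with h0 | h1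
  · have : 0 ≤ (KB R).indicator (fun _ => (1 : ℝ)) v := indicator_nonneg (by simp) v
    simp only [h0]
    simp
    positivity
  · simp only [h1, one_mul]
    linarith [pt2 (Φ n v) (Φ (n + 1) v) (Φ (n - 1) v) _ _ _ _ (al lam n) _ (hc.nonneg v)
      (hc.le_one v) (hc.ep v hv) (hc.em v hv) p2]

lemma step0 (h : Ladder lam Φ) (hc : Cut ζ R Z) :
    3 * al lam 0 * ∫ v, ζ v ^ 2 * (‖Φ 0 v‖ ^ 2 * ‖Φ 1 v‖ ^ 2) ∂mV ≤
      al lam 0 * (∫ v in KB R, ‖Φ 0 v‖ ^ 4 ∂mV) + Z * ((∫ v in KB R, ‖Φ 0 v‖ ^ 4 ∂mV)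
        + ∫ v, ζ v ^ 2 * (‖Φ 0 v‖ ^ 2 * ‖Φ 1 v‖ ^ 2) ∂mV) := by
  have ib : Integrable (fun v => ζ v ^ 2 * (‖Φ 0 v‖ ^ 2 * ‖Φ 1 v‖ ^ 2)) mV :=
    hc.int_pow 1 (h.cont2 0 1)
  have iA := integrable_ind_mul (h.cont4 0) R
  set G : V → ℂ := fun v => (ζ v * ζ v : ℂ) *
    (Φ 0 v * Φ 0 v * conj (Φ 0 v) * conj (Φ 1 v)) with hG
  have hG1 : ContDiffOn ℝ 1 G Om := (hc.cdo.mul hc.cdo).mul (h.cd4 0 1)
  have hG2 : CS G := (hc.csc.mul_right _).mul_right _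
  have key := le_of_ibp3 (H := fun v => Ep G v) (Z - 3 * al lam 0) (al lam 0 + Z) 0
    (hG2.Ep.integrable (continuousOn_Ep hG1)) (integral_Ep hG1 hG2) ib iA iA ?_
  · rw [integral_ind_mul] at key
    linarith
  intro v hv
  have hv' := slab_subset_Om hv
  have e := (((hc.hasE hv').mul (hc.hasE hv')).mul ((((h.hasE 0 hv').mul (h.hasE 0 hv')).mul
    (h.hasE 0 hv').conj).mul (h.hasE 1 hv').conj)).ep
  have e' : Ep G v = 2 * ζ v * Ep (fun w => (ζ w : ℂ)) v *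
      (Φ 0 v * Φ 0 v * conj (Φ 0 v) * conj (Φ 1 v)) + (ζ v : ℂ) ^ 2 * (I *
      (3 * al lam 0 * (‖Φ 0 v‖ ^ 2 * ‖Φ 1 v‖ ^ 2 : ℝ) - al lam 0 * (‖Φ 0 v‖ ^ 4 : ℝ))) := by
    rw [hG, e]
    have a1 := mul_conj_sq (Φ 0 v)
    have a2 := mul_conj_sq (Φ 1 v)
    have a3 : ((‖Φ 0 v‖ ^ 4 : ℝ) : ℂ) = (‖Φ 0 v‖ ^ 2 : ℝ) * (‖Φ 0 v‖ ^ 2 : ℝ) := by
      push_cast; ring
    have b0 : conj (Φ 0 v) = Φ 0 v := by simpa using h.cnj 0 v
    have b1 : conj (Φ (0 - 1) v) = -Φ 1 v := by simpa using h.cnj (-1) v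
    have b2 : al lam (0 - 1) = al lam 0 := by simpa using al_neg lam 0
    rw [ofReal_mul, a3, ← a1, ← a2]
    simp only [map_mul, conj_I, conj_ofReal, b0, b1, b2, zero_add, sub_self]
    ring
  have hZ : 0 ≤ Z := (norm_nonneg _).trans (hc.em v hv)
  have p1 := al_nonneg lam 0
  rw [e']
  rcases hc.le_ind hv with h0 | h1
  · have : 0 ≤ (KB R).indicator (fun _ => (1 : ℝ)) v := indicator_nonneg (by simp) v
    simp only [h0]
    simp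
    positivity
  · simp only [h1, one_mul]
    linarith [pt0 (Φ 0 v) (Φ 1 v) _ _ _ _ (hc.nonneg v) (hc.le_one v) (hc.ep v hv) p1]

lemma Cut.setIntegral_le (hc : Cut ζ R Z) {R' : ℝ} (h1 : ∀ v, ‖v‖ ≤ R' → ζ v = 1) (k : ℕ)
    {F : V → ℝ} (hF : ContinuousOn F Om) (h0 : ∀ v, 0 ≤ F v) :
    ∫ v in KB R', F v ∂mV ≤ ∫ v, ζ v ^ (k + 1) * F v ∂mV := by
  rw [← integral_ind_mul]
  refine integral_mono (integrable_ind_mul hF R') (hc.int_pow k hF) fun v => ?_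
  by_cases h : v ∈ KB R'
  · simp [h, h1 v (by simpa using h.1)]
  · simp only [indicator_of_notMem h, zero_mul]
    exact mul_nonneg (pow_nonneg (hc.nonneg v) _) (h0 v)

end step

lemma arith12 {a b B α β Z : ℝ} (ha : 0 ≤ a) (hb : 0 ≤ b) (hB : 0 ≤ B) (hβ : 0 < β)
    (hZ : Z ≤ β / 40) (hd : |α - β| ≤ β / 40)
    (h1 : β * a ≤ 2 * β * B + α / 2 * (b + B) + Z * (a + B))
    (h2 : 2 * α * b ≤ 2 * β * B + |α - β| * ((b + B) / 2 + a) + 2 * Z * (2 * a + b + B)) :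
    a ≤ 4 * B ∧ b ≤ 2 * B := by
  have hα1 : α ≤ 41 / 40 * β := by linarith [le_abs_self (α - β)]
  have hα2 : 39 / 40 * β ≤ α := by linarith [neg_abs_le (α - β)]
  have g1 : β * a ≤ β * (2 * B + 41 / 80 * (b + B) + (a + B) / 40) := by
    nlinarith [mul_le_mul_of_nonneg_right hα1 (add_nonneg hb hB),
      mul_le_mul_of_nonneg_right hZ (add_nonneg ha hB)]
  have g2 : β * (39 / 20 * b) ≤ β * (2 * B + ((b + B) / 2 + a) / 40 + (2 * a + b + B) / 20) := by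
    nlinarith [mul_le_mul_of_nonneg_right hα2 hb,
      mul_le_mul_of_nonneg_right hd (by positivity : 0 ≤ (b + B) / 2 + a),
      mul_le_mul_of_nonneg_right hZ (by positivity : 0 ≤ 2 * a + b + B)]
  have k1 := le_of_mul_le_mul_left g1 hβ
  have k2 := le_of_mul_le_mul_left g2 hβ
  constructor <;> linarith

lemma sqrt_le_al (lam : ℝ) (n : ℤ) : Real.sqrt lam ≤ al lam n :=
  Real.sqrt_le_sqrt (by linarith [int_mul_succ_nonneg n])

lemma abs_al_sub_le {lam : ℝ} (hl : 0 < lam) (a b : ℤ) :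
    |al lam a - al lam b| ≤ |(a : ℝ) * (a + 1) - b * (b + 1)| / Real.sqrt lam := by
  have hs : 0 < Real.sqrt lam := Real.sqrt_pos.2 hl
  have e : (al lam a - al lam b) * (al lam a + al lam b) = (a : ℝ) * (a + 1) - b * (b + 1) := by
    linear_combination al_sq hl a - al_sq hl b
  rw [le_div_iff₀ hs, ← e, abs_mul]
  refine mul_le_mul_of_nonneg_left ?_ (abs_nonneg _)
  have := sqrt_le_al lam a
  have := al_nonneg lam b
  exact le_trans (by linarith) (le_abs_self _)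

section fam

variable {J : Type*} {l : Filter J} {lam : J → ℝ} {Φ : J → ℤ → V → ℂ}

lemma tendsto_sqrt_lam (hl : Tendsto lam l atTop) :
    Tendsto (fun j => Real.sqrt (lam j)) l atTop :=
  Real.tendsto_sqrt_atTop.comp hl

lemma tendsto_al (hl : Tendsto lam l atTop) (n : ℤ) : Tendsto (fun j => al (lam j) n) l atTop :=
  tendsto_atTop_mono (fun _ => sqrt_le_al _ n) (tendsto_sqrt_lam hl)

lemma tendsto_al_sub (hl : Tendsto lam l atTop) (a b : ℤ) :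
    Tendsto (fun j => al (lam j) a - al (lam j) b) l (𝓝 0) := by
  rw [tendsto_zero_iff_abs_tendsto_zero]
  refine squeeze_zero' (Eventually.of_forall fun j => abs_nonneg _) ?_
    ((tendsto_sqrt_lam hl).const_div_atTop |(a : ℝ) * (a + 1) - b * (b + 1)|)
  filter_upwards [hl.eventually_gt_atTop 0] with j hj using abs_al_sub_le hj a b

/-- locally bounded families -/
def LB (l : Filter J) (u : J → V → ℝ) : Prop :=
  ∀ R : ℝ, ∃ C : ℝ, ∀ᶠ j in l, ∫ v in KB R, u j v ∂mV ≤ C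

lemma LB.of_pos {u : J → V → ℝ} (h0 : ∀ j v, 0 ≤ u j v) (hc : ∀ j, ContinuousOn (u j) Om)
    (h : ∀ R : ℝ, 0 < R → ∃ C : ℝ, ∀ᶠ j in l, ∫ v in KB R, u j v ∂mV ≤ C) : LB l u := by
  intro R
  obtain ⟨C, hC⟩ := h (max R 1) (lt_max_of_lt_right one_pos)
  refine ⟨C, hC.mono fun j hj => le_trans ?_ hj⟩
  refine setIntegral_mono_set (integrableOn_KB (hc j) _) (Eventually.of_forall (h0 j)) ?_
  exact (inter_subset_inter_left _ (Metric.closedBall_subset_closedBall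
    (le_max_left _ _))).eventuallyLE

lemma LB_step (hL : ∀ j, Ladder (lam j) (Φ j)) (hl : Tendsto lam l atTop) (n : ℤ)
    (h : LB l fun j v => ‖Φ j n v‖ ^ 2 * ‖Φ j (n - 1) v‖ ^ 2) :
    (LB l fun j v => ‖Φ j n v‖ ^ 4) ∧ LB l fun j v => ‖Φ j n v‖ ^ 2 * ‖Φ j (n + 1) v‖ ^ 2 := by
  have key : ∀ R : ℝ, 0 < R → ∃ C : ℝ, ∀ᶠ j in l, ∫ v in KB R, ‖Φ j n v‖ ^ 4 ∂mV ≤ C ∧
      ∫ v in KB R, ‖Φ j n v‖ ^ 2 * ‖Φ j (n + 1) v‖ ^ 2 ∂mV ≤ C := by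
    intro R hR
    obtain ⟨ζ, Z, hc, h1⟩ := exists_cut hR
    obtain ⟨C, hC⟩ := h (R + 1)
    refine ⟨4 * C, ?_⟩
    have t1 := (tendsto_al hl (n - 1)).eventually_ge_atTop (40 * max Z 1)
    have t2 := (tendsto_al_sub hl n (n - 1)).abs.eventually (gt_mem_nhds (by simp : |(0 : ℝ)| < 1))
    filter_upwards [hC, t1, t2] with j hj t1 t2
    have m1 := le_max_left Z 1
    have m2 := le_max_right Z 1
    have hB : 0 ≤ ∫ v in KB (R + 1), ‖Φ j n v‖ ^ 2 * ‖Φ j (n - 1) v‖ ^ 2 ∂mV :=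
      integral_nonneg fun v => by positivity
    have := arith12 (integral_nonneg fun v => by positivity)
      (integral_nonneg fun v => by positivity) hB (by linarith) (by linarith) (by linarith)
      (step1 (hL j) hc n) (step2 (hL j) hc n)
    have s1 := hc.setIntegral_le h1 1 ((hL j).cont4 n) fun v => by positivity
    have s2 := hc.setIntegral_le h1 3 ((hL j).cont2 n (n + 1)) fun v => by positivity
    constructor <;> linarith [this.1, this.2]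
  constructor
  · refine LB.of_pos (fun j v => by positivity) (fun j => (hL j).cont4 n) fun R hR => ?_
    obtain ⟨C, hC⟩ := key R hR
    exact ⟨C, hC.mono fun j hj => hj.1⟩
  · refine LB.of_pos (fun j v => by positivity) (fun j => (hL j).cont2 n _) fun R hR => ?_
    obtain ⟨C, hC⟩ := key R hR
    exact ⟨C, hC.mono fun j hj => hj.2⟩

lemma LB_base (hL : ∀ j, Ladder (lam j) (Φ j)) (hl : Tendsto lam l atTop)
    (h : LB l fun j v => ‖Φ j 0 v‖ ^ 4) :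
    LB l fun j v => ‖Φ j 0 v‖ ^ 2 * ‖Φ j 1 v‖ ^ 2 := by
  refine LB.of_pos (fun j v => by positivity) (fun j => (hL j).cont2 0 _) fun R hR => ?_
  obtain ⟨ζ, Z, hc, h1⟩ := exists_cut hR
  obtain ⟨C, hC⟩ := h (R + 1)
  refine ⟨C, ?_⟩
  filter_upwards [hC, (tendsto_al hl 0).eventually_ge_atTop (max Z 1)] with j hj t1
  have m1 := le_max_left Z 1
  have m2 := le_max_right Z 1
  have s0 := step0 (hL j) hc
  have s1 := hc.setIntegral_le h1 1 ((hL j).cont2 0 1) fun v => by positivity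
  have hA : 0 ≤ ∫ v in KB (R + 1), ‖Φ j 0 v‖ ^ 4 ∂mV := integral_nonneg fun v => by positivity
  have hb : 0 ≤ ∫ v, ζ v ^ 2 * (‖Φ j 0 v‖ ^ 2 * ‖Φ j 1 v‖ ^ 2) ∂mV :=
    integral_nonneg fun v => by positivity
  set A := ∫ v in KB (R + 1), ‖Φ j 0 v‖ ^ 4 ∂mV
  set b := ∫ v, ζ v ^ 2 * (‖Φ j 0 v‖ ^ 2 * ‖Φ j 1 v‖ ^ 2) ∂mV
  have g : al (lam j) 0 * (2 * b) ≤ al (lam j) 0 * (2 * A) := by
    nlinarith [mul_le_mul_of_nonneg_right (m1.trans t1) (add_nonneg hA hb)]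
  have := le_of_mul_le_mul_left g (by linarith)
  have s1' : ∫ v in KB R, ‖Φ j 0 v‖ ^ 2 * ‖Φ j 1 v‖ ^ 2 ∂mV ≤ b := s1
  linarith

theorem LB_four (hL : ∀ j, Ladder (lam j) (Φ j)) (hl : Tendsto lam l atTop)
    (h : LB l fun j v => ‖Φ j 0 v‖ ^ 4) (n : ℤ) : LB l fun j v => ‖Φ j n v‖ ^ 4 := by
  have key : ∀ n : ℕ, (LB l fun j v => ‖Φ j n v‖ ^ 4) ∧
      LB l fun j v => ‖Φ j n v‖ ^ 2 * ‖Φ j (n + 1) v‖ ^ 2 := by
    intro n
    induction n with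
    | zero => exact ⟨h, LB_base hL hl h⟩
    | succ n ih =>
      have := LB_step hL hl ((n : ℤ) + 1) (by
        simpa only [add_sub_cancel_right, mul_comm] using ih.2)
      exact_mod_cast this
  rcases Int.eq_nat_or_neg n with ⟨m, rfl | rfl⟩
  · exact (key m).1
  · simpa only [(hL _).norm_neg] using (key m).1

end fam

end Pool.Agent.Lib.MP_a52643_an
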