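import Pool.Agent.Lib.MP_a52643_an.Basic

/-!
The ladder of weight functions attached to a Laplace eigenfunction.
-/

open Complex MeasureTheory Set Filter Topology
open scoped ComplexConjugate ContDiff

noncomputable section

namespace Pool.Agent.Lib.MP_a52643_an

def Aop (f : ℂ → ℂ) (z : ℂ) : ℂ := z.im * (fderiv ℝ f z I + I * fderiv ℝ f z 1)

def Bop (f : ℂ → ℂ) (z : ℂ) : ℂ := z.im * (fderiv ℝ f z I - I * fderiv ℝ f z 1)

lemma fderiv_pr {v : V} (hv : v.2 ≠ 0) (h : V) :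
    fderiv ℝ pr v h = h.1 / v.2 - v.1 * h.2 / v.2 ^ 2 := by
  have h1 : HasFDerivAt (fun w : V => w.2⁻¹) _ v :=
    ((hasFDerivAt_inv (𝕜 := ℂ) hv).restrictScalars ℝ).comp v (hasFDerivAt_snd (𝕜 := ℝ))
  have h2 := (hasFDerivAt_fst (𝕜 := ℝ) (p := v)).fun_mul h1
  have : pr = fun w : V => w.1 * w.2⁻¹ := by ext w; simp [pr, div_eq_mul_inv]
  rw [this, h2.fderiv]
  simp; field_simp; ring

lemma fderiv_om {v : V} (hv : v.2 ≠ 0) (h : V) :
    fderiv ℝ om v h = conj h.2 / v.2 - conj v.2 * h.2 / v.2 ^ 2 := by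
  have h1 : HasFDerivAt (fun w : V => w.2⁻¹) _ v :=
    ((hasFDerivAt_inv (𝕜 := ℂ) hv).restrictScalars ℝ).comp v (hasFDerivAt_snd (𝕜 := ℝ))
  have h0 : HasFDerivAt (fun w : V => conj w.2) _ v :=
    conjCLE.hasFDerivAt.comp v (hasFDerivAt_snd (𝕜 := ℝ))
  have h2 := h0.fun_mul h1
  have : om = fun w : V => conj w.2 * w.2⁻¹ := by ext w; simp [om, div_eq_mul_inv]
  rw [this, h2.fderiv]
  simp; field_simp; ring

lemma Ep_om {v : V} (hv : v.2 ≠ 0) : Ep om v = om v ^ 2 := by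
  simp only [Ep, wp, fderiv_om hv, om]
  simp
  field_simp
  linear_combination (-(v.2 ^ 2) - (conj v.2) ^ 2) * I_mul_I

lemma Em_om {v : V} (hv : v.2 ≠ 0) : Em om v = -1 := by
  simp only [Em, wm, fderiv_om hv]
  simp
  field_simp
  linear_combination (-(v.2 ^ 2) - (conj v.2) ^ 2) * I_mul_I

lemma fderiv_pr_cj {v : V} (hv : v.2 ≠ 0) :
    fderiv ℝ pr v (cj v) = (-2 * I * (pr v).im * om v) • (1 : ℂ) := by
  rw [fderiv_pr hv]
  have h1 : ((pr v).im : ℂ) = (pr v - conj (pr v)) / (2 * I) := by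
    rw [Complex.sub_conj]; field_simp; push_cast; ring
  have h2 : conj v.2 ≠ 0 := by simpa using hv
  rw [h1]
  simp [pr, om]
  field_simp
  ring

lemma fderiv_pr_I {v : V} (hv : v.2 ≠ 0) (h : V) :
    fderiv ℝ pr v (I • h) = I • fderiv ℝ pr v h := by
  rw [fderiv_pr hv, fderiv_pr hv]; simp; ring

lemma Ep_comp_pr {f : ℂ → ℂ} {v : V} (hv : v.2 ≠ 0) (hf : DifferentiableAt ℝ f (pr v)) :
    Ep (fun w => f (pr w)) v = om v * Aop f (pr v) := by
  have h := fderiv_comp v hf ((contDiffAt_pr (n := 1) hv).differentiableAt one_ne_zero)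
  have h' : fderiv ℝ (fun w => f (pr w)) v = _ := h
  have : Ep (fun w => f (pr w)) v = -wp (fderiv ℝ f (pr v)) (fderiv ℝ pr v (cj v)) := by
    simp only [Ep, wp, h', ContinuousLinearMap.comp_apply, fderiv_pr_I hv]
  rw [this, fderiv_pr_cj hv, wp_smul]
  simp [wp, Aop]
  linear_combination (-(om v) * (pr v).im * fderiv ℝ f (pr v) I) * I_mul_I

lemma Em_comp_pr {f : ℂ → ℂ} {v : V} (hv : v.2 ≠ 0) (hf : DifferentiableAt ℝ f (pr v)) :
    Em (fun w => f (pr w)) v = (om v)⁻¹ * Bop f (pr v) := by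
  have h := fderiv_comp v hf ((contDiffAt_pr (n := 1) hv).differentiableAt one_ne_zero)
  have h' : fderiv ℝ (fun w => f (pr w)) v = _ := h
  have : Em (fun w => f (pr w)) v = -wm (fderiv ℝ f (pr v)) (fderiv ℝ pr v (cj v)) := by
    simp only [Em, wm, h', ContinuousLinearMap.comp_apply, fderiv_pr_I hv]
  rw [this, fderiv_pr_cj hv, wm_smul]
  simp [wm, Bop, conj_om, map_ofNat]
  linear_combination (-(om v)⁻¹ * (pr v).im * fderiv ℝ f (pr v) I) * I_mul_I

lemma diffAt_om {v : V} (hv : v.2 ≠ 0) : DifferentiableAt ℝ om v :=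
  (contDiffAt_om (n := 1) hv).differentiableAt one_ne_zero

lemma fderiv_om_zpow {v : V} (hv : v.2 ≠ 0) (k : ℤ) (h : V) :
    fderiv ℝ (fun w => om w ^ k) v h = k * om v ^ (k - 1) * fderiv ℝ om v h := by
  have h1 := ((hasDerivAt_zpow k (om v) (Or.inl (om_ne_zero hv))).hasFDerivAt.restrictScalars
    ℝ).comp v (diffAt_om hv).hasFDerivAt
  have h2 : fderiv ℝ (fun w => om w ^ k) v = _ := h1.fderiv
  rw [h2]; simp; ring

lemma diffAt_om_zpow {v : V} (hv : v.2 ≠ 0) (k : ℤ) :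
    DifferentiableAt ℝ (fun w => om w ^ k) v :=
  (((hasDerivAt_zpow k (om v) (Or.inl (om_ne_zero hv))).hasFDerivAt.restrictScalars
    ℝ).comp v (diffAt_om hv).hasFDerivAt).differentiableAt

lemma Ep_om_zpow {v : V} (hv : v.2 ≠ 0) (k : ℤ) :
    Ep (fun w => om w ^ k) v = k * om v ^ (k + 1) := by
  have : Ep (fun w => om w ^ k) v = k * om v ^ (k - 1) * Ep om v := by
    simp only [Ep, wp, fderiv_om_zpow hv]; ring
  rw [this, Ep_om hv, mul_assoc, ← zpow_natCast, ← zpow_add₀ (om_ne_zero hv)]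
  congr 2; push_cast; ring

lemma Em_om_zpow {v : V} (hv : v.2 ≠ 0) (k : ℤ) :
    Em (fun w => om w ^ k) v = -k * om v ^ (k - 1) := by
  have : Em (fun w => om w ^ k) v = k * om v ^ (k - 1) * Em om v := by
    simp only [Em, wm, fderiv_om_zpow hv]; ring
  rw [this, Em_om hv]; ring

/-- homogeneity of weight `k` -/
def Hom (k : ℤ) (F : V → ℂ) : Prop :=
  ∀ c : ℂ, c ≠ 0 → ∀ v ∈ Om, F (c • v) = (conj c / c) ^ k * F v

lemma Hom.eq_om {k : ℤ} {F : V → ℂ} (h : Hom k F) {v : V} (hv : v ∈ Om) :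
    F v = om v ^ k * F (pr v, 1) := by
  have h1 := h v.2 (snd_ne_zero hv) _ (one_mem_Om (pr_mem hv))
  have h2 : v.2 • ((pr v, 1) : V) = v := by
    ext
    · simp [pr]; field_simp [snd_ne_zero hv]
    · simp
  rw [h2] at h1
  exact h1

def smulL (c : ℂ) : V →L[ℝ] V := c • ContinuousLinearMap.id ℝ V

@[simp] lemma smulL_apply (c : ℂ) (v : V) : smulL c v = c • v := rfl

lemma Hom.fderiv_smul {k : ℤ} {F : V → ℂ} (h : Hom k F) (hF : ContDiffOn ℝ 1 F Om) {c : ℂ}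
    (hc : c ≠ 0) {v : V} (hv : v ∈ Om) (u : V) :
    fderiv ℝ F (c • v) (c • u) = (conj c / c) ^ k * fderiv ℝ F v u := by
  have d1 := diffAt_of_Om hF one_ne_zero (smul_mem_Om hc hv)
  have d2 := diffAt_of_Om hF one_ne_zero hv
  have e1 : HasFDerivAt (fun w => F (c • w)) ((fderiv ℝ F (c • v)).comp (smulL c)) v :=
    d1.hasFDerivAt.comp v (smulL c).hasFDerivAt
  have e2 := d2.hasFDerivAt.const_mul ((conj c / c) ^ k)
  have e3 : (fun w => F (c • w)) =ᶠ[𝓝 v] fun w => (conj c / c) ^ k * F w := by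
    filter_upwards [isOpen_Om.mem_nhds hv] with w hw using h c hc w hw
  have := (e1.congr_of_eventuallyEq e3.symm).unique e2
  have := congrArg (fun L => L u) this
  simpa using this

lemma Hom.Ep {k : ℤ} {F : V → ℂ} (h : Hom k F) (hF : ContDiffOn ℝ 1 F Om) :
    Hom (k + 1) (Ep F) := by
  intro c hc v hv
  have hc' : conj c / c ≠ 0 := div_ne_zero (by simpa using hc) hc
  have e : cj (c • v) = (conj c / c) • (c • cj v) := by
    ext <;> simp <;> field_simp
  have e2 : wp (fderiv ℝ F (c • v)) (c • cj v) = (conj c / c) ^ k * wp (fderiv ℝ F v) (cj v) := by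
    unfold wp
    rw [smul_comm I c, h.fderiv_smul hF hc hv, h.fderiv_smul hF hc hv]; ring
  unfold MP_a52643_an.Ep
  rw [e, wp_smul, e2, zpow_add₀ hc', zpow_one]; ring

lemma Hom.conj {k : ℤ} {F : V → ℂ} (h : Hom k F) : Hom (-k) (fun v => conj (F v)) := by
  intro c hc v hv
  simp only [h c hc v hv, map_mul, map_zpow₀, map_div₀, Complex.conj_conj]
  rw [zpow_neg, ← inv_zpow, inv_div]

lemma Hom.const_mul {k : ℤ} {F : V → ℂ} (h : Hom k F) (a : ℂ) : Hom k (fun v => a * F v) := by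
  intro c hc v hv
  simp only [h c hc v hv]; ring

lemma Hom.mul {k l : ℤ} {F G : V → ℂ} (h : Hom k F) (h' : Hom l G) :
    Hom (k + l) (fun v => F v * G v) := by
  intro c hc v hv
  have hc' : (starRingEnd ℂ) c / c ≠ 0 := div_ne_zero (by simpa using hc) hc
  simp only [h c hc v hv, h' c hc v hv, zpow_add₀ hc']; ring

lemma Hom.fderiv_I {k : ℤ} {F : V → ℂ} (h : Hom k F) {v : V} (hv : v ∈ Om)
    (hF : DifferentiableAt ℝ F v) : fderiv ℝ F v (I • v) = -2 * I * k * F v := by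
  have h0 : HasDerivAt (fun t : ℝ => cexp (t * I)) I 0 := by
    have := ((hasDerivAt_id (0 : ℝ)).ofReal_comp.mul_const I).cexp
    simpa using this
  have h1 : HasDerivAt (fun t : ℝ => cexp (t * I) • v) (I • v) 0 := h0.smul_const v
  have h2 : HasDerivAt (fun t : ℝ => F (cexp (t * I) • v)) (fderiv ℝ F v (I • v)) 0 := by
    have hF' : HasFDerivAt F (fderiv ℝ F v) (cexp ((0 : ℝ) * I) • v) := by
      simpa using hF.hasFDerivAt
    exact hF'.comp_hasDerivAt (0 : ℝ) h1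
  have h3 : (fun t : ℝ => F (cexp (t * I) • v)) = fun t : ℝ => cexp (t * (-2 * I * k)) * F v := by
    ext t
    rw [h _ (Complex.exp_ne_zero _) v hv, ← Complex.exp_conj, ← Complex.exp_sub,
      ← Complex.exp_int_mul]
    congr 2
    simp; ring
  have h4 : HasDerivAt (fun t : ℝ => cexp (t * (-2 * I * k)) * F v) (-2 * I * k * F v) 0 := by
    have := (((hasDerivAt_id (0 : ℝ)).ofReal_comp.mul_const (-2 * I * k)).cexp).mul_const (F v)
    simpa using this
  rw [h3] at h2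
  exact h2.unique h4

/-- left action of a real matrix -/
def Lg (a b c d : ℝ) : V →L[ℝ] V :=
  (a • ContinuousLinearMap.fst ℝ ℂ ℂ + b • ContinuousLinearMap.snd ℝ ℂ ℂ).prod
    (c • ContinuousLinearMap.fst ℝ ℂ ℂ + d • ContinuousLinearMap.snd ℝ ℂ ℂ)

@[simp] lemma Lg_apply (a b c d : ℝ) (v : V) :
    Lg a b c d v = (a * v.1 + b * v.2, c * v.1 + d * v.2) := by
  simp [Lg]

lemma dt_Lg (a b c d : ℝ) (v : V) : dt (Lg a b c d v) = (a * d - b * c) * dt v := by
  simp [dt_eq]; ring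

lemma Lg_mem {a b c d : ℝ} (h : a * d - b * c = 1) {v : V} (hv : v ∈ Om) : Lg a b c d v ∈ Om := by
  simp only [Om, mem_ofPred_eq, dt_Lg, h, one_mul] at hv ⊢; exact hv

def Inv (a b c d : ℝ) (F : V → ℂ) : Prop := ∀ v ∈ Om, F (Lg a b c d v) = F v

lemma Inv.Ep {a b c d : ℝ} (hd : a * d - b * c = 1) {F : V → ℂ} (h : Inv a b c d F)
    (hF : ContDiffOn ℝ 1 F Om) : Inv a b c d (Ep F) := by
  intro v hv
  have d1 := diffAt_of_Om hF one_ne_zero (Lg_mem hd hv)
  have e1 : HasFDerivAt (fun w => F (Lg a b c d w))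
      ((fderiv ℝ F (Lg a b c d v)).comp (Lg a b c d)) v :=
    d1.hasFDerivAt.comp v (Lg a b c d).hasFDerivAt
  have e3 : (fun w => F (Lg a b c d w)) =ᶠ[𝓝 v] F := by
    filter_upwards [isOpen_Om.mem_nhds hv] with w hw using h w hw
  have e4 := (e1.congr_of_eventuallyEq e3.symm).fderiv
  have a1 : cj (Lg a b c d v) = Lg a b c d (cj v) := by ext <;> simp
  have a2 : I • Lg a b c d (cj v) = Lg a b c d (I • cj v) := by ext <;> simp <;> ring
  unfold MP_a52643_an.Ep wp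
  rw [e4, a1, a2]; rfl

def al (lam : ℝ) (n : ℤ) : ℝ := Real.sqrt (lam + n * (n + 1))

lemma int_mul_succ_nonneg (n : ℤ) : (0 : ℝ) ≤ n * (n + 1) := by
  have : (0 : ℤ) ≤ n * (n + 1) := by nlinarith [sq_nonneg (2 * n + 1), Int.lt_or_le n 0]
  exact_mod_cast this

lemma al_pos {lam : ℝ} (h : 0 < lam) (n : ℤ) : 0 < al lam n :=
  Real.sqrt_pos.2 (by have := int_mul_succ_nonneg n; linarith)

lemma al_sq {lam : ℝ} (h : 0 < lam) (n : ℤ) : al lam n ^ 2 = lam + n * (n + 1) :=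
  Real.sq_sqrt (by have := int_mul_succ_nonneg n; linarith)

lemma al_neg (lam : ℝ) (n : ℤ) : al lam (-n - 1) = al lam n := by
  unfold al; congr 1; push_cast; ring

structure Ladder (lam : ℝ) (Φ : ℤ → V → ℂ) : Prop where
  smooth : ∀ n, ContDiffOn ℝ 1 (Φ n) Om
  hom : ∀ n, Hom n (Φ n)
  up : ∀ n, ∀ v ∈ Om, Ep (Φ n) v = I * al lam n * Φ (n + 1) v
  down : ∀ n, ∀ v ∈ Om, Em (Φ (n + 1)) v = I * al lam n * Φ n v
  cnj : ∀ n, ∀ v, conj (Φ n v) = (-1) ^ n * Φ (-n) v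

lemma Bop_Aop {f : ℂ → ℂ} {z : ℂ} (hf : ContDiffAt ℝ 2 f z) :
    Bop (Aop f) z = Aop f z + (z.im : ℂ) ^ 2 *
      (fderiv ℝ (fderiv ℝ f) z 1 1 + fderiv ℝ (fderiv ℝ f) z I I) := by
  have h1 : DifferentiableAt ℝ (fderiv ℝ f) z :=
    (hf.fderiv_right (m := 1) le_rfl).differentiableAt one_ne_zero
  have d (u : ℂ) : HasFDerivAt (fun w => fderiv ℝ f w u)
      ((ContinuousLinearMap.apply ℝ ℂ u).comp (fderiv ℝ (fderiv ℝ f) z)) z :=
    (ContinuousLinearMap.apply ℝ ℂ u).hasFDerivAt.comp z h1.hasFDerivAt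
  have d0 : HasFDerivAt (fun w : ℂ => (w.im : ℂ)) (ofRealCLM.comp imCLM) z :=
    (ofRealCLM.comp imCLM).hasFDerivAt
  have e := (d0.fun_mul ((d I).fun_add ((d 1).const_mul I))).fderiv
  have hs := hf.isSymmSndFDerivAt (by simp) 1 I
  have e' : fderiv ℝ (Aop f) z = _ := e
  unfold Bop
  rw [e']
  simp [Aop, hs]
  linear_combination (-(z.im : ℂ) ^ 2 * fderiv ℝ (fderiv ℝ f) z 1 1) * I_mul_I

lemma contDiffOn_Aop {f : ℂ → ℂ} (hf : ContDiffOn ℝ 2 f UH) : ContDiffOn ℝ 1 (Aop f) UH := by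
  have h1 : ContDiffOn ℝ 1 (fderiv ℝ f) UH := hf.fderiv_of_isOpen isOpen_UH le_rfl
  unfold Aop
  exact (ofRealCLM.comp imCLM).contDiff.contDiffOn.mul
    ((h1.clm_apply contDiffOn_const).add (contDiffOn_const.mul (h1.clm_apply contDiffOn_const)))

open scoped Laplacian in
lemma Em_Ep_comp_pr {φ : ℂ → ℝ} (hφ : ContDiffOn ℝ 2 φ UH) {v : V} (hv : v ∈ Om) :
    Em (Ep fun w => (φ (pr w) : ℂ)) v = ((pr v).im ^ 2 * Δ φ (pr v) : ℝ) := by
  set f : ℂ → ℂ := fun z => (φ z : ℂ) with hf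
  have hf2 : ContDiffOn ℝ 2 f UH := ofRealCLM.contDiff.comp_contDiffOn hφ
  have hfa : ∀ z ∈ UH, ContDiffAt ℝ 2 f z := fun z hz => hf2.contDiffAt (isOpen_UH.mem_nhds hz)
  have e1 : ∀ w ∈ Om, Ep (fun w => f (pr w)) w = om w * Aop f (pr w) := fun w hw =>
    Ep_comp_pr (snd_ne_zero hw) ((hfa _ (pr_mem hw)).differentiableAt two_ne_zero)
  have hA : DifferentiableAt ℝ (Aop f) (pr v) :=
    ((contDiffOn_Aop hf2).contDiffAt (isOpen_UH.mem_nhds (pr_mem hv))).differentiableAt one_ne_zero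
  have hv2 := snd_ne_zero hv
  have hA' : DifferentiableAt ℝ (fun w => Aop f (pr w)) v :=
    hA.comp v ((contDiffAt_pr (n := 1) hv2).differentiableAt one_ne_zero)
  change Em (Ep fun w => f (pr w)) v = _
  rw [Em_congr_Om hv e1, Em_mul (diffAt_om hv2) hA', Em_om hv2, Em_comp_pr hv2 hA,
    ← mul_assoc, mul_inv_cancel₀ (om_ne_zero hv2), Bop_Aop (hfa _ (pr_mem hv))]
  have hφa : ContDiffAt ℝ 2 φ (pr v) := hφ.contDiffAt (isOpen_UH.mem_nhds (pr_mem hv))
  have l1 := hφa.laplacian_CLM_comp_left (l := ofRealCLM)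
  have l2 : Δ f (pr v) = ((Δ φ (pr v) : ℝ) : ℂ) := l1
  rw [InnerProductSpace.laplacian_eq_iteratedFDeriv_complexPlane] at l2
  simp only [iteratedFDeriv_two_apply, Matrix.cons_val_zero, Matrix.cons_val_one] at l2
  rw [l2]; push_cast; ring

lemma two_le_infty : (2 : WithTop ℕ∞) ≤ ∞ := WithTop.coe_le_coe.2 (le_top : (2 : ℕ∞) ≤ ⊤)

/-- the upper half of the ladder -/
def upl (lam : ℝ) (F : V → ℂ) : ℕ → V → ℂ
  | 0 => F
  | n + 1 => fun v => (I * al lam n)⁻¹ * Ep (upl lam F n) v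

lemma upl_smooth {lam : ℝ} {F : V → ℂ} (hF : ContDiffOn ℝ ∞ F Om) (n : ℕ) :
    ContDiffOn ℝ ∞ (upl lam F n) Om := by
  induction n with
  | zero => exact hF
  | succ n ih => exact contDiffOn_const.mul (contDiffOn_Ep (n := ∞) ih)

lemma upl_hom {lam : ℝ} {F : V → ℂ} (hF : ContDiffOn ℝ ∞ F Om) (h : Hom 0 F) (n : ℕ) :
    Hom n (upl lam F n) := by
  induction n with
  | zero => exact h
  | succ n ih =>
    have := (ih.Ep ((upl_smooth hF n).of_le (by simp))).const_mul (I * al lam n)⁻¹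
    exact_mod_cast this

lemma upl_inv {lam : ℝ} {F : V → ℂ} (hF : ContDiffOn ℝ ∞ F Om) {a b c d : ℝ}
    (hd : a * d - b * c = 1) (h : Inv a b c d F) (n : ℕ) : Inv a b c d (upl lam F n) := by
  induction n with
  | zero => exact h
  | succ n ih =>
    intro v hv
    simp only [upl]
    rw [ih.Ep hd ((upl_smooth hF n).of_le (by simp)) v hv]

lemma I_al_ne {lam : ℝ} (hl : 0 < lam) (n : ℤ) : I * al lam n ≠ 0 :=
  mul_ne_zero I_ne_zero (by exact_mod_cast (al_pos hl n).ne')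

lemma upl_up {lam : ℝ} (hl : 0 < lam) (F : V → ℂ) (n : ℕ) (v : V) :
    Ep (upl lam F n) v = I * al lam n * upl lam F (n + 1) v := by
  simp only [upl]
  rw [← mul_assoc, mul_inv_cancel₀ (I_al_ne hl n), one_mul]

lemma upl_down {lam : ℝ} (hl : 0 < lam) {F : V → ℂ} (hF : ContDiffOn ℝ ∞ F Om) (h : Hom 0 F)
    (hC : ∀ v ∈ Om, Em (Ep F) v = -lam * F v) (n : ℕ) :
    ∀ v ∈ Om, Em (upl lam F (n + 1)) v = I * al lam n * upl lam F n v := by
  have key : ∀ n : ℕ, (∀ v ∈ Om, Em (Ep (upl lam F n)) v = -(al lam n) ^ 2 * upl lam F n v) →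
      ∀ v ∈ Om, Em (upl lam F (n + 1)) v = I * al lam n * upl lam F n v := by
    intro n hn v hv
    have d := diffAt_of_Om (contDiffOn_Ep (n := ∞) (upl_smooth (lam := lam) hF n)) (by simp) hv
    simp only [upl]
    rw [Em_const_mul _ d, hn v hv]
    have := I_al_ne hl n
    field_simp
    simp
  induction n with
  | zero =>
    apply key
    intro v hv
    have : ((al lam ((0 : ℕ) : ℤ) : ℝ) : ℂ) ^ 2 = lam := by
      rw [← ofReal_pow, al_sq hl]; simp
    rw [this]; exact hC v hv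
  | succ n ih =>
    apply key
    intro v hv
    have c2 : ContDiffAt ℝ 2 (upl lam F (n + 1)) v :=
      ((upl_smooth hF (n + 1)).contDiffAt (isOpen_Om.mem_nhds hv)).of_le two_le_infty
    have e := Ep_Em_sub c2
    rw [(upl_hom hF h (n + 1)).fderiv_I hv (c2.differentiableAt two_ne_zero),
      Ep_congr_Om hv ih, Ep_const_mul _ (diffAt_of_Om (upl_smooth hF n) (by simp) hv),
      upl_up hl] at e
    have s1 : ((al lam (n : ℤ) : ℝ) : ℂ) ^ 2 = lam + n * (n + 1) := by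
      rw [← ofReal_pow, al_sq hl]; simp
    have s2 : ((al lam ((n + 1 : ℕ) : ℤ) : ℝ) : ℂ) ^ 2 = lam + (n + 1) * (n + 2) := by
      rw [← ofReal_pow, al_sq hl]; push_cast; ring
    rw [s2]
    push_cast at e
    linear_combination (-1 : ℂ) * e + (I * I * upl lam F (n + 1) v) * s1 +
      ((lam + n * (n + 1) + 2 * (n + 1)) * upl lam F (n + 1) v) * I_mul_I

def ladder (lam : ℝ) (F : V → ℂ) : ℤ → V → ℂ
  | Int.ofNat n => upl lam F n
  | Int.negSucc n => fun v => (-1) ^ (n + 1) * conj (upl lam F (n + 1) v)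

lemma ladder_nat (lam : ℝ) (F : V → ℂ) (n : ℕ) : ladder lam F n = upl lam F n := rfl

lemma ladder_neg (lam : ℝ) {F : V → ℂ} (hr : ∀ v, conj (F v) = F v) (n : ℕ) :
    ladder lam F (-n) = fun v => (-1) ^ n * conj (upl lam F n v) := by
  cases n with
  | zero => ext v; simp [ladder, upl, hr]
  | succ n => rfl

theorem isLadder {lam : ℝ} (hl : 0 < lam) {F : V → ℂ} (hF : ContDiffOn ℝ ∞ F Om) (h : Hom 0 F)
    (hr : ∀ v, conj (F v) = F v) (hC : ∀ v ∈ Om, Em (Ep F) v = -lam * F v) :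
    Ladder lam (ladder lam F) := by
  have sm : ∀ n : ℕ, ContDiffOn ℝ 1 (upl lam F n) Om := fun n =>
    (upl_smooth hF n).of_le (by simp)
  have df : ∀ n : ℕ, ∀ v ∈ Om, DifferentiableAt ℝ (fun w => conj (upl lam F n w)) v :=
    fun n v hv => differentiableAt_conj' (diffAt_of_Om (sm n) one_ne_zero hv)
  refine ⟨?_, ?_, ?_, ?_, ?_⟩
  · rintro (n | n)
    · exact sm n
    · exact contDiffOn_const.mul (contDiffOn_conj' (sm (n + 1)))
  · rintro (n | n)
    · exact upl_hom hF h n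
    · exact (upl_hom hF h (n + 1)).conj.const_mul _
  · rintro (n | n) v hv
    · exact upl_up hl F n v
    · have e1 : Int.negSucc n + 1 = -(n : ℤ) := by omega
      have e2 : Int.negSucc n = -(n : ℤ) - 1 := by omega
      rw [e1, ladder_neg lam hr]
      change Ep (fun v => (-1) ^ (n + 1) * conj (upl lam F (n + 1) v)) v = _
      rw [Ep_const_mul _ (df _ v hv), Ep_conj, upl_down hl hF h hC n v hv, e2, al_neg]
      simp; ring
  · rintro (n | n) v hv
    · exact upl_down hl hF h hC n v hv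
    · have e1 : Int.negSucc n + 1 = -(n : ℤ) := by omega
      have e2 : al lam (Int.negSucc n) = al lam n := by
        rw [← al_neg lam n]; congr 1; omega
      rw [e1, ladder_neg lam hr, e2]
      change _ = _ * ((-1) ^ (n + 1) * conj (upl lam F (n + 1) v))
      rw [Em_const_mul _ (df _ v hv), Em_conj, upl_up hl]
      simp; ring
  · rintro (n | n) v
    · change conj (upl lam F n v) = (-1) ^ (n : ℤ) * ladder lam F (-(n : ℤ)) v
      rw [ladder_neg lam hr]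
      simp only [zpow_natCast]
      rw [← mul_assoc, ← mul_pow]; simp
    · change conj ((-1) ^ (n + 1) * conj (upl lam F (n + 1) v))
        = (-1) ^ (Int.negSucc n) * upl lam F (n + 1) v
      simp only [map_mul, map_pow, map_neg, map_one, Complex.conj_conj, zpow_negSucc]
      rw [← inv_pow]; simp

lemma ladder_inv {lam : ℝ} {F : V → ℂ} (hF : ContDiffOn ℝ ∞ F Om) {a b c d : ℝ}
    (hd : a * d - b * c = 1) (h : Inv a b c d F) (n : ℤ) : Inv a b c d (ladder lam F n) := by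
  rcases n with n | n
  · exact upl_inv hF hd h n
  · intro v hv
    simp only [ladder]
    rw [upl_inv hF hd h (n + 1) v hv]

open scoped Laplacian in
theorem exists_ladder {lam : ℝ} (hl : 0 < lam) {φ : ℂ → ℝ} (hφ : ContDiffOn ℝ ∞ φ UH)
    (he : ∀ z ∈ UH, z.im ^ 2 * Δ φ z = -lam * φ z) :
    ∃ Φ : ℤ → V → ℂ, Ladder lam Φ ∧ (∀ v, Φ 0 v = φ (pr v)) ∧
      ∀ a b c d : ℝ, a * d - b * c = 1 →
        (∀ z ∈ UH, φ ((a * z + b) / (c * z + d)) = φ z) → ∀ n, Inv a b c d (Φ n) := by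
  have hF : ContDiffOn ℝ ∞ (fun w : V => (φ (pr w) : ℂ)) Om :=
    ofRealCLM.contDiff.comp_contDiffOn (hφ.comp contDiffOn_pr fun v hv => pr_mem hv)
  refine ⟨ladder lam fun w => (φ (pr w) : ℂ), isLadder hl hF ?_ (by simp) ?_, fun v => rfl, ?_⟩
  · intro c hc v _
    simp [pr_smul hc]
  · intro v hv
    rw [Em_Ep_comp_pr (hφ.of_le two_le_infty) hv, he _ (pr_mem hv)]; simp
  · intro a b c d hd hi n
    apply ladder_inv hF hd
    intro v hv
    have h2 := snd_ne_zero hv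
    have : pr (Lg a b c d v) = (a * pr v + b) / (c * pr v + d) := by
      simp only [pr, Lg_apply]
      have e1 : a * (v.1 / v.2) + b = (a * v.1 + b * v.2) / v.2 := by field_simp
      have e2 : c * (v.1 / v.2) + d = (c * v.1 + d * v.2) / v.2 := by field_simp
      rw [e1, e2, div_div_div_cancel_right₀ h2]
    simp only [this, hi _ (pr_mem hv)]

end Pool.Agent.Lib.MP_a52643_an
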