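import Pool.Agent.Lib.MP_a52643_an.Fejer

/-!
The microlocal limit measure on the cone model.
-/

open Complex MeasureTheory Set Filter Topology Asymptotics
open scoped ComplexConjugate ContDiff ENNReal CompactlySupported

noncomputable section

namespace Pool.Agent.Lib.MP_a52643_an

variable {J : Type} {U : Ultrafilter J} {lam : J → ℝ} {Φ : J → ℤ → V → ℂ}

def UW (U : Ultrafilter J) : Ultrafilter (ℕ × J) :=
  (hyperfilter ℕ).bind fun N => U.map (Prod.mk N)

lemma eventually_UW {P : ℕ × J → Prop} (h : ∀ᶠ N in atTop, ∀ᶠ j in (U : Filter J), P (N, j)) :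
    ∀ᶠ p in (UW U : Filter (ℕ × J)), P p :=
  eventually_bind.2 (Nat.hyperfilter_le_atTop h)

lemma tendsto_UW {x : ℕ × J → ℂ} {y : ℕ → ℂ} {z : ℂ}
    (h1 : ∀ N, Tendsto (fun j => x (N, j)) U (𝓝 (y N))) (h2 : Tendsto y atTop (𝓝 z)) :
    Tendsto x (UW U) (𝓝 z) := by
  rw [Metric.tendsto_nhds] at h2 ⊢
  intro ε hε
  apply eventually_UW
  filter_upwards [h2 (ε / 2) (by positivity)] with N hN
  filter_upwards [Metric.tendsto_nhds.1 (h1 N) (ε / 2) (by positivity)] with j hj
  linarith [dist_triangle (x (N, j)) (y N) z]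

def dens (Φ : J → ℤ → V → ℂ) (p : ℕ × J) (v : V) : ℝ := ‖SS (Φ p.2) 0 p.1 v‖ ^ 2 / p.1

lemma dens_nonneg (p : ℕ × J) (v : V) : 0 ≤ dens Φ p v := by unfold dens; positivity

lemma Fam.cont_dens (h : Fam U lam Φ) (p : ℕ × J) : ContinuousOn (dens Φ p) Om :=
  (((h.lad p.2).cont_SS 0 p.1).norm.pow 2).div_const _

lemma Fam.cont_densC (h : Fam U lam Φ) (p : ℕ × J) :
    ContinuousOn (fun v => (dens Φ p v : ℂ)) Om :=
  continuous_ofReal.comp_continuousOn (h.cont_dens p)

lemma Fam.lb_dens (h : Fam U lam Φ) : LB (UW U) fun p v => ‖(dens Φ p v : ℂ)‖ := by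
  intro R
  obtain ⟨C, -, -, hC⟩ := h.SS_bound R
  refine ⟨C, eventually_UW ?_⟩
  filter_upwards [eventually_gt_atTop 0] with N hN
  filter_upwards [hC N] with j hj
  simp only [Complex.norm_real, Real.norm_of_nonneg (dens_nonneg _ _)]
  simp only [dens]
  rw [integral_div, div_le_iff₀ (by exact_mod_cast hN)]
  linarith

lemma Fam.isBigO_dens (h : Fam U lam Φ) {F : V → ℝ} (hF : Continuous F)
    (hc : HasCompactSupport F) :
    (fun p => ∫ v, F v * dens Φ p v ∂mV) =O[UW U] fun _ => (1 : ℝ) := by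
  have := h.lb_dens.isBigO h.cont_densC (τ := fun v => (F v : ℂ))
    ((CS.of_hcs hc).comp (g := ofReal) (by simp)) (by fun_prop)
  simp only [← ofReal_mul, integral_complex_ofReal] at this
  exact isBigO_ofReal_left.1 this

lemma Fam.int_dens (h : Fam U lam Φ) {F : V → ℝ} (hF : Continuous F) (hc : HasCompactSupport F)
    (p : ℕ × J) : Integrable (fun v => F v * dens Φ p v) mV :=
  ((CS.of_hcs hc).mul_right _).integrable (hF.continuousOn.mul (h.cont_dens p))

structure IsLim (U : Ultrafilter J) (Φ : J → ℤ → V → ℂ) (μ : Measure V) : Prop where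
  lf : IsLocallyFiniteMeasure μ
  tend : ∀ F : V → ℝ, Continuous F → HasCompactSupport F →
    Tendsto (fun p => ∫ v, F v * dens Φ p v ∂mV) (UW U) (𝓝 (∫ v, F v ∂μ))

theorem Fam.exists_isLim (h : Fam U lam Φ) : ∃ μ, IsLim U Φ μ := by
  have T := fun F : C_c(V, ℝ) => tendsto_ul (h.isBigO_dens F.continuous F.hasCompactSupport)
  let L : C_c(V, ℝ) →ₗ[ℝ] ℝ :=
    { toFun := fun F => ul (UW U) fun p => ∫ v, F v * dens Φ p v ∂mV
      map_add' := fun F G => by
        refine tendsto_nhds_unique (T (F + G)) (((T F).add (T G)).congr fun p => ?_)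
        rw [← integral_add (h.int_dens F.continuous F.hasCompactSupport p)
          (h.int_dens G.continuous G.hasCompactSupport p)]
        simp [add_mul]
      map_smul' := fun c F => by
        refine tendsto_nhds_unique (T (c • F)) (((T F).const_mul c).congr fun p => ?_)
        rw [← integral_const_mul]
        simp [mul_assoc] }
  let Λ : C_c(V, ℝ) →ₚ[ℝ] ℝ := PositiveLinearMap.mk₀ L fun F hF =>
    ge_of_tendsto' (T F) fun p => integral_nonneg fun v => mul_nonneg (hF v) (dens_nonneg p v)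
  refine ⟨RealRMK.rieszMeasure Λ, inferInstance, fun F hF hc => ?_⟩
  have := RealRMK.integral_rieszMeasure Λ ⟨⟨F, hF⟩, hc⟩
  have e : ∫ v, F v ∂(RealRMK.rieszMeasure Λ) = _ := this
  rw [e]
  exact T ⟨⟨F, hF⟩, hc⟩

variable {μ : Measure V}

lemma IsLim.tendC (h : Fam U lam Φ) (hμ : IsLim U Φ μ) {F : V → ℂ} (hF : Continuous F)
    (hc : HasCompactSupport F) :
    Tendsto (fun p => ∫ v, F v * dens Φ p v ∂mV) (UW U) (𝓝 (∫ v, F v ∂μ)) := by
  have := hμ.lf
  have c1 : Continuous fun v => (F v).re := by fun_prop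
  have c2 : Continuous fun v => (F v).im := by fun_prop
  have s1 : HasCompactSupport fun v => (F v).re := hc.comp_left (g := re) (by simp)
  have s2 : HasCompactSupport fun v => (F v).im := hc.comp_left (g := im) (by simp)
  have := (hμ.tend _ c1 s1).ofReal.add ((hμ.tend _ c2 s2).ofReal.mul_const I)
  have e := integral_re_add_im (hF.integrable_of_hasCompactSupport hc (μ := μ))
  simp only [RCLike.re_to_complex, RCLike.im_to_complex, RCLike.I_to_complex] at e
  rw [← e]
  refine this.congr fun p => ?_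
  have e2 := integral_re_add_im (((CS.of_hcs hc).mul_right fun v => (dens Φ p v : ℂ)).integrable
    (hF.continuousOn.mul (h.cont_densC p)))
  simp only [RCLike.re_to_complex, RCLike.im_to_complex, RCLike.I_to_complex, re_mul_ofReal,
    im_mul_ofReal] at e2
  exact e2

lemma IsLim.ae_cslab (hμ : IsLim U Φ μ) : ∀ᵐ v ∂μ, v ∈ cslab := by
  have := hμ.lf
  have ho := isClosed_cslab.isOpen_compl
  change μ cslabᶜ = 0
  rw [ho.measure_eq_iSup_isCompact]
  simp only [ENNReal.iSup_eq_zero]
  intro K hK hKc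
  obtain ⟨f, hf1, hf2, hf3, hf4⟩ := exists_continuousMap_one_of_isCompact_subset_isOpen hKc ho hK
  have hc : HasCompactSupport f := hasCompactSupport_def.mpr hf2
  have t := hμ.tend f f.continuous hc
  have z : ∀ p, ∫ v, f v * dens Φ p v ∂mV = 0 := fun p => by
    refine integral_eq_zero_of_ae (ae_slab.mono fun v hv => ?_)
    have : f v = 0 := image_eq_zero_of_notMem_tsupport fun h' => hf3 h' (slab_subset_cslab hv)
    simp [this]
  simp only [z] at t
  have e : ∫ v, f v ∂μ = 0 := tendsto_nhds_unique t tendsto_const_nhds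
  rw [integral_eq_zero_iff_of_nonneg (fun v => (hf4 v).1)
    (f.continuous.integrable_of_hasCompactSupport hc)] at e
  refine measure_mono_null (fun v hv => ?_) e
  simp [hf1 hv]

def th (t : ℝ) : ℝ := max 0 (min 1 (min (3 * t - 2) (5 - 2 * t)))

lemma continuous_th : Continuous th := by unfold th; fun_prop

lemma th_one {t : ℝ} (h1 : 1 ≤ t) (h2 : t ≤ 2) : th t = 1 := by
  unfold th
  rw [min_eq_left (le_min (by linarith) (by linarith))]; simp

lemma th_zero {t : ℝ} (h : t ≤ 2 / 3 ∨ 3 ≤ t) : th t = 0 := by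
  unfold th
  apply max_eq_left
  rcases h with h | h
  · exact (min_le_right _ _).trans ((min_le_left _ _).trans (by linarith))
  · exact (min_le_right _ _).trans ((min_le_right _ _).trans (by linarith))

/-- compact support relative to a wider slab -/
def WCS (F : V → ℂ) : Prop := ∃ R : ℝ, ∀ v ∈ Om, dt v ≤ 3 → R < ‖v‖ → F v = 0

lemma WCS.cs {F : V → ℂ} (h : WCS F) : CS F := by
  obtain ⟨R, hR⟩ := h
  exact ⟨R, fun v hv => hR v (slab_subset_Om hv) (by linarith [hv.2])⟩

lemma WCS.cut {F : V → ℂ} (h : WCS F) (hF : ContinuousOn F Om) :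
    Continuous (fun v => (th (dt v) : ℂ) * F v) ∧
      HasCompactSupport fun v => (th (dt v) : ℂ) * F v := by
  have c : Continuous fun v => (th (dt v) : ℂ) :=
    continuous_ofReal.comp (continuous_th.comp continuous_dt)
  constructor
  · rw [continuous_iff_continuousAt]
    intro v
    by_cases hv : v ∈ Om
    · exact c.continuousAt.mul (hF.continuousAt (isOpen_Om.mem_nhds hv))
    · have : dt v < 2 / 3 := by
        have : dt v ≤ 0 := not_lt.1 hv
        linarith
      refine (continuousAt_const (y := (0 : ℂ))).congr ?_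
      filter_upwards [continuous_dt.continuousAt.eventually (gt_mem_nhds this)] with w hw
      simp [th_zero (Or.inl hw.le)]
  · obtain ⟨R, hR⟩ := h
    refine HasCompactSupport.intro (isCompact_closedBall (0 : V) R) fun v hv => ?_
    by_cases h1 : dt v ≤ 2 / 3
    · simp [th_zero (Or.inl h1)]
    by_cases h2 : 3 ≤ dt v
    · simp [th_zero (Or.inr h2)]
    rw [hR v (show 0 < dt v by linarith) (by linarith) (by simpa using hv), mul_zero]

lemma IsLim.ae_th (hμ : IsLim U Φ μ) (F : V → ℂ) : (fun v => (th (dt v) : ℂ) * F v) =ᵐ[μ] F :=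
  hμ.ae_cslab.mono fun v hv => by simp [th_one hv.1 hv.2]

lemma IsLim.integrable (hμ : IsLim U Φ μ) {F : V → ℂ} (hc : WCS F) (hF : ContinuousOn F Om) :
    Integrable F μ := by
  have := hμ.lf
  exact ((hc.cut hF).1.integrable_of_hasCompactSupport (hc.cut hF).2).congr (hμ.ae_th F)

lemma IsLim.tendW (h : Fam U lam Φ) (hμ : IsLim U Φ μ) {F : V → ℂ} (hc : WCS F)
    (hF : ContinuousOn F Om) :
    Tendsto (fun p => ∫ v, F v * dens Φ p v ∂mV) (UW U) (𝓝 (∫ v, F v ∂μ)) := by
  rw [← integral_congr_ae (hμ.ae_th F)]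
  refine (hμ.tendC h (hc.cut hF).1 (hc.cut hF).2).congr fun p => ?_
  exact integral_congr_ae (ae_slab.mono fun v hv => by simp [th_one hv.1.le hv.2.le])

lemma TF.wcs {τ : ℂ → ℂ} (h : TF τ) (G : V → ℂ) : WCS fun v => τ (pr v) * G v := by
  obtain ⟨R, hR⟩ := exists_R_of_compact' h.hcs.isCompact h.sub
  refine ⟨R, fun v hv h3 h' => ?_⟩
  have : τ (pr v) = 0 := image_eq_zero_of_notMem_tsupport fun h2 => by linarith [hR v hv h3 h2]
  simp [this]

lemma card_shift (N : ℕ) (k : ℤ) :
    ((N : ℝ) - |k|) ≤ ∑ a ∈ Finset.range N, ∑ b ∈ Finset.range N,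
      (if (a : ℤ) - b = k then (1 : ℝ) else 0) ∧
    ∑ a ∈ Finset.range N, ∑ b ∈ Finset.range N, (if (a : ℤ) - b = k then (1 : ℝ) else 0) ≤ N := by
  have key : ∀ a : ℕ, ∑ b ∈ Finset.range N, (if (a : ℤ) - b = k then (1 : ℝ) else 0)
      = if k ≤ a ∧ (a : ℤ) - k < N then 1 else 0 := by
    intro a
    split_ifs with h
    · rw [Finset.sum_eq_single ((a : ℤ) - k).toNat]
      · rw [if_pos (by omega)]
      · intro b _ hb; rw [if_neg (by omega)]
      · intro hb; simp at hb; omega
    · refine Finset.sum_eq_zero fun b hb => ?_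
      simp only [Finset.mem_range] at hb
      rw [if_neg (by omega)]
  simp only [key]
  constructor
  · rw [Finset.sum_boole]
    have : Finset.Ico k.toNat (N - (-k).toNat) ⊆
        (Finset.range N).filter fun a : ℕ => k ≤ a ∧ (a : ℤ) - k < N := by
      intro a ha
      simp only [Finset.mem_Ico, Finset.mem_filter, Finset.mem_range] at ha ⊢
      omega
    have h2 := Finset.card_le_card this
    rw [Nat.card_Ico] at h2
    have h3 : (N : ℤ) - |k| ≤ (((Finset.range N).filter
        fun a : ℕ => k ≤ a ∧ (a : ℤ) - k < N).card : ℤ) := by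
      rcases abs_cases k with h | h <;> omega
    exact_mod_cast h3
  · refine (Finset.sum_le_sum (g := fun _ => (1 : ℝ)) fun a _ => ?_).trans (by simp)
    split_ifs <;> norm_num

lemma tendsto_card_shift (k : ℤ) : Tendsto (fun N : ℕ => (∑ a ∈ Finset.range N,
    ∑ b ∈ Finset.range N, (if (a : ℤ) - b = k then (1 : ℝ) else 0)) / N) atTop (𝓝 1) := by
  have t : Tendsto (fun N : ℕ => 1 - (|k| : ℝ) / N) atTop (𝓝 1) := by
    simpa using (tendsto_const_div_atTop_nhds_zero_nat (|k| : ℝ)).const_sub 1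
  refine tendsto_of_tendsto_of_tendsto_of_le_of_le' t tendsto_const_nhds ?_ ?_
  · filter_upwards [eventually_gt_atTop 0] with N hN
    have : (0 : ℝ) < N := by exact_mod_cast hN
    rw [le_div_iff₀ this, sub_mul, div_mul_cancel₀ _ this.ne', one_mul]
    exact_mod_cast (card_shift N k).1
  · filter_upwards [eventually_gt_atTop 0] with N hN
    have : (0 : ℝ) < N := by exact_mod_cast hN
    rw [div_le_one this]
    exact (card_shift N k).2

lemma hom_test (τ : ℂ → ℂ) (k : ℤ) : Hom k fun v => τ (pr v) * om v ^ k := by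
  intro c hc v _
  simp only [pr_smul hc, om_smul, mul_zpow]; ring

/-- Fourier modes of the limit measure, smooth test functions -/
lemma IsLim.mode_smooth (h : Fam U lam Φ) (hμ : IsLim U Φ μ) {τ : ℂ → ℂ} (hτ : TF τ)
    (hd : ContDiff ℝ 1 τ) (a b : ℤ) :
    Tendsto (fun j => ∫ v, (τ (pr v) * om v ^ (-(a - b))) * TT (Φ j) a b v ∂mV) U
      (𝓝 (∫ v, τ (pr v) * om v ^ (-(a - b)) ∂μ)) := by
  set k := a - b with hk
  set σ : V → ℂ := fun v => τ (pr v) * om v ^ (-k) with hσ
  have cs : CS σ := hτ.cs.mul_right _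
  have cd : ContDiffOn ℝ 1 σ Om := (hd.comp_contDiffOn contDiffOn_pr).mul (contDiffOn_om_zpow _)
  have t0 := tendsto_ul (h.isBigO_TT a b cs cd.continuousOn)
  set t := ul U fun j => ∫ v, σ v * TT (Φ j) a b v ∂mV
  have key : ∀ a' b' : ℤ, Tendsto (fun j => ∫ v, σ v * TT (Φ j) a' b' v ∂mV) U
      (𝓝 (((if a' - b' = k then (1 : ℝ) else 0 : ℝ) : ℂ) * t)) := by
    intro a' b'
    split_ifs with h'
    · have := (h.TT_shift cs cd a b (a' - a)).add t0
      have e1 : a + (a' - a) = a' := by ring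
      have e2 : b + (a' - a) = b' := by omega
      simpa [e1, e2] using this
    · have : ∀ j, ∫ v, σ v * TT (Φ j) a' b' v ∂mV = 0 := fun j =>
        integral_hom_zero (k := -k + (a' - b')) (by omega) ((cs.mul_right _).integrable
          (cd.continuousOn.mul ((h.lad j).cd_TT a' b').continuousOn))
          ((hom_test τ (-k)).mul ((h.lad j).hom_TT a' b'))
      simp [this]
  have t1 : Tendsto (fun p => ∫ v, σ v * dens Φ p v ∂mV) (UW U) (𝓝 t) := by
    refine tendsto_UW (y := fun N => (((∑ a ∈ Finset.range N, ∑ b ∈ Finset.range N,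
      (if (a : ℤ) - b = k then (1 : ℝ) else 0)) / N : ℝ) : ℂ) * t) (fun N => ?_) (by
        simpa using (tendsto_card_shift k).ofReal.mul_const t)
    have := (tendsto_finsetSum (Finset.range N) fun (a : ℕ) _ =>
      tendsto_finsetSum (Finset.range N) fun (b : ℕ) _ => key a b).div_const (N : ℂ)
    have ii : ∀ j a b, Integrable (fun v => σ v * TT (Φ j) a b v) mV := fun j a b =>
      (cs.mul_right _).integrable (cd.continuousOn.mul ((h.lad j).cd_TT a b).continuousOn)
    convert this using 2 with j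
    · simp only [dens, ofReal_div, ← mul_conj_sq, SS_mul_conj, add_zero, ← mul_div_assoc,
        integral_div, Finset.mul_sum, ofReal_natCast]
      rw [integral_finsetSum _ fun a _ => integrable_finsetSum _ fun b _ => ii _ _ _]
      congr 1
      exact Finset.sum_congr rfl fun a _ => integral_finsetSum _ fun b _ => ii _ _ _
    · simp only [← Finset.sum_mul]; push_cast; ring
  rwa [tendsto_nhds_unique t1 (hμ.tendW h (hτ.wcs _) cd.continuousOn)] at t0

lemma TF.approx {τ : ℂ → ℂ} (h : TF τ) {ε : ℝ} (hε : 0 < ε) :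
    ∃ g : ℂ → ℂ, TF g ∧ ContDiff ℝ 1 g ∧ (∀ z, ‖g z - τ z‖ ≤ ε) ∧ tsupport g ⊆ tsupport τ := by
  obtain ⟨g, h1, h2, h3⟩ := h.cont.exists_contDiff_approx 1 (ε := fun _ => ε) continuous_const
    fun _ => hε
  have := closure_mono h3
  exact ⟨g, ⟨h1.continuous, h.hcs.mono h3, this.trans h.sub⟩, h1,
    fun z => by simpa [dist_eq_norm] using (h2 z).le, this⟩

/-- Fourier modes of the limit measure -/
theorem IsLim.mode (h : Fam U lam Φ) (hμ : IsLim U Φ μ) {τ : ℂ → ℂ} (hτ : TF τ) (a b : ℤ) :
    Tendsto (fun j => ∫ z, τ z * psi (Φ j) ![a, b] z ∂hyp) U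
      (𝓝 ((-1) ^ b * ∫ v, τ (pr v) * om v ^ (-(a + b)) ∂μ)) := by
  have := hμ.lf
  have e : ∀ {τ : ℂ → ℂ} (_ : TF τ) j, ∫ z, τ z * psi (Φ j) ![a, b] z ∂hyp
      = (-1) ^ b * ∫ v, (τ (pr v) * om v ^ (-(a + b))) * TT (Φ j) a (-b) v ∂mV := by
    intro τ hτ j
    rw [integral_psi (h.lad j) hτ, ← integral_const_mul]
    congr 1; ext v
    have : (-1 : ℂ) ^ b * (-1) ^ (-b) = 1 := by rw [← zpow_add₀ (by norm_num)]; simp
    simp only [(h.lad j).TT_eq, neg_neg, Fin.sum_univ_two, Matrix.cons_val_zero,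
      Matrix.cons_val_one]
    linear_combination (-(τ (pr v) * om v ^ (-(a + b)) * mono (Φ j) ![a, b] v)) * this
  simp only [e hτ]
  refine Tendsto.const_mul _ ?_
  obtain ⟨R, hR⟩ := exists_R_of_compact hτ.hcs.isCompact hτ.sub
  obtain ⟨C, hC⟩ := h.lb_TT a (-b) R
  rw [Metric.tendsto_nhds]
  intro ε hε
  set M := μ.real (KB R)
  have hM : 0 ≤ M := measureReal_nonneg
  set δ := ε / (3 * (|C| + M + 1)) with hδ
  have hδ0 : 0 < δ := by positivity
  have hδ1 : δ * (|C| + M + 1) = ε / 3 := by rw [hδ]; field_simp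
  obtain ⟨g, hg, hgd, hg1, hg2⟩ := hτ.approx hδ0
  have t := hμ.mode_smooth h hg hgd a (-b)
  simp only [sub_neg_eq_add] at t
  have hz : ∀ v ∈ cslab, R < ‖v‖ → g (pr v) - τ (pr v) = 0 := by
    intro v hv h'
    have h1 : pr v ∉ tsupport τ := fun h2 => by linarith [hR v hv h2]
    rw [image_eq_zero_of_notMem_tsupport h1, image_eq_zero_of_notMem_tsupport fun h2 => h1 (hg2 h2)]
    simp
  have hb : ∀ v ∈ Om, ‖(g (pr v) - τ (pr v)) * om v ^ (-(a + b))‖ ≤ δ := by
    intro v hv
    rw [norm_mul, norm_zpow, norm_om (snd_ne_zero hv)]; simpa using hg1 _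
  have co := (contDiffOn_om_zpow (n := 0) (-(a + b))).continuousOn
  have n2 : ‖(∫ v, g (pr v) * om v ^ (-(a + b)) ∂μ) - ∫ v, τ (pr v) * om v ^ (-(a + b)) ∂μ‖
      ≤ δ * M := by
    rw [← integral_sub (hμ.integrable (hg.wcs _) (hg.contOn.mul co))
      (hμ.integrable (hτ.wcs _) (hτ.contOn.mul co)),
      ← setIntegral_eq_integral_of_ae_compl_eq_zero (s := KB R)]
    · refine norm_setIntegral_le_of_norm_le_const (isCompact_KB R).measure_lt_top fun v hv => ?_
      rw [← sub_mul]; exact hb v (KB_subset_Om R hv)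
    · filter_upwards [hμ.ae_cslab] with v hv h'
      rw [← sub_mul, hz v hv, zero_mul]
      by_contra h3
      exact h' ⟨by simpa using h3, hv⟩
  filter_upwards [hC, Metric.tendsto_nhds.1 t (ε / 3) (by positivity)] with j h1 h2
  have cT := ((h.lad j).cd_TT a (-b)).continuousOn
  have n1 := norm_integral_mul_le (τ := fun v => (g (pr v) - τ (pr v)) * om v ^ (-(a + b))) (R := R)
    (fun v hv h' => by rw [hz v (slab_subset_cslab hv) h', zero_mul])
    (fun v hv => hb v (slab_subset_Om hv)) cT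
  simp only [sub_mul] at n1
  rw [integral_sub (((hg.cs.mul_right _).mul_right _).integrable ((hg.contOn.mul co).mul cT))
    (((hτ.cs.mul_right _).mul_right _).integrable ((hτ.contOn.mul co).mul cT))] at n1
  rw [dist_eq_norm] at h2 ⊢
  have n1' := n1.trans (mul_le_mul_of_nonneg_left (h1.trans (le_abs_self C)) hδ0.le)
  rw [norm_sub_rev] at n1'
  have := norm_sub_le_norm_sub_add_norm_sub
    (∫ v, τ (pr v) * om v ^ (-(a + b)) * TT (Φ j) a (-b) v ∂mV)
    (∫ v, g (pr v) * om v ^ (-(a + b)) * TT (Φ j) a (-b) v ∂mV)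
    (∫ v, τ (pr v) * om v ^ (-(a + b)) ∂μ)
  have := norm_sub_le_norm_sub_add_norm_sub
    (∫ v, g (pr v) * om v ^ (-(a + b)) * TT (Φ j) a (-b) v ∂mV)
    (∫ v, g (pr v) * om v ^ (-(a + b)) ∂μ)
    (∫ v, τ (pr v) * om v ^ (-(a + b)) ∂μ)
  nlinarith

/-! invariance -/

lemma measurePreserving_of_smooth [IsLocallyFiniteMeasure μ] (e : V ≃ₜ V)
    (he : ∀ F : V → ℝ, ContDiff ℝ 1 F → HasCompactSupport F → ∫ v, F (e v) ∂μ = ∫ v, F v ∂μ) :
    MeasurePreserving e μ μ := by
  refine ⟨e.continuous.measurable, ?_⟩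
  have : (μ.map e).Regular := Measure.Regular.map e
  refine Measure.ext_of_integral_eq_on_compactlySupported fun f => ?_
  rw [integral_map (f := fun x => f x) e.continuous.measurable.aemeasurable
    f.continuous.aestronglyMeasurable]
  set K := tsupport f
  have hK : IsCompact K := f.hasCompactSupport
  have hK' : IsCompact (e ⁻¹' K) := e.isCompact_preimage.2 hK
  refine eq_of_forall_dist_le fun ε hε => ?_
  set M := μ.real K + μ.real (e ⁻¹' K) + 1
  have m1 : 0 ≤ μ.real K := measureReal_nonneg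
  have m2 : 0 ≤ μ.real (e ⁻¹' K) := measureReal_nonneg
  have hδ0 : 0 < ε / M := by positivity
  obtain ⟨g, h1, h2, h3⟩ := f.continuous.exists_contDiff_approx 1 (ε := fun _ => ε / M)
    continuous_const fun _ => hδ0
  have hg : HasCompactSupport g := f.hasCompactSupport.mono h3
  have hz : ∀ v ∉ K, g v - f v = 0 := fun v hv => by
    rw [image_eq_zero_of_notMem_tsupport hv,
      image_eq_zero_of_notMem_tsupport fun h' => hv (closure_mono h3 h')]; simp
  have n1 : ‖(∫ v, g v ∂μ) - ∫ v, f v ∂μ‖ ≤ ε / M * μ.real K := by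
    rw [← integral_sub (h1.continuous.integrable_of_hasCompactSupport hg) f.integrable,
      ← setIntegral_eq_integral_of_forall_compl_eq_zero hz]
    exact norm_setIntegral_le_of_norm_le_const hK.measure_lt_top fun v _ => (h2 v).le
  have n2 : ‖(∫ v, g (e v) ∂μ) - ∫ v, f (e v) ∂μ‖ ≤ ε / M * μ.real (e ⁻¹' K) := by
    rw [← integral_sub (f := fun v => g (e v)) (g := fun v => f (e v))
      ((h1.continuous.comp e.continuous).integrable_of_hasCompactSupport
      (hg.comp_homeomorph e)) ((f.continuous.comp e.continuous).integrable_of_hasCompactSupport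
      (f.hasCompactSupport.comp_homeomorph e)),
      ← setIntegral_eq_integral_of_forall_compl_eq_zero (s := e ⁻¹' K) fun v hv => hz _ hv]
    exact norm_setIntegral_le_of_norm_le_const hK'.measure_lt_top fun v _ => (h2 _).le
  rw [he g h1 hg] at n2
  have : ε / M * (μ.real K + μ.real (e ⁻¹' K) + 1) = ε := div_mul_cancel₀ _ (by positivity)
  rw [Real.dist_eq]
  rw [Real.norm_eq_abs, abs_le] at n1 n2
  rw [abs_le]
  constructor <;> nlinarith [n1.1, n1.2, n2.1, n2.2]

def LgH {a b c d : ℝ} (h : a * d - b * c = 1) : V ≃ₜ V where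
  toFun := Lg a b c d
  invFun := Lg d (-b) (-c) a
  left_inv v := by
    have h' : (a : ℂ) * d - b * c = 1 := by exact_mod_cast h
    ext <;> simp
    · linear_combination v.1 * h'
    · linear_combination v.2 * h'
  right_inv v := by
    have h' : (a : ℂ) * d - b * c = 1 := by exact_mod_cast h
    ext <;> simp
    · linear_combination v.1 * h'
    · linear_combination v.2 * h'
  continuous_toFun := (Lg _ _ _ _).continuous
  continuous_invFun := (Lg _ _ _ _).continuous

theorem IsLim.mp_Lg (h : Fam U lam Φ) (hμ : IsLim U Φ μ) {a b c d : ℝ} (hd : a * d - b * c = 1)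
    (hi : ∀ j n, Inv a b c d (Φ j n)) : MeasurePreserving (Lg a b c d) μ μ := by
  have := hμ.lf
  refine measurePreserving_of_smooth (LgH hd) fun F hF hc => ?_
  refine tendsto_nhds_unique (hμ.tend _ (hF.continuous.comp (LgH hd).continuous)
    (hc.comp_homeomorph (LgH hd))) ((hμ.tend F hF.continuous hc).congr fun p => ?_)
  have mp := measurePreserving_Lg_mV hd
  rw [← mp.map_eq, integral_map mp.measurable.aemeasurable
    (by rw [mp.map_eq]; exact (h.int_dens hF.continuous hc p).1), mp.map_eq]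
  refine integral_congr_ae (ae_Om.mono fun v hv => ?_)
  simp only [dens, SS, hi _ _ v hv]
  rfl

def fl (t : ℝ) : V →L[ℝ] V := Real.cosh t • ContinuousLinearMap.id ℝ V + Real.sinh t • cj

lemma fl_apply (t : ℝ) (v : V) : fl t v = Real.cosh t • v + Real.sinh t • cj v := rfl

lemma cj_cj (v : V) : cj (cj v) = v := by ext <;> simp

lemma fl_fl (s t : ℝ) (v : V) : fl s (fl t v) = fl (s + t) v := by
  simp only [fl_apply, map_add, map_smul, cj_cj, Real.cosh_add, Real.sinh_add]
  module

lemma fl_zero (v : V) : fl 0 v = v := by simp [fl_apply]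

def flH (t : ℝ) : V ≃ₜ V where
  toFun := fl t
  invFun := fl (-t)
  left_inv v := by rw [fl_fl]; simp [fl_zero]
  right_inv v := by rw [fl_fl]; simp [fl_zero]
  continuous_toFun := (fl _).continuous
  continuous_invFun := (fl _).continuous

lemma IsLim.infinitesimal (h : Fam U lam Φ) (hμ : IsLim U Φ μ) {F : V → ℝ} (hF : ContDiff ℝ 1 F)
    (hc : HasCompactSupport F) : ∫ v, fderiv ℝ F v (cj v) ∂μ = 0 := by
  have c1 : Continuous fun v => fderiv ℝ F v (cj v) :=
    (hF.continuous_fderiv one_ne_zero).clm_apply cj.continuous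
  have s1 : HasCompactSupport fun v => fderiv ℝ F v (cj v) := by
    refine (hc.fderiv ℝ).mono fun v hv => ?_
    intro h0; apply hv; simp [h0]
  refine tendsto_nhds_unique (hμ.tend _ c1 s1) ?_
  have hF' : ContDiff ℝ 1 fun v => (F v : ℂ) := ofRealCLM.contDiff.comp hF
  obtain ⟨C, hC⟩ := h.approx_inv ((CS.of_hcs hc).comp (g := ofReal) (by simp)) hF'.contDiffOn
  rw [NormedAddGroup.tendsto_nhds_zero]
  intro ε hε
  apply eventually_UW
  have t : Tendsto (fun N : ℕ => C / Real.sqrt N) atTop (𝓝 0) :=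
    (Real.tendsto_sqrt_atTop.comp tendsto_natCast_atTop_atTop).const_div_atTop C
  filter_upwards [eventually_ge_atTop 1, t.eventually (gt_mem_nhds hε)] with N hN hN'
  filter_upwards [hC N hN] with j hj
  have e : ∀ v, Ep (fun v => (F v : ℂ)) v + Em (fun v => (F v : ℂ)) v
      = ((-fderiv ℝ F v (cj v) : ℝ) : ℂ) := by
    intro v
    have := (ofRealCLM.hasFDerivAt.comp v (hF.differentiable one_ne_zero v).hasFDerivAt).fderiv
    have e2 : fderiv ℝ (fun v => (F v : ℂ)) v = _ := this
    rw [Ep_add_Em, e2]; simp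
  simp only [e, ← ofReal_mul, integral_complex_ofReal, Complex.norm_real, neg_mul, integral_neg,
    norm_neg] at hj
  have hN0 : (0 : ℝ) < N := by exact_mod_cast hN
  have hs : 0 < Real.sqrt N := Real.sqrt_pos.2 hN0
  simp only [dens, ← mul_div_assoc, integral_div, norm_div, Real.norm_natCast]
  refine lt_of_le_of_lt ?_ hN'
  rw [div_le_div_iff₀ hN0 hs]
  refine (mul_le_mul_of_nonneg_right hj hs.le).trans (le_of_eq ?_)
  rw [mul_assoc, Real.mul_self_sqrt hN0.le]

theorem IsLim.mp_fl (h : Fam U lam Φ) (hμ : IsLim U Φ μ) (T : ℝ) :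
    MeasurePreserving (fl T) μ μ := by
  have := hμ.lf
  refine measurePreserving_of_smooth (flH T) fun F hF hc => ?_
  have hcont : Continuous fun p : ℝ × V => fl p.1 p.2 := by
    simp only [fl_apply]; fun_prop
  set G : ℝ → V → ℝ := fun t v => fderiv ℝ F (fl t v) (cj (fl t v)) with hG
  have cG : Continuous G.uncurry :=
    ((hF.continuous_fderiv one_ne_zero).comp hcont).clm_apply (cj.continuous.comp hcont)
  have hder : ∀ v t, HasDerivAt (fun t => F (fl t v)) (G t v) t := by
    intro v t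
    have h1 : HasDerivAt (fun t => fl t v) (cj (fl t v)) t := by
      simp only [fl_apply, map_add, map_smul, cj_cj]
      have := ((Real.hasDerivAt_cosh t).smul_const v).add ((Real.hasDerivAt_sinh t).smul_const (cj v))
      rwa [add_comm (Real.sinh t • v)] at this
    exact (hF.differentiable one_ne_zero _).hasFDerivAt.comp_hasDerivAt t h1
  have ftc : ∀ v, F (fl T v) - F v = ∫ t in (0 : ℝ)..T, G t v := fun v => by
    rw [intervalIntegral.integral_eq_sub_of_hasDerivAt (fun t _ => hder v t)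
      ((cG.comp (continuous_id.prodMk continuous_const)).intervalIntegrable _ _), fl_zero]
  have zero : ∀ t, ∫ v, G t v ∂μ = 0 := fun t => by
    have := hμ.infinitesimal h (hF.comp (fl t).contDiff) (hc.comp_homeomorph (flH t))
    refine Eq.trans (integral_congr_ae (Eventually.of_forall fun v => ?_)) this
    have e := ((hF.differentiable one_ne_zero _).hasFDerivAt.comp v (fl t).hasFDerivAt).fderiv
    have e2 : cj (fl t v) = fl t (cj v) := by simp only [fl_apply, map_add, map_smul]
    simp only [hG, e, e2, ContinuousLinearMap.comp_apply]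
  set K : Set V := (fun p : ℝ × V => fl p.1 p.2) '' (uIcc (-0) (-T) ×ˢ tsupport F)
  have hK : IsCompact K := (isCompact_uIcc.prod hc.isCompact).image hcont
  have hz : ∀ t ∈ uIcc 0 T, ∀ v ∉ K, G t v = 0 := by
    intro t ht v hv
    have : fl t v ∉ tsupport F := fun h' => hv ⟨(-t, fl t v), ⟨by
      simpa [mem_uIcc, or_comm, and_comm, neg_le_neg_iff] using ht, h'⟩, by
        simp [fl_fl, fl_zero]⟩
    have h0 : fderiv ℝ F (fl t v) = 0 := by
      by_contra h'
      exact this (support_fderiv_subset ℝ h')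
    simp [hG, h0]
  have hi : Integrable G.uncurry ((volume.restrict (uIoc 0 T)).prod μ) := by
    have h1 : IntegrableOn G.uncurry (uIcc 0 T ×ˢ K) (volume.prod μ) :=
      cG.continuousOn.integrableOn_compact (isCompact_uIcc.prod hK)
    rw [Measure.restrict_prod_eq_prod_univ]
    refine (h1.mono_set (prod_mono uIoc_subset_uIcc subset_rfl)).of_forall_sdiff_eq_zero
      (measurableSet_uIoc.prod MeasurableSet.univ) fun p hp => ?_
    exact hz p.1 (uIoc_subset_uIcc hp.1.1) p.2 fun h' => hp.2 ⟨hp.1.1, h'⟩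
  have sw := intervalIntegral_integral_swap hi
  simp only [zero, intervalIntegral.integral_zero, ← ftc] at sw
  rw [integral_sub (f := fun v => F (fl T v))
    ((hF.continuous.comp (fl T).continuous).integrable_of_hasCompactSupport
    (hc.comp_homeomorph (flH T))) (hF.continuous.integrable_of_hasCompactSupport hc)] at sw
  exact (sub_eq_zero.1 sw.symm)

end Pool.Agent.Lib.MP_a52643_an
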