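import Pool.Agent.Lib.MP_a52643_an.Moll

/-!
The limit formula for the quartic functional.
-/

open Complex MeasureTheory Set Filter Topology Asymptotics Metric Polynomial
open scoped ComplexConjugate ContDiff ENNReal

noncomputable section

namespace Pool.Agent.Lib.MP_a52643_an

variable {J : Type} {U : Ultrafilter J} {lam : J → ℝ} {Φ : J → ℤ → V → ℂ} {μ : Measure V}

def cht (χ : ℂ → ℝ) (z : ℂ) : ℝ := χ z * (1 / z.im ^ 2)

structure TF1 (χ : ℂ → ℝ) : Prop extends TF χ where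
  cd : ContDiff ℝ 1 χ
  nn : ∀ z, 0 ≤ χ z

variable {χ : ℂ → ℝ}

lemma TF1.cd_cht (h : TF1 χ) : ContDiff ℝ 1 fun z => (cht χ z : ℂ) := by
  have := contDiff_cut h.cd h.sub (F := fun z => 1 / (z.im : ℂ) ^ 2) (by
    simp only [one_div]
    exact ((ofRealCLM.comp imCLM).contDiff.contDiffOn.pow 2).inv fun z hz =>
      pow_ne_zero 2 (by simpa using ne_of_gt hz))
  simpa [cht] using this

lemma TF1.cont_cht (h : TF1 χ) : Continuous (cht χ) := by
  have := continuous_re.comp h.cd_cht.continuous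
  exact this

lemma cht_zero {z : ℂ} (hz : z ∉ tsupport χ) : cht χ z = 0 := by
  simp [cht, image_eq_zero_of_notMem_tsupport hz]

lemma TF1.cht_nonneg (h : TF1 χ) (z : ℂ) : 0 ≤ cht χ z := mul_nonneg (h.nn z) (by positivity)

lemma TF1.hcs_cht (h : TF1 χ) : HasCompactSupport (cht χ) := h.hcs.mul_right

lemma TF1.cutC (h : TF1 χ) : ∃ C, CutC (fun z => (cht χ z : ℂ)) (tsupport χ) C := by
  have hc : HasCompactSupport fun z => (cht χ z : ℂ) := h.hcs_cht.comp_left (g := ofReal) (by simp)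
  obtain ⟨C0, h0⟩ := h.cd_cht.continuous.bounded_above_of_compact_support hc
  obtain ⟨C1, h1⟩ := (continuous_dz h.cd_cht).bounded_above_of_compact_support (hcs_dz hc)
  obtain ⟨C2, h2⟩ := (continuous_dzb h.cd_cht).bounded_above_of_compact_support (hcs_dzb hc)
  refine ⟨max C0 (max C1 C2), h.cd_cht, h.hcs.isCompact, closure_minimal (fun z hz => ?_)
    (isClosed_tsupport _), fun x => (h0 x).trans (le_max_left _ _),
    fun x => (h1 x).trans ((le_max_left _ _).trans (le_max_right _ _)),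
    fun x => (h2 x).trans ((le_max_right _ _).trans (le_max_right _ _))⟩
  by_contra h'
  exact hz (by simp [cht_zero h'])

lemma integral_hyp_cht {E : Type*} [NormedAddCommGroup E] [NormedSpace ℝ E] (h : TF χ)
    (F : ℂ → E) : ∫ z, χ z • F z ∂hyp = ∫ z, cht χ z • F z := by
  rw [integral_hyp_weight, setIntegral_eq_integral_of_forall_compl_eq_zero]
  · congr 1; ext z; rw [cht, smul_smul, mul_comm]
  · intro z hz
    simp [image_eq_zero_of_notMem_tsupport fun h' => hz (h.sub h')]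

def mm (μ : Measure V) (ε : ℝ) (a b : ℤ) (x : ℂ) : ℂ :=
  (-1) ^ b * ∫ v, (kern ε x (pr v) : ℂ) * om v ^ (-(a + b)) ∂μ

lemma psi_four (Φ : ℤ → V → ℂ) (a b c d : ℤ) (z : ℂ) :
    psi Φ ![a, b, c, d] z = psi Φ ![c, d] z * psi Φ ![a, b] z := by
  simp [psi, Fin.prod_univ_four]; ring

lemma dc_limit (h : Fam U lam Φ) (hμ : IsLim U Φ μ) (hχ : TF1 χ) (a b c d : ℤ) :
    ∃ δ > 0, ∃ C : ℝ, ∀ ε, 0 < ε → ε ≤ δ →
      ‖((∫ x, (cht χ x : ℂ) * mm μ ε c d x * mm μ ε (a + 1) (b + 1) x)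
        - ∫ x, (cht χ x : ℂ) * mm μ ε (c + 1) (d + 1) x * mm μ ε a b x)
        - (QQ U Φ (fun z => χ z) (AddMonoidAlgebra.single ![a + 1, b + 1, c, d] 1)
          - QQ U Φ (fun z => χ z) (AddMonoidAlgebra.single ![a, b, c + 1, d + 1] 1))‖ ≤ C * ε := by
  set K := tsupport χ
  have hK : IsCompact K := hχ.hcs.isCompact
  obtain ⟨δ, hδ, hU⟩ := hK.exists_cthickening_subset_open isOpen_UH hχ.sub
  obtain ⟨θ, θ1, -, θ3, θ4, -⟩ := exists_bump (hK.cthickening (r := δ)) isOpen_UH hU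
  obtain ⟨C, hC⟩ := hχ.cutC
  set ut : J → ℤ → ℤ → ℂ → ℂ := fun j a b z => (θ z : ℂ) * psi (Φ j) ![a, b] z with hut
  have cdu : ∀ j a b, ContDiff ℝ 1 (ut j a b) := fun j a b =>
    contDiff_cut θ1 θ3 ((h.lad j).cd_psi _)
  have ev : ∀ j a b, ∀ z ∈ cthickening δ K, ut j a b =ᶠ[𝓝 z] psi (Φ j) ![a, b] := by
    intro j a b z hz
    filter_upwards [θ4.filter_mono (nhds_le_nhdsSet hz)] with w hw
    simp [hut, hw]
  have eq0 : ∀ j a b, ∀ z ∈ cthickening δ K, ut j a b z = psi (Φ j) ![a, b] z :=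
    fun j a b z hz => (ev j a b z hz).eq_of_nhds
  have eq1 : ∀ j a b, ∀ z ∈ cthickening δ K, eP (ut j a b) (ut j (a + 1) (b + 1)) z
      = eP (psi (Φ j) ![a, b]) (psi (Φ j) ![a + 1, b + 1]) z := fun j a b z hz => by
    simp only [eP, dz, dzb, (ev j _ _ z hz).fderiv_eq]
  obtain ⟨B1, s1⟩ := (h.l2_psi a b).sb hK hU
  obtain ⟨B2, s2⟩ := (h.l2_psi (a + 1) (b + 1)).sb hK hU
  obtain ⟨B3, s3⟩ := (h.l2_eP a b).sb hK hU
  obtain ⟨B4, s4⟩ := (h.l2_psi c d).sb hK hU
  obtain ⟨B5, s5⟩ := (h.l2_psi (c + 1) (d + 1)).sb hK hU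
  obtain ⟨B6, s6⟩ := (h.l2_eP c d).sb hK hU
  set B := max (max (max B1 B2) B3) (max (max B4 B5) B6)
  refine ⟨δ, hδ, 16 * kap * C * B, fun ε hε hεδ => ?_⟩
  have hU' : cthickening ε K ⊆ UH := (cthickening_mono hεδ K).trans hU
  have b1 : ∀ x ∈ K, closedBall x ε ⊆ cthickening ε K := fun x hx =>
    closedBall_subset_cthickening hx ε
  have un : ∀ a b, TendstoUniformlyOn (fun j => moll ε (ut j a b)) (mm μ ε a b) U K := by
    intro a b
    have := tendstoUniformlyOn_of_equi (g0 := mm μ ε a b) hK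
      (fun x hx => hμ.mode h (tf_kern hε ((b1 x hx).trans hU')).ofReal a b)
      ((h.l2_psi a b).equi hK hε hU')
    refine this.congr (Eventually.of_forall fun j x hx => ?_)
    exact (moll_eq_kern hε ((b1 x hx).trans hU') fun y hy =>
      eq0 j a b y (cthickening_mono hεδ K (b1 x hx hy))).symm
  have tm : ∀ a b c d, Tendsto (fun j => ∫ x, (cht χ x : ℂ) * moll ε (ut j c d) x
      * moll ε (ut j a b) x) U (𝓝 (∫ x, (cht χ x : ℂ) * mm μ ε c d x * mm μ ε a b x)) :=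
    fun a b c d => tendsto_integral_mul_mul hK hχ.cd_cht.continuous
      (fun x hx => by simp [cht_zero hx]) (fun j => continuous_moll (cdu j _ _).continuous ε)
      (fun j => continuous_moll (cdu j _ _).continuous ε) (un c d) (un a b)
  have tq : ∀ a b c d, Tendsto (fun j => ∫ x, (cht χ x : ℂ) * ut j c d x * ut j a b x) U
      (𝓝 (QQ U Φ (fun z => χ z) (AddMonoidAlgebra.single ![a, b, c, d] 1))) := by
    intro a b c d
    refine (h.tendsto_QQ (by simp) hχ.toTF.ofReal _).congr fun j => ?_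
    have := integral_hyp_cht hχ.toTF (psi (Φ j) ![a, b, c, d])
    simp only [real_smul] at this
    simp only [GG_single, ofReal_one, one_mul, this]
    congr 1; ext x
    by_cases hx : x ∈ K
    · rw [eq0 j _ _ x (self_subset_cthickening K hx), eq0 j _ _ x (self_subset_cthickening K hx),
        psi_four, mul_assoc]
    · simp [cht_zero hx]
  refine le_of_tendsto (((tm _ _ _ _).sub (tm _ _ _ _)).sub ((tq _ _ _ _).sub (tq _ _ _ _))).norm ?_
  filter_upwards [s1, s2, s3, s4, s5, s6] with j s1 s2 s3 s4 s5 s6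
  refine (div_curl (B := B) hε hC (cdu j a b) (cdu j _ _) (cdu j c d) (cdu j _ _)
    ((s1 _ (eq0 j _ _)).mono hεδ (by simp [B])) ((s2 _ (eq0 j _ _)).mono hεδ (by simp [B]))
    ((s3 _ (eq1 j _ _)).mono hεδ (by simp [B])) ((s4 _ (eq0 j _ _)).mono hεδ (by simp [B]))
    ((s5 _ (eq0 j _ _)).mono hεδ (by simp [B])) ((s6 _ (eq1 j _ _)).mono hεδ (by simp [B]))).trans
    (le_of_eq (by ring))

open Classical in
def ou (v : V) : ℂ := if v.2 = 0 then 1 else om v

@[fun_prop] lemma measurable_ou : Measurable ou :=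
  Measurable.ite (measurable_snd (measurableSet_singleton 0)) measurable_const measurable_om

lemma norm_ou (v : V) : ‖ou v‖ = 1 := by
  unfold ou; split_ifs with h
  · simp
  · exact norm_om h

lemma ou_ne_zero (v : V) : ou v ≠ 0 := by
  intro h; have := norm_ou v; simp [h] at this

lemma ou_eq {v : V} (hv : v ∈ Om) : ou v = om v := if_neg (snd_ne_zero hv)

/-- cosine of the angle between the directions -/
def cs (v w : V) : ℝ := (ou v * conj (ou w)).re

@[fun_prop] lemma measurable_cs : Measurable fun p : V × V => cs p.1 p.2 := by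
  unfold cs
  exact measurable_re.comp ((measurable_ou.comp measurable_fst).mul
    (continuous_conj.measurable.comp (measurable_ou.comp measurable_snd)))

lemma abs_cs_le (v w : V) : |cs v w| ≤ 1 := by
  refine (abs_re_le_norm _).trans ?_
  simp [norm_ou]

def u4 (v w : V) : Fin 4 → ℂ := ![(ou v)⁻¹, -(ou v)⁻¹, (ou w)⁻¹, -(ou w)⁻¹]

lemma u4_ne (v w : V) (i : Fin 4) : u4 v w i ≠ 0 := by
  fin_cases i <;> simp [u4, ou_ne_zero]

def Th (χ : ℂ → ℝ) (ε : ℝ) (p : ℂ × V × V) : ℝ :=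
  cht χ p.1 * (kern ε p.1 (pr p.2.1) * kern ε p.1 (pr p.2.2))

lemma measurable_kern_comp {α : Type*} [MeasurableSpace α] (ε : ℝ) {f g : α → ℂ}
    (hf : Measurable f) (hg : Measurable g) : Measurable fun a => kern ε (f a) (g a) := by
  have := continuous_hk.measurable
  unfold kern
  exact (measurable_const.mul (this.comp (by fun_prop))).mul (by fun_prop)

lemma TF1.measurable_Th (h : TF1 χ) (ε : ℝ) : Measurable (Th χ ε) := by
  have h1 : Measurable fun p : ℂ × V × V => cht χ p.1 := h.cont_cht.measurable.comp measurable_fst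
  have h2 : Measurable fun p : ℂ × V × V => pr p.2.1 :=
    measurable_pr.comp (measurable_fst.comp measurable_snd)
  have h3 : Measurable fun p : ℂ × V × V => pr p.2.2 :=
    measurable_pr.comp (measurable_snd.comp measurable_snd)
  exact h1.mul ((measurable_kern_comp ε measurable_fst h2).mul
    (measurable_kern_comp ε measurable_fst h3))

lemma TF1.Th_nonneg (h : TF1 χ) (ε : ℝ) (p : ℂ × V × V) : 0 ≤ Th χ ε p :=
  mul_nonneg (h.cht_nonneg _) (mul_nonneg (kern_nonneg _ _ _) (kern_nonneg _ _ _))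

lemma IsLim.pr_ne_top (hμ : IsLim U Φ μ) {K : Set ℂ} (hK : IsCompact K) (hU : K ⊆ UH) :
    μ (pr ⁻¹' K) ≠ ⊤ := by
  have := hμ.lf
  obtain ⟨R, hR⟩ := exists_R_of_compact hK hU
  refine ne_top_of_le_ne_top (isCompact_KB R).measure_ne_top (measure_mono_ae ?_)
  filter_upwards [hμ.ae_cslab] with v hv h
  exact ⟨by simpa using hR v hv h, hv⟩

lemma kern_mem {ε : ℝ} (hε : 0 < ε) {K : Set ℂ} {x y : ℂ} (hx : x ∈ K) (h : kern ε x y ≠ 0) :
    y ∈ cthickening ε K :=
  closedBall_subset_cthickening hx ε (tsupport_kern hε x (subset_tsupport _ h))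

lemma IsLim.integrable_Th (hμ : IsLim U Φ μ) (hχ : TF1 χ) {ε : ℝ} (hε : 0 < ε)
    (hU : cthickening ε (tsupport χ) ⊆ UH) : Integrable (Th χ ε) (volume.prod (μ.prod μ)) := by
  have := hμ.lf
  set K := tsupport χ
  have hK : IsCompact K := hχ.hcs.isCompact
  have hK1 := hK.cthickening (r := ε)
  obtain ⟨C0, h0⟩ := hχ.cont_cht.bounded_above_of_compact_support hχ.hcs_cht
  obtain ⟨C1, h1⟩ := (hK.prod hK1).exists_bound_of_continuousOn (continuous_kern ε).continuousOn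
  set S : Set (ℂ × V × V) := K ×ˢ ((pr ⁻¹' cthickening ε K) ×ˢ (pr ⁻¹' cthickening ε K))
  have mS : MeasurableSet S := hK.measurableSet.prod
    ((measurable_pr hK1.measurableSet).prod (measurable_pr hK1.measurableSet))
  have fS : (volume.prod (μ.prod μ)) S ≠ ⊤ := by
    simp only [S, Measure.prod_prod]
    exact ENNReal.mul_ne_top hK.measure_ne_top
      (ENNReal.mul_ne_top (hμ.pr_ne_top hK1 hU) (hμ.pr_ne_top hK1 hU))
  have i1 : IntegrableOn (Th χ ε) S (volume.prod (μ.prod μ)) := by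
    refine Measure.integrableOn_of_bounded (M := C0 * (C1 * C1)) fS
      (hχ.measurable_Th ε).aestronglyMeasurable
      ((ae_restrict_iff' mS).2 (Eventually.of_forall fun p hp => ?_))
    have a1 := h1 (p.1, pr p.2.1) ⟨hp.1, hp.2.1⟩
    have a2 := h1 (p.1, pr p.2.2) ⟨hp.1, hp.2.2⟩
    have a0 := h0 p.1
    have := (norm_nonneg _).trans a0
    have := (norm_nonneg _).trans a1
    rw [Th, norm_mul, norm_mul]
    gcongr
  refine i1.integrable_of_forall_notMem_eq_zero fun p hp => ?_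
  by_contra h'
  have hx : p.1 ∈ K := by
    by_contra hx
    exact h' (by simp [Th, cht_zero hx])
  have h2 := right_ne_zero_of_mul h'
  exact hp ⟨hx, kern_mem hε hx (left_ne_zero_of_mul h2), kern_mem hε hx (right_ne_zero_of_mul h2)⟩

lemma ev4_bound (P : LA (Fin 4)) : Measurable (fun p : V × V => evC (u4 p.1 p.2) (u4_ne _ _) P) ∧
    ∃ C, ∀ p : V × V, ‖evC (u4 p.1 p.2) (u4_ne _ _) P‖ ≤ C := by
  induction P using AddMonoidAlgebra.induction_linear with
  | zero => exact ⟨by simp, 0, by simp⟩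
  | add f g hf hg =>
    obtain ⟨m1, C1, h1⟩ := hf
    obtain ⟨m2, C2, h2⟩ := hg
    simp only [map_add]
    exact ⟨m1.add m2, C1 + C2, fun p => (norm_add_le _ _).trans (add_le_add (h1 p) (h2 p))⟩
  | single a c =>
    simp only [evC_single]
    refine ⟨?_, ‖c‖, fun p => ?_⟩
    · simp only [Fin.prod_univ_four, u4, Matrix.cons_val]
      fun_prop
    · simp [Fin.prod_univ_four, u4, norm_ou]

def LL (μ : Measure V) (χ : ℂ → ℝ) (ε : ℝ) (P : LA (Fin 4)) : ℂ :=
  ∫ p, (Th χ ε p : ℂ) * evC (u4 p.2.1 p.2.2) (u4_ne _ _) P ∂(volume.prod (μ.prod μ))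

lemma IsLim.integrable_LL (hμ : IsLim U Φ μ) (hχ : TF1 χ) {ε : ℝ} (hε : 0 < ε)
    (hU : cthickening ε (tsupport χ) ⊆ UH) (P : LA (Fin 4)) :
    Integrable (fun p : ℂ × V × V => (Th χ ε p : ℂ) * evC (u4 p.2.1 p.2.2) (u4_ne _ _) P)
      (volume.prod (μ.prod μ)) := by
  obtain ⟨m, C, hC⟩ := ev4_bound P
  exact (hμ.integrable_Th hχ hε hU).ofReal.mul_bdd
    (m.comp measurable_snd).aestronglyMeasurable (Eventually.of_forall fun p => hC p.2)

lemma IsLim.LL_single (hμ : IsLim U Φ μ) (hχ : TF1 χ) {ε : ℝ} (hε : 0 < ε)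
    (hU : cthickening ε (tsupport χ) ⊆ UH) (a b c d : ℤ) :
    LL μ χ ε (AddMonoidAlgebra.single ![a, b, c, d] 1)
      = ∫ x, (cht χ x : ℂ) * mm μ ε c d x * mm μ ε a b x := by
  have := hμ.lf
  rw [LL, integral_prod _ (hμ.integrable_LL hχ hε hU _)]
  congr 1; ext x
  have e : ∀ a b : ℤ, mm μ ε a b x
      = ∫ v, (kern ε x (pr v) : ℂ) * ((ou v)⁻¹ ^ a * (-(ou v)⁻¹) ^ b) ∂μ := by
    intro a b
    rw [mm, ← integral_const_mul]
    refine integral_congr_ae (hμ.ae_cslab.mono fun v hv => ?_)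
    have h0 := om_ne_zero (snd_ne_zero (cslab_subset_Om hv))
    simp only [ou_eq (cslab_subset_Om hv)]
    rw [neg_eq_neg_one_mul (om v)⁻¹, mul_zpow, neg_add, zpow_add₀ h0, zpow_neg, zpow_neg,
      inv_zpow, inv_zpow]
    ring
  rw [e, e, mul_assoc, mul_comm (∫ _, _ ∂μ), ← integral_prod_mul, ← integral_const_mul]
  congr 1; ext p
  simp only [Th, evC_single, Fin.prod_univ_four, u4, Matrix.cons_val, one_smul]
  push_cast; ring

lemma eventually_UH (hχ : TF χ) :
    ∀ᶠ ε in 𝓝[>] (0 : ℝ), 0 < ε ∧ cthickening ε (tsupport χ) ⊆ UH := by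
  obtain ⟨δ, hδ, hU⟩ := hχ.hcs.isCompact.exists_cthickening_subset_open isOpen_UH hχ.sub
  filter_upwards [Ioc_mem_nhdsGT hδ] with ε hε
  exact ⟨hε.1, (cthickening_mono hε.2 _).trans hU⟩

theorem tendsto_LL (h : Fam U lam Φ) (hμ : IsLim U Φ μ) (hχ : TF1 χ) (P : LA (Fin 4)) :
    Tendsto (fun ε => LL μ χ ε ((W 2 * W 3 - W 0 * W 1) * P)) (𝓝[>] 0)
      (𝓝 (QQ U Φ (fun z => χ z) ((W 2 * W 3 - W 0 * W 1) * P))) := by
  induction P using AddMonoidAlgebra.induction_linear with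
  | zero => simp [LL]
  | add f g hf hg =>
    rw [mul_add, map_add]
    refine (hf.add hg).congr' ?_
    filter_upwards [eventually_UH hχ.toTF] with ε hε
    simp only [LL, map_add, mul_add]
    rw [integral_add (hμ.integrable_LL hχ hε.1 hε.2 _) (hμ.integrable_LL hχ hε.1 hε.2 _)]
  | single a c =>
    have e : (W 2 * W 3 - W 0 * W 1) * AddMonoidAlgebra.single a c
        = -c • (AddMonoidAlgebra.single ![a 0 + 1, a 1 + 1, a 2, a 3] 1
          - AddMonoidAlgebra.single ![a 0, a 1, a 2 + 1, a 3 + 1] (1 : ℝ) : LA (Fin 4)) := by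
      have e1 : (Pi.single 2 1 + Pi.single 3 1 + a : Fin 4 → ℤ) = ![a 0, a 1, a 2 + 1, a 3 + 1] := by
        ext i; fin_cases i <;> simp [add_comm]
      have e2 : (Pi.single 0 1 + Pi.single 1 1 + a : Fin 4 → ℤ) = ![a 0 + 1, a 1 + 1, a 2, a 3] := by
        ext i; fin_cases i <;> simp [add_comm]
      simp only [W, sub_mul, AddMonoidAlgebra.single_mul_single, e1, e2, smul_sub, neg_smul,
        AddMonoidAlgebra.smul_single, one_mul, smul_eq_mul, mul_one]
      ring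
    rw [e, map_smul, map_sub]
    obtain ⟨δ, hδ, C, hC⟩ := dc_limit h hμ hχ (a 0) (a 1) (a 2) (a 3)
    have t : Tendsto (fun ε => (∫ x, (cht χ x : ℂ) * mm μ ε (a 2) (a 3) x
        * mm μ ε (a 0 + 1) (a 1 + 1) x)
        - ∫ x, (cht χ x : ℂ) * mm μ ε (a 2 + 1) (a 3 + 1) x * mm μ ε (a 0) (a 1) x) (𝓝[>] 0)
        (𝓝 (QQ U Φ (fun z => χ z) (AddMonoidAlgebra.single ![a 0 + 1, a 1 + 1, a 2, a 3] 1)
          - QQ U Φ (fun z => χ z) (AddMonoidAlgebra.single ![a 0, a 1, a 2 + 1, a 3 + 1] 1))) := by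
      rw [tendsto_iff_norm_sub_tendsto_zero]
      have t0 : Tendsto (fun ε : ℝ => C * ε) (𝓝[>] 0) (𝓝 0) := by
        simpa using (tendsto_id.mono_left (nhdsWithin_le_nhds (a := (0 : ℝ)) (s := Ioi 0))).const_mul C
      refine squeeze_zero' (Eventually.of_forall fun _ => norm_nonneg _) ?_ t0
      filter_upwards [Ioc_mem_nhdsGT hδ] with ε hε using hC ε hε.1 hε.2
    refine (t.const_smul (-c)).congr' ?_
    filter_upwards [eventually_UH hχ.toTF] with ε hε
    rw [← hμ.LL_single hχ hε.1 hε.2, ← hμ.LL_single hχ hε.1 hε.2]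
    simp only [LL, map_smul, map_sub]
    rw [← integral_sub (hμ.integrable_LL hχ hε.1 hε.2 _) (hμ.integrable_LL hχ hε.1 hε.2 _),
      ← integral_smul]
    congr 1; ext p
    simp only [real_smul]; ring

def JJ (μ : Measure V) (χ : ℂ → ℝ) (ε : ℝ) (g : ℝ → ℝ) : ℝ :=
  ∫ p, Th χ ε p * g (cs p.2.1 p.2.2) ∂(volume.prod (μ.prod μ))

theorem tendsto_JJ (h : Fam U lam Φ) (hμ : IsLim U Φ μ) (hχ : TF1 χ) (k : ℝ[X]) :
    Tendsto (fun ε => 2 * JJ μ χ ε fun c => ((1 - X ^ 2) * k).eval c) (𝓝[>] 0)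
      (𝓝 (QQ (ι := Fin 4) U Φ (fun z => χ z) (aeval (cc 0 1) ((1 - X ^ 2) * k))).re) := by
  have hd : ContDiff ℝ 1 fun z => (χ z : ℂ) := ofRealCLM.contDiff.comp hχ.cd
  rw [(h.kills (by simp) hχ.toTF.ofReal hd).split (QQ_rel U Φ _)]
  have := (continuous_re.tendsto _).comp ((tendsto_LL h hμ hχ (dcP k)).const_mul 2)
  refine this.congr fun ε => ?_
  have e : LL μ χ ε ((W 2 * W 3 - W 0 * W 1) * dcP k)
      = ((JJ μ χ ε fun c => ((1 - X ^ 2) * k).eval c : ℝ) : ℂ) := by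
    rw [LL, JJ, ← integral_complex_ofReal]
    congr 1; ext p
    rw [ofReal_mul]
    congr 1
    exact evC_dcP (norm_ou _) (norm_ou _) _ k
  simp [e]

end Pool.Agent.Lib.MP_a52643_an
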