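import Pool.Agent.Lib.MP_a52643_an.Local

/-!
The local inequalities, under a non-concentration property of the limit measure.
-/

open Complex MeasureTheory Set Filter Topology Asymptotics Metric Polynomial
open scoped ComplexConjugate ContDiff ENNReal

noncomputable section

namespace Pool.Agent.Lib.MP_a52643_an

variable {J : Type} {U : Ultrafilter J} {lam : J → ℝ} {Φ : J → ℤ → V → ℂ} {μ : Measure V}
  {χ : ℂ → ℝ}

def NS (K : Set ℂ) (ε δ c0 : ℝ) : Set (V × V) :=
  {p | pr p.1 ∈ K ∧ pr p.2 ∈ K ∧ ‖pr p.1 - pr p.2‖ ≤ ε ∧ |cs p.1 p.2 - c0| ≤ δ}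

lemma measurableSet_NS {K : Set ℂ} (hK : MeasurableSet K) (ε δ c0 : ℝ) :
    MeasurableSet (NS K ε δ c0) := by
  have h1 : Measurable fun p : V × V => pr p.1 := measurable_pr.comp measurable_fst
  have h2 : Measurable fun p : V × V => pr p.2 := measurable_pr.comp measurable_snd
  exact (h1 hK).inter ((h2 hK).inter ((measurableSet_le (h1.sub h2).norm measurable_const).inter
    (measurableSet_le (measurable_cs.sub_const c0).abs measurable_const)))

/-- non-concentration of pairs of nearby vectors making a given angle -/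
def NC (μ : Measure V) (c0 : ℝ) : Prop :=
  ∀ K : Set ℂ, IsCompact K → K ⊆ UH → ∀ η > (0 : ℝ), ∃ δ > (0 : ℝ), ∀ᶠ ε in 𝓝[>] (0 : ℝ),
    (μ.prod μ) (NS K ε δ c0) ≤ ENNReal.ofReal (η * ε ^ 2)

lemma IsLim.integrable_JJ (hμ : IsLim U Φ μ) (hχ : TF1 χ) {ε : ℝ} (hε : 0 < ε)
    (hU : cthickening ε (tsupport χ) ⊆ UH) {g : ℝ → ℝ} (hg : Measurable g) {C : ℝ}
    (hC : ∀ c, |c| ≤ 1 → |g c| ≤ C) :
    Integrable (fun p : ℂ × V × V => Th χ ε p * g (cs p.2.1 p.2.2)) (volume.prod (μ.prod μ)) :=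
  (hμ.integrable_Th hχ hε hU).mul_bdd
    (hg.comp (measurable_cs.comp measurable_snd)).aestronglyMeasurable
    (Eventually.of_forall fun _ => hC _ (abs_cs_le _ _))

lemma exists_bound_poly (p : ℝ[X]) : ∃ C, ∀ c : ℝ, |c| ≤ 1 → |p.eval c| ≤ C := by
  obtain ⟨C, hC⟩ := (isCompact_Icc (a := (-1 : ℝ)) (b := 1)).exists_bound_of_continuousOn
    p.continuous.continuousOn
  exact ⟨C, fun c hc => hC c (abs_le.1 hc)⟩

def ind (c0 δ c : ℝ) : ℝ := if |c - c0| ≤ δ then 1 else 0

lemma measurable_ind (c0 δ : ℝ) : Measurable (ind c0 δ) :=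
  Measurable.ite (measurableSet_le (measurable_id.sub_const c0).abs measurable_const)
    measurable_const measurable_const

lemma abs_ind_le (c0 δ c : ℝ) : |ind c0 δ c| ≤ 1 := by unfold ind; split_ifs <;> simp

lemma ind_nonneg (c0 δ c : ℝ) : 0 ≤ ind c0 δ c := by unfold ind; split_ifs <;> simp

lemma exists_kern_bound {K : Set ℂ} (hK : IsCompact K) :
    ∃ C, 0 ≤ C ∧ ∀ ε x, ∀ y ∈ K, kern ε x y ≤ C / ε ^ 2 := by
  obtain ⟨C0, h0⟩ := continuous_hk.bounded_above_of_compact_support hcs_hk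
  obtain ⟨Y, hY⟩ := hK.exists_bound_of_continuousOn (f := fun z : ℂ => z.im ^ 2) (by fun_prop)
  have c0 : 0 ≤ C0 := (norm_nonneg _).trans (h0 0)
  refine ⟨C0 * max Y 0, by positivity, fun ε x y hy => ?_⟩
  have a1 : hk (ε⁻¹ • (y - x)) ≤ C0 := (le_abs_self _).trans (h0 _)
  have a2 : y.im ^ 2 ≤ max Y 0 := ((le_abs_self _).trans (hY y hy)).trans (le_max_left _ _)
  rw [kern, mul_assoc, div_eq_inv_mul]
  gcongr

lemma JJ_small (hμ : IsLim U Φ μ) (hχ : TF1 χ) {c0 : ℝ} (hN : NC μ c0) {η : ℝ} (hη : 0 < η) :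
    ∃ δ > 0, ∀ᶠ ε in 𝓝[>] (0 : ℝ), JJ μ χ ε (ind c0 δ) ≤ η := by
  have := hμ.lf
  set K := tsupport χ
  have hK : IsCompact K := hχ.hcs.isCompact
  obtain ⟨r, hr, hU⟩ := hK.exists_cthickening_subset_open isOpen_UH hχ.sub
  have hK1 := hK.cthickening (r := r)
  obtain ⟨C0, h0⟩ := hχ.cont_cht.bounded_above_of_compact_support hχ.hcs_cht
  have c0' : 0 ≤ C0 := (norm_nonneg _).trans (h0 0)
  obtain ⟨C1, c1, h1⟩ := exists_kern_bound hK1
  set C := 4 * Real.pi * (C0 * C1 ^ 2) + 1
  have hC : 0 < C := by have := Real.pi_pos; positivity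
  obtain ⟨δ, hδ, hN'⟩ := hN _ hK1 hU (η / C) (by positivity)
  have t2 : Tendsto (fun ε : ℝ => 2 * ε) (𝓝[>] 0) (𝓝[>] 0) := by
    refine tendsto_nhdsWithin_iff.2 ⟨?_, ?_⟩
    · simpa using (tendsto_id.mono_left (nhdsWithin_le_nhds (a := (0 : ℝ)) (s := Ioi 0))).const_mul 2
    · filter_upwards [self_mem_nhdsWithin] with ε hε
      exact mul_pos two_pos (mem_Ioi.1 hε)
  refine ⟨δ, hδ, ?_⟩
  filter_upwards [t2.eventually hN', Ioc_mem_nhdsGT hr] with ε h2 hε
  set S : Set (ℂ × V × V) := {p | p.2 ∈ NS (cthickening r K) (2 * ε) δ c0 ∧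
    p.1 ∈ closedBall (pr p.2.1) ε}
  have mN := measurableSet_NS hK1.measurableSet (2 * ε) δ c0
  have mS : MeasurableSet S := (measurable_snd mN).inter (measurableSet_le (measurable_fst.dist
    (measurable_pr.comp (measurable_fst.comp measurable_snd))) measurable_const)
  have vS : (volume.prod (μ.prod μ)) S ≤ ENNReal.ofReal (Real.pi * ε ^ 2 * (η / C * (2 * ε) ^ 2)) := by
    rw [Measure.prod_apply_symm mS, ENNReal.ofReal_mul (by have := Real.pi_pos; positivity)]
    refine le_trans (lintegral_mono (g := (NS (cthickening r K) (2 * ε) δ c0).indicator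
      fun _ => ENNReal.ofReal (Real.pi * ε ^ 2)) fun q => ?_) ?_
    · by_cases hq : q ∈ NS (cthickening r K) (2 * ε) δ c0
      · rw [indicator_of_mem hq]
        refine (measure_mono (t := closedBall (pr q.1) ε) fun x hx => hx.2).trans ?_
        rw [Complex.volume_closedBall, ENNReal.ofReal_mul Real.pi_pos.le, mul_comm,
          ENNReal.ofReal_pow hε.1.le]
        gcongr
        rw [← NNReal.coe_real_pi, ENNReal.ofReal_coe_nnreal]
      · have : (fun x : ℂ => (x, q)) ⁻¹' S = ∅ := eq_empty_of_forall_notMem fun x hx => hq hx.1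
        simp [this]
    · rw [lintegral_indicator_const mN]
      gcongr
  have fS : (volume.prod (μ.prod μ)) S ≠ ⊤ := ne_top_of_le_ne_top ENNReal.ofReal_ne_top vS
  have hb : ∀ p, Th χ ε p * ind c0 δ (cs p.2.1 p.2.2)
      ≤ S.indicator (fun _ => C0 * (C1 / ε ^ 2) ^ 2) p := by
    intro p
    by_cases hz : Th χ ε p * ind c0 δ (cs p.2.1 p.2.2) = 0
    · rw [hz]; exact indicator_nonneg (fun _ _ => by positivity) _
    have h3 := left_ne_zero_of_mul hz
    have h4 : |cs p.2.1 p.2.2 - c0| ≤ δ := by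
      by_contra h'; exact hz (by simp [ind, h'])
    have hx : p.1 ∈ K := by
      by_contra hx
      exact h3 (by simp [Th, cht_zero hx])
    have h5 := right_ne_zero_of_mul h3
    have m1 := cthickening_mono hε.2 K (kern_mem hε.1 hx (left_ne_zero_of_mul h5))
    have m2 := cthickening_mono hε.2 K (kern_mem hε.1 hx (right_ne_zero_of_mul h5))
    have d1 := tsupport_kern hε.1 _ (subset_tsupport _ (left_ne_zero_of_mul h5))
    have d2 := tsupport_kern hε.1 _ (subset_tsupport _ (right_ne_zero_of_mul h5))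
    rw [mem_closedBall] at d1 d2
    have hp : p ∈ S := ⟨⟨m1, m2, by
      rw [← dist_eq_norm]; linarith [dist_triangle_right (pr p.2.1) (pr p.2.2) p.1], h4⟩,
      by rwa [mem_closedBall, dist_comm]⟩
    rw [indicator_of_mem hp, ind, if_pos h4, mul_one, Th, sq]
    have a0 : cht χ p.1 ≤ C0 := (le_abs_self _).trans (h0 _)
    have := kern_nonneg ε p.1 (pr p.2.2)
    have := kern_nonneg ε p.1 (pr p.2.1)
    gcongr
    · exact h1 _ _ _ m1
    · exact h1 _ _ _ m2
  have hε0 := hε.1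
  calc JJ μ χ ε (ind c0 δ)
      ≤ ∫ p, S.indicator (fun _ => C0 * (C1 / ε ^ 2) ^ 2) p ∂(volume.prod (μ.prod μ)) :=
        integral_mono (hμ.integrable_JJ hχ hε.1 ((cthickening_mono hε.2 K).trans hU)
          (measurable_ind _ _) fun c _ => abs_ind_le _ _ c)
          ((integrableOn_const fS).integrable_indicator mS) hb
    _ = (volume.prod (μ.prod μ)).real S * (C0 * (C1 / ε ^ 2) ^ 2) := by
        rw [integral_indicator_const _ mS, smul_eq_mul]
    _ ≤ Real.pi * ε ^ 2 * (η / C * (2 * ε) ^ 2) * (C0 * (C1 / ε ^ 2) ^ 2) := by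
        gcongr
        exact ENNReal.toReal_le_of_le_ofReal (by have := Real.pi_pos; positivity) vS
    _ = η * (4 * Real.pi * (C0 * C1 ^ 2) / C) := by field_simp; ring
    _ ≤ η := by
        refine mul_le_of_le_one_right hη.le ?_
        rw [div_le_one hC]; simp [C]

def FE (μ : Measure V) (ε : ℝ) (x : ℂ) : ℝ := ∫ v, kern ε x (pr v) ∂μ

lemma JJ_one (hμ : IsLim U Φ μ) (hχ : TF1 χ) {ε : ℝ} (hε : 0 < ε)
    (hU : cthickening ε (tsupport χ) ⊆ UH) :
    Integrable (fun x => cht χ x * FE μ ε x ^ 2) ∧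
      JJ μ χ ε (fun _ => 1) = ∫ x, cht χ x * FE μ ε x ^ 2 := by
  have := hμ.lf
  have i := hμ.integrable_Th hχ hε hU
  have e : ∀ x, ∫ q, Th χ ε (x, q) ∂(μ.prod μ) = cht χ x * FE μ ε x ^ 2 := fun x => by
    simp only [Th]
    rw [integral_const_mul, integral_prod_mul (fun v => kern ε x (pr v)) fun v => kern ε x (pr v), sq]
    rfl
  constructor
  · simpa only [e] using i.integral_prod_left
  · simp only [JJ, mul_one]
    rw [integral_prod _ i]; simp only [e]

lemma integral_kern_left {ε : ℝ} (hε : 0 < ε) (h : ℂ → ℝ) (y : ℂ) :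
    ∫ x, h x * kern ε x y = y.im ^ 2 * ∫ a, hk a * h (y - ε • a) := by
  have := integral_scale hε (-y) fun x => h (-x)
  simp only [smul_eq_mul, neg_add_rev, neg_neg] at this
  rw [← integral_neg_eq_self]
  simp only [sub_eq_neg_add, this, ← integral_const_mul, kern]
  congr 1; ext x
  rw [neg_neg, neg_neg, add_comm y x]; ring

lemma IsLim.integrable_hkern (hμ : IsLim U Φ μ) {h : ℂ → ℝ} (hc : Continuous h) {K : Set ℂ}
    (hK : IsCompact K) (h0 : ∀ x ∉ K, h x = 0) {ε : ℝ} (hε : 0 < ε)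
    (hU : cthickening ε K ⊆ UH) :
    Integrable (fun p : ℂ × V => h p.1 * kern ε p.1 (pr p.2)) (volume.prod μ) := by
  have := hμ.lf
  have hK1 := hK.cthickening (r := ε)
  obtain ⟨C0, b0⟩ := hK.exists_bound_of_continuousOn hc.continuousOn
  obtain ⟨C1, c1, h1⟩ := exists_kern_bound hK1
  set S : Set (ℂ × V) := K ×ˢ (pr ⁻¹' cthickening ε K)
  have mS : MeasurableSet S := hK.measurableSet.prod (measurable_pr hK1.measurableSet)
  have fS : (volume.prod μ) S ≠ ⊤ := by
    simp only [S, Measure.prod_prod]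
    exact ENNReal.mul_ne_top hK.measure_ne_top (hμ.pr_ne_top hK1 hU)
  have i1 : IntegrableOn (fun p : ℂ × V => h p.1 * kern ε p.1 (pr p.2)) S (volume.prod μ) := by
    refine Measure.integrableOn_of_bounded (M := C0 * (C1 / ε ^ 2)) fS
      ((hc.measurable.comp measurable_fst).mul (measurable_kern_comp ε measurable_fst
        (measurable_pr.comp measurable_snd))).aestronglyMeasurable
      ((ae_restrict_iff' mS).2 (Eventually.of_forall fun p hp => ?_))
    have a0 := b0 p.1 hp.1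
    have := (norm_nonneg _).trans a0
    rw [norm_mul, Real.norm_of_nonneg (kern_nonneg _ _ _)]
    gcongr
    · exact kern_nonneg _ _ _
    · exact h1 _ _ _ hp.2
  refine i1.integrable_of_forall_notMem_eq_zero fun p hp => ?_
  by_contra h'
  have hx : p.1 ∈ K := by
    by_contra hx
    exact h' (by simp [h0 _ hx])
  exact hp ⟨hx, kern_mem hε hx (right_ne_zero_of_mul h')⟩

lemma IsLim.tendsto_FE (hμ : IsLim U Φ μ) {h : ℂ → ℝ} (hh : TF h) :
    Tendsto (fun ε => ∫ x, h x * FE μ ε x) (𝓝[>] 0)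
      (𝓝 (∫ v, (pr v).im ^ 2 * h (pr v) ∂μ)) := by
  have := hμ.lf
  set K := tsupport h
  have hK : IsCompact K := hh.hcs.isCompact
  have h0 : ∀ x ∉ K, h x = 0 := fun x hx => image_eq_zero_of_notMem_tsupport hx
  obtain ⟨r, hr, hU⟩ := hK.exists_cthickening_subset_open isOpen_UH hh.sub
  have hK1 := hK.cthickening (r := r)
  obtain ⟨C0, b0⟩ := hh.cont.bounded_above_of_compact_support hh.hcs
  obtain ⟨Y, hY⟩ := hK1.exists_bound_of_continuousOn (f := fun z : ℂ => z.im ^ 2) (by fun_prop)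
  have cA : Continuous fun q : ℝ × ℂ => ∫ a, hk a * h (q.2 - q.1 • a) := by
    have := continuous_re.comp (continuous_shift_integral (W := fun a => (hk a : ℂ))
      (U := fun a => (h a : ℂ)) (by fun_prop) hcs_hkC (continuous_ofReal.comp hh.cont)
      (s := fun (q : ℝ × ℂ) a => q.2 - q.1 • a) (by fun_prop))
    refine this.congr fun q => ?_
    simp only [Function.comp, ← ofReal_mul, integral_complex_ofReal, ofReal_re]
  have t := tendsto_integral_filter_of_dominated_convergence (μ := μ) (l := 𝓝[>] (0 : ℝ))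
    (F := fun ε v => (pr v).im ^ 2 * ∫ a, hk a * h (pr v - ε • a))
    (f := fun v => (pr v).im ^ 2 * h (pr v))
    ((pr ⁻¹' cthickening r K).indicator fun _ => Y * C0)
    (Eventually.of_forall fun ε => Measurable.aestronglyMeasurable
      (((measurable_im.comp measurable_pr).pow_const 2).mul
        (cA.measurable.comp (measurable_const.prodMk measurable_pr))))
    (by
      filter_upwards [Ioc_mem_nhdsGT hr] with ε hε
      refine Eventually.of_forall fun v => ?_
      by_cases hv : v ∈ pr ⁻¹' cthickening r K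
      · rw [indicator_of_mem hv, norm_mul]
        have a1 := hY _ hv
        have : 0 ≤ Y := (norm_nonneg _).trans a1
        gcongr
        calc _ ≤ ∫ a, hk a * C0 := by
              refine norm_integral_le_of_norm_le
                ((continuous_hk.integrable_of_hasCompactSupport hcs_hk).mul_const _)
                (Eventually.of_forall fun a => ?_)
              rw [norm_mul, Real.norm_of_nonneg (hk_nonneg a)]
              exact mul_le_mul_of_nonneg_left (b0 _) (hk_nonneg a)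
          _ = C0 := by rw [integral_mul_const, integral_hk, one_mul]
      · rw [indicator_of_notMem hv, ← integral_kern_left hε.1]
        have : ∀ x, h x * kern ε x (pr v) = 0 := fun x => by
          by_contra h'
          have hx : x ∈ K := by
            by_contra hx
            exact h' (by simp [h0 _ hx])
          exact hv (cthickening_mono hε.2 K (kern_mem hε.1 hx (right_ne_zero_of_mul h')))
        simp [this])
    ((integrableOn_const (hμ.pr_ne_top hK1 hU)).integrable_indicator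
      (measurable_pr hK1.measurableSet))
    (Eventually.of_forall fun v => by
      have := ((cA.comp (continuous_id.prodMk (continuous_const (y := pr v)))).tendsto 0).mono_left
        (nhdsWithin_le_nhds (a := (0 : ℝ)) (s := Ioi 0))
      simp only [Function.comp, id, zero_smul, sub_zero, integral_mul_const, integral_hk,
        one_mul] at this
      exact this.const_mul _)
  refine t.congr' ?_
  filter_upwards [Ioc_mem_nhdsGT hr] with ε hε
  simp only [← integral_kern_left hε.1, FE, ← integral_const_mul]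
  exact (integral_integral_swap (hμ.integrable_hkern hh.cont hK h0 hε.1
    ((cthickening_mono hε.2 K).trans hU))).symm

lemma TF1.tf_cht (hχ : TF1 χ) {ψ : ℂ → ℝ} (hψ : Continuous ψ) : TF fun x => cht χ x * ψ x :=
  ⟨hχ.cont_cht.mul hψ, hχ.hcs_cht.mul_right,
    (tsupport_mul_subset_left (f := cht χ) (g := ψ)).trans
      ((tsupport_mul_subset_left (f := χ) (g := fun z : ℂ => 1 / z.im ^ 2)).trans hχ.sub)⟩

lemma JJ_one_ge (hμ : IsLim U Φ μ) (hχ : TF1 χ) {ψ : ℂ → ℝ} (hψ : Continuous ψ) :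
    ∃ S : ℝ → ℝ, Tendsto S (𝓝[>] 0) (𝓝 (∫ v, χ (pr v) * ψ (pr v) ∂μ)) ∧
      ∀ᶠ ε in 𝓝[>] (0 : ℝ), 2 * S ε - ∫ z, χ z * ψ z ^ 2 ∂hyp ≤ JJ μ χ ε fun _ => 1 := by
  have := hμ.lf
  refine ⟨fun ε => ∫ x, cht χ x * ψ x * FE μ ε x, ?_, ?_⟩
  · convert hμ.tendsto_FE (hχ.tf_cht hψ) using 2
    refine integral_congr_ae (hμ.ae_cslab.mono fun v hv => ?_)
    have : (pr v).im ≠ 0 := ne_of_gt (pr_mem (cslab_subset_Om hv))
    simp only [cht]; field_simp
  · filter_upwards [eventually_UH hχ.toTF] with ε hε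
    obtain ⟨i1, e1⟩ := JJ_one hμ hχ hε.1 hε.2
    have e2 := integral_hyp_cht hχ.toTF fun z => ψ z ^ 2
    simp only [smul_eq_mul] at e2
    have t1 := hχ.tf_cht hψ
    have t2 := hχ.tf_cht (hψ.pow 2)
    have i2 : Integrable fun x => cht χ x * ψ x * FE μ ε x := by
      have := (hμ.integrable_hkern t1.cont hχ.hcs.isCompact (fun x hx => by simp [cht_zero hx])
        hε.1 hε.2).integral_prod_left
      simpa only [integral_const_mul, FE] using this
    have i3 : Integrable fun x => cht χ x * ψ x ^ 2 := t2.cont.integrable_of_hasCompactSupport t2.hcs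
    rw [e1, e2, ← integral_const_mul, ← integral_sub (i2.const_mul _) i3]
    refine integral_mono ((i2.const_mul _).sub i3) i1 fun x => ?_
    have := mul_nonneg (hχ.cht_nonneg x) (sq_nonneg (FE μ ε x - ψ x))
    simp only
    nlinarith

lemma ev2_bound (P : LA (Fin 2)) (hu : ∀ v i, ![(ou v)⁻¹, -(ou v)⁻¹] i ≠ 0) :
    Measurable (fun v : V => evC ![(ou v)⁻¹, -(ou v)⁻¹] (hu v) P) ∧
    ∃ C, ∀ v : V, ‖evC ![(ou v)⁻¹, -(ou v)⁻¹] (hu v) P‖ ≤ C := by
  induction P using AddMonoidAlgebra.induction_linear with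
  | zero => exact ⟨by simp, 0, by simp⟩
  | add f g hf hg =>
    obtain ⟨m1, C1, h1⟩ := hf
    obtain ⟨m2, C2, h2⟩ := hg
    simp only [map_add]
    exact ⟨m1.add m2, C1 + C2, fun p => (norm_add_le _ _).trans (add_le_add (h1 p) (h2 p))⟩
  | single a c =>
    simp only [evC_single]
    refine ⟨?_, ‖c‖, fun p => ?_⟩
    · simp only [Fin.prod_univ_two, Matrix.cons_val]
      fun_prop
    · simp [Fin.prod_univ_two, norm_ou]

lemma IsLim.integrable_tf (hμ : IsLim U Φ μ) {τ : ℂ → ℂ} (hτ : TF τ) :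
    Integrable (fun v => τ (pr v)) μ := by
  simpa using hμ.integrable (hτ.wcs fun _ => 1) (hτ.contOn.mul continuousOn_const)

lemma IsLim.QQ_two (h : Fam U lam Φ) (hμ : IsLim U Φ μ) {τ : ℂ → ℂ} (hτ : TF τ) (p : ℝ[X]) :
    QQ (ι := Fin 2) U Φ τ (aeval (cc 0 1) p) = (p.eval (-1) : ℝ) * ∫ v, τ (pr v) ∂μ := by
  have hu : ∀ v i, ![(ou v)⁻¹, -(ou v)⁻¹] i ≠ 0 := fun v i => by
    fin_cases i <;> simp [ou_ne_zero]
  have ii : ∀ P : LA (Fin 2), Integrable
      (fun v => τ (pr v) * evC ![(ou v)⁻¹, -(ou v)⁻¹] (hu v) P) μ := fun P => by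
    obtain ⟨m, C, hC⟩ := ev2_bound P hu
    exact (hμ.integrable_tf hτ).mul_bdd m.aestronglyMeasurable (Eventually.of_forall hC)
  have key : ∀ P : LA (Fin 2), QQ U Φ τ P
      = ∫ v, τ (pr v) * evC ![(ou v)⁻¹, -(ou v)⁻¹] (hu v) P ∂μ := by
    intro P
    induction P using AddMonoidAlgebra.induction_linear with
    | zero => simp
    | add f g hf hg => simp only [map_add, mul_add, hf, hg]; rw [integral_add (ii f) (ii g)]
    | single a c =>
      have e : a = ![a 0, a 1] := by ext i; fin_cases i <;> rfl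
      have t := tendsto_ul (h.isBigO_psi (by simp) a hτ)
      rw [e] at t
      have t' := tendsto_nhds_unique t (hμ.mode h hτ (a 0) (a 1))
      rw [← e] at t'
      simp only [QQ, lin_single, t', evC_single, real_smul, ← integral_const_mul]
      refine integral_congr_ae (hμ.ae_cslab.mono fun v hv => ?_)
      have h0 := om_ne_zero (snd_ne_zero (cslab_subset_Om hv))
      simp only [ou_eq (cslab_subset_Om hv), Fin.prod_univ_two, Matrix.cons_val]
      rw [neg_eq_neg_one_mul (om v)⁻¹, mul_zpow, neg_add, zpow_add₀ h0, zpow_neg, zpow_neg,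
        inv_zpow, inv_zpow]
      ring
  rw [key, ← integral_const_mul]
  congr 1; ext v
  rw [evC_cc_two, mul_comm]

/-- the real function attached to a polynomial -/
def GR (Φ : ℤ → V → ℂ) (p : ℝ[X]) (z : ℂ) : ℝ := (GG (ι := Fin 2) Φ (aeval (cc 0 1) p) z).re

lemma Ladder.GR_eq {lam : ℝ} {Φ : ℤ → V → ℂ} (h : Ladder lam Φ) (p : ℝ[X]) (z : ℂ) :
    GG (ι := Fin 2) Φ (aeval (cc 0 1) p) z = GR Φ p z :=
  (conj_eq_iff_re.1 (h.conj_GG_aeval 0 1 p z)).symm

lemma Ladder.cont_GR {lam : ℝ} {Φ : ℤ → V → ℂ} (h : Ladder lam Φ) (p : ℝ[X]) :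
    ContinuousOn (GR Φ p) UH := continuous_re.comp_continuousOn (h.cont_GG _)

lemma Fam.tendsto_GR (h : Fam U lam Φ) (hμ : IsLim U Φ μ) {τ : ℂ → ℝ} (hτ : TF τ) (p : ℝ[X]) :
    Tendsto (fun j => ∫ z, τ z * GR (Φ j) p z ∂hyp) U (𝓝 (p.eval (-1) * ∫ v, τ (pr v) ∂μ)) := by
  have := (continuous_re.tendsto _).comp
    (h.tendsto_QQ (ι := Fin 2) (by simp) hτ.ofReal (aeval (cc 0 1) p))
  rw [hμ.QQ_two h hτ.ofReal, integral_complex_ofReal, ← ofReal_mul, ofReal_re] at this
  refine this.congr fun j => ?_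
  simp only [Function.comp, (h.lad j).GR_eq, ← ofReal_mul, integral_complex_ofReal, ofReal_re]

lemma Fam.tendsto_GR_sq (h : Fam U lam Φ) (hχ : TF1 χ) (p : ℝ[X]) :
    Tendsto (fun j => ∫ z, χ z * GR (Φ j) p z ^ 2 ∂hyp) U
      (𝓝 (QQ (ι := Fin 4) U Φ (fun z => χ z) (aeval (cc 0 1) (p * p))).re) := by
  have hd : ContDiff ℝ 1 fun z => (χ z : ℂ) := ofRealCLM.contDiff.comp hχ.cd
  rw [← (h.kills (by simp) hχ.toTF.ofReal hd).swap_pair]
  have e1 : (aeval (cc 0 1) p : LA (Fin 4)) = rel (![0, 1] : Fin 2 → Fin 4) (aeval (cc 0 1) p) := by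
    rw [← aeval_algHom_apply, rel_cc]; rfl
  have e2 : (aeval (cc 2 3) p : LA (Fin 4)) = rel (![2, 3] : Fin 2 → Fin 4) (aeval (cc 0 1) p) := by
    rw [← aeval_algHom_apply, rel_cc]; rfl
  have := (continuous_re.tendsto _).comp (h.tendsto_QQ (ι := Fin 4) (by simp) hχ.toTF.ofReal
    (aeval (cc 0 1) p * aeval (cc 2 3) p))
  refine this.congr fun j => ?_
  simp only [Function.comp, e1, e2, GG_four, (h.lad j).GR_eq, ← ofReal_mul, integral_complex_ofReal,
    ofReal_re, sq]

lemma TF.mul_real {τ : ℂ → ℝ} (h : TF τ) {g : ℂ → ℝ} (hg : Continuous g) : TF fun z => τ z * g z :=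
  ⟨h.cont.mul hg, h.hcs.mul_right, (tsupport_mul_subset_left (f := τ) (g := g)).trans h.sub⟩

lemma TF.integrable_real {τ : ℂ → ℝ} (h : TF τ) {F : ℂ → ℝ} (hF : ContinuousOn F UH) :
    Integrable (fun z => τ z * F z) hyp := h.integrable_smul hF

theorem local_four (h : Fam U lam Φ) (hμ : IsLim U Φ μ) (hχ : TF1 χ) (n1 : NC μ 1)
    (n2 : NC μ (-1)) {ψ : ℂ → ℝ} (hψ : Continuous ψ) :
    3 * (2 * ∫ v, χ (pr v) * ψ (pr v) ∂μ - ∫ z, χ z * ψ z ^ 2 ∂hyp)
      ≤ (QQ (ι := Fin 4) U Φ (fun z => χ z) 1).re := by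
  set A := 2 * ∫ v, χ (pr v) * ψ (pr v) ∂μ - ∫ z, χ z * ψ z ^ 2 ∂hyp with hA
  have main : ∀ η : ℝ, 0 < η → η < 1 →
      3 * A - η * (2 * A + 4) ≤ (QQ (ι := Fin 4) U Φ (fun z => χ z) 1).re := by
    intro η hη hη1
    obtain ⟨δ1, hδ1, s1⟩ := JJ_small hμ hχ n1 hη
    obtain ⟨δ2, hδ2, s2⟩ := JJ_small hμ hχ n2 hη
    obtain ⟨m, hm⟩ := exists_pow_lt_of_lt_one hη
      (show max 0 (1 - min δ1 δ2) < 1 from max_lt one_pos (by simp [hδ1, hδ2]))
    set k : ℝ[X] := ∑ i ∈ Finset.range (2 * m), (X ^ 2) ^ i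
    have ek : (1 - X ^ 2) * k = 1 - X ^ (2 * m) * X ^ (2 * m) := by
      rw [mul_neg_geom_sum]; ring
    have e1 : (QQ (ι := Fin 4) U Φ (fun z => χ z) 1).re
        = (QQ (ι := Fin 4) U Φ (fun z => χ z) (aeval (cc 0 1) (X ^ (2 * m) * X ^ (2 * m) : ℝ[X]))).re
          + (QQ (ι := Fin 4) U Φ (fun z => χ z) (aeval (cc 0 1) ((1 - X ^ 2) * k))).re := by
      rw [← add_re, ← map_add, ← map_add, ek]; simp
    have b1 : A ≤ (QQ (ι := Fin 4) U Φ (fun z => χ z)
        (aeval (cc 0 1) (X ^ (2 * m) * X ^ (2 * m) : ℝ[X]))).re := by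
      have t := ((h.tendsto_GR hμ (hχ.toTF.mul_real hψ) (X ^ (2 * m))).const_mul 2).sub_const
        (∫ z, χ z * ψ z ^ 2 ∂hyp)
      simp only [eval_pow, eval_X, pow_mul, neg_one_sq, one_pow, one_mul] at t
      simp only [← pow_mul] at t
      refine le_of_tendsto_of_tendsto' t (h.tendsto_GR_sq hχ _) fun j => ?_
      have c := (h.lad j).cont_GR (X ^ (2 * m))
      have i1 := (hχ.toTF.mul_real hψ).integrable_real c
      have i2 : Integrable (fun z => χ z * ψ z ^ 2) hyp :=
        hχ.toTF.integrable_real (hψ.pow 2).continuousOn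
      rw [← integral_const_mul, ← integral_sub (i1.const_mul _) i2]
      refine integral_mono ((i1.const_mul _).sub i2) (hχ.toTF.integrable_real (c.pow 2)) fun x => ?_
      have := mul_nonneg (hχ.nn x) (sq_nonneg (GR (Φ j) (X ^ (2 * m)) x - ψ x))
      simp only
      nlinarith
    have b2 : 2 * ((1 - η) * A - 2 * η)
        ≤ (QQ (ι := Fin 4) U Φ (fun z => χ z) (aeval (cc 0 1) ((1 - X ^ 2) * k))).re := by
      obtain ⟨S, hS, hS'⟩ := JJ_one_ge hμ hχ hψ
      refine le_of_tendsto_of_tendsto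
        (((((hS.const_mul 2).sub_const _).const_mul (1 - η)).sub_const (2 * η)).const_mul 2)
        (tendsto_JJ h hμ hχ k) ?_
      filter_upwards [hS', s1, s2, eventually_UH hχ.toTF] with ε h0 s1 s2 hε
      obtain ⟨C, hC⟩ := exists_bound_poly ((1 - X ^ 2) * k)
      have i0 := hμ.integrable_JJ hχ hε.1 hε.2 (g := fun _ => 1) measurable_const (C := 1) (by simp)
      have i1 := hμ.integrable_JJ hχ hε.1 hε.2 (measurable_ind 1 δ1) fun c _ => abs_ind_le _ _ c
      have i2 := hμ.integrable_JJ hχ hε.1 hε.2 (measurable_ind (-1) δ2) fun c _ => abs_ind_le _ _ c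
      have i3 := hμ.integrable_JJ hχ hε.1 hε.2 ((1 - X ^ 2) * k).continuous.measurable hC
      have key : (1 - η) * JJ μ χ ε (fun _ => 1) - JJ μ χ ε (ind 1 δ1) - JJ μ χ ε (ind (-1) δ2)
          ≤ JJ μ χ ε fun c => ((1 - X ^ 2) * k).eval c := by
        simp only [JJ]
        rw [← integral_const_mul, ← integral_sub (i0.const_mul _) i1,
          ← integral_sub (by exact (i0.const_mul _).sub i1) i2]
        refine integral_mono (((i0.const_mul _).sub i1).sub i2) i3 fun p => ?_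
        have h1 := hχ.Th_nonneg ε p
        have h2 := abs_cs_le p.2.1 p.2.2
        set c := cs p.2.1 p.2.2
        have : (1 - η) - ind 1 δ1 c - ind (-1) δ2 c ≤ ((1 - X ^ 2) * k).eval c := by
          rw [ek]
          simp only [eval_sub, eval_one, eval_mul, eval_pow, eval_X]
          have e : c ^ (2 * m) * c ^ (2 * m) = |c| ^ m * |c| ^ (3 * m) := by
            rw [← pow_add, ← pow_add, show m + 3 * m = 2 * (2 * m) by ring, pow_mul |c|, sq_abs]
            ring
          have a0 := abs_nonneg c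
          have a1 : |c| ^ (3 * m) ≤ 1 := pow_le_one₀ a0 h2
          have a2 : |c| ^ m ≤ 1 := pow_le_one₀ a0 h2
          have a3 : |c| ^ m * |c| ^ (3 * m) ≤ |c| ^ m := mul_le_of_le_one_right (by positivity) a1
          have := ind_nonneg 1 δ1 c
          have := ind_nonneg (-1) δ2 c
          rw [e]
          by_cases c1 : |c - 1| ≤ δ1
          · have : ind 1 δ1 c = 1 := if_pos c1
            linarith
          by_cases c2 : |c - -1| ≤ δ2
          · have : ind (-1) δ2 c = 1 := if_pos c2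
            linarith
          have a4 : |c| ≤ max 0 (1 - min δ1 δ2) := by
            refine le_max_of_le_right ?_
            have := min_le_left δ1 δ2
            have := min_le_right δ1 δ2
            rw [abs_le] at h2
            rw [abs_of_nonpos (by linarith)] at c1
            rw [abs_of_nonneg (by linarith)] at c2
            rw [abs_le]; constructor <;> linarith
          have := pow_le_pow_left₀ a0 a4 m
          linarith
        simp only
        nlinarith
      have : (1 - η) * (2 * S ε - ∫ z, χ z * ψ z ^ 2 ∂hyp) ≤ (1 - η) * JJ μ χ ε fun _ => 1 :=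
        mul_le_mul_of_nonneg_left h0 (by linarith)
      linarith
    rw [e1]; linarith
  have t : Tendsto (fun η : ℝ => 3 * A - η * (2 * A + 4)) (𝓝[>] 0) (𝓝 (3 * A)) := by
    simpa using ((tendsto_id.mono_left (nhdsWithin_le_nhds (a := (0 : ℝ)) (s := Ioi 0))).mul_const
      (2 * A + 4)).const_sub (3 * A)
  refine le_of_tendsto t ?_
  filter_upwards [Ioo_mem_nhdsGT one_pos] with η hη using main η hη.1 hη.2

lemma Ladder.ph_zero_real {lam : ℝ} {Φ : ℤ → V → ℂ} (h : Ladder lam Φ) (z : ℂ) :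
    ph Φ 0 z = (ph Φ 0 z).re := by
  have := h.cnj 0 (z, 1)
  simp only [zpow_zero, neg_zero, one_mul] at this
  exact (conj_eq_iff_re.1 this).symm

lemma Fam.small_sq (h : Fam U lam Φ) (hμ : IsLim U Φ μ) (hχ : TF1 χ) (n : NC μ (-1 / 2))
    {η : ℝ} (hη : 0 < η) : ∃ p : ℝ[X], p.eval (-1 / 2) = 1 ∧
      ∀ᶠ j in (U : Filter J), ∫ z, χ z * GR (Φ j) p z ^ 2 ∂hyp ≤ η := by
  set L := (QQ (ι := Fin 4) U Φ (fun z => χ z) (aeval (cc 0 1) ((1 - X ^ 2) * 1 : ℝ[X]))).re
  set t := η / (8 * (|L| + 1))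
  have ht : 0 < t := by positivity
  have ht' : t * (|L| + 1) = η / 8 := by simp only [t]; field_simp
  obtain ⟨δ, hδ, s1⟩ := JJ_small hμ hχ n ht
  obtain ⟨m, hm⟩ := exists_pow_lt_of_lt_one ht
    (show max 0 (1 - 4 / 9 * δ ^ 2) < 1 from max_lt one_pos (by simp; positivity))
  set q : ℝ[X] := (1 - C (4 / 9) * (X + C (1 / 2)) ^ 2) ^ m
  set k : ℝ[X] := C (16 / 9) * (1 - X ^ 2) * q ^ 2
  refine ⟨C (4 / 3) * (1 - X ^ 2) * q, by simp [q]; norm_num, ?_⟩
  have e : C (4 / 3) * (1 - X ^ 2) * q * (C (4 / 3) * (1 - X ^ 2) * q) = (1 - X ^ 2) * k := by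
    have : (C (16 / 9) : ℝ[X]) = C (4 / 3) * C (4 / 3) := by rw [← C_mul]; norm_num
    simp only [k, this]; ring
  refine (h.tendsto_GR_sq hχ _).eventually (ge_mem_nhds ?_)
  rw [e]
  have b : (QQ (ι := Fin 4) U Φ (fun z => χ z) (aeval (cc 0 1) ((1 - X ^ 2) * k))).re
      ≤ 2 * t * |L| + 4 * t := by
    have tl := ((tendsto_JJ h hμ hχ 1).const_mul (16 / 9 * t)).add_const (4 * t)
    refine (le_of_tendsto_of_tendsto (tendsto_JJ h hμ hχ k) tl ?_).trans ?_
    · filter_upwards [s1, eventually_UH hχ.toTF] with ε s1 hε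
      obtain ⟨C, hC⟩ := exists_bound_poly ((1 - X ^ 2) * k)
      obtain ⟨C', hC'⟩ := exists_bound_poly ((1 - X ^ 2) * 1)
      have i0 := hμ.integrable_JJ hχ hε.1 hε.2 ((1 - X ^ 2) * 1 : ℝ[X]).continuous.measurable hC'
      have i1 := hμ.integrable_JJ hχ hε.1 hε.2 (measurable_ind (-1 / 2) δ)
        fun c _ => abs_ind_le _ _ c
      have i3 := hμ.integrable_JJ hχ hε.1 hε.2 ((1 - X ^ 2) * k).continuous.measurable hC
      have key : (JJ μ χ ε fun c => ((1 - X ^ 2) * k).eval c)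
          ≤ 16 / 9 * t * (JJ μ χ ε fun c => ((1 - X ^ 2) * 1 : ℝ[X]).eval c)
            + 2 * JJ μ χ ε (ind (-1 / 2) δ) := by
        simp only [JJ]
        rw [← integral_const_mul, ← integral_const_mul,
          ← integral_add (i0.const_mul _) (i1.const_mul _)]
        refine integral_mono i3 ((i0.const_mul _).add (i1.const_mul _)) fun p => ?_
        have h1 := hχ.Th_nonneg ε p
        have h2 := abs_cs_le p.2.1 p.2.2
        set c := cs p.2.1 p.2.2
        have : ((1 - X ^ 2) * k).eval c ≤ 16 / 9 * t * ((1 - X ^ 2) * 1 : ℝ[X]).eval c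
            + 2 * ind (-1 / 2) δ c := by
          simp only [k, q, eval_sub, eval_one, eval_mul, eval_pow, eval_X, eval_C, eval_add, mul_one]
          set r := 1 - 4 / 9 * (c + 1 / 2) ^ 2
          rw [abs_le] at h2
          have a0 : 0 ≤ 1 - c ^ 2 := by nlinarith
          have a1 : 1 - c ^ 2 ≤ 1 := by nlinarith
          have r0 : 0 ≤ r := by simp only [r]; nlinarith
          have r1 : r ≤ 1 := by simp only [r]; nlinarith
          have p0 : 0 ≤ r ^ m := by positivity
          have p1 : r ^ m ≤ 1 := pow_le_one₀ r0 r1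
          have p2 : (r ^ m) ^ 2 ≤ r ^ m := by nlinarith
          have p3 : (1 - c ^ 2) * (r ^ m) ^ 2 ≤ r ^ m := by nlinarith
          by_cases c1 : |c - -1 / 2| ≤ δ
          · have : ind (-1 / 2) δ c = 1 := if_pos c1
            rw [this]
            nlinarith [mul_nonneg ht.le a0]
          · have a4 : r ≤ max 0 (1 - 4 / 9 * δ ^ 2) := by
              refine le_max_of_le_right ?_
              have : δ ^ 2 ≤ (c - -1 / 2) ^ 2 := by
                rw [← sq_abs (c - _)]; exact pow_le_pow_left₀ hδ.le (not_le.1 c1).le 2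
              simp only [r]; nlinarith
            have := pow_le_pow_left₀ r0 a4 m
            have := ind_nonneg (-1 / 2) δ c
            nlinarith
        simp only
        nlinarith
      linarith
    · have := le_abs_self L
      have := abs_nonneg L
      nlinarith
  have := abs_nonneg L
  nlinarith

theorem local_three (h : Fam U lam Φ) (hμ : IsLim U Φ μ) (n : NC μ (-1 / 2)) {τ : ℂ → ℝ}
    (hτ : TF τ) (hd : ContDiff ℝ 1 τ) : QQ (ι := Fin 3) U Φ (fun z => τ z) 1 = 0 := by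
  obtain ⟨θ, θ1, θ2, θ3, θ4, θ5⟩ := exists_bump hτ.hcs.isCompact isOpen_UH hτ.sub
  obtain ⟨C, hC⟩ := hτ.cont.bounded_above_of_compact_support hτ.hcs
  have C0 : 0 ≤ C := (norm_nonneg _).trans (hC 0)
  have hθ : TF1 θ := ⟨⟨θ1.continuous, θ2, θ3⟩, θ1, fun z => (θ5 z).1⟩
  have hb : ∀ z, |τ z| ≤ C * θ z := fun z => by
    by_cases hz : z ∈ tsupport τ
    · rw [θ4.self_of_nhdsSet z hz, mul_one]; exact hC z
    · rw [image_eq_zero_of_notMem_tsupport hz, abs_zero]; exact mul_nonneg C0 (θ5 z).1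
  have t2 := h.tendsto_GR hμ hθ.toTF 1
  set B := |eval (-1) (1 : ℝ[X]) * ∫ v, θ (pr v) ∂μ| + 1
  have hB : 0 < B := by positivity
  have b2 : ∀ᶠ j in (U : Filter J), ∫ z, θ z * GR (Φ j) 1 z ∂hyp ≤ B :=
    t2.eventually (ge_mem_nhds ((le_abs_self _).trans_lt (lt_add_one _)))
  rw [← norm_le_zero_iff]
  refine le_of_forall_pos_le_add fun η hη => ?_
  set s := η / ((C + 1) * B)
  have hs : 0 < s := by positivity
  obtain ⟨p, hp, hp'⟩ := h.small_sq hμ hθ n (η := s ^ 2 * B) (by positivity)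
  rw [← (h.kills (by simp) hτ.ofReal (ofRealCLM.contDiff.comp hd)).three hp]
  have e1 : (aeval (cc 0 1) p : LA (Fin 3)) = rel (![0, 1] : Fin 2 → Fin 3) (aeval (cc 0 1) p) := by
    rw [← aeval_algHom_apply, rel_cc]; rfl
  refine le_of_tendsto (h.tendsto_QQ (ι := Fin 3) (by simp) hτ.ofReal _).norm ?_
  filter_upwards [b2, hp'] with j b2 hp'
  have c1 := (h.lad j).cont_GR p
  have c2 := (h.lad j).cont_GR 1
  have i1 : Integrable (fun z => θ z * GR (Φ j) p z ^ 2) hyp := hθ.toTF.integrable_real (c1.pow 2)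
  have i2 := hθ.toTF.integrable_real c2
  have e2 : ∀ z, GR (Φ j) 1 z = ‖ph (Φ j) 0 z‖ ^ 2 := fun z => by
    rw [GR, map_one, GG_one, (h.lad j).ph_zero_real z]
    simp [← ofReal_pow]
  calc _ ≤ ∫ z, C / 2 * (s⁻¹ * (θ z * GR (Φ j) p z ^ 2) + s * (θ z * GR (Φ j) 1 z)) ∂hyp := by
        refine norm_integral_le_of_norm_le (((i1.const_mul _).add (i2.const_mul _)).const_mul _)
          (Eventually.of_forall fun z => ?_)
        rw [e1, GG_three, (h.lad j).GR_eq, e2, norm_mul, norm_mul, Complex.norm_real,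
          Complex.norm_real, Real.norm_eq_abs, Real.norm_eq_abs, ← sq_abs (GR _ _ _)]
        set x := |GR (Φ j) p z|
        set y := ‖ph (Φ j) 0 z‖
        have x0 : 0 ≤ x := abs_nonneg _
        have y0 : 0 ≤ y := norm_nonneg _
        have a1 : x * y ≤ (s⁻¹ * x ^ 2 + s * y ^ 2) / 2 := by
          have : s⁻¹ * x ^ 2 + s * y ^ 2 - 2 * (x * y) = s⁻¹ * (x - s * y) ^ 2 := by
            field_simp; ring
          have : 0 ≤ s⁻¹ * (x - s * y) ^ 2 := by positivity
          linarith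
        calc _ ≤ C * θ z * ((s⁻¹ * x ^ 2 + s * y ^ 2) / 2) :=
              mul_le_mul (hb z) a1 (by positivity) (mul_nonneg C0 (θ5 z).1)
          _ = _ := by ring
    _ = C / 2 * (s⁻¹ * ∫ z, θ z * GR (Φ j) p z ^ 2 ∂hyp + s * ∫ z, θ z * GR (Φ j) 1 z ∂hyp) := by
        rw [integral_const_mul, integral_add (i1.const_mul _) (i2.const_mul _), integral_const_mul,
          integral_const_mul]
    _ ≤ C / 2 * (s⁻¹ * (s ^ 2 * B) + s * B) := by gcongr
    _ = η * (C / (C + 1)) := by simp only [s]; field_simp; ring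
    _ ≤ 0 + η := by
        rw [zero_add]
        exact mul_le_of_le_one_right hη.le (by rw [div_le_one (by positivity)]; linarith)

end Pool.Agent.Lib.MP_a52643_an
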