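import Pool.Agent.Lib.MP_a52643_an.Limit
import Pool.Agent.Lib.MP_a52643_an.DivCurl

/-!
Conservation law on the half plane, cut-offs and limits of mollified products.
-/

open Complex MeasureTheory Set Filter Topology Asymptotics Metric
open scoped ComplexConjugate ContDiff ENNReal

noncomputable section

namespace Pool.Agent.Lib.MP_a52643_an

lemma exists_bump {K O : Set ℂ} (hK : IsCompact K) (hO : IsOpen O) (hKO : K ⊆ O) :
    ∃ θ : ℂ → ℝ, ContDiff ℝ 1 θ ∧ HasCompactSupport θ ∧ tsupport θ ⊆ O ∧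
      (∀ᶠ x in 𝓝ˢ K, θ x = 1) ∧ ∀ x, θ x ∈ Icc (0 : ℝ) 1 := by
  obtain ⟨L, hL, h1, h2⟩ := exists_compact_between hK hO hKO
  obtain ⟨f, f1, f0, f2⟩ := exists_contMDiffMap_one_nhds_of_subset_interior (n := 1)
    (modelWithCornersSelf ℝ ℂ) hK.isClosed h1
  have hs : tsupport f ⊆ L := closure_minimal (fun x hx => by
    by_contra h; exact hx (f0 x h)) hL.isClosed
  exact ⟨f, f.contMDiff.contDiff, hL.of_isClosed_subset (isClosed_tsupport _) hs, hs.trans h2,
    f1, f2⟩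

lemma contDiff_cut {θ : ℂ → ℝ} (hθ : ContDiff ℝ 1 θ) (hs : tsupport θ ⊆ UH) {F : ℂ → ℂ}
    (hF : ContDiffOn ℝ 1 F UH) : ContDiff ℝ 1 fun z => (θ z : ℂ) * F z := by
  rw [contDiff_iff_contDiffAt]
  intro z
  by_cases hz : z ∈ UH
  · exact (ofRealCLM.contDiff.comp hθ).contDiffAt.mul (hF.contDiffAt (isOpen_UH.mem_nhds hz))
  · have : θ =ᶠ[𝓝 z] 0 := notMem_tsupport_iff_eventuallyEq.1 fun h => hz (hs h)
    refine (contDiffAt_const (c := (0 : ℂ))).congr_of_eventuallyEq ?_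
    filter_upwards [this] with w hw
    simp [hw]

section one

variable {lam : ℝ} {Φ : ℤ → V → ℂ}

lemma Aop_eq (f : ℂ → ℂ) (z : ℂ) : Aop f z = 2 * I * z.im * dz f z := by
  simp only [Aop, dz, wp, smul_eq_mul, mul_one]
  linear_combination (z.im * fderiv ℝ f z I) * I_mul_I

lemma Bop_eq (f : ℂ → ℂ) (z : ℂ) : Bop f z = -2 * I * z.im * dzb f z := by
  simp only [Bop, dzb, wm, smul_eq_mul, mul_one]
  linear_combination (z.im * fderiv ℝ f z I) * I_mul_I

lemma Ladder.diff_ph (h : Ladder lam Φ) (n : ℤ) {z : ℂ} (hz : z ∈ UH) :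
    DifferentiableAt ℝ (ph Φ n) z :=
  ((h.cd_ph n).contDiffAt (isOpen_UH.mem_nhds hz)).differentiableAt one_ne_zero

lemma Ladder.dz_ph (h : Ladder lam Φ) (n : ℤ) {z : ℂ} (hz : z ∈ UH) :
    2 * I * z.im * dz (ph Φ n) z = I * al lam n * ph Φ (n + 1) z - n * ph Φ n z := by
  have hv := one_mem_Om hz
  have h2 : ((z, 1) : V).2 ≠ 0 := one_ne_zero
  have hp : pr (z, 1) = z := by simp [pr]
  have ho : om (z, 1) = 1 := by simp [om]
  have hd : DifferentiableAt ℝ (ph Φ n) (pr (z, 1)) := by rw [hp]; exact h.diff_ph n hz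
  have e := h.up n _ hv
  rw [Ep_congr_Om hv fun w hw => h.eq_ph n hw, Ep_mul (G := fun w => ph Φ n (pr w)) (diffAt_om_zpow h2 n)
    (hd.comp _ ((contDiffAt_pr (n := 1) h2).differentiableAt one_ne_zero)), Ep_om_zpow h2,
    Ep_comp_pr h2 hd, hp, ho, Aop_eq] at e
  simp only [one_zpow, mul_one, one_mul] at e
  unfold ph at e ⊢
  linear_combination e

lemma Ladder.dzb_ph (h : Ladder lam Φ) (n : ℤ) {z : ℂ} (hz : z ∈ UH) :
    2 * I * z.im * dzb (ph Φ (n + 1)) z
      = -(I * al lam n * ph Φ n z) - (n + 1) * ph Φ (n + 1) z := by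
  have hv := one_mem_Om hz
  have h2 : ((z, 1) : V).2 ≠ 0 := one_ne_zero
  have hp : pr (z, 1) = z := by simp [pr]
  have ho : om (z, 1) = 1 := by simp [om]
  have hd : DifferentiableAt ℝ (ph Φ (n + 1)) (pr (z, 1)) := by rw [hp]; exact h.diff_ph _ hz
  have e := h.down n _ hv
  rw [Em_congr_Om hv fun w hw => h.eq_ph (n + 1) hw, Em_mul (G := fun w => ph Φ (n + 1) (pr w))
    (diffAt_om_zpow h2 _)
    (hd.comp _ ((contDiffAt_pr (n := 1) h2).differentiableAt one_ne_zero)), Em_om_zpow h2,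
    Em_comp_pr h2 hd, hp, ho, Bop_eq] at e
  simp only [one_zpow, mul_one, one_mul, inv_one] at e
  unfold ph at e ⊢
  push_cast at e
  linear_combination -e

lemma psi_two (Φ : ℤ → V → ℂ) (a b : ℤ) : psi Φ ![a, b] = fun z => ph Φ a z * ph Φ b z := by
  ext z; simp [psi]

lemma Ladder.eP_psi (h : Ladder lam Φ) (a b : ℤ) {z : ℂ} (hz : z ∈ UH) :
    eP (psi Φ ![a, b]) (psi Φ ![a + 1, b + 1]) z
      = ((al lam a - al lam b : ℝ) / (2 * z.im)) * psi Φ ![a + 1, b] z
        + (-(al lam a - al lam b : ℝ) / (2 * z.im)) * psi Φ ![a, b + 1] z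
        + (-(a + b) / (2 * I * z.im)) * psi Φ ![a, b] z
        + (-(a + b + 2) / (2 * I * z.im)) * psi Φ ![a + 1, b + 1] z := by
  have hy : (z.im : ℂ) ≠ 0 := by exact_mod_cast (ne_of_gt hz)
  simp only [eP, psi_two, dz_mul (h.diff_ph a hz) (h.diff_ph b hz),
    dzb_mul (h.diff_ph (a + 1) hz) (h.diff_ph (b + 1) hz)]
  have e1 := h.dz_ph a hz
  have e2 := h.dz_ph b hz
  have e3 := h.dzb_ph a hz
  have e4 := h.dzb_ph b hz
  push_cast
  field_simp
  linear_combination ph Φ b z * e1 + ph Φ a z * e2 + ph Φ (b + 1) z * e3 + ph Φ (a + 1) z * e4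

end one

section fam

variable {J : Type} {l : Filter J} {lam : J → ℝ} {Φ : J → ℤ → V → ℂ}

structure L2 (l : Filter J) (F : J → ℂ → ℂ) : Prop where
  cont : ∀ j, ContinuousOn (F j) UH
  bd : LH l fun j z => ‖F j z‖ ^ 2

lemma L2.add {F G : J → ℂ → ℂ} (hF : L2 l F) (hG : L2 l G) : L2 l fun j z => F j z + G j z := by
  refine ⟨fun j => (hF.cont j).add (hG.cont j), fun K hK hU => ?_⟩
  obtain ⟨C1, h1⟩ := hF.bd K hK hU
  obtain ⟨C2, h2⟩ := hG.bd K hK hU
  refine ⟨2 * (C1 + C2), ?_⟩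
  filter_upwards [h1, h2] with j h1 h2
  have i1 : IntegrableOn (fun z => ‖F j z‖ ^ 2) K hyp :=
    integrableOn_hyp ((hF.cont j).norm.pow 2) hK hU
  have i2 : IntegrableOn (fun z => ‖G j z‖ ^ 2) K hyp :=
    integrableOn_hyp ((hG.cont j).norm.pow 2) hK hU
  calc _ ≤ ∫ z in K, 2 * (‖F j z‖ ^ 2 + ‖G j z‖ ^ 2) ∂hyp := by
        refine integral_mono (integrableOn_hyp (((hF.cont j).add (hG.cont j)).norm.pow 2) hK hU)
          ((i1.add i2).const_mul _) fun z => ?_
        have := norm_add_le (F j z) (G j z)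
        have h0 := norm_nonneg (F j z + G j z)
        simp only
        nlinarith [sq_nonneg (‖F j z‖ - ‖G j z‖)]
    _ ≤ _ := by rw [integral_const_mul, integral_add i1 i2]; linarith

lemma L2.mul {F g : J → ℂ → ℂ} (hF : L2 l F) (hg : ∀ j, ContinuousOn (g j) UH)
    (hb : ∀ K : Set ℂ, IsCompact K → K ⊆ UH → ∃ C : ℝ, ∀ᶠ j in l, ∀ z ∈ K, ‖g j z‖ ≤ C) :
    L2 l fun j z => g j z * F j z := by
  refine ⟨fun j => (hg j).mul (hF.cont j), fun K hK hU => ?_⟩
  obtain ⟨C1, h1⟩ := hF.bd K hK hU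
  obtain ⟨C2, h2⟩ := hb K hK hU
  refine ⟨C2 ^ 2 * C1, ?_⟩
  filter_upwards [h1, h2] with j h1 h2
  have i1 : IntegrableOn (fun z => ‖F j z‖ ^ 2) K hyp :=
    integrableOn_hyp ((hF.cont j).norm.pow 2) hK hU
  calc _ ≤ ∫ z in K, C2 ^ 2 * ‖F j z‖ ^ 2 ∂hyp := by
        refine setIntegral_mono_on (integrableOn_hyp (((hg j).mul (hF.cont j)).norm.pow 2) hK hU)
          (i1.const_mul _) hK.measurableSet fun z hz => ?_
        rw [norm_mul, mul_pow]
        have := h2 z hz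
        gcongr
    _ ≤ _ := by rw [integral_const_mul]; gcongr

lemma L2.congr {F G : J → ℂ → ℂ} (hF : L2 l F) (h : ∀ j, ∀ z ∈ UH, G j z = F j z) : L2 l G := by
  refine ⟨fun j => (hF.cont j).congr (h j), fun K hK hU => ?_⟩
  obtain ⟨C1, h1⟩ := hF.bd K hK hU
  refine ⟨C1, h1.mono fun j hj => le_of_eq_of_le ?_ hj⟩
  exact setIntegral_congr_fun hK.measurableSet fun z hz => by simp only [h j z (hU hz)]

lemma Fam.l2_psi (h : Fam l lam Φ) (a b : ℤ) : L2 l fun j => psi (Φ j) ![a, b] := by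
  refine ⟨fun j => ((h.lad j).cd_psi _).continuousOn, fun K hK hU => ?_⟩
  obtain ⟨C1, h1⟩ := h.lh4 a K hK hU
  obtain ⟨C2, h2⟩ := h.lh4 b K hK hU
  refine ⟨C1 + C2, ?_⟩
  filter_upwards [h1, h2] with j h1 h2
  have i1 : IntegrableOn (fun z => ‖ph (Φ j) a z‖ ^ 4) K hyp :=
    integrableOn_hyp (((h.lad j).cd_ph a).continuousOn.norm.pow 4) hK hU
  have i2 : IntegrableOn (fun z => ‖ph (Φ j) b z‖ ^ 4) K hyp :=
    integrableOn_hyp (((h.lad j).cd_ph b).continuousOn.norm.pow 4) hK hU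
  calc _ ≤ ∫ z in K, (‖ph (Φ j) a z‖ ^ 4 + ‖ph (Φ j) b z‖ ^ 4) ∂hyp := by
        refine integral_mono (integrableOn_hyp (((h.lad j).cd_psi _).continuousOn.norm.pow 2) hK hU)
          (i1.add i2) fun z => ?_
        simp only [psi_two, norm_mul]
        nlinarith [sq_nonneg (‖ph (Φ j) a z‖ ^ 2 - ‖ph (Φ j) b z‖ ^ 2),
          sq_nonneg (‖ph (Φ j) a z‖ ^ 2 + ‖ph (Φ j) b z‖ ^ 2)]
    _ ≤ _ := by rw [integral_add i1 i2]; linarith

lemma contOn_inv_im (c d : ℂ) (hd : d ≠ 0) : ContinuousOn (fun z : ℂ => c / (d * z.im)) UH :=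
  continuousOn_const.div (by fun_prop) fun z hz =>
    mul_ne_zero hd (by exact_mod_cast (ne_of_gt hz))

lemma L2.mul_coef {F : J → ℂ → ℂ} (hF : L2 l F) {c : J → ℂ} (hc : ∀ᶠ j in l, ‖c j‖ ≤ 1) (c' d : ℂ)
    (hd : d ≠ 0) : L2 l fun j z => (c j * c') / (d * z.im) * F j z := by
  refine hF.mul (fun j => contOn_inv_im _ _ hd) fun K hK hU => ?_
  obtain ⟨C, hC⟩ := hK.exists_bound_of_continuousOn ((contOn_inv_im c' d hd).mono hU)
  refine ⟨C, hc.mono fun j hj z hz => ?_⟩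
  rw [mul_div_assoc, norm_mul]
  have := hC z hz
  nlinarith [norm_nonneg (c j), norm_nonneg (c' / (d * z.im))]

lemma Fam.l2_eP (h : Fam l lam Φ) (a b : ℤ) :
    L2 l fun j => eP (psi (Φ j) ![a, b]) (psi (Φ j) ![a + 1, b + 1]) := by
  have hc : ∀ᶠ j in l, ‖((al (lam j) a - al (lam j) b : ℝ) : ℂ)‖ ≤ 1 :=
    (tendsto_al_sub h.tend a b).ofReal.norm.eventually (ge_mem_nhds (by simp))
  have h1 : ∀ᶠ _j in l, ‖(1 : ℂ)‖ ≤ 1 := by simp
  refine (((((h.l2_psi (a + 1) b).mul_coef hc 1 2 two_ne_zero).add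
    ((h.l2_psi a (b + 1)).mul_coef hc (-1) 2 two_ne_zero)).add
    ((h.l2_psi a b).mul_coef h1 (-(a + b)) (2 * I) (by simp))).add
    ((h.l2_psi (a + 1) (b + 1)).mul_coef h1 (-(a + b + 2)) (2 * I) (by simp))).congr
    fun j z hz => ?_
  rw [(h.lad j).eP_psi a b hz]; simp

lemma integral_hyp_weight {E : Type*} [NormedAddCommGroup E] [NormedSpace ℝ E] (F : ℂ → E) :
    ∫ z, F z ∂hyp = ∫ z in UH, (1 / z.im ^ 2) • F z := by
  unfold hyp
  rw [integral_withDensity_eq_integral_toReal_smul (by fun_prop) (by simp)]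
  congr 1; ext z
  rw [ENNReal.toReal_ofReal (by positivity)]

lemma setIntegral_le_hyp {u : ℂ → ℝ} (hu : ContinuousOn u UH) (h0 : ∀ z, 0 ≤ u z) {K : Set ℂ}
    (hK : IsCompact K) (hU : K ⊆ UH) {Y : ℝ} (hY : ∀ z ∈ K, z.im ^ 2 ≤ Y) :
    ∫ z in K, u z ≤ Y * ∫ z in K, u z ∂hyp := by
  rw [← integral_indicator (μ := hyp) hK.measurableSet, integral_hyp_weight]
  have : ∀ z, (1 / z.im ^ 2) • K.indicator u z = K.indicator (fun z => (1 / z.im ^ 2) * u z) z := by
    intro z; by_cases h : z ∈ K <;> simp [h]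
  simp only [this]
  rw [setIntegral_indicator hK.measurableSet, inter_eq_self_of_subset_right hU,
    ← integral_const_mul]
  have c : ContinuousOn (fun z : ℂ => 1 / z.im ^ 2 * u z) UH :=
    (continuousOn_const.div (by fun_prop) fun z hz => pow_ne_zero 2 (ne_of_gt hz)).mul hu
  refine setIntegral_mono_on ((hu.mono hU).integrableOn_compact hK)
    (((c.mono hU).integrableOn_compact hK).const_mul _) hK.measurableSet fun z hz => ?_
  have h1 : 0 < z.im ^ 2 := pow_pos (hU hz) 2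
  have h2 : 1 ≤ Y * (1 / z.im ^ 2) := by rw [mul_one_div, le_div_iff₀ h1]; simpa using hY z hz
  nlinarith [h0 z]

lemma L2.sb {F : J → ℂ → ℂ} (hF : L2 l F) {K : Set ℂ} (hK : IsCompact K) {δ : ℝ}
    (hU : cthickening δ K ⊆ UH) : ∃ B : ℝ, ∀ᶠ j in l, ∀ G : ℂ → ℂ,
      (∀ z ∈ cthickening δ K, G z = F j z) → SB K δ B G := by
  have hK1 := hK.cthickening (r := δ)
  obtain ⟨C, hC⟩ := hF.bd _ hK1 hU
  obtain ⟨Y, hY⟩ := hK1.exists_bound_of_continuousOn (f := fun z : ℂ => z.im ^ 2) (by fun_prop)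
  refine ⟨max Y 0 * C, hC.mono fun j hj G hG a ha => ?_⟩
  have hm : ∀ x ∈ K, x + a ∈ cthickening δ K := fun x hx =>
    mem_cthickening_of_dist_le _ x δ K hx (by simpa using ha)
  have i1 : IntegrableOn (fun z => ‖F j z‖ ^ 2) (cthickening δ K) :=
    (((hF.cont j).norm.pow 2).mono hU).integrableOn_compact hK1
  calc ∫ x in K, ‖G (x + a)‖ ^ 2 = ∫ x in K, ‖F j (x + a)‖ ^ 2 :=
        setIntegral_congr_fun hK.measurableSet fun x hx => by simp only [hG _ (hm x hx)]
    _ = ∫ x in (fun x => x + a) '' K, ‖F j x‖ ^ 2 :=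
        ((measurePreserving_add_right volume a).setIntegral_image_emb
          (measurableEmbedding_addRight a) (fun x => ‖F j x‖ ^ 2) K).symm
    _ ≤ ∫ x in cthickening δ K, ‖F j x‖ ^ 2 :=
        setIntegral_mono_set i1 (Eventually.of_forall fun x => by positivity)
          (show (fun x => x + a) '' K ⊆ cthickening δ K from
            image_subset_iff.2 hm).eventuallyLE
    _ ≤ max Y 0 * ∫ x in cthickening δ K, ‖F j x‖ ^ 2 ∂hyp :=
        setIntegral_le_hyp (u := fun x => ‖F j x‖ ^ 2) ((hF.cont j).norm.pow 2)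
          (fun z => by positivity) hK1 hU
          fun z hz => ((le_abs_self _).trans (hY z hz)).trans (le_max_left _ _)
    _ ≤ _ := mul_le_mul_of_nonneg_left hj (le_max_right _ _)

lemma SB.mono {K : Set ℂ} {ε δ B B' : ℝ} {F : ℂ → ℂ} (h : SB K δ B F) (hε : ε ≤ δ) (hB : B ≤ B') :
    SB K ε B' F := fun a ha => (h a (ha.trans hε)).trans hB

/-- the mollifying kernel with respect to hyperbolic area -/
def kern (ε : ℝ) (x y : ℂ) : ℝ := (ε ^ 2)⁻¹ * hk (ε⁻¹ • (y - x)) * y.im ^ 2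

@[fun_prop] lemma continuous_kern (ε : ℝ) : Continuous fun p : ℂ × ℂ => kern ε p.1 p.2 := by
  unfold kern; fun_prop

lemma kern_nonneg (ε : ℝ) (x y : ℂ) : 0 ≤ kern ε x y := by
  unfold kern; have := hk_nonneg (ε⁻¹ • (y - x)); positivity

lemma kern_zero {ε : ℝ} (hε : 0 < ε) {x y : ℂ} (h : ε < ‖y - x‖) : kern ε x y = 0 := by
  have : 1 < ‖ε⁻¹ • (y - x)‖ := by
    rw [norm_smul, norm_inv, Real.norm_of_nonneg hε.le, ← div_eq_inv_mul, one_lt_div hε]; exact h
  simp only [kern, hk_zero this, mul_zero, zero_mul]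

lemma tsupport_kern {ε : ℝ} (hε : 0 < ε) (x : ℂ) : tsupport (kern ε x) ⊆ closedBall x ε :=
  closure_minimal (fun y hy => by
    by_contra h
    exact hy (kern_zero hε (by simpa [dist_eq_norm] using h))) isClosed_closedBall

lemma tf_kern {ε : ℝ} (hε : 0 < ε) {x : ℂ} (hx : closedBall x ε ⊆ UH) : TF (kern ε x) :=
  ⟨by unfold kern; fun_prop,
    (isCompact_closedBall x ε).of_isClosed_subset (isClosed_tsupport _) (tsupport_kern hε x),
    (tsupport_kern hε x).trans hx⟩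

lemma integral_scale {E : Type*} [NormedAddCommGroup E] [NormedSpace ℝ E] {ε : ℝ} (hε : 0 < ε)
    (x : ℂ) (G : ℂ → E) :
    ∫ a, hk a • G (x + ε • a) = ∫ y, ((ε ^ 2)⁻¹ * hk (ε⁻¹ • (y - x))) • G y := by
  have h1 := Measure.integral_comp_smul (volume : Measure ℂ)
    (fun b => hk (ε⁻¹ • b) • G (x + b)) ε
  simp only [smul_smul, inv_mul_cancel₀ hε.ne', one_smul, Complex.finrank_real_complex] at h1
  rw [h1, abs_of_pos (by positivity), ← integral_smul,
    ← integral_add_left_eq_self (μ := volume) (fun y => ((ε ^ 2)⁻¹ * hk (ε⁻¹ • (y - x))) • G y) x]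
  simp [mul_smul]

lemma moll_eq_kern {ε : ℝ} (hε : 0 < ε) {x : ℂ} (hx : closedBall x ε ⊆ UH) {G F : ℂ → ℂ}
    (h : ∀ y ∈ closedBall x ε, G y = F y) :
    moll ε G x = ∫ y, (kern ε x y : ℂ) * F y ∂hyp := by
  have : moll ε G x = _ := integral_scale hε x G
  simp only [real_smul] at this
  rw [this, integral_hyp_weight,
    ← setIntegral_eq_integral_of_forall_compl_eq_zero (s := UH)]
  · refine setIntegral_congr_fun isOpen_UH.measurableSet fun y hy => ?_
    have hy' : (y.im : ℂ) ≠ 0 := by exact_mod_cast (ne_of_gt hy)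
    by_cases h' : y ∈ closedBall x ε
    · simp only [h y h', kern, real_smul]; push_cast; field_simp
    · have h1 : ε < ‖y - x‖ := by simpa [dist_eq_norm] using h'
      have h2 := kern_zero hε h1
      have h3 : (ε ^ 2)⁻¹ * hk (ε⁻¹ • (y - x)) = 0 :=
        (mul_eq_zero.1 h2).resolve_right (pow_ne_zero 2 (ne_of_gt hy))
      simp only [real_smul] at h3
      simp only [h2, h3]; simp
  · intro y hy
    have h1 : 1 < ‖ε⁻¹ • (y - x)‖ := by
      have : ε < ‖y - x‖ := by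
        by_contra h'
        exact hy (hx (by simpa [dist_eq_norm] using h'))
      rw [norm_smul, norm_inv, Real.norm_of_nonneg hε.le, ← div_eq_inv_mul, one_lt_div hε]
      exact this
    have := hk_zero h1
    simp only [real_smul] at this
    simp only [this]; simp

lemma tendstoUniformlyOn_of_equi [l.NeBot] {g : J → ℂ → ℂ} {g0 : ℂ → ℂ} {K : Set ℂ}
    (hK : IsCompact K) (hp : ∀ x ∈ K, Tendsto (fun j => g j x) l (𝓝 (g0 x)))
    (he : ∀ η > 0, ∃ δ > 0, ∀ᶠ j in l, ∀ x ∈ K, ∀ x' ∈ K, dist x x' < δ →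
      dist (g j x) (g j x') ≤ η) : TendstoUniformlyOn g g0 l K := by
  rw [Metric.tendstoUniformlyOn_iff]
  intro ε hε
  obtain ⟨δ, hδ, h1⟩ := he (ε / 3) (by positivity)
  obtain ⟨t, ht, htf, hcov⟩ := hK.finite_cover_balls hδ
  have h2 : ∀ᶠ j in l, ∀ x ∈ t, dist (g j x) (g0 x) < ε / 3 :=
    (htf.eventually_all).2 fun x hx => Metric.tendsto_nhds.1 (hp x (ht hx)) _ (by positivity)
  filter_upwards [h1, h2] with j h1' h2 x hx
  obtain ⟨y, hy, hxy⟩ := mem_iUnion₂.1 (hcov hx)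
  have h3 : dist (g0 x) (g0 y) ≤ ε / 3 :=
    le_of_tendsto ((hp x hx).dist (hp y (ht hy))) (h1.mono fun j hj => hj x hx y (ht hy) hxy)
  have h4 := h1' x hx y (ht hy) hxy
  have h5 := h2 y hy
  have := dist_triangle4 (g0 x) (g0 y) (g j y) (g j x)
  rw [dist_comm (g0 y), dist_comm (g j y) (g j x)] at this
  linarith

lemma L2.equi {F : J → ℂ → ℂ} (hF : L2 l F) {K : Set ℂ} (hK : IsCompact K) {ε : ℝ} (hε : 0 < ε)
    (hU : cthickening ε K ⊆ UH) : ∀ η > 0, ∃ δ > 0, ∀ᶠ j in l, ∀ x ∈ K, ∀ x' ∈ K, dist x x' < δ →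
      dist (∫ y, (kern ε x y : ℂ) * F j y ∂hyp) (∫ y, (kern ε x' y : ℂ) * F j y ∂hyp) ≤ η := by
  intro η hη
  have hK1 := hK.cthickening (r := ε)
  obtain ⟨C, hC⟩ := hF.bd _ hK1 hU
  set M := hyp.real (cthickening ε K) + |C| + 1
  have m0 : 0 ≤ hyp.real (cthickening ε K) := measureReal_nonneg
  have hM : 0 < M := by positivity
  have uc := (hK.prod hK1).uniformContinuousOn_of_continuous (continuous_kern ε).continuousOn
  obtain ⟨δ, hδ, h1⟩ := Metric.uniformContinuousOn_iff.1 uc (η / M) (by positivity)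
  refine ⟨δ, hδ, hC.mono fun j hj x hx x' hx' hd => ?_⟩
  have b1 : ∀ x ∈ K, closedBall x ε ⊆ cthickening ε K := fun x hx =>
    closedBall_subset_cthickening hx ε
  rw [dist_eq_norm, ← integral_sub ((tf_kern hε ((b1 x hx).trans hU)).ofReal.integrable_mul (hF.cont j))
    ((tf_kern hε ((b1 x' hx').trans hU)).ofReal.integrable_mul (hF.cont j)),
    ← setIntegral_eq_integral_of_forall_compl_eq_zero (s := cthickening ε K)]
  · have i1 : IntegrableOn (fun z => ‖F j z‖ ^ 2) (cthickening ε K) hyp :=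
      integrableOn_hyp ((hF.cont j).norm.pow 2) hK1 hU
    have i2 : IntegrableOn (fun _ => (1 : ℝ)) (cthickening ε K) hyp :=
      integrableOn_hyp continuousOn_const hK1 hU
    calc _ ≤ ∫ y in cthickening ε K, η / M * (1 + ‖F j y‖ ^ 2) ∂hyp := by
          refine norm_integral_le_of_norm_le ((i2.add i1).const_mul _)
            ((ae_restrict_iff' hK1.measurableSet).2 (Eventually.of_forall fun y hy => ?_))
          have := h1 (x, y) ⟨hx, hy⟩ (x', y) ⟨hx', hy⟩ (by rw [Prod.dist_eq]; exact max_lt hd (by simpa using hδ))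
          rw [← sub_mul, norm_mul, ← ofReal_sub, Complex.norm_real]
          refine mul_le_mul this.le ?_ (norm_nonneg _) (by positivity)
          nlinarith [sq_nonneg (‖F j y‖ - 1), norm_nonneg (F j y)]
      _ = η / M * (hyp.real (cthickening ε K) + ∫ y in cthickening ε K, ‖F j y‖ ^ 2 ∂hyp) := by
          rw [integral_const_mul, integral_add i2 i1]; simp
      _ ≤ η / M * M := by
          refine mul_le_mul_of_nonneg_left ?_ (by positivity)
          have := le_abs_self C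
          simp only [M]; linarith
      _ = η := by field_simp
  · intro y hy
    have z : ∀ x ∈ K, kern ε x y = 0 := fun x hx =>
      image_eq_zero_of_notMem_tsupport fun h => hy (b1 x hx (tsupport_kern hε x h))
    simp [z x hx, z x' hx']

lemma tendsto_integral_mul_mul {w : ℂ → ℂ} {K : Set ℂ} (hK : IsCompact K) (hw : Continuous w)
    (hw0 : ∀ x ∉ K, w x = 0) {f g : J → ℂ → ℂ} {f0 g0 : ℂ → ℂ} [l.NeBot]
    (cf : ∀ j, Continuous (f j)) (cg : ∀ j, Continuous (g j))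
    (hf : TendstoUniformlyOn f f0 l K) (hg : TendstoUniformlyOn g g0 l K) :
    Tendsto (fun j => ∫ x, w x * f j x * g j x) l (𝓝 (∫ x, w x * f0 x * g0 x)) := by
  have cf0 := hf.continuousOn (Eventually.frequently (Eventually.of_forall fun j =>
    (cf j).continuousOn))
  have cg0 := hg.continuousOn (Eventually.frequently (Eventually.of_forall fun j =>
    (cg j).continuousOn))
  have hw' : TendstoLocallyUniformlyOn (fun _ : J => w) w l K :=
    (show TendstoUniformlyOn (fun _ : J => w) w l K from fun u hu =>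
      Eventually.of_forall fun _ _ _ => refl_mem_uniformity hu).tendstoLocallyUniformlyOn
  have h := (tendstoLocallyUniformlyOn_iff_tendstoUniformlyOn_of_compact hK).1
    ((hw'.mul₀ hf.tendstoLocallyUniformlyOn hw.continuousOn cf0).mul₀ hg.tendstoLocallyUniformlyOn
      (hw.continuousOn.mul cf0) cg0)
  have e : ∀ f g : ℂ → ℂ, ∫ x, w x * f x * g x = ∫ x in K, w x * f x * g x := fun f g =>
    (setIntegral_eq_integral_of_forall_compl_eq_zero fun x hx => by simp [hw0 x hx]).symm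
  simp only [e]
  rw [Metric.tendsto_nhds]
  intro ε hε
  have m0 : 0 ≤ volume.real K := measureReal_nonneg
  filter_upwards [Metric.tendstoUniformlyOn_iff.1 h (ε / (volume.real K + 1)) (by positivity)]
    with j hj
  rw [dist_comm, dist_eq_norm, ← integral_sub
    (by exact ((hw.continuousOn.mul cf0).mul cg0).integrableOn_compact hK)
    (by exact ((hw.mul (cf j)).mul (cg j)).continuousOn.integrableOn_compact hK)]
  refine (norm_setIntegral_le_of_norm_le_const hK.measure_lt_top fun x hx =>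
    (by simpa [dist_eq_norm] using (hj x hx).le)).trans_lt ?_
  rw [div_mul_eq_mul_div, div_lt_iff₀ (by positivity)]
  nlinarith

end fam

end Pool.Agent.Lib.MP_a52643_an
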