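import Pool.Agent.Lib.MP_a52643_an.Dyn4
import Pool.Agent.Lib.MP_a52643_an.Local2

/-!
Transfer from the cone model to the group and the non-concentration property.
-/

open MeasureTheory Set Filter Topology Metric UpperHalfPlane
open scoped ENNReal MatrixGroups Pointwise NNReal ComplexConjugate

noncomputable section

namespace Pool.Agent.Lib.MP_a52643_an

open Classical in
def nG (v : V) : SL2 :=
  if h : v ∈ Om then mkG (v.1.im / √(dt v)) (v.1.re / √(dt v)) (v.2.im / √(dt v))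
    (v.2.re / √(dt v)) (by
      have h0 : 0 < dt v := h
      have h1 := Real.sqrt_pos.2 h0
      field_simp
      rw [Real.sq_sqrt h0.le, dt_eq])
  else 1

lemma nG_ent {v : V} (hv : v ∈ Om) : ea (nG v) = v.1.im / √(dt v) ∧ eb (nG v) = v.1.re / √(dt v) ∧
    ec (nG v) = v.2.im / √(dt v) ∧ ed (nG v) = v.2.re / √(dt v) := by
  simp [nG, hv]

open Classical in
lemma measurable_nG : Measurable nG := by
  have m := isOpen_Om.measurableSet
  refine measurable_SL2 ?_ ?_ ?_ ?_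
  · have : (fun v => ea (nG v)) = fun v => if v ∈ Om then v.1.im / √(dt v) else 1 := by
      ext v; unfold nG; split_ifs <;> rfl
    rw [this]; exact Measurable.ite m (by fun_prop) measurable_const
  · have : (fun v => eb (nG v)) = fun v => if v ∈ Om then v.1.re / √(dt v) else 0 := by
      ext v; unfold nG; split_ifs <;> rfl
    rw [this]; exact Measurable.ite m (by fun_prop) measurable_const
  · have : (fun v => ec (nG v)) = fun v => if v ∈ Om then v.2.im / √(dt v) else 0 := by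
      ext v; unfold nG; split_ifs <;> rfl
    rw [this]; exact Measurable.ite m (by fun_prop) measurable_const
  · have : (fun v => ed (nG v)) = fun v => if v ∈ Om then v.2.re / √(dt v) else 1 := by
      ext v; unfold nG; split_ifs <;> rfl
    rw [this]; exact Measurable.ite m (by fun_prop) measurable_const

lemma coe_bp_nG {v : V} (hv : v ∈ Om) : (bp (nG v) : ℂ) = pr v := by
  obtain ⟨f1, f2, f3, f4⟩ := nG_ent hv
  have h1 : ((√(dt v) : ℝ) : ℂ) ≠ 0 := by exact_mod_cast (Real.sqrt_pos.2 hv).ne'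
  rw [bp, coe_act, f1, f2, f3, f4, pr, coe_I]
  push_cast
  rw [div_mul_eq_mul_div, div_mul_eq_mul_div, ← add_div, ← add_div, div_div_div_cancel_right₀ h1,
    add_comm, Complex.re_add_im, add_comm, Complex.re_add_im]

lemma nG_Lg (g : SL2) {v : V} (hv : v ∈ Om) :
    nG (Lg (ea g) (eb g) (ec g) (ed g) v) = g * nG v := by
  obtain ⟨f1, f2, f3, f4⟩ := nG_ent hv
  obtain ⟨g1, g2, g3, g4⟩ := nG_ent (Lg_mem (det_eq g) hv)
  rw [dt_Lg, det_eq, one_mul] at g1 g2 g3 g4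
  apply SL2_ext
  · rw [g1, ea_mul, f1, f3]; simp; ring
  · rw [g2, eb_mul, f2, f4]; simp; ring
  · rw [g3, ec_mul, f1, f3]; simp; ring
  · rw [g4, ed_mul, f2, f4]; simp; ring

lemma nG_fl (t : ℝ) {v : V} (hv : v ∈ Om) : nG (fl t v) = nG v * dg (Real.exp (-t)) := by
  have e1 := Real.cosh_add_sinh t
  have e2 := Real.cosh_sub_sinh t
  have e : dt (fl t v) = dt v := by
    simp [dt_eq, fl_apply, Complex.sinh_ofReal_re]
    linear_combination (v.1.im * v.2.re - v.1.re * v.2.im) * Real.cosh_sq_sub_sinh_sq t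
  obtain ⟨f1, f2, f3, f4⟩ := nG_ent hv
  obtain ⟨g1, g2, g3, g4⟩ := nG_ent (v := fl t v) (show 0 < dt _ by rw [e]; exact hv)
  rw [e] at g1 g2 g3 g4
  have e3 : (Real.exp (-t))⁻¹ = Real.exp t := by rw [Real.exp_neg, inv_inv]
  apply SL2_ext
  · rw [g1, ea_mul, f1]; simp [dg, nz_eq (Real.exp_pos _).ne', fl_apply, Complex.sinh_ofReal_re]; rw [← e2]; ring
  · rw [g2, eb_mul, f2]; simp [dg, nz_eq (Real.exp_pos _).ne', fl_apply, e3, Complex.sinh_ofReal_re]; rw [← e1]; ring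
  · rw [g3, ec_mul, f3]; simp [dg, nz_eq (Real.exp_pos _).ne', fl_apply, Complex.sinh_ofReal_re]; rw [← e2]; ring
  · rw [g4, ed_mul, f4]; simp [dg, nz_eq (Real.exp_pos _).ne', fl_apply, e3, Complex.sinh_ofReal_re]; rw [← e1]; ring

lemma abs_ent_le {a b α β e : ℝ} (h : a ^ 2 + b ^ 2 = 1 + a * α + b * β) (h1 : |α| ≤ e)
    (h2 : |β| ≤ e) (he : e ≤ 1 / 100) : |a| ≤ 2 ∧ |b| ≤ 2 := by
  have a1 : |a * α| ≤ |a| * (1 / 100) := by rw [abs_mul]; gcongr; linarith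
  have a2 : |b * β| ≤ |b| * (1 / 100) := by rw [abs_mul]; gcongr; linarith
  have := le_abs_self (a * α)
  have := le_abs_self (b * β)
  rw [← sq_abs a, ← sq_abs b] at h
  have := abs_nonneg a
  have := abs_nonneg b
  constructor <;> nlinarith [sq_nonneg (|a| - 1), sq_nonneg (|b| - 1)]

lemma cos_est {a b c d e e1 e2 : ℝ} (hd : a * d - b * c = 1) (h1 : |a - d| ≤ e) (h2 : |b + c| ≤ e)
    (h3 : |e1| ≤ 2 * e) (h4 : |e2| ≤ 2 * e) (he : e ≤ 1 / 100) :
    |((a + e1) ^ 2 - (-b + e2) ^ 2) / ((a + e1) ^ 2 + (-b + e2) ^ 2) - (1 + 2 * (b * c))|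
      ≤ 500 * e := by
  have e0 : 0 ≤ e := (abs_nonneg _).trans h1
  have h5 : a ^ 2 + b ^ 2 = 1 + a * (a - d) + b * (b + c) := by linear_combination hd
  obtain ⟨a2, b2⟩ := abs_ent_le h5 h1 h2 he
  have m : ∀ {x y s t : ℝ}, |x| ≤ s → |y| ≤ t → |x * y| ≤ s * t := fun hx hy => by
    rw [abs_mul]; exact mul_le_mul hx hy (abs_nonneg _) ((abs_nonneg _).trans hx)
  have k1 := abs_le.1 (m a2 h1)
  have k2 := abs_le.1 (m b2 h2)
  have k3 := abs_le.1 (m a2 h3)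
  have k4 := abs_le.1 (m b2 h4)
  have k5 := abs_le.1 (m h3 (h3.trans (show 2 * e ≤ 1 / 4 by linarith)))
  have k6 := abs_le.1 (m h4 (h4.trans (show 2 * e ≤ 1 / 4 by linarith)))
  have k7 := abs_le.1 (m b2 b2)
  set n := (a + e1) ^ 2 + (-b + e2) ^ 2 with hn
  have n1 : |n - 1| ≤ 21 * e := by rw [abs_le]; constructor <;> nlinarith
  have bc : |b * c| ≤ 5 := by rw [abs_le]; constructor <;> nlinarith
  have k8 := abs_le.1 (m bc n1)
  have n2 : 1 / 2 ≤ n := by linarith [(abs_le.1 n1).1]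
  have e3 : ((a + e1) ^ 2 - (-b + e2) ^ 2) / n - (1 + 2 * (b * c))
      = -2 * ((-b + e2) ^ 2 + b * c * n) / n := by field_simp; rw [hn]; ring
  have k9 : |(-b + e2) ^ 2 + b * c * n| ≤ 116 * e := by rw [abs_le]; constructor <;> nlinarith
  rw [e3, abs_div, abs_mul, abs_of_pos (by linarith : 0 < n), div_le_iff₀ (by linarith)]
  norm_num at k9 ⊢
  nlinarith

lemma cs_eq {v w : V} (hv : v ∈ Om) (hw : w ∈ Om) :
    cs v w = ((ed (nG w) * ed (nG v) + ec (nG w) * ec (nG v)) ^ 2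
      - (ec (nG w) * ed (nG v) - ed (nG w) * ec (nG v)) ^ 2)
      / ((ec (nG v) ^ 2 + ed (nG v) ^ 2) * (ec (nG w) ^ 2 + ed (nG w) ^ 2)) := by
  obtain ⟨-, -, f3, f4⟩ := nG_ent hv
  obtain ⟨-, -, g3, g4⟩ := nG_ent hw
  have h1 := (Real.sqrt_pos.2 hv).ne'
  have h2 := (Real.sqrt_pos.2 hw).ne'
  have h3 := Complex.normSq_pos.2 (snd_ne_zero hv)
  have h4 := Complex.normSq_pos.2 (snd_ne_zero hw)
  rw [Complex.normSq_apply] at h3 h4
  have h5 : v.2.im ^ 2 + v.2.re ^ 2 ≠ 0 := by nlinarith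
  have h6 : w.2.im ^ 2 + w.2.re ^ 2 ≠ 0 := by nlinarith
  have h7 : v.2.re ^ 2 + v.2.im ^ 2 ≠ 0 := by nlinarith
  have h8 : w.2.re ^ 2 + w.2.im ^ 2 ≠ 0 := by nlinarith
  rw [f3, f4, g3, g4, cs, ou_eq hv, ou_eq hw, om, om]
  simp only [Complex.mul_re, Complex.div_re, Complex.div_im, Complex.conj_re, Complex.conj_im,
    Complex.normSq_apply]
  field_simp
  ring

lemma cs_est {v w : V} (hv : v ∈ Om) (hw : w ∈ Om) {e : ℝ} (he : e ≤ 1 / 100)
    (h : (nG v)⁻¹ * nG w ∈ EE e) :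
    |cs v w - (1 + 2 * (eb ((nG v)⁻¹ * nG w) * ec ((nG v)⁻¹ * nG w)))| ≤ 500 * e := by
  rw [cs_eq hv hw]
  obtain ⟨g, hg⟩ : ∃ g, nG w = nG v * g := ⟨(nG v)⁻¹ * nG w, by group⟩
  rw [hg, inv_mul_cancel_left] at h ⊢
  rw [ec_mul, ed_mul]
  have hd := det_eq (nG v)
  generalize ea (nG v) = x', eb (nG v) = y', ec (nG v) = x, ed (nG v) = y at hd
  have r0 : 0 < x ^ 2 + y ^ 2 := by
    by_contra h'
    have h1 : x = 0 := by nlinarith [sq_nonneg x, sq_nonneg y]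
    have h2 : y = 0 := by nlinarith [sq_nonneg x, sq_nonneg y]
    simp [h1, h2] at hd
  have e0 : 0 ≤ e := (abs_nonneg _).trans h.1
  have b : ∀ s t : ℝ, |s| ≤ e → |t| ≤ e → |(x * y * s + y ^ 2 * t) / (x ^ 2 + y ^ 2)| ≤ 2 * e := by
    intro s t hs ht
    rw [abs_div, abs_of_pos r0, div_le_iff₀ r0]
    refine (abs_add_le _ _).trans ?_
    rw [abs_mul, abs_mul (y ^ 2), abs_of_nonneg (sq_nonneg y)]
    have a1 : |x * y| ≤ x ^ 2 + y ^ 2 := by
      rw [abs_le]; constructor <;> nlinarith [sq_nonneg (x + y), sq_nonneg (x - y)]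
    have a2 := mul_le_mul a1 hs (abs_nonneg _) r0.le
    have a3 := mul_le_mul (show y ^ 2 ≤ x ^ 2 + y ^ 2 by nlinarith) ht (abs_nonneg _) r0.le
    linarith
  have := cos_est (det_eq g) h.1 h.2 (b _ _ h.2 ((abs_neg _).le.trans h.1)) (b _ _ h.1 h.2) he
  convert this using 3
  have e1 : ea g + (x * y * (eb g + ec g) + y ^ 2 * -(ea g - ed g)) / (x ^ 2 + y ^ 2)
      = ((x * eb g + y * ed g) * y + (x * ea g + y * ec g) * x) / (x ^ 2 + y ^ 2) := by
    field_simp; ring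
  have e2 : -eb g + (x * y * (ea g - ed g) + y ^ 2 * (eb g + ec g)) / (x ^ 2 + y ^ 2)
      = ((x * ea g + y * ec g) * y - (x * eb g + y * ed g) * x) / (x ^ 2 + y ^ 2) := by
    field_simp; ring
  rw [e1, e2, div_pow, div_pow, ← sub_div, ← add_div, div_div_div_cancel_right₀ (by positivity)]
  congr 1; ring

def Nrm (h : SL2) : Prop := bp h = I ∧ ∀ s > 0, ∃ s' > 0, h * dg s = dg s' * h

def m1 : SL2 := mkG (-1) 0 0 (-1) (by simp)
def w0 : SL2 := mkG 0 1 (-1) 0 (by simp)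

lemma nrm_one : Nrm 1 := ⟨one_smul _ _, fun s hs => ⟨s, hs, by simp⟩⟩

lemma nrm_m1 : Nrm m1 := ⟨by ext1; simp [bp, coe_act, m1],
  fun s hs => ⟨s, hs, by apply SL2_ext <;> simp [m1, dg]⟩⟩

lemma nrm_w0 : Nrm w0 := ⟨by ext1; simp [bp, coe_act, w0, div_neg],
  fun s hs => ⟨s⁻¹, inv_pos.2 hs, by apply SL2_ext <;> simp [w0, dg, nz_eq, hs.ne']⟩⟩

lemma Nrm.mul {h k : SL2} (hh : Nrm h) (hk : Nrm k) : Nrm (h * k) :=
  ⟨by rw [bp_mul, hk.1]; exact hh.1, fun s hs => by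
    obtain ⟨s', h1, h2⟩ := hk.2 s hs
    obtain ⟨s'', h3, h4⟩ := hh.2 s' h1
    exact ⟨s'', h3, by rw [mul_assoc, h2, ← mul_assoc, h4, mul_assoc]⟩⟩

variable {Γ : Type*} [Group Γ] [MulAction Γ ℍ] {l : Γ → SL2} {D : Set ℍ}
  {f : ℍ → ℝ≥0∞}

lemma mp_map {X Y : Type*} [MeasurableSpace X] [MeasurableSpace Y] {m : Measure X} {p : X → Y}
    (hp : Measurable p) {S : X → X} {T : Y → Y} (hS : MeasurePreserving S m m) (hT : Measurable T)
    (h : ∀ᵐ x ∂m, T (p x) = p (S x)) : MeasurePreserving T (m.map p) (m.map p) := by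
  refine ⟨hT, ?_⟩
  rw [Measure.map_map hT hp, Measure.map_congr (f := T ∘ p) (g := p ∘ S) h, ← Measure.map_map hp hS.measurable,
    hS.map_eq]

lemma Adm.symm {μ : Measure SL2} (h : Adm l D μ f) {k : SL2} (hk : Nrm k) :
    Adm l D (μ + μ.map (· * k)) (f + f) := by
  have mk := measurable_mul_const k
  refine ⟨h.fd, fun γ => (h.left γ).add_measure (mp_map mk (h.left γ) (measurable_const_mul _)
    (Eventually.of_forall fun g => (mul_assoc _ _ _).symm)), fun s hs => ?_, h.mf.add h.mf,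
    fun γ z => by simp [h.inv], ?_, ?_⟩
  · obtain ⟨s', h1, h2⟩ := hk.2 s hs
    exact (h.right s hs).add_measure (mp_map mk (h.right s' h1) (measurable_mul_const _)
      (Eventually.of_forall fun g => by rw [mul_assoc, h2, mul_assoc]))
  · have : bp ∘ (· * k) = bp := by ext1 g; simp only [Function.comp, bp_mul, hk.1]; rfl
    rw [Measure.map_add _ _ measurable_bp, Measure.map_map measurable_bp mk, this, h.dens,
      withDensity_add_left h.mf]
  · simp only [Pi.add_apply, ← two_mul, mul_pow]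
    rw [lintegral_const_mul _ (h.mf.pow_const 2)]
    exact ENNReal.mul_ne_top (by simp) h.sq

variable [Countable Γ] {μ : Measure V} [SFinite μ]

lemma pair_le (h : Adm l D (μ.map nG) f) {k : SL2} (hk : Nrm k) {K : Set ℍ} (hK : MeasurableSet K)
    {c : ℝ≥0∞} (hc : ∀ z, ∑' δ : Γ, K.indicator (1 : ℍ → ℝ≥0∞) (δ • z) ≤ c) {S : Set SL2}
    (hS : MeasurableSet S) :
    μ.prod μ {p | bp (nG p.1) ∈ K ∧ (nG p.1)⁻¹ * nG p.2 * k ∈ S}
      ≤ c * nu (μ.map nG + (μ.map nG).map (· * k)) D S := by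
  have h' := h.symm hk
  set μ' := μ.map nG + (μ.map nG).map (· * k)
  have mk := measurable_mul_const k
  have m : MeasurableSet {p : SL2 × SL2 | bp p.1 ∈ K ∧ p.1⁻¹ * p.2 ∈ S} :=
    (measurable_fst (measurable_bp hK)).inter (measurable_quot hS)
  calc _ = (μ.map nG).prod ((μ.map nG).map (· * k)) {p | bp p.1 ∈ K ∧ p.1⁻¹ * p.2 ∈ S} := by
        rw [Measure.map_map mk measurable_nG, Measure.map_prod_map _ _ measurable_nG
          (mk.comp measurable_nG), Measure.map_apply (measurable_nG.prodMap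
          (mk.comp measurable_nG)) m]
        congr 1; ext p; simp only [mul_assoc]; rfl
    _ ≤ μ'.prod μ' {p | bp p.1 ∈ K ∧ p.1⁻¹ * p.2 ∈ S} :=
        Measure.prod_mono (Measure.le_add_right le_rfl) (Measure.le_add_left le_rfl) _
    _ = ∫⁻ v in bp ⁻¹' K, NN μ' S v ∂μ' := by
        rw [Measure.prod_apply m, ← lintegral_indicator (measurable_bp hK)]
        congr 1; ext v
        by_cases hv : v ∈ bp ⁻¹' K
        · rw [indicator_of_mem hv, NN]; congr 1; ext w; exact and_iff_right hv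
        · rw [indicator_of_notMem hv]
          exact measure_mono_null (fun w hw => hv hw.1) measure_empty
    _ ≤ _ := by
        rw [nu_apply hS]
        exact h'.eqv.le_of_tsum h'.fd (measurable_NN hS) (h'.NN_inv hS) hK hc

def PS (K : Set ℍ) (e δ c0 : ℝ) : Set (V × V) := {p | bp (nG p.1) ∈ K ∧
  (nG p.1)⁻¹ * nG p.2 ∈ EE e ∧
    |1 + 2 * (eb ((nG p.1)⁻¹ * nG p.2) * ec ((nG p.1)⁻¹ * nG p.2)) - c0| ≤ δ}

omit [SFinite μ] in
lemma NC_of (hO : ∀ᵐ p ∂μ.prod μ, p.1 ∈ Om ∧ p.2 ∈ Om) {c0 : ℝ}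
    (H : ∀ K : Set ℍ, IsCompact K → ∀ η : ℝ≥0∞, η ≠ 0 → ∃ δ > (0 : ℝ), ∀ᶠ e in 𝓝[>] (0 : ℝ),
      μ.prod μ (PS K e δ c0) ≤ η * ENNReal.ofReal e ^ 2) : NC μ c0 := by
  intro K hK hU η hη
  obtain ⟨m, hm, hm'⟩ : ∃ δ > 0, ∀ z ∈ K, δ ≤ z.im := by
    rcases K.eq_empty_or_nonempty with rfl | hne
    · exact ⟨1, one_pos, by simp⟩
    · obtain ⟨z, hz, hmin⟩ := hK.exists_isMinOn hne Complex.continuous_im.continuousOn
      exact ⟨z.im, hU hz, fun w hw => hmin hw⟩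
  obtain ⟨δ, hδ, h1⟩ := H _ (isEmbedding_coe.isInducing.isCompact_preimage' hK
    fun z hz => ⟨⟨z, hU hz⟩, rfl⟩) (ENNReal.ofReal (η * m ^ 2)) (by simp; positivity)
  have t := tendsto_mul_nhdsGT (inv_pos.2 hm)
  refine ⟨δ / 2, by positivity, ?_⟩
  filter_upwards [t.eventually h1, t.eventually_mem (Ioc_mem_nhdsGT
    (show 0 < min (1 / 100) (δ / 1000) by positivity)), self_mem_nhdsWithin] with ε h2 h3 hε
  have hε' : 0 < ε := hε
  refine le_trans (measure_mono_ae ?_) (h2.trans (le_of_eq ?_))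
  · filter_upwards [hO] with p hp ⟨a1, a2, a3, a4⟩
    have hE : (nG p.1)⁻¹ * nG p.2 ∈ EE (m⁻¹ * ε) := by
      have e := ent_sq ((nG p.1)⁻¹ * nG p.2)
      rw [dist_bp, cosh_dist, ← coe_im, ← coe_im, coe_bp_nG hp.1, coe_bp_nG hp.2, dist_comm,
        dist_eq_norm] at e
      have b1 := hm' _ a1
      have b2 := hm' _ a2
      have b3 : ‖pr p.1 - pr p.2‖ ^ 2 / (2 * (pr p.2).im * (pr p.1).im) ≤ ε ^ 2 / (2 * m * m) := by
        have : 0 < (pr p.2).im := hm.trans_le b2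
        gcongr
      have b4 : ε ^ 2 / (2 * m * m) = (m⁻¹ * ε) ^ 2 / 2 := by field_simp
      exact ⟨abs_le_of_sq_le_sq' (by nlinarith [sq_nonneg (eb ((nG p.1)⁻¹ * nG p.2)
          + ec ((nG p.1)⁻¹ * nG p.2))]) h3.1.le |> abs_le.2,
        abs_le_of_sq_le_sq' (by nlinarith [sq_nonneg (ea ((nG p.1)⁻¹ * nG p.2)
          - ed ((nG p.1)⁻¹ * nG p.2))]) h3.1.le |> abs_le.2⟩
    refine ⟨by rw [mem_preimage, coe_bp_nG hp.1]; exact a1, hE, ?_⟩
    have b5 := abs_le.1 (cs_est hp.1 hp.2 (h3.2.trans (min_le_left _ _)) hE)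
    have b6 := h3.2.trans (min_le_right _ _)
    have b7 := abs_le.1 a4
    rw [abs_le]; constructor <;> linarith
  · rw [← ENNReal.ofReal_pow h3.1.le, ← ENNReal.ofReal_mul (by positivity)]
    congr 1; field_simp

lemma mem_RR {g : SL2} {e δ : ℝ} (hg : g ∈ EE e) (h1 : |eb g * ec g| ≤ δ ^ 2 / 2) (h2 : e ≤ δ / 2)
    (h3 : δ ≤ 1 / 10) : g ∈ RR e δ ∨ g * m1 ∈ RR e δ := by
  obtain ⟨a1, a2⟩ := hg
  have e0 : 0 ≤ e := (abs_nonneg _).trans a1
  have hd := det_eq g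
  have hb : |eb g| ≤ δ := by
    by_contra h
    push Not at h
    have e : |eb g| ^ 2 = -(eb g * ec g) + eb g * (eb g + ec g) := by rw [sq_abs]; ring
    have k1 : |eb g * (eb g + ec g)| ≤ |eb g| * (δ / 2) := by rw [abs_mul]; gcongr; linarith
    have := le_abs_self (eb g * (eb g + ec g))
    have := neg_le_abs (eb g * ec g)
    nlinarith
  have k2 := abs_le.1 h1
  have k3 := abs_le.1 a1
  have k4 : δ ^ 2 ≤ 1 / 100 := by nlinarith
  rcases le_total 0 (ea g) with h | h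
  · exact Or.inl ⟨⟨a1, a2⟩, ⟨by nlinarith, by nlinarith⟩, ⟨by nlinarith, by nlinarith⟩, hb⟩
  · refine Or.inr ⟨⟨?_, ?_⟩, ?_, ?_, ?_⟩ <;> simp only [m1, ea_mul, eb_mul, ec_mul, ed_mul, ea_mkG,
      eb_mkG, ec_mkG, ed_mkG, mul_zero, add_zero, zero_add, mul_neg_one, abs_neg]
    · rw [← abs_neg]; convert a1 using 2; ring
    · rw [← abs_neg]; convert a2 using 2; ring
    · exact ⟨by nlinarith, by nlinarith⟩
    · exact ⟨by nlinarith, by nlinarith⟩
    · exact hb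

lemma NC_par (h : Adm l D (μ.map nG) f) (hO : ∀ᵐ p ∂μ.prod μ, p.1 ∈ Om ∧ p.2 ∈ Om) {k : SL2}
    (hk : Nrm k) {c0 : ℝ} (hc : ∀ e x, ∀ g ∈ EE e, |1 + 2 * (eb g * ec g) - c0| ≤ x →
      g * k ∈ EE e ∧ |eb (g * k) * ec (g * k)| ≤ x / 2) : NC μ c0 := by
  refine NC_of hO fun K hK η hη => ?_
  obtain ⟨c, hc1, hc2⟩ := h.fd.tsum_compact hK
  obtain ⟨t, t0, -, ht⟩ := exists_mul_le_enn (c := 2 * c) (by finiteness) hη
  obtain ⟨δ1, hδ1, s1⟩ := (h.symm hk).RR_small t0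
  obtain ⟨δ2, hδ2, s2⟩ := (h.symm (hk.mul nrm_m1)).RR_small t0
  set δ := min (1 / 10) (min δ1 δ2)
  have hδ : 0 < δ := by positivity
  refine ⟨δ ^ 2, by positivity, ?_⟩
  filter_upwards [s1, s2, Ioc_mem_nhdsGT (half_pos hδ)] with e s1 s2 he
  have p1 := pair_le h hk hK.measurableSet hc2 (measurableSet_RR e δ1)
  have p2 := pair_le h (hk.mul nrm_m1) hK.measurableSet hc2 (measurableSet_RR e δ2)
  refine le_trans (measure_mono fun p hp => ?_) ((measure_union_le _ _).trans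
    ((add_le_add p1 p2).trans ?_))
  · obtain ⟨b1, b2⟩ := hc _ _ _ hp.2.1 hp.2.2
    rcases mem_RR b1 b2 he.2 (min_le_left _ _) with b3 | b3
    · exact Or.inl ⟨hp.1, b3.1, b3.2.1, b3.2.2.1,
        b3.2.2.2.trans ((min_le_right _ _).trans (min_le_left _ _))⟩
    · rw [mul_assoc] at b3
      exact Or.inr ⟨hp.1, b3.1, b3.2.1, b3.2.2.1,
        b3.2.2.2.trans ((min_le_right _ _).trans (min_le_right _ _))⟩
  · calc _ ≤ c * (t * ENNReal.ofReal e ^ 2) + c * (t * ENNReal.ofReal e ^ 2) := by gcongr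
      _ = 2 * c * t * ENNReal.ofReal e ^ 2 := by ring
      _ ≤ _ := by gcongr

theorem Adm.nc (h : Adm l D (μ.map nG) f) (hO : ∀ᵐ v ∂μ, v ∈ Om) :
    NC μ 1 ∧ NC μ (-1) ∧ NC μ (-1 / 2) := by
  have hO' : ∀ᵐ p ∂μ.prod μ, p.1 ∈ Om ∧ p.2 ∈ Om :=
    (Measure.quasiMeasurePreserving_fst.ae hO).and (Measure.quasiMeasurePreserving_snd.ae hO)
  refine ⟨NC_par h hO' nrm_one fun e x g hg hx => ?_, NC_par h hO' nrm_w0 fun e x g hg hx => ?_,
    NC_of hO' fun K hK η hη => ?_⟩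
  · rw [mul_one]
    rw [abs_le] at hx ⊢
    exact ⟨hg, by linarith [hx.1], by linarith [hx.2]⟩
  · have hd := det_eq g
    rw [abs_le] at hx ⊢
    simp only [EE, mem_ofPred_eq, w0, ea_mul, eb_mul, ec_mul, ed_mul, ea_mkG,
      eb_mkG, ec_mkG, ed_mkG, mul_zero, add_zero, zero_add, mul_neg_one, mul_one]
    refine ⟨⟨?_, ?_⟩, by linarith [hx.1, hx.2], by linarith [hx.1, hx.2]⟩
    · rw [← abs_neg]; convert hg.2 using 2; ring
    · convert hg.1 using 2; ring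
  · obtain ⟨c, hc1, hc2⟩ := h.fd.tsum_compact hK
    obtain ⟨t, t0, -, ht⟩ := exists_mul_le_enn hc1 hη
    obtain ⟨δ, hδ, s1⟩ := (h.symm nrm_one).WW_small t0
    refine ⟨δ, hδ, s1.mono fun e s1 => ?_⟩
    refine le_trans (measure_mono fun p hp => ?_)
      ((pair_le h nrm_one hK.measurableSet hc2 (measurableSet_WW e δ)).trans ?_)
    · refine ⟨hp.1, ?_⟩
      rw [mul_one]
      obtain ⟨b1, b2⟩ := abs_le.1 hp.2.2
      refine ⟨hp.2.1, ?_⟩
      rw [mem_ofPred_eq, abs_le]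
      constructor <;> linarith
    · calc _ ≤ c * (t * ENNReal.ofReal e ^ 2) := by gcongr
        _ ≤ _ := by rw [← mul_assoc]; gcongr

end Pool.Agent.Lib.MP_a52643_an
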