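import Pool.Agent.Lib.MP_a52643_an.LFour2
import Pool.Agent.Lib.MP_a52643_an.Alg

/-!
Monomials in the ladder functions, their bounds and the asymptotic relations.
-/

open Complex MeasureTheory Set Filter Topology Asymptotics
open scoped ComplexConjugate ContDiff ENNReal

noncomputable section

namespace Pool.Agent.Lib.MP_a52643_an

section basic

variable {ι : Type} [Fintype ι] [DecidableEq ι]

def mono (Φ : ℤ → V → ℂ) (a : ι → ℤ) (v : V) : ℂ := ∏ i, Φ (a i) v

def ph (Φ : ℤ → V → ℂ) (n : ℤ) (z : ℂ) : ℂ := Φ n (z, 1)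

def psi (Φ : ℤ → V → ℂ) (a : ι → ℤ) (z : ℂ) : ℂ := ∏ i, ph Φ (a i) z

variable {lam : ℝ} {Φ : ℤ → V → ℂ}

lemma Ladder.eq_ph (h : Ladder lam Φ) (n : ℤ) {v : V} (hv : v ∈ Om) :
    Φ n v = om v ^ n * ph Φ n (pr v) := (h.hom n).eq_om hv

lemma Ladder.norm_ph (h : Ladder lam Φ) (n : ℤ) {v : V} (hv : v ∈ Om) :
    ‖ph Φ n (pr v)‖ = ‖Φ n v‖ := by
  rw [h.eq_ph n hv, norm_mul, norm_zpow, norm_om (snd_ne_zero hv)]; simp

omit [DecidableEq ι] in
lemma Ladder.psi_pr (h : Ladder lam Φ) (a : ι → ℤ) {v : V} (hv : v ∈ Om) :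
    psi Φ a (pr v) = om v ^ (-∑ i, a i) * mono Φ a v := by
  have h0 := om_ne_zero (snd_ne_zero hv)
  have : mono Φ a v = om v ^ (∑ i, a i) * psi Φ a (pr v) := by
    simp only [mono, psi, h.eq_ph _ hv, Finset.prod_mul_distrib]
    congr 1
    classical
    induction (Finset.univ : Finset ι) using Finset.induction_on with
    | empty => simp
    | insert i s hi ih => rw [Finset.prod_insert hi, Finset.sum_insert hi, ih, zpow_add₀ h0]
  rw [this, ← mul_assoc, ← zpow_add₀ h0]; simp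

lemma Ladder.cd_ph (h : Ladder lam Φ) (n : ℤ) : ContDiffOn ℝ 1 (ph Φ n) UH :=
  (h.smooth n).comp (contDiff_id.prodMk contDiff_const).contDiffOn fun _ hz => one_mem_Om hz

omit [DecidableEq ι] in
lemma Ladder.cd_mono (h : Ladder lam Φ) (a : ι → ℤ) : ContDiffOn ℝ 1 (mono Φ a) Om :=
  contDiffOn_prod fun i _ => h.smooth (a i)

omit [DecidableEq ι] in
lemma Ladder.cd_psi (h : Ladder lam Φ) (a : ι → ℤ) : ContDiffOn ℝ 1 (psi Φ a) UH :=
  contDiffOn_prod fun i _ => h.cd_ph (a i)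

omit [Fintype ι] in
lemma HasE.prod {s : Finset ι} {F : ι → V → ℂ} {v : V} {a b : ι → ℂ}
    (h : ∀ i ∈ s, HasE (F i) v (a i) (b i)) :
    HasE (fun w => ∏ i ∈ s, F i w) v (∑ i ∈ s, a i * ∏ j ∈ s.erase i, F j v)
      (∑ i ∈ s, b i * ∏ j ∈ s.erase i, F j v) := by
  induction s using Finset.induction_on with
  | empty => exact ⟨by simp, by simp [Ep_const], by simp [Em_const]⟩
  | insert i s hi ih =>
    have h1 := (h i (Finset.mem_insert_self _ _)).mul
      (ih fun j hj => h j (Finset.mem_insert_of_mem hj))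
    have key : ∀ c : ι → ℂ, ∑ k ∈ insert i s, c k * ∏ j ∈ (insert i s).erase k, F j v
        = c i * ∏ j ∈ s, F j v + F i v * ∑ k ∈ s, c k * ∏ j ∈ s.erase k, F j v := by
      intro c
      rw [Finset.sum_insert hi, Finset.erase_insert hi, Finset.mul_sum]
      congr 1
      refine Finset.sum_congr rfl fun k hk => ?_
      have hne : i ≠ k := fun e => hi (e ▸ hk)
      rw [Finset.erase_insert_of_ne hne,
        Finset.prod_insert fun h' => hi (Finset.mem_of_mem_erase h')]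
      ring
    simp only [Finset.prod_insert hi, key]
    exact h1

lemma mono_update (Φ : ℤ → V → ℂ) (a : ι → ℤ) (i : ι) (k : ℤ) (v : V) :
    mono Φ (a + Pi.single i k) v = Φ (a i + k) v * ∏ j ∈ Finset.univ.erase i, Φ (a j) v := by
  unfold mono
  rw [← Finset.mul_prod_erase _ _ (Finset.mem_univ i)]
  congr 1
  · simp
  · refine Finset.prod_congr rfl fun j hj => ?_
    simp [Finset.ne_of_mem_erase hj]

lemma Ladder.hasE_mono (h : Ladder lam Φ) (a : ι → ℤ) {v : V} (hv : v ∈ Om) :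
    HasE (mono Φ a) v (∑ i, I * al lam (a i) * mono Φ (a + Pi.single i 1) v)
      (∑ i, I * al lam (a i - 1) * mono Φ (a - Pi.single i 1) v) := by
  have := HasE.prod (s := Finset.univ) fun i _ => h.hasE (a i) hv
  have e : ∀ i, a - Pi.single i 1 = a + Pi.single i (-1) := fun i => by
    rw [Pi.single_neg, sub_eq_add_neg]
  simp only [e, mono_update, ← mul_assoc, ← sub_eq_add_neg]
  exact this

omit [DecidableEq ι] in
lemma prod_le_one_add_sum (hι : Fintype.card ι ≤ 4) (x : ι → ℝ) (hx : ∀ i, 0 ≤ x i) :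
    ∏ i, x i ≤ 1 + ∑ i, x i ^ 4 := by
  set S := 1 + ∑ i, x i ^ 4 with hS
  have hs0 : 0 ≤ ∑ i, x i ^ 4 := Finset.sum_nonneg fun i _ => by have := hx i; positivity
  have hS1 : 1 ≤ S := by linarith
  set B := Real.sqrt (Real.sqrt S) with hB
  have hB4 : B ^ 4 = S := by
    have : B ^ 2 = Real.sqrt S := Real.sq_sqrt (Real.sqrt_nonneg _)
    calc B ^ 4 = (B ^ 2) ^ 2 := by ring
      _ = S := by rw [this, Real.sq_sqrt (by linarith)]
  have hB0 : 0 ≤ B := Real.sqrt_nonneg _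
  have hB1 : 1 ≤ B := by
    rw [hB, Real.one_le_sqrt, Real.one_le_sqrt]; exact hS1
  have hxB : ∀ i, x i ≤ B := fun i => by
    refine le_of_pow_le_pow_left₀ (by norm_num : 4 ≠ 0) hB0 ?_
    rw [hB4]
    have := Finset.single_le_sum (f := fun i => x i ^ 4) (fun i _ => by have := hx i; positivity)
      (Finset.mem_univ i)
    linarith
  calc ∏ i, x i ≤ ∏ _i : ι, B := Finset.prod_le_prod (fun i _ => hx i) fun i _ => hxB i
    _ = B ^ Fintype.card ι := by simp
    _ ≤ B ^ 4 := pow_le_pow_right₀ hB1 hι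
    _ = S := hB4

end basic

/-- test functions on the upper half plane -/
structure TF {E : Type*} [NormedAddCommGroup E] (τ : ℂ → E) : Prop where
  cont : Continuous τ
  hcs : HasCompactSupport τ
  sub : tsupport τ ⊆ UH

lemma exists_R_of_compact' {K : Set ℂ} (hK : IsCompact K) (hU : K ⊆ UH) :
    ∃ R : ℝ, ∀ v ∈ Om, dt v ≤ 3 → pr v ∈ K → ‖v‖ ≤ R := by
  obtain ⟨M, hM⟩ := hK.isBounded.subset_closedBall (0 : ℂ)
  obtain ⟨δ, hδ, hδ'⟩ : ∃ δ > 0, ∀ z ∈ K, δ ≤ z.im := by
    rcases K.eq_empty_or_nonempty with rfl | hne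
    · exact ⟨1, one_pos, by simp⟩
    · obtain ⟨z, hz, hmin⟩ := hK.exists_isMinOn hne continuous_im.continuousOn
      exact ⟨z.im, hU hz, fun w hw => hmin hw⟩
  refine ⟨max M 1 * (3 / δ + 1), fun v hv hv3 hp => ?_⟩
  have h2 := snd_ne_zero hv
  have h3 := dt_eq_im_pr h2
  have h4 := hδ' _ hp
  have h5 : ‖pr v‖ ≤ M := by simpa using hM hp
  have h6 : ‖v.2‖ ≤ 3 / δ + 1 := by
    have a1 : δ * ‖v.2‖ ^ 2 ≤ 3 := by
      rw [normSq_eq_norm_sq] at h3
      nlinarith [hv3, sq_nonneg ‖v.2‖]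
    have a2 : ‖v.2‖ ^ 2 ≤ 3 / δ := by rw [le_div_iff₀ hδ]; linarith
    nlinarith [sq_nonneg (‖v.2‖ - 1)]
  have h7 : ‖v.1‖ = ‖pr v‖ * ‖v.2‖ := by
    rw [← norm_mul, pr, div_mul_cancel₀ _ h2]
  have m1 := le_max_left M 1
  have m2 := le_max_right M 1
  have : 0 < 3 / δ + 1 := by positivity
  rw [Prod.norm_def, max_le_iff]
  constructor
  · rw [h7]; exact mul_le_mul (h5.trans m1) h6 (norm_nonneg _) (by linarith)
  · nlinarith

lemma exists_R_of_compact {K : Set ℂ} (hK : IsCompact K) (hU : K ⊆ UH) :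
    ∃ R : ℝ, ∀ v ∈ cslab, pr v ∈ K → ‖v‖ ≤ R := by
  obtain ⟨R, hR⟩ := exists_R_of_compact' hK hU
  exact ⟨R, fun v hv => hR v (cslab_subset_Om hv) (by linarith [hv.2])⟩

lemma TF.cs {E : Type*} [NormedAddCommGroup E] {τ : ℂ → E} (h : TF τ) : CS fun v => τ (pr v) := by
  obtain ⟨R, hR⟩ := exists_R_of_compact h.hcs.isCompact h.sub
  refine ⟨R, fun v hv h' => image_eq_zero_of_notMem_tsupport fun h2 => ?_⟩
  linarith [hR v (slab_subset_cslab hv) h2]

lemma TF.contOn {E : Type*} [NormedAddCommGroup E] {τ : ℂ → E} (h : TF τ) :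
    ContinuousOn (fun v => τ (pr v)) Om :=
  h.cont.comp_continuousOn (contDiffOn_pr (n := 0)).continuousOn

lemma TF.mul_right {τ : ℂ → ℂ} (h : TF τ) {g : ℂ → ℂ} (hg : Continuous g) :
    TF fun z => τ z * g z :=
  ⟨h.cont.mul hg, h.hcs.mul_right, (tsupport_mul_subset_left (f := τ) (g := g)).trans h.sub⟩

lemma TF.comp {E F : Type*} [NormedAddCommGroup E] [NormedAddCommGroup F] {τ : ℂ → E} (h : TF τ)
    {g : E → F} (hg : Continuous g) (h0 : g 0 = 0) : TF fun z => g (τ z) :=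
  ⟨hg.comp h.cont, h.hcs.comp_left h0,
    (closure_mono (Function.support_comp_subset h0 τ)).trans h.sub⟩

lemma TF.ofReal {τ : ℂ → ℝ} (h : TF τ) : TF fun z => (τ z : ℂ) :=
  h.comp continuous_ofReal (by simp)

lemma hyp_ac : hyp ≪ volume.restrict UH := withDensity_absolutelyContinuous _ _

lemma ae_UH : ∀ᵐ z ∂hyp, z ∈ UH := hyp_ac.ae_le (ae_restrict_mem isOpen_UH.measurableSet)

lemma aesm_hyp {E : Type*} [NormedAddCommGroup E] {F : ℂ → E} (hF : ContinuousOn F UH) :
    AEStronglyMeasurable F hyp :=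
  (hF.aestronglyMeasurable isOpen_UH.measurableSet).mono_ac hyp_ac

lemma integral_hyp_eq {E : Type*} [NormedAddCommGroup E] [NormedSpace ℝ E] {F : ℂ → E}
    (hF : AEStronglyMeasurable F hyp) : ∫ z, F z ∂hyp = ∫ v, F (pr v) ∂mV := by
  rw [← measurePreserving_pr.map_eq, integral_map measurable_pr.aemeasurable
    (by rwa [measurePreserving_pr.map_eq])]

lemma TF.integrable_smul {E : Type*} [NormedAddCommGroup E] [NormedSpace ℝ E] {τ : ℂ → ℝ}
    (h : TF τ) {F : ℂ → E} (hF : ContinuousOn F UH) : Integrable (fun z => τ z • F z) hyp := by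
  have hc : ContinuousOn (fun z => τ z • F z) UH := h.cont.continuousOn.smul hF
  rw [← measurePreserving_pr.integrable_comp (aesm_hyp hc)]
  refine CS.integrable ?_ (hc.comp (contDiffOn_pr (n := 0)).continuousOn fun v hv => pr_mem hv)
  obtain ⟨R, hR⟩ := h.cs
  exact ⟨R, fun v hv h' => by simp [hR v hv h']⟩

lemma TF.integrable_mul {τ : ℂ → ℂ} (h : TF τ) {F : ℂ → ℂ} (hF : ContinuousOn F UH) :
    Integrable (fun z => τ z * F z) hyp := by
  have hc : ContinuousOn (fun z => τ z * F z) UH := h.cont.continuousOn.mul hF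
  rw [← measurePreserving_pr.integrable_comp (aesm_hyp hc)]
  exact (h.cs.mul_right _).integrable
    (hc.comp (contDiffOn_pr (n := 0)).continuousOn fun v hv => pr_mem hv)

lemma hyp_ne_top {K : Set ℂ} (hK : IsCompact K) (hU : K ⊆ UH) : hyp K ≠ ⊤ := by
  obtain ⟨R, hR⟩ := exists_R_of_compact hK hU
  rw [← measurePreserving_pr.measure_preimage hK.measurableSet.nullMeasurableSet]
  refine ne_top_of_le_ne_top (isCompact_KB R).measure_ne_top (measure_mono_ae ?_)
  filter_upwards [ae_slab] with v hv h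
  exact ⟨by simpa using hR v (slab_subset_cslab hv) h, slab_subset_cslab hv⟩

lemma integrableOn_hyp {E : Type*} [NormedAddCommGroup E] {F : ℂ → E} (hF : ContinuousOn F UH)
    {K : Set ℂ} (hK : IsCompact K) (hU : K ⊆ UH) : IntegrableOn F K hyp := by
  obtain ⟨C, hC⟩ := hK.exists_bound_of_continuousOn (hF.mono hU)
  exact Measure.integrableOn_of_bounded (hyp_ne_top hK hU) (aesm_hyp hF)
    ((ae_restrict_iff' hK.measurableSet).2 (Eventually.of_forall hC))

section fam

variable {J : Type} {l : Filter J} {lam : J → ℝ} {Φ : J → ℤ → V → ℂ}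

/-- locally bounded families on the upper half plane -/
def LH (l : Filter J) (u : J → ℂ → ℝ) : Prop :=
  ∀ K : Set ℂ, IsCompact K → K ⊆ UH → ∃ C : ℝ, ∀ᶠ j in l, ∫ z in K, u j z ∂hyp ≤ C

lemma setIntegral_hyp_eq {u : ℂ → ℝ} (hc : ContinuousOn u UH) {K : Set ℂ}
    (hK : MeasurableSet K) : ∫ z in K, u z ∂hyp = ∫ v in pr ⁻¹' K, u (pr v) ∂mV := by
  rw [← integral_indicator hK, integral_hyp_eq ((aesm_hyp hc).indicator hK),
    ← integral_indicator (measurable_pr hK)]
  rfl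

lemma LH.lb {u : J → ℂ → ℝ} (h : LH l u) (h0 : ∀ j z, 0 ≤ u j z)
    (hc : ∀ j, ContinuousOn (u j) UH) : LB l fun j v => u j (pr v) := by
  intro R
  have hK : IsCompact (pr '' KB R) := (isCompact_KB R).image_of_continuousOn
    ((contDiffOn_pr (n := 0)).continuousOn.mono (KB_subset_Om R))
  have hU : pr '' KB R ⊆ UH := by
    rintro _ ⟨v, hv, rfl⟩; exact pr_mem (KB_subset_Om R hv)
  obtain ⟨C, hC⟩ := h _ hK hU
  refine ⟨C, hC.mono fun j hj => le_trans ?_ hj⟩
  rw [setIntegral_hyp_eq (hc j) hK.measurableSet]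
  refine setIntegral_mono_set ?_ (Eventually.of_forall fun v => h0 j _)
    (subset_preimage_image pr _).eventuallyLE
  exact (measurePreserving_pr.restrict_preimage hK.measurableSet).integrable_comp_of_integrable
    (integrableOn_hyp (hc j) hK hU)

lemma LB.lh {u : J → ℂ → ℝ} (h : LB l fun j v => u j (pr v)) (h0 : ∀ j z, 0 ≤ u j z)
    (hc : ∀ j, ContinuousOn (u j) UH) : LH l u := by
  intro K hK hU
  obtain ⟨R, hR⟩ := exists_R_of_compact hK hU
  obtain ⟨C, hC⟩ := h R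
  refine ⟨C, hC.mono fun j hj => le_trans ?_ hj⟩
  rw [setIntegral_hyp_eq (hc j) hK.measurableSet]
  refine setIntegral_mono_set (integrableOn_KB
    ((hc j).comp (contDiffOn_pr (n := 0)).continuousOn fun v hv => pr_mem hv) R)
    (Eventually.of_forall fun v => h0 j _) ?_
  filter_upwards [ae_slab] with v hv h
  exact ⟨by simpa using hR v (slab_subset_cslab hv) h, slab_subset_cslab hv⟩

structure Fam (l : Filter J) (lam : J → ℝ) (Φ : J → ℤ → V → ℂ) : Prop where
  lad : ∀ j, Ladder (lam j) (Φ j)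
  tend : Tendsto lam l atTop
  four : ∀ n, LB l fun j v => ‖Φ j n v‖ ^ 4

lemma Fam.lh4 (h : Fam l lam Φ) (n : ℤ) : LH l fun j z => ‖ph (Φ j) n z‖ ^ 4 := by
  refine LB.lh ?_ (fun j z => by positivity) fun j => ((h.lad j).cd_ph n).continuousOn.norm.pow 4
  intro R
  obtain ⟨C, hC⟩ := h.four n R
  refine ⟨C, hC.mono fun j hj => le_of_eq_of_le ?_ hj⟩
  refine setIntegral_congr_fun (measurableSet_KB R) fun v hv => ?_
  simp only [(h.lad j).norm_ph n (KB_subset_Om R hv)]

variable {ι : Type} [Fintype ι] [DecidableEq ι]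

omit [DecidableEq ι] in
lemma Fam.lb_mono (h : Fam l lam Φ) (hι : Fintype.card ι ≤ 4) (a : ι → ℤ) :
    LB l fun j v => ‖mono (Φ j) a v‖ := by
  intro R
  choose C hC using fun i => h.four (a i) R
  refine ⟨mV.real (KB R) + ∑ i, C i, ?_⟩
  filter_upwards [eventually_all.2 hC] with j hj
  have i1 : ∀ i, IntegrableOn (fun v => ‖Φ j (a i) v‖ ^ 4) (KB R) mV := fun i =>
    integrableOn_KB ((h.lad j).cont4 _) R
  have i2 : IntegrableOn (fun _ => (1 : ℝ)) (KB R) mV := integrableOn_KB continuousOn_const R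
  have i3 := integrable_finsetSum Finset.univ fun i _ => i1 i
  calc ∫ v in KB R, ‖mono (Φ j) a v‖ ∂mV ≤ ∫ v in KB R, (1 + ∑ i, ‖Φ j (a i) v‖ ^ 4) ∂mV := by
        refine integral_mono (integrableOn_KB ((h.lad j).cd_mono a).continuousOn.norm R)
          (i2.add i3) fun v => ?_
        simp only [mono, norm_prod]
        exact prod_le_one_add_sum hι _ fun i => norm_nonneg _
    _ = mV.real (KB R) + ∑ i, ∫ v in KB R, ‖Φ j (a i) v‖ ^ 4 ∂mV := by
        rw [integral_add i2 i3, integral_finsetSum _ fun i _ => i1 i]; simp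
    _ ≤ _ := by gcongr with i; exact hj i

lemma norm_integral_mul_le {τ F : V → ℂ} {R C : ℝ} (hR : ∀ v ∈ slab, R < ‖v‖ → τ v = 0)
    (hC : ∀ v ∈ slab, ‖τ v‖ ≤ C) (hF : ContinuousOn F Om) :
    ‖∫ v, τ v * F v ∂mV‖ ≤ C * ∫ v in KB R, ‖F v‖ ∂mV := by
  rw [← integral_ind_mul, ← integral_const_mul]
  refine norm_integral_le_of_norm_le ((integrable_ind_mul hF.norm R).const_mul C) ?_
  filter_upwards [ae_slab] with v hv
  by_cases h : v ∈ KB R
  · simp only [indicator_of_mem h, one_mul, norm_mul]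
    exact mul_le_mul_of_nonneg_right (hC v hv) (norm_nonneg _)
  · have : τ v = 0 := by
      apply hR v hv
      by_contra h'
      exact h ⟨by simpa using h', slab_subset_cslab hv⟩
    simp [h, this]

lemma LB.isBigO {F : J → V → ℂ} (h : LB l fun j v => ‖F j v‖) (hF : ∀ j, ContinuousOn (F j) Om)
    {τ : V → ℂ} (hc : CS τ) (hτ : ContinuousOn τ Om) :
    (fun j => ∫ v, τ v * F j v ∂mV) =O[l] fun _ => (1 : ℝ) := by
  obtain ⟨R, C, hC0, hR, hC⟩ := hc.exists_bound hτ
  obtain ⟨C', hC'⟩ := h R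
  refine IsBigO.of_bound (C * C') (hC'.mono fun j hj => ?_)
  simpa using (norm_integral_mul_le hR hC (hF j)).trans (mul_le_mul_of_nonneg_left hj hC0)

omit [DecidableEq ι] in
lemma Fam.isBigO_mono (h : Fam l lam Φ) (hι : Fintype.card ι ≤ 4) (a : ι → ℤ) {τ : V → ℂ}
    (hc : CS τ) (hτ : ContinuousOn τ Om) :
    (fun j => ∫ v, τ v * mono (Φ j) a v ∂mV) =O[l] fun _ => (1 : ℝ) :=
  (h.lb_mono hι a).isBigO (fun j => ((h.lad j).cd_mono a).continuousOn) hc hτ

omit [DecidableEq ι] in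
lemma tendsto_sum_zero (hl : Tendsto lam l atTop) (n : ι → ℤ) {X : ι → J → ℂ}
    (hX : ∀ i, X i =O[l] fun _ => (1 : ℝ))
    (hS : (fun j => ∑ i, (al (lam j) (n i) : ℂ) * X i j) =O[l] fun _ => (1 : ℝ)) :
    Tendsto (fun j => ∑ i, X i j) l (𝓝 0) := by
  have h1 : ∀ i, (fun j => ((al (lam j) (n i) - al (lam j) 0 : ℝ) : ℂ) * X i j)
      =O[l] fun _ => (1 : ℝ) := fun i => by
    have := (((tendsto_al_sub hl (n i) 0).ofReal).isBigO_one ℝ).mul (hX i)
    simpa only [mul_one] using this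
  have h2 := hS.sub (IsBigO.sum (s := Finset.univ) fun i _ => h1 i)
  have h3 : (fun j => ((al (lam j) 0 : ℝ) : ℂ)⁻¹) =o[l] fun _ => (1 : ℝ) := by
    rw [isLittleO_one_iff]
    have := (tendsto_al hl 0).inv_tendsto_atTop.ofReal
    simpa using this
  have h4 := h3.mul_isBigO h2
  simp only [mul_one, isLittleO_one_iff] at h4
  refine h4.congr' ?_
  filter_upwards [hl.eventually_gt_atTop 0] with j hj
  have : ((al (lam j) 0 : ℝ) : ℂ) ≠ 0 := by exact_mod_cast (al_pos hj 0).ne'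
  rw [Finset.sum_apply, ← Finset.sum_sub_distrib, Finset.mul_sum]
  refine Finset.sum_congr rfl fun i _ => ?_
  push_cast
  field_simp
  ring

lemma Fam.vanish_up (h : Fam l lam Φ) (hι : Fintype.card ι ≤ 4) (a : ι → ℤ) {τ : V → ℂ}
    (hc : CS τ) (hτ : ContDiffOn ℝ 1 τ Om) :
    Tendsto (fun j => ∑ i, ∫ v, τ v * mono (Φ j) (a + Pi.single i 1) v ∂mV) l (𝓝 0) := by
  refine tendsto_sum_zero h.tend a (fun i => h.isBigO_mono hι _ hc hτ.continuousOn) ?_
  refine ((h.isBigO_mono hι a hc.Ep (continuousOn_Ep hτ)).const_mul_left I).congr_left fun j => ?_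
  have e := ibp_Ep hτ hc ((h.lad j).cd_mono a)
  have e2 : ∫ v, τ v * Ep (mono (Φ j) a) v ∂mV = ∑ i, I * (al (lam j) (a i) *
      ∫ v, τ v * mono (Φ j) (a + Pi.single i 1) v ∂mV) := by
    simp only [← integral_const_mul]
    rw [← integral_finsetSum _ fun i _ => (((hc.mul_right _).integrable
      (hτ.continuousOn.mul ((h.lad j).cd_mono _).continuousOn)).const_mul _).const_mul _]
    refine integral_congr_ae (ae_Om.mono fun v hv => ?_)
    simp only [((h.lad j).hasE_mono a hv).ep, Finset.mul_sum]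
    exact Finset.sum_congr rfl fun i _ => by ring
  rw [e2, ← Finset.mul_sum] at e
  linear_combination I * e - (∑ i, (al (lam j) (a i) *
      ∫ v, τ v * mono (Φ j) (a + Pi.single i 1) v ∂mV)) * I_mul_I

lemma Fam.vanish_down (h : Fam l lam Φ) (hι : Fintype.card ι ≤ 4) (a : ι → ℤ) {τ : V → ℂ}
    (hc : CS τ) (hτ : ContDiffOn ℝ 1 τ Om) :
    Tendsto (fun j => ∑ i, ∫ v, τ v * mono (Φ j) (a - Pi.single i 1) v ∂mV) l (𝓝 0) := by
  refine tendsto_sum_zero h.tend (fun i => a i - 1)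
    (fun i => h.isBigO_mono hι _ hc hτ.continuousOn) ?_
  refine ((h.isBigO_mono hι a hc.Em (continuousOn_Em hτ)).const_mul_left I).congr_left fun j => ?_
  have e := ibp_Em hτ hc ((h.lad j).cd_mono a)
  have e2 : ∫ v, τ v * Em (mono (Φ j) a) v ∂mV = ∑ i, I * (al (lam j) (a i - 1) *
      ∫ v, τ v * mono (Φ j) (a - Pi.single i 1) v ∂mV) := by
    simp only [← integral_const_mul]
    rw [← integral_finsetSum _ fun i _ => (((hc.mul_right _).integrable
      (hτ.continuousOn.mul ((h.lad j).cd_mono _).continuousOn)).const_mul _).const_mul _]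
    refine integral_congr_ae (ae_Om.mono fun v hv => ?_)
    simp only [((h.lad j).hasE_mono a hv).em, Finset.mul_sum]
    exact Finset.sum_congr rfl fun i _ => by ring
  rw [e2, ← Finset.mul_sum] at e
  linear_combination I * e - (∑ i, (al (lam j) (a i - 1) *
      ∫ v, τ v * mono (Φ j) (a - Pi.single i 1) v ∂mV)) * I_mul_I

omit [DecidableEq ι] in
lemma integral_psi {lam : ℝ} {Φ : ℤ → V → ℂ} (h : Ladder lam Φ) {τ : ℂ → ℂ} (hτ : TF τ)
    (a : ι → ℤ) : ∫ z, τ z * psi Φ a z ∂hyp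
      = ∫ v, (τ (pr v) * om v ^ (-∑ i, a i)) * mono Φ a v ∂mV := by
  rw [integral_hyp_eq (hτ.integrable_mul (h.cd_psi a).continuousOn).aestronglyMeasurable]
  refine integral_congr_ae (ae_Om.mono fun v hv => ?_)
  simp only [h.psi_pr a hv, mul_assoc]

omit [DecidableEq ι] in
lemma Fam.isBigO_psi (h : Fam l lam Φ) (hι : Fintype.card ι ≤ 4) (a : ι → ℤ) {τ : ℂ → ℂ}
    (hτ : TF τ) : (fun j => ∫ z, τ z * psi (Φ j) a z ∂hyp) =O[l] fun _ => (1 : ℝ) := by
  simp only [integral_psi (h.lad _) hτ]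
  exact h.isBigO_mono hι a (hτ.cs.mul_right _) (hτ.contOn.mul (contDiffOn_om_zpow (n := 0) _).continuousOn)

lemma Fam.vanish_psi_up (h : Fam l lam Φ) (hι : Fintype.card ι ≤ 4) (a : ι → ℤ) {τ : ℂ → ℂ}
    (hτ : TF τ) (hd : ContDiff ℝ 1 τ) :
    Tendsto (fun j => ∑ i, ∫ z, τ z * psi (Φ j) (a + Pi.single i 1) z ∂hyp) l (𝓝 0) := by
  have := h.vanish_up hι a (τ := fun v => τ (pr v) * om v ^ (-(∑ i, a i + 1)))
    (hτ.cs.mul_right _) ((hd.comp_contDiffOn contDiffOn_pr).mul (contDiffOn_om_zpow _))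
  simpa [integral_psi (h.lad _) hτ, Finset.sum_add_distrib, Finset.sum_pi_single'] using this

lemma Fam.vanish_psi_down (h : Fam l lam Φ) (hι : Fintype.card ι ≤ 4) (a : ι → ℤ) {τ : ℂ → ℂ}
    (hτ : TF τ) (hd : ContDiff ℝ 1 τ) :
    Tendsto (fun j => ∑ i, ∫ z, τ z * psi (Φ j) (a - Pi.single i 1) z ∂hyp) l (𝓝 0) := by
  have := h.vanish_down hι a (τ := fun v => τ (pr v) * om v ^ (-(∑ i, a i - 1)))
    (hτ.cs.mul_right _) ((hd.comp_contDiffOn contDiffOn_pr).mul (contDiffOn_om_zpow _))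
  simpa [integral_psi (h.lad _) hτ, Finset.sum_sub_distrib, Finset.sum_pi_single'] using this

/-- ultralimit -/
def ul {E : Type} [NormedAddCommGroup E] (U : Ultrafilter J) (f : J → E) : E :=
  haveI : Nonempty E := ⟨0⟩
  limUnder U f

lemma tendsto_ul {E : Type} [NormedAddCommGroup E] [ProperSpace E] {U : Ultrafilter J}
    {f : J → E} (h : f =O[U] fun _ => (1 : ℝ)) : Tendsto f U (𝓝 (ul U f)) := by
  obtain ⟨C, hC⟩ := h.bound
  obtain ⟨x, -, hx⟩ := (isCompact_closedBall (0 : E) C).ultrafilter_le_nhds (U.map f) (by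
    rw [le_principal_iff, Ultrafilter.mem_coe, Ultrafilter.mem_map]
    exact hC.mono fun j hj => by simpa using hj)
  exact tendsto_nhds_limUnder ⟨x, hx⟩

variable {U : Ultrafilter J}

/-- the limit multilinear functional -/
def QQ (U : Ultrafilter J) (Φ : J → ℤ → V → ℂ) (τ : ℂ → ℂ) : LA ι →ₗ[ℝ] ℂ :=
  lin fun a => ul U fun j => ∫ z, τ z * psi (Φ j) a z ∂hyp

/-- the function attached to a Laurent polynomial -/
def GG (Φ : ℤ → V → ℂ) (P : LA ι) (z : ℂ) : ℂ := lin (fun a => psi Φ a z) P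

omit [DecidableEq ι] in
@[simp] lemma GG_single (Φ : ℤ → V → ℂ) (a : ι → ℤ) (c : ℝ) (z : ℂ) :
    GG Φ (AddMonoidAlgebra.single a c) z = c * psi Φ a z := by simp [GG]

omit [DecidableEq ι] in
@[simp] lemma GG_add (Φ : ℤ → V → ℂ) (P P' : LA ι) (z : ℂ) :
    GG Φ (P + P') z = GG Φ P z + GG Φ P' z := by simp [GG]

omit [DecidableEq ι] in
@[simp] lemma GG_zero (Φ : ℤ → V → ℂ) (z : ℂ) : GG Φ (0 : LA ι) z = 0 := by simp [GG]

omit [DecidableEq ι] in
lemma Ladder.cont_GG {lam : ℝ} {Φ : ℤ → V → ℂ} (h : Ladder lam Φ) (P : LA ι) :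
    ContinuousOn (GG Φ P) UH := by
  induction P using AddMonoidAlgebra.induction_linear with
  | zero => exact continuousOn_const.congr fun z _ => GG_zero Φ z
  | add f g hf hg => exact (hf.add hg).congr fun z _ => GG_add Φ f g z
  | single a c =>
    exact (continuousOn_const.mul (h.cd_psi a).continuousOn).congr fun z _ => GG_single Φ a c z

omit [DecidableEq ι] in
theorem Fam.tendsto_QQ (h : Fam U lam Φ) (hι : Fintype.card ι ≤ 4) {τ : ℂ → ℂ} (hτ : TF τ)
    (P : LA ι) : Tendsto (fun j => ∫ z, τ z * GG (Φ j) P z ∂hyp) U (𝓝 (QQ U Φ τ P)) := by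
  induction P using AddMonoidAlgebra.induction_linear with
  | zero => simp
  | add f g hf hg =>
    rw [map_add]
    refine (hf.add hg).congr fun j => ?_
    simp only [GG_add, mul_add]
    rw [integral_add (hτ.integrable_mul ((h.lad j).cont_GG f))
      (hτ.integrable_mul ((h.lad j).cont_GG g))]
  | single a c =>
    have := (tendsto_ul (h.isBigO_psi hι a hτ)).const_mul (c : ℂ)
    simp only [QQ, lin_single, real_smul, GG_single]
    refine this.congr fun j => ?_
    rw [← integral_const_mul]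
    congr 1; ext z; ring

theorem Fam.kills (h : Fam U lam Φ) (hι : Fintype.card ι ≤ 4) {τ : ℂ → ℂ} (hτ : TF τ)
    (hd : ContDiff ℝ 1 τ) : Kills (QQ (ι := ι) U Φ τ) := by
  refine kills_lin (fun a => ?_) fun a => ?_
  · exact tendsto_nhds_unique
      (tendsto_finsetSum _ fun i _ => tendsto_ul (h.isBigO_psi hι _ hτ)) (h.vanish_psi_up hι a hτ hd)
  · exact tendsto_nhds_unique
      (tendsto_finsetSum _ fun i _ => tendsto_ul (h.isBigO_psi hι _ hτ))
      (h.vanish_psi_down hι a hτ hd)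

theorem QQ_rel (U : Ultrafilter J) (Φ : J → ℤ → V → ℂ) (τ : ℂ → ℂ) (σ : ι ≃ ι) (P : LA ι) :
    QQ U Φ τ (rel σ P) = QQ U Φ τ P := by
  apply lin_rel_equiv
  intro a
  have : ∀ j z, psi (Φ j) (a ∘ σ.symm) z = psi (Φ j) a z := fun j z =>
    Equiv.prod_comp σ.symm fun i => ph (Φ j) (a i) z
  simp only [this]

omit [DecidableEq ι] in
lemma Ladder.conj_GG {lam : ℝ} {Φ : ℤ → V → ℂ} (h : Ladder lam Φ) (P : LA ι) (z : ℂ) :
    conj (GG Φ P z) = GG Φ (invol P) z := by
  induction P using AddMonoidAlgebra.induction_linear with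
  | zero => simp
  | add f g hf hg => simp [hf, hg]
  | single a c =>
    simp only [invol_single, GG_single, psi, ph, map_mul, conj_ofReal, map_prod, h.cnj,
      Finset.prod_mul_distrib, Pi.neg_apply]
    have : ∏ i, (-1 : ℂ) ^ a i = (-1) ^ ∑ i, a i := by
      classical
      induction (Finset.univ : Finset ι) using Finset.induction_on with
      | empty => simp
      | insert i s hi ih =>
        rw [Finset.prod_insert hi, Finset.sum_insert hi, ih, zpow_add₀ (by norm_num)]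
    rw [this]; push_cast; ring

lemma Ladder.conj_GG_aeval {lam : ℝ} {Φ : ℤ → V → ℂ} (h : Ladder lam Φ) (i k : ι)
    (p : Polynomial ℝ) (z : ℂ) :
    conj (GG Φ (Polynomial.aeval (cc i k) p) z) = GG Φ (Polynomial.aeval (cc i k) p) z := by
  rw [h.conj_GG, ← Polynomial.aeval_algHom_apply, invol_cc]

lemma GG_four (Φ : ℤ → V → ℂ) (P P' : LA (Fin 2)) (z : ℂ) :
    GG Φ (rel (![0, 1] : Fin 2 → Fin 4) P * rel (![2, 3] : Fin 2 → Fin 4) P') z
      = GG Φ P z * GG Φ P' z := by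
  induction P using AddMonoidAlgebra.induction_linear with
  | zero => simp
  | add f g hf hg => simp [add_mul, hf, hg]
  | single a c =>
    induction P' using AddMonoidAlgebra.induction_linear with
    | zero => simp
    | add f g hf hg => simp [mul_add, hf, hg]
    | single a' c' =>
      simp only [rel_single, AddMonoidAlgebra.single_mul_single, GG_single, psi,
        Fin.prod_univ_four, Fin.prod_univ_two]
      simp [relHom, Fin.sum_univ_two]
      ring

lemma GG_three (Φ : ℤ → V → ℂ) (P : LA (Fin 2)) (z : ℂ) :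
    GG Φ (rel (![0, 1] : Fin 2 → Fin 3) P) z = GG Φ P z * ph Φ 0 z := by
  induction P using AddMonoidAlgebra.induction_linear with
  | zero => simp
  | add f g hf hg => simp [add_mul, hf, hg]
  | single a c =>
    simp only [rel_single, GG_single, psi, Fin.prod_univ_three, Fin.prod_univ_two]
    simp [relHom, Fin.sum_univ_two]
    ring

omit [DecidableEq ι] in
lemma GG_one (Φ : ℤ → V → ℂ) (z : ℂ) : GG Φ (1 : LA ι) z = ph Φ 0 z ^ Fintype.card ι := by
  simp [AddMonoidAlgebra.one_def, psi]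

end fam

end Pool.Agent.Lib.MP_a52643_an
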